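import Pool.Agent.H62.LadDefs

/-!
A universal theory with linear rules and its universal model.
-/

namespace Pool.Agent.H62.Lad

open Function List

abbrev Rl (β : Type) := ℕ → List β → Prop
abbrev In := ℕ × List (ℕ × ℕ × ℕ) × ℕ × List (ℕ × ℕ)

variable {β γ : Type} {T : List In} {ar : List ℕ}

def At (R : Rl β) (k : ℕ) (a b : β) : Prop :=
  (k = 0 ∧ a = b) ∨ (k = 1 ∧ R 0 [a, b]) ∨ (k = 2 ∧ R 0 [b, a]) ∨ (k = 3 ∧ R 1 [a]) ∨
    (k = 4 ∧ R 2 [a])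

def Step (T : List In) (R : Rl β) (φ ψ : ℕ × List β) : Prop :=
  ∃ I ∈ T, φ.1 = I.1 ∧ ψ.1 = I.2.2.1 ∧
    (∀ c ∈ I.2.1, ∃ a b, φ.2[c.2.1]? = some a ∧ φ.2[c.2.2]? = some b ∧ At R c.1 a b) ∧
    Forall₂ (fun m b => ∃ a, φ.2[m.2]? = some a ∧ At R m.1 a b) I.2.2.2 ψ.2

structure Good (T : List In) (R : Rl β) : Prop where
  fn : ∀ x y z, R 0 [x, y] → R 0 [x, z] → y = z
  inj : ∀ x y z, R 0 [y, x] → R 0 [z, x] → y = z
  col : ∀ x, ∃ a < 4, R (5 + a) [x]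
  uq : ∀ x, ∀ a < 4, ∀ b < 4, R (5 + a) [x] → R (5 + b) [x] → a = b
  edge : ∀ x y, ∀ a < 4, R 3 [x, y] → R (5 + a) [x] → R (5 + a) [y] → R 4 [x, y]
  step : ∀ φ ψ : ℕ × List β, R φ.1 φ.2 → Step T R φ ψ → R ψ.1 ψ.2

structure WF (T : List In) (ar : List ℕ) : Prop where
  a0 : ar[0]? = some 2
  a1 : ar[1]? = some 1
  a2 : ar[2]? = some 1
  a3 : ar[3]? = some 2
  a4 : ar[4]? = some 2
  a5 : ∀ a < 4, ar[5 + a]? = some 1
  pos : ∀ a ∈ ar, 0 < a
  src : ∀ I ∈ T, I.1 < 5 ∨ 9 ≤ I.1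
  tgt : ∀ I ∈ T, I.2.2.1 = 4 ∨ 9 ≤ I.2.2.1
  len : ∀ I ∈ T, (I.2.2.1 = ar.length ∧ I.2.2.2 = []) ∨ ar[I.2.2.1]? = some I.2.2.2.length
  mv : ∀ I ∈ T, ∀ m ∈ I.2.2.2, m.1 ≤ 2

def pull (f : γ → β) (R : Rl β) : Rl γ := fun i l => R i (l.map f)

theorem At.map {R : Rl β} {R' : Rl γ} {f : γ → β} (h : ∀ i < 3, ∀ l, R' i l → R i (l.map f))
    {k a b} (H : At R' k a b) : At R k (f a) (f b) := by
  rcases H with ⟨e, rfl⟩ | ⟨e, H⟩ | ⟨e, H⟩ | ⟨e, H⟩ | ⟨e, H⟩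
  exacts [.inl ⟨e, rfl⟩, .inr (.inl ⟨e, h _ (by omega) _ H⟩),
    .inr (.inr (.inl ⟨e, h _ (by omega) _ H⟩)), .inr (.inr (.inr (.inl ⟨e, h _ (by omega) _ H⟩))),
    .inr (.inr (.inr (.inr ⟨e, h _ (by omega) _ H⟩)))]

theorem Step.map {R : Rl β} {R' : Rl γ} {f : γ → β} (h : ∀ i < 3, ∀ l, R' i l → R i (l.map f))
    {φ ψ} (H : Step T R' φ ψ) : Step T R (φ.1, φ.2.map f) (ψ.1, ψ.2.map f) := by
  obtain ⟨I, h1, h2, h3, h4, h5⟩ := H
  refine ⟨I, h1, h2, h3, fun c hc => ?_, forall₂_map_right_iff.2 (h5.imp ?_)⟩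
  · obtain ⟨a, b, e1, e2, e3⟩ := h4 c hc
    exact ⟨f a, f b, by simp [e1], by simp [e2], e3.map h⟩
  · rintro m b ⟨a, e1, e2⟩
    exact ⟨f a, by simp [e1], e2.map h⟩

theorem At.refl {R : Rl β} {f : γ → β} (hf : Injective f) {k a b} (H : At R k (f a) (f b)) :
    At (pull f R) k a b := H.imp (And.imp_right fun h => hf h) id

theorem Step.refl {R : Rl β} {f : γ → β} (hf : Injective f) {i j : ℕ} {l l' : List γ}
    (H : Step T R (i, l.map f) (j, l'.map f)) : Step T (pull f R) (i, l) (j, l') := by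
  obtain ⟨I, h1, h2, h3, h4, h5⟩ := H
  refine ⟨I, h1, h2, h3, fun c hc => ?_, (forall₂_map_right_iff.1 h5).imp ?_⟩
  · obtain ⟨a, b, e1, e2, e3⟩ := h4 c hc
    simp only [getElem?_map, Option.map_eq_some_iff] at e1 e2
    obtain ⟨a, e1, rfl⟩ := e1
    obtain ⟨b, e2, rfl⟩ := e2
    exact ⟨a, b, e1, e2, e3.refl hf⟩
  · rintro m b ⟨a, e1, e2⟩
    simp only [getElem?_map, Option.map_eq_some_iff] at e1
    obtain ⟨a, e1, rfl⟩ := e1
    exact ⟨a, e1, e2.refl hf⟩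

theorem Good.pull {R : Rl β} (h : Good T R) {f : γ → β} (hf : Injective f) : Good T (pull f R) :=
  ⟨fun _ _ _ a b => hf (h.fn _ _ _ a b), fun _ _ _ a b => hf (h.inj _ _ _ a b),
    fun x => h.col (f x), fun x => h.uq (f x), fun x y => h.edge (f x) (f y),
    fun φ ψ a b => h.step (φ.1, φ.2.map f) (ψ.1, ψ.2.map f) a (b.map fun _ _ _ c => c)⟩

def Cov (T : List In) (R : Rl β) (l : List β) : Prop :=
  ∃ (γ : Type) (f : γ → β), Injective f ∧ Good T (pull f R) ∧ ∀ x ∈ l, ∃ a, f a = x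

theorem lift_list {f : γ → β} {l : List β} (h : ∀ x ∈ l, ∃ a, f a = x) : ∃ l', l = map f l' := by
  induction l with
  | nil => exact ⟨[], rfl⟩
  | cons x l ih =>
    obtain ⟨a, rfl⟩ := h x (by simp)
    obtain ⟨l', rfl⟩ := ih fun y hy => h y (by simp [hy])
    exact ⟨a :: l', rfl⟩

theorem good_of_cov {R : Rl β} (h1 : ∀ x y z, R 0 [x, y] → R 0 [x, z] → Cov T R [x, y, z])
    (h1' : ∀ x y z, R 0 [y, x] → R 0 [z, x] → Cov T R [x, y, z]) (h2 : ∀ x, Cov T R [x])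
    (h3 : ∀ x y, R 3 [x, y] → Cov T R [x, y])
    (h4 : ∀ φ ψ : ℕ × List β, R φ.1 φ.2 → Step T R φ ψ → Cov T R (φ.2 ++ ψ.2)) : Good T R := by
  refine ⟨fun x y z a b => ?_, fun x y z a b => ?_, fun x => ?_, fun x => ?_,
    fun x y a ha b => ?_, fun φ ψ a b => ?_⟩
  · obtain ⟨γ, f, -, g, e⟩ := h1 x y z a b
    simp only [forall_mem_cons] at e
    obtain ⟨⟨x, rfl⟩, ⟨y, rfl⟩, ⟨z, rfl⟩, -⟩ := e
    rw [g.fn x y z a b]
  · obtain ⟨γ, f, -, g, e⟩ := h1' x y z a b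
    simp only [forall_mem_cons] at e
    obtain ⟨⟨x, rfl⟩, ⟨y, rfl⟩, ⟨z, rfl⟩, -⟩ := e
    rw [g.inj x y z a b]
  · obtain ⟨γ, f, -, g, e⟩ := h2 x
    obtain ⟨x, rfl⟩ := e x (by simp)
    exact g.col x
  · obtain ⟨γ, f, -, g, e⟩ := h2 x
    obtain ⟨x, rfl⟩ := e x (by simp)
    exact g.uq x
  · obtain ⟨γ, f, -, g, e⟩ := h3 x y b
    simp only [forall_mem_cons] at e
    obtain ⟨⟨x, rfl⟩, ⟨y, rfl⟩, -⟩ := e
    exact g.edge x y a ha b
  · obtain ⟨γ, f, hf, g, e⟩ := h4 φ ψ a b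
    obtain ⟨i, l⟩ := φ
    obtain ⟨j, l'⟩ := ψ
    obtain ⟨l, rfl⟩ := lift_list (l := l) fun x hx => e x (by simp [hx])
    obtain ⟨l', rfl⟩ := lift_list (l := l') fun x hx => e x (by simp [hx])
    exact g.step (i, l) (j, l') a (b.refl hf)

theorem cover (l : List β) : ∃ m ≤ l.length, ∃ f : Fin m → β, Injective f ∧ ∀ x ∈ l, ∃ a, f a = x := by
  classical
  exact ⟨l.dedup.length, (dedup_sublist l).length_le, l.dedup.get, (nodup_dedup l).injective_get,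
    fun x hx => get_of_mem (mem_dedup.2 hx)⟩

def Str.pull (M : Str ar β) (f : γ → β) : Str ar γ :=
  ⟨Lad.pull f M.rel, fun i l h => by simpa using M.wf _ _ h⟩

abbrev Ix (T : List In) (ar : List ℕ) := {c : Σ n, Str ar (Fin n) // Good T c.2.rel}

def UA (T : List In) (ar : List ℕ) : Str ar (Σ c : Ix T ar, Fin c.1.1) :=
  ⟨fun i l => ∃ c l0, l = map (Sigma.mk c) l0 ∧ c.1.2.rel i l0, by
    rintro i _ ⟨c, l0, rfl, h⟩
    simpa using c.1.2.wf _ _ h⟩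

theorem ua_same {i l x y} (h : (UA T ar).rel i l) (hx : x ∈ l) (hy : y ∈ l) : y.1 = x.1 := by
  obtain ⟨c, l0, rfl, -⟩ := h
  obtain ⟨a, -, rfl⟩ := mem_map.1 hx
  obtain ⟨b, -, rfl⟩ := mem_map.1 hy
  rfl

theorem ua_pull (W : WF T ar) (c : Ix T ar) : pull (Sigma.mk c) (UA T ar).rel = c.1.2.rel := by
  funext i l
  refine propext ⟨?_, fun h => ⟨c, l, rfl, h⟩⟩
  rintro ⟨c', l0, e, h⟩
  have h1 := W.pos _ (mem_of_getElem? (c'.1.2.wf _ _ h))
  obtain rfl : c = c' := by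
    cases l0 with
    | nil => simp at h1
    | cons a l0 =>
      cases l with
      | nil => simp at e
      | cons b l => exact congrArg Sigma.fst (cons.inj e).1
  rwa [map_injective_iff.2 sigma_mk_injective e]

theorem ua_cov (W : WF T ar) (c : Ix T ar) {l} (h : ∀ x ∈ l, Sigma.fst x = c) :
    Cov T (UA T ar).rel l :=
  ⟨_, Sigma.mk c, sigma_mk_injective, (ua_pull W c).symm ▸ c.2, fun x hx => by
    obtain rfl := h x hx
    exact ⟨x.2, rfl⟩⟩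

theorem forall₂_mem {α β : Type} {P : α → β → Prop} {l l'} (h : Forall₂ P l l') :
    ∀ b ∈ l', ∃ a ∈ l, P a b := by
  induction h with
  | nil => simp
  | cons h _ ih =>
    intro b hb
    rcases mem_cons.1 hb with rfl | hb
    · exact ⟨_, by simp, h⟩
    · obtain ⟨a, h1, h2⟩ := ih b hb
      exact ⟨a, by simp [h1], h2⟩

theorem ua_good (W : WF T ar) : Good T (UA T ar).rel := by
  refine good_of_cov (fun x y z a b => ua_cov W x.1 ?_) (fun x y z a b => ua_cov W x.1 ?_)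
    (fun x => ua_cov W x.1 (by simp)) (fun x y a => ua_cov W x.1 ?_) fun φ ψ a b => ?_
  · simpa using ⟨ua_same a (by simp) (by simp), ua_same b (by simp) (by simp)⟩
  · simpa using ⟨ua_same a (by simp) (by simp), ua_same b (by simp) (by simp)⟩
  · simpa using ua_same a (by simp) (by simp)
  · obtain ⟨c, l0, e, -⟩ := a
    have h1 : ∀ x ∈ φ.2, x.1 = c := fun x hx => by
      obtain ⟨a, -, rfl⟩ := mem_map.1 (e ▸ hx)
      rfl
    refine ua_cov W c fun x hx => (mem_append.1 hx).elim (h1 x) fun hx => ?_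
    obtain ⟨I, hI, -, -, -, h⟩ := b
    obtain ⟨m, hm, a, h2, h3⟩ := forall₂_mem h x hx
    have := W.mv I hI m hm
    rw [← h1 a (mem_of_getElem? h2)]
    rcases h3 with ⟨e, rfl⟩ | ⟨e, H⟩ | ⟨e, H⟩ | ⟨e, H⟩ | ⟨e, H⟩
    exacts [rfl, ua_same H (by simp) (by simp), ua_same H (by simp) (by simp), by omega, by omega]

theorem emb_good {B : Str ar γ} {A : Str ar β} (h : Emb B A) (g : Good T A.rel) : Good T B.rel := by
  obtain ⟨f, hf, e⟩ := h
  have : B.rel = pull f A.rel := funext fun i => funext fun l => propext (e i l)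
  exact this ▸ g.pull hf

instance [Finite β] : Finite (Str ar β) := by
  have h : {p : ℕ × List β | p.1 < ar.length ∧ p.2.length ≤ ar.sum}.Finite :=
    ((Set.finite_lt_nat ar.length).prod (List.finite_length_le β ar.sum)).subset fun p hp => hp
  refine Set.finite_univ_iff.1 ((h.finite_subsets.preimage
    (f := fun B : Str ar β => {p : ℕ × List β | B.rel p.1 p.2})
    (Injective.injOn ?_)).subset fun B _ p hp => ?_)
  · rintro ⟨r, _⟩ ⟨r', _⟩ e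
    congr 1
    funext i l
    exact propext (Set.ext_iff.1 e (i, l))
  · have := B.wf _ _ hp
    exact ⟨(List.getElem?_eq_some_iff.1 this).1, single_le_sum (by simp) _ (mem_of_getElem? this)⟩

theorem ua_bdd (W : WF T ar) : FinBounded (UA T ar) := by
  refine ⟨{C | C.1 ≤ 2 * ar.sum + 3 ∧ ¬ Good T C.2.rel}, ?_, fun n B => ⟨fun h C hC e =>
    hC.2 (emb_good e (emb_good h (ua_good W))), fun h => ?_⟩⟩
  · refine ((Set.finite_le_nat (2 * ar.sum + 3)).biUnion fun n _ =>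
      Set.finite_range (Sigma.mk n)).subset fun C hC => ?_
    exact Set.mem_biUnion hC.1 ⟨C.2, rfl⟩
  have hc : ∀ l : List (Fin n), l.length ≤ 2 * ar.sum + 3 → Cov T B.rel l := fun l hl => by
    obtain ⟨m, h1, f, h2, h3⟩ := cover l
    refine ⟨_, f, h2, by_contra fun g => h ⟨m, B.pull f⟩ ⟨h1.trans hl, g⟩ ⟨f, h2, fun _ _ => .rfl⟩, h3⟩
  have g : Good T B.rel := by
    refine good_of_cov (fun _ _ _ _ _ => hc _ (by simp)) (fun _ _ _ _ _ => hc _ (by simp))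
      (fun _ => hc _ (by simp)) (fun _ _ _ => hc _ (by simp)) fun φ ψ a b => hc _ ?_
    obtain ⟨I, hI, -, -, -, h⟩ := b
    have h1 := single_le_sum (by simp) _ (mem_of_getElem? (B.wf _ _ a))
    rw [length_append, ← h.length_eq]
    rcases W.len I hI with ⟨-, e⟩ | e
    · simp [e]; omega
    · have := single_le_sum (by simp) _ (mem_of_getElem? e)
      omega
  exact ⟨Sigma.mk (β := fun c : Ix T ar => Fin c.1.1) ⟨⟨n, B⟩, g⟩, sigma_mk_injective, fun i l =>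
    (congrFun (congrFun (ua_pull W ⟨⟨n, B⟩, g⟩) i) l).symm.to_iff⟩

def Sat (T : List In) (ar : List ℕ) (F : List (ℕ × List ℕ)) : Prop :=
  ∃ (β : Type) (M : Str ar β), Good T M.rel ∧ ∃ h : ℕ → β, ∀ f ∈ F, M.rel f.1 (f.2.map h)

theorem hom_iff (W : WF T ar) {c : Code} (hc : Valid ar c) :
    Hom (str ar c) (UA T ar) ↔ Sat T ar c.2 := by
  constructor
  · rintro ⟨h, hh⟩
    let M : Str ar (Fin 1) := ⟨fun i l => i = 5 ∧ l = [0], by
      rintro _ _ ⟨rfl, rfl⟩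
      exact W.a5 0 (by omega)⟩
    have g : Good T M.rel := ⟨fun _ _ _ _ _ => Subsingleton.elim _ _,
      fun _ _ _ _ _ => Subsingleton.elim _ _, fun x => ⟨0, by omega, rfl, by simp [Fin.fin_one_eq_zero x]⟩,
      fun _ _ _ _ _ a b => by have := a.1; have := b.1; omega, fun _ _ _ _ a => by simp [M] at a,
      fun φ ψ a ⟨I, hI, e, _⟩ => by have := W.src I hI; have := a.1; omega⟩
    refine ⟨_, UA T ar, ua_good W, fun x => if e : x < c.1 then h ⟨x, e⟩ else ⟨⟨⟨1, M⟩, g⟩, 0⟩,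
      fun f hf => ?_⟩
    obtain ⟨l, e⟩ := lift_list (f := (Fin.val : Fin c.1 → ℕ)) (l := f.2) fun x hx =>
      ⟨⟨x, (hc f hf).2 x hx⟩, rfl⟩
    have := hh f.1 l ⟨by simpa [e] using (hc f hf).1, by rw [← e]; exact hf⟩
    rw [e, map_map]
    convert this using 2
    funext x
    simp
  · rintro ⟨β, M, g, h, hh⟩
    obtain ⟨m, -, f, h2, h3⟩ := cover ((range c.1).map h)
    choose u hu using fun x : Fin c.1 => h3 (h x) (mem_map_of_mem (by simp))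
    refine ⟨fun x => ⟨⟨⟨m, M.pull f⟩, g.pull h2⟩, u x⟩, fun i l hl =>
      ⟨⟨⟨m, M.pull f⟩, g.pull h2⟩, l.map u, by rw [map_map]; rfl, ?_⟩⟩
    have := hh _ hl.2
    show M.rel i _
    simpa [comp_def, hu] using this

end Pool.Agent.H62.Lad
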