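import Mathlib

set_option autoImplicit false

namespace Pool.Agent.H62.AchGen

open Set Filter Topology

noncomputable def r (x : ℕ → ℝ) (n : ℕ) : ℝ := ∑' i, x (n + 1 + i)

noncomputable def sm (x : ℕ → ℝ) (n : ℕ) (ε : ℕ → Bool) : ℝ :=
  ∑' i, if ε i then x (n + 1 + i) else 0

def E (x : ℕ → ℝ) (n : ℕ) : Set ℝ := range (sm x n)

noncomputable def s (x : ℕ → ℝ) (n : ℕ) : ℕ → ℕ → ℝ
  | 0, _ => 0
  | (t + 1), k => s x n t (k / 2) + ((k % 2 : ℕ) : ℝ) * x (n + t + 1)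

structure Hyp (x : ℕ → ℝ) (w γ : ℝ) (π : ℕ) : Prop where
  pos : ∀ i, 0 < x (i + 1)
  w0 : 0 < w
  w1 : w ≤ 1 / 3
  near : ∀ i, |x (i + 1) - (1 / 2) ^ (i + 1)| ≤ w ^ (i + 1)
  g0 : 0 < γ
  g1 : γ ≤ 1
  par : π < 2
  gap : ∀ a, (a + 1) % 2 = π → γ * w ^ (a + 1) ≤ x (a + 1) - r x (a + 1)

variable {x : ℕ → ℝ} {w γ : ℝ} {π : ℕ}

lemma s_even (n t k : ℕ) : s x n (t + 1) (2 * k) = s x n t k := by
  rw [s, show 2 * k / 2 = k by omega, show 2 * k % 2 = 0 by omega]; simp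

lemma s_odd (n t k : ℕ) : s x n (t + 1) (2 * k + 1) = s x n t k + x (n + t + 1) := by
  rw [s, show (2 * k + 1) / 2 = k by omega, show (2 * k + 1) % 2 = 1 by omega]; simp

namespace Hyp

variable (H : Hyp x w γ π)
include H

lemma x_pos' (n i : ℕ) : 0 < x (n + 1 + i) := by
  rw [show n + 1 + i = (n + i) + 1 by ring]; exact H.pos _

lemma near' (n i : ℕ) : ‖x (n + 1 + i) - (1 / 2) ^ (n + 1) * (1 / 2) ^ i‖ ≤ w ^ (n + 1) * w ^ i := by
  rw [← pow_add, ← pow_add, show n + 1 + i = (n + i) + 1 by ring]; exact H.near _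

lemma geom_w (n : ℕ) : HasSum (fun i => w ^ (n + 1) * w ^ i) (w ^ (n + 1) * (1 - w)⁻¹) :=
  (hasSum_geometric_of_lt_one H.w0.le (by linarith [H.w1])).mul_left _

lemma summable_x (n : ℕ) : Summable fun i => x (n + 1 + i) := by
  have h1 := Summable.of_norm_bounded (H.geom_w n).summable (H.near' n)
  have h2 := summable_geometric_two.mul_left ((1 / 2 : ℝ) ^ (n + 1))
  simpa using h1.add h2

lemma r_near (n : ℕ) : |r x n - (1 / 2) ^ n| ≤ w ^ n / 2 := by
  have h1 := tsum_of_norm_bounded (H.geom_w n) (H.near' n)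
  have h2 := summable_geometric_two.mul_left ((1 / 2 : ℝ) ^ (n + 1))
  rw [(H.summable_x n).tsum_sub h2, tsum_mul_left, tsum_geometric_two, Real.norm_eq_abs] at h1
  have e : (1 / 2 : ℝ) ^ (n + 1) * 2 = (1 / 2) ^ n := by rw [pow_succ]; ring
  rw [e] at h1
  refine h1.trans ?_
  have := H.w0
  have := H.w1
  have hp : 0 < w ^ n := by positivity
  rw [← div_eq_mul_inv, div_le_iff₀ (by linarith), pow_succ]
  nlinarith

lemma r_step (n : ℕ) : r x n = x (n + 1) + r x (n + 1) := by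
  unfold r
  rw [(H.summable_x n).tsum_eq_zero_add]
  congr 2
  funext i
  rw [show n + 1 + (i + 1) = n + 1 + 1 + i by ring]

lemma term_le (n : ℕ) (ε : ℕ → Bool) (i : ℕ) :
    ‖if ε i then x (n + 1 + i) else 0‖ ≤ x (n + 1 + i) := by
  have := H.x_pos' n i
  split_ifs
  · rw [Real.norm_eq_abs, abs_of_pos this]
  · simpa using this.le

lemma summable_term (n : ℕ) (ε : ℕ → Bool) :
    Summable fun i => if ε i then x (n + 1 + i) else 0 :=
  Summable.of_norm_bounded (H.summable_x n) (H.term_le n ε)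

lemma E_bounds {n : ℕ} {z : ℝ} (hz : z ∈ E x n) : 0 ≤ z ∧ z ≤ r x n := by
  obtain ⟨ε, rfl⟩ := hz
  constructor
  · refine tsum_nonneg fun i => ?_
    split_ifs
    · exact (H.x_pos' n i).le
    · exact le_rfl
  · exact (le_abs_self _).trans (tsum_of_norm_bounded (H.summable_x n).hasSum (H.term_le n ε))

lemma E_step {n : ℕ} {z : ℝ} (hz : z ∈ E x n) :
    z ∈ E x (n + 1) ∨ z - x (n + 1) ∈ E x (n + 1) := by
  obtain ⟨ε, rfl⟩ := hz
  have h : sm x n ε = (if ε 0 then x (n + 1) else 0) + sm x (n + 1) (fun i => ε (i + 1)) := by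
    unfold sm
    rw [(H.summable_term n ε).tsum_eq_zero_add]
    congr 2
    funext i
    rw [show n + 1 + (i + 1) = n + 1 + 1 + i by ring]
  rw [h]
  split_ifs
  · right; exact ⟨_, by ring⟩
  · left; exact ⟨_, by ring⟩

lemma E_decomp {n : ℕ} {z : ℝ} (hz : z ∈ E x n) (t : ℕ) :
    ∃ k < 2 ^ t, z - s x n t k ∈ E x (n + t) := by
  induction t with
  | zero => exact ⟨0, by norm_num, by simpa [s] using hz⟩
  | succ t ih =>
    obtain ⟨k, hk, h⟩ := ih
    rcases H.E_step h with h | h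
    · exact ⟨2 * k, by rw [pow_succ]; omega, by rw [s_even]; exact h⟩
    · exact ⟨2 * k + 1, by rw [pow_succ]; omega, by rw [s_odd, ← sub_sub]; exact h⟩

lemma s_near (n t : ℕ) : ∀ k < 2 ^ t,
    |s x n t k - k * (1 / 2) ^ (n + t)| ≤ (w ^ n - w ^ (n + t)) / 2 := by
  induction t with
  | zero => intro k hk; obtain rfl : k = 0 := by omega
            simp [s]
  | succ t ih =>
    intro k hk
    rw [pow_succ] at hk
    have h0 := H.w0
    have h1 := H.w1
    have hp : 0 < w ^ (n + t) := by positivity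
    have hw : 3 * (w ^ (n + t) * w) ≤ w ^ (n + t) := by nlinarith
    have hw' : 0 ≤ w ^ (n + t) * w := by positivity
    obtain ⟨j, rfl | rfl⟩ := Nat.even_or_odd' k
    · have := abs_le.mp (ih j (by omega))
      rw [s_even, ← add_assoc, pow_succ, pow_succ, abs_le]
      push_cast
      constructor <;> linarith [this.1, this.2]
    · have := abs_le.mp (ih j (by omega))
      have h2 := abs_le.mp (H.near (n + t))
      rw [pow_succ, pow_succ] at h2
      rw [s_odd, ← add_assoc, pow_succ, pow_succ, abs_le]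
      push_cast
      constructor <;> linarith [this.1, this.2, h2.1, h2.2]

lemma r_le (m : ℕ) : r x m ≤ (1 / 2) ^ m + w ^ m / 2 := by
  linarith [(abs_le.mp (H.r_near m)).2]

lemma junction (n e q d : ℕ) : ∀ k, k + 1 = 2 ^ d * (2 * q + 1) →
    s x n (e + 1 + d) k + r x (n + (e + 1 + d)) - s x n (e + 1 + d) (k + 1) =
      r x (n + e + 1) - x (n + e + 1) := by
  induction d with
  | zero =>
    intro k hk
    obtain rfl : k = 2 * q := by omega
    rw [add_zero, s_even, s_odd, ← add_assoc]; ring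
  | succ d ih =>
    intro k hk
    have hpos : 0 < 2 ^ d * (2 * q + 1) := by positivity
    obtain ⟨j, hj⟩ : ∃ j, j + 1 = 2 ^ d * (2 * q + 1) := ⟨2 ^ d * (2 * q + 1) - 1, by omega⟩
    have hk2 : k + 1 = 2 * (j + 1) := by rw [hk, hj]; ring
    have hk3 : k = 2 * j + 1 := by omega
    have := ih j hj
    rw [H.r_step (n + (e + 1 + d))] at this
    rw [hk2, hk3, ← add_assoc (e + 1), s_even, s_odd, ← add_assoc n (e + 1 + d)]
    linarith

lemma over_le (a : ℕ) : r x (a + 1) - x (a + 1) ≤ 3 / 2 * w ^ (a + 1) := by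
  linarith [H.r_le (a + 1), (abs_le.mp (H.near a)).1]

/-- only two sub-branches can be present near a grid point -/
lemma two {n : ℕ} {z : ℝ} (hz : z ∈ E x n) (t : ℕ) (κ : ℤ)
    (hκ : |z - κ * (1 / 2) ^ (n + t)| < (1 / 2) ^ (n + t) - w ^ n) :
    ∃ k < 2 ^ t, z - s x n t k ∈ E x (n + t) ∧ ((k : ℤ) = κ ∨ (k : ℤ) + 1 = κ) := by
  obtain ⟨k, hk, h⟩ := H.E_decomp hz t
  refine ⟨k, hk, h, ?_⟩
  have h1 := abs_le.mp (H.s_near n t k hk)
  have h2 := H.E_bounds h
  have h3 := H.r_le (n + t)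
  have h4 := abs_lt.mp hκ
  have hp : (0 : ℝ) < (1 / 2) ^ (n + t) := by positivity
  have hq : (0 : ℝ) < w ^ (n + t) := pow_pos H.w0 _
  have hq' : (0 : ℝ) < w ^ n := pow_pos H.w0 _
  have a1 : (k : ℝ) < κ + 1 := by
    by_contra hc
    push Not at hc
    nlinarith [h1.1, h1.2, h2.1, h2.2, h4.1, h4.2]
  have a2 : (κ : ℝ) < k + 2 := by
    by_contra hc
    push Not at hc
    nlinarith [h1.1, h1.2, h2.1, h2.2, h4.1, h4.2]
  have b1 : (k : ℤ) < κ + 1 := by exact_mod_cast a1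
  have b2 : κ < (k : ℤ) + 2 := by exact_mod_cast a2
  omega

/-- reduce one branch -/
lemma red (n t : ℕ) (u a L ρ : ℝ) (κ : ℤ) (hρ : 0 ≤ ρ) (hL : 6 * ρ < L)
    (h1 : ∀ y ∈ Icc a (a + L), |y - u - κ * (1 / 2) ^ (n + t)| < (1 / 2) ^ (n + t) - w ^ n)
    (h2 : ∀ k : ℕ, k + 1 < 2 ^ t → (k : ℤ) + 1 = κ →
      s x n t k + r x (n + t) - s x n t (k + 1) ≤ ρ) :
    ∃ a' u', a ≤ a' ∧ a' + L / 3 ≤ a + L ∧
      ∀ y ∈ Icc a' (a' + L / 3), y - u ∈ E x n → y - u' ∈ E x (n + t) := by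
  by_cases hc : ∃ k : ℕ, k + 1 < 2 ^ t ∧ (k : ℤ) + 1 = κ
  · obtain ⟨k, hk, hkκ⟩ := hc
    have h3 := h2 k hk hkκ
    rcases le_total (u + s x n t (k + 1)) (a + L / 2) with h | h
    · refine ⟨a + 2 * L / 3, u + s x n t (k + 1), by linarith, by linarith, fun y hy hyE => ?_⟩
      obtain ⟨k', -, hk', h4 | h4⟩ := H.two hyE t κ (h1 y ⟨by linarith [hy.1], by linarith [hy.2]⟩)
      · obtain rfl : k' = k + 1 := by omega
        convert hk' using 1; ring
      · obtain rfl : k' = k := by omega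
        have := (H.E_bounds hk').2
        linarith [hy.1]
    · refine ⟨a, u + s x n t k, le_rfl, by linarith, fun y hy hyE => ?_⟩
      obtain ⟨k', -, hk', h4 | h4⟩ := H.two hyE t κ (h1 y ⟨by linarith [hy.1], by linarith [hy.2]⟩)
      · obtain rfl : k' = k + 1 := by omega
        have := (H.E_bounds hk').1
        linarith [hy.2]
      · obtain rfl : k' = k := by omega
        convert hk' using 1; ring
  · push Not at hc
    by_cases h0 : κ ≤ 0
    · refine ⟨a, u + s x n t 0, le_rfl, by linarith, fun y hy hyE => ?_⟩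
      obtain ⟨k', -, hk', h4⟩ := H.two hyE t κ (h1 y ⟨by linarith [hy.1], by linarith [hy.2]⟩)
      obtain rfl : k' = 0 := by omega
      convert hk' using 1; ring
    · obtain ⟨k, hk⟩ : ∃ k : ℕ, (k : ℤ) + 1 = κ := ⟨(κ - 1).toNat, by omega⟩
      refine ⟨a, u + s x n t k, le_rfl, by linarith, fun y hy hyE => ?_⟩
      obtain ⟨k', hlt, hk', h4 | h4⟩ :=
        H.two hyE t κ (h1 y ⟨by linarith [hy.1], by linarith [hy.2]⟩)
      · exact absurd hk (hc k (by omega))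
      · obtain rfl : k' = k := by omega
        convert hk' using 1; ring

/-- reduce a list of branches -/
lemma redList (n t : ℕ) (ρ : ℝ) (hρ : 0 ≤ ρ) (U : List ℝ) : ∀ (a L : ℝ),
    6 * ρ * 3 ^ U.length < L →
    (∀ u ∈ U, ∃ κ : ℤ,
      (∀ y ∈ Icc a (a + L), |y - u - κ * (1 / 2) ^ (n + t)| < (1 / 2) ^ (n + t) - w ^ n) ∧
      ∀ k : ℕ, k + 1 < 2 ^ t → (k : ℤ) + 1 = κ →
        s x n t k + r x (n + t) - s x n t (k + 1) ≤ ρ) →
    ∃ a', ∃ U' : List ℝ, U'.length = U.length ∧ a ≤ a' ∧ a' + L / 3 ^ U.length ≤ a + L ∧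
      ∀ y ∈ Icc a' (a' + L / 3 ^ U.length), (∀ u' ∈ U', y - u' ∉ E x (n + t)) →
        ∀ u ∈ U, y - u ∉ E x n := by
  induction U with
  | nil => intro a L _ _; exact ⟨a, [], rfl, le_rfl, by simp, by simp⟩
  | cons u U ih =>
    intro a L hL h
    rw [List.length_cons, pow_succ] at hL
    have h3 : (1 : ℝ) ≤ 3 ^ U.length := one_le_pow₀ (by norm_num)
    obtain ⟨κ, hκ1, hκ2⟩ := h u List.mem_cons_self
    obtain ⟨a1, u', ha1, ha2, hu'⟩ := H.red n t u a L ρ κ hρ (by nlinarith) hκ1 hκ2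
    obtain ⟨a', U', hlen, hb1, hb2, hU'⟩ := ih a1 (L / 3) (by linarith) (fun v hv => by
      obtain ⟨κ', h1, h2⟩ := h v (List.mem_cons_of_mem _ hv)
      exact ⟨κ', fun y hy => h1 y ⟨by linarith [hy.1], by linarith [hy.2]⟩, h2⟩)
    have heq : L / 3 ^ (u :: U).length = L / 3 / 3 ^ U.length := by
      rw [List.length_cons, pow_succ]; field_simp
    rw [heq]
    refine ⟨a', u' :: U', by simp [hlen], by linarith, by linarith, fun y hy hy' v hv => ?_⟩
    rcases List.mem_cons.mp hv with rfl | hv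
    · intro hE
      exact hy' u' List.mem_cons_self (hu' y ⟨by linarith [hy.1], by linarith [hy.2]⟩ hE)
    · exact hU' y hy (fun w hw => hy' w (List.mem_cons_of_mem _ hw)) v hv

/-- a gap of one branch next to an odd grid point of the right parity -/
lemma gap' (n t : ℕ) (hev : (n + t + 1) % 2 = π) (κ : ℤ) (hκ : Odd κ)
    (hn : 3 * w ^ n < (1 / 2) ^ (n + (t + 1))) :
    ∃ g : ℝ, |g - κ * (1 / 2) ^ (n + (t + 1))| ≤ w ^ n ∧
      ∀ z ∈ Icc g (g + γ / 2 * w ^ (n + (t + 1))), z ∉ E x n := by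
  have h0 := H.w0
  have h1 := H.w1
  have hq : (0 : ℝ) < w ^ (n + (t + 1)) := by positivity
  have hq' : (0 : ℝ) < w ^ n := by positivity
  have hle : w ^ (n + (t + 1)) ≤ w ^ n / 3 := by
    calc w ^ (n + (t + 1)) ≤ w ^ (n + 1) :=
          pow_le_pow_of_le_one h0.le (by linarith) (by omega)
      _ ≤ _ := by rw [pow_succ]; nlinarith
  have hγ : γ * w ^ (n + (t + 1)) ≤ w ^ (n + (t + 1)) := mul_le_of_le_one_left hq.le H.g1
  have hγ0 : 0 < γ * w ^ (n + (t + 1)) := mul_pos H.g0 hq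
  have key : ∀ g : ℝ, |g - κ * (1 / 2) ^ (n + (t + 1))| ≤ w ^ n →
      ∀ z ∈ Icc g (g + γ / 2 * w ^ (n + (t + 1))),
        |z - κ * (1 / 2) ^ (n + (t + 1))| < (1 / 2) ^ (n + (t + 1)) - w ^ n := by
    intro g hg z hz
    rw [abs_le] at hg
    rw [abs_lt]
    constructor <;> linarith [hz.1, hz.2, hg.1, hg.2]
  by_cases hc : ∃ k : ℕ, k + 1 < 2 ^ (t + 1) ∧ (k : ℤ) + 1 = κ
  · obtain ⟨k, hk, hkκ⟩ := hc
    obtain ⟨q, hq2⟩ := hκ
    have hj := H.junction n t q.toNat 0 k (by omega)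
    have hgap := H.gap (n + t) hev
    rw [add_zero] at hj
    rw [add_assoc] at hgap hj
    have hs := abs_le.mp (H.s_near n (t + 1) (k + 1) hk)
    have hκ' : (κ : ℝ) = ((k + 1 : ℕ) : ℝ) := by rw [← hkκ]; push_cast; ring
    have hg : |s x n (t + 1) (k + 1) - 3 / 4 * (γ * w ^ (n + (t + 1))) -
        κ * (1 / 2) ^ (n + (t + 1))| ≤ w ^ n := by
      rw [hκ', abs_le]
      constructor <;> linarith [hs.1, hs.2]
    refine ⟨_, hg, fun z hz hE => ?_⟩
    obtain ⟨k', -, hk', h4 | h4⟩ := H.two hE (t + 1) κ (key _ hg z hz)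
    · obtain rfl : k' = k + 1 := by omega
      have := (H.E_bounds hk').1
      linarith [hz.2]
    · obtain rfl : k' = k := by omega
      have := (H.E_bounds hk').2
      linarith [hz.1]
  · push Not at hc
    have hg : |(κ : ℝ) * (1 / 2) ^ (n + (t + 1)) - κ * (1 / 2) ^ (n + (t + 1))| ≤ w ^ n := by
      simpa using hq'.le
    refine ⟨_, hg, fun z hz hE => ?_⟩
    obtain ⟨k', hlt, hk', h4⟩ := H.two hE (t + 1) κ (key _ hg z hz)
    obtain ⟨q, hq2⟩ := hκ
    rw [pow_succ] at hlt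
    simp only [pow_succ 2 t] at hc
    rcases h4 with h4 | h4
    · exact hc (k' - 1) (by omega) (by omega)
    · exact hc k' (by omega) h4

end Hyp

end Pool.Agent.H62.AchGen
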