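import Mathlib

set_option autoImplicit false

namespace Pool.Agent.H62.Brouwer

open Set Filter Topology

structure Good (S : Set ℝ) : Prop where
  cpt : IsCompact S
  ne : S.Nonempty
  perf : Preperfect S
  nd : ∀ a b : ℝ, a < b → ∃ y ∈ Icc a b, y ∉ S

lemma split {S : Set ℝ} (h : Good S) : ∃ T : Bool → Set ℝ, (∀ b, Good (T b)) ∧
    Disjoint (T false) (T true) ∧ T false ∪ T true = S ∧
    ∀ δ : ℝ, (∀ x ∈ S, ∀ y ∈ S, x - y ≤ δ) → ∀ b, ∀ x ∈ T b, ∀ y ∈ T b, x - y ≤ 2 / 3 * δ := by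
  obtain ⟨a, ha, ha'⟩ := h.cpt.exists_isLeast h.ne
  obtain ⟨b, hb, hb'⟩ := h.cpt.exists_isGreatest h.ne
  have hab : a < b := by
    obtain ⟨y, ⟨-, hy⟩, hne⟩ := (accPt_iff_nhds.mp (h.perf a ha)) univ univ_mem
    exact (lt_of_le_of_ne (ha' hy) hne.symm).trans_le (hb' hy)
  obtain ⟨c, hc, hcS⟩ := h.nd (a + (b - a) / 3) (b - (b - a) / 3) (by linarith)
  have e1 : Iio c ∩ S = Iic c ∩ S := by
    ext y
    exact ⟨fun h => ⟨Iio_subset_Iic_self h.1, h.2⟩,
      fun h => ⟨mem_Iio.mpr (lt_of_le_of_ne (mem_Iic.mp h.1) (by rintro rfl; exact hcS h.2)), h.2⟩⟩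
  have e2 : Ioi c ∩ S = Ici c ∩ S := by
    ext y
    exact ⟨fun h => ⟨Ioi_subset_Ici_self h.1, h.2⟩,
      fun h => ⟨mem_Ioi.mpr (lt_of_le_of_ne (mem_Ici.mp h.1) (by rintro rfl; exact hcS h.2)), h.2⟩⟩
  have nd : ∀ V : Set ℝ, ∀ a b : ℝ, a < b → ∃ y ∈ Icc a b, y ∉ V ∩ S := fun V a b hab => by
    obtain ⟨y, hy, hy'⟩ := h.nd a b hab
    exact ⟨y, hy, fun h => hy' h.2⟩
  refine ⟨fun b => bif b then Ioi c ∩ S else Iio c ∩ S, ?_, ?_, ?_, ?_⟩
  · rintro (_ | _)
    · exact ⟨by simp only [cond_false]; rw [e1]; exact h.cpt.inter_left isClosed_Iic,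
        ⟨a, by simp only [cond_false]; exact ⟨by rw [mem_Iio]; linarith [hc.1], ha⟩⟩,
        h.perf.open_inter isOpen_Iio, nd _⟩
    · exact ⟨by simp only [cond_true]; rw [e2]; exact h.cpt.inter_left isClosed_Ici,
        ⟨b, by simp only [cond_true]; exact ⟨by rw [mem_Ioi]; linarith [hc.2], hb⟩⟩,
        h.perf.open_inter isOpen_Ioi, nd _⟩
  · rw [Set.disjoint_left]
    rintro y ⟨h1, -⟩ ⟨h2, -⟩
    exact lt_asymm (mem_Iio.mp h1) (mem_Ioi.mp h2)
  · ext y
    simp only [cond_false, cond_true, mem_union, mem_inter_iff, mem_Iio, mem_Ioi]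
    constructor
    · rintro (h | h) <;> exact h.2
    · intro hy
      rcases lt_trichotomy y c with h1 | rfl | h1
      · exact Or.inl ⟨h1, hy⟩
      · exact absurd hy hcS
      · exact Or.inr ⟨h1, hy⟩
  · intro δ hδ
    have := hδ b hb a ha
    rintro (_ | _) x ⟨hx1, hx2⟩ y ⟨hy1, hy2⟩
    · have := ha' hy2
      rw [mem_Iio] at hx1
      linarith [hc.2]
    · have := hb' hx2
      rw [mem_Ioi] at hy1
      linarith [hc.1]

theorem homeo {K : Set ℝ} (hK : Good K) : Nonempty (K ≃ₜ (ℕ → Bool)) := by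
  classical
  choose ch hg hdis huni hdiam using fun S : {S // Good S} => split S.2
  let T : (ℕ → Bool) → ℕ → {S // Good S} := fun ω n =>
    Nat.rec ⟨K, hK⟩ (fun n S => ⟨ch S (ω n), hg S _⟩) n
  have T0 : ∀ ω, (T ω 0).1 = K := fun ω => rfl
  have Ts : ∀ ω n, (T ω (n + 1)).1 = ch (T ω n) (ω n) := fun ω n => rfl
  have hsub : ∀ S b, ch S b ⊆ S.1 := by
    intro S b
    rw [← huni S]
    cases b
    · exact subset_union_left
    · exact subset_union_right
  have Tdep : ∀ ω ω' n, (∀ i < n, ω i = ω' i) → T ω n = T ω' n := by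
    intro ω ω' n
    induction n with
    | zero => intro _; rfl
    | succ n ih =>
      intro h
      apply Subtype.ext
      rw [Ts, Ts, ih fun i hi => h i (by omega), h n (by omega)]
  obtain ⟨δ, hδ⟩ : ∃ δ : ℝ, ∀ x ∈ K, ∀ y ∈ K, x - y ≤ δ := by
    obtain ⟨a, -, ha'⟩ := hK.cpt.exists_isLeast hK.ne
    obtain ⟨b, -, hb'⟩ := hK.cpt.exists_isGreatest hK.ne
    exact ⟨b - a, fun x hx y hy => by linarith [ha' hy, hb' hx]⟩
  have Tdiam : ∀ ω n, ∀ x ∈ (T ω n).1, ∀ y ∈ (T ω n).1, x - y ≤ (2 / 3) ^ n * δ := by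
    intro ω n
    induction n with
    | zero => rw [T0]; simpa using hδ
    | succ n ih =>
      rw [Ts, pow_succ', mul_assoc]
      exact hdiam _ _ ih _
  have hlim : Tendsto (fun n : ℕ => (2 / 3 : ℝ) ^ n * δ) atTop (𝓝 0) := by
    simpa using (tendsto_pow_atTop_nhds_zero_of_lt_one (r := (2 / 3 : ℝ)) (by norm_num)
      (by norm_num)).mul_const δ
  have hne : ∀ ω, (⋂ n, (T ω n).1).Nonempty := fun ω =>
    IsCompact.nonempty_iInter_of_sequence_nonempty_isCompact_isClosed _
      (fun n => by rw [Ts]; exact hsub _ _) (fun n => (T ω n).2.ne) hK.cpt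
      fun n => (T ω n).2.cpt.isClosed
  choose f hf using hne
  simp only [mem_iInter] at hf
  have hcont : Continuous f := by
    rw [continuous_iff_continuousAt]
    intro ω
    rw [ContinuousAt, Metric.tendsto_nhds]
    intro ε hε
    obtain ⟨n, hn⟩ := (hlim.eventually (gt_mem_nhds hε)).exists
    have : ∀ᶠ ω' in 𝓝 ω, ∀ i ∈ Finset.range n, ω' i = ω i := by
      rw [eventually_all_finset]
      intro i _
      exact (continuous_apply i).continuousAt.eventually
        ((isOpen_discrete {ω i}).mem_nhds rfl)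
    filter_upwards [this] with ω' h
    have h1 := hf ω' n
    rw [Tdep ω' ω n fun i hi => h i (Finset.mem_range.mpr hi)] at h1
    rw [Real.dist_eq, abs_lt]
    constructor <;> linarith [Tdiam ω n _ h1 _ (hf ω n), Tdiam ω n _ (hf ω n) _ h1]
  have hinj : Function.Injective f := by
    intro ω ω' h
    have : ∀ n, ∀ i < n, ω i = ω' i := by
      intro n
      induction n with
      | zero => intro i hi; omega
      | succ n ih =>
        intro i hi
        rcases Nat.lt_succ_iff_lt_or_eq.mp hi with hi | rfl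
        · exact ih i hi
        · have h1 := hf ω (i + 1)
          have h2 := hf ω' (i + 1)
          rw [Ts] at h1 h2
          rw [← Tdep ω ω' i ih, ← h] at h2
          by_contra hne
          cases h3 : ω i <;> cases h4 : ω' i <;> rw [h3] at h1 hne <;> rw [h4] at h2 hne
          · exact hne rfl
          · exact Set.disjoint_left.mp (hdis _) h1 h2
          · exact Set.disjoint_left.mp (hdis _) h2 h1
          · exact hne rfl
    exact funext fun i => this (i + 1) i (by omega)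
  have hsurj : ∀ z ∈ K, ∃ ω, f ω = z := by
    intro z hz
    let S : ℕ → {S // Good S} := fun n =>
      Nat.rec ⟨K, hK⟩ (fun _ S => ⟨ch S (decide (z ∈ ch S true)), hg S _⟩) n
    let ω : ℕ → Bool := fun n => decide (z ∈ ch (S n) true)
    have h1 : ∀ n, T ω n = S n := by
      intro n
      induction n with
      | zero => rfl
      | succ n ih => apply Subtype.ext; rw [Ts, ih]
    have h2 : ∀ n, z ∈ (S n).1 := by
      intro n
      induction n with
      | zero => exact hz
      | succ n ih =>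
        change z ∈ ch (S n) (decide (z ∈ ch (S n) true))
        by_cases h : z ∈ ch (S n) true
        · simp [h]
        · rw [← huni] at ih
          simpa [h] using ih
    refine ⟨ω, ?_⟩
    have h3 : ∀ n, |f ω - z| ≤ (2 / 3) ^ n * δ := by
      intro n
      have : z ∈ (T ω n).1 := by rw [h1]; exact h2 n
      rw [abs_le]
      constructor <;> linarith [Tdiam ω n _ this _ (hf ω n), Tdiam ω n _ (hf ω n) _ this]
    have := ge_of_tendsto' hlim h3
    exact sub_eq_zero.mp (abs_nonpos_iff.mp this)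
  let F : (ℕ → Bool) ≃ K := Equiv.ofBijective (fun ω => ⟨f ω, hf ω 0⟩)
    ⟨fun ω ω' h => hinj (congrArg Subtype.val h), fun z => by
      obtain ⟨ω, hω⟩ := hsurj z.1 z.2
      exact ⟨ω, Subtype.ext hω⟩⟩
  have hF : Continuous F := hcont.subtype_mk _
  exact ⟨hF.homeoOfEquivCompactToT2.symm⟩

end Pool.Agent.H62.Brouwer
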