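import Pool.Agent.H62.Jones1

set_option autoImplicit false

namespace Pool.Agent.H62.Jones

open Set Filter Topology

lemma overlap_small (n t k : ℕ) (hk : k + 1 < 2 ^ t) :
    s (n + t) k + r (n + t) - s (n + t) (k + 1) ≤ (1 / 3) ^ n := by
  obtain ⟨d, q, ⟨q, rfl⟩, hd⟩ := Nat.exists_eq_two_pow_mul_odd (Nat.succ_ne_zero k)
  have hdt : d < t := by
    have : 2 ^ d < 2 ^ t := lt_of_le_of_lt (by
      rw [Nat.succ_eq_add_one] at hd; rw [hd]; exact Nat.le_mul_of_pos_right _ (by omega)) hk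
    exact (Nat.pow_lt_pow_iff_right (by norm_num)).mp this
  obtain ⟨e, rfl⟩ : ∃ e, t = e + 1 + d := ⟨t - 1 - d, by omega⟩
  rw [← add_assoc, junction' _ d q k hd]
  have h2 := neg_abs_le ((-1 / 3 : ℝ) ^ (n + (e + 1)))
  rw [abs_neg_third] at h2
  have h3 : (1 / 3 : ℝ) ^ (n + (e + 1)) ≤ (1 / 3) ^ (n + 1) :=
    pow_le_pow_of_le_one (by norm_num) (by norm_num) (by omega)
  rw [pow_succ] at h3
  have hq' : (0 : ℝ) < (1 / 3) ^ n := by positivity
  linarith

lemma overlap_good (n1 C d' : ℕ) (hev : Even n1) (κ0 κ1 : ℤ) (h1 : Odd κ1)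
    (hgood : (2 : ℤ) ^ (C + d' + 1) ∣ κ0 ∨ ¬ (2 : ℤ) ^ (d' + 1) ∣ κ0) (k : ℕ)
    (hk : (k : ℤ) + 1 = κ0 + κ1 * 2 ^ (C + d')) (hC : 1 ≤ C) :
    s (n1 + (C + d')) k + r (n1 + (C + d')) - s (n1 + (C + d')) (k + 1) ≤
      5 / 4 * (1 / 3) ^ (n1 + C) := by
  obtain ⟨d, q, ⟨q, rfl⟩, hd⟩ := Nat.exists_eq_two_pow_mul_odd (Nat.succ_ne_zero k)
  rw [Nat.succ_eq_add_one] at hd
  have hd' : (k : ℤ) + 1 = 2 ^ d * (2 * q + 1) := by exact_mod_cast hd
  have hq' : (0 : ℝ) < (1 / 3) ^ (n1 + C) := by positivity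
  rcases hgood with ⟨c, hc⟩ | hg
  · obtain ⟨c1, rfl⟩ := h1
    have e1 : (k : ℤ) + 1 = 2 ^ (C + d') * (2 * (c + c1) + 1) := by rw [hk, hc, pow_succ]; ring
    have hpos : 0 ≤ c + c1 := by
      by_contra hneg
      have : (0 : ℤ) < 2 ^ (C + d') := by positivity
      nlinarith
    obtain ⟨q', hq⟩ := Int.eq_ofNat_of_zero_le hpos
    rw [hq] at e1
    rw [junction' n1 (C + d') q' k (by exact_mod_cast e1),
      show (-1 / 3 : ℝ) = -(1 / 3) by ring, hev.neg_pow]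
    have : (0 : ℝ) < (1 / 3) ^ n1 := by positivity
    linarith
  · have hdd : d ≤ d' := by
      by_contra hlt
      apply hg
      have a1 : (2 : ℤ) ^ (d' + 1) ∣ (k : ℤ) + 1 := by
        rw [hd']; exact (pow_dvd_pow 2 (by omega)).mul_right _
      have a2 : (2 : ℤ) ^ (d' + 1) ∣ κ1 * 2 ^ (C + d') := (pow_dvd_pow 2 (by omega)).mul_left _
      rw [hk] at a1
      exact (dvd_add_left a2).mp a1
    obtain ⟨e, rfl⟩ := Nat.exists_eq_add_of_le hdd
    rw [show n1 + (C + (d + e)) = n1 + C + e + d by ring, junction' _ d q k hd]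
    have h2 := neg_abs_le ((-1 / 3 : ℝ) ^ (n1 + C + e))
    rw [abs_neg_third] at h2
    have h3 : (1 / 3 : ℝ) ^ (n1 + C + e) ≤ (1 / 3) ^ (n1 + C) :=
      pow_le_pow_of_le_one (by norm_num) (by norm_num) (by omega)
    linarith

lemma pigeon (U : List ℝ) (N C D0 : ℕ) (hU : U.length ≤ N) (f : ℝ → ℤ) :
    ∃ i ≤ N, ∀ u ∈ U, (2 : ℤ) ^ (C + (D0 + 2 * C * i) + 1) ∣ f u ∨
      ¬ (2 : ℤ) ^ ((D0 + 2 * C * i) + 1) ∣ f u := by
  classical
  by_contra hcon
  push Not at hcon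
  choose! g hg using hcon
  have hcard : (Finset.range (N + 1)).card ≤ U.toFinset.card := by
    refine Finset.card_le_card_of_injOn g (fun i hi => ?_) ?_
    · have hi' : i ≤ N := by simpa [Nat.lt_succ_iff] using hi
      simpa using (hg i hi').1
    · have key : ∀ i ≤ N, ∀ j ≤ N, i < j → g i ≠ g j := by
        intro i hi j hj hij heq
        have h1 := (hg i hi).2.1
        have h2 := (hg j hj).2.2
        rw [← heq] at h2
        refine h1 ((pow_dvd_pow 2 ?_).trans h2)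
        have : 2 * C * (i + 1) ≤ 2 * C * j := Nat.mul_le_mul_left _ hij
        nlinarith
      intro i hi j hj hij
      have hi' : i ≤ N := by simpa [Nat.lt_succ_iff] using hi
      have hj' : j ≤ N := by simpa [Nat.lt_succ_iff] using hj
      rcases lt_trichotomy i j with h | h | h
      · exact absurd hij (key i hi' j hj' h)
      · exact h
      · exact absurd hij.symm (key j hj' i hi' h)
  have := List.toFinset_card_le U
  rw [Finset.card_range] at hcard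
  omega

lemma round_near (v h : ℝ) (hh : 0 < h) : |v - round (v / h) * h| ≤ h / 2 := by
  have := abs_sub_round (v / h)
  have e : v - round (v / h) * h = (v / h - round (v / h)) * h := by field_simp
  rw [e, abs_mul, abs_of_pos hh]
  nlinarith

theorem avoid (N : ℕ) : ∀ c : ℝ, 0 < c → ∃ n0 : ℕ, ∀ n ≥ n0, ∀ U : List ℝ, U.length ≤ N →
    ∀ a : ℝ, ∃ y ∈ Icc a (a + c * (1 / 2) ^ n), ∀ u ∈ U, y - u ∉ E n := by
  induction N with
  | zero =>
    intro c hc
    refine ⟨0, fun n _ U hU a => ⟨a, ⟨le_rfl, by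
      have : 0 < c * (1 / 2) ^ n := by positivity
      linarith⟩, ?_⟩⟩
    obtain rfl : U = [] := List.length_eq_zero_iff.mp (by omega)
    simp
  | succ N ih =>
    intro c hc
    obtain ⟨n1, hn1⟩ := ih (1 / (2 * 3 ^ N)) (by positivity)
    obtain ⟨σ, hσ⟩ := exists_pow_lt_of_lt_one (show 0 < c / 4 by positivity)
      (show (1 / 2 : ℝ) < 1 by norm_num)
    set T := σ + 1 + (2 * N + 4) + 2 * (N + 2) * N with hT
    obtain ⟨n2, hn2⟩ := exists_pow_lt_of_lt_one (show (0 : ℝ) < (1 / 2) ^ T / 8 by positivity)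
      (show (2 / 3 : ℝ) < 1 by norm_num)
    refine ⟨max n1 n2, fun n hn U hU a => ?_⟩
    have hη : 8 * (1 / 3 : ℝ) ^ n < (1 / 2) ^ (n + T) := by
      have h1 : (2 / 3 : ℝ) ^ n ≤ (2 / 3) ^ n2 :=
        pow_le_pow_of_le_one (by norm_num) (by norm_num) (le_of_max_le_right hn)
      have h2 : (1 / 3 : ℝ) ^ n = (2 / 3) ^ n * (1 / 2) ^ n := by rw [← mul_pow]; norm_num
      have h3 : (0 : ℝ) < (1 / 2) ^ n := by positivity
      rw [h2, pow_add]
      nlinarith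
    rcases U with _ | ⟨u1, U⟩
    · exact ⟨a, ⟨le_rfl, by
        have : 0 < c * (1 / 2) ^ n := by positivity
        linarith⟩, by simp⟩
    have hU' : U.length ≤ N := by simpa using hU
    -- parity adjustment and choice of the level of the gap
    obtain ⟨D0, hD0, hD1, hpar⟩ : ∃ D0, N + 1 ≤ D0 ∧ D0 ≤ N + 2 ∧ (n + T + N + D0) % 2 = 0 := by
      by_cases h : (n + T + N + (N + 1)) % 2 = 0
      · exact ⟨N + 1, le_rfl, by omega, h⟩
      · exact ⟨N + 2, by omega, le_rfl, by omega⟩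
    obtain ⟨i, hi, hgood⟩ := pigeon U N (N + 2) D0 hU'
      (fun u => round ((u1 - u) / (1 / 2) ^ (n + T)))
    have hi2 : 2 * (N + 2) * i ≤ 2 * (N + 2) * N := Nat.mul_le_mul_left _ hi
    obtain ⟨d', hd'⟩ : ∃ d', d' = D0 + 2 * (N + 2) * i := ⟨_, rfl⟩
    have hd2 : d' % 2 = D0 % 2 := by rw [hd', mul_assoc]; omega
    rw [← hd'] at hgood
    obtain ⟨t, ht⟩ : ∃ t, T = t + (N + 2 + d') := ⟨T - (N + 2 + d'), by omega⟩
    have htσ : σ + 1 ≤ t := by omega
    have hev : Even (n + t) := by rw [Nat.even_iff]; omega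
    have hd3 : N + 1 ≤ d' := by omega
    have hm : n + T = n + t + (N + 2 + d') := by omega
    have hH : (1 / 2 : ℝ) ^ (n + t) = 2 ^ (N + 2 + d') * (1 / 2) ^ (n + T) := by
      rw [hm, pow_add _ (n + t), mul_comm, mul_assoc, ← mul_pow]; norm_num
    have hHle : (1 / 2 : ℝ) ^ (n + T) ≤ (1 / 2) ^ (n + t) :=
      pow_le_pow_of_le_one (by norm_num) (by norm_num) (by omega)
    have hHc : 4 * (1 / 2 : ℝ) ^ (n + t) ≤ c * (1 / 2) ^ n := by
      have h1 : (1 / 2 : ℝ) ^ t ≤ (1 / 2) ^ σ :=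
        pow_le_pow_of_le_one (by norm_num) (by norm_num) (by omega)
      have h3 : (0 : ℝ) < (1 / 2) ^ n := by positivity
      rw [pow_add]; nlinarith
    have hHp : (0 : ℝ) < (1 / 2) ^ (n + t) := by positivity
    have hηp : (0 : ℝ) < (1 / 3) ^ n := by positivity
    -- an odd grid point in the window
    obtain ⟨κ1, hodd, hp1, hp2⟩ : ∃ κ1 : ℤ, Odd κ1 ∧
        a + (1 / 3) ^ n - u1 ≤ κ1 * (1 / 2 : ℝ) ^ (n + t) ∧
        κ1 * (1 / 2 : ℝ) ^ (n + t) ≤ a + (1 / 3) ^ n - u1 + 2 * (1 / 2) ^ (n + t) := by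
      set v := (a + (1 / 3) ^ n - u1) / (1 / 2) ^ (n + t) with hv
      have hv' : a + (1 / 3) ^ n - u1 = v * (1 / 2) ^ (n + t) := by rw [hv]; field_simp
      have b1 := Int.le_ceil ((v - 1) / 2)
      have b2 := Int.ceil_lt_add_one ((v - 1) / 2)
      refine ⟨2 * ⌈(v - 1) / 2⌉ + 1, odd_two_mul_add_one _, ?_, ?_⟩
      · rw [hv']; push_cast; nlinarith
      · rw [hv']; push_cast; nlinarith
    obtain ⟨g, hg1, hg2⟩ := gap n t (by omega) hev κ1 hodd (by linarith)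
    rw [abs_le] at hg1
    have hLp : (0 : ℝ) < (1 / 3) ^ (n + t) := by positivity
    have hLle : (1 / 3 : ℝ) ^ (n + t) ≤ (1 / 3) ^ n :=
      pow_le_pow_of_le_one (by norm_num) (by norm_num) (by omega)
    have h3U : (3 : ℝ) ^ U.length ≤ 3 ^ N := pow_le_pow_right₀ (by norm_num) hU'
    have h3N : (1 : ℝ) ≤ 3 ^ N := one_le_pow₀ (by norm_num)
    have hinv : ∀ j : ℕ, (1 / 3 : ℝ) ^ j * 3 ^ j = 1 := fun j => by rw [← mul_pow]; norm_num
    -- first reduction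
    obtain ⟨a1, U1, hl1, ha1, ha1', hU1⟩ := redList n T (5 / 4 * (1 / 3) ^ (n + t + (N + 2)))
      (by positivity) U (u1 + g) ((1 / 3) ^ (n + t)) (by
        calc 6 * (5 / 4 * (1 / 3 : ℝ) ^ (n + t + (N + 2))) * 3 ^ U.length
            ≤ 6 * (5 / 4 * (1 / 3 : ℝ) ^ (n + t + (N + 2))) * 3 ^ N := by gcongr
          _ = 5 / 6 * (1 / 3) ^ (n + t) * ((1 / 3) ^ N * 3 ^ N) := by
              rw [pow_add _ (n + t), pow_add _ N]; ring
          _ < _ := by rw [hinv]; linarith)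
      (fun u hu => by
        refine ⟨round ((u1 - u) / (1 / 2) ^ (n + T)) + κ1 * 2 ^ (N + 2 + d'), fun y hy => ?_,
          fun k _ hk => ?_⟩
        · have h1 := abs_le.mp (round_near (u1 - u) ((1 / 2) ^ (n + T)) (by positivity))
          have h2 : (κ1 : ℝ) * 2 ^ (N + 2 + d') * (1 / 2) ^ (n + T) =
              κ1 * (1 / 2) ^ (n + t) := by rw [hH]; ring
          push_cast
          rw [add_mul, h2, abs_lt]
          constructor <;> linarith [hy.1, hy.2, h1.1, h1.2, hg1.1, hg1.2]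
        · rw [hm]
          exact overlap_good (n + t) (N + 2) d' hev _ κ1 hodd (hgood u hu) k hk (by omega))
    -- choice of the new level
    have hL1p : (0 : ℝ) < 2 * ((1 / 3) ^ (n + t) / 3 ^ N) := by positivity
    have hL1le : (1 / 3 : ℝ) ^ (n + t) / 3 ^ N ≤ (1 / 3) ^ (n + t) := div_le_self hLp.le h3N
    have hm1 : (1 / 2 : ℝ) ^ (n + T) ≤ 1 := pow_le_one₀ (by norm_num) (by norm_num)
    obtain ⟨j, hj1, hj2⟩ := exists_nat_pow_near_of_lt_one hL1p (by linarith)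
      (show (0 : ℝ) < 1 / 2 by norm_num) (show (1 / 2 : ℝ) < 1 by norm_num)
    have hjm : n + T ≤ j + 1 := by
      by_contra hlt
      have : (1 / 2 : ℝ) ^ (n + T) ≤ (1 / 2) ^ (j + 1) :=
        pow_le_pow_of_le_one (by norm_num) (by norm_num) (by omega)
      linarith
    obtain ⟨T', hT'⟩ := Nat.exists_eq_add_of_le hjm
    rw [pow_succ] at hj1
    have hj3 : (1 / 2 : ℝ) ^ (n + T + T') = (1 / 2) ^ j * (1 / 2) := by rw [← hT', pow_succ]
    have hsmall : 6 * (1 / 3 : ℝ) ^ (n + T) * 3 ^ N < (1 / 2) ^ (n + T + T') / 2 := by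
      have h1 : (1 / 3 : ℝ) ^ (n + T) ≤ (1 / 3) ^ (n + t + (N + N + 3)) :=
        pow_le_pow_of_le_one (by norm_num) (by norm_num) (by omega)
      have h2 : (1 / 3 : ℝ) ^ (n + t) / 3 ^ N = (1 / 3) ^ (n + t) * (1 / 3) ^ N := by
        rw [div_eq_iff (by positivity), mul_assoc, hinv, mul_one]
      have h4 : (0 : ℝ) < (1 / 3) ^ (n + t) * (1 / 3) ^ N := by positivity
      calc 6 * (1 / 3 : ℝ) ^ (n + T) * 3 ^ N
          ≤ 6 * (1 / 3 : ℝ) ^ (n + t + (N + N + 3)) * 3 ^ N := by gcongr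
        _ = 2 / 9 * ((1 / 3) ^ (n + t) * (1 / 3) ^ N) * ((1 / 3) ^ N * 3 ^ N) := by
            rw [pow_add _ (n + t), pow_add _ (N + N), pow_add _ N]; ring
        _ < _ := by rw [hinv, hj3]; rw [h2] at hj2; linarith
    have hmp : (0 : ℝ) < (1 / 3) ^ (n + T) := by positivity
    have hm'p : (0 : ℝ) < (1 / 2) ^ (n + T + T') := by positivity
    obtain ⟨a2, U2, hl2, ha2, ha2', hU2⟩ := redList (n + T) T' ((1 / 3) ^ (n + T))
      hmp.le U1 a1 ((1 / 2) ^ (n + T + T') / 2) (by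
        rw [hl1]
        exact lt_of_le_of_lt (by gcongr) hsmall)
      (fun u _ => by
        refine ⟨round ((a1 + (1 / 2) ^ (n + T + T') / 4 - u) / (1 / 2) ^ (n + T + T')),
          fun y hy => ?_, fun k hk _ => overlap_small _ _ k hk⟩
        have h1 := abs_le.mp (round_near (a1 + (1 / 2) ^ (n + T + T') / 4 - u) _ hm'p)
        have h2 : 6 * (1 / 3 : ℝ) ^ (n + T) < (1 / 2) ^ (n + T + T') / 2 := by nlinarith
        rw [abs_lt]
        constructor <;> linarith [hy.1, hy.2, h1.1, h1.2])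
    obtain ⟨y, hy, hyU⟩ := hn1 (n + T + T') (by have := le_of_max_le_left hn; omega) U2
      (by omega) a2
    have w1 : 1 / (2 * 3 ^ N) * (1 / 2 : ℝ) ^ (n + T + T') ≤
        (1 / 2) ^ (n + T + T') / 2 / 3 ^ U1.length := by
      rw [hl1, div_div, one_div_mul_eq_div]
      gcongr
    have w2 : (1 / 3 : ℝ) ^ (n + t) / 3 ^ N ≤ (1 / 3) ^ (n + t) / 3 ^ U.length := by gcongr
    have hy2 : y ∈ Icc a2 (a2 + (1 / 2) ^ (n + T + T') / 2 / 3 ^ U1.length) :=
      ⟨hy.1, by linarith [hy.2]⟩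
    have hy1 : y ∈ Icc a1 (a1 + (1 / 3) ^ (n + t) / 3 ^ U.length) :=
      ⟨by linarith [hy2.1], by linarith [hy2.2]⟩
    refine ⟨y, ⟨by linarith [hy1.1, hg1.1], by linarith [hy1.2, hg1.2]⟩, fun u hu => ?_⟩
    rcases List.mem_cons.mp hu with rfl | hu
    · exact hg2 _ ⟨by linarith [hy1.1], by linarith [hy1.2]⟩
    · exact hU1 y hy1 (hU2 y hy2 hyU) u hu

theorem exists_not_mem (α β : ℝ) (h : α < β) : ∃ y ∈ Icc α β, y ∉ E 0 := by
  classical
  obtain ⟨q, hq⟩ := exists_pow_lt_of_lt_one (show 0 < (β - α) / 3 by linarith)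
    (show (1 / 2 : ℝ) < 1 by norm_num)
  obtain ⟨n, hn⟩ := avoid (2 ^ q) 1 one_pos
  have hp : (0 : ℝ) < (1 / 2) ^ (n + q) := by positivity
  obtain ⟨i, hi, hcard⟩ := Finset.exists_card_fiber_le_of_card_le_mul
    (f := fun k : ℕ => ⌊(s (n + q) k + r (n + q) - α) / (3 * (1 / 2) ^ (n + q))⌋₊)
    (s := Finset.range (2 ^ (n + q))) (t := Finset.range (2 ^ n)) (n := 2 ^ q)
    ⟨0, by simp⟩ (by simp [pow_add])
  obtain ⟨y, hy, hyU⟩ := hn (n + q) (by omega)
    (((Finset.range (2 ^ (n + q))).filter fun k : ℕ =>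
      ⌊(s (n + q) k + r (n + q) - α) / (3 * (1 / 2) ^ (n + q))⌋₊ = i).toList.map (s (n + q)))
    (by simpa using hcard) (α + i * (3 * (1 / 2) ^ (n + q)))
  have hi' : (i : ℝ) + 1 ≤ 2 ^ n := by
    have : i + 1 ≤ 2 ^ n := by simpa [Nat.succ_le_iff] using hi
    exact_mod_cast this
  have hi0 : (0 : ℝ) ≤ i := Nat.cast_nonneg i
  have e1 : (2 : ℝ) ^ n * (1 / 2) ^ (n + q) = (1 / 2) ^ q := by
    rw [pow_add, ← mul_assoc, ← mul_pow]; norm_num
  refine ⟨y, ⟨by nlinarith [hy.1], by nlinarith [hy.2]⟩, fun hE => ?_⟩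
  obtain ⟨k, hk, hk'⟩ := E_decomp hE (n + q)
  rw [zero_add] at hk'
  refine hyU (s (n + q) k) (List.mem_map.mpr ⟨k, ?_, rfl⟩) hk'
  rw [Finset.mem_toList, Finset.mem_filter, Finset.mem_range]
  refine ⟨hk, ?_⟩
  have b := E_bounds hk'
  have b2 := r_le (n + q)
  have b3 : (1 / 3 : ℝ) ^ (n + q) ≤ (1 / 2) ^ (n + q) :=
    pow_le_pow_left₀ (by norm_num) (by norm_num) _
  rw [Nat.floor_eq_iff (div_nonneg (by nlinarith [hy.1, b.2]) (by positivity)),
    le_div_iff₀ (by positivity), div_lt_iff₀ (by positivity)]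
  constructor
  · linarith [hy.1, b.2]
  · linarith [hy.2, b.1]

end Pool.Agent.H62.Jones
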