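import Pool.Agent.H62.AchGen1
import Pool.Agent.H62.Jones2
import Pool.Agent.H62.Brouwer

set_option autoImplicit false

namespace Pool.Agent.H62.AchGen

open Set Filter Topology

variable {x : ℕ → ℝ} {w γ : ℝ} {π : ℕ}

namespace Hyp

variable (H : Hyp x w γ π)
include H

lemma wle {a b : ℕ} (h : a ≤ b) : w ^ b ≤ w ^ a :=
  pow_le_pow_of_le_one H.w0.le (by linarith [H.w1]) h

lemma overlap_small (n t k : ℕ) (hk : k + 1 < 2 ^ t) :
    s x n t k + r x (n + t) - s x n t (k + 1) ≤ w ^ n := by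
  obtain ⟨d, q, ⟨q, rfl⟩, hd⟩ := Nat.exists_eq_two_pow_mul_odd (Nat.succ_ne_zero k)
  have hdt : d < t := by
    have : 2 ^ d < 2 ^ t := lt_of_le_of_lt (by
      rw [Nat.succ_eq_add_one] at hd; rw [hd]; exact Nat.le_mul_of_pos_right _ (by omega)) hk
    exact (Nat.pow_lt_pow_iff_right (by norm_num)).mp this
  obtain ⟨e, rfl⟩ : ∃ e, t = e + 1 + d := ⟨t - 1 - d, by omega⟩
  rw [H.junction n e q d k hd]
  have h2 := H.over_le (n + e)
  have h3 : w ^ (n + e + 1) ≤ w ^ (n + 1) := H.wle (by omega)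
  rw [pow_succ w n] at h3
  have hq' : (0 : ℝ) < w ^ n := pow_pos H.w0 _
  nlinarith [H.w1]

lemma overlap_good (n t C d' : ℕ) (hev : (n + t + 1) % 2 = π) (κ0 κ1 : ℤ) (h1 : Odd κ1)
    (hgood : (2 : ℤ) ^ (C + d' + 1) ∣ κ0 ∨ ¬ (2 : ℤ) ^ (d' + 1) ∣ κ0) (k : ℕ)
    (hk : (k : ℤ) + 1 = κ0 + κ1 * 2 ^ (C + d')) (hC : 1 ≤ C) :
    s x n (t + 1 + (C + d')) k + r x (n + (t + 1 + (C + d'))) -
      s x n (t + 1 + (C + d')) (k + 1) ≤ 3 / 2 * w ^ (n + (t + 1) + C) := by
  obtain ⟨d, q, ⟨q, rfl⟩, hd⟩ := Nat.exists_eq_two_pow_mul_odd (Nat.succ_ne_zero k)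
  rw [Nat.succ_eq_add_one] at hd
  have hd' : (k : ℤ) + 1 = 2 ^ d * (2 * q + 1) := by exact_mod_cast hd
  have hq' : (0 : ℝ) < w ^ (n + (t + 1) + C) := pow_pos H.w0 _
  rcases hgood with ⟨c, hc⟩ | hg
  · obtain ⟨c1, rfl⟩ := h1
    have e1 : (k : ℤ) + 1 = 2 ^ (C + d') * (2 * (c + c1) + 1) := by rw [hk, hc, pow_succ]; ring
    have hpos : 0 ≤ c + c1 := by
      by_contra hneg
      have : (0 : ℤ) < 2 ^ (C + d') := by positivity
      nlinarith
    obtain ⟨q', hq⟩ := Int.eq_ofNat_of_zero_le hpos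
    rw [hq] at e1
    rw [H.junction n t q' (C + d') k (by exact_mod_cast e1)]
    have := H.gap (n + t) hev
    have : (0 : ℝ) < γ * w ^ (n + t + 1) := mul_pos H.g0 (pow_pos H.w0 _)
    linarith
  · have hdd : d ≤ d' := by
      by_contra hlt
      apply hg
      have a1 : (2 : ℤ) ^ (d' + 1) ∣ (k : ℤ) + 1 := by
        rw [hd']; exact (pow_dvd_pow 2 (by omega)).mul_right _
      have a2 : (2 : ℤ) ^ (d' + 1) ∣ κ1 * 2 ^ (C + d') := (pow_dvd_pow 2 (by omega)).mul_left _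
      rw [hk] at a1
      exact (dvd_add_left a2).mp a1
    obtain ⟨e, rfl⟩ := Nat.exists_eq_add_of_le hdd
    rw [show t + 1 + (C + (d + e)) = t + C + e + 1 + d by ring, H.junction n _ q d k hd]
    have h2 := H.over_le (n + (t + C + e))
    have h3 : w ^ (n + (t + C + e) + 1) ≤ w ^ (n + (t + 1) + C) := H.wle (by omega)
    linarith

theorem avoid (N : ℕ) : ∀ c : ℝ, 0 < c → ∃ n0 : ℕ, ∀ n ≥ n0, ∀ U : List ℝ, U.length ≤ N →
    ∀ a : ℝ, ∃ y ∈ Icc a (a + c * (1 / 2) ^ n), ∀ u ∈ U, y - u ∉ E x n := by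
  have hw0 := H.w0
  have hw1 := H.w1
  have hg0 := H.g0
  have hpar0 := H.par
  obtain ⟨c0, hc0⟩ := exists_pow_lt_of_lt_one (show 0 < γ / 24 by positivity)
      (show w < 1 by linarith)
  induction N with
  | zero =>
    intro c hc
    refine ⟨0, fun n _ U hU a => ⟨a, ⟨le_rfl, by
      have : 0 < c * (1 / 2) ^ n := by positivity
      linarith⟩, ?_⟩⟩
    obtain rfl : U = [] := List.length_eq_zero_iff.mp (by omega)
    simp
  | succ N ih =>
    intro c hc
    obtain ⟨n1, hn1⟩ := ih (1 / (2 * 3 ^ N)) (by positivity)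
    obtain ⟨σ, hσ⟩ := exists_pow_lt_of_lt_one (show 0 < c / 4 by positivity)
      (show (1 / 2 : ℝ) < 1 by norm_num)
    obtain ⟨C, hC⟩ : ∃ C, C = N + c0 + 1 := ⟨_, rfl⟩
    set T := σ + 1 + (C + N + 1) + 2 * C * N with hT
    obtain ⟨n2, hn2⟩ := exists_pow_lt_of_lt_one (show (0 : ℝ) < (1 / 2) ^ T / 8 by positivity)
      (show (2 / 3 : ℝ) < 1 by norm_num)
    refine ⟨max n1 n2, fun n hn U hU a => ?_⟩
    have hη : 8 * w ^ n < (1 / 2) ^ (n + T) := by
      have h0 : w ^ n ≤ (1 / 3) ^ n := pow_le_pow_left₀ hw0.le hw1 n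
      have h1 : (2 / 3 : ℝ) ^ n ≤ (2 / 3) ^ n2 :=
        pow_le_pow_of_le_one (by norm_num) (by norm_num) (le_of_max_le_right hn)
      have h2 : (1 / 3 : ℝ) ^ n = (2 / 3) ^ n * (1 / 2) ^ n := by rw [← mul_pow]; norm_num
      have h3 : (0 : ℝ) < (1 / 2) ^ n := by positivity
      rw [h2] at h0
      rw [pow_add]
      nlinarith
    rcases U with _ | ⟨u1, U⟩
    · exact ⟨a, ⟨le_rfl, by
        have : 0 < c * (1 / 2) ^ n := by positivity
        linarith⟩, by simp⟩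
    have hU' : U.length ≤ N := by simpa using hU
    -- parity adjustment and choice of the level of the gap
    obtain ⟨D0, hD0, hD1, hpar⟩ : ∃ D0, N ≤ D0 ∧ D0 ≤ N + 1 ∧ (n + T + C + D0) % 2 = π := by
      by_cases h : (n + T + C + N) % 2 = π
      · exact ⟨N, le_rfl, by omega, h⟩
      · exact ⟨N + 1, by omega, le_rfl, by omega⟩
    obtain ⟨i, hi, hgood⟩ := Jones.pigeon U N C D0 hU'
      (fun u => round ((u1 - u) / (1 / 2) ^ (n + T)))
    have hi2 : 2 * C * i ≤ 2 * C * N := Nat.mul_le_mul_left _ hi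
    obtain ⟨d', hd'⟩ : ∃ d', d' = D0 + 2 * C * i := ⟨_, rfl⟩
    have hd2 : d' % 2 = D0 % 2 := by rw [hd', mul_assoc]; omega
    rw [← hd'] at hgood
    obtain ⟨t, ht⟩ : ∃ t, T = t + 1 + (C + d') := ⟨T - 1 - (C + d'), by omega⟩
    have htσ : σ ≤ t := by omega
    have hev : (n + t + 1) % 2 = π := by omega
    have hd3 : N ≤ d' := by omega
    have hm : n + T = n + (t + 1) + (C + d') := by omega
    have hH : (1 / 2 : ℝ) ^ (n + (t + 1)) = 2 ^ (C + d') * (1 / 2) ^ (n + T) := by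
      rw [hm, pow_add _ (n + (t + 1)), mul_comm, mul_assoc, ← mul_pow]; norm_num
    have hHle : (1 / 2 : ℝ) ^ (n + T) ≤ (1 / 2) ^ (n + (t + 1)) :=
      pow_le_pow_of_le_one (by norm_num) (by norm_num) (by omega)
    have hHc : 4 * (1 / 2 : ℝ) ^ (n + (t + 1)) ≤ c * (1 / 2) ^ n := by
      have h1 : (1 / 2 : ℝ) ^ (t + 1) ≤ (1 / 2) ^ σ :=
        pow_le_pow_of_le_one (by norm_num) (by norm_num) (by omega)
      have h3 : (0 : ℝ) < (1 / 2) ^ n := by positivity
      rw [pow_add]; nlinarith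
    have hHp : (0 : ℝ) < (1 / 2) ^ (n + (t + 1)) := by positivity
    have hηp : (0 : ℝ) < w ^ n := by positivity
    -- an odd grid point in the window
    obtain ⟨κ1, hodd, hp1, hp2⟩ : ∃ κ1 : ℤ, Odd κ1 ∧
        a + w ^ n - u1 ≤ κ1 * (1 / 2 : ℝ) ^ (n + (t + 1)) ∧
        κ1 * (1 / 2 : ℝ) ^ (n + (t + 1)) ≤ a + w ^ n - u1 + 2 * (1 / 2) ^ (n + (t + 1)) := by
      set v := (a + w ^ n - u1) / (1 / 2) ^ (n + (t + 1)) with hv
      have hv' : a + w ^ n - u1 = v * (1 / 2) ^ (n + (t + 1)) := by rw [hv]; field_simp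
      have b1 := Int.le_ceil ((v - 1) / 2)
      have b2 := Int.ceil_lt_add_one ((v - 1) / 2)
      refine ⟨2 * ⌈(v - 1) / 2⌉ + 1, odd_two_mul_add_one _, ?_, ?_⟩
      · rw [hv']; push_cast; nlinarith
      · rw [hv']; push_cast; nlinarith
    obtain ⟨g, hg1, hg2⟩ := H.gap' n t hev κ1 hodd (by linarith)
    rw [abs_le] at hg1
    have hwp : (0 : ℝ) < w ^ (n + (t + 1)) := by positivity
    obtain ⟨L, hL⟩ : ∃ L, L = γ / 2 * w ^ (n + (t + 1)) := ⟨_, rfl⟩
    rw [← hL] at hg2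
    have hLp : 0 < L := by rw [hL]; positivity
    have hLle : L ≤ w ^ n := by
      have : w ^ (n + (t + 1)) ≤ w ^ n := H.wle (by omega)
      have := H.g1
      rw [hL]; nlinarith
    have h3U : (3 : ℝ) ^ U.length ≤ 3 ^ N := pow_le_pow_right₀ (by norm_num) hU'
    have h3N : (1 : ℝ) ≤ 3 ^ N := one_le_pow₀ (by norm_num)
    have hinv : w ^ N * 3 ^ N ≤ 1 := by
      rw [← mul_pow]; exact pow_le_one₀ (by positivity) (by linarith)
    have hc0p : 0 < w ^ c0 := by positivity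
    -- first reduction
    obtain ⟨a1, U1, hl1, ha1, ha1', hU1⟩ := H.redList n T (3 / 2 * w ^ (n + (t + 1) + C))
      (by positivity) U (u1 + g) L (by
        have : w ^ (n + (t + 1) + C) ≤ w ^ (n + (t + 1) + (N + c0)) := H.wle (by omega)
        calc 6 * (3 / 2 * w ^ (n + (t + 1) + C)) * 3 ^ U.length
            ≤ 6 * (3 / 2 * w ^ (n + (t + 1) + (N + c0))) * 3 ^ N := by gcongr
          _ = 9 * (w ^ (n + (t + 1)) * w ^ c0) * (w ^ N * 3 ^ N) := by
              rw [pow_add _ (n + (t + 1)), pow_add _ N]; ring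
          _ ≤ 9 * (w ^ (n + (t + 1)) * w ^ c0) * 1 := by gcongr
          _ < _ := by rw [hL]; nlinarith)
      (fun u hu => by
        refine ⟨round ((u1 - u) / (1 / 2) ^ (n + T)) + κ1 * 2 ^ (C + d'), fun y hy => ?_,
          fun k _ hk => ?_⟩
        · have h1 := abs_le.mp (Jones.round_near (u1 - u) ((1 / 2) ^ (n + T)) (by positivity))
          have h2 : (κ1 : ℝ) * 2 ^ (C + d') * (1 / 2) ^ (n + T) =
              κ1 * (1 / 2) ^ (n + (t + 1)) := by rw [hH]; ring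
          push_cast
          rw [add_mul, h2, abs_lt]
          constructor <;> linarith [hy.1, hy.2, h1.1, h1.2, hg1.1, hg1.2]
        · rw [ht]
          exact H.overlap_good n t C d' hev _ κ1 hodd (hgood u hu) k hk (by omega))
    -- choice of the new level
    have hL1p : (0 : ℝ) < 2 * (L / 3 ^ N) := by positivity
    have hL1le : L / 3 ^ N ≤ L := div_le_self hLp.le h3N
    have hm1 : (1 / 2 : ℝ) ^ (n + T) ≤ 1 := pow_le_one₀ (by norm_num) (by norm_num)
    obtain ⟨j, hj1, hj2⟩ := exists_nat_pow_near_of_lt_one hL1p (by linarith)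
      (show (0 : ℝ) < 1 / 2 by norm_num) (show (1 / 2 : ℝ) < 1 by norm_num)
    have hjm : n + T ≤ j + 1 := by
      by_contra hlt
      have : (1 / 2 : ℝ) ^ (n + T) ≤ (1 / 2) ^ (j + 1) :=
        pow_le_pow_of_le_one (by norm_num) (by norm_num) (by omega)
      linarith
    obtain ⟨T', hT'⟩ := Nat.exists_eq_add_of_le hjm
    rw [pow_succ] at hj1
    have hj3 : (1 / 2 : ℝ) ^ (n + T + T') = (1 / 2) ^ j * (1 / 2) := by rw [← hT', pow_succ]
    have hsmall : 6 * w ^ (n + T) * 3 ^ N < (1 / 2) ^ (n + T + T') / 2 := by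
      have h1 : w ^ (n + T) ≤ w ^ (n + (t + 1) + (N + N + c0)) := H.wle (by omega)
      have h3 : (0 : ℝ) < 3 ^ N := by positivity
      have h2 : 6 * w ^ (n + T) * 3 ^ N * 3 ^ N < L / 2 := by
        calc 6 * w ^ (n + T) * 3 ^ N * 3 ^ N
            ≤ 6 * w ^ (n + (t + 1) + (N + N + c0)) * 3 ^ N * 3 ^ N := by gcongr
          _ = 6 * (w ^ (n + (t + 1)) * w ^ c0) * (w ^ N * 3 ^ N) * (w ^ N * 3 ^ N) := by
              rw [pow_add _ (n + (t + 1)), pow_add _ (N + N), pow_add _ N]; ring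
          _ ≤ 6 * (w ^ (n + (t + 1)) * w ^ c0) * 1 * 1 := by gcongr
          _ < _ := by rw [hL]; nlinarith
      have h4 : 6 * w ^ (n + T) * 3 ^ N < L / 3 ^ N / 2 := by
        rw [div_right_comm, lt_div_iff₀ h3]; exact h2
      rw [hj3]; linarith
    have hmp : (0 : ℝ) < w ^ (n + T) := by positivity
    have hm'p : (0 : ℝ) < (1 / 2) ^ (n + T + T') := by positivity
    obtain ⟨a2, U2, hl2, ha2, ha2', hU2⟩ := H.redList (n + T) T' (w ^ (n + T))
      hmp.le U1 a1 ((1 / 2) ^ (n + T + T') / 2) (by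
        rw [hl1]
        exact lt_of_le_of_lt (by gcongr) hsmall)
      (fun u _ => by
        refine ⟨round ((a1 + (1 / 2) ^ (n + T + T') / 4 - u) / (1 / 2) ^ (n + T + T')),
          fun y hy => ?_, fun k hk _ => H.overlap_small _ _ k hk⟩
        have h1 := abs_le.mp (Jones.round_near (a1 + (1 / 2) ^ (n + T + T') / 4 - u) _ hm'p)
        have h2 : 6 * w ^ (n + T) < (1 / 2) ^ (n + T + T') / 2 := by nlinarith
        rw [abs_lt]
        constructor <;> linarith [hy.1, hy.2, h1.1, h1.2])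
    obtain ⟨y, hy, hyU⟩ := hn1 (n + T + T') (by have := le_of_max_le_left hn; omega) U2
      (by omega) a2
    have w1 : 1 / (2 * 3 ^ N) * (1 / 2 : ℝ) ^ (n + T + T') ≤
        (1 / 2) ^ (n + T + T') / 2 / 3 ^ U1.length := by
      rw [hl1, div_div, one_div_mul_eq_div]
      gcongr
    have w2 : L / 3 ^ N ≤ L / 3 ^ U.length := by gcongr
    have hy2 : y ∈ Icc a2 (a2 + (1 / 2) ^ (n + T + T') / 2 / 3 ^ U1.length) :=
      ⟨hy.1, by linarith [hy.2]⟩
    have hy1 : y ∈ Icc a1 (a1 + L / 3 ^ U.length) :=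
      ⟨by linarith [hy2.1], by linarith [hy2.2]⟩
    refine ⟨y, ⟨by linarith [hy1.1, hg1.1], by linarith [hy1.2, hg1.2]⟩, fun u hu => ?_⟩
    rcases List.mem_cons.mp hu with rfl | hu
    · exact hg2 _ ⟨by linarith [hy1.1], by linarith [hy1.2]⟩
    · exact hU1 y hy1 (hU2 y hy2 hyU) u hu

theorem exists_not_mem (α β : ℝ) (h : α < β) : ∃ y ∈ Icc α β, y ∉ E x 0 := by
  classical
  obtain ⟨q, hq⟩ := exists_pow_lt_of_lt_one (show 0 < (β - α) / 3 by linarith)
    (show (1 / 2 : ℝ) < 1 by norm_num)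
  obtain ⟨n, hn⟩ := H.avoid (2 ^ q) 1 one_pos
  have hp : (0 : ℝ) < (1 / 2) ^ (n + q) := by positivity
  obtain ⟨i, hi, hcard⟩ := Finset.exists_card_fiber_le_of_card_le_mul
    (f := fun k : ℕ => ⌊(s x 0 (n + q) k + r x (n + q) - α) / (3 * (1 / 2) ^ (n + q))⌋₊)
    (s := Finset.range (2 ^ (n + q))) (t := Finset.range (2 ^ n)) (n := 2 ^ q)
    ⟨0, by simp⟩ (by simp [pow_add])
  obtain ⟨y, hy, hyU⟩ := hn (n + q) (by omega)
    (((Finset.range (2 ^ (n + q))).filter fun k : ℕ =>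
      ⌊(s x 0 (n + q) k + r x (n + q) - α) / (3 * (1 / 2) ^ (n + q))⌋₊ = i).toList.map
        (s x 0 (n + q)))
    (by simpa using hcard) (α + i * (3 * (1 / 2) ^ (n + q)))
  have hi' : (i : ℝ) + 1 ≤ 2 ^ n := by
    have : i + 1 ≤ 2 ^ n := by simpa [Nat.succ_le_iff] using hi
    exact_mod_cast this
  have hi0 : (0 : ℝ) ≤ i := Nat.cast_nonneg i
  have e1 : (2 : ℝ) ^ n * (1 / 2) ^ (n + q) = (1 / 2) ^ q := by
    rw [pow_add, ← mul_assoc, ← mul_pow]; norm_num
  refine ⟨y, ⟨by nlinarith [hy.1], by nlinarith [hy.2]⟩, fun hE => ?_⟩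
  obtain ⟨k, hk, hk'⟩ := H.E_decomp hE (n + q)
  rw [zero_add] at hk'
  refine hyU (s x 0 (n + q) k) (List.mem_map.mpr ⟨k, ?_, rfl⟩) hk'
  rw [Finset.mem_toList, Finset.mem_filter, Finset.mem_range]
  refine ⟨hk, ?_⟩
  have b := H.E_bounds hk'
  have b2 := H.r_le (n + q)
  have b3 : w ^ (n + q) ≤ (1 / 2) ^ (n + q) :=
    pow_le_pow_left₀ H.w0.le (by linarith [H.w1]) _
  rw [Nat.floor_eq_iff (div_nonneg (by nlinarith [hy.1, b.2]) (by positivity)),
    le_div_iff₀ (by positivity), div_lt_iff₀ (by positivity)]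
  constructor
  · linarith [hy.1, b.2]
  · linarith [hy.2, b.1]

lemma continuous_sm (n : ℕ) : Continuous (sm x n) := by
  refine continuous_tsum (fun i => ?_) (H.summable_x n) fun i ε => H.term_le n ε i
  exact (continuous_of_discreteTopology
    (f := fun b : Bool => if b then x (n + 1 + i) else 0)).comp (continuous_apply i)

lemma flip (ε : ℕ → Bool) (j : ℕ) :
    |sm x 0 (Function.update ε j (!ε j)) - sm x 0 ε| = x (0 + 1 + j) := by
  unfold sm
  rw [← (H.summable_term 0 _).tsum_sub (H.summable_term 0 ε), tsum_eq_single j]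
  · have := H.x_pos' 0 j
    cases h : ε j
    · simp only [Function.update_self, Bool.not_false, if_true, Bool.false_eq_true, if_false,
        sub_zero, abs_of_pos this]
    · simp only [Function.update_self, Bool.not_true, if_true, Bool.false_eq_true, if_false,
        zero_sub, abs_neg, abs_of_pos this]
  · intro i hi
    rw [Function.update_of_ne hi, sub_self]

lemma good : Brouwer.Good (E x 0) := by
  refine ⟨isCompact_range (H.continuous_sm 0), range_nonempty _, ?_, H.exists_not_mem⟩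
  rintro _ ⟨ε, rfl⟩
  rw [accPt_iff_nhds]
  intro U hU
  obtain ⟨δ, hδ, hU'⟩ := Metric.mem_nhds_iff.mp hU
  obtain ⟨j, hj⟩ := ((H.summable_x 0).tendsto_atTop_zero.eventually (gt_mem_nhds hδ)).exists
  refine ⟨sm x 0 (Function.update ε j (!ε j)), ⟨hU' ?_, mem_range_self _⟩, fun h => ?_⟩
  · rw [Metric.mem_ball, Real.dist_eq, H.flip]; exact hj
  · have := H.flip ε j
    rw [h, sub_self, abs_zero] at this
    exact (H.x_pos' 0 j).ne this

theorem final : Nonempty ({s : ℝ | ∃ A : Set ℕ, (∀ n ∈ A, 1 ≤ n) ∧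
    s = ∑' n : ℕ, A.indicator x n} ≃ₜ cantorSet) := by
  classical
  have key : {s : ℝ | ∃ A : Set ℕ, (∀ n ∈ A, 1 ≤ n) ∧ s = ∑' n : ℕ, A.indicator x n} =
      E x 0 := by
    have h : ∀ A : Set ℕ, (∀ n ∈ A, 1 ≤ n) →
        ∑' n : ℕ, A.indicator x n = sm x 0 fun i => decide (i + 1 ∈ A) := by
      intro A hA
      have e : (fun i => A.indicator x (i + 1)) =
          fun i => if (decide (i + 1 ∈ A)) then x (0 + 1 + i) else 0 := by
        funext i
        rw [show 0 + 1 + i = i + 1 by ring]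
        by_cases hi : i + 1 ∈ A
        · simp [hi]
        · simp [hi]
      have hs : Summable fun n : ℕ => A.indicator x n := by
        rw [← summable_nat_add_iff 1, e]
        exact H.summable_term 0 _
      rw [hs.tsum_eq_zero_add, e, Set.indicator_of_notMem (fun h => by have := hA 0 h; omega),
        zero_add]
      rfl
    ext z
    constructor
    · rintro ⟨A, hA, rfl⟩
      exact ⟨_, (h A hA).symm⟩
    · rintro ⟨ε, rfl⟩
      refine ⟨{n | 1 ≤ n ∧ ε (n - 1) = true}, fun n hn => hn.1, ?_⟩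
      rw [h _ fun n hn => hn.1]
      simp
  rw [key]
  obtain ⟨h⟩ := Brouwer.homeo H.good
  exact ⟨h.trans cantorSetHomeomorphNatToBool.symm⟩

end Hyp

/-- the perturbed dyadic sequence -/
noncomputable def y (n : ℕ) : ℝ := if n % 2 = 1 then 1 / 2 ^ n else 1 / (2 ^ n + 1)

lemma y_le (n : ℕ) : y n ≤ (1 / 2) ^ n := by
  unfold y
  rw [one_div_pow]
  split_ifs
  · exact le_rfl
  · exact one_div_le_one_div_of_le (by positivity) (by linarith)

lemma y_pos (n : ℕ) : 0 < y n := by unfold y; split_ifs <;> positivity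

lemma hypY : Hyp y (1 / 4) (1 / 5) 1 := by
  have h4 : ∀ n : ℕ, (1 / 4 : ℝ) ^ n = 1 / (2 ^ n * 2 ^ n) := fun n => by
    rw [← mul_pow, one_div_pow]; norm_num
  refine ⟨fun i => y_pos _, by norm_num, by norm_num, fun i => ?_, by norm_num, by norm_num,
    by norm_num, fun a ha => ?_⟩
  · rw [abs_sub_comm, abs_of_nonneg (by linarith [y_le (i + 1)])]
    unfold y
    rw [one_div_pow, h4]
    have hp : (0 : ℝ) < 2 ^ (i + 1) := by positivity
    split_ifs
    · rw [sub_self]; positivity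
    · rw [div_sub_div _ _ hp.ne' (by positivity), div_le_div_iff₀ (by positivity) (by positivity)]
      nlinarith
  · have hs : ∀ n, Summable fun i => y (n + 1 + i) := fun n =>
      Summable.of_nonneg_of_le (fun i => (y_pos _).le)
        (fun i => by rw [← pow_add]; exact y_le _)
        (summable_geometric_two.mul_left ((1 / 2 : ℝ) ^ (n + 1)))
    have h1 : r y (a + 1) = y (a + 2) + r y (a + 2) := by
      unfold r
      rw [(hs (a + 1)).tsum_eq_zero_add]
      congr 2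
      funext i
      rw [show a + 1 + 1 + (i + 1) = a + 2 + 1 + i by ring]
    have h2 : r y (a + 2) ≤ (1 / 2) ^ (a + 2) := by
      have := (hs (a + 2)).tsum_le_tsum (g := fun i => (1 / 2 : ℝ) ^ (a + 2 + 1) * (1 / 2) ^ i)
        (fun i => by rw [← pow_add]; exact y_le _) (summable_geometric_two.mul_left _)
      rw [tsum_mul_left, tsum_geometric_two] at this
      unfold r
      rw [pow_succ _ (a + 2)] at this
      linarith
    rw [h1]
    have e1 : y (a + 1) = 1 / 2 ^ (a + 1) := by unfold y; rw [if_pos ha]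
    have e2 : y (a + 2) = 1 / (2 ^ (a + 2) + 1) := by unfold y; rw [if_neg (by omega)]
    rw [e1, e2, h4]
    rw [one_div_pow] at h2
    obtain ⟨p, hp⟩ : ∃ p : ℝ, p = 2 ^ (a + 1) := ⟨_, rfl⟩
    have hp2 : 2 ≤ p := by
      rw [hp, pow_succ]; have : (1 : ℝ) ≤ 2 ^ a := one_le_pow₀ (by norm_num); linarith
    rw [show (2 : ℝ) ^ (a + 2) = 2 * p by rw [hp]; ring] at h2 ⊢
    rw [← hp]
    have : 1 / 5 * (1 / (p * p)) ≤ 1 / p - (1 / (2 * p + 1) + 1 / (2 * p)) := by
      have e : 1 / p - (1 / (2 * p + 1) + 1 / (2 * p)) = 1 / (2 * p * (2 * p + 1)) := by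
        field_simp; ring
      rw [e, one_div_mul_one_div]
      exact one_div_le_one_div_of_le (by positivity) (by nlinarith)
    linarith

end Pool.Agent.H62.AchGen
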