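import Pool.Agent.H62.Td2

/-! A system of workers: sparse actions, yet the set of workers acting forever is not Sigma-2. -/

set_option autoImplicit false

namespace Pool.Agent.H62.Au

open Encodable Pool.Agent.H37 Filter

def gs (w : ℕ) : List ℕ := Denumerable.ofNat (List ℕ) w

def cnd (w : ℕ) (q : ℕ × ℕ) (s : ℕ) : Bool :=
  ((List.range (gs w).length).all fun e => if (gs w).getD e 0 = 0 then
      (List.range (q.2 + 1)).all fun x => decide ((ev e x s).getD s < s)
    else (ev e ((gs w).getD e 0 - 1) s).isNone &&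
      (List.range ((gs w).getD e 0 - 1)).all fun x => (ev e x s).isSome) &&
  (ev (gs w).length (Nat.pair w q.1) s).isSome

def sx (w : ℕ) : ℕ → ℕ × ℕ
  | 0 => (0, 0)
  | s + 1 => cond (cnd w (sx w s) (s + 1)) ((sx w s).1 + 1, s + 1) (sx w s)

def st (w s : ℕ) : ℕ := (sx w s).1

@[fun_prop] theorem ci_st {α : Type} [Primcodable α] {O : Set (ℕ →. ℕ)} {f g : α → ℕ}
    (hf : CI O f) (hg : CI O g) : CI O fun a => st (f a) (g a) := by
  have : CI O fun p : ℕ × ℕ => sx p.1 p.2 :=
    CI.of_rec (g := fun _ => (0, 0)) (h := fun w s q => cond (cnd w q (s + 1)) (q.1 + 1, s + 1) q)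
      (by fun_prop) (by unfold cnd gs; fun_prop) (fun _ => rfl) fun _ _ => rfl
  exact (this.comp (hf.mk hg)).fst

theorem st_succ (w s : ℕ) : st w (s + 1) = st w s ∨ st w (s + 1) = st w s + 1 := by
  simp only [st, sx]; cases cnd w (sx w s) (s + 1) <;> simp

theorem st_mono (w : ℕ) : Monotone (st w) :=
  monotone_nat_of_le_succ fun s => by have := st_succ w s; omega

def I (w : ℕ) : Prop := ∀ n, ∃ s, n ≤ st w s

theorem notI {w : ℕ} (h : ¬I w) : ∃ s, ∀ t, s ≤ t → st w t = st w s := by
  by_contra k
  push Not at k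
  refine h fun n => ?_
  induction n with
  | zero => exact ⟨0, Nat.zero_le _⟩
  | succ n ih =>
    obtain ⟨s, hs⟩ := ih
    obtain ⟨t, h1, h2⟩ := k s
    exact ⟨t, by have := st_mono w h1; omega⟩

theorem one {w s T : ℕ} (h : ∀ s0 n t, s < s0 → s < t → t ≤ T → cnd w (n, s0) t = false) :
    st w T ≤ st w s + 1 := by
  rcases le_total T s with l | l
  · exact (st_mono w l).trans (Nat.le_succ _)
  suffices ∀ t, s ≤ t → t ≤ T → sx w t = sx w s ∨ ((sx w t).1 = (sx w s).1 + 1 ∧ s < (sx w t).2) by
    rcases this T l le_rfl with k | k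
    · simp [st, k]
    · exact k.1.le
  intro t a
  induction t, a using Nat.le_induction with
  | base => exact fun _ => Or.inl rfl
  | succ t a ih =>
    intro b
    rcases ih (by omega) with k | k
    · simp only [sx]
      cases cnd w (sx w t) (t + 1)
      · exact Or.inl k
      · exact Or.inr ⟨by simp [k], by simp; omega⟩
    · simp only [sx]
      rw [h (sx w t).2 (sx w t).1 (t + 1) k.2 (by omega) b]
      exact Or.inr k

open Classical in
noncomputable def tr (e : ℕ) : ℕ :=
  if h : ∃ x, ∀ s, ev e x s = none then Nat.find h + 1 else 0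

theorem tr0 {e : ℕ} (h : tr e = 0) (x : ℕ) : ∀ᶠ s in atTop, ∃ v, ev e x s = some v ∧ v < s := by
  unfold tr at h
  split_ifs at h with k
  push Not at k
  obtain ⟨s, hs⟩ := k x
  obtain ⟨v, hv⟩ := Option.ne_none_iff_exists'.1 hs
  filter_upwards [eventually_ge_atTop s, eventually_gt_atTop v] with t a b
  exact ⟨v, ev_mono a hv, b⟩

theorem tr1 {e : ℕ} (h : tr e ≠ 0) : (∀ s, ev e (tr e - 1) s = none) ∧
    ∀ x < tr e - 1, ∀ᶠ s in atTop, (ev e x s).isSome = true := by
  classical
  unfold tr at h ⊢
  split_ifs at h ⊢ with k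
  · refine ⟨Nat.find_spec k, fun x hx => ?_⟩
    have := Nat.find_min k hx
    push Not at this
    obtain ⟨s, hs⟩ := this
    obtain ⟨v, hv⟩ := Option.ne_none_iff_exists'.1 hs
    filter_upwards [eventually_ge_atTop s] with t a
    simp [ev_mono a hv]
  · exact absurd rfl h

theorem tr2 {e x : ℕ} (h : ∀ s, ev e x s = none) : tr e ≠ 0 ∧ tr e ≤ x + 1 := by
  classical
  unfold tr
  rw [dif_pos ⟨x, h⟩]
  exact ⟨by simp, Nat.succ_le_succ (Nat.find_min' _ h)⟩

theorem cnd_iff {w s : ℕ} {q : ℕ × ℕ} : cnd w q s = true ↔ (∀ e < (gs w).length,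
    ((gs w).getD e 0 = 0 → ∀ x ≤ q.2, ∃ v, ev e x s = some v ∧ v < s) ∧
    ((gs w).getD e 0 ≠ 0 → ev e ((gs w).getD e 0 - 1) s = none ∧
      ∀ x < (gs w).getD e 0 - 1, (ev e x s).isSome = true)) ∧
    (ev (gs w).length (Nat.pair w q.1) s).isSome = true := by
  simp only [cnd, Bool.and_eq_true, List.all_eq_true, List.mem_range]
  refine and_congr_left' (forall₂_congr fun e _ => ?_)
  split_ifs with h
  · simp only [h, List.all_eq_true, List.mem_range, decide_eq_true_eq, forall_const, ne_eq,
      not_true_eq_false, false_imp_iff, and_true, Nat.lt_succ_iff]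
    refine forall₂_congr fun x _ => ?_
    cases ev e x s <;> simp
  · simp only [h, false_imp_iff, true_and, ne_eq, not_false_eq_true, forall_const,
      Bool.and_eq_true, List.all_eq_true, List.mem_range, Option.isNone_iff_eq_none]

theorem sparse {G : ℕ → ℕ} (hG : CI ∅ G) : ∃ (c : ℕ → ℕ) (E : List ℕ), CI ∅ c ∧ (∀ w ∈ E, I w) ∧
    ∀ w ∉ E, ∀ s, c w ≤ s → st w (G s) ≤ st w s + 1 := by
  classical
  obtain ⟨e, he⟩ := exists_index hG
  let TR := (List.range e).map tr
  have hTR : ∀ i, TR.getD i 0 ≠ 0 → TR.getD i 0 = tr i := fun i h => by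
    by_cases k : i < e <;> simp_all [TR]
  let Ex := (List.range (e + 1)).map fun i => encode (TR.take i)
  obtain ⟨c1, hc1⟩ : ∃ c1, ∀ w ∈ Ex, ¬I w → ∀ t, c1 ≤ t → st w t = st w c1 := by
    have : ∀ᶠ c in atTop, ∀ w ∈ {w | w ∈ Ex}, ¬I w → ∀ t, c ≤ t → st w t = st w c :=
      (eventually_all_finite Ex.finite_toSet).2 fun w _ => by
        by_cases k : I w
        · simp [k]
        obtain ⟨s, hs⟩ := notI k
        filter_upwards [eventually_ge_atTop s] with c a _ t b
        rw [hs t (a.trans b), hs c a]
    exact this.exists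
  obtain ⟨c, c2, c3⟩ := CI.exists_choice (O := ∅) (p := fun (w t : ℕ) =>
    ((List.range (gs w).length).any fun i => (gs w).getD i 0 != 0 &&
      (ev i ((gs w).getD i 0 - 1) t).isSome) ||
    ((decide (e < (gs w).length) && (gs w).getD e 0 == 0) ||
    (((List.range (gs w).length).any fun i => TR.getD i 0 != 0 && (decide (TR.getD i 0 ≤ t) &&
      ((gs w).getD i 0 == 0 || decide (TR.getD i 0 < (gs w).getD i 0)))) ||
    (decide (w ∈ Ex) && decide (c1 ≤ t))))) (by unfold gs; fun_prop) fun w => by
      simp only [Bool.or_eq_true, Bool.and_eq_true, List.any_eq_true, List.mem_range, bne_iff_ne,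
        decide_eq_true_eq, beq_iff_eq]
      by_contra k
      simp only [not_exists, not_or, not_and] at k
      have k1 : ∀ i < (gs w).length, (gs w).getD i 0 ≠ 0 →
          ∀ s, ev i ((gs w).getD i 0 - 1) s = none := fun i a b s => by
        simpa using (k s).1 i a b
      have k2 : (gs w).length ≤ e := by
        by_contra l
        obtain ⟨s, hs⟩ := he ((gs w).getD e 0 - 1)
        rw [k1 e (by omega) ((k 0).2.1 (by omega))] at hs
        cases hs
      refine (k c1).2.2.2 (List.mem_map.2 ⟨(gs w).length, by simp; omega, ?_⟩) le_rfl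
      rw [show TR.take (gs w).length = gs w from ?_, gs, Denumerable.encode_ofNat]
      refine List.ext_getElem (by simp [TR, k2]) fun i a b => ?_
      have e1 : TR.getD i 0 = tr i := by simp [TR, show i < e by omega]
      have e2 := (k (tr i)).2.2.1 i b
      rw [e1] at e2
      have e3 := fun h => tr2 (k1 i b h)
      simp only [List.getElem_take, TR, List.getElem_map, List.getElem_range]
      rw [List.getD_eq_getElem _ _ b] at e2 e3
      omega
  refine ⟨c, Ex.filter fun w => I w, c2, fun w h => by simpa using (List.mem_filter.1 h).2,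
    fun w hw s hs => ?_⟩
  have := c3 w
  simp only [Bool.or_eq_true, Bool.and_eq_true, List.any_eq_true, List.mem_range, bne_iff_ne,
    decide_eq_true_eq, beq_iff_eq] at this
  rcases this with ⟨i, a, b, d⟩ | ⟨a, b⟩ | ⟨i, a, b, d, f⟩ | ⟨a, b⟩
  · refine one fun s0 n t _ l _ => Bool.eq_false_iff.2 fun h => ?_
    obtain ⟨v, hv⟩ := Option.isSome_iff_exists.1 d
    have := (((cnd_iff.1 h).1 i a).2 b).1
    rw [ev_mono (by omega) hv] at this
    cases this
  · refine one fun s0 n t l _ l' => Bool.eq_false_iff.2 fun h => ?_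
    obtain ⟨v, v1, v2⟩ := ((cnd_iff.1 h).1 e a).1 b s l.le
    obtain ⟨u, hu⟩ := he s
    have := ev_unique v1 hu
    omega
  · refine one fun s0 n t l _ l' => Bool.eq_false_iff.2 fun h => ?_
    have k := hTR i b
    rw [k] at b d f
    have k' := (tr1 b).1 t
    rcases f with f | f
    · obtain ⟨v, v1, -⟩ := ((cnd_iff.1 h).1 i a).1 f (tr i - 1) (by simp only; omega)
      rw [k'] at v1; cases v1
    · have := (((cnd_iff.1 h).1 i a).2 (by omega)).2 (tr i - 1) (by omega)
      rw [k'] at this; cases this
  · have k : ¬I w := fun k => hw (List.mem_filter.2 ⟨a, by simpa using k⟩)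
    rcases le_total (G s) s with l | l
    · exact (st_mono w l).trans (Nat.le_succ _)
    · rw [hc1 w a k _ (by omega : c1 ≤ G s), hc1 w a k s (by omega)]; omega

theorem notSig2 {β : Type} [Primcodable β] {R : ℕ × β × ℕ → Bool} (hR : CI ∅ R) :
    ¬∀ w, I w ↔ ∃ z, ∀ s, R (w, z, s) = true := by
  intro H
  obtain ⟨i, hi⟩ := re_index (re_of_nat (p := fun q : ℕ × ℕ => ∃ s,
    ((decode (α := β) q.2).elim true fun z => !R (q.1, z, s)) = true) _ (by fun_prop)
    fun _ => Iff.rfl)
  let w := encode ((List.range i).map tr)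
  have e1 : gs w = (List.range i).map tr := Denumerable.ofNat_encode _
  have e2 : (gs w).length = i := by simp [e1]
  have e3 : ∀ e < i, (gs w).getD e 0 = tr e := fun e h => by simp [e1, h]
  have : I w ↔ ∀ n, ∃ s, (ev i (Nat.pair w n) s).isSome = true := by
    constructor
    · intro h n
      obtain ⟨s, hs⟩ := h (n + 1)
      induction s with
      | zero => simp [st, sx] at hs
      | succ s ih =>
        by_cases k : n + 1 ≤ st w s
        · exact ih k
        simp only [st, sx] at hs k
        cases k' : cnd w (sx w s) (s + 1) <;> rw [k'] at hs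
        · exact absurd hs k
        · have := (cnd_iff.1 k').2
          rw [e2, show (sx w s).1 = n by simp at hs; omega] at this
          exact ⟨_, this⟩
    · intro h
      by_contra k
      obtain ⟨s, hs⟩ := notI k
      have k1 : ∀ t, s ≤ t → sx w t = sx w s := fun t a => by
        induction t, a using Nat.le_induction with
        | base => rfl
        | succ t a ih =>
          have := hs (t + 1) (by omega)
          simp only [st, sx] at this ⊢
          cases k' : cnd w (sx w t) (t + 1) <;> rw [k'] at this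
          · exact ih
          · simp [ih] at this
      have k2 : ∀ᶠ t in atTop, cnd w (sx w s) t = true := by
        simp only [cnd_iff, e2]
        refine Eventually.and ((eventually_all_finite (Set.finite_lt_nat i)).2 fun e he => ?_) ?_
        · rw [e3 e he]
          by_cases l : tr e = 0
          · simp only [l, forall_const, ne_eq, not_true_eq_false, false_imp_iff, and_true]
            exact (eventually_all_finite (Set.finite_le_nat _)).2 fun x _ => tr0 l x
          · simp only [l, false_imp_iff, true_and, ne_eq, not_false_eq_true, forall_const,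
              (tr1 l).1]
            exact (eventually_all_finite (Set.finite_lt_nat _)).2 (tr1 l).2
        · obtain ⟨u, hu⟩ := h (sx w s).1
          obtain ⟨v, hv⟩ := Option.isSome_iff_exists.1 hu
          filter_upwards [eventually_ge_atTop u] with t a
          simp [ev_mono a hv]
      obtain ⟨t, t1, t2⟩ := (k2.and (eventually_gt_atTop s)).exists
      obtain ⟨t, rfl⟩ : ∃ t', t = t' + 1 := ⟨t - 1, by omega⟩
      have := hs (t + 1) t2.le
      simp only [st, sx, k1 t (by omega), t1] at this
      simp at this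
  have k : I w ↔ ¬∃ z, ∀ s, R (w, z, s) = true := by
    rw [this]
    refine ⟨fun h ⟨z, hz⟩ => ?_, fun h n => (hi (w, n)).1 ?_⟩
    · obtain ⟨s, hs⟩ := (hi (w, encode z)).2 (h _)
      simp [hz] at hs
    · cases k : decode (α := β) n with
      | none => simp
      | some z =>
        push Not at h
        simpa using h z
  rw [← H] at k
  tauto

end Pool.Agent.H62.Au
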