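import Pool.Agent.H62.Au1

/-! The generic structure with marks and its one-point extension property. -/

set_option autoImplicit false

namespace Pool.Agent.H62.Au

open Encodable Pool.Agent.H37 Filter

section
variable {α β : Type} [Primcodable α] [Primcodable β] {O : Set (ℕ →. ℕ)}

@[fun_prop] theorem ci_tb {f g : α → ℕ} (hf : CI O f) (hg : CI O g) :
    CI O fun a => (f a).testBit (g a) :=
  (show CI O fun a => decide (f a / 2 ^ g a % 2 = 1) by fun_prop).of_eq fun _ =>
    Nat.testBit_eq_decide_div_mod_eq.symm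

@[fun_prop] theorem ci_nd [DecidableEq β] {l : α → List β} (hl : CI O l) :
    CI O fun a => decide (l a).Nodup :=
  (show CI O fun a => (l a).all fun x => decide ((l a).countP (fun y => y == x) = 1) by
    fun_prop).of_eq fun a => Bool.eq_iff_iff.2 (by
      simp [List.nodup_iff_count_eq_one, List.count])
end

def mx (l : List ℕ) : ℕ := l.foldr max 0

theorem le_mx {l : List ℕ} {x : ℕ} (h : x ∈ l) : x ≤ mx l := List.le_max_of_le' 0 h le_rfl

theorem mx_eq {l : List ℕ} {y : ℕ} (h : y ∈ l) (k : ∀ x ∈ l, x ≤ y) : mx l = y :=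
  le_antisymm (List.max_le_of_forall_le l y k) (le_mx h)

def raw (c : Bool) (l : List ℕ) : Bool :=
  (mx l).testBit (encode (c, l.map fun x => if x = mx l then none else some x))

def lab (b : Bool) (m j : ℕ) : Bool :=
  cond (j.bodd == b) (decide (j.div2 ≤ m)) (decide (j.div2 + 1 < m))

def P (l : List ℕ) : Bool := raw false l

def S (l : List ℕ) : Bool := raw true l && (decide l.Nodup && (decide (2 ≤ l.length) &&
  lab (P (l.take ((l.length - 2).unpair.1 + 1))) (st (l.length - 2).unpair.1 (mx l))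
    (l.length - 2).unpair.2))

def KK (m r : ℕ) : ℕ := ((allLists (none :: (List.range (m + 1)).map some) r).map
  fun l => encode (true, l) + encode (false, l)).sum

def Bd (m r N : ℕ) : ℕ := 2 ^ (KK m r + N + m + 2)

section
variable {α : Type} [Primcodable α] {O : Set (ℕ →. ℕ)}
@[fun_prop] theorem ci_mx {l : α → List ℕ} (hl : CI O l) : CI O fun a => mx (l a) := by
  unfold mx; fun_prop
@[fun_prop] theorem ci_P {l : α → List ℕ} (hl : CI O l) : CI O fun a => P (l a) := by
  unfold P raw; fun_prop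
@[fun_prop] theorem ci_lab {b : α → Bool} {m j : α → ℕ} (hb : CI O b) (hm : CI O m) (hj : CI O j) :
    CI O fun a => lab (b a) (m a) (j a) := by
  unfold lab; fun_prop
@[fun_prop] theorem ci_S {l : α → List ℕ} (hl : CI O l) : CI O fun a => S (l a) := by
  unfold S raw; fun_prop
@[fun_prop] theorem ci_Bd {m r N : α → ℕ} (hb : CI O m) (hm : CI O r) (hj : CI O N) :
    CI O fun a => Bd (m a) (r a) (N a) := by
  unfold Bd KK; fun_prop
end

theorem le_Bd (m r N : ℕ) : m ≤ Bd m r N :=
  le_trans (by omega) (Nat.lt_two_pow_self (n := KK m r + N + m + 2)).le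

theorem lab_mono {b : Bool} {m n j : ℕ} (h : m ≤ n) (k : lab b m j = true) : lab b n j = true := by
  unfold lab at *
  revert k
  cases j.bodd == b <;> simp <;> omega

theorem lab_bit (b c : Bool) (m i : ℕ) :
    lab b m (Nat.bit c i) = true ↔ (c = b ∧ i ≤ m) ∨ i + 1 < m := by
  unfold lab
  rw [Nat.bodd_bit, Nat.div2_bit]
  cases b <;> cases c <;> simp <;> omega

theorem lab_big (b : Bool) {m j : ℕ} (h : j + 1 < m) : lab b m j = true := by
  have : j.div2 ≤ j := by rw [Nat.div2_val]; omega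
  unfold lab
  cases j.bodd == b <;> simp <;> omega

def Lab (w : ℕ) (b : Bool) (j : ℕ) : Prop := ∃ s, lab b (st w s) j = true

theorem Lab_I {w : ℕ} (h : I w) (b : Bool) (j : ℕ) : Lab w b j :=
  (h (j + 2)).imp fun _ k => lab_big b k

theorem Lab_fz {w s : ℕ} (h : ∀ t, s ≤ t → st w t = st w s) {b : Bool} {j : ℕ} :
    Lab w b j ↔ lab b (st w s) j = true :=
  ⟨fun ⟨t, k⟩ => (le_total s t).elim (fun l => h t l ▸ k) fun l => lab_mono (st_mono w l) k,
    fun k => ⟨s, k⟩⟩

theorem Lab_inj {w : ℕ} (h : ¬I w) {b c : Bool} (k : ∀ j, Lab w b j → Lab w c j) : b = c := by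
  obtain ⟨s, hs⟩ := notI h
  have := k (Nat.bit b (st w s))
  simpa [Lab_fz hs, lab_bit] using this

def Stab (r N : ℕ) : Prop := ∀ w ≤ r, ∀ j ≤ r, ∀ b, Lab w b j → lab b (st w N) j = true

theorem stab (r : ℕ) : ∃ N, Stab r N := by
  refine Eventually.exists (f := atTop) ((eventually_all_finite (Set.finite_le_nat r)).2
    fun w _ => (eventually_all_finite (Set.finite_le_nat r)).2 fun j _ =>
      eventually_all.2 fun b => ?_)
  by_cases h : Lab w b j
  · obtain ⟨s, hs⟩ := h
    filter_upwards [eventually_ge_atTop s] with t a _ using lab_mono (st_mono w a) hs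
  · simp [h]

theorem ext0 (m r N : ℕ) (d : Bool → List (Option ℕ) → Bool) : ∃ y, N ≤ y ∧ m < y ∧
    y ≤ Bd m r N ∧ ∀ c l, l.length ≤ r → none ∈ l → (∀ x, some x ∈ l → x ≤ m) →
      raw c (l.map fun o => o.getD y) = d c l := by
  let n := KK m r + N + m + 1
  let y := Nat.ofBits (n := n + 1) fun i => decide (i.1 = n) ||
    (decode (α := Bool × List (Option ℕ)) i.1).elim false fun z => d z.1 z.2
  have y1 : n < y := Nat.lt_two_pow_self.trans_le (Nat.ge_two_pow_of_testBit (x := y) (i := n) (by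
    simp [y, Nat.testBit_ofBits_lt _ _ n.lt_succ_self]))
  refine ⟨y, by omega, by omega, (Nat.ofBits_lt_two_pow _).le, fun c l a b e => ?_⟩
  have e1 : mx (l.map fun o => o.getD y) = y := mx_eq (List.mem_map.2 ⟨none, b, rfl⟩) (by
    simp only [List.mem_map, forall_exists_index, and_imp, forall_apply_eq_imp_iff₂]
    rintro (_ | x) h
    · rfl
    · have := e x h; simp; omega)
  have e2 : encode (c, l) ≤ KK m r := by
    refine le_trans ?_ (List.le_sum_of_mem (List.mem_map.2 ⟨l, mem_allLists.2 ⟨a, ?_⟩, rfl⟩))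
    · cases c <;> omega
    · rintro (_ | x) h
      · simp
      · have := e x h; simp; omega
  unfold raw
  rw [e1, List.map_map, List.map_congr_left (g := id) (by
    rintro (_ | x) h
    · simp
    · have := e x h; simp; omega), List.map_id,
    Nat.testBit_ofBits_lt _ _ (show encode (c, l) < n + 1 by omega)]
  simp only [encodek, Option.elim_some, Bool.or_eq_right_iff_imp, decide_eq_true_eq]
  omega

def Inj (p : Set (ℕ × ℕ)) : Prop := ∀ z ∈ p, ∀ z' ∈ p, (z.1 = z'.1 ↔ z.2 = z'.2)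

theorem Inj.nd {p : Set (ℕ × ℕ)} (h : Inj p) {l : List (ℕ × ℕ)} (k : ∀ z ∈ l, z ∈ p) :
    ((l.map Prod.fst).Nodup ↔ l.Nodup) ∧ ((l.map Prod.snd).Nodup ↔ l.Nodup) :=
  ⟨⟨.of_map _, .map_on fun x a y b e => Prod.ext e ((h x (k x a) y (k y b)).1 e)⟩,
    ⟨.of_map _, .map_on fun x a y b e => Prod.ext ((h x (k x a) y (k y b)).2 e) e⟩⟩

theorem ext1 {p : Set (ℕ × ℕ)} (h : Inj p) {m : ℕ} (hm : ∀ z ∈ p, z.2 ≤ m) (r N a : ℕ) :
    ∃ y, N ≤ y ∧ m < y ∧ y ≤ Bd m r N ∧ ∀ l : List (ℕ × ℕ), l.length ≤ r →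
      (∀ z ∈ l, z ∈ insert (a, y) p) → (a, y) ∈ l → P (l.map Prod.snd) = P (l.map Prod.fst) ∧
        raw true (l.map Prod.snd) = S (l.map Prod.fst) := by
  classical
  let β : Option ℕ → ℕ := fun o => o.elim a fun x => if h : ∃ u, (u, x) ∈ p then h.choose else 0
  obtain ⟨y, y1, y2, y3, y4⟩ := ext0 m r N fun c l => cond c (S (l.map β)) (P (l.map β))
  refine ⟨y, y1, y2, y3, fun l a1 a2 a3 => ?_⟩
  let γ : ℕ × ℕ → Option ℕ := fun z => if z.2 = y then none else some z.2
  have e1 : (l.map γ).map (fun o => o.getD y) = l.map Prod.snd := by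
    rw [List.map_map]
    exact List.map_congr_left fun z _ => by by_cases k : z.2 = y <;> simp [γ, k]
  have e2 : (l.map γ).map β = l.map Prod.fst := by
    rw [List.map_map]
    refine List.map_congr_left fun z hz => ?_
    rcases a2 z hz with rfl | k
    · simp [γ, β]
    · have := hm z k
      have k' : ∃ u, (u, z.2) ∈ p := ⟨z.1, k⟩
      simp only [γ, β, Function.comp, show z.2 ≠ y by omega, if_false, Option.elim_some,
        dif_pos k']
      exact (h _ k'.choose_spec _ k).2 rfl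
  have := fun c => y4 c (l.map γ) (by simpa using a1) (List.mem_map.2 ⟨_, a3, by simp [γ]⟩) (by
    intro x hx
    obtain ⟨z, hz, e⟩ := List.mem_map.1 hx
    rcases a2 z hz with rfl | k
    · simp [γ] at e
    · have := hm z k
      simp only [γ, show z.2 ≠ y by omega, if_false, Option.some.injEq] at e
      omega)
  rw [e1, e2] at this
  exact ⟨this false, this true⟩

def Q (r : ℕ) (J : ℕ → ℕ → Prop) (p : Set (ℕ × ℕ)) : Prop := Inj p ∧
  ∀ l : List (ℕ × ℕ), (∀ z ∈ l, z ∈ p) → l.length ≤ r →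
    S (l.map Prod.fst) = S (l.map Prod.snd) ∧ ∀ w j, l.length = w + 1 → l.Nodup → J w j →
      (Lab w (P (l.map Prod.fst)) j ↔ Lab w (P (l.map Prod.snd)) j)

variable {r : ℕ} {J : ℕ → ℕ → Prop} {p : Set (ℕ × ℕ)}

theorem Q.mono {q : Set (ℕ × ℕ)} (h : Q r J p) (k : q ⊆ p) : Q r J q :=
  ⟨fun z a z' b => h.1 z (k a) z' (k b), fun l a => h.2 l fun z b => k (a z b)⟩

theorem Q.symm (h : Q r J p) : Q r J (Prod.swap ⁻¹' p) :=
  ⟨fun z a z' b => (h.1 _ a _ b).symm, fun l a b => by
    have := h.2 (l.map Prod.swap) (fun z hz => by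
      obtain ⟨x, k, rfl⟩ := List.mem_map.1 hz
      exact a _ k) (by simpa using b)
    simp only [List.map_map, List.length_map, List.nodup_map_iff Prod.swap_injective] at this
    exact ⟨this.1.symm, fun w j c d e => (this.2 w j c d e).symm⟩⟩

theorem S_nd {l : List ℕ} (h : S l = true) : l.Nodup := by
  simp only [S, Bool.and_eq_true, decide_eq_true_eq] at h
  exact h.2.1

theorem len_le (hp : p.Finite) {l : List (ℕ × ℕ)} (a : ∀ z ∈ l, z ∈ p) (k : l.Nodup) :
    l.length ≤ p.ncard := by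
  rw [← List.toFinset_card_of_nodup k, ← Set.ncard_coe_finset]
  exact Set.ncard_le_ncard (fun z hz => a z (by simpa using hz)) hp

theorem Q.up (hp : p.Finite) (h : Q r J p) (hr : p.ncard ≤ r) (r' : ℕ) : Q r' J p :=
  ⟨h.1, fun l a _ => by
    by_cases k : l.Nodup
    · exact h.2 l a ((len_le hp a k).trans hr)
    · refine ⟨?_, fun _ _ _ c => absurd c k⟩
      rw [Bool.eq_false_iff.2 fun c => k ((h.1.nd a).1.1 (S_nd c)),
        Bool.eq_false_iff.2 fun c => k ((h.1.nd a).2.1 (S_nd c))]⟩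

theorem Q.step {N m : ℕ} (hN : Stab r N) (h : Q r J p) (hJ : ∀ w j, Nat.pair w j + 2 ≤ r → J w j)
    (hm : ∀ z ∈ p, z.2 ≤ m) (a : ℕ) : ∃ y ≤ Bd m r N, Q r J (insert (a, y) p) := by
  by_cases k : ∃ y, (a, y) ∈ p
  · obtain ⟨y, hy⟩ := k
    exact ⟨y, (hm _ hy).trans (le_Bd _ _ _), by rwa [Set.insert_eq_of_mem hy]⟩
  obtain ⟨y, y1, y2, y3, y4⟩ := ext1 h.1 hm r N a
  have inj : Inj (insert (a, y) p) := by
    have : ∀ z ∈ p, ¬z.1 = a ∧ ¬z.2 = y := fun z hz =>
      ⟨fun e => k ⟨z.2, e ▸ hz⟩, fun e => by have := hm z hz; omega⟩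
    rintro z (rfl | b) z' (rfl | c)
    · simp
    · exact iff_of_false (Ne.symm (this z' c).1) (Ne.symm (this z' c).2)
    · simp [this z b]
    · exact h.1 z b z' c
  have old : ∀ l : List (ℕ × ℕ), (∀ z ∈ l, z ∈ insert (a, y) p) → (a, y) ∉ l → ∀ z ∈ l, z ∈ p :=
    fun l b c z hz => (b z hz).resolve_left fun e => c (e ▸ hz)
  have lb : ∀ l : List (ℕ × ℕ), (∀ z ∈ l, z ∈ insert (a, y) p) → l.length ≤ r → ∀ w j,
      l.length = w + 1 → l.Nodup → J w j →
      (Lab w (P (l.map Prod.fst)) j ↔ Lab w (P (l.map Prod.snd)) j) := fun l b c => by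
    by_cases d : (a, y) ∈ l
    · simp [(y4 l c b d).1]
    · exact (h.2 l (old l b d) c).2
  refine ⟨y, y3, inj, fun l b c => ⟨?_, lb l b c⟩⟩
  by_cases d : (a, y) ∈ l
  swap
  · exact (h.2 l (old l b d) c).1
  have e := (y4 l c b d).2
  cases f : S (l.map Prod.fst) <;> rw [f] at e
  · simp [S, e]
  have g := f
  simp only [S, Bool.and_eq_true, decide_eq_true_eq, List.length_map, ← List.map_take] at g
  obtain ⟨-, g1, g2, g3⟩ := g
  have g4 := (inj.nd b).1.1 g1
  have l1 := Nat.unpair_left_le (l.length - 2)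
  have l2 := Nat.unpair_right_le (l.length - 2)
  have g5 := (lb (l.take _) (fun z hz => b z (List.mem_of_mem_take hz)) (by simp; omega) _ _
    (by simp; omega) (g4.sublist (List.take_sublist _ _))
    (hJ _ _ (by rw [Nat.pair_unpair]; omega))).1 ⟨_, g3⟩
  symm
  simp only [S, e, Bool.and_eq_true, decide_eq_true_eq, List.length_map, ← List.map_take]
  exact ⟨trivial, (inj.nd b).2.2 g4, g2, lab_mono (st_mono _ (y1.trans
    (le_mx (List.mem_map.2 ⟨_, d, rfl⟩)))) (hN _ (by omega) _ (by omega) _ g5)⟩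

theorem lab_iff {l : List ℕ} {w j : ℕ} (h : l.length = w + 1) (k : l.Nodup) :
    Lab w (P l) j ↔ ∃ y : List ℕ, (l ++ y).length = Nat.pair w j + 2 ∧ S (l ++ y) = true := by
  have l1 := Nat.left_le_pair w j
  constructor
  · rintro ⟨N, hN⟩
    let l' := l ++ (List.range (Nat.pair w j - w)).map (· + mx l + 1)
    obtain ⟨y, y1, y2, -, y4⟩ := ext0 (mx l') (Nat.pair w j + 2) N fun _ _ => true
    have e : (l' ++ [y]).length = Nat.pair w j + 2 := by simp [l', h]; omega
    have := y4 true (l'.map some ++ [none]) (by simpa using e.le) (by simp) (by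
      simpa using fun x => le_mx)
    simp only [List.map_append, List.map_map, Function.comp_def, Option.getD_some, List.map_id',
      List.map_cons, Option.getD_none, List.map_nil] at this
    refine ⟨(List.range (Nat.pair w j - w)).map (· + mx l + 1) ++ [y], ?_⟩
    rw [← List.append_assoc]
    refine ⟨e, ?_⟩
    change S (l' ++ [y]) = true
    simp only [S, this, e, Bool.and_eq_true, decide_eq_true_eq, Nat.add_sub_cancel,
      Nat.unpair_pair]
    refine ⟨trivial, ?_, by omega, ?_⟩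
    · refine List.nodup_append.2 ⟨List.nodup_append.2 ⟨k, List.nodup_range.map
        fun a b e => by simpa using e, fun a b c d => ?_⟩, by simp, fun a b c d => ?_⟩
      · have := le_mx b
        obtain ⟨x, -, rfl⟩ := List.mem_map.1 d
        omega
      · have := le_mx b
        simp only [List.mem_singleton] at d
        omega
    · rw [List.append_assoc, List.take_left' h]
      exact lab_mono (st_mono _ (y1.trans (le_mx (by simp)))) hN
  · rintro ⟨y, a, b⟩
    simp only [S, a, Bool.and_eq_true, Nat.add_sub_cancel, Nat.unpair_pair,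
      List.take_left' h] at b
    exact ⟨_, b.2.2.2⟩

end Pool.Agent.H62.Au
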