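import Pool.Agent.H62.Au2
import Pool.Agent.H89.WO1

/-! Homogeneity, countable categoricity and the types of the structure. -/

set_option autoImplicit false

namespace Pool.Agent.H62.Au

open Encodable Pool.Agent.H37 Filter FirstOrder FirstOrder.Language Cardinal Pool.Agent.H62.Td

theorem rn {L : FirstOrder.Language.{0, 0}} [L.IsRelational] (M : Type) [L.Structure M]
    [Countable M] [Nonempty M]
    (h : ∀ (ι : Type) [Finite ι], ∃ (κ : Type) (_ : Finite κ) (τ : (ι → M) → κ),
      ∀ x y, τ x = τ y → ∃ g : M ≃[L] M, g ∘ x = y)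
    (h' : ∀ (ι : Type) [Finite ι] (x y : ι → M), (∀ φ : L.Formula ι, φ.Realize x ↔ φ.Realize y) →
      ∃ g : M ≃[L] M, g ∘ x = y) :
    Categorical aleph0.{0} (L.completeTheory M) ∧ ∀ (ι : Type) [Finite ι],
      Finite ((L.completeTheory M).CompleteType ι) ∧
      Function.Surjective ((L.completeTheory M).typeOf : (ι → M) → _) := by
  have key : ∀ (ι : Type) [Finite ι], ∃ (κ : Type) (_ : Finite κ) (ω : κ → L.Formula ι)
      (ρ : κ → ι → M), (∀ x : ι → M, ∃ k, (ω k).Realize x) ∧
      ∀ k (x : ι → M), (ω k).Realize x → ∃ g : M ≃[L] M, g ∘ ρ k = x := fun ι _ => by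
    obtain ⟨κ, _, τ, hτ⟩ := h ι
    choose ρ hρ using fun k : Set.range τ => k.2
    have : ∀ x y : ι → M, ∃ φ : L.Formula ι, φ.Realize x ∧
        (φ.Realize y → ∃ g : M ≃[L] M, g ∘ x = y) := fun x y => by
      by_cases k : ∀ φ : L.Formula ι, φ.Realize x → φ.Realize y
      · exact ⟨⊤, by simp, fun _ => h' ι x y fun φ => ⟨k φ, fun a => by_contra fun b =>
          Formula.realize_not.1 (k φ.not (Formula.realize_not.2 b)) a⟩⟩
      · push Not at k
        obtain ⟨φ, a, b⟩ := k
        exact ⟨φ, a, fun c => absurd c b⟩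
    choose φ h1 h2 using this
    refine ⟨_, inferInstance, fun k => Formula.iInf fun k' => φ (ρ k) (ρ k'), ρ, fun x => ?_,
      fun k x hx => ?_⟩
    · obtain ⟨g, hg⟩ := hτ _ _ (hρ ⟨_, x, rfl⟩)
      refine ⟨⟨_, x, rfl⟩, Formula.realize_iInf.2 fun k' => ?_⟩
      conv => rhs; rw [← hg]
      exact (StrongHomClass.realize_formula g _).2 (h1 _ _)
    · obtain ⟨g, hg⟩ := hτ _ _ (hρ ⟨_, x, rfl⟩)
      have := Formula.realize_iInf.1 hx ⟨_, x, rfl⟩
      conv at this => rhs; rw [← hg]
      obtain ⟨g', hg'⟩ := h2 _ _ ((StrongHomClass.realize_formula g _).1 this)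
      exact ⟨g.comp g', by rw [← hg, ← hg']; rfl⟩
  refine ⟨Pool.Agent.H89.WO.cat M fun ι _ => ?_, fun ι _ => ?_⟩
  · obtain ⟨κ, _, ω, ρ, h1, h2⟩ := key ι
    refine ⟨κ, inferInstance, ω, h1, fun k x y a b => ?_⟩
    obtain ⟨g, rfl⟩ := h2 k x a
    obtain ⟨g', rfl⟩ := h2 k y b
    exact ⟨g'.comp g.symm, funext fun i => by simp⟩
  obtain ⟨κ, _, ω, ρ, h1, h2⟩ := key ι
  suffices Function.Surjective fun k => (L.completeTheory M).typeOf (ρ k) from
    ⟨.of_surjective _ this, fun q => (this q).elim fun k e => ⟨ρ k, e⟩⟩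
  intro q
  obtain ⟨N, v, rfl⟩ := Theory.exists_modelType_is_realized_in _ q
  have tr : ∀ ψ : L.Formula ι, (∀ x : ι → M, ψ.Realize x) → ψ.Realize v := fun ψ h => by
    have : N ⊨ (ψ.relabel Sum.inr).iAlls ι := Theory.realize_sentence_of_mem
      (L.completeTheory M) (by
        simp only [mem_completeTheory, Sentence.Realize, Formula.realize_iAlls,
          Formula.realize_relabel]
        exact fun i => h _)
    simp only [Sentence.Realize, Formula.realize_iAlls, Formula.realize_relabel] at this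
    exact this v
  obtain ⟨k, hk⟩ := Formula.realize_iSup.1 (tr (Formula.iSup ω)
    fun x => Formula.realize_iSup.2 (h1 x))
  have : ∀ φ : L.Formula ι, φ.Realize (ρ k) → φ.Realize v := fun φ a =>
    Formula.realize_imp.1 (tr ((ω k).imp φ) fun x => Formula.realize_imp.2 fun b => by
      obtain ⟨g, rfl⟩ := h2 k x b
      exact (StrongHomClass.realize_formula g _).2 a) hk
  refine ⟨k, SetLike.ext fun φ => ?_⟩
  simp only [Theory.CompleteType.mem_typeOf]
  exact ⟨this _, fun a => by_contra fun b =>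
    Formula.realize_not.1 (this _ (Formula.realize_not.2 b)) a⟩

def LL : FirstOrder.Language.{0, 0} := ⟨fun _ => Empty, fun _ => Unit⟩

instance : LL.Structure ℕ where
  funMap f := Empty.elim f
  RelMap _ v := S (List.ofFn v) = true

instance : LL.IsRelational := fun _ => inferInstanceAs (IsEmpty Empty)

def QQ (p : Set (ℕ × ℕ)) : Prop := ∀ r, Q r (fun _ _ => True) p

theorem QQ_mk {p : Set (ℕ × ℕ)} (h : Inj p) (k : ∀ l : List (ℕ × ℕ), (∀ z ∈ l, z ∈ p) → l.Nodup →
    S (l.map Prod.fst) = S (l.map Prod.snd) ∧ ∀ w j, l.length = w + 1 →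
      (Lab w (P (l.map Prod.fst)) j ↔ Lab w (P (l.map Prod.snd)) j)) : QQ p :=
  fun _ => ⟨h, fun l a _ => by
    by_cases c : l.Nodup
    · exact ⟨(k l a c).1, fun w j d _ _ => (k l a c).2 w j d⟩
    · refine ⟨?_, fun _ _ _ d => absurd d c⟩
      rw [Bool.eq_false_iff.2 fun d => c ((h.nd a).1.1 (S_nd d)),
        Bool.eq_false_iff.2 fun d => c ((h.nd a).2.1 (S_nd d))]⟩

theorem bdd {p : Set (ℕ × ℕ)} (hp : p.Finite) : ∃ m, ∀ z ∈ p, z.2 ≤ m :=
  (hp.image Prod.snd).bddAbove.imp fun _ h z a => h ⟨z, a, rfl⟩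

theorem QQ.step {p : Set (ℕ × ℕ)} (hp : p.Finite) (h : QQ p) (a : ℕ) :
    ∃ y, QQ (insert (a, y) p) := by
  obtain ⟨N, hN⟩ := stab (p.ncard + 1)
  obtain ⟨m, hm⟩ := bdd hp
  obtain ⟨y, -, hy⟩ := (h _).step hN (fun _ _ _ => trivial) hm a
  exact ⟨y, hy.up (hp.insert _) (Set.ncard_insert_le _ _)⟩

theorem swap_ins (p : Set (ℕ × ℕ)) (x y : ℕ) :
    Prod.swap ⁻¹' insert (y, x) (Prod.swap ⁻¹' p) = insert (x, y) p := by
  ext ⟨a, b⟩; simp [and_comm]

theorem hom {ι : Type} [Finite ι] {x y : ι → ℕ} (h : QQ (Set.range fun i => (x i, y i))) :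
    ∃ g : ℕ ≃[LL] ℕ, g ∘ x = y := by
  have e : ∀ (ι : Type) (p : ι → ℕ × ℕ) z, Set.range (fun o : Option ι => o.elim z p) ⊆
      insert z (Set.range p) := by
    rintro ι p z _ ⟨_ | i, rfl⟩ <;> simp
  obtain ⟨g, g1, g2⟩ := Pool.Agent.H89.WO.bf (A := ℕ) (B := ℕ) (fun ι p => QQ (Set.range p))
    (fun ι κ p a f r => (a r).mono (Set.range_comp_subset_range _ _))
    (fun ι _ p a x => (a.step (Set.finite_range p) x).imp fun y b r => (b r).mono (e _ _ _))
    (fun ι _ p a x => (QQ.step ((Set.finite_range p).preimage Prod.swap_injective.injOn)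
      (fun r => (a r).symm) x).imp fun y b r => (swap_ins _ _ _ ▸ (b r).symm).mono (e _ _ _))
    (fun ι p a i j => (a 0).1 _ ⟨i, rfl⟩ _ ⟨j, rfl⟩) ι _ h
  refine ⟨⟨g, fun f => isEmptyElim f, fun {n} r v => ?_⟩, funext g1⟩
  have := ((g2 (Fin n) v n).2 (List.ofFn fun i => (v i, g (v i))) (by simp) (by simp)).1
  simp only [List.map_ofFn] at this
  exact iff_of_eq (congrArg (· = true) this.symm)

theorem lift_l {ι β : Type} {f : ι → β} {l : List β} (h : ∀ z ∈ l, z ∈ Set.range f) :
    ∃ l' : List ι, l = l'.map f := by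
  induction l with
  | nil => exact ⟨[], rfl⟩
  | cons a l ih =>
    obtain ⟨l', rfl⟩ := ih fun z hz => h z (List.mem_cons_of_mem _ hz)
    obtain ⟨i, rfl⟩ := h a List.mem_cons_self
    exact ⟨i :: l', rfl⟩

def sf {ι : Type} (l : List ι) : LL.Formula ι :=
  Relations.formula (show LL.Relations l.length from ()) fun i => Term.var (l.get i)

theorem sf_iff {ι : Type} (l : List ι) (x : ι → ℕ) : (sf l).Realize x ↔ S (l.map x) = true := by
  rw [sf, Formula.realize_rel]
  change S (List.ofFn fun i => x (l.get i)) = true ↔ _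
  rw [show (fun i => x (l.get i)) = x ∘ l.get from rfl, ← List.map_ofFn, List.ofFn_get]

theorem QQ_el {ι : Type} {x y : ι → ℕ} (h : ∀ φ : LL.Formula ι, φ.Realize x ↔ φ.Realize y) :
    QQ (Set.range fun i => (x i, y i)) := by
  have inj : Inj (Set.range fun i => (x i, y i)) := by
    rintro _ ⟨i, rfl⟩ _ ⟨j, rfl⟩
    simpa using h (Term.equal (Term.var i) (Term.var j))
  refine QQ_mk inj fun l a b => ?_
  have c := inj.nd a
  obtain ⟨l, rfl⟩ := lift_l a
  simp only [List.map_map, Function.comp_def, List.length_map] at c ⊢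
  refine ⟨Bool.eq_iff_iff.2 (by rw [← sf_iff, ← sf_iff]; exact h _), fun w j d => ?_⟩
  have l1 := Nat.left_le_pair w j
  have : ∀ x : ι → ℕ, (l.map x).Nodup → (((sf (l.map Sum.inl ++
      (List.finRange (Nat.pair w j + 1 - w)).map Sum.inr)).iExs _).Realize x ↔
      Lab w (P (l.map x)) j) := fun x e => by
    rw [lab_iff (by simpa using d) e, Formula.realize_iExs]
    simp only [sf_iff, List.map_append, List.map_map, Function.comp_def, Sum.elim_inl,
      Sum.elim_inr, List.length_append, List.length_map, d]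
    refine ⟨fun ⟨v, hv⟩ => ⟨_, by simp; omega, hv⟩, fun ⟨v, h1, h2⟩ => ?_⟩
    obtain h3 : Nat.pair w j + 1 - w = v.length := by omega
    rw [h3]
    exact ⟨v.get, by rwa [← List.ofFn_eq_map, List.ofFn_get]⟩
  rw [← this _ (c.1.2 b), ← this _ (c.2.2 b)]
  exact h _

abbrev TT : LL.Theory := LL.completeTheory ℕ

theorem rn0 : Categorical aleph0.{0} TT ∧ ∀ (ι : Type) [Finite ι],
    Finite (TT.CompleteType ι) ∧ Function.Surjective (TT.typeOf : (ι → ℕ) → _) := by
  refine rn ℕ (fun ι _ => ?_) fun ι _ x y h => hom (QQ_el h)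
  classical
  cases nonempty_fintype ι
  refine ⟨(ι × ι → Prop) × ({l : List ι // l.Nodup} → Bool × Bool), inferInstance,
    fun x => (fun i => x i.1 = x i.2, fun l => (S (l.1.map x), P (l.1.map x))),
    fun x y h => hom (QQ_mk ?_ fun l a b => ?_)⟩
  · rintro _ ⟨i, rfl⟩ _ ⟨j, rfl⟩
    exact iff_of_eq (congrFun (congrArg Prod.fst h) (i, j))
  · obtain ⟨l, rfl⟩ := lift_l a
    have := congrFun (congrArg Prod.snd h) ⟨l, b.of_map _⟩
    simp only [Prod.mk.injEq] at this
    simp [Function.comp_def, this]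

def iv (G : List ℕ) (p : ℕ) (u : List ℕ) : List (Bool × Bool × Bool) :=
  ((allLists (List.range p) (p + 1)).map fun l => l.map fun i => u.getD i 0).map fun l =>
    (decide l.Nodup, S l, decide l.Nodup && (decide (l.length - 1 ∈ G) && P l))

noncomputable def ty (p : ℕ) (u : List ℕ) : TT.CompleteType (Fin p) :=
  TT.typeOf fun i => u.getD i 0

theorem iv_iff {G u v : List ℕ} {p : ℕ} : iv G p u = iv G p v ↔ ∀ l : List ℕ, l.length ≤ p + 1 →
    (∀ i ∈ l, i < p) → ((l.map fun i => u.getD i 0).Nodup ↔ (l.map fun i => v.getD i 0).Nodup) ∧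
      S (l.map fun i => u.getD i 0) = S (l.map fun i => v.getD i 0) ∧
      ((l.map fun i => u.getD i 0).Nodup → l.length - 1 ∈ G →
        P (l.map fun i => u.getD i 0) = P (l.map fun i => v.getD i 0)) := by
  simp only [iv, List.map_map, List.map_inj_left, mem_allLists, List.mem_range, and_imp,
    Function.comp, Prod.mk.injEq, decide_eq_decide, List.length_map]
  refine forall₃_congr fun l _ _ => and_congr_right fun a => and_congr_right fun _ => ?_
  by_cases b : (l.map fun i => u.getD i 0).Nodup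
  · by_cases c : l.length - 1 ∈ G <;> simp [b, a.1 b, c, -List.getD_eq_getElem?_getD]
  · simp [b, mt a.2 b, -List.getD_eq_getElem?_getD]

theorem ty_of_iv {G u v : List ℕ} {p : ℕ} (hG : ∀ w < p, ¬I w → w ∈ G)
    (h : iv G p u = iv G p v) : ty p u = ty p v := by
  rw [iv_iff] at h
  have inj : Inj (Set.range fun i : Fin p => (u.getD i 0, v.getD i 0)) := by
    rintro _ ⟨i, rfl⟩ _ ⟨j, rfl⟩
    have := (h [i, j] (by have := i.2; simp; omega) (by simp)).1
    simpa [not_iff_not] using this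
  obtain ⟨g, hg⟩ := hom (QQ_mk inj fun l a b => by
    have c := (inj.nd a).1.2 b
    obtain ⟨l, rfl⟩ := lift_l a
    have d : l.length ≤ p := by simpa using (b.of_map _).length_le_card
    have := h (l.map Fin.val) (by simp; omega) (by simp)
    simp only [List.map_map, Function.comp_def, List.length_map] at this c ⊢
    refine ⟨this.2.1, fun w j e => ?_⟩
    by_cases k : I w
    · simp [Lab_I k]
    · rw [this.2.2 c (by simpa [e] using hG w (by omega) k)])
  refine SetLike.ext fun φ => ?_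
  simp only [ty, Theory.CompleteType.mem_typeOf]
  rw [← hg]
  exact (StrongHomClass.realize_formula g _).symm

theorem iv_of_ty {G u v : List ℕ} {p : ℕ} (hG : ∀ w ∈ G, ¬I w) (h : ty p u = ty p v) :
    iv G p u = iv G p v := by
  have := QQ_el (x := fun i : Fin p => u.getD i 0) (y := fun i => v.getD i 0) fun φ => by
    rw [← Theory.CompleteType.formula_mem_typeOf (T := TT),
      ← Theory.CompleteType.formula_mem_typeOf (T := TT)]
    exact iff_of_eq (congrArg (Formula.equivSentence φ ∈ ·) h)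
  refine iv_iff.2 fun l a b => ?_
  have c : ∀ z ∈ l.map fun i => (u.getD i 0, v.getD i 0),
      z ∈ Set.range fun i : Fin p => (u.getD i 0, v.getD i 0) := fun z hz => by
    obtain ⟨i, hi, rfl⟩ := List.mem_map.1 hz
    exact ⟨⟨i, b i hi⟩, rfl⟩
  have d := (this 0).1.nd c
  have e := (this _).2 _ c le_rfl
  simp only [List.map_map, Function.comp_def, List.length_map] at d e
  refine ⟨d.1.trans d.2.symm, e.1, fun f g => ?_⟩
  rcases l with _ | ⟨i, l⟩
  · rfl
  · exact Lab_inj (hG _ g) fun j => (e.2 _ j rfl (d.1.1 f) trivial).1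

theorem iv_sep {G : List ℕ} {w : ℕ} (h : w ∉ G) : ∃ u v, iv G (w + 1) u = iv G (w + 1) v ∧
    iv (w :: G) (w + 1) u ≠ iv (w :: G) (w + 1) v := by
  let γ : ℕ → Option ℕ := fun i => if i < w then some i else none
  have : ∀ b : Bool, ∃ u : List ℕ, (∀ l : List ℕ, (∀ i ∈ l, i < w + 1) →
      ((l.map fun i => u.getD i 0).Nodup ↔ l.Nodup)) ∧ (∀ i < w, u.getD i 0 = i) ∧
      ∀ l : List ℕ, l.length ≤ w + 2 → (∀ i ∈ l, i < w + 1) → w ∈ l →
        S (l.map fun i => u.getD i 0) = false ∧
        P (l.map fun i => u.getD i 0) = (b && l.length == w + 1) := fun b => by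
    obtain ⟨y, -, y2, -, y4⟩ := ext0 w (w + 2) 0 fun c l => !c && (b && l.length == w + 1)
    have e : ∀ i < w + 1, (List.range w ++ [y]).getD i 0 = (γ i).getD y := fun i hi => by
      by_cases k : i < w
      · simp [γ, k, List.getElem?_append_left]
      · simp [γ, show i = w by omega]
    refine ⟨List.range w ++ [y], fun l a => ⟨.of_map _, .map_on fun i c j d => ?_⟩,
      fun i hi => by rw [e i (by omega)]; simp [γ, hi], fun l a c d => ?_⟩
    · rw [e i (a i c), e j (a j d)]
      have := a i c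
      have := a j d
      simp only [γ]
      split_ifs <;> simp <;> omega
    · have := fun c' => y4 c' (l.map γ) (by simpa using a) (List.mem_map.2 ⟨w, d, by simp [γ]⟩)
        fun x hx => by
          obtain ⟨i, -, hi⟩ := List.mem_map.1 hx
          simp only [γ, Option.ite_none_right_eq_some, Option.some.injEq] at hi
          omega
      rw [List.map_congr_left fun i hi => e i (c i hi)]
      simp only [List.map_map, Function.comp_def, List.length_map] at this
      exact ⟨by simp [S, this], this false⟩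
  obtain ⟨u, u1, u2, u3⟩ := this false
  obtain ⟨v, v1, v2, v3⟩ := this true
  refine ⟨u, v, iv_iff.2 fun l a b => ?_, fun k => ?_⟩
  · by_cases c : w ∈ l
    · refine ⟨by rw [u1 l b, v1 l b], by rw [(u3 l a b c).1, (v3 l a b c).1], fun _ d => ?_⟩
      rw [(u3 l a b c).2, (v3 l a b c).2]
      have : l.length ≠ w + 1 := fun e => h (by simpa [e] using d)
      simp [this]
    · have d : ∀ i ∈ l, i < w := fun i hi => by
        have := b i hi
        have : i ≠ w := fun e => c (e ▸ hi)
        omega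
      rw [List.map_congr_left fun i hi => u2 i (d i hi),
        List.map_congr_left fun i hi => v2 i (d i hi)]
      simp
  · have b : ∀ i ∈ List.range (w + 1), i < w + 1 := by simp
    have := (iv_iff.1 k _ (by simp) b).2.2 ((u1 _ b).2 List.nodup_range) (by simp)
    rw [(u3 _ (by simp) b (by simp)).2, (v3 _ (by simp) b (by simp)).2] at this
    simp at this

end Pool.Agent.H62.Au
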