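import Pool.Agent.H62.Au3

/-! Any two computable copies are computably isomorphic. -/

set_option autoImplicit false

namespace Pool.Agent.H62.Au

open Encodable Pool.Agent.H37 Filter

def disp (X : List ℕ → Bool) (t : ℕ) (l : List ℕ) (j : ℕ) : Bool :=
  (allLists (List.range t) t).any fun y =>
    (l ++ y).length == Nat.pair (l.length - 1) j + 2 && X (l ++ y)

def good (X : List ℕ → Bool) (t : ℕ) (l : List ℕ) (b : Bool) : Bool :=
  decide (encode l ≤ t) && (disp X t l (Nat.bit b (st (l.length - 1) t)) &&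
    (!disp X t l (Nat.bit (!b) (st (l.length - 1) t)) &&
      !disp X t l (Nat.bit (!b) (st (l.length - 1) t - 1))))

def gen (X Y : List ℕ → Bool) (E : List ℕ) (p : List (ℕ × ℕ))
    (F : List ℕ → List ℕ → Bool → Bool) : Bool :=
  (p.all fun z => p.all fun z' => (z.1 == z'.1) == (z.2 == z'.2)) &&
    (allLists p p.length).all fun l => !decide l.Nodup ||
      (X (l.map Prod.fst) == Y (l.map Prod.snd) && (l.isEmpty || (decide (l.length - 1 ∈ E) ||
        (F (l.map Prod.fst) (l.map Prod.snd) true || F (l.map Prod.fst) (l.map Prod.snd) false))))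

def cn (X Y : List ℕ → Bool) (E : List ℕ) (p : List (ℕ × ℕ)) (t : ℕ) : Bool :=
  gen X Y E p fun u v b => good X t u b && good Y t v b

def pr (X Y : List ℕ → Bool) (E : List ℕ) (p : List (ℕ × ℕ)) (s : ℕ) : Bool :=
  (gen X Y E p fun u v b => disp X s u (Nat.bit b (st (u.length - 1) s)) &&
    disp Y s v (Nat.bit b (st (u.length - 1) s))) && E.all fun w => decide (p.length + 3 ≤ st w s)

variable {X Y : List ℕ → Bool} {E : List ℕ} {p : List (ℕ × ℕ)} {h k : ℕ ≃ ℕ} {g c : ℕ → ℕ}

section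
variable {α : Type} [Primcodable α]
@[fun_prop] theorem ci_bit' {O : Set (ℕ →. ℕ)} {b : α → Bool} {n : α → ℕ} (hb : CI O b)
    (hn : CI O n) : CI O fun a => Nat.bit (b a) (n a) :=
  (show CI O fun a => 2 * n a + (b a).toNat by fun_prop).of_eq fun _ => (Nat.bit_val _ _).symm
@[fun_prop] theorem ci_disp (hX : CI ∅ X) {t j : α → ℕ} {l : α → List ℕ} (ht : CI ∅ t)
    (hl : CI ∅ l) (hj : CI ∅ j) : CI ∅ fun a => disp X (t a) (l a) (j a) := by
  unfold disp; fun_prop
@[fun_prop] theorem ci_good (hX : CI ∅ X) {t : α → ℕ} {l : α → List ℕ} {b : α → Bool}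
    (ht : CI ∅ t) (hl : CI ∅ l) (hj : CI ∅ b) : CI ∅ fun a => good X (t a) (l a) (b a) := by
  unfold good; fun_prop
@[fun_prop] theorem ci_cn (hX : CI ∅ X) (hY : CI ∅ Y) {t : α → ℕ} {E : α → List ℕ}
    {p : α → List (ℕ × ℕ)} (hE : CI ∅ E) (hp : CI ∅ p) (ht : CI ∅ t) :
    CI ∅ fun a => cn X Y (E a) (p a) (t a) := by
  unfold cn gen; fun_prop
@[fun_prop] theorem ci_pr (hX : CI ∅ X) (hY : CI ∅ Y) {t : α → ℕ} {E : α → List ℕ}
    {p : α → List (ℕ × ℕ)} (hE : CI ∅ E) (hp : CI ∅ p) (ht : CI ∅ t) :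
    CI ∅ fun a => pr X Y (E a) (p a) (t a) := by
  unfold pr gen; fun_prop
end

theorem len_le' {l : List (ℕ × ℕ)} (a : ∀ z ∈ l, z ∈ p) (b : l.Nodup) : l.length ≤ p.length :=
  (b.subperm a).length_le

theorem gen_iff {F : List ℕ → List ℕ → Bool → Bool} : gen X Y E p F = true ↔ Inj {z | z ∈ p} ∧
    ∀ l : List (ℕ × ℕ), (∀ z ∈ l, z ∈ p) → l.Nodup → X (l.map Prod.fst) = Y (l.map Prod.snd) ∧
      ∀ w, l.length = w + 1 → w ∉ E → ∃ b, F (l.map Prod.fst) (l.map Prod.snd) b = true := by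
  simp only [gen, Bool.and_eq_true, List.all_eq_true, mem_allLists, Bool.or_eq_true,
    Bool.not_eq_true', decide_eq_false_iff_not, beq_iff_eq, decide_eq_true_eq, and_imp, Inj,
    Set.mem_ofPred_eq, List.isEmpty_iff, Bool.exists_bool]
  refine and_congr (forall₄_congr fun z _ z' _ => by rw [Bool.eq_iff_iff]; simp)
    (forall_congr' fun l => ⟨fun a b d => ?_, fun a _ b => ?_⟩)
  · obtain ⟨e, f⟩ := (a (len_le' b d) b).resolve_left (not_not.2 d)
    refine ⟨e, fun w i j => ?_⟩
    rcases f with rfl | f | f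
    · simp at i
    · simp [i, j] at f
    · exact f.symm
  · refine or_iff_not_imp_left.2 fun d => ?_
    obtain ⟨e, f⟩ := a b (not_not.1 d)
    refine ⟨e, ?_⟩
    rcases l with _ | ⟨z, l⟩
    · simp
    · exact Or.inr (or_iff_not_imp_left.2 fun i => (f _ rfl i).symm)

theorem disp_mono {s t j : ℕ} {l : List ℕ} (a : s ≤ t) (b : disp X s l j = true) :
    disp X t l j = true := by
  simp only [disp, List.any_eq_true, mem_allLists, List.mem_range] at b ⊢
  obtain ⟨y, ⟨b1, b2⟩, b3⟩ := b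
  exact ⟨y, ⟨b1.trans a, fun x hx => (b2 x hx).trans_le a⟩, b3⟩

theorem disp_iff (H : ∀ l, X l = S (l.map h)) {l : List ℕ} {w j : ℕ} (a : l.length = w + 1)
    (b : l.Nodup) : (∃ t, disp X t l j = true) ↔ Lab w (P (l.map h)) j := by
  rw [lab_iff (by simpa using a) (b.map h.injective)]
  simp only [disp, List.any_eq_true, mem_allLists, List.mem_range, Bool.and_eq_true, beq_iff_eq,
    H, a, Nat.add_sub_cancel, List.map_append, List.length_append, List.length_map]
  refine ⟨fun ⟨t, y, _, d, e⟩ => ⟨y.map h, by simpa using d, e⟩, fun ⟨y, d, e⟩ =>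
    ⟨y.length + mx (y.map h.symm) + 1, y.map h.symm, ⟨by simp; omega, fun x hx => ?_⟩,
      by simpa using d, by simpa using e⟩⟩
  have := le_mx hx
  omega

theorem disp_ev {l : List ℕ} {j : ℕ} (a : ∃ t, disp X t l j = true) :
    ∀ᶠ t in atTop, disp X t l j = true :=
  a.elim fun s b => (eventually_ge_atTop s).mono fun _ d => disp_mono d b

theorem good_ev (H : ∀ l, X l = S (l.map h)) {l : List ℕ} {w s : ℕ} (a : l.length = w + 1)
    (b : l.Nodup) (d : ∀ t, s ≤ t → st w t = st w s) :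
    ∀ᶠ t in atTop, good X t l (P (l.map h)) = true := by
  have e := fun j => (disp_iff H (j := j) a b).trans (Lab_fz d)
  filter_upwards [eventually_ge_atTop s, eventually_ge_atTop (encode l),
    disp_ev ((e (Nat.bit (P (l.map h)) (st w s))).2 (by simp [lab_bit]))] with t t1 t2 t3
  simp only [good, a, Nat.add_sub_cancel, d t t1, t2, t3, decide_true, Bool.true_and,
    Bool.and_eq_true, Bool.not_eq_true', ← Bool.not_eq_true]
  constructor <;> intro f <;> have := (e _).1 ⟨t, f⟩ <;> simp [lab_bit] at this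
  omega

def H1 (X : List ℕ → Bool) (g : ℕ → ℕ) : Prop := ∀ s (l : List ℕ) w, l.length = w + 1 → l.Nodup →
  encode l ≤ s → ∃ t, s ≤ t ∧ t ≤ g s ∧ (st w t ≠ st w s ∨ ∃ b, good X t l b = true)

def H2 (X Y : List ℕ → Bool) (g : ℕ → ℕ) : Prop := ∀ s E p a, encode (E, p, a) ≤ s →
  pr X Y E p s = true → ∃ t, s ≤ t ∧ t ≤ g s ∧ ((∃ w ≤ p.length, w ∉ E ∧ st w t ≠ st w s) ∨
    ∃ y, cn X Y E ((a, y) :: p) t = true)

theorem bound {ρ β : Type} [Primcodable ρ] [Primcodable β] {A : (ρ × ℕ) × ℕ × β → Bool}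
    (hA : CI ∅ A) (H : ∀ q, ∃ t, A (q, t) = true) : ∃ g, CI ∅ g ∧ ∀ r s, encode r ≤ s →
      ∃ t, t.1 ≤ g s ∧ A ((r, s), t) = true := by
  obtain ⟨f, f1, f2⟩ := CI.exists_choice (O := ∅) (p := fun q t => A (q, t)) (by fun_prop) H
  refine ⟨fun s => ((List.range (s + 1)).map fun n =>
    (decode (α := ρ) n).elim 0 fun r => (f (r, s)).1).sum, by fun_prop, fun r s a =>
      ⟨f (r, s), List.le_sum_of_mem (List.mem_map.2 ⟨encode r, by simp; omega, by simp⟩), f2 _⟩⟩

theorem exH1 (hX : CI ∅ X) (H : ∀ l, X l = S (l.map h)) : ∃ g, CI ∅ g ∧ H1 X g := by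
  obtain ⟨g, g1, g2⟩ := bound (A := fun z : (List ℕ × ℕ) × ℕ × Bool => decide (z.1.2 ≤ z.2.1) &&
    (z.1.1.isEmpty || (!decide z.1.1.Nodup || (st (z.1.1.length - 1) z.2.1 !=
      st (z.1.1.length - 1) z.1.2 || good X z.2.1 z.1.1 z.2.2)))) (by fun_prop) fun ⟨l, s⟩ => by
    simp only [Bool.and_eq_true, Bool.or_eq_true, decide_eq_true_eq, List.isEmpty_iff,
      Bool.not_eq_true', decide_eq_false_iff_not, bne_iff_ne, Prod.exists]
    by_contra n
    simp only [not_exists, not_and, not_or, not_not] at n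
    obtain ⟨a, b, -⟩ := n s true le_rfl
    obtain ⟨t, t1, t2⟩ := ((good_ev H (w := l.length - 1) (s := s)
      (by have := List.length_pos_iff.2 a; omega) b fun t d => (n t true d).2.2.1).and
      (eventually_ge_atTop s)).exists
    exact (n t _ t2).2.2.2 t1
  refine ⟨g, g1, fun s l w a b d => ?_⟩
  obtain ⟨⟨t, e⟩, t1, t2⟩ := g2 l s d
  simp only [Bool.and_eq_true, Bool.or_eq_true, decide_eq_true_eq, List.isEmpty_iff, a, b,
    Bool.not_eq_true', decide_eq_false_iff_not, bne_iff_ne, Nat.add_sub_cancel, not_true,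
    false_or] at t2
  exact ⟨t, t2.1, t1, (t2.2.resolve_left (by rintro rfl; simp at a)).imp id fun f => ⟨e, f⟩⟩

theorem exH2 (hX : CI ∅ X) (hY : CI ∅ Y) (H : ∀ l, X l = S (l.map h))
    (K : ∀ l, Y l = S (l.map k)) : ∃ g, CI ∅ g ∧ H2 X Y g := by
  obtain ⟨g, g1, g2⟩ := bound (A := fun z : ((List ℕ × List (ℕ × ℕ) × ℕ) × ℕ) × ℕ × ℕ =>
    decide (z.1.2 ≤ z.2.1) && (!pr X Y z.1.1.1 z.1.1.2.1 z.1.2 ||
      (((List.range (z.1.1.2.1.length + 1)).any fun w => !decide (w ∈ z.1.1.1) &&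
        st w z.2.1 != st w z.1.2) || cn X Y z.1.1.1 ((z.1.1.2.2, z.2.2) :: z.1.1.2.1) z.2.1)))
    (by fun_prop) fun ⟨⟨E, p, a⟩, s⟩ => by
    simp only [Bool.and_eq_true, Bool.or_eq_true, decide_eq_true_eq, List.any_eq_true,
      Bool.not_eq_true', decide_eq_false_iff_not, bne_iff_ne, Prod.exists, List.mem_range]
    by_contra n
    simp only [not_exists, not_and, not_or, not_not, Bool.not_eq_false] at n
    have fz : ∀ w ≤ p.length, w ∉ E → ∀ t, s ≤ t → st w t = st w s := fun w a b t d =>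
      (n t 0 d).2.1 w (by omega) b
    obtain ⟨⟨i1, i2⟩, i3⟩ : (_ ∧ _) ∧ ∀ w ∈ E, p.length + 3 ≤ st w s := by
      simpa only [pr, Bool.and_eq_true, gen_iff, List.all_eq_true, decide_eq_true_eq] using
        (n s 0 le_rfl).1
    let φ : ℕ × ℕ → ℕ × ℕ := Prod.map h k
    have φi : Function.Injective φ := h.injective.prodMap k.injective
    have m1 : ∀ l : List (ℕ × ℕ), (l.map φ).map Prod.fst = (l.map Prod.fst).map h := fun l => by
      simp [φ]
    have m2 : ∀ l : List (ℕ × ℕ), (l.map φ).map Prod.snd = (l.map Prod.snd).map k := fun l => by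
      simp [φ]
    have q : Q (p.length + 1) (fun w j => w ∉ E ∨ Nat.pair w j + 2 ≤ p.length + 1)
        (φ '' {z | z ∈ p}) := by
      have inj : Inj (φ '' {z | z ∈ p}) := by
        rintro _ ⟨z, a, rfl⟩ _ ⟨z', b, rfl⟩
        simpa [φ] using i1 z a z' b
      refine ⟨inj, fun l a _ => ?_⟩
      have b := inj.nd a
      obtain ⟨l, rfl⟩ := lift_l (f := φ) fun z hz => Set.image_subset_range _ _ (a z hz)
      have a' : ∀ z ∈ l, z ∈ p := fun z hz =>
        (φi.mem_set_image (s := {z | z ∈ p})).1 (a _ (List.mem_map_of_mem hz))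
      by_cases d : (l.map φ).Nodup
      swap
      · refine ⟨?_, fun _ _ _ e => absurd e d⟩
        rw [Bool.eq_false_iff.2 fun e => d (b.1.1 (S_nd e)),
          Bool.eq_false_iff.2 fun e => d (b.2.1 (S_nd e))]
      obtain ⟨e1, e2⟩ := i2 l a' (d.of_map _)
      rw [m1, m2, ← H, ← K]
      refine ⟨e1, fun w j f _ i => ?_⟩
      rw [List.length_map] at f
      by_cases o : w ∈ E
      · have := i3 w o
        have := Nat.right_le_pair w j
        have := i.resolve_left (not_not.2 o)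
        exact iff_of_true ⟨s, lab_big _ (by omega)⟩ ⟨s, lab_big _ (by omega)⟩
      obtain ⟨b', e3, e4⟩ := e2 w f o
      have z := fz w (by have := len_le' a' (d.of_map _); omega) o
      have n1 := i1.nd a'
      simp only [List.length_map, f, Nat.add_sub_cancel] at e3 e4
      have e5 := (disp_iff H (by simpa using f) (n1.1.2 (d.of_map _))).1 ⟨s, e3⟩
      have e6 := (disp_iff K (by simpa using f) (n1.2.2 (d.of_map _))).1 ⟨s, e4⟩
      simp only [Lab_fz z, lab_bit, le_refl, and_true, add_lt_iff_neg_left, not_lt_zero,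
        or_false] at e5 e6
      rw [← e5, ← e6]
    obtain ⟨N, hN⟩ := stab (p.length + 1)
    obtain ⟨m, hm⟩ := bdd (p.finite_toSet.image φ)
    obtain ⟨y, -, q'⟩ := q.step hN (fun _ _ => Or.inr) hm (h a)
    obtain ⟨y, rfl⟩ := k.surjective y
    have a' : ∀ l : List (ℕ × ℕ), (∀ z ∈ l, z ∈ (a, y) :: p) → ∀ z ∈ l.map φ,
        z ∈ insert (h a, k y) (φ '' {z | z ∈ p}) := fun l b z hz => by
      obtain ⟨z, d, rfl⟩ := List.mem_map.1 hz
      rcases List.mem_cons.1 (b z d) with rfl | e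
      exacts [Or.inl rfl, Or.inr ⟨z, e, rfl⟩]
    have inj : Inj {z | z ∈ (a, y) :: p} := fun z b z' d => by
      simpa [φ] using q'.1 _ (a' _ (fun _ => id) _ (List.mem_map_of_mem b)) _
        (a' _ (fun _ => id) _ (List.mem_map_of_mem d))
    have : ∀ᶠ t in atTop, ∀ l ∈ {l | l ∈ allLists ((a, y) :: p) (p.length + 1)}, l.Nodup →
        ∀ w, l.length = w + 1 → w ∉ E → ∃ b, (good X t (l.map Prod.fst) b &&
          good Y t (l.map Prod.snd) b) = true :=
      (eventually_all_finite (List.finite_toSet _)).2 fun l hl => by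
        obtain ⟨b, d⟩ := mem_allLists.1 hl
        by_cases e : l.Nodup ∧ l.length - 1 ∉ E ∧ l.length = l.length - 1 + 1
        swap
        · refine .of_forall fun t f w i j => absurd ⟨f, ?_⟩ e
          simp [i, j]
        obtain ⟨e1, e2, e3⟩ := e
        have z := fz _ (by omega) e2
        have n1 := inj.nd d
        have e4 : P ((l.map Prod.fst).map h) = P ((l.map Prod.snd).map k) := by
          rw [← m1, ← m2]
          refine Lab_inj (fun i => ?_) fun j => ((q'.2 _ (a' l d) (by simpa using b)).2 _ j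
            (by simpa using e3) (e1.map φi) (Or.inl e2)).1
          obtain ⟨t, i⟩ := i (st (l.length - 1) s + 1)
          have := z (max s t) (le_max_left _ _)
          have := st_mono (l.length - 1) (le_max_right s t)
          omega
        filter_upwards [good_ev H (by simpa using e3) (n1.1.2 e1) z,
          good_ev K (by simpa using e3) (n1.2.2 e1) z] with t t1 t2 _ _ _ _
        exact ⟨_, by rw [t1, e4, t2]; rfl⟩
    obtain ⟨t, t1, t2⟩ := (this.and (eventually_ge_atTop s)).exists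
    refine (n t y t2).2.2 (gen_iff.2 ⟨inj, fun l b d => ⟨?_,
      t1 l (mem_allLists.2 ⟨len_le' b d, b⟩) d⟩⟩)
    rw [H, K, ← m1, ← m2]
    exact (q'.2 _ (a' l b) (by simpa using len_le' b d)).1
  refine ⟨g, g1, fun s E p a b d => ?_⟩
  obtain ⟨⟨t, y⟩, t1, t2⟩ := g2 (E, p, a) s b
  simp only [Bool.and_eq_true, Bool.or_eq_true, decide_eq_true_eq, List.any_eq_true, d,
    Bool.not_eq_true', decide_eq_false_iff_not, bne_iff_ne, List.mem_range, Nat.lt_succ_iff,
    Bool.true_eq_false, false_or] at t2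
  exact ⟨t, t2.1, t1, t2.2.imp id fun f => ⟨y, f⟩⟩

theorem cons (H : H1 X g) {l : List ℕ} {w c : ℕ} (a : l.length = w + 1) (b : l.Nodup)
    (sp : ∀ s, c ≤ s → st w (g (s + 1)) ≤ st w s + 1) (d : ℕ) : ∀ t t' i j, c ≤ t →
    st w t' = st w t + d → good X t l i = true → good X t' l j = true → i = j := by
  induction d with
  | zero =>
    intro t t' i j _ e f f'
    simp only [good, a, Nat.add_sub_cancel, e, add_zero, Bool.and_eq_true, Bool.not_eq_true',
      ← Bool.not_eq_true] at f f'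
    by_contra n
    obtain rfl : j = !i := by cases i <;> cases j <;> simp_all
    rcases le_total t t' with o | o
    · exact f'.2.2.1 (by simpa using disp_mono o f.2.1)
    · exact f.2.2.1 (disp_mono o f'.2.1)
  | succ d ih =>
    intro t t' i j e f f1 f2
    have : ∃ s, t ≤ s ∧ st w s = st w t ∧ st w (s + 1) = st w t + 1 := by
      by_contra n
      push Not at n
      have : ∀ s, t ≤ s → st w s = st w t := fun s o => by
        induction s, o using Nat.le_induction with
        | base => rfl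
        | succ s o ih => have := n s o ih; have := st_succ w s; omega
      have := this (max t t') (le_max_left _ _)
      have := st_mono w (le_max_right t t')
      omega
    obtain ⟨s, s1, s2, s3⟩ := this
    have f3 := f1
    simp only [good, a, Nat.add_sub_cancel, Bool.and_eq_true, decide_eq_true_eq] at f3
    obtain ⟨u, u1, u2, u3⟩ := H (s + 1) l w a b (by omega)
    have u4 := sp s (by omega)
    have u5 := st_mono w u1
    have u6 := st_mono w u2
    obtain ⟨b', u7⟩ := u3.resolve_left (by omega)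
    rw [← ih u t' b' j (by omega) (by omega) u7 f2]
    simp only [good, a, Nat.add_sub_cancel, Bool.and_eq_true, Bool.not_eq_true',
      ← Bool.not_eq_true, show st w u = st w t + 1 by omega] at u7
    by_contra n
    obtain rfl : b' = !i := by cases i <;> cases b' <;> simp_all
    exact u7.2.2.2 (by simpa using disp_mono (by omega) f3.2.1)

theorem window (hg : ∀ s, s ≤ g s) (W : Finset ℕ) (c : ℕ)
    (sp : ∀ w ∈ W, ∀ s, c ≤ s → st w (g^[s] s) ≤ st w s + 1) :
    ∃ s, c ≤ s ∧ ∀ w ∈ W, st w (g s) = st w s := by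
  by_contra n
  push Not at n
  let s := c + W.card + 1
  have : ∀ i, s ≤ g^[i] s ∧ ∑ w ∈ W, st w s + i ≤ ∑ w ∈ W, st w (g^[i] s) := fun i => by
    induction i with
    | zero => simp
    | succ i ih =>
      rw [Function.iterate_succ_apply']
      obtain ⟨w, a, b⟩ := n (g^[i] s) (by omega)
      have := Finset.sum_lt_sum (fun w _ => st_mono w (hg (g^[i] s)))
        ⟨w, a, lt_of_le_of_ne (st_mono w (hg _)) b.symm⟩
      exact ⟨ih.1.trans (hg _), by omega⟩
  have e := (this s).2.trans (Finset.sum_le_sum fun w a => sp w a s (by omega))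
  rw [Finset.sum_add_distrib] at e
  simp only [Finset.sum_const, smul_eq_mul, mul_one] at e
  omega

theorem extend (hg : ∀ s, s ≤ g s) (A : H1 X g) (B : H1 Y g) (C : H2 X Y g) (hE : ∀ w ∈ E, I w)
    (sp : ∀ w ∉ E, ∀ s, c w ≤ s → st w ((g ∘ g)^[s] s + g (s + 1)) ≤ st w s + 1) {t : ℕ}
    (h1 : cn X Y E p t = true) (h2 : ∀ w ≤ p.length, c w ≤ t) (a : ℕ) :
    ∃ y t', cn X Y E ((a, y) :: p) t' = true ∧ ∀ w ≤ p.length + 1, c w ≤ t' := by
  have : ∀ᶠ s in atTop, ∀ w ∈ {w | w ∈ E}, p.length + 3 ≤ st w s :=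
    (eventually_all_finite E.finite_toSet).2 fun w o => (hE w o _).elim fun s b =>
      (eventually_ge_atTop s).mono fun _ d => b.trans (st_mono w d)
  obtain ⟨s0, hs0⟩ := eventually_atTop.1 this
  obtain ⟨s, s1, s2⟩ := window (g := g ∘ g) (fun s => (hg s).trans (hg _))
    ((Finset.range (p.length + 1)).filter (· ∉ E)) (s0 + t + encode (E, p, a) + c (p.length + 1))
    fun w o s d => by
      simp only [Finset.mem_filter, Finset.mem_range] at o
      have := h2 w (by omega)
      exact (st_mono w (Nat.le_add_right _ _)).trans (sp w o.2 s (by omega))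
  have s3 : ∀ w ≤ p.length, w ∉ E → ∀ u, s ≤ u → u ≤ g (g s) → st w u = st w s :=
    fun w o o' u a b => le_antisymm ((st_mono w b).trans (s2 w (by simp [o']; omega)).le)
      (st_mono w a)
  have s4 := hg s
  have s5 := hg (g s)
  obtain ⟨i1, i2⟩ := gen_iff.1 h1
  have key : ∀ {X : List ℕ → Bool}, H1 X g → ∀ (l : List ℕ) w b, l.length = w + 1 → l.Nodup →
      w ≤ p.length → w ∉ E → good X t l b = true →
      disp X (g s) l (Nat.bit b (st w (g s))) = true := fun A l w b a1 a2 a3 a4 a5 => by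
    have a6 := a5
    simp only [good, Bool.and_eq_true, decide_eq_true_eq] at a6
    obtain ⟨u, u1, u2, u3⟩ := A s l w a1 a2 (by omega)
    have u4 := s3 w a3 a4 u u1 (by omega)
    obtain ⟨b', u5⟩ := u3.resolve_left (not_not.2 u4)
    obtain ⟨d, hd⟩ := Nat.exists_eq_add_of_le (st_mono w (show t ≤ u by omega))
    rw [cons A a1 a2 (fun s o => (st_mono w (Nat.le_add_left _ _)).trans (sp w a4 s o)) d t u b b'
      (h2 w a3) hd a5 u5, s3 w a3 a4 _ s4 s5, ← u4]
    simp only [good, Bool.and_eq_true, a1, Nat.add_sub_cancel] at u5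
    exact disp_mono u2 u5.2.1
  obtain ⟨u, u1, u2, u3⟩ := C (g s) E p a (by omega) (by
    simp only [pr, Bool.and_eq_true, gen_iff, List.all_eq_true, decide_eq_true_eq]
    refine ⟨⟨i1, fun l b d => ⟨(i2 l b d).1, fun w e f => ?_⟩⟩, hs0 _ (by omega)⟩
    obtain ⟨i, i3⟩ := (i2 l b d).2 w e f
    rw [Bool.and_eq_true] at i3
    have := len_le' b d
    simp only [List.length_map, e, Nat.add_sub_cancel]
    exact ⟨i, key A _ w i (by simpa using e) ((i1.nd b).1.2 d) (by omega) f i3.1,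
      key B _ w i (by simpa using e) ((i1.nd b).2.2 d) (by omega) f i3.2⟩)
  obtain ⟨y, hy⟩ := u3.resolve_left fun ⟨w, b, d, e⟩ =>
    e ((s3 w b d u (by omega) u2).trans (s3 w b d _ s4 s5).symm)
  refine ⟨y, u, hy, fun w b => ?_⟩
  rcases b.eq_or_lt with rfl | b
  · omega
  · have := h2 w (by omega); omega

theorem cn_swap {t : ℕ} (a : cn X Y E p t = true) : cn Y X E (p.map Prod.swap) t = true := by
  obtain ⟨i1, i2⟩ := gen_iff.1 a
  have m : ∀ z, z ∈ p.map Prod.swap → z.swap ∈ p := fun z hz => by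
    obtain ⟨x, k, rfl⟩ := List.mem_map.1 hz
    exact k
  refine gen_iff.2 ⟨fun z a z' b => (i1 _ (m z a) _ (m z' b)).symm, fun l a b => ?_⟩
  have := i2 (l.map Prod.swap) (fun z hz => by
    obtain ⟨x, k, rfl⟩ := List.mem_map.1 hz
    exact m x (a x k)) (b.map Prod.swap_injective)
  simp only [List.map_map, List.length_map] at this
  exact ⟨this.1.symm, fun w d e => (this.2 w d e).imp fun i f => by rwa [Bool.and_comm]⟩

theorem auto (hX : CI ∅ X) (hY : CI ∅ Y) (H : ∀ l, X l = S (l.map h))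
    (K : ∀ l, Y l = S (l.map k)) : ∃ f : ℕ ≃ ℕ, CI ∅ f ∧ ∀ l, X l = Y (l.map f) := by
  obtain ⟨g1, a1, b1⟩ := exH1 hX H
  obtain ⟨g2, a2, b2⟩ := exH1 hY K
  obtain ⟨g3, a3, b3⟩ := exH2 hX hY H K
  obtain ⟨g4, a4, b4⟩ := exH2 hY hX K H
  let g : ℕ → ℕ := fun s => s + g1 s + g2 s + g3 s + g4 s
  have hg : CI ∅ g := by simp only [g]; fun_prop
  have le : ∀ s, s ≤ g s := fun s => by simp only [g]; omega
  have A : H1 X g := fun s l w a b d => (b1 s l w a b d).imp fun t e =>
    ⟨e.1, by simp only [g]; omega, e.2.2⟩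
  have B : H1 Y g := fun s l w a b d => (b2 s l w a b d).imp fun t e =>
    ⟨e.1, by simp only [g]; omega, e.2.2⟩
  have C : H2 X Y g := fun s l w a b d => (b3 s l w a b d).imp fun t e =>
    ⟨e.1, by simp only [g]; omega, e.2.2⟩
  have D : H2 Y X g := fun s l w a b d => (b4 s l w a b d).imp fun t e =>
    ⟨e.1, by simp only [g]; omega, e.2.2⟩
  obtain ⟨c, E, c1, c2, c3⟩ := sparse (G := fun s => (g ∘ g)^[s] s + g (s + 1))
    (CI.add (CI.iterate (h := fun _ s => g (g s)) (by fun_prop) (by fun_prop) (by fun_prop))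
      (by fun_prop))
  obtain ⟨σ, σ1, σ2, σ3⟩ := CI.dc (O := ∅) (D := fun (p q : List (ℕ × ℕ)) t =>
    q == ((q.getD 0 (0, 0)).1, p.length / 2) :: (p.length / 2, (q.getD 1 (0, 0)).2) :: p &&
      (cn X Y E q t && (List.range (q.length + 1)).all fun w => decide (c w ≤ t))) (by fun_prop)
    (fun p => ∃ t, cn X Y E p t = true ∧ ∀ w ≤ p.length, c w ≤ t) []
    ⟨c 0, gen_iff.2 ⟨by simp [Inj], fun l a _ => by
      obtain rfl : l = [] := List.eq_nil_iff_forall_not_mem.2 fun z hz => by simpa using a z hz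
      simp [H, K]⟩, by simp⟩
    (fun p ⟨t, a, b⟩ => by
      obtain ⟨y, t, a, b⟩ := extend le A B C c2 c3 a b (p.length / 2)
      obtain ⟨x, t, a, b⟩ := extend le B A D c2 c3 (cn_swap a) (by simpa using b) (p.length / 2)
      refine ⟨(x, p.length / 2) :: (p.length / 2, y) :: p, t, ?_⟩
      simpa [Nat.lt_succ_iff] using And.intro (cn_swap a) b)
    fun p q t _ a => ⟨t, by simpa [Nat.lt_succ_iff] using (Bool.and_eq_true_iff.1 a).2⟩
  have e1 : ∀ n, σ (n + 1) = (((σ (n + 1)).getD 0 (0, 0)).1, (σ n).length / 2) ::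
      ((σ n).length / 2, ((σ (n + 1)).getD 1 (0, 0)).2) :: σ n := fun n =>
    (σ3 n).2.elim fun _ a => beq_iff_eq.1 (Bool.and_eq_true_iff.1 a).1
  have e2 : ∀ n, (σ n).length = 2 * n := fun n => by
    induction n with
    | zero => simp [σ2]
    | succ n ih => rw [e1]; simp [ih]; omega
  simp only [e2, Nat.mul_div_cancel_left _ two_pos] at e1
  have e3 : ∀ n m, n ≤ m → σ n ⊆ σ m := fun n m o => by
    induction m, o using Nat.le_induction with
    | base => exact List.Subset.refl _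
    | succ m _ ih => rw [e1]; exact List.subset_cons_of_subset _ (List.subset_cons_of_subset _ ih)
  let f := fun n => ((σ (n + 1)).getD 1 (0, 0)).2
  let f' := fun n => ((σ (n + 1)).getD 0 (0, 0)).1
  have e4 : ∀ n m, n < m → (n, f n) ∈ σ m ∧ (f' n, n) ∈ σ m := fun n m o =>
    ⟨e3 _ _ o (by rw [e1]; simp [f]), e3 _ _ o (by rw [e1]; simp [f'])⟩
  have e5 := fun m => (σ3 m).1.elim fun t a => gen_iff.1 a.1 |>.imp id fun b l d e => (b l d e).1
  refine ⟨⟨f, f', fun n => ((e5 (n + f n + 1)).1 _ (e4 _ _ (by omega)).2 _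
    (e4 n _ (by omega)).1).2 rfl, fun n => ((e5 (n + f' n + 1)).1 _ (e4 _ _ (by omega)).1 _
    (e4 n _ (by omega)).2).1 rfl⟩, show CI ∅ f by simp only [f]; fun_prop, fun l => ?_⟩
  have a : ∀ z ∈ l.map fun x => (x, f x), z ∈ σ (mx l + 1) := fun z hz => by
    obtain ⟨x, b, rfl⟩ := List.mem_map.1 hz
    exact (e4 _ _ (Nat.lt_succ_of_le (le_mx b))).1
  have b := (e5 _).1.nd a
  have d := (e5 _).2 _ a
  simp only [List.map_map, Function.comp_def, List.map_id'] at b d
  by_cases o : l.Nodup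
  · exact d (b.1.1 o)
  · rw [H, K, Bool.eq_false_iff.2 fun e => o ((S_nd e).of_map _),
      Bool.eq_false_iff.2 fun e => o (((S_nd e).of_map _).of_map _)]

end Pool.Agent.H62.Au
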