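import Pool.Agent.H62.TdDefs

/-! Computable presentations, autostability and the graph of the type function. -/

set_option autoImplicit false

namespace Pool.Agent.H62.Au

open FirstOrder FirstOrder.Language Pool.Agent.H62.Td

variable {L : FirstOrder.Language.{0, 0}}

/-- `ν` names the elements of `M` by a computable set of naturals and the atomic diagram of `M`
is computable in these names -/
def Pres (S : Sig L) (M : Type) [L.Structure M] (ν : M → ℕ) : Prop :=
  Function.Injective ν ∧ ComputablePred (· ∈ Set.range ν) ∧
    ∃ p : ℕ × List ℕ → Bool, Computable p ∧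
      ∀ (n : ℕ) (φ : L.BoundedFormula Empty n) (v : Fin n → M), φ.IsAtomic →
        (p (code S φ, List.ofFn (ν ∘ v)) = true ↔ φ.Realize default v)

/-- any two computable copies of `A` are computably isomorphic -/
def Autostable (S : Sig L) (A : Type) [L.Structure A] : Prop :=
  ∀ (M N : Type) [L.Structure M] [L.Structure N] (ν : M → ℕ) (μ : N → ℕ),
    Pres S M ν → Pres S N μ → Nonempty (M ≃[L] A) → Nonempty (N ≃[L] A) →
      ∃ (e : M ≃[L] N) (f : ℕ →. ℕ), Partrec f ∧ ∀ a, μ (e a) ∈ f (ν a)

/-- the graph of the type function: pairs `(n, m)` such that `T` has exactly `m` complete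
`(n + 1)`-types -/
noncomputable def tgraph (T : L.Theory) (p : ℕ) : Bool :=
  decide (Nat.card (T.CompleteType (Fin (p.unpair.1 + 1))) = p.unpair.2)

end Pool.Agent.H62.Au
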