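import Pool.Agent.H62.Au4
import Pool.Agent.H62.AuDefs

/-! The theory is computable in the halting set, its type function is not. -/

set_option autoImplicit false

namespace Pool.Agent.H62.Au

open Encodable Pool.Agent.H37 Filter FirstOrder FirstOrder.Language Pool.Agent.H62.Td

theorem cengine {Q : Type} [Primcodable Q] {ch : Q → List Q} {cb : Q × List Bool → Bool}
    (h1 : CI ∅ ch) (h2 : CI ∅ cb) : ∃ F : ℕ × Q → Bool, CI ∅ F ∧
      ∀ n q, F (n + 1, q) = cb (q, (ch q).map fun q' => F (n, q')) := by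
  classical
  let F : ℕ → Q → Bool := fun n => n.rec (fun _ => false) fun _ G q => cb (q, (ch q).map G)
  let U : ℕ × Q → List Q := fun z => (fun L => L ++ L.flatMap ch)^[z.1] [z.2]
  have hU : CI ∅ U := by simp only [U]; fun_prop
  let T : List Q × ℕ → List Q := fun z => (fun T => z.1.filter fun q =>
    cb (q, (ch q).map fun q' => decide (q' ∈ T)))^[z.2] []
  have hT : CI ∅ T := by simp only [T]; fun_prop
  have U1 : ∀ i q, U (i + 1, q) = U (i, q) ++ (U (i, q)).flatMap ch := fun i q =>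
    Function.iterate_succ_apply' _ _ _
  have U2 : ∀ q i n, i ≤ n → U (i, q) ⊆ U (n, q) := fun q i n h => by
    induction n, h using Nat.le_induction with
    | base => exact List.Subset.refl _
    | succ n _ ih => rw [U1]; exact List.subset_append_of_subset_left _ ih
  refine ⟨fun z => F z.1 z.2, (show CI ∅ fun z : ℕ × Q => decide (z.2 ∈ T (U z, z.1)) by
    fun_prop).of_eq fun ⟨n, q⟩ => ?_, fun _ _ => rfl⟩
  suffices ∀ k i q', i + k ≤ n → q' ∈ U (i, q) → decide (q' ∈ T (U (n, q), k)) = F k q' from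
    this n 0 q (by simp) (by simp [U])
  intro k
  induction k with
  | zero => simp [T, F]
  | succ k ih =>
    intro i q' a b
    simp only [T, Function.iterate_succ_apply', List.mem_filter, U2 q i n (by omega) b, true_and,
      Bool.decide_eq_true]
    refine congrArg (fun l => cb (q', l)) (List.map_congr_left fun x hx => ih (i + 1) x
      (by omega) ?_)
    rw [U1]
    exact List.mem_append_right _ (List.mem_flatMap.2 ⟨q', b, hx⟩)

def SG : Sig LL where
  nf f := Empty.elim f.2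
  nr r := r.1
  nf_inj f := Empty.elim f.2
  nr_inj := by rintro ⟨n, _⟩ ⟨m, _⟩ (rfl : n = m); rfl
  af _ := none
  ar m := some m
  caf := Computable.const _
  car := Computable.option_some
  haf m n := ⟨fun h => by simp at h, fun ⟨f, _⟩ => Empty.elim f⟩
  har m n := ⟨fun h => ⟨(), (Option.some.inj h).symm⟩, fun ⟨_, h⟩ => congrArg some h.symm⟩

theorem tm {n : ℕ} (t : LL.Term (Empty ⊕ Fin n)) : ∃ i, t = Term.var (Sum.inr i) := by
  rcases t with (a | i) | ⟨f, _⟩
  exacts [a.elim, ⟨i, rfl⟩, Empty.elim f]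

def atm (c : ℕ) (v : List ℕ) : Bool :=
  if c.unpair.1 = 1 then
    v.getD c.unpair.2.unpair.1.unpair.2 0 == v.getD c.unpair.2.unpair.2.unpair.2 0
  else S ((gs c.unpair.2.unpair.2).map fun t => v.getD t.unpair.2 0)

@[fun_prop] theorem ci_atm {α : Type} [Primcodable α] {c : α → ℕ} {v : α → List ℕ} (hc : CI ∅ c)
    (hv : CI ∅ v) : CI ∅ fun a => atm (c a) (v a) := by
  unfold atm gs; fun_prop

variable {u : Empty → ℕ}

theorem atm_iff {n : ℕ} {φ : LL.BoundedFormula Empty n} (v : Fin n → ℕ) (h : φ.IsAtomic) :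
    atm (code SG φ) (List.ofFn v) = true ↔ φ.Realize u v := by
  rcases h with ⟨s, t⟩ | ⟨r, ts⟩
  · obtain ⟨i, rfl⟩ := tm s
    obtain ⟨j, rfl⟩ := tm t
    simp [atm, code, tcode, Term.bdEqual, BoundedFormula.Realize]
  · choose i hi using fun k => tm (ts k)
    obtain rfl := funext hi
    simp only [atm, code, tcode, Relations.boundedFormula, Nat.unpair_pair, OfNat.ofNat_ne_one,
      if_false, gs, Denumerable.ofNat_encode, List.map_ofFn, BoundedFormula.Realize]
    exact iff_of_eq (congrArg (fun f => S (List.ofFn f) = true) (funext fun k => by simp))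

theorem pres : Pres SG ℕ id := ⟨Function.injective_id, computablePred_of (fun _ => true)
  (by fun_prop) (by simp), fun z => atm z.1 z.2, CI.computable (by fun_prop),
  fun _ _ v h => atm_iff v h⟩

theorem qe {r N : ℕ} (hN : Stab r N) {n : ℕ} (φ : LL.BoundedFormula Empty n) : code SG φ ≤ r →
    ∀ p : Set (ℕ × ℕ), p.Finite → Q r (fun w j => Nat.pair w j + 2 ≤ r) p →
    ∀ v : Fin n → ℕ × ℕ, (∀ i, v i ∈ p) →
      (φ.Realize u (Prod.fst ∘ v) ↔ φ.Realize u (Prod.snd ∘ v)) := by
  induction φ with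
  | falsum => exact fun _ _ _ _ _ _ => Iff.rfl
  | equal s t =>
    obtain ⟨i, rfl⟩ := tm s
    obtain ⟨j, rfl⟩ := tm t
    exact fun _ p _ h v a => h.1 _ (a i) _ (a j)
  | @rel n k R ts =>
    choose i hi using fun k => tm (ts k)
    obtain rfl := funext hi
    intro a p _ h v b
    have := (h.2 (List.ofFn fun j => v (i j)) (by simp [b]) (by
      simpa using! ((Nat.left_le_pair _ _).trans (Nat.right_le_pair _ _)).trans a)).1
    simp only [List.map_ofFn] at this
    exact iff_of_eq (congrArg (· = true) this)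
  | imp φ ψ i1 i2 =>
    intro a p b h v d
    exact imp_congr
      (i1 (((Nat.left_le_pair _ _).trans (Nat.right_le_pair _ _)).trans a) p b h v d)
      (i2 (((Nat.right_le_pair _ _).trans (Nat.right_le_pair _ _)).trans a) p b h v d)
  | all φ ih =>
    intro a p b h v d
    have k : ∀ x y, Q r (fun w j => Nat.pair w j + 2 ≤ r) (insert (x, y) p) →
        (φ.Realize u (Fin.snoc (Prod.fst ∘ v) x) ↔
          φ.Realize u (Fin.snoc (Prod.snd ∘ v) y)) := fun x y q => by
      have := ih ((Nat.right_le_pair _ _).trans a) _ (b.insert _) q (Fin.snoc v (x, y))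
        fun i => by
          refine Fin.lastCases ?_ (fun i => ?_) i <;> simp [d]
      rwa [Fin.comp_snoc, Fin.comp_snoc] at this
    simp only [BoundedFormula.realize_all]
    refine ⟨fun e y => ?_, fun e x => ?_⟩
    · obtain ⟨m, hm⟩ := bdd (b.preimage Prod.swap_injective.injOn)
      obtain ⟨x, -, q⟩ := h.symm.step hN (fun _ _ => id) hm y
      exact (k x y (swap_ins _ _ _ ▸ q.symm)).1 (e x)
    · obtain ⟨m, hm⟩ := bdd b
      obtain ⟨y, -, q⟩ := h.step hN (fun _ _ => id) hm x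
      exact (k x y q).2 (e y)

theorem qb {r N : ℕ} (hN : Stab r N) {n : ℕ} (φ : LL.BoundedFormula Empty (n + 1))
    (a : code SG φ ≤ r) (v : Fin n → ℕ)
    (h : ∀ y ≤ Bd (mx (List.ofFn v)) r N, φ.Realize u (Fin.snoc v y)) (x : ℕ) :
    φ.Realize u (Fin.snoc v x) := by
  have q : Q r (fun w j => Nat.pair w j + 2 ≤ r) (Set.range fun i => (v i, v i)) :=
    ⟨by rintro _ ⟨i, rfl⟩ _ ⟨j, rfl⟩; rfl, fun l b _ => by
      obtain ⟨l, rfl⟩ := lift_l b
      simp [Function.comp_def]⟩
  obtain ⟨y, y1, y2⟩ := q.step hN (fun _ _ => id) (m := mx (List.ofFn v))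
    (by rintro _ ⟨i, rfl⟩; exact le_mx (by simp)) x
  have := qe (u := u) hN φ a _ ((Set.finite_range _).insert _) y2 (Fin.snoc (fun i => (v i, v i)) (x, y))
    fun i => by refine Fin.lastCases ?_ (fun i => ?_) i <;> simp
  rw [Fin.comp_snoc, Fin.comp_snoc] at this
  exact this.2 (h y y1)

theorem wf0 : ∃ V : ℕ → Bool, CI ∅ V ∧ ∀ c, V c = true ↔ PF SG 0 c := by
  let pt : ℕ × ℕ → Bool := fun z => z.2.unpair.1 == 0 && decide (z.2.unpair.2 < z.1)
  have hp : CI ∅ pt := by simp only [pt]; fun_prop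
  have e1 : ∀ n c, PT SG n c ↔ pt (n, c) = true := fun n c => by simp [PT_iff, pt, SG]
  have e2 : ∀ n k c, PL SG n k c ↔ (gs c).length = k ∧ ∀ x ∈ gs c, pt (n, x) = true := by
    refine fun n k c => ⟨?_, fun ⟨a, b⟩ => ?_⟩
    · rintro ⟨ts, rfl⟩
      simp only [gs, Denumerable.ofNat_encode, List.length_ofFn, ← e1, true_and,
        List.forall_mem_ofFn_iff]
      exact fun i => ⟨_, rfl⟩
    · subst a
      choose ts h using fun i => (e1 _ _).2 (b _ (List.get_mem (gs c) i))
      exact ⟨ts, by simp only [h, List.ofFn_get]; exact Denumerable.encode_ofNat c⟩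
  obtain ⟨F, F1, F2⟩ := cengine (Q := ℕ × ℕ) (ch := fun q => if q.2.unpair.1 = 3 then
    [(q.1, q.2.unpair.2.unpair.1), (q.1, q.2.unpair.2.unpair.2)] else [(q.1 + 1, q.2.unpair.2)])
    (cb := fun z => z.1.2 == 0 || ((z.1.2.unpair.1 == 1 && (pt (z.1.1, z.1.2.unpair.2.unpair.1) &&
      pt (z.1.1, z.1.2.unpair.2.unpair.2))) || ((z.1.2.unpair.1 == 2 &&
      ((gs z.1.2.unpair.2.unpair.2).length == z.1.2.unpair.2.unpair.1 &&
        (gs z.1.2.unpair.2.unpair.2).all fun x => pt (z.1.1, x))) ||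
      ((z.1.2.unpair.1 == 3 && z.2.all id) || (z.1.2.unpair.1 == 4 && z.2.all id)))))
    (by fun_prop) (by unfold gs; fun_prop)
  suffices ∀ N c, c < N → ∀ n, (F (N, n, c) = true ↔ PF SG n c) from
    ⟨fun c => F (c + 1, 0, c), by fun_prop, fun c => this _ c c.lt_succ_self 0⟩
  intro N
  induction N with
  | zero => simp
  | succ N ih =>
  intro c hc n
  have l1 := Nat.unpair_left_le c.unpair.2
  have l2 := Nat.unpair_right_le c.unpair.2
  have l5 := @lt1 c
  rw [F2, PF_iff]
  simp only [Bool.or_eq_true, Bool.and_eq_true, beq_iff_eq, List.all_eq_true, e1, e2]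
  refine or_congr_right (or_congr_right (or_congr (by simp only [SG, Option.some.injEq, exists_eq_left']) (or_congr
    (and_congr_right fun a => ?_) (and_congr_right fun a => ?_))))
  · simp [a, ih _ (show c.unpair.2.unpair.1 < N by omega),
      ih _ (show c.unpair.2.unpair.2 < N by omega)]
  · simp [a, ih _ (show c.unpair.2 < N by omega)]

theorem tru0 : ∃ V : ℕ × ℕ → Bool, CI ∅ V ∧ ∀ N (φ : LL.Sentence), Stab (code SG φ) N →
    (V (N, code SG φ) = true ↔ ℕ ⊨ φ) := by
  obtain ⟨F, F1, F2⟩ := cengine (Q := (ℕ × ℕ) × ℕ × List ℕ) (ch := fun q =>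
    if q.2.1.unpair.1 = 3 then [(q.1, q.2.1.unpair.2.unpair.1, q.2.2),
      (q.1, q.2.1.unpair.2.unpair.2, q.2.2)] else (List.range (Bd (mx q.2.2) q.1.1 q.1.2 + 1)).map
        fun y => (q.1, q.2.1.unpair.2, q.2.2 ++ [y]))
    (cb := fun z => if z.1.2.1.unpair.1 = 0 then false else if z.1.2.1.unpair.1 = 3 then
      !z.2.getD 0 false || z.2.getD 1 false else if z.1.2.1.unpair.1 = 4 then z.2.all id
      else atm z.1.2.1 z.1.2.2) (by fun_prop) (by fun_prop)
  suffices ∀ u r N, Stab r N → ∀ n (φ : LL.BoundedFormula Empty n) M (v : Fin n → ℕ),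
      code SG φ < M → code SG φ ≤ r →
      (F (M, (r, N), code SG φ, List.ofFn v) = true ↔ φ.Realize u v) from
    ⟨fun z => F (z.2 + 1, (z.2, z.1), z.2, []), by fun_prop, fun N φ h =>
      this _ _ N h 0 φ _ _ (Nat.lt_succ_self _) le_rfl⟩
  intro u r N hN n φ
  induction φ with
  | falsum => rintro (_ | M) v h -; · omega
              simp [F2, code, BoundedFormula.Realize]
  | equal s t =>
    rintro (_ | M) v h -; · omega
    rw [F2, ← atm_iff v (φ := .equal s t) (.equal s t)]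
    simp [code]
  | rel R ts =>
    rintro (_ | M) v h -; · omega
    rw [F2, ← atm_iff v (φ := .rel R ts) (.rel R ts)]
    simp [code]
  | imp φ ψ i1 i2 =>
    rintro (_ | M) v h h'; · omega
    have l1 := lt_pair (a := 3) (Nat.pair (code SG φ) (code SG ψ)) (by simp)
    have l2 := Nat.left_le_pair (code SG φ) (code SG ψ)
    have l3 := Nat.right_le_pair (code SG φ) (code SG ψ)
    simp only [code] at h h'
    rw [F2]
    simp [code, ← Bool.not_eq_true, i1 M v (by omega) (by omega), i2 M v (by omega) (by omega),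
      imp_iff_not_or]
  | all φ i1 =>
    rintro (_ | M) v h h'; · omega
    have l1 := lt_pair (a := 4) (code SG φ) (by simp)
    simp only [code] at h h'
    have e : ∀ a, List.ofFn v ++ [a] = List.ofFn (Fin.snoc v a : Fin _ → ℕ) := fun a => by
      rw [List.ofFn_succ_last]; simp
    rw [F2]
    simp only [code, Nat.unpair_pair, OfNat.ofNat_ne_zero, Nat.reduceEqDiff, if_true,
      if_false, BoundedFormula.realize_all, List.map_map, List.all_map, List.all_eq_true,
      List.mem_range, Function.comp, id, e, Nat.lt_succ_iff, i1 M _ (by omega) (by omega)]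
    exact ⟨qb hN φ (by omega) v, fun a y _ => a y⟩

abbrev Z1 : Set (ℕ →. ℕ) := orc (bit (zn 1))

theorem zn1 (p : ℕ) : zn 1 p = true ↔ ∃ s t, (ev p.unpair.1
    (encode (p.unpair.2, (List.range s).map fun _ => false)) t).isSome = true := by
  simp only [zn, jump, decide_eq_true_eq, Option.isSome_iff_exists, Part.dom_iff_mem, ev_iff]
  exact exists_congr fun s => exists_comm

theorem sg1 {α β : Type} [Primcodable α] [Primcodable β] {F : α × β → Bool} (hF : CI ∅ F) :
    ∃ b : α → Bool, CI Z1 b ∧ ∀ a, b a = true ↔ ∃ t, F (a, t) = true := by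
  obtain ⟨c, hc⟩ := re_index (re_of_exists (p := fun z : α × List Bool => ∃ t, F (z.1, t) = true)
    _ (by fun_prop) fun _ => Iff.rfl)
  have hz : CI Z1 (zn 1) := ci_bit.1 (CI.self _)
  refine ⟨fun a => zn 1 (Nat.pair c (encode a)), by fun_prop, fun a => ?_⟩
  rw [zn1, Nat.unpair_pair]
  exact ⟨fun ⟨s, h⟩ => (hc (a, _)).2 h, fun h => ⟨0, (hc (a, _)).1 h⟩⟩

theorem th_le : TuringReducible (ora (gn SG TT)) (ora (zn 1)) := by
  obtain ⟨V, V1, V2⟩ := wf0
  obtain ⟨W, W1, W2⟩ := tru0
  obtain ⟨b, b1, b2⟩ := sg1 (F := fun z : (ℕ × ℕ) × ℕ × ℕ × Bool × ℕ => decide (z.2.1 ≤ z.1.1) &&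
    (decide (z.2.2.1 ≤ z.1.1) && (lab z.2.2.2.1 (st z.2.1 z.2.2.2.2) z.2.2.1 &&
      !lab z.2.2.2.1 (st z.2.1 z.1.2) z.2.2.1))) (by fun_prop)
  have b3 : ∀ r N, (!b (r, N)) = true ↔ Stab r N := fun r N => by
    rw [Bool.not_eq_true', ← Bool.not_eq_true, b2]
    simp [Stab, Lab]
  obtain ⟨f, f1, f2⟩ := CI.exists_choice (O := Z1) (p := fun r N => !b (r, N)) (by fun_prop)
    fun r => (stab r).imp fun N => (b3 r N).2
  have V3 := V1.of_empty (O := Z1)
  have W3 := W1.of_empty (O := Z1)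
  refine tr_iff.2 (ci_bit.2 ((show CI Z1 fun c => V c && W (f c, c) by fun_prop).of_eq
    fun c => Bool.eq_iff_iff.2 ?_))
  simp only [gn, decide_eq_true_eq, Bool.and_eq_true, V2]
  constructor
  · rintro ⟨⟨φ, rfl⟩, h⟩
    exact ⟨φ, (W2 _ φ ((b3 _ _).1 (f2 _))).1 h, rfl⟩
  · rintro ⟨φ, h, rfl⟩
    exact ⟨⟨φ, rfl⟩, (W2 _ φ ((b3 _ _).1 (f2 _))).2 h⟩

theorem ty_nle : ¬TuringReducible (ora (tgraph TT)) (ora (zn 1)) := by
  classical
  intro H
  have H1 := ci_bit.1 (tr_iff.1 H)
  obtain ⟨f, f1, f2⟩ := CI.exists_choice (O := Z1) (p := fun n m => tgraph TT (Nat.pair n m))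
    (by fun_prop) fun n => ⟨_, by simp only [tgraph, Nat.unpair_pair]; exact decide_eq_true rfl⟩
  simp only [tgraph, Nat.unpair_pair, decide_eq_true_eq] at f2
  obtain ⟨e, he⟩ := exists_app_tot f1
  let K : ℕ × ℕ → ℕ := fun z => ((List.range z.1).any fun s => (ev z.2.unpair.1
    (encode (z.2.unpair.2, (List.range s).map fun _ => false)) z.1).isSome).toNat
  have K1 : CI ∅ K := by simp only [K]; fun_prop
  have K2 : ∀ k, ∀ᶠ s in atTop, (List.range k).map (fun n => K (s, n)) = pre (bit (zn 1)) k :=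
    fun k => ((eventually_all_finite (Set.finite_lt_nat k)).2 fun n _ => by
      show ∀ᶠ s in atTop, K (s, n) = bit (zn 1) n
      cases h : zn 1 n
      · refine .of_forall fun s => ?_
        simp only [bit, h, K]
        refine congrArg Bool.toNat (Bool.eq_false_iff.2 fun a => ?_)
        obtain ⟨t, -, a⟩ := List.any_eq_true.1 a
        rw [(zn1 n).2 ⟨t, s, a⟩] at h
        cases h
      · obtain ⟨s, t, a⟩ := (zn1 n).1 h
        obtain ⟨v, a⟩ := Option.isSome_iff_exists.1 a
        filter_upwards [eventually_gt_atTop s, eventually_ge_atTop t] with u b d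
        simp only [bit, h, K]
        rw [List.any_eq_true.2 ⟨s, List.mem_range.2 b, by rw [ev_mono d a]; rfl⟩]).mono
      fun s a => pre_congr a
  refine notSig2 (R := fun z : ℕ × (List ℕ × List (List ℕ) × ℕ × ℕ) × ℕ =>
    (z.2.1.1.all fun w => st w (z.2.1.2.2.2 + z.2.2) == st w z.2.1.2.2.2) &&
    (!decide (z.1 ∈ z.2.1.1) && (decide (z.2.1.2.1.map (iv z.2.1.1 (z.1 + 1))).Nodup &&
      U e ((List.range z.2.1.2.2.1).map fun n => K (z.2.1.2.2.2 + z.2.2, n)) z.1 ==
        some z.2.1.2.1.length))) (by unfold iv; fun_prop) fun w => ?_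
  simp only [Bool.and_eq_true, List.all_eq_true, beq_iff_eq, Bool.not_eq_true',
    decide_eq_false_iff_not, decide_eq_true_eq, Prod.exists]
  obtain ⟨_, sj⟩ := rn0.2 (Fin (w + 1))
  cases nonempty_fintype (TT.CompleteType (Fin (w + 1)))
  have nc := f2 w
  rw [Nat.card_eq_fintype_card] at nc
  constructor
  · intro h
    let G := (List.range (w + 1)).filter fun u => ¬I u
    have : ∀ᶠ s in atTop, ∀ u ∈ {u | u ∈ G}, ∀ t, st u (s + t) = st u s :=
      (eventually_all_finite G.finite_toSet).2 fun u a => by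
        obtain ⟨s, hs⟩ := notI (w := u) (by simpa using (List.mem_filter.1 a).2)
        filter_upwards [eventually_ge_atTop s] with s' b t
        rw [hs _ (by omega), hs _ b]
    obtain ⟨k, hk⟩ := mem_app.1 (he w)
    obtain ⟨s1, hs⟩ := eventually_atTop.1 (this.and (K2 k))
    choose ρ hρ using fun q : TT.CompleteType (Fin (w + 1)) => (show ∃ u, ty (w + 1) u = q from
      (sj q).elim fun x a => ⟨List.ofFn x, by
        rw [← a]; exact congrArg _ (funext fun i => by simp [-List.ofFn_succ, Nat.lt_succ_iff.1 i.2])⟩)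
    refine ⟨G, Finset.univ.toList.map ρ, k, s1, fun s => ⟨fun u a => (hs s1 le_rfl).1 u a s,
      by simp [G, h], ?_, by rw [(hs _ (by omega)).2, hk, ← nc]; simp⟩⟩
    rw [List.map_map]
    refine (Finset.nodup_toList _).map fun q q' a => ?_
    rw [← hρ q, ← hρ q']
    exact ty_of_iv (fun u b d => by simp [G, d]; omega) a
  · rintro ⟨G, L, k, s, h⟩
    by_contra n
    have hG : ∀ u ∈ G, ¬I u := fun u a b => by
      obtain ⟨t, b⟩ := b (st u s + 1)
      have := (h t).1 u a
      have := st_mono u (Nat.le_add_left t s)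
      omega
    obtain ⟨-, h1, h2, -⟩ := h 0
    obtain ⟨t, ht⟩ := eventually_atTop.1 (K2 k)
    have h3 := (h t).2.2.2
    rw [ht _ (by omega)] at h3
    have h4 := Part.mem_unique (mem_app.2 ⟨k, h3⟩) (he w)
    have h5 : (L.map (ty (w + 1))).Nodup := (h2.of_map _).map_on fun a b d c i =>
      List.inj_on_of_nodup_map h2 b c (iv_of_ty hG i)
    have h6 : ∀ q, ∃ a ∈ L, ty (w + 1) a = q := fun q => by
      have := Finset.eq_univ_of_card (L.map (ty (w + 1))).toFinset (by
        rw [List.toFinset_card_of_nodup h5, nc, ← h4]; simp)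
      simpa using this.ge (Finset.mem_univ q)
    obtain ⟨u, v, u1, u2⟩ := iv_sep h1
    obtain ⟨a, a1, a2⟩ := h6 (ty _ u)
    obtain ⟨b, b1, b2⟩ := h6 (ty _ v)
    obtain rfl := List.inj_on_of_nodup_map h2 a1 b1
      (((iv_of_ty hG a2).trans u1).trans (iv_of_ty hG b2).symm)
    exact u2 (iv_of_ty (by simpa [n] using hG) (a2.symm.trans b2))

theorem copy {M : Type} [LL.Structure M] {ν : M → ℕ} (h : Pres SG M ν) (i : M ≃[LL] ℕ) :
    ∃ (e : ℕ ≃ M) (s : ℕ → ℕ), CI ∅ (ν ∘ e) ∧ CI ∅ s ∧ (∀ a, e (s (ν a)) = a) ∧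
      CI ∅ fun l : List ℕ => S (l.map (e.trans i.toEquiv)) := by
  classical
  obtain ⟨h1, h2, p, p1, p2⟩ := h
  obtain ⟨d, d1, d2⟩ := computablePred_iff.1 h2
  have : Infinite M := .of_surjective _ i.surjective
  let a0 := i.symm 0
  let ν' : ℕ → M := fun m => if h : m ∈ Set.range ν then h.choose else a0
  have e1 : ∀ m, ν (ν' m) = cond (d m) m (ν a0) := fun m => by
    by_cases k : m ∈ Set.range ν
    · simp only [ν', dif_pos k, (d2 m).1 k]; exact k.choose_spec
    · simp only [ν', dif_neg k, Bool.eq_false_iff.2 (mt (d2 m).2 k)]; rfl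
  have e2 : ∀ a, ν' (ν a) = a := fun a => h1 (by rw [e1, (d2 _).1 ⟨a, rfl⟩]; rfl)
  obtain ⟨e, r, s, r1, s1, r2, s2⟩ := exists_equiv_of_numbering ν' (fun a => ⟨_, e2 a⟩)
    (fun a b => cond (d a) a (ν a0) == cond (d b) b (ν a0)) (by fun_prop) fun a b => by
      rw [beq_iff_eq, ← e1, ← e1, h1.eq_iff]
  have c1 : CI ∅ (ν ∘ e) := (show CI ∅ fun n => cond (d (r n)) (r n) (ν a0) by fun_prop).of_eq
    fun n => by rw [← e1, r2]; rfl
  have p3 := CI.of_comp (O := ∅) p1
  refine ⟨e, s, c1, s1, fun a => by rw [s2, e2], (show CI ∅ fun l : List ℕ => p (Nat.pair 2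
    (Nat.pair l.length (encode ((List.range l.length).map fun j => Nat.pair 0 j))),
      l.map fun x => (ν ∘ e) x) by generalize ν ∘ e = q at c1; fun_prop).of_eq fun l => Bool.eq_iff_iff.2 ?_⟩
  have := p2 l.length (.rel () fun j => Term.var (.inr j)) (e ∘ l.get) (.rel _ _)
  simp only [code, tcode, SG] at this
  rw [← List.map_coe_finRange_eq_range, List.map_map, ← List.ofFn_eq_map,
    show l.map (fun x => (ν ∘ e) x) = List.ofFn (ν ∘ e ∘ l.get) from (by
      rw [← Function.comp_assoc, ← List.map_ofFn, List.ofFn_get])]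
  refine this.trans ((i.map_rel (show LL.Relations l.length from ()) _).symm.trans ?_)
  change S (List.ofFn (((e.trans i.toEquiv : ℕ ≃ ℕ) : ℕ → ℕ) ∘ l.get)) = true ↔ _
  rw [← List.map_ofFn, List.ofFn_get]

theorem autost : Autostable SG ℕ := by
  rintro M N _ _ ν μ a b ⟨i⟩ ⟨j⟩
  obtain ⟨e, s, -, e2, e3, e4⟩ := copy a i
  obtain ⟨e', -, f1, -, -, f4⟩ := copy b j
  obtain ⟨f, g1, g2⟩ := auto e4 f4 (fun _ => rfl) fun _ => rfl
  refine ⟨⟨e.symm.trans (f.trans e'), fun f => isEmptyElim f, fun {n} r v => ?_⟩,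
    fun m => Part.some ((μ ∘ e') (f (s m))), CI.computable (f1.comp (g1.comp e2)), fun x => ?_⟩
  · refine (j.map_rel r _).symm.trans (Iff.trans ?_ (i.map_rel r v))
    have := g2 (List.ofFn (e.symm ∘ v))
    simp only [List.map_ofFn] at this
    refine iff_of_eq (congrArg (· = true) (this.symm.trans (congrArg (fun u => S (List.ofFn u))
      (funext fun x => ?_))))
    simp
    rfl
  · have : s (ν x) = e.symm x := e.eq_symm_apply.2 (e3 x)
    simp only [this]
    exact Part.mem_some _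

end Pool.Agent.H62.Au
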