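import Mathlib

set_option autoImplicit false

namespace Pool.Agent.H62.BKR
open Finset MeasureTheory Filter Topology

section comb
variable {ι : Type*} [Fintype ι] [DecidableEq ι]

lemma rank_ge (q : ℕ) [Fact q.Prime] (T : Finset (ι → Bool)) (v : (ι → Bool) → ι → Bool → ℤ)
    (h0 : ∀ p i, ((v p i (p i) : ℤ) : ZMod q) ≠ 0)
    (h1 : ∀ p i, p i = false → ((v p i true : ℤ) : ZMod q) = 0) :
    T.card ≤ (Matrix.of fun (p : T) (r : ι → Bool) => ∏ i, ((v p i (r i) : ℤ) : ℚ)).rank := by
  let N : Matrix T T ℤ := Matrix.of fun p r => ∏ i, v p i (r.1 i)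
  have d1 : (N.map (Int.castRingHom (ZMod q))).det ≠ 0 := by
    intro hd
    obtain ⟨c, hc, hcN⟩ := Matrix.exists_vecMul_eq_zero_iff.2 hd
    obtain ⟨p0, hp0⟩ := Function.ne_iff.1 hc
    obtain ⟨p, hp, hmax⟩ := (univ.filter fun p : T => c p ≠ 0).exists_max_image
      (fun p => (univ.filter fun i => p.1 i = true).card) ⟨p0, by simpa using hp0⟩
    have e := congrFun hcN p
    simp only [Matrix.vecMul, dotProduct, Matrix.map_apply, N, Matrix.of_apply, map_prod,
      Pi.zero_apply, eq_intCast] at e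
    rw [Finset.sum_eq_single p] at e
    · exact mul_ne_zero (mem_filter.1 hp).2 (prod_ne_zero_iff.2 fun i _ => h0 p i) e
    · intro p' _ hne
      by_contra hcon
      obtain ⟨a, b⟩ := mul_ne_zero_iff.1 hcon
      rw [prod_ne_zero_iff] at b
      have hsub : (univ.filter fun i => p.1 i = true) ⊆ univ.filter fun i => p'.1 i = true := by
        intro i hi
        have hi' := (mem_filter.1 hi).2
        refine mem_filter.2 ⟨mem_univ _, ?_⟩
        by_contra hf
        have := b i (mem_univ _)
        rw [hi'] at this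
        exact this (h1 p' i (by simpa using hf))
      have heq := eq_of_subset_of_card_le hsub (hmax p' (by simpa using a))
      apply hne
      ext i
      have := Finset.ext_iff.1 heq i
      simp only [mem_filter, mem_univ, true_and] at this
      cases h : p.1 i <;> cases h' : p'.1 i <;> simp_all
    · simp
  have d2 : N.det ≠ 0 := by
    intro h
    apply d1
    rw [← RingHom.mapMatrix_apply, ← RingHom.map_det, h, map_zero]
  have d3 : (N.map (Int.castRingHom ℚ)).det ≠ 0 := by
    rw [← RingHom.mapMatrix_apply, ← RingHom.map_det]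
    simpa using d2
  have r1 : (N.map (Int.castRingHom ℚ)).rank = T.card := by
    rw [Matrix.rank_of_isUnit _ ((Matrix.isUnit_iff_isUnit_det _).2 (Ne.isUnit d3))]
    simp
  rw [← r1]
  have : N.map (Int.castRingHom ℚ) = (Matrix.of fun (p : T) (r : ι → Bool) =>
      ∏ i, ((v p i (r i) : ℤ) : ℚ)).submatrix id Subtype.val := by
    ext p r
    simp [N]
  rw [this]
  exact Matrix.rank_submatrix_le _ _ _

def ev (x j r : Bool) : ℤ :=
  match x, j, r with
  | false, true, false => 1
  | false, true, true => 0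
  | true, true, false => 0
  | true, true, true => 1
  | false, false, false => 3
  | false, false, true => 2
  | true, false, false => 1
  | true, false, true => 1

def fv (z a r : Bool) : ℤ :=
  match z, a, r with
  | false, true, false => 1
  | false, true, true => 0
  | true, true, false => 0
  | true, true, true => 1
  | false, false, false => 2
  | false, false, true => -3
  | true, false, false => 1
  | true, false, true => -1

instance fact3 : Fact (Nat.Prime 3) := ⟨by norm_num⟩

open Classical in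
theorem reimer (A B : Set (ι → Bool)) (T : Finset (ι → Bool))
    (hT : ∀ x ∈ T, ∃ J : ι → Bool, (∀ z, (∀ i, J i = true → z i = x i) → z ∈ A) ∧
      (∀ z, (∀ i, J i = false → z i = x i) → z ∈ B)) :
    T.card ≤ (univ.filter fun z => z ∈ A ∧ (fun i => !z i) ∈ B).card := by
  choose! J hA hB using hT
  set W := univ.filter fun z : ι → Bool => ¬(z ∈ A ∧ (fun i => !z i) ∈ B) with hW
  have r1 := rank_ge 2 T (fun x i r => ev (x i) (J x i) r)
    (fun p i => by cases p i <;> cases J p i <;> decide)
    (fun p i h => by rw [h]; cases J p i <;> decide)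
  have r2 := rank_ge 3 W (fun z i r => fv (z i) (decide (z ∉ A)) r)
    (fun p i => by cases p i <;> cases decide (p ∉ A) <;> decide)
    (fun p i h => by rw [h]; cases decide (p ∉ A) <;> decide)
  have h0 : (Matrix.of fun (p : T) (r : ι → Bool) => ∏ i, ((ev (p.1 i) (J p i) (r i) : ℤ) : ℚ)) *
      (Matrix.of fun (p : W) (r : ι → Bool) =>
        ∏ i, ((fv (p.1 i) (decide (p.1 ∉ A)) (r i) : ℤ) : ℚ)).transpose = 0 := by
    ext x z
    simp only [Matrix.mul_apply, Matrix.of_apply, Matrix.transpose_apply, Matrix.zero_apply,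
      ← prod_mul_distrib]
    have := prod_univ_sum (fun _ : ι => (univ : Finset Bool)) fun i r =>
      ((ev (x.1 i) (J x i) r : ℤ) : ℚ) * ((fv (z.1 i) (decide (z.1 ∉ A)) r : ℤ) : ℚ)
    rw [Fintype.piFinset_univ] at this
    rw [← this]
    by_cases hz : z.1 ∈ A
    · have hz' : (fun i => !z.1 i) ∉ B := fun h => (mem_filter.1 z.2).2 ⟨hz, h⟩
      obtain ⟨i, hi⟩ := not_forall.1 (mt (hB x x.2 _) hz')
      obtain ⟨h1, h2⟩ := Classical.not_imp.1 hi
      refine prod_eq_zero (mem_univ i) ?_
      rw [h1, decide_eq_false (not_not.2 hz)]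
      revert h2
      cases x.1 i <;> cases z.1 i <;> simp [ev, fv] <;> norm_num
    · obtain ⟨i, hi⟩ := not_forall.1 (mt (hA x x.2 _) hz)
      obtain ⟨h1, h2⟩ := Classical.not_imp.1 hi
      refine prod_eq_zero (mem_univ i) ?_
      rw [h1, decide_eq_true hz]
      revert h2
      cases x.1 i <;> cases z.1 i <;> simp [ev, fv]
  have r3 := Matrix.rank_add_rank_le_card_of_mul_eq_zero h0
  rw [Matrix.rank_transpose] at r3
  have r4 := card_filter_add_card_filter_not (s := (univ : Finset (ι → Bool)))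
    (fun z : ι → Bool => z ∈ A ∧ (fun i => !z i) ∈ B)
  rw [card_univ, ← hW] at r4
  omega

end comb

section fin
variable {ι : Type*} [Fintype ι] [DecidableEq ι] {X : Type*} [MeasurableSpace X]
  (μ : Measure X) [IsProbabilityMeasure μ]

theorem bkr_fin (A B C : Set (ι → X)) (hA : MeasurableSet A) (hB : MeasurableSet B)
    (hC : MeasurableSet C)
    (h : ∀ x ∈ C, ∃ J : ι → Bool, (∀ z, (∀ i, J i = true → z i = x i) → z ∈ A) ∧
      (∀ z, (∀ i, J i = false → z i = x i) → z ∈ B)) :
    Measure.pi (fun _ : ι => μ) C ≤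
      Measure.pi (fun _ : ι => μ) A * Measure.pi (fun _ : ι => μ) B := by
  classical
  set π := Measure.pi (fun _ : ι => μ) with hπ
  let ν : Measure (ι → X × X) := Measure.pi fun _ => μ.prod μ
  let g : (ι → X × X) → (ι → Bool) → ι → X := fun x σ i => if σ i then (x i).2 else (x i).1
  let Φ : (ι → Bool) → (ι → X × X) → (ι → X) × (ι → X) :=
    fun σ x => (g x σ, g x fun i => !σ i)
  have hΦ : ∀ σ, MeasurePreserving (Φ σ) ν (π.prod π) := by
    intro σ
    have a := measurePreserving_pi (fun _ : ι => μ.prod μ) (fun _ : ι => μ.prod μ)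
      (f := fun i => if σ i then Prod.swap else id) (fun i => by
        split_ifs
        · exact Measure.measurePreserving_swap
        · exact MeasurePreserving.id _)
    have b := (measurePreserving_arrowProdEquivProdArrow X X ι (fun _ => μ) fun _ => μ).comp a
    convert b using 1
    funext x
    ext i
    · simp only [Φ, g, Function.comp, MeasurableEquiv.arrowProdEquivProdArrow,
        Equiv.arrowProdEquivProdArrow, MeasurableEquiv.coe_mk, Equiv.coe_fn_mk]
      cases σ i <;> simp
    · simp only [Φ, g, Function.comp, MeasurableEquiv.arrowProdEquivProdArrow,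
        Equiv.arrowProdEquivProdArrow, MeasurableEquiv.coe_mk, Equiv.coe_fn_mk]
      by_cases hσ : σ i = true <;> simp [hσ]
  have m1 : ∀ σ, MeasurableSet (Φ σ ⁻¹' (C ×ˢ Set.univ)) := fun σ =>
    (hΦ σ).measurable (hC.prod MeasurableSet.univ)
  have m2 : ∀ σ, MeasurableSet (Φ σ ⁻¹' (A ×ˢ B)) := fun σ => (hΦ σ).measurable (hA.prod hB)
  have e1 : ∀ σ, ν (Φ σ ⁻¹' (C ×ˢ Set.univ)) = π C := fun σ => by
    rw [(hΦ σ).measure_preimage (hC.prod MeasurableSet.univ).nullMeasurableSet, Measure.prod_prod,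
      measure_univ, mul_one]
  have e2 : ∀ σ, ν (Φ σ ⁻¹' (A ×ˢ B)) = π A * π B := fun σ => by
    rw [(hΦ σ).measure_preimage (hA.prod hB).nullMeasurableSet, Measure.prod_prod]
  have key : ∑ σ : ι → Bool, ν (Φ σ ⁻¹' (C ×ˢ Set.univ)) ≤
      ∑ σ : ι → Bool, ν (Φ σ ⁻¹' (A ×ˢ B)) := by
    simp only [← lintegral_indicator_one (m1 _), ← lintegral_indicator_one (m2 _)]
    rw [← lintegral_finsetSum _ fun σ _ => measurable_one.indicator (m1 σ),
      ← lintegral_finsetSum _ fun σ _ => measurable_one.indicator (m2 σ)]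
    refine lintegral_mono fun x => ?_
    simp only [Set.indicator_apply, Pi.one_apply, sum_boole]
    have := reimer {σ | g x σ ∈ A} {σ | g x σ ∈ B} (univ.filter fun σ => g x σ ∈ C) (by
      intro σ hσ
      obtain ⟨J, h1, h2⟩ := h _ (mem_filter.1 hσ).2
      exact ⟨J, fun z hz => h1 _ fun i hi => by simp only [g, hz i hi],
        fun z hz => h2 _ fun i hi => by simp only [g, hz i hi]⟩)
    refine Nat.cast_le.2 ?_
    convert this using 2
    · ext σ; simp [Φ]
    · ext σ; simp [Φ]
  simp only [e1, e2, sum_const, nsmul_eq_mul] at key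
  exact (ENNReal.mul_le_mul_iff_right (by simp) (by simp)).1 key

end fin

lemma isOpen_forall {X Z : Type*} [TopologicalSpace X] [TopologicalSpace Z] [CompactSpace Z]
    (R : X → Z → Prop) (hR : IsClosed {p : X × Z | R p.1 p.2}) (O : Set Z) (hO : IsOpen O) :
    IsOpen {x | ∀ z, R x z → z ∈ O} := by
  rw [← isClosed_compl_iff]
  have := isClosedMap_fst_of_compactSpace _ (hR.inter (hO.isClosed_compl.preimage continuous_snd))
  convert this using 1
  ext x
  simp

abbrev I := unitInterval

lemma agree_closed {ι : Type*} (P : ι → Prop) :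
    IsClosed {p : (ι → I) × (ι → I) | ∀ i, P i → p.2 i = p.1 i} := by
  simp only [Set.ofPred_forall]
  exact isClosed_iInter fun i => isClosed_iInter fun _ => isClosed_eq (by fun_prop) (by fun_prop)

lemma finite_witness (U : Set (ℕ → I)) (hU : IsOpen U) (J : Set ℕ) (ω : ℕ → I)
    (h : ∀ η : ℕ → I, (∀ i ∈ J, η i = ω i) → η ∈ U) :
    ∃ N, ∀ η : ℕ → I, (∀ i ∈ J, i < N → η i = ω i) → η ∈ U := by
  by_contra hc
  push Not at hc
  let F : ℕ → Set (ℕ → I) := fun n => {η | ∀ i ∈ J, i < n → η i = ω i} ∩ Uᶜ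
  have hcl : ∀ n, IsClosed (F n) := fun n => by
    refine IsClosed.inter ?_ hU.isClosed_compl
    simp only [Set.ofPred_forall]
    exact isClosed_iInter fun i => isClosed_iInter fun _ => isClosed_iInter fun _ =>
      isClosed_eq (by fun_prop) continuous_const
  obtain ⟨η, hη⟩ := IsCompact.nonempty_iInter_of_sequence_nonempty_isCompact_isClosed F
    (fun n η hη => ⟨fun i hi hn => hη.1 i hi (by omega), hη.2⟩)
    (fun n => by
      obtain ⟨η, h1, h2⟩ := hc n
      exact ⟨η, h1, h2⟩)
    (hcl 0).isCompact hcl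
  rw [Set.mem_iInter] at hη
  exact (hη 0).2 (h η fun i hi => (hη (i + 1)).1 i hi (by omega))

def Box (A B : Set (ℕ → I)) : Set (ℕ → I) :=
  {ω | ∃ J K : Set ℕ, Disjoint J K ∧ (∀ η : ℕ → I, (∀ i ∈ J, η i = ω i) → η ∈ A) ∧
    (∀ η : ℕ → I, (∀ i ∈ K, η i = ω i) → η ∈ B)}

noncomputable abbrev m : Measure (ℕ → I) := Measure.infinitePi fun _ : ℕ => (volume : Measure I)

lemma box_open (U V : Set (ℕ → I)) (hU : IsOpen U) (hV : IsOpen V) :
    m (Box U V) ≤ m U * m V := by
  classical
  let R : (s : Finset ℕ) → Set (ℕ → I) → Set (s → I) :=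
    fun s O => {y | ∀ η : ℕ → I, s.restrict η = y → η ∈ O}
  have hR : ∀ s O, IsOpen O → IsOpen (R s O) := fun s O hO =>
    isOpen_forall (fun (y : s → I) (η : ℕ → I) => s.restrict η = y)
      (isClosed_eq (by fun_prop) continuous_fst) O hO
  let C : (s : Finset ℕ) → Set (s → I) := fun s => ⋃ J : s → Bool,
    {x | ∀ z, (∀ i, J i = true → z i = x i) → z ∈ R s U} ∩
      {x | ∀ z, (∀ i, J i = false → z i = x i) → z ∈ R s V}
  have hC : ∀ s, IsOpen (C s) := fun s => isOpen_iUnion fun J =>
    (isOpen_forall _ (agree_closed _) _ (hR s U hU)).inter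
      (isOpen_forall _ (agree_closed _) _ (hR s V hV))
  have hm : ∀ (s : Finset ℕ) (O : Set (s → I)), IsOpen O →
      m (s.restrict ⁻¹' O) = Measure.pi (fun _ : s => (volume : Measure I)) O := by
    intro s O hO
    rw [← Measure.map_apply (Finset.measurable_restrict s) hO.measurableSet,
      Measure.infinitePi_map_restrict]
  have hb : ∀ s : Finset ℕ, m (s.restrict ⁻¹' C s) ≤ m U * m V := by
    intro s
    rw [hm s _ (hC s)]
    refine (bkr_fin volume (R s U) (R s V) (C s) (hR s U hU).measurableSet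
      (hR s V hV).measurableSet (hC s).measurableSet fun x hx => ?_).trans ?_
    · obtain ⟨J, hJ⟩ := Set.mem_iUnion.1 hx
      exact ⟨J, hJ.1, hJ.2⟩
    · rw [← hm s _ (hR s U hU), ← hm s _ (hR s V hV)]
      exact mul_le_mul' (measure_mono fun η hη => hη η rfl) (measure_mono fun η hη => hη η rfl)
  let E : ℕ → Set (ℕ → I) := fun N => ⋂ n ≥ N, (range n).restrict ⁻¹' C (range n)
  have hE : Monotone E := fun a b hab => Set.biInter_subset_biInter_left fun n hn => hab.trans hn
  have hsub : Box U V ⊆ ⋃ N, E N := by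
    rintro ω ⟨J, K, hJK, h1, h2⟩
    obtain ⟨N1, h1⟩ := finite_witness U hU J ω h1
    obtain ⟨N2, h2⟩ := finite_witness V hV K ω h2
    refine Set.mem_iUnion.2 ⟨max N1 N2, Set.mem_iInter₂.2 fun n hn => ?_⟩
    have n1 : N1 ≤ n := (le_max_left _ _).trans hn
    have n2 : N2 ≤ n := (le_max_right _ _).trans hn
    refine Set.mem_iUnion.2 ⟨fun i => decide (i.1 ∈ J), fun z hz η hη => h1 η fun i hi hN => ?_,
      fun z hz η hη => h2 η fun i hi hN => ?_⟩
    · subst hη
      exact hz ⟨i, mem_range.2 (by omega)⟩ (decide_eq_true hi)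
    · subst hη
      exact hz ⟨i, mem_range.2 (by omega)⟩
        (decide_eq_false fun hJ => Set.disjoint_left.1 hJK hJ hi)
  refine (measure_mono hsub).trans ?_
  rw [hE.measure_iUnion]
  exact iSup_le fun N => (measure_mono (Set.biInter_subset_of_mem (le_refl N))).trans (hb _)

theorem main (A B : Set (ℕ → I)) : ∃ C : Set (ℕ → I), MeasurableSet C ∧ Box A B ⊆ C ∧
    m C ≤ m A * m B := by
  refine ⟨toMeasurable m (Box A B), measurableSet_toMeasurable _ _, subset_toMeasurable _ _, ?_⟩
  rw [measure_toMeasurable]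
  have t : Tendsto (fun n : ℕ => (m A + (n : ENNReal)⁻¹) * (m B + (n : ENNReal)⁻¹)) atTop
      (𝓝 ((m A + 0) * (m B + 0))) :=
    ENNReal.Tendsto.mul (tendsto_const_nhds.add ENNReal.tendsto_inv_nat_nhds_zero)
      (Or.inr (by simp)) (tendsto_const_nhds.add ENNReal.tendsto_inv_nat_nhds_zero)
      (Or.inr (by simp))
  rw [add_zero, add_zero] at t
  refine ge_of_tendsto' t fun n => ?_
  obtain ⟨U, hAU, hU, h1⟩ := A.exists_isOpen_le_add m (ε := (n : ENNReal)⁻¹) (by simp)
  obtain ⟨V, hBV, hV, h2⟩ := B.exists_isOpen_le_add m (ε := (n : ENNReal)⁻¹) (by simp)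
  refine le_trans (measure_mono ?_) ((box_open U V hU hV).trans (mul_le_mul' h1 h2))
  rintro ω ⟨J, K, hJK, a, b⟩
  exact ⟨J, K, hJK, fun η h => hAU (a η h), fun η h => hBV (b η h)⟩

end Pool.Agent.H62.BKR
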