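import Mathlib

set_option autoImplicit false

namespace Pool.Agent.H62.Bal

variable {X Y : Type*}

/-- a connected coarse structure: diagonal, subsets, finite unions, inverses, compositions, every pair covered -/
def IsCoarse (𝓔 : Set (Set (X × X))) : Prop :=
  Set.diagonal X ∈ 𝓔 ∧ (∀ E ∈ 𝓔, ∀ D ⊆ E, D ∈ 𝓔) ∧ (∀ E ∈ 𝓔, ∀ F ∈ 𝓔, E ∪ F ∈ 𝓔) ∧
    (∀ E ∈ 𝓔, Prod.swap ⁻¹' E ∈ 𝓔) ∧
    (∀ E ∈ 𝓔, ∀ F ∈ 𝓔, {p : X × X | ∃ y, (p.1, y) ∈ E ∧ (y, p.2) ∈ F} ∈ 𝓔) ∧ ∀ p, ∃ E ∈ 𝓔, p ∈ E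

/-- a ballean given by entourages containing the diagonal -/
def IsBallean (𝓔 : Set (Set (X × X))) : Prop :=
  (∀ E ∈ 𝓔, Set.diagonal X ⊆ E) ∧
    (∀ E ∈ 𝓔, ∀ F ∈ 𝓔, ∃ D ∈ 𝓔, {p : X × X | ∃ y, (p.1, y) ∈ E ∧ (p.2, y) ∈ F} ⊆ D) ∧ ∀ p, ∃ E ∈ 𝓔, p ∈ E

/-- bounded sets -/
def Bdd (𝓔 : Set (Set (X × X))) (B : Set X) : Prop := ∃ E ∈ 𝓔, ∃ x, B ⊆ {y | (x, y) ∈ E}

/-- outside some bounded set, `f` oscillates by at most `δ` on every `E`-ball -/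
def Osc (𝓔 : Set (Set (X × X))) (f : X → ℝ) (E : Set (X × X)) (δ : ℝ) : Prop :=
  ∃ B, Bdd 𝓔 B ∧ ∀ x ∉ B, ∀ y z, (x, y) ∈ E → (x, z) ∈ E → |f y - f z| ≤ δ

/-- `f` is bounded outside some bounded set -/
def BddOff (𝓔 : Set (Set (X × X))) (f : X → ℝ) : Prop := ∃ B, Bdd 𝓔 B ∧ ∃ K, ∀ x ∉ B, |f x| ≤ K

/-- the product of two entourages -/
def tens (E : Set (X × X)) (F : Set (Y × Y)) : Set ((X × Y) × (X × Y)) :=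
  {p | (p.1.1, p.2.1) ∈ E ∧ (p.1.2, p.2.2) ∈ F}

end Pool.Agent.H62.Bal
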