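import Pool.Agent.H62.BalProd
import Pool.Agent.H62.BalDefs

set_option autoImplicit false
open Set Filter

namespace Pool.Agent.H62.Bal

variable {X Y : Type*}

def Weak (𝓔 : Set (Set (X × X))) : Prop :=
  (∀ A B, Bdd 𝓔 A → Bdd 𝓔 B → Bdd 𝓔 (A ∪ B)) ∧ ∃ E ∈ 𝓔, diagonal X ⊆ E

lemma IsCoarse.weak {𝓔 : Set (Set (X × X))} (h : IsCoarse 𝓔) : Weak 𝓔 := by
  obtain ⟨h1, -, h3, -, h5, h6⟩ := h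
  refine ⟨?_, _, h1, subset_rfl⟩
  rintro A B ⟨E, hE, x, hx⟩ ⟨F, hF, y, hy⟩
  obtain ⟨D, hD, h⟩ := h6 (x, y)
  exact ⟨_, h3 _ hE _ (h5 _ hD _ hF), x, union_subset (fun z hz => .inl (hx hz)) fun z hz => .inr ⟨y, h, hy hz⟩⟩

lemma IsBallean.weak [Nonempty X] {𝓔 : Set (Set (X × X))} (h : IsBallean 𝓔) : Weak 𝓔 := by
  obtain ⟨h1, h2, h3⟩ := h
  obtain ⟨E0, h0, -⟩ := h3 (Classical.arbitrary _)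
  refine ⟨?_, _, h0, h1 _ h0⟩
  rintro A B ⟨E, hE, x, hx⟩ ⟨F, hF, y, hy⟩
  obtain ⟨D, hD, h⟩ := h3 (y, x)
  obtain ⟨D1, a1, b1⟩ := h2 _ hE _ hF
  obtain ⟨D2, a2, b2⟩ := h2 _ a1 _ hD
  obtain ⟨D3, a3, b3⟩ := h2 _ a2 _ a1
  refine ⟨D3, a3, x, union_subset (fun z hz => b3 ⟨z, b2 ⟨z, b1 ⟨z, hx hz, h1 _ hF rfl⟩, h1 _ hD rfl⟩,
    h1 _ a1 rfl⟩) fun z hz => b3 ⟨y, b2 ⟨x, h1 _ a1 rfl, h⟩, b1 ⟨z, h1 _ hE rfl, hy hz⟩⟩⟩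

def cob [Nonempty X] {𝓔 : Set (Set (X × X))} (h : Weak 𝓔) : Filter X where
  sets := {s | Bdd 𝓔 sᶜ}
  univ_sets := let ⟨E, hE, _⟩ := h.2; ⟨E, hE, Classical.arbitrary X, by simp⟩
  sets_of_superset := fun ⟨E, hE, x, hx⟩ h => ⟨E, hE, x, (compl_subset_compl.mpr h).trans hx⟩
  inter_sets := fun a b => by simpa only [mem_ofPred_eq, compl_inter] using h.1 _ _ a b

theorem main [Nonempty X] [Nonempty Y] {𝓔 : Set (Set (X × X))} {𝓕 : Set (Set (Y × Y))} (hE : Weak 𝓔)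
    (hF : Weak 𝓕) {P : Set (Set ((X × Y) × (X × Y)))} (p1 : ∀ E ∈ 𝓔, ∀ F ∈ 𝓕, tens E F ∈ P)
    (p2 : ∀ D ∈ P, ∃ E ∈ 𝓔, ∃ F ∈ 𝓕, D ⊆ tens E F) (f : X × Y → ℝ) (hf : ∀ D ∈ P, ∃ C, Osc P f D C)
    (hX : ∀ g, (∀ E ∈ 𝓔, ∃ D ∈ P, ∀ δ, Osc P f D δ → Osc 𝓔 g E δ) → BddOff 𝓔 g)
    (hY : ∀ g, (∀ F ∈ 𝓕, ∃ D ∈ P, ∀ δ, Osc P f D δ → Osc 𝓕 g F δ) → BddOff 𝓕 g) : BddOff P f := by
  obtain ⟨E0, e0, e1⟩ := hE.2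
  obtain ⟨F0, f0, f1⟩ := hF.2
  have pr : ∀ B, Bdd P B → ∃ B1 B2, Bdd 𝓔 B1 ∧ Bdd 𝓕 B2 ∧ ∀ x y, (x, y) ∈ B → x ∈ B1 ∧ y ∈ B2 := by
    rintro B ⟨D, hD, z, hz⟩
    obtain ⟨E, a1, F, a2, a3⟩ := p2 D hD
    exact ⟨_, _, ⟨E, a1, z.1, subset_rfl⟩, ⟨F, a2, z.2, subset_rfl⟩, fun x y h => a3 (hz h)⟩
  have m1 : ∀ {B : Set X} {p : X → Prop}, Bdd 𝓔 B → (∀ x ∉ B, p x) → ∀ᶠ x in cob hE, p x :=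
    fun {B} _ h1 h2 => mem_of_superset (show Bdd 𝓔 Bᶜᶜ by rwa [compl_compl]) h2
  have m2 : ∀ {B : Set Y} {p : Y → Prop}, Bdd 𝓕 B → (∀ x ∉ B, p x) → ∀ᶠ x in cob hF, p x :=
    fun {B} _ h1 h2 => mem_of_superset (show Bdd 𝓕 Bᶜᶜ by rwa [compl_compl]) h2
  obtain ⟨B, C, K, h1, h2, h3⟩ := BalProd.ml (F := cob hE) (G := cob hF) (f := fun x y => f (x, y))
    (fun g hg => by
      obtain ⟨B, h1, K, h2⟩ := hX g fun E h => ⟨_, p1 E h F0 f0, fun δ ⟨B, h1, h2⟩ => by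
        obtain ⟨B1, B2, a1, -, a3⟩ := pr B h1
        exact ⟨B1, a1, fun x hx y z hy hz => hg y z δ fun w =>
          h2 (x, w) (fun h => hx (a3 _ _ h).1) _ _ ⟨hy, f1 rfl⟩ ⟨hz, f1 rfl⟩⟩⟩
      exact ⟨K, m1 h1 h2⟩)
    (fun g hg => by
      obtain ⟨B, h1, K, h2⟩ := hY g fun F h => ⟨_, p1 E0 e0 F h, fun δ ⟨B, h1, h2⟩ => by
        obtain ⟨B1, B2, -, a2, a3⟩ := pr B h1
        exact ⟨B2, a2, fun x hx y z hy hz => hg y z δ fun w =>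
          h2 (w, x) (fun h => hx (a3 _ _ h).2) _ _ ⟨e1 rfl, hy⟩ ⟨e1 rfl, hz⟩⟩⟩
      exact ⟨K, m2 h1 h2⟩)
    (fun B ⟨E, h1, x₀, h2⟩ => by
      obtain ⟨K, D, h3, h4⟩ := hf _ (p1 E h1 F0 f0)
      obtain ⟨B1, B2, -, a2, a3⟩ := pr D h3
      rw [compl_compl] at h2
      exact ⟨K, m2 a2 fun y hy x hx x' hx' =>
        h4 (x₀, y) (fun h => hy (a3 _ _ h).2) _ _ ⟨h2 hx, f1 rfl⟩ ⟨h2 hx', f1 rfl⟩⟩)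
    (fun B ⟨F, h1, y₀, h2⟩ => by
      obtain ⟨K, D, h3, h4⟩ := hf _ (p1 E0 e0 F h1)
      obtain ⟨B1, B2, a1, -, a3⟩ := pr D h3
      rw [compl_compl] at h2
      exact ⟨K, m1 a1 fun x hx y hy y' hy' =>
        h4 (x, y₀) (fun h => hx (a3 _ _ h).1) _ _ ⟨e1 rfl, h2 hy⟩ ⟨e1 rfl, h2 hy'⟩⟩)
  obtain ⟨E, a1, x, a2⟩ := h1
  obtain ⟨F, b1, y, b2⟩ := h2
  rw [compl_compl] at a2 b2
  exact ⟨B ×ˢ C, ⟨_, p1 E a1 F b1, (x, y), fun z hz => ⟨a2 hz.1, b2 hz.2⟩⟩, K, fun z hz => h3 z.1 z.2 hz⟩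

end Pool.Agent.H62.Bal
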