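import Mathlib

set_option autoImplicit false
open Set Filter

namespace Pool.Agent.H62.BalProd

/-- every natural-valued function is eventually bounded -/
def Sig {α : Type*} (F : Filter α) : Prop := ∀ g : α → ℕ, ∃ n, ∀ᶠ a in F, g a ≤ n

variable {α β : Type*}

lemma Sig.mono {F G : Filter α} (h : Sig F) (hG : G ≤ F) : Sig G := fun g => (h g).imp fun _ h => hG h

lemma Sig.all {F : Filter α} (h : Sig F) {p : ℕ → α → Prop} (hp : ∀ n, ∀ᶠ a in F, p n a) :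
    ∀ᶠ a in F, ∀ n, p n a := by
  classical
  obtain ⟨N, hN⟩ := h fun a => if h : ∃ n, ¬p n a then h.choose else 0
  filter_upwards [hN, (eventually_all_finite (finite_Iic N)).mpr fun n _ => hp n] with a h1 h2
  by_contra! h3
  rw [dif_pos h3] at h1
  exact h3.choose_spec (h2 _ h1)

lemma sep {U V : Ultrafilter α} (h : U ≠ V) : ∃ s ∈ U, s ∉ V :=
  not_subset.mp fun h1 => h (Ultrafilter.eq_of_le (f := V) (g := U) h1).symm

lemma Sig.finite {F : Filter α} (h : Sig F) : {U : Ultrafilter α | ↑U ≤ F}.Finite := by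
  classical
  by_contra h1
  let U := Set.Infinite.natEmbedding _ h1
  have h2 : ∀ n m, ∃ s ∈ (U n).1, n ≠ m → s ∉ (U m).1 := fun n m => by
    rcases eq_or_ne n m with rfl | h
    · exact ⟨univ, univ_mem, by simp⟩
    · exact (sep fun h3 => h (U.injective (Subtype.ext h3))).imp fun s hs => ⟨hs.1, fun _ => hs.2⟩
  choose s s1 s2 using h2
  obtain ⟨N, hN⟩ := h fun a => if h : ∃ n, ∀ m, a ∈ s n m then h.choose else 0
  obtain ⟨a, a1, a2, a3⟩ := (Eventually.and ((U (N + 1)).2 hN) (((h.mono (U (N + 1)).2).all (s1 (N + 1))).and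
    ((eventually_all_finite (finite_Iic N)).mpr fun n hn => Ultrafilter.compl_mem_iff_notMem.mpr
      (s2 n (N + 1) (Nat.lt_succ_of_le hn).ne)))).exists
  have h3 : ∃ n, ∀ m, a ∈ s n m := ⟨_, a2⟩
  rw [dif_pos h3] at a1
  exact a3 _ a1 (h3.choose_spec _)

lemma Sig.atom {F : Filter α} (h : Sig F) (U : Ultrafilter α) :
    ∃ W ∈ U, ∀ A ⊆ W, A ∉ U → Aᶜ ∈ F := by
  have h2 : ∀ V : Ultrafilter α, ∃ s ∈ U, U ≠ V → s ∉ V := fun V => by
    rcases eq_or_ne U V with rfl | h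
    · exact ⟨univ, univ_mem, by simp⟩
    · exact (sep h).imp fun s hs => ⟨hs.1, fun _ => hs.2⟩
  choose s s1 s2 using h2
  refine ⟨_, (biInter_mem h.finite).mpr fun V _ => s1 V, fun A hA h1 => mem_iff_ultrafilter.mpr fun V hV =>
    Ultrafilter.compl_mem_iff_notMem.mpr fun h3 => s2 V ?_ (mem_of_superset h3 fun a ha => ?_)⟩
  · rintro rfl; exact h1 h3
  · exact mem_iInter₂.mp (hA ha) V hV

lemma fix {V : Ultrafilter β} (h : Sig (V : Filter β)) {θ : β → β} (hθ : V.map θ = V) : ∀ᶠ x in V, θ x = x := by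
  classical
  let S : Setoid β := ⟨fun x y => ∃ m n, θ^[m] x = θ^[n] y, fun x => ⟨0, 0, rfl⟩,
    fun ⟨m, n, h⟩ => ⟨n, m, h.symm⟩, fun ⟨m, n, h⟩ ⟨m', n', h'⟩ => ⟨m' + m, n + n', by
      rw [Function.iterate_add_apply, h, ← Function.iterate_add_apply, add_comm, Function.iterate_add_apply, h',
        Function.iterate_add_apply]⟩⟩
  have h1 : ∀ x, ∃ m n, θ^[m] (Quotient.mk S x).out = θ^[n] x := fun x => Quotient.mk_out (s := S) x
  choose m hm using h1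
  have h2 : ∀ x, Quotient.mk S (θ x) = Quotient.mk S x := fun x => Quotient.sound ⟨0, 1, rfl⟩
  obtain ⟨k, hk⟩ : ∃ k, ∀ᶠ x in V, Nat.pair (m x) (Nat.find (hm x)) = k := by
    by_contra! h3
    obtain ⟨x, hx⟩ := (h.all h3).exists
    exact hx _ rfl
  have h3 : ∀ᶠ x in V, Nat.pair (m (θ x)) (Nat.find (hm (θ x))) = k := by rw [← hθ] at hk; exact hk
  filter_upwards [hk, h3] with x a1 a2
  obtain ⟨a3, a4⟩ := Nat.pair_eq_pair.mp (a1.trans a2.symm)
  have b1 := Nat.find_spec (hm x)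
  have b2 := Nat.find_spec (hm (θ x))
  rw [← a4, h2, ← a3] at b2
  rcases hn : Nat.find (hm x) with _ | n
  · rw [hn] at b1 b2; exact b2.symm.trans b1
  · rw [hn] at b1
    exact absurd (show θ^[m (θ x)] _ = _ by rw [h2, ← a3, b1]; rfl)
      (Nat.find_min (hm (θ x)) (show n < _ by omega))

theorem ul {F : Filter α} {G : Filter β} (hF : Sig F) (hG : Sig G) (φ : α → β → ℝ)
    (h1 : ∀ A, Aᶜ ∈ F → ∃ K, ∀ᶠ b in G, ∀ a ∈ A, φ a b ≤ K)
    (h2 : ∀ B, Bᶜ ∈ G → ∃ K, ∀ᶠ a in F, ∀ b ∈ B, φ a b ≤ K) : ∃ n : ℕ, ∀ᶠ a in F, ∀ b, φ a b ≤ n := by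
  classical
  by_contra! h
  have hne : NeBot (⨅ n : ℕ, F ⊓ 𝓟 {a | ∃ b, n < φ a b}) := by
    refine iInf_neBot_of_directed' (directed_of_isDirected_le fun m n hmn => inf_le_inf_left _
      (principal_mono.mpr fun a ⟨b, hb⟩ => ⟨b, lt_of_le_of_lt (Nat.cast_le.mpr hmn) hb⟩)) fun n => ?_
    exact frequently_iff_neBot.mp (h n)
  obtain ⟨U, hU⟩ := Ultrafilter.exists_le (⨅ n : ℕ, F ⊓ 𝓟 {a | ∃ b, n < φ a b})
  simp only [le_iInf_iff, le_inf_iff, le_principal_iff] at hU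
  have hUF := (hU 0).1
  have : Nonempty β := let ⟨_, b, _⟩ := U.nonempty_of_mem (hU 0).2; ⟨b⟩
  have h3 : ∀ (n : ℕ) a, ∃ b, (∃ b, n < φ a b) → n < φ a b := fun n a => by
    by_cases h : ∃ b, n < φ a b
    · exact h.imp fun b hb _ => hb
    · exact ⟨Classical.arbitrary β, fun h1 => absurd h1 h⟩
  choose y hy using h3
  have hy' : ∀ n : ℕ, ∀ᶠ a in U, n < φ a (y n a) := fun n => mem_of_superset (hU n).2 (hy n)
  obtain ⟨K, hK⟩ : ∃ K : ℝ, ∀ n : ℕ, K ≤ n → ↑(U.map (y n)) ≤ G := by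
    have h3 : ∀ n, ∃ B, Bᶜ ∈ G ∧ (¬↑(U.map (y n)) ≤ G → B ∈ U.map (y n)) := fun n => by
      by_cases h : ↑(U.map (y n)) ≤ G
      · exact ⟨∅, by simp, fun h1 => absurd h h1⟩
      · obtain ⟨s, h3, h4⟩ := not_subset.mp h
        exact ⟨sᶜ, by rwa [compl_compl], fun _ => Ultrafilter.compl_mem_iff_notMem.mpr h4⟩
    choose B b1 b2 using h3
    obtain ⟨K, hK⟩ := h2 (⋃ n, B n) (mem_of_superset (hG.all b1) fun b hb => by simpa using hb)
    refine ⟨K, fun n hn => not_not.mp fun h3 => ?_⟩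
    obtain ⟨a, a1, a2, a3⟩ := (Eventually.and (hUF hK) ((hy' n).and (Ultrafilter.mem_map.mp (b2 n h3)))).exists
    exact (hn.trans_lt a2).not_ge (a1 _ (mem_iUnion.mpr ⟨n, a3⟩))
  obtain ⟨W, hW, hW'⟩ := hF.atom U
  choose T t1 t2 using fun n : ℕ => exists_subset_bijOn (W ∩ {a | n < φ a (y n a)}) (y n)
  obtain ⟨K', hK'⟩ := h1 (⋃ n, ⋃ _ : T n ∉ U, T n) (mem_of_superset (hF.all (p := fun n a => T n ∉ U → a ∉ T n)
    fun n => by
      by_cases h : T n ∈ U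
      · simp [h]
      · exact mem_of_superset (hW' _ ((t1 n).trans inter_subset_left) h) fun a ha _ => ha) fun a ha => by
        simpa using ha)
  have hT : ∀ n : ℕ, max K K' ≤ n → T n ∈ U := fun n hn => not_not.mp fun h3 => by
    obtain ⟨b, b1, b2⟩ := (Eventually.and (hK n (le_of_max_le_left hn) hK')
      (image_mem_map (m := y n) (inter_mem hW (hy' n)))).exists
    obtain ⟨a, a1, rfl⟩ := (t2 n).surjOn b2
    exact ((le_of_max_le_right hn).trans_lt (t1 n a1).2).not_ge (b1 a (mem_iUnion₂.mpr ⟨n, h3, a1⟩))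
  have := hG.finite.to_subtype
  obtain ⟨V, hV⟩ := Finite.exists_infinite_fiber fun n : ℕ => (⟨U.map (y (n + ⌈max K K'⌉₊)),
    hK _ ((le_max_left _ K').trans ((Nat.le_ceil _).trans (by simp)))⟩ : {U : Ultrafilter β | ↑U ≤ G})
  rw [infinite_coe_iff] at hV
  obtain ⟨n₀, h0⟩ := hV.nonempty
  have e : ∀ n, U.map (y (n + ⌈max K K'⌉₊)) = V.1 → ∀ᶠ a in U, y (n + ⌈max K K'⌉₊) a = y (n₀ + ⌈max K K'⌉₊) a := by
    intro n hn
    have h4 : U.map (y (n₀ + ⌈max K K'⌉₊)) = V.1 := congrArg Subtype.val h0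
    have : Nonempty α := let ⟨a, _⟩ := U.nonempty_of_mem hW; ⟨a⟩
    have h5 : ∀ᶠ a in U, Function.invFunOn (y (n₀ + ⌈max K K'⌉₊)) (T (n₀ + ⌈max K K'⌉₊))
        (y (n₀ + ⌈max K K'⌉₊) a) = a := mem_of_superset (hT _ ((Nat.le_ceil _).trans (by simp)))
      fun a ha => (t2 _).injOn.leftInvOn_invFunOn ha
    have h6 := fix (hG.mono V.2) (θ := y (n + ⌈max K K'⌉₊) ∘ Function.invFunOn (y (n₀ + ⌈max K K'⌉₊))
      (T (n₀ + ⌈max K K'⌉₊))) (by
        conv_lhs => rw [← h4, Ultrafilter.map_map]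
        rw [← hn]
        exact Ultrafilter.coe_injective (map_congr (h5.mono fun a ha => by simp [ha])))
    rw [← h4] at h6
    filter_upwards [h5, h6] with a a1 a2
    simpa [a1] using a2
  obtain ⟨a, ha⟩ := ((hF.mono hUF).all (p := fun n a => U.map (y (n + ⌈max K K'⌉₊)) = V.1 →
    (n : ℝ) < φ a (y (n₀ + ⌈max K K'⌉₊) a)) fun n => by
      by_cases h : U.map (y (n + ⌈max K K'⌉₊)) = V.1
      · filter_upwards [e n h, hy' (n + ⌈max K K'⌉₊)] with a a1 a2 _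
        exact a1 ▸ lt_of_le_of_lt (by simp) a2
      · simp [h]).exists
  obtain ⟨n, n1, n2⟩ := hV.exists_gt ⌈φ a (y (n₀ + ⌈max K K'⌉₊) a)⌉₊
  exact (ha n (congrArg Subtype.val n1)).not_ge ((Nat.le_ceil _).trans (Nat.cast_le.mpr n2.le))

/-- `g` is dominated by the oscillation of `f` in the first variable -/
def Lip (f : α → β → ℝ) (g : α → ℝ) : Prop := ∀ x x' δ, (∀ y, |f x y - f x' y| ≤ δ) → |g x - g x'| ≤ δ

def S (f : α → β → ℝ) : Setoid α := ⟨fun x x' => ∃ δ, ∀ y, |f x y - f x' y| ≤ δ, fun x => ⟨0, by simp⟩,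
  fun ⟨δ, h⟩ => ⟨δ, fun y => (abs_sub_comm _ _).trans_le (h y)⟩,
  fun ⟨δ, h⟩ ⟨δ', h'⟩ => ⟨δ + δ', fun y => (abs_sub_le _ _ _).trans (add_le_add (h y) (h' y))⟩⟩

lemma half [Nonempty β] {F : Filter α} {f : α → β → ℝ} (h : ∀ g, Lip f g → ∃ K, ∀ᶠ x in F, |g x| ≤ K) :
    Sig (F.map (Quotient.mk (S f))) ∧ ∃ K, ∀ᶠ x in F, ∀ y, |f x y - f (Quotient.mk (S f) x).out y| ≤ K := by
  constructor
  · intro g
    obtain ⟨K, hK⟩ := h (fun x => g (Quotient.mk (S f) x)) fun x x' δ h1 => by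
      beta_reduce
      rw [Quotient.sound (s := S f) ⟨δ, h1⟩, sub_self, abs_zero]
      exact (abs_nonneg _).trans (h1 (Classical.arbitrary β))
    exact ⟨⌈K⌉₊, hK.mono fun x hx => Nat.cast_le.mp (((le_abs_self _).trans hx).trans (Nat.le_ceil K))⟩
  · have hb : ∀ x, BddAbove (range fun y => |f x y - f (Quotient.mk (S f) x).out y|) := fun x => by
      obtain ⟨δ, h1⟩ := (S f).symm (Quotient.mk_out (s := S f) x)
      exact ⟨δ, forall_mem_range.mpr h1⟩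
    have h2 : ∀ x x' δ, (∀ y, |f x y - f x' y| ≤ δ) → (⨆ y, |f x y - f (Quotient.mk (S f) x).out y|) ≤
        (⨆ y, |f x' y - f (Quotient.mk (S f) x').out y|) + δ := fun x x' δ h1 => ciSup_le fun y => by
      rw [Quotient.sound (s := S f) ⟨δ, h1⟩]
      linarith [abs_sub_le (f x y) (f x' y) (f (Quotient.mk (S f) x').out y), h1 y, le_ciSup (hb x') y]
    obtain ⟨K, hK⟩ := h (fun x => ⨆ y, |f x y - f (Quotient.mk (S f) x).out y|) fun x x' δ h1 =>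
      abs_sub_le_iff.mpr ⟨by linarith [h2 x x' δ h1], by linarith [h2 x' x δ fun y => (abs_sub_comm _ _).trans_le (h1 y)]⟩
    exact ⟨K, hK.mono fun x hx y => (le_ciSup (hb x) y).trans ((le_abs_self _).trans hx)⟩

lemma loc {G : Filter β} {f : α → β → ℝ} (h : ∀ g, Lip (fun y x => f x y) g → ∃ K, ∀ᶠ y in G, |g y| ≤ K)
    {B : Set α} (hB : ∃ K, ∀ᶠ y in G, ∀ x ∈ B, ∀ x' ∈ B, |f x y - f x' y| ≤ K) :
    ∃ K, ∀ᶠ y in G, ∀ x ∈ B, |f x y| ≤ K := by
  rcases B.eq_empty_or_nonempty with rfl | ⟨x₀, h0⟩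
  · simp
  · obtain ⟨K, hK⟩ := hB
    obtain ⟨K', hK'⟩ := h (f x₀) fun _ _ _ h => h x₀
    refine ⟨K + K', ?_⟩
    filter_upwards [hK, hK'] with y a1 a2 x hx
    linarith [abs_sub_abs_le_abs_sub (f x y) (f x₀ y), a1 x hx x₀ h0]

theorem ml [Nonempty α] [Nonempty β] {F : Filter α} {G : Filter β} {f : α → β → ℝ}
    (a1 : ∀ g, Lip f g → ∃ K, ∀ᶠ x in F, |g x| ≤ K)
    (a2 : ∀ g, Lip (fun y x => f x y) g → ∃ K, ∀ᶠ y in G, |g y| ≤ K)
    (b1 : ∀ B, Bᶜ ∈ F → ∃ K, ∀ᶠ y in G, ∀ x ∈ B, ∀ x' ∈ B, |f x y - f x' y| ≤ K)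
    (b2 : ∀ C, Cᶜ ∈ G → ∃ K, ∀ᶠ x in F, ∀ y ∈ C, ∀ y' ∈ C, |f x y - f x y'| ≤ K) :
    ∃ B C K, Bᶜ ∈ F ∧ Cᶜ ∈ G ∧ ∀ x y, (x, y) ∉ B ×ˢ C → |f x y| ≤ K := by
  have c1 := fun B hB => loc a2 (b1 B hB)
  have c2 := fun C hC => loc (f := fun y x => f x y) a1 (b2 C hC)
  obtain ⟨s1, K1, k1⟩ := half a1
  obtain ⟨s2, K2, k2⟩ := half a2
  obtain ⟨n, hn⟩ := ul s1 s2 (fun a b => |f a.out b.out|) (fun A hA => by
    obtain ⟨K, hK⟩ := c1 (Quotient.mk (S f) ⁻¹' A) hA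
    refine ⟨K + K2, eventually_map.mpr ?_⟩
    filter_upwards [hK, k2] with y h1 h2 a ha
    linarith [h1 a.out (by simpa using ha), h2 a.out, abs_sub_abs_le_abs_sub (f a.out (Quotient.mk (S fun y x => f x y) y).out)
      (f a.out y), abs_sub_comm (f a.out (Quotient.mk (S fun y x => f x y) y).out) (f a.out y)]) (fun A hA => by
    obtain ⟨K, hK⟩ := c2 (Quotient.mk _ ⁻¹' A) hA
    refine ⟨K + K1, eventually_map.mpr ?_⟩
    filter_upwards [hK, k1] with x h1 h2 a ha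
    linarith [h1 a.out (by simpa using ha), h2 a.out, abs_sub_abs_le_abs_sub (f (Quotient.mk (S f) x).out a.out)
      (f x a.out), abs_sub_comm (f (Quotient.mk (S f) x).out a.out) (f x a.out)])
  obtain ⟨K3, k3⟩ := c2 _ (by rw [compl_compl]; exact k2)
  have d : ∀ᶠ x in F, ∀ y, |f x y| ≤ max K3 (n + K1 + K2) := by
    filter_upwards [eventually_map.mp hn, k1, k3] with x h1 h2 h3 y
    by_cases h : ∀ x, |f x y - f x (Quotient.mk (S fun y x => f x y) y).out| ≤ K2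
    · refine le_max_of_le_right ?_
      linarith [h x, h1 (Quotient.mk _ y), h2 (Quotient.mk (S fun y x => f x y) y).out,
        abs_sub_abs_le_abs_sub (f x y) (f x (Quotient.mk (S fun y x => f x y) y).out),
        abs_sub_abs_le_abs_sub (f x (Quotient.mk (S fun y x => f x y) y).out)
          (f (Quotient.mk (S f) x).out (Quotient.mk (S fun y x => f x y) y).out)]
    · exact le_max_of_le_left (h3 y h)
  obtain ⟨K4, k4⟩ := c1 _ (by rw [compl_compl]; exact d)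
  refine ⟨_ᶜ, _ᶜ, max K4 (max K3 (n + K1 + K2)), by rw [compl_compl]; exact d, by rw [compl_compl]; exact k4,
    fun x y h => ?_⟩
  by_cases h1 : ∀ y, |f x y| ≤ max K3 (n + K1 + K2)
  · exact le_max_of_le_right (h1 y)
  · exact le_max_of_le_left (not_not.mp (fun h2 => h ⟨h1, h2⟩) x h1)

end Pool.Agent.H62.BalProd
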