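import Mathlib

set_option autoImplicit false

namespace Pool.Agent.H62.Box

/-- the cylinder `[x]_K` -/
def cyl {ι S : Type} (x : ι → S) (K : Set ι) : Set (ι → S) := {y | ∀ i ∈ K, y i = x i}

/-- the binary BKR product -/
def box {ι S : Type} (A B : Set (ι → S)) : Set (ι → S) :=
  {x | ∃ K L : Set ι, Disjoint K L ∧ cyl x K ⊆ A ∧ cyl x L ⊆ B}

/-- the simultaneous `r`-fold BKR product of `A 0, …, A (r-1)` -/
def sim {ι S : Type} (r : ℕ) (A : ℕ → Set (ι → S)) : Set (ι → S) :=
  {x | ∃ K : ℕ → Set ι, (∀ m < r, ∀ n < r, m ≠ n → Disjoint (K m) (K n)) ∧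
    ∀ n < r, cyl x (K n) ⊆ A n}

/-- full binary trees (parenthesisations) -/
inductive Br : Type
  | leaf : Br
  | node : Br → Br → Br

/-- number of leaves -/
def Br.size : Br → ℕ
  | leaf => 1
  | node a b => a.size + b.size

/-- value of the parenthesisation `t` of the word `A s, A (s+1), …, A (s + size t - 1)` -/
def Br.eval {ι S : Type} (A : ℕ → Set (ι → S)) : Br → ℕ → Set (ι → S)
  | leaf, s => A s
  | node a b, s => box (a.eval A s) (b.eval A (s + a.size))

end Pool.Agent.H62.Box
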