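import Pool.Agent.H62.BoxDefs

set_option autoImplicit false

namespace Pool.Agent.H62.Box
open Set

variable {ι S : Type}

lemma box_univ (A : Set (ι → S)) : box A univ = A := by
  ext x
  constructor
  · rintro ⟨K, L, -, h, -⟩
    exact h fun _ _ => rfl
  · intro h
    refine ⟨univ, ∅, by simp, fun y hy => ?_, subset_univ _⟩
    rw [show y = x from funext fun i => hy i trivial]; exact h

lemma box_comm (A B : Set (ι → S)) : box A B = box B A := by
  ext x
  constructor <;> rintro ⟨K, L, h, a, b⟩ <;> exact ⟨L, K, h.symm, b, a⟩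

lemma univ_box (A : Set (ι → S)) : box univ A = A := by rw [box_comm, box_univ]

lemma mem_box (A B : Set (ι → S)) (x : ι → S) : x ∈ box A B ↔ ∃ K : ι → Bool,
    (∀ y : ι → S, (∀ i, K i = true → y i = x i) → y ∈ A) ∧
      ∀ y : ι → S, (∀ i, K i = false → y i = x i) → y ∈ B := by
  classical
  constructor
  · rintro ⟨K, L, h, a, b⟩
    exact ⟨fun i => decide (i ∈ K), fun y hy => a fun i hi => hy i (decide_eq_true hi),
      fun y hy => b fun i hi => hy i (decide_eq_false fun hK => disjoint_left.1 h hK hi)⟩
  · rintro ⟨K, a, b⟩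
    exact ⟨{i | K i = true}, {i | K i = false}, disjoint_left.2 fun i h1 h2 => by simp_all,
      fun y hy => a y hy, fun y hy => b y hy⟩

lemma size_pos (t : Br) : 0 < t.size := by
  induction t with
  | leaf => exact one_pos
  | node a b ha hb => exact Nat.add_pos_left ha _

lemma eval0 (A : ℕ → Set (ι → S)) (t : Br) : ∀ s, (∀ n, s ≤ n → n < s + t.size → A n = univ) →
    t.eval A s = univ := by
  induction t with
  | leaf => intro s h; exact h s le_rfl (Nat.lt_succ_self s)
  | node a b ha hb =>
    intro s h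
    simp only [Br.size] at h
    rw [Br.eval, ha s fun n h1 h2 => h n h1 (by omega),
      hb _ fun n h1 h2 => h n (by omega) (by omega), box_univ]

lemma eval1 (A : ℕ → Set (ι → S)) (i : ℕ) (t : Br) : ∀ s, s ≤ i → i < s + t.size →
    (∀ n, s ≤ n → n < s + t.size → n ≠ i → A n = univ) → t.eval A s = A i := by
  induction t with
  | leaf =>
    intro s h1 h2 _
    simp only [Br.size] at h2
    rw [show i = s by omega]; rfl
  | node a b ha hb =>
    intro s h1 h2 h
    simp only [Br.size] at h h2
    rw [Br.eval]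
    by_cases c : i < s + a.size
    · rw [ha s h1 c fun n a1 a2 => h n a1 (by omega),
        eval0 A b _ fun n a1 a2 => h n (by omega) (by omega) (by omega), box_univ]
    · rw [hb _ (by omega) (by omega) fun n a1 a2 => h n (by omega) (by omega),
        eval0 A a _ fun n a1 a2 => h n (by omega) (by omega) (by omega), univ_box]

lemma eval2 (A : ℕ → Set (ι → S)) (i j : ℕ) (hij : i < j) (t : Br) : ∀ s, s ≤ i →
    j < s + t.size → (∀ n, s ≤ n → n < s + t.size → n ≠ i → n ≠ j → A n = univ) →
    t.eval A s = box (A i) (A j) := by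
  induction t with
  | leaf =>
    intro s h1 h2 _
    simp only [Br.size] at h2
    omega
  | node a b ha hb =>
    intro s h1 h2 h
    simp only [Br.size] at h h2
    rw [Br.eval]
    by_cases c : j < s + a.size
    · rw [ha s h1 c fun n a1 a2 => h n a1 (by omega),
        eval0 A b _ fun n a1 a2 => h n (by omega) (by omega) (by omega) (by omega), box_univ]
    by_cases c' : i < s + a.size
    · rw [eval1 A i a s h1 c' fun n a1 a2 a3 => h n a1 (by omega) a3 (by omega),
        eval1 A j b _ (by omega) (by omega) fun n a1 a2 a3 =>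
          h n (by omega) (by omega) (by omega) a3]
    · rw [hb _ (by omega) (by omega) fun n a1 a2 => h n (by omega) (by omega),
        eval0 A a _ fun n a1 a2 => h n (by omega) (by omega) (by omega) (by omega), univ_box]

lemma eval3 (A : ℕ → Set (ι → S)) (i j k : ℕ) (hij : i < j) (hjk : j < k) (t : Br) : ∀ s, s ≤ i →
    k < s + t.size → (∀ n, s ≤ n → n < s + t.size → n ≠ i → n ≠ j → n ≠ k → A n = univ) →
    t.eval A s = box (box (A i) (A j)) (A k) ∨ t.eval A s = box (A i) (box (A j) (A k)) := by
  induction t with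
  | leaf =>
    intro s h1 h2 _
    simp only [Br.size] at h2
    omega
  | node a b ha hb =>
    intro s h1 h2 h
    simp only [Br.size] at h h2
    rw [Br.eval]
    by_cases c : k < s + a.size
    · rw [eval0 A b _ fun n a1 a2 => h n (by omega) (by omega) (by omega) (by omega) (by omega),
        box_univ]
      exact ha s h1 c fun n a1 a2 => h n a1 (by omega)
    by_cases c' : j < s + a.size
    · left
      rw [eval2 A i j hij a s h1 c' fun n a1 a2 a3 a4 => h n a1 (by omega) a3 a4 (by omega),
        eval1 A k b _ (by omega) (by omega) fun n a1 a2 a3 =>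
          h n (by omega) (by omega) (by omega) (by omega) a3]
    by_cases c'' : i < s + a.size
    · right
      rw [eval1 A i a s h1 c'' fun n a1 a2 a3 => h n a1 (by omega) a3 (by omega) (by omega),
        eval2 A j k hjk b _ (by omega) (by omega) fun n a1 a2 a3 a4 =>
          h n (by omega) (by omega) (by omega) a3 a4]
    · rw [eval0 A a _ fun n a1 a2 => h n (by omega) (by omega) (by omega) (by omega) (by omega),
        univ_box]
      exact hb _ (by omega) (by omega) fun n a1 a2 => h n (by omega) (by omega)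

def X : Set (Fin 3 → Bool) := {x | (x 0 && !x 1 && x 2) = false}
def Y : Set (Fin 3 → Bool) := {x | (x 1 && (x 0 == x 2)) = false}
def Z : Set (Fin 3 → Bool) := {x | (!x 0 && !x 1 && x 2) = false}

lemma p_left : ![true, true, false] ∈ box (box X Y) Z := by
  simp only [mem_box, X, Y, Z, mem_ofPred_eq]; decide +kernel
lemma p_right : ![true, true, false] ∈ box X (box Y Z) := by
  simp only [mem_box, X, Y, Z, mem_ofPred_eq]; decide +kernel
lemma q_left : ![false, true, true] ∈ box (box X Y) Z := by
  simp only [mem_box, X, Y, Z, mem_ofPred_eq]; decide +kernel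
lemma q_right : ![false, true, true] ∉ box X (box Y Z) := by
  simp only [mem_box, X, Y, Z, mem_ofPred_eq]; decide +kernel

def tri (i j k : ℕ) (n : ℕ) : Set (Fin 3 → Bool) :=
  if n = i then X else if n = j then Y else if n = k then Z else univ

lemma tri_i (i j k : ℕ) : tri i j k i = X := by simp [tri]
lemma tri_j {i j : ℕ} (k : ℕ) (h : i < j) : tri i j k j = Y := by simp [tri, h.ne']
lemma tri_k {i j k : ℕ} (h : i < j) (h' : j < k) : tri i j k k = Z := by
  simp [tri, h'.ne', (h.trans h').ne']
lemma tri_o {i j k n : ℕ} (h1 : n ≠ i) (h2 : n ≠ j) (h3 : n ≠ k) : tri i j k n = univ := by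
  simp [tri, h1, h2, h3]

lemma key3 : ∀ a b c : Fin 3 → Bool, (∀ i, (a i && b i) = false) →
      (∀ i, (a i && c i) = false) → (∀ i, (b i && c i) = false) →
      (∀ y : Fin 3 → Bool, (∀ i, a i = true → y i = ![true, true, false] i) → y ∈ X) →
      (∀ y : Fin 3 → Bool, (∀ i, b i = true → y i = ![true, true, false] i) → y ∈ Y) →
      ¬(∀ y : Fin 3 → Bool, (∀ i, c i = true → y i = ![true, true, false] i) → y ∈ Z) := by
  intro a b
  simp only [X, Y, Z, mem_ofPred_eq]
  revert a b
  decide +kernel

lemma p_not_sim (r : ℕ) (hr : 3 ≤ r) : ![true, true, false] ∉ sim r (tri 0 1 2) := by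
  classical
  rintro ⟨K, hd, hK⟩
  have dj : ∀ m < r, ∀ n < r, m ≠ n → ∀ i, (decide (i ∈ K m) && decide (i ∈ K n)) = false := by
    intro m hm n hn h i
    have : i ∈ K m → i ∉ K n := fun h1 => disjoint_left.1 (hd m hm n hn h) h1
    simpa using this
  exact key3 (fun i => decide (i ∈ K 0)) (fun i => decide (i ∈ K 1)) (fun i => decide (i ∈ K 2))
    (dj 0 (by omega) 1 (by omega) (by omega)) (dj 0 (by omega) 2 (by omega) (by omega))
    (dj 1 (by omega) 2 (by omega) (by omega))
    (fun y hy => hK 0 (by omega) fun i hi => hy i (decide_eq_true hi))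
    (fun y hy => hK 1 (by omega) fun i hi => hy i (decide_eq_true hi))
    (fun y hy => hK 2 (by omega) fun i hi => hy i (decide_eq_true hi))

lemma p_mem {i j k : ℕ} (hij : i < j) (hjk : j < k) (t : Br) (hk : k < t.size) :
    ![true, true, false] ∈ t.eval (tri i j k) 0 := by
  rcases eval3 (tri i j k) i j k hij hjk t 0 (Nat.zero_le _) (by omega)
    (fun n _ _ => tri_o) with h | h <;> rw [h, tri_i, tri_j k hij, tri_k hij hjk]
  exacts [p_left, p_right]

lemma sim_sub (A : ℕ → Set (ι → S)) (x : ι → S) (K : ℕ → Set ι) (t : Br) : ∀ s,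
    (∀ m < s + t.size, ∀ n < s + t.size, m ≠ n → Disjoint (K m) (K n)) →
    (∀ n < s + t.size, cyl x (K n) ⊆ A n) →
    cyl x (⋃ n ∈ Ico s (s + t.size), K n) ⊆ t.eval A s := by
  induction t with
  | leaf =>
    intro s _ h y hy
    exact h s (Nat.lt_succ_self s) fun i hi =>
      hy i (mem_biUnion ⟨le_rfl, Nat.lt_succ_self s⟩ hi)
  | node a b ha hb =>
    intro s hd h y hy
    simp only [Br.size] at hd h hy
    have h1 := ha s (fun m hm n hn => hd m (by omega) n (by omega)) fun n hn => h n (by omega)
    have h2 := hb (s + a.size) (fun m hm n hn => hd m (by omega) n (by omega))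
      fun n hn => h n (by omega)
    refine ⟨⋃ n ∈ Ico s (s + a.size), K n, ⋃ n ∈ Ico (s + a.size) (s + a.size + b.size), K n,
      ?_, fun z hz => h1 fun i hi => ?_, fun z hz => h2 fun i hi => ?_⟩
    · simp only [disjoint_iUnion_left, disjoint_iUnion_right]
      intro n hn m hm
      exact hd m (by have := hm.2; omega) n (by have := hn.2; omega)
        (by have := hm.2; have := hn.1; omega)
    · rw [hz i hi]
      obtain ⟨n, hn, hi'⟩ := mem_iUnion₂.1 hi
      exact hy i (mem_biUnion ⟨hn.1, by have := hn.2; omega⟩ hi')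
    · rw [hz i hi]
      obtain ⟨n, hn, hi'⟩ := mem_iUnion₂.1 hi
      exact hy i (mem_biUnion ⟨by have := hn.1; omega, by have := hn.2; omega⟩ hi')

theorem strict (r : ℕ) (hr : 3 ≤ r) :
    sim r (tri 0 1 2) ⊂ ⋂ t ∈ {t : Br | t.size = r}, t.eval (tri 0 1 2) 0 := by
  refine ⟨?_, fun h => p_not_sim r hr (h (mem_iInter₂.2 fun t ht => ?_))⟩
  · rintro x ⟨K, hd, hK⟩
    refine mem_iInter₂.2 fun t ht => ?_
    have ht' : t.size = r := ht
    exact sim_sub _ x K t 0 (by rw [zero_add, ht']; exact hd) (by rw [zero_add, ht']; exact hK)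
      fun _ _ => rfl
  · have ht' : t.size = r := ht
    exact p_mem one_pos one_lt_two t (by omega)

lemma sep_aux (a b a' b' : Br) (s : ℕ) (h : a.size + b.size = a'.size + b'.size)
    (hlt : a.size < a'.size) : ∃ i j k, s ≤ i ∧ i < j ∧ j < k ∧ k < s + (a.size + b.size) ∧
      (Br.node a b).eval (tri i j k) s ≠ (Br.node a' b').eval (tri i j k) s := by
  have p1 := size_pos a
  have p2 := size_pos b'
  have hij : s < s + a.size := by omega
  have hjk : s + a.size < s + a'.size := by omega
  refine ⟨s, s + a.size, s + a'.size, le_rfl, hij, hjk, by omega, ?_⟩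
  rw [Br.eval, Br.eval,
    eval1 _ s a s le_rfl hij fun n a1 a2 a3 => tri_o a3 (by omega) (by omega),
    eval2 _ _ _ hjk b _ le_rfl (by omega) fun n a1 a2 a3 a4 => tri_o (by omega) a3 a4,
    eval2 _ _ _ hij a' _ le_rfl hjk fun n a1 a2 a3 a4 => tri_o a3 a4 (by omega),
    eval1 _ (s + a'.size) b' _ le_rfl (by omega) fun n a1 a2 a3 => tri_o (by omega) (by omega) a3,
    tri_i, tri_j _ hij, tri_k hij hjk]
  intro e
  exact q_right (e ▸ q_left)

lemma sep (t : Br) : ∀ (t' : Br) (s : ℕ), t.size = t'.size → t ≠ t' →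
    ∃ i j k, s ≤ i ∧ i < j ∧ j < k ∧ k < s + t.size ∧
      t.eval (tri i j k) s ≠ t'.eval (tri i j k) s := by
  induction t with
  | leaf =>
    intro t' s h hne
    cases t' with
    | leaf => exact absurd rfl hne
    | node a b =>
      have := size_pos a
      have := size_pos b
      simp only [Br.size] at h
      omega
  | node a b ha hb =>
    intro t' s h hne
    cases t' with
    | leaf =>
      have := size_pos a
      have := size_pos b
      simp only [Br.size] at h
      omega
    | node a' b' =>
      simp only [Br.size] at h ⊢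
      rcases lt_trichotomy a.size a'.size with c | c | c
      · exact sep_aux a b a' b' s h c
      · by_cases e : a = a'
        · subst e
          obtain ⟨i, j, k, h1, h2, h3, h4, h5⟩ := hb b' (s + a.size) (by omega)
            (fun e => hne (by rw [e]))
          refine ⟨i, j, k, by omega, h2, h3, by omega, ?_⟩
          rw [Br.eval, Br.eval, eval0 _ a s fun n a1 a2 => tri_o (by omega) (by omega) (by omega),
            univ_box, univ_box]
          exact h5
        · obtain ⟨i, j, k, h1, h2, h3, h4, h5⟩ := ha a' s c e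
          refine ⟨i, j, k, h1, h2, h3, by omega, ?_⟩
          rw [Br.eval, Br.eval, eval0 _ b _ fun n a1 a2 => tri_o (by omega) (by omega) (by omega),
            eval0 _ b' _ fun n a1 a2 => tri_o (by omega) (by omega) (by omega),
            box_univ, box_univ]
          exact h5
      · obtain ⟨i, j, k, h1, h2, h3, h4, h5⟩ := sep_aux a' b' a b s h.symm c
        exact ⟨i, j, k, h1, h2, h3, by omega, h5.symm⟩

/-- product along an identification of the index set -/
def pr {P κ : Type} (e : ι ≃ P × κ) (A : P → Set (κ → S)) : Set (ι → S) :=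
  {x | ∀ p, (fun i => x (e.symm (p, i))) ∈ A p}

lemma box_pr {P κ : Type} (e : ι ≃ P × κ) (A B : P → Set (κ → S)) :
    box (pr e A) (pr e B) = pr e fun p => box (A p) (B p) := by
  classical
  ext x
  constructor
  · rintro ⟨K, L, h, a, b⟩ p
    have key : ∀ (M : Set ι) (D : P → Set (κ → S)), cyl x M ⊆ pr e D →
        cyl (fun i => x (e.symm (p, i))) {i | e.symm (p, i) ∈ M} ⊆ D p := by
      intro M D hM y hy
      have := hM (a := fun n => if (e n).1 = p then y (e n).2 else x n) (fun n hn => by
        show (if (e n).1 = p then y (e n).2 else x n) = x n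
        split_ifs with c
        · have e1 : e.symm (p, (e n).2) = n := by rw [← c]; simp
          have := hy (e n).2 (by show e.symm _ ∈ M; rwa [e1])
          rw [this]; simp only [e1]
        · rfl) p
      simpa using this
    exact ⟨_, _, disjoint_left.2 fun i h1 h2 => disjoint_left.1 h h1 h2, key K A a, key L B b⟩
  · intro h
    choose K L hd a b using h
    refine ⟨{n | (e n).2 ∈ K (e n).1}, {n | (e n).2 ∈ L (e n).1},
      disjoint_left.2 fun n h1 h2 => disjoint_left.1 (hd _) h1 h2,
      fun y hy p => a p fun i hi => hy _ (by simpa using hi),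
      fun y hy p => b p fun i hi => hy _ (by simpa using hi)⟩

lemma eval_pr {P κ : Type} (e : ι ≃ P × κ) (A : P → ℕ → Set (κ → S)) (t : Br) : ∀ s,
    t.eval (fun n => pr e fun p => A p n) s = pr e fun p => t.eval (A p) s := by
  induction t with
  | leaf => intro s; rfl
  | node a b ha hb => intro s; rw [Br.eval, ha, hb, box_pr]; rfl

theorem distinct (r : ℕ) (hr : 3 ≤ r) : ∃ d : ℕ, 1 ≤ d ∧ ∃ A : ℕ → Set (Fin d → Bool),
    InjOn (fun t : Br => t.eval A 0) {t | t.size = r} := by
  classical
  let P := {p : Fin r × Fin r × Fin r // p.1 < p.2.1 ∧ p.2.1 < p.2.2}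
  let p0 : P := ⟨(⟨0, by omega⟩, ⟨1, by omega⟩, ⟨2, by omega⟩), by simp [Fin.lt_def]⟩
  let e := (Fintype.equivFin (P × Fin 3)).symm
  refine ⟨Fintype.card (P × Fin 3), Fintype.card_pos_iff.2 ⟨(p0, 0)⟩,
    fun n => pr e fun p => tri p.1.1 p.1.2.1 p.1.2.2 n, fun t ht t' ht' h => ?_⟩
  have ht1 : t.size = r := ht
  have ht2 : t'.size = r := ht'
  by_contra hne
  obtain ⟨i, j, k, -, h2, h3, h4, h5⟩ := sep t t' 0 (ht1.trans ht2.symm) hne
  let p : P := ⟨(⟨i, by omega⟩, ⟨j, by omega⟩, ⟨k, by omega⟩), h2, h3⟩
  simp only [eval_pr e fun (p : P) => tri p.1.1 p.1.2.1 p.1.2.2] at h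
  have key : ∀ u u' : Br, u.size = r →
      (pr e fun p : P => u.eval (tri p.1.1 p.1.2.1 p.1.2.2) 0) =
        (pr e fun p : P => u'.eval (tri p.1.1 p.1.2.1 p.1.2.2) 0) →
      u.eval (tri i j k) 0 ⊆ u'.eval (tri i j k) 0 := by
    intro u u' hu huu z hz
    have : (fun n => if (e n).1 = p then z (e n).2 else ![true, true, false] (e n).2) ∈
        pr e fun p : P => u.eval (tri p.1.1 p.1.2.1 p.1.2.2) 0 := by
      intro q
      simp only [Equiv.apply_symm_apply]
      by_cases c : q = p
      · subst c; simpa using hz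
      · simp only [c, if_false]
        exact p_mem q.2.1 q.2.2 u (by rw [hu]; exact q.1.2.2.2)
    rw [huu] at this
    simpa using this p
  exact h5 (Subset.antisymm (key t t' ht1 h) (key t' t ht2 h.symm))

end Pool.Agent.H62.Box
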