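import Pool.Agent.H62.BoxDefs

set_option autoImplicit false

namespace Pool.Agent.H62.Box

/-- value of the bracketing `t` with every leaf labelled `A` -/
def Br.pw {ι S : Type} (A : Set (ι → S)) : Br → Set (ι → S)
  | leaf => A
  | node a b => box (a.pw A) (b.pw A)

/-- equivalence of bracketings: swapping the two subtrees at some internal nodes -/
inductive Br.Eqv : Br → Br → Prop
  | leaf : Br.Eqv .leaf .leaf
  | node {a b a' b' : Br} : Br.Eqv a a' → Br.Eqv b b' → Br.Eqv (.node a b) (.node a' b')
  | swap {a b a' b' : Br} : Br.Eqv a b' → Br.Eqv b a' → Br.Eqv (.node a b) (.node a' b')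

end Pool.Agent.H62.Box
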