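import Pool.Agent.H62.BoxMain
import Pool.Agent.H62.BoxPowDefs

set_option autoImplicit false

namespace Pool.Agent.H62.Box
open Set

variable {ι S : Type}

lemma box_mono {A B C D : Set (ι → S)} (h1 : A ⊆ C) (h2 : B ⊆ D) : box A B ⊆ box C D := by
  rintro x ⟨K, L, h, a, b⟩
  exact ⟨K, L, h, a.trans h1, b.trans h2⟩

lemma eval_sub_pw (F : ℕ → Set (ι → S)) (A : Set (ι → S)) (t : Br) : ∀ s,
    (∀ n < s + t.size, F n ⊆ A) → t.eval F s ⊆ t.pw A := by
  induction t with
  | leaf => intro s h; exact h s (Nat.lt_succ_self s)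
  | node a b ha hb =>
    intro s h
    simp only [Br.size] at h
    exact box_mono (ha s fun n hn => h n (by omega)) (hb _ fun n hn => h n (by omega))

lemma pw_pr {P κ : Type} (e : ι ≃ P × κ) (A : P → Set (κ → S)) (t : Br) :
    t.pw (pr e A) = pr e fun p => t.pw (A p) := by
  induction t with
  | leaf => rfl
  | node a b ha hb => rw [Br.pw, ha, hb, box_pr]; rfl

def X' : Set (Fin 3 → Bool) := {x | (!x 0 && !x 1 && x 2) = false}
def Y' : Set (Fin 3 → Bool) := {x | (x 0 && !x 1 && x 2) = false}
def Z' : Set (Fin 3 → Bool) := {x | (!x 0 && (!x 1 || x 2)) = false}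
def q0 : Fin 3 → Bool := ![true, false, false]
def p0 : Fin 3 → Bool := ![true, true, false]

lemma q0_a : q0 ∈ box (box X' Y') Z' := by
  simp only [mem_box, X', Y', Z', mem_ofPred_eq]; decide +kernel
lemma q0_b : q0 ∉ box X' (box Y' Z') := by
  simp only [mem_box, X', Y', Z', mem_ofPred_eq]; decide +kernel
lemma q0_c : q0 ∉ box (box X' Z') Y' := by
  simp only [mem_box, X', Y', Z', mem_ofPred_eq]; decide +kernel

def tr (i j k : ℕ) (n : ℕ) : Set (Fin 3 → Bool) :=
  if n = i then X' else if n = j then Y' else if n = k then Z' else univ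

lemma tr_o {i j k n : ℕ} (h1 : n ≠ i) (h2 : n ≠ j) (h3 : n ≠ k) : tr i j k n = univ := by
  simp [tr, h1, h2, h3]

lemma p0_mem (i j k : ℕ) (t : Br) : p0 ∈ t.eval (tr i j k) 0 := by
  refine sim_sub _ p0 (fun n => if n = i then {2} else if n = j then {1} else
    if n = k then {0} else ∅) t 0 ?_ ?_ fun _ _ => rfl
  · intro m _ n _ h
    split_ifs <;> simp_all
  · intro n _ y hy
    unfold tr
    split_ifs with h1 h2 h3
    · have : y 2 = false := hy 2 (by simp [h1])
      simp [X', this]
    · have : y 1 = true := hy 1 (by rw [if_neg h1, if_pos h2]; rfl)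
      simp [Y', this]
    · have : y 0 = true := hy 0 (by rw [if_neg h1, if_neg h2, if_pos h3]; rfl)
      simp [Z', this]
    · trivial

def sh : Br → ℕ → ℕ → ℕ → ℕ → Prop
  | .leaf, _, _, _, _ => False
  | .node a b, s, i, j, k =>
    (i ≠ j ∧ s ≤ i ∧ i < s + a.size ∧ s ≤ j ∧ j < s + a.size ∧
      s + a.size ≤ k ∧ k < s + a.size + b.size) ∨
    (i ≠ j ∧ s + a.size ≤ i ∧ i < s + a.size + b.size ∧ s + a.size ≤ j ∧
      j < s + a.size + b.size ∧ s ≤ k ∧ k < s + a.size) ∨
    sh a s i j k ∨ sh b (s + a.size) i j k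

lemma sh_range {i j k : ℕ} (t : Br) : ∀ s, sh t s i j k →
    s ≤ i ∧ i < s + t.size ∧ s ≤ j ∧ j < s + t.size ∧ s ≤ k ∧ k < s + t.size := by
  induction t with
  | leaf => intro s h; exact h.elim
  | node a b ha hb =>
    intro s h
    simp only [Br.size]
    rcases h with h | h | h | h
    · omega
    · omega
    · have := ha s h; omega
    · have := hb _ h; omega

lemma eval2' {i j k : ℕ} (t : Br) (s : ℕ) (hij : i ≠ j) (h1 : s ≤ i) (h2 : i < s + t.size)
    (h3 : s ≤ j) (h4 : j < s + t.size) (hk : k < s ∨ s + t.size ≤ k) :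
    t.eval (tr i j k) s = box X' Y' := by
  have a : tr i j k i = X' := by simp [tr]
  have b : tr i j k j = Y' := by simp [tr, hij.symm]
  rcases lt_or_gt_of_ne hij with c | c
  · rw [eval2 _ i j c t s h1 h4 fun n a1 a2 a3 a4 => tr_o a3 a4 (by omega), a, b]
  · rw [eval2 _ j i c t s h3 h2 fun n a1 a2 a3 a4 => tr_o a4 a3 (by omega), a, b, box_comm]

lemma sh_eval {i j k : ℕ} (t : Br) : ∀ s, sh t s i j k →
    t.eval (tr i j k) s = box (box X' Y') Z' := by
  induction t with
  | leaf => intro s h; exact h.elim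
  | node a b ha hb =>
    intro s h
    rw [Br.eval]
    rcases h with h | h | h | h
    · have c : tr i j k k = Z' := by
        simp [tr, show k ≠ i by omega, show k ≠ j by omega]
      rw [eval2' a s h.1 (by omega) (by omega) (by omega) (by omega) (by omega),
        eval1 _ k b _ (by omega) (by omega) fun n a1 a2 a3 => tr_o (by omega) (by omega) a3, c]
    · have c : tr i j k k = Z' := by
        simp [tr, show k ≠ i by omega, show k ≠ j by omega]
      rw [eval2' b _ h.1 (by omega) (by omega) (by omega) (by omega) (by omega),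
        eval1 _ k a _ (by omega) (by omega) fun n a1 a2 a3 => tr_o (by omega) (by omega) a3, c,
        box_comm]
    · have := sh_range a s h
      rw [ha s h, eval0 _ b _ fun n a1 a2 => tr_o (by omega) (by omega) (by omega), box_univ]
    · have := sh_range b _ h
      rw [hb _ h, eval0 _ a _ fun n a1 a2 => tr_o (by omega) (by omega) (by omega), univ_box]

section main
variable {r : ℕ}

abbrev PP (r : ℕ) := Fin r ⊕ (Fin r × Fin r × Fin r)

def G : PP r → ℕ → Set (Fin 3 → Bool)
  | .inl m, n => if n = m then {y | y 0 = true} else univ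
  | .inr p, n => tr p.1 p.2.1 p.2.2 n

def F (r : ℕ) (n : ℕ) : Set (PP r × Fin 3 → Bool) := pr (Equiv.refl _) fun p => G p n

def AA (r : ℕ) : Set (PP r × Fin 3 → Bool) := ⋃ n : Fin r, F r n

def T (x : PP r × Fin 3 → Bool) : Finset (Fin r) := Finset.univ.filter fun n => x (.inl n, 0)

def sl (x : PP r × Fin 3 → Bool) (p : Fin r × Fin r × Fin r) : Fin 3 → Bool :=
  fun c => x (.inr p, c)

open Classical in
noncomputable def md (x : PP r × Fin 3 → Bool) (K : Set (PP r × Fin 3))
    (p : Fin r × Fin r × Fin r) (w : Fin 3 → Bool) : PP r × Fin 3 → Bool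
  | (.inl n, c) => x (.inl n, c) && decide ((Sum.inl n, c) ∈ K)
  | (.inr p', c) => if p' = p then w c else x (.inr p', c)

lemma md_mem (x : PP r × Fin 3 → Bool) (K : Set (PP r × Fin 3)) (p : Fin r × Fin r × Fin r)
    (w : Fin 3 → Bool) (hw : w ∈ cyl (sl x p) {c | (Sum.inr p, c) ∈ K}) :
    md x K p w ∈ cyl x K := by
  rintro ⟨n | p', c⟩ h
  · simp [md, h]
  · simp only [md]
    split_ifs with e
    · subst e; exact hw c h
    · rfl

open Classical in
lemma T_md (x : PP r × Fin 3 → Bool) (K : Set (PP r × Fin 3)) (p : Fin r × Fin r × Fin r)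
    (w : Fin 3 → Bool) : T (md x K p w) = (T x).filter fun n => (Sum.inl n, 0) ∈ K := by
  ext n; simp [T, md]

lemma sl_md (x : PP r × Fin 3 → Bool) (K : Set (PP r × Fin 3)) (p : Fin r × Fin r × Fin r)
    (w : Fin 3 → Bool) : sl (md x K p w) p = w := by
  funext c; simp [sl, md]

lemma sl_md' (x : PP r × Fin 3 → Bool) (K : Set (PP r × Fin 3)) (p p' : Fin r × Fin r × Fin r) :
    sl (md x K p (sl x p)) p' = sl x p' := by
  funext c
  simp only [sl, md]
  split_ifs with e
  · rw [e]
  · rfl

lemma leaf_mem {x : PP r × Fin 3 → Bool} (h : x ∈ AA r) :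
    ∃ n ∈ T x, ∀ p, sl x p ∈ tr p.1 p.2.1 p.2.2 n := by
  obtain ⟨n, hn⟩ := mem_iUnion.1 h
  refine ⟨n, ?_, fun p => hn (.inr p)⟩
  have := hn (.inl n)
  simp only [G, if_true] at this
  simpa [T] using this

open Classical in
lemma tok (p : Fin r × Fin r × Fin r) (u : Br) : ∀ x, x ∈ u.pw (AA r) → u.size ≤ (T x).card := by
  induction u with
  | leaf =>
    intro x h
    obtain ⟨n, hn, -⟩ := leaf_mem h
    exact Finset.card_pos.2 ⟨n, hn⟩
  | node a b ha hb =>
    rintro x ⟨K, L, hd, h1, h2⟩
    have e1 := ha _ (h1 (md_mem x K p _ fun _ _ => rfl))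
    have e2 := hb _ (h2 (md_mem x L p _ fun _ _ => rfl))
    rw [T_md] at e1 e2
    have := Finset.card_le_card (Finset.union_subset
      (Finset.filter_subset (fun n => (Sum.inl n, 0) ∈ K) (T x))
      (Finset.filter_subset (fun n => (Sum.inl n, 0) ∈ L) (T x)))
    rw [Finset.card_union_of_disjoint (Finset.disjoint_filter.2 fun n _ a b =>
      disjoint_left.1 hd a b)] at this
    simp only [Br.size]
    omega

lemma split (p1 : Fin r × Fin r × Fin r) (a b : Br) (x : PP r × Fin 3 → Bool)
    (h : x ∈ (Br.node a b).pw (AA r)) (hc : (T x).card = a.size + b.size) :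
    ∃ T1 T2 : Finset (Fin r), Disjoint T1 T2 ∧ T1 ∪ T2 = T x ∧ T1.card = a.size ∧
      T2.card = b.size ∧ (∃ y ∈ a.pw (AA r), T y = T1 ∧ ∀ p, sl y p = sl x p) ∧
      (∃ y ∈ b.pw (AA r), T y = T2 ∧ ∀ p, sl y p = sl x p) ∧
      ∀ p D1 D2, (∀ y ∈ a.pw (AA r), T y = T1 → sl y p ∈ D1) →
        (∀ y ∈ b.pw (AA r), T y = T2 → sl y p ∈ D2) → sl x p ∈ box D1 D2 := by
  classical
  obtain ⟨K, L, hd, h1, h2⟩ := h
  have m1 := h1 (md_mem x K p1 _ fun _ _ => rfl)
  have m2 := h2 (md_mem x L p1 _ fun _ _ => rfl)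
  have e1 := tok p1 a _ m1
  have e2 := tok p1 b _ m2
  rw [T_md] at e1 e2
  have hs := Finset.union_subset
      (Finset.filter_subset (fun n => (Sum.inl n, 0) ∈ K) (T x))
      (Finset.filter_subset (fun n => (Sum.inl n, 0) ∈ L) (T x))
  have hdj : Disjoint ((T x).filter fun n => (Sum.inl n, 0) ∈ K)
      ((T x).filter fun n => (Sum.inl n, 0) ∈ L) :=
    Finset.disjoint_filter.2 fun n _ a b => disjoint_left.1 hd a b
  have hcard := Finset.card_le_card hs
  have hu := Finset.card_union_of_disjoint hdj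
  refine ⟨_, _, hdj, Finset.eq_of_subset_of_card_le hs (by omega), by omega, by omega,
    ⟨_, m1, T_md _ _ _ _, sl_md' _ _ _⟩, ⟨_, m2, T_md _ _ _ _, sl_md' _ _ _⟩,
    fun p D1 D2 d1 d2 => ⟨{c | (Sum.inr p, c) ∈ K}, {c | (Sum.inr p, c) ∈ L},
      disjoint_left.2 fun c a b => disjoint_left.1 hd a b, fun w hw => ?_, fun w hw => ?_⟩⟩
  · have := d1 _ (h1 (md_mem x K p w hw)) (T_md _ _ _ _)
    rwa [sl_md] at this
  · have := d2 _ (h2 (md_mem x L p w hw)) (T_md _ _ _ _)
    rwa [sl_md] at this

def H (i j k : Fin r) (U : Finset (Fin r)) : Set (Fin 3 → Bool) :=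
  box (box (if i ∈ U then X' else univ) (if j ∈ U then Y' else univ))
    (if k ∈ U then Z' else univ)

lemma proj {i j k : Fin r} (hij : i ≠ j) (hik : i ≠ k) (hjk : j ≠ k) (u : Br) : ∀ x,
    x ∈ u.pw (AA r) → (T x).card = u.size → ¬(i ∈ T x ∧ j ∈ T x ∧ k ∈ T x) →
    sl x (i, j, k) ∈ H i j k (T x) := by
  induction u with
  | leaf =>
    intro x h hc _
    obtain ⟨n, hn, h'⟩ := leaf_mem h
    obtain ⟨m, hm⟩ := Finset.card_eq_one.1 hc
    rw [hm] at hn ⊢
    rw [Finset.mem_singleton.1 hn] at h'
    have := h' (i, j, k)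
    simp only [tr, Fin.val_inj] at this
    simp only [H, Finset.mem_singleton]
    by_cases c1 : m = i
    · subst c1; simpa [hij.symm, hik.symm, box_univ] using this
    by_cases c2 : m = j
    · subst c2; simpa [c1, hij, hjk.symm, box_univ, univ_box] using this
    by_cases c3 : m = k
    · subst c3; simpa [c1, c2, hik, hjk, box_univ, univ_box] using this
    · simp [Ne.symm c1, Ne.symm c2, Ne.symm c3, box_univ]
  | node a b ha hb =>
    intro x h hc hn
    obtain ⟨T1, T2, hd, hu, c1, c2, -, -, hb'⟩ := split (i, j, k) a b x h hc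
    rw [← hu] at hn ⊢
    simp only [Finset.mem_union] at hn
    have := hb' (i, j, k) (H i j k T1) (H i j k T2)
      (fun y hy e => e ▸ ha y hy (e ▸ c1) (by rw [e]; tauto))
      (fun y hy e => e ▸ hb y hy (e ▸ c2) (by rw [e]; tauto))
    have di : i ∈ T1 → i ∉ T2 := fun h => Finset.disjoint_left.1 hd h
    have dj : j ∈ T1 → j ∉ T2 := fun h => Finset.disjoint_left.1 hd h
    have dk : k ∈ T1 → k ∉ T2 := fun h => Finset.disjoint_left.1 hd h
    simp only [H, Finset.mem_union] at this ⊢
    by_cases i1 : i ∈ T1 <;> by_cases i2 : i ∈ T2 <;> by_cases j1 : j ∈ T1 <;>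
      by_cases j2 : j ∈ T2 <;> by_cases k1 : k ∈ T1 <;> by_cases k2 : k ∈ T2 <;>
      simp_all [box_univ, univ_box] <;> rwa [box_comm]

lemma no_cut (a b : Br) (x : PP r × Fin 3 → Bool) (T1 T2 : Finset (Fin r)) (hd : Disjoint T1 T2)
    (c1 : T1.card = a.size) (c2 : T2.card = b.size)
    (hb' : ∀ p D1 D2, (∀ y ∈ a.pw (AA r), T y = T1 → sl y p ∈ D1) →
        (∀ y ∈ b.pw (AA r), T y = T2 → sl y p ∈ D2) → sl x p ∈ box D1 D2)
    {i j k : Fin r} (hik : i ≠ k) (hjk : j ≠ k) (hi : i ∈ T1) (hj : j ∈ T2)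
    (hk : k ∈ T1 ∪ T2) : sl x (i, j, k) ≠ q0 := by
  have i2 : i ∉ T2 := Finset.disjoint_left.1 hd hi
  have j1 : j ∉ T1 := Finset.disjoint_right.1 hd hj
  have hij : i ≠ j := fun e => i2 (e ▸ hj)
  intro e
  have := hb' (i, j, k) (H i j k T1) (H i j k T2)
    (fun y hy e => e ▸ proj hij hik hjk a y hy (e ▸ c1) (by rw [e]; tauto))
    (fun y hy e => e ▸ proj hij hik hjk b y hy (e ▸ c2) (by rw [e]; tauto))
  rw [e] at this
  rcases Finset.mem_union.1 hk with k1 | k2
  · have k2 : k ∉ T2 := Finset.disjoint_left.1 hd k1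
    simp only [H, hi, hj, i2, j1, k1, k2, if_true, if_false, box_univ, univ_box] at this
    exact q0_c this
  · have k1 : k ∉ T1 := Finset.disjoint_right.1 hd k2
    simp only [H, hi, hj, i2, j1, k1, k2, if_true, if_false, box_univ, univ_box] at this
    exact q0_b this

lemma rigid (τ : Br) : ∀ (s : ℕ) (u : Br) (x : PP r × Fin 3 → Bool), s + τ.size ≤ r →
    x ∈ u.pw (AA r) → (T x).card = u.size → (∀ n : Fin r, n ∈ T x ↔ s ≤ n ∧ n < s + τ.size) →
    (∀ i j k : Fin r, sh τ s i j k → sl x (i, j, k) = q0) → Br.Eqv τ u := by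
  induction τ with
  | leaf =>
    intro s u x hs _ hc hT _
    simp only [Br.size] at hs hT
    cases u with
    | leaf => exact Br.Eqv.leaf
    | node a b =>
      exfalso
      have := size_pos a
      have := size_pos b
      have : (T x).card ≤ 1 := Finset.card_le_one.2 fun m hm n hn => by
        have := (hT m).1 hm
        have := (hT n).1 hn
        ext; omega
      simp only [Br.size] at hc
      omega
  | node a b ha hb =>
    intro s u x hs hx hc hT hq
    simp only [Br.size] at hs hT
    have pa := size_pos a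
    have pb := size_pos b
    let n1 : Fin r := ⟨s, by omega⟩
    let n2 : Fin r := ⟨s + a.size, by omega⟩
    have m1 : n1 ∈ T x := (hT n1).2 ⟨le_rfl, by simp only [n1]; omega⟩
    have m2 : n2 ∈ T x := (hT n2).2 ⟨by simp only [n2]; omega, by simp only [n2]; omega⟩
    cases u with
    | leaf =>
      exfalso
      have := Finset.card_le_one.1 hc.le n1 m1 n2 m2
      have := congrArg Fin.val this
      simp only [n1, n2] at this
      omega
    | node a' b' =>
      obtain ⟨T1, T2, hd, hu, c1, c2, ⟨y1, y1m, y1T, y1s⟩, ⟨y2, y2m, y2T, y2s⟩, hb'⟩ :=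
        split (n1, n1, n1) a' b' x hx hc
      have nc : ∀ i j : Fin r, i ∈ T1 → j ∈ T2 → ((i : ℕ) < s + a.size ↔ s + a.size ≤ j) := by
        intro i j hi hj
        have ri := (hT i).1 (hu ▸ Finset.mem_union_left _ hi)
        have rj := (hT j).1 (hu ▸ Finset.mem_union_right _ hj)
        have hij : (i : ℕ) ≠ j := fun e =>
          Finset.disjoint_left.1 hd hi ((Fin.ext e : i = j) ▸ hj)
        by_contra hcon
        by_cases c : (i : ℕ) < s + a.size
        · refine no_cut a' b' x T1 T2 hd c1 c2 hb' (k := n2) ?_ ?_ hi hj (hu ▸ m2)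
            (hq _ _ _ (Or.inl ?_))
          · intro e; have := congrArg Fin.val e; simp only [n2] at this; omega
          · intro e; have := congrArg Fin.val e; simp only [n2] at this; omega
          · simp only [n2]; omega
        · refine no_cut a' b' x T1 T2 hd c1 c2 hb' (k := n1) ?_ ?_ hi hj (hu ▸ m1)
            (hq _ _ _ (Or.inr (Or.inl ?_)))
          · intro e; have := congrArg Fin.val e; simp only [n1] at this; omega
          · intro e; have := congrArg Fin.val e; simp only [n1] at this; omega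
          · simp only [n1]; omega
      obtain ⟨i0, hi0⟩ := Finset.card_pos.1 (c1 ▸ size_pos a')
      obtain ⟨j0, hj0⟩ := Finset.card_pos.1 (c2 ▸ size_pos b')
      have mem : ∀ n : Fin r, (n ∈ T1 ∨ n ∈ T2) ↔ s ≤ n ∧ n < s + (a.size + b.size) := by
        intro n; rw [← Finset.mem_union, hu, hT]
      have h00 := nc i0 j0 hi0 hj0
      have qa : ∀ y, (∀ p, sl y p = sl x p) → ∀ i j k : Fin r, sh a s i j k →
          sl y (i, j, k) = q0 := fun y hy i j k h =>
        (hy _).trans (hq i j k (Or.inr (Or.inr (Or.inl h))))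
      have qb : ∀ y, (∀ p, sl y p = sl x p) → ∀ i j k : Fin r, sh b (s + a.size) i j k →
          sl y (i, j, k) = q0 := fun y hy i j k h =>
        (hy _).trans (hq i j k (Or.inr (Or.inr (Or.inr h))))
      have f1 : ∀ n ∈ T1, ((n : ℕ) < s + a.size ↔ (i0 : ℕ) < s + a.size) := fun n hn =>
        (nc n j0 hn hj0).trans h00.symm
      have f2 : ∀ n ∈ T2, (s + a.size ≤ n ↔ (i0 : ℕ) < s + a.size) := fun n hn =>
        (nc i0 n hi0 hn).symm
      by_cases c : (i0 : ℕ) < s + a.size
      · refine Br.Eqv.node (ha s a' y1 (by omega) y1m (y1T ▸ c1) (fun n => ?_) (qa y1 y1s))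
          (hb _ b' y2 (by omega) y2m (y2T ▸ c2) (fun n => ?_) (qb y2 y2s))
        · rw [y1T]
          constructor
          · intro h
            have := (mem n).1 (Or.inl h)
            have := (f1 n h).2 c
            omega
          · intro h
            rcases (mem n).2 (by omega) with h' | h'
            · exact h'
            · have := (f2 n h').2 c; omega
        · rw [y2T]
          constructor
          · intro h
            have := (mem n).1 (Or.inr h)
            have := (f2 n h).2 c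
            omega
          · intro h
            rcases (mem n).2 (by omega) with h' | h'
            · have := (f1 n h').2 c; omega
            · exact h'
      · refine Br.Eqv.swap (ha s b' y2 (by omega) y2m (y2T ▸ c2) (fun n => ?_) (qa y2 y2s))
          (hb _ a' y1 (by omega) y1m (y1T ▸ c1) (fun n => ?_) (qb y1 y1s))
        · rw [y2T]
          constructor
          · intro h
            have := (mem n).1 (Or.inr h)
            have := mt (f2 n h).1 c
            omega
          · intro h
            rcases (mem n).2 (by omega) with h' | h'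
            · exact absurd ((f1 n h').1 h.2) c
            · exact h'
        · rw [y1T]
          constructor
          · intro h
            have := (mem n).1 (Or.inl h)
            have := mt (f1 n h).1 c
            omega
          · intro h
            rcases (mem n).2 (by omega) with h' | h'
            · exact h'
            · exact absurd ((f2 n h').1 h.1) c

theorem power0 (t t' : Br) (ht : t.size = r) (ht' : t'.size = r)
    (h : t.pw (AA r) = t'.pw (AA r)) : Br.Eqv t t' := by
  classical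
  let x : PP r × Fin 3 → Bool := fun z => match z with
    | (.inl _, _) => true
    | (.inr p, c) => if sh t 0 p.1 p.2.1 p.2.2 then q0 c else p0 c
  have hT : T x = Finset.univ := by ext n; simp [T, x]
  have hx : x ∈ t.pw (AA r) := by
    refine eval_sub_pw (F r) (AA r) t 0 (fun n hn y hy =>
      mem_iUnion.2 ⟨⟨n, by omega⟩, hy⟩) ?_
    have := eval_pr (Equiv.refl (PP r × Fin 3)) G t 0
    unfold F
    rw [this]
    rintro (m | p)
    · show (fun _ => true) ∈ t.eval (G (.inl m)) 0
      rw [eval1 (G (.inl m)) m t 0 (Nat.zero_le _) (by omega) fun n _ _ h => by simp [G, h]]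
      simp [G]
    · show (fun c => if sh t 0 p.1 p.2.1 p.2.2 then q0 c else p0 c) ∈
        t.eval (tr p.1 p.2.1 p.2.2) 0
      by_cases c : sh t 0 p.1 p.2.1 p.2.2
      · simp only [c, if_true]
        rw [sh_eval t 0 c]; exact q0_a
      · simp only [c, if_false]
        exact p0_mem _ _ _ t
  refine rigid t 0 t' x (by omega) (h ▸ hx) (by rw [hT, ht']; simp) (fun n => ?_) ?_
  · rw [hT, ht]; simp
  · intro i j k hs
    funext c
    simp [sl, x, hs]

theorem power (r : ℕ) (hr : 1 ≤ r) : ∃ d : ℕ, 1 ≤ d ∧ ∃ A : Set (Fin d → Bool),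
    ∀ t t' : Br, t.size = r → t'.size = r → t.pw A = t'.pw A → Br.Eqv t t' := by
  let e : Fin (Fintype.card (PP r × Fin 3)) ≃ Unit × (PP r × Fin 3) :=
    (Fintype.equivFin _).symm.trans (Equiv.punitProd _).symm
  refine ⟨_, Fintype.card_pos_iff.2 ⟨(Sum.inl ⟨0, hr⟩, 0)⟩, pr e fun _ => AA r,
    fun t t' ht ht' h => power0 t t' ht ht' ?_⟩
  rw [pw_pr, pw_pr] at h
  have key : ∀ (B : Set (PP r × Fin 3 → Bool)) (z : PP r × Fin 3 → Bool),
      (fun n => z (e n).2) ∈ (pr e fun _ => B) ↔ z ∈ B := by
    intro B z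
    simp [pr]
  ext z
  rw [← key, h, key]

end main

end Pool.Agent.H62.Box
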