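import Mathlib

set_option autoImplicit false

namespace Pool.Agent.H62.Cap

open Finset MeasureTheory

variable {m : ℕ}

/-- the distances from `z` to the points `W i` in increasing order -/
noncomputable def D (W : Fin m → ℂ) (z : ℂ) (k : ℕ) : ℝ :=
  if h : k < m then ‖z - W (Tuple.sort (fun i => ‖z - W i‖) ⟨k, h⟩)‖ else 0

lemma D_nonneg (W : Fin m → ℂ) (z : ℂ) (k : ℕ) : 0 ≤ D W z k := by
  unfold D
  split_ifs <;> positivity

lemma D_le_iff (W : Fin m → ℂ) (z : ℂ) {k : ℕ} (hk : k < m) (t : ℝ) :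
    D W z k ≤ t ↔ k < #{i | ‖z - W i‖ ≤ t} := by
  have h := Tuple.lt_card_le_iff_apply_le_of_monotone (j := ⟨k, hk⟩) (a := t)
    (Tuple.monotone_sort fun i => ‖z - W i‖)
  rw [D, dif_pos hk]
  refine h.symm.trans (Iff.of_eq ?_)
  congr 1
  exact card_equiv (Tuple.sort fun i => ‖z - W i‖) (by simp)

lemma D_prod (W : Fin m → ℂ) (z : ℂ) : ∏ k ∈ range m, D W z k = ∏ i, ‖z - W i‖ := by
  rw [← Fin.prod_univ_eq_prod_range,
    ← Equiv.prod_comp (Tuple.sort fun i => ‖z - W i‖) fun i => ‖z - W i‖]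
  exact prod_congr rfl fun k _ => by simp [D]

lemma D_sum (W : Fin m → ℂ) (z : ℂ) (φ : ℝ → ℝ) :
    ∑ k ∈ range m, φ (D W z k) = ∑ i, φ ‖z - W i‖ := by
  rw [← Fin.sum_univ_eq_sum_range (fun k => φ (D W z k)),
    ← Equiv.sum_comp (Tuple.sort fun i => ‖z - W i‖) fun i => φ ‖z - W i‖]
  exact sum_congr rfl fun k _ => by simp [D]

lemma D_mono (W : Fin m → ℂ) (z : ℂ) {j k : ℕ} (hjk : j ≤ k) (hk : k < m) : D W z j ≤ D W z k :=
  (D_le_iff W z (by omega) _).mpr (hjk.trans_lt ((D_le_iff W z hk _).mp le_rfl))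

lemma D_lip (W : Fin m → ℂ) (z c : ℂ) (k : ℕ) : D W z k ≤ D W c k + ‖z - c‖ := by
  by_cases hk : k < m
  · refine (D_le_iff W z hk _).mpr (((D_le_iff W c hk _).mp le_rfl).trans_le
      (card_le_card fun i hi => ?_))
    simp only [mem_filter, mem_univ, true_and] at hi ⊢
    linarith [norm_sub_le_norm_sub_add_norm_sub z c (W i)]
  · simp [D, hk]

lemma D_cont (W : Fin m → ℂ) (k : ℕ) : Continuous fun z => D W z k :=
  (LipschitzWith.of_le_add fun z c => by simpa [dist_eq_norm] using D_lip W z c k).continuous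

lemma D_pos (W : Fin m → ℂ) {z : ℂ} (hz : ∀ i, z ≠ W i) {k : ℕ} (hk : k < m) : 0 < D W z k := by
  rw [D, dif_pos hk]
  exact norm_pos_iff.mpr (sub_ne_zero.mpr (hz _))

/-- truncated kernel -/
noncomputable def g (l x : ℝ) : ℝ := if x ≤ 2 * l then l / x else 0

lemma g_nonneg {l x : ℝ} (hl : 0 ≤ l) (hx : 0 ≤ x) : 0 ≤ g l x := by
  unfold g
  split_ifs <;> positivity

lemma g_meas (l : ℝ) : Measurable (g l) :=
  Measurable.ite measurableSet_Iic (by fun_prop) measurable_const

lemma int_g {l : ℝ} (hl : 0 < l) (w : ℂ) :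
    ∫⁻ z, ENNReal.ofReal (g l ‖z - w‖) ≤ ENNReal.ofReal (16 * l ^ 2) := by
  rw [lintegral_sub_right_eq_self (fun z : ℂ => ENNReal.ofReal (g l ‖z‖)),
    ← Complex.lintegral_comp_polarCoord_symm]
  have hs : MeasurableSet (Set.Ioc (0 : ℝ) (2 * l) ×ˢ Set.Ioo (-Real.pi) Real.pi) :=
    measurableSet_Ioc.prod measurableSet_Ioo
  refine le_trans (setLIntegral_mono' (g := (Set.Ioc (0 : ℝ) (2 * l) ×ˢ Set.Ioo (-Real.pi)
    Real.pi).indicator fun _ => ENNReal.ofReal l) polarCoord.open_target.measurableSet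
    fun p hp => ?_) ((setLIntegral_le_lintegral _ _).trans ?_)
  · have h1 : 0 < p.1 := hp.1
    rw [Complex.norm_polarCoord_symm, abs_of_pos h1, smul_eq_mul, ← ENNReal.ofReal_mul h1.le, g]
    split_ifs with h
    · rw [Set.indicator_of_mem (Set.mem_prod.mpr ⟨Set.mem_Ioc.mpr ⟨h1, h⟩, hp.2⟩), mul_div_cancel₀ _ h1.ne']
    · simp
  · rw [lintegral_indicator_const hs, Measure.volume_eq_prod, Measure.prod_prod, Real.volume_Ioc,
      Real.volume_Ioo, ← ENNReal.ofReal_mul (by linarith), ← ENNReal.ofReal_mul hl.le]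
    refine ENNReal.ofReal_le_ofReal ?_
    nlinarith [Real.pi_le_four, sq_nonneg l]

lemma amgm (W : Fin m → ℂ) {z : ℂ} (hz : ∀ i, z ≠ W i) {M : ℕ} (hM : M ≤ m) {l y : ℝ}
    (hl : 0 < l) (hy : 1 ≤ y) (h : (∏ k ∈ range M, D W z k) * y ^ M ≤ l ^ M) :
    M * y ≤ 2 * ∑ i, g l ‖z - W i‖ := by
  have hp : ∀ k ∈ range M, 0 < D W z k := fun k hk => D_pos W hz ((mem_range.mp hk).trans_le hM)
  have h1 : 1 ≤ ∏ k ∈ range M, l / (y * D W z k) := by
    rw [prod_div_distrib, prod_mul_distrib, prod_const, prod_const, card_range,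
      one_le_div (mul_pos (by positivity) (prod_pos hp)), mul_comm]
    exact h
  have h2 := Real.log_nonneg h1
  rw [Real.log_prod fun k hk => by have := hp k hk; positivity] at h2
  have h3 : ∀ k ∈ range M, y * Real.log (l / (y * D W z k)) ≤ g l (D W z k) - y / 2 := by
    intro k hk
    have a0 := hp k hk
    have a1 := mul_le_mul_of_nonneg_left
      (Real.log_le_sub_one_of_pos (show 0 < l / (y * D W z k) by positivity)) (show 0 ≤ y by linarith)
    have a2 : y * (l / (y * D W z k) - 1) = l / D W z k - y := by field_simp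
    have a3 : l / D W z k ≤ g l (D W z k) + 1 / 2 := by
      unfold g
      split_ifs with hc
      · linarith
      · rw [zero_add, div_le_div_iff₀ a0 two_pos]
        linarith
    linarith
  have h4 := sum_le_sum h3
  rw [← mul_sum, sum_sub_distrib, sum_const, card_range, nsmul_eq_mul] at h4
  have h5 : ∑ k ∈ range M, g l (D W z k) ≤ ∑ k ∈ range m, g l (D W z k) :=
    sum_le_sum_of_subset_of_nonneg (range_subset_range.mpr hM) fun k _ _ =>
      g_nonneg hl.le (D_nonneg _ _ _)
  rw [D_sum W z (g l)] at h5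
  nlinarith

lemma int_amgm (W : Fin m → ℂ) {M : ℕ} (hM0 : 0 < M) (hM : M ≤ m) {l : ℝ} (hl : 0 < l)
    {A : Set ℂ} (hA : MeasurableSet A) (y : ℂ → ℝ) (B : ℝ) (hB : 0 ≤ B)
    (h : ∀ z ∈ A, 1 ≤ y z ∧ (∏ k ∈ range M, D W z k) * y z ^ M ≤ l ^ M) :
    ∫⁻ z in A, ENNReal.ofReal (B * y z) ≤ ENNReal.ofReal (B * (32 * (m / M) * l ^ 2)) := by
  have hM1 : (0 : ℝ) < M := by exact_mod_cast hM0
  have hae : ∀ᵐ z : ℂ, ∀ i, z ≠ W i := ae_all_iff.mpr fun i => by
    simp [ae_iff]
  refine le_trans (setLIntegral_mono_ae' hA (g := fun z =>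
    ∑ i, ENNReal.ofReal (B * 2 / M) * ENNReal.ofReal (g l ‖z - W i‖)) ?_)
    ((setLIntegral_le_lintegral _ _).trans ?_)
  · filter_upwards [hae] with z hz hzA
    have := amgm W hz hM hl (h z hzA).1 (h z hzA).2
    rw [← mul_sum, ← ENNReal.ofReal_sum_of_nonneg fun i _ => g_nonneg hl.le (norm_nonneg _),
      ← ENNReal.ofReal_mul (by positivity)]
    refine ENNReal.ofReal_le_ofReal ?_
    rw [div_mul_eq_mul_div, le_div_iff₀ hM1]
    nlinarith [mul_le_mul_of_nonneg_left this hB]
  · have hm : ∀ i, Measurable fun z : ℂ => ENNReal.ofReal (g l ‖z - W i‖) := fun i =>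
      ((g_meas l).comp (by fun_prop)).ennreal_ofReal
    rw [lintegral_finsetSum _ fun i _ => (hm i).const_mul _]
    refine (sum_le_card_nsmul _ _ (ENNReal.ofReal (B * 2 / M) * ENNReal.ofReal (16 * l ^ 2))
      fun i _ => ?_).trans ?_
    · rw [lintegral_const_mul _ (hm i)]
      exact mul_le_mul_right (int_g hl _) _
    · rw [card_univ, Fintype.card_fin, nsmul_eq_mul, ← ENNReal.ofReal_natCast,
        ← ENNReal.ofReal_mul (by positivity), ← ENNReal.ofReal_mul (by positivity)]
      exact ENNReal.ofReal_le_ofReal (le_of_eq (by ring))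

/-- product of the quantile distances -/
noncomputable def T (W : Fin m → ℂ) (N l : ℕ) (z : ℂ) : ℝ := ∏ k ∈ range l, D W z ((k + 1) * N)

/-- the sublevel sets -/
def A (W : Fin m → ℂ) (N l : ℕ) (Λ : ℝ) : Set ℂ :=
  {z | (∏ k ∈ range N, D W z k) * T W N l z ^ N ≤ Λ ^ N}

lemma T_cont (W : Fin m → ℂ) (N l : ℕ) : Continuous (T W N l) :=
  continuous_finsetProd _ fun _ _ => D_cont W _

lemma T_nonneg (W : Fin m → ℂ) (N l : ℕ) (z : ℂ) : 0 ≤ T W N l z :=
  prod_nonneg fun _ _ => D_nonneg _ _ _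

lemma A_meas (W : Fin m → ℂ) (N l : ℕ) (Λ : ℝ) : MeasurableSet (A W N l Λ) :=
  (isClosed_le ((continuous_finsetProd _ fun _ _ => D_cont W _).mul ((T_cont W N l).pow _))
    continuous_const).measurableSet

theorem main (n l : ℕ) : l < n → ∃ C : ℝ, 0 < C ∧ ∀ (M : ℕ) (W : Fin (n * (2 * M)) → ℂ) (Λ : ℝ),
    0 < M → 0 < Λ →
      ∫⁻ z in A W (2 * M) l Λ, ENNReal.ofReal (T W (2 * M) l z ^ 2) ≤ ENNReal.ofReal (C * Λ ^ 2) := by
  induction l with
  | zero =>
    intro hn
    refine ⟨32 * n, by positivity, fun M W Λ hM hΛ => ?_⟩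
    have h := int_amgm W (M := 2 * M) (by omega) (Nat.le_mul_of_pos_left _ hn) hΛ
      (A_meas W (2 * M) 0 Λ) (fun _ => 1) 1 zero_le_one fun z hz => ⟨le_rfl, by simpa [A, T] using hz⟩
    have hM1 : (M : ℝ) ≠ 0 := by exact_mod_cast hM.ne'
    convert h using 2
    · simp [T]
    · push_cast
      field_simp
  | succ l ih =>
    intro hn
    obtain ⟨C, hC, ih⟩ := ih (by omega)
    have hn0 : (0 : ℝ) < n := by exact_mod_cast (show 0 < n by omega)
    refine ⟨64 * n + 2 * n * (9 ^ (l + 1) * 4 + 16 * C), by positivity, fun M W Λ hM hΛ => ?_⟩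
    have hM1 : (0 : ℝ) < M := by exact_mod_cast hM
    obtain ⟨r, hr, rfl⟩ : ∃ r : ℝ, 0 < r ∧ r ^ (l + 2) = Λ :=
      ⟨Λ ^ (((l + 2 : ℕ) : ℝ)⁻¹), by positivity, Real.rpow_inv_natCast_pow hΛ.le (by omega)⟩
    have hlt : ∀ k, k < l + 1 → (k + 1) * (2 * M) < n * (2 * M) := fun k hk =>
      Nat.mul_lt_mul_of_pos_right (by omega) (by omega)
    have hMm : 2 * M < n * (2 * M) := by simpa using hlt 0 (by omega)
    set S := A W (2 * M) (l + 1) (r ^ (l + 2)) with hS
    have hSm : MeasurableSet S := A_meas _ _ _ _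
    set F : ℂ → ENNReal := fun z => ENNReal.ofReal (T W (2 * M) (l + 1) z ^ 2) with hF
    have hFm : Measurable F := ((T_cont W _ _).pow 2).measurable.ennreal_ofReal
    have hE : MeasurableSet {z | D W z M ≤ r} :=
      (isClosed_le (D_cont W M) continuous_const).measurableSet
    have h1 : ∫⁻ z in S \ {z | D W z M ≤ r}, F z ≤
        ENNReal.ofReal (64 * n * (r ^ (l + 2)) ^ 2) := by
      have h := int_amgm W hM (by omega) hr (hSm.diff hE)
        (fun z => (T W (2 * M) (l + 1) z / r ^ (l + 1)) ^ 2) ((r ^ (l + 1)) ^ 2) (by positivity) ?_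
      · convert h using 2
        · funext z
          rw [hF]
          field_simp
        · push_cast
          field_simp
          ring
      · rintro z ⟨hz, hz2⟩
        have a1 : r < D W z M := not_le.mp hz2
        have a2 : r ^ (l + 1) ≤ T W (2 * M) (l + 1) z := by
          have := prod_le_prod (s := range (l + 1)) (f := fun _ => r)
            (g := fun k => D W z ((k + 1) * (2 * M))) (fun _ _ => hr.le) fun k hk =>
            a1.le.trans (D_mono W z (by nlinarith) (hlt k (mem_range.mp hk)))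
          simpa [T] using this
        have a3 : r ^ M ≤ ∏ k ∈ range M, D W z (M + k) := by
          have := prod_le_prod (s := range M) (f := fun _ => r)
            (g := fun k => D W z (M + k)) (fun _ _ => hr.le) fun k hk =>
            a1.le.trans (D_mono W z (by omega) (by have := mem_range.mp hk; omega))
          simpa using this
        refine ⟨one_le_pow₀ ((one_le_div (by positivity)).mpr a2), ?_⟩
        have a4 : (∏ k ∈ range (2 * M), D W z k) * T W (2 * M) (l + 1) z ^ (2 * M) ≤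
          (r ^ (l + 2)) ^ (2 * M) := hz
        rw [show range (2 * M) = range (M + M) by rw [two_mul], prod_range_add] at a4
        have a5 : 0 ≤ ∏ k ∈ range M, D W z k := prod_nonneg fun _ _ => D_nonneg _ _ _
        have a6 := T_nonneg W (2 * M) (l + 1) z
        rw [← pow_mul, div_pow, ← mul_div_assoc, div_le_iff₀ (by positivity)]
        refine le_of_mul_le_mul_left ?_ (show 0 < r ^ M by positivity)
        calc _ = (∏ k ∈ range M, D W z k) * r ^ M * T W (2 * M) (l + 1) z ^ (2 * M) := by ring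
          _ ≤ _ := by gcongr
          _ ≤ _ := a4
          _ = _ := by ring
    have h2 : ∀ c : ℂ, ∫⁻ z in S ∩ Metric.closedBall c r, F z ≤
        ENNReal.ofReal ((9 ^ (l + 1) * 4 + 16 * C) * (r ^ (l + 2)) ^ 2) := by
      intro c
      have hSB := hSm.inter (Metric.isClosed_closedBall (x := c) (ε := r)).measurableSet
      set τ := D W c ((l + 1) * (2 * M)) with hτ
      by_cases hc : τ ≤ 2 * r
      · refine le_trans (setLIntegral_mono' (g := fun _ => ENNReal.ofReal (((3 * r) ^ (l + 1)) ^ 2))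
          hSB fun z hz => ENNReal.ofReal_le_ofReal ?_) ?_
        · have := prod_le_prod (s := range (l + 1)) (g := fun _ => 3 * r)
            (f := fun k => D W z ((k + 1) * (2 * M))) (fun _ _ => D_nonneg _ _ _) fun k hk => by
              have b1 := D_lip W z c ((l + 1) * (2 * M))
              have b2 := D_mono W z (show (k + 1) * (2 * M) ≤ (l + 1) * (2 * M) from
                Nat.mul_le_mul_right _ (mem_range.mp hk)) (hlt l (by omega))
              have b3 : ‖z - c‖ ≤ r := by simpa [dist_eq_norm] using hz.2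
              linarith
          rw [prod_const, card_range] at this
          exact pow_le_pow_left₀ (T_nonneg _ _ _ _) this 2
        · rw [setLIntegral_const]
          refine (mul_le_mul_right (measure_mono Set.inter_subset_right) _).trans ?_
          rw [Complex.volume_closedBall, ← ENNReal.ofReal_pow hr.le, ← ENNReal.ofReal_coe_nnreal,
            ← ENNReal.ofReal_mul (by positivity), ← ENNReal.ofReal_mul (by positivity)]
          refine ENNReal.ofReal_le_ofReal ?_
          calc _ = 9 ^ (l + 1) * Real.pi * (r ^ (l + 2)) ^ 2 := by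
                rw [NNReal.coe_real_pi, show (9 : ℝ) = 3 * 3 by norm_num, mul_pow (3 : ℝ) 3]
                ring
            _ ≤ _ := by
              gcongr
              nlinarith [Real.pi_le_four, show (0 : ℝ) < 9 ^ (l + 1) by positivity]
      · have hτ0 : 0 < τ := by linarith
        have hb : ∀ z ∈ Metric.closedBall c r, τ / 2 ≤ D W z ((l + 1) * (2 * M)) ∧
            D W z ((l + 1) * (2 * M)) ≤ 2 * τ := by
          intro z hz
          have b1 := D_lip W z c ((l + 1) * (2 * M))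
          have b2 := D_lip W c z ((l + 1) * (2 * M))
          have b3 : ‖z - c‖ ≤ r := by simpa [dist_eq_norm] using hz
          rw [norm_sub_rev] at b2
          constructor <;> linarith
        have hsub : S ∩ Metric.closedBall c r ⊆ A W (2 * M) l (2 * r ^ (l + 2) / τ) := by
          rintro z ⟨hz, hz2⟩
          have a4 : (∏ k ∈ range (2 * M), D W z k) * T W (2 * M) (l + 1) z ^ (2 * M) ≤
            (r ^ (l + 2)) ^ (2 * M) := hz
          have a5 : 0 ≤ ∏ k ∈ range (2 * M), D W z k := prod_nonneg fun _ _ => D_nonneg _ _ _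
          have a6 := T_nonneg W (2 * M) l z
          have a7 := (hb z hz2).1
          rw [T, prod_range_succ, ← T] at a4
          rw [A, Set.mem_ofPred_eq]
          rw [show 2 * r ^ (l + 2) / τ = r ^ (l + 2) / (τ / 2) by field_simp, div_pow,
            le_div_iff₀ (by positivity), mul_assoc, ← mul_pow]
          refine le_trans ?_ a4
          gcongr
        refine le_trans (setLIntegral_mono' (g := fun z => ENNReal.ofReal ((2 * τ) ^ 2) *
          ENNReal.ofReal (T W (2 * M) l z ^ 2)) hSB fun z hz => ?_) ?_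
        · rw [← ENNReal.ofReal_mul (by positivity), hF]
          refine ENNReal.ofReal_le_ofReal ?_
          have a6 := T_nonneg W (2 * M) l z
          have a7 := (hb z hz.2).2
          have a8 := D_nonneg W z ((l + 1) * (2 * M))
          rw [T, prod_range_succ, ← T, mul_pow, mul_comm]
          gcongr
        · rw [lintegral_const_mul' _ _ ENNReal.ofReal_ne_top]
          refine (mul_le_mul_right ((lintegral_mono_set hsub).trans
            (ih M W _ hM (by positivity))) _).trans ?_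
          rw [← ENNReal.ofReal_mul (by positivity)]
          refine ENNReal.ofReal_le_ofReal ?_
          calc _ = 16 * C * (r ^ (l + 2)) ^ 2 := by field_simp; ring
            _ ≤ _ := by
              gcongr
              nlinarith [show (0 : ℝ) < 9 ^ (l + 1) by positivity]
    have h3 : ∫⁻ z in S ∩ {z | D W z M ≤ r}, F z ≤
        ENNReal.ofReal (2 * n * (9 ^ (l + 1) * 4 + 16 * C) * (r ^ (l + 2)) ^ 2) := by
      have hm : ∀ i, Measurable ((S ∩ Metric.closedBall (W i) r).indicator F) := fun i =>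
        hFm.indicator (hSm.inter Metric.isClosed_closedBall.measurableSet)
      refine le_trans (setLIntegral_mono' (g := fun z => ENNReal.ofReal (M : ℝ)⁻¹ *
        ∑ i, (S ∩ Metric.closedBall (W i) r).indicator F z) (hSm.inter hE) fun z hz => ?_)
        ((setLIntegral_le_lintegral _ _).trans ?_)
      · have b1 := (D_le_iff W z (by omega) r).mp hz.2
        have b2 : (M : ENNReal) * F z ≤ ∑ i, (S ∩ Metric.closedBall (W i) r).indicator F z := by
          refine le_trans ?_ (sum_le_sum_of_subset (subset_univ {i | ‖z - W i‖ ≤ r}))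
          rw [sum_congr rfl fun i hi => Set.indicator_of_mem (s := S ∩ Metric.closedBall (W i) r)
            ⟨hz.1, by simpa [dist_eq_norm] using (mem_filter.mp hi).2⟩ F, sum_const, nsmul_eq_mul]
          gcongr
        refine le_trans (le_of_eq ?_) (mul_le_mul_right b2 _)
        rw [← mul_assoc, ← ENNReal.ofReal_natCast, ← ENNReal.ofReal_mul (by positivity),
          inv_mul_cancel₀ hM1.ne', ENNReal.ofReal_one, one_mul]
      · rw [lintegral_const_mul _ (Finset.measurable_sum _ fun i _ => hm i),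
          lintegral_finsetSum _ fun i _ => hm i]
        refine (mul_le_mul_right (sum_le_card_nsmul _ _ _ fun i _ => (lintegral_indicator
          (hSm.inter Metric.isClosed_closedBall.measurableSet) _).trans_le (h2 (W i))) _).trans ?_
        rw [card_univ, Fintype.card_fin, nsmul_eq_mul, ← ENNReal.ofReal_natCast,
          ← ENNReal.ofReal_mul (by positivity), ← ENNReal.ofReal_mul (by positivity)]
        refine ENNReal.ofReal_le_ofReal (le_of_eq ?_)
        push_cast
        field_simp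
    rw [← lintegral_inter_add_sdiff F S hE]
    refine (add_le_add h3 h1).trans ?_
    rw [← ENNReal.ofReal_add (by positivity) (by positivity)]
    exact ENNReal.ofReal_le_ofReal (le_of_eq (by ring))

lemma greedy (W : Fin m → ℂ) {N : ℕ} (l : ℕ) : ∀ I : Finset (Fin m), #I = (l + 1) * N →
    ∃ a : Fin l → ℂ, ∀ (z : ℂ) (τ : Fin l → ℝ),
      (∀ k : Fin l, (k + 1) * N < #{i ∈ I | ‖z - W i‖ ≤ τ k}) →
      ∏ k, ‖z - a k‖ ≤ 3 ^ l * ∏ k, τ k := by
  induction l with
  | zero => exact fun I _ => ⟨fun k => k.elim0, fun z τ _ => by simp⟩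
  | succ l ih =>
    intro I hI
    set R := (I ×ˢ I).filter fun p => N < #{i ∈ I | ‖W p.1 - W i‖ ≤ ‖W p.1 - W p.2‖} with hR
    have key : ∀ (z : ℂ) (t : ℝ), N < #{i ∈ I | ‖z - W i‖ ≤ t} →
        0 ≤ t ∧ ∃ p ∈ R, ‖W p.1 - W p.2‖ ≤ 2 * t := by
      intro z t h
      have hne : (I.filter fun i => ‖z - W i‖ ≤ t).Nonempty := card_pos.mp (by omega)
      obtain ⟨i, hi⟩ := hne
      obtain ⟨j, hj, hj2⟩ := exists_max_image _ (fun j => ‖W i - W j‖) ⟨i, hi⟩
      rw [mem_filter] at hi hj
      refine ⟨(norm_nonneg _).trans hi.2, (i, j), mem_filter.mpr ⟨mem_product.mpr ⟨hi.1, hj.1⟩,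
        h.trans_le (card_le_card fun x hx => mem_filter.mpr ⟨(mem_filter.mp hx).1, hj2 x hx⟩)⟩, ?_⟩
      have := norm_sub_le_norm_sub_add_norm_sub (W i) z (W j)
      rw [norm_sub_rev (W i) z] at this
      linarith [hi.2, hj.2]
    by_cases hR0 : R.Nonempty; swap
    · refine ⟨fun _ => 0, fun z τ h => ?_⟩
      obtain ⟨-, p, hp, -⟩ := key z (τ 0) (by simpa using h 0)
      exact absurd ⟨p, hp⟩ hR0
    obtain ⟨p, hp, hp2⟩ := exists_min_image R (fun p => ‖W p.1 - W p.2‖) hR0
    obtain ⟨J, hJ, hJc⟩ := exists_subset_card_eq (mem_filter.mp hp).2.le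
    have hJI : J ⊆ I := hJ.trans (filter_subset _ _)
    have hc : #(I \ J) = (l + 1) * N := by
      rw [card_sdiff_of_subset hJI, hI, hJc, add_mul (l + 1), one_mul, Nat.add_sub_cancel]
    obtain ⟨a, ha⟩ := ih (I \ J) hc
    refine ⟨Fin.cons (W p.1) a, fun z τ h => ?_⟩
    set ρ := ‖W p.1 - W p.2‖ with hρ
    have miss : ∀ t, t < ‖z - W p.1‖ - ρ →
        {i ∈ I | ‖z - W i‖ ≤ t} ⊆ {i ∈ I \ J | ‖z - W i‖ ≤ t} := by
      intro t ht i hi
      rw [mem_filter] at hi
      refine mem_filter.mpr ⟨mem_sdiff.mpr ⟨hi.1, fun hiJ => ?_⟩, hi.2⟩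
      have b1 := (mem_filter.mp (hJ hiJ)).2
      have b2 := norm_sub_le_norm_sub_add_norm_sub z (W i) (W p.1)
      rw [norm_sub_rev (W i)] at b2
      linarith [hi.2]
    have hex : (univ.filter fun k : Fin (l + 1) => ‖z - W p.1‖ - ρ ≤ τ k).Nonempty := by
      refine ⟨Fin.last l, mem_filter.mpr ⟨mem_univ _, not_lt.mp fun hlt => ?_⟩⟩
      have b1 := (h (Fin.last l)).trans_le ((card_le_card (miss _ hlt)).trans (card_filter_le _ _))
      rw [hc, Fin.val_last] at b1
      omega
    obtain ⟨k0, hk0, hk1⟩ := exists_min_image _ id hex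
    have hτ : ∀ k, 0 ≤ τ k ∧ ρ ≤ 2 * τ k := fun k => by
      obtain ⟨b1, q, hq, b2⟩ := key z (τ k) (lt_of_le_of_lt (by nlinarith) (h k))
      exact ⟨b1, (hp2 q hq).trans b2⟩
    have b1 := ha z (fun k => τ (k0.succAbove k)) fun k => by
      by_cases hk : k.castSucc < k0
      · rw [Fin.succAbove_of_castSucc_lt _ _ hk]
        refine (h k.castSucc).trans_le (card_le_card (miss _ (not_le.mp fun hle => ?_)))
        exact absurd (hk1 _ (mem_filter.mpr ⟨mem_univ _, hle⟩)) (not_le.mpr hk)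
      · rw [Fin.succAbove_of_le_castSucc _ _ (not_lt.mp hk)]
        have c1 := h k.succ
        have c2 : {i ∈ I | ‖z - W i‖ ≤ τ k.succ} ⊆ {i ∈ I \ J | ‖z - W i‖ ≤ τ k.succ} ∪ J := by
          intro i hi
          by_cases hiJ : i ∈ J
          · exact mem_union_right _ hiJ
          · exact mem_union_left _ (mem_filter.mpr ⟨mem_sdiff.mpr ⟨(mem_filter.mp hi).1, hiJ⟩,
              (mem_filter.mp hi).2⟩)
        have c3 := (card_le_card c2).trans (card_union_le _ _)
        rw [Fin.val_succ, add_mul _ 1, one_mul] at c1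
        omega
    rw [Fin.prod_univ_succ, Fin.prod_univ_succAbove τ k0, Fin.cons_zero, pow_succ']
    simp only [Fin.cons_succ]
    have b2 : ‖z - W p.1‖ ≤ 3 * τ k0 := by linarith [(mem_filter.mp hk0).2, (hτ k0).2]
    refine (mul_le_mul b2 b1 (prod_nonneg fun _ _ => norm_nonneg _)
      (by linarith [(hτ k0).1])).trans (le_of_eq (by ring))

lemma prod_ge (W : Fin m → ℂ) (z : ℂ) (N l : ℕ) (h : (l + 1) * N ≤ m) :
    (∏ k ∈ range N, D W z k) * T W N l z ^ N ≤ ∏ k ∈ range ((l + 1) * N), D W z k := by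
  induction l with
  | zero => simp [T]
  | succ l ih =>
    rw [add_mul (l + 1), one_mul] at h ⊢
    rw [prod_range_add, T, prod_range_succ, ← T, mul_pow, ← mul_assoc]
    refine mul_le_mul (ih (by omega)) ?_ (pow_nonneg (D_nonneg _ _ _) _)
      (prod_nonneg fun _ _ => D_nonneg _ _ _)
    have := prod_le_prod (s := range N) (f := fun _ => D W z ((l + 1) * N))
      (g := fun k => D W z ((l + 1) * N + k)) (fun _ _ => D_nonneg _ _ _) fun k hk =>
      D_mono W z (by omega) (by have := mem_range.mp hk; omega)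
    simpa using this

theorem lemniscate (l : ℕ) : ∃ C : ℝ, 0 < C ∧ ∀ (M : ℕ) (W : Fin ((l + 1) * (2 * M)) → ℂ) (Λ : ℝ)
    (K : Set ℂ), 0 < M → 0 < Λ → (∀ z ∈ K, ∏ i, ‖z - W i‖ ≤ Λ ^ (2 * M)) → ∃ a : Fin l → ℂ,
      ∫⁻ z in K, ENNReal.ofReal ((∏ k, ‖z - a k‖) ^ 2) ≤ ENNReal.ofReal (C * Λ ^ 2) := by
  obtain ⟨C, hC, h⟩ := main (l + 1) l (by omega)
  refine ⟨(3 ^ l) ^ 2 * C, by positivity, fun M W Λ K hM hΛ hK => ?_⟩
  obtain ⟨a, ha⟩ := greedy W (N := 2 * M) l univ (by simp)
  refine ⟨a, (lintegral_mono_set (t := A W (2 * M) l Λ) fun z hz => ?_).trans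
    ((lintegral_mono (g := fun z => ENNReal.ofReal ((3 ^ l) ^ 2) *
      ENNReal.ofReal (T W (2 * M) l z ^ 2)) fun z => ?_).trans ?_)⟩
  · exact (prod_ge W z _ l le_rfl).trans ((D_prod W z).trans_le (hK z hz))
  · simp only
    rw [← ENNReal.ofReal_mul (by positivity), ← mul_pow]
    refine ENNReal.ofReal_le_ofReal (pow_le_pow_left₀ (prod_nonneg fun _ _ => norm_nonneg _) ?_ 2)
    rw [T, ← Fin.prod_univ_eq_prod_range (fun k => D W z ((k + 1) * (2 * M)))]
    exact ha z _ fun k => (D_le_iff W z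
      (Nat.mul_lt_mul_of_pos_right (by omega) (by omega)) _).mp le_rfl
  · rw [lintegral_const_mul' _ _ ENNReal.ofReal_ne_top, mul_assoc,
      ENNReal.ofReal_mul (p := (3 ^ l) ^ 2) (by positivity)]
    exact mul_le_mul_right (h M W Λ hM hΛ) _

end Pool.Agent.H62.Cap
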