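import Pool.Agent.H62.Pk4

/-!
Comparison of trees by simulations and the reduction property of coanalytic sets.
-/

set_option autoImplicit false

namespace Pool.Agent.H62.Pk

open Pool.Agent.H37 Encodable Filter Topology MeasureTheory

def Sim (T T' : Set (List ℕ)) (a b : List ℕ) : Prop :=
  ∃ Z : List ℕ → List ℕ → Prop, Z a b ∧ ∀ a b, Z a b → ∀ i, a ++ [i] ∈ T →
    ∃ j, b ++ [j] ∈ T' ∧ Z (a ++ [i]) (b ++ [j])

variable {T T' T'' : Set (List ℕ)} {a b c : List ℕ}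

theorem Sim.step (h : Sim T T' a b) {i : ℕ} (hi : a ++ [i] ∈ T) :
    ∃ j, b ++ [j] ∈ T' ∧ Sim T T' (a ++ [i]) (b ++ [j]) := by
  obtain ⟨Z, h1, h2⟩ := h
  obtain ⟨j, h3, h4⟩ := h2 a b h1 i hi
  exact ⟨j, h3, Z, h4, h2⟩

theorem Sim.intro (h : ∀ i, a ++ [i] ∈ T → ∃ j, b ++ [j] ∈ T' ∧ Sim T T' (a ++ [i]) (b ++ [j])) :
    Sim T T' a b := by
  refine ⟨fun x y => (x = a ∧ y = b) ∨ Sim T T' x y, Or.inl ⟨rfl, rfl⟩, ?_⟩
  rintro x y (⟨rfl, rfl⟩ | h') i hi
  · exact (h i hi).imp fun j h => ⟨h.1, Or.inr h.2⟩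
  · exact (h'.step hi).imp fun j h => ⟨h.1, Or.inr h.2⟩

theorem Sim.cmp (h : ¬ Sim T T' a b) : ∃ i, a ++ [i] ∈ T ∧ Sim T' T b (a ++ [i]) := by
  have key : ∀ a b, ¬ Sim T T' a b → ∃ i, a ++ [i] ∈ T ∧ ∀ j, b ++ [j] ∈ T' →
      ¬ Sim T T' (a ++ [i]) (b ++ [j]) := fun a b h => by
    by_contra hn
    push Not at hn
    exact h (Sim.intro hn)
  obtain ⟨i, h1, h2⟩ := key a b h
  exact ⟨i, h1, fun y x => ∀ j, y ++ [j] ∈ T' → ¬ Sim T T' x (y ++ [j]), h2,
    fun y x h j hj => key _ _ (h j hj)⟩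

theorem Sim.up {j : ℕ} (hj : b ++ [j] ∈ T') (h : Sim T T' a (b ++ [j])) : Sim T T' a b :=
  ⟨fun x y => ∃ j, y ++ [j] ∈ T' ∧ Sim T T' x (y ++ [j]), ⟨j, hj, h⟩,
    fun _ _ ⟨j, hj, h⟩ _ hi => ⟨j, hj, h.step hi⟩⟩

theorem Sim.trans (h : Sim T T' a b) (h' : Sim T' T'' b c) : Sim T T'' a c := by
  refine ⟨fun x z => ∃ y, Sim T T' x y ∧ Sim T' T'' y z, ⟨b, h, h'⟩, ?_⟩
  rintro x z ⟨y, h1, h2⟩ i hi
  obtain ⟨j, h3, h4⟩ := h1.step hi
  obtain ⟨k, h5, h6⟩ := h2.step h3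
  exact ⟨k, h5, _, h4, h6⟩

theorem Sim.inf {i : ℕ} (hi : a ++ [i] ∈ T) (h : Sim T T a (a ++ [i])) :
    Sim Set.univ T [] a :=
  ⟨fun _ c => ∃ j, c ++ [j] ∈ T ∧ Sim T T c (c ++ [j]), ⟨i, hi, h⟩,
    fun _ _ ⟨j, hj, h⟩ _ _ => ⟨j, hj, h.step hj⟩⟩

theorem Sim.path (h : Sim Set.univ T [] a) : ∃ x : Baire, pre x a.length = a ∧
    ∀ n, a.length < n → pre x n ∈ T := by
  have : ∀ u : {u : List ℕ × List ℕ // Sim Set.univ T u.1 u.2},
      ∃ v : {u : List ℕ × List ℕ // Sim Set.univ T u.1 u.2}, ∃ j, v.1.2 = u.1.2 ++ [j] ∧ v.1.2 ∈ T :=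
    fun u => by
      obtain ⟨j, h1, h2⟩ := u.2.step (i := 0) trivial
      exact ⟨⟨(_, _), h2⟩, j, rfl, h1⟩
  choose g j h1 h2 using this
  let F : ℕ → List ℕ := fun n => (g^[n] ⟨([], a), h⟩).1.2
  have e : ∀ n, F (n + 1) = F n ++ [j (g^[n] ⟨([], a), h⟩)] := fun n => by
    simp only [F, Function.iterate_succ_apply', h1]
  have l : ∀ n, (F n).length = a.length + n := fun n => by
    induction n with
    | zero => rfl
    | succ n ih => rw [e]; simp [ih, add_assoc]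
  obtain ⟨x, hx⟩ := chain_lim 0 (F := F) (fun m => by rw [e]; exact List.prefix_append _ _)
    fun m => by rw [l]; omega
  refine ⟨x, hx 0, fun n hn => ?_⟩
  obtain ⟨m, rfl⟩ : ∃ m, n = a.length + (m + 1) := ⟨n - a.length - 1, by omega⟩
  rw [← l, hx]
  simp only [F, Function.iterate_succ_apply']
  exact h2 _

theorem Sim.of_path {x : Baire} {k : ℕ} (h : ∀ n, k < n → pre x n ∈ T) : Sim T' T b (pre x k) :=
  ⟨fun _ c => ∃ n, k ≤ n ∧ c = pre x n, ⟨k, le_rfl, rfl⟩, by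
    rintro _ _ ⟨n, hn, rfl⟩ i -
    exact ⟨x n, by rw [← pre_succ]; exact h _ (by omega), n + 1, by omega, by rw [pre_succ]⟩⟩

def An (P : Baire → Prop) : Prop := AnalyticSet {p | P p}

theorem An.of_meas {P : Baire → Prop} (h : Measurable P) : An P :=
  (measurableSet_setOf.2 h).analyticSet

theorem An.all {ι : Type} [Countable ι] [Nonempty ι] {P : ι → Baire → Prop} (h : ∀ i, An (P i)) :
    An fun p => ∀ i, P i p := by
  simpa [An, Set.setOf_forall] using AnalyticSet.iInter h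

theorem An.ex {ι : Type} [Countable ι] {P : ι → Baire → Prop} (h : ∀ i, An (P i)) :
    An fun p => ∃ i, P i p := by
  simpa [An, Set.setOf_exists] using AnalyticSet.iUnion h

theorem An.congr {P Q : Baire → Prop} (h : An P) (e : ∀ p, P p ↔ Q p) : An Q := by
  rwa [show Q = P from funext fun p => propext (e p).symm]

theorem An.or {P Q : Baire → Prop} (h : An P) (h' : An Q) : An fun p => P p ∨ Q p :=
  (An.ex (P := fun b p => cond b (P p) (Q p)) fun b => by cases b; exacts [h', h]).congr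
    fun p => by simp [or_comm]

theorem An.and {P Q : Baire → Prop} (h : An P) (h' : An Q) : An fun p => P p ∧ Q p :=
  (An.all (P := fun b p => cond b (P p) (Q p)) fun b => by cases b; exacts [h', h]).congr
    fun p => by simp [and_comm]

theorem An.const (Q : Prop) : An fun _ => Q := An.of_meas measurable_const

theorem An.exS {ι : Type} [Countable ι] {P : Baire → (ι → Prop) → Prop}
    (h : Measurable fun q : Baire × (ι → ℕ) => P q.1 fun i => q.2 i = 1) :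
    An fun p => ∃ Z, P p Z := by
  classical
  refine An.congr (P := fun p => p ∈ Prod.fst '' {q : Baire × (ι → ℕ) |
    P q.1 fun i => q.2 i = 1}) ((measurableSet_setOf.2 h).analyticSet.image_of_continuous
    continuous_fst) fun p => ⟨fun ⟨q, h1, h2⟩ => ⟨fun i => q.2 i = 1, by rw [← h2]; exact h1⟩, fun ⟨Z, h⟩ =>
      ⟨(p, fun i => if Z i then 1 else 0), by simpa using h, rfl⟩⟩

theorem An.sim {S S' : Baire → Set (List ℕ)} (h : ∀ σ, Measurable fun p => σ ∈ S p)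
    (h' : ∀ σ, Measurable fun p => σ ∈ S' p) (a b : List ℕ) :
    An fun p => Sim (S p) (S' p) a b := by
  refine (An.exS (ι := List ℕ × List ℕ) (P := fun p Z => Z (a, b) ∧ ∀ a b, Z (a, b) →
    ∀ i, a ++ [i] ∈ S p → ∃ j, b ++ [j] ∈ S' p ∧ Z (a ++ [i], b ++ [j])) ?_).congr
    fun p => ⟨fun ⟨Z, h⟩ => ⟨fun a b => Z (a, b), h⟩, fun ⟨Z, h⟩ => ⟨fun u => Z u.1 u.2, h⟩⟩
  have m : ∀ u : List ℕ × List ℕ, Measurable fun q : Baire × (List ℕ × List ℕ → ℕ) =>
      q.2 u = 1 := fun u => by measurability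
  exact (m _).and (.forall fun a => .forall fun b => (m _).imp (.forall fun i =>
    ((h _).comp measurable_fst).imp (.exists fun j => ((h' _).comp measurable_fst).and (m _))))

theorem An.closed {P : Baire → Prop} (h : An P) : ∃ C : Set (Baire × Baire), IsClosed C ∧
    ∀ p, P p ↔ ∃ w, (p, w) ∈ C := by
  rw [An, AnalyticSet] at h
  rcases h with h | ⟨g, h1, h2⟩
  · exact ⟨∅, isClosed_empty, fun p => by simpa using Set.ext_iff.1 h p⟩
  · exact ⟨{q | g q.2 = q.1}, isClosed_eq (by fun_prop) (by fun_prop),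
      fun p => (Set.ext_iff.1 h2 p).symm⟩

theorem closed_lim {C : Set (Baire × Baire)} (hC : IsClosed C) {p w : Baire}
    (h : ∀ n, ∃ q ∈ C, pre q.1 n = pre p n ∧ pre q.2 n = pre w n) : (p, w) ∈ C := by
  choose q h1 h2 h3 using h
  refine hC.mem_of_tendsto (f := q) (b := atTop) ?_ (Eventually.of_forall h1)
  refine Tendsto.prodMk_nhds (mx := fun n => (q n).1) (my := fun n => (q n).2) ?_ ?_
  · exact tendsto_pi_nhds.2 fun i => tendsto_const_nhds.congr'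
      ((eventually_gt_atTop i).mono fun n hn => (pre_eq_iff.1 (h2 n) i hn).symm)
  · exact tendsto_pi_nhds.2 fun i => tendsto_const_nhds.congr'
      ((eventually_gt_atTop i).mono fun n hn => (pre_eq_iff.1 (h3 n) i hn).symm)

theorem meas_pre {Q : List ℕ → Prop} (n : ℕ) : Measurable fun p : Baire => Q (pre p n) := by
  have : Measurable fun p : Baire => (fun i : Fin n => p i) := by fun_prop
  have e : (fun p : Baire => Q (pre p n)) = (fun u : Fin n → ℕ =>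
      Q (pre (fun i => if h : i < n then u ⟨i, h⟩ else 0) n)) ∘ fun p i => p i :=
    funext fun p => by
      simp only [Function.comp_apply]
      rw [pre_congr (y := fun i => if h : i < n then p i else 0) fun i hi => by simp [hi]]
  rw [e]
  exact (measurable_of_countable _).comp this

theorem An.tree {P : Baire → Prop} (h : An P) : ∃ S : Baire → Set (List ℕ),
    (∀ σ, Measurable fun p => σ ∈ S p) ∧ ∀ p, P p ↔ Sim Set.univ (S p) [] [] := by
  obtain ⟨C, h1, h2⟩ := h.closed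
  refine ⟨fun p => {σ | ∃ q ∈ C, pre q.1 σ.length = pre p σ.length ∧ pre q.2 σ.length = σ},
    fun σ => meas_pre (Q := fun l => ∃ q ∈ C, pre q.1 σ.length = l ∧ pre q.2 σ.length = σ) _,
    fun p => (h2 p).trans ⟨fun ⟨w, hw⟩ => Sim.of_path (x := w) (k := 0) fun n _ =>
      ⟨_, hw, rfl, by simp⟩, fun h => ?_⟩⟩
  obtain ⟨w, -, hw⟩ := h.path
  refine ⟨w, closed_lim h1 fun n => ?_⟩
  obtain ⟨q, a, b, c⟩ := hw (n + 1) (by simp)
  rw [length_pre] at b c
  exact ⟨q, a, pre_congr fun i hi => pre_eq_iff.1 b i (by omega),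
    pre_congr fun i hi => pre_eq_iff.1 c i (by omega)⟩

theorem An.reduce {P Q : Baire → Prop} (h : An P) (h' : An Q) : ∃ P' Q' : Baire → Prop,
    An P' ∧ An Q' ∧ ∀ p, (P' p ∨ Q' p) ∧ (P p → P' p) ∧ (Q p → Q' p) ∧
      (P' p → Q' p → P p ∧ Q p) := by
  obtain ⟨S, a1, a2⟩ := h.tree
  obtain ⟨S', b1, b2⟩ := h'.tree
  refine ⟨fun p => ∃ i, [i] ∈ S p ∧ Sim (S' p) (S p) [] [i], fun p => Sim (S p) (S' p) [] [],
    An.ex fun i => (An.of_meas (a1 _)).and (An.sim b1 a1 _ _), An.sim a1 b1 _ _, fun p =>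
    ⟨or_iff_not_imp_right.2 Sim.cmp, fun h => ?_, fun h => ?_, fun ⟨i, h1, h2⟩ h3 => ?_⟩⟩
  · obtain ⟨x, -, hx⟩ := ((a2 p).1 h).path
    exact ⟨x 0, hx 1 (by simp), Sim.of_path (x := x) (k := 1) fun n hn => hx n (by simp; omega)⟩
  · obtain ⟨x, -, hx⟩ := ((b2 p).1 h).path
    exact Sim.of_path (x := x) (k := 0) hx
  · have := Sim.inf (a := []) h1 (h3.trans h2)
    exact ⟨(a2 p).2 this, (b2 p).2 (this.trans h3)⟩

end Pool.Agent.H62.Pk
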