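import Pool.Agent.H62.PkDefs

/-!
Choice on Baire space and the Cantor-Bendixson problems, with the negative representation.
-/

set_option autoImplicit false

namespace Pool.Agent.H62.Pk

open Classical

/-- negative representation: p lists (entry `encode σ + 1` for the cylinder of σ, entry 0 for
nothing) basic open sets whose union is the complement of A -/
def negRep : Rep (Set Baire) := fun p A =>
  A = {x | ∀ n (σ : List ℕ), p n = Encodable.encode σ + 1 → ini x σ.length ≠ σ}

/-- naturals: c is named by the constant sequence c -/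
def natRep : Rep ℕ := fun u c => ∀ n, u n = c

/-- sequences (b_i, x_i) of a bit and a point -/
def listRep : Rep (ℕ → Bool × Baire) := fun u s =>
  ∀ i, u (Nat.pair i 0) = (s i).1.toNat ∧ ∀ n, u (Nat.pair i (n + 1)) = (s i).2 n

/-- product representation -/
def prodRep {X Y : Type} (RX : Rep X) (RY : Rep Y) : Rep (X × Y) := fun u z =>
  ∃ p q, u = pr p q ∧ RX p z.1 ∧ RY q z.2

/-- closed choice on Baire space: any point of A -/
def CN (A : Set Baire) : Set Baire := A

/-- the perfect kernel -/
def kern (A : Set Baire) : Set Baire := ⋃₀ {P | Perfect P ∧ P ⊆ A}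

def wScList (A : Set Baire) : Set (ℕ → Bool × Baire) :=
  {s | A \ kern A = {x | ∃ i, s i = (true, x)}}

noncomputable def scCount (A : Set Baire) : ℕ :=
  if (A \ kern A).Infinite then 0 else (A \ kern A).ncard + 1

def ScList (A : Set Baire) : Set ((ℕ → Bool × Baire) × ℕ) :=
  {z | z.1 ∈ wScList A ∧ z.2 = scCount A}

def CB (A : Set Baire) : Set (Set Baire × ((ℕ → Bool × Baire) × ℕ)) :=
  {z | z.1 = kern A ∧ z.2 ∈ ScList A}

end Pool.Agent.H62.Pk
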