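import Pool.Agent.H62.Cbs1
import Pool.Agent.H62.CbsDefs

/-!
Finite pieces of solutions of the Cantor-Bendixson problem form a coanalytic set.
-/

set_option autoImplicit false

namespace Pool.Agent.H62.Pk

open Pool.Agent.H37 Encodable Filter Topology MeasureTheory

def UT (Φ : Fnl) (p : Baire) : Set (List ℕ) :=
  {σ | ∀ τ, τ <+: σ → ∀ n k, Φ.toFun (pre p k) n ≠ some (encode τ + 1)}

theorem UT_tree (Φ : Fnl) (p : Baire) : IsTree (UT Φ p) :=
  fun _ _ h h' τ a => h' τ (a.trans h)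

theorem UT_meas (Φ : Fnl) (σ : List ℕ) : Measurable fun p => σ ∈ UT Φ p :=
  .forall fun τ => measurable_const.imp (.forall fun n => .forall fun k =>
    meas_pre (Q := fun l => Φ.toFun l n ≠ some (encode τ + 1)) k)

theorem UT_body {Φ : Fnl} {p p' : Baire} {A : Set Baire} (h : Φ.Ev p p') (hA : negRep p' A) :
    body (UT Φ p) = A := by
  rw [hA]
  ext x
  constructor
  · intro hx n σ e e'
    obtain ⟨k, hk⟩ := h n
    exact hx σ.length σ (by rw [e']) n k (e ▸ hk)
  · intro hx m τ a n k e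
    exact hx n τ (h.sound e).symm (pf_pre a).symm

theorem An.pk {S : Baire → Set (List ℕ)} (h : ∀ σ, Measurable fun p => σ ∈ S p)
    (ht : ∀ p, IsTree (S p)) (σ : List ℕ) : An fun p => σ ∈ pk (S p) := by
  refine (An.exS (ι := List ℕ) (P := fun p G => G σ ∧ ∀ σ, G σ → σ ∈ S p ∧ ∃ τ, G τ ∧ ∃ ρ, G ρ ∧
    σ <+: τ ∧ σ <+: ρ ∧ ¬ τ <+: ρ ∧ ¬ ρ <+: τ) ?_).congr fun p =>
    ⟨fun ⟨G, h1, h2⟩ => sub_pk (ht p) (G := {σ | G σ}) h2 h1, fun h =>
      ⟨fun σ => σ ∈ Pk.pk (S p), h, fun σ h => ⟨pk_sub _ h, (pk_perf _).2 σ h⟩⟩⟩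
  have m : ∀ u : List ℕ, Measurable fun q : Baire × (List ℕ → ℕ) =>
      q.2 u = 1 := fun u => by measurability
  exact (m _).and (.forall fun a => (m _).imp (((h _).comp measurable_fst).and
    (.exists fun τ => (m _).and (.exists fun ρ => (m _).and measurable_const))))

def NJ (T : Set (List ℕ)) (σ : List ℕ) : Prop := σ ∈ pk T ∨ ∃ n, ∀ τ,
  ¬ (τ ∈ T ∧ σ <+: τ ∧ τ.length = σ.length + n) ∨
    ∃ τ', (τ' ∈ T ∧ σ <+: τ' ∧ τ'.length = τ.length ∧ τ' ≠ τ) ∧ Sim T T τ τ'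

theorem An.nj {S : Baire → Set (List ℕ)} (h : ∀ σ, Measurable fun p => σ ∈ S p)
    (ht : ∀ p, IsTree (S p)) (σ : List ℕ) : An fun p => NJ (S p) σ :=
  (An.pk h ht σ).or (An.ex fun _ => An.all fun τ => (An.of_meas ((h τ).and measurable_const).not).or
    (An.ex fun τ' => (An.of_meas ((h τ').and measurable_const)).and (An.sim h h _ _)))

variable {T : Set (List ℕ)}

theorem J_path (hT : IsTree T) {σ : List ℕ} (h : ¬ NJ T σ) :
    ∃ x ∈ body T \ body (pk T), pre x σ.length = σ := by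
  simp only [NJ, not_or, not_exists, not_forall, not_not, not_and] at h
  obtain ⟨h0, h⟩ := h
  choose τ h1 h2 using h
  have c : ∀ n, τ n <+: τ (n + 1) := fun n => by
    obtain ⟨π, j, e⟩ : ∃ π j, τ (n + 1) = π ++ [j] := by
      rcases List.eq_nil_or_concat (τ (n + 1)) with e | ⟨π, j, e⟩
      · have := (h1 (n + 1)).2.2
        rw [e] at this
        simp at this
      · exact ⟨π, j, by simpa using e⟩
    have l : π.length = (τ n).length := by
      have := (h1 (n + 1)).2.2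
      rw [e] at this
      rw [(h1 n).2.2]
      simp at this
      omega
    have e2 : π <+: τ (n + 1) := e ▸ List.prefix_append _ _
    by_contra hn
    have ne : π ≠ τ n := fun e' => hn (e' ▸ e2)
    refine h2 n π ⟨hT _ _ e2 (h1 _).1, List.prefix_of_prefix_length_le (h1 _).2.1 e2
      (by rw [l, (h1 n).2.2]; omega), l, ne⟩ (Sim.intro fun i hi => ⟨j, e ▸ (h1 _).1, ?_⟩)
    rw [← e]
    obtain ⟨i', a, b⟩ := Sim.cmp (h2 (n + 1) (τ n ++ [i]) ⟨hi,
      (h1 n).2.1.trans (List.prefix_append _ _), by simp [e, l],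
      fun e' => hn (e' ▸ List.prefix_append _ _)⟩)
    exact b.up a
  obtain ⟨x, hx⟩ := chain_lim 0 c fun m => by rw [(h1 m).2.2]; omega
  have e : pre x σ.length = σ := by
    have := hx 0
    rwa [← (h1 0).2.1.eq_of_length (h1 0).2.2.symm] at this
  refine ⟨x, ⟨fun n => hT _ _ ?_ (h1 n).1, fun h => h0 (e ▸ h _)⟩, e⟩
  rw [← hx n]
  exact pre_pf _ (by rw [(h1 n).2.2]; omega)

theorem iso_J (hT : IsTree T) {x : Baire} {k : ℕ} (hx : x ∈ body T)
    (h : ∀ y ∈ body T, pre y k = pre x k → y = x) : ¬ NJ T (pre x k) := by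
  rintro (h0 | ⟨n, hn⟩)
  · obtain ⟨y, a, b⟩ := (pk_perf T).path h0
    rw [length_pre] at b
    obtain ⟨z, c, d, e⟩ := (pk_perf T).near a k
    exact e ((h z (fun n => pk_sub _ (c n)) (d.trans b)).trans
      (h y (fun n => pk_sub _ (a n)) b).symm)
  rcases hn (pre x (k + n)) with h1 | ⟨τ, ⟨a, b, c, d⟩, e⟩
  · exact h1 ⟨hx _, pre_pf _ (by omega), by simp⟩
  obtain ⟨y, f, g⟩ := ((Sim.of_path fun n _ => hx n).trans e).path
  have : y = x := h y (fun m => hT _ _ (pre_pf y (show m ≤ τ.length + m + 1 by omega))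
    (g _ (by omega))) (by
      have := pf_pre (f ▸ b)
      rw [length_pre] at this
      exact this.symm)
  rw [this, c, length_pre] at f
  exact d f.symm

theorem scat_iso (hT : IsTree T) {x : Baire} (hx : x ∈ body T \ body (pk T)) (m : ℕ) :
    ∃ y k, m ≤ k ∧ y ∈ body T ∧ pre y m = pre x m ∧ ∀ z ∈ body T, pre z k = pre y k → z = y := by
  by_contra hn
  push Not at hn
  refine hx.2 fun n => (pk_perf T).1 _ _ (pre_pf x (show n ≤ m + n by omega)) (sub_pk hT
    (G := {σ | ∃ y ∈ body T, pre y m = pre x m ∧ ∃ k, m ≤ k ∧ σ = pre y k}) ?_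
    ⟨x, hx.1, rfl, _, by omega, rfl⟩)
  rintro _ ⟨y, a, b, k, c, rfl⟩
  obtain ⟨z, d, e, f⟩ := hn y k c a b
  obtain ⟨i, hi⟩ := Function.ne_iff.1 f
  have g : pre z (k + i + 1) ≠ pre y (k + i + 1) := fun h => hi (pre_eq_iff.1 h i (by omega))
  refine ⟨a _, _, ⟨y, a, b, k + i + 1, by omega, rfl⟩, _, ⟨z, d, ?_, k + i + 1, by omega, rfl⟩,
    pre_pf _ (by omega), e ▸ pre_pf _ (by omega), fun h => g (h.eq_of_length (by simp)).symm,
    fun h => g (h.eq_of_length (by simp))⟩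
  rw [← b]
  exact pre_congr fun j hj => pre_eq_iff.1 e j (by omega)

def Bad (T : Set (List ℕ)) (c : ℕ) (ρ : List ℕ) : Prop :=
  (∃ j σ, (j < ρ.length ∧ (ρ.getD j 0).unpair.1 = encode σ + 1) ∧ σ ∈ pk T) ∨
  (∃ j < ρ.length, (ρ.getD j 0).unpair.2.unpair.2 ≠ c) ∨
  ∃ i, (Nat.pair i 0 < ρ.length ∧ (ρ.getD (Nat.pair i 0) 0).unpair.2.unpair.1 ≠ 0) ∧
    ∀ σ : List ℕ, ¬ ((ρ.getD (Nat.pair i 0) 0).unpair.2.unpair.1 = 1 ∧
      ∀ n, Nat.pair i (n + 1) < ρ.length → n < σ.length ∧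
      σ.getD n 0 = (ρ.getD (Nat.pair i (n + 1)) 0).unpair.2.unpair.1) ∨ NJ T σ

theorem An.bad {S : Baire → Set (List ℕ)} (h : ∀ σ, Measurable fun p => σ ∈ S p)
    (ht : ∀ p, IsTree (S p)) (c : ℕ) (ρ : List ℕ) : An fun p => Bad (S p) c ρ :=
  (An.ex fun _ => An.ex fun σ => (An.const _).and (An.pk h ht σ)).or ((An.const _).or
    (An.ex fun _ => (An.const _).and (An.all fun σ => (An.const _).or (An.nj h ht σ))))

abbrev cbRep := prodRep negRep (prodRep listRep natRep)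

theorem sol_good (hT : IsTree T) {u : Baire} {z : Set Baire × ((ℕ → Bool × Baire) × ℕ)}
    (hu : cbRep u z) (hz : z ∈ CB (body T)) (k : ℕ) : ¬ Bad T (scCount (body T)) (pre u k) := by
  obtain ⟨q, _, rfl, h1, l, c, rfl, h2, h3⟩ := hu
  obtain ⟨h4, h5, h6⟩ := hz
  have h7 : kern (body T) = body (pk T) := kernel_eq hT
  rw [wScList, Set.mem_ofPred_eq, h7] at h5
  rw [h7] at h4
  simp only [Bad, length_pre]
  rintro (⟨j, σ, ⟨a, b⟩, d⟩ | ⟨j, a, b⟩ | ⟨i, ⟨a, b⟩, d⟩)
  · rw [getD_pre _ a] at b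
    obtain ⟨y, e, f⟩ := (pk_perf T).path d
    rw [← h4, h1] at e
    exact e j σ (by simpa [pr] using b) f
  · rw [getD_pre _ a] at b
    exact b (by simp [pr, h3 j, h6])
  · rw [getD_pre _ a] at b d
    simp only [pr, Nat.unpair_pair, (h2 i).1] at b d
    have e : (z.2.1 i).1 = true := by
      cases h : (z.2.1 i).1
      · simp [h] at b
      · rfl
    obtain ⟨y, k', f1, f2, f3, f4⟩ := scat_iso hT (x := (z.2.1 i).2)
      (h5 ▸ ⟨i, by rw [← e]⟩) k
    refine (d (pre y k')).elim (fun h => h ⟨by simp [e], fun n hn => ?_⟩) (iso_J hT f2 f4)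
    have := Nat.right_le_pair i (n + 1)
    rw [length_pre, getD_pre _ hn, getD_pre _ (by omega), pre_eq_iff.1 f3 n (by omega)]
    exact ⟨by omega, by simp [pr, (h2 i).2 n]⟩

theorem closed_body (T : Set (List ℕ)) : IsClosed (body T) := by
  rw [← isOpen_compl_iff, isOpen_iff_mem_nhds]
  intro x hx
  obtain ⟨n, hn⟩ := not_forall.1 hx
  exact mem_of_superset (cyl_nhds x n) fun y hy h => hn (by rw [ini_eq, ← hy]; exact h n)

theorem good_ext (hT : IsTree T) {ρ : List ℕ} (h : ¬ Bad T (scCount (body T)) ρ) :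
    ∃ u z, cbRep u z ∧ z ∈ CB (body T) ∧ pre u ρ.length = ρ := by
  classical
  have h7 : kern (body T) = body (pk T) := kernel_eq hT
  simp only [Bad, not_or, not_exists, not_and, not_forall, not_not] at h
  obtain ⟨h1, h2, h3⟩ := h
  obtain ⟨e, he⟩ : ∃ e : ℕ → Bool × Baire,
      body T \ body (pk T) = {x | ∃ i, e i = (true, x)} := by
    obtain ⟨V, D, a, b, c⟩ := exists_countable_union_perfect_of_isClosed (closed_body T)
    have d : (body T \ body (pk T)).Countable := a.mono fun x hx => (c ▸ hx.1 :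
      x ∈ V ∪ D).resolve_right fun h => hx.2 (h7 ▸ ⟨D, ⟨b, c ▸ Set.subset_union_right⟩, h⟩)
    rcases (body T \ body (pk T)).eq_empty_or_nonempty with f | f
    · exact ⟨fun _ => (false, 0), by simp [f]⟩
    · obtain ⟨g, hg⟩ := d.exists_eq_range f
      exact ⟨fun i => (true, g i), by rw [hg]; ext; simp⟩
  have : ∀ i, ∃ t : Bool × Baire, (t.1 = true → t.2 ∈ body T \ body (pk T)) ∧
      (Nat.pair i 0 < ρ.length → (ρ.getD (Nat.pair i 0) 0).unpair.2.unpair.1 = t.1.toNat) ∧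
      (∀ n, Nat.pair i (n + 1) < ρ.length →
        (ρ.getD (Nat.pair i (n + 1)) 0).unpair.2.unpair.1 = t.2 n) ∧
      (ρ.length ≤ i → t = e (i - ρ.length)) := fun i => by
    by_cases a : ρ.length ≤ i
    · refine ⟨e (i - ρ.length), fun h => he ▸ ⟨_, by rw [← h]⟩, fun h => ?_, fun n h => ?_,
        fun _ => rfl⟩
      · have := Nat.left_le_pair i 0; omega
      · have := Nat.left_le_pair i (n + 1); omega
    by_cases b : Nat.pair i 0 < ρ.length ∧ (ρ.getD (Nat.pair i 0) 0).unpair.2.unpair.1 ≠ 0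
    · obtain ⟨σ, ⟨c, d⟩, f⟩ := h3 i b
      obtain ⟨x, g1, g2⟩ := J_path hT f
      refine ⟨(true, x), fun _ => g1, fun _ => c, fun n hn => ?_, fun h => absurd h a⟩
      rw [← (d n hn).2, ← g2, getD_pre _ (d n hn).1]
    · exact ⟨(false, fun n => (ρ.getD (Nat.pair i (n + 1)) 0).unpair.2.unpair.1), by simp,
        fun h => by simpa [h] using b, fun _ _ => rfl, fun h => absurd h a⟩
  choose s s1 s2 s3 s4 using this
  refine ⟨_, (body (pk T), s, scCount (body T)), ⟨fun j => if j < ρ.length then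
    (ρ.getD j 0).unpair.1 else if ls (j - ρ.length) ∈ pk T then 0 else j - ρ.length + 1, _, rfl, ?_,
    fun j => if j.unpair.2 = 0 then (s j.unpair.1).1.toNat else (s j.unpair.1).2 (j.unpair.2 - 1),
    fun _ => scCount (body T), rfl, fun i => by simp, fun _ => rfl⟩, ⟨h7.symm, ?_, rfl⟩, ?_⟩
  · ext x
    constructor
    · intro hx n σ a b
      have c : σ ∈ pk T := b ▸ hx _
      beta_reduce at a
      split_ifs at a with d f
      · exact h1 n σ ⟨d, a⟩ c
      · rw [Nat.add_right_cancel a, ls_enc] at f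
        exact f c
    · intro hx n
      by_contra a
      exact hx (ρ.length + encode (ini x n)) (ini x n) (by simp [a]) (by simp [ini_eq])
  · rw [wScList, Set.mem_ofPred_eq, h7]
    refine Set.Subset.antisymm (fun x hx => ?_) fun x ⟨i, hi⟩ => by
      replace hi : s i = (true, x) := hi
      simpa [hi] using s1 i
    obtain ⟨i, hi⟩ := he ▸ hx
    exact ⟨ρ.length + i, (s4 _ (by omega)).trans (by rw [← hi]; simp)⟩
  · conv_rhs => rw [← pre_getD ρ 0]
    refine pre_congr fun j hj => ?_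
    simp only [pr, if_pos hj]
    rw [← h2 j hj]
    have : (if j.unpair.2 = 0 then (s j.unpair.1).1.toNat else (s j.unpair.1).2 (j.unpair.2 - 1)) =
        (ρ.getD j 0).unpair.2.unpair.1 := by
      obtain ⟨⟨i, n⟩, rfl⟩ := Nat.pairEquiv.surjective j
      cases n with
      | zero => simpa using (s2 i hj).symm
      | succ n => simpa using (s3 i n hj).symm
    rw [this, Nat.pair_unpair, Nat.pair_unpair]

end Pool.Agent.H62.Pk
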