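import Pool.Agent.H62.Cbs2

/-!
Choice on Baire space does not reduce to the Cantor-Bendixson problem.
-/

set_option autoImplicit false

namespace Pool.Agent.H62.Pk

open Pool.Agent.H37 Encodable Filter Topology MeasureTheory

theorem fix_neg {E : Set (Baire × Baire)} (hE : IsClosed E) :
    ∃ p, negRep p {y | (p, y) ∈ E} := by
  classical
  let G : List ℕ → ℕ := fun l => if ∃ q ∈ E, pre q.1 l.length = l ∧
    pre q.2 (ls l.length).length = ls l.length then 0 else l.length + 1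
  let L : ℕ → List ℕ := fun n => Nat.rec [] (fun _ l => l ++ [G l]) n
  have e : ∀ n, pre (fun n => G (L n)) n = L n := fun n => by
    induction n with
    | zero => rfl
    | succ n ih => rw [pre_succ, ih]
  obtain ⟨p, hp⟩ : ∃ p : Baire, ∀ n, p n = G (pre p n) := ⟨_, fun n => by rw [e]⟩
  refine ⟨p, Set.ext fun y => ⟨fun h n σ a b => ?_, fun h => closed_lim hE fun n => ?_⟩⟩
  · rw [hp] at a
    simp only [G, length_pre] at a
    split_ifs at a with c
    rw [Nat.add_right_cancel a, ls_enc] at c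
    exact c ⟨_, h, rfl, b⟩
  · have a := hp (encode (pre y n))
    simp only [G, length_pre, ls_enc] at a
    split_ifs at a with c
    · obtain ⟨q, c1, c2, c3⟩ := c
      have := len_le_enc (pre y n)
      rw [length_pre] at this
      exact ⟨q, c1, pre_congr fun i hi => pre_eq_iff.1 c2 i (by omega), c3⟩
    · exact absurd (by simp [ini_eq]) (h _ _ a)

theorem not_CB : ¬ WLe negRep baireRep CN negRep cbRep CB := by
  classical
  rintro ⟨Φ, Ψ, H⟩
  let P : Prop → ℕ → Baire → Prop := fun b c p => ∀ (ρ : List ℕ) (v : ℕ),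
    ¬ (Ψ.toFun (zp (pre p ρ.length) ρ) (Nat.pair c 0) = some v ∧ (v = 0 ↔ b)) ∨ Bad (UT Φ p) c ρ
  have hP : ∀ b c, An (P b c) := fun b c => An.all fun ρ => An.all fun v =>
    (An.of_meas (meas_pre (Q := fun l => ¬ (Ψ.toFun (zp l ρ) (Nat.pair c 0) = some v ∧
      (v = 0 ↔ b))) _)).or (An.bad (UT_meas Φ) (UT_tree Φ) c ρ)
  choose P' Q' a1 a2 a3 using fun c => (hP True c).reduce (hP False c)
  choose C c1 c2 using fun c => (a1 c).closed
  choose D d1 d2 using fun c => (a2 c).closed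
  obtain ⟨p, hp⟩ := fix_neg (E := {q | ∀ c, (q.2 (Nat.pair c 0) = 0 ∧
      (q.1, fun n => q.2 (Nat.pair c (n + 1))) ∈ C c) ∨ (1 ≤ q.2 (Nat.pair c 0) ∧
      (q.1, fun n => q.2 (Nat.pair c (n + 1))) ∈ D c)}) (by
    rw [Set.setOf_forall]
    refine isClosed_iInter fun c => ?_
    have m1 : Continuous fun q : Baire × Baire => q.2 (Nat.pair c 0) := by fun_prop
    have m2 : Continuous fun q : Baire × Baire =>
      ((q.1, fun n => q.2 (Nat.pair c (n + 1))) : Baire × Baire) := by fun_prop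
    exact ((isClosed_eq m1 continuous_const).inter ((c1 c).preimage m2)).union
      ((isClosed_le continuous_const m1).inter ((d1 c).preimage m2)))
  obtain ⟨p', A, h1, h2, -, h3⟩ := H p _ hp (by
    have : ∀ c, ∃ t : ℕ × Baire, (t.1 = 0 ∧ (p, t.2) ∈ C c) ∨ (1 ≤ t.1 ∧ (p, t.2) ∈ D c) :=
      fun c => by
        rcases (a3 c p).1 with h | h
        · obtain ⟨w, hw⟩ := (c2 c p).1 h
          exact ⟨(0, w), Or.inl ⟨rfl, hw⟩⟩
        · obtain ⟨w, hw⟩ := (d2 c p).1 h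
          exact ⟨(1, w), Or.inr ⟨le_rfl, hw⟩⟩
    choose t ht using this
    exact ⟨fun j => if j.unpair.2 = 0 then (t j.unpair.1).1 else (t j.unpair.1).2 (j.unpair.2 - 1),
      fun c => by simpa using ht c⟩)
  obtain rfl := UT_body h1 h2
  set c := scCount (body (UT Φ p))
  have key : ∀ ρ, ¬ Bad (UT Φ p) c ρ → ∃ u r, Ψ.Ev (pr p u) r ∧ pre u ρ.length = ρ ∧
      (∀ k, ¬ Bad (UT Φ p) c (pre u k)) ∧
      (r (Nat.pair c 0) = 0 → P' c p) ∧ (r (Nat.pair c 0) ≠ 0 → Q' c p) := fun ρ h => by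
    obtain ⟨u, z, b1, b2, b3⟩ := good_ext (UT_tree Φ p) h
    obtain ⟨r, _, b4, rfl, b5⟩ := h3 u z b1 b2
    refine ⟨u, r, b4, b3, sol_good (UT_tree Φ p) b1 b2, fun e => ?_, fun e => ?_⟩
    · exact (c2 c p).2 ⟨_, ((b5 c).resolve_right fun h => absurd (e ▸ h.1 : 1 ≤ 0) (by simp)).2⟩
    · exact (d2 c p).2 ⟨_, ((b5 c).resolve_left fun h => e h.1).2⟩
  have k2 : ∀ b, ¬ P b c p → ∃ v, (v = 0 ↔ b) ∧ (v = 0 → P' c p) ∧ (v ≠ 0 → Q' c p) :=
    fun b h => by
      simp only [P, not_forall, not_or, not_not] at h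
      obtain ⟨ρ, v, ⟨e1, e2⟩, e3⟩ := h
      obtain ⟨u, r, b1, b2, -, b3⟩ := key ρ e3
      rw [← b2, length_pre, zp_pre] at e1
      exact ⟨v, e2, b1.sound e1 ▸ b3⟩
  have k3 : P' c p := by
    by_contra h
    obtain ⟨v, e1, e2, -⟩ := k2 True fun h' => h ((a3 c p).2.1 h')
    exact h (e2 (e1.2 trivial))
  have k4 : Q' c p := by
    by_contra h
    obtain ⟨v, e1, -, e2⟩ := k2 False fun h' => h ((a3 c p).2.2.1 h')
    exact h (e2 e1.1)
  obtain ⟨u, r, b1, -, b2, -⟩ := key [] (by simp [Bad])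
  obtain ⟨k, hk⟩ := b1 (Nat.pair c 0)
  obtain ⟨k5, k6⟩ := (a3 c p).2.2.2 k3 k4
  have e : zp (pre p (pre u k).length) (pre u k) = ini (pr p u) k := by
    rw [length_pre, zp_pre, min_self, ini_eq]
  by_cases h : r (Nat.pair c 0) = 0
  · exact (k5 (pre u k) _).elim (fun h' => h' ⟨e ▸ hk, by simp [h]⟩) (b2 k)
  · exact (k6 (pre u k) _).elim (fun h' => h' ⟨e ▸ hk, by simp [h]⟩) (b2 k)

theorem not_ScList : ¬ WLe negRep baireRep CN negRep (prodRep listRep natRep) ScList := by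
  rintro ⟨Φ, Ψ, H⟩
  have m0 : CI ∅ fun v : ℕ => Nat.pair v.unpair.1 v.unpair.2.unpair.2 := by fun_prop
  generalize hg : (fun v : ℕ => Nat.pair v.unpair.1 v.unpair.2.unpair.2) = g at m0
  have m1 : CI ∅ fun q : List ℕ × ℕ => (q.1.map g, q.2) := by fun_prop
  have m2 : Computable fun q : List ℕ × ℕ => Ψ.toFun (q.1.map g) q.2 :=
    CI.computable (Ψ.ci.comp (g := fun q : List ℕ × ℕ => (q.1.map g, q.2)) m1)
  refine not_CB ⟨Φ, ⟨fun σ n => Ψ.toFun (σ.map g) n, m2,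
    fun σ τ n v h => Ψ.mono _ _ n v (h.map _)⟩, fun p x a b => ?_⟩
  obtain ⟨p', A, h1, h2, ⟨z, hz⟩, h3⟩ := H p x a b
  refine ⟨p', A, h1, h2, ⟨(_, z), rfl, hz⟩, ?_⟩
  rintro _ w ⟨q, l, rfl, -, h4⟩ hw
  obtain ⟨r, v, h5, h6⟩ := h3 l w.2 h4 hw.2
  refine ⟨r, v, fun n => (h5 n).imp fun k hk => ?_, h6⟩
  have : (ini (pr p (pr q l)) k).map g = ini (pr p l) k := by
    simp [ini, pr, Function.comp_def, ← hg]
  exact (congrArg (Ψ.toFun · n) this).trans hk

end Pool.Agent.H62.Pk
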