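import Pool.Agent.H62.Riesz

set_option autoImplicit false

namespace Pool.Agent.H62.Cogen

open Complex MeasureTheory Filter Topology Set Pool.Agent.H62.Riesz

variable (μ : Measure (Icc (1 : ℝ) 2)) [IsProbabilityMeasure μ]

/-- continuous functions in the Hilbert space -/
noncomputable def L : C(Icc (1 : ℝ) 2, ℂ) →L[ℂ] Lp ℂ 2 μ := ContinuousMap.toLp 2 μ ℂ

/-- multiplication operators -/
noncomputable def M : C(Icc (1 : ℝ) 2, ℂ) →L[ℂ] Lp ℂ 2 μ →L[ℂ] Lp ℂ 2 μ :=
  ((ContinuousLinearMap.mul ℂ ℂ).holderL μ ⊤ 2 2).comp (ContinuousMap.toLp ⊤ μ ℂ)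

lemma M_ae (f : C(Icc (1 : ℝ) 2, ℂ)) (z : Lp ℂ 2 μ) : M μ f z =ᵐ[μ] fun x => f x * z x := by
  filter_upwards [(ContinuousLinearMap.mul ℂ ℂ).coeFn_holder (r := 2)
    (ContinuousMap.toLp ⊤ μ ℂ f) z, ContinuousMap.coeFn_toLp (p := ⊤) (𝕜 := ℂ) μ f] with x h1 h2
  rw [← h2]
  exact h1

lemma M_one : M μ 1 = 1 := by
  ext z
  filter_upwards [M_ae μ 1 z] with x h
  simpa using h

lemma M_mul (f g : C(Icc (1 : ℝ) 2, ℂ)) : M μ (f * g) = M μ f * M μ g := by
  ext z
  filter_upwards [M_ae μ (f * g) z, M_ae μ f (M μ g z), M_ae μ g z] with x h1 h2 h3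
  rw [h1, mul_apply_eq_comp, h2, h3, ContinuousMap.mul_apply, mul_assoc]

lemma M_L (f g : C(Icc (1 : ℝ) 2, ℂ)) : M μ f (L μ g) = L μ (f * g) := by
  ext
  filter_upwards [M_ae μ f (L μ g), ContinuousMap.coeFn_toLp (p := 2) (𝕜 := ℂ) μ g,
    ContinuousMap.coeFn_toLp (p := 2) (𝕜 := ℂ) μ (f * g)] with x h1 h2 h3
  rw [h1, L, h2, h3, ContinuousMap.mul_apply]

lemma M_norm (f : C(Icc (1 : ℝ) 2, ℂ)) (hf : ∀ x, ‖f x‖ ≤ 1) : ‖M μ f‖ ≤ 1 := by
  refine ContinuousLinearMap.opNorm_le_bound _ zero_le_one fun z => ?_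
  rw [one_mul]
  refine Lp.norm_le_norm_of_ae_le ?_
  filter_upwards [M_ae μ f z] with x h
  rw [h, norm_mul]
  exact mul_le_of_le_one_left (norm_nonneg _) (hf x)

lemma inner_L (f g : C(Icc (1 : ℝ) 2, ℂ)) :
    inner ℂ (L μ f) (L μ g) = ∫ x, g x * (starRingEnd ℂ) (f x) ∂μ := ContinuousMap.inner_toLp μ f g

/-- the symbol of the cogenerator -/
noncomputable def w : C(Icc (1 : ℝ) 2, ℂ) := ⟨fun x => v x, by fun_prop⟩

/-- the symbols of the group -/
noncomputable def E : C(ℝ, C(Icc (1 : ℝ) 2, ℂ)) :=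
  ContinuousMap.curry ⟨fun p : ℝ × Icc (1 : ℝ) 2 => exp (I * (p.2 : ℝ) * p.1), by fun_prop⟩

lemma E_apply (t : ℝ) (x : Icc (1 : ℝ) 2) : E t x = exp (I * (x : ℝ) * t) := rfl

lemma norm_E (t : ℝ) (x : Icc (1 : ℝ) 2) : ‖E t x‖ = 1 := by
  rw [E_apply, norm_exp]
  simp

lemma cogen {H : Type} [NormedAddCommGroup H] [InnerProductSpace ℂ H] [CompleteSpace H]
    (Φ : C(Icc (1 : ℝ) 2, ℂ) →L[ℂ] H →L[ℂ] H) (hΦ : Φ 1 = 1) (z : H) :
    z - (2 : ℂ) • ∫ t in Ioi (0 : ℝ), ((Real.exp (-t) : ℝ) : ℂ) • Φ (E t) z = Φ w z := by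
  have hi : Integrable (fun t : ℝ => ((Real.exp (-t) : ℝ) : ℂ) • E t) (volume.restrict (Ioi 0)) := by
    refine Integrable.mono' (integrableOn_exp_neg_Ioi 0)
      (Continuous.aestronglyMeasurable (by fun_prop)) (Eventually.of_forall fun t => ?_)
    rw [norm_smul, norm_real, Real.norm_eq_abs, abs_of_pos (Real.exp_pos _)]
    exact mul_le_of_le_one_right (Real.exp_pos _).le
      ((ContinuousMap.norm_le _ zero_le_one).mpr fun x => (norm_E t x).le)
  have h1 := (Φ.flip z).integral_comp_comm hi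
  simp only [ContinuousLinearMap.flip_apply, map_smul] at h1
  have h2 : w = 1 - (2 : ℂ) • ∫ t in Ioi (0 : ℝ), ((Real.exp (-t) : ℝ) : ℂ) • E t := by
    ext x
    rw [ContinuousMap.sub_apply, ContinuousMap.smul_apply, ContinuousMap.integral_apply hi]
    have : ∀ t : ℝ, (((Real.exp (-t) : ℝ) : ℂ) • E t) x = exp ((I * (x : ℝ) - 1) * t) := fun t => by
      rw [ContinuousMap.smul_apply, E_apply, smul_eq_mul, ofReal_exp, ← exp_add]
      congr 1
      push_cast
      ring
    simp only [this]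
    rw [integral_exp_mul_complex_Ioi (by simp)]
    have := den_ne x
    simp only [w, v, ContinuousMap.coe_mk, ContinuousMap.one_apply, smul_eq_mul, ofReal_zero,
      mul_zero, exp_zero]
    field_simp
    ring
  rw [h1, h2, map_sub, map_smul, hΦ]
  rfl

lemma closed_lim {X : Type} [NormedAddCommGroup X] (F : ℕ → X → ℂ) (c : ℝ) (hc : 0 ≤ c)
    (h : ∀ n x y, ‖F n x - F n y‖ ≤ c * ‖x - y‖) :
    IsClosed {x | Tendsto (fun n => F n x) atTop (𝓝 0)} :=
  (LipschitzWith.uniformEquicontinuous F ⟨c, hc⟩ fun n => LipschitzWith.of_dist_le_mul fun x y => by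
    rw [dist_eq_norm, dist_eq_norm]
    exact h n x y).equicontinuous.isClosed_setOfPred_tendsto continuous_const

lemma Mw (n : ℕ) (x : Lp ℂ 2 μ) : ‖M μ (w ^ n) x‖ ≤ ‖x‖ := by
  refine ((M μ (w ^ n)).le_opNorm x).trans (mul_le_of_le_one_left (norm_nonneg _)
    (M_norm μ _ fun x => ?_))
  simp [w, norm_v]

lemma closed1 (y : Lp ℂ 2 μ) :
    IsClosed {x | Tendsto (fun n => inner ℂ (M μ (w ^ n) x) y) atTop (𝓝 0)} :=
  closed_lim (fun n x => inner ℂ (M μ (w ^ n) x) y) ‖y‖ (norm_nonneg _) fun n x x' => by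
    rw [← inner_sub_left, ← map_sub, mul_comm]
    exact (norm_inner_le_norm _ _).trans (mul_le_mul_of_nonneg_right (Mw μ _ _) (norm_nonneg _))

lemma closed2 (x : Lp ℂ 2 μ) :
    IsClosed {y | Tendsto (fun n => inner ℂ (M μ (w ^ n) x) y) atTop (𝓝 0)} :=
  closed_lim (fun n y => inner ℂ (M μ (w ^ n) x) y) ‖x‖ (norm_nonneg _) fun n y y' => by
    rw [← inner_sub_right]
    exact (norm_inner_le_norm _ _).trans (mul_le_mul_of_nonneg_right (Mw μ _ _) (norm_nonneg _))

lemma weak (h0 : Tendsto (fun n : ℕ => ∫ x, v x ^ n ∂μ) atTop (𝓝 0)) (x y : Lp ℂ 2 μ) :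
    Tendsto (fun n => inner ℂ (M μ (w ^ n) x) y) atTop (𝓝 0) := by
  set Z : C(Icc (1 : ℝ) 2, ℂ) → Prop :=
    fun g => Tendsto (fun n => inner ℂ (M μ (w ^ n) (L μ g)) (L μ 1)) atTop (𝓝 0) with hZ
  have Z1 : Z 1 := by
    have := (continuous_conj.tendsto 0).comp h0
    simp only [hZ, M_L, inner_L]
    simpa [Function.comp_def, w, ← integral_conj] using this
  have ww : w * star w = 1 := by
    ext x
    simp [w, mul_conj', norm_v]
  have key : ∀ h ∈ StarAlgebra.adjoin ℂ {w}, ∀ g, Z g → Z (h * g) ∧ Z (star h * g) := by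
    intro h hh
    induction hh using StarAlgebra.adjoin_induction with
    | mem h hh =>
      obtain rfl := mem_singleton_iff.mp hh
      intro g hg
      simp only [hZ, M_L] at hg ⊢
      constructor
      · simpa [pow_succ, mul_assoc] using (tendsto_add_atTop_iff_nat 1).mpr hg
      · refine (tendsto_add_atTop_iff_nat 1).mp ?_
        simpa only [pow_succ, mul_assoc, ← mul_assoc w, ww, one_mul] using hg
    | algebraMap r =>
      intro g hg
      simp only [hZ, Algebra.algebraMap_eq_smul_one, star_smul, star_one, smul_mul_assoc, one_mul,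
        map_smul, inner_smul_left] at hg ⊢
      exact ⟨by simpa using hg.const_mul _, by simpa using hg.const_mul _⟩
    | add a b _ _ ha hb =>
      intro g hg
      simp only [hZ, star_add, add_mul, map_add, inner_add_left]
      exact ⟨by simpa using (ha g hg).1.add (hb g hg).1, by simpa using (ha g hg).2.add (hb g hg).2⟩
    | mul a b _ _ ha hb =>
      intro g hg
      rw [star_mul, mul_assoc, mul_assoc]
      exact ⟨(ha _ (hb g hg).1).1, (hb _ (ha g hg).2).2⟩
    | star a _ ha =>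
      intro g hg
      rw [star_star]
      exact (ha g hg).symm
  have top := ContinuousMap.starSubalgebra_topologicalClosure_eq_top_of_separatesPoints
    (StarAlgebra.adjoin ℂ {w}) fun a b hab => ⟨w, ⟨w, StarAlgebra.self_mem_adjoin_singleton ℂ w, rfl⟩,
      fun h => hab (by
        have h1 := (div_eq_div_iff (den_ne a) (den_ne b)).mp h
        have h2 := congrArg im h1
        simp at h2
        exact Subtype.ext (by linarith))⟩
  have all : ∀ g, Z g := fun g => by
    have hg : g ∈ closure (StarAlgebra.adjoin ℂ {w} : Set C(Icc (1 : ℝ) 2, ℂ)) := by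
      rw [← StarSubalgebra.topologicalClosure_coe, top]
      trivial
    exact closure_minimal (t := {g | Z g}) (fun h hh => by simpa using (key h hh 1 Z1).1)
      ((closed1 μ (L μ 1)).preimage (L μ).continuous) hg
  have dn : DenseRange (L μ) := ContinuousMap.toLp_denseRange ℂ μ ℂ (by simp)
  refine dn.induction_on x (closed1 μ y) fun g => dn.induction_on y (closed2 μ _) fun h => ?_
  refine (all (g * star h)).congr fun n => ?_
  simp only [M_L, inner_L]
  congr 1
  ext x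
  simp
  ring

end Pool.Agent.H62.Cogen
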