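import Pool.Agent.H62.ContDefs

open FirstOrder

namespace Pool.Agent.H62.Cont

section general
variable {B : Type} [BooleanAlgebra B]

def Psi (C : B → B → Prop) : Prop := ∀ a b c d, C a b → ∃ a' b' e, a' ⊓ a = a' ∧ b' ⊓ b = b' ∧
  C a' b' ∧ (C c d ∨ ¬ C c a' ∨ ¬ C d a') ∧ (C c a ∨ (¬ C c eᶜ ∧ ¬ C e a'))

theorem IsContact.mono {C : B → B → Prop} (h : IsContact C) {a b b' : B} (hb : b ≤ b')
    (hc : C a b) : C a b' := by
  have := (h.c2 a b b').2 (Or.inl hc)
  rwa [sup_eq_right.2 hb] at this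

theorem reg_of_psi [Countable B] {C : B → B → Prop} (h : IsContact C) (hp : Psi C) : Reg C := by
  intro a b hab
  obtain ⟨en, hen⟩ := exists_surjective_nat ((B × B) × ℕ)
  choose! f g e h1 h2 h3 h4 h5 using hp
  let s : ℕ → B × B := fun n => Nat.rec (a, b)
    (fun n p => (f p.1 p.2 (en n).1.1 (en n).1.2, g p.1 p.2 (en n).1.1 (en n).1.2)) n
  have hs : ∀ n, s (n + 1) = (f (s n).1 (s n).2 (en n).1.1 (en n).1.2,
    g (s n).1 (s n).2 (en n).1.1 (en n).1.2) := fun n => rfl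
  have hC : ∀ n, C (s n).1 (s n).2 := by
    intro n
    induction n with
    | zero => exact hab
    | succ n ih => rw [hs]; exact h3 _ _ _ _ ih
  have hA : Antitone fun n => (s n).1 := antitone_nat_of_succ_le fun n => by
    simp only [hs]; exact inf_eq_left.1 (h1 _ _ _ _ (hC n))
  have hB : Antitone fun n => (s n).2 := antitone_nat_of_succ_le fun n => by
    simp only [hs]; exact inf_eq_left.1 (h2 _ _ _ _ (hC n))
  have hinf : ∀ c d n, ∃ m, n ≤ m ∧ (en m).1 = (c, d) := by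
    intro c d n
    by_contra hc
    push Not at hc
    have : (Set.range fun k : ℕ => ((c, d), k)) ⊆ en '' {m | m < n} := by
      rintro _ ⟨k, rfl⟩
      obtain ⟨m, hm⟩ := hen ((c, d), k)
      refine ⟨m, ?_, hm⟩
      by_contra hn
      exact hc m (not_lt.1 hn) (by rw [hm])
    exact Set.infinite_range_of_injective (fun k l hkl => by simpa using hkl)
      (((Set.finite_lt_nat n).image _).subset this)
  have hself : ∀ n m, C (s n).1 (s m).1 := fun n m => h.c4 _ _ (fun h0 => by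
    have := (h.c1 _ _ (hC (max n m))).1
    exact this (le_bot_iff.1 (h0 ▸ le_inf (hA (le_max_left _ _)) (hA (le_max_right _ _)))))
  refine ⟨{c | ∀ n, C c (s n).1}, ⟨⟨⟨⟨a, hself 0⟩, fun h0 => (h.c1 _ _ (h0 0)).1 rfl, ?_, ?_, ?_⟩,
    fun c hc n => hc _ (hself n)⟩, ?_⟩, hself 0, fun n => ?_⟩
  · exact fun c d hc hcd n => h.c3 _ _ (h.mono hcd (h.c3 _ _ (hc n)))
  · intro c d hcd
    by_contra hn
    simp only [Set.mem_ofPred_eq, not_or, not_forall] at hn
    obtain ⟨⟨n, hn⟩, m, hm⟩ := hn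
    rcases (h.c2 _ _ _).1 (h.c3 _ _ (hcd (max n m))) with h' | h'
    · exact hn (h.mono (hA (le_max_left _ _)) (h.c3 _ _ h'))
    · exact hm (h.mono (hA (le_max_right _ _)) (h.c3 _ _ h'))
  · intro c hc d hd
    obtain ⟨m, -, hm⟩ := hinf c d 0
    have := h4 _ _ c d (hC m)
    have e1 := hc (m + 1)
    have e2 := hd (m + 1)
    rw [hs, hm] at e1 e2
    tauto
  · intro c hc
    simp only [Set.mem_ofPred_eq, not_forall] at hc
    obtain ⟨n, hn⟩ := hc
    obtain ⟨m, hnm, hm⟩ := hinf c c n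
    rcases h5 _ _ c c (hC m) with h' | h'
    · exact absurd (h.mono (hA hnm) h') hn
    · refine ⟨_, fun he => h'.2 ?_, h'.1⟩
      have := he (m + 1)
      rwa [hs, hm] at this
  · exact h.c3 _ _ (h.mono (hB (Nat.zero_le n)) (hC n))

def tinf {α : Type} (s t : L.Term α) : L.Term α := .func Fn.inf ![s, t]
def tcompl {α : Type} (s : L.Term α) : L.Term α := .func Fn.compl ![s]
def fcon {α : Type} {n : ℕ} (s t : L.Term (α ⊕ Fin n)) : L.BoundedFormula α n :=
  .rel Rl.con ![s, t]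

def psiF : L.Formula (Fin 4) :=
  let v : Fin 4 → L.Term (Fin 4 ⊕ Fin 3) := fun i => .var (.inl i)
  let w : Fin 3 → L.Term (Fin 4 ⊕ Fin 3) := fun i => .var (.inr i)
  (((tinf (w 0) (v 0)).bdEqual (w 0) ⊓ ((tinf (w 1) (v 1)).bdEqual (w 1) ⊓ (fcon (w 0) (w 1) ⊓
    ((fcon (v 2) (v 3) ⊔ ((fcon (v 2) (w 0)).not ⊔ (fcon (v 3) (w 0)).not)) ⊓
    (fcon (v 2) (v 0) ⊔ ((fcon (v 2) (tcompl (w 2))).not ⊓ (fcon (w 2) (w 0)).not)))))) :
      L.BoundedFormula (Fin 4) 3).ex.ex.ex

theorem realize_psiF (C : B → B → Prop) (v : Fin 4 → B) :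
    @Language.Formula.Realize L B (str C) _ psiF v ↔ ∃ a' b' e, a' ⊓ v 0 = a' ∧ b' ⊓ v 1 = b' ∧
      C a' b' ∧ (C (v 2) (v 3) ∨ ¬ C (v 2) a' ∨ ¬ C (v 3) a') ∧
        (C (v 2) (v 0) ∨ (¬ C (v 2) eᶜ ∧ ¬ C e a')) := by
  letI := str C
  simp only [psiF, Language.Formula.Realize, Language.BoundedFormula.realize_ex,
    Language.BoundedFormula.realize_inf, Language.BoundedFormula.realize_sup,
    Language.BoundedFormula.realize_not, Language.BoundedFormula.realize_bdEqual]
  rfl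

theorem exists_sub {C : B → B → Prop} (h : IsContact C) (hp : Psi C) [Infinite B] :
    ∃ (B' : Type) (_ : BooleanAlgebra B') (C' : B' → B' → Prop), IsContact C' ∧ Reg C' ∧
      ∀ T, Models C' T ↔ Models C T := by
  letI := str C
  have hL : L.card ≤ Cardinal.aleph0 := by
    have : ∀ n, Countable (L.Functions n) := fun n => by
      have : Function.Injective (fun f : Fn n => match n, f with
        | _, .sup => 0 | _, .inf => 1 | _, .compl => 2 | _, .zero => 3 | _, .one => (4 : ℕ)) := by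
        intro f g
        cases f <;> cases g <;> simp
      exact this.countable
    have : ∀ n, Countable (L.Relations n) := fun n => by
      have : Subsingleton (Rl n) := ⟨fun f g => by cases f; cases g; rfl⟩
      exact Subsingleton.to_countable (α := Rl n)
    have : Countable L.Symbols := by unfold Language.Symbols; infer_instance
    exact Cardinal.mk_le_aleph0
  obtain ⟨S, -, hS⟩ := Language.exists_elementarySubstructure_card_eq L (∅ : Set B)
    Cardinal.aleph0.{0} le_rfl (by simp) (by simpa using hL) (by simp)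
  let S' : BooleanSubalgebra B :=
    { carrier := S
      supClosed' := fun a ha b hb => S.toSubstructure.fun_mem Fn.sup ![a, b]
        (fun i => by fin_cases i <;> assumption)
      infClosed' := fun a ha b hb => S.toSubstructure.fun_mem Fn.inf ![a, b]
        (fun i => by fin_cases i <;> assumption)
      compl_mem' := fun {a} ha => S.toSubstructure.fun_mem Fn.compl ![a]
        (fun i => by fin_cases i; assumption)
      bot_mem' := S.toSubstructure.fun_mem Fn.zero ![] (fun i => i.elim0) }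
  let C' : S' → S' → Prop := fun a b => C a b
  have hst : str C' = (inferInstanceAs (L.Structure S) : L.Structure S') := by
    ext n f x
    · cases f <;> rfl
    · cases f; rfl
  have hC' : IsContact C' := by
    refine ⟨fun a b hab => ?_, fun a b c => h.c2 _ _ _, fun a b => h.c3 _ _,
      fun a b hab => h.c4 _ _ fun h0 => hab (Subtype.ext h0)⟩
    exact ⟨fun h0 => (h.c1 _ _ hab).1 (congrArg Subtype.val h0),
      fun h0 => (h.c1 _ _ hab).2 (congrArg Subtype.val h0)⟩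
  have : Countable S' := by
    have : Cardinal.mk S = Cardinal.aleph0 := by simpa using hS
    exact Cardinal.mk_le_aleph0_iff.1 this.le
  refine ⟨S', inferInstance, C', hC', reg_of_psi hC' fun a b c d hab => ?_, fun T => ?_⟩
  · refine (realize_psiF C' ![a, b, c, d]).1 ?_
    rw [hst]
    refine (S.subtype.map_formula psiF ![a, b, c, d]).1 ((realize_psiF C _).2 ?_)
    exact hp _ _ _ _ hab
  · unfold Models
    rw [hst]
    exact S.subtype.elementarilyEquivalent.theory_model_iff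

end general

abbrev Om := ℕ → Bool

def cyl (p : Om) (n : ℕ) : Set Om := {w | ∀ i < n, w i = p i}

def osc (p : Om) : Set Om := {w | ∀ m, (∀ i < m, w i = p i) → w m ≠ p m → Even m}

def Loc (S : Set Om) : Prop :=
  ∀ p, ∃ n, ∃ f : Prop → Prop, ∀ w ∈ cyl p n, w ∈ S ↔ f (w ∈ osc p)

def Clo (S : Set Om) : Prop := ∀ p, ∃ n, ∀ w ∈ cyl p n, w ∈ S ↔ p ∈ S

theorem cyl_mono {p : Om} {n m : ℕ} (h : n ≤ m) : cyl p m ⊆ cyl p n :=
  fun _ hw i hi => hw i (hi.trans_le h)

def BB : BooleanSubalgebra (Set Om × Set Om) where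
  carrier := {x | Loc x.1 ∧ Clo x.2}
  supClosed' := by
    rintro x ⟨h1, h2⟩ y ⟨h3, h4⟩
    refine ⟨fun p => ?_, fun p => ?_⟩
    · obtain ⟨n, f, hf⟩ := h1 p
      obtain ⟨m, g, hg⟩ := h3 p
      exact ⟨max n m, fun P => f P ∨ g P, fun w hw => or_congr
        (hf w (cyl_mono (le_max_left _ _) hw)) (hg w (cyl_mono (le_max_right _ _) hw))⟩
    · obtain ⟨n, hf⟩ := h2 p
      obtain ⟨m, hg⟩ := h4 p
      exact ⟨max n m, fun w hw => or_congr
        (hf w (cyl_mono (le_max_left _ _) hw)) (hg w (cyl_mono (le_max_right _ _) hw))⟩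
  infClosed' := by
    rintro x ⟨h1, h2⟩ y ⟨h3, h4⟩
    refine ⟨fun p => ?_, fun p => ?_⟩
    · obtain ⟨n, f, hf⟩ := h1 p
      obtain ⟨m, g, hg⟩ := h3 p
      exact ⟨max n m, fun P => f P ∧ g P, fun w hw => and_congr
        (hf w (cyl_mono (le_max_left _ _) hw)) (hg w (cyl_mono (le_max_right _ _) hw))⟩
    · obtain ⟨n, hf⟩ := h2 p
      obtain ⟨m, hg⟩ := h4 p
      exact ⟨max n m, fun w hw => and_congr
        (hf w (cyl_mono (le_max_left _ _) hw)) (hg w (cyl_mono (le_max_right _ _) hw))⟩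
  compl_mem' := by
    rintro x ⟨h1, h2⟩
    refine ⟨fun p => ?_, fun p => ?_⟩
    · obtain ⟨n, f, hf⟩ := h1 p
      exact ⟨n, fun P => ¬ f P, fun w hw => not_congr (hf w hw)⟩
    · obtain ⟨n, hf⟩ := h2 p
      exact ⟨n, fun w hw => not_congr (hf w hw)⟩
  bot_mem' := ⟨fun _ => ⟨0, fun _ => False, fun _ _ => Iff.rfl⟩, fun _ => ⟨0, fun _ _ => Iff.rfl⟩⟩

def hh (x : BB) : Set Om := x.1.1 ∪ x.1.2

def CC (x y : BB) : Prop := (hh x ∩ hh y).Nonempty

theorem Clo.loc {S : Set Om} (h : Clo S) : Loc S := fun p =>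
  let ⟨n, hn⟩ := h p
  ⟨n, fun _ => p ∈ S, hn⟩

theorem clo_cyl (q : Om) (n : ℕ) : Clo (cyl q n) := fun p =>
  ⟨n, fun w hw => forall₂_congr fun i hi => by rw [hw i hi]⟩

def fl (p : Om) (m : ℕ) : Om := Function.update p m (!p m)

theorem fl_cyl (p : Om) {m n : ℕ} (h : n ≤ m) : cyl (fl p m) (m + 1) ⊆ cyl p n := by
  intro w hw i hi
  rw [hw i (by omega), fl, Function.update_of_ne (by omega)]

theorem fl_osc (p : Om) {m : ℕ} {w : Om} (hw : w ∈ cyl (fl p m) (m + 1)) : w ∈ osc p ↔ Even m := by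
  have h1 : ∀ i < m, w i = p i := fl_cyl p le_rfl hw
  have h2 : w m ≠ p m := by
    rw [hw m (by omega), fl, Function.update_self]
    simp
  refine ⟨fun h => h m h1 h2, fun h k hk hk' => ?_⟩
  rcases lt_trichotomy k m with h' | rfl | h'
  · exact absurd (h1 k h') hk'
  · exact h
  · exact absurd (hk m h') h2

theorem self_osc (p : Om) : p ∈ osc p := fun _ _ h => absurd rfl h

theorem loc_osc (q : Om) : Loc (osc q) := by
  intro p
  by_cases hp : p = q
  · subst hp
    exact ⟨0, id, fun _ _ => Iff.rfl⟩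
  · have : ∃ m, p m ≠ q m := Function.ne_iff.1 hp
    classical
    refine ⟨Nat.find this + 1, fun _ => Even (Nat.find this), fun w hw => fl_osc q fun i hi => ?_⟩
    rw [hw i hi, fl]
    rcases Nat.lt_succ_iff_lt_or_eq.1 hi with h | rfl
    · rw [Function.update_of_ne h.ne]
      exact not_not.1 (Nat.find_min this h)
    · rw [Function.update_self]
      have := Nat.find_spec this
      revert this
      cases p (Nat.find this) <;> cases q (Nat.find this) <;> simp

theorem Loc.dense {S : Set Om} (h : Loc S) (hS : S.Nonempty) : ∃ q n, cyl q n ⊆ S := by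
  obtain ⟨p, hp⟩ := hS
  obtain ⟨n, f, hf⟩ := h p
  refine ⟨fl p (2 * n), 2 * n + 1, fun w hw => ?_⟩
  have h1 := (hf p fun _ _ => rfl).1 hp
  rw [hf w (fl_cyl p (by omega) hw)]
  have : (w ∈ osc p) = (p ∈ osc p) := by
    rw [fl_osc p hw]
    simp [self_osc]
  rwa [this]

theorem loc_hh (x : BB) : Loc (hh x) :=
  (BB.sup_mem (a := (x.1.1, ∅)) (b := (x.1.2, ∅)) ⟨x.2.1, BB.bot_mem.2⟩
    ⟨x.2.2.loc, BB.bot_mem.2⟩).1

theorem Loc.inter {S T : Set Om} (h : Loc S) (h' : Loc T) : Loc (S ∩ T) :=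
  (BB.inf_mem (a := (S, ∅)) (b := (T, ∅)) ⟨h, BB.bot_mem.2⟩ ⟨h', BB.bot_mem.2⟩).1

theorem Loc.compl {S : Set Om} (h : Loc S) : Loc Sᶜ :=
  (BB.compl_mem (a := (S, ∅)) ⟨h, BB.bot_mem.2⟩).1

theorem contact_CC : IsContact CC := by
  refine ⟨?_, ?_, ?_, ?_⟩
  · rintro a b ⟨w, h1, h2⟩
    constructor <;> rintro rfl
    · simp [hh] at h1
    · simp [hh] at h2
  · intro a b c
    have : hh (b ⊔ c) = hh b ∪ hh c := by
      ext w
      simp [hh]
      tauto
    simp only [CC, this, Set.inter_union_distrib_left, Set.union_nonempty]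
  · intro a b h
    rwa [CC, Set.inter_comm]
  · intro a b h
    by_contra hn
    rw [CC, Set.not_nonempty_iff_eq_empty, Set.eq_empty_iff_forall_notMem] at hn
    refine h (Subtype.ext (Prod.ext ?_ ?_)) <;> refine Set.eq_empty_iff_forall_notMem.2 ?_
    · exact fun w hw => hn w ⟨Or.inl hw.1, Or.inl hw.2⟩
    · exact fun w hw => hn w ⟨Or.inr hw.1, Or.inr hw.2⟩

def dg (q : Om) (n : ℕ) : BB := ⟨(cyl q n, cyl q n), (clo_cyl q n).loc, clo_cyl q n⟩

theorem psi_CC : Psi CC := by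
  intro a b c d hab
  have : ∃ q n, cyl q n ⊆ hh a ∩ hh b ∧
      (CC c d ∨ cyl q n ⊆ (hh c)ᶜ ∨ cyl q n ⊆ (hh d)ᶜ) := by
    obtain ⟨w, hw⟩ := hab
    have hl := (loc_hh a).inter (loc_hh b)
    by_cases h1 : w ∈ hh c
    · by_cases h2 : w ∈ hh d
      · obtain ⟨q, n, h⟩ := hl.dense ⟨w, hw⟩
        exact ⟨q, n, h, Or.inl ⟨w, h1, h2⟩⟩
      · obtain ⟨q, n, h⟩ := (hl.inter (loc_hh d).compl).dense ⟨w, hw, h2⟩
        exact ⟨q, n, fun x hx => (h hx).1, Or.inr (Or.inr fun x hx => (h hx).2)⟩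
    · obtain ⟨q, n, h⟩ := (hl.inter (loc_hh c).compl).dense ⟨w, hw, h1⟩
      exact ⟨q, n, fun x hx => (h hx).1, Or.inr (Or.inl fun x hx => (h hx).2)⟩
  obtain ⟨q, n, h1, h2⟩ := this
  have e : ∀ x : BB, cyl q n ⊆ hh x → hh (dg q n ⊓ x) = cyl q n := by
    intro x hx
    ext w
    have := @hx w
    simp only [hh, dg, BooleanSubalgebra.val_inf, Prod.fst_inf, Prod.snd_inf, Set.inf_eq_inter,
      Set.mem_union, Set.mem_inter_iff] at this ⊢
    tauto
  have ea := e a fun x hx => (h1 hx).1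
  have eb := e b fun x hx => (h1 hx).2
  refine ⟨dg q n ⊓ a, dg q n ⊓ b, (dg q n)ᶜ, by simp, by simp, ?_, ?_, ?_⟩
  · rw [CC, ea, eb]
    exact ⟨q, fun _ _ => rfl, fun _ _ => rfl⟩
  · simp only [CC, ea] at h2 ⊢
    rcases h2 with h | h | h
    · exact Or.inl h
    · exact Or.inr (Or.inl fun ⟨w, h3, h4⟩ => h h4 h3)
    · exact Or.inr (Or.inr fun ⟨w, h3, h4⟩ => h h4 h3)
  · by_cases hc : CC c a
    · exact Or.inl hc
    · refine Or.inr ⟨?_, ?_⟩
      · rw [compl_compl]
        rintro ⟨w, h3, h4⟩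
        exact hc ⟨w, h3, (h1 (by simpa [hh, dg] using h4)).1⟩
      · rw [CC, ea]
        rintro ⟨w, h3, h4⟩
        simp [hh, dg, h4] at h3

def lf (S : Set Om) (h : Loc S) : BB := ⟨(S, ∅), h, BB.bot_mem.2⟩
def rg (S : Set Om) (h : Clo S) : BB := ⟨(∅, S), BB.bot_mem.1, h⟩

theorem not_reg : ¬ Reg CC := by
  intro h
  have hu : Clo Set.univ := fun _ => ⟨0, fun _ _ => Iff.rfl⟩
  obtain ⟨Γ, ⟨⟨⟨-, -, hup, hpr, hcl⟩, -⟩, hco⟩, ha, hb⟩ := h (lf _ hu.loc) (rg _ hu)
    ⟨fun _ => true, by simp [hh, lf], by simp [hh, rg]⟩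
  have step : ∀ p n, rg _ (clo_cyl p n) ∈ Γ →
      ∃ q, (∀ i < n, q i = p i) ∧ rg _ (clo_cyl q (n + 1)) ∈ Γ := by
    intro p n hp
    have : rg _ (clo_cyl p (n + 1)) ⊔ rg _ (clo_cyl (fl p n) (n + 1)) ∈ Γ := by
      refine hup _ _ hp ⟨by simp [rg], fun w hw => ?_⟩
      by_cases hn : w n = p n
      · refine Or.inl fun i hi => ?_
        rcases Nat.lt_succ_iff_lt_or_eq.1 hi with h | rfl
        exacts [hw i h, hn]
      · refine Or.inr fun i hi => ?_
        rcases Nat.lt_succ_iff_lt_or_eq.1 hi with h | rfl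
        · rw [hw i h, fl, Function.update_of_ne h.ne]
        · rw [fl, Function.update_self]
          revert hn
          cases w i <;> cases p i <;> simp
    rcases hpr _ _ this with h | h
    · exact ⟨p, fun _ _ => rfl, h⟩
    · exact ⟨_, fun i hi => Function.update_of_ne hi.ne _ _, h⟩
  choose! nx hx1 hx2 using step
  let s : ℕ → Om := fun n => Nat.rec (fun _ => true) (fun n p => nx p n) n
  have hs : ∀ n, rg _ (clo_cyl (s n) n) ∈ Γ := by
    intro n
    induction n with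
    | zero => exact hup _ _ hb ⟨by simp [rg], fun w _ i hi => absurd hi (by omega)⟩
    | succ n ih => exact hx2 _ _ ih
  have hst : ∀ i m, i < m → s m i = s (i + 1) i := by
    intro i m him
    induction m, him using Nat.le_induction with
    | base => rfl
    | succ m hm ih => rw [← ih]; exact hx1 _ _ (hs m) i hm
  let p : Om := fun i => s (i + 1) i
  have hp : ∀ n, rg _ (clo_cyl p n) ∈ Γ := fun n =>
    hup _ _ (hs n) ⟨by simp [rg], fun w hw i hi => (hw i hi).trans (hst i n hi)⟩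
  have key : ∀ S (hS : Loc S), (∀ n, (cyl p n ∩ S).Nonempty) → lf S hS ∈ Γ := by
    intro S hS hne
    by_contra hn
    obtain ⟨e, he, hw⟩ := hco _ hn
    obtain ⟨n, hn⟩ := e.2.2 p
    obtain ⟨w, hw1, hw2⟩ := hne n
    have hpe : p ∈ e.1.2 := by
      rw [← hn w hw1]
      by_contra hc
      exact hw ⟨w, Or.inl hw2, Or.inr hc⟩
    exact he (hup _ _ (hp n) ⟨by simp [rg], fun x hx => (hn x hx).2 hpe⟩)
  obtain ⟨w, h1, h2⟩ := hcl _ (key _ (loc_osc p) fun n => ⟨p, fun _ _ => rfl, self_osc p⟩) _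
    (key _ (loc_osc p).compl fun n => ⟨fl p (2 * n + 1),
      fl_cyl p (m := 2 * n + 1) (by omega) fun _ _ => rfl, fun h => by
        simpa using (fl_osc p fun _ _ => rfl).1 h⟩)
  simp only [hh, lf, Set.union_empty] at h1 h2
  exact h2 h1

instance : Infinite BB := Infinite.of_injective (fun n => dg (fun _ => true) n) (by
  have key : ∀ n m, n < m → dg (fun _ => true) n ≠ dg (fun _ => true) m := by
    intro n m hnm h
    have h1 : cyl (fun _ => true) n = cyl (fun _ => true) m := congrArg (fun x : BB => x.1.1) h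
    have h2 : fl (fun _ => true) n ∈ cyl (fun _ => true) n := fl_cyl _ le_rfl fun _ _ => rfl
    rw [h1] at h2
    simpa [fl] using h2 n hnm
  intro n m h
  rcases lt_trichotomy n m with h' | h' | h'
  exacts [absurd h (key _ _ h'), h', absurd h.symm (key _ _ h')])

end Pool.Agent.H62.Cont
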