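import Mathlib

open FirstOrder

namespace Pool.Agent.H62.Cont

variable {B : Type} [BooleanAlgebra B]

/-- The axioms (C1)-(C4) of a contact relation. -/
structure IsContact (C : B → B → Prop) : Prop where
  c1 : ∀ a b, C a b → a ≠ ⊥ ∧ b ≠ ⊥
  c2 : ∀ a b c, C a (b ⊔ c) ↔ C a b ∨ C a c
  c3 : ∀ a b, C a b → C b a
  c4 : ∀ a b, a ⊓ b ≠ ⊥ → C a b

/-- Non-tangential inclusion. -/
def WB (C : B → B → Prop) (a b : B) : Prop := ¬ C a bᶜ

def IsClan (C : B → B → Prop) (Γ : Set B) : Prop :=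
  Γ.Nonempty ∧ ⊥ ∉ Γ ∧ (∀ a b, a ∈ Γ → a ≤ b → b ∈ Γ) ∧ (∀ a b, a ⊔ b ∈ Γ → a ∈ Γ ∨ b ∈ Γ) ∧
    ∀ a ∈ Γ, ∀ b ∈ Γ, C a b

def IsCluster (C : B → B → Prop) (Γ : Set B) : Prop :=
  IsClan C Γ ∧ ∀ a, (∀ b ∈ Γ, C a b) → a ∈ Γ

def IsCoend (C : B → B → Prop) (Γ : Set B) : Prop :=
  IsCluster C Γ ∧ ∀ a, a ∉ Γ → ∃ b, b ∉ Γ ∧ WB C a b

/-- The regularity condition (Reg). -/
def Reg (C : B → B → Prop) : Prop := ∀ a b, C a b → ∃ Γ, IsCoend C Γ ∧ a ∈ Γ ∧ b ∈ Γ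

inductive Fn : ℕ → Type
  | sup : Fn 2
  | inf : Fn 2
  | compl : Fn 1
  | zero : Fn 0
  | one : Fn 0

inductive Rl : ℕ → Type
  | con : Rl 2

/-- The first-order language of contact algebras. -/
def L : Language := ⟨Fn, Rl⟩

/-- A Boolean algebra with a binary relation as an `L`-structure. -/
@[reducible] def str (C : B → B → Prop) : L.Structure B where
  funMap
    | .sup => fun x => x 0 ⊔ x 1
    | .inf => fun x => x 0 ⊓ x 1
    | .compl => fun x => (x 0)ᶜ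
    | .zero => fun _ => ⊥
    | .one => fun _ => ⊤
  RelMap
    | .con => fun x => C (x 0) (x 1)

/-- `(B, C)` is a model of the theory `T`. -/
def Models (C : B → B → Prop) (T : L.Theory) : Prop := @Language.Theory.Model L B (str C) T

end Pool.Agent.H62.Cont
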