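import Mathlib

/-! Generic second generators: pairs without algebraic relations of small bidegree. -/

set_option autoImplicit false

namespace Pool.Agent.H62.Cp

open Polynomial Finset

/-- the `a`-th monomial of bidegree at most `(n, n)` -/
def mon {R : Type} [Monoid R] (n a : ℕ) (x y : R) : R := x ^ (a % (n + 1)) * y ^ (a / (n + 1))

theorem map_mon {R S G : Type} [Monoid R] [Monoid S] [FunLike G R S] [MonoidHomClass G R S] (g : G)
    (n a : ℕ) (x y : R) : g (mon n a x y) = mon n a (g x) (g y) := by simp [mon]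

variable {F K : Type} [Field F] [Field K] [Algebra F K]

/-- no relation of bidegree at most `(n, n)` -/
def Ind (F : Type) {K : Type} [Field F] [Field K] [Algebra F K] (n : ℕ) (x y : K) : Prop :=
  ∀ c : ℕ → F, ∑ a ∈ range ((n + 1) ^ 2), c a • mon n a x y = 0 → ∀ a < (n + 1) ^ 2, c a = 0

theorem ind_pow {x : K} {d s n : ℕ} (h : LinearIndependent F fun i : Fin d => x ^ (i : ℕ))
    (hs : s ^ 2 ≤ d) (hn : n < s) : Ind F n x (x ^ s) := by
  intro c hc a ha
  have hlt : ∀ b < (n + 1) ^ 2, b / (n + 1) < n + 1 := fun b hb =>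
    Nat.div_lt_of_lt_mul (by rwa [← sq])
  have hb : ∀ b : Fin ((n + 1) ^ 2), b.val % (n + 1) + s * (b.val / (n + 1)) < d := fun b => by
    have h1 : b.val % (n + 1) < n + 1 := Nat.mod_lt _ (Nat.succ_pos n)
    have h2 := hlt b.val b.2
    have h3 : s * (b.val / (n + 1)) ≤ s * (s - 1) := Nat.mul_le_mul_left _ (by omega)
    have h4 : s * (s - 1) + s = s ^ 2 := by
      cases s with
      | zero => rfl
      | succ s => simp; ring
    omega
  have hi : Function.Injective fun b : Fin ((n + 1) ^ 2) =>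
      (⟨b.val % (n + 1) + s * (b.val / (n + 1)), hb b⟩ : Fin d) := by
    intro b b' h'
    simp only [Fin.mk.injEq] at h'
    have h1 : b.val % (n + 1) < n + 1 := Nat.mod_lt _ (Nat.succ_pos n)
    have h2 : b'.val % (n + 1) < n + 1 := Nat.mod_lt _ (Nat.succ_pos n)
    have h3 : b.val % (n + 1) = b'.val % (n + 1) := by
      have := congrArg (· % s) h'
      simp only [Nat.add_mul_mod_self_left] at this
      rwa [Nat.mod_eq_of_lt (a := b.val % (n + 1)) (by omega),
        Nat.mod_eq_of_lt (a := b'.val % (n + 1)) (by omega)] at this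
    have h4 : b.val / (n + 1) = b'.val / (n + 1) :=
      Nat.eq_of_mul_eq_mul_left (by omega : 0 < s) (by omega)
    ext
    rw [← Nat.mod_add_div b.val (n + 1), h3, h4, Nat.mod_add_div]
  have := Fintype.linearIndependent_iff.1 (h.comp _ hi) (fun b => c b) (by
    rw [← hc, ← Fin.sum_univ_eq_sum_range (fun a => c a • mon n a x (x ^ s))]
    refine Finset.sum_congr rfl fun b _ => ?_
    simp [mon, pow_add, pow_mul])
  exact this ⟨a, ha⟩

/-- the determinant of the monomials at the points `(ρ j, B (ρ j))` -/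
noncomputable def dt {L : Type} [Field L] [Algebra F L] (n : ℕ) (ρ : Fin ((n + 1) ^ 2) → L)
    (B : F[X]) : L :=
  (Matrix.of fun j a : Fin ((n + 1) ^ 2) => mon n a (ρ j) (aeval (ρ j) B)).det

theorem dt_pow {L : Type} [Field L] [Algebra F L] (n : ℕ) {ρ : Fin ((n + 1) ^ 2) → L}
    (h : Function.Injective ρ) : dt n ρ (X ^ (n + 1) : F[X]) ≠ 0 := by
  have : (Matrix.of fun j a : Fin ((n + 1) ^ 2) => mon n a (ρ j) (aeval (ρ j) (X ^ (n + 1) : F[X]))) =
      Matrix.vandermonde ρ := by
    ext j a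
    simp only [mon, Matrix.of_apply, map_pow, aeval_X, Matrix.vandermonde_apply]
    rw [← pow_mul, ← pow_add, Nat.mod_add_div]
  rw [dt, this]
  exact Matrix.det_vandermonde_ne_zero_iff.2 h

theorem dt_line {L : Type} [Field L] [Algebra F L] (n : ℕ) (ρ : Fin ((n + 1) ^ 2) → L)
    (B0 B1 : F[X]) (h : dt n ρ B0 ≠ 0 ∨ dt n ρ B1 ≠ 0) :
    {l : F | dt n ρ (B0 + C l * (B1 - B0)) = 0}.Finite := by
  let q : L[X] := (Matrix.of fun j a : Fin ((n + 1) ^ 2) =>
    mon n a (C (ρ j)) (C (aeval (ρ j) B0) + X * C (aeval (ρ j) (B1 - B0)))).det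
  have hq : ∀ l : F, q.eval (algebraMap F L l) = dt n ρ (B0 + C l * (B1 - B0)) := by
    intro l
    rw [← coe_evalRingHom, RingHom.map_det, dt]
    congr 1
    ext j a
    simp [mon]
  have hq0 : q ≠ 0 := by
    intro h0
    rcases h with h | h
    · exact h (by simpa [h0] using (hq 0).symm)
    · exact h (by simpa [h0] using (hq 1).symm)
  refine ((q.rootSet_finite L).preimage (algebraMap F L).injective.injOn).subset fun l hl => ?_
  simp only [Set.mem_preimage, mem_rootSet_of_ne hq0, coe_aeval_eq_eval, hq]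
  exact hl

theorem exists_common [Infinite F] {ι : Type} [Finite ι] (P : ι → F[X] → Prop)
    (h1 : ∀ i, ∃ B, P i B)
    (h2 : ∀ i B0 B1, P i B0 ∨ P i B1 → {l : F | ¬P i (B0 + C l * (B1 - B0))}.Finite) :
    ∃ B, ∀ i, P i B := by
  classical
  have := Fintype.ofFinite ι
  have key : ∀ s : Finset ι, ∃ B, ∀ i ∈ s, P i B := by
    intro s
    induction s using Finset.induction_on with
    | empty => exact ⟨0, by simp⟩
    | insert i s _ ih =>
      obtain ⟨B0, hB0⟩ := ih
      obtain ⟨B1, hB1⟩ := h1 i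
      have hf : (⋃ j ∈ insert i s, {l : F | ¬P j (B0 + C l * (B1 - B0))}).Finite :=
        Set.Finite.biUnion (insert i s).finite_toSet fun j hj => h2 j B0 B1 (by
          rcases Finset.mem_insert.1 hj with rfl | hj
          exacts [Or.inr hB1, Or.inl (hB0 j hj)])
      obtain ⟨l, hl⟩ := hf.exists_notMem
      refine ⟨B0 + C l * (B1 - B0), fun j hj => ?_⟩
      by_contra hn
      exact hl (Set.mem_biUnion (Finset.mem_coe.2 hj) hn)
  obtain ⟨B, hB⟩ := key Finset.univ
  exact ⟨B, fun i => hB i (Finset.mem_univ _)⟩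

/-- no curve of bidegree `(n, n)` passes through `(n + 1) ^ 2` points `(ρ, B ρ)`, `f ρ = 0` -/
def Good (f B : F[X]) (n : ℕ) (L : Type) [Field L] [Algebra F L] : Prop :=
  ∀ ρ : ℕ → L, (∀ j < (n + 1) ^ 2, ∀ l < (n + 1) ^ 2, ρ j = ρ l → j = l) →
    (∀ j < (n + 1) ^ 2, aeval (ρ j) f = 0) → ∀ c : ℕ → L,
    (∀ j < (n + 1) ^ 2, ∑ a ∈ range ((n + 1) ^ 2), c a * mon n a (ρ j) (aeval (ρ j) B) = 0) →
    ∀ a < (n + 1) ^ 2, c a = 0

theorem exists_good [Infinite F] {f : F[X]} (hf : f ≠ 0) (N : ℕ) :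
    ∃ B : F[X], ∀ n < N, ∀ (L : Type) [Field L] [Algebra F L], Good f B n L := by
  classical
  let E := AlgebraicClosure F
  obtain ⟨B, hB⟩ := exists_common (F := F)
    (ι := Σ n : Fin N, {ρ : Fin ((n + 1) ^ 2) → f.rootSet E // Function.Injective ρ})
    (fun i B => dt i.1 (fun j => (i.2.1 j : E)) B ≠ 0)
    (fun i => ⟨_, dt_pow _ (Subtype.val_injective.comp i.2.2)⟩)
    (fun i B0 B1 h => by simpa using dt_line _ _ B0 B1 h)
  refine ⟨B, fun n hn L _ _ ρ h1 h2 c hc a ha => ?_⟩
  let L' := AlgebraicClosure L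
  let σ : E →ₐ[F] L' := IsAlgClosed.lift
  let τ : L →ₐ[F] L' := IsScalarTower.toAlgHom F L L'
  have h3 : ∀ j : Fin ((n + 1) ^ 2), ∃ e : f.rootSet E, σ e = τ (ρ j) := fun j => by
    have : τ (ρ j) ∈ f.rootSet L' := by
      rw [mem_rootSet_of_ne hf, aeval_algHom_apply, h2 j j.2, map_zero]
    rw [← (IsAlgClosed.splits (f.map (algebraMap F E))).image_rootSet σ] at this
    obtain ⟨e, he, he'⟩ := this
    exact ⟨⟨e, he⟩, he'⟩
  choose e he using h3
  have h4 : Function.Injective e := fun j l hjl => by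
    have : τ (ρ j) = τ (ρ l) := by rw [← he, ← he, hjl]
    exact Fin.ext (h1 _ j.2 _ l.2 (τ.injective this))
  have h5 : dt n (fun j => ρ j) B ≠ 0 := by
    intro h0
    refine hB ⟨⟨n, hn⟩, e, h4⟩ (σ.injective ?_)
    have := congrArg τ h0
    rw [map_zero] at this ⊢
    rw [← this]
    show σ (dt n (fun j => (e j : E)) B) = _
    rw [dt, dt, σ.map_det, τ.map_det]
    refine congrArg Matrix.det ?_
    ext j a
    simp [map_mon, ← aeval_algHom_apply, he]
  have := Matrix.eq_zero_of_mulVec_eq_zero h5 (v := fun a => c a) (funext fun j => by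
    rw [Pi.zero_apply, ← hc j j.2,
      ← Fin.sum_univ_eq_sum_range (fun a => c a * mon n a (ρ j) (aeval (ρ j) B))]
    simp [Matrix.mulVec, dotProduct, mul_comm])
  exact congrFun this ⟨a, ha⟩

theorem ind_of_good {f B : F[X]} {n : ℕ} {x : K} (hx : IsSeparable F x) (hf : aeval x f = 0)
    (hn : (n + 1) ^ 2 ≤ (minpoly F x).natDegree) (h : Good f B n (AlgebraicClosure F)) :
    Ind F n x (aeval x B) := by
  classical
  intro c hc a ha
  let E := AlgebraicClosure F
  have h1 := card_rootSet_eq_natDegree hx (IsAlgClosed.splits ((minpoly F x).map (algebraMap F E)))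
  obtain ⟨e⟩ : Nonempty (Fin ((n + 1) ^ 2) ↪ (minpoly F x).rootSet E) :=
    Function.Embedding.nonempty_of_card_le (by rw [h1, Fintype.card_fin]; exact hn)
  have h2 : ∀ (p : F[X]) (j), aeval x p = 0 → aeval (e j : E) p = 0 := fun p j hp =>
    aeval_eq_zero_of_dvd_aeval_eq_zero (minpoly.dvd F x hp) (aeval_eq_zero_of_mem_rootSet (e j).2)
  have := h (fun j => if hj : j < (n + 1) ^ 2 then (e ⟨j, hj⟩ : E) else 0)
    (fun j hj l hl hjl => by
      simp only [dif_pos hj, dif_pos hl] at hjl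
      exact congrArg Fin.val (e.injective (Subtype.ext hjl)))
    (fun j hj => by simp only [dif_pos hj]; exact h2 f _ hf) (fun a => algebraMap F E (c a))
    (fun j hj => by
      simp only [dif_pos hj]
      have := h2 (∑ a ∈ range ((n + 1) ^ 2), c a • mon n a X B) ⟨j, hj⟩ (by
        rw [← hc]; simp [map_mon])
      rw [← this]; simp [map_mon, Algebra.smul_def]) a ha
  exact (algebraMap F E).injective (by rw [this, map_zero])

end Pool.Agent.H62.Cp
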