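import Pool.Agent.H62.Cp1
import Pool.Agent.H37.DC

/-! Coded polynomials over a computable field; unsolvable systems are c.e. -/

set_option autoImplicit false

namespace Pool.Agent.H62.Cp

open Pool.Agent.H37

/-- a computable numbering of a field -/
structure Nm (F : Type) [Field F] where
  μ : ℕ → F
  surj : Function.Surjective μ
  ad : ℕ → ℕ → ℕ
  mu : ℕ → ℕ → ℕ
  eq : ℕ → ℕ → Bool
  cad : CI ∅ fun q : ℕ × ℕ => ad q.1 q.2
  cmu : CI ∅ fun q : ℕ × ℕ => mu q.1 q.2
  ceq : CI ∅ fun q : ℕ × ℕ => eq q.1 q.2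
  had : ∀ a b, μ (ad a b) = μ a + μ b
  hmu : ∀ a b, μ (mu a b) = μ a * μ b
  heq : ∀ a b, eq a b = true ↔ μ a = μ b

variable {F K : Type} [Field F] [Field K] {α : Type} [Primcodable α] (N : Nm F)

@[fun_prop] theorem ci_ad {f g : α → ℕ} (hf : CI ∅ f) (hg : CI ∅ g) :
    CI ∅ fun a => N.ad (f a) (g a) := N.cad.comp (hf.mk hg)
@[fun_prop] theorem ci_mu {f g : α → ℕ} (hf : CI ∅ f) (hg : CI ∅ g) :
    CI ∅ fun a => N.mu (f a) (g a) := N.cmu.comp (hf.mk hg)
@[fun_prop] theorem ci_eq {f g : α → ℕ} (hf : CI ∅ f) (hg : CI ∅ g) :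
    CI ∅ fun a => N.eq (f a) (g a) := N.ceq.comp (hf.mk hg)

noncomputable def Nm.cst (a : F) : ℕ := Function.surjInv N.surj a

@[simp] theorem Nm.μ_cst (a : F) : N.μ (N.cst a) = a := Function.surjInv_eq _ _

noncomputable def Nm.pw (k n : ℕ) : ℕ := (fun c => N.mu c k)^[n] (N.cst 1)

@[simp] theorem Nm.μ_pw (k n : ℕ) : N.μ (N.pw k n) = N.μ k ^ n := by
  unfold Nm.pw
  induction n with
  | zero => simp
  | succ n ih => rw [Function.iterate_succ_apply', N.hmu, ih, pow_succ]

@[fun_prop] theorem ci_pw {f g : α → ℕ} (hf : CI ∅ f) (hg : CI ∅ g) :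
    CI ∅ fun a => N.pw (f a) (g a) := by unfold Nm.pw; fun_prop

abbrev PC := List (ℕ × List ℕ)

variable {L : Type} [CommRing L] [Algebra F L]

def pev (x : ℕ → L) (p : PC) : L :=
  (p.map fun m => algebraMap F L (N.μ m.1) * (m.2.map x).prod).sum

@[simp] theorem pev_nil (x : ℕ → L) : pev N x [] = 0 := rfl
@[simp] theorem pev_cons (x : ℕ → L) (m : ℕ × List ℕ) (p : PC) :
    pev N x (m :: p) = algebraMap F L (N.μ m.1) * (m.2.map x).prod + pev N x p := by simp [pev]
@[simp] theorem pev_append (x : ℕ → L) (p q : PC) : pev N x (p ++ q) = pev N x p + pev N x q := by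
  simp [pev]

def pmul (p q : PC) : PC := p.flatMap fun m => q.map fun m' => (N.mu m.1 m'.1, m.2 ++ m'.2)

@[fun_prop] theorem ci_pmul {f g : α → PC} (hf : CI ∅ f) (hg : CI ∅ g) :
    CI ∅ fun a => pmul N (f a) (g a) := by unfold pmul; fun_prop

theorem pev_pmul (x : ℕ → L) (p q : PC) : pev N x (pmul N p q) = pev N x p * pev N x q := by
  induction p with
  | nil => simp [pmul]
  | cons m p ih =>
    unfold pmul at ih ⊢
    rw [List.flatMap_cons, pev_append, ih, pev_cons, add_mul]
    congr 1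
    clear ih
    induction q with
    | nil => simp
    | cons m' q ih => rw [List.map_cons, pev_cons, ih, pev_cons]; simp [N.hmu]; ring

open MvPolynomial in
theorem aeval_pev (x : ℕ → L) (p : PC) :
    aeval x (pev N (X : ℕ → MvPolynomial ℕ F) p) = pev N x p := by
  induction p with
  | nil => simp
  | cons m p ih => simp [ih, map_list_prod, Function.comp_def]

open MvPolynomial in
theorem pev_surj (P : MvPolynomial ℕ F) : ∃ p, pev N X p = P := by
  induction P using MvPolynomial.induction_on with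
  | C a => exact ⟨[(N.cst a, [])], by simp⟩
  | add p q hp hq =>
    obtain ⟨p, rfl⟩ := hp
    obtain ⟨q, rfl⟩ := hq
    exact ⟨p ++ q, by simp⟩
  | mul_X p n hp =>
    obtain ⟨p, rfl⟩ := hp
    exact ⟨pmul N p [(N.cst 1, [n])], by simp [pev_pmul]⟩

noncomputable def fs (e : List ℕ) : ℕ →₀ ℕ := Multiset.toFinsupp (e : Multiset ℕ)

def same (e e' : List ℕ) : Bool :=
  (e ++ e').all fun j => decide (e.countP (fun i => i == j) = e'.countP fun i => i == j)

@[fun_prop] theorem ci_same {f g : α → List ℕ} (hf : CI ∅ f) (hg : CI ∅ g) :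
    CI ∅ fun a => same (f a) (g a) := by unfold same; fun_prop

theorem same_iff (e e' : List ℕ) : same e e' = true ↔ fs e = fs e' := by
  simp only [same, List.all_eq_true, decide_eq_true_eq, fs, Finsupp.ext_iff,
    Multiset.toFinsupp_apply, Multiset.coe_count, ← List.count_eq_countP]
  refine ⟨fun h j => ?_, fun h j _ => h j⟩
  by_cases hj : j ∈ e ++ e'
  · exact h j hj
  · rw [List.mem_append, not_or] at hj
    rw [List.count_eq_zero_of_not_mem hj.1, List.count_eq_zero_of_not_mem hj.2]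

open MvPolynomial in
theorem prod_X (e : List ℕ) : (e.map (X : ℕ → MvPolynomial ℕ F)).prod = monomial (fs e) 1 := by
  induction e with
  | nil => simp [fs]
  | cons j e ih =>
    have : fs (j :: e) = Finsupp.single j 1 + fs e := by
      simp only [fs, ← Multiset.cons_coe, ← Multiset.singleton_add, map_add,
        Multiset.toFinsupp_singleton]
    rw [List.map_cons, List.prod_cons, ih, this, X, monomial_mul, one_mul]

noncomputable def csum (p : PC) (e : List ℕ) : ℕ :=
  (p.filter fun m => same m.2 e).foldr (fun m c => N.ad m.1 c) (N.cst 0)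

open MvPolynomial in
theorem coeff_pev (p : PC) (e : List ℕ) : coeff (fs e) (pev N X p) = N.μ (csum N p e) := by
  classical
  unfold csum
  induction p with
  | nil => simp
  | cons m p ih =>
    rw [pev_cons, coeff_add, ih, prod_X, List.filter_cons, algebraMap_eq, C_mul_monomial,
      coeff_monomial]
    by_cases h : fs m.2 = fs e
    · simp [h, (same_iff _ _).2 h, N.had]
    · simp [h, mt (same_iff _ _).1 h]

noncomputable def ztest (p : PC) : Bool := p.all fun m => N.eq (csum N p m.2) (N.cst 0)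

@[fun_prop] theorem ci_ztest {f : α → PC} (hf : CI ∅ f) : CI ∅ fun a => ztest N (f a) := by
  unfold ztest csum; fun_prop

open MvPolynomial in
theorem ztest_iff (p : PC) : ztest N p = true ↔ pev N (X : ℕ → MvPolynomial ℕ F) p = 0 := by
  classical
  simp only [ztest, List.all_eq_true, N.heq, Nm.μ_cst, ← coeff_pev]
  refine ⟨fun h => MvPolynomial.ext _ _ fun d => ?_, fun h m _ => by simp [h]⟩
  by_cases hd : ∃ m ∈ p, fs m.2 = d
  · obtain ⟨m, hm, rfl⟩ := hd
    simpa using h m hm
  · clear h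
    induction p with
    | nil => rfl
    | cons m p ih =>
      rw [pev_cons, coeff_add, ih fun ⟨m', h1, h2⟩ => hd ⟨m', List.mem_cons_of_mem _ h1, h2⟩,
        prod_X, algebraMap_eq, C_mul_monomial, coeff_monomial,
        if_neg fun h => hd ⟨m, List.mem_cons_self, h⟩, zero_add]

/-- the coded system generates the unit ideal -/
def Uns (G : List PC) : Prop :=
  (1 : MvPolynomial ℕ F) ∈ Ideal.span {P | ∃ g ∈ G, pev N MvPolynomial.X g = P}

theorem pev_cert (x : ℕ → L) (c : List (PC × PC)) :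
    pev N x (c.flatMap fun z => pmul N z.1 z.2) = (c.map fun z => pev N x z.1 * pev N x z.2).sum := by
  induction c with
  | nil => rfl
  | cons z c ih => simp [ih, pev_pmul]

theorem uns_re : REPred (Uns N) := by
  classical
  refine re_of_exists (fun G (c : List (PC × PC)) => (c.all fun z => decide (z.2 ∈ G)) &&
    ztest N ((N.cst (-1), []) :: c.flatMap fun z => pmul N z.1 z.2)) (by fun_prop) fun G => ?_
  have key : ∀ P, P ∈ Ideal.span {P | ∃ g ∈ G, pev N MvPolynomial.X g = P} ↔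
      ∃ c : List (PC × PC), (∀ z ∈ c, z.2 ∈ G) ∧ (c.map fun z => pev N MvPolynomial.X z.1 *
        pev N (MvPolynomial.X : ℕ → MvPolynomial ℕ F) z.2).sum = P := by
    intro P
    constructor
    · intro h
      induction h using Submodule.span_induction with
      | mem x hx =>
        obtain ⟨g, hg, rfl⟩ := hx
        exact ⟨[([(N.cst 1, [])], g)], by simpa using hg, by simp⟩
      | zero => exact ⟨[], by simp, rfl⟩
      | add x y _ _ hx hy =>
        obtain ⟨c, h1, rfl⟩ := hx
        obtain ⟨d, h2, rfl⟩ := hy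
        refine ⟨c ++ d, fun z hz => ?_, by simp⟩
        rcases List.mem_append.1 hz with h | h
        exacts [h1 z h, h2 z h]
      | smul a x _ hx =>
        obtain ⟨c, h1, rfl⟩ := hx
        obtain ⟨q, rfl⟩ := pev_surj N a
        refine ⟨c.map fun z => (pmul N q z.1, z.2), fun z hz => ?_, ?_⟩
        · obtain ⟨z', hz', rfl⟩ := List.mem_map.1 hz
          exact h1 z' hz'
        · simp [Function.comp_def, pev_pmul, mul_assoc, List.sum_map_mul_left]
    · rintro ⟨c, h1, rfl⟩
      refine list_sum_mem fun x hx => ?_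
      obtain ⟨z, hz, rfl⟩ := List.mem_map.1 hx
      exact Ideal.mul_mem_left _ _ (Ideal.subset_span ⟨_, h1 z hz, rfl⟩)
  simp only [Uns, key, Bool.and_eq_true, List.all_eq_true, decide_eq_true_eq, ztest_iff, pev_cons,
    pev_cert, Nm.μ_cst, map_neg, map_one, List.map_nil, List.prod_nil, mul_one, neg_add_eq_zero,
    eq_comm (a := (1 : MvPolynomial ℕ F))]

theorem Uns.sound [Nontrivial L] {G : List PC} (h : Uns N G) (x : ℕ → L) :
    ¬∀ g ∈ G, pev N x g = 0 := by
  intro hx
  have : Ideal.span {P | ∃ g ∈ G, pev N MvPolynomial.X g = P} ≤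
      RingHom.ker (MvPolynomial.aeval x : MvPolynomial ℕ F →ₐ[F] L) := by
    rw [Ideal.span_le]
    rintro _ ⟨g, hg, rfl⟩
    simp only [SetLike.mem_coe, RingHom.mem_ker, aeval_pev]
    exact hx g hg
  simpa using this h

theorem uns_of {G : List PC}
    (h : ∀ (L : Type) [Field L] [Algebra F L] (x : ℕ → L), ¬∀ g ∈ G, pev N x g = 0) : Uns N G := by
  by_contra hn
  obtain ⟨M, hM, hle⟩ := Ideal.exists_le_maximal _ ((Ideal.ne_top_iff_one _).2 hn)
  let _ := Ideal.Quotient.field M
  refine h (MvPolynomial ℕ F ⧸ M) (fun j => Ideal.Quotient.mkₐ F M (MvPolynomial.X j)) fun g hg => ?_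
  rw [← aeval_pev, ← MvPolynomial.comp_aeval_apply, MvPolynomial.aeval_X_left_apply]
  exact Ideal.Quotient.eq_zero_iff_mem.2 (hle (Ideal.subset_span ⟨g, hg, rfl⟩))

open Polynomial

/-- univariate codes -/
noncomputable def up (f : List (ℕ × ℕ)) : F[X] := (f.map fun m => C (N.μ m.1) * X ^ m.2).sum

def uv (f : List (ℕ × ℕ)) (v : ℕ) : PC := f.map fun m => (m.1, List.replicate m.2 v)

theorem pev_uv (x : ℕ → L) (f : List (ℕ × ℕ)) (v : ℕ) :
    pev N x (uv f v) = aeval (x v) (up N f) := by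
  unfold uv up
  induction f with
  | nil => simp
  | cons m f ih => simp [ih]

theorem up_surj (P : F[X]) : ∃ f, up N f = P := by
  induction P using Polynomial.induction_on' with
  | add p q hp hq =>
    obtain ⟨p, rfl⟩ := hp
    obtain ⟨q, rfl⟩ := hq
    exact ⟨p ++ q, by simp [up]⟩
  | monomial n a => exact ⟨[(N.cst a, n)], by simp [up, C_mul_X_pow_eq_monomial]⟩

noncomputable def sys (f B : List (ℕ × ℕ)) (n a0 : ℕ) : List PC :=
  (List.range ((n + 1) ^ 2)).map (fun j => uv f (4 * j)) ++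
  (List.range ((n + 1) ^ 2)).map (fun j => (N.cst (-1), [4 * j + 1]) :: uv B (4 * j)) ++
  (List.range ((n + 1) ^ 2)).flatMap (fun j => (List.range j).map fun l =>
    [(N.cst 1, [4 * Nat.pair j l + 3, 4 * j]), (N.cst (-1), [4 * Nat.pair j l + 3, 4 * l]),
      (N.cst (-1), [])]) ++
  (List.range ((n + 1) ^ 2)).map (fun j => (List.range ((n + 1) ^ 2)).map fun a =>
    (N.cst 1, (4 * a + 2) :: (List.replicate (a % (n + 1)) (4 * j) ++
      List.replicate (a / (n + 1)) (4 * j + 1)))) ++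
  [[(N.cst 1, [4 * a0 + 2]), (N.cst (-1), [])]]

@[fun_prop] theorem ci_sys {f B : α → List (ℕ × ℕ)} {n a : α → ℕ} (hf : CI ∅ f) (hB : CI ∅ B)
    (hn : CI ∅ n) (ha : CI ∅ a) : CI ∅ fun z => sys N (f z) (B z) (n z) (a z) := by
  unfold sys uv; fun_prop

theorem sys_iff (x : ℕ → L) (f B : List (ℕ × ℕ)) (n a0 : ℕ) :
    (∀ g ∈ sys N f B n a0, pev N x g = 0) ↔
      (∀ j < (n + 1) ^ 2, aeval (x (4 * j)) (up N f) = 0) ∧
      (∀ j < (n + 1) ^ 2, x (4 * j + 1) = aeval (x (4 * j)) (up N B)) ∧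
      (∀ j < (n + 1) ^ 2, ∀ l < j, x (4 * Nat.pair j l + 3) * (x (4 * j) - x (4 * l)) = 1) ∧
      (∀ j < (n + 1) ^ 2, ∑ a ∈ Finset.range ((n + 1) ^ 2),
        x (4 * a + 2) * mon n a (x (4 * j)) (x (4 * j + 1)) = 0) ∧ x (4 * a0 + 2) = 1 := by
  have e : ∀ j, pev N x ((List.range ((n + 1) ^ 2)).map fun a =>
      (N.cst 1, (4 * a + 2) :: (List.replicate (a % (n + 1)) (4 * j) ++
      List.replicate (a / (n + 1)) (4 * j + 1)))) = ∑ a ∈ Finset.range ((n + 1) ^ 2),
        x (4 * a + 2) * mon n a (x (4 * j)) (x (4 * j + 1)) := fun j => by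
    simp [pev, mon, Function.comp_def, ← List.sum_toFinset _ List.nodup_range,
      List.toFinset_range]
  simp only [sys, List.forall_mem_append, List.forall_mem_map, List.mem_range,
    List.forall_mem_flatMap, e, pev_uv, pev_cons, List.forall_mem_singleton, and_assoc]
  have e2 : ∀ a b : L, a + (-b - 1) = 0 ↔ a - b = 1 := fun a b => by
    rw [← sub_eq_zero (a := a - b)]; constructor <;> intro h <;> linear_combination h
  simp [neg_add_eq_zero, mul_sub, ← sub_eq_add_neg, sub_eq_zero, e2]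

theorem good_of_uns {f B : List (ℕ × ℕ)} {n : ℕ} (h : ∀ a < (n + 1) ^ 2, Uns N (sys N f B n a))
    (L : Type) [Field L] [Algebra F L] : Good (up N f) (up N B) n L := by
  intro ρ h1 h2 c hc a ha
  by_contra hn
  refine (h a ha).sound N (fun v => if v % 4 = 0 then ρ (v / 4) else if v % 4 = 1 then
    aeval (ρ (v / 4)) (up N B) else if v % 4 = 2 then (c a)⁻¹ * c (v / 4) else
    (ρ (v / 4).unpair.1 - ρ (v / 4).unpair.2)⁻¹) ((sys_iff N _ f B n a).2 ?_)
  have e0 : ∀ j, 4 * j % 4 = 0 ∧ 4 * j / 4 = j := fun j => by omega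
  have e1 : ∀ j, (4 * j + 1) % 4 = 1 ∧ (4 * j + 1) / 4 = j := fun j => by omega
  have e2 : ∀ j, (4 * j + 2) % 4 = 2 ∧ (4 * j + 2) / 4 = j := fun j => by omega
  have e3 : ∀ j, (4 * j + 3) % 4 = 3 ∧ (4 * j + 3) / 4 = j := fun j => by omega
  simp only [e0, e1, e2, e3, if_true, Nat.unpair_pair]
  norm_num
  refine ⟨h2, fun j hj l hl => inv_mul_cancel₀ (sub_ne_zero.2 fun h => ?_), fun j hj => ?_,
    inv_mul_cancel₀ hn⟩
  · have := h1 j hj l (hl.trans hj) h
    omega
  · simp only [mul_assoc, ← Finset.mul_sum, hc j hj, mul_zero]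

theorem uns_of_good {f B : List (ℕ × ℕ)} {n a : ℕ} (ha : a < (n + 1) ^ 2)
    (h : ∀ (L : Type) [Field L] [Algebra F L], Good (up N f) (up N B) n L) :
    Uns N (sys N f B n a) := by
  refine uns_of N fun L _ _ x hx => ?_
  obtain ⟨h1, h2, h3, h4, h5⟩ := (sys_iff N x f B n a).1 hx
  have := h L (fun j => x (4 * j)) (fun j hj l hl hjl => by
    rcases lt_trichotomy j l with g | g | g
    · simpa [hjl] using h3 l hl j g
    · exact g
    · simpa [hjl] using h3 j hj l g) h1 (fun a => x (4 * a + 2))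
    (fun j hj => by rw [← h2 j hj]; exact h4 j hj) a ha
  simp [h5] at this

end Pool.Agent.H62.Cp
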