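import Mathlib

/-! Computable fields and their cohesive powers. -/

set_option autoImplicit false

namespace Pool.Agent.H62.Cp

open Filter

/-- a computable presentation of a field: injective names in `ℕ` forming a computable set, with
computable addition and multiplication -/
structure CField (F : Type) [Field F] where
  ν : F → ℕ
  inj : Function.Injective ν
  dom : ComputablePred (· ∈ Set.range ν)
  add : ∃ f : ℕ × ℕ →. ℕ, Partrec f ∧ ∀ x y, ν (x + y) ∈ f (ν x, ν y)
  mul : ∃ f : ℕ × ℕ →. ℕ, Partrec f ∧ ∀ x y, ν (x * y) ∈ f (ν x, ν y)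

/-- cohesive sets -/
def Cohesive (C : Set ℕ) : Prop :=
  C.Infinite ∧ ∀ W : Set ℕ, REPred (· ∈ W) → (C \ W).Finite ∨ (C ∩ W).Finite

/-- for almost every `i`: for all but finitely many `i ∈ C` -/
def ae (C : Set ℕ) : Filter ℕ := cofinite ⊓ Filter.principal C

variable {F K : Type} [Field F] [Field K]

/-- `u` agrees at almost every `i` with the values of a partial computable function -/
def CField.Rep (A : CField F) (C : Set ℕ) (u : ℕ → F) : Prop :=
  ∃ φ : ℕ →. ℕ, Partrec φ ∧ ∀ᶠ i in ae C, A.ν (u i) ∈ φ i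

theorem CField.Rep.const (A : CField F) (C : Set ℕ) (a : F) : A.Rep C fun _ => a :=
  ⟨fun _ => Part.some (A.ν a), Computable.const _, Eventually.of_forall fun _ => Part.mem_some _⟩

theorem CField.Rep.op {A : CField F} {C : Set ℕ} {u v : ℕ → F} (hu : A.Rep C u) (hv : A.Rep C v)
    {o : F → F → F} (h : ∃ f : ℕ × ℕ →. ℕ, Partrec f ∧ ∀ x y, A.ν (o x y) ∈ f (A.ν x, A.ν y)) :
    A.Rep C fun i => o (u i) (v i) := by
  obtain ⟨φ, h1, h2⟩ := hu
  obtain ⟨ψ, h3, h4⟩ := hv
  obtain ⟨f, h5, h6⟩ := h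
  refine ⟨fun i => (φ i).bind fun a => (ψ i).bind fun b => f (a, b),
    h1.bind ((h3.comp Computable.fst).bind (h5.comp
      ((Computable.snd.comp Computable.fst).pair Computable.snd)).to₂).to₂, ?_⟩
  filter_upwards [h2, h4] with i g1 g2
  exact Part.mem_bind g1 (Part.mem_bind g2 (h6 _ _))

/-- the cohesive power: classes, modulo equality at almost every `i`, of partial computable
functions into `F` defined at almost every `i`, with pointwise operations -/
def CField.Pow (A : CField F) (C : Set ℕ) : Subring (Germ (ae C) F) where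
  carrier := {g | ∃ u : ℕ → F, A.Rep C u ∧ g = (u : Germ (ae C) F)}
  mul_mem' := by
    rintro _ _ ⟨u, hu, rfl⟩ ⟨v, hv, rfl⟩
    exact ⟨_, hu.op hv A.mul, rfl⟩
  one_mem' := ⟨_, CField.Rep.const A C 1, rfl⟩
  add_mem' := by
    rintro _ _ ⟨u, hu, rfl⟩ ⟨v, hv, rfl⟩
    exact ⟨_, hu.op hv A.add, rfl⟩
  zero_mem' := ⟨_, CField.Rep.const A C 0, rfl⟩
  neg_mem' := by
    rintro _ ⟨u, hu, rfl⟩
    refine ⟨_, (CField.Rep.const A C (-1)).op hu A.mul, ?_⟩
    simp only [neg_mul, one_mul]
    rfl

/-- the embedding `F → K` is computable -/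
def CompEmb (A : CField F) (B : CField K) [Algebra F K] : Prop :=
  ∃ ψ : ℕ →. ℕ, Partrec ψ ∧ ∀ x, B.ν (algebraMap F K x) ∈ ψ (A.ν x)

/-- the pointwise map on germs -/
def germMap (l : Filter ℕ) (f : F →+* K) : Germ l F →+* Germ l K where
  toFun := Germ.map f
  map_one' := congrArg Germ.ofFun (funext fun _ => map_one f)
  map_mul' x y := Germ.inductionOn₂ x y fun _ _ =>
    congrArg Germ.ofFun (funext fun _ => map_mul f _ _)
  map_zero' := congrArg Germ.ofFun (funext fun _ => map_zero f)
  map_add' x y := Germ.inductionOn₂ x y fun _ _ =>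
    congrArg Germ.ofFun (funext fun _ => map_add f _ _)

/-- the induced embedding of cohesive powers -/
def powMap {A : CField F} {B : CField K} [Algebra F K] (h : CompEmb A B) (C : Set ℕ) :
    A.Pow C →+* B.Pow C :=
  (germMap (ae C) (algebraMap F K)).restrict (A.Pow C) (B.Pow C) (by
    rintro _ ⟨u, ⟨φ, h1, h2⟩, rfl⟩
    obtain ⟨ψ, h3, h4⟩ := h
    refine ⟨fun i => algebraMap F K (u i),
      ⟨fun i => (φ i).bind ψ, h1.bind (h3.comp Computable.snd).to₂, ?_⟩, rfl⟩
    filter_upwards [h2] with i g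
    exact Part.mem_bind g (h4 _))

/-- the transcendence degree of the extension of cohesive powers -/
noncomputable def powTrdeg {A : CField F} {B : CField K} [Algebra F K] (h : CompEmb A B)
    (C : Set ℕ) : Cardinal :=
  letI := (powMap h C).toAlgebra
  Algebra.trdeg (A.Pow C) (B.Pow C)

end Pool.Agent.H62.Cp
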