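import Pool.Agent.H62.Cp2
import Pool.Agent.H62.CpDefs

/-! Cohesive powers of separable extensions never have transcendence degree one. -/

set_option autoImplicit false

namespace Pool.Agent.H62.Cp

open Pool.Agent.H37 Polynomial Filter

variable {F K : Type} [Field F] [Field K] [Algebra F K] {α : Type} [Primcodable α]

noncomputable def mf (N : Nm F) (r : ℕ) (cs : List ℕ) : List (ℕ × ℕ) :=
  (N.cst 1, r) :: (List.range r).map fun i => (cs.getD i 0, i)

@[fun_prop] theorem ci_mf (N : Nm F) {r : α → ℕ} {cs : α → List ℕ} (hr : CI ∅ r) (hc : CI ∅ cs) :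
    CI ∅ fun a => mf N (r a) (cs a) := by unfold mf; fun_prop

theorem up_mf (N : Nm F) (r : ℕ) (cs : List ℕ) :
    up N (mf N r cs) = X ^ r + ∑ i ∈ Finset.range r, C (N.μ (cs.getD i 0)) * X ^ i := by
  simp [up, mf, Function.comp_def, ← List.sum_toFinset _ List.nodup_range, List.toFinset_range]

theorem mf_monic (N : Nm F) (r : ℕ) (cs : List ℕ) :
    (up N (mf N r cs)).Monic ∧ (up N (mf N r cs)).natDegree = r := by
  have h : degree (∑ i ∈ Finset.range r, C (N.μ (cs.getD i 0)) * X ^ i) < r := by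
    rw [Finset.sum_range]
    exact degree_sum_fin_lt _
  rw [up_mf]
  refine ⟨monic_X_pow_add h, ?_⟩
  rw [natDegree_add_eq_left_of_degree_lt (by rwa [degree_X_pow]), natDegree_X_pow]

theorem rel_le (N : Nm F) {r : ℕ} {cs : List ℕ} {x : K} (h : aeval x (up N (mf N r cs)) = 0) :
    (minpoly F x).natDegree ≤ r :=
  (natDegree_le_natDegree (minpoly.min F x (mf_monic N r cs).1 h)).trans (mf_monic N r cs).2.le

theorem rel_ex (N : Nm F) {r : ℕ} {x : K} (hx : IsIntegral F x) (h : (minpoly F x).natDegree ≤ r) :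
    ∃ cs : List ℕ, cs.length = r ∧ (∀ c ∈ cs, ∃ a, N.cst a = c) ∧ aeval x (up N (mf N r cs)) = 0 := by
  have h1 : (minpoly F x * X ^ (r - (minpoly F x).natDegree)).Monic :=
    (minpoly.monic hx).mul (monic_X_pow _)
  have h2 : (minpoly F x * X ^ (r - (minpoly F x).natDegree)).natDegree = r := by
    rw [(minpoly.monic hx).natDegree_mul (monic_X_pow _), natDegree_X_pow]; omega
  have h3 : aeval x (minpoly F x * X ^ (r - (minpoly F x).natDegree)) = 0 := by simp
  generalize minpoly F x * X ^ (r - (minpoly F x).natDegree) = P at h1 h2 h3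
  refine ⟨(List.range r).map fun i => N.cst (P.coeff i), by simp, by simp, ?_⟩
  rw [up_mf, ← h3]
  conv_rhs => rw [h1.as_sum, h2]
  congr 2
  refine Finset.sum_congr rfl fun i hi => ?_
  simp [List.getD_eq_getElem?_getD, Finset.mem_range.1 hi]

theorem exists_kev (N : Nm F) (M : Nm K) {emb : ℕ → ℕ} (h1 : CI ∅ emb)
    (h2 : ∀ c, M.μ (emb c) = algebraMap F K (N.μ c)) :
    ∃ kev : List (ℕ × ℕ) → ℕ → ℕ, CI ∅ (fun q : List (ℕ × ℕ) × ℕ => kev q.1 q.2) ∧
      ∀ f k, M.μ (kev f k) = aeval (M.μ k) (up N f) := by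
  refine ⟨fun f k => f.foldr (fun m c => M.ad (M.mu (emb m.1) (M.pw k m.2)) c) (M.cst 0),
    by fun_prop, fun f k => ?_⟩
  beta_reduce
  induction f with
  | nil => simp [up]
  | cons m f ih => rw [List.foldr_cons, M.had, ih, M.hmu, h2]; simp [up]

theorem second (N : Nm F) (M : Nm K) {emb : ℕ → ℕ} (h1 : CI ∅ emb)
    (h2 : ∀ c, M.μ (emb c) = algebraMap F K (N.μ c)) (hs : ∀ x : K, IsSeparable F x) :
    ∃ G : ℕ → ℕ, CI ∅ G ∧ ∀ k n, (n + 1) ^ 2 ≤ (minpoly F (M.μ k)).natDegree →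
      Ind F n (M.μ k) (M.μ (G k)) := by
  classical
  obtain ⟨kev, h3, h4⟩ := exists_kev N M h1 h2
  rcases finite_or_infinite F with hF | hF
  · have := Fintype.ofFinite F
    let Fl : List ℕ := (Finset.univ : Finset F).toList.map N.cst
    have hex : ∀ k r, ((allLists Fl r).any fun cs => M.eq (kev (mf N r cs) k) (M.cst 0)) = true ↔
        (minpoly F (M.μ k)).natDegree ≤ r := by
      intro k r
      simp only [List.any_eq_true, M.heq, h4, Nm.μ_cst]
      refine ⟨fun ⟨cs, _, h⟩ => rel_le N h, fun h => ?_⟩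
      obtain ⟨cs, g1, g2, g3⟩ := rel_ex N (hs _).isIntegral h
      exact ⟨cs, mem_allLists.2 ⟨g1.le, fun c hc => by simpa [Fl] using g2 c hc⟩, g3⟩
    have hd := CI.find (O := ∅)
      (p := fun k r => (allLists Fl r).any fun cs => M.eq (kev (mf N r cs) k) (M.cst 0))
      (by fun_prop) fun k => ⟨_, (hex k _).2 le_rfl⟩
    replace hd : CI ∅ fun k => (minpoly F (M.μ k)).natDegree := hd.of_eq fun k => by
      rw [Nat.find_eq_iff]
      exact ⟨(hex k _).2 le_rfl, fun r hr h => absurd ((hex k r).1 h) (not_le.2 hr)⟩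
    have hq := CI.prim1 Primrec.nat_sqrt hd
    refine ⟨fun k => M.pw k (minpoly F (M.μ k)).natDegree.sqrt, ci_pw M (by fun_prop) hq,
      fun k n hn => ?_⟩
    rw [Nm.μ_pw]
    exact ind_pow (linearIndependent_pow _) (Nat.sqrt_le' _) (Nat.le_sqrt'.2 hn)
  · have r1 : REPred fun q : ((ℕ × ℕ × List ℕ × List (ℕ × ℕ)) × ℕ) × ℕ =>
        Uns N (sys N (mf N q.1.1.2.1 q.1.1.2.2.1) q.1.1.2.2.2 q.1.2 q.2) :=
      REPred.comp' (uns_re N) (g := fun q : ((ℕ × ℕ × List ℕ × List (ℕ × ℕ)) × ℕ) × ℕ =>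
        sys N (mf N q.1.1.2.1 q.1.1.2.2.1) q.1.1.2.2.2 q.1.2 q.2) (by fun_prop)
    have r2 : REPred fun q : (ℕ × ℕ × List ℕ × List (ℕ × ℕ)) × ℕ => ∀ a ∈ List.range ((q.2 + 1) ^ 2),
        Uns N (sys N (mf N q.1.2.1 q.1.2.2.1) q.1.2.2.2 q.2 a) :=
      re_forall_mem (p := fun (q : (ℕ × ℕ × List ℕ × List (ℕ × ℕ)) × ℕ) a =>
        Uns N (sys N (mf N q.1.2.1 q.1.2.2.1) q.1.2.2.2 q.2 a)) r1 (by fun_prop)
    have r3 : REPred fun q : ℕ × ℕ × List ℕ × List (ℕ × ℕ) => ∀ n ∈ List.range q.2.1,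
        ∀ a ∈ List.range ((n + 1) ^ 2), Uns N (sys N (mf N q.2.1 q.2.2.1) q.2.2.2 n a) :=
      re_forall_mem (p := fun (q : ℕ × ℕ × List ℕ × List (ℕ × ℕ)) n =>
        ∀ a ∈ List.range ((n + 1) ^ 2), Uns N (sys N (mf N q.2.1 q.2.2.1) q.2.2.2 n a)) r2
        (by fun_prop)
    have r4 : REPred fun q : ℕ × ℕ × List ℕ × List (ℕ × ℕ) =>
        aeval (M.μ q.1) (up N (mf N q.2.1 q.2.2.1)) = 0 :=
      re_of_bool (fun q => M.eq (kev (mf N q.2.1 q.2.2.1) q.1) (M.cst 0)) (by fun_prop)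
          fun q => by simp [M.heq, h4]
    obtain ⟨G, g1, g2⟩ := re_choice (p := fun (k : ℕ) (z : ℕ × List ℕ × List (ℕ × ℕ)) =>
      aeval (M.μ k) (up N (mf N z.1 z.2.1)) = 0 ∧ ∀ n ∈ List.range z.1,
        ∀ a ∈ List.range ((n + 1) ^ 2), Uns N (sys N (mf N z.1 z.2.1) z.2.2 n a))
      (re_and r4 r3)
      fun k => by
        obtain ⟨cs, -, -, g3⟩ := rel_ex N (hs (M.μ k)).isIntegral le_rfl
        obtain ⟨B, hB⟩ := exists_good (mf_monic N (minpoly F (M.μ k)).natDegree cs).1.ne_zero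
          (minpoly F (M.μ k)).natDegree
        obtain ⟨B, rfl⟩ := up_surj N B
        exact ⟨(_, cs, B), g3, fun n hn a ha =>
          uns_of_good N (List.mem_range.1 ha) (hB n (List.mem_range.1 hn))⟩
    refine ⟨fun k => kev (G k).2.2 k, by fun_prop, fun k n hn => ?_⟩
    rw [h4]
    have := rel_le N (g2 k).1
    refine ind_of_good (hs _) (g2 k).1 hn (good_of_uns N (fun a ha =>
      (g2 k).2 n (List.mem_range.2 ?_) a (List.mem_range.2 ha)) _)
    nlinarith

theorem exists_nm (A : CField F) :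
    ∃ N : Nm F, (∀ x, N.μ (A.ν x) = x) ∧ CI ∅ fun n => A.ν (N.μ n) := by
  classical
  obtain ⟨D, hD, hD'⟩ := computablePred_iff.1 A.dom
  let μ : ℕ → F := fun n => if h : n ∈ Set.range A.ν then h.choose else 0
  have h1 : ∀ x, μ (A.ν x) = x := fun x => by
    have h : A.ν x ∈ Set.range A.ν := ⟨x, rfl⟩
    simp only [μ, dif_pos h]
    exact A.inj h.choose_spec
  have h2 : CI ∅ fun n => A.ν (μ n) :=
    (show CI ∅ fun n => cond (D n) n (A.ν 0) by fun_prop).of_eq fun n => by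
      by_cases h : n ∈ Set.range A.ν
      · simp only [μ, dif_pos h, (hD' n).1 h, cond_true]; exact h.choose_spec.symm
      · simp only [μ, dif_neg h, Bool.eq_false_iff.2 (mt (hD' n).2 h), cond_false]
  have h3 : ∀ o : F → F → F,
      (∃ f : ℕ × ℕ →. ℕ, Partrec f ∧ ∀ x y, A.ν (o x y) ∈ f (A.ν x, A.ν y)) →
      CI ∅ fun q : ℕ × ℕ => A.ν (o (μ q.1) (μ q.2)) := fun o ⟨f, hf, hf'⟩ =>
    RI.ci_of_tot (RI.of_partrec hf (g := fun q : ℕ × ℕ => (A.ν (μ q.1), A.ν (μ q.2)))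
      ((h2.comp (by fun_prop)).mk (h2.comp (by fun_prop)))) fun q => hf' _ _
  exact ⟨⟨μ, fun x => ⟨_, h1 x⟩, fun a b => A.ν (μ a + μ b), fun a b => A.ν (μ a * μ b),
    fun a b => decide (A.ν (μ a) = A.ν (μ b)), h3 _ A.add, h3 _ A.mul,
    CI.eq (h2.comp (by fun_prop)) (h2.comp (by fun_prop)), fun _ _ => h1 _, fun _ _ => h1 _,
    fun a b => by simp [A.inj.eq_iff]⟩, h1, h2⟩

theorem rep_iff {A : CField F} {N : Nm F} (h1 : ∀ x, N.μ (A.ν x) = x)
    (h2 : CI ∅ fun n => A.ν (N.μ n)) (C : Set ℕ) (u : ℕ → F) :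
    A.Rep C u ↔ ∃ φ : ℕ →. ℕ, Partrec φ ∧ ∀ᶠ i in ae C, ∃ k ∈ φ i, N.μ k = u i := by
  constructor
  · rintro ⟨φ, g1, g2⟩
    exact ⟨φ, g1, g2.mono fun i hi => ⟨_, hi, h1 _⟩⟩
  · rintro ⟨φ, g1, g2⟩
    refine ⟨fun i => (φ i).map fun n => A.ν (N.μ n),
      g1.map (h2.computable.comp Computable.snd).to₂, g2.mono ?_⟩
    rintro i ⟨k, hk, hk'⟩
    rw [← hk']
    exact Part.mem_map _ hk

theorem re_sel {β : Type} [Primcodable β] {p : ℕ → β → Prop}
    (hp : REPred fun q : ℕ × β => p q.1 q.2) :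
    ∃ χ : ℕ →. β, Partrec χ ∧ ∀ i, (∃ b, p i b) → ∃ b ∈ χ i, p i b := by
  obtain ⟨D, hD, -, hh⟩ := re_stage hp
  let f : ℕ → ℕ → Option β := fun i n => (Encodable.decode (α := β × ℕ) n).bind fun z =>
    cond (D (i, z.1) z.2) (some z.1) none
  have hf : CI ∅ fun q : ℕ × ℕ => f q.1 q.2 := by simp only [f]; fun_prop
  refine ⟨fun i => Nat.rfindOpt (f i), partrec_of_ri (RI.rfindOpt hf), fun i ⟨b, hb⟩ => ?_⟩
  obtain ⟨s, hs⟩ := (hh (i, b)).1 hb
  have : (Nat.rfindOpt (f i)).Dom :=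
    Nat.rfindOpt_dom.2 ⟨Encodable.encode (b, s), b, by simp [f, hs]⟩
  refine ⟨_, Part.get_mem this, ?_⟩
  obtain ⟨n, hn⟩ := Nat.rfindOpt_spec (Part.get_mem this)
  simp only [f, Option.mem_def, Option.bind_eq_some_iff] at hn
  obtain ⟨z, -, hz⟩ := hn
  cases hd : D (i, z.1) z.2 with
  | false => simp [hd] at hz
  | true =>
    simp only [hd, cond_true, Option.some.injEq] at hz
    rw [← hz]
    exact (hh (i, z.1)).2 ⟨_, hd⟩

theorem ae_iff {C : Set ℕ} {p : ℕ → Prop} : (∀ᶠ i in ae C, p i) ↔ {i | i ∈ C ∧ ¬p i}.Finite := by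
  simp [ae, eventually_inf_principal, eventually_cofinite]

theorem Cohesive.neBot {C : Set ℕ} (h : Cohesive C) : (ae C).NeBot := by
  rw [← forall_mem_nonempty_iff_neBot]
  intro s hs
  by_contra hn
  rw [Set.not_nonempty_iff_eq_empty] at hn
  subst hn
  exact h.1 (by simpa using ae_iff.1 (show ∀ᶠ i in ae C, False from hs))

theorem Cohesive.dich {C : Set ℕ} (h : Cohesive C) {p : ℕ → Prop} (hp : REPred p) :
    (∀ᶠ i in ae C, p i) ∨ ∀ᶠ i in ae C, ¬p i := by
  rcases h.2 {i | p i} hp with g | g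
  · exact Or.inl (ae_iff.2 g)
  · exact Or.inr (ae_iff.2 (by simpa using! g))

section

variable {A : CField F} {B : CField K} (h : CompEmb A B) (C : Set ℕ)

theorem rel_germ {ι : Type} (s : Finset ι) (c : ι → A.Pow C) (z : ι → B.Pow C) (v : ι → ℕ → F)
    (w : ι → ℕ → K) (hc : ∀ a, (c a).1 = (v a : Germ (ae C) F))
    (hz : ∀ a, (z a).1 = (w a : Germ (ae C) K)) :
    ∑ a ∈ s, powMap h C (c a) * z a = 0 ↔ ∀ᶠ i in ae C, ∑ a ∈ s, v a i • w a i = 0 := by
  have e : ((∑ a ∈ s, powMap h C (c a) * z a : B.Pow C) : Germ (ae C) K) =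
      Germ.coeRingHom (ae C) (∑ a ∈ s, fun i => v a i • w a i) := by
    rw [AddSubmonoidClass.coe_finsetSum, map_sum]
    refine Finset.sum_congr rfl fun a _ => ?_
    show germMap (ae C) (algebraMap F K) (c a).1 * (z a).1 = _
    rw [hc, hz]
    exact congrArg Germ.ofFun (funext fun i => (Algebra.smul_def _ _).symm)
  rw [Subtype.ext_iff, e]
  refine Germ.coe_eq.trans ?_
  simp only [EventuallyEq, Finset.sum_apply]

theorem indep {x y : ℕ → K} (hx : B.Rep C x) (hy : B.Rep C y)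
    (H : ∀ n, ∀ᶠ i in ae C, Ind F n (x i) (y i)) :
    letI := (powMap h C).toAlgebra
    AlgebraicIndependent (A.Pow C) ![(⟨_, x, hx, rfl⟩ : B.Pow C), ⟨_, y, hy, rfl⟩] := by
  classical
  let _ := (powMap h C).toAlgebra
  rw [algebraicIndependent_iff]
  intro p hp
  let n := p.totalDegree
  let dd : ℕ → Fin 2 →₀ ℕ := fun a => Finsupp.single 0 (a % (n + 1)) + Finsupp.single 1 (a / (n + 1))
  have h1 : Function.Injective dd := fun a b hab => by
    have g0 := congrArg (· 0) hab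
    have g1 := congrArg (· 1) hab
    simp [dd] at g0 g1
    rw [← Nat.mod_add_div a (n + 1), g0, g1, Nat.mod_add_div]
  have h2 : p.support ⊆ (Finset.range ((n + 1) ^ 2)).image dd := fun d hd => by
    have g : ∀ j, d j ≤ n := fun j =>
      (MvPolynomial.monomial_le_degreeOf j hd).trans (MvPolynomial.degreeOf_le_totalDegree p j)
    have g0 := g 0
    have g1 := g 1
    refine Finset.mem_image.2 ⟨d 0 + (n + 1) * d 1, Finset.mem_range.2 (by nlinarith), ?_⟩
    ext j
    fin_cases j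
    · simp [dd, Nat.mod_eq_of_lt (Nat.lt_succ_of_le g0)]
    · simp [dd, Nat.add_mul_div_left _ _ (Nat.succ_pos n), Nat.div_eq_of_lt (Nat.lt_succ_of_le g0)]
  have h3 : p = ∑ a ∈ Finset.range ((n + 1) ^ 2), MvPolynomial.monomial (dd a) (p.coeff (dd a)) := by
    rw [← Finset.sum_image (f := fun d => MvPolynomial.monomial d (p.coeff d)) h1.injOn]
    conv_lhs => rw [p.as_sum]
    exact Finset.sum_subset h2 fun d _ hd => by rw [MvPolynomial.notMem_support_iff.1 hd, map_zero]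
  choose v hv hv' using fun a => (p.coeff (dd a)).2
  have h4 := (rel_germ h C (Finset.range ((n + 1) ^ 2)) (fun a => p.coeff (dd a))
    (fun a => mon n a ⟨_, x, hx, rfl⟩ ⟨_, y, hy, rfl⟩) v (fun a i => mon n a (x i) (y i)) hv'
    (fun a => rfl)).1 (by
      rw [← hp]
      conv_rhs => rw [h3, map_sum]
      refine Finset.sum_congr rfl fun a _ => ?_
      rw [MvPolynomial.aeval_monomial, Finsupp.prod_fintype _ _ (by simp)]
      simp [dd, mon]
      rfl)
  rw [h3]
  refine Finset.sum_eq_zero fun a ha => ?_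
  have : p.coeff (dd a) = 0 := Subtype.ext (by
    rw [hv']
    refine Germ.coe_eq.2 ?_
    filter_upwards [h4, H n] with i g1 g2
    exact g2 (fun a => v a i) g1 a (Finset.mem_range.1 ha))
  rw [this, map_zero]

end

theorem main {A : CField F} {B : CField K} (h : CompEmb A B) {C : Set ℕ} (hC : Cohesive C)
    (hs : ∀ x : K, IsAlgebraic F x → IsSeparable F x) : powTrdeg h C ≠ 1 := by
  classical
  let _ := (powMap h C).toAlgebra
  have := hC.neBot
  intro h1
  obtain ⟨N, n1, n2⟩ := exists_nm A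
  obtain ⟨M, m1, m2⟩ := exists_nm B
  suffices ∃ x y : ℕ → K, B.Rep C x ∧ B.Rep C y ∧ ∀ n, ∀ᶠ i in ae C, Ind F n (x i) (y i) by
    obtain ⟨x, y, hx, hy, H⟩ := this
    have := (indep h C hx hy H).cardinalMk_le_trdeg
    rw [show Algebra.trdeg (A.Pow C) (B.Pow C) = 1 from h1] at this
    norm_num at this
  by_cases ha : ∀ x : K, IsAlgebraic F x
  swap
  · obtain ⟨t, ht⟩ := not_forall.1 ha
    refine ⟨fun _ => t, fun i => t ^ i, CField.Rep.const B C t, (rep_iff m1 m2 C _).2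
      ⟨fun i => Part.some (M.pw (M.cst t) i), (show CI ∅ fun i => M.pw (M.cst t) i by
        fun_prop).computable, Eventually.of_forall fun i => ⟨_, Part.mem_some _, by simp⟩⟩,
      fun n => ?_⟩
    have hl : LinearIndependent F fun k : ℕ => t ^ k := by
      have := (basisMonomials F).linearIndependent.map' (aeval t : F[X] →ₐ[F] K).toLinearMap
        (LinearMap.ker_eq_bot.2 (transcendental_iff_injective.1 ht))
      simpa [Function.comp_def, aeval_monomial] using this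
    have : ∀ᶠ i in ae C, n < i := by
      refine Eventually.filter_mono inf_le_left ?_
      rw [Nat.cofinite_eq_atTop]; exact eventually_gt_atTop n
    exact this.mono fun i hi => ind_pow (hl.comp _ Fin.val_injective) le_rfl hi
  obtain ⟨ψ, p1, p2⟩ := id h
  have e1 : CI ∅ fun c => B.ν (algebraMap F K (N.μ c)) :=
    RI.ci_of_tot (RI.of_partrec p1 n2) fun c => p2 _
  obtain ⟨G, g1, g2⟩ := second N M e1 (fun c => m1 _) fun x => hs x (ha x)
  obtain ⟨kev, k1, k2⟩ := exists_kev N M e1 fun c => m1 _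
  have ht : Algebra.Transcendental (A.Pow C) (B.Pow C) := trdeg_ne_zero_iff.1 (by
    rw [show Algebra.trdeg (A.Pow C) (B.Pow C) = 1 from h1]; exact one_ne_zero)
  obtain ⟨⟨_, u, hu, rfl⟩, hγ⟩ := ht.transcendental
  obtain ⟨φ, f1, f2⟩ := (rep_iff m1 m2 C u).1 hu
  have hbig : ∀ r, ∀ᶠ i in ae C, r < (minpoly F (u i)).natDegree := by
    intro r
    obtain ⟨S, s1, -, s2⟩ := partrec_stage f1
    have hre : REPred fun q : ℕ × ℕ × List ℕ =>
        q.2.1 ∈ φ q.1 ∧ aeval (M.μ q.2.1) (up N (mf N r q.2.2)) = 0 :=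
      re_and (re_of_nat (fun q s => decide (S q.1 s = some q.2.1)) (by fun_prop)
        fun q => by simp [s2])
        (re_of_bool (fun q => M.eq (kev (mf N r q.2.2) q.2.1) (M.cst 0)) (by fun_prop)
          fun q => by simp [M.heq, k2])
    rcases hC.dich (re_exists (p := fun i (z : ℕ × List ℕ) =>
      z.1 ∈ φ i ∧ aeval (M.μ z.1) (up N (mf N r z.2)) = 0) hre) with g | g
    · exfalso
      obtain ⟨χ, c1, c2⟩ := re_sel (p := fun i (z : ℕ × List ℕ) =>
        z.1 ∈ φ i ∧ aeval (M.μ z.1) (up N (mf N r z.2)) = 0) hre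
      let v : ℕ → ℕ → F := fun a i =>
        if hd : (χ i).Dom then N.μ (((χ i).get hd).2.getD a 0) else 0
      have hv : ∀ a, A.Rep C (v a) := fun a => (rep_iff n1 n2 C _).2
        ⟨fun i => (χ i).map fun z => z.2.getD a 0, c1.map (show CI ∅
          fun q : ℕ × ℕ × List ℕ => q.2.2.getD a 0 by fun_prop).computable.to₂, g.mono fun i hi => by
            obtain ⟨b, hb, -⟩ := c2 i hi
            refine ⟨_, Part.mem_map _ hb, ?_⟩
            simp only [v, dif_pos (Part.dom_iff_mem.2 ⟨b, hb⟩), Part.get_eq_of_mem hb]⟩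
      let c : ℕ → A.Pow C := fun a => if a = r then 1 else ⟨_, v a, hv a, rfl⟩
      have := (rel_germ h C (Finset.range (r + 1)) c (fun a => ⟨_, u, hu, rfl⟩ ^ a)
        (fun a => if a = r then 1 else v a) (fun a i => u i ^ a)
        (fun a => by simp only [c]; split_ifs <;> rfl) (fun a => rfl)).2 (by
          filter_upwards [g, f2] with i hi ⟨k, hk, hk'⟩
          obtain ⟨b, hb, b1, b2⟩ := c2 i hi
          rw [Part.mem_unique b1 hk, hk', up_mf] at b2
          rw [← b2, Finset.sum_range_succ, add_comm]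
          simp only [if_true, Pi.one_apply, one_smul, map_add, map_pow, aeval_X, map_sum, map_mul,
            aeval_C]
          congr 1
          refine Finset.sum_congr rfl fun a ha => ?_
          rw [if_neg (Finset.mem_range.1 ha).ne, Algebra.smul_def]
          simp only [v, dif_pos (Part.dom_iff_mem.2 ⟨b, hb⟩), Part.get_eq_of_mem hb])
      refine hγ ⟨∑ a ∈ Finset.range (r + 1), Polynomial.C (c a) * X ^ a, fun h0 => ?_, ?_⟩
      · have := congrArg (coeff · r) h0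
        simp [coeff_C_mul, coeff_X_pow, c] at this
      · rw [← this]
        simp only [map_sum, map_mul, aeval_C, map_pow, aeval_X]
        rfl
    · filter_upwards [g, f2] with i hi ⟨k, hk, hk'⟩
      by_contra hn
      obtain ⟨cs, -, -, hcs⟩ := rel_ex N (ha (u i)).isIntegral (not_lt.1 hn)
      exact hi ⟨(k, cs), hk, by rw [hk']; exact hcs⟩
  refine ⟨u, fun i => M.μ (G (B.ν (u i))), hu, ?_, fun n => (hbig ((n + 1) ^ 2)).mono fun i hi => ?_⟩
  · obtain ⟨φ', a1, a2⟩ := hu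
    exact (rep_iff m1 m2 C _).2 ⟨fun i => (φ' i).map G,
      a1.map (g1.computable.comp Computable.snd).to₂, a2.mono fun i hi => ⟨_, Part.mem_map _ hi, rfl⟩⟩
  · have := g2 (B.ν (u i)) n (by rw [m1]; exact hi.le)
    rwa [m1] at this

end Pool.Agent.H62.Cp
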