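import Pool.Agent.H62.CtxDefs

set_option autoImplicit false
open List

namespace H62.Ctx

def st : Option (ℤ × List ℤ) → ℕ → Option (ℤ × List ℤ)
  | none, _ => none
  | some (t, s), x => if x = 0 then some (t + 1, s) else if x = 1 then some (t - 1, s) else
      if x = 2 then some (t, t :: s) else if x = 3 then
        (match s with
          | [] => none
          | r :: s' => if t ≤ r then some (t, s') else none) else none

lemma run_none (w : List ℕ) : w.foldl st none = none := by
  induction w with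
  | nil => rfl
  | cons x w ih => exact ih

def Sh (y : List ℕ) (δ : ℤ) : Prop := ∀ t s, y.foldl st (some (t, s)) = some (t + δ, s)

def Acc (w : List ℕ) : Prop := ∃ t, w.foldl st (some (0, [])) = some (t, [])

lemma Sh.append {y z : List ℕ} {δ ε : ℤ} (h : Sh y δ) (h' : Sh z ε) : Sh (y ++ z) (δ + ε) := by
  intro t s; rw [foldl_append, h, h', add_assoc]

lemma Sh.cast {y : List ℕ} {δ ε : ℤ} (h : Sh y δ) (e : δ = ε) : Sh y ε := e ▸ h

lemma sh0 (i : ℕ) : Sh (replicate i 0) i := by
  induction i with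
  | zero => intro t s; simp
  | succ i ih => intro t s; rw [replicate_succ, foldl_cons]; simp [st, ih _ _]; ring

lemma sh1 (i : ℕ) : Sh (replicate i 1) (-i) := by
  induction i with
  | zero => intro t s; simp
  | succ i ih => intro t s; rw [replicate_succ, foldl_cons]; simp [st, ih _ _]; ring

lemma Sh.wrap {y : List ℕ} {δ : ℤ} (h : Sh y δ) (hδ : δ ≤ 0) : Sh (2 :: y ++ [3]) δ := by
  intro t s
  rw [cons_append, foldl_cons, foldl_append]
  simp [st, h _ _, hδ]

lemma Sh.acc {y : List ℕ} {δ : ℤ} (h : Sh y δ) : Acc y := ⟨_, h 0 []⟩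

lemma Acc.le {z y z' : List ℕ} {δ : ℤ} (h : Acc (z ++ 2 :: y ++ 3 :: z')) (hy : Sh y δ) : δ ≤ 0 := by
  obtain ⟨t, ht⟩ := h
  by_contra hδ
  rw [foldl_append, foldl_append, foldl_cons, foldl_cons] at ht
  rcases e : foldl st (some (0, [])) z with _ | ⟨t', s⟩
  · simp [e, st, run_none] at ht
  · simp [e, st, hy _ _, hδ, run_none] at ht

lemma Acc.congr {z y y' z' : List ℕ} {δ : ℤ} (hy : Sh y δ) (hy' : Sh y' δ) (h : Acc (z ++ y ++ z')) :
    Acc (z ++ y' ++ z') := by
  obtain ⟨t, ht⟩ := h
  refine ⟨t, ?_⟩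
  rw [foldl_append, foldl_append] at ht ⊢
  rcases e : foldl st (some (0, [])) z with _ | ⟨t', s⟩
  · simp [e, run_none] at ht
  · rw [e, hy] at ht; rw [hy', ht]

lemma run_cnt (w : List ℕ) : ∀ t s t' s', w.foldl st (some (t, s)) = some (t', s') →
    (∀ x ∈ w, x < 4) ∧ s'.length + w.count 3 = s.length + w.count 2 := by
  induction w with
  | nil => intro t s t' s' h; simp at h; simp [h.2]
  | cons x w ih =>
    intro t s t' s' h
    rw [foldl_cons] at h
    simp only [st] at h
    split_ifs at h with h0 h1 h2 h3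
    · have := ih _ _ _ _ h; subst h0; simpa using this
    · have := ih _ _ _ _ h; subst h1; simpa using this
    · have := ih _ _ _ _ h; subst h2; refine ⟨by simpa using this.1, ?_⟩
      have := this.2; simp at this ⊢; omega
    · subst h3
      rcases s with _ | ⟨r, s⟩
      · simp [run_none] at h
      · by_cases h4 : t ≤ r
        · simp only [h4, if_true] at h
          have := ih _ _ _ _ h; refine ⟨by simpa using this.1, ?_⟩
          have := this.2; simp at this ⊢; omega
        · simp [h4, run_none] at h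
    · simp [run_none] at h

lemma Acc.lt {w : List ℕ} (h : Acc w) : ∀ x ∈ w, x < 4 := (run_cnt w _ _ _ _ h.choose_spec).1

lemma Acc.cnt {w : List ℕ} (h : Acc w) : w.count 3 = w.count 2 := by
  simpa using (run_cnt w _ _ _ _ h.choose_spec).2

lemma Acc.pre {y z : List ℕ} (h : Acc (y ++ 3 :: z)) (h3 : 3 ∉ y) : 2 ∈ y := by
  obtain ⟨t, ht⟩ := h
  by_contra h2
  rw [foldl_append, foldl_cons] at ht
  rcases e : foldl st (some (0, [])) y with _ | ⟨t', s⟩
  · simp [e, st, run_none] at ht
  · have := (run_cnt y _ _ _ _ e).2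
    rw [count_eq_zero.mpr h2, count_eq_zero.mpr h3] at this
    obtain rfl : s = [] := by simpa using this
    simp [e, st, run_none] at ht

def Srt (w : List ℕ) : Prop := w.Pairwise fun x y => ¬(x = 1 ∧ y = 0)

lemma srt_of {y z : List ℕ} (h1 : 1 ∉ y) (h0 : 0 ∉ z) : Srt (y ++ z) := by
  rw [Srt, pairwise_append]
  refine ⟨pairwise_of_forall_mem_list fun a ha b _ h => h1 (h.1 ▸ ha),
    pairwise_of_forall_mem_list fun a _ b hb h => h0 (h.2 ▸ hb), fun a ha b _ h => h1 (h.1 ▸ ha)⟩

lemma Srt.eq {w : List ℕ} (h : Srt w) (h2 : ∀ x ∈ w, x < 2) :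
    w = replicate (w.count 0) 0 ++ replicate (w.count 1) 1 := by
  induction w with
  | nil => simp
  | cons x w ih =>
    obtain ⟨h3, h4⟩ := pairwise_cons.mp h
    have ih := ih h4 fun y hy => h2 y (mem_cons_of_mem _ hy)
    have := h2 x mem_cons_self
    interval_cases x
    · simp only [count_cons_self, replicate_succ, cons_append]
      rw [count_cons_of_ne (by norm_num), ← ih]
    · have : w.count 0 = 0 := count_eq_zero.mpr fun h0 => h3 0 h0 ⟨rfl, rfl⟩
      rw [count_cons_of_ne (by norm_num), count_cons_self, replicate_succ, this]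
      rw [this] at ih
      simpa using ih

def Good (B : ℕ) (w : List ℕ) : Prop := Srt w ∧ w.count 0 ≤ B ∧ w.count 1 ≤ B ∧ Acc w

def S0 (B : ℕ) : Set (List ℕ) := {w | ∃ i j, i ≤ j ∧ j ≤ B ∧ w = replicate i 0 ++ replicate j 1}

def G0 (B : ℕ) : ICG where
  V := Finset.range 4
  P := [(S0 B, {([2], [3])})]
  A := (Finset.range (B + 1) ×ˢ Finset.range (B + 1)).image fun p => replicate p.1 0 ++ replicate p.2 1

lemma G0_wf (B : ℕ) : (G0 B).WF := by
  have : ∀ i j, Over (Finset.range 4) (replicate i 0 ++ replicate j 1) := by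
    intro i j x hx
    simp only [mem_append, mem_replicate] at hx
    rcases hx with ⟨-, rfl⟩ | ⟨-, rfl⟩ <;> simp
  refine ⟨fun w hw => ?_, fun p hp => ?_⟩
  · obtain ⟨p, -, rfl⟩ := Finset.mem_image.mp hw
    exact this _ _
  · obtain rfl : p = (S0 B, {([2], [3])}) := by simpa [G0] using hp
    refine ⟨?_, by simp [Over, G0]⟩
    rintro w ⟨i, j, -, -, rfl⟩
    exact this _ _

lemma S0_suf (B : ℕ) : ∀ x y : List ℕ, x ++ y ∈ S0 B → y ∈ S0 B := by
  intro x
  induction x with
  | nil => exact fun y h => h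
  | cons a x ih =>
    rintro y ⟨i, j, h1, h2, h⟩
    refine ih y ?_
    rcases i with _ | i
    · rcases j with _ | j
      · simp at h
      · exact ⟨0, j, by omega, by omega, by simpa [replicate_succ] using (cons.inj (by simpa [replicate_succ] using h)).2⟩
    · exact ⟨i, j, by omega, h2, (cons.inj (by simpa [replicate_succ] using h)).2⟩

lemma S0_fin (B : ℕ) : (S0 B).Finite := by
  refine (G0 B).A.finite_toSet.subset ?_
  rintro w ⟨i, j, h1, h2, rfl⟩
  exact Finset.mem_coe.mpr (Finset.mem_image.mpr ⟨(i, j), by simp; omega, rfl⟩)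

lemma S0_SUF (B : ℕ) : SUF (S0 B) :=
  ⟨Language.IsRegular.of_finite_range_leftQuotient ((S0_fin B).finite_subsets.subset (by
    rintro _ ⟨x, rfl⟩ y hy
    exact S0_suf B x y hy)), S0_suf B⟩

lemma good_wrap {x₁ x₂ x₃ : List ℕ} :
    Srt (x₁ ++ [2] ++ x₂ ++ [3] ++ x₃) ↔ Srt (x₁ ++ x₂ ++ x₃) := by
  simp only [Srt, pairwise_append, pairwise_cons, mem_append, mem_cons]
  grind

lemma gen_good {B : ℕ} {w : List ℕ} (h : (G0 B).Gen w) : Good B w := by
  induction h with
  | ax w hw =>
    obtain ⟨p, hp, rfl⟩ := Finset.mem_image.mp hw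
    simp only [Finset.mem_product, Finset.mem_range] at hp
    refine ⟨srt_of (by simp) (by simp), by simp [count_replicate]; omega, by simp [count_replicate]; omega,
      ((sh0 _).append (sh1 _)).acc⟩
  | step x₁ x₂ x₃ u v p hp hx huv _ ih =>
    obtain rfl : p = (S0 B, {([2], [3])}) := by simpa [G0] using hp
    obtain ⟨rfl, rfl⟩ : u = [2] ∧ v = [3] := by simpa using huv
    obtain ⟨i, j, h1, -, rfl⟩ := hx
    obtain ⟨a1, a2, a3, a4⟩ := ih
    refine ⟨good_wrap.mpr a1, by simpa using a2, by simpa using a3, ?_⟩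
    have := Acc.congr ((sh0 i).append (sh1 j)) (((sh0 i).append (sh1 j)).wrap (by omega)) a4
    simpa using this

lemma good_gen {B : ℕ} : ∀ (n : ℕ) (w : List ℕ), w.length < n → Good B w → (G0 B).Gen w := by
  intro n
  induction n with
  | zero => intro w h; omega
  | succ n ih =>
    rintro w hw ⟨a1, a2, a3, a4⟩
    by_cases h3 : 3 ∈ w
    · obtain ⟨y, x₃, rfl, hy⟩ := eq_append_cons_of_mem h3
      have h2 := mem_reverse.mpr (a4.pre hy)
      obtain ⟨x₂', x₁', e, hx⟩ := eq_append_cons_of_mem h2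
      obtain rfl : y = x₁'.reverse ++ 2 :: x₂'.reverse := by simpa using congrArg reverse e
      rw [← mem_reverse] at hx
      generalize x₁'.reverse = x₁ at *
      generalize x₂'.reverse = x₂ at *
      have e2 : x₂ = replicate (x₂.count 0) 0 ++ replicate (x₂.count 1) 1 := by
        refine Srt.eq (a1.sublist (((sublist_cons_self _ _).trans (sublist_append_right _ _)).trans (sublist_append_left _ _))) fun x hx' => ?_
        have := a4.lt x (by simp [hx'])
        have b1 : x ≠ 2 := fun h => hx (h ▸ hx')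
        have b2 : x ≠ 3 := fun h => hy (by simp [← h, hx'])
        omega
      have hs : Sh x₂ ((x₂.count 0 : ℤ) + -(x₂.count 1 : ℤ)) := by
        conv_lhs => rw [e2]
        exact (sh0 _).append (sh1 _)
      have hle := a4.le hs
      have e3 : x₁ ++ 2 :: x₂ ++ 3 :: x₃ = x₁ ++ [2] ++ x₂ ++ [3] ++ x₃ := by simp
      rw [e3] at a1 ⊢
      refine .step _ _ _ _ _ (S0 B, {([2], [3])}) (by simp [G0])
        ⟨_, _, by omega, by simp at a3; omega, e2⟩ (by simp) (ih _ (by simp at hw ⊢; omega)
        ⟨good_wrap.mp a1, by simpa using a2, by simpa using a3, ?_⟩)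
      exact Acc.congr (hs.wrap hle) hs (by simpa using a4)
    · have h2 : 2 ∉ w := count_eq_zero.mp (a4.cnt ▸ count_eq_zero.mpr h3)
      refine .ax _ (Finset.mem_image.mpr ⟨(w.count 0, w.count 1), by simp; omega, (a1.eq fun x hx => ?_).symm⟩)
      have := a4.lt x hx
      have b1 : x ≠ 2 := fun h => h2 (h ▸ hx)
      have b2 : x ≠ 3 := fun h => h3 (h ▸ hx)
      omega

end H62.Ctx
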