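import Pool.Agent.H62.Ctx1

set_option autoImplicit false
open List

namespace H62.Ctx

def rp (y : List ℕ) (N : ℕ) : List ℕ := (replicate N y).flatten

lemma rp_zero (y : List ℕ) : rp y 0 = [] := rfl
lemma rp_succ (y : List ℕ) (N : ℕ) : rp y (N + 1) = y ++ rp y N := by simp [rp, replicate_succ]
lemma rp_add (y : List ℕ) (N M : ℕ) : rp y (N + M) = rp y N ++ rp y M := by
  rw [rp, replicate_add, flatten_append]; rfl
lemma rp_succ' (y : List ℕ) (N : ℕ) : rp y (N + 1) = rp y N ++ y := by rw [rp_add]; simp [rp]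
lemma rp_one (x N : ℕ) : rp [x] N = replicate N x := by simp [rp]
lemma rp_rev (y : List ℕ) (N : ℕ) : (rp y N).reverse = rp y.reverse N := by
  induction N with
  | zero => rfl
  | succ N ih => rw [rp_succ, reverse_append, ih, rp_succ']
lemma mem_rp {x : ℕ} {y : List ℕ} {N : ℕ} : x ∈ rp y N ↔ x ∈ y ∧ N ≠ 0 := by
  simp only [rp, mem_flatten, mem_replicate]
  exact ⟨fun ⟨_, ⟨a, b⟩, c⟩ => ⟨b ▸ c, a⟩, fun h => ⟨y, ⟨h.2, rfl⟩, h.1⟩⟩
lemma count_rp (x : ℕ) (y : List ℕ) (N : ℕ) : (rp y N).count x = N * y.count x := by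
  induction N with
  | zero => simp [rp]
  | succ N ih => rw [rp_succ, count_append, ih]; ring
lemma rp_shift (y z : List ℕ) (N : ℕ) : y ++ rp (z ++ y) N = rp (y ++ z) N ++ y := by
  induction N with
  | zero => simp [rp]
  | succ N ih => rw [rp_succ, rp_succ, append_assoc z, ih]; simp

lemma splitL {x : ℕ} {y z L R : List ℕ} (h : y ++ x :: z = L ++ R) (hx : x ∉ R) :
    ∃ z0, z = z0 ++ R ∧ y ++ x :: z0 = L := by
  rcases append_eq_append_iff.mp h with ⟨a, rfl, h2⟩ | ⟨a, rfl, rfl⟩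
  · rcases a with _ | ⟨b, a⟩
    · exact absurd (by rw [← nil_append R, ← h2]; exact mem_cons_self) hx
    · obtain ⟨rfl, rfl⟩ := cons.inj h2
      exact ⟨a, rfl, rfl⟩
  · simp at hx

lemma splitR {x : ℕ} {y z L R : List ℕ} (h : y ++ x :: z = L ++ R) (hx : x ∉ L) :
    ∃ y0, y = L ++ y0 ∧ y0 ++ x :: z = R := by
  rcases append_eq_append_iff.mp h with ⟨a, rfl, h2⟩ | ⟨a, rfl, rfl⟩
  · rcases a with _ | ⟨b, a⟩
    · exact ⟨[], by simp, h2⟩
    · obtain ⟨rfl, rfl⟩ := cons.inj h2
      simp at hx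
  · exact ⟨a, rfl, rfl⟩

lemma pre (c : ℕ) (g : List ℕ) (hc : c ∉ g) (k : ℕ) (z : List ℕ) : ∀ (N : ℕ) (y : List ℕ),
    y ++ c :: z = rp (c :: g) N ++ replicate k c →
      ∃ β q, β ≤ N ∧ y = rp (c :: g) β ++ replicate q c ∧ (q = 0 ∨ β = N) := by
  intro N
  induction N with
  | zero =>
    intro y h
    refine ⟨0, y.length, le_rfl, ?_, Or.inr rfl⟩
    refine eq_replicate_length.mpr fun b hb => ?_
    have : b ∈ replicate k c := by rw [rp_zero, nil_append] at h; rw [← h]; simp [hb]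
    exact eq_of_mem_replicate this
  | succ N ih =>
    intro y h
    rcases y with _ | ⟨a, y⟩
    · exact ⟨0, 0, by omega, rfl, Or.inl rfl⟩
    · rw [rp_succ, cons_append, cons_append, cons_append, append_assoc] at h
      obtain ⟨rfl, h3⟩ := cons.inj h
      obtain ⟨y0, rfl, h4⟩ := splitR h3 hc
      obtain ⟨β, q, h1, rfl, h2⟩ := ih y0 h4
      exact ⟨β + 1, q, by omega, by simp [rp_succ], by omega⟩

lemma iter {σ : Type} [Fintype σ] {n : ℕ} (hn : Fintype.card σ ≤ n) (g : σ → σ) (s : σ) (t : ℕ)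
    (ht : n ≤ t) (r : ℕ) : g^[t + r * n.factorial] s = g^[t] s := by
  obtain ⟨i, j, hij, e⟩ := Fintype.exists_ne_map_eq_of_card_lt (fun i : Fin (n + 1) => g^[i] s) (by simp; omega)
  wlog h : (i : ℕ) < j generalizing i j
  · exact this j i hij.symm e.symm (by have := Fin.val_ne_of_ne hij; omega)
  have hp : Function.IsPeriodicPt g (j - i) (g^[i] s) := by
    rw [Function.IsPeriodicPt, Function.IsFixedPt, ← Function.iterate_add_apply, Nat.sub_add_cancel h.le, e]
  have hd : (j - i : ℕ) ∣ r * n.factorial := (Nat.dvd_factorial (by omega) (by omega)).mul_left _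
  have := (hp.trans_dvd hd).eq
  obtain ⟨d, rfl⟩ : ∃ d, t = d + i := ⟨t - i, by omega⟩
  rw [add_assoc, add_comm (i : ℕ), Function.iterate_add_apply, Function.iterate_add_apply, this,
    ← Function.iterate_add_apply]

lemma eval_rp {σ : Type} (M : DFA ℕ σ) (y : List ℕ) (N : ℕ) (s : σ) :
    M.evalFrom s (rp y N) = (fun s => M.evalFrom s y)^[N] s := by
  induction N generalizing s with
  | zero => rfl
  | succ N ih => rw [rp_succ, DFA.evalFrom_of_append, ih]; rfl

lemma pump {σ : Type} [Fintype σ] {n : ℕ} (hn : Fintype.card σ ≤ n) (M : DFA ℕ σ) (x y z : List ℕ)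
    (t t' r : ℕ) (ht : n.factorial ≤ t) (e : t' = t + r * n.factorial) :
    x ++ rp y t' ++ z ∈ M.accepts ↔ x ++ rp y t ++ z ∈ M.accepts := by
  simp only [DFA.mem_accepts, DFA.eval, DFA.evalFrom_of_append, eval_rp]
  rw [e, iter hn _ _ _ ((Nat.self_le_factorial n).trans ht)]

def P (m : ℕ) : List ℕ := replicate m 0 ++ [2]
def Q (m : ℕ) : List ℕ := replicate m 1 ++ [3]
def X (m β : ℕ) : List ℕ := rp (P m) β ++ replicate m 0 ++ rp (Q m) β

lemma nest (m : ℕ) {y : List ℕ} {δ : ℤ} (h : Sh y δ) (r : ℕ) (hr : m * r + δ ≤ m) :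
    Sh (rp (P m) r ++ y ++ replicate r 3) (m * r + δ) := by
  induction r with
  | zero => simpa [rp] using h
  | succ r ih =>
    have := (sh0 m).append ((ih (by push_cast at hr; nlinarith)).wrap (by push_cast at hr; nlinarith))
    rw [rp_succ, replicate_succ', P]
    refine Sh.cast (by simpa [P] using this) (by push_cast; ring)

lemma nest0 {y : List ℕ} {δ : ℤ} (h : Sh y δ) (r : ℕ) (hr : δ ≤ 0) :
    Sh (replicate r 2 ++ y ++ replicate r 3) δ := by
  simpa [P, rp_one] using nest 0 h r (by simpa using hr)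

lemma shX (m β : ℕ) : Sh (X m β) m := by
  induction β with
  | zero => simpa [X, rp] using sh0 m
  | succ β ih =>
    have := (sh0 m).append ((ih.append (sh1 m)).wrap (by simp))
    rw [X, rp_succ, rp_succ']
    refine Sh.cast (by simpa [P, Q, X] using this) (by ring)

lemma Sh.cnt {y : List ℕ} (h : Sh y 0) : y.count 1 = y.count 0 := by
  have : ∀ (w : List ℕ) t s t' s', w.foldl st (some (t, s)) = some (t', s') →
      t' + w.count 1 = t + w.count 0 := by
    intro w
    induction w with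
    | nil => intro t s t' s' h; simp at h; simp [h.1]
    | cons x w ih =>
      intro t s t' s' h
      rw [foldl_cons] at h
      simp only [st] at h
      split_ifs at h with h0 h1 h2 h3
      · have := ih _ _ _ _ h; subst h0; simp; omega
      · have := ih _ _ _ _ h; subst h1; simp; omega
      · have := ih _ _ _ _ h; subst h2; simpa using this
      · subst h3
        rcases s with _ | ⟨r, s⟩
        · simp [run_none] at h
        · by_cases h4 : t ≤ r
          · simp only [h4, if_true] at h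
            simpa using ih _ _ _ _ h
          · simp [h4, run_none] at h
      · simp [run_none] at h
  simpa using this y _ _ _ _ (h 0 [])

lemma good_of {B : ℕ} {y z : List ℕ} (h : Sh (y ++ z) 0) (h1 : 1 ∉ y) (h0 : 0 ∉ z) (hB : y.count 0 ≤ B) :
    Good B (y ++ z) := by
  have : (y ++ z).count 0 ≤ B := by rw [count_append, count_eq_zero.mpr h0]; exact hB
  exact ⟨srt_of h1 h0, this, h.cnt ▸ this, h.acc⟩

lemma ends (m k s : ℕ) : ∃ z, replicate (k + 1) 2 ++ rp (P m) s = z ++ [2] := by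
  rcases s with _ | s
  · exact ⟨replicate k 2, by simp [rp, replicate_succ']⟩
  · exact ⟨_, by rw [rp_succ', P, ← append_assoc, ← append_assoc]⟩

lemma last_step {G : ICG} {w : List ℕ} (h : G.Gen w) : w ∈ G.A ∨ ∃ x₁ x₂ x₃ u v, ∃ p ∈ G.P,
    x₂ ∈ p.1 ∧ (u, v) ∈ p.2 ∧ G.Gen (x₁ ++ x₂ ++ x₃) ∧ u ++ v ≠ [] ∧ w = x₁ ++ u ++ x₂ ++ v ++ x₃ := by
  induction h with
  | ax w hw => exact Or.inl hw
  | step x₁ x₂ x₃ u v p hp hx huv h ih =>
    by_cases e : u ++ v = []
    · obtain ⟨rfl, rfl⟩ := append_eq_nil_iff.mp e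
      simpa using ih
    · exact Or.inr ⟨x₁, x₂, x₃, u, v, p, hp, hx, huv, h, e, rfl⟩

lemma gen_over {G : ICG} (hG : G.WF) {w : List ℕ} (h : G.Gen w) : Over G.V w := by
  induction h with
  | ax w hw => exact hG.1 w hw
  | step x₁ x₂ x₃ u v p hp hx huv h ih =>
    have := (hG.2 p hp).2 _ huv
    simp only [Over, mem_append] at *
    grind

end H62.Ctx
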