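import Pool.Agent.H62.Ctx2

set_option autoImplicit false
open List

namespace H62.Ctx

/-- shape of a step producing the test word -/
lemma shape {L M R x₁ x₂ x₃ u v : List ℕ} (h : x₁ ++ u ++ x₂ ++ v ++ x₃ = L ++ M ++ R)
    (hL : 3 ∉ L ++ M) (hR : 2 ∉ M ++ R) (hM : 0 ∈ M) (h0 : 0 ∉ u ++ v) (h2 : 2 ∈ u ++ v) (h3 : 3 ∈ u ++ v)
    (h23 : ∀ x ∈ u ++ v, x = 2 ∨ x = 3) :
    ∃ u' v' z0 y0, u = u' ++ [2] ∧ v = 3 :: v' ∧ x₂ = z0 ++ M ++ y0 ∧ x₁ ++ u' ++ 2 :: z0 = L ∧
      y0 ++ 3 :: (v' ++ x₃) = R := by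
  have a : 2 ∉ v := by
    intro h'
    obtain ⟨v1, v2, rfl⟩ := append_of_mem h'
    obtain ⟨z0, e1, e2⟩ := splitL (y := x₁ ++ u ++ x₂ ++ v1) (z := v2 ++ x₃) (L := L) (by simpa using h) hR
    have : 3 ∈ v2 := by subst e2; simp at hL h3; tauto
    obtain ⟨w1, w2, rfl⟩ := append_of_mem this
    obtain ⟨y0, rfl, -⟩ := splitR (y := w1) (z := w2 ++ x₃) (L := z0 ++ M) (R := R) (by simpa using e1)
      (by subst e2; simp at hL ⊢; tauto)
    simp [hM] at h0
  have b : 3 ∉ u := by
    intro h'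
    obtain ⟨u1, u2, rfl⟩ := append_of_mem h'
    obtain ⟨y0, e1, e2⟩ := splitR (y := x₁ ++ u1) (z := u2 ++ x₂ ++ v ++ x₃) (R := R) (by simpa using h) hL
    have : 2 ∈ u1 := by subst e2; simp at hR h2; tauto
    obtain ⟨w1, w2, rfl⟩ := append_of_mem this
    obtain ⟨z0, rfl, -⟩ := splitL (y := x₁ ++ w1) (z := w2) (L := L) (R := M ++ y0) (by simpa using e1)
      (by subst e2; simp at hR ⊢; tauto)
    simp [hM] at h0
  obtain ⟨u', c, rfl⟩ : ∃ u' c, u = u' ++ [c] := by
    rcases eq_nil_or_concat' u with rfl | h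
    · simp [a] at h2
    · exact h
  obtain rfl : c = 2 := (h23 c (by simp)).resolve_right fun e => b (by simp [e])
  obtain ⟨c, v', rfl⟩ : ∃ c v', v = c :: v' := by
    rcases v with _ | ⟨c, v'⟩
    · rw [append_nil] at h3; exact absurd h3 b
    · exact ⟨c, v', rfl⟩
  obtain rfl : c = 3 := (h23 c (by simp)).resolve_left fun e => a (by simp [e])
  obtain ⟨z0, e1, e2⟩ := splitL (y := x₁ ++ u') (z := x₂ ++ 3 :: (v' ++ x₃)) (L := L) (by simpa using h) hR
  obtain ⟨y0, e3, e4⟩ := splitR (L := z0 ++ M) (R := R) (by simpa using e1) (by subst e2; simp at hL ⊢; tauto)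
  exact ⟨u', v', z0, y0, rfl, rfl, e3, e2, e4⟩

theorem main (n : ℕ) (G : ICG) (hG : G.WF) (hR : ∀ p ∈ G.P, REG n G.V p.1)
    (h : ∀ w, G.Gen w ↔ Good (2 * n.factorial * (3 * n.factorial + 1)) w) : False := by
  obtain ⟨F, hF⟩ : ∃ F, F = n.factorial := ⟨_, rfl⟩
  have F0 : 0 < F := hF ▸ n.factorial_pos
  rw [← hF] at h
  set B := 2 * F * (3 * F + 1) with hB
  obtain ⟨m, hm⟩ : ∃ m, m = 2 * F := ⟨_, rfl⟩
  have m0 : m ≠ 0 := by omega
  set k := G.A.sup length with hk
  set L := replicate (k + 1) 2 ++ rp (P m) F with hL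
  set M := replicate m 0 ++ replicate m 1 with hM
  set R := rp (3 :: replicate m 1) F ++ replicate (k + 1) 3 with hR'
  have shift : ∀ β, replicate m 1 ++ rp (3 :: replicate m 1) β = rp (Q m) β ++ replicate m 1 :=
    fun β => rp_shift _ [3] β
  have hW : Good B (L ++ M ++ R) := by
    have e : L ++ M ++ R = (L ++ replicate m 0) ++ (replicate m 1 ++ R) := by simp [hM]
    rw [e]
    refine good_of ?_ (by simp [hL, mem_rp, P]) (by simp [hR', mem_rp]) ?_
    · have := nest0 ((shX m F).append (sh1 m)) (k + 1) (by simp)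
      rw [hR', ← append_assoc (replicate m 1), shift]
      exact Sh.cast (by simpa [hL, X] using this) (by ring)
    · simp [hL, count_rp, P, count_replicate]; nlinarith
  have hV : ∀ x < 4, x ∈ G.V := by
    intro x hx
    refine gen_over hG ((h _).mpr hW) x ?_
    interval_cases x <;> simp [hL, hM, hR', m0]
  rcases last_step ((h _).mpr hW) with hA | ⟨x₁, x₂, x₃, u, v, p, hp, hx, huv, hg, hne, e⟩
  · have : (L ++ M ++ R).length ≤ k := Finset.le_sup (f := length) hA
    simp [hL] at this; omega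
  have clo : ∀ y₁ y₂ y₃, y₂ ∈ p.1 → Good B (y₁ ++ y₂ ++ y₃) → Good B (y₁ ++ u ++ y₂ ++ v ++ y₃) :=
    fun y₁ y₂ y₃ a b => (h _).mp (.step _ _ _ _ _ p hp a huv ((h _).mpr b))
  rw [h] at hg
  have it : ∀ t, Good B (x₁ ++ rp u t ++ x₂ ++ (rp v t ++ x₃)) := by
    intro t
    induction t with
    | zero => simpa [rp] using hg
    | succ t ih => rw [rp_succ', rp_succ]; simpa using clo _ _ _ hx ih
  have c0 : 0 ∉ u ++ v := by
    have := (it (B + 1)).2.1
    simp only [count_append, count_rp] at this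
    rw [← count_eq_zero, count_append]; nlinarith
  have c1 : 1 ∉ u ++ v := by
    have := (it (B + 1)).2.2.1
    simp only [count_append, count_rp] at this
    rw [← count_eq_zero, count_append]; nlinarith
  have c23 : ∀ x ∈ u ++ v, x = 2 ∨ x = 3 := by
    intro x hx
    have := hW.2.2.2.lt x (by rw [e]; simp only [mem_append] at hx ⊢; tauto)
    have b0 : x ≠ 0 := fun h => c0 (h ▸ hx)
    have b1 : x ≠ 1 := fun h => c1 (h ▸ hx)
    omega
  have cc : (u ++ v).count 3 = (u ++ v).count 2 := by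
    have a1 := hW.2.2.2.cnt
    have a2 := hg.2.2.2.cnt
    rw [e] at a1
    simp only [count_append] at *
    omega
  have c2 : 2 ∈ u ++ v ∧ 3 ∈ u ++ v := by
    obtain ⟨x, hx⟩ := exists_mem_of_ne_nil _ hne
    rw [← count_pos_iff, ← count_pos_iff]
    rcases c23 x hx with rfl | rfl <;> have := count_pos_iff.mpr hx <;> omega
  obtain ⟨u', v', z0, y0, rfl, rfl, rfl, e1, e2⟩ := shape e.symm (by simp [hL, hM, mem_rp, P])
    (by simp [hR', hM, mem_rp]) (by simp [hM, m0]) c0 c2.1 c2.2 c23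
  obtain ⟨β, q, hβ, rfl, hq⟩ := pre 3 _ (by simp) _ _ _ _ e2
  obtain ⟨α, r, hα, e3, hr⟩ := pre 2 (replicate m 0) (by simp) (k + 1) (x₁ ++ u').reverse F z0.reverse
    (by simpa [hL, rp_rev, P] using congrArg reverse e1)
  obtain rfl : z0 = replicate r 2 ++ rp (P m) α := by simpa [rp_rev, P] using congrArg reverse e3
  obtain ⟨σ, _, D, hσ, hD⟩ := hR p hp
  have hacc := ((hD _).mp hx).2
  have mem : ∀ y₁ y₂ y₃, y₂ ∈ D.accepts → Good B (y₁ ++ y₂ ++ y₃) → y₂ ∈ p.1 :=
    fun y₁ y₂ y₃ a b => (hD _).mpr ⟨fun x hx => hV x (b.2.2.2.lt x (by simp [hx])), a⟩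
  have ex : ∀ z q, z ++ M ++ (rp (3 :: replicate m 1) β ++ replicate q 3) =
      z ++ replicate m 0 ++ rp (Q m) β ++ replicate m 1 ++ replicate q 3 := by
    intro z q
    rw [hM, append_assoc _ (rp (Q m) β), ← shift]; simp
  rw [ex] at hacc hg
  by_cases hq0 : q = 0
  · subst hq0
    rw [← rp_one 1 m, pump hσ D _ _ _ F m 1 hF.ge (by omega), rp_one] at hacc
    have em : replicate m 1 = replicate F 1 ++ replicate F 1 := by rw [← replicate_add, hm, two_mul]
    rw [em] at hg
    have g1 := clo x₁ _ (replicate F 1 ++ x₃) (mem x₁ _ (replicate F 1 ++ x₃) hacc (by simpa [-replicate_append_replicate] using hg))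
      (by simpa [-replicate_append_replicate] using hg)
    obtain ⟨z, hz⟩ := ends m k (F - β)
    have e4 : L = z ++ [2] ++ rp (P m) β := by
      rw [← hz, append_assoc, ← rp_add, Nat.sub_add_cancel hβ]
    have := Acc.le (z := z) (z' := v' ++ (replicate F 1 ++ x₃)) (by
      have := g1.2.2.2
      have e5 : ∀ w, x₁ ++ (u' ++ 2 :: (replicate r 2 ++ (rp (P m) α ++ w))) = L ++ w := by
        intro w; rw [← e1]; simp
      simp only [append_assoc, singleton_append, cons_append, nil_append, replicate_zero, e5, e4] at this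
      simpa [X] using this) ((shX m β).append (sh1 F))
    omega
  obtain rfl : β = F := hq.resolve_left hq0
  by_cases hαF : α = β
  · subst hαF
    obtain ⟨q', hq', hacc⟩ : ∃ q' < 2 * α, replicate r 2 ++ rp (P m) α ++ replicate m 0 ++ rp (Q m) α ++
        replicate m 1 ++ replicate q' 3 ∈ D.accepts := by
      by_cases h1 : q < 2 * α
      · exact ⟨q, h1, hacc⟩
      · have := Nat.mod_lt q F0
        refine ⟨α + q % α, by omega, ?_⟩
        have h2 := Nat.div_add_mod q α
        have h3 : 1 ≤ q / α := (Nat.le_div_iff_mul_le F0).mpr (by omega)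
        obtain ⟨d, hd⟩ : ∃ d, q / α = d + 1 := ⟨q / α - 1, by omega⟩
        rw [← append_nil (_ ++ replicate q 3), ← rp_one 3,
          pump hσ D _ _ _ (α + q % α) q d (by omega) (by rw [← hF]; nlinarith), rp_one, append_nil] at hacc
        exact hacc
    rw [← rp_one 1 m, pump hσ D _ _ _ α m 1 hF.ge (by omega),
      ← pump hσ D _ _ _ α (α + 2 * q' * α) (2 * q') hF.ge (by rw [hF]), rp_one] at hacc
    simp only [append_assoc] at hacc
    rw [← append_assoc, ← pump hσ D _ _ _ α (α + 2 * α) 2 hF.ge (by rw [hF])] at hacc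
    obtain ⟨s, hs⟩ : ∃ s, 2 * α = s + 1 + q' := ⟨2 * α - q' - 1, by omega⟩
    have z1 : Sh (rp (P m) q' ++ (X m α ++ replicate (α + 2 * q' * α) 1) ++ replicate q' 3) α :=
      (nest m ((shX m α).append (sh1 _)) q' (by rw [hm]; push_cast; nlinarith)).cast
        (by rw [hm]; push_cast; ring)
    have z2 := nest0 ((nest m (z1.append (sh1 (m * (s + 1) + α))) (s + 1) (by push_cast; linarith)).cast
      (show _ = 0 by push_cast; ring)) r le_rfl
    have e4 : rp (P m) (α + 2 * α) = rp (P m) (s + 1) ++ rp (P m) q' ++ rp (P m) α := by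
      rw [← rp_add, ← rp_add]; congr 1; omega
    have g0 : Good B ((replicate r 2 ++ rp (P m) (α + 2 * α) ++ replicate m 0) ++ (rp (Q m) α ++
        replicate (α + 2 * q' * α) 1 ++ replicate q' 3 ++
          (replicate (m * (s + 1) + α) 1 ++ replicate (s + 1) 3 ++ replicate r 3))) := by
      refine good_of (by simpa [e4, X, -replicate_append_replicate] using z2) (by simp [mem_rp, P])
        (by simp [mem_rp, Q]) ?_
      simp [count_rp, P, count_replicate]; nlinarith
    have g1 := clo [] _ _ (mem [] _ _ hacc (by simpa [-replicate_append_replicate] using g0))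
      (by simpa [-replicate_append_replicate] using g0)
    have := Acc.le (z := u' ++ [2] ++ replicate r 2 ++ rp (P m) s ++ replicate m 0)
      (z' := v' ++ (replicate (m * (s + 1) + α) 1 ++ replicate (s + 1) 3 ++ replicate r 3))
      (by rw [e4] at g1; simpa [X, rp_succ' _ s, P, -replicate_append_replicate] using g1.2.2.2) z1
    omega
  · obtain rfl : r = 0 := hr.resolve_right hαF
    obtain ⟨s, hs⟩ : ∃ s, β = s + 1 + α := ⟨β - α - 1, by omega⟩
    obtain ⟨z, hz⟩ := ends m k s
    have e4 : x₁ ++ u' = z ++ [2] ++ replicate m 0 := by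
      rw [hL, hs, rp_add, rp_succ', ← append_assoc, ← append_assoc, hz] at e1
      have : x₁ ++ u' ++ ([2] ++ rp (P m) α) = z ++ [2] ++ replicate m 0 ++ ([2] ++ rp (P m) α) := by
        simpa [P] using e1
      exact append_cancel_right this
    obtain rfl : u' = [] := by
      rcases eq_nil_or_concat' u' with h | ⟨w, c, rfl⟩
      · exact h
      · obtain ⟨m', rfl⟩ : ∃ m', m = m' + 1 := ⟨m - 1, by omega⟩
        rw [replicate_succ', ← append_assoc, ← append_assoc] at e4
        obtain rfl : c = 0 := by simpa using (append_inj' e4 rfl).2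
        simp at c0
    rw [append_nil] at e4
    have e5 : rp (Q m) β = rp (Q m) α ++ Q m ++ rp (Q m) s := by
      rw [← rp_succ', ← rp_add]; congr 1; omega
    have := Acc.le (z := z) (z' := rp (Q m) s ++ replicate m 1 ++ replicate q 3 ++ x₃)
      (by rw [e5] at hg; simpa [e4, X, Q, -replicate_append_replicate] using hg.2.2.2)
      (((sh0 m).append (shX m α)).append (sh1 m))
    omega

end H62.Ctx
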