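import Mathlib

set_option autoImplicit false

namespace H62.Ctx

/-- an internal contextual grammar with selection; letters are natural numbers -/
structure ICG where
  V : Finset ℕ
  P : List (Set (List ℕ) × Finset (List ℕ × List ℕ))
  A : Finset (List ℕ)

/-- `w ∈ V*` -/
def Over (V : Finset ℕ) (w : List ℕ) : Prop := ∀ x ∈ w, x ∈ V

/-- axioms, selection languages and contexts are over the alphabet -/
def ICG.WF (G : ICG) : Prop :=
  (∀ w ∈ G.A, Over G.V w) ∧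
    ∀ p ∈ G.P, (∀ w ∈ p.1, Over G.V w) ∧ ∀ c ∈ p.2, Over G.V c.1 ∧ Over G.V c.2

/-- the generated words -/
inductive ICG.Gen (G : ICG) : List ℕ → Prop
  | ax (w : List ℕ) : w ∈ G.A → G.Gen w
  | step (x₁ x₂ x₃ u v : List ℕ) (p : Set (List ℕ) × Finset (List ℕ × List ℕ)) :
      p ∈ G.P → x₂ ∈ p.1 → (u, v) ∈ p.2 → G.Gen (x₁ ++ x₂ ++ x₃) → G.Gen (x₁ ++ u ++ x₂ ++ v ++ x₃)

/-- regular and suffix-closed -/
def SUF (S : Set (List ℕ)) : Prop :=
  Language.IsRegular (S : Language ℕ) ∧ ∀ x y : List ℕ, x ++ y ∈ S → y ∈ S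

/-- the words over `V` accepted by a complete DFA with at most `n` states -/
def REG (n : ℕ) (V : Finset ℕ) (S : Set (List ℕ)) : Prop :=
  ∃ (σ : Type) (_ : Fintype σ) (M : DFA ℕ σ), Fintype.card σ ≤ n ∧ ∀ w, w ∈ S ↔ Over V w ∧ w ∈ M.accepts

end H62.Ctx
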