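import Pool.Agent.H62.DMeetDefs

set_option autoImplicit false

namespace H62.DMeet

inductive El | z | a (i : ℕ) | b (i : ℕ) | c (i : ℕ) | b' | u | d
  deriving DecidableEq

open El

def cp : El → El → El
  | b i, c j => if i = j then a i else z
  | b', c j => if j = 0 then d else z
  | _, _ => z

def le (N : ℕ) (x y : El) : Prop :=
  x = y ∨ y = z ∨ (∃ i, x = a (i + 1) ∧ y = b i) ∨ (x = b' ∧ y = b 0) ∨ (x = u ∧ (y = a 0 ∨ y = d ∨ y = b N)) ∨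
    (x = d ∧ y = b N)

def M (N : ℕ) (x y w : El) : Prop :=
  (le N x y ∧ w = x) ∨ (le N y x ∧ w = y) ∨ (w = u ∧ (x = a 0 ∧ (y = d ∨ y = b N) ∨ y = a 0 ∧ (x = d ∨ x = b N)))

lemma not_rep (N : ℕ) : ¬Rep cp (M N) := by
  rintro ⟨X, h, h1, h2, h3, h4⟩
  have k : ∀ x y, le N x y → dom (h y) ⊆ dom (h x) ∧ ∀ p ∈ h x, p.1 ∈ dom (h y) → p ∈ h y := fun x y e => by
    have e1 := (h3 x y).mp ⟨_, .inl ⟨e, rfl⟩⟩
    have e2 := h4 x y _ (.inl ⟨e, rfl⟩)
    refine ⟨fun p ⟨q, hq⟩ => by_contra fun hc => hc ⟨q, e2.ge (.inr ⟨hq, hc⟩)⟩, fun p hp hq => ?_⟩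
    rcases e2.le hp with (f | f) | f
    exacts [f.2, (f.2 hq).elim, f.1]
  have k1 : ∀ i, dom (h (a i)) ⊆ dom (h (b i)) := fun i p ⟨q, hq⟩ => by
    obtain ⟨y, f, -⟩ := (h2 (b i) (c i)).le (show (p, q) ∈ h (cp _ _) by simpa [cp])
    exact ⟨y, f⟩
  have k2 : ∀ i, dom (h (a 0)) ⊆ dom (h (b i)) := fun i => by
    induction i with
    | zero => exact k1 0
    | succ i ih => exact (ih.trans (k _ _ (by simp [le])).1).trans (k1 _)
  have k3 : dom (h (a 0)) ⊆ dom (h d) := (k2 N).trans (k _ _ (by simp [le])).1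
  refine absurd (h1 (a₁ := u) (a₂ := d) ?_) (by simp)
  rw [h4 (a 0) d u (by simp [M])]
  ext p
  refine ⟨fun f => ?_, fun f => ?_⟩
  · rcases f with (f | f) | f
    exacts [f.2, (f.2 (k3 ⟨_, f.1⟩)).elim, f.1]
  · by_cases e : p.1 ∈ dom (h (a 0))
    · obtain ⟨y, f1, f2⟩ := (h2 b' (c 0)).le f
      exact .inl (.inl ⟨(h2 (b 0) (c 0)).ge ⟨y, (k b' (b 0) (by simp [le])).2 _ f1 (k1 0 e), f2⟩, f⟩)
    · exact .inr ⟨f, e⟩

inductive Pt | Q | P | y' | t | y (i : ℕ) | w (i : ℕ) | s (i : ℕ)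

open Pt

def F (N j : ℕ) : El → Pt → Pt → Prop
  | b', Q, y' => True
  | b i, Q, y' => i = 0
  | c i, y', t => i = 0
  | d, Q, t => True
  | u, Q, t => True
  | a i, Q, t => i = 0
  | b i, Q, t => i = N
  | b i, Q, y k => i = k
  | c i, y k, w l => i = k ∧ k = l
  | a i, Q, w k => i = k
  | b i, Q, w k => i + 1 = k
  | c i, Q, s k => i = k
  | b', P, s k => k = 0
  | b i, P, s k => i = 0 ∧ k = 0
  | b i, P, y k => i = k ∧ k < j
  | a i, P, w k => i = k ∧ k ≤ j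
  | u, P, w k => k = 0
  | b i, P, w k => i + 1 = k ∧ k ≤ j
  | _, _, _ => False

variable {N j : ℕ}

lemma F_cp (x v : El) (hv : v ≠ c j) (p q : Pt) : F N j (cp x v) p q ↔ ∃ r, F N j x p r ∧ F N j v r q := by
  constructor
  · intro h
    have : ∃ i, v = c i := by cases x <;> cases v <;> simp_all [cp, F]
    obtain ⟨i, rfl⟩ := this
    suffices F N j x p y' ∧ F N j (c i) y' q ∨ F N j x p (y i) ∧ F N j (c i) (y i) q from
      this.elim (fun h => ⟨_, h⟩) fun h => ⟨_, h⟩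
    cases x <;> simp only [cp, F] at h <;> split_ifs at h <;> cases p <;> cases q <;> simp_all [F] <;> omega
  · rintro ⟨r, h1, h2⟩
    cases x <;> cases p <;> cases r <;> simp only [F] at h1 <;> cases v <;> cases q <;> simp only [F] at h2 <;>
      simp_all [cp, F] <;> omega

lemma F_le (h0 : 0 < j) (hj : j ≤ N) {x v : El} (e : le N x v) (p q : Pt) (h : F N j v p q) :
    (∃ q', F N j x p q') ∧ ∀ q', F N j x p q' → F N j v p q' := by
  rcases e with rfl | rfl | ⟨i, rfl, rfl⟩ | ⟨rfl, rfl⟩ | ⟨rfl, rfl | rfl | rfl⟩ | ⟨rfl, rfl⟩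
  · exact ⟨⟨q, h⟩, fun _ => id⟩
  · cases p <;> cases q <;> exact h.elim
  · cases p <;> cases q <;> simp only [F] at h <;> refine ⟨⟨w (i + 1), ?_⟩, fun q' => ?_⟩ <;> (try cases q') <;>
      simp only [F, false_imp_iff, true_and, imp_self] <;> omega
  all_goals
    cases p <;> cases q <;> simp only [F] at h <;> refine ⟨?_, fun q' => ?_⟩ <;> (try cases q') <;>
      simp only [F, false_imp_iff, true_and, imp_self, forall_const] <;>
      first | omega | exact ⟨y', trivial⟩ | exact ⟨t, trivial⟩ | exact ⟨s 0, rfl⟩ | exact ⟨w 0, rfl⟩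

lemma F_u (h0 : 0 < j) (hj : j ≤ N) {v : El} (hv : v = d ∨ v = b N) (p : Pt) :
    (∀ q q', F N j (a 0) p q → F N j v p q' → F N j (a 0) p t ∧ F N j v p t) ∧
      ∀ q, F N j u p q ↔ (F N j (a 0) p q ∧ F N j v p q) ∨ (F N j (a 0) p q ∧ ¬∃ q', F N j v p q') ∨
      (F N j v p q ∧ ¬∃ q', F N j (a 0) p q') := by
  have e1 : (∃ q, F N j (a 0) p q) ↔ p = Q ∨ p = P :=
    ⟨fun ⟨q, h⟩ => by cases p <;> cases q <;> simp_all [F], by rintro (rfl | rfl) <;> exact ⟨w 0, by simp [F]⟩⟩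
  have e2 : (∃ q, F N j v p q) ↔ p = Q := by
    rcases hv with rfl | rfl <;> refine ⟨fun ⟨q, h⟩ => ?_, by rintro rfl; exact ⟨t, by simp [F]⟩⟩ <;>
      cases p <;> cases q <;> simp [F] at h ⊢ <;> omega
  refine ⟨fun q q' a1 a2 => ?_, fun q => ?_⟩
  · rw [e2.mp ⟨_, a2⟩]
    rcases hv with rfl | rfl <;> simp [F]
  · rw [e1, e2]
    clear e1 e2
    rcases hv with rfl | rfl <;> cases p <;> cases q <;> simp [F] <;> omega

lemma F_mt (h0 : 0 < j) (hj : j ≤ N) {x v r : El} (h : M N x v r) (p : Pt) :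
    (∀ q q', F N j x p q → F N j v p q' → ∃ q, F N j x p q ∧ F N j v p q) ∧
    ∀ q, F N j r p q ↔ (F N j x p q ∧ F N j v p q) ∨ (F N j x p q ∧ ¬∃ q', F N j v p q') ∨
      (F N j v p q ∧ ¬∃ q', F N j x p q') := by
  rcases h with ⟨h, rfl⟩ | ⟨h, rfl⟩ | ⟨rfl, ⟨rfl, h⟩ | ⟨rfl, h⟩⟩
  · have := F_le h0 hj h p; grind
  · have := F_le h0 hj h p; grind
  · have := F_u h0 hj h p; grind
  · have := F_u h0 hj h p; grind

lemma F_nm {x v : El} (h : ¬∃ r, M N x v r) :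
    ∃ q q', F N j x Q q ∧ F N j v Q q' ∧ ¬∃ q, F N j x Q q ∧ F N j v Q q := by
  have k : ∀ x, x ≠ z → ∃ q, F N j x Q q := by
    rintro (_ | i | i | i | _ | _ | _) h
    exacts [(h rfl).elim, ⟨w i, rfl⟩, ⟨y i, rfl⟩, ⟨s i, rfl⟩, ⟨y', trivial⟩, ⟨t, trivial⟩, ⟨t, trivial⟩]
  have h1 : ¬le N x v := fun e => h ⟨_, .inl ⟨e, rfl⟩⟩
  have h2 : ¬le N v x := fun e => h ⟨_, .inr (.inl ⟨e, rfl⟩)⟩
  have h3 := fun e => h ⟨_, .inr (.inr ⟨rfl, e⟩)⟩
  obtain ⟨q, hq⟩ := k x fun e => h2 (.inr (.inl e))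
  obtain ⟨q', hq'⟩ := k v fun e => h1 (.inr (.inl e))
  refine ⟨q, q', hq, hq', fun ⟨r, a1, a2⟩ => ?_⟩
  clear hq hq' h k
  cases r <;> cases x <;> simp only [F] at a1 <;> cases v <;> simp only [F] at a2 <;> simp_all [le] <;> omega

lemma F_inj {x v : El} (h : ∀ p q, F N j x p q ↔ F N j v p q) : x = v := by
  have a1 := h Q y'
  have a2 := h Q t
  have a3 := h P (w 0)
  have a4 := h Q (w 0)
  have a5 := fun i => h Q (w i)
  have a6 := fun i => h Q (y i)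
  have a7 := fun i => h Q (s i)
  clear h
  cases x <;> cases v <;> simp_all [F]

end H62.DMeet
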