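import Mathlib

set_option autoImplicit false
open FirstOrder

namespace H62.DMeet

variable {X : Type}

/-- domain of a relation -/
def dom (R : Set (X × X)) : Set X := {x | ∃ y, (x, y) ∈ R}

/-- restriction of a relation to a set of sources -/
def res (R : Set (X × X)) (A : Set X) : Set (X × X) := {p | p ∈ R ∧ p.1 ∈ A}

/-- ordinary composition -/
def rcomp (R S : Set (X × X)) : Set (X × X) := {p | ∃ y, (p.1, y) ∈ R ∧ (y, p.2) ∈ S}

/-- the demonic meet of `R` and `S` is defined -/
def Dfd (R S : Set (X × X)) : Prop := dom R ∩ dom S = dom (R ∩ S)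

/-- demonic meet -/
def dmeet (R S : Set (X × X)) : Set (X × X) := (R ∩ S) ∪ res R (dom S)ᶜ ∪ res S (dom R)ᶜ

/-- `(A, cp, M)`, with `M` the graph of the partial operation, is representable -/
def Rep {A : Type} (cp : A → A → A) (M : A → A → A → Prop) : Prop :=
  ∃ (X : Type) (h : A → Set (X × X)), Function.Injective h ∧ (∀ a b, h (cp a b) = rcomp (h a) (h b)) ∧
    (∀ a b, (∃ c, M a b c) ↔ Dfd (h a) (h b)) ∧ ∀ a b c, M a b c → h c = dmeet (h a) (h b)

inductive Fn : ℕ → Type
  | cp : Fn 2

inductive Rl : ℕ → Type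
  | mt : Rl 3

/-- one binary function symbol and one ternary relation symbol -/
def L : Language := ⟨Fn, Rl⟩

@[reducible] def str {A : Type} (cp : A → A → A) (M : A → A → A → Prop) : L.Structure A where
  funMap
    | .cp => fun x => cp (x 0) (x 1)
  RelMap
    | .mt => fun x => M (x 0) (x 1) (x 2)

/-- `(A, cp, M)` is a model of `T` -/
def Models {A : Type} (cp : A → A → A) (M : A → A → A → Prop) (T : L.Theory) : Prop :=
  @Language.Theory.Model L A (str cp M) T

end H62.DMeet
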