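import Mathlib

set_option autoImplicit false
open Set Filter Topology MeasureTheory

namespace Pool.Agent.H62.Darji

abbrev A : Type := ℚ ≃o ℚ

lemma ext_ex (g : A) (a b c : ℚ) : ∃ g' : A, a < b → g a < c → (∀ t ≤ a, g' t = g t) ∧ g' b = c := by
  by_cases h : a < b ∧ g a < c
  swap
  · exact ⟨1, fun h1 h2 => absurd ⟨h1, h2⟩ h⟩
  have hs : 0 < (c - g a) / (b - a) := div_pos (sub_pos.mpr h.2) (sub_pos.mpr h.1)
  let f : ℚ → ℚ := fun t => if t ≤ a then g t else g a + (t - a) * ((c - g a) / (b - a))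
  have h1 : StrictMono f := by
    intro s t hst
    simp only [f]
    split_ifs with a1 a2 a2
    · exact g.strictMono hst
    · have := g.monotone a1
      nlinarith [mul_pos (sub_pos.mpr (not_le.mp a2)) hs]
    · linarith
    · nlinarith
  have h2 : Function.Surjective f := by
    intro u
    by_cases hu : u ≤ g a
    · exact ⟨g.symm u, by simp [f, g.symm_apply_le, hu]⟩
    · refine ⟨a + (u - g a) / ((c - g a) / (b - a)), ?_⟩
      have := div_pos (sub_pos.mpr (not_le.mp hu)) hs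
      simp only [f]
      rw [if_neg (by linarith), add_sub_cancel_left, div_mul_cancel₀ _ hs.ne']
      ring
  refine ⟨h1.orderIsoOfSurjective f h2, fun _ _ => ⟨fun t ht => if_pos ht, ?_⟩⟩
  change f b = c
  simp only [f]
  rw [if_neg h.1.not_ge, mul_div_cancel₀ _ (sub_pos.mpr h.1).ne']
  ring

inductive Code : Type
  | one : Code
  | mul : Code → Code → Code
  | inv : Code → Code
  | ext : Code → ℚ → ℚ → ℚ → Code
  deriving Countable

noncomputable def ev : Code → A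
  | .one => 1
  | .mul x y => ev x * ev y
  | .inv x => (ev x)⁻¹
  | .ext x a b c => (ext_ex (ev x) a b c).choose

lemma inv_agree {g h : A} {N : ℚ} (e : ∀ t ≤ N, g t = h t) : ∀ u ≤ g N, g⁻¹ u = h⁻¹ u := by
  intro u hu
  have h1 : g⁻¹ u ≤ N := g.symm_apply_le.mpr hu
  apply h.injective
  rw [← e _ h1]
  simp

/-- order automorphisms of `ℚ` that agree on every lower ray with a member of a countable group -/
def GG : Subgroup A where
  carrier := {g | ∀ N : ℚ, ∃ x, ∀ t ≤ N, g t = ev x t}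
  one_mem' := fun _ => ⟨.one, fun _ _ => rfl⟩
  mul_mem' := fun {g h} hg hh N => by
    obtain ⟨x, hx⟩ := hg (h N)
    obtain ⟨y, hy⟩ := hh N
    exact ⟨.mul x y, fun t ht => by
      change g (h t) = ev x (ev y t)
      rw [hx _ (h.monotone ht), hy t ht]⟩
  inv_mem' := fun {g} hg N => by
    obtain ⟨x, hx⟩ := hg (g⁻¹ N)
    exact ⟨.inv x, fun t ht => inv_agree hx t (by simpa using ht)⟩

lemma extG (g : GG) {a b c : ℚ} (h1 : a < b) (h2 : g.1 a < c) :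
    ∃ g' : GG, (∀ t ≤ a, g'.1 t = g.1 t) ∧ g'.1 b = c := by
  obtain ⟨x, hx⟩ := g.2 a
  obtain ⟨h3, h4⟩ := (ext_ex (ev x) a b c).choose_spec h1 (hx a le_rfl ▸ h2)
  exact ⟨⟨ev (.ext x a b c), fun _ => ⟨_, fun _ _ => rfl⟩⟩, fun t ht => (h3 t ht).trans (hx t ht).symm, h4⟩

lemma lim (g : ℕ → GG) (h1 : ∀ N : ℚ, ∃ n, ∀ m ≥ n, ∀ t ≤ N, (g m).1 t = (g n).1 t)
    (h2 : ∀ N : ℚ, ∃ n, ∀ m ≥ n, (g m).1⁻¹ N = (g n).1⁻¹ N) :
    ∃ z : GG, ∀ N : ℚ, ∃ n, ∀ m ≥ n, ∀ t ≤ N, z.1 t = (g m).1 t := by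
  choose n hn using h1
  have key : ∀ N, ∀ m ≥ n N, ∀ t ≤ N, (g (n t)).1 t = (g m).1 t := fun N m hm t ht => by
    rw [← hn t (max m (n t)) (le_max_right _ _) t le_rfl, hn N _ (le_max_of_le_left hm) t ht, hn N m hm t ht]
  have a1 : StrictMono fun t => (g (n t)).1 t := fun s t h => by
    simp only [key t _ le_rfl s h.le]
    exact (g _).1.strictMono h
  have a2 : Function.Surjective fun t => (g (n t)).1 t := fun u => by
    obtain ⟨k, hk⟩ := h2 u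
    refine ⟨(g k).1⁻¹ u, ?_⟩
    beta_reduce
    obtain ⟨m, h1, h2⟩ : ∃ m, m ≥ n ((g k).1⁻¹ u) ∧ m ≥ k := ⟨max _ k, le_max_left _ _, le_max_right _ _⟩
    rw [key _ m h1 _ le_rfl, ← hk m h2]
    simp
  refine ⟨⟨a1.orderIsoOfSurjective _ a2, fun N => ?_⟩, fun N => ⟨n N, key N⟩⟩
  obtain ⟨x, hx⟩ := (g (n N)).2 N
  exact ⟨x, fun t ht => (key N _ le_rfl t ht).trans (hx t ht)⟩

def D : Type := range fun p : Code × ℕ => fun t : ℚ => ev p.1 (min t p.2)

instance : Countable D := (countable_range _).to_subtype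
instance : TopologicalSpace D := ⊥
instance : DiscreteTopology D := ⟨rfl⟩

def ψ (g : GG) (n : ℕ) : D := ⟨fun t => g.1 (min t n), by
  obtain ⟨x, hx⟩ := g.2 n
  exact ⟨(x, n), funext fun t => (hx _ (min_le_right _ _)).symm⟩⟩

lemma ψ_eq {g h : GG} {n : ℕ} : ψ g n = ψ h n ↔ ∀ t ≤ (n : ℚ), g.1 t = h.1 t :=
  ⟨fun e t ht => by simpa [ψ, ht] using congrFun (congrArg Subtype.val e) t,
    fun e => Subtype.ext (funext fun t => e _ (min_le_right _ _))⟩

def Φ (g : GG) (n : ℕ) : D × D := (ψ g n, ψ g⁻¹ n)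

instance : TopologicalSpace GG := TopologicalSpace.induced Φ inferInstance

def Nb (g : GG) (N : ℚ) : Set GG := {z | ∀ t ≤ N, z.1 t = g.1 t}

lemma Nb_open (g : GG) (n : ℕ) : IsOpen (Nb g n) := by
  have : Continuous fun z : GG => ψ z n :=
    ((continuous_apply n).comp (continuous_induced_dom (f := Φ))).fst
  exact (Set.ext fun z => ψ_eq : (fun z => ψ z n) ⁻¹' {ψ g n} = Nb g n) ▸
    (isOpen_discrete _).preimage this

lemma Nb_nhds (g : GG) (N : ℚ) : Nb g N ∈ 𝓝 g :=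
  mem_of_superset ((Nb_open g ⌈N⌉₊).mem_nhds fun _ _ => rfl) fun _ hz t ht => hz t (ht.trans (Nat.le_ceil N))

lemma tends {α : Type} {f : α → GG} {l : Filter α} {g : GG} (h : ∀ N, ∀ᶠ x in l, f x ∈ Nb g N) :
    Tendsto f l (𝓝 g) := by
  rw [nhds_induced, tendsto_comap_iff, tendsto_pi_nhds]
  intro n
  rw [nhds_discrete, tendsto_pure]
  filter_upwards [h n, h (g.1⁻¹ n)] with x h1 h2
  refine Prod.ext (ψ_eq.mpr h1) (ψ_eq.mpr fun t ht => ?_)
  exact (inv_agree (fun t ht => (h2 t ht).symm) t (by simpa using ht)).symm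

lemma nhds_sub {g : GG} {U : Set GG} (hU : U ∈ 𝓝 g) : ∃ N, Nb g N ⊆ U := by
  have : Tendsto id (⨅ N : ℚ, 𝓟 (Nb g N)) (𝓝 g) := tends fun N => mem_iInf_of_mem N (mem_principal_self _)
  exact (mem_iInf_of_directed (f := fun N : ℚ => 𝓟 (Nb g N)) (directed_of_isDirected_le fun a b h =>
    principal_mono.mpr fun _ hz t ht => hz t (ht.trans h)) U).mp (this hU)

instance : IsTopologicalGroup GG where
  continuous_mul := continuous_iff_continuousAt.mpr fun p => tends fun N => by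
    filter_upwards [prod_mem_nhds (Nb_nhds p.1 (p.2.1 N)) (Nb_nhds p.2 N)] with q hq t ht
    change q.1.1 (q.2.1 t) = p.1.1 (p.2.1 t)
    rw [hq.2 t ht, hq.1 _ (p.2.1.monotone ht)]
  continuous_inv := continuous_iff_continuousAt.mpr fun g => tends fun N => by
    filter_upwards [Nb_nhds g (g.1⁻¹ N)] with z hz t ht
    exact (inv_agree (fun t ht => (hz t ht).symm) t (by simpa using ht)).symm

instance : PolishSpace GG := by
  refine IsClosedEmbedding.polishSpace (f := Φ) ⟨⟨⟨rfl⟩, fun g h e => ?_⟩, IsSeqClosed.isClosed fun u F hu hF => ?_⟩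
  · ext t
    exact ψ_eq.mp (congrArg Prod.fst (congrFun e ⌈t⌉₊)) t (Nat.le_ceil t)
  choose g hg using hu
  have h1 : ∀ n, ∃ k, ∀ m ≥ k, Φ (g m) n = F n := fun n => by
    have := tendsto_pi_nhds.mp hF n
    rw [nhds_discrete, tendsto_pure, eventually_atTop] at this
    simpa only [hg] using this
  obtain ⟨z, hz⟩ := lim g (fun N => (h1 ⌈N⌉₊).imp fun k hk m hm t ht => ψ_eq.mp
      (congrArg Prod.fst ((hk m hm).trans (hk k le_rfl).symm)) t (ht.trans (Nat.le_ceil N)))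
    fun N => (h1 ⌈N⌉₊).imp fun k hk m hm => ψ_eq.mp
      (congrArg Prod.snd ((hk m hm).trans (hk k le_rfl).symm)) N (Nat.le_ceil N)
  have h2 : Tendsto g atTop (𝓝 z) := tends fun N => eventually_atTop.mpr ((hz N).imp fun k hk m hm t ht =>
    (hk m hm t ht).symm)
  exact ⟨z, tendsto_nhds_unique ((continuous_induced_dom.tendsto z).comp h2) ((funext hg : Φ ∘ g = u) ▸ hF)⟩

instance : Uncountable GG := by
  refine not_countable_iff.mp fun h => ?_
  obtain ⟨g, z, hz⟩ := nonempty_interior_of_iUnion_of_closed (f := fun g : GG => {g})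
    (fun _ => isClosed_singleton) (iUnion_of_singleton _)
  obtain ⟨N, hN⟩ := nhds_sub (mem_interior_iff_mem_nhds.mp hz)
  obtain ⟨w, h1, h2⟩ := extG z (lt_add_one N) (show z.1 N < z.1 (N + 1) + 1 by
    linarith [z.1.strictMono (lt_add_one N)])
  rw [(hN h1).trans (hN fun _ _ => rfl).symm] at h2
  linarith

structure St where
  g : GG
  k : GG
  a : ℚ
  r : ℚ

def Ext (s s' : St) : Prop := s.a ≤ s'.a ∧ s.r ≤ s'.r ∧ s'.g ∈ Nb s.g s.r ∧ s'.k ∈ Nb s.k s.a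

lemma Ext.trans {s s' s'' : St} (h : Ext s s') (h' : Ext s' s'') : Ext s s'' :=
  ⟨h.1.trans h'.1, h.2.1.trans h'.2.1, fun t ht => (h'.2.2.1 t (ht.trans h.2.1)).trans (h.2.2.1 t ht),
    fun t ht => (h'.2.2.2 t (ht.trans h.1)).trans (h.2.2.2 t ht)⟩

def Forces (s : St) (x : GG) (U : Set GG) : Prop := ∀ g ∈ Nb s.g s.r, ∀ k ∈ Nb s.k s.a, g * x * k⁻¹ ∈ U

lemma Forces.ext {s s' : St} {x : GG} {U : Set GG} (h : Forces s x U) (e : Ext s s') : Forces s' x U :=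
  fun g hg k hk => h g (fun t ht => (hg t (ht.trans e.2.1)).trans (e.2.2.1 t ht)) k
    fun t ht => (hk t (ht.trans e.1)).trans (e.2.2.2 t ht)

lemma one_piece {U : Set GG} (hU : IsOpen U) (hD : Dense U) (s : St) (y : GG) {b : ℚ} (h1 : s.a < b)
    (h2 : s.r < y.1 b) : ∃ s', Ext s s' ∧ s'.a < b ∧ s'.r < y.1 b ∧ ∀ x ∈ Nb y b, Forces s' x U := by
  set a := max s.a (y.1⁻¹ s.r) with ha
  have hab : a < b := max_lt h1 (y.1.symm_apply_lt.mpr h2)
  obtain ⟨τ, hτ, hτU⟩ := hD.inter_nhds_nonempty (Nb_nhds (s.g * y * s.k⁻¹) (s.k.1 a))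
  obtain ⟨N, hN⟩ := nhds_sub (hU.mem_nhds hτ)
  obtain ⟨k, hk1, hk2⟩ := extG s.k (show a < (a + b) / 2 by linarith)
    (lt_max_of_lt_left (lt_add_one _) : s.k.1 a < max (s.k.1 a + 1) N)
  refine ⟨⟨τ * k * y⁻¹, k, (a + b) / 2, y.1 ((a + b) / 2)⟩, ⟨?_, ?_, fun t ht => ?_, fun t ht =>
    hk1 t (ht.trans (le_max_left _ _))⟩, by linarith, y.1.strictMono (by linarith), ?_⟩
  · linarith [le_max_left s.a (y.1⁻¹ s.r)]
  · exact y.1.symm_apply_le.mp ((le_max_right s.a (y.1⁻¹ s.r) : y.1.symm s.r ≤ a).trans (by linarith))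
  · have h3 : y.1⁻¹ t ≤ a := (y.1⁻¹.monotone ht).trans (le_max_right _ _)
    change τ.1 (k.1 (y.1⁻¹ t)) = _
    rw [hk1 _ h3, hτU _ (s.k.1.monotone h3)]
    simp
  · intro x hx g hg k' hk'
    refine hN fun u hu => ?_
    have h3 : u ≤ k.1 ((a + b) / 2) := hk2 ▸ hu.trans (le_max_right _ _)
    have h4 : k.1⁻¹ u ≤ (a + b) / 2 := k.1.symm_apply_le.mpr h3
    change g.1 (x.1 (k'.1⁻¹ u)) = _
    rw [← inv_agree (fun t ht => (hk' t ht).symm) u h3, hx _ (by linarith), hg _ (y.1.monotone h4)]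
    simp

lemma pieces {U : Set GG} (hU : IsOpen U) (hD : Dense U) (b : ℚ) (Y : Finset GG) : ∀ s : St, s.a < b →
    (∀ y ∈ Y, s.r < y.1 b) → ∃ s', Ext s s' ∧ ∀ y ∈ Y, ∀ x ∈ Nb y b, Forces s' x U := by
  classical
  induction Y using Finset.induction_on_min_value fun y : GG => y.1 b with
  | empty => exact fun s _ _ => ⟨s, ⟨le_rfl, le_rfl, fun _ _ => rfl, fun _ _ => rfl⟩, by simp⟩
  | insert y Y _ hmin ih =>
    intro s h1 h2
    obtain ⟨s1, e1, a1, a2, a3⟩ := one_piece hU hD s y h1 (h2 y (Finset.mem_insert_self _ _))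
    obtain ⟨s2, e2, a4⟩ := ih s1 a1 fun z hz => a2.trans_le (hmin z hz)
    refine ⟨s2, e1.trans e2, fun z hz x hx => ?_⟩
    rcases Finset.mem_insert.mp hz with rfl | hz
    exacts [(a3 x hx).ext e2, a4 z hz x hx]

lemma stage {U : Set GG} (hU : IsOpen U) (hD : Dense U) {K : Set GG} (hK : IsCompact K) (s : St) (n : ℕ) :
    ∃ s', Ext s s' ∧ (n : ℚ) ≤ s'.a ∧ (n : ℚ) ≤ s'.r ∧ n ≤ s'.g.1 s'.r ∧ n ≤ s'.k.1 s'.a ∧
      ∀ x ∈ K, Forces s' x U := by
  let s0 : St := ⟨s.g, s.k, max s.a (max n (s.k.1⁻¹ n)), max s.r (max n (s.g.1⁻¹ n))⟩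
  obtain ⟨T, -, hT⟩ := hK.elim_nhds_subcover (fun y => Nb y (y.1⁻¹ s0.r + 1)) fun y _ => Nb_nhds _ _
  obtain ⟨c, hc⟩ := (T.image fun y : GG => y.1⁻¹ s0.r + 1).bddAbove
  obtain ⟨Y, hY, hY'⟩ := hK.elim_nhds_subcover (fun y => Nb y (max c (s0.a + 1))) fun y _ => Nb_nhds _ _
  obtain ⟨s', e, h⟩ := pieces hU hD (max c (s0.a + 1)) Y s0 (lt_max_of_lt_right (lt_add_one _)) fun x hx => by
    obtain ⟨y, hy, hxy⟩ := mem_iUnion₂.mp (hT (hY x hx))
    refine lt_of_lt_of_le ?_ (x.1.monotone (le_max_of_le_left (hc (Finset.mem_coe.mpr (Finset.mem_image_of_mem _ hy)))))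
    rw [hxy _ le_rfl]
    exact y.1.symm_apply_lt.mp (lt_add_one _)
  refine ⟨s', Ext.trans (s' := s0) ⟨le_max_left _ _, le_max_left _ _, fun _ _ => rfl, fun _ _ => rfl⟩ e,
    (le_max_of_le_right (le_max_left _ _)).trans e.1, (le_max_of_le_right (le_max_left _ _)).trans e.2.1,
    ?_, ?_, fun x hx => ?_⟩
  · refine le_trans ?_ (s'.g.1.monotone e.2.1)
    rw [e.2.2.1 _ le_rfl]
    exact s.g.1.symm_apply_le.mp (le_max_of_le_right (le_max_right _ _))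
  · refine le_trans ?_ (s'.k.1.monotone e.1)
    rw [e.2.2.2 _ le_rfl]
    exact s.k.1.symm_apply_le.mp (le_max_of_le_right (le_max_right _ _))
  · obtain ⟨y, hy, hxy⟩ := mem_iUnion₂.mp (hY' hx)
    exact h y hy x hxy

lemma lim' (g : ℕ → GG) (r : ℕ → ℚ) (h1 : ∀ n : ℕ, (n : ℚ) ≤ r (n + 1))
    (h2 : ∀ n : ℕ, (n : ℚ) ≤ (g (n + 1)).1 (r (n + 1)))
    (h3 : ∀ n, ∀ m ≥ n, g m ∈ Nb (g n) (r n)) : ∃ z : GG, ∀ n, z ∈ Nb (g n) (r n) := by
  obtain ⟨z, hz⟩ := lim g (fun N => ⟨⌈N⌉₊ + 1, fun m hm t ht =>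
      h3 _ m hm t (ht.trans ((Nat.le_ceil N).trans (h1 _)))⟩)
    fun N => ⟨⌈N⌉₊ + 1, fun m hm => (inv_agree (fun t ht => (h3 _ m hm t ht).symm) N
      ((Nat.le_ceil N).trans (h2 _))).symm⟩
  refine ⟨z, fun n t ht => ?_⟩
  obtain ⟨k, hk⟩ := hz t
  rw [hk _ (le_max_left k n) t le_rfl, h3 n _ (le_max_right k n) t ht]

theorem catcher {K B : Set GG} (hK : IsCompact K) (hB : B ∈ residual GG) :
    ∃ g k : GG, ∀ x ∈ K, g * x * k⁻¹ ∈ B := by
  obtain ⟨S, h1, h2, h3, h4⟩ := mem_residual_iff.mp hB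
  obtain ⟨U, hU⟩ := (h3.insert univ).exists_eq_range (insert_nonempty _ _)
  have hU' : ∀ n, IsOpen (U n) ∧ Dense (U n) := fun n => by
    rcases (hU ▸ mem_range_self n : U n ∈ insert univ S) with h | h
    exacts [h ▸ ⟨isOpen_univ, dense_univ⟩, ⟨h1 _ h, h2 _ h⟩]
  choose f hf using fun n s => stage (hU' n).1 (hU' n).2 hK s n
  let s : ℕ → St := fun n => Nat.rec ⟨1, 1, 0, 0⟩ f n
  have e : ∀ n, ∀ m ≥ n, Ext (s n) (s m) := fun n m h => by
    induction h with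
    | refl => exact ⟨le_rfl, le_rfl, fun _ _ => rfl, fun _ _ => rfl⟩
    | step _ ih => exact ih.trans (hf _ _).1
  obtain ⟨g, hg⟩ := lim' (fun n => (s n).g) (fun n => (s n).r) (fun n => (hf n _).2.2.1)
    (fun n => (hf n _).2.2.2.1) fun n m h => (e n m h).2.2.1
  obtain ⟨k, hk⟩ := lim' (fun n => (s n).k) (fun n => (s n).a) (fun n => (hf n _).2.1)
    (fun n => (hf n _).2.2.2.2.1) fun n m h => (e n m h).2.2.2
  refine ⟨g, k, fun x hx => h4 fun V hV => ?_⟩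
  obtain ⟨n, rfl⟩ : V ∈ range U := hU ▸ mem_insert_of_mem _ hV
  exact (hf n _).2.2.2.2.2 x hx g (hg (n + 1)) k (hk (n + 1))

end Pool.Agent.H62.Darji
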