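import Pool.Agent.H62.PkDefs

/-!
The problem DIAG and parallelized LLPO.
-/

set_option autoImplicit false

namespace Pool.Agent.H62.Pk

/-- an equivalence relation is named by an enumeration of its pairs (entry 0 for nothing) -/
def eqRep : Rep (Setoid ℕ) := fun p E => ∀ x y, E x y ↔ ∃ n, p n = Nat.pair x y + 1

/-- diagonal functions -/
def DIAG (E : Setoid ℕ) : Set Baire := {g | ∀ x, ¬ E (g x) x}

/-- q enumerates forbidden values: the entry `pair k i + 1` forbids the value i at position k -/
def banRep : Rep (Set (ℕ × ℕ)) := fun q B => B = {u | ∃ n, q n = Nat.pair u.1 u.2 + 1}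

/-- parallelized LLPO: a binary sequence avoiding the forbidden values -/
def LLPOhat (B : Set (ℕ × ℕ)) : Set Baire := {y | ∀ k, y k ≤ 1 ∧ (k, y k) ∉ B}

end Pool.Agent.H62.Pk
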