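import Pool.Agent.H62.Hts1
import Pool.Agent.H62.DgDefs

/-!
Parallelized LLPO does not reduce to DIAG.
-/

set_option autoImplicit false

namespace Pool.Agent.H62.Pk

open Pool.Agent.H37 Pool.Agent.H62.Hts Filter

def Ban (q : Baire) (k i : ℕ) : Prop := ∃ n, q n = Nat.pair k i + 1
def Val (q : Baire) : Prop := ∀ k, ¬ (Ban q k 0 ∧ Ban q k 1)
def Ag (n : ℕ) (q' q : Baire) : Prop := ∀ i < n, q' i = q i
def Fn (q : Baire) : Prop := ∀ᶠ n in atTop, q n = 0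

theorem ulim (e : IU) {u : ℕ → ℕ} {F : Set ℕ} (hF : F.Finite) (h : ∀ s, u s ∈ F) :
    ∃ v, ∀ᶠ s in e.U, u s = v := by
  obtain ⟨v, -, hv⟩ := (Ultrafilter.eventually_exists_mem_iff hF
    (f := e.U) (P := fun v s => u s = v)).1 (Eventually.of_forall fun s => ⟨_, h s, rfl⟩)
  exact ⟨v, hv⟩

theorem ban_upd {q : Baire} {s k j k' i : ℕ} (h : Ban (Function.update q s (Nat.pair k j + 1)) k' i) :
    Ban q k' i ∨ (k' = k ∧ i = j) := by
  obtain ⟨n, hn⟩ := h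
  by_cases a : n = s
  · subst a
    simp at hn
    exact Or.inr ⟨hn.1.symm, hn.2.symm⟩
  · exact Or.inl ⟨n, by rwa [Function.update_of_ne a] at hn⟩

theorem val_upd {q : Baire} (h : Val q) {k : ℕ} (hk : ∀ i, ¬ Ban q k i) (s j : ℕ) :
    Val (Function.update q s (Nat.pair k j + 1)) := fun k' ⟨a, b⟩ => by
  rcases ban_upd a with a | ⟨rfl, a⟩ <;> rcases ban_upd b with b | ⟨b, c⟩
  · exact h _ ⟨a, b⟩
  · exact hk _ (b ▸ a)
  · exact hk _ b
  · omega

theorem fn_upd {q : Baire} (h : Fn q) (s v : ℕ) : Fn (Function.update q s v) :=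
  (h.and (eventually_gt_atTop s)).mono fun n h => by rw [Function.update_of_ne h.2.ne', h.1]

theorem fresh {q : Baire} (h : Fn q) (k' : ℕ) : ∃ k, k ≠ k' ∧ ∀ i, ¬ Ban q k i := by
  obtain ⟨t, ht⟩ := eventually_atTop.1 h
  refine ⟨(Finset.range t).sup q + k' + 1, by omega, fun i ⟨n, hn⟩ => ?_⟩
  have := Nat.left_le_pair ((Finset.range t).sup q + k' + 1) i
  by_cases a : n < t
  · have := Finset.le_sup (f := q) (Finset.mem_range.2 a)
    omega
  · have := ht n (by omega)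
    omega

theorem three (E0 E1 : Setoid ℕ) (a b x z : ℕ) (d0 : ¬ E0 a b ∧ ¬ E0 x a ∧ ¬ E0 x b)
    (d1 : ¬ E1 a b ∧ ¬ E1 x a ∧ ¬ E1 x b) :
    ∃ w ∈ ({a, b, x} : Set ℕ), ¬ E0 w z ∧ ¬ E1 w z := by
  have tr : ∀ (E : Setoid ℕ) u v, E u z → E v z → E u v := fun E u v h h' => E.trans h (E.symm h')
  by_cases a0 : E0 a z
  · by_cases b1 : E1 b z
    · exact ⟨x, by simp, fun h => d0.2.1 (tr _ _ _ h a0), fun h => d1.2.2 (tr _ _ _ h b1)⟩
    · exact ⟨b, by simp, fun h => d0.1 (tr _ _ _ a0 h), b1⟩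
  by_cases a1 : E1 a z
  · by_cases b0 : E0 b z
    · exact ⟨x, by simp, fun h => d0.2.2 (tr _ _ _ h b0), fun h => d1.2.1 (tr _ _ _ h a1)⟩
    · exact ⟨b, by simp, b0, fun h => d1.1 (tr _ _ _ a1 h)⟩
  · exact ⟨a, by simp, a0, a1⟩

theorem dcore (E : Baire → Setoid ℕ) (nt : ∀ q, Val q → ∃ a b, ¬ E q a b)
    (ct : ∀ q, Val q → ∀ x y, E q x y → ∃ n, ∀ q', Val q' → Ag n q' q → E q' x y)
    (ps : ∀ q, Val q → ∀ g ∈ DIAG (E q), ∀ k, ∃ n j, j ≤ 1 ∧ ∀ q', Val q' → ∀ g' ∈ DIAG (E q'),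
      Ag n q' q → Ag n g' g → ¬ Ban q' k j) : False := by
  classical
  obtain ⟨e⟩ := exists_IU
  have ctf : ∀ q, Val q → ∀ (m : ℕ) (f : ℕ → ℕ), (∀ x < m, E q x (f x)) → ∀ᶠ n in atTop,
      ∀ q', Val q' → Ag n q' q → ∀ x < m, E q' x (f x) := fun q hq m f h => by
    have : ∀ᶠ n in atTop, ∀ x ∈ Set.Iio m, ∀ q', Val q' → Ag n q' q → E q' x (f x) :=
      (eventually_all_finite (Set.finite_Iio m)).2 fun x hx => by
        obtain ⟨n, hn⟩ := ct q hq _ _ (h x hx)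
        exact (eventually_ge_atTop n).mono fun n' l q' a b => hn q' a fun i hi => b i (by omega)
    exact this.mono fun n h q' a b x hx => h x hx q' a b
  obtain ⟨q0, n0, a, b, v0, f0, hab⟩ : ∃ q0 n0 a b, Val q0 ∧ Fn q0 ∧
      ∀ q, Val q → Fn q → Ag n0 q q0 → ¬ E q a b := by
    by_contra hn
    push Not at hn
    have : ∀ (j : ℕ) (u : {u : Baire × ℕ // Val u.1 ∧ Fn u.1}),
        ∃ v : {u : Baire × ℕ // Val u.1 ∧ Fn u.1}, u.1.2 < v.1.2 ∧ Ag u.1.2 v.1.1 u.1.1 ∧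
        ∀ q', Val q' → Ag v.1.2 q' v.1.1 → E q' j.unpair.1 j.unpair.2 := fun j u => by
      obtain ⟨q, h1, h2, h3, h4⟩ := hn u.1.1 u.1.2 j.unpair.1 j.unpair.2 u.2.1 u.2.2
      obtain ⟨n, h5⟩ := ct q h1 _ _ h4
      exact ⟨⟨(q, n + u.1.2 + 1), h1, h2⟩, by simp only; omega, h3,
        fun q' c d => h5 q' c fun i hi => d i (by simp only; omega)⟩
    choose g g1 g2 g3 using this
    let F : ℕ → {u : Baire × ℕ // Val u.1 ∧ Fn u.1} := fun n => Nat.rec
      ⟨(fun _ => 0, 0), fun k h => by simp [Ban] at h, by simp [Fn]⟩ (fun j u => g j u) n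
    have sm : StrictMono fun n => (F n).1.2 := strictMono_nat_of_lt_succ fun n => g1 n (F n)
    have ag : ∀ m n, m ≤ n → Ag (F m).1.2 (F n).1.1 (F m).1.1 := fun m n h => by
      induction n, h using Nat.le_induction with
      | base => exact fun _ _ => rfl
      | succ n l ih =>
        exact fun i hi => (g2 n (F n) i (hi.trans_le (sm.monotone l))).trans (ih i hi)
    have ag2 : ∀ m, Ag (F m).1.2 (fun i => (F (i + 1)).1.1 i) (F m).1.1 := fun m i hi => by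
      have := sm.id_le (i + 1)
      exact (ag _ _ (le_max_left (i + 1) m) i this).symm.trans (ag _ _ (le_max_right _ m) i hi)
    have vq : Val fun i => (F (i + 1)).1.1 i := fun k ⟨⟨n, c⟩, m, d⟩ => by
      have := sm.id_le (n + m + 1)
      simp only [id] at this
      exact (F (n + m + 1)).2.1 k ⟨⟨n, (ag2 (n + m + 1) n (by omega)).symm.trans c⟩,
        m, (ag2 (n + m + 1) m (by omega)).symm.trans d⟩
    obtain ⟨a, b, h⟩ := nt _ vq
    exact h (by simpa using g3 (Nat.pair a b) (F _) _ vq (ag2 (Nat.pair a b + 1)))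
  obtain ⟨k', -, hk'⟩ := fresh f0 0
  have dich : ∀ q t x, Val q → Fn q → Ag n0 q q0 → (∀ i, ¬ Ban q k' i) → n0 ≤ t →
      ∃ q', Val q' ∧ Fn q' ∧ Ag t q' q ∧ (∀ i, ¬ Ban q' k' i) ∧ (E q' x a ∨ E q' x b) := by
    intro q t x h1 h2 h3 h4 h5
    by_contra hn
    push Not at hn
    obtain ⟨k, k1, k2⟩ := fresh h2 k'
    obtain ⟨Q, Qv, Qf, Q1, Qb, Qk⟩ : ∃ Q : ℕ → ℕ → Baire, (∀ j s, Val (Q j s)) ∧
        (∀ j s, Fn (Q j s)) ∧ (∀ j s, Ag (t + s) (Q j s) q) ∧ (∀ j s, Ban (Q j s) k j) ∧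
        ∀ j s i, ¬ Ban (Q j s) k' i :=
      ⟨fun j s => Function.update q (t + s) (Nat.pair k j + 1), fun _ _ => val_upd h1 k2 _ _,
        fun _ _ => fn_upd h2 _ _, fun j s i hi => Function.update_of_ne hi.ne _ _,
        fun j s => ⟨t + s, Function.update_self _ _ _⟩,
        fun j s i h => (ban_upd h).elim (h4 i) fun h => k1 h.1.symm⟩
    have Q2 : ∀ j s, ¬ E (Q j s) a b ∧ ¬ E (Q j s) x a ∧ ¬ E (Q j s) x b := fun j s =>
      ⟨hab _ (Qv _ _) (Qf _ _) fun i hi => (Q1 j s i (by omega)).trans (h3 i hi),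
        hn _ (Qv _ _) (Qf _ _) (fun i hi => Q1 j s i (by omega)) (Qk j s)⟩
    choose gs gs1 gs2 using fun s z => three _ _ a b x z (Q2 0 s) (Q2 1 s)
    choose g hg using fun z => ulim e (u := fun s => gs s z) (Set.toFinite _) fun s => gs1 s z
    obtain ⟨n, j, j1, hj⟩ := ps q h1 g (fun z h => by
      obtain ⟨n, hn⟩ := ct q h1 _ _ h
      obtain ⟨s, c, d⟩ := ((hg z).and (e.big n)).exists
      exact (gs2 s z).1 (by rw [c]; exact hn _ (Qv _ _) fun i hi => Q1 0 s i (by omega))) k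
    have : ∀ᶠ s in e.U, ∀ z ∈ Finset.range n, gs s z = g z :=
      (eventually_all_finset _).2 fun z _ => hg z
    obtain ⟨s, c, d⟩ := (this.and (e.big n)).exists
    refine hj (Q j s) (Qv _ _) (gs s) (fun z => ?_) (fun i hi => Q1 j s i (by omega))
      (fun i hi => c i (Finset.mem_range.2 hi)) (Qb j s)
    rcases Nat.le_one_iff_eq_zero_or_eq_one.1 j1 with rfl | rfl
    exacts [(gs2 s z).1, (gs2 s z).2]
  have real : ∀ t m, n0 ≤ t → ∃ q, ∃ f : ℕ → ℕ, Val q ∧ Fn q ∧ Ag t q q0 ∧ (∀ i, ¬ Ban q k' i) ∧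
      (∀ x, f x ∈ ({a, b} : Set ℕ)) ∧ ∀ x < m, E q x (f x) := fun t m ht => by
    induction m with
    | zero => exact ⟨q0, fun _ => a, v0, f0, fun _ _ => rfl, hk', by simp, by simp⟩
    | succ m ih =>
      obtain ⟨q, f, h1, h2, h3, h4, h5, h6⟩ := ih
      obtain ⟨n, c, d⟩ := ((ctf q h1 m f h6).and (eventually_ge_atTop t)).exists
      obtain ⟨q', b1, b2, b3, b4, b5⟩ := dich q n m h1 h2 (fun i hi => h3 i (by omega)) h4
        (by omega)
      obtain ⟨w, w1, w2⟩ : ∃ w ∈ ({a, b} : Set ℕ), E q' m w :=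
        b5.elim (fun h => ⟨a, by simp, h⟩) fun h => ⟨b, by simp, h⟩
      refine ⟨q', fun x => if x = m then w else f x, b1, b2,
        fun i hi => (b3 i (by omega)).trans (h3 i hi), b4, fun x => ?_, fun x hx => ?_⟩
      · beta_reduce
        split_ifs
        exacts [w1, h5 x]
      · beta_reduce
        split_ifs with l
        · exact l ▸ w2
        · exact c q' b1 b3 x (by omega)
  choose q f r1 r2 r3 r4 r5 r6 using fun s => real (n0 + s) s (by omega)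
  choose τ hτ using fun z => ulim e (u := fun s => f s z) (Set.toFinite _) fun s => r5 s z
  have opp : ∀ q', Val q' → Fn q' → Ag n0 q' q0 → ∀ z w, w ∈ ({a, b} : Set ℕ) → E q' z w →
      ¬ E q' (if w = a then b else a) z := fun q' h1 h2 h3 z w hw h h' => by
    have := (E q').trans h' h
    split_ifs at this with l
    · exact hab q' h1 h2 h3 ((E q').symm (l ▸ this))
    · exact hab q' h1 h2 h3 ((hw.resolve_left l : w = b) ▸ this)
  obtain ⟨n, j, -, hj⟩ := ps q0 v0 (fun z => if τ z = a then b else a) (fun z h => by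
    obtain ⟨n, hn⟩ := ct q0 v0 _ _ h
    obtain ⟨s, c, d⟩ := ((hτ z).and (e.big (n + z + 1))).exists
    refine opp (q s) (r1 s) (r2 s) (fun i hi => r3 s i (by omega)) z _ (r5 s z)
      (r6 s z (by omega)) ?_
    rw [c]
    exact hn _ (r1 s) fun i hi => r3 s i (by omega)) k'
  have : ∀ᶠ s in e.U, ∀ z ∈ Finset.range n, f s z = τ z :=
    (eventually_all_finset _).2 fun z _ => hτ z
  obtain ⟨s, c, d⟩ := (this.and (e.big n)).exists
  obtain ⟨u, c1, c2⟩ := ((ctf _ (r1 s) s _ (r6 s)).and (eventually_ge_atTop (n0 + s))).exists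
  obtain ⟨Q, Qv, Qf, Q1, Qb⟩ : ∃ Q : Baire, Val Q ∧ Fn Q ∧ Ag u Q (q s) ∧ Ban Q k' j :=
    ⟨Function.update (q s) u (Nat.pair k' j + 1), val_upd (r1 s) (r4 s) _ _, fn_upd (r2 s) _ _,
      fun i hi => Function.update_of_ne hi.ne _ _, u, Function.update_self _ _ _⟩
  have Q2 : Ag (n0 + s) Q q0 := fun i hi => (Q1 i (by omega)).trans (r3 s i hi)
  have Q3 : Ag n0 Q q0 := fun i hi => Q2 i (by omega)
  refine hj Q Qv (fun z => if z < n then (if τ z = a then b else a) else if E Q z a then b else a)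
    (fun z => ?_) (fun i hi => Q2 i (by omega)) (fun i hi => if_pos hi) Qb
  by_cases l : z < n
  · simp only [if_pos l, ← c z (Finset.mem_range.2 l)]
    exact opp Q Qv Qf Q3 z _ (r5 s z) (c1 Q Qv Q1 z (by omega))
  · simp only [if_neg l]
    split_ifs with l'
    · exact fun h => hab Q Qv Qf Q3 ((E Q).symm ((E Q).trans h l'))
    · exact fun h => l' ((E Q).symm h)

theorem not_DIAG : ¬ WLe banRep baireRep LLPOhat eqRep baireRep DIAG := by
  classical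
  rintro ⟨Φ, Ψ, H⟩
  have H' : ∀ q, ∃ p E, Val q → Φ.Ev q p ∧ eqRep p E ∧ (DIAG E).Nonempty ∧ ∀ g ∈ DIAG E,
      ∃ r, Ψ.Ev (pr q g) r ∧ ∀ k, r k ≤ 1 ∧ ¬ Ban q k (r k) := fun q => by
    by_cases h : Val q
    · obtain ⟨p, E, h1, h2, h3, h4⟩ := H q _ rfl ⟨fun k => if Ban q k 0 then 1 else 0, fun k => by
        beta_reduce
        split_ifs with a
        exacts [⟨le_rfl, fun b => h k ⟨a, b⟩⟩, ⟨by omega, a⟩]⟩
      refine ⟨p, E, fun _ => ⟨h1, h2, h3, fun g hg => ?_⟩⟩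
      obtain ⟨r, _, a, rfl, b⟩ := h4 g g rfl hg
      exact ⟨r, a, b⟩
    · exact ⟨q, ⊥, fun h' => absurd h' h⟩
  choose p E h using H'
  refine dcore E (fun q hq => ?_) (fun q hq x y a => ?_) fun q hq g hg k => ?_
  · obtain ⟨g, hg⟩ := (h q hq).2.2.1
    exact ⟨_, _, hg 0⟩
  · obtain ⟨n, hn⟩ := ((h q hq).2.1 x y).1 a
    obtain ⟨k, hk⟩ := (h q hq).1 n
    refine ⟨k, fun q' b c => ((h q' b).2.1 x y).2 ⟨n, ?_⟩⟩
    rw [ini_eq, ← pre_congr c] at hk
    rw [← (h q' b).1.sound hk, hn]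
  · obtain ⟨r, a, b⟩ := (h q hq).2.2.2 g hg
    obtain ⟨n, hn⟩ := a k
    refine ⟨n, r k, (b k).1, fun q' c g' d f1 f2 => ?_⟩
    obtain ⟨r', a', b'⟩ := (h q' c).2.2.2 g' d
    rw [ini_eq, ← pre_congr (x := pr q' g') fun i hi => by simp [pr, f1 i hi, f2 i hi]] at hn
    rw [a'.sound hn]
    exact (b' k).2

end Pool.Agent.H62.Pk
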