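import Pool.Agent.H62.DgDefs

/-!
Parallelized all-or-co-unique choice.
-/

set_option autoImplicit false

namespace Pool.Agent.H62.Pk

/-- at most one value is forbidden at each position -/
def OneBan (B : Set (ℕ × ℕ)) : Prop := ∀ k i j, (k, i) ∈ B → (k, j) ∈ B → i = j

/-- DNC_n, the parallelization of all-or-co-unique choice on n values -/
def DNCn (n : ℕ) (B : Set (ℕ × ℕ)) : Set Baire := {y | OneBan B ∧ ∀ k, y k < n ∧ (k, y k) ∉ B}

end Pool.Agent.H62.Pk
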