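import Pool.Agent.H62.Dg1
import Pool.Agent.H62.DgDefs2

/-!
No DNC_n reduces to DIAG.
-/

set_option autoImplicit false

namespace Pool.Agent.H62.Pk

open Pool.Agent.H37 Pool.Agent.H62.Hts Filter

def Vl (q : Baire) : Prop := ∀ k i j, Ban q k i → Ban q k j → i = j
def Avd (S : ℕ) (q : Baire) (q0 : Baire) : Prop := ∀ k < S, ∀ i, Ban q k i → Ban q0 k i

theorem vl_upd {q : Baire} (h : Vl q) {k : ℕ} (hk : ∀ i, ¬ Ban q k i) (s j : ℕ) :
    Vl (Function.update q s (Nat.pair k j + 1)) := fun k' i i' a b => by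
  rcases ban_upd a with a | ⟨rfl, a⟩ <;> rcases ban_upd b with b | ⟨b, c⟩
  · exact h _ _ _ a b
  · exact absurd (b ▸ a) (hk _)
  · exact absurd b (hk _)
  · omega

theorem fresh2 {q : Baire} (h : Fn q) (S : ℕ) : ∃ k, S ≤ k ∧ ∀ i, ¬ Ban q k i := by
  obtain ⟨t, ht⟩ := eventually_atTop.1 h
  refine ⟨(Finset.range t).sup q + S + 1, by omega, fun i ⟨n, hn⟩ => ?_⟩
  have := Nat.left_le_pair ((Finset.range t).sup q + S + 1) i
  by_cases a : n < t
  · have := Finset.le_sup (f := q) (Finset.mem_range.2 a)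
    omega
  · have := ht n (by omega)
    omega

theorem upd_ex {q : Baire} (h1 : Vl q) (h2 : Fn q) {k : ℕ} (hk : ∀ i, ¬ Ban q k i) (u j : ℕ) :
    ∃ Q, Vl Q ∧ Fn Q ∧ Ag u Q q ∧ Ban Q k j ∧ Avd k Q q :=
  ⟨Function.update q u (Nat.pair k j + 1), vl_upd h1 hk _ _, fn_upd h2 _ _,
    fun _ hi => Function.update_of_ne hi.ne _ _, ⟨u, Function.update_self _ _ _⟩,
    fun _ l _ h => (ban_upd h).resolve_right fun h => l.ne h.1⟩

theorem many {N : ℕ} (E : ℕ → Setoid ℕ) {A : Finset ℕ} (hA : N < A.card)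
    (h : ∀ j < N, ∀ a ∈ A, ∀ b ∈ A, E j a b → a = b) (z : ℕ) :
    ∃ w ∈ A, ∀ j < N, ¬ E j w z := by
  by_contra hn
  push Not at hn
  choose! f f1 f2 using hn
  obtain ⟨a, ha, b, hb, c, d⟩ := Finset.exists_ne_map_eq_of_card_lt_of_maps_to
    (t := Finset.range N) (by simpa using hA) (f := f) fun a ha => by simpa using f1 a ha
  exact c (h _ (f1 a ha) a ha b hb ((E _).trans (f2 a ha) ((E _).symm (d ▸ f2 b hb))))

theorem dcore2 (N : ℕ) (E : Baire → Setoid ℕ) (nt : ∀ q, Vl q → ∃ a b, ¬ E q a b)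
    (ct : ∀ q, Vl q → ∀ x y, E q x y → ∃ n, ∀ q', Vl q' → Ag n q' q → E q' x y)
    (ps : ∀ q, Vl q → ∀ g ∈ DIAG (E q), ∀ k, ∃ n j, j < N ∧ ∀ q', Vl q' → ∀ g' ∈ DIAG (E q'),
      Ag n q' q → Ag n g' g → ¬ Ban q' k j) : False := by
  classical
  obtain ⟨e⟩ := exists_IU
  have ctf : ∀ q, Vl q → ∀ (m : ℕ) (f : ℕ → ℕ), (∀ x < m, E q x (f x)) → ∀ᶠ n in atTop,
      ∀ q', Vl q' → Ag n q' q → ∀ x < m, E q' x (f x) := fun q hq m f h => by
    have : ∀ᶠ n in atTop, ∀ x ∈ Set.Iio m, ∀ q', Vl q' → Ag n q' q → E q' x (f x) :=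
      (eventually_all_finite (Set.finite_Iio m)).2 fun x hx => by
        obtain ⟨n, hn⟩ := ct q hq _ _ (h x hx)
        exact (eventually_ge_atTop n).mono fun n' l q' a b => hn q' a fun i hi => b i (by omega)
    exact this.mono fun n h q' a b x hx => h x hx q' a b
  obtain ⟨q0, n0, a, b, v0, f0, hab⟩ : ∃ q0 n0 a b, Vl q0 ∧ Fn q0 ∧
      ∀ q, Vl q → Fn q → Ag n0 q q0 → ¬ E q a b := by
    by_contra hn
    push Not at hn
    have : ∀ (j : ℕ) (u : {u : Baire × ℕ // Vl u.1 ∧ Fn u.1}),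
        ∃ v : {u : Baire × ℕ // Vl u.1 ∧ Fn u.1}, u.1.2 < v.1.2 ∧ Ag u.1.2 v.1.1 u.1.1 ∧
        ∀ q', Vl q' → Ag v.1.2 q' v.1.1 → E q' j.unpair.1 j.unpair.2 := fun j u => by
      obtain ⟨q, h1, h2, h3, h4⟩ := hn u.1.1 u.1.2 j.unpair.1 j.unpair.2 u.2.1 u.2.2
      obtain ⟨n, h5⟩ := ct q h1 _ _ h4
      exact ⟨⟨(q, n + u.1.2 + 1), h1, h2⟩, by simp only; omega, h3,
        fun q' c d => h5 q' c fun i hi => d i (by simp only; omega)⟩
    choose g g1 g2 g3 using this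
    let F : ℕ → {u : Baire × ℕ // Vl u.1 ∧ Fn u.1} := fun n => Nat.rec
      ⟨(fun _ => 0, 0), fun k i j h => by simp [Ban] at h, by simp [Fn]⟩ (fun j u => g j u) n
    have sm : StrictMono fun n => (F n).1.2 := strictMono_nat_of_lt_succ fun n => g1 n (F n)
    have ag : ∀ m n, m ≤ n → Ag (F m).1.2 (F n).1.1 (F m).1.1 := fun m n h => by
      induction n, h using Nat.le_induction with
      | base => exact fun _ _ => rfl
      | succ n l ih =>
        exact fun i hi => (g2 n (F n) i (hi.trans_le (sm.monotone l))).trans (ih i hi)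
    have ag2 : ∀ m, Ag (F m).1.2 (fun i => (F (i + 1)).1.1 i) (F m).1.1 := fun m i hi => by
      have := sm.id_le (i + 1)
      exact (ag _ _ (le_max_left (i + 1) m) i this).symm.trans (ag _ _ (le_max_right _ m) i hi)
    have vq : Vl fun i => (F (i + 1)).1.1 i := fun k i j ⟨n, c⟩ ⟨m, d⟩ => by
      have := sm.id_le (n + m + 1)
      simp only [id] at this
      exact (F (n + m + 1)).2.1 k i j ⟨n, (ag2 (n + m + 1) n (by omega)).symm.trans c⟩
        ⟨m, (ag2 (n + m + 1) m (by omega)).symm.trans d⟩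
    obtain ⟨a, b, h⟩ := nt _ vq
    exact h (by simpa using g3 (Nat.pair a b) (F _) _ vq (ag2 (Nat.pair a b + 1)))
  let P : ℕ → Prop := fun m => ∃ q0 n0 S, ∃ A : Finset ℕ, Vl q0 ∧ Fn q0 ∧ A.card = m ∧
    ∀ q, Vl q → Fn q → Ag n0 q q0 → Avd S q q0 → ∀ a ∈ A, ∀ b ∈ A, E q a b → a = b
  have P2 : P 2 := by
    have ne : a ≠ b := fun h => hab q0 v0 f0 (fun _ _ => rfl) (h ▸ (E q0).refl a)
    refine ⟨q0, n0, 0, {a, b}, v0, f0, Finset.card_pair ne, fun q c d f _ x hx y hy h => ?_⟩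
    simp only [Finset.mem_insert, Finset.mem_singleton] at hx hy
    rcases hx with rfl | rfl <;> rcases hy with rfl | rfl
    exacts [rfl, absurd h (hab q c d f), absurd ((E q).symm h) (hab q c d f), rfl]
  have PN : ∀ m, N < m → ¬ P m := by
    rintro _ hm ⟨q, t, S, A, h1, h2, rfl, h3⟩
    obtain ⟨k, k1, k2⟩ := fresh2 h2 S
    choose Q Qv Qf Q1 Qb Qk using fun j s => upd_ex h1 h2 k2 (t + s) j
    choose gs gs1 gs2 using fun s z => many (fun j => E (Q j s)) hm (fun j _ =>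
      h3 _ (Qv j s) (Qf j s) (fun i hi => Q1 j s i (by omega))
        fun k' l => Qk j s k' (by omega)) z
    choose g hg using fun z => ulim e (u := fun s => gs s z) A.finite_toSet fun s => gs1 s z
    have hN : ∀ z, ¬ E q (g z) z := fun z h => by
      obtain ⟨n, hn⟩ := ct q h1 _ _ h
      obtain ⟨s, c, d⟩ := ((hg z).and (e.big n)).exists
      rcases Nat.eq_zero_or_pos N with l | l
      · obtain ⟨x, y, h⟩ := nt q h1
        obtain ⟨n, j, j1, -⟩ := ps q h1 (fun z => if E q z x then y else x) (fun z => by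
          beta_reduce
          split_ifs with l'
          exacts [fun h' => h ((E q).symm ((E q).trans h' l')), fun h' => l' ((E q).symm h')]) 0
        omega
      exact gs2 s z 0 l (by rw [c]; exact hn _ (Qv _ _) fun i hi => Q1 0 s i (by omega))
    obtain ⟨n, j, j1, hj⟩ := ps q h1 g hN k
    have : ∀ᶠ s in e.U, ∀ z ∈ Finset.range n, gs s z = g z :=
      (eventually_all_finset _).2 fun z _ => hg z
    obtain ⟨s, c, d⟩ := (this.and (e.big n)).exists
    exact hj (Q j s) (Qv _ _) (gs s) (fun z => gs2 s z j j1) (fun i hi => Q1 j s i (by omega))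
      (fun i hi => c i (Finset.mem_range.2 hi)) (Qb j s)
  obtain ⟨m, m2, Pm, nP⟩ : ∃ m, 2 ≤ m ∧ P m ∧ ¬ P (m + 1) := by
    by_contra hn
    push Not at hn
    have : ∀ m, 2 ≤ m → P m := fun m hm => by
      induction m, hm using Nat.le_induction with
      | base => exact P2
      | succ m l ih => exact hn m l ih
    exact PN (N + 2) (by omega) (this _ (by omega))
  clear hab v0 f0 P2
  obtain ⟨q0, n0, S, A, v0, f0, rfl, hA⟩ := Pm
  obtain ⟨k', k1, hk'⟩ := fresh2 f0 S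
  have dich : ∀ q t x, Vl q → Fn q → Ag n0 q q0 → Avd (k' + 1) q q0 → n0 ≤ t →
      ∃ q', Vl q' ∧ Fn q' ∧ Ag t q' q ∧ Avd (k' + 1) q' q0 ∧ ∃ w ∈ A, E q' x w := by
    intro q t x h1 h2 h3 h4 h5
    by_contra hn
    push Not at hn
    have hx : x ∉ A := fun h => hn q h1 h2 (fun _ _ => rfl) h4 x h ((E q).refl x)
    refine nP ⟨q, t, k' + 1, insert x A, h1, h2, Finset.card_insert_of_notMem hx,
      fun q' b1 b2 b3 b4 u hu v hv h => ?_⟩
    have b5 : Avd (k' + 1) q' q0 := fun k l i h => h4 k l i (b4 k l i h)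
    rcases Finset.mem_insert.1 hu with g1 | g1 <;> rcases Finset.mem_insert.1 hv with g2 | g2
    · exact g1.trans g2.symm
    · exact absurd (g1 ▸ h) (hn q' b1 b2 b3 b5 v g2)
    · exact absurd ((E q').symm (g2 ▸ h)) (hn q' b1 b2 b3 b5 u g1)
    · exact hA q' b1 b2 (fun i hi => (b3 i (by omega)).trans (h3 i hi))
        (fun k l => b5 k (by omega)) u g1 v g2 h
  obtain ⟨o, ho⟩ : ∃ o : ℕ → ℕ, ∀ w, o w ∈ A ∧ o w ≠ w := by
    choose o o1 o2 using fun w => Finset.exists_mem_ne (show 1 < A.card by omega) w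
    exact ⟨o, fun w => ⟨o1 w, o2 w⟩⟩
  have real : ∀ t m, n0 ≤ t → ∃ q, ∃ f : ℕ → ℕ, Vl q ∧ Fn q ∧ Ag t q q0 ∧ Avd (k' + 1) q q0 ∧
      (∀ x, f x ∈ A) ∧ ∀ x < m, E q x (f x) := fun t m ht => by
    induction m with
    | zero => exact ⟨q0, o, v0, f0, fun _ _ => rfl, fun _ _ _ h => h, fun x => (ho x).1, by simp⟩
    | succ m ih =>
      obtain ⟨q, f, h1, h2, h3, h4, h5, h6⟩ := ih
      obtain ⟨n, c, d⟩ := ((ctf q h1 m f h6).and (eventually_ge_atTop t)).exists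
      obtain ⟨q', b1, b2, b3, b4, w, w1, w2⟩ := dich q n m h1 h2 (fun i hi => h3 i (by omega)) h4
        (by omega)
      refine ⟨q', fun x => if x = m then w else f x, b1, b2,
        fun i hi => (b3 i (by omega)).trans (h3 i hi), b4, fun x => ?_, fun x hx => ?_⟩
      · beta_reduce
        split_ifs
        exacts [w1, h5 x]
      · beta_reduce
        split_ifs with l
        · exact l ▸ w2
        · exact c q' b1 b3 x (by omega)
  choose q f r1 r2 r3 r4 r5 r6 using fun s => real (n0 + s) s (by omega)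
  choose τ hτ using fun z => ulim e (u := fun s => f s z) A.finite_toSet fun s => r5 s z
  have opp : ∀ q', Vl q' → Fn q' → Ag n0 q' q0 → Avd S q' q0 → ∀ z, ∀ w ∈ A, E q' z w →
      ¬ E q' (o w) z := fun q' h1 h2 h3 h4 z w hw h h' =>
    (ho w).2 (hA q' h1 h2 h3 h4 _ (ho w).1 _ hw ((E q').trans h' h))
  obtain ⟨n, j, -, hj⟩ := ps q0 v0 (fun z => o (τ z)) (fun z h => by
    obtain ⟨n, hn⟩ := ct q0 v0 _ _ h
    obtain ⟨s, c, d⟩ := ((hτ z).and (e.big (n + z + 1))).exists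
    refine opp (q s) (r1 s) (r2 s) (fun i hi => r3 s i (by omega))
      (fun k l => r4 s k (by omega)) z _ (r5 s z) (r6 s z (by omega)) ?_
    rw [c]
    exact hn _ (r1 s) fun i hi => r3 s i (by omega)) k'
  have : ∀ᶠ s in e.U, ∀ z ∈ Finset.range n, f s z = τ z :=
    (eventually_all_finset _).2 fun z _ => hτ z
  obtain ⟨s, c, d⟩ := (this.and (e.big n)).exists
  obtain ⟨u, c1, c2⟩ := ((ctf _ (r1 s) s _ (r6 s)).and (eventually_ge_atTop (n0 + s))).exists
  obtain ⟨Q, Qv, Qf, Q1, Qb, Qk⟩ := upd_ex (r1 s) (r2 s) (k := k')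
    (fun i h => hk' i (r4 s k' (by omega) i h)) u j
  have Q2 : Ag (n0 + s) Q q0 := fun i hi => (Q1 i (by omega)).trans (r3 s i hi)
  have Q3 : Ag n0 Q q0 := fun i hi => Q2 i (by omega)
  have Q4 : Avd S Q q0 := fun k l i h => r4 s k (by omega) i (Qk k (by omega) i h)
  refine hj Q Qv (fun z => if z < n then o (τ z) else if E Q z (o 0) then o (o 0) else o 0)
    (fun z => ?_) (fun i hi => Q2 i (by omega)) (fun i hi => if_pos hi) Qb
  by_cases l : z < n
  · simp only [if_pos l, ← c z (Finset.mem_range.2 l)]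
    exact opp Q Qv Qf Q3 Q4 z _ (r5 s z) (c1 Q Qv Q1 z (by omega))
  · simp only [if_neg l]
    split_ifs with l'
    · exact opp Q Qv Qf Q3 Q4 z _ (ho 0).1 l'
    · exact fun h => l' ((E Q).symm h)

theorem not_DNC {N : ℕ} (hN : 2 ≤ N) : ¬ WLe banRep baireRep (DNCn N) eqRep baireRep DIAG := by
  classical
  rintro ⟨Φ, Ψ, H⟩
  have H' : ∀ q, ∃ p E, Vl q → Φ.Ev q p ∧ eqRep p E ∧ (DIAG E).Nonempty ∧ ∀ g ∈ DIAG E,
      ∃ r, Ψ.Ev (pr q g) r ∧ ∀ k, r k < N ∧ ¬ Ban q k (r k) := fun q => by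
    by_cases h : Vl q
    · obtain ⟨p, E, h1, h2, h3, h4⟩ := H q _ rfl ⟨fun k => if Ban q k 0 then 1 else 0, h,
        fun k => by
          beta_reduce
          split_ifs with a
          exacts [⟨by omega, fun b => absurd (h k _ _ a b) (by simp)⟩, ⟨by omega, a⟩]⟩
      refine ⟨p, E, fun _ => ⟨h1, h2, h3, fun g hg => ?_⟩⟩
      obtain ⟨r, _, a, rfl, b⟩ := h4 g g rfl hg
      exact ⟨r, a, b.2⟩
    · exact ⟨q, ⊥, fun h' => absurd h' h⟩
  choose p E h using H'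
  refine dcore2 N E (fun q hq => ?_) (fun q hq x y a => ?_) fun q hq g hg k => ?_
  · obtain ⟨g, hg⟩ := (h q hq).2.2.1
    exact ⟨_, _, hg 0⟩
  · obtain ⟨n, hn⟩ := ((h q hq).2.1 x y).1 a
    obtain ⟨k, hk⟩ := (h q hq).1 n
    refine ⟨k, fun q' b c => ((h q' b).2.1 x y).2 ⟨n, ?_⟩⟩
    rw [ini_eq, ← pre_congr c] at hk
    rw [← (h q' b).1.sound hk, hn]
  · obtain ⟨r, a, b⟩ := (h q hq).2.2.2 g hg
    obtain ⟨n, hn⟩ := a k
    refine ⟨n, r k, (b k).1, fun q' c g' d f1 f2 => ?_⟩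
    obtain ⟨r', a', b'⟩ := (h q' c).2.2.2 g' d
    rw [ini_eq, ← pre_congr (x := pr q' g') fun i hi => by simp [pr, f1 i hi, f2 i hi]] at hn
    rw [a'.sound hn]
    exact (b' k).2

end Pool.Agent.H62.Pk
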