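import Pool.Agent.H62.DgDefs2

/-!
Parallelized all-or-co-unique choice on the natural numbers.
-/

set_option autoImplicit false

namespace Pool.Agent.H62.Pk

/-- DNC_N, the parallelization of all-or-co-unique choice on the natural numbers -/
def DNCN (B : Set (ℕ × ℕ)) : Set Baire := {y | OneBan B ∧ ∀ k, (k, y k) ∉ B}

end Pool.Agent.H62.Pk
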