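import Pool.Agent.H62.Dg2
import Pool.Agent.H62.DgDefs3

/-!
DNC_N reduces to DIAG.
-/

set_option autoImplicit false

namespace Pool.Agent.H62.Pk

open Pool.Agent.H37 Pool.Agent.H62.Hts Filter

def stp (e c : ℕ) : ℕ := bif e == 0 then c else bif c == (e - 1).unpair.1 + 2 then (e - 1).unpair.2
  else bif c == (e - 1).unpair.2 then (e - 1).unpair.1 + 2 else c

def wk (q : ℕ → ℕ) (x : ℕ) (L : List ℕ) : ℕ := L.foldl (fun c t => stp (q t) c) x

theorem wk_congr {q q' : ℕ → ℕ} {L : List ℕ} (h : ∀ t ∈ L, q t = q' t) (x : ℕ) :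
    wk q x L = wk q' x L := by
  induction L generalizing x with
  | nil => rfl
  | cons t L ih =>
    have := ih (fun t ht => h t (List.mem_cons_of_mem _ ht)) (stp (q t) x)
    simp only [wk, List.foldl_cons] at this ⊢
    rw [← h t List.mem_cons_self]
    exact this

def Ed (q : Baire) (x y : ℕ) : Prop := ∃ k, x = k + 2 ∧ Ban q k y

theorem stp_rel (q : Baire) (t c : ℕ) : Relation.EqvGen (Ed q) c (stp (q t) c) := by
  unfold stp
  by_cases h : q t = 0
  · simp only [h, beq_self_eq_true, cond_true]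
    exact .refl _
  have b : Ban q (q t - 1).unpair.1 (q t - 1).unpair.2 := ⟨t, by rw [Nat.pair_unpair]; omega⟩
  rw [show (q t == 0) = false by simpa using h, cond_false]
  by_cases h1 : c = (q t - 1).unpair.1 + 2
  · rw [show (c == (q t - 1).unpair.1 + 2) = true by simpa using h1, cond_true]
    exact .rel _ _ ⟨_, h1, b⟩
  rw [show (c == (q t - 1).unpair.1 + 2) = false by simpa using h1, cond_false]
  by_cases h2 : c = (q t - 1).unpair.2
  · rw [show (c == (q t - 1).unpair.2) = true by simpa using h2, cond_true]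
    exact .symm _ _ (.rel _ _ ⟨_, rfl, h2 ▸ b⟩)
  rw [show (c == (q t - 1).unpair.2) = false by simpa using h2, cond_false]
  exact .refl _

theorem wk_rel (q : Baire) (L : List ℕ) (x : ℕ) : Relation.EqvGen (Ed q) x (wk q x L) := by
  induction L generalizing x with
  | nil => exact .refl _
  | cons t L ih => exact .trans _ _ _ (stp_rel q t x) (ih _)

theorem rel_wk {q : Baire} {x y : ℕ} (h : Relation.EqvGen (Ed q) x y) :
    (∃ L, wk q x L = y) ∧ ∃ L, wk q y L = x := by
  induction h with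
  | rel x y h =>
    obtain ⟨k, rfl, t, ht⟩ := h
    refine ⟨⟨[t], by simp [wk, stp, ht]⟩, [t], ?_⟩
    by_cases h : y = k + 2
    · simp [wk, stp, ht, h]
    · simp [wk, stp, ht, show (y == k + 2) = false by simpa using h]
  | refl x => exact ⟨⟨[], rfl⟩, [], rfl⟩
  | symm x y _ ih => exact ih.symm
  | trans x y z _ _ i1 i2 =>
    obtain ⟨⟨a, ha⟩, b, hb⟩ := i1
    obtain ⟨⟨c, hc⟩, d, hd⟩ := i2
    exact ⟨⟨a ++ c, by unfold wk at *; rw [List.foldl_append, ha, hc]⟩,
      d ++ b, by unfold wk at *; rw [List.foldl_append, hd, hb]⟩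

inductive Zr (q : Baire) : ℕ → Prop
  | zero : Zr q 0
  | step (k i : ℕ) : Ban q k i → Zr q i → Zr q (k + 2)

theorem zr_iff {q : Baire} (hq : Vl q) {x y : ℕ} (h : Relation.EqvGen (Ed q) x y) :
    Zr q x ↔ Zr q y := by
  induction h with
  | rel x y h =>
    obtain ⟨k, rfl, b⟩ := h
    refine ⟨fun h => ?_, .step _ _ b⟩
    cases h with
    | step _ i c d => exact hq _ _ _ c b ▸ d
  | refl x => rfl
  | symm x y _ ih => exact ih.symm
  | trans x y z _ _ i1 i2 => exact i1.trans i2

def dF : Fnl := ⟨fun σ n => bif (Denumerable.ofNat (List ℕ) n.unpair.2).all (fun t => decide (t < σ.length))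
    then some (Nat.pair n.unpair.1
      (wk (fun t => σ.getD t 0) n.unpair.1 (Denumerable.ofNat (List ℕ) n.unpair.2)) + 1) else none,
  CI.computable (f := fun q : List ℕ × ℕ => _) (by unfold wk stp; fun_prop),
  fun σ τ n v h => by
    cases c : (Denumerable.ofNat (List ℕ) n.unpair.2).all (fun t => decide (t < σ.length))
    · simp
    have c' := List.all_eq_true.1 c
    simp only [decide_eq_true_eq] at c'
    have l := h.length_le
    rw [show (Denumerable.ofNat (List ℕ) n.unpair.2).all (fun t => decide (t < τ.length)) = true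
      from List.all_eq_true.2 fun t ht => decide_eq_true ((c' t ht).trans_le l), cond_true,
      cond_true, wk_congr (q' := fun t => τ.getD t 0) fun t ht => by
        obtain ⟨ρ, rfl⟩ := h
        simp [List.getElem?_append_left (c' t ht)]]
    exact id⟩

def shF : Fnl := ⟨fun σ n => σ[n + 2]?.map fun v : ℕ => v.unpair.2, CI.computable
    (f := fun q : List ℕ × ℕ => q.1[q.2 + 2]?.map fun v : ℕ => v.unpair.2) (by fun_prop),
  fun σ τ n v ⟨ρ, h⟩ h' => by
    subst h
    obtain ⟨w, hw, rfl⟩ := Option.map_eq_some_iff.1 h'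
    rw [List.getElem?_append_left (List.getElem?_eq_some_iff.1 hw).1, hw]
    rfl⟩

theorem DNC_le : WLe banRep baireRep DNCN eqRep baireRep DIAG := by
  classical
  refine ⟨dF, shF, ?_⟩
  rintro q _ rfl ⟨-, hq, -⟩
  have hq : Vl q := hq
  have ne : ¬ Relation.EqvGen (Ed q) 0 1 := fun h => by
    have := (zr_iff hq h).1 .zero
    cases this
  refine ⟨fun n => Nat.pair n.unpair.1
    (wk q n.unpair.1 (Denumerable.ofNat (List ℕ) n.unpair.2)) + 1, Relation.EqvGen.setoid (Ed q),
    fun n => ?_, fun x y => ⟨fun h => ?_, ?_⟩,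
    ⟨fun z => if Relation.EqvGen (Ed q) z 0 then 1 else 0, fun z => ?_⟩, ?_⟩
  · set L := Denumerable.ofNat (List ℕ) n.unpair.2 with hL
    have b : ∀ t ∈ L, t < L.sum + 1 := fun t ht => Nat.lt_succ_of_le (List.le_sum_of_mem ht)
    refine ⟨L.sum + 1, ?_⟩
    simp only [dF, ← hL]
    rw [show L.all (fun t => decide (t < (ini q (L.sum + 1)).length)) = true
      from List.all_eq_true.2 fun t ht => decide_eq_true (by simpa [ini] using b t ht), cond_true,
      wk_congr (q' := q) fun t ht => by simp [ini, b t ht]]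
  · obtain ⟨L, hL⟩ := (rel_wk h).1
    exact ⟨Nat.pair x (Encodable.encode L), by simp [hL]⟩
  · rintro ⟨n, hn⟩
    obtain ⟨rfl, rfl⟩ := Nat.pair_eq_pair.1 (Nat.succ_injective hn)
    exact wk_rel _ _ _
  · beta_reduce
    split_ifs with l
    exacts [fun h => ne (.symm _ _ (.trans _ _ _ h l)), fun h => l (.symm _ _ h)]
  · rintro g _ rfl hg
    refine ⟨fun k => g (k + 2), _, fun k => ⟨k + 3, by simp [shF, ini, pr]⟩, rfl, hq,
      fun k h => hg (k + 2) (.symm _ _ (.rel _ _ ⟨k, rfl, h⟩))⟩

end Pool.Agent.H62.Pk
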