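import Pool.Agent.H62.Dg3

/-!
DIAG reduces to no DNC problem.
-/

set_option autoImplicit false

namespace Pool.Agent.H62.Pk

open Pool.Agent.H37 Pool.Agent.H62.Hts Filter

def cs (s : ℕ) : Setoid ℕ := ⟨fun x y => x = y ∨ (x ≤ s ∧ y ≤ s),
  ⟨fun _ => .inl rfl, fun h => by omega, fun h h' => by omega⟩⟩

open Classical in
noncomputable def cn (s : ℕ) : Baire := fun n => if n < s then Nat.pair n n + 1 else
  if cs s (n - s).unpair.1 (n - s).unpair.2 then n - s + 1 else 0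

theorem cn_rep (s : ℕ) : eqRep (cn s) (cs s) := fun x y => by
  refine ⟨fun h => ⟨s + Nat.pair x y, by simp [cn, h]⟩, fun ⟨n, hn⟩ => ?_⟩
  unfold cn at hn
  split_ifs at hn with a b
  · obtain ⟨rfl, rfl⟩ := Nat.pair_eq_pair.1 (Nat.succ_injective hn)
    exact (cs s).refl _
  · rw [Nat.succ_injective hn] at b
    simpa using b

theorem not_le {G : Set (ℕ × ℕ) → Set Baire} (h1 : ∀ B, (G B).Nonempty → OneBan B)
    (h2 : ∀ B, DNCn 2 B ⊆ G B) : ¬ WLe eqRep baireRep DIAG banRep baireRep G := by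
  classical
  rintro ⟨Φ, Ψ, H⟩
  obtain ⟨e⟩ := exists_IU
  obtain ⟨q0, _, a0, rfl, b0, c0⟩ := H (fun n => Nat.pair n n + 1) ⊥ (fun x y => ⟨fun h => by
      obtain rfl : x = y := h
      exact ⟨x, rfl⟩, fun ⟨n, hn⟩ => by
      obtain ⟨rfl, rfl⟩ := Nat.pair_eq_pair.1 (Nat.succ_injective hn)
      rfl⟩) ⟨fun x => x + 1, fun x h => by
      have : x + 1 = x := h
      omega⟩
  have : ∀ s, ∃ q y r, Φ.Ev (cn s) q ∧ (∀ k, y k < 2 ∧ ¬ Ban q k (y k)) ∧
      Ψ.Ev (pr (cn s) y) r ∧ s < r 0 := fun s => by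
    obtain ⟨q, _, a, rfl, b, c⟩ := H _ _ (cn_rep s) ⟨fun x => x + s + 1, fun x h => by
      have : x + s + 1 = x ∨ (x + s + 1 ≤ s ∧ x ≤ s) := h
      omega⟩
    have o : Vl q := h1 _ b
    have hy : ∀ k, (if Ban q k 0 then 1 else 0) < 2 ∧ ¬ Ban q k (if Ban q k 0 then 1 else 0) :=
      fun k => by
        split_ifs with a
        exacts [⟨by omega, fun b => absurd (o k _ _ a b) (by simp)⟩, ⟨by omega, a⟩]
    obtain ⟨r, _, d, rfl, f⟩ := c _ (fun k => if Ban q k 0 then 1 else 0) rfl (h2 _ ⟨o, hy⟩)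
    exact ⟨q, _, r, a, hy, d, by
      by_contra l
      exact f 0 (.inr ⟨by omega, by omega⟩)⟩
  choose q y r q1 y1 r1 r2 using this
  choose z hz using fun k => ulim e (u := fun s => y s k) (Set.finite_Iio 2) fun s => (y1 s k).1
  have ag : ∀ s m, m ≤ s → pre (fun n => Nat.pair n n + 1) m = pre (cn s) m := fun s m l =>
    pre_congr fun i hi => by simp [cn, show i < s by omega]
  obtain ⟨g, _, d, rfl, -⟩ := c0 z z rfl (h2 _ ⟨h1 _ b0, fun k => ⟨by
    obtain ⟨s, hs⟩ := (hz k).exists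
    exact hs ▸ (y1 s k).1, fun ⟨n, hn⟩ => by
    obtain ⟨m, hm⟩ := a0 n
    obtain ⟨s, c, l⟩ := ((hz k).and (e.big m)).exists
    rw [ini_eq, ag s m (by omega)] at hm
    exact (y1 s k).2 ⟨n, by rw [← (q1 s).sound hm, hn, c]⟩⟩⟩)
  obtain ⟨m, hm⟩ := d 0
  have : ∀ᶠ s in e.U, ∀ k ∈ Finset.range m, y s k = z k :=
    (eventually_all_finset _).2 fun k _ => hz k
  obtain ⟨s, c, l⟩ := (this.and (e.big (m + g 0))).exists
  rw [ini_eq, pre_congr (y := pr (cn s) (y s)) fun i hi => by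
    simp [pr, cn, show i < s by omega, c i (Finset.mem_range.2 hi)]] at hm
  have := (r1 s).sound hm
  have := r2 s
  omega

theorem not_le_n {n : ℕ} (h : 2 ≤ n) : ¬ WLe eqRep baireRep DIAG banRep baireRep (DNCn n) :=
  not_le (fun _ ⟨_, h⟩ => h.1) fun _ _ h => ⟨h.1, fun k => ⟨by have := (h.2 k).1; omega, (h.2 k).2⟩⟩

theorem not_le_N : ¬ WLe eqRep baireRep DIAG banRep baireRep DNCN :=
  not_le (fun _ ⟨_, h⟩ => h.1) fun _ _ h => ⟨h.1, fun k => (h.2 k).2⟩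

end Pool.Agent.H62.Pk
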