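import Pool.Agent.H62.DgDefs

/-!
Closed choice on the natural numbers.
-/

set_option autoImplicit false

namespace Pool.Agent.H62.Pk

/-- a set of natural numbers is named by an enumeration of its complement (entry i + 1 removes i,
entry 0 removes nothing) -/
def coRep : Rep (Set ℕ) := fun q A => A = {i | ∀ n, q n ≠ i + 1}

/-- a number is named by any sequence that starts with it -/
def numRep : Rep ℕ := fun r i => r 0 = i

/-- closed choice on the natural numbers -/
def ChN (A : Set ℕ) : Set ℕ := A

end Pool.Agent.H62.Pk
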