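import Pool.Agent.H62.Dg2
import Pool.Agent.H62.DgDefs4

/-!
C_N reduces to DIAG.
-/

set_option autoImplicit false

namespace Pool.Agent.H62.Pk

open Pool.Agent.H37 Pool.Agent.H62.Hts Filter

def hit (q : ℕ → ℕ) (s c : ℕ) : Bool := (List.range (s + 1)).any fun t => q t == c + 1

def cnt (q : ℕ → ℕ) (s : ℕ) : ℕ :=
  (List.range s).foldl (fun c t => bif hit q t c then c + 1 else c) 0

theorem cnt_succ (q : ℕ → ℕ) (s : ℕ) :
    cnt q (s + 1) = bif hit q s (cnt q s) then cnt q s + 1 else cnt q s := by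
  simp only [cnt, List.range_succ, List.foldl_append, List.foldl_cons, List.foldl_nil]

theorem hit_iff {q : ℕ → ℕ} {s c : ℕ} : hit q s c = true ↔ ∃ t ≤ s, q t = c + 1 := by
  simp [hit, Nat.lt_succ_iff]

theorem hit_congr {q q' : ℕ → ℕ} {s : ℕ} (h : ∀ t ≤ s, q t = q' t) (c : ℕ) :
    hit q s c = hit q' s c := by
  rw [Bool.eq_iff_iff, hit_iff, hit_iff]
  exact exists_congr fun t => and_congr_right fun ht => by rw [h t ht]

theorem cnt_congr {q q' : ℕ → ℕ} {s : ℕ} (h : ∀ t < s, q t = q' t) : cnt q s = cnt q' s := by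
  induction s with
  | zero => rfl
  | succ s ih =>
    rw [cnt_succ, cnt_succ, ih fun t ht => h t (by omega), hit_congr fun t ht => h t (by omega)]

def out (q : ℕ → ℕ) (n : ℕ) : ℕ :=
  bif n.unpair.2.unpair.1 == n.unpair.2.unpair.2 || (decide (n.unpair.2.unpair.1 ≤ n.unpair.1) &&
    decide (n.unpair.2.unpair.2 ≤ n.unpair.1) && hit q n.unpair.1 (cnt q n.unpair.1))
  then n.unpair.2 + 1 else 0

theorem out_congr {q q' : ℕ → ℕ} {n : ℕ} (h : ∀ t ≤ n, q t = q' t) : out q n = out q' n := by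
  have := Nat.unpair_left_le n
  unfold out
  rw [cnt_congr (q' := q') fun t ht => h t (by omega), hit_congr (q' := q') fun t ht => h t (by omega)]

theorem gd_pf {σ τ : List ℕ} (h : σ <+: τ) {t : ℕ} (ht : t < σ.length) :
    σ.getD t 0 = τ.getD t 0 := by
  obtain ⟨ρ, rfl⟩ := h
  simp [List.getElem?_append_left ht]

def cF : Fnl := ⟨fun σ n => bif decide (n < σ.length) then some (out (fun t => σ.getD t 0) n)
    else none,
  CI.computable (f := fun q : List ℕ × ℕ => _) (by unfold out cnt hit; fun_prop),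
  fun σ τ n v h => by
    by_cases c : n < σ.length
    · rw [decide_eq_true c, decide_eq_true (c.trans_le h.length_le), cond_true, cond_true,
        out_congr (q' := fun t => τ.getD t 0) fun t ht => gd_pf h (by omega)]
      exact id
    · simp [c]⟩

def cG : Fnl := ⟨fun σ _ => bif decide ((σ.getD 0 0).unpair.2 < σ.length) then
    some (cnt (fun t => (σ.getD t 0).unpair.1) (σ.getD 0 0).unpair.2) else none,
  CI.computable (f := fun q : List ℕ × ℕ => _) (by unfold cnt hit; fun_prop),
  fun σ τ n v h => by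
    by_cases c : (σ.getD 0 0).unpair.2 < σ.length
    · rw [decide_eq_true c, ← gd_pf h (t := 0) (by omega),
        decide_eq_true (c.trans_le h.length_le), cond_true, cond_true,
        cnt_congr (q' := fun t => (τ.getD t 0).unpair.1) fun t ht => by
          rw [gd_pf h (by omega)]]
      exact id
    · rw [decide_eq_false c]
      simp⟩

def hs (q : ℕ → ℕ) : Setoid ℕ := ⟨fun x y => x = y ∨ ∃ s, x ≤ s ∧ y ≤ s ∧ hit q s (cnt q s) = true,
  ⟨fun _ => .inl rfl, fun h => h.imp Eq.symm fun ⟨s, a, b, c⟩ => ⟨s, b, a, c⟩, by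
    rintro x y z (rfl | ⟨s, a, b, c⟩) (rfl | ⟨t, d, f, g⟩)
    · exact .inl rfl
    · exact .inr ⟨t, d, f, g⟩
    · exact .inr ⟨s, a, b, c⟩
    · rcases le_total s t with l | l
      exacts [.inr ⟨t, by omega, f, g⟩, .inr ⟨s, a, by omega, c⟩]⟩⟩

theorem CN_le : WLe coRep numRep ChN eqRep baireRep DIAG := by
  refine ⟨cF, cG, ?_⟩
  rintro q _ rfl ⟨a, ha⟩
  have ha : ∀ n, q n ≠ a + 1 := ha
  have bd : ∀ s, cnt q s ≤ a := fun s => by
    induction s with
    | zero => exact Nat.zero_le _
    | succ s ih =>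
      rw [cnt_succ]
      cases c : hit q s (cnt q s)
      · exact ih
      · obtain ⟨t, -, ht⟩ := hit_iff.1 c
        have := ha t
        simp only [cond_true]
        omega
  have mo : Monotone (cnt q) := monotone_nat_of_le_succ fun s => by
    rw [cnt_succ]
    cases hit q s (cnt q s) <;> simp
  obtain ⟨S, hS⟩ : ∃ S, ∀ s, S ≤ s → hit q s (cnt q s) = false := by
    obtain ⟨_, ⟨S, rfl⟩, h⟩ := ((Set.finite_Iic a).subset (s := Set.Iic a) (t := Set.range (cnt q))
      (by rintro _ ⟨s, rfl⟩; exact bd s)).exists_maximal ⟨_, 0, rfl⟩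
    refine ⟨S, fun s l => ?_⟩
    by_contra c
    have h1 := cnt_succ q s
    rw [Bool.eq_true_of_not_eq_false c, cond_true] at h1
    have h2 := mo l
    have := h (y := cnt q (s + 1)) ⟨_, rfl⟩ (by omega)
    omega
  refine ⟨out q, hs q, fun n => ⟨n + 1, ?_⟩, fun x y => ⟨?_, fun ⟨n, hn⟩ => ?_⟩,
    ⟨fun x => x + S + 1, ?_⟩, ?_⟩
  · simp only [cF]
    rw [decide_eq_true (by simp [ini]), cond_true,
      out_congr (q' := q) fun t ht => by simp [ini, Nat.lt_succ_of_le ht]]
  · rintro (rfl | ⟨s, a, b, c⟩)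
    · exact ⟨Nat.pair 0 (Nat.pair x x), by simp [out]⟩
    · exact ⟨Nat.pair s (Nat.pair x y), by simp [out, a, b, c]⟩
  · unfold out at hn
    rw [Bool.cond_eq_ite] at hn
    split_ifs at hn with c
    rw [Nat.succ_injective hn] at c
    simp only [Nat.unpair_pair, Bool.or_eq_true, beq_iff_eq, Bool.and_eq_true,
      decide_eq_true_eq] at c
    exact c.imp id fun c => ⟨_, c.1.1, c.1.2, c.2⟩
  · rintro x (h | ⟨s, a, -, c⟩)
    · simp only at h
      omega
    · rw [hS s (by simp only at a; omega)] at c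
      cases c
  · rintro g _ rfl hg
    have nh : ∀ s, g 0 ≤ s → hit q s (cnt q s) = false := fun s l => by
      by_contra c
      exact hg 0 (.inr ⟨s, l, Nat.zero_le _, Bool.eq_true_of_not_eq_false c⟩)
    have cc : ∀ s, g 0 ≤ s → cnt q s = cnt q (g 0) := fun s l => by
      induction s, l using Nat.le_induction with
      | base => rfl
      | succ s l ih => rw [cnt_succ, nh s l, cond_false, ih]
    refine ⟨fun _ => cnt q (g 0), _, fun n => ⟨g 0 + 1, ?_⟩, rfl, fun n hn => ?_⟩
    · have e0 : ((ini (pr q g) (g 0 + 1)).getD 0 0).unpair.2 = g 0 := by simp [ini, pr]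
      simp only [cG, e0]
      rw [decide_eq_true (by simp [ini]), cond_true,
        cnt_congr (q' := q) fun t ht => by simp [ini, pr, Nat.lt_succ_of_lt ht]]
    · have := nh (n + g 0) (by omega)
      rw [cc _ (by omega), hit_iff.2 ⟨n, by omega, hn⟩] at this
      cases this

end Pool.Agent.H62.Pk
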