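import Mathlib

set_option autoImplicit false
set_option linter.deprecated false
open Set Cardinal

namespace Pool.Agent.H62.Emu

theorem ch {G : Type} [Group G] (hG : #G = ℵ₁) :
    ∃ f : G → ℕ, (∀ F : Set G, F.Countable → ∃ B : Set G, B.Countable ∧ ∀ x ∉ B, ∀ g ∈ F, f (g * x) = f x) ∧
      ∀ B : Set G, B.Countable → ∀ n, ∃ x ∉ B, f x = n := by
  obtain ⟨e⟩ : Nonempty ((ℵ₁ : Cardinal.{0}).ord.ToType ≃ G) := Cardinal.eq.mp (by simp [hG])
  let H : (ℵ₁ : Cardinal.{0}).ord.ToType → Subgroup G := fun i => Subgroup.closure (e '' Iic i)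
  have hH : Monotone H := fun i j h => Subgroup.closure_mono (image_mono (Iic_subset_Iic.mpr h))
  have hI : ∀ i : (ℵ₁ : Cardinal.{0}).ord.ToType, (Iic i).Countable := fun i => by
    rw [← Iio_insert]
    exact ((countable_iff_lt_aleph_one _).mpr (mk_Iio_toType_ord_lt i)).insert _
  have hc : ∀ i, (H i : Set G).Countable := fun i => by
    have := ((hI i).image e).to_subtype
    have : Countable (FreeGroup (e '' Iic i)) := inferInstanceAs (Countable (Quot _))
    simp only [H, FreeGroup.closure_eq_range, MonoidHom.coe_range]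
    exact countable_range _
  have hm : ∀ x, x ∈ H (e.symm x) := fun x => Subgroup.subset_closure ⟨e.symm x, self_mem_Iic, by simp⟩
  let r : G → (ℵ₁ : Cardinal.{0}).ord.ToType := fun x => wellFounded_lt.min {i | x ∈ H i} ⟨_, hm x⟩
  have r1 : ∀ x, x ∈ H (r x) := fun x => wellFounded_lt.min_mem {i | x ∈ H i} _
  have r2 : ∀ x i, x ∈ H i → r x ≤ i := fun x i h =>
    not_lt.mp (wellFounded_lt.not_lt_min {i | x ∈ H i} h)
  have r3 : ∀ g x, x ∉ H (r g) → r (g * x) = r x := by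
    intro g x hx
    have h1 : r g ≤ r x := not_lt.mp fun h => hx (hH h.le (r1 x))
    refine le_antisymm (r2 _ _ (mul_mem (hH h1 (r1 g)) (r1 x))) (r2 _ _ ?_)
    rcases le_total (r g) (r (g * x)) with h | h
    · simpa using mul_mem (inv_mem (hH h (r1 g))) (r1 (g * x))
    · exact absurd (by simpa using mul_mem (inv_mem (r1 g)) (hH h (r1 (g * x)))) hx
  have hu : ¬(range r).Countable := fun h => by
    have : (univ : Set G).Countable := (h.biUnion fun i _ => hc i).mono fun x _ =>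
      mem_iUnion₂.mpr ⟨r x, mem_range_self x, r1 x⟩
    rw [countable_iff_lt_aleph_one, mk_univ, hG] at this
    exact lt_irrefl _ this
  have : Uncountable (range r) := not_countable_iff.mp hu
  obtain ⟨φ⟩ : Nonempty (range r ≃ range r × ℕ) := Cardinal.eq.mp (by simp)
  refine ⟨fun x => (φ ⟨r x, x, rfl⟩).2, fun F hF => ⟨⋃ g ∈ F, H (r g), hF.biUnion fun _ _ => hc _,
    fun x hx g hg => ?_⟩, fun B hB n => ?_⟩
  · simp only [r3 g x fun h => hx (mem_biUnion hg h)]
  · by_contra! h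
    have h1 : (univ : Set (range r)).Countable := by
      refine (hB.image fun x => (φ ⟨r x, x, rfl⟩).1).mono fun a _ => ?_
      obtain ⟨⟨_, x, rfl⟩, hx⟩ := φ.surjective (a, n)
      exact ⟨x, not_not.mp fun h2 => h x h2 (by rw [hx]), by simp only [hx]⟩
    exact not_countable_univ h1

lemma small {α β : Type} {S : Set α} (hS : #S ≤ ℵ₁) (A : α → Set β) (h : ∀ s ∈ S, #(A s) ≤ ℵ₁) :
    #(⋃ s ∈ S, A s) ≤ ℵ₁ :=
  (mk_biUnion_le A S).trans ((mul_le_mul' hS (ciSup_le' fun s : S => h s s.2)).trans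
    (mul_eq_self aleph0_lt_aleph_one.le).le)

lemma pick {α : Type} {S E : Set α} (hS : ℵ₁ < #S) (hE : #E ≤ ℵ₁) : ∃ s ∈ S, s ∉ E :=
  not_subset.mp fun h => (hS.trans_le ((mk_le_mk_of_subset h).trans hE)).false

lemma pick' {α β : Type} {S : Set α} (hS : ¬S.Countable) {φ : α → β} (hφ : φ.Injective) {E : Set β}
    (hE : E.Countable) : ∃ s ∈ S, φ s ∉ E :=
  not_subset.mp fun h => hS ((hE.preimage_of_injOn hφ.injOn).mono h)

lemma sub {α : Type} {S : Set α} (hS : ¬S.Countable) : ∃ T ⊆ S, #T = ℵ₁ ∧ ¬T.Countable := by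
  obtain ⟨T, h1, h2⟩ := le_mk_iff_exists_subset.mp (not_lt.mp (mt (countable_iff_lt_aleph_one S).mpr hS))
  exact ⟨T, h1, h2, fun h => ((countable_iff_lt_aleph_one T).mp h).ne h2⟩

lemma cnt {α β : Type} {φ : α → β} (hφ : φ.Injective) {E : Set β} (hE : E.Countable) : #(φ ⁻¹' E) ≤ ℵ₁ :=
  ((countable_iff_lt_aleph_one _).mp (hE.preimage_of_injOn hφ.injOn)).le

def Fix (Z : Set ℕ) : Set (Equiv.Perm ℕ) := {g | ∀ z ∈ Z, g z = z}

lemma fix_card (hc : ℵ₁ < (continuum : Cardinal.{0})) {Z : Set ℕ} (hZ : Zᶜ.Infinite) : ℵ₁ < #(Fix Z) := by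
  let ι := hZ.natEmbedding.trans (Function.Embedding.subtype _)
  refine hc.trans_le (le_trans (by simp [mk_perm_eq_two_power]) (mk_le_of_injective
    (f := fun g : Equiv.Perm ℕ => (⟨Equiv.Perm.viaEmbeddingHom ι g, fun z hz => ?_⟩ : Fix Z)) fun g h he =>
      Equiv.Perm.viaEmbeddingHom_injective ι (congrArg Subtype.val he)))
  refine Equiv.Perm.viaEmbedding_apply_of_notMem _ _ _ ?_
  rintro ⟨n, rfl⟩
  exact (hZ.natEmbedding _ n).2 hz

lemma split {U B : Set ℕ} (hU : U.Infinite) (hB : B.Infinite) :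
    ∃ U' ⊆ U, ∃ B' ⊆ B, U'.Infinite ∧ B'.Infinite ∧ Disjoint U' B' := by
  by_cases h : (U ∩ B).Infinite
  · let ι := h.natEmbedding.trans (Function.Embedding.subtype _)
    refine ⟨range fun n => ι (2 * n), ?_, range fun n => ι (2 * n + 1), ?_,
      infinite_range_of_injective fun a b h => by have := ι.injective h; omega,
      infinite_range_of_injective fun a b h => by have := ι.injective h; omega, ?_⟩
    · rintro _ ⟨n, rfl⟩; exact (h.natEmbedding _ _).2.1
    · rintro _ ⟨n, rfl⟩; exact (h.natEmbedding _ _).2.2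
    · rw [disjoint_range_iff]; intro a b h; have := ι.injective h; omega
  · rw [not_infinite] at h
    exact ⟨U \ (U ∩ B), diff_subset, B, subset_rfl, hU.diff h, hB,
      disjoint_left.mpr fun x h1 h2 => h1.2 ⟨h1.1, h2⟩⟩

theorem notch (hc : ℵ₁ < (continuum : Cardinal.{0})) (f : Equiv.Perm ℕ → ℝ) (L : ℝ)
    (hf : ∀ g, {x | L < |f (g * x) - f x|}.Countable) :
    ∃ B : Set (Equiv.Perm ℕ), B.Countable ∧ ∃ C, ∀ x ∉ B, |f x| ≤ C := by
  have near : ∀ (Z : Set ℕ) (x : Equiv.Perm ℕ), Z.Infinite → Zᶜ.Infinite →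
      ∃ (c : ℝ) (E : Set (Equiv.Perm ℕ)), #E ≤ ℵ₁ ∧ ∀ h ∈ Fix Z, h ∉ E → |f (h * x) - c| ≤ 3 * L := by
    intro Z x h1 h2
    obtain ⟨S, hS, h3, h4⟩ := sub (S := Fix Zᶜ) fun h => ((countable_iff_lt_aleph_one _).mp h).not_gt
      (fix_card hc (by rwa [compl_compl]))
    have hE := small h3.le (fun s => (· * x) ⁻¹' {y | L < |f (s * y) - f y|})
      fun s _ => cnt (mul_left_injective x) (hf s)
    obtain ⟨k, hk, hk'⟩ := pick (fix_card hc h2) hE
    refine ⟨f (k * x), _, hE, fun h hh hh' => ?_⟩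
    obtain ⟨s, hs, h5⟩ := pick' h4 (φ := fun s => s * (k * x)) (mul_left_injective _) (hf (h * k⁻¹))
    have cm : ∀ g ∈ Fix Z, Commute g s := fun g hg => Equiv.Perm.Disjoint.commute fun z =>
      (em (z ∈ Z)).imp (hg z) (hS hs z)
    have a1 : |f (s * (k * x)) - f (k * x)| ≤ L := not_lt.mp fun h => hk' (mem_biUnion hs h)
    have a2 : |f (s * (h * x)) - f (h * x)| ≤ L := not_lt.mp fun h => hh' (mem_biUnion hs h)
    have a3 : |f (h * k⁻¹ * (s * (k * x))) - f (s * (k * x))| ≤ L := not_lt.mp h5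
    rw [show h * k⁻¹ * (s * (k * x)) = s * (h * x) by
      rw [← mul_assoc s, ← (cm k hk).eq, ← mul_assoc s, ← (cm h hh).eq]; group] at a3
    rw [abs_le] at *
    constructor <;> linarith [a1.1, a1.2, a2.1, a2.2, a3.1, a3.2]
  choose! c E hE using near
  have link : ∀ (Z Z' : Set ℕ) (x x' u u' : Equiv.Perm ℕ), Z.Infinite → Z'.Infinite → (Z ∪ Z')ᶜ.Infinite →
      u ∈ Fix Z → u' ∈ Fix Z' → u * x = u' * x' → |c Z x - c Z' x'| ≤ 6 * L := by
    intro Z Z' x x' u u' h1 h2 h3 hu hu' he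
    obtain ⟨a1, a2⟩ := hE Z x h1 (h3.mono (compl_subset_compl.mpr subset_union_left))
    obtain ⟨b1, b2⟩ := hE Z' x' h2 (h3.mono (compl_subset_compl.mpr subset_union_right))
    obtain ⟨k, hk, hk'⟩ := pick (E := (· * u) ⁻¹' E Z x ∪ (· * u') ⁻¹' E Z' x') (fix_card hc h3)
      ((mk_union_le _ _).trans ((add_le_add ((mk_preimage_of_injective _ _ (mul_left_injective u)).trans a1)
        ((mk_preimage_of_injective _ _ (mul_left_injective u')).trans b1)).trans
          (add_eq_self aleph0_lt_aleph_one.le).le))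
    have a3 := a2 (k * u) (fun z hz => by simp [hu z hz, hk z (.inl hz)]) fun h => hk' (.inl h)
    have b3 := b2 (k * u') (fun z hz => by simp [hu' z hz, hk z (.inr hz)]) fun h => hk' (.inr h)
    rw [mul_assoc] at a3 b3
    rw [he] at a3
    rw [abs_le] at *
    constructor <;> linarith [a3.1, a3.2, b3.1, b3.2]
  obtain ⟨A, -, W, -, hA, hW, hAW⟩ := split infinite_univ infinite_univ
  obtain ⟨A1, s1, A2, s2, i1, i2, d12⟩ := split hA hA
  have hAc : Aᶜ.Infinite := hW.mono hAW.symm.subset_compl_right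
  have glob : ∀ x, |c A x - c A 1| ≤ 18 * L := by
    intro x
    obtain ⟨U, hU, B, hB, i3, i4, d⟩ := split (i1.preimage (f := x) fun z _ => x.surjective z) i2
    obtain ⟨U1, t1, U2, t2, i5, i6, d'⟩ := split i3 i3
    have hx : x '' U1 ⊆ A1 := image_subset_iff.mpr (t1.trans hU)
    have hs : x '' U1 ∪ B ⊆ A := union_subset (hx.trans s1) (hB.trans s2)
    classical
    have hinj : InjOn (fun z => if z ∈ B then z else x z) (U1 ∪ B) := by
      intro a ha b hb h
      by_cases h1 : a ∈ B <;> by_cases h2 : b ∈ B <;> simp only [h1, h2, if_true, if_false] at h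
      · exact h
      · exact absurd (h ▸ hB h1) (disjoint_left.mp d12 (hx ⟨b, hb.resolve_right h2, rfl⟩))
      · exact absurd (h ▸ hB h2) (disjoint_left.mp d12 (hx ⟨a, ha.resolve_right h1, rfl⟩))
      · exact x.injective h
    obtain ⟨y, hy⟩ := extend_function (s := U1 ∪ B) ⟨_, hinj.injective⟩ (by
      have : Infinite ((U1 ∪ B)ᶜ : Set ℕ) := (i6.mono fun z hz h => h.elim (disjoint_right.mp d' hz)
        (disjoint_left.mp d (t2 hz))).to_subtype
      refine @nonempty_equiv_of_countable _ _ _ _ _ (Set.Infinite.to_subtype (hAc.mono ?_))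
      rintro _ hz ⟨⟨a, ha⟩, rfl⟩
      refine hz (hs ?_)
      by_cases h1 : a ∈ B
      · exact .inr (by simp [h1])
      · exact .inl ⟨a, ha.resolve_right h1, by simp [h1]⟩)
    have i7 : (x '' U1).Infinite := i5.image x.injective.injOn
    have e1 := link A (x '' U1) x x 1 1 hA i7 (by rwa [union_eq_left.mpr (hx.trans s1)])
      (fun _ _ => rfl) (fun _ _ => rfl) rfl
    have e2 := link (x '' U1) B x 1 (y * x⁻¹) y i7 i4 (hAc.mono (compl_subset_compl.mpr hs)) (by
      rintro _ ⟨a, ha, rfl⟩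
      simpa [disjoint_left.mp d (t1 ha)] using hy ⟨a, .inl ha⟩) (fun z hz => by
        simpa [hz] using hy ⟨z, .inr hz⟩) (by simp)
    have e3 := link B A 1 1 1 1 i4 hA (by rwa [union_eq_right.mpr (hB.trans s2)])
      (fun _ _ => rfl) (fun _ _ => rfl) rfl
    rw [abs_le] at *
    constructor <;> linarith [e1.1, e1.2, e2.1, e2.2, e3.1, e3.2]
  refine ⟨{x | |c A 1| + 22 * L < |f x|}, ?_, _, fun x hx => not_lt.mp hx⟩
  by_contra h
  obtain ⟨S, h1, h2, h3⟩ := sub h
  obtain ⟨k, hk, hk'⟩ := pick (fix_card hc hAc) (small h2.le (E A) fun s _ => (hE A s hA hAc).1)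
  obtain ⟨s, hs, h4⟩ := pick' h3 Function.injective_id (hf k)
  have a1 := abs_le.mp ((hE A s hA hAc).2 k hk fun h => hk' (mem_biUnion hs h))
  have a2 := abs_le.mp (glob s)
  have a3 := abs_le.mp (not_lt.mp h4 : |f (k * s) - f s| ≤ L)
  refine LT.lt.not_ge (show |c A 1| + 22 * L < |f s| from h1 hs) (abs_le.mpr ⟨?_, ?_⟩)
  · linarith [neg_abs_le (c A 1)]
  · linarith [le_abs_self (c A 1)]

end Pool.Agent.H62.Emu
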