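import Pool.Agent.H37.Ki1

namespace Pool.Agent.H62.EntK
open Pool.Agent.H37.Ki Filter Topology Classical

variable {n : ℕ}

/-- Probability that the variables in `S` take the values `v`, for the joint law `q`. -/
noncomputable def marg (q : (Fin n → ℕ) → ℝ) (S : Finset (Fin n)) (v : S → ℕ) : ℝ :=
  ∑' x, if (fun i : S => x i) = v then q x else 0

/-- `f` is the (base 2, finite) entropy function of natural-number valued random variables with
joint law `q`. -/
def Entropic (f : Finset (Fin n) → ℝ) : Prop :=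
  ∃ q : (Fin n → ℕ) → ℝ, (∀ x, 0 ≤ q x) ∧ HasSum q 1 ∧
    ∀ S, HasSum (fun v => Real.negMulLog (marg q S v) / Real.log 2) (f S)

def Polymatroid (f : Finset (Fin n) → ℝ) : Prop :=
  f ∅ = 0 ∧ (∀ S, 0 ≤ f S) ∧ (∀ S T, S ⊆ T → f S ≤ f T) ∧
    ∀ S T, f (S ∩ T) + f (S ∪ T) ≤ f S + f T

variable {q : (Fin n → ℕ) → ℝ}

theorem hasSum_marg (hq : ∀ x, 0 ≤ q x) (h1 : HasSum q 1) (S : Finset (Fin n)) (v : S → ℕ) :
    HasSum (fun x => if (fun i : S => x i) = v then q x else 0) (marg q S v) :=
  (h1.summable.of_nonneg_of_le (fun x => by split_ifs <;> simp [hq])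
    (fun x => by split_ifs <;> simp [hq])).hasSum

theorem marg_le (hq : ∀ x, 0 ≤ q x) (h1 : HasSum q 1) (S : Finset (Fin n)) (v : S → ℕ) :
    marg q S v ≤ 1 :=
  hasSum_le (fun x => by split_ifs <;> simp [hq]) (hasSum_marg hq h1 S v) h1

theorem le_marg (hq : ∀ x, 0 ≤ q x) (h1 : HasSum q 1) (S : Finset (Fin n)) (x : Fin n → ℕ) :
    q x ≤ marg q S (fun i => x i) := by
  have := le_hasSum (hasSum_marg hq h1 S (fun i => x i)) x (fun y _ => by split_ifs <;> simp [hq])
  simpa using this

theorem hasSum_pt (hq : ∀ x, 0 ≤ q x) (h1 : HasSum q 1) {S : Finset (Fin n)} {h : ℝ}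
    (hS : HasSum (fun v => Real.negMulLog (marg q S v)) h) :
    HasSum (fun x => -(q x * Real.log (marg q S (fun i => x i)))) h := by
  let r : (Fin n → ℕ) → (S → ℕ) := fun x i => x i
  have hf : ∀ v, HasSum (fun x : {x // r x = v} => -(q x * Real.log (marg q S (r x))))
      (Real.negMulLog (marg q S v)) := by
    intro v
    have h2 : HasSum (fun x : {x // r x = v} => q x) (marg q S v) := by
      have := hasSum_marg hq h1 S v
      rw [← hasSum_subtype_iff_of_support_subset (s := {x | r x = v})] at this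
      · have e : (fun x : {x // r x = v} => q x) =
            fun x : {x // r x = v} => if (fun i : S => x.1 i) = v then q x else 0 :=
          funext fun x => (if_pos x.2).symm
        rw [e]
        exact this
      · intro x hx
        by_contra hn
        exact hx (if_neg hn)
    have h3 := h2.mul_right (-Real.log (marg q S v))
    rw [Real.negMulLog, neg_mul, ← mul_neg]
    have e : (fun x : {x // r x = v} => -(q x * Real.log (marg q S (r x)))) =
        fun x : {x // r x = v} => q x * -Real.log (marg q S v) :=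
      funext fun x => by rw [x.2, mul_neg]
    rw [e]
    exact h3
  rw [← (Equiv.sigmaFiberEquiv r).hasSum_iff]
  have hs : Summable ((fun x => -(q x * Real.log (marg q S (fun i => x i)))) ∘
      Equiv.sigmaFiberEquiv r) := by
    refine (summable_sigma_of_nonneg fun x => ?_).2 ⟨fun v => (hf v).summable, ?_⟩
    · simp only [Function.comp, Left.nonneg_neg_iff]
      exact mul_nonpos_of_nonneg_of_nonpos (hq _) (Real.log_nonpos ((hq _).trans
        (le_marg hq h1 S _)) (marg_le hq h1 S _))
    · convert hS.summable using 2 with v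
      exact (hf v).tsum_eq
  have := hs.hasSum.sigma hf
  rw [hS.unique this]
  exact hs.hasSum

noncomputable def pF (q : (Fin n → ℕ) → ℝ) (F : Finset (Fin n → ℕ)) : Option F → ℝ
  | none => 1 - ∑ x ∈ F, q x
  | some x => q x

def xF (F : Finset (Fin n → ℕ)) : Option F → Fin n → Option ℕ
  | none => fun _ => none
  | some x => fun i => some (x.1 i)

noncomputable def mF (q : (Fin n → ℕ) → ℝ) (F : Finset (Fin n → ℕ)) (S : Finset (Fin n))
    (x : Fin n → ℕ) : ℝ := ∑ y ∈ F, if (fun i : S => y i) = (fun i : S => x i) then q y else 0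

theorem HH_pF (F : Finset (Fin n → ℕ)) {S : Finset (Fin n)} (hS : S.Nonempty) :
    HH (pF q F) (xF F) S = Real.negMulLog (1 - ∑ x ∈ F, q x) +
      ∑ x ∈ F, -(q x * Real.log (mF q F S x)) := by
  obtain ⟨i, hi⟩ := hS
  have a1 : ∀ x : F, ¬ Ag (xF F) S none (some x) := fun x h => by simpa [xF] using h i hi
  have a2 : ∀ x : F, ¬ Ag (xF F) S (some x) none := fun x h => by simpa [xF] using h i hi
  have a3 : Ag (xF F) S none none := fun _ _ => rfl
  have a4 : ∀ x y : F, Ag (xF F) S (some y) (some x) ↔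
      (fun i : S => y.1 i) = (fun i : S => x.1 i) := fun x y => by
    simp [Ag, xF, funext_iff]
  simp only [HH, ms, Fintype.sum_option, a1, a2, a3, a4, if_true, if_false, pF,
    Finset.sum_const_zero, add_zero, zero_add, neg_add, Real.negMulLog, neg_mul,
    Finset.sum_neg_distrib]
  congr 2
  rw [← Finset.sum_coe_sort F]
  refine Finset.sum_congr rfl fun x _ => ?_
  rw [mF, ← Finset.sum_coe_sort F]

theorem tendsto_HH (hq : ∀ x, 0 ≤ q x) (h1 : HasSum q 1) {f : Finset (Fin n) → ℝ}
    (hf : ∀ S, HasSum (fun v => Real.negMulLog (marg q S v)) (f S)) {S : Finset (Fin n)}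
    (hS : S.Nonempty) : Tendsto (fun F => HH (pF q F) (xF F) S) atTop (𝓝 (f S)) := by
  simp only [HH_pF _ hS]
  have t1 : Tendsto (fun F : Finset (Fin n → ℕ) => Real.negMulLog (1 - ∑ x ∈ F, q x)) atTop
      (𝓝 0) := by
    have : Tendsto (fun F : Finset (Fin n → ℕ) => 1 - ∑ x ∈ F, q x) atTop (𝓝 (1 - 1)) :=
      tendsto_const_nhds.sub h1
    simpa [Function.comp_def] using (Real.continuous_negMulLog.tendsto _).comp this
  have hm : ∀ x, marg q Finset.univ (fun i => x i) = q x := by
    intro x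
    rw [marg, tsum_eq_single x]
    · simp
    · intro y hy
      exact if_neg fun h => hy (funext fun i => congrFun h ⟨i, Finset.mem_univ _⟩)
  have hb := (hasSum_pt hq h1 (hf Finset.univ)).summable
  simp only [hm] at hb
  have t2 := tendsto_tsum_of_dominated_convergence (𝓕 := atTop)
    (f := fun (F : Finset (Fin n → ℕ)) x => if x ∈ F then -(q x * Real.log (mF q F S x)) else 0)
    (g := fun x => -(q x * Real.log (marg q S (fun i => x i)))) hb (fun x => ?_)
    (Eventually.of_forall fun F x => ?_)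
  · rw [(hasSum_pt hq h1 (hf S)).tsum_eq] at t2
    have := t1.add t2
    rw [zero_add] at this
    refine this.congr fun F => ?_
    rw [tsum_eq_sum (s := F) fun x hx => if_neg hx]
    congr 1
    exact Finset.sum_congr rfl fun x hx => if_pos hx
  · rcases (hq x).eq_or_lt with h0 | h0
    · simp [← h0]
    · have t3 : Tendsto (fun F => mF q F S x) atTop (𝓝 (marg q S fun i => x i)) :=
        hasSum_marg hq h1 S _
      have t4 := ((t3.log (h0.trans_le (le_marg hq h1 S x)).ne').const_mul (q x)).neg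
      refine t4.congr' ?_
      filter_upwards [eventually_ge_atTop {x}] with F hF
      rw [if_pos (hF (Finset.mem_singleton_self x))]
  · have hq1 : q x ≤ 1 := (le_marg hq h1 S x).trans (marg_le hq h1 S _)
    have hn : 0 ≤ -(q x * Real.log (q x)) := by
      simpa [Real.negMulLog] using Real.negMulLog_nonneg (hq x) hq1
    split_ifs with hx
    · rcases (hq x).eq_or_lt with h0 | h0
      · simp [← h0]
      · have l1 : q x ≤ mF q F S x := by
          have := Finset.single_le_sum (f := fun y => if (fun i : S => y i) = (fun i : S => x i)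
            then q y else 0) (fun y _ => by split_ifs <;> simp [hq]) hx
          simpa [mF] using this
        have l2 : mF q F S x ≤ 1 := (sum_le_hasSum F (fun y _ => by split_ifs <;> simp [hq])
          (hasSum_marg hq h1 S _)).trans (marg_le hq h1 S _)
        have l3 := Real.log_nonpos (h0.le.trans l1) l2
        have l4 := Real.log_le_log h0 l1
        rw [Real.norm_eq_abs, abs_of_nonneg (by nlinarith)]
        nlinarith
    · simpa using hn

theorem pF_nonneg (hq : ∀ x, 0 ≤ q x) (h1 : HasSum q 1) (F : Finset (Fin n → ℕ)) :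
    ∀ a, 0 ≤ pF q F a
  | none => sub_nonneg.2 (sum_le_hasSum F (fun y _ => hq y) h1)
  | some x => hq x

theorem pF_sum (F : Finset (Fin n → ℕ)) : ∑ a, pF q F a = 1 := by
  simp only [Fintype.sum_option, pF]
  rw [Finset.sum_coe_sort F]
  ring

theorem HH_mono {Ω ι β : Type} [Fintype Ω] {p : Ω → ℝ} {ξ : Ω → ι → β} (hp : ∀ a, 0 ≤ p a)
    {S T : Finset ι} (h : S ⊆ T) : HH p ξ S ≤ HH p ξ T := by
  refine neg_le_neg (Finset.sum_le_sum fun a _ => ?_)
  rcases (hp a).eq_or_lt with h0 | h0
  · simp [← h0]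
  · refine mul_le_mul_of_nonneg_left (Real.log_le_log (h0.trans_le (le_ms hp T a)) ?_) h0.le
    refine Finset.sum_le_sum fun b _ => ?_
    by_cases hb : Ag ξ T b a
    · rw [if_pos hb, if_pos (show Ag ξ S b a from fun i hi => hb i (h hi))]
    · rw [if_neg hb]
      split_ifs <;> simp [hp]

theorem fin_ineq {Ω β : Type} [Fintype Ω] {p : Ω → ℝ} (ξ : Ω → Fin 5 → β) (hp : ∀ a, 0 ≤ p a)
    (h1 : ∑ a, p a = 1) :
    HH p ξ {0} + 2 * HH p ξ {2} + 2 * HH p ξ {3} + HH p ξ {0, 1} + 4 * HH p ξ {0, 4} +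
      HH p ξ {1, 4} + 5 * HH p ξ {4} + 2 * HH p ξ {2, 3} ≤ 3 * HH p ξ {0, 2} + 3 * HH p ξ {0, 3} +
      HH p ξ {1, 2} + HH p ξ {1, 3} + 5 * HH p ξ {2, 4} + 5 * HH p ξ {3, 4} := by
  have z := zy (p := p) (fun a (i : Fin 4) => ξ a i.castSucc) hp h1
  have e : ∀ S : Finset (Fin 4), HH p (fun a (i : Fin 4) => ξ a i.castSucc) S =
      HH p ξ (S.map Fin.castSuccEmb) := fun S => by
    have : Ag (fun a (i : Fin 4) => ξ a i.castSucc) S = Ag ξ (S.map Fin.castSuccEmb) := by
      funext a b
      simp only [Ag, Finset.forall_mem_map]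
      rfl
    simp only [HH, ms, this]
  simp only [e, Finset.map_insert, Finset.map_singleton, Fin.castSuccEmb_apply] at z
  have s := submod (ξ := ξ) hp h1
  have s1 := s {2, 4} {3, 4} {2, 3, 4} {4} (by decide) (by decide)
  have s2 := s {0, 2, 3} {2, 3, 4} {0, 2, 3, 4} {2, 3} (by decide) (by decide)
  have s3 := s {1, 2, 3} {2, 3, 4} {1, 2, 3, 4} {2, 3} (by decide) (by decide)
  have m1 := HH_mono (ξ := ξ) hp (show ({0, 4} : Finset (Fin 5)) ⊆ {0, 2, 3, 4} by decide)
  have m2 := HH_mono (ξ := ξ) hp (show ({1, 4} : Finset (Fin 5)) ⊆ {1, 2, 3, 4} by decide)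
  change HH p ξ {0} + 2 * HH p ξ {2} + 2 * HH p ξ {3} + HH p ξ {0, 1} + 4 * HH p ξ {0, 2, 3} +
      HH p ξ {1, 2, 3} ≤ 3 * HH p ξ {2, 3} + 3 * HH p ξ {0, 2} + 3 * HH p ξ {0, 3} +
      HH p ξ {1, 2} + HH p ξ {1, 3} at z
  linarith

theorem ent_ineq {f : Finset (Fin 5) → ℝ} (h : Entropic f) :
    f {0} + 2 * f {2} + 2 * f {3} + f {0, 1} + 4 * f {0, 4} + f {1, 4} + 5 * f {4} +
      2 * f {2, 3} ≤ 3 * f {0, 2} + 3 * f {0, 3} + f {1, 2} + f {1, 3} + 5 * f {2, 4} +
      5 * f {3, 4} := by
  obtain ⟨q, hq, h1, hf⟩ := h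
  have hl : 0 < Real.log 2 := Real.log_pos (by norm_num)
  have hf' : ∀ S, HasSum (fun v => Real.negMulLog (marg q S v)) (f S * Real.log 2) := fun S => by
    simpa [hl.ne'] using (hf S).mul_right (Real.log 2)
  have t := fun (S : Finset (Fin 5)) (hS : S.Nonempty) => tendsto_HH hq h1 hf' hS
  have := le_of_tendsto_of_tendsto'
    ((((((((t {0} (by simp)).add ((t {2} (by simp)).const_mul 2)).add
      ((t {3} (by simp)).const_mul 2)).add (t {0, 1} (by simp))).add
      ((t {0, 4} (by simp)).const_mul 4)).add (t {1, 4} (by simp))).add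
      ((t {4} (by simp)).const_mul 5)).add ((t {2, 3} (by simp)).const_mul 2))
    (((((((t {0, 2} (by simp)).const_mul 3).add ((t {0, 3} (by simp)).const_mul 3)).add
      (t {1, 2} (by simp))).add (t {1, 3} (by simp))).add
      ((t {2, 4} (by simp)).const_mul 5)).add ((t {3, 4} (by simp)).const_mul 5))
    (fun F => fin_ineq (xF F) (pF_nonneg hq h1 F) (pF_sum F))
  refine le_of_mul_le_mul_right ?_ hl
  linarith

end Pool.Agent.H62.EntK
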