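import Mathlib

/-! A sparse graph with a generic 5-ary relation and markings: predimension calculus. -/

set_option autoImplicit false
set_option linter.unusedSectionVars false

namespace Pool.Agent.H62.Ex

open Finset Function

/-- three relations of arity five -/
abbrev St (α : Type) := Fin 3 → (Fin 5 → α) → Prop

variable {α β : Type} [DecidableEq α] [DecidableEq β]

def tE (p q : α) : Fin 5 → α := fun j => if j = 0 then p else q
def tR (x p q : α) : Fin 5 → α := fun j => if j = 0 then x else if j = 1 then p else q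

def E (S : St α) (p q : α) : Prop := S 0 (tE p q)
def R (S : St α) (x p q : α) : Prop := S 1 (tR x p q)

theorem comp_tE (f : α → β) (p q : α) : f ∘ tE p q = tE (f p) (f q) :=
  funext fun j => by simp only [tE, comp]; split_ifs <;> rfl

theorem comp_tR (f : α → β) (x p q : α) : f ∘ tR x p q = tR (f x) (f p) (f q) :=
  funext fun j => by simp only [tR, comp]; split_ifs <;> rfl

theorem all_tE {P : α → Prop} {p q : α} : (∀ j, P (tE p q j)) ↔ P p ∧ P q :=
  ⟨fun h => ⟨h 0, h 1⟩, fun h j => by simp only [tE]; split_ifs; exacts [h.1, h.2]⟩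

theorem all_tR {P : α → Prop} {x p q : α} : (∀ j, P (tR x p q j)) ↔ P x ∧ P p ∧ P q :=
  ⟨fun h => ⟨h 0, h 1, h 2⟩, fun h j => by
    simp only [tR]; split_ifs; exacts [h.1, h.2.1, h.2.2]⟩

open Classical in
noncomputable def ed (S : St α) (X : Finset α) : Finset (α × α) :=
  (X ×ˢ X).filter fun z => E S z.1 z.2

theorem mem_ed {S : St α} {X : Finset α} {z : α × α} :
    z ∈ ed S X ↔ z.1 ∈ X ∧ z.2 ∈ X ∧ E S z.1 z.2 := by
  simp [ed, and_assoc]

noncomputable def dl (S : St α) (X : Finset α) : ℤ := 3 * X.card - (ed S X).card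

theorem dl_empty (S : St α) : dl S ∅ = 0 := by simp [dl, ed]

theorem dl_le (S : St α) (X : Finset α) : dl S X ≤ 3 * X.card := by simp [dl]

theorem dl_union (S : St α) (Y Z : Finset α) : dl S (Y ∪ Z) + dl S (Y ∩ Z) +
    ((ed S (Y ∪ Z)) \ (ed S Y ∪ ed S Z)).card = dl S Y + dl S Z := by
  have h1 : ed S Y ∪ ed S Z ⊆ ed S (Y ∪ Z) := fun z hz => by
    simp only [mem_union, mem_ed] at hz ⊢; tauto
  have h2 : ed S Y ∩ ed S Z = ed S (Y ∩ Z) := by
    ext z; simp only [mem_inter, mem_ed]; tauto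
  have h3 := card_union_add_card_inter (ed S Y) (ed S Z)
  have h4 := card_union_add_card_inter Y Z
  have h5 := card_sdiff_add_card_eq_card h1
  rw [h2] at h3
  simp only [dl]
  omega

theorem submod (S : St α) (Y Z : Finset α) :
    dl S (Y ∪ Z) + dl S (Y ∩ Z) ≤ dl S Y + dl S Z := by
  have := dl_union S Y Z; omega

theorem modular (S : St α) (Y Z : Finset α)
    (h : ∀ p q, p ∈ Y ∪ Z → q ∈ Y ∪ Z → E S p q → (p ∈ Y ∧ q ∈ Y) ∨ (p ∈ Z ∧ q ∈ Z)) :
    dl S (Y ∪ Z) + dl S (Y ∩ Z) = dl S Y + dl S Z := by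
  have := dl_union S Y Z
  have e : ed S (Y ∪ Z) \ (ed S Y ∪ ed S Z) = ∅ := by
    refine sdiff_eq_empty_iff_subset.2 fun z hz => ?_
    obtain ⟨a, b, c⟩ := mem_ed.1 hz
    simp only [mem_union, mem_ed]
    have := h _ _ a b c
    tauto
  rw [e] at this
  simpa using this

theorem nocross (S : St α) (Y Z : Finset α)
    (h : dl S Y + dl S Z ≤ dl S (Y ∪ Z) + dl S (Y ∩ Z)) (p q : α) (hp : p ∈ Y ∪ Z)
    (hq : q ∈ Y ∪ Z) (e : E S p q) : (p ∈ Y ∧ q ∈ Y) ∨ (p ∈ Z ∧ q ∈ Z) := by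
  have := dl_union S Y Z
  have e0 : ed S (Y ∪ Z) \ (ed S Y ∪ ed S Z) = ∅ := card_eq_zero.1 (by omega)
  have := sdiff_eq_empty_iff_subset.1 e0 (mem_ed.2 (show (p, q).1 ∈ _ ∧ _ from ⟨hp, hq, e⟩))
  simp only [mem_union, mem_ed] at this
  tauto

/-- `A` is closed in `U` -/
def Cl (S : St α) (U : Set α) (A : Finset α) : Prop :=
  ∀ X : Finset α, A ⊆ X → ↑X ⊆ U → dl S X ≤ dl S A → X ⊆ A

theorem Cl.le {S : St α} {U : Set α} {A X : Finset α} (h : Cl S U A) (h1 : A ⊆ X)
    (h2 : ↑X ⊆ U) : dl S A ≤ dl S X := by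
  by_contra h3
  have := Subset.antisymm (h X h1 h2 (by omega)) h1
  rw [this] at h3; omega

theorem Cl.mono {S : St α} {U V : Set α} {A : Finset α} (h : Cl S U A) (h1 : V ⊆ U) :
    Cl S V A := fun X a b c => h X a (b.trans h1) c

theorem Cl.refl (S : St α) (A : Finset α) : Cl S A A := fun _ _ b _ => b

theorem Cl.inter_le {S : St α} {U : Set α} {A Y : Finset α} (h : Cl S U A) (hA : ↑A ⊆ U)
    (hY : ↑Y ⊆ U) : dl S (Y ∩ A) ≤ dl S Y := by
  have := submod S Y A
  have := h.le (X := Y ∪ A) subset_union_right (by simp [hA, hY])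
  omega

theorem Cl.inter_sub {S : St α} {U : Set α} {A Y : Finset α} (h : Cl S U A) (hA : ↑A ⊆ U)
    (hY : ↑Y ⊆ U) (h1 : dl S Y ≤ dl S (Y ∩ A)) : Y ⊆ A := by
  have := submod S Y A
  exact subset_union_left.trans
    (h (Y ∪ A) subset_union_right (by simp [hA, hY]) (by omega))

theorem Cl.trans {S : St α} {U : Set α} {A B : Finset α} (h1 : Cl S B A) (h2 : Cl S U B)
    (hAB : A ⊆ B) (hB : ↑B ⊆ U) : Cl S U A := fun X a b c => by
  have e1 := h2.inter_le hB b
  have e2 := h1 (X ∩ B) (subset_inter a hAB) (by simp) (by omega)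
  have e3 : X ∩ B = A := Subset.antisymm e2 (subset_inter a hAB)
  have e4 := h2.inter_sub hB b (by rw [e3]; exact c)
  rw [← e3]; exact subset_inter Subset.rfl e4

/-- no four distinct marked flags -/
def Few (H : α → α → Prop) : Prop :=
  ∀ (p : α) (u : Fin 4 → α), Injective u → ¬∀ j, H p (u j)

structure Good (S : St α) (U : Set α) : Prop where
  sz : ∀ X : Finset α, ↑X ⊆ U → X.card < 2 ^ (dl S X).toNat
  cov : ∀ x ∈ U, ∀ p ∈ U, ∀ q ∈ U, E S p q → R S x p q ∨ R S x q p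
  ind : ∀ x ∈ U, ∀ t : Fin 5 → α, (∀ j, t j ∈ U) → S 2 t → (Injective fun j : Fin 4 => t j.succ) →
    ¬∀ j : Fin 4, R S x (t 0) (t j.succ)

theorem Good.mono {S : St α} {U V : Set α} (h : Good S U) (h1 : V ⊆ U) : Good S V :=
  ⟨fun X a => h.sz X (a.trans h1), fun x a p b q c => h.cov x (h1 a) p (h1 b) q (h1 c),
    fun x a t b => h.ind x (h1 a) t fun j => h1 (b j)⟩

theorem Good.cl_empty {S : St α} {U : Set α} (h : Good S U) : Cl S U ∅ := fun X _ b c => by
  have := h.sz X b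
  rw [dl_empty] at c
  rw [Int.toNat_eq_zero.2 c] at this
  rw [card_eq_zero.1 (show X.card = 0 by omega)]

theorem Good.nonneg {S : St α} {U : Set α} (h : Good S U) {X : Finset α} (b : ↑X ⊆ U) :
    0 ≤ dl S X := dl_empty S ▸ h.cl_empty.le (empty_subset _) b

structure Emb (S : St α) (T : St β) (U : Set α) (f : α → β) : Prop where
  inj : Set.InjOn f U
  rel : ∀ c (t : Fin 5 → α), (∀ j, t j ∈ U) → (S c t ↔ T c (f ∘ t))

theorem Emb.mono {S : St α} {T : St β} {U V : Set α} {f : α → β} (h : Emb S T U f)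
    (h1 : V ⊆ U) : Emb S T V f := ⟨h.inj.mono h1, fun c t a => h.rel c t fun j => h1 (a j)⟩

theorem Emb.comp {γ : Type} {S : St α} {T : St β} {W : St γ} {U : Set α} {V : Set β} {f : α → β}
    {g : β → γ} (h : Emb S T U f) (k : Emb T W V g) (h1 : Set.MapsTo f U V) :
    Emb S W U (g ∘ f) :=
  ⟨k.inj.comp h.inj h1, fun c t a => (h.rel c t a).trans (k.rel c _ fun j => h1 (a j))⟩

theorem Emb.congr {S : St α} {T : St β} {U : Set α} {f g : α → β} (h : Emb S T U f)
    (h1 : Set.EqOn f g U) : Emb S T U g :=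
  ⟨h.inj.congr h1, fun c t a => by
    rw [h.rel c t a, show f ∘ t = g ∘ t from funext fun j => h1 (a j)]⟩

theorem Emb.e {S : St α} {T : St β} {U : Set α} {f : α → β} (h : Emb S T U f) {p q : α}
    (hp : p ∈ U) (hq : q ∈ U) : E S p q ↔ E T (f p) (f q) := by
  rw [E, E, ← comp_tE]; exact h.rel _ _ (all_tE.2 ⟨hp, hq⟩)

theorem Emb.r {S : St α} {T : St β} {U : Set α} {f : α → β} (h : Emb S T U f) {x p q : α}
    (hx : x ∈ U) (hp : p ∈ U) (hq : q ∈ U) : R S x p q ↔ R T (f x) (f p) (f q) := by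
  rw [R, R, ← comp_tR]; exact h.rel _ _ (all_tR.2 ⟨hx, hp, hq⟩)

theorem Emb.dl {S : St α} {T : St β} {U : Set α} {f : α → β} (h : Emb S T U f) {X : Finset α}
    (hX : ↑X ⊆ U) : dl T (X.image f) = dl S X := by
  have e1 : (X.image f).card = X.card := card_image_of_injOn (h.inj.mono hX)
  have e2 : (ed S X).card = (ed T (X.image f)).card := by
    refine card_bij (fun z _ => (f z.1, f z.2)) (fun z hz => ?_) (fun z hz w hw e => ?_)
      fun w hw => ?_
    · obtain ⟨a, b, c⟩ := mem_ed.1 hz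
      exact mem_ed.2 ⟨mem_image_of_mem _ a, mem_image_of_mem _ b, (h.e (hX a) (hX b)).1 c⟩
    · obtain ⟨a, b, -⟩ := mem_ed.1 hz
      obtain ⟨a', b', -⟩ := mem_ed.1 hw
      exact Prod.ext (h.inj (hX a) (hX a') (congrArg Prod.fst e))
        (h.inj (hX b) (hX b') (congrArg Prod.snd e))
    · obtain ⟨a, b, c⟩ := mem_ed.1 hw
      obtain ⟨p, hp, e⟩ := mem_image.1 a
      obtain ⟨q, hq, e'⟩ := mem_image.1 b
      refine ⟨(p, q), mem_ed.2 ⟨hp, hq, (h.e (hX hp) (hX hq)).2 (by rwa [e, e'])⟩, Prod.ext e e'⟩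
  simp only [Ex.dl, e1, e2]

theorem Emb.sub {S : St α} {T : St β} {U : Set α} {f : α → β} (h : Emb S T U f) {X Y : Finset α}
    (hX : ↑X ⊆ U) (hY : ↑Y ⊆ U) (e : X.image f ⊆ Y.image f) : X ⊆ Y := fun x hx => by
  obtain ⟨y, hy, e'⟩ := mem_image.1 (e (mem_image_of_mem f hx))
  exact h.inj (hY hy) (hX hx) e' ▸ hy

theorem Emb.cl {S : St α} {T : St β} {A B : Finset α} {f : α → β} (h : Emb S T B f)
    (hA : A ⊆ B) : Cl S B A ↔ Cl T (B.image f) (A.image f) := by
  have hA' : (A : Set α) ⊆ B := hA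
  constructor
  · intro k X a b c
    obtain ⟨Y, hY, rfl⟩ := subset_image_iff.1 (coe_subset.1 b)
    rw [h.dl hY, h.dl hA'] at c
    exact image_subset_image (k Y (h.sub hA' hY a) hY c)
  · intro k X a b c
    refine h.sub b hA' (k _ (image_subset_image a) (coe_subset.2 (image_subset_image b)) ?_)
    rwa [h.dl b, h.dl hA']

theorem Emb.good {S : St α} {T : St β} {B : Finset α} {f : α → β} (h : Emb S T B f)
    (k : Good S B) : Good T (B.image f) := by
  have m : ∀ y ∈ ((B.image f : Finset β) : Set β), ∃ x ∈ (B : Set α), f x = y := fun y hy => by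
    simpa using hy
  refine ⟨fun X b => ?_, fun x a p b q c => ?_, fun x a t b c d e => ?_⟩
  · obtain ⟨Y, hY, rfl⟩ := subset_image_iff.1 (coe_subset.1 b)
    rw [h.dl hY, card_image_of_injOn (h.inj.mono hY)]
    exact k.sz Y hY
  · obtain ⟨x', a', rfl⟩ := m x a
    obtain ⟨p', b', rfl⟩ := m p b
    obtain ⟨q', c', rfl⟩ := m q c
    rw [← h.e b' c', ← h.r a' b' c', ← h.r a' c' b']
    exact k.cov x' a' p' b' q' c'
  · obtain ⟨x', a', rfl⟩ := m x a
    choose s hs hs' using fun j => m (t j) (b j)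
    obtain rfl : t = f ∘ s := funext fun j => (hs' j).symm
    exact k.ind x' a' s hs ((h.rel _ _ hs).2 c) (Injective.of_comp (f := f) d)
      fun j => (h.r a' (hs _) (hs _)).2 (e j)

theorem Emb.good' {S : St α} {T : St β} {U : Set α} {V : Set β} {f : α → β} (h : Emb S T U f)
    (hf : Set.MapsTo f U V) (k : Good T V) : Good S U := by
  classical
  refine ⟨fun X b => ?_, fun x a p b q c => ?_, fun x a t b c d e => ?_⟩
  · rw [← h.dl b, ← card_image_of_injOn (h.inj.mono b)]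
    exact k.sz _ fun y hy => by
      obtain ⟨x, hx, rfl⟩ := mem_image.1 hy
      exact hf (b hx)
  · rw [h.e b c, h.r a b c, h.r a c b]
    exact k.cov _ (hf a) _ (hf b) _ (hf c)
  · exact k.ind _ (hf a) (f ∘ t) (fun j => hf (b j)) ((h.rel _ _ b).1 c)
      (fun i j e => d (h.inj (b _) (b _) e)) fun j => (h.r a (b _) (b _)).1 (e j)

structure Mark (S : St α) (B A : Finset α) (H : α → α → Prop) : Prop where
  cov : ∀ p ∈ B, ∀ q ∈ B, E S p q → (p ∈ A ∧ q ∈ A) ∨ H p q ∨ H q p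
  mem : ∀ p q, H p q → p ∈ B ∧ p ∉ A ∧ q ∈ B
  few : Few H

theorem exists_mark (S : St α) {A B : Finset α} (hA : A ⊆ B)
    (h : ∀ X, A ⊆ X → X ⊆ B → dl S A ≤ dl S X) : ∃ H, Mark S B A H := by
  classical
  let ι := {z // z ∈ ed S B \ ed S A}
  let t : ι → Finset (α × Fin 3) := fun z => (({z.1.1, z.1.2} : Finset α) \ A) ×ˢ univ
  obtain ⟨φ, φi, φm⟩ := (all_card_le_biUnion_card_iff_exists_injective t).1 fun s => by
    let N := s.biUnion fun z => ({z.1.1, z.1.2} : Finset α) \ A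
    have e1 : s.biUnion t = N ×ˢ univ := by
      ext w; simp [t, N]
    have e2 : Disjoint A N := by
      simp only [N, disjoint_biUnion_right]
      exact fun _ _ => disjoint_sdiff
    have e3 := h (A ∪ N) subset_union_left (union_subset hA (biUnion_subset.2 fun z _ => by
      obtain ⟨a, b, -⟩ := mem_ed.1 (mem_sdiff.1 z.2).1
      exact sdiff_subset.trans (insert_subset a (singleton_subset_iff.2 b))))
    have e4 : ed S A ∪ s.map (Embedding.subtype _) ⊆ ed S (A ∪ N) := by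
      refine union_subset (fun z hz => ?_) fun z hz => ?_
      · simp only [mem_ed, mem_union] at hz ⊢; tauto
      · obtain ⟨w, hw, rfl⟩ := mem_map.1 hz
        have k : ∀ y ∈ ({w.1.1, w.1.2} : Finset α), y ∈ A ∪ N := fun y hy => by
          by_cases hy' : y ∈ A
          · exact mem_union_left _ hy'
          · exact mem_union_right _ (mem_biUnion.2 ⟨w, hw, mem_sdiff.2 ⟨hy, hy'⟩⟩)
        exact mem_ed.2 ⟨k _ (by simp), k _ (by simp), (mem_ed.1 (mem_sdiff.1 w.2).1).2.2⟩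
    have e5 : Disjoint (ed S A) (s.map (Embedding.subtype _)) :=
      disjoint_right.2 fun z hz => by
        obtain ⟨w, -, rfl⟩ := mem_map.1 hz
        exact (mem_sdiff.1 w.2).2
    have e6 := card_le_card e4
    rw [card_union_of_disjoint e5, card_map] at e6
    rw [e1, card_product, card_univ, Fintype.card_fin]
    simp only [dl, card_union_of_disjoint e2] at e3
    omega
  have φ1 : ∀ z, ((φ z).1 = z.1.1 ∨ (φ z).1 = z.1.2) ∧ (φ z).1 ∉ A := fun z => by
    simpa [t] using φm z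
  refine ⟨fun p q => ∃ z : ι, (φ z).1 = p ∧ (z.1 = (p, q) ∨ z.1 = (q, p)), fun p a q b c => ?_,
    ?_, fun p u hu k => ?_⟩
  · by_cases hz : p ∈ A ∧ q ∈ A
    · exact Or.inl hz
    · let z : ι := ⟨(p, q), mem_sdiff.2 ⟨mem_ed.2 ⟨a, b, c⟩, fun k =>
        hz ⟨(mem_ed.1 k).1, (mem_ed.1 k).2.1⟩⟩⟩
      exact Or.inr ((φ1 z).1.imp (fun e => ⟨z, e, Or.inl rfl⟩) fun e => ⟨z, e, Or.inr rfl⟩)
  · rintro p q ⟨z, rfl, e⟩
    obtain ⟨a, b, -⟩ := mem_ed.1 (mem_sdiff.1 z.2).1
    rcases e with e | e <;> rw [e] at a b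
    exacts [⟨a, (φ1 z).2, b⟩, ⟨b, (φ1 z).2, a⟩]
  · choose z z1 z2 using k
    have : Injective fun j => (φ (z j)).2 := fun i j e => by
      have e' := φi (Prod.ext ((z1 i).trans (z1 j).symm) e)
      apply hu
      have a := z2 i
      have b := z2 j
      rw [e'] at a
      grind
    simpa using Fintype.card_le_of_injective _ this

def push (f : α → β) (H : α → α → Prop) (p q : β) : Prop := ∃ x y, H x y ∧ f x = p ∧ f y = q

theorem Emb.mark {S : St α} {T : St β} {A B : Finset α} {f : α → β} (h : Emb S T B f)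
    (hA : A ⊆ B) {H : α → α → Prop} (k : Mark S B A H) :
    Mark T (B.image f) (A.image f) (push f H) := by
  refine ⟨fun p a q b c => ?_, ?_, fun p u hu e => ?_⟩
  · obtain ⟨p', a', rfl⟩ := mem_image.1 a
    obtain ⟨q', b', rfl⟩ := mem_image.1 b
    exact (k.cov p' a' q' b' ((h.e a' b').2 c)).imp
      (fun e => ⟨mem_image_of_mem _ e.1, mem_image_of_mem _ e.2⟩)
      (Or.imp (fun e => ⟨p', q', e, rfl, rfl⟩) fun e => ⟨q', p', e, rfl, rfl⟩)
  · rintro _ _ ⟨x, y, e, rfl, rfl⟩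
    obtain ⟨a, b, c⟩ := k.mem x y e
    refine ⟨mem_image_of_mem _ a, fun d => ?_, mem_image_of_mem _ c⟩
    obtain ⟨w, hw, e'⟩ := mem_image.1 d
    exact b (h.inj (hA hw) a e' ▸ hw)
  · choose x y e1 e2 e3 using e
    refine k.few (x 0) y (fun i j e => hu (by rw [← e3, ← e3, e])) fun j => ?_
    rw [h.inj (k.mem _ _ (e1 0)).1 (k.mem _ _ (e1 j)).1 ((e2 0).trans (e2 j).symm)]
    exact e1 j

theorem emb_comap (S : St α) {U : Set α} {f : α → β} [Nonempty α] (hf : Set.InjOn f U) :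
    ∃ T : St β, Emb S T U f :=
  ⟨fun c t => S c (invFunOn f U ∘ t), hf, fun c t a => by
    rw [show invFunOn f U ∘ f ∘ t = t from funext fun j => hf.leftInvOn_invFunOn (a j)]⟩

end Pool.Agent.H62.Ex
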