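import Pool.Agent.H62.Ex1

/-! Free amalgamation and the generic model. -/

set_option autoImplicit false
set_option linter.unusedSectionVars false

namespace Pool.Agent.H62.Ex

open Finset Function

variable {α β : Type} [DecidableEq α] [DecidableEq β]

structure AmH (S : Bool → St α) (B : Bool → Finset α) (A : Finset α)
    (H : Bool → α → α → Prop) : Prop where
  good : ∀ i, Good (S i) (B i)
  sub : ∀ i, A ⊆ B i
  int : ∀ i x, x ∈ B i → x ∈ B (!i) → x ∈ A
  agr : ∀ i c t, (∀ j, t j ∈ A) → S i c t → S (!i) c t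
  cl : ∀ i, Cl (S i) (B i) A
  mark : ∀ i, Mark (S i) (B i) A (H i)

def am (S : Bool → St α) (B : Bool → Finset α) (H : Bool → α → α → Prop) : St α := fun c t =>
  ∃ i, ((∀ j, t j ∈ B i) ∧ S i c t) ∨ (c = 1 ∧ t 0 ∉ B i ∧ H i (t 1) (t 2))

theorem bool_cases (i k : Bool) : k = i ∨ k = !i := by cases i <;> cases k <;> simp

theorem mem_both {B : Bool → Finset α} {x : α} (i : Bool) :
    x ∈ B true ∪ B false ↔ x ∈ B i ∨ x ∈ B (!i) := by
  cases i <;> simp [or_comm]

theorem sub_both (B : Bool → Finset α) (i : Bool) : B i ⊆ B true ∪ B false := fun _ h =>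
  (mem_both i).2 (Or.inl h)

theorem Emb.dl_id {S T : St α} {U : Set α} (h : Emb S T U id) {X : Finset α} (hX : ↑X ⊆ U) :
    Ex.dl T X = Ex.dl S X := by simpa using h.dl hX

theorem Emb.cl_id {S T : St α} {A B : Finset α} (h : Emb S T B id) (hA : A ⊆ B) :
    Cl S B A ↔ Cl T B A := by simpa using h.cl hA

theorem Emb.symm_id {S T : St α} {U : Set α} (h : Emb S T U id) : Emb T S U id :=
  ⟨h.inj, fun c t a => (h.rel c t a).symm⟩

namespace AmH

variable {S : Bool → St α} {B : Bool → Finset α} {A : Finset α} {H : Bool → α → α → Prop}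

theorem emb (h : AmH S B A H) (i : Bool) : Emb (S i) (am S B H) (B i) id := by
  refine ⟨Set.injOn_id _, fun c t a => ⟨fun k => ⟨i, Or.inl ⟨a, k⟩⟩, ?_⟩⟩
  rintro ⟨k, ⟨b, e⟩ | ⟨-, b, e⟩⟩ <;> rcases bool_cases i k with rfl | rfl
  · exact e
  · simpa using h.agr _ c t (fun j => h.int i _ (a j) (b j)) e
  · exact (b (a 0)).elim
  · obtain ⟨e1, e2, -⟩ := (h.mark _).mem _ _ e
    exact (e2 (h.int i _ (a 1) e1)).elim

theorem edge {p q : α} (e : E (am S B H) p q) : ∃ i, p ∈ B i ∧ q ∈ B i ∧ E (S i) p q := by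
  obtain ⟨k, ⟨b, e⟩ | ⟨c, -⟩⟩ := e
  · exact ⟨k, b 0, b 1, e⟩
  · simp at c

theorem r_iff (x p q : α) : R (am S B H) x p q ↔
    ∃ i, (x ∈ B i ∧ p ∈ B i ∧ q ∈ B i ∧ R (S i) x p q) ∨ (x ∉ B i ∧ H i p q) := by
  refine exists_congr fun i => or_congr ?_ ?_
  · rw [all_tR (P := (· ∈ B i)), and_assoc, and_assoc]; rfl
  · simp [tR]

theorem inter (h : AmH S B A H) (i : Bool) (X : Finset α) : X ∩ B i ∩ (X ∩ B (!i)) = X ∩ A := by
  ext x
  simp only [mem_inter]
  exact ⟨fun k => ⟨k.1.1, h.int i x k.1.2 k.2.2⟩,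
    fun k => ⟨⟨k.1, h.sub _ k.2⟩, k.1, h.sub _ k.2⟩⟩

theorem dl_eq (h : AmH S B A H) (i : Bool) {X : Finset α} (hX : X ⊆ B true ∪ B false) :
    dl (am S B H) X + dl (am S B H) (X ∩ A) =
      dl (am S B H) (X ∩ B i) + dl (am S B H) (X ∩ B (!i)) := by
  have e : X ∩ B i ∪ X ∩ B (!i) = X := by
    ext x
    simp only [mem_inter, mem_union]
    exact ⟨fun k => k.elim And.left And.left,
      fun k => ((mem_both i).1 (hX k)).imp (⟨k, ·⟩) (⟨k, ·⟩)⟩
  have := modular (am S B H) (X ∩ B i) (X ∩ B (!i)) fun p q a b c => by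
    rw [e] at a b
    obtain ⟨k, c1, c2, -⟩ := edge c
    simp only [mem_inter]
    rcases bool_cases i k with rfl | rfl <;> tauto
  rwa [e, h.inter] at this

theorem clA (h : AmH S B A H) (i : Bool) : Cl (am S B H) (B i) A :=
  ((h.emb i).cl_id (h.sub i)).1 (h.cl i)

theorem clB (h : AmH S B A H) (i : Bool) : Cl (am S B H) ↑(B true ∪ B false) (B i) := by
  intro X a b c
  have e := h.dl_eq i (coe_subset.1 b)
  rw [inter_eq_right.2 a, inter_eq_right.2 ((h.sub i).trans a)] at e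
  have := h.clA (!i) (X ∩ B (!i)) (subset_inter ((h.sub i).trans a) (h.sub _)) (by simp)
    (by omega)
  intro x hx
  exact ((mem_both i).1 (b hx)).elim id fun k => h.sub i (this (mem_inter.2 ⟨hx, k⟩))

theorem good' (h : AmH S B A H) (i : Bool) : Good (am S B H) (B i) := by
  simpa using (h.emb i).good (h.good i)

theorem good_am (h : AmH S B A H) : Good (am S B H) ↑(B true ∪ B false) := by
  refine ⟨fun X b => ?_, fun x a p b q c e => ?_, fun x a t b c d e => ?_⟩
  · by_cases k : ∃ i, X ∩ B i ⊆ A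
    · obtain ⟨i, k⟩ := k
      exact (h.good' (!i)).sz X fun x hx =>
        ((mem_both i).1 (b hx)).elim (fun m => h.sub _ (k (mem_inter.2 ⟨hx, m⟩))) id
    push Not at k
    have e := h.dl_eq true (coe_subset.1 b)
    have l : ∀ i, dl (am S B H) (X ∩ A) < dl (am S B H) (X ∩ B i) := fun i => by
      by_contra m
      refine k i ((h.clA i).inter_sub (h.sub i) (by simp) ?_)
      rw [inter_assoc, inter_eq_right.2 (h.sub i)]
      omega
    have l1 := l true
    have l2 := l false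
    have s1 := (h.good' true).sz (X ∩ B true) (by simp)
    have s2 := (h.good' false).sz (X ∩ B false) (by simp)
    have n1 := (h.good' true).nonneg (X := X ∩ B true) (by simp)
    have n2 := (h.good' false).nonneg (X := X ∩ B false) (by simp)
    have u : X.card ≤ (X ∩ B true).card + (X ∩ B false).card := by
      refine le_trans (card_le_card fun x hx => ?_) (card_union_le _ _)
      rw [← inter_union_distrib_left]
      exact mem_inter.2 ⟨hx, b hx⟩
    simp only [Bool.not_true] at e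
    have p1 : 2 ^ ((dl (am S B H) (X ∩ B true)).toNat + 1) ≤ 2 ^ (dl (am S B H) X).toNat :=
      Nat.pow_le_pow_right (by norm_num) (by omega)
    have p2 : 2 ^ ((dl (am S B H) (X ∩ B false)).toNat + 1) ≤ 2 ^ (dl (am S B H) X).toNat :=
      Nat.pow_le_pow_right (by norm_num) (by omega)
    omega
  · obtain ⟨i, b', c', e'⟩ := edge e
    by_cases hx : x ∈ B i
    · exact (h.good' i).cov x hx p b' q c' e
    · rcases (h.mark i).cov p b' q c' e' with m | m | m
      · exact (h.good' (!i)).cov x (((mem_both i).1 a).resolve_left hx) p (h.sub _ m.1) q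
          (h.sub _ m.2) e
      · exact Or.inl ((r_iff _ _ _).2 ⟨i, Or.inr ⟨hx, m⟩⟩)
      · exact Or.inr ((r_iff _ _ _).2 ⟨i, Or.inr ⟨hx, m⟩⟩)
  · obtain ⟨i, ⟨b', -⟩ | ⟨c', -⟩⟩ := id c
    swap
    · simp at c'
    by_cases hx : x ∈ B i
    · exact (h.good' i).ind x hx t b' c d e
    have hx' := ((mem_both i).1 a).resolve_left hx
    have f : ∀ j : Fin 4, (t 0 ∈ B (!i) ∧ t j.succ ∈ B (!i)) ∨ H i (t 0) (t j.succ) := fun j => by
      obtain ⟨k, m | m⟩ := (r_iff _ _ _).1 (e j) <;> rcases bool_cases i k with rfl | rfl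
      exacts [(hx m.1).elim, Or.inl ⟨m.2.1, m.2.2.1⟩, Or.inr m.2, (m.1 hx').elim]
    by_cases h0 : t 0 ∈ A
    · refine (h.good' (!i)).ind x hx' t (fun j => ?_) c d e
      refine Fin.cases (h.sub _ h0) (fun j => ?_) j
      exact ((f j).resolve_right fun m => ((h.mark i).mem _ _ m).2.1 h0).2
    · exact (h.mark i).few _ _ d fun j =>
        (f j).resolve_left fun m => h0 (h.int i _ (b' 0) m.1)

end AmH

theorem amalg {S T : St α} {B C A : Finset α} (g1 : Good S B) (g2 : Good T C) (s1 : A ⊆ B)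
    (s2 : A ⊆ C) (hi : ∀ x ∈ B, x ∈ C → x ∈ A) (ag : Emb S T A id) (c1 : Cl S B A)
    (c2 : Cl T C A) : ∃ W : St α, Good W ↑(B ∪ C) ∧ Emb S W B id ∧ Emb T W C id ∧
      Cl W ↑(B ∪ C) B ∧ Cl W ↑(B ∪ C) C := by
  obtain ⟨H1, m1⟩ := exists_mark S s1 fun X a b => c1.le a b
  obtain ⟨H2, m2⟩ := exists_mark T s2 fun X a b => c2.le a b
  have h : AmH (fun i => cond i S T) (fun i => cond i B C) A (fun i => cond i H1 H2) :=
    ⟨fun i => by cases i <;> assumption, fun i => by cases i <;> assumption,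
      fun i x => by cases i; exacts [fun a b => hi x b a, hi x],
      fun i c t a => by cases i; exacts [(ag.rel c t a).2, (ag.rel c t a).1],
      fun i => by cases i <;> assumption, fun i => by cases i <;> assumption⟩
  exact ⟨_, h.good_am, h.emb true, h.emb false, h.clB true, h.clB false⟩

theorem good_bot (U : Set α) : Good (fun _ _ => False) U := by
  refine ⟨fun X _ => ?_, fun _ _ _ _ _ _ => False.elim, fun _ _ _ _ => False.elim⟩
  have : dl (fun _ _ => False) X = (3 * X.card : ℕ) := by simp [dl, ed, E]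
  rw [this, Int.toNat_natCast]
  exact Nat.lt_two_pow_self.trans_le (Nat.pow_le_pow_right (by norm_num) (by omega))

/-- finite conditions -/
def Cn := {s : Finset ℕ × St ℕ // Good s.2 s.1}

instance : Preorder Cn where
  le s t := s.1.1 ⊆ t.1.1 ∧ Emb s.1.2 t.1.2 s.1.1 id ∧ Cl t.1.2 t.1.1 s.1.1
  le_refl s := ⟨Subset.rfl, ⟨Set.injOn_id _, fun _ _ _ => Iff.rfl⟩, Cl.refl _ _⟩
  le_trans s t u a b := ⟨a.1.trans b.1, a.2.1.comp b.2.1 a.1,
    ((b.2.1.cl_id a.1).1 a.2.2).trans b.2.2 a.1 b.1⟩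

theorem cover (s : Cn) (X : Finset ℕ) : ∃ t : Cn, s ≤ t ∧ X ⊆ t.1.1 := by
  obtain ⟨W, a, b, -, c, -⟩ := amalg (A := ∅) (C := X \ s.1.1) s.2 (good_bot _) (empty_subset _)
    (empty_subset _) (fun x a b => ((mem_sdiff.1 b).2 a).elim)
    ⟨Set.injOn_id _, fun _ t a => by simpa using a 0⟩ s.2.cl_empty (good_bot _).cl_empty
  exact ⟨⟨(_, W), a⟩, ⟨subset_union_left, b, c⟩, by
    show X ⊆ s.1.1 ∪ X \ s.1.1
    rw [union_sdiff_self_eq_union]; exact subset_union_right⟩

def Task (S : St ℕ) (U : Set ℕ) (T : St ℕ) (A B : Finset ℕ) (f : ℕ → ℕ) : Prop :=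
  A ⊆ B → Good T B → Cl T B A → Emb T S A f → Cl S U (A.image f) →
    ∃ g, Set.EqOn g f A ∧ Emb T S B g ∧ ↑(B.image g) ⊆ U ∧ Cl S U (B.image g)

theorem dense (s : Cn) (T : St ℕ) (A B : Finset ℕ) (f : ℕ → ℕ) :
    ∃ t : Cn, s ≤ t ∧ A.image f ⊆ t.1.1 ∧ Task t.1.2 t.1.1 T A B f := by
  obtain ⟨t, st, ht⟩ := cover s (A.image f)
  by_cases k : Task t.1.2 t.1.1 T A B f
  · exact ⟨t, st, ht, k⟩
  simp only [Task, Classical.not_imp] at k
  obtain ⟨a, b, c, d, e, -⟩ := k
  obtain ⟨N, hN⟩ := t.1.1.bddAbove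
  let g : ℕ → ℕ := fun x => if x ∈ A then f x else x + N + 1
  have g1 : Set.EqOn g f A := fun x hx => if_pos hx
  have g2 : ∀ x, x ∉ A → g x ∉ t.1.1 := fun x hx m => by
    have := hN m
    simp only [g, if_neg hx] at this
    omega
  have g3 : Set.InjOn g B := fun x _ y _ m => by
    by_cases hx : x ∈ A <;> by_cases hy : y ∈ A
    · exact d.inj hx hy (by rw [← g1 hx, ← g1 hy, m])
    · exact (g2 y hy (by rw [← m, g1 hx]; exact ht (mem_image_of_mem _ hx))).elim
    · exact (g2 x hx (by rw [m, g1 hy]; exact ht (mem_image_of_mem _ hy))).elim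
    · simp only [g, if_neg hx, if_neg hy] at m; omega
  have g4 : A.image g = A.image f := image_congr g1
  obtain ⟨T', hT⟩ := emb_comap T g3
  obtain ⟨W, w1, w2, w3, w4, w5⟩ := amalg (A := A.image f) t.2 (hT.good b) ht
    (g4 ▸ image_subset_image a) (fun x m n => by
      obtain ⟨y, -, rfl⟩ := mem_image.1 n
      have hy : y ∈ A := by_contra fun hy => g2 y hy m
      exact g4 ▸ mem_image_of_mem _ hy)
    ⟨Set.injOn_id _, fun c t m => by
      choose r r1 r2 using fun j => mem_image.1 (m j)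
      obtain rfl : t = f ∘ r := funext fun j => (r2 j).symm
      rw [← d.rel c r r1, hT.rel c r fun j => a (r1 j),
        show g ∘ r = f ∘ r from funext fun j => g1 (r1 j)]
      rfl⟩ e (g4 ▸ (hT.cl a).1 c)
  refine ⟨⟨(_, W), w1⟩, le_trans st ⟨subset_union_left, w2, w4⟩, ht.trans subset_union_left,
    fun _ _ _ _ _ => ⟨g, g1, hT.comp w3 fun x hx => mem_image_of_mem _ hx,
      coe_subset.2 subset_union_right, w5⟩⟩

theorem exists_generic : ∃ M : St ℕ, Good M Set.univ ∧ ∀ T A B f, Task M Set.univ T A B f := by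
  classical
  let I := Finset ℕ × Finset ℕ × Finset (Fin 3 × (Fin 5 → ℕ)) × (ℕ →₀ ℕ)
  let D : I → Order.Cofinal Cn := fun i => ⟨{t | i.1.image i.2.2.2 ⊆ t.1.1 ∧
    Task t.1.2 t.1.1 (fun c t => (c, t) ∈ i.2.2.1) i.1 i.2.1 i.2.2.2}, fun s => by
      obtain ⟨t, a, b⟩ := dense s (fun c t => (c, t) ∈ i.2.2.1) i.1 i.2.1 i.2.2.2
      exact ⟨t, b, a⟩⟩
  cases nonempty_encodable I
  let s0 : Cn := ⟨(∅, fun _ _ => False), good_bot _⟩
  let q := Order.sequenceOfCofinals s0 D
  have qm : Monotone q := Order.sequenceOfCofinals.monotone s0 D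
  have qd : ∀ i, ∃ n, q n ∈ D i := fun i => ⟨_, Order.sequenceOfCofinals.encode_mem s0 D i⟩
  have all : ∀ (X : Finset ℕ) n, ∃ m, n ≤ m ∧ X ⊆ (q m).1.1 := fun X n => by
    obtain ⟨m, a, -⟩ := qd (X, ∅, ∅, Finsupp.onFinset X (fun x => if x ∈ X then x else 0)
      fun x => by split_ifs <;> simp [*])
    refine ⟨max n m, le_max_left _ _, fun x hx => (qm (le_max_right n m)).1 (a ?_)⟩
    exact mem_image.2 ⟨x, hx, by simp [hx]⟩
  let M : St ℕ := fun c t => ∃ n, (∀ j, t j ∈ (q n).1.1) ∧ (q n).1.2 c t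
  have em : ∀ n, Emb (q n).1.2 M (q n).1.1 id := fun n =>
    ⟨Set.injOn_id _, fun c t a => ⟨fun k => ⟨n, a, k⟩, fun ⟨m, b, k⟩ => by
      rcases le_total n m with l | l
      exacts [((qm l).2.1.rel c t a).2 k, ((qm l).2.1.rel c t b).1 k]⟩⟩
  have cl : ∀ n, Cl M Set.univ (q n).1.1 := fun n X a _ c => by
    obtain ⟨m, l, b⟩ := all X n
    exact ((em m).cl_id (qm l).1).1 (qm l).2.2 X a b c
  have gd : ∀ X : Finset ℕ, Good M X := fun X => by
    obtain ⟨m, -, b⟩ := all X 0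
    exact Good.mono (U := ↑(q m).1.1) (by simpa using (em m).good (q m).2) b
  refine ⟨M, ⟨fun X _ => (gd X).sz X Set.Subset.rfl, fun x _ p _ r _ =>
    (gd {x, p, r}).cov x (by simp) p (by simp) r (by simp), fun x _ t _ =>
    (gd (insert x (univ.image t))).ind x (by simp) t (by simp)⟩, fun T A B f a b c d e => ?_⟩
  let f' := Finsupp.onFinset A (fun x => if x ∈ A then f x else 0)
    fun x => by split_ifs <;> simp [*]
  have f1 : Set.EqOn f f' A := fun x hx => by simp [f', mem_coe.1 hx]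
  have f2 : A.image f' = A.image f := image_congr f1.symm
  let W := (univ ×ˢ Fintype.piFinset fun _ => B).filter fun z : Fin 3 × (Fin 5 → ℕ) => T z.1 z.2
  have hW : Emb T (fun c t => (c, t) ∈ W) B id :=
    ⟨Set.injOn_id _, fun c t m => by simpa [W] using fun _ => m⟩
  obtain ⟨n, n1, n2⟩ := qd (A, B, W, f')
  have n1' : A.image f ⊆ (q n).1.1 := f2 ▸ n1
  obtain ⟨g, g1, g2, g3, g4⟩ := n2 a (by simpa using hW.good b) ((hW.cl_id a).1 c)
    ((((hW.symm_id.mono a).comp d (Set.mapsTo_id _)).comp (em n).symm_id fun x hx =>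
      n1' (mem_image_of_mem _ hx)).congr f1)
    (f2 ▸ ((em n).cl_id n1').2 (e.mono (Set.subset_univ _)))
  refine ⟨g, g1.trans f1.symm, (hW.comp g2 (Set.mapsTo_id _)).comp (em n) fun x hx =>
    g3 (mem_image_of_mem _ hx), Set.subset_univ _, ?_⟩
  exact (((em n).cl_id g3).1 g4).trans (cl n) g3 (Set.subset_univ _)

end Pool.Agent.H62.Ex
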