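import Pool.Agent.H62.Ex2
import Pool.Agent.H89.WO1

/-! Homogeneity, oligomorphy and the star. -/

set_option autoImplicit false
set_option linter.unusedSectionVars false

namespace Pool.Agent.H62.Ex

open Finset Function

noncomputable def M : St ℕ := exists_generic.choose

theorem Mg : Good M Set.univ := exists_generic.choose_spec.1

theorem Mx {T : St ℕ} {A B : Finset ℕ} {f : ℕ → ℕ} (a : A ⊆ B) (b : Good T B) (c : Cl T B A)
    (d : Emb T M A f) (e : Cl M Set.univ (A.image f)) :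
    ∃ g, Set.EqOn g f A ∧ Emb T M B g ∧ Cl M Set.univ (B.image g) := by
  obtain ⟨g, g1, g2, -, g3⟩ := exists_generic.choose_spec.2 T A B f a b c d e
  exact ⟨g, g1, g2, g3⟩

theorem closure (X : Finset ℕ) : ∃ Y, X ⊆ Y ∧ Cl M Set.univ Y ∧ dl M Y ≤ dl M X := by
  induction h : 2 ^ (dl M X).toNat - X.card using Nat.strong_induction_on generalizing X with
  | _ n ih =>
  by_cases k : Cl M Set.univ X
  · exact ⟨X, Subset.rfl, k, le_rfl⟩
  simp only [Cl, not_forall] at k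
  obtain ⟨Z, a, -, b, c⟩ := k
  have e1 := card_lt_card (Finset.ssubset_iff_subset_ne.2 ⟨a, fun e => c (e ▸ Subset.rfl)⟩)
  have e2 := Mg.sz Z (Set.subset_univ _)
  have e3 : 2 ^ (dl M Z).toNat ≤ 2 ^ (dl M X).toNat :=
    Nat.pow_le_pow_right (by norm_num) (by omega)
  obtain ⟨Y, y1, y2, y3⟩ := ih _ (by omega) Z rfl
  exact ⟨Y, a.trans y1, y2, y3.trans b⟩

def G : Subgroup (Equiv.Perm ℕ) where
  carrier := {g | ∀ c t, M c t ↔ M c (g ∘ t)}
  mul_mem' := fun {a b} ha hb c y => (hb c y).trans (ha c _)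
  one_mem' := fun _ _ => Iff.rfl
  inv_mem' := fun {a} ha c y => by
    rw [ha c (⇑a⁻¹ ∘ y), show a ∘ ⇑a⁻¹ ∘ y = y from funext fun j => by simp]

theorem G_emb {g : Equiv.Perm ℕ} (hg : g ∈ G) : Emb M M Set.univ g :=
  ⟨g.injective.injOn, fun c t _ => hg c t⟩

theorem G_cl {g : Equiv.Perm ℕ} (hg : g ∈ G) {A : Finset ℕ} (h : Cl M Set.univ A) :
    Cl M Set.univ (A.image g) := fun X a _ c => by
  obtain ⟨Y, rfl⟩ : ∃ Y : Finset ℕ, X = Y.image g :=
    ⟨X.image g.symm, by simp [image_image]⟩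
  rw [(G_emb hg).dl (Set.subset_univ _), (G_emb hg).dl (Set.subset_univ _)] at c
  exact image_subset_image (h Y ((image_subset_image_iff g.injective).1 a) (Set.subset_univ _) c)

def Pat {ι : Type} (p q : ι → ℕ) : Prop :=
  (∀ i j, p i = p j ↔ q i = q j) ∧ ∀ c (t : Fin 5 → ι), M c (p ∘ t) ↔ M c (q ∘ t)

def CR {ι : Type} (p : ι → ℕ) : Prop := ∃ A : Finset ℕ, ↑A = Set.range p ∧ Cl M Set.univ A

theorem Pat.symm {ι : Type} {p q : ι → ℕ} (h : Pat p q) : Pat q p :=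
  ⟨fun i j => (h.1 i j).symm, fun c t => (h.2 c t).symm⟩

theorem pat_of {B : Finset ℕ} {g : ℕ → ℕ} (h : Emb M M B g) (b : Cl M Set.univ B)
    (c : Cl M Set.univ (B.image g)) : Pat (fun y : B => y.1) (fun y => g y.1) ∧
      CR (fun y : B => y.1) ∧ CR (fun y : B => g y.1) :=
  ⟨⟨fun i j => ⟨congrArg g, h.inj i.2 j.2⟩, fun c t => h.rel c _ fun j => (t j).2⟩,
    ⟨B, by ext; simp, b⟩, ⟨_, by ext; simp, c⟩⟩

theorem step {ι : Type} {p q : ι → ℕ} (h : Pat p q) (a : CR p) (b : CR q) (x : ℕ) :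
    ∃ (B : Finset ℕ) (g : ℕ → ℕ), x ∈ B ∧ (∀ k, p k ∈ B ∧ g (p k) = q k) ∧
      Pat (fun y : B => y.1) (fun y => g y.1) ∧
      CR (fun y : B => y.1) ∧ CR (fun y : B => g y.1) := by
  classical
  obtain ⟨A, a1, a2⟩ := a
  obtain ⟨A', b1, b2⟩ := b
  obtain ⟨B, c1, c2, -⟩ := closure (insert x A)
  have f1 : ∀ k, extend p q id (p k) = q k := fun k =>
    FactorsThrough.extend_apply (fun i j e => (h.1 i j).1 e) _ _
  have m : ∀ y ∈ (A : Set ℕ), ∃ k, p k = y := fun y hy => by rwa [a1] at hy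
  have f2 : A.image (extend p q id) = A' := coe_injective (by
    rw [coe_image, a1, b1, ← Set.range_comp]
    exact congrArg _ (funext f1))
  have sA : A ⊆ B := (subset_insert _ _).trans c1
  obtain ⟨g, g1, g2, g3⟩ := Mx (f := extend p q id) sA (Mg.mono (Set.subset_univ _))
    (a2.mono (Set.subset_univ _)) ⟨fun y hy z hz e => by
      obtain ⟨i, rfl⟩ := m y hy
      obtain ⟨j, rfl⟩ := m z hz
      rw [f1, f1] at e
      exact (h.1 i j).2 e, fun c t k => by
      choose r hr using fun j => m _ (k j)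
      obtain rfl : t = p ∘ r := funext fun j => (hr j).symm
      rw [h.2, show extend p q id ∘ p ∘ r = q ∘ r from funext fun j => f1 _]⟩ (f2 ▸ b2)
  have n : ∀ k, p k ∈ (A : Set ℕ) := fun k => a1 ▸ ⟨k, rfl⟩
  exact ⟨B, g, c1 (mem_insert_self _ _), fun k => ⟨sA (n k), (g1 (n k)).trans (f1 k)⟩,
    pat_of g2 c2 g3⟩

theorem hom {ι : Type} [Finite ι] {p q : ι → ℕ} (h : Pat p q) (a : CR p) (b : CR q) :
    ∃ g ∈ G, g ∘ p = q := by
  obtain ⟨e, e1, e2⟩ := Pool.Agent.H89.WO.bf (A := ℕ) (B := ℕ)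
    (fun ι r => ∃ (κ : Type) (p q : κ → ℕ), Pat p q ∧ CR p ∧ CR q ∧ ∀ i, ∃ k, r i = (p k, q k))
    (fun ι κ r ⟨l, p, q, a, b, c, d⟩ f => ⟨l, p, q, a, b, c, fun i => d _⟩)
    (fun ι _ r ⟨l, p, q, a, b, c, d⟩ x => by
      obtain ⟨B, g, g1, g2, g3, g4, g5⟩ := step a b c x
      refine ⟨g x, B, _, _, g3, g4, g5, fun o => ?_⟩
      rcases o with _ | i
      · exact ⟨⟨x, g1⟩, rfl⟩
      · obtain ⟨k, hk⟩ := d i
        exact ⟨⟨p k, (g2 k).1⟩, hk.trans (by simp [(g2 k).2])⟩)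
    (fun ι _ r ⟨l, p, q, a, b, c, d⟩ x => by
      obtain ⟨B, g, g1, g2, g3, g4, g5⟩ := step a.symm c b x
      refine ⟨g x, B, _, _, g3.symm, g5, g4, fun o => ?_⟩
      rcases o with _ | i
      · exact ⟨⟨x, g1⟩, rfl⟩
      · obtain ⟨k, hk⟩ := d i
        exact ⟨⟨q k, (g2 k).1⟩, hk.trans (by simp [(g2 k).2])⟩)
    (fun ι r ⟨l, p, q, a, b, c, d⟩ i j => by
      obtain ⟨k, hk⟩ := d i
      obtain ⟨k', hk'⟩ := d j
      rw [hk, hk']; exact a.1 k k')
    ι (fun i => (p i, q i)) ⟨ι, p, q, h, a, b, fun i => ⟨i, rfl⟩⟩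
  refine ⟨e, fun c t => ?_, funext e1⟩
  obtain ⟨l, p, q, a, -, -, d⟩ := e2 (Fin 5) t
  choose k hk using d
  rw [show (e : Equiv.Perm ℕ) ∘ t = q ∘ k from funext fun j => congrArg Prod.snd (hk j),
    show t = p ∘ k from funext fun j => congrArg Prod.fst (hk j)]
  exact a.2 c k

theorem homE {B : Finset ℕ} {g : ℕ → ℕ} (h : Emb M M B g) (b : Cl M Set.univ B)
    (c : Cl M Set.univ (B.image g)) : ∃ σ ∈ G, ∀ x ∈ B, σ x = g x := by
  obtain ⟨a1, a2, a3⟩ := pat_of h b c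
  obtain ⟨σ, s1, s2⟩ := hom a1 a2 a3
  exact ⟨σ, s1, fun x hx => congrFun s2 ⟨x, hx⟩⟩

theorem oligo (ι : Type) [Finite ι] : ∃ (κ : Type) (_ : Finite κ) (τ : (ι → ℕ) → κ),
    ∀ x y, τ x = τ y → ∃ g ∈ G, g ∘ x = y := by
  classical
  cases nonempty_fintype ι
  let K := 2 ^ (3 * (Fintype.card ι + 1))
  have : ∀ x : ι → ℕ, ∃ en : Fin K → ℕ, CR (Sum.elim x en) := fun x => by
    obtain ⟨B, b1, b2, b3⟩ := closure (insert 0 (univ.image x))
    have c1 : (insert 0 (univ.image x)).card ≤ Fintype.card ι + 1 :=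
      (card_insert_le _ _).trans (by simpa using card_image_le (s := univ) (f := x))
    have c2 := dl_le M (insert 0 (univ.image x))
    have c3 := Mg.sz B (Set.subset_univ _)
    have c4 : 2 ^ (dl M B).toNat ≤ K := Nat.pow_le_pow_right (by norm_num) (by omega)
    obtain ⟨j⟩ := Embedding.nonempty_of_card_le (α := B) (β := Fin K) (by simp; omega)
    have : Nonempty B := ⟨⟨0, b1 (mem_insert_self _ _)⟩⟩
    refine ⟨fun k => (invFun j k).1, B, ?_, b2⟩
    rw [Set.Sum.elim_range]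
    refine Set.Subset.antisymm (fun y hy => Or.inr ⟨j ⟨y, hy⟩, ?_⟩) ?_
    · simp [leftInverse_invFun j.injective _]
    · rintro _ (⟨i, rfl⟩ | ⟨k, rfl⟩)
      exacts [b1 (mem_insert_of_mem (mem_image_of_mem _ (mem_univ i))), (invFun j k).2]
  choose en hen using this
  refine ⟨((ι ⊕ Fin K) → (ι ⊕ Fin K) → Prop) × (Fin 3 → (Fin 5 → ι ⊕ Fin K) → Prop), inferInstance,
    fun x => (fun i j => Sum.elim x (en x) i = Sum.elim x (en x) j,
      fun c t => M c (Sum.elim x (en x) ∘ t)), fun x y e => ?_⟩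
  obtain ⟨g, g1, g2⟩ := hom ⟨fun i j => iff_of_eq (congrFun (congrFun (congrArg Prod.fst e) i) j),
    fun c t => iff_of_eq (congrFun (congrFun (congrArg Prod.snd e) c) t)⟩ (hen x) (hen y)
  exact ⟨g, g1, funext fun i => congrFun g2 (Sum.inl i)⟩

def star : St ℕ := fun c t => (c = 0 → ¬(t 0 = 0 ↔ t 1 = 0)) ∧
  (c = 1 → (t 2 = 0 ∧ t 1 ≠ 0 ∧ t 1 ≠ t 0) ∨ (t 1 = 0 ∧ t 2 = t 0 ∧ t 0 ≠ 0))

theorem star_E (p q : ℕ) : E star p q ↔ ¬(p = 0 ↔ q = 0) := by simp [E, star, tE]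

theorem star_R (x p q : ℕ) :
    R star x p q ↔ (q = 0 ∧ p ≠ 0 ∧ p ≠ x) ∨ (p = 0 ∧ q = x ∧ x ≠ 0) := by simp [R, star, tR]

theorem star_dl {X : Finset ℕ} (h : 0 ∈ X) : dl star X = X.card + 2 := by
  have e : ed star X = ({0} ×ˢ X.erase 0) ∪ (X.erase 0 ×ˢ {0}) := by
    ext ⟨p, q⟩
    simp only [mem_ed, star_E, mem_union, mem_product, mem_singleton, mem_erase]
    grind
  have d : Disjoint ({0} ×ˢ X.erase 0) (X.erase 0 ×ˢ {0}) := by
    rw [disjoint_left]; rintro ⟨p, q⟩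
    simp only [mem_product, mem_singleton, mem_erase]
    grind
  have := card_erase_add_one h
  simp only [dl, e, card_union_of_disjoint d, card_product, card_singleton]
  omega

theorem star_good : Good star Set.univ := by
  refine ⟨fun X _ => ?_, fun x _ p _ q _ => ?_, fun x _ t _ _ d e => ?_⟩
  · refine Nat.lt_two_pow_self.trans_le (Nat.pow_le_pow_right (by norm_num) ?_)
    by_cases h : 0 ∈ X
    · rw [star_dl h]; omega
    · have e : ed star X = ∅ := by
        ext ⟨p, q⟩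
        simp only [mem_ed, star_E, notMem_empty]
        grind
      simp only [dl, e, card_empty]; omega
  · simp only [star_E, star_R]; grind
  · have a := (star_R _ _ _).1 (e 0)
    have b := (star_R _ _ _).1 (e 1)
    have : (0 : Fin 4) = 1 := d (by grind)
    simp at this

theorem star_cl {A : Finset ℕ} (h : 0 ∈ A) : Cl star Set.univ A := fun X a _ c => by
  rw [star_dl h, star_dl (a h)] at c
  exact (eq_of_subset_of_card_le a (by omega)).ge

theorem exists_star : ∃ h : ℕ → ℕ, Emb star M Set.univ h ∧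
    ∀ X : Finset ℕ, 0 ∈ X → Cl M Set.univ (X.image h) := by
  let P := fun n => {g // Emb star M (range n) g ∧ Cl M Set.univ ((range n).image g)}
  have st : ∀ n (g : P n), ∃ g' : P (n + 1), Set.EqOn g'.1 g.1 (range n) := fun n g => by
    obtain ⟨g', a, b⟩ := Mx (B := range (n + 1)) (range_subset_range.2 n.le_succ)
      (star_good.mono (Set.subset_univ _)) (by
        rcases n with _ | n
        exacts [(star_good.mono (Set.subset_univ _)).cl_empty,
          (star_cl (by simp)).mono (Set.subset_univ _)]) g.2.1 g.2.2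
    exact ⟨⟨g', b⟩, a⟩
  choose F hF using st
  let s : ∀ n, P n := fun n => Nat.rec ⟨id, ⟨by simp, fun c t a => by simpa using a 0⟩,
    Mg.cl_empty⟩ F n
  have e : ∀ n, Set.EqOn (s n).1 (fun x => (s (x + 1)).1 x) (range n) := fun n => by
    induction n with
    | zero => simp
    | succ n ih =>
      intro x hx
      rcases Nat.lt_succ_iff_lt_or_eq.1 (mem_range.1 hx) with l | rfl
      exacts [(hF n (s n) (mem_range.2 l)).trans (ih (mem_range.2 l)), rfl]
  have em : ∀ n, Emb star M (range n) fun x => (s (x + 1)).1 x := fun n => (s n).2.1.congr (e n)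
  have big : ∀ X : Finset ℕ, ∃ n, X ⊆ range n := fun X => X.exists_nat_subset_range
  refine ⟨fun x => (s (x + 1)).1 x, ⟨fun x _ y _ => ?_, fun c t _ => ?_⟩, fun X h => ?_⟩
  · obtain ⟨n, hn⟩ := big {x, y}
    exact fun k => (em n).inj (hn (by simp)) (hn (by simp)) k
  · obtain ⟨n, hn⟩ := big (univ.image t)
    exact (em n).rel c t fun j => hn (by simp)
  · obtain ⟨n, hn⟩ := big X
    refine (((em n).cl hn).1 ((star_cl h).mono (Set.subset_univ _))).trans ?_
      (image_subset_image hn) (Set.subset_univ _)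
    rw [← image_congr (e n)]
    exact (s n).2.2

theorem star_facts : ∃ h : ℕ → ℕ, E M (h 0) (h 1) ∧ M 2 (fun j => h j) ∧ Injective h ∧
    (∃ g ∈ G, g (h 0) = h 1 ∧ g (h 1) = h 0) ∧
    ∀ n (i j : Fin n → ℕ), Injective i → Injective j →
      ∃ g ∈ G, g (h 0) = h 0 ∧ ∀ k, g (h (i k + 1)) = h (j k + 1) := by
  obtain ⟨h, h1, h2⟩ := exists_star
  have hi : Injective h := Set.injOn_univ.1 h1.inj
  have key : ∀ (ι : Type) [Fintype ι] (p q : ι → ℕ), (∃ i, p i = 0) → (∃ i, q i = 0) →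
      (∀ i j, p i = p j ↔ q i = q j) → (∀ c (t : Fin 5 → ι), star c (p ∘ t) ↔ star c (q ∘ t)) →
      ∃ g ∈ G, g ∘ h ∘ p = h ∘ q := fun ι _ p q a b c d =>
    hom ⟨fun i j => by simp [hi.eq_iff, c], fun c t =>
      (h1.rel c (p ∘ t) (by simp)).symm.trans ((d c t).trans (h1.rel c (q ∘ t) (by simp)))⟩
      ⟨_, by simp [Set.range_comp], h2 (univ.image p) (by simpa using a)⟩
      ⟨_, by simp [Set.range_comp], h2 (univ.image q) (by simpa using b)⟩
  refine ⟨h, (h1.e trivial trivial).1 (by simp [star_E]),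
    (h1.rel 2 (fun j => j) (by simp)).1 (by simp [star]), hi, ?_, fun n i j a b => ?_⟩
  · obtain ⟨g, g1, g2⟩ := key Bool (fun i => cond i 0 1) (fun i => cond i 1 0) ⟨true, rfl⟩
      ⟨false, rfl⟩ (by decide) fun c t => by
        simp only [star, comp]
        cases t 0 <;> cases t 1 <;> cases t 2 <;> simp
    exact ⟨g, g1, congrFun g2 true, congrFun g2 false⟩
  · have k0 : ∀ o : Option (Fin n), o.elim 0 (fun k => i k + 1) = 0 ↔
        o.elim 0 (fun k => j k + 1) = 0 := fun o => by cases o <;> simp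
    have k1 : ∀ o o' : Option (Fin n), o.elim 0 (fun k => i k + 1) = o'.elim 0 (fun k => i k + 1) ↔
        o.elim 0 (fun k => j k + 1) = o'.elim 0 (fun k => j k + 1) := fun o o' => by
      cases o <;> cases o' <;> simp [a.eq_iff, b.eq_iff]
    obtain ⟨g, g1, g2⟩ := key (Option (Fin n)) (fun o => o.elim 0 fun k => i k + 1)
      (fun o => o.elim 0 fun k => j k + 1) ⟨none, rfl⟩ ⟨none, rfl⟩ k1 fun c t => by
        simp only [star, comp, ne_eq, k0, k1]
    exact ⟨g, g1, congrFun g2 none, fun k => congrFun g2 (some k)⟩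

end Pool.Agent.H62.Ex
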