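import Pool.Agent.H62.Ex3

/-! No invariant strict order has an infinite chain. -/

set_option autoImplicit false
set_option linter.unusedSectionVars false

namespace Pool.Agent.H62.Ex

open Finset Function

theorem core {C a a1 : Finset ℕ} (γ : Bool → Equiv.Perm ℕ) (hγ : ∀ i, γ i ∈ G)
    (hC : Cl M Set.univ C) (ha : Cl M Set.univ a) (ha1 : Cl M Set.univ a1) (s1 : C ⊆ a)
    (s2 : C ⊆ a1) (fx : ∀ i, ∀ x ∈ C, γ i x = x)
    (ind : ∀ i Z, a.image (γ i) ⊆ Z → a1 ⊆ Z → dl M a + dl M a1 ≤ dl M Z + dl M C) :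
    ∃ (σ : Bool → Equiv.Perm ℕ) (ρ : Equiv.Perm ℕ), (∀ i, σ i ∈ G) ∧ ρ ∈ G ∧
      (∀ i, ∀ x ∈ a1, σ i x = x) ∧ ∀ i, ∀ x ∈ a, ρ (σ i (γ i x)) = σ (!i) (γ (!i) x) := by
  classical
  have su := @Set.subset_univ ℕ
  let Y : Bool → Finset ℕ := fun i => a.image (γ i)
  have Yc : ∀ i, Cl M Set.univ (Y i) := fun i => G_cl (hγ i) ha
  have Yd : ∀ i, dl M (Y i) = dl M a := fun i => (G_emb (hγ i)).dl (su _)
  have Ci : ∀ i, C.image (γ i) = C := fun i => (image_congr (fx i)).trans image_id'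
  have CY : ∀ i, C ⊆ Y i := fun i => Ci i ▸ image_subset_image s1
  have YA : ∀ i, Y i ∩ a1 = C := fun i => by
    have e1 := submod M (Y i) a1
    have e2 := ind i (Y i ∪ a1) subset_union_left subset_union_right
    have e3 := Yd i
    exact Subset.antisymm (hC _ (subset_inter (CY i) s2) (su _) (by omega))
      (subset_inter (CY i) s2)
  choose B B1 B2 _ using fun i => closure (Y i ∪ a1)
  have YB : ∀ i, Y i ⊆ B i := fun i => subset_union_left.trans (B1 i)
  have AB : ∀ i, a1 ⊆ B i := fun i => subset_union_right.trans (B1 i)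
  choose H0 hH0 using fun i => exists_mark M (B1 i) fun X b _ => by
    have e1 := submod M (Y i) a1
    have e2 := ind i X (subset_union_left.trans b) (subset_union_right.trans b)
    have e3 := Yd i
    rw [YA] at e1
    omega
  obtain ⟨π, hπ⟩ := exists_mark M s1 fun X b _ => hC.le b (su _)
  have hπ' : ∀ i, Mark M (Y i) C (push (γ i) π) := fun i =>
    Ci i ▸ ((G_emb (hγ i)).mono (su _)).mark s1 hπ
  let Hm : Bool → ℕ → ℕ → Prop := fun i p q => H0 i p q ∨ push (γ i) π p q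
  have hHm : ∀ i, Mark M (B i) a1 (Hm i) := fun i => by
    refine ⟨fun p hp q hq e => ?_, fun p q e => ?_, fun p u hu k => ?_⟩
    · rcases (hH0 i).cov p hp q hq e with m | m | m
      · rcases nocross M (Y i) a1 (by
          have e2 := ind i (Y i ∪ a1) subset_union_left subset_union_right
          rw [YA, Yd]; exact e2) p q m.1 m.2 e with n | n
        · exact ((hπ' i).cov p n.1 q n.2 e).imp (fun l => ⟨s2 l.1, s2 l.2⟩)
            (Or.imp Or.inr Or.inr)
        · exact Or.inl n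
      exacts [Or.inr (Or.inl (Or.inl m)), Or.inr (Or.inr (Or.inl m))]
    · rcases e with e | e
      · obtain ⟨e1, e2, e3⟩ := (hH0 i).mem p q e
        exact ⟨e1, fun k => e2 (mem_union_right _ k), e3⟩
      · obtain ⟨e1, e2, e3⟩ := (hπ' i).mem p q e
        exact ⟨YB i e1, fun k => e2 (YA i ▸ mem_inter.2 ⟨e1, k⟩), YB i e3⟩
    · by_cases hp : p ∈ Y i
      · exact (hπ' i).few p u hu fun j => (k j).resolve_left fun l =>
          ((hH0 i).mem _ _ l).2.1 (mem_union_left _ hp)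
      · exact (hH0 i).few p u hu fun j => (k j).resolve_right fun l => hp ((hπ' i).mem _ _ l).1
  obtain ⟨N, hN⟩ := a1.bddAbove
  let f : Bool → ℕ → ℕ := fun i x => if x ∈ a1 then x else N + 2 * x + cond i 1 2
  have f1 : ∀ i, ∀ x ∈ a1, f i x = x := fun i x hx => if_pos hx
  have f2 : ∀ i j x y, f i x = f j y → x = y ∧ (i = j ∨ x ∈ a1) := fun i j x y e => by
    have n1 := @hN x
    have n2 := @hN y
    simp only [f, mem_coe] at e n1 n2
    by_cases hx : x ∈ a1 <;> by_cases hy : y ∈ a1 <;> simp only [hx, hy, if_true, if_false] at e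
    · exact ⟨e, Or.inr hx⟩
    · have := n1 hx; cases j <;> simp at e <;> omega
    · have := n2 hy; cases i <;> simp at e <;> omega
    · cases i <;> cases j <;> simp at e ⊢ <;> omega
  have f3 : ∀ i, Injective (f i) := fun i x y e => (f2 i i x y e).1
  have f4 : ∀ i, a1.image (f i) = a1 := fun i => (image_congr (f1 i)).trans image_id'
  choose S hS using fun i => emb_comap M (U := Set.univ) (f3 i).injOn
  let B' : Bool → Finset ℕ := fun i => (B i).image (f i)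
  have ag : ∀ i c (t : Fin 5 → ℕ), (∀ j, t j ∈ a1) → (M c t ↔ S i c t) := fun i c t k => by
    rw [(hS i).rel c t (by simp), show f i ∘ t = t from funext fun j => f1 i _ (k j)]
  have h : AmH S B' a1 fun i => push (f i) (Hm i) :=
    ⟨fun i => ((hS i).mono (su _)).good (Mg.mono (su _)),
      fun i => f4 i ▸ image_subset_image (AB i), fun i x m n => by
        obtain ⟨y, -, rfl⟩ := mem_image.1 m
        obtain ⟨z, -, e⟩ := mem_image.1 n
        obtain ⟨rfl, e'⟩ := f2 _ _ _ _ e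
        have := e'.resolve_left (by cases i <;> simp)
        rwa [f1 i _ this],
      fun i c t k l => (ag _ c t k).1 ((ag i c t k).2 l),
      fun i => f4 i ▸ (((hS i).mono (su _)).cl (AB i)).1 (ha1.mono (su _)),
      fun i => f4 i ▸ ((hS i).mono (su _)).mark (AB i) (hHm i)⟩
  let u := am S B' fun i => push (f i) (Hm i)
  let V := B' true ∪ B' false
  have eu : ∀ i, Emb M u (B i) (f i) := fun i =>
    ((hS i).mono (su _)).comp (h.emb i) fun x hx => mem_image_of_mem _ hx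
  have eA : Emb M u a1 id := ((eu true).mono (AB true)).congr (f1 true)
  obtain ⟨g, g1, g2, g3⟩ := Mx (f := id) ((h.sub true).trans (sub_both B' true)) h.good_am
    ((h.clA true).trans (h.clB true) (h.sub true) (coe_subset.2 (sub_both B' true))) eA.symm_id
    (by simpa using ha1)
  have tc : ∀ X, X ⊆ V → Cl u V X → Cl M Set.univ (X.image g) := fun X b c =>
    ((g2.cl b).1 c).trans g3 (image_subset_image b) (su _)
  choose σ σ1 σ2 using fun i => homE ((eu i).comp g2 fun x hx => sub_both B' i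
    (mem_image_of_mem _ hx)) (B2 i) (image_image (g := g) ▸ tc _ (sub_both B' i) (h.clB i))
  let φ : Bool → ℕ → ℕ := fun i x => f i (γ i x)
  have γY : ∀ i, ∀ x ∈ a, γ i x ∈ Y i := fun i x hx => mem_image_of_mem _ hx
  have φB : ∀ i, ∀ x ∈ a, φ i x ∈ B' i := fun i x hx => mem_image_of_mem _ (YB i (γY i x hx))
  have φC : ∀ i, ∀ x ∈ C, φ i x = x := fun i x hx => by
    simp only [φ]; rw [fx i x hx, f1 i x (s2 hx)]
  have φe : ∀ i j x, i = j ∨ x ∈ C → φ i x = φ j x := by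
    rintro i j x (rfl | k)
    exacts [rfl, by rw [φC _ _ k, φC _ _ k]]
  have γC : ∀ i, ∀ x ∈ a, γ i x ∈ a1 → x ∈ C := fun i x hx k => by
    have : γ i x ∈ C := YA i ▸ mem_inter.2 ⟨γY i x hx, k⟩
    rwa [(γ i).injective (fx i _ this)] at this
  have φm : ∀ i j, ∀ x ∈ a, φ j x ∈ B' i ↔ (j = i ∨ x ∈ C) := fun i j x hx =>
    ⟨fun k => by
      obtain ⟨y, -, e⟩ := mem_image.1 k
      obtain ⟨rfl, e'⟩ := f2 _ _ _ _ e
      exact e'.imp Eq.symm (γC j x hx), fun k => φe _ _ _ k ▸ φB i x hx⟩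
  have φi : ∀ i j, ∀ x ∈ a, ∀ y ∈ a, φ i x = φ j y ↔ x = y ∧ (i = j ∨ x ∈ C) :=
    fun i j x hx y hy => ⟨fun e => by
      have k := (φm j i x hx).1 (e ▸ φB j y hy)
      rw [φe _ _ _ k] at e
      exact ⟨(γ j).injective (f3 j e), k⟩, by rintro ⟨rfl, k⟩; exact φe _ _ _ k⟩
  have φH : ∀ i j l, ∀ x ∈ a, ∀ y ∈ a, push (f i) (Hm i) (φ j x) (φ l y) ↔
      (j = i ∨ x ∈ C) ∧ (l = i ∨ y ∈ C) ∧ π x y := fun i j l x hx y hy =>
    ⟨fun k => by
      obtain ⟨k1, -, k2⟩ := (h.mark i).mem _ _ k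
      have k1' := (φm _ _ _ hx).1 k1
      have k2' := (φm _ _ _ hy).1 k2
      rw [φe _ _ _ k1', φe _ _ _ k2'] at k
      obtain ⟨x', y', m, e1, e2⟩ := k
      obtain rfl := f3 i e1
      obtain rfl := f3 i e2
      obtain ⟨x', y', m', e3, e4⟩ := m.resolve_left fun l =>
        ((hH0 i).mem _ _ l).2.1 (mem_union_left _ (γY i x hx))
      obtain rfl := (γ i).injective e3
      obtain rfl := (γ i).injective e4
      exact ⟨k1', k2', m'⟩, fun ⟨k1, k2, k⟩ => by
      rw [φe _ _ _ k1, φe _ _ _ k2]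
      exact ⟨_, _, Or.inr ⟨x, y, k, rfl, rfl⟩, rfl, rfl⟩⟩
  have φu : ∀ c (s : Fin 5 → Bool) (x : Fin 5 → ℕ), (∀ j, x j ∈ a) →
      (u c (fun j => φ (s j) (x j)) ↔ ∃ i, ((∀ j, s j = i ∨ x j ∈ C) ∧ M c x) ∨ (c = 1 ∧
        ¬(s 0 = i ∨ x 0 ∈ C) ∧ (s 1 = i ∨ x 1 ∈ C) ∧ (s 2 = i ∨ x 2 ∈ C) ∧ π (x 1) (x 2))) :=
    fun c s x hx => exists_congr fun i => or_congr (by
      simp only [φm _ _ _ (hx _)]
      refine and_congr_right fun k => ?_
      rw [show (fun j => φ (s j) (x j)) = f i ∘ γ i ∘ x from funext fun j => φe _ _ _ (k j),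
        ← (hS i).rel c _ (by simp)]
      exact (hγ i c x).symm) (by simp only [φm _ _ _ (hx _), φH _ _ _ _ (hx _) _ (hx _)])
  have φV : ∀ i, ∀ x ∈ a, φ i x ∈ V := fun i x hx => sub_both B' i (φB i x hx)
  let Y' : Bool → Finset ℕ := fun i => (Y i).image (f i)
  have cl : Cl u V (Y' true ∪ Y' false) := fun X b c d => by
    have d1 : ∀ i, dl u (Y' i) = dl M a := fun i => ((eu i).dl (YB i)).trans (Yd i)
    have d2 : dl u C = dl M C := eA.dl_id s2
    have d3 : Y' true ∩ Y' false = C := by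
      ext z
      simp only [mem_inter, Y', Y, image_image, mem_image, comp]
      constructor
      · rintro ⟨⟨x, hx, rfl⟩, y, hy, e⟩
        obtain ⟨rfl, k⟩ := (φi _ _ _ hy _ hx).1 e
        have k' := k.resolve_left (by simp)
        exact (congrArg (· ∈ C) (φC true _ k')).mpr k'
      · exact fun k => ⟨⟨z, s1 k, φC _ _ k⟩, z, s1 k, φC _ _ k⟩
    have d4 := submod u (Y' true) (Y' false)
    rw [d3, d1, d1, d2] at d4
    have d5 : ∀ i, ∃ Z ⊆ B i, Z.image (f i) = X ∩ B' i := fun i =>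
      subset_image_iff.1 inter_subset_right
    choose Z Z1 Z2 using d5
    have d6 : ∀ i, Y i ⊆ Z i := fun i => (eu i).sub (YB i) (Z1 i) (by
      rw [Z2]
      exact subset_inter ((sub_both Y' i).trans b) (image_subset_image (YB i)))
    have d7 : ∀ i, Z i ∩ a1 = X ∩ a1 := fun i => by
      ext z
      simp only [mem_inter]
      refine and_congr_left fun k => ⟨fun m => ?_, fun m => ?_⟩
      · have := mem_image_of_mem (f i) m
        rw [Z2, f1 i z k] at this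
        exact (mem_inter.1 this).1
      · obtain ⟨y, hy, e⟩ := mem_image.1 (Z2 i ▸ mem_inter.2 ⟨m, h.sub i k⟩)
        rwa [← f3 i (e.trans (f1 i z k).symm)]
    have d8 : ∀ i, dl u (X ∩ B' i) = dl M (Z i) := fun i => Z2 i ▸ (eu i).dl (Z1 i)
    have d9 : dl u (X ∩ a1) = dl M (X ∩ a1) := eA.dl_id (by simp)
    have d10 : ∀ i, dl M a + dl M (X ∩ a1) ≤ dl M (Z i) + dl M C := fun i => by
      have e1 := submod M (Z i) a1
      have e2 := ind i (Z i ∪ a1) ((d6 i).trans subset_union_left) subset_union_right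
      rw [d7] at e1
      omega
    have d11 : ∀ i, Z i ⊆ Y i := fun i => Yc i _ (d6 i) (su _) (by
      have e1 := h.dl_eq i (coe_subset.1 c)
      have e2 := d10 (!i)
      change dl u X + dl u _ = dl u _ + dl u _ at e1
      rw [d8, d8, d9] at e1
      rw [Yd]
      omega)
    intro x hx
    obtain ⟨i, hi⟩ : ∃ i, x ∈ B' i := (mem_union.1 (c hx)).elim (⟨_, ·⟩) (⟨_, ·⟩)
    exact sub_both Y' i (image_subset_image (d11 i) (Z2 i ▸ mem_inter.2 ⟨hx, hi⟩))
  have cr : ∀ s : Bool → Bool, Surjective s → CR fun z : Bool × a => g (φ (s z.1) z.2) :=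
    fun s hs => ⟨_, by
      ext w
      simp only [coe_image, coe_union, Set.mem_image, Set.mem_union, Set.mem_range, Y,
        mem_coe]
      constructor
      · rintro ⟨_, ⟨_, ⟨x, hx, rfl⟩, rfl⟩ | ⟨_, ⟨x, hx, rfl⟩, rfl⟩, rfl⟩
        · obtain ⟨i, hi⟩ := hs true
          exact ⟨(i, ⟨x, hx⟩), by simp only [hi, φ]⟩
        · obtain ⟨i, hi⟩ := hs false
          exact ⟨(i, ⟨x, hx⟩), by simp only [hi, φ]⟩
      · rintro ⟨⟨i, x, hx⟩, rfl⟩
        refine ⟨_, ?_, rfl⟩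
        cases s i
        exacts [Or.inr ⟨_, ⟨x, hx, rfl⟩, rfl⟩, Or.inl ⟨_, ⟨x, hx, rfl⟩, rfl⟩],
      tc _ (union_subset_union (image_subset_image (YB _)) (image_subset_image (YB _))) cl⟩
  obtain ⟨ρ, r1, r2⟩ := hom (p := fun z : Bool × a => g (φ z.1 z.2))
    (q := fun z : Bool × a => g (φ (!z.1) z.2)) ⟨fun z w => by
      rw [g2.inj.eq_iff (φV _ _ z.2.2) (φV _ _ w.2.2), g2.inj.eq_iff (φV _ _ z.2.2) (φV _ _ w.2.2),
        φi _ _ _ z.2.2 _ w.2.2, φi _ _ _ z.2.2 _ w.2.2, Bool.not_inj_iff], fun c t => by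
      refine (g2.rel c (fun j => φ (t j).1 (t j).2) fun j => φV _ _ (t j).2.2).symm.trans
        (Iff.trans ?_ (g2.rel c (fun j => φ (!(t j).1) (t j).2) fun j => φV _ _ (t j).2.2))
      refine (φu c _ _ fun j => (t j).2.2).trans (Iff.trans ?_ (φu c _ _ fun j => (t j).2.2).symm)
      refine ⟨fun ⟨i, k⟩ => ⟨!i, by simpa only [Bool.not_inj_iff] using k⟩,
        fun ⟨i, k⟩ => ⟨!i, by simpa only [Bool.not_eq_eq_eq_not] using k⟩⟩⟩
    (cr id surjective_id) (cr not Bool.involutive_not.surjective)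
  refine ⟨σ, ρ, σ1, r1, fun i x hx => ?_, fun i x hx => ?_⟩
  · rw [σ2 i x (AB i hx), comp_apply, f1 i x hx]; exact g1 hx
  · rw [σ2 _ _ (YB _ (γY _ x hx)), σ2 _ _ (YB _ (γY _ x hx))]
    exact congrFun r2 (i, ⟨x, hx⟩)

theorem nochain {k : ℕ} (lt : (Fin k → ℕ) → (Fin k → ℕ) → Prop)
    (inv : ∀ g ∈ G, ∀ x y, lt x y → lt (g ∘ x) (g ∘ y))
    (tr : ∀ x y z, lt x y → lt y z → lt x z) (irr : ∀ x, ¬lt x x) (b : ℕ → Fin k → ℕ)
    (hb : ∀ i, lt (b i) (b (i + 1))) : False := by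
  classical
  have su := @Set.subset_univ ℕ
  have hb' : ∀ i j, i < j → lt (b i) (b j) := fun i j l => by
    induction l with
    | refl => exact hb i
    | step _ ih => exact tr _ _ _ ih (hb _)
  let P : ℕ → Prop := fun m => ∃ C, Cl M Set.univ C ∧
    {j | ∃ Z, C ⊆ Z ∧ (∀ l, b j l ∈ Z) ∧ dl M Z ≤ dl M C + m}.Infinite
  have P0 : ∃ m, P m := ⟨3 * k, ∅, Mg.cl_empty, by
    convert Set.infinite_univ (α := ℕ)
    refine Set.eq_univ_of_forall fun j => ⟨univ.image (b j), empty_subset _, by simp, ?_⟩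
    have e1 := dl_le M (univ.image (b j))
    have e2 : (univ.image (b j)).card ≤ k := by simpa using card_image_le (s := univ) (f := b j)
    rw [dl_empty]; push_cast; omega⟩
  obtain ⟨C, hC, hJ⟩ := Nat.find_spec P0
  generalize hm : Nat.find P0 = m at hJ
  have far : ∀ D, Cl M Set.univ D → ∃ n, ∀ j, n < j → ∀ Z, D ⊆ Z → (∀ l, b j l ∈ Z) →
      dl M D + m ≤ dl M Z := fun D hD => by
    rcases m with _ | m
    · exact ⟨0, fun j _ Z z1 _ => by simpa using hD.le z1 (su _)⟩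
    have := Nat.find_min P0 (m := m) (by omega)
    simp only [P, not_exists, not_and, Set.not_infinite] at this
    obtain ⟨n, hn⟩ := (this D hD).bddAbove
    refine ⟨n, fun j l Z z1 z2 => by_contra fun z3 => ?_⟩
    have := hn ⟨Z, z1, z2, by push_cast at z3; omega⟩
    omega
  obtain ⟨κ, _, τ, hτ⟩ := oligo (C ⊕ Fin k)
  obtain ⟨w, hw⟩ : ∃ w, {j | (∃ Z, C ⊆ Z ∧ (∀ l, b j l ∈ Z) ∧ dl M Z ≤ dl M C + m) ∧
      τ (Sum.elim Subtype.val (b j)) = w}.Infinite := by
    by_contra n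
    simp only [not_exists, Set.not_infinite] at n
    exact hJ ((Set.finite_iUnion n).subset fun j hj => Set.mem_iUnion.2 ⟨_, hj, rfl⟩)
  have cls : ∀ j, (∃ Z, C ⊆ Z ∧ (∀ l, b j l ∈ Z) ∧ dl M Z ≤ dl M C + m) →
      ∃ Z, Cl M Set.univ Z ∧ C ⊆ Z ∧ (∀ l, b j l ∈ Z) ∧ dl M Z ≤ dl M C + m :=
    fun j ⟨Z, z1, z2, z3⟩ => by
      obtain ⟨Y, y1, y2, y3⟩ := closure Z
      exact ⟨Y, y2, z1.trans y1, fun l => y1 (z2 l), y3.trans z3⟩
  obtain ⟨j0, p0, q0⟩ := hw.nonempty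
  obtain ⟨a, a1, a2, a3, a4⟩ := cls j0 p0
  obtain ⟨n0, hn0⟩ := far a a1
  obtain ⟨j1, ⟨p1, -⟩, l1⟩ := hw.exists_gt (max j0 n0)
  obtain ⟨c, c1, c2, c3, c4⟩ := cls j1 p1
  obtain ⟨n1, hn1⟩ := far c c1
  obtain ⟨j2, ⟨-, q2⟩, l2⟩ := hw.exists_gt (max j1 n1)
  obtain ⟨g, g1, g2⟩ := hτ _ _ (q0.trans q2.symm)
  have g3 : g ∘ b j0 = b j2 := funext fun l => congrFun g2 (Sum.inr l)
  obtain ⟨σ, ρ, s1, s2, s3, s4⟩ := core (fun i => cond i g 1)
    (fun i => by cases i; exacts [G.one_mem, g1]) hC a1 c1 a2 c2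
    (fun i x hx => by cases i; exacts [rfl, congrFun g2 (Sum.inl ⟨x, hx⟩)]) fun i Z z1 z2 => by
      cases i
      · have := hn0 j1 (by omega) Z (by simpa using z1) fun l => z2 (c3 l)
        omega
      · have := hn1 j2 (by omega) Z z2 fun l => z1 (g3 ▸ mem_image_of_mem _ (a3 l))
        omega
  have e : ∀ i, σ i ∘ b j1 = b j1 := fun i => funext fun l => s3 i _ (c3 l)
  have t1 := inv _ (s1 false) _ _ (hb' j0 j1 (by omega))
  have t2 := inv _ (s1 true) _ _ (hb' j1 j2 (by omega))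
  rw [e] at t1 t2
  have t3 := tr _ _ _ t1 t2
  have t4 := inv _ s2 _ _ t3
  rw [show ρ ∘ σ false ∘ b j0 = σ true ∘ b j2 from g3 ▸ funext fun l => s4 false _ (a3 l),
    show ρ ∘ σ true ∘ b j2 = σ false ∘ b j0 from g3 ▸ funext fun l => s4 true _ (a3 l)] at t4
  exact irr _ (tr _ _ _ t3 t4)

end Pool.Agent.H62.Ex
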