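import Pool.Agent.H62.Ex4

/-! The canonical language of the generic structure. -/

set_option autoImplicit false

namespace Pool.Agent.H62.Ex

open FirstOrder FirstOrder.Language Cardinal Set

def Inv {ι : Type} (S : (ι → ℕ) → Prop) : Prop := ∀ g ∈ G, ∀ x, S x → S (g ∘ x)

def L0 : FirstOrder.Language.{0, 0} :=
  ⟨fun _ => Empty, fun n => {S : (Fin n → ℕ) → Prop // Inv S}⟩

instance : L0.Structure ℕ where
  funMap f := Empty.elim f
  RelMap r v := r.1 v

instance : L0.IsRelational := fun _ => inferInstanceAs (IsEmpty Empty)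

theorem card0 : L0.card ≤ aleph0 := by
  have : ∀ n, Finite (L0.Relations n) := fun n => by
    obtain ⟨κ, _, σ, h⟩ := oligo (Fin n)
    have k : ∀ S T : L0.Relations n, σ '' {x | S.1 x} = σ '' {x | T.1 x} → ∀ x, S.1 x → T.1 x :=
      fun S T e x hx => by
        obtain ⟨y, hy, e⟩ := e ▸ mem_image_of_mem σ (show x ∈ {x | S.1 x} from hx)
        obtain ⟨g, g1, g2⟩ := h _ _ e
        exact g2 ▸ T.2 g g1 y hy
    exact Finite.of_injective (fun S : L0.Relations n => σ '' {x | S.1 x}) fun S T e =>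
      Subtype.ext (funext fun x => propext ⟨k S T e x, k T S e.symm x⟩)
  exact mk_le_aleph0_iff.2 (inferInstanceAs
    (Countable ((Σ l, L0.Functions l) ⊕ Σ l, L0.Relations l)))

def aut (g : Equiv.Perm ℕ) (hg : g ∈ G) : ℕ ≃[L0] ℕ where
  toEquiv := g
  map_fun' f := Empty.elim f
  map_rel' r x := ⟨fun h => by
    have := r.2 g⁻¹ (G.inv_mem hg) _ h
    rwa [show ⇑g⁻¹ ∘ g.toFun ∘ x = x from funext fun i => g.symm_apply_apply _] at this,
    r.2 g hg x⟩

theorem real_inv {ι : Type} (φ : L0.Formula ι) {g : Equiv.Perm ℕ} (hg : g ∈ G) (x : ι → ℕ) :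
    φ.Realize (g ∘ x) ↔ φ.Realize x := StrongHomClass.realize_formula (aut g hg) φ

theorem defn {ι : Type} [Finite ι] (Q : (ι → ℕ) → Prop) (h : Inv Q) :
    ∃ ω : L0.Formula ι, ∀ x, ω.Realize x ↔ Q x := by
  obtain ⟨n, ⟨f⟩⟩ := Finite.exists_equiv_fin ι
  let r : L0.Relations n := ⟨fun x => Q (x ∘ f), fun g hg x => h g hg _⟩
  refine ⟨r.formula fun i => Term.var (f.symm i), fun x => Formula.realize_rel.trans ?_⟩
  show Q _ ↔ _
  exact iff_of_eq (congrArg Q (funext fun i => by simp))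

theorem cat0 : Categorical aleph0.{0} (L0.completeTheory ℕ) := by
  refine Pool.Agent.H89.WO.cat ℕ fun ι _ => ?_
  obtain ⟨κ, _, σ, h⟩ := oligo ι
  choose ω hω using fun k : κ => defn (fun x => ∃ y, σ y = k ∧ ∃ g ∈ G, g ∘ y = x) (by
    rintro g hg _ ⟨y, h1, g', h2, rfl⟩
    exact ⟨y, h1, g * g', G.mul_mem hg h2, rfl⟩)
  refine ⟨κ, inferInstance, ω, fun x => ⟨σ x, (hω _ _).2 ⟨x, rfl, 1, G.one_mem, rfl⟩⟩,
    fun k x y hx hy => ?_⟩
  obtain ⟨a, a1, g, g1, rfl⟩ := (hω _ _).1 hx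
  obtain ⟨b, b1, g', g1', rfl⟩ := (hω _ _).1 hy
  obtain ⟨l, l1, rfl⟩ := h a b (a1.trans b1.symm)
  exact ⟨aut (g' * l * g⁻¹) (G.mul_mem (G.mul_mem g1' l1) (G.inv_mem g1)), funext fun i => by
    change g' (l (g.symm (g (a i)))) = _
    rw [g.symm_apply_apply]; rfl⟩

theorem emb0 (N : (L0.completeTheory ℕ).ModelType.{0, 0, 0}) {ι : Type} [Countable ι]
    (v : ι → N) : ∃ (f : ℕ ↪ₑ[L0] N) (w : ι → ℕ), f ∘ w = v := by
  have : Infinite N := (model_infiniteTheory_iff L0).1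
    (N.is_model.mono (Theory.completeTheory.subset (T := L0.infiniteTheory)))
  obtain ⟨S, h1, h2⟩ := exists_elementarySubstructure_card_eq L0 (range v) aleph0.{0} le_rfl
    (by simpa using (countable_range v).le_aleph0) (by simpa using card0)
    (by simpa using infinite_iff.1 this)
  simp only [lift_id] at h2
  have : Nonempty S := by
    have := infinite_iff.2 h2.ge
    infer_instance
  obtain ⟨e⟩ := cat0 (Theory.ModelType.of _ ℕ) (Theory.ModelType.of _ S) mk_nat h2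
  let e' : ℕ ≃[L0] S := e
  exact ⟨S.subtype.comp e'.toElementaryEmbedding, fun i => e'.symm ⟨v i, h1 ⟨i, rfl⟩⟩,
    funext fun i => congrArg Subtype.val (e'.apply_symm_apply _)⟩

end Pool.Agent.H62.Ex
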