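import Mathlib

set_option autoImplicit false

namespace Pool.Agent.H62.FalseTheta

open PowerSeries
open scoped PowerSeries.WithPiTopology

/-- `Psi a` is the false theta function `Ψ(-q^a, q)`: the sum over `n ≥ 0` of
`(-q^a)^C(n+1,2) q^C(n,2)` minus the sum over `n = -m-1 ≤ -1`, where `C(n+1,2) = C(m+1,2)` and
`C(n,2) = C(m+2,2)`. -/
noncomputable def Psi (a : ℕ) : PowerSeries ℤ :=
  (∑' n : ℕ, (-(X : PowerSeries ℤ) ^ a) ^ ((n + 1).choose 2) * X ^ (n.choose 2)) -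
    ∑' m : ℕ, (-(X : PowerSeries ℤ) ^ a) ^ ((m + 1).choose 2) * X ^ ((m + 2).choose 2)

/-- The Euler product `(q;q)_∞`. -/
noncomputable def qPoch : PowerSeries ℤ := ∏' k : ℕ, (1 - (X : PowerSeries ℤ) ^ (k + 1))

/-- `c a n` is the coefficient of `q^n` in `1 / Ψ(-q^a, q)`. -/
noncomputable def c (a n : ℕ) : ℤ := coeff n (invOfUnit (Psi a) 1)

/-- `b n` is the coefficient of `q^n` in `(q;q)_∞ / Ψ(-q^2, q)`. -/
noncomputable def b (n : ℕ) : ℤ := coeff n (qPoch * invOfUnit (Psi 2) 1)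

end Pool.Agent.H62.FalseTheta
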