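import Mathlib
import Pool.Agent.H62.FalseThetaDefs

set_option autoImplicit false

namespace Pool.Agent.H62.FalseTheta

open PowerSeries Finset
open scoped PowerSeries.WithPiTopology

/-- triangular numbers -/
def T (n : ℕ) : ℕ := (n + 1).choose 2

lemma T_succ (n : ℕ) : T (n + 1) = T n + (n + 1) := by
  unfold T; rw [Nat.choose_succ_succ' (n + 1) 1]; simp [add_comm]

lemma T_zero : T 0 = 0 := rfl

lemma two_T (n : ℕ) : 2 * T n = n * (n + 1) := by
  induction n with
  | zero => rfl
  | succ n ih => rw [T_succ]; nlinarith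

lemma choose_eq (n : ℕ) : n.choose 2 + n = T n := by
  unfold T; rw [Nat.choose_succ_succ' n 1]; simp [add_comm]

def e1 (a n : ℕ) : ℕ := a * T n + n.choose 2
def e2 (a n : ℕ) : ℕ := a * T n + T (n + 1)
def w (n : ℕ) : ℤ := (-1) ^ T n

lemma e1_mono {a : ℕ} (ha : 1 ≤ a) : StrictMono (e1 a) := by
  apply strictMono_nat_of_lt_succ
  intro n
  unfold e1
  have h1 := choose_eq n
  have h2 : (n + 1).choose 2 = T n := rfl
  rw [T_succ, h2]; nlinarith

lemma e2_mono (a : ℕ) : StrictMono (e2 a) := by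
  apply strictMono_nat_of_lt_succ
  intro n
  unfold e2
  rw [T_succ (n + 1), T_succ n]; nlinarith

/-- coefficients of a lacunary series -/
noncomputable def G (e : ℕ → ℕ) : ℕ → ℤ := Function.extend e w 0

lemma G_app {e : ℕ → ℕ} (he : StrictMono e) (n : ℕ) : G e (e n) = w n :=
  he.injective.extend_apply _ _ _

lemma G_not {e : ℕ → ℕ} {N : ℕ} (h : N ∉ Set.range e) : G e N = 0 :=
  Function.extend_apply' _ _ _ h

lemma G_abs {e : ℕ → ℕ} (he : StrictMono e) (N : ℕ) : |G e N| ≤ 1 := by
  by_cases h : N ∈ Set.range e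
  · obtain ⟨n, rfl⟩ := h
    rw [G_app he]; simp [w]
  · rw [G_not h]; simp

lemma hasSum_G {e : ℕ → ℕ} (he : StrictMono e) :
    HasSum (fun n => (C (w n) * X ^ e n : PowerSeries ℤ)) (mk (G e)) := by
  suffices HasSum ((fun N => (C (G e N) * X ^ N : PowerSeries ℤ)) ∘ e) (mk (G e)) by
    convert this using 2 with n
    simp [G_app he]
  rw [he.injective.hasSum_iff fun n hn => by simp [G_not hn]]
  simpa [monomial_eq_C_mul_X_pow] using (mk (G e)).hasSum_of_monomials_self

lemma coeff_Psi {a : ℕ} (ha : 1 ≤ a) (N : ℕ) : coeff N (Psi a) = G (e1 a) N - G (e2 a) N := by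
  have h1 := (hasSum_G (e1_mono ha)).tsum_eq
  have h2 := (hasSum_G (e2_mono a)).tsum_eq
  have k : ∀ n m : ℕ, (-(X : PowerSeries ℤ) ^ a) ^ ((n + 1).choose 2) * X ^ m =
      C (w n) * X ^ (a * T n + m) := by
    intro n m
    rw [neg_pow, pow_add, pow_mul]
    simp [w, T, mul_assoc]
  unfold Psi
  simp_rw [k]
  rw [show (∑' n : ℕ, (C (w n) * X ^ (a * T n + n.choose 2) : PowerSeries ℤ)) = _ from h1,
    show (∑' n : ℕ, (C (w n) * X ^ (a * T n + (n + 2).choose 2) : PowerSeries ℤ)) = _ from h2]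
  simp

lemma G_small {e : ℕ → ℕ} (he : StrictMono e) (N : ℕ) :
    G e N = ∑ n ∈ range (N + 1), if e n = N then w n else 0 := by
  by_cases h : N ∈ Set.range e
  · obtain ⟨n, rfl⟩ := h
    rw [G_app he, sum_eq_single n]
    · simp
    · intro m _ hm
      rw [if_neg fun h => hm (he.injective h)]
    · intro hn
      exact absurd (mem_range.mpr (Nat.lt_succ_of_le (he.id_le n))) hn
  · rw [G_not h]
    exact (sum_eq_zero fun n _ => if_neg fun hn => h ⟨n, hn⟩).symm

lemma Psi_zero {a : ℕ} (ha : 1 ≤ a) : constantCoeff (Psi a) = 1 := by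
  rw [← coeff_zero_eq_constantCoeff_apply, coeff_Psi ha, G_small (e1_mono ha), G_small (e2_mono a)]
  simp [e1, e2, T, w]

lemma Psi_mul {a : ℕ} (ha : 1 ≤ a) : Psi a * invOfUnit (Psi a) 1 = 1 :=
  mul_invOfUnit _ _ (by rw [Psi_zero ha]; rfl)

/-! ### the case a = 2 -/

lemma psi2_small : ∀ N < 15, coeff N (Psi 2) =
    [1, -1, -1, 0, 0, 1, 0, -1, 0, 0, 0, 0, 1, 0, 0].getD N 0 := by
  intro N hN
  rw [coeff_Psi (by norm_num), G_small (e1_mono (by norm_num)), G_small (e2_mono 2)]
  revert N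
  decide

lemma psi2_abs (N : ℕ) : |coeff N (Psi 2)| ≤ 1 := by
  rw [coeff_Psi (by norm_num)]
  by_cases h : N ∈ Set.range (e1 2)
  · have : N ∉ Set.range (e2 2) := by
      obtain ⟨n, rfl⟩ := h
      rintro ⟨m, hm⟩
      unfold e1 e2 at hm
      have h1 := choose_eq n
      have h2 := two_T n
      have h3 := two_T m
      rw [T_succ] at hm
      have h4 : 3 * m ^ 2 + 5 * m + 2 = 3 * n ^ 2 + n := by nlinarith
      rcases le_or_gt n m with h5 | h5 <;> nlinarith
    rw [G_not this, sub_zero]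
    exact G_abs (e1_mono (by norm_num)) N
  · rw [G_not h, zero_sub, abs_neg]
    exact G_abs (e2_mono 2) N

lemma qPoch_eq : qPoch = pentagonalSeries ℤ := WithPiTopology.tprod_one_sub_X_pow ℤ

lemma E_abs (N : ℕ) : |coeff N qPoch| ≤ 1 := by
  rw [qPoch_eq]
  by_cases h : N ∈ Set.range pentagonal
  · obtain ⟨k, rfl⟩ := h
    rw [coeff_pentagonalSeries_pentagonal]
    rcases Int.units_eq_one_or k.negOnePow with h | h <;> simp [h]
  · rw [coeff_pentagonalSeries_eq_zero _ h]; simp

lemma E_small : ∀ N < 15, coeff N qPoch =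
    [1, -1, -1, 0, 0, 1, 0, 1, 0, 0, 0, 0, -1, 0, 0].getD N 0 := by
  intro N hN
  rw [qPoch_eq]
  by_cases h : N ∈ Set.range pentagonal
  · obtain ⟨k, rfl⟩ := h
    rw [coeff_pentagonalSeries_pentagonal]
    have h2 := two_mul_natCast_pentagonal k
    have h3 : -3 < k := by nlinarith
    have h4 : k < 4 := by nlinarith
    rw [pentagonal_def]
    interval_cases k <;> decide
  · rw [coeff_pentagonalSeries_eq_zero _ h]
    have : ∀ k : ℤ, N ≠ (k * (3 * k - 1) / 2).toNat := fun k e => h ⟨k, by rw [pentagonal_def, e]⟩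
    have a0 := this 0
    have a1 := this 1
    have a2 := this (-1)
    have a3 := this 2
    have a4 := this (-2)
    have a5 := this 3
    norm_num at a0 a1 a2 a3 a4 a5
    interval_cases N <;> simp_all

/-- shifted reciprocal -/
noncomputable def g (n : ℕ) : ℤ := coeff n (X ^ 16 * invOfUnit (Psi 2) 1)

lemma g_lt {n : ℕ} (h : n < 16) : g n = 0 := by
  unfold g; rw [coeff_X_pow_mul', if_neg (by omega)]

lemma conv (F : PowerSeries ℤ) (m : ℕ) :
    coeff (m + 15) (F * (X ^ 16 * invOfUnit (Psi 2) 1)) =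
      ∑ k ∈ range 15, coeff k F * g (m + 15 - k) +
        ∑ j ∈ range (m + 1), coeff (15 + j) F * g (m - j) := by
  rw [coeff_mul, Nat.sum_antidiagonal_eq_sum_range_succ_mk, show (m + 15).succ = 15 + (m + 1) by omega,
    sum_range_add]
  congr 1
  refine sum_congr rfl fun j _ => ?_
  simp only [g]
  rw [show m + 15 - (15 + j) = m - j by omega]

lemma tail_bd (F : PowerSeries ℤ) (K : ℤ) (hF : ∀ N, |coeff N F| ≤ K) (m : ℕ)
    (h0 : ∀ j ≤ m, 0 ≤ g j) :
    |∑ j ∈ range (m + 1), coeff (15 + j) F * g (m - j)| ≤ K * ∑ j ∈ range (m + 1), g j := by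
  rw [← sum_range_reflect g, mul_sum]
  refine (abs_sum_le_sum_abs _ _).trans (sum_le_sum fun j _ => ?_)
  rw [abs_mul, show m + 1 - 1 - j = m - j by omega, abs_of_nonneg (h0 _ (by omega))]
  exact mul_le_mul_of_nonneg_right (hF _) (h0 _ (by omega))

lemma sum_bd (m : ℕ) (h : ∀ j ≤ m, 2 * g (j + 1) + g j ≤ 2 * g (j + 2)) :
    ∑ j ∈ range (m + 1), g j ≤ 2 * g (m + 2) := by
  induction m with
  | zero => simp [g_lt]
  | succ m ih =>
    rw [sum_range_succ]
    have h1 := ih fun j hj => h j (by omega)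
    have h2 := h (m + 1) le_rfl
    linarith

lemma g_sixteen : g 16 = 1 := by
  unfold g
  rw [coeff_X_pow_mul', if_pos le_rfl]
  simp

lemma g_rec (n : ℕ) : 0 ≤ g n ∧ 2 * g (n + 1) + g n ≤ 2 * g (n + 2) := by
  induction n using Nat.strong_induction_on with
  | _ n ih =>
    by_cases h14 : n < 14
    · rw [g_lt (by omega), g_lt (by omega), g_lt (by omega)]; simp
    by_cases h15 : n = 14
    · subst h15; rw [g_lt (by omega), g_lt (by omega), g_sixteen]; simp
    obtain ⟨m, rfl⟩ : ∃ m, n = m + 13 := ⟨n - 13, by omega⟩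
    have hc := conv (Psi 2) m
    rw [mul_left_comm, Psi_mul (by norm_num), mul_one, coeff_X_pow, if_neg (by omega)] at hc
    have ht := tail_bd (Psi 2) 1 psi2_abs m fun j hj => (ih j (by omega)).1
    have hs := sum_bd m fun j hj => (ih j (by omega)).2
    rw [sum_congr rfl fun k hk => by rw [psi2_small k (mem_range.mp hk)]] at hc
    simp only [sum_range_succ, sum_range_zero] at hc
    norm_num at hc
    have i2 := ih (m + 2) (by omega)
    have i3 := ih (m + 3) (by omega)
    have i4 := ih (m + 4) (by omega)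
    have i5 := ih (m + 5) (by omega)
    have i6 := ih (m + 6) (by omega)
    have i9 := ih (m + 9) (by omega)
    have i10 := ih (m + 10) (by omega)
    have i11 := ih (m + 11) (by omega)
    have i12 := ih (m + 12) (by omega)
    have i1 := ih (m + 1) (by omega)
    have := abs_le.mp ht
    simp only [sum_range_succ] at this hs
    simp only [add_assoc] at *
    norm_num at *
    rw [show m + 15 - 2 = m + 13 by omega, show m + 15 - 5 = m + 10 by omega,
      show m + 15 - 7 = m + 8 by omega, show m + 15 - 12 = m + 3 by omega] at hc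
    constructor <;> linarith

lemma g_pos (n : ℕ) : 1 ≤ g (n + 16) := by
  induction n with
  | zero => exact g_sixteen.ge
  | succ n ih =>
    have := g_rec (n + 15)
    simp only [add_assoc] at *
    norm_num at *
    linarith

theorem b_pos (n : ℕ) (hn : 7 ≤ n) : 0 < b n := by
  obtain ⟨m, rfl⟩ : ∃ m, n = m + 7 := ⟨n - 7, by omega⟩
  have hb : b (m + 7) = coeff (m + 8 + 15) ((qPoch - Psi 2) * (X ^ 16 * invOfUnit (Psi 2) 1)) := by
    rw [sub_mul, mul_left_comm (Psi 2), Psi_mul (by norm_num), mul_one, map_sub, coeff_X_pow,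
      if_neg (by omega), sub_zero, mul_left_comm, show m + 8 + 15 = m + 7 + 16 by ring,
      coeff_X_pow_mul]
    rfl
  rw [hb, conv]
  have ht := tail_bd (qPoch - Psi 2) 2 (fun N => by
    rw [map_sub]
    exact (abs_sub _ _).trans (by linarith [E_abs N, psi2_abs N])) (m + 8) fun j _ => (g_rec j).1
  have hs := sum_bd (m + 8) fun j _ => (g_rec j).2
  rw [sum_congr rfl fun k hk => by
    rw [map_sub, psi2_small k (mem_range.mp hk), E_small k (mem_range.mp hk)]]
  have := (abs_le.mp ht).1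
  generalize ∑ j ∈ range (m + 8 + 1), coeff (15 + j) (qPoch - Psi 2) * g (m + 8 - j) = A at *
  generalize ∑ j ∈ range (m + 8 + 1), g j = B at *
  simp only [sum_range_succ, sum_range_zero]
  norm_num
  have i9 := g_rec (m + 9)
  have i10 := g_rec (m + 10)
  have i11 := g_rec (m + 11)
  have i12 := g_rec (m + 12)
  have i13 := g_rec (m + 13)
  have i14 := g_rec (m + 14)
  have hp := g_pos m
  simp only [add_assoc] at *
  norm_num at *
  rw [show m + 23 - 7 = m + 16 by omega, show m + 23 - 12 = m + 11 by omega]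
  by_cases h0 : g (m + 11) = 0
  · linarith
  · have : 1 ≤ g (m + 11) := by omega
    linarith

end Pool.Agent.H62.FalseTheta
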