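import Mathlib
import Pool.Agent.H62.FalseTheta

set_option autoImplicit false

namespace Pool.Agent.H62.FalseTheta

open PowerSeries Finset

lemma psi_abs {a : ℕ} (ha : 1 ≤ a) (N : ℕ) : |((coeff N (Psi a) : ℤ) : ℝ)| ≤ 2 := by
  have : |coeff N (Psi a)| ≤ 2 := by
    rw [coeff_Psi ha]
    exact (abs_sub _ _).trans (by linarith [G_abs (e1_mono ha) N, G_abs (e2_mono a) N])
  exact_mod_cast this

lemma summable_G {e : ℕ → ℕ} (he : StrictMono e) {x : ℝ} (h0 : 0 ≤ x) (h1 : x < 1) :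
    Summable fun N => (G e N : ℝ) * x ^ N := by
  refine Summable.of_norm_bounded (summable_geometric_of_lt_one h0 h1) fun N => ?_
  rw [norm_mul, Real.norm_eq_abs, Real.norm_eq_abs, abs_of_nonneg (pow_nonneg h0 N)]
  have : |(G e N : ℝ)| ≤ 1 := by exact_mod_cast G_abs he N
  exact mul_le_of_le_one_left (pow_nonneg h0 N) this

lemma hasSum_G_real {e : ℕ → ℕ} (he : StrictMono e) {x : ℝ} (h0 : 0 ≤ x) (h1 : x < 1) :
    HasSum (fun n => (w n : ℝ) * x ^ e n) (∑' N, (G e N : ℝ) * x ^ N) := by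
  have h := (summable_G he h0 h1).hasSum
  rw [← he.injective.hasSum_iff fun n hn => by simp [G_not hn]] at h
  convert h using 2 with n
  simp [G_app he]

/-- the real function -/
noncomputable def F (a : ℕ) (x : ℝ) : ℝ := ∑' N, ((coeff N (Psi a) : ℤ) : ℝ) * x ^ N

lemma hasSum_F {a : ℕ} (ha : 1 ≤ a) {x : ℝ} (h0 : 0 ≤ x) (h1 : x < 1) :
    HasSum (fun n => (w n : ℝ) * (x ^ e1 a n - x ^ e2 a n)) (F a x) := by
  have h := (hasSum_G_real (e1_mono ha) h0 h1).sub (hasSum_G_real (e2_mono a) h0 h1)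
  rw [← (summable_G (e1_mono ha) h0 h1).tsum_sub (summable_G (e2_mono a) h0 h1)] at h
  unfold F
  simp_rw [coeff_Psi ha]
  push_cast
  simp_rw [sub_mul, mul_sub]
  exact h

lemma aux_bd (j : ℕ) : (2 * (j + 3 : ℝ) + 1) * (3 / 5 : ℝ) ^ T (j + 3) ≤ (33 / 100) * (1 / 5) ^ j := by
  induction j with
  | zero => norm_num [T, Nat.choose]
  | succ j ih =>
    rw [show j + 1 + 3 = (j + 3) + 1 by ring, T_succ, pow_add, pow_succ (1 / 5 : ℝ) j]
    have h1 : (3 / 5 : ℝ) ^ (j + 3 + 1) ≤ (3 / 5) ^ 4 :=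
      pow_le_pow_of_le_one (by norm_num) (by norm_num) (by omega)
    have h2 : (0 : ℝ) ≤ (3 / 5 : ℝ) ^ T (j + 3) := by positivity
    have h3 : (0 : ℝ) ≤ j := by positivity
    have h4 : (0 : ℝ) ≤ (3 / 5 : ℝ) ^ (j + 3 + 1) := by positivity
    push_cast
    calc (2 * ((j : ℝ) + 1 + 3) + 1) * ((3 / 5 : ℝ) ^ T (j + 3) * (3 / 5) ^ (j + 3 + 1))
        ≤ (2 * ((j : ℝ) + 1 + 3) + 1) * ((3 / 5 : ℝ) ^ T (j + 3) * (3 / 5) ^ 4) := by gcongr
      _ ≤ ((2 * (j + 3 : ℝ) + 1) * (3 / 5 : ℝ) ^ T (j + 3)) * (1 / 5) := by nlinarith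
      _ ≤ _ := by nlinarith

lemma F_neg {a : ℕ} (ha : 1 ≤ a) {x : ℝ} (h0 : 3 / 5 ≤ x) (h1 : x < 1) (hx : x ^ a = 3 / 5) :
    F a x < 0 := by
  have hx0 : 0 ≤ x := by linarith
  have h := (hasSum_nat_add_iff' 3).mpr (hasSum_F ha hx0 h1)
  have hg : HasSum (fun j : ℕ => (1 - x) * x ^ 3 * (33 / 100) * (1 / 5 : ℝ) ^ j)
      ((1 - x) * x ^ 3 * (33 / 100) * (1 - 1 / 5)⁻¹) :=
    (hasSum_geometric_of_lt_one (by norm_num) (by norm_num)).mul_left _
  have hle := hasSum_le (fun j => ?_) h hg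
  · have t1 : T 1 = 1 := rfl
    have t2 : T 2 = 3 := rfl
    have t3 : T 3 = 6 := rfl
    simp only [sum_range_succ, sum_range_zero, e1, e2, w, T_zero, pow_add, pow_mul, hx] at hle
    norm_num [t1, t2, t3] at hle
    have p1 : 0 < 1 - x := by linarith
    have p5 : x ^ 6 ≤ x := by
      calc x ^ 6 ≤ x ^ 1 := pow_le_pow_of_le_one hx0 h1.le (by norm_num)
        _ = x := pow_one x
    have p6 : 1 - 3 / 5 * (1 + x + x ^ 2) + 33 / 80 * x ^ 3 < 0 := by nlinarith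
    have p7 := mul_pos p1 (neg_pos.mpr p6)
    nlinarith
  · have hw : (w (j + 3) : ℝ) ≤ 1 := by
      have : w (j + 3) ≤ 1 := le_trans (le_abs_self _) (by simp [w])
      exact_mod_cast this
    have he : e2 a (j + 3) = e1 a (j + 3) + (2 * (j + 3) + 1) := by
      unfold e1 e2
      have := choose_eq (j + 3)
      rw [T_succ (j + 3)]; omega
    have hb : 1 - x ^ (2 * (j + 3) + 1) ≤ (2 * (j + 3 : ℝ) + 1) * (1 - x) := by
      have := one_add_mul_le_pow (a := x - 1) (by linarith) (2 * (j + 3) + 1)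
      push_cast at this
      rw [show 1 + (x - 1) = x by ring] at this
      linarith
    have hb0 : 0 ≤ 1 - x ^ (2 * (j + 3) + 1) := sub_nonneg.mpr (pow_le_one₀ hx0 h1.le)
    have hc : x ^ ((j + 3).choose 2) ≤ x ^ 3 :=
      pow_le_pow_of_le_one hx0 h1.le (Nat.choose_le_choose 2 (show 3 ≤ j + 3 by omega))
    have hd := aux_bd j
    have e : x ^ e1 a (j + 3) - x ^ e2 a (j + 3) =
        (3 / 5) ^ T (j + 3) * x ^ ((j + 3).choose 2) * (1 - x ^ (2 * (j + 3) + 1)) := by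
      rw [he, pow_add, e1, pow_add, pow_mul, hx]; ring
    rw [e]
    have p1 : 0 ≤ 1 - x := by linarith
    calc (w (j + 3) : ℝ) * ((3 / 5) ^ T (j + 3) * x ^ ((j + 3).choose 2) * (1 - x ^ (2 * (j + 3) + 1)))
        ≤ 1 * ((3 / 5) ^ T (j + 3) * x ^ 3 * ((2 * (j + 3 : ℝ) + 1) * (1 - x))) := by
          refine (mul_le_mul_of_nonneg_right hw (by positivity)).trans ?_
          gcongr
      _ = (1 - x) * x ^ 3 * ((2 * (j + 3 : ℝ) + 1) * (3 / 5 : ℝ) ^ T (j + 3)) := by ring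
      _ ≤ (1 - x) * x ^ 3 * ((33 / 100) * (1 / 5) ^ j) := by gcongr
      _ = _ := by ring

lemma F_cont {a : ℕ} (ha : 1 ≤ a) {x : ℝ} (h0 : 0 ≤ x) (h1 : x < 1) :
    ContinuousOn (F a) (Set.Icc 0 x) := by
  refine continuousOn_tsum (u := fun N => 2 * x ^ N) (fun N => by fun_prop)
    ((summable_geometric_of_lt_one h0 h1).mul_left 2) fun N t ht => ?_
  rw [norm_mul, Real.norm_eq_abs, Real.norm_eq_abs, abs_of_nonneg (pow_nonneg ht.1 N)]
  exact mul_le_mul (psi_abs ha N) (pow_le_pow_left₀ ht.1 ht.2 N) (pow_nonneg ht.1 N) (by norm_num)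

lemma F_zero {a : ℕ} (ha : 1 ≤ a) : F a 0 = 1 := by
  unfold F
  rw [tsum_eq_single 0 fun N hN => by simp [hN]]
  simp [Psi_zero ha]

lemma exists_zero {a : ℕ} (ha : 1 ≤ a) : ∃ t : ℝ, 0 < t ∧ t < 1 ∧ F a t = 0 := by
  set x : ℝ := (3 / 5 : ℝ) ^ ((a : ℝ)⁻¹) with hx
  have hxa : x ^ a = 3 / 5 := Real.rpow_inv_natCast_pow (by norm_num) (by omega)
  have hx0 : 0 ≤ x := by positivity
  have hx1 : x < 1 := by
    by_contra hc
    have := one_le_pow₀ (n := a) (not_lt.mp hc)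
    linarith
  have hx2 : 3 / 5 ≤ x := by
    rw [← hxa]
    calc x ^ a ≤ x ^ 1 := pow_le_pow_of_le_one hx0 hx1.le ha
      _ = x := pow_one x
  have hn := F_neg ha hx2 hx1 hxa
  obtain ⟨t, ht, h⟩ := intermediate_value_Ioo' hx0 (F_cont ha hx0 hx1)
    (show (0 : ℝ) ∈ Set.Ioo (F a x) (F a 0) from ⟨hn, by rw [F_zero ha]; norm_num⟩)
  exact ⟨t, ht.1, ht.2.trans hx1, h⟩

theorem exp_growth {a : ℕ} (ha : 1 ≤ a) :
    ∃ β : ℝ, 1 < β ∧ ∃ᶠ n in Filter.atTop, β ^ n ≤ |(c a n : ℝ)| := by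
  obtain ⟨t, h0, h1, hF⟩ := exists_zero ha
  set β : ℝ := 2 / (1 + t) with hβ
  have hβ1 : 1 < β := by rw [hβ, lt_div_iff₀ (by linarith)]; linarith
  have hβt : β * t < 1 := by
    rw [hβ, div_mul_eq_mul_div, div_lt_one (by linarith)]; linarith
  refine ⟨β, hβ1, ?_⟩
  by_contra hc
  rw [Filter.not_frequently] at hc
  have s1 : Summable fun N => ‖((coeff N (Psi a) : ℤ) : ℝ) * t ^ N‖ := by
    refine Summable.of_nonneg_of_le (fun _ => norm_nonneg _) (fun N => ?_)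
      ((summable_geometric_of_lt_one h0.le h1).mul_left 2)
    rw [norm_mul, Real.norm_eq_abs, Real.norm_eq_abs, abs_of_nonneg (pow_nonneg h0.le N)]
    exact mul_le_mul_of_nonneg_right (psi_abs ha N) (pow_nonneg h0.le N)
  have s2 : Summable fun N => ‖(c a N : ℝ) * t ^ N‖ := by
    refine Summable.of_norm_bounded_eventually_nat
      (summable_geometric_of_lt_one (by positivity) hβt) ?_
    filter_upwards [hc] with N hN
    rw [norm_norm, norm_mul, Real.norm_eq_abs, Real.norm_eq_abs,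
      abs_of_nonneg (pow_nonneg h0.le N), mul_pow]
    exact mul_le_mul_of_nonneg_right (not_le.mp hN).le (pow_nonneg h0.le N)
  have hp := tsum_mul_tsum_eq_tsum_sum_antidiagonal_of_summable_norm s1 s2
  have hz : ∀ n : ℕ, ∑ kl ∈ antidiagonal n,
      ((coeff kl.1 (Psi a) : ℤ) : ℝ) * t ^ kl.1 * ((c a kl.2 : ℝ) * t ^ kl.2) =
      ((coeff n (1 : PowerSeries ℤ) : ℤ) : ℝ) * t ^ n := by
    intro n
    rw [← Psi_mul ha, coeff_mul]
    push_cast
    rw [sum_mul]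
    refine sum_congr rfl fun kl hkl => ?_
    rw [← mem_antidiagonal.mp hkl, pow_add]
    unfold c; ring
  simp_rw [hz] at hp
  unfold F at hF
  rw [hF, zero_mul, tsum_eq_single 0 fun N hN => by simp [coeff_one, hN]] at hp
  simp at hp

end Pool.Agent.H62.FalseTheta
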