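import Mathlib

set_option autoImplicit false

namespace Pool.Agent.H62.Gab

open Finset

abbrev G : Type := Fin 3 → ℤ

/-- the six points -/
def a : Fin 6 → G := ![![1, 0, 0], ![0, 0, 0], ![1, 0, 3], ![1, 3, 0], ![0, 1, 0], ![0, 0, 1]]

open Classical in
noncomputable def ind {R : Type} [Zero R] (p : Prop) (t : R) : R := if p then t else 0

lemma ind_pos {R : Type} [Zero R] {p : Prop} (h : p) (t : R) : ind p t = t := if_pos h

lemma ind_true {R : Type} [Zero R] (t : R) : ind True t = t := ind_pos trivial t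

lemma ind_neg {R : Type} [Zero R] {p : Prop} (h : ¬ p) (t : R) : ind p t = 0 := if_neg h

section alg
variable {D : Type} [CommRing D] [IsDomain D] (ψ : D →+* ZMod 3) (h3 : (3 : D) ≠ 0)
include ψ h3

lemma nz (i m : ℕ) (hm : (m : ZMod 3) ≠ 0) : ((3 ^ i * m : ℕ) : D) ≠ 0 := by
  push_cast
  refine mul_ne_zero (pow_ne_zero _ h3) fun h => hm ?_
  rw [← map_natCast ψ, h, map_zero]

lemma two_one {u v : D} (hu : ψ u = 1) (hv : v ^ 3 = u ^ 3) (h : 2 * u + v = 0) : False := by
  have hu0 : u ≠ 0 := by rintro rfl; simp at hu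
  have : (3 : D) ^ 2 * u ^ 3 = 0 := by
    linear_combination (4 * u ^ 2 - 2 * u * v + v ^ 2) * h - hv
  exact mul_ne_zero (pow_ne_zero _ h3) (pow_ne_zero _ hu0) this

lemma six {x y z : D} (hx : x ^ 3 = 1) (hy : y ^ 3 = 1) (hz : z ^ 3 = 1)
    (h : 3 * x + 1 + y + z = 0) : False := by
  have h1 : (1 + y + z) ^ 3 = -27 := by
    have : 1 + y + z = -3 * x := by linear_combination h
    rw [this]; linear_combination (-27) * hx
  have hy' : (y - 1) * (y ^ 2 + y + 1) = 0 := by linear_combination hy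
  have hz' : (z - 1) * (z ^ 2 + z + 1) = 0 := by linear_combination hz
  have key : ∀ t : D, t ^ 2 + t + 1 = 0 → (2 + t) ^ 3 = -27 → False := by
    intro t h1 h2
    apply nz ψ h3 3 28 (by decide)
    have h4 : 6 * t + 30 = 0 := by linear_combination h2 - (t + 5) * h1
    push_cast
    linear_combination 36 * h1 - (6 * t - 24) * h4
  rcases mul_eq_zero.mp hy' with h2 | h2 <;> rcases mul_eq_zero.mp hz' with h4 | h4
  · apply nz ψ h3 3 2 (by decide)
    rw [sub_eq_zero.mp h2, sub_eq_zero.mp h4] at h1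
    push_cast
    linear_combination h1
  · rw [sub_eq_zero.mp h2] at h1
    exact key z h4 (by linear_combination h1)
  · rw [sub_eq_zero.mp h4] at h1
    exact key y h2 (by linear_combination h1)
  · have h5 : (y - z) * (y + z + 1) = 0 := by linear_combination h2 - h4
    rcases mul_eq_zero.mp h5 with h6 | h6
    · rw [← sub_eq_zero.mp h6] at h1
      apply nz ψ h3 3 28 (by decide)
      have h7 : 6 * y - 24 = 0 := by linear_combination (8 * y + 4) * h2 - h1
      push_cast
      linear_combination 36 * h2 - (6 * y + 30) * h7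
    · apply nz ψ h3 3 1 (by decide)
      rw [show 1 + y + z = 0 by linear_combination h6] at h1
      push_cast
      linear_combination h1

omit h3 in
lemma class_sum (w : Fin 6 → D) (hw : ∀ i, ψ (w i) = 1)
    (h : ∀ s : ℕ, ∑ i, w i ^ (6 * s + 1) = 0) (k : Fin 6) :
    ∑ i, ind (w i ^ 3 = w k ^ 3) (w i) = 0 := by
  classical
  have h1 : ∀ q : Polynomial D, ∑ i, w i * q.eval (w i ^ 6) = 0 := by
    intro q
    induction q using Polynomial.induction_on' with
    | add p q hp hq => simp only [Polynomial.eval_add, mul_add, sum_add_distrib, hp, hq, add_zero]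
    | monomial n c =>
      simp only [Polynomial.eval_monomial]
      have := congrArg (c * ·) (h n)
      simp only [mul_sum, mul_zero] at this
      rw [← this]
      exact sum_congr rfl fun i _ => by ring
  have h6 : ∀ i, w i ^ 6 = w k ^ 6 → w i ^ 3 = w k ^ 3 := by
    intro i hi
    have : (w i ^ 3 - w k ^ 3) * (w i ^ 3 + w k ^ 3) = 0 := by linear_combination hi
    rcases mul_eq_zero.mp this with h | h
    · exact sub_eq_zero.mp h
    · have := congrArg ψ h
      simp only [map_add, map_pow, hw, map_zero] at this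
      exact absurd this (by decide)
  have h2 := h1 (∏ j with w j ^ 3 ≠ w k ^ 3, (Polynomial.X - Polynomial.C (w j ^ 6)))
  simp only [Polynomial.eval_prod, Polynomial.eval_sub, Polynomial.eval_X, Polynomial.eval_C] at h2
  have h4 : (∏ j with w j ^ 3 ≠ w k ^ 3, (w k ^ 6 - w j ^ 6)) ≠ 0 := by
    rw [prod_ne_zero_iff]
    intro j hj h0
    exact (mem_filter.mp hj).2 (h6 j (sub_eq_zero.mp h0).symm)
  refine (mul_eq_zero.mp ?_).resolve_right h4
  refine Eq.trans ?_ h2
  rw [sum_mul]
  refine sum_congr rfl fun i _ => ?_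
  by_cases hi : w i ^ 3 = w k ^ 3
  · rw [ind_pos hi, show w i ^ 6 = w k ^ 6 by
      calc w i ^ 6 = (w i ^ 3) ^ 2 := by ring
        _ = _ := by rw [hi]; ring]
  · rw [ind_neg hi, zero_mul, prod_eq_zero (i := i) (mem_filter.mpr ⟨mem_univ _, hi⟩) (sub_self _), mul_zero]

lemma alg_false (w : Fin 6 → D) (hw : ∀ i, ψ (w i) = 1) (w1 : w 1 = 1)
    (w2 : w 2 = w 0 * w 5 ^ 3) (w3 : w 3 = w 0 * w 4 ^ 3)
    (h : ∀ s : ℕ, ∑ i, w i ^ (6 * s + 1) = 0) : False := by
  have cs := class_sum ψ _ hw h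
  have ct : ∀ k, ∑ i, ind (w i ^ 3 = w k ^ 3) (1 : ZMod 3) = 0 := by
    intro k
    have := congrArg ψ (cs k)
    rw [map_sum, map_zero] at this
    refine Eq.trans (sum_congr rfl fun i _ => ?_) this
    by_cases hi : w i ^ 3 = w k ^ 3
    · rw [ind_pos hi, ind_pos hi, hw]
    · rw [ind_neg hi, ind_neg hi, map_zero]
  have s0 := cs 0
  have s1 := cs 1
  have c0 := ct 0
  have c1 := ct 1
  have c4 := ct 4
  have hx := hw 0
  have hy := hw 4
  simp only [Fin.sum_univ_six, w1, w2, w3, one_pow, ind_true] at s0 s1 c0 c1 c4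
  generalize w 0 = x, w 4 = y, w 5 = z at *
  by_cases hb : y ^ 3 = 1
  · rw [hb, mul_one, ind_pos rfl] at s0 c0
    by_cases ha : 1 = x ^ 3
    · by_cases hc : z ^ 3 = x ^ 3
      · rw [hc, ← ha, mul_one, ← ha] at s0
        simp only [ind_true] at s0
        exact six ψ h3 ha.symm hb (hc.trans ha.symm) (by linear_combination s0)
      · simp only [ind_pos ha, ind_neg hc] at c0
        by_cases h1 : (x * z ^ 3) ^ 3 = x ^ 3
        · rw [ind_pos h1] at c0; exact absurd c0 (by decide)
        · rw [ind_neg h1] at c0; exact absurd c0 (by decide)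
    · simp only [ind_neg ha] at s0 c0
      by_cases h1 : (x * z ^ 3) ^ 3 = x ^ 3 <;> by_cases h2 : z ^ 3 = x ^ 3
      · rw [ind_pos h1, ind_pos h2] at c0; exact absurd c0 (by decide)
      · rw [ind_pos h1, ind_neg h2] at s0
        exact two_one ψ h3 hx h1 (by linear_combination s0)
      · rw [ind_neg h1, ind_pos h2] at s0
        exact two_one ψ h3 hx h2 (by linear_combination s0)
      · rw [ind_neg h1, ind_neg h2] at c0; exact absurd c0 (by decide)
  by_cases hc : z ^ 3 = 1
  · rw [hc, mul_one, ind_pos rfl] at s0 c0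
    by_cases ha : 1 = x ^ 3
    · have : ¬ y ^ 3 = x ^ 3 := fun h => hb (h.trans ha.symm)
      simp only [ind_pos ha, ind_neg this] at c0
      by_cases h1 : (x * y ^ 3) ^ 3 = x ^ 3
      · rw [ind_pos h1] at c0; exact absurd c0 (by decide)
      · rw [ind_neg h1] at c0; exact absurd c0 (by decide)
    · simp only [ind_neg ha] at s0 c0
      by_cases h1 : (x * y ^ 3) ^ 3 = x ^ 3 <;> by_cases h2 : y ^ 3 = x ^ 3
      · rw [ind_pos h1, ind_pos h2] at c0; exact absurd c0 (by decide)
      · rw [ind_pos h1, ind_neg h2] at s0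
        exact two_one ψ h3 hx h1 (by linear_combination s0)
      · rw [ind_neg h1, ind_pos h2] at s0
        exact two_one ψ h3 hx h2 (by linear_combination s0)
      · rw [ind_neg h1, ind_neg h2] at c0; exact absurd c0 (by decide)
  rw [ind_neg hb, ind_neg hc] at s1 c1
  by_cases hbc : z ^ 3 = y ^ 3
  · rw [hbc] at s1 c1
    by_cases h1 : x ^ 3 = 1 <;> by_cases h2 : (x * y ^ 3) ^ 3 = 1
    · rw [ind_pos h1, ind_pos h2] at c1; exact absurd c1 (by decide)
    · rw [ind_pos h1, ind_neg h2] at c1; exact absurd c1 (by decide)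
    · rw [ind_neg h1, ind_pos h2] at s1
      exact two_one ψ h3 (u := x * y ^ 3) (v := 1) (by simp [hx, hy]) (by rw [h2, one_pow])
        (by linear_combination s1)
    · rw [ind_neg h1, ind_neg h2] at c1; exact absurd c1 (by decide)
  · have hb' : ¬ 1 = y ^ 3 := fun h => hb h.symm
    rw [ind_neg hb', ind_neg hbc] at c4
    have key : ∀ u : D, (ind (u = 1) (1 : ZMod 3) = 0 ∧ ind (u = y ^ 3) (1 : ZMod 3) = 0) ∨
        (ind (u = 1) (1 : ZMod 3) = 1 ∧ ind (u = y ^ 3) (1 : ZMod 3) = 0) ∨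
        (ind (u = 1) (1 : ZMod 3) = 0 ∧ ind (u = y ^ 3) (1 : ZMod 3) = 1) := by
      intro u
      by_cases h1 : u = 1
      · exact Or.inr (Or.inl ⟨ind_pos h1 _, ind_neg (fun h => hb' (h1.symm.trans h)) _⟩)
      · by_cases h2 : u = y ^ 3
        · exact Or.inr (Or.inr ⟨ind_neg h1 _, ind_pos h2 _⟩)
        · exact Or.inl ⟨ind_neg h1 _, ind_neg h2 _⟩
    rcases key (x ^ 3) with ⟨a1, b1⟩ | ⟨a1, b1⟩ | ⟨a1, b1⟩ <;>
    rcases key ((x * z ^ 3) ^ 3) with ⟨a2, b2⟩ | ⟨a2, b2⟩ | ⟨a2, b2⟩ <;>
    rcases key ((x * y ^ 3) ^ 3) with ⟨a3, b3⟩ | ⟨a3, b3⟩ | ⟨a3, b3⟩ <;>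
    rw [a1, a2, a3] at c1 <;> rw [b1, b2, b3] at c4 <;>
    first | exact absurd c1 (by decide) | exact absurd c4 (by decide)

end alg

abbrev Λ : Type := AddMonoidAlgebra ℤ G

noncomputable def shift : Multiplicative G →* Module.End ℤ (G → ℤ) where
  toFun g := LinearMap.funLeft ℤ ℤ fun z => z - g.toAdd
  map_one' := by ext; simp
  map_mul' g h := by ext; simp [LinearMap.funLeft_apply, sub_sub]

noncomputable def ρ : Λ →ₐ[ℤ] Module.End ℤ (G → ℤ) := AddMonoidAlgebra.lift ℤ _ G shift

lemma ρ_single (g : G) (c : ℤ) (φ : G → ℤ) (z : G) :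
    ρ (AddMonoidAlgebra.single g c) φ z = c * φ (z - g) := by
  simp [ρ, AddMonoidAlgebra.lift_single, shift, LinearMap.funLeft_apply]

noncomputable def P (r : ℕ) : Λ := ∑ k, AddMonoidAlgebra.single (r • a k) 1

lemma ρ_P (r : ℕ) (φ : G → ℤ) (z : G) : ρ (P r) φ z = ∑ k, φ (z - r • a k) := by
  simp only [P, map_sum, LinearMap.sum_apply, Finset.sum_apply, ρ_single, one_mul]

lemma frob {R ι : Type} [CommRing R] {p : ℕ} (hp : p.Prime) (s : Finset ι) (x : ι → R) :
    ∃ q, (∑ i ∈ s, x i) ^ p = ∑ i ∈ s, x i ^ p + p * q := by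
  classical
  induction s using Finset.induction_on with
  | empty => exact ⟨0, by simp [hp.ne_zero]⟩
  | insert i s hi ih =>
    obtain ⟨q, hq⟩ := ih
    obtain ⟨r, hr⟩ := exists_add_pow_prime_eq hp (x i) (∑ i ∈ s, x i)
    rw [sum_insert hi, sum_insert hi, hr, hq]
    exact ⟨q + x i * (∑ i ∈ s, x i) * r, by ring⟩

lemma dilate {f : G → ℤ} (hf : ∀ z, 0 ≤ f z) (h1 : ρ (P 1) f = 1) (r : ℕ) :
    r.Coprime 6 → ρ (P r) f = 1 := by
  induction r using induction_on_primes with
  | zero => intro h; exact absurd h (by decide)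
  | one => exact fun _ => h1
  | prime_mul p r hp ih =>
    intro hc
    have hr := ih (Nat.Coprime.coprime_mul_left hc)
    have hp6 : p.Coprime 6 := Nat.Coprime.coprime_mul_right hc
    have hconst : ∀ (s : ℕ) (c : ℤ), ρ (P s) (fun _ => c) = fun _ => 6 * c := by
      intro s c; funext z; rw [ρ_P]; simp
    have hpow : ∀ n : ℕ, ρ (P r ^ (n + 1)) f = fun _ => 6 ^ n := by
      intro n
      induction n with
      | zero => rw [zero_add, pow_one, hr]; rfl
      | succ n ih => rw [pow_succ', map_mul, Module.End.mul_apply, ih, hconst, pow_succ']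
    obtain ⟨q, hq⟩ := frob hp univ fun k => (AddMonoidAlgebra.single (r • a k) 1 : Λ)
    have hq' : P r ^ p = P (p * r) + p * q := by
      rw [P, hq, P]
      simp only [AddMonoidAlgebra.single_pow, one_pow, mul_smul]
    have hge : ∀ z, 1 ≤ ρ (P (p * r)) f z := by
      intro z
      have h0 : 0 ≤ ρ (P (p * r)) f z := by rw [ρ_P]; exact sum_nonneg fun k _ => hf _
      have h2 := congrFun (hpow (p - 1)) z
      rw [Nat.sub_add_cancel hp.one_le, hq', map_add, map_mul, map_natCast] at h2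
      simp only [LinearMap.add_apply, Pi.add_apply, Module.End.mul_apply, Module.End.natCast_apply,
        nsmul_eq_mul] at h2
      by_contra hlt
      have h3 : ρ (P (p * r)) f z = 0 := by omega
      rw [h3, zero_add] at h2
      have h4 : p ∣ 6 ^ (p - 1) := by
        have h5 : (p : ℤ) ∣ 6 ^ (p - 1) := ⟨_, h2.symm⟩
        exact_mod_cast h5
      exact hp.ne_one (Nat.Coprime.eq_one_of_dvd (Nat.Coprime.pow_right _ hp6) h4)
    funext z
    have h5 : ρ (P r) (ρ (P (p * r)) f) = fun _ => 6 * 1 := by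
      rw [← Module.End.mul_apply, ← map_mul, mul_comm, map_mul, Module.End.mul_apply, hr]
      exact hconst _ 1
    have h6 := congrFun h5 (z + r • a 0)
    rw [ρ_P, Fin.sum_univ_six, add_sub_cancel_right] at h6
    have := hge z
    have := hge (z + r • a 0 - r • a 1)
    have := hge (z + r • a 0 - r • a 2)
    have := hge (z + r • a 0 - r • a 3)
    have := hge (z + r • a 0 - r • a 4)
    have := hge (z + r • a 0 - r • a 5)
    change _ = (1 : ℤ)
    omega

theorem no_tile (κ : G → Fin 6) (hκ : ∀ m k, κ (m - a (κ m) + a k) = k) : False := by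
  classical
  let f : G → ℤ := fun t => if κ (t + a 0) = 0 then 1 else 0
  have hf : ∀ z, 0 ≤ f z := fun z => by simp only [f]; split_ifs <;> norm_num
  have h1 : ρ (P 1) f = 1 := by
    funext z
    rw [ρ_P]
    have : ∀ k, f (z - 1 • a k) = if k = κ z then 1 else 0 := by
      intro k
      simp only [f, one_smul]
      congr 1
      apply propext
      constructor
      · intro h
        have := hκ (z - a k + a 0) k
        rw [h] at this
        simpa using this.symm
      · rintro rfl; exact hκ z 0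
    simp only [this]
    simp
  let g : G → ℤ := 6 • f - 1
  have hg : ∀ r : ℕ, r.Coprime 6 → ρ (P r) g = 0 := by
    intro r hr
    simp only [g, map_sub, map_nsmul, dilate hf h1 r hr]
    funext z
    simp [ρ_P]
  let J : Ideal Λ :=
    { carrier := {q | ρ q g = 0}
      add_mem' := fun {p q} hp hq => by
        simp only [Set.mem_ofPred_eq, map_add, LinearMap.add_apply] at *
        rw [hp, hq, add_zero]
      zero_mem' := by simp
      smul_mem' := fun c q hq => by
        simp only [Set.mem_ofPred_eq, smul_eq_mul, map_mul, Module.End.mul_apply] at *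
        rw [hq, map_zero] }
  let ε : Λ →ₐ[ℤ] ZMod 3 := AddMonoidAlgebra.lift ℤ _ G 1
  have hε : ∀ g c, ε (AddMonoidAlgebra.single g c) = c := fun g c => by
    simp [ε, AddMonoidAlgebra.lift_single]
  have hmod : ∀ q : Λ, ∀ z, ((ρ q g z : ℤ) : ZMod 3) = -ε q := by
    intro q z
    induction q using AddMonoidAlgebra.induction_linear with
    | zero => simp
    | add p q hp hq =>
      simp only [map_add, LinearMap.add_apply, Pi.add_apply, Int.cast_add, hp, hq]; ring
    | single m c =>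
      rw [ρ_single, hε]
      change ((c * (6 * f (z - m) - 1) : ℤ) : ZMod 3) = _
      push_cast
      rw [show (6 : ZMod 3) = 0 by decide]; ring
  let S : Submonoid Λ :=
    { carrier := {q | ∃ i : ℕ, ∃ s, q = 3 ^ i * s ∧ ε s ≠ 0}
      mul_mem' := by
        rintro _ _ ⟨i, s, rfl, hs⟩ ⟨j, t, rfl, ht⟩
        exact ⟨i + j, s * t, by ring, by rw [map_mul]; exact mul_ne_zero hs ht⟩
      one_mem' := ⟨0, 1, by simp, by simp⟩ }
  obtain ⟨𝔭, hp, hJ, hS⟩ := Ideal.exists_le_prime_disjoint J S (by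
    rw [Set.disjoint_left]
    rintro _ hq ⟨i, s, rfl, hs⟩
    apply hs
    have h2 : ρ (3 ^ i * s) g = 0 := hq
    have h3 := congrFun h2 0
    rw [show (3 : Λ) ^ i = ((3 ^ i : ℕ) : Λ) by push_cast; rfl, map_mul, map_natCast] at h3
    simp only [Module.End.mul_apply, Module.End.natCast_apply, Pi.smul_apply, nsmul_eq_mul,
      Pi.zero_apply] at h3
    have h4 : ρ s g 0 = 0 := (mul_eq_zero.mp h3).resolve_left (by positivity)
    have := hmod s 0
    rw [h4] at this
    simpa using this.symm)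
  have hker : ∀ q ∈ 𝔭, ε.toRingHom q = 0 := fun q hq => by
    by_contra h
    exact Set.disjoint_left.mp hS hq ⟨0, q, by simp, h⟩
  let ψ : Λ ⧸ 𝔭 →+* ZMod 3 := Ideal.Quotient.lift 𝔭 ε.toRingHom hker
  let mk := Ideal.Quotient.mk 𝔭
  have hψ : ∀ m : G, ψ (mk (AddMonoidAlgebra.single m 1)) = 1 := fun m => by
    simpa [ψ, mk] using hε m 1
  have h3 : (3 : Λ ⧸ 𝔭) ≠ 0 := by
    intro h
    have : (3 : Λ) ∈ 𝔭 := Ideal.Quotient.eq_zero_iff_mem.mp (by rw [map_ofNat]; exact h)
    exact Set.disjoint_left.mp hS this ⟨1, 1, by simp, by simp⟩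
  refine alg_false ψ h3 (fun i => mk (AddMonoidAlgebra.single (a i) 1)) (fun i => hψ _)
    (by rw [show a 1 = 0 by decide]; exact map_one mk) ?_ ?_ fun s => ?_
  · rw [← map_pow, ← map_mul, AddMonoidAlgebra.single_pow, AddMonoidAlgebra.single_mul_single,
      show a 0 + 3 • a 5 = a 2 by decide, one_pow, one_mul]
  · rw [← map_pow, ← map_mul, AddMonoidAlgebra.single_pow, AddMonoidAlgebra.single_mul_single,
      show a 0 + 3 • a 4 = a 3 by decide, one_pow, one_mul]
  have h4 : mk (P (6 * s + 1)) = 0 :=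
    Ideal.Quotient.eq_zero_iff_mem.mpr (hJ (hg _ (by simp)))
  refine Eq.trans ?_ h4
  rw [P, map_sum]
  refine sum_congr rfl fun i _ => ?_
  rw [← map_pow, AddMonoidAlgebra.single_pow, one_pow]

end Pool.Agent.H62.Gab
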