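import Mathlib
import Pool.Agent.H92.CellGabor

set_option autoImplicit false
open MeasureTheory Set Real Complex ComplexConjugate
open scoped InnerProductSpace ENNReal
open Pool.Agent.H92.CellGabor

namespace Pool.Agent.H62.Gab

variable {d : ℕ}

def EA (A : Finset (Fin d → ℤ)) : Set (V d) := {x | cl x ∈ A}

noncomputable def gab (A : Finset (Fin d → ℤ)) (u : V d × V d) (x : V d) : ℂ :=
  (EA A).indicator (fun _ => (1 : ℂ)) (x - u.1) * ee x u.2

noncomputable def ip (f g : V d → ℂ) : ℂ := ∫ x, f x * conj (g x)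

lemma EA_zero : EA ({0} : Finset (Fin d → ℤ)) = Q d := by
  ext x; simp [EA, mem_Q]

lemma ι_zero : ι (0 : Fin d → ℤ) = 0 := by ext; simp [ι]

lemma meas_EA (A : Finset (Fin d → ℤ)) : MeasurableSet (EA A) := meas_E A

lemma fin_EA (A : Finset (Fin d → ℤ)) : volume (EA A) < ⊤ := fin_E A

lemma vol_EA (A : Finset (Fin d → ℤ)) : volume (EA A) = A.card := by
  have q1 : ∫ x in Q d, (1:ℂ) = 1 := by
    have := int_Q (d := d) 0
    simpa only [ι_zero, ee_zero, if_true] using this
  have := int_E A (fun _ => 1) fun n _ => integrable_const _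
  rw [Finset.sum_congr rfl fun _ _ => q1] at this
  have e1 : (volume (EA A)).toReal = A.card := by
    have : (((volume (EA A)).toReal : ℝ) : ℂ) = A.card := by simpa [Measure.real, EA] using this
    exact_mod_cast this
  rw [← ENNReal.ofReal_toReal (fin_EA A).ne, e1, ENNReal.ofReal_natCast]

lemma memLp_gab (A : Finset (Fin d → ℤ)) (u : V d × V d) : MemLp (gab A u) 2 volume := by
  have h1 : MemLp ((EA A).indicator (fun _ => (1 : ℂ))) 2 volume :=
    memLp_indicator_const 2 (meas_E A) 1 (Or.inr (fin_E A).ne)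
  have h2 := h1.comp_measurePreserving (measurePreserving_sub_right volume u.1)
  have h3 : MemLp (fun x => ee x u.2) ⊤ volume :=
    memLp_top_of_bound (by fun_prop) 1 (.of_forall fun _ => (ee_norm _ _).le)
  exact (h2.mul' h3).ae_eq (.of_forall fun x => mul_comm _ _)

lemma inn {f g : V d → ℂ} (hf : MemLp f 2 volume) (hg : MemLp g 2 volume) :
    ⟪hf.toLp f, hg.toLp g⟫_ℂ = ip g f := by
  rw [L2.inner_def]
  refine integral_congr_ae ?_
  filter_upwards [hf.coeFn_toLp, hg.coeFn_toLp] with x a1 a2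
  rw [a1, a2]; rfl

lemma conj_ind (A : Finset (Fin d → ℤ)) (y : V d) :
    conj ((EA A).indicator (fun _ => (1 : ℂ)) y) = (EA A).indicator (fun _ => (1 : ℂ)) y := by
  simp only [indicator]; split_ifs <;> simp

lemma ip_gab (A B : Finset (Fin d → ℤ)) (u w : V d × V d) : ip (gab A u) (gab B w) =
    ∫ x, ((EA A).indicator (fun _ => (1 : ℂ)) (x - u.1) * (EA B).indicator (fun _ => (1 : ℂ)) (x - w.1)) *
      ee x (u.2 - w.2) := by
  unfold ip gab
  congr 1; ext x
  rw [map_mul, conj_ind, ee_conj, sub_eq_add_neg u.2, ee_addr]; ring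

lemma ip_shift (A B : Finset (Fin d → ℤ)) (u w y : V d × V d) :
    ip (gab A (u + y)) (gab B (w + y)) = ee y.1 (u.2 - w.2) * ip (gab A u) (gab B w) := by
  rw [ip_gab, ip_gab, ← integral_add_right_eq_self _ y.1, ← integral_const_mul]
  congr 1; ext x
  simp only [Prod.fst_add, Prod.snd_add, add_sub_add_right_eq_sub, ee_addl]; ring

lemma ip_self (A : Finset (Fin d → ℤ)) (u : V d × V d) : ip (gab A u) (gab A u) = A.card := by
  rw [ip_gab]
  simp only [sub_self, ee_zero, mul_one]
  rw [integral_sub_right_eq_self (fun x => (EA A).indicator (fun _ => (1 : ℂ)) x *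
    (EA A).indicator (fun _ => (1 : ℂ)) x)]
  have : (fun x => (EA A).indicator (fun _ => (1 : ℂ)) x * (EA A).indicator (fun _ => (1 : ℂ)) x) =
      (EA A).indicator (fun _ => (1 : ℂ)) := by
    ext x; simp only [indicator]; split_ifs <;> simp
  rw [this, integral_indicator (meas_EA A)]
  simp [Measure.real, vol_EA]

noncomputable def gL (A : Finset (Fin d → ℤ)) (u : V d × V d) : Lp ℂ 2 (volume : Measure (V d)) :=
  (memLp_gab A u).toLp _

lemma inn_gL (A B : Finset (Fin d → ℤ)) (u w : V d × V d) :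
    ⟪gL A u, gL B w⟫_ℂ = ip (gab B w) (gab A u) := inn _ _

lemma norm_gL (A : Finset (Fin d → ℤ)) (u : V d × V d) : ‖gL A u‖ ^ 2 = A.card := by
  have := inn_gL A A u u
  rw [ip_self, inner_self_eq_norm_sq_to_K] at this
  have h : ((‖gL A u‖ ^ 2 : ℝ) : ℂ) = ((A.card : ℝ) : ℂ) := by simpa using this
  exact Complex.ofReal_injective h

noncomputable def F (A : Finset (Fin d → ℤ)) (u : V d × V d) : ℝ≥0∞ :=
  ENNReal.ofReal (‖ip (gab A u) (gab {0} 0)‖ ^ 2)

lemma F_sub (A : Finset (Fin d → ℤ)) (u w : V d × V d) :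
    F A (u - w) = ENNReal.ofReal (‖ip (gab A u) (gab {0} w)‖ ^ 2) := by
  have := ip_shift A {0} (u - w) 0 w
  rw [sub_add_cancel, zero_add] at this
  rw [this, norm_mul, ee_norm, one_mul, F]

lemma meas_F (A : Finset (Fin d → ℤ)) : Measurable (F A) := by
  have h : Measurable fun p : (V d × V d) × V d => gab A p.1 p.2 * conj (gab {0} 0 p.2) := by
    unfold gab ee
    have h1 : ∀ B : Finset (Fin d → ℤ), Measurable ((EA B).indicator (fun _ => (1 : ℂ))) :=
      fun B => measurable_const.indicator (meas_E B)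
    have := h1 A
    have := h1 {0}
    have : Measurable (conj : ℂ → ℂ) := continuous_conj.measurable
    fun_prop
  have := (h.stronglyMeasurable.integral_prod_right' (ν := volume)).measurable
  unfold F ip
  fun_prop

lemma bessel (A : Finset (Fin d → ℤ)) (u : V d × V d) :
    ∑' l : (Fin d → ℤ) × (Fin d → ℤ), F A (u + (ι l.1, ι l.2)) ≤ A.card := by
  classical
  have ho : Orthonormal ℂ fun l : (Fin d → ℤ) × (Fin d → ℤ) => gL {0} (-(ι l.1, ι l.2)) := by
    refine orthonormal_iff_ite.mpr fun l l' => ?_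
    rw [inn_gL, ip_gab]
    have := orth {0} (-l'.1) (-l.1) (l.1 - l'.1 + (l.2 - l'.2) - (l.1 - l'.1)) 0
    simp only [zero_add, int_Q, ee_zero] at this
    refine Eq.trans ?_ (this.trans ?_)
    · congr 1; ext x
      simp only [EA, Prod.neg_mk, ι_neg, add_sub_cancel_left, ι_sub]
      congr 2; abel
    · by_cases h1 : l.1 = l'.1 <;> by_cases h2 : l.2 = l'.2 <;>
      simp [Prod.ext_iff, h1, h2, sub_eq_zero, Finset.filter_singleton, neg_add_eq_zero, eq_comm]
  have h1 := ho.tsum_inner_products_le (gL A u)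
  have h2 := ho.inner_products_summable (gL A u)
  rw [norm_gL] at h1
  simp only [inn_gL] at h1 h2
  simp only [← sub_neg_eq_add, F_sub]
  rw [← ENNReal.ofReal_tsum_of_nonneg (fun _ => by positivity) h2, ← ENNReal.ofReal_natCast]
  exact ENNReal.ofReal_le_ofReal h1

lemma pars {A : Finset (Fin d → ℤ)} (hA : A.Nonempty) {S : Set (V d × V d)}
    (h1 : ∀ p ∈ S, ∀ q ∈ S, p ≠ q → ip (gab A p) (gab A q) = 0)
    (h2 : ∀ f : V d → ℂ, MemLp f 2 volume → (∀ p ∈ S, ip f (gab A p) = 0) → f =ᵐ[volume] 0)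
    (ω : V d × V d) : ∑' s : S, F A (s - ω) = A.card := by
  classical
  have h0 : (0 : ℝ) < A.card := by exact_mod_cast hA.card_pos
  set c : ℝ := (√(A.card))⁻¹ with hc
  have c0 : (c : ℂ) ≠ 0 := by exact_mod_cast (show c ≠ 0 by positivity)
  have cc : c * c * A.card = 1 := by
    rw [← mul_inv, mul_self_sqrt h0.le, inv_mul_cancel₀ h0.ne']
  let v : S → Lp ℂ 2 (volume : Measure (V d)) := fun b => (c : ℂ) • gL A b
  have ho : Orthonormal ℂ v := orthonormal_iff_ite.mpr fun b b' => by
    rw [inner_smul_left, inner_smul_right, inn_gL]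
    split_ifs with h
    · subst h
      rw [ip_self, conj_ofReal, ← mul_assoc]
      exact_mod_cast cc
    · rw [h1 _ b'.2 _ b.2 fun e => h (Subtype.ext e.symm)]; simp
  let H := HilbertBasis.mkOfOrthogonalEqBot ho (by
    refine (Submodule.eq_bot_iff _).mpr fun u hu =>
      Lp.eq_zero_iff_ae_eq_zero.mpr (h2 u (Lp.memLp u) fun b hb => ?_)
    have := Submodule.inner_right_of_mem_orthogonal
      (Submodule.subset_span (mem_range_self (f := v) ⟨b, hb⟩)) hu
    rw [inner_smul_left, ← Lp.toLp_coeFn u (Lp.memLp u), gL, inn] at this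
    simpa [c0] using this)
  have h3 := (H.hasSum_inner_mul_inner (gL {0} ω) (gL {0} ω)).mul_left (A.card : ℂ)
  have h4 : HasSum (fun s : S => ‖ip (gab A s) (gab {0} ω)‖ ^ 2) A.card := by
    rw [← Complex.hasSum_ofReal]
    have e : (((A.card : ℝ)) : ℂ) = A.card * ⟪gL {0} ω, gL {0} ω⟫_ℂ := by rw [inn_gL, ip_self]; simp
    rw [e]
    refine (funext fun s => ?_ : _ = fun s : S => ((‖ip (gab A s) (gab {0} ω)‖ ^ 2 : ℝ) : ℂ)) ▸ h3
    · symm
      rw [← inner_conj_symm (H s)]
      simp only [H, HilbertBasis.coe_mkOfOrthogonalEqBot, v, inner_smul_right, inn_gL, map_mul,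
        conj_ofReal]
      have cc' : (c : ℂ) * c * A.card = 1 := by exact_mod_cast cc
      rw [ofReal_pow, ← Complex.mul_conj']
      linear_combination (-ip (gab A s) (gab {0} ω) * conj (ip (gab A s) (gab {0} ω))) * cc'
  simp only [F_sub]
  rw [← ENNReal.ofReal_tsum_of_nonneg (fun _ => by positivity) h4.summable, h4.tsum_eq,
    ENNReal.ofReal_natCast]

lemma swap {J : Type} [Countable J] (τ : J → V d × V d) {f g : V d × V d → ℝ≥0∞} (hf : Measurable f)
    (hg : Measurable g) : ∫⁻ y, f y * ∑' j, g (y - τ j) = ∫⁻ v, g v * ∑' j, f (v + τ j) := by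
  simp only [← ENNReal.tsum_mul_left]
  rw [lintegral_tsum fun j => by fun_prop, lintegral_tsum fun j => by fun_prop]
  refine tsum_congr fun j => ?_
  have : (volume : Measure (V d × V d)).IsAddRightInvariant :=
    inferInstanceAs ((volume : Measure (V d)).prod volume).IsAddRightInvariant
  rw [← lintegral_add_right_eq_self _ (τ j)]
  simp only [add_sub_cancel_right, mul_comm]

lemma int_F (A : Finset (Fin d → ℤ)) : ∫⁻ y, F A y ≤ A.card := by
  have hm : MeasurableSet (Q d ×ˢ Q d) := meas_Q.prod meas_Q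
  have h1 := swap (fun l : (Fin d → ℤ) × (Fin d → ℤ) => (ι l.1, ι l.2)) (meas_F A)
    (g := (Q d ×ˢ Q d).indicator 1) (measurable_const.indicator hm)
  calc ∫⁻ y, F A y ≤ _ := lintegral_mono fun y => le_mul_of_one_le_right' ?_
    _ = _ := h1
    _ ≤ ∫⁻ v, (Q d ×ˢ Q d).indicator 1 v * A.card := lintegral_mono fun v => by gcongr; exact bessel A v
    _ = _ := by
      rw [lintegral_mul_const _ (measurable_one.indicator hm), lintegral_indicator_one hm,
        Measure.volume_eq_prod, Measure.prod_prod, ← EA_zero, vol_EA]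
      simp
  refine le_trans ?_ (ENNReal.le_tsum (cl y.1, cl y.2))
  rw [indicator_of_mem]
  · rfl
  · simp [mem_Q, cl_sub]

end Pool.Agent.H62.Gab
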