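import Mathlib
import Pool.Agent.H62.Gab2

set_option autoImplicit false
open MeasureTheory Set Real Complex ComplexConjugate
open scoped InnerProductSpace ENNReal
open Pool.Agent.H92.CellGabor

namespace Pool.Agent.H62.Gab

variable {d : ℕ}

lemma one_dim {τ ξ : ℝ} (hτ : |τ| < 1) (hξ : |ξ| < 1) :
    ∫ t : ℝ, ((Ioc (0:ℝ) (0 + 1)).indicator (fun _ => (1 : ℂ)) (t - τ) *
      (Ioc (0:ℝ) (0 + 1)).indicator (fun _ => (1 : ℂ)) t) * cexp (-2 * π * I * ξ * t) ≠ 0 := by
  obtain ⟨h1, h2⟩ := abs_lt.mp hτ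
  have hab : max τ 0 < min (1 + τ) 1 := by
    simp only [max_lt_iff, lt_min_iff]; refine ⟨⟨?_, ?_⟩, ?_, ?_⟩ <;> linarith
  have hl : min (1 + τ) 1 - max τ 0 ≤ 1 := by
    have := min_le_right (1 + τ) 1; have := le_max_right τ 0; linarith
  have e : (fun t : ℝ => ((Ioc (0:ℝ) (0 + 1)).indicator (fun _ => (1 : ℂ)) (t - τ) *
      (Ioc (0:ℝ) (0 + 1)).indicator (fun _ => (1 : ℂ)) t) * cexp (-2 * π * I * ξ * t)) =
      (Ioc (max τ 0) (min (1 + τ) 1)).indicator fun t : ℝ => cexp (-2 * π * I * ξ * t) := by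
    ext t
    simp only [indicator, mem_Ioc, max_lt_iff, le_min_iff, sub_pos, sub_le_iff_le_add, zero_add]
    by_cases a1 : τ < t <;> by_cases a2 : t ≤ 1 + τ <;> by_cases a3 : 0 < t <;> by_cases a4 : t ≤ 1 <;>
      simp [a1, a2, a3, a4]
  rw [e, integral_indicator measurableSet_Ioc, ← intervalIntegral.integral_of_le hab.le]
  generalize max τ 0 = a, min (1 + τ) 1 = b at *
  by_cases h0 : ξ = 0
  · simp only [h0, ofReal_zero, mul_zero, zero_mul, Complex.exp_zero, intervalIntegral.integral_const,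
      real_smul, mul_one, ofReal_ne_zero]
    linarith
  · have hc : (-2 * π * I * ξ : ℂ) ≠ 0 := by simp [h0, pi_ne_zero]
    rw [integral_exp_mul_complex hc]
    refine div_ne_zero (fun h => ?_) hc
    obtain ⟨n, hn⟩ := Complex.exp_eq_exp_iff_exists_int.mp (sub_eq_zero.mp h)
    have h3 : (2 * π * I : ℂ) * ((ξ * (b - a) + n : ℝ) : ℂ) = 0 := by push_cast; linear_combination -hn
    have h4 : ξ * (b - a) + n = 0 := by
      exact_mod_cast (mul_eq_zero.mp h3).resolve_left two_pi_I_ne_zero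
    have h5 : |(n : ℝ)| < 1 := by
      rw [show (n : ℝ) = -(ξ * (b - a)) by linarith, abs_neg, abs_mul, abs_of_pos (sub_pos.mpr hab)]
      nlinarith [abs_nonneg ξ]
    have h6 : n = 0 := Int.abs_lt_one_iff.mp (by exact_mod_cast h5)
    rw [h6, Int.cast_zero, add_zero] at h4
    exact mul_ne_zero h0 (sub_pos.mpr hab).ne' h4

lemma ind_Q (y : V d) : (EA {0}).indicator (fun _ => (1 : ℂ)) y =
    ∏ i, (Ioc (0:ℝ) (0 + 1)).indicator (fun _ => (1 : ℂ)) (y i) := by
  rw [EA_zero]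
  by_cases h : y ∈ Q d
  · rw [indicator_of_mem h, Finset.prod_eq_one fun i _ => indicator_of_mem (h i) _]
  · rw [indicator_of_notMem h]
    obtain ⟨i, hi⟩ := not_forall.mp h
    exact (Finset.prod_eq_zero (Finset.mem_univ i) (indicator_of_notMem hi _)).symm

lemma K_ne (u w : V d × V d) (h1 : ∀ i, |u.1 i - w.1 i| < 1) (h2 : ∀ i, |u.2 i - w.2 i| < 1) :
    ip (gab {0} u) (gab {0} w) ≠ 0 := by
  have := ip_shift {0} {0} (u - w) 0 w
  rw [sub_add_cancel, zero_add] at this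
  rw [this]
  refine mul_ne_zero (ee_ne _ _) ?_
  rw [ip_gab, ← (PiLp.volume_preserving_toLp (Fin d)).integral_comp
    (MeasurableEquiv.toLp 2 _).measurableEmbedding]
  have := integral_fintype_prod_volume_eq_prod fun (i : Fin d) (t : ℝ) =>
    ((Ioc (0:ℝ) (0 + 1)).indicator (fun _ => (1 : ℂ)) (t - (u.1 i - w.1 i)) *
      (Ioc (0:ℝ) (0 + 1)).indicator (fun _ => (1 : ℂ)) t) * cexp (-2 * π * I * (u.2 i - w.2 i : ℝ) * t)
  refine ne_of_eq_of_ne (Eq.trans ?_ this) (Finset.prod_ne_zero_iff.mpr fun i _ => one_dim (h1 i) (h2 i))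
  congr 1; ext x
  simp only [ind_Q, Finset.prod_mul_distrib, ← Complex.exp_sum, ee]
  congr 2
  · simp
  · simp [PiLp.inner_apply, Finset.mul_sum]
    exact Finset.sum_congr rfl fun i _ => by ring

lemma K_zero (u w : V d × V d) (i : Fin d) (h1 : 1 ≤ |u.1 i - w.1 i|) :
    ip (gab {0} u) (gab {0} w) = 0 := by
  rw [ip_gab]
  refine Eq.trans (integral_congr_ae (.of_forall fun x => ?_)) (integral_zero _ _)
  simp only [indicator]
  split_ifs with a1 a2
  · rw [EA_zero] at a1 a2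
    have b1 := a1 i
    have b2 := a2 i
    simp only [PiLp.sub_apply, mem_Ioc] at b1 b2
    exact absurd (abs_lt.mpr ⟨by linarith, by linarith⟩) h1.not_gt
  all_goals simp

lemma gL_sum (A : Finset (Fin d → ℤ)) (u : V d × V d) : gL A u = ∑ β ∈ A, gL {0} (u + (ι β, 0)) := by
  have e : gab A u = fun x => ∑ β ∈ A, gab {0} (u + (ι β, 0)) x := by
    ext x
    simp only [gab, Prod.fst_add, Prod.snd_add, add_zero, ← Finset.sum_mul, ← sub_sub, indicator, EA,
      mem_ofPred_eq, cl_sub, Finset.mem_singleton, sub_eq_zero, Finset.sum_ite_eq]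
  refine ext_inner_left ℂ fun f => ?_
  rw [inner_sum, ← Lp.toLp_coeFn f (Lp.memLp f)]
  simp only [gL, inn, ip]
  rw [← integral_finsetSum]
  · congr 1; ext x; rw [e, Finset.sum_mul]
  · intro β _
    exact (memLp_gab _ _).integrable_mul (Lp.memLp f).star

lemma key {A : Finset (Fin d → ℤ)} (hev : ∀ α ∈ A, ∀ i, 2 ∣ α i) {s s' ω : V d × V d}
    (h1 : ω - s ∈ EA A ×ˢ Q d) (h2 : ω - s' ∈ EA A ×ˢ Q d) (h : ip (gab A s) (gab A s') = 0) :
    ∑ β ∈ A with β - cl (ω - s).1 + cl (ω - s').1 ∈ A, ee (ι (β - cl (ω - s).1)) (s.2 - s'.2) = 0 := by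
  set α := cl (ω - s).1 with hα
  set α' := cl (ω - s').1 with hα'
  have q1 : (ω - s).1 - ι α ∈ Q d := by rw [mem_Q, cl_sub, sub_self]
  have q2 : (ω - s').1 - ι α' ∈ Q d := by rw [mem_Q, cl_sub, sub_self]
  have t1 : ∀ i, |(s.1 i + α i) - (s'.1 i + α' i)| < 1 := fun i => by
    have b1 := q1 i
    have b2 := q2 i
    simp only [PiLp.sub_apply, mem_Ioc, Prod.fst_sub, ι] at b1 b2
    exact abs_lt.mpr ⟨by linarith, by linarith⟩
  have t2 : ∀ i, |s.2 i - s'.2 i| < 1 := fun i => by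
    have b1 := h1.2 i
    have b2 := h2.2 i
    simp only [PiLp.sub_apply, mem_Ioc, Prod.snd_sub] at b1 b2
    exact abs_lt.mpr ⟨by linarith, by linarith⟩
  have hK := K_ne (s + (ι α, 0)) (s' + (ι α', 0)) (by simpa [ι] using t1) (by simpa using t2)
  refine (mul_eq_zero.mp ?_).resolve_right hK
  refine Eq.trans ?_ h
  rw [← inn_gL, ← inn_gL, gL_sum A, gL_sum A, inner_sum, Finset.sum_filter, Finset.sum_mul]
  refine Finset.sum_congr rfl fun β hβ => ?_
  rw [sum_inner, Finset.sum_eq_ite (β - α + α')]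
  · split_ifs with a1
    · have := ip_shift {0} {0} (s + (ι α, 0)) (s' + (ι α', 0)) (ι (β - α), 0)
      simp only [Prod.snd_add, add_zero] at this
      rw [inn_gL, inn_gL, ← this]
      congr 2 <;> ext <;> simp [ι]
      ring
    · exact zero_mul _
  · intro β' hβ' hne
    rw [inn_gL]
    obtain ⟨i, hi⟩ := Function.ne_iff.mp hne
    refine K_zero _ _ i ?_
    have := t1 i
    simp only [Pi.add_apply, Pi.sub_apply] at hi
    have e1 := hev _ hβ i
    have e2 := hev _ hβ' i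
    have e3 := hev _ h1.1 i
    have e4 := hev _ h2.1 i
    rw [← hα] at e3
    rw [← hα'] at e4
    have : β' i - (β i - α i + α' i) ≤ -2 ∨ 2 ≤ β' i - (β i - α i + α' i) := by omega
    simp only [Prod.fst_add, PiLp.add_apply, ι]
    rw [abs_lt] at *
    rcases this with h | h
    · have : ((β' i - (β i - α i + α' i) : ℤ) : ℝ) ≤ -2 := by exact_mod_cast h
      push_cast at this
      exact le_abs.mpr (Or.inl (by linarith))
    · have : (2 : ℝ) ≤ ((β' i - (β i - α i + α' i) : ℤ) : ℝ) := by exact_mod_cast h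
      push_cast at this
      exact le_abs.mpr (Or.inr (by linarith))

theorem lattice_tile {A : Finset (Fin d → ℤ)} (hA : A.Nonempty) (hev : ∀ α ∈ A, ∀ i, 2 ∣ α i)
    (hsid : ∀ α ∈ A, ∀ α' ∈ A, ∀ β ∈ A, β - α + α' ∈ A → α = α' ∨ β = α) {S : Set (V d × V d)}
    (h1 : ∀ p ∈ S, ∀ q ∈ S, p ≠ q → ip (gab A p) (gab A q) = 0)
    (h2 : ∀ f : V d → ℂ, MemLp f 2 volume → (∀ p ∈ S, ip f (gab A p) = 0) → f =ᵐ[volume] 0) :
    ∃ c : (Fin d → ℤ) → Fin d → ℤ, ∀ m, c m ∈ A ∧ ∀ β ∈ A, c (m - c m + β) = β := by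
  classical
  have K1 : ∀ ω, ∀ s ∈ S, ∀ s' ∈ S, ω - s ∈ EA A ×ˢ Q d → ω - s' ∈ EA A ×ˢ Q d →
      cl (ω - s).1 = cl (ω - s').1 := by
    intro ω s hs s' hs' a1 a2
    by_contra hne
    have := key hev a1 a2 (h1 s hs s' hs' fun e => hne (by rw [e]))
    rw [Finset.sum_eq_single_of_mem (cl (ω - s).1) (Finset.mem_filter.mpr ⟨a1.1, by simpa [EA] using a2.1⟩)
      fun β hβ hb => absurd ((hsid _ a1.1 _ a2.1 _ (Finset.mem_filter.mp hβ).1
        (Finset.mem_filter.mp hβ).2).resolve_left hne) hb] at this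
    exact ee_ne _ _ this
  have li : ∀ ω : V d × V d, LinearIndependent ℂ fun s : {s : S | ω - s ∈ EA A ×ˢ Q d} =>
      (WithLp.toLp 2 fun β : A => ee (ι β) s.1.1.2 : EuclideanSpace ℂ A) := by
    intro ω
    refine linearIndependent_of_ne_zero_of_inner_eq_zero (fun s h => ?_) fun s s' hne => ?_
    · obtain ⟨β, hβ⟩ := hA
      exact ee_ne _ _ (congrArg (fun v : EuclideanSpace ℂ A => v ⟨β, hβ⟩) h)
    · have := key hev s'.2 s.2 (h1 _ s'.1.2 _ s.1.2 fun e => hne (Subtype.ext (Subtype.ext e.symm)))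
      rw [K1 ω _ s'.1.2 _ s.1.2 s'.2 s.2, Finset.filter_true_of_mem fun β hβ => by simpa using hβ] at this
      simp only [sub_eq_add_neg _ (cl _), ι_add, ee_addl, ← Finset.sum_mul] at this
      refine Eq.trans ?_ ((mul_eq_zero.mp this).resolve_right (ee_ne _ _))
      rw [PiLp.inner_apply, ← Finset.sum_coe_sort A]
      refine Finset.sum_congr rfl fun β _ => ?_
      simp [ee_conj, sub_eq_add_neg, ee_addr]
  have hH : ∀ ω : V d × V d, ∑' s : S, (EA A ×ˢ Q d).indicator (1 : V d × V d → ℝ≥0∞) (ω - s) ≤ A.card := by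
    intro ω
    have := (li ω).finite
    have := Fintype.ofFinite {s : S | ω - s ∈ EA A ×ˢ Q d}
    have h3 := (li ω).fintype_card_le_finrank
    rw [finrank_euclideanSpace, Fintype.card_coe] at h3
    have h4 := tsum_subtype {s : S | ω - s ∈ EA A ×ˢ Q d} (1 : S → ℝ≥0∞)
    rw [tsum_fintype] at h4
    refine le_of_eq_of_le (Eq.trans (tsum_congr fun s => ?_) h4.symm) (by simpa using h3)
    simp [indicator]
  have hc : Countable S := by
    obtain ⟨β, hβ⟩ := hA
    have : ⋃ l : (Fin d → ℤ) × (Fin d → ℤ), {s : S | (ι l.1, ι l.2) - s ∈ EA A ×ˢ Q d} = univ := by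
      refine eq_univ_of_forall fun s => mem_iUnion.mpr ⟨(β - cl (-s.1.1), -cl (-s.1.2)), ?_, ?_⟩
      · change cl (ι _ - s.1.1) ∈ A
        rw [sub_eq_neg_add, cl_add]; simpa using hβ
      · change ι _ - s.1.2 ∈ Q d
        rw [sub_eq_neg_add, mem_Q, cl_add]; simp
    rw [← countable_univ_iff, ← this]
    exact countable_iUnion fun l => (Set.finite_coe_iff.mp (li _).finite).countable
  have hm : MeasurableSet (EA A ×ˢ Q d) := (meas_EA A).prod meas_Q
  have hG := measurable_one.indicator (β := ℝ≥0∞) hm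
  let μ := (volume : Measure (V d × V d)).withDensity (F A)
  have hμ : μ univ ≤ A.card := by simpa [μ] using int_F A
  have hI : ∀ ω : V d × V d, ∫⁻ y, ∑' s : S, (EA A ×ˢ Q d).indicator 1 (y + ω - s) ∂μ = A.card * A.card := by
    intro ω
    rw [lintegral_withDensity_eq_lintegral_mul _ (meas_F A) (by fun_prop)]
    have := swap (fun s : S => s.1 - ω) (meas_F A) hG
    simp only [← sub_add, sub_add_eq_add_sub] at this
    refine this.trans ?_
    have e : ∀ v : V d × V d, ∑' s : S, F A (v + (s.1 - ω)) = A.card := fun v => by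
      rw [← pars hA h1 h2 (ω - v)]
      exact tsum_congr fun s => congrArg _ (by abel)
    simp only [e]
    rw [lintegral_mul_const _ hG, lintegral_indicator_one hm, Measure.volume_eq_prod, Measure.prod_prod,
      ← EA_zero, vol_EA, vol_EA]
    simp
  have n0 : (A.card : ℝ≥0∞) ≠ 0 := by exact_mod_cast hA.card_pos.ne'
  have hae : ∀ ω : V d × V d, ∀ᵐ y ∂μ, ∑' s : S, (EA A ×ˢ Q d).indicator (1 : V d × V d → ℝ≥0∞) (y + ω - s) = A.card := by
    intro ω
    refine ae_eq_of_ae_le_of_lintegral_le (.of_forall fun y => hH _) ?_ measurable_const.aemeasurable ?_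
    · rw [hI]; finiteness
    · rw [hI, lintegral_const]; gcongr
  have : NeZero μ := ⟨fun h => by
    have := hI 0
    rw [h, lintegral_zero_measure] at this
    exact mul_ne_zero n0 n0 this.symm⟩
  obtain ⟨y, hy⟩ := (ae_all_iff.mpr fun m : Fin d → ℤ => hae (ι m, 0)).exists
  have ex : ∀ m : Fin d → ℤ, ∃ s ∈ S, y + (ι m, 0) - s ∈ EA A ×ˢ Q d := by
    intro m
    by_contra! h
    apply n0
    rw [← hy m]
    exact ENNReal.tsum_eq_zero.mpr fun s => indicator_of_notMem (h _ s.2) _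
  choose s hs hs' using ex
  refine ⟨fun m => cl (y + (ι m, 0) - s m).1, fun m => ⟨mem_ofPred_eq ▸ (hs' m).1, fun β hβ => ?_⟩⟩
  beta_reduce
  set α := cl (y + (ι m, 0) - s m).1 with hα
  have e : cl (y + (ι (m - α + β), 0) - s m).1 = β := by
    have : (y + (ι (m - α + β), 0) - s m).1 = (y + (ι m, 0) - s m).1 + ι (β - α) := by
      simp only [Prod.fst_sub, Prod.fst_add, ι_add, ι_sub]; abel
    rw [this, cl_add, ← hα]; abel
  rw [← K1 _ _ (hs m) _ (hs _) ⟨by rw [EA, mem_ofPred_eq, e]; exact hβ, by simpa using (hs' m).2⟩ (hs' _), e]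

end Pool.Agent.H62.Gab
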