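import Mathlib
import Pool.Agent.H62.Gab1
import Pool.Agent.H62.Gab3

set_option autoImplicit false
open MeasureTheory Set Real Complex ComplexConjugate
open scoped InnerProductSpace ENNReal
open Pool.Agent.H92.CellGabor

namespace Pool.Agent.H62.Gab

theorem spec_complete {d : ℕ} {J : Type} [Countable J] (A : Finset (Fin d → ℤ)) (β : J → V d)
    (hC : ∀ F : (Fin d → ℤ) → ℂ, (∀ j, ∑ n ∈ A, F n * ee (ι n) (β j) = 0) → ∀ n ∈ A, F n = 0)
    {f : V d → ℂ} (hf : MemLp f 2 (volume.restrict (EA A)))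
    (H : ∀ j k, ∫ x in EA A, f x * ee x (β j + ι k) = 0) : f =ᵐ[volume.restrict (EA A)] 0 := by
  have hg : MemLp ((EA A).indicator f) 2 volume := (memLp_indicator_iff_restrict (meas_EA A)).mpr hf
  set g := (EA A).indicator f with hgd
  have m1 : ∀ y : V d, MemLp (fun x => g (x + y)) 2 (volume.restrict (Q d)) := fun y =>
    (hg.comp_measurePreserving (measurePreserving_add_right volume y)).restrict _
  have i1 : ∀ (y b : V d), IntegrableOn (fun x => g (x + y) * ee (x + y) b) (Q d) := fun y b =>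
    ((m1 y).integrable one_le_two).mul_bdd (c := 1) (by fun_prop) (.of_forall fun _ => (ee_norm _ _).le)
  have s1 : ∀ j, ∀ᵐ x ∂volume.restrict (Q d), ∑ n ∈ A, g (x + ι n) * ee (ι n) (β j) = 0 := by
    intro j
    have := uniq (h := fun x => ee x (β j) * ∑ n ∈ A, g (x + ι n) * ee (ι n) (β j))
      ((memLp_finsetSum A fun n _ => (m1 _).mul_const _).mul'
        (bd (by fun_prop) (fun _ => (ee_norm _ _).le) ⊤))
      fun k => by
        have e := int_E A (fun x => g x * ee x (β j + ι k)) fun n _ => i1 _ _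
        rw [← integral_finsetSum _ fun n _ => i1 _ _] at e
        refine Eq.trans ?_ (e.symm.trans (Eq.trans ?_ (H j k)))
        · congr 1; ext x
          simp only [Finset.mul_sum, Finset.sum_mul, ee_addl _ (ι _), ee_addr, ee_int]
          exact Finset.sum_congr rfl fun n _ => by ring
        · exact setIntegral_congr_fun (meas_EA A) fun x (hx : x ∈ EA A) => by simp only [hgd, indicator_of_mem hx]
    filter_upwards [this] with x hx using (mul_eq_zero.mp hx).resolve_left (ee_ne _ _)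
  have s2 : ∀ m, ∀ᵐ x, m ∈ A → x - ι m ∈ Q d → g x = 0 := fun m => by
    have : ∀ᵐ x, x ∈ Q d → m ∈ A → g (x + ι m) = 0 := (ae_restrict_iff' meas_Q).mp (by
      filter_upwards [ae_all_iff.mpr s1] with x hx using hC (fun m => g (x + ι m)) hx m)
    filter_upwards [(measurePreserving_sub_right volume (ι m)).quasiMeasurePreserving.ae this] with x hx a1 a2
    simpa using hx a2 a1
  refine (ae_restrict_iff' (meas_EA A)).mpr ?_
  filter_upwards [ae_all_iff.mpr s2] with x hx hE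
  have := hx (cl x) hE (by rw [mem_Q, cl_sub, sub_self])
  rwa [hgd, indicator_of_mem hE] at this

noncomputable def ζ : ℂ := cexp (-2 * π * I / 8)

def W (e : ℤ) (r : Fin 4) : ℤ := if e % 8 = r then 1 else if e % 8 = r + 4 then -1 else 0

lemma ζ4 : ζ ^ 4 = -1 := by
  rw [ζ, ← Complex.exp_nat_mul, ← exp_neg_pi_mul_I]; congr 1; push_cast; ring

lemma ζ_zpow (e : ℤ) : ζ ^ e = ∑ r : Fin 4, (W e r : ℂ) * ζ ^ (r : ℕ) := by
  have h8 : ζ ^ (8 : ℤ) = 1 := by
    rw [show (8 : ℤ) = ((4 * 2 : ℕ) : ℤ) by rfl, zpow_natCast, pow_mul, ζ4]; norm_num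
  have z0 : ζ ≠ 0 := Complex.exp_ne_zero _
  have h9 : ζ ^ e = ζ ^ (e % 8) := by
    conv_lhs => rw [← Int.emod_add_mul_ediv e 8, zpow_add₀ z0, zpow_mul, h8, one_zpow, mul_one]
  rw [h9, Fin.sum_univ_four]
  simp only [W]
  have h1 := Int.emod_nonneg e (show (8 : ℤ) ≠ 0 by decide)
  have h2 := Int.emod_lt_of_pos e (show (0 : ℤ) < 8 by decide)
  generalize e % 8 = t at *
  have := ζ4
  interval_cases t <;> simp [zpow_ofNat]
  · exact this
  · linear_combination ζ * this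
  · linear_combination ζ ^ 2 * this
  · linear_combination ζ ^ 3 * this

lemma sum_ζ (e : Fin 6 → ℤ) (h : ∀ r, ∑ k, W (e k) r = 0) : ∑ k, ζ ^ e k = 0 := by
  simp only [ζ_zpow]
  rw [Finset.sum_comm]
  refine Finset.sum_eq_zero fun r _ => ?_
  rw [← Finset.sum_mul, ← Int.cast_sum, h, Int.cast_zero, zero_mul]

def ℓ : Fin 6 → G := ![![0, 0, 0], ![4, 2, 6], ![6, 3, 4], ![2, 4, 1], ![2, 6, 5], ![6, 7, 2]]

noncomputable def fr (l : G) : V 3 := (1 / 16 : ℝ) • ι l

lemma fr_sub (l l' : G) : fr (l - l') = fr l - fr l' := by rw [fr, ι_sub, smul_sub]; rfl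

lemma ee_fr (m l : G) : ee (ι (2 • m)) (fr l) = ζ ^ (∑ i, m i * l i) := by
  rw [ζ, ← Complex.exp_int_mul, ee]
  congr 1
  simp [fr, ι, PiLp.inner_apply, Fin.sum_univ_three]
  ring

def A6 : Finset G := Finset.univ.image fun k => 2 • a k

lemma sum_A6 (F : G → ℂ) : ∑ n ∈ A6, F n = ∑ k, F (2 • a k) :=
  Finset.sum_image (fun i _ j _ => by revert i j; decide)

lemma spec_orth (j j' : Fin 6) (k k' : G) (h : fr (ℓ j) + ι k ≠ fr (ℓ j') + ι k') :
    ∫ x in EA A6, ee x (fr (ℓ j) + ι k - (fr (ℓ j') + ι k')) = 0 := by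
  rw [add_sub_add_comm, ← fr_sub, ← ι_sub]
  refine (int_E A6 (fun x => ee x _) fun n _ => int_ee _ _).trans ?_
  simp only [ee_addl, integral_mul_const, ee_addr (ι _), ee_int, mul_one, ← Finset.mul_sum]
  by_cases hj : j = j'
  · subst hj
    rw [sub_self, show fr 0 = 0 by simp [fr, ι_zero], zero_add, int_Q, if_neg, zero_mul]
    exact fun e => h (by rw [sub_eq_zero.mp e])
  · rw [sum_A6]
    simp only [ee_fr]
    rw [sum_ζ _ (by clear h; revert j j'; decide), mul_zero]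

lemma spec_inv (F : G → ℂ) (h : ∀ j, ∑ n ∈ A6, F n * ee (ι n) (fr (ℓ j)) = 0) : ∀ n ∈ A6, F n = 0 := by
  intro n hn
  obtain ⟨k, -, rfl⟩ := Finset.mem_image.mp hn
  have z0 : ζ ≠ 0 := Complex.exp_ne_zero _
  have h1 : ∑ j, (∑ n ∈ A6, F n * ee (ι n) (fr (ℓ j))) * ζ ^ (-∑ i, a k i * ℓ j i) = 0 := by simp [h]
  simp only [sum_A6, ee_fr, Finset.sum_mul, mul_assoc, ← zpow_add₀ z0] at h1
  rw [Finset.sum_comm, Finset.sum_eq_single k] at h1
  · simpa using h1
  · intro k' _ hk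
    rw [← Finset.mul_sum, sum_ζ _ (by clear h1 hn; revert k k'; decide), mul_zero]
  · simp

theorem no_gabor (S : Set (V 3 × V 3))
    (h1 : ∀ p ∈ S, ∀ q ∈ S, p ≠ q → ip (gab A6 p) (gab A6 q) = 0)
    (h2 : ∀ f : V 3 → ℂ, MemLp f 2 volume → (∀ p ∈ S, ip f (gab A6 p) = 0) → f =ᵐ[volume] 0) : False := by
  obtain ⟨c, hc⟩ := lattice_tile (A := A6) (by decide) (by decide) (by decide) h1 h2
  have : ∀ m : G, ∃ k, 2 • a k = c (2 • m) := fun m => by
    obtain ⟨k, -, hk⟩ := Finset.mem_image.mp (hc (2 • m)).1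
    exact ⟨k, hk⟩
  choose κ hκ using this
  refine no_tile κ fun m k => ?_
  have := (hc (2 • m)).2 _ (Finset.mem_image_of_mem _ (Finset.mem_univ k))
  rw [← hκ m, ← smul_sub, ← smul_add, ← hκ] at this
  revert this
  generalize κ _ = k'
  revert k k'; decide

end Pool.Agent.H62.Gab
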