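import Mathlib

set_option autoImplicit false

namespace Pool.Agent.H62.Golomb

/-- `a` (with `a 0 = 0` standing for all indices `≤ 0`) is a nondecreasing sequence of positive
integers with `a (a n + a (n-1) + ... + a (n-r+1)) = n` for all `n ≥ 1`. -/
def Sol (r : ℕ) (a : ℕ → ℕ) : Prop :=
  a 0 = 0 ∧ (∀ n, 1 ≤ n → 0 < a n) ∧ Monotone a ∧
    ∀ n, 1 ≤ n → a (∑ i ∈ Finset.range r, a (n - i)) = n

/-- The almost Golomb sequence of order `r`: the solution in which every term is as small as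
possible given the earlier terms (the lexicographically least solution). -/
def IsAlmostGolomb (r : ℕ) (a : ℕ → ℕ) : Prop :=
  Sol r a ∧ ∀ b, Sol r b → ∀ n, (∀ i < n, b i = a i) → a n ≤ b n

/-- Golomb's sequence (indices `n ≥ 1`): positive, nondecreasing, and each `n ≥ 1` occurs exactly
`G n` times. -/
def IsGolomb (G : ℕ → ℕ) : Prop :=
  (∀ n, 1 ≤ n → 0 < G n) ∧ (∀ m n, 1 ≤ m → m ≤ n → G m ≤ G n) ∧
    ∀ n, 1 ≤ n → {i | 1 ≤ i ∧ G i = n}.encard = G n

/-- `M = sup_n N(n)`, where `N(n)` is the number of indices `i ≥ 1` with `a i = n`. -/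
noncomputable def maxMult (a : ℕ → ℕ) : ℕ∞ := ⨆ n : ℕ, {i | 1 ≤ i ∧ a i = n}.encard

end Pool.Agent.H62.Golomb
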