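import Mathlib
import Pool.Agent.H62.GolombDefs

set_option autoImplicit false

namespace Pool.Agent.H62.Golomb

open Finset

/-- window sums -/
def W (r : ℕ) (a : ℕ → ℕ) (n : ℕ) : ℕ := ∑ i ∈ range r, a (n - i)

lemma W_mono {r : ℕ} {a : ℕ → ℕ} (h : Monotone a) : Monotone (W r a) :=
  fun _ _ hmn => sum_le_sum fun _ _ => h (Nat.sub_le_sub_right hmn _)

lemma W_zero {r : ℕ} {a : ℕ → ℕ} (h : a 0 = 0) : W r a 0 = 0 := by simp [W, h]

lemma Sol.eq {r : ℕ} {a : ℕ → ℕ} (h : Sol r a) (n : ℕ) : a (W r a n) = n := by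
  rcases Nat.eq_zero_or_pos n with rfl | hn
  · rw [W_zero h.1, h.1]
  · exact h.2.2.2 n hn

lemma Sol.strict {r : ℕ} {a : ℕ → ℕ} (h : Sol r a) : StrictMono (W r a) := by
  refine (W_mono h.2.2.1).strictMono_of_injective fun m n e => ?_
  rw [← h.eq m, e, h.eq n]

lemma Sol.le_self {r : ℕ} {a : ℕ → ℕ} (h : Sol r a) (n : ℕ) : a n ≤ n := by
  have := h.2.2.1 (h.strict.id_le n)
  rwa [h.eq] at this

lemma Sol.exists_idx {r : ℕ} {a : ℕ → ℕ} (h : Sol r a) (m : ℕ) :
    ∃ n, W r a n ≤ m ∧ m < W r a (n + 1) := by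
  induction m with
  | zero => exact ⟨0, (W_zero h.1).le, by simpa [W_zero h.1] using h.strict (Nat.lt_succ_self 0)⟩
  | succ m ih =>
    obtain ⟨n, h1, h2⟩ := ih
    by_cases e : m + 1 < W r a (n + 1)
    · exact ⟨n, by omega, e⟩
    · have := h.strict (show n + 1 < n + 1 + 1 by omega)
      exact ⟨n + 1, by omega, by omega⟩

lemma W_le_mul {r : ℕ} {a : ℕ → ℕ} (h : Monotone a) (n : ℕ) : W r a n ≤ r * a n := by
  have := sum_le_card_nsmul (range r) (fun i => a (n - i)) (a n) fun i _ => h (Nat.sub_le _ _)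
  unfold W
  simpa using this

lemma mul_le_W {r : ℕ} {a : ℕ → ℕ} (h : Monotone a) (n k : ℕ) (hk : k ≤ r) :
    k * a (n - k) ≤ W r a n := by
  have := card_nsmul_le_sum (range k) (fun i => a (n - i)) (a (n - k)) fun i hi =>
    h (Nat.sub_le_sub_left (mem_range.mp hi).le _)
  simp only [card_range, smul_eq_mul] at this
  exact this.trans (sum_le_sum_of_subset (range_subset_range.mpr hk))

lemma Sol.W_le_sq {r : ℕ} {a : ℕ → ℕ} (h : Sol r a) (n : ℕ) : W r a n ≤ n ^ 2 := by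
  have h1 : W r a n ≤ ∑ i ∈ range n, a (n - i) := by
    apply sum_le_sum_of_ne_zero
    intro i _ hi
    by_contra hc
    rw [mem_range, not_lt] at hc
    rw [Nat.sub_eq_zero_of_le hc, h.1] at hi
    exact hi rfl
  have h2 := W_le_mul (r := n) h.2.2.1 n
  have h3 := h.le_self n
  unfold W at h2
  nlinarith

lemma Sol.ge_of_sq {r : ℕ} {a : ℕ → ℕ} (h : Sol r a) {s m : ℕ} (hm : s ^ 2 ≤ m) : s ≤ a m := by
  have := h.2.2.1 ((h.W_le_sq s).trans hm)
  rwa [h.eq] at this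

lemma Sol.big {r : ℕ} {a : ℕ → ℕ} (h : Sol r a) (t j : ℕ) (h1 : 2 * (80 * t) ^ 2 + 40 ≤ j)
    (h2 : j ≤ 18 * r) : t * (j + 1) ≤ W r a j := by
  have h3 := mul_le_W (r := r) h.2.2.1 j (j / 18) (by omega)
  have h4 : 80 * t ≤ a (j - j / 18) := h.ge_of_sq (by omega)
  have h5 : j + 1 ≤ 80 * (j / 18) := by omega
  nlinarith

lemma Sol.upper {r : ℕ} {a : ℕ → ℕ} (h : Sol r a) (t x : ℕ)
    (h1 : (2 * (80 * t) ^ 2 + 41) ^ 2 ≤ x) (h2 : x < W r a (18 * r + 1)) : t * a x ≤ x := by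
  obtain ⟨j, a1, a2⟩ := h.exists_idx x
  have a3 : j < 18 * r + 1 := h.strict.lt_iff_lt.mp (a1.trans_lt h2)
  have a4 := h.W_le_sq (j + 1)
  have a5 : 2 * (80 * t) ^ 2 + 41 < j + 1 :=
    lt_of_pow_lt_pow_left₀ 2 (by positivity) (h1.trans_lt (a2.trans_le a4))
  have a6 := h.big t j (by omega) (by omega)
  have a7 : a x ≤ j + 1 := by
    have := h.2.2.1 a2.le
    rwa [h.eq] at this
  nlinarith

lemma arith1 (u d r m : ℤ) (hr : 1 ≤ r) (hd : 16 * r ≤ d) (hm : 2 * (d + r) ≤ m)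
    (h : u * d ^ 2 ≤ (2 * d - 16 * r) * m) : u * (d + r + 1) ≤ 2 * m - 16 * r := by
  have f1 : u * (d + r + 1) * d ^ 2 ≤ (d + r + 1) * ((2 * d - 16 * r) * m) := by
    have := mul_le_mul_of_nonneg_left h (show 0 ≤ d + r + 1 by linarith)
    linarith
  have f2 : 0 ≤ r * d := by nlinarith
  have f3 : 16 * r * d ^ 2 ≤ m * (12 * r * d) := by
    have := mul_le_mul_of_nonneg_right (show 2 * d ≤ m by linarith) f2
    nlinarith
  have f4 : m * (12 * r * d) ≤ m * (16 * r * d - 2 * d * (r + 1) + 16 * r * (r + 1)) := by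
    apply mul_le_mul_of_nonneg_left _ (by linarith)
    nlinarith
  have e1 : u * (d + r + 1) * d ^ 2 ≤ (2 * m - 16 * r) * d ^ 2 := by nlinarith
  exact le_of_mul_le_mul_right e1 (by nlinarith)

lemma arith2 (u n r m x y : ℤ) (hu : 0 ≤ u) (hr : 1 ≤ r) (hn : 16 * r ≤ n) (hm : 2 * n ≤ m)
    (h1 : m ≤ r * x) (h2 : u * x ≤ 2 * (n + 1) - 16 * r) (h3 : n ≤ y) :
    u * m ^ 2 ≤ (2 * m - 16 * r) * r * y := by
  have e1 : u * m ≤ r * (2 * (n + 1) - 16 * r) := by
    have a := mul_le_mul_of_nonneg_left h1 hu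
    have b := mul_le_mul_of_nonneg_left h2 (show 0 ≤ r by linarith)
    linarith
  have e2 : m * (2 * (n + 1) - 16 * r) ≤ (2 * m - 16 * r) * n := by nlinarith
  have e3 : 0 ≤ (2 * m - 16 * r) * r := by nlinarith
  have e4 := mul_le_mul_of_nonneg_left e1 (show 0 ≤ m by linarith)
  have e5 := mul_le_mul_of_nonneg_left e2 (show 0 ≤ r by linarith)
  have e6 := mul_le_mul_of_nonneg_left h3 e3
  linarith

lemma Sol.main {r : ℕ} {a : ℕ → ℕ} (h : Sol r a) (u : ℕ) (hu : 5 ≤ u)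
    (hr : ((2 * (80 * (2 * u)) ^ 2 + 41) ^ 2) ^ 2 ≤ r) (m : ℕ) (hm : 16 * r ≤ m) :
    (u : ℤ) * a m ≤ 2 * m - 16 * r ∧ (u : ℤ) * m ^ 2 ≤ (2 * m - 16 * r) * r * a m := by
  induction m using Nat.strong_induction_on with
  | _ m ih =>
    set K := (2 * (80 * (2 * u)) ^ 2 + 41) ^ 2 with hK
    have hK1 : 1 ≤ K := Nat.one_le_pow _ _ (by positivity)
    have hKr : K ≤ r := le_trans (by nlinarith) hr
    obtain ⟨n, a1, a2⟩ := h.exists_idx m
    have b1 : n ≤ a m := by
      have := h.2.2.1 a1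
      rwa [h.eq] at this
    have b2 : a m ≤ n + 1 := by
      have := h.2.2.1 a2.le
      rwa [h.eq] at this
    have b3 := W_le_mul (r := r) h.2.2.1 (n + 1)
    by_cases hn : n < 17 * r
    · have c1 := h.upper (2 * u) m (by omega)
        (a2.trans_le (h.strict.monotone (by omega)))
      have c2 : K < n + 1 := by
        have := h.W_le_sq (n + 1)
        exact lt_of_pow_lt_pow_left₀ 2 (by positivity) (by omega)
      have c3 := h.upper (2 * u) (n + 1) (by omega)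
        (lt_of_lt_of_le (by omega) (show 18 * r + 1 ≤ _ from h.strict.id_le _))
      have c4 : u * m ≤ r * a m := by
        have : 2 * (u * m) ≤ r * (n + 1) := by nlinarith
        have : r * (n + 1) ≤ r * (2 * a m) := Nat.mul_le_mul_left _ (by omega)
        nlinarith
      zify at c1 c4 hm
      refine ⟨by nlinarith [Int.natCast_nonneg (a m), Int.natCast_nonneg u], ?_⟩
      have : (0 : ℤ) ≤ r * a m := by positivity
      nlinarith
    · have hnm : n ≤ m := (h.strict.id_le n).trans a1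
      obtain ⟨d, rfl⟩ : ∃ d, n = d + r := ⟨n - r, by omega⟩
      obtain ⟨-, i2⟩ := ih d (by omega) (by omega)
      have c1 := mul_le_W (r := r) h.2.2.1 (d + r) r le_rfl
      rw [Nat.add_sub_cancel] at c1
      have c2 : r * a d ≤ m := c1.trans a1
      have hd : 16 * r ≤ d := by omega
      have hr1 : 1 ≤ r := by omega
      have c3 : (u : ℤ) * d ^ 2 ≤ (2 * d - 16 * r) * m := by
        zify at c2 hd
        nlinarith
      have c4 : 2 * (d + r) ≤ m := by
        zify at hd hr1 hu ⊢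
        have e1 : (5 : ℤ) * d ^ 2 ≤ 2 * d * m := by nlinarith [Int.natCast_nonneg m]
        have e2 : (5 : ℤ) * d ≤ 2 * m := by nlinarith
        linarith
      obtain ⟨j1, -⟩ := ih (d + r + 1) (by omega) (by omega)
      zify at b1 b2 b3 a2 c4 hd hr1 hu
      push_cast at j1
      have hu0 : (0 : ℤ) ≤ u := by positivity
      refine ⟨le_trans (mul_le_mul_of_nonneg_left b2 hu0) (arith1 u d r m hr1 hd c4 c3), ?_⟩
      exact arith2 u (d + r) r m _ _ hu0 hr1 (by linarith) c4 (by linarith) j1 b1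

open Filter Topology in
theorem limsup_tendsto (A : ℕ → ℕ → ℕ) (hA : ∀ r, 2 ≤ r → Sol r (A r)) :
    Tendsto (fun r => limsup (fun n : ℕ => (A r n : ℝ) / n) atTop) atTop (𝓝 0) := by
  rw [Metric.tendsto_atTop]
  intro ε hε
  obtain ⟨u, hu⟩ := exists_nat_gt (2 / ε + 5)
  have hu0 : 0 < 2 / ε := by positivity
  have hu5 : 5 ≤ u := by exact_mod_cast (show (5 : ℝ) ≤ u by linarith)
  refine ⟨((2 * (80 * (2 * u)) ^ 2 + 41) ^ 2) ^ 2 + 2, fun r hr => ?_⟩
  have h := hA r (by omega)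
  have hup : (0 : ℝ) < u := by linarith
  have hev : ∀ᶠ n : ℕ in atTop, (A r n : ℝ) / n ≤ 2 / u := by
    filter_upwards [eventually_ge_atTop (16 * r)] with n hn
    have h1 := (h.main u hu5 (by omega) n hn).1
    have h2 : (u : ℝ) * A r n ≤ 2 * n - 16 * r := by exact_mod_cast h1
    have hn0 : (0 : ℝ) < n := by exact_mod_cast (show 0 < n by omega)
    rw [div_le_div_iff₀ hn0 hup]
    have : (0 : ℝ) ≤ r := by positivity
    linarith
  have hb : IsBoundedUnder (· ≥ ·) atTop fun n : ℕ => (A r n : ℝ) / n :=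
    isBoundedUnder_of ⟨0, fun n => by positivity⟩
  have h1 : limsup (fun n : ℕ => (A r n : ℝ) / n) atTop ≤ 2 / u :=
    limsup_le_of_le hb.isCoboundedUnder_le hev
  have h2 : 0 ≤ limsup (fun n : ℕ => (A r n : ℝ) / n) atTop :=
    le_limsup_of_frequently_le (Frequently.of_forall fun n => by positivity)
      (isBoundedUnder_of_eventually_le hev)
  rw [Real.dist_eq, sub_zero, abs_of_nonneg h2]
  refine h1.trans_lt ?_
  rw [div_lt_iff₀ hup]
  have : 2 / ε < u := by linarith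
  rw [div_lt_iff₀ hε] at this
  linarith

end Pool.Agent.H62.Golomb
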