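import Mathlib
import Pool.Agent.H62.GolombLimsup

set_option autoImplicit false

namespace Pool.Agent.H62.Golomb

open Finset

/-- the greedy construction -/
def b (r : ℕ) : ℕ → ℕ
  | 0 => 0
  | 1 => 1
  | 2 => 2
  | 3 => 2
  | m + 4 => if ∑ i ∈ range r, b r (min (b r (m + 3) + 1 - i) (m + 3)) = m + 4 then
      b r (m + 3) + 1 else b r (m + 3)
termination_by m => m
decreasing_by all_goals omega

variable {r : ℕ}

lemma b0 : b r 0 = 0 := by rw [b]
lemma b1 : b r 1 = 1 := by rw [b]
lemma b2 : b r 2 = 2 := by rw [b]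
lemma b3 : b r 3 = 2 := by rw [b]

lemma b_step (m : ℕ) : b r m ≤ b r (m + 1) ∧ b r (m + 1) ≤ b r m + 1 := by
  match m with
  | 0 => simp [b0, b1]
  | 1 => simp [b1, b2]
  | 2 => simp [b2, b3]
  | m + 3 =>
    rw [show m + 3 + 1 = m + 4 from rfl]
    conv => enter [1, 2]; rw [b]
    conv => enter [2, 1]; rw [b]
    split_ifs <;> omega

lemma b_mono : Monotone (b r) := monotone_nat_of_le_succ fun m => (b_step m).1

lemma b_lip (x k : ℕ) : b r (x + k) ≤ b r x + k := by
  induction k with
  | zero => simp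
  | succ k ih =>
    have := (b_step (r := r) (x + k)).2
    rw [← add_assoc]
    omega

lemma b_lt {m : ℕ} (h : 3 ≤ m) : b r m + 1 ≤ m := by
  have := b_lip (r := r) 3 (m - 3)
  rw [b3, show 3 + (m - 3) = m by omega] at this
  omega

lemma b_ge {m : ℕ} (h : 2 ≤ m) : 2 ≤ b r m := b2 (r := r) ▸ b_mono h

lemma b_pos {m : ℕ} (h : 1 ≤ m) : 1 ≤ b r m := b1 (r := r) ▸ b_mono h

lemma b_succ {m : ℕ} (h : 3 ≤ m) :
    b r (m + 1) = if W r (b r) (b r m + 1) = m + 1 then b r m + 1 else b r m := by
  obtain ⟨m, rfl⟩ : ∃ k, m = k + 3 := ⟨m - 3, by omega⟩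
  rw [show m + 3 + 1 = m + 4 from rfl]
  conv => lhs; rw [b]
  have e : ∀ i, min (b r (m + 3) + 1 - i) (m + 3) = b r (m + 3) + 1 - i := fun i => by
    have := b_lt (r := r) h
    omega
  simp only [e, W]
  congr

lemma W_succ (a : ℕ → ℕ) (x : ℕ) : W r a (x + 1) + a (x + 1 - r) = W r a x + a (x + 1) := by
  unfold W
  rw [← sum_range_succ (fun i => a (x + 1 - i)), sum_range_succ']
  simp

lemma W_one (hr : 2 ≤ r) {a : ℕ → ℕ} (h : a 0 = 0) : W r a 1 = a 1 := by
  have := W_succ (r := r) a 0
  rw [W_zero h, show 0 + 1 - r = 0 by omega, h] at this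
  simpa using this

lemma W_two (hr : 2 ≤ r) {a : ℕ → ℕ} (h : a 0 = 0) : W r a 2 = a 1 + a 2 := by
  have := W_succ (r := r) a 1
  rw [W_one hr h, show 1 + 1 - r = 0 by omega, h] at this
  simpa using this

lemma Wb_two (hr : 2 ≤ r) : W r (b r) 2 = 3 := by rw [W_two hr b0, b1, b2]

lemma Wb_three (hr : 2 ≤ r) : W r (b r) 3 + b r (3 - r) = 5 := by
  have := W_succ (r := r) (b r) 2
  rwa [Wb_two hr, b3] at this

lemma Wb_three' (hr : 2 ≤ r) : 4 ≤ W r (b r) 3 ∧ W r (b r) 3 ≤ 5 ∧ W r (b r) 3 ≤ r + 2 := by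
  have h := Wb_three hr
  rcases eq_or_lt_of_le hr with rfl | h3
  · rw [b1] at h
    omega
  · rw [show 3 - r = 0 by omega, b0] at h
    omega

lemma gap_of (hr : 2 ≤ r) {x : ℕ} (hx : 1 ≤ x)
    (ih : ∀ m, m ≤ x → 3 ≤ m → W r (b r) (b r m) ≤ m ∧ m < W r (b r) (b r m + 1)) :
    b r (x - r) < b r x := by
  by_contra hc
  have e : b r (x - r) = b r x := le_antisymm (b_mono (Nat.sub_le _ _)) (not_lt.mp hc)
  have h1 := b_pos (r := r) hx
  rcases Nat.lt_or_ge (x - r) 3 with h | h
  · have : x - r = 0 ∨ x - r = 1 ∨ x - r = 2 := by omega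
    rcases this with h | h | h
    · rw [h, b0] at e
      omega
    · have := b_ge (r := r) (show 2 ≤ x by omega)
      rw [h, b1] at e
      omega
    · have := (ih x le_rfl (by omega)).2
      rw [h, b2] at e
      rw [← e, show 2 + 1 = 3 from rfl] at this
      have := Wb_three' hr
      omega
  · have a1 := (ih x le_rfl (by omega)).2
    have a2 := (ih (x - r) (by omega) h).1
    rw [e] at a2
    have a3 := W_succ (r := r) (b r) (b r x)
    have a4 := b_lip (r := r) (b r x + 1 - r) r
    have a5 := b_mono (r := r) (show b r x + 1 ≤ b r x + 1 - r + r by omega)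
    omega

lemma inv (hr : 2 ≤ r) (m : ℕ) : 3 ≤ m → W r (b r) (b r m) ≤ m ∧ m < W r (b r) (b r m + 1) := by
  induction m using Nat.strong_induction_on with
  | _ m ih =>
    intro hm
    rcases eq_or_lt_of_le hm with rfl | hm
    · rw [b3, Wb_two hr, show 2 + 1 = 3 from rfl]
      have := Wb_three' hr
      exact ⟨le_rfl, by omega⟩
    obtain ⟨m, rfl⟩ : ∃ k, m = k + 1 := ⟨m - 1, by omega⟩
    obtain ⟨i1, i2⟩ := ih m (by omega) (by omega)
    have e := b_succ (r := r) (show 3 ≤ m by omega)
    split_ifs at e with hc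
    · rw [e]
      refine ⟨hc.le, ?_⟩
      have a1 := W_succ (r := r) (b r) (b r m + 1)
      have a2 := b_lt (r := r) (show 3 ≤ m by omega)
      have a3 : b r (b r m + 1 + 1 - r) < b r (b r m + 1 + 1) := by
        rcases eq_or_lt_of_le a2 with h | h
        · rw [h, e]
          have := b_mono (r := r) (show m + 1 - r ≤ m by omega)
          omega
        · exact gap_of hr (by omega) fun k hk => ih k (by omega)
      omega
    · rw [e]
      omega

lemma Wb_strict (hr : 2 ≤ r) : StrictMono (W r (b r)) := by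
  refine strictMono_nat_of_lt_succ fun x => ?_
  have a1 := W_succ (r := r) (b r) x
  have a2 := gap_of hr (show 1 ≤ x + 1 by omega) fun k _ => inv hr k
  omega

lemma b_eq_iff (hr : 2 ≤ r) {m v : ℕ} (hm : 3 ≤ m) :
    b r m = v ↔ W r (b r) v ≤ m ∧ m < W r (b r) (v + 1) := by
  obtain ⟨i1, i2⟩ := inv hr m hm
  refine ⟨fun h => h ▸ ⟨i1, i2⟩, fun ⟨h1, h2⟩ => ?_⟩
  have a1 := (Wb_strict hr).lt_iff_lt.mp (i1.trans_lt h2)
  have a2 := (Wb_strict hr).lt_iff_lt.mp (h1.trans_lt i2)
  omega

lemma b_sol (hr : 2 ≤ r) : Sol r (b r) := by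
  refine ⟨b0, fun n hn => b_pos hn, b_mono, fun n hn => ?_⟩
  change b r (W r (b r) n) = n
  rcases eq_or_lt_of_le hn with rfl | hn
  · rw [W_one hr b0, b1, b1]
  · have := (Wb_strict hr).monotone (show 2 ≤ n by omega)
    rw [Wb_two hr] at this
    exact (b_eq_iff hr this).mpr ⟨le_rfl, Wb_strict hr (by omega)⟩

lemma Sol.two (hr : 2 ≤ r) {a : ℕ → ℕ} (h : Sol r a) : a 2 = 2 := by
  have a1 := h.le_self 1
  have a2 := h.le_self 2
  have a3 := h.2.1 1 le_rfl
  have a4 := h.2.1 2 (by omega)
  have a5 := h.eq 2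
  rw [W_two hr h.1] at a5
  by_contra hc
  rw [show a 1 + a 2 = 2 by omega] at a5
  exact hc a5

lemma b_almost (hr : 2 ≤ r) : IsAlmostGolomb r (b r) := by
  refine ⟨b_sol hr, fun a h n hn => ?_⟩
  match n with
  | 0 => simp [b0]
  | 1 => rw [b1]; exact h.2.1 1 le_rfl
  | 2 => rw [b2, h.two hr]
  | 3 => rw [b3, ← h.two hr]; exact h.2.2.1 (by omega)
  | m + 4 =>
    have e := b_succ (r := r) (show 3 ≤ m + 3 by omega)
    have a2 := b_lt (r := r) (show 3 ≤ m + 3 by omega)
    rw [show m + 3 + 1 = m + 4 from rfl] at e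
    split_ifs at e with hc
    · have a3 : W r a (b r (m + 3) + 1) = m + 4 := by
        rw [← hc]
        exact sum_congr rfl fun i _ => hn _ (by omega)
      have a4 := h.eq (b r (m + 3) + 1)
      rw [a3] at a4
      omega
    · rw [e, ← hn (m + 3) (by omega)]
      exact h.2.2.1 (by omega)

lemma IsAlmostGolomb.eq_b (hr : 2 ≤ r) {a : ℕ → ℕ} (h : IsAlmostGolomb r a) : a = b r := by
  funext n
  induction n using Nat.strong_induction_on with
  | _ n ih =>
    exact le_antisymm (h.2 _ (b_sol hr) n fun i hi => (ih i hi).symm) ((b_almost hr).2 a h.1 n ih)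

lemma W_convex (a : ℕ → ℕ) (ha : Monotone a) (h0 : a 0 = 0) (A u : ℕ) (hu : 2 ≤ u)
    (hur : u + A ≤ r) : W r a (2 + A) + W r a u ≤ W r a (u + A) + W r a 2 := by
  induction u, hu using Nat.le_induction with
  | base => rfl
  | succ u hu ih =>
    have a1 := W_succ (r := r) a u
    have a2 := W_succ (r := r) a (u + A)
    rw [show u + 1 - r = 0 by omega, h0] at a1
    rw [show u + A + 1 - r = 0 by omega, h0] at a2
    have a3 := ha (show u + 1 ≤ u + A + 1 by omega)
    have := ih (by omega)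
    rw [show u + 1 + A = u + A + 1 by omega]
    omega

lemma mult_le (hr : 2 ≤ r) {A : ℕ} (h3 : 3 ≤ A) (hA : b r r ≤ A) (m : ℕ) :
    3 ≤ m → W r (b r) (m + 1) ≤ W r (b r) m + A := by
  induction m using Nat.strong_induction_on with
  | _ m ih =>
    intro hm
    have a1 := W_succ (r := r) (b r) m
    rcases Nat.lt_or_ge r (m + 1) with h | h; swap
    · have := b_mono (r := r) h
      omega
    obtain ⟨y, hy⟩ : ∃ y, m + 1 = y + r := ⟨m + 1 - r, by omega⟩
    rw [show m + 1 - r = y by omega] at a1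
    by_contra hc
    set u := b r y + 1 with hu
    have hu2 : 2 ≤ u := by
      have := b_pos (r := r) (show 1 ≤ y by omega)
      omega
    have c1 : W r (b r) (u + A) ≤ y + r := by
      have := (inv hr (m + 1) (by omega)).1
      have := (Wb_strict hr).monotone (show u + A ≤ b r (m + 1) by omega)
      omega
    have c2 : y < W r (b r) u := by
      by_contra hc
      have := b_mono (r := r) (not_lt.mp hc)
      rw [(b_sol hr).eq] at this
      omega
    have hum : u ≤ m := by
      have := (b_sol hr).le_self y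
      omega
    rcases Nat.lt_or_ge (u + A) r with h1 | h1
    · have d1 := W_convex (b r) b_mono b0 A u hu2 h1.le
      have d2 := W_succ (r := r) (b r) (A + 1)
      rw [show A + 1 + 1 - r = 0 by omega, b0, show A + 1 + 1 = 2 + A by omega] at d2
      have d3 := b_ge (r := r) (show 2 ≤ 2 + A by omega)
      have d4 := (inv hr r (by omega)).2
      have d5 := (Wb_strict hr).monotone (show b r r + 1 ≤ A + 1 by omega)
      rw [Wb_two hr] at d1
      omega
    · have d1 : ∀ i ∈ range r, b r (u - i) + 1 ≤ b r (u + A - i) := by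
        intro i hi
        rw [mem_range] at hi
        rcases Nat.lt_or_ge i u with hiu | hiu; swap
        · rw [show u - i = 0 by omega, b0]
          exact b_pos (by omega)
        obtain ⟨z, hz⟩ : ∃ z, u = z + i := ⟨u - i, by omega⟩
        rw [show u - i = z by omega, show u + A - i = z + A by omega]
        have e1 : W r (b r) (b r z + 1) ≤ z + A := by
          have w3 := Wb_three' hr
          rcases Nat.lt_or_ge (b r z) 3 with hb | hb
          · have : z = 1 ∨ 2 ≤ z := by omega
            rcases this with rfl | h2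
            · rw [b1, Wb_two hr]
              omega
            · rw [show b r z + 1 = 3 by have := b_ge (r := r) h2; omega]
              omega
          · have hz3 : 3 ≤ z := hb.trans ((b_sol hr).le_self z)
            have := b_lt (r := r) hz3
            have := ih (b r z) (by omega) hb
            have := (inv hr z hz3).1
            omega
        have := b_mono (r := r) e1
        rwa [(b_sol hr).eq] at this
      have d2 := sum_le_sum d1
      rw [sum_add_distrib, sum_const, card_range, smul_eq_mul, mul_one] at d2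
      change W r (b r) u + r ≤ W r (b r) (u + A) at d2
      omega

lemma fiber (hr : 2 ≤ r) {m : ℕ} (hm : 3 ≤ m) :
    {i | 1 ≤ i ∧ b r i = m} = ↑(Ico (W r (b r) m) (W r (b r) (m + 1))) := by
  ext i
  simp only [Set.mem_ofPred_eq, coe_Ico, Set.mem_Ico]
  have h1 : m ≤ W r (b r) m := (Wb_strict hr).id_le m
  constructor
  · rintro ⟨-, h⟩
    have := (b_sol hr).le_self i
    exact (b_eq_iff hr (by omega)).mp h
  · intro h
    exact ⟨by omega, (b_eq_iff hr (by omega)).mpr h⟩

lemma le_maxMult_iff (hr : 2 ≤ r) {k : ℕ} (hk : 4 ≤ k) :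
    (k : ℕ∞) ≤ maxMult (b r) ↔ k ≤ b r r := by
  constructor
  · intro h
    by_contra hc
    have h2 : maxMult (b r) ≤ ((k - 1 : ℕ) : ℕ∞) := by
      refine iSup_le fun m => ?_
      rcases Nat.lt_or_ge m 3 with hm | hm
      · have w3 := Wb_three' hr
        have hsub : {i | 1 ≤ i ∧ b r i = m} ⊆ ↑(if m = 2 then Ico 2 5 else Ico 1 2) := by
          rintro i ⟨h1, h2⟩
          have a1 : i < 5 := by
            by_contra hc
            have := b_mono (r := r) (show W r (b r) 3 ≤ i by omega)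
            rw [(b_sol hr).eq] at this
            omega
          have a2 : i = 1 ∨ 2 ≤ i := by omega
          rcases a2 with rfl | a2
          · rw [b1] at h2
            simp [← h2]
          · have := b_ge (r := r) a2
            simp [show m = 2 by omega, a1, a2]
        refine (Set.encard_le_encard hsub).trans ?_
        rw [Set.encard_coe_eq_coe_finsetCard, Nat.cast_le]
        split_ifs <;> simp <;> omega
      · rw [fiber hr hm, Set.encard_coe_eq_coe_finsetCard, Nat.cast_le, Nat.card_Ico]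
        have := mult_le hr (show 3 ≤ k - 1 by omega) (by omega) m hm
        omega
    have := Nat.cast_le.mp (h.trans h2)
    omega
  · intro h
    have a1 := (b_sol hr).le_self r
    refine le_trans ?_ (le_iSup (fun n => {i | 1 ≤ i ∧ b r i = n}.encard) (r - 1))
    rw [fiber hr (by omega), Set.encard_coe_eq_coe_finsetCard, Nat.cast_le, Nat.card_Ico]
    have := W_succ (r := r) (b r) (r - 1)
    rw [show r - 1 + 1 - r = 0 by omega, b0] at this
    rw [show r - 1 + 1 = r by omega] at this ⊢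
    omega

lemma IsGolomb.le_iff {G : ℕ → ℕ} (h : IsGolomb G) (n : ℕ) {i : ℕ} (hi : 1 ≤ i) :
    G i ≤ n ↔ i ≤ ∑ j ∈ Icc 1 n, G j := by
  have hc : {i | 1 ≤ i ∧ G i ≤ n}.encard = (∑ j ∈ Icc 1 n, G j : ℕ) := by
    induction n with
    | zero =>
      have : {i | 1 ≤ i ∧ G i ≤ 0} = ∅ :=
        Set.eq_empty_of_forall_notMem fun i hi => by have := h.1 i hi.1; have := hi.2; omega
      rw [this]
      simp
    | succ n ih =>
      have : {i | 1 ≤ i ∧ G i ≤ n + 1} = {i | 1 ≤ i ∧ G i ≤ n} ∪ {i | 1 ≤ i ∧ G i = n + 1} := by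
        ext i
        simp only [Set.mem_ofPred_eq, Set.mem_union]
        omega
      rw [this, Set.encard_union_eq, ih, h.2.2 _ (by omega), sum_Icc_succ_top (by omega)]
      · push_cast
        rfl
      · exact Set.disjoint_left.mpr fun i h1 h2 => by have := h1.2; have := h2.2; omega
  constructor
  · intro hG
    have hsub : ↑(Icc 1 i) ⊆ {i | 1 ≤ i ∧ G i ≤ n} := fun j hj => by
      rw [mem_coe, mem_Icc] at hj
      exact ⟨hj.1, (h.2.1 j i hj.1 hj.2).trans hG⟩
    have := Set.encard_le_encard hsub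
    rw [hc, Set.encard_coe_eq_coe_finsetCard, Nat.cast_le, Nat.card_Icc] at this
    omega
  · intro hS
    by_contra hG
    have hsub : {i | 1 ≤ i ∧ G i ≤ n} ⊆ ↑(Ico 1 i) := fun j hj => by
      rw [mem_coe, mem_Ico]
      refine ⟨hj.1, not_le.mp fun hij => hG ((h.2.1 i j hi hij).trans hj.2)⟩
    have := Set.encard_le_encard hsub
    rw [hc, Set.encard_coe_eq_coe_finsetCard, Nat.cast_le, Nat.card_Ico] at this
    omega

lemma IsGolomb.le_sum {G : ℕ → ℕ} (h : IsGolomb G) (n : ℕ) : n ≤ ∑ j ∈ Icc 1 n, G j := by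
  have := card_nsmul_le_sum (Icc 1 n) G 1 fun j hj => h.1 j (mem_Icc.mp hj).1
  simpa using this

lemma b_eq_G (hr : 2 ≤ r) {G : ℕ → ℕ} (h : IsGolomb G) (n : ℕ) :
    3 ≤ n → n ≤ r → b r n = G (n - 1) := by
  have g1 : G 1 = 1 := by
    have := (h.le_iff 1 le_rfl).mpr (h.le_sum 1)
    have := h.1 1 le_rfl
    omega
  induction n using Nat.strong_induction_on with
  | _ n ih =>
    intro h3 hn
    have hW : ∀ j, 1 ≤ j → j + 1 < n → W r (b r) (j + 1) = ∑ i ∈ Icc 1 j, G i + 2 := by
      intro j hj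
      induction j, hj using Nat.le_induction with
      | base => intro _; rw [Wb_two hr]; simp [g1]
      | succ j hj ih2 =>
        intro hjn
        have := W_succ (r := r) (b r) (j + 1)
        rw [show j + 1 + 1 - r = 0 by omega, b0, ih2 (by omega),
          ih (j + 1 + 1) hjn (by omega) (by omega)] at this
        rw [sum_Icc_succ_top (by omega)]
        simp only [Nat.add_sub_cancel] at this
        omega
    obtain ⟨i1, i2⟩ := inv hr n h3
    have a1 := b_lt (r := r) h3
    have a2 := b_ge (r := r) (show 2 ≤ n by omega)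
    obtain ⟨v, hv⟩ : ∃ v, b r n = v + 1 := ⟨b r n - 1, by omega⟩
    rw [hv] at i1 i2 a1 a2 ⊢
    rw [hW v (by omega) (by omega)] at i1
    have a3 := (h.le_iff v (show 1 ≤ n - 1 by omega)).not.mpr (by omega)
    have a4 : G (n - 1) ≤ v + 1 := by
      refine (h.le_iff _ (by omega)).mpr ?_
      rcases eq_or_lt_of_le a1 with e | e
      · have := h.le_sum (v + 1)
        omega
      · rw [hW (v + 1) (by omega) e] at i2
        omega
    omega

theorem isLeast_threshold (A : ℕ → ℕ → ℕ) (G : ℕ → ℕ) (hA : ∀ r, 2 ≤ r → IsAlmostGolomb r (A r))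
    (hG : IsGolomb G) (k : ℕ) (hk : 4 ≤ k) :
    IsLeast {r | 2 ≤ r ∧ (k : ℕ∞) ≤ maxMult (A r)} (∑ n ∈ Icc 1 (k - 1), G n + 2) := by
  have key : ∀ r, 2 ≤ r → ((k : ℕ∞) ≤ maxMult (A r) ↔ ∑ n ∈ Icc 1 (k - 1), G n + 2 ≤ r) := by
    intro r hr
    have := hG.le_sum (k - 1)
    rw [(hA r hr).eq_b hr, le_maxMult_iff hr hk]
    rcases eq_or_lt_of_le hr with rfl | h3
    · rw [b2]
      omega
    · have := hG.le_iff (k - 1) (show 1 ≤ r - 1 by omega)
      rw [b_eq_G hr hG r h3 le_rfl]
      omega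
  exact ⟨⟨by omega, (key _ (by omega)).mpr le_rfl⟩, fun r hr => (key r hr.1).mp hr.2⟩

end Pool.Agent.H62.Golomb
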