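import Mathlib

set_option autoImplicit false

namespace Pool.Agent.H62.Haag

open Finset

variable {α : Type} [DecidableEq α]

/-- tree features -/
def φ (r : ℝ) (p x : List α) : ℝ := if p <+: x then r ^ (x.length - p.length) else 0

lemma split (x : List α) : ∀ y : List α, ∃ w a b : List α, x = w ++ a ∧ y = w ++ b ∧
    ∀ s, a.head? = some s → b.head? ≠ some s := by
  induction x with
  | nil => exact fun y => ⟨[], [], y, rfl, rfl, by simp⟩
  | cons s x ih =>
    rintro (_ | ⟨t, y⟩)
    · exact ⟨[], s :: x, [], rfl, rfl, by simp⟩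
    · by_cases h : s = t
      · obtain ⟨w, a, b, rfl, rfl, h'⟩ := ih y
        exact ⟨s :: w, a, b, rfl, by simp [h], h'⟩
      · exact ⟨[], s :: x, t :: y, rfl, rfl, by simpa using Ne.symm h⟩

lemma gram (r : ℝ) (w a b : List α) (h : ∀ s, a.head? = some s → b.head? ≠ some s)
    (T : Finset (List α)) (hT : ∀ p, p <+: w → p ∈ T) :
    (1 - r ^ 2) * ∑ p ∈ T, φ r p (w ++ a) * φ r p (w ++ b) +
      r ^ 2 * (φ r [] (w ++ a) * φ r [] (w ++ b)) = r ^ (a.length + b.length) := by
  have : ∑ j ∈ range (w.length + 1), r ^ (a.length + b.length) * (r ^ 2) ^ (w.length - j) =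
      ∑ p ∈ T, φ r p (w ++ a) * φ r p (w ++ b) := by
    refine sum_of_injOn (fun j => w.take j) (fun i hi j hj e => ?_)
      (fun j _ => hT _ (w.take_prefix j)) (fun p _ hp => ?_) fun j hj => ?_
    · have := congrArg List.length e
      simp at this hi hj
      omega
    · by_contra hne
      simp only [φ, mul_eq_zero, ite_eq_right_iff, not_or, Classical.not_imp] at hne
      rcases List.prefix_or_prefix_of_prefix hne.1.1 (w.prefix_append a) with h1 | ⟨t, rfl⟩
      · exact hp ⟨p.length, by simpa [Nat.lt_succ_iff] using h1.length_le,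
          (List.prefix_iff_eq_take.mp h1).symm⟩
      · rcases t with _ | ⟨s, t⟩
        · exact hp ⟨w.length, by simp, by simp⟩
        · obtain ⟨u, rfl⟩ := (List.prefix_append_right_inj w).mp hne.1.1
          obtain ⟨v, rfl⟩ := (List.prefix_append_right_inj w).mp hne.2.1
          exact h s rfl rfl
    · have hj' : j ≤ w.length := by simpa [Nat.lt_succ_iff] using hj
      simp only [φ, (w.take_prefix j).trans (w.prefix_append _), if_true, List.length_append,
        List.length_take, min_eq_left hj', ← pow_mul, ← pow_add]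
      congr 1
      omega
  rw [← this, ← mul_sum, sum_flip (fun j => (r ^ 2) ^ j), mul_left_comm, mul_neg_geom_sum]
  simp [φ]
  ring

lemma step [Fintype α] (r : ℝ) (p x : List α) :
    φ r p x = (if p = x then 1 else 0) + r * ∑ s, φ r (p ++ [s]) x := by
  by_cases h : p <+: x
  · obtain ⟨t, rfl⟩ := h
    rcases t with _ | ⟨a, t⟩
    · have : ∀ s, ¬ p ++ [s] <+: p := fun s h => by simpa using h.length_le
      simp [φ, this]
    · simp [φ, List.prefix_append_right_inj, ← Nat.sub_sub, pow_succ']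
  · have : ∀ s, ¬ p ++ [s] <+: x := fun s h' => h ((p.prefix_append _).trans h')
    have h' : p ≠ x := fun e => h (e ▸ List.prefix_rfl)
    simp [φ, h, this, h']

lemma quad {ι : Type} [Fintype ι] (c : ι → ℂ) (f : ι → ℝ) :
    ∑ i, ∑ j, starRingEnd ℂ (c i) * c j * (f i * f j : ℝ) = (‖∑ i, c i * f i‖ ^ 2 : ℝ) := by
  rw [Complex.ofReal_pow, ← Complex.conj_mul', map_sum, sum_mul_sum]
  refine sum_congr rfl fun i _ => sum_congr rfl fun j _ => ?_
  simp
  ring

lemma len {β : Type} [DecidableEq β] (x y : FreeGroup β) {w a b : List (β × Bool)}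
    (hx : x.toWord = w ++ a) (hy : y.toWord = w ++ b)
    (h : ∀ s, a.head? = some s → b.head? ≠ some s) :
    (x⁻¹ * y).toWord.length = a.length + b.length := by
  have h1 : FreeGroup.IsReduced (FreeGroup.invRev a ++ b) := by
    have a1 := FreeGroup.isReduced_toWord (x := x⁻¹)
    have a2 := FreeGroup.isReduced_toWord (x := y)
    rw [FreeGroup.toWord_inv, hx, FreeGroup.invRev_append] at a1
    rw [hy] at a2
    refine List.isChain_append.mpr ⟨a1.left_of_append, a2.right_of_append, fun s hs t ht e => ?_⟩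
    simp only [FreeGroup.invRev, List.getLast?_reverse, List.head?_map, Option.mem_def,
      Option.map_eq_some_iff] at hs
    obtain ⟨u, hu, rfl⟩ := hs
    by_contra hne
    exact h u hu (ht.trans (congrArg some (Prod.ext e.symm (by simpa [eq_comm] using hne))))
  have h2 : x⁻¹ * y = FreeGroup.mk (FreeGroup.invRev a ++ b) := by
    rw [← FreeGroup.mk_toWord (x := x), ← FreeGroup.mk_toWord (x := y), hx, hy,
      ← FreeGroup.mul_mk, ← FreeGroup.mul_mk, ← FreeGroup.mul_mk, ← FreeGroup.inv_mk]
    group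
  rw [h2, FreeGroup.toWord_mk, h1.reduce_eq]
  simp

lemma lower [Fintype α] {ι : Type} [Fintype ι] (c : ι → ℂ) (X : ι → List α) {r : ℝ} (h0 : 0 ≤ r)
    (h1 : r ≤ 1) (N : ℕ) :
    ∑ p ∈ (List.finite_length_le α N).toFinset, ‖∑ i, c i * (if p = X i then 1 else 0 : ℝ)‖ ^ 2 ≤
      (2 + 2 * Fintype.card α) *
        ∑ p ∈ (List.finite_length_le α (N + 1)).toFinset, ‖∑ i, c i * φ r p (X i)‖ ^ 2 := by
  set v : List α → ℝ := fun p => ‖∑ i, c i * φ r p (X i)‖ with hv
  have a1 : ∀ p, ‖∑ i, c i * (if p = X i then 1 else 0 : ℝ)‖ ^ 2 ≤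
      2 * v p ^ 2 + 2 * Fintype.card α * ∑ s, v (p ++ [s]) ^ 2 := fun p => by
    have b1 : ∑ i, c i * (if p = X i then 1 else 0 : ℝ) =
        ∑ i, c i * φ r p (X i) - r * ∑ s, ∑ i, c i * φ r (p ++ [s]) (X i) := by
      rw [sum_comm, mul_sum, ← sum_sub_distrib]
      refine sum_congr rfl fun i _ => ?_
      rw [step r p, ← mul_sum]
      push_cast
      ring
    have b2 : ‖∑ i, c i * (if p = X i then 1 else 0 : ℝ)‖ ≤ v p + ∑ s, v (p ++ [s]) := by
      rw [b1]
      refine (norm_sub_le _ _).trans (add_le_add le_rfl ?_)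
      rw [norm_mul, Complex.norm_real, Real.norm_of_nonneg h0]
      exact (mul_le_of_le_one_left (norm_nonneg _) h1).trans (norm_sum_le _ _)
    have b3 := sq_sum_le_card_mul_sum_sq (s := univ) (f := fun s => v (p ++ [s]))
    rw [card_univ] at b3
    nlinarith [pow_le_pow_left₀ (norm_nonneg _) b2 2, sq_nonneg (v p - ∑ s, v (p ++ [s]))]
  refine (sum_le_sum fun p _ => a1 p).trans ?_
  rw [sum_add_distrib, ← mul_sum, ← mul_sum, add_mul, ← sum_product']
  gcongr
  · omega
  · rw [← sum_image (f := fun p => v p ^ 2) (g := fun q : List α × α => q.1 ++ [q.2])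
      fun a _ b _ e => Prod.ext (List.append_inj' e rfl).1 (by simpa using (List.append_inj' e rfl).2)]
    refine sum_le_sum_of_subset_of_nonneg (fun p => ?_) fun _ _ _ => by positivity
    simp only [mem_image, mem_product, Set.Finite.mem_toFinset]
    rintro ⟨q, hq, rfl⟩
    simpa using hq.1

end Pool.Agent.H62.Haag
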