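import Pool.Agent.H62.HaarFlow

set_option autoImplicit false
open MeasureTheory Set

namespace Pool.Agent.H62.HaarFlow

lemma den_pos (t : ℝ) (x : unitInterval) : 0 < 1 - x.1 + x.1 * Real.exp t := by
  have h1 := x.2.1
  have h2 := x.2.2
  have := Real.exp_pos t
  rcases h2.lt_or_eq with h | h
  · nlinarith [mul_nonneg h1 this.le]
  · rw [h]; linarith

/-- the logistic flow on the interval -/
noncomputable def L (t : ℝ) (x : unitInterval) : unitInterval :=
  ⟨x.1 * Real.exp t / (1 - x.1 + x.1 * Real.exp t), div_nonneg (mul_nonneg x.2.1 (Real.exp_pos t).le)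
    (den_pos t x).le, (div_le_one (den_pos t x)).mpr (by linarith [x.2.2])⟩

lemma L_add (s t : ℝ) (x : unitInterval) : L (s + t) x = L s (L t x) := by
  have h1 := (den_pos t x).ne'
  have h2 := (den_pos (s + t) x).ne'
  have h3 := (den_pos s (L t x)).ne'
  ext
  simp only [L, Real.exp_add] at *
  rw [div_eq_div_iff h2 h3]
  field_simp
  ring

theorem cube (G : Set C(ℕ → unitInterval, ℕ → unitInterval))
    (hG : G = {f : C(ℕ → unitInterval, ℕ → unitInterval) | Function.Bijective f})
    [MeasurableSpace G] [BorelSpace G] :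
    ∃ B : Set G, IsMeagre Bᶜ ∧ MeasurableSet B ∧ ∃ μ : Measure G, IsProbabilityMeasure μ ∧
      ∀ g h : G, μ {x : G | ∃ b ∈ B, x.1 = g.1.comp (b.1.comp h.1)} = 0 := by
  have hc : Continuous fun p : ℝ × unitInterval => L p.1 p.2 :=
    Continuous.subtype_mk (Continuous.div (by fun_prop) (by fun_prop) fun p => (den_pos _ _).ne') _
  let Φ : C(ℝ × (ℕ → unitInterval), ℕ → unitInterval) := ⟨fun p i => L p.1 (p.2 i),
    continuous_pi fun i => hc.comp (continuous_fst.prodMk ((continuous_apply i).comp continuous_snd))⟩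
  have ha : ∀ s t x, Φ.curry (s + t) x = Φ.curry s (Φ.curry t x) := fun s t x => funext fun i => L_add s t _
  have h0 : ∀ x, Φ.curry 0 x = x := fun x => funext fun i => Subtype.ext (by simp [Φ, L])
  refine main G (fun g hg => (hG ▸ hg :)) Φ.curry Φ.curry.continuous ha (fun t => hG ▸ ?_)
    (fun _ => ⟨1 / 2, by norm_num, by norm_num⟩) fun s hs h => ?_
  · exact Function.bijective_iff_has_inverse.mpr ⟨Φ.curry (-t), fun x => by rw [← ha]; simp [h0],
      fun x => by rw [← ha]; simp [h0]⟩
  · have h1 : 1 / 2 * Real.exp s / (1 - 1 / 2 + 1 / 2 * Real.exp s) = 1 / 2 :=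
      congrArg (fun z : ℕ → unitInterval => (z 0).1) h
    have := Real.add_one_le_exp s
    rw [div_eq_iff (by positivity)] at h1
    linarith [hs.1]

end Pool.Agent.H62.HaarFlow
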