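import Mathlib

set_option autoImplicit false
open MeasureTheory Set Filter Topology
open scoped ENNReal

namespace Pool.Agent.H62.HaarFlow

theorem main {X : Type} [TopologicalSpace X] [CompactSpace X] [TopologicalSpace.MetrizableSpace X]
    (G : Set C(X, X)) (hG : ∀ g ∈ G, Function.Bijective g) (φ : ℝ → C(X, X)) (hc : Continuous φ)
    (hadd : ∀ s t x, φ (s + t) x = φ s (φ t x)) (hφ : ∀ t, φ t ∈ G) (y : X)
    (hy : ∀ s ∈ Icc (1 : ℝ) 2, φ s y ≠ y) [MeasurableSpace G] [BorelSpace G] :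
    ∃ B : Set G, IsMeagre Bᶜ ∧ MeasurableSet B ∧ ∃ μ : Measure G, IsProbabilityMeasure μ ∧
      ∀ g h : G, μ {x : G | ∃ b ∈ B,
        (x : C(X, X)) = (g : C(X, X)).comp ((b : C(X, X)).comp (h : C(X, X)))} = 0 := by
  let := TopologicalSpace.metrizableSpaceMetric X
  have : Nonempty G := ⟨⟨_, hφ 0⟩⟩
  let d : ℕ → G := fun j => TopologicalSpace.denseSeq G j.unpair.1
  let U : ℕ → Set G := fun n => ⋃ j ≥ n, Metric.ball (d j) ((1 / 2) ^ j)
  have hU : ∀ n, IsOpen (U n) := fun n => isOpen_biUnion fun _ _ => Metric.isOpen_ball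
  have hD : ∀ n, Dense (U n) := fun n => (TopologicalSpace.denseRange_denseSeq G).mono (by
    rintro _ ⟨i, rfl⟩
    exact mem_biUnion (Nat.right_le_pair i n) (by simp [d]))
  let f : ℝ → G := fun t => ⟨φ t, hφ t⟩
  have hf : Measurable f := (hc.subtype_mk _).measurable
  have : IsProbabilityMeasure (volume.restrict (Icc (0 : ℝ) 1)) := ⟨by simp⟩
  refine ⟨⋂ n, U n, ?_, MeasurableSet.iInter fun n => (hU n).measurableSet,
    (volume.restrict (Icc (0 : ℝ) 1)).map f, Measure.isProbabilityMeasure_map hf.aemeasurable,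
    fun g h => ?_⟩
  · rw [IsMeagre, compl_compl]
    exact countable_iInter_mem.mpr fun n => residual_of_dense_open (hU n) (hD n)
  let e := Continuous.homeoOfEquivCompactToT2 (f := Equiv.ofBijective _ (hG _ g.2)) g.1.continuous
  let α : C(X, X) := ⟨e.symm, e.symm.continuous⟩
  have hα : ∀ x, α (g.1 x) = x := e.symm_apply_apply
  obtain ⟨s0, hs0, hmin⟩ := isCompact_Icc.exists_isMinOn (s := Icc (1 : ℝ) 2) ⟨1, by simp⟩
    (f := fun s => dist (α (φ s y)) (α y)) (by fun_prop)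
  set c := dist (α (φ s0 y)) (α y)
  have c0 : 0 < c := dist_pos.mpr fun h => hy s0 hs0 (e.symm.injective h)
  let E : ℕ → Set G := fun j => {x | dist (α.comp x.1) ((d j).1.comp h.1) < (1 / 2) ^ j}
  have hE : ∀ j, IsOpen (E j) := fun j => isOpen_lt (by fun_prop) continuous_const
  have key : ∀ j, ∀ t ∈ f ⁻¹' E j ∩ Icc 0 1, ∀ t' ∈ f ⁻¹' E j ∩ Icc 0 1, t' < t →
      t - t' ≤ 4 / c * (1 / 2) ^ j := by
    intro j t ⟨h1, h2⟩ t' ⟨h3, h4⟩ hlt
    set η : ℝ := (1 / 2) ^ j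
    set τ := t - t' with hτ
    have τ0 : 0 < τ := sub_pos.mpr hlt
    have τ1 : τ ≤ 1 := by linarith [h2.2, h4.1]
    have h5 : ∀ z, dist (α (φ τ z)) (α z) ≤ 2 * η := by
      intro z
      obtain ⟨w, rfl⟩ := (hG _ (hφ t')).2 z
      rw [← hadd, sub_add_cancel]
      have a1 := ContinuousMap.dist_apply_le_dist (f := α.comp (φ t)) (g := (d j).1.comp h.1) w
      have a2 := ContinuousMap.dist_apply_le_dist (f := α.comp (φ t')) (g := (d j).1.comp h.1) w
      have a3 : dist (α.comp (φ t)) ((d j).1.comp h.1) < η := h1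
      have a4 : dist (α.comp (φ t')) ((d j).1.comp h.1) < η := h3
      have := dist_triangle_right (α (φ t w)) (α (φ t' w)) ((d j).1 (h.1 w))
      simp only [ContinuousMap.comp_apply] at a1 a2
      linarith
    have h6 : ∀ k : ℕ, dist (α (φ ((k + 1) * τ) y)) (α y) ≤ (k + 1) * (2 * η) := by
      intro k
      induction k with
      | zero => simpa using h5 y
      | succ k ih =>
        have := dist_triangle (α (φ τ (φ ((k + 1) * τ) y))) (α (φ ((k + 1) * τ) y)) (α y)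
        rw [show ((k + 1 : ℕ) + 1 : ℝ) * τ = τ + (k + 1) * τ by push_cast; ring, hadd]
        push_cast
        linarith [h5 (φ ((k + 1) * τ) y)]
    have a1 := Nat.lt_floor_add_one (1 / τ)
    have a2 := Nat.floor_le (show 0 ≤ 1 / τ by positivity)
    have h7 := h6 ⌊1 / τ⌋₊
    generalize (⌊1 / τ⌋₊ : ℝ) = k at *
    rw [div_lt_iff₀ τ0] at a1
    rw [le_div_iff₀ τ0] at a2
    have h8 : c ≤ _ := hmin (show (k + 1) * τ ∈ Icc (1 : ℝ) 2 from ⟨a1.le, by linarith⟩)
    have η0 : 0 < η := by positivity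
    rw [div_mul_eq_mul_div, le_div_iff₀ c0]
    nlinarith
  have hμ : ∀ j, (volume.restrict (Icc (0 : ℝ) 1)).map f (E j) ≤ ENNReal.ofReal (4 / c * (1 / 2) ^ j) := by
    intro j
    rw [Measure.map_apply hf (hE j).measurableSet, Measure.restrict_apply' measurableSet_Icc]
    refine (Real.volume_le_diam _).trans (Metric.ediam_le_of_forall_dist_le fun t h1 t' h2 => ?_)
    rcases lt_trichotomy t t' with h | rfl | h
    · rw [dist_comm, Real.dist_eq, abs_of_pos (sub_pos.mpr h)]; exact key j _ h2 _ h1 h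
    · rw [dist_self]; positivity
    · rw [Real.dist_eq, abs_of_pos (sub_pos.mpr h)]; exact key j _ h1 _ h2 h
  refine measure_mono_null ?_ (measure_setOfPred_frequently_eq_zero (p := fun j x => x ∈ E j)
    (ne_top_of_le_ne_top ?_ (ENNReal.tsum_le_tsum hμ)))
  · rintro x ⟨b, hb, hx⟩
    refine frequently_atTop.mpr fun n => ?_
    obtain ⟨j, hj, hb⟩ := mem_iUnion₂.mp (mem_iInter.mp hb n)
    refine ⟨j, hj, lt_of_le_of_lt ((ContinuousMap.dist_le dist_nonneg).mpr fun z => ?_) hb⟩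
    rw [hx]
    simp only [ContinuousMap.comp_apply, hα]
    exact ContinuousMap.dist_apply_le_dist _
  · rw [← ENNReal.ofReal_tsum_of_nonneg (fun _ => by positivity) (summable_geometric_two.mul_left _)]
    exact ENNReal.ofReal_ne_top

/-- rotation in the first two coordinates -/
noncomputable def R {m : ℕ} (t : ℝ) (x : EuclideanSpace ℝ (Fin (m + 2))) : EuclideanSpace ℝ (Fin (m + 2)) :=
  WithLp.toLp 2 (Fin.cons (Real.cos t * x 0 - Real.sin t * x 1)
    (Fin.cons (Real.sin t * x 0 + Real.cos t * x 1) fun i => x i.succ.succ))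

lemma R_norm {m : ℕ} (t : ℝ) (x : EuclideanSpace ℝ (Fin (m + 2))) : ‖R t x‖ = ‖x‖ := by
  simp only [EuclideanSpace.norm_eq, Fin.sum_univ_succ, R, Fin.cons_zero, Fin.cons_succ, Real.norm_eq_abs,
    sq_abs, Fin.succ_zero_eq_one]
  congr 1
  linear_combination (x 0 ^ 2 + x 1 ^ 2) * Real.cos_sq_add_sin_sq t

lemma R_cont {m : ℕ} : Continuous fun p : ℝ × EuclideanSpace ℝ (Fin (m + 2)) => R p.1 p.2 := by
  refine (PiLp.continuous_toLp 2 _).comp (continuous_pi fun i => ?_)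
  refine Fin.cases ?_ (Fin.cases ?_ fun i => ?_) i
  · simp only [Fin.cons_zero]; fun_prop
  · simp only [Fin.cons_zero, Fin.cons_succ]; fun_prop
  · simp only [Fin.cons_succ]; fun_prop

lemma R_add {m : ℕ} (s t : ℝ) (x : EuclideanSpace ℝ (Fin (m + 2))) : R (s + t) x = R s (R t x) := by
  ext i
  refine Fin.cases ?_ (Fin.cases ?_ fun i => ?_) i
  · simp [R, Real.cos_add, Real.sin_add]; ring
  · simp [R, Real.cos_add, Real.sin_add]; ring
  · simp [R]

lemma R_zero {m : ℕ} (x : EuclideanSpace ℝ (Fin (m + 2))) : R 0 x = x := by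
  ext i
  refine Fin.cases ?_ (Fin.cases ?_ fun i => ?_) i <;> simp [R]

theorem rot {m : ℕ} (S : Set (EuclideanSpace ℝ (Fin (m + 2)))) (hS : IsCompact S)
    (h1 : ∀ x ∈ S, ∀ y, ‖y‖ = ‖x‖ → y ∈ S) (h2 : ∃ x ∈ S, ‖x‖ = 1) (P : C(S, S) → Prop)
    (hP : ∀ f : C(S, S), (∀ x, ‖(f x).1‖ = ‖x.1‖) → P f) (G : Set C(S, S))
    (hG : G = {f : C(S, S) | Function.Bijective f ∧ f.HomotopicWith (ContinuousMap.id S) P})
    [MeasurableSpace G] [BorelSpace G] :
    ∃ B : Set G, IsMeagre Bᶜ ∧ MeasurableSet B ∧ ∃ μ : Measure G, IsProbabilityMeasure μ ∧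
      ∀ g h : G, μ {x : G | ∃ b ∈ B,
        (x : C(S, S)) = (g : C(S, S)).comp ((b : C(S, S)).comp (h : C(S, S)))} = 0 := by
  have := isCompact_iff_compactSpace.mp hS
  let Φ : C(ℝ × S, S) := ⟨fun p => ⟨R p.1 p.2, h1 _ p.2.2 _ (R_norm _ _)⟩,
    (R_cont.comp (continuous_fst.prodMk (continuous_subtype_val.comp continuous_snd))).subtype_mk _⟩
  have ha : ∀ s t x, Φ.curry (s + t) x = Φ.curry s (Φ.curry t x) := fun s t x => Subtype.ext (R_add s t x.1)
  have h0 : ∀ x, Φ.curry 0 x = x := fun x => Subtype.ext (R_zero x.1)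
  obtain ⟨x, hx, hx1⟩ := h2
  refine main G (fun g hg => (hG ▸ hg).1) Φ.curry Φ.curry.continuous ha (fun t => hG ▸ ⟨?_, ?_⟩)
    ⟨EuclideanSpace.single 0 1, h1 x hx _ (by simp [hx1])⟩ fun s hs h => ?_
  · exact Function.bijective_iff_has_inverse.mpr ⟨Φ.curry (-t), fun x => by rw [← ha]; simp [h0],
      fun x => by rw [← ha]; simp [h0]⟩
  · exact ⟨⟨⟨⟨fun p => Φ ((1 - p.1) * t, p.2), by fun_prop⟩, fun x => by simp, fun x => by simpa using h0 x⟩,
      fun s => hP _ fun x => R_norm _ _⟩⟩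
  · have := congrArg (fun z : S => z.1 1) h
    simp [Φ, R] at this
    exact (Real.sin_pos_of_pos_of_lt_pi (by linarith [hs.1]) (by linarith [hs.2, Real.pi_gt_three])).ne' this

end Pool.Agent.H62.HaarFlow
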