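import Pool.Agent.H62.LinOde

set_option autoImplicit false

namespace Pool.Agent.H62.Hill

open Complex MeasureTheory Filter Topology Set intervalIntegral

/-- the speed -/
noncomputable def rho (t : ℝ) : ℝ := 1 + 2 * Real.sin t ^ 2
/-- the arclength -/
noncomputable def X (t : ℝ) : ℝ := 2 * t - Real.sin t * Real.cos t
/-- the figure eight -/
noncomputable def F (t : ℝ) : ℂ := Real.sin t * Real.cos t - 2 * √2 * I * Real.cos t
/-- the conjugate velocity -/
noncomputable def h (t : ℝ) : ℂ := (1 - √2 * I * Real.sin t) ^ 2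
/-- the periodic solution -/
noncomputable def w (t : ℝ) : ℂ := exp ((-Real.arctan (√2 * Real.sin t) : ℝ) * I)
/-- its logarithmic derivative -/
noncomputable def p (t : ℝ) : ℂ := (-(√2 * Real.cos t) / rho t ^ 2 : ℝ) * I
/-- the potential -/
noncomputable def Q (t : ℝ) : ℂ :=
  (√2 * Real.sin t * (rho t + 8 * Real.cos t ^ 2) / rho t ^ 4 : ℝ) * I + p t ^ 2

lemma rho_pos (t : ℝ) : 0 < rho t := by unfold rho; positivity
lemma rho_ne (t : ℝ) : (rho t : ℂ) ≠ 0 := ofReal_ne_zero.mpr (rho_pos t).ne'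
lemma r2 : ((√2 : ℝ) : ℂ) ^ 2 = 2 := by norm_cast; simp
lemma sc (t : ℝ) : (Real.cos t : ℂ) ^ 2 = 1 - (Real.sin t : ℂ) ^ 2 := by
  norm_cast; exact Real.cos_sq' t
lemma w_ne (t : ℝ) : w t ≠ 0 := exp_ne_zero _
@[fun_prop] lemma rho_cont : Continuous rho := by unfold rho; fun_prop
@[fun_prop] lemma F_cont : Continuous F := by unfold F; fun_prop
@[fun_prop] lemma h_cont : Continuous h := by unfold h; fun_prop
@[fun_prop] lemma w_cont : Continuous w := by unfold w; fun_prop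
@[fun_prop] lemma p_cont : Continuous p := (continuous_ofReal.comp (Continuous.div (by fun_prop)
  (by fun_prop) fun t => pow_ne_zero _ (rho_pos t).ne')).mul continuous_const
@[fun_prop] lemma Q_cont : Continuous Q := ((continuous_ofReal.comp (Continuous.div (by fun_prop)
  (by fun_prop) fun t => pow_ne_zero _ (rho_pos t).ne')).mul continuous_const).add (by fun_prop)

lemma dS (t : ℝ) : HasDerivAt (fun t => (Real.sin t : ℂ)) (Real.cos t) t :=
  (Real.hasDerivAt_sin t).ofReal_comp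
lemma dC (t : ℝ) : HasDerivAt (fun t => (Real.cos t : ℂ)) (-Real.sin t) t := by
  simpa using (Real.hasDerivAt_cos t).ofReal_comp

lemma dX (t : ℝ) : HasDerivAt X (rho t) t := by
  refine (((hasDerivAt_id t).const_mul 2).sub
    ((Real.hasDerivAt_sin t).mul (Real.hasDerivAt_cos t))).congr_deriv ?_
  rw [rho]
  linear_combination -Real.cos_sq' t

lemma dF (t : ℝ) : HasDerivAt F ((1 + √2 * I * Real.sin t) ^ 2) t := by
  refine (((dS t).mul (dC t)).sub ((dC t).const_mul _)).congr_deriv ?_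
  linear_combination sc t - (Real.sin t : ℂ) ^ 2 * I ^ 2 * r2 - 2 * (Real.sin t : ℂ) ^ 2 * I_sq

lemma rho_eq (t : ℝ) : 1 + (√2 * Real.sin t) ^ 2 = rho t := by
  rw [rho, mul_pow, Real.sq_sqrt (by norm_num)]

lemma dw (t : ℝ) : HasDerivAt w (rho t * (p t * w t)) t := by
  refine ((((Real.hasDerivAt_sin t).const_mul √2).arctan.neg.ofReal_comp.mul_const
    I).cexp).congr_deriv ?_
  have := rho_ne t
  simp only [rho_eq, p, w, Pi.neg_apply]
  push_cast
  field_simp

lemma dp (t : ℝ) : HasDerivAt p (rho t * (Q t - p t ^ 2)) t := by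
  have h1 : HasDerivAt rho (4 * Real.sin t * Real.cos t) t :=
    ((((Real.hasDerivAt_sin t).fun_pow 2).const_mul 2).const_add 1).congr_deriv (by simp; ring)
  refine (((((Real.hasDerivAt_cos t).const_mul √2).neg.div (h1.fun_pow 2)
    (pow_ne_zero _ (rho_pos t).ne')).ofReal_comp.mul_const I)).congr_deriv ?_
  have := rho_ne t
  simp only [Q, Pi.neg_apply]
  push_cast
  field_simp
  ring

lemma w_sq (t : ℝ) : w t ^ 2 * rho t = h t := by
  have h1 : w t * (√(rho t) : ℝ) = 1 - √2 * I * Real.sin t := by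
    have := ofReal_ne_zero.mpr (Real.sqrt_pos.mpr (rho_pos t)).ne'
    rw [w, exp_mul_I, ← ofReal_cos, ← ofReal_sin, Real.cos_neg, Real.sin_neg, Real.cos_arctan,
      Real.sin_arctan, rho_eq]
    push_cast
    field_simp
    ring
  rw [h, ← h1, mul_pow, ← ofReal_pow, Real.sq_sqrt (rho_pos t).le]

lemma g_sq (t : ℝ) : (1 + √2 * I * Real.sin t : ℂ) ^ 2 * w t ^ 2 = rho t := by
  refine mul_right_cancel₀ (rho_ne t) ?_
  rw [mul_assoc, w_sq, h, ← mul_pow, ← sq]
  congr 1
  rw [rho]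
  push_cast
  linear_combination -(sin t) ^ 2 * I ^ 2 * r2 - 2 * (sin t) ^ 2 * I_sq

/-- the system for the variation of constants -/
noncomputable def B (t : ℝ) : ℂ × ℂ →L[ℂ] ℂ × ℂ :=
  h t • (F t • ContinuousLinearMap.inl ℂ ℂ ℂ - ContinuousLinearMap.inr ℂ ℂ ℂ) ∘L
    (ContinuousLinearMap.fst ℂ ℂ ℂ + F t • ContinuousLinearMap.snd ℂ ℂ ℂ)

lemma B_apply (t : ℝ) (x : ℂ × ℂ) :
    B t x = (h t * (F t * (x.1 + F t * x.2)), -(h t * (x.1 + F t * x.2))) := by
  simp [B, mul_add, add_comm]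

lemma d1 {V : ℝ → ℂ × ℂ} {v : ℂ × ℂ} {t : ℝ} (h : HasDerivAt V v t) :
    HasDerivAt (fun t => (V t).1) v.1 t :=
  (ContinuousLinearMap.fst ℝ ℂ ℂ).hasFDerivAt.comp_hasDerivAt t h

lemma d2 {V : ℝ → ℂ × ℂ} {v : ℂ × ℂ} {t : ℝ} (h : HasDerivAt V v t) :
    HasDerivAt (fun t => (V t).2) v.2 t :=
  (ContinuousLinearMap.snd ℝ ℂ ℂ).hasFDerivAt.comp_hasDerivAt t h

lemma B_cont : Continuous B := by unfold B; fun_prop

lemma B_bdd : ∃ C, ∀ t, ‖B t‖ ≤ C := by
  have : Function.Periodic B (2 * Real.pi) := fun t => by simp [B, F, h]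
  obtain ⟨C, hC⟩ := (this.isBounded_of_continuous (by positivity) B_cont).exists_norm_le
  exact ⟨C, fun t => hC _ ⟨t, rfl⟩⟩

lemma int_per {f Λ : ℝ → ℂ} (hf : Continuous f) (hd : ∀ t, HasDerivAt Λ (f t) t)
    (hp : Λ (2 * Real.pi) = Λ 0) : ∫ s in (0 : ℝ)..2 * Real.pi, f s = 0 := by
  rw [integral_eq_sub_of_hasDerivAt (fun t _ => hd t) (hf.intervalIntegrable _ _), hp, sub_self]

lemma int0 : ∫ s in (0 : ℝ)..2 * Real.pi, h s = 0 :=
  int_per (Λ := fun t => Real.sin t * Real.cos t + 2 * √2 * I * Real.cos t) h_cont (fun t => by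
    refine (((dS t).mul (dC t)).add ((dC t).const_mul _)).congr_deriv ?_
    rw [h]
    linear_combination sc t - (Real.sin t : ℂ) ^ 2 * I ^ 2 * r2 - 2 * (Real.sin t : ℂ) ^ 2 * I_sq)
    (by simp)

lemma hF (t : ℝ) : h t = 1 - 2 * (Real.sin t : ℂ) ^ 2 - 2 * (√2 * I) * Real.sin t ∧
    F t = Real.cos t * (Real.sin t - 2 * (√2 * I)) ∧ (√2 * I : ℂ) ^ 2 = -2 := by
  refine ⟨?_, by rw [F]; ring, by rw [mul_pow, r2, I_sq]; ring⟩
  rw [h]
  linear_combination (Real.sin t : ℂ) ^ 2 * I ^ 2 * r2 + 2 * (Real.sin t : ℂ) ^ 2 * I_sq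

lemma int1 : ∫ s in (0 : ℝ)..2 * Real.pi, h s * F s = 0 :=
  int_per (Λ := fun t => -7 / 2 * (Real.sin t : ℂ) ^ 2 - 1 / 2 * (Real.sin t : ℂ) ^ 4 -
    2 * (√2 * I) * Real.sin t + 2 / 3 * (√2 * I) * (Real.sin t : ℂ) ^ 3) (by fun_prop) (fun t => by
    refine ((((((dS t).fun_pow 2).const_mul _).sub (((dS t).fun_pow 4).const_mul _)).sub
      ((dS t).const_mul _)).add (((dS t).fun_pow 3).const_mul _)).congr_deriv ?_
    obtain ⟨h1, h2, h3⟩ := hF t
    rw [h1, h2]
    generalize (√2 * I : ℂ) = j at h3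
    norm_num
    linear_combination -4 * sin t * cos t * h3)
    (by simp)

lemma int2 : ∫ s in (0 : ℝ)..2 * Real.pi, h s * F s ^ 2 = -8 * Real.pi := by
  have := int_per (f := fun s => h s * F s ^ 2 + 4) (Λ := fun t => (Real.cos t : ℂ) *
    (-4 * Real.sin t + 1 / 3 * (Real.sin t : ℂ) ^ 3 - 1 / 3 * (Real.sin t : ℂ) ^ 5) -
    (√2 * I) * (6 * (Real.cos t : ℂ) ^ 3 - 6 / 5 * (Real.cos t : ℂ) ^ 5)) (by fun_prop) (fun t => by
    refine (((dC t).mul ((((dS t).const_mul _).add (((dS t).fun_pow 3).const_mul _)).sub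
      (((dS t).fun_pow 5).const_mul _))).sub (((((dC t).fun_pow 3).const_mul _).sub
      (((dC t).fun_pow 5).const_mul _)).const_mul _)).congr_deriv ?_
    obtain ⟨h1, h2, h3⟩ := hF t
    have h4 := sc t
    rw [h1, h2]
    simp only [Pi.sub_apply, Pi.add_apply]
    generalize (√2 * I : ℂ) = j at h3
    generalize (Real.sin t : ℂ) = S at h4
    generalize (Real.cos t : ℂ) = C at h4
    norm_num
    grind)
    (by simp)
  rw [integral_add (Continuous.intervalIntegrable (by fun_prop) _ _) (by simp)] at this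
  simp at this
  linear_combination this

/-- solution from the constants -/
noncomputable def Y (t : ℝ) (v : ℂ × ℂ) : ℂ := w t * (v.1 + F t * v.2)
/-- its derivative -/
noncomputable def DY (t : ℝ) (v : ℂ × ℂ) : ℂ := p t * Y t v + v.2 / w t

lemma solY {V : ℝ → ℂ × ℂ} {z : ℂ} (hV : ∀ t, HasDerivAt V (z • B t (V t)) t) (t : ℝ) :
    HasDerivAt (fun t => Y t (V t)) (rho t * DY t (V t)) t ∧
    HasDerivAt (fun t => DY t (V t)) (rho t * ((Q t - z) * Y t (V t))) t := by
  have h1 := d1 (hV t)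
  have h2 := d2 (hV t)
  simp only [B_apply, Prod.smul_mk, smul_eq_mul] at h1 h2
  have a1 := w_sq t
  have a2 := g_sq t
  have a3 := w_ne t
  have k : HasDerivAt (fun t => Y t (V t)) (rho t * DY t (V t)) t := by
    refine ((dw t).mul (h1.add ((dF t).mul h2))).congr_deriv ?_
    simp only [DY, Y, Pi.add_apply, Pi.mul_apply]
    field_simp
    linear_combination (V t).2 * a2
  refine ⟨k, (((dp t).mul k).add (h2.div (dw t) a3)).congr_deriv ?_⟩
  simp only [DY, Y]
  field_simp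
  linear_combination z * ((V t).1 + F t * (V t).2) * a1

lemma exists_tau : ∃ τ : ℝ → ℝ, (∀ x, HasDerivAt τ (rho (τ x))⁻¹ x) ∧ τ 0 = 0 ∧
    ∀ x, τ (x + 4 * Real.pi) = τ x + 2 * Real.pi := by
  have hm : StrictMono X := strictMono_of_deriv_pos fun t => by rw [(dX t).deriv]; exact rho_pos t
  have hc : Continuous X := by unfold X; fun_prop
  have hb : ∀ t, |Real.sin t * Real.cos t| ≤ 1 := fun t => by
    rw [abs_mul]
    exact mul_le_one₀ (Real.abs_sin_le_one t) (abs_nonneg _) (Real.abs_cos_le_one t)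
  have hs : Function.Surjective X := fun y => intermediate_value_univ (y / 2 - 1) (y / 2 + 1) hc
    ⟨by unfold X; linarith [abs_le.mp (hb (y / 2 - 1))],
      by unfold X; linarith [abs_le.mp (hb (y / 2 + 1))]⟩
  set E := hm.orderIsoOfSurjective X hs
  have hE : ∀ x, X (E.symm x) = x := fun x => E.apply_symm_apply x
  refine ⟨E.symm, fun x => HasDerivAt.of_local_left_inverse E.symm.continuous.continuousAt (dX _)
    (rho_pos _).ne' (Eventually.of_forall hE), hm.injective (by rw [hE]; simp [X]),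
    fun x => hm.injective ?_⟩
  rw [hE]
  have := hE x
  simp only [X, Real.sin_add_two_pi, Real.cos_add_two_pi] at this ⊢
  linarith

lemma ord1 {f g : ℂ → ℂ} (hg : AnalyticAt ℂ g 0) (n : ℕ) (hf : ∀ z, f z = z ^ n * g z) :
    analyticOrderAt f 0 = n + analyticOrderAt g 0 := by
  rw [show f = (fun z => z) ^ n * g from funext hf, analyticOrderAt_mul (by fun_prop) hg,
    analyticOrderAt_pow (by fun_prop)]
  simp [show analyticOrderAt (fun z : ℂ => z) 0 = 1 from analyticOrderAt_id]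

theorem main : ∃ (q : ℝ → ℂ) (y1 e1 y2 e2 : ℂ → ℝ → ℂ), Continuous q ∧
    Function.Periodic q (4 * Real.pi) ∧
    (∀ z x, HasDerivAt (y1 z) (e1 z x) x ∧ HasDerivAt (e1 z) ((q x - z) * y1 z x) x ∧
      HasDerivAt (y2 z) (e2 z x) x ∧ HasDerivAt (e2 z) ((q x - z) * y2 z x) x ∧
      y1 z x * e2 z x - y2 z x * e1 z x = 1) ∧
    (∀ x, 1 ≤ analyticOrderAt
      (fun z => y1 z x * y2 z (x + 4 * Real.pi) - y2 z x * y1 z (x + 4 * Real.pi)) 0) ∧
    analyticOrderAt
      (fun z => y1 z 0 * y2 z (0 + 4 * Real.pi) - y2 z 0 * y1 z (0 + 4 * Real.pi)) 0 = 1 ∧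
    analyticOrderAt
      (fun z => e2 z 0 * e1 z (0 + 4 * Real.pi) - e1 z 0 * e2 z (0 + 4 * Real.pi)) 0 = 1 ∧
    3 ≤ analyticOrderAt (fun z => (e2 z 0 * y1 z (4 * Real.pi) - e1 z 0 * y2 z (4 * Real.pi) +
      (y1 z 0 * e2 z (4 * Real.pi) - y2 z 0 * e1 z (4 * Real.pi))) ^ 2 - 4) 0 := by
  obtain ⟨τ, t1, t2, t3⟩ := exists_tau
  obtain ⟨C, hC⟩ := B_bdd
  obtain ⟨W, w1, w2, w3, w4⟩ := LinOde.exists_sol B_cont (1, 0) hC
  obtain ⟨U, u1, u2, u3, u4⟩ := LinOde.exists_sol B_cont (0, 1) hC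
  have tc : Continuous τ := continuous_iff_continuousAt.mpr fun x => (t1 x).continuousAt
  have dW : ∀ (z : ℂ) t, HasDerivAt (fun t => ((1, 0) : ℂ × ℂ) + z • W z t)
    (z • B t ((1, 0) + z • W z t)) t := fun z t => ((w1 z t).const_smul z).const_add _
  have dU : ∀ (z : ℂ) t, HasDerivAt (fun t => ((0, 1) : ℂ × ℂ) + z • U z t)
    (z • B t ((0, 1) + z • U z t)) t := fun z t => ((u1 z t).const_smul z).const_add _
  have det : ∀ (z : ℂ) t, (1 + z * (W z t).1) * (1 + z * (U z t).2) -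
      z * (U z t).1 * (z * (W z t).2) = 1 := fun z t => by
    have : ∀ t, HasDerivAt (fun t => (1 + z * (W z t).1) * (1 + z * (U z t).2) -
      z * (U z t).1 * (z * (W z t).2)) 0 t := fun t => by
      refine ((((((d1 (w1 z t)).const_mul z).const_add 1).mul
        (((d2 (u1 z t)).const_mul z).const_add 1)).sub (((d1 (u1 z t)).const_mul z).mul
        ((d2 (w1 z t)).const_mul z)))).congr_deriv ?_
      simp [B_apply]
      ring
    rw [is_const_of_deriv_eq_zero (fun t => (this t).differentiableAt) (fun t => (this t).deriv) t 0]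
    simp [w2, u2]
  have comp : ∀ {f : ℝ → ℂ} {c : ℂ} {x : ℝ}, HasDerivAt f (rho (τ x) * c) (τ x) →
      HasDerivAt (fun x => f (τ x)) c x := fun {f c x} hf => by
    refine (hf.scomp x (t1 x)).congr_deriv ?_
    have := rho_ne (τ x)
    simp only [real_smul, ofReal_inv]
    field_simp
  have pw : ∀ t, w (t + 2 * Real.pi) = w t := fun t => by simp [w]
  have pF : ∀ t, F (t + 2 * Real.pi) = F t := fun t => by simp [F]
  have pp : ∀ t, p (t + 2 * Real.pi) = p t := fun t => by simp [p, rho]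
  have ii : ∀ {f g : ℝ → ℂ}, Continuous f → Continuous g →
      ∫ s in (0 : ℝ)..2 * Real.pi, (f s, g s) =
      (∫ s in (0 : ℝ)..2 * Real.pi, f s, ∫ s in (0 : ℝ)..2 * Real.pi, g s) := fun hf hg => by
    have hi := (hf.prodMk hg).intervalIntegrable (μ := volume) 0 (2 * Real.pi)
    exact Prod.ext ((ContinuousLinearMap.fst ℝ ℂ ℂ).intervalIntegral_comp_comm hi).symm
      ((ContinuousLinearMap.snd ℝ ℂ ℂ).intervalIntegral_comp_comm hi).symm
  have W0 : W 0 (2 * Real.pi) = (0, 0) := by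
    simp only [w4, B_apply]
    rw [ii (by fun_prop) (by fun_prop)]
    simp [int0, int1]
  have U0 : U 0 (2 * Real.pi) = (-8 * (Real.pi : ℂ), 0) := by
    simp only [u4, B_apply]
    rw [ii (by fun_prop) (by fun_prop)]
    simp [← sq, int2, int1]
  have a1 : ∀ t, AnalyticAt ℂ (fun z => (W z t).1) 0 := fun t => analyticAt_fst.comp (w3 t)
  have a2 : ∀ t, AnalyticAt ℂ (fun z => (W z t).2) 0 := fun t => analyticAt_snd.comp (w3 t)
  have a3 : ∀ t, AnalyticAt ℂ (fun z => (U z t).1) 0 := fun t => analyticAt_fst.comp (u3 t)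
  have a4 : ∀ t, AnalyticAt ℂ (fun z => (U z t).2) 0 := fun t => analyticAt_snd.comp (u3 t)
  have t4 : τ (4 * Real.pi) = 2 * Real.pi := by simpa [t2] using t3 0
  have pw0 : w (2 * Real.pi) = w 0 := by simpa using pw 0
  have pF0 : F (2 * Real.pi) = F 0 := by simpa using pF 0
  have pp0 : p (2 * Real.pi) = p 0 := by simpa using pp 0
  have pi0 : (Real.pi : ℂ) ≠ 0 := by simp
  refine ⟨fun x => Q (τ x), fun z x => Y (τ x) ((1, 0) + z • W z (τ x)),
    fun z x => DY (τ x) ((1, 0) + z • W z (τ x)), fun z x => Y (τ x) ((0, 1) + z • U z (τ x)),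
    fun z x => DY (τ x) ((0, 1) + z • U z (τ x)), by fun_prop, fun x => by simp [t3, Q, pp, rho],
    fun z x => ⟨comp (solY (dW z) _).1, comp (solY (dW z) _).2, comp (solY (dU z) _).1,
      comp (solY (dU z) _).2, ?_⟩, fun x => ?_, ?_, ?_, ?_⟩
  · have := w_ne (τ x)
    simp [DY, Y]
    field_simp
    linear_combination det z (τ x)
  · refine Order.one_le_iff_ne_zero.mpr (analyticOrderAt_ne_zero.mpr ⟨?_, ?_⟩)
    · have := a1 (τ x)
      have := a2 (τ x)
      have := a3 (τ x)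
      have := a4 (τ x)
      have := a1 (τ (x + 4 * Real.pi))
      have := a2 (τ (x + 4 * Real.pi))
      have := a3 (τ (x + 4 * Real.pi))
      have := a4 (τ (x + 4 * Real.pi))
      simp [Y]
      fun_prop
    · simp [Y, t3, pw, pF]
      ring
  all_goals
    have := a1 (2 * Real.pi)
    have := a2 (2 * Real.pi)
    have := a3 (2 * Real.pi)
    have := a4 (2 * Real.pi)
    have := w_ne 0
  · rw [ord1 (g := fun z => w 0 ^ 2 * ((U z (2 * Real.pi)).1 + F 0 * (U z (2 * Real.pi)).2 -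
      F 0 * ((W z (2 * Real.pi)).1 + F 0 * (W z (2 * Real.pi)).2))) (by fun_prop) 1 fun z => ?_,
      analyticOrderAt_eq_zero.mpr (Or.inr (by simp [W0, U0, w_ne]))]
    · simp
    · simp only [zero_add, t2, t4, Y, pw0, pF0]
      simp [w2, u2]
      ring
  · rw [ord1 (g := fun z => (p 0 * w 0 * F 0 + 1 / w 0) * (p 0 * w 0 * ((W z (2 * Real.pi)).1 +
      F 0 * (W z (2 * Real.pi)).2) + (W z (2 * Real.pi)).2 / w 0) - p 0 * w 0 * (p 0 * w 0 *
      ((U z (2 * Real.pi)).1 + F 0 * (U z (2 * Real.pi)).2) + (U z (2 * Real.pi)).2 / w 0))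
      (by fun_prop) 1 fun z => ?_, analyticOrderAt_eq_zero.mpr (Or.inr (by simp [W0, U0, w_ne, p, rho]))]
    · simp
    · simp only [zero_add, t2, t4, DY, Y, pw0, pF0, pp0]
      simp [w2, u2]
      ring
  · rw [ord1 (g := fun z => ((W z (2 * Real.pi)).1 - (U z (2 * Real.pi)).2) ^ 2 +
      4 * (U z (2 * Real.pi)).1 * (W z (2 * Real.pi)).2) (by fun_prop) 2 fun z => ?_]
    · exact add_le_add_right (Order.one_le_iff_ne_zero.mpr
        (analyticOrderAt_ne_zero.mpr ⟨by fun_prop, by simp [W0, U0]⟩)) 2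
    · simp only [t2, t4, DY, Y, pw0, pF0, pp0]
      simp [w2, u2]
      field_simp
      linear_combination 4 * det z (2 * Real.pi)

end Pool.Agent.H62.Hill
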