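import Pool.Agent.H62.HscDefs

namespace Pool.Agent.H62.Hsc

variable {α : Type}

theorem ev_sb (A : Alg α) (v : ℕ → α) (σ : ℕ → Fm) (φ : Fm) :
    A.ev v (φ.sb σ) = A.ev (fun i => A.ev v (σ i)) φ := by
  induction φ <;> simp_all [Fm.sb, Alg.ev]

theorem sb_sb (σ τ : ℕ → Fm) (φ : Fm) : (φ.sb σ).sb τ = φ.sb (fun i => (σ i).sb τ) := by
  induction φ <;> simp_all [Fm.sb]

theorem sb_var (φ : Fm) : φ.sb Fm.var = φ := by
  induction φ <;> simp_all [Fm.sb]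

/-- truncation -/
def tr (n : ℕ) (i : ℕ) : Fm := if i < n then .var i else .bot

theorem exists_tr (φ : Fm) : ∃ n, ∀ m, n ≤ m → φ.sb (tr m) = φ := by
  induction φ with
  | var i => exact ⟨i + 1, fun m hm => by simp [Fm.sb, tr]; omega⟩
  | bot => exact ⟨0, fun _ _ => rfl⟩
  | top => exact ⟨0, fun _ _ => rfl⟩
  | conj a b ha hb | disj a b ha hb | impl a b ha hb =>
    obtain ⟨n, hn⟩ := ha
    obtain ⟨m, hm⟩ := hb
    exact ⟨n + m, fun k hk => by simp [Fm.sb, hn k (by omega), hm k (by omega)]⟩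

theorem exists_tr_set {Γ : Set Fm} (h : Γ.Finite) : ∃ n, ∀ m, n ≤ m → ∀ φ ∈ Γ, φ.sb (tr m) = φ := by
  induction Γ, h using Set.Finite.induction_on with
  | empty => exact ⟨0, by simp⟩
  | insert _ _ ih =>
    rename_i a s _ _
    obtain ⟨n, hn⟩ := ih
    obtain ⟨k, hk⟩ := exists_tr a
    refine ⟨n + k, fun m hm φ hφ => ?_⟩
    rcases hφ with rfl | hφ
    · exact hk m (by omega)
    · exact hn m (by omega) φ hφ

def Cl (U : List α) (A : Alg α) : Prop :=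
  A.bot ∈ U ∧ A.top ∈ U ∧ ∀ x ∈ U, ∀ y ∈ U, A.inf x y ∈ U ∧ A.sup x y ∈ U ∧ A.imp x y ∈ U

theorem Cl.ev {U : List α} {A : Alg α} (h : Cl U A) {v : ℕ → α} (hv : ∀ i, v i ∈ U) (φ : Fm) :
    A.ev v φ ∈ U := by
  induction φ with
  | var i => exact hv i
  | bot => exact h.1
  | top => exact h.2.1
  | conj a b ha hb => exact (h.2.2 _ ha _ hb).1
  | disj a b ha hb => exact (h.2.2 _ ha _ hb).2.1
  | impl a b ha hb => exact (h.2.2 _ ha _ hb).2.2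

def Val (U : List α) (A : Alg α) : Cons := fun Γ φ =>
  ∀ v : ℕ → α, (∀ i, v i ∈ U) → (∀ γ ∈ Γ, A.ev v γ = A.top) → A.ev v φ = A.top

def Pt (U : List α) (A : Alg α) (k : ℕ) (v : ℕ → α) : Prop :=
  (∀ i, v i ∈ U) ∧ ∀ i, k ≤ i → v i = A.bot

theorem pt_finite (U : List α) (A : Alg α) (k : ℕ) : {v | Pt U A k v}.Finite := by
  have h : (Set.pi Set.univ fun _ : Fin k => {x | x ∈ U}).Finite :=
    Set.Finite.pi fun _ => List.finite_toSet U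
  refine (h.image fun (f : Fin k → α) (i : ℕ) => if h : i < k then f ⟨i, h⟩ else A.bot).subset ?_
  rintro v ⟨h1, h2⟩
  refine ⟨fun i => v i, fun i _ => h1 i, funext fun i => ?_⟩
  by_cases hi : i < k
  · simp [hi]
  · simp [hi, h2 i (by omega)]

theorem ev_tr {U : List α} {A : Alg α} {k : ℕ} {v : ℕ → α} (h : Pt U A k v) (φ : Fm) :
    A.ev v (φ.sb (tr k)) = A.ev v φ := by
  rw [ev_sb]
  congr 1
  funext i
  unfold tr
  split_ifs with hi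
  · rfl
  · exact (h.2 i (by omega)).symm

theorem pt_tr {U : List α} {A : Alg α} (hU : Cl U A) (k : ℕ) {v : ℕ → α} (hv : ∀ i, v i ∈ U) :
    Pt U A k (fun i => A.ev v (tr k i)) :=
  ⟨fun i => hU.ev hv _, fun i hi => by simp [tr, not_lt.2 hi, Alg.ev]⟩

def CritM (U : List α) (A : Alg α) : Prop :=
  ∀ S : Set (ℕ → α), (∀ p ∈ S, Pt U A U.length p) → ∀ b ∈ S, ∀ s, A.ev b s ≠ A.top →
    ∃ σ : ℕ → Fm, (∀ i, U.length ≤ i → σ i = .bot) ∧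
      (∀ p ∈ S, ∀ u, A.ev b u = A.top → A.ev p (u.sb σ) = A.top) ∧
      ∃ p ∈ S, A.ev p (s.sb σ) ≠ A.top

def VS (A : Alg α) (S : Set (ℕ → α)) : Cons := fun Γ φ =>
  ∀ σ : ℕ → Fm, (∀ γ ∈ Γ, ∀ p ∈ S, A.ev p (γ.sb σ) = A.top) → ∀ p ∈ S, A.ev p (φ.sb σ) = A.top

/-- The abstract form of hereditary structural completeness. -/
def HSC' (R : Cons) : Prop :=
  ∀ D : Cons, IsDed D → (∀ Γ φ, Γ.Finite → R Γ φ → D Γ φ) → SC D

def Fc (R : Cons) : Cons := fun Γ φ => ∃ Δ ⊆ Γ, Δ.Finite ∧ R Δ φ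

theorem isDed_Fc {R : Cons} (h1 : ∀ Γ φ, φ ∈ Γ → R Γ φ)
    (h2 : ∀ Γ Δ φ, (∀ ψ ∈ Δ, R Γ ψ) → R Δ φ → R Γ φ)
    (h3 : ∀ Γ φ σ, R Γ φ → R (Fm.sb σ '' Γ) (φ.sb σ)) : IsDed (Fc R) where
  refl Γ φ h := ⟨{φ}, by simpa, Set.finite_singleton _, h1 _ _ rfl⟩
  mono Γ Δ φ h := by
    rintro ⟨E, hE, hf, hR⟩
    exact ⟨E, hE.trans h, hf, hR⟩
  cut Γ Δ φ h := by
    rintro ⟨E, hE, hf, hR⟩
    choose! f hf1 hf2 hf3 using h
    refine ⟨⋃ ψ ∈ E, f ψ, ?_, hf.biUnion fun ψ hψ => hf2 ψ (hE hψ), h2 _ E _ ?_ hR⟩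
    · exact Set.iUnion₂_subset fun ψ hψ => hf1 ψ (hE hψ)
    · intro ψ hψ
      refine h2 _ (f ψ) _ (fun χ hχ => h1 _ _ ?_) (hf3 ψ (hE hψ))
      exact Set.mem_biUnion hψ hχ
  struct Γ φ σ := by
    rintro ⟨E, hE, hf, hR⟩
    exact ⟨_, Set.image_mono hE, hf.image _, h3 _ _ _ hR⟩
  fin Γ φ := by
    rintro ⟨E, hE, hf, hR⟩
    exact ⟨E, hE, hf, E, subset_rfl, hf, hR⟩

theorem VS.struct {A : Alg α} {S : Set (ℕ → α)} {Γ φ} (σ : ℕ → Fm) (h : VS A S Γ φ) :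
    VS A S (Fm.sb σ '' Γ) (φ.sb σ) := by
  intro τ hτ p hp
  rw [sb_sb]
  refine h _ (fun γ hγ q hq => ?_) p hp
  rw [← sb_sb]
  exact hτ _ ⟨γ, hγ, rfl⟩ q hq

theorem Val.vs {U : List α} {A : Alg α} (hU : Cl U A) {S : Set (ℕ → α)}
    (hS : ∀ p ∈ S, ∀ i, p i ∈ U) {Γ φ} (h : Val U A Γ φ) : VS A S Γ φ := by
  intro σ hσ p hp
  rw [ev_sb]
  refine h _ (fun i => hU.ev (hS p hp) _) fun γ hγ => ?_
  rw [← ev_sb]
  exact hσ γ hγ p hp

/-- failure of the criterion gives a rule valid on `S` and not at `b` -/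
theorem key {U : List α} {A : Alg α} (hU : Cl U A) (h : ¬ CritM U A) :
    ∃ S : Set (ℕ → α), (∀ p ∈ S, ∀ i, p i ∈ U) ∧ ∃ b ∈ S, ∃ Γ φ, Γ.Finite ∧ VS A S Γ φ ∧
      ¬ VS A {b} Γ φ := by
  unfold CritM at h
  push Not at h
  obtain ⟨S, hS, b, hb, s, hs, h⟩ := h
  set k := U.length
  have hch : ∀ q : ℕ → α, ∃ u, A.ev b u = A.top ∧
      (A.ev q u = A.top → ∀ w, A.ev b w = A.top → A.ev q w = A.top) := by
    intro q
    by_cases hq : ∀ w, A.ev b w = A.top → A.ev q w = A.top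
    · exact ⟨.top, rfl, fun _ => hq⟩
    · push Not at hq
      obtain ⟨w, h1, h2⟩ := hq
      exact ⟨w, h1, fun h => absurd h h2⟩
  choose u hu1 hu2 using hch
  refine ⟨S, fun p hp => (hS p hp).1, b, hb, (fun q => (u q).sb (tr k)) '' {q | Pt U A k q},
    s.sb (tr k), (pt_finite U A k).image _, ?_, ?_⟩
  · intro σ hσ p hp
    rw [sb_sb]
    refine h _ (fun i hi => by simp [tr, not_lt.2 hi, Fm.sb]) (fun p hp w hw => ?_) p hp
    rw [ev_sb]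
    refine hu2 _ ?_ w hw
    rw [← ev_sb, ← sb_sb]
    refine hσ _ ⟨_, ?_, rfl⟩ p hp
    exact ⟨fun i => hU.ev (hS p hp).1 _, fun i hi => by simp [tr, not_lt.2 hi, Fm.sb, Alg.ev]⟩
  · intro hv
    have := hv Fm.var ?_ b rfl
    · rw [sb_var, ev_tr (hS b hb)] at this
      exact hs this
    · rintro _ ⟨q, _, rfl⟩ p rfl
      rw [sb_var, ev_tr (hS p hb)]
      exact hu1 q

theorem crit_of_hsc {U : List α} {A : Alg α} (hU : Cl U A) (h : HSC' (Val U A)) : CritM U A := by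
  by_contra hc
  obtain ⟨S, hS, b, hb, Γ, φ, hΓ, h1, h2⟩ := key hU hc
  have hD : IsDed (Fc fun Γ φ => VS A S Γ φ ∧ VS A {b} Γ φ) := by
    refine isDed_Fc ?_ ?_ ?_
    · exact fun Γ φ h => ⟨fun σ hσ => hσ φ h, fun σ hσ => hσ φ h⟩
    · exact fun Γ Δ φ h h' => ⟨fun σ hσ => h'.1 σ fun ψ hψ => (h ψ hψ).1 σ hσ,
        fun σ hσ => h'.2 σ fun ψ hψ => (h ψ hψ).2 σ hσ⟩
    · exact fun Γ φ σ h => ⟨h.1.struct σ, h.2.struct σ⟩
  have hb' : ∀ p ∈ ({b} : Set (ℕ → α)), ∀ i, p i ∈ U := by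
    rintro p rfl
    exact hS p hb
  obtain ⟨Δ, hΔ, -, h3⟩ := h _ hD (fun Γ φ hf hv => ⟨Γ, subset_rfl, hf, hv.vs hU hS, hv.vs hU hb'⟩)
    Γ φ hΓ (by
      intro σ hσ
      have : VS A S ∅ (φ.sb σ) := by
        intro τ _ p hp
        rw [sb_sb]
        refine h1 _ (fun γ hγ q hq => ?_) p hp
        obtain ⟨E, hE, -, hE1, -⟩ := hσ γ hγ
        rw [← sb_sb]
        exact hE1 τ (fun χ hχ => absurd (hE hχ) (by simp)) q hq
      refine ⟨∅, subset_rfl, Set.finite_empty, this, ?_⟩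
      rintro τ - p rfl
      exact this τ (by simp) p hb)
  exact h2 fun σ hσ => h3.2 σ fun γ hγ => hσ γ (hΔ hγ)

theorem sep {U : List α} {A : Alg α} (hU : Cl U A) {D : Cons} (hD : IsDed D)
    (hV : ∀ Γ φ, Γ.Finite → Val U A Γ φ → D Γ φ) {Γ φ n} (hΓ : ∀ γ ∈ Γ, γ.sb (tr n) = γ)
    (hφ : φ.sb (tr n) = φ) (h : ¬ D Γ φ) :
    ∃ a, Pt U A n a ∧ A.ev a φ ≠ A.top ∧ ∀ ψ, D Γ ψ → A.ev a ψ = A.top := by
  by_contra hc
  push Not at hc
  have : Nonempty Fm := ⟨.bot⟩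
  choose! ψ h1 h2 using hc
  have hf : {a | Pt U A n a ∧ A.ev a φ ≠ A.top}.Finite :=
    (pt_finite U A n).subset fun a ha => ha.1
  refine h (hD.cut Γ ((fun a => (ψ a).sb (tr n)) '' {a | Pt U A n a ∧ A.ev a φ ≠ A.top}) φ ?_
    (hV _ _ (hf.image _) ?_))
  · rintro _ ⟨a, ha, rfl⟩
    refine hD.mono _ _ _ ?_ (hD.struct _ _ (tr n) (h1 a ha.1 ha.2))
    rintro _ ⟨γ, hγ, rfl⟩
    rwa [hΓ γ hγ]
  · intro v hv hp
    by_contra hne
    rw [← hφ, ev_sb] at hne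
    refine h2 _ (pt_tr hU n hv) hne ?_
    rw [← ev_sb]
    exact hp _ ⟨_, ⟨pt_tr hU n hv, hne⟩, rfl⟩

theorem hsc_of_crit {U : List α} {A : Alg α} (hU : Cl U A) (h : CritM U A) : HSC' (Val U A) := by
  classical
  intro D hD hV Γ φ hΓ hA
  by_contra hne
  obtain ⟨n, hn⟩ := exists_tr_set (hΓ.insert φ)
  obtain ⟨a, ha, haφ, haΓ⟩ := sep hU hD hV (fun γ hγ => hn n le_rfl γ (Or.inr hγ))
    (hn n le_rfl φ (Or.inl rfl)) hne
  set k := U.length with hk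
  let τ : ℕ → Fm := fun i =>
    if h : i < k ∧ ∃ u, A.ev a u = U.getD i A.bot then h.2.choose else .bot
  let b : ℕ → α := fun i => A.ev a (τ i)
  let ρ : ℕ → Fm := fun j => .var (U.idxOf (a j))
  have hρ : ∀ j, A.ev b (ρ j) = a j := by
    intro j
    have h1 : U.idxOf (a j) < k := List.idxOf_lt_length_of_mem (ha.1 j)
    have h2 : U.getD (U.idxOf (a j)) A.bot = a j := by
      rw [List.getD_eq_getElem _ _ h1]
      exact List.getElem_idxOf h1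
    have h3 : U.idxOf (a j) < k ∧ ∃ u, A.ev a u = U.getD (U.idxOf (a j)) A.bot :=
      ⟨h1, .var j, h2.symm⟩
    show A.ev a (τ _) = _
    simp only [τ, dif_pos h3]
    rw [h3.2.choose_spec, h2]
  have hρ' : ∀ ψ : Fm, A.ev b (ψ.sb ρ) = A.ev a ψ := fun ψ => by
    rw [ev_sb]; simp only [hρ]
  have hb : Pt U A k b := ⟨fun i => hU.ev ha.1 _, fun i hi => by
    have : ¬ (i < k ∧ ∃ u, A.ev a u = U.getD i A.bot) := fun h => by omega
    simp only [b, τ, dif_neg this, Alg.ev]⟩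
  let S : Set (ℕ → α) := {p | Pt U A k p ∧ ∀ ψ, D ∅ ψ → A.ev p ψ = A.top}
  have hbS : b ∈ S := ⟨hb, fun ψ hψ => by
    have := haΓ _ (hD.mono _ Γ _ (by simp) (hD.struct _ _ τ hψ))
    rwa [ev_sb] at this⟩
  obtain ⟨σ, -, h1, p, hp, h2⟩ := h S (fun p hp => hp.1) b hbS (φ.sb ρ) (by rwa [hρ'])
  have h3 := hA (fun i => ((ρ i).sb σ).sb (tr k)) (fun γ hγ => by
    by_contra hc
    have e : (γ.sb fun i => ((ρ i).sb σ).sb (tr k)) = ((γ.sb ρ).sb σ).sb (tr k) := by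
      simp only [sb_sb]
    rw [e] at hc
    obtain ⟨q, hq, hq1, hq2⟩ := sep hU hD hV (n := k) (by simp) (by
      rw [sb_sb]
      congr 1
      funext i
      unfold tr
      split_ifs with hi
      · simp [Fm.sb, hi]
      · rfl) hc
    rw [ev_tr hq] at hq1
    refine hq1 (h1 q ⟨hq, hq2⟩ _ ?_)
    rw [hρ']
    exact haΓ γ (hD.refl _ _ hγ))
  have e : (φ.sb fun i => ((ρ i).sb σ).sb (tr k)) = ((φ.sb ρ).sb σ).sb (tr k) := by
    simp only [sb_sb]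
  have h4 := hp.2 _ h3
  rw [e, ev_tr hp.1] at h4
  exact h2 h4

theorem core {U : List α} {A : Alg α} (hU : Cl U A) : HSC' (Val U A) ↔ CritM U A :=
  ⟨crit_of_hsc hU, hsc_of_crit hU⟩

end Pool.Agent.H62.Hsc
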