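import Pool.Agent.H62.Hsc1

namespace Pool.Agent.H62.Hsc

variable {α : Type}

def ValQ (U : List α) (A : Alg α) (q : List (Fm × Fm) × (Fm × Fm)) : Prop :=
  ∀ v : ℕ → α, (∀ i, v i ∈ U) → (∀ e ∈ q.1, A.ev v e.1 = A.ev v e.2) →
    A.ev v q.2.1 = A.ev v q.2.2

/-- term functions on a set of points -/
abbrev CT (A : Alg α) (S : Set (ℕ → α)) : Type := {f : S → α // ∃ u, ∀ p, f p = A.ev p.1 u}

def CA (A : Alg α) (S : Set (ℕ → α)) : Alg (CT A S) where
  inf f g := ⟨fun p => A.inf (f.1 p) (g.1 p), by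
    obtain ⟨u, hu⟩ := f.2; obtain ⟨w, hw⟩ := g.2
    exact ⟨.conj u w, fun p => by beta_reduce; rw [hu, hw]; rfl⟩⟩
  sup f g := ⟨fun p => A.sup (f.1 p) (g.1 p), by
    obtain ⟨u, hu⟩ := f.2; obtain ⟨w, hw⟩ := g.2
    exact ⟨.disj u w, fun p => by beta_reduce; rw [hu, hw]; rfl⟩⟩
  imp f g := ⟨fun p => A.imp (f.1 p) (g.1 p), by
    obtain ⟨u, hu⟩ := f.2; obtain ⟨w, hw⟩ := g.2
    exact ⟨.impl u w, fun p => by beta_reduce; rw [hu, hw]; rfl⟩⟩
  bot := ⟨fun _ => A.bot, .bot, fun _ => rfl⟩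
  top := ⟨fun _ => A.top, .top, fun _ => rfl⟩

theorem CA_ev (A : Alg α) (S : Set (ℕ → α)) (w : ℕ → CT A S) (φ : Fm) (p : S) :
    ((CA A S).ev w φ).1 p = A.ev (fun i => (w i).1 p) φ := by
  induction φ with
  | var i => rfl
  | bot => rfl
  | top => rfl
  | conj a b ha hb => simp only [Alg.ev, ← ha, ← hb]; rfl
  | disj a b ha hb => simp only [Alg.ev, ← ha, ← hb]; rfl
  | impl a b ha hb => simp only [Alg.ev, ← ha, ← hb]; rfl

theorem CA_sat (A : Alg α) (S : Set (ℕ → α)) (q : List (Fm × Fm) × (Fm × Fm)) :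
    (CA A S).SatQ q ↔ ∀ σ : ℕ → Fm,
      (∀ e ∈ q.1, ∀ p ∈ S, A.ev p (e.1.sb σ) = A.ev p (e.2.sb σ)) →
        ∀ p ∈ S, A.ev p (q.2.1.sb σ) = A.ev p (q.2.2.sb σ) := by
  constructor
  · intro h σ hσ p hp
    have := h (fun i => ⟨fun p => A.ev p.1 (σ i), σ i, fun _ => rfl⟩) (fun e he => by
      refine Subtype.ext (funext fun p => ?_)
      rw [CA_ev, CA_ev, ← ev_sb, ← ev_sb]
      exact hσ e he p.1 p.2)
    have := congrArg (fun f : CT A S => f.1 ⟨p, hp⟩) this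
    simp only [CA_ev] at this
    rwa [ev_sb, ev_sb]
  · intro h w hw
    choose σ hσ using fun i => (w i).2
    refine Subtype.ext (funext fun p => ?_)
    rw [CA_ev, CA_ev]
    simp only [hσ]
    rw [← ev_sb, ← ev_sb]
    refine h σ (fun e he p hp => ?_) p.1 p.2
    have := congrArg (fun f : CT A S => f.1 ⟨p, hp⟩) (hw e he)
    simp only [CA_ev, hσ] at this
    rwa [ev_sb, ev_sb]

theorem satId_iff {G : Type} (B : Alg G) (e : Fm × Fm) : B.SatId e ↔ B.SatQ ([], e) := by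
  simp [Alg.SatId, Alg.SatQ]

noncomputable def toQ (Γ : Set Fm) (h : Γ.Finite) (φ : Fm) : List (Fm × Fm) × (Fm × Fm) :=
  (h.toFinset.toList.map fun γ => (γ, .top), (φ, .top))

theorem toQ_prem {Γ : Set Fm} (h : Γ.Finite) (φ : Fm) (P : Fm × Fm → Prop) :
    (∀ e ∈ (toQ Γ h φ).1, P e) ↔ ∀ γ ∈ Γ, P (γ, .top) := by
  simp [toQ]

theorem crit_of_prim {U : List α} {A : Alg α} (hU : Cl U A) {K : Cls}
    (hK : ∀ G B, K G B ↔ ∀ q, ValQ U A q → B.SatQ q) (h : Primitive K) : CritM U A := by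
  by_contra hc
  obtain ⟨S, hS, b, hb, Γ, φ, hΓ, h1, h2⟩ := key hU hc
  have hin : ∀ T : Set (ℕ → α), T ⊆ S → K _ (CA A T) := by
    intro T hT
    rw [hK]
    intro q hq
    rw [CA_sat]
    intro σ hσ p hp
    rw [ev_sb, ev_sb]
    refine hq _ (fun i => hU.ev (hS p (hT hp)) _) fun e he => ?_
    rw [← ev_sb, ← ev_sb]
    exact hσ e he p hp
  obtain ⟨V, ⟨E, hE⟩, hV⟩ := h (QGen (CA A S)) ⟨{q | (CA A S).SatQ q}, fun G B => Iff.rfl⟩
    (fun G B hB => (hK _ _).2 fun q hq => hB q ((hK _ _).1 (hin S subset_rfl) q hq))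
  have h3 := (hE _ _).1 ((hV _ (CA A S)).1 fun q hq => hq).2
  have h4 : QGen (CA A S) _ (CA A {b}) := by
    refine (hV _ _).2 ⟨hin _ (by simpa), (hE _ _).2 fun e he => ?_⟩
    have := h3 e he
    rw [satId_iff, CA_sat] at this ⊢
    rintro σ - p rfl
    exact this σ (by simp) p hb
  have h5 := h4 (toQ Γ hΓ φ) (by
    rw [CA_sat]
    intro σ hσ
    rw [toQ_prem] at hσ
    exact h1 σ hσ)
  rw [CA_sat] at h5
  refine h2 fun σ hσ => h5 σ ?_
  rw [toQ_prem]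
  exact hσ

def bi (e : Fm × Fm) : Fm := .conj (.impl e.1 e.2) (.impl e.2 e.1)

theorem prim_of_hsc {U : List α} {A : Alg α}
    (hE : ∀ x ∈ U, ∀ y ∈ U, A.inf (A.imp x y) (A.imp y x) = A.top ↔ x = y) {K : Cls}
    (hK : ∀ G B, K G B ↔ ∀ q, ValQ U A q → B.SatQ q) (h : HSC' (Val U A)) : Primitive K := by
  rintro K' ⟨Sg, hSg⟩ hK'
  have hbi : ∀ G (B : Alg G), K G B → ∀ v e, B.ev v (bi e) = B.top ↔ B.ev v e.1 = B.ev v e.2 := by
    intro G B hB v e
    rw [hK] at hB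
    have a1 := hB ([(bi (.var 0, .var 1), .top)], (.var 0, .var 1)) (fun w hw h =>
      (hE _ (hw 0) _ (hw 1)).1 (h _ List.mem_cons_self))
    have a2 := hB ([], (bi (.var 0, .var 0), .top)) (fun w hw _ =>
      (hE _ (hw 0) _ (hw 0)).2 rfl)
    constructor
    · intro h
      exact a1 (fun i => if i = 0 then B.ev v e.1 else B.ev v e.2) (by
        simpa [bi, Alg.ev] using h)
    · intro h
      have := a2 (fun _ => B.ev v e.1) (by simp)
      simp only [bi, Alg.ev] at this ⊢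
      rwa [← h]
  refine ⟨fun G B => ∀ e ∈ {e | ∀ G' B', K' G' B' → B'.SatId e}, B.SatId e,
    ⟨_, fun _ _ => Iff.rfl⟩, fun G B => ⟨fun hB => ⟨hK' _ _ hB, fun e he => he _ _ hB⟩, ?_⟩⟩
  rintro ⟨hB, hBE⟩
  rw [hSg]
  intro q hq
  let R : Cons := fun Γ φ => (∀ G' (B' : Alg G'), K' G' B' → consA B' Γ φ) ∧ consA B Γ φ
  have hst : ∀ G' (B' : Alg G') Γ φ σ, consA B' Γ φ → consA B' (Fm.sb σ '' Γ) (φ.sb σ) := by
    intro G' B' Γ φ σ h v hv
    rw [ev_sb]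
    refine h _ fun γ hγ => ?_
    rw [← ev_sb]
    exact hv _ ⟨γ, hγ, rfl⟩
  have hD : IsDed (Fc R) := by
    refine isDed_Fc ?_ ?_ ?_
    · exact fun Γ φ h => ⟨fun _ _ _ v hv => hv φ h, fun v hv => hv φ h⟩
    · exact fun Γ Δ φ h h' => ⟨fun G' B' hB' v hv => h'.1 _ _ hB' v fun ψ hψ =>
        (h ψ hψ).1 _ _ hB' v hv, fun v hv => h'.2 v fun ψ hψ => (h ψ hψ).2 v hv⟩
    · exact fun Γ φ σ h => ⟨fun G' B' hB' => hst _ _ _ _ _ (h.1 _ _ hB'), hst _ _ _ _ _ h.2⟩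
  have hval : ∀ G' (B' : Alg G'), K G' B' → ∀ Γ φ, Γ.Finite → Val U A Γ φ → consA B' Γ φ := by
    intro G' B' hB' Γ φ hf hv w hw
    refine (hK _ _).1 hB' (toQ Γ hf φ) (fun v h1 h2 => hv v h1 ?_) w ?_
    · rwa [toQ_prem hf φ (fun e => A.ev v e.1 = A.ev v e.2)] at h2
    · rwa [toQ_prem hf φ (fun e => B'.ev w e.1 = B'.ev w e.2)]
  obtain ⟨Δ, hΔ, -, h3⟩ := h _ hD (fun Γ φ hf hv => ⟨Γ, subset_rfl, hf,
      fun G' B' hB' => hval _ _ (hK' _ _ hB') _ _ hf hv, hval _ _ hB _ _ hf hv⟩)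
    (bi '' {e | e ∈ q.1}) (bi q.2) ((List.finite_toSet _).image _) (by
      intro σ hσ
      have : ∀ G' (B' : Alg G'), K' G' B' → B'.SatId ((bi q.2).sb σ, .top) := by
        intro G' B' hB' v
        show B'.ev v ((bi q.2).sb σ) = B'.top
        rw [ev_sb, hbi _ _ (hK' _ _ hB')]
        refine (hSg _ _).1 hB' q hq _ fun e he => ?_
        rw [← hbi _ _ (hK' _ _ hB'), ← ev_sb]
        obtain ⟨E, hE', -, hE1, -⟩ := hσ _ ⟨e, he, rfl⟩
        exact hE1 _ _ hB' v fun χ hχ => absurd (hE' hχ) (by simp)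
      exact ⟨∅, subset_rfl, Set.finite_empty, fun G' B' hB' v _ => this _ _ hB' v,
        fun v _ => hBE _ this v⟩)
  intro v hv
  rw [← hbi _ _ hB]
  refine h3.2 v fun γ hγ => ?_
  obtain ⟨e, he, rfl⟩ := hΔ hγ
  rw [hbi _ _ hB]
  exact hv e he

theorem prim_core {U : List α} {A : Alg α} (hU : Cl U A)
    (hE : ∀ x ∈ U, ∀ y ∈ U, A.inf (A.imp x y) (A.imp y x) = A.top ↔ x = y) {K : Cls}
    (hK : ∀ G B, K G B ↔ ∀ q, ValQ U A q → B.SatQ q) : Primitive K ↔ CritM U A :=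
  ⟨crit_of_prim hU hK, fun h => prim_of_hsc hE hK (hsc_of_crit hU h)⟩

theorem consA_compact {H : Type} [Finite H] (A : Alg H) {Γ φ} (h : consA A Γ φ) :
    ∃ Δ ⊆ Γ, Δ.Finite ∧ consA A Δ φ := by
  let _ : TopologicalSpace H := ⊥
  have : DiscreteTopology H := ⟨rfl⟩
  have hc : ∀ ψ, Continuous fun v : ℕ → H => A.ev v ψ := by
    intro ψ
    induction ψ with
    | var i => exact continuous_apply i
    | bot => exact continuous_const
    | top => exact continuous_const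
    | conj a b ha hb =>
      exact (continuous_of_discreteTopology (f := fun p : H × H => A.inf p.1 p.2)).comp
        (ha.prodMk hb)
    | disj a b ha hb =>
      exact (continuous_of_discreteTopology (f := fun p : H × H => A.sup p.1 p.2)).comp
        (ha.prodMk hb)
    | impl a b ha hb =>
      exact (continuous_of_discreteTopology (f := fun p : H × H => A.imp p.1 p.2)).comp
        (ha.prodMk hb)
  have hs : IsCompact {v : ℕ → H | A.ev v φ ≠ A.top} :=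
    ((isClosed_discrete {x | x ≠ A.top}).preimage (hc φ)).isCompact
  obtain ⟨t, ht⟩ := hs.elim_finite_subcover (fun γ : Γ => {v : ℕ → H | A.ev v γ.1 ≠ A.top})
    (fun γ => (isOpen_discrete {x | x ≠ A.top}).preimage (hc γ.1)) (by
      intro v hv
      by_contra hn
      simp only [Set.mem_iUnion, not_exists] at hn
      exact hv (h v fun γ hγ => not_not.1 (hn ⟨γ, hγ⟩)))
  refine ⟨Subtype.val '' (t : Set Γ), ?_, t.finite_toSet.image _, fun v hv => ?_⟩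
  · rintro _ ⟨γ, -, rfl⟩
    exact γ.2
  · by_contra hn
    have := ht hn
    simp only [Set.mem_iUnion] at this
    obtain ⟨γ, hγ, h'⟩ := this
    exact h' (hv _ ⟨γ, hγ, rfl⟩)

theorem hsc_consA {H : Type} [Finite H] (A : Alg H) : HSC (consA A) ↔ HSC' (consA A) := by
  refine ⟨fun h D hD hV => h D hD fun Γ φ hφ => ?_, fun h D hD hV => h D hD fun Γ φ _ => hV Γ φ⟩
  obtain ⟨Δ, h1, h2, h3⟩ := consA_compact A hφ
  exact hD.mono _ _ _ h1 (hV _ _ h2 h3)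

theorem mp_thm {H : Type} [HeytingAlgebra H] (φ : Fm) :
    MPder (logic (heyt H)) ∅ φ ↔ φ ∈ logic (heyt H) := by
  refine ⟨fun h => ?_, MPder.ax⟩
  induction h with
  | ax h => exact h
  | hyp h => exact absurd h (by simp)
  | mp _ _ h1 h2 =>
    intro v
    have a := h1 v
    have b := h2 v
    simp only [Alg.ev] at b
    rw [a] at b
    simpa [heyt] using b

theorem hsc_scompl {L : Set Fm} (hL : ∀ φ ∈ L, ∀ σ, φ.sb σ ∈ L) :
    HSC (SCompl (MPder L)) ↔ HSC' (Adm (MPder L)) := by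
  refine ⟨fun h D hD hV => h D hD fun Γ φ hφ => hφ D hD ?_ hV,
    fun h D hD hV => h D hD fun Γ φ hf hφ => hV Γ φ fun D' _ _ h3 => h3 Γ φ hf hφ⟩
  intro Δ ψ hψ
  induction hψ with
  | ax h => exact hD.mono ∅ _ _ (by simp) (hV _ _ Set.finite_empty fun σ _ => .ax (hL _ h σ))
  | hyp h => exact hD.refl _ _ h
  | @mp a b _ _ h1 h2 =>
    refine hD.cut _ {a, a.impl b} _ ?_ (hV _ _ (Set.toFinite _) fun σ hσ => ?_)
    · rintro _ (rfl | rfl)
      exacts [h1, h2]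
    · exact .mp (hσ a (by simp)) (hσ (a.impl b) (by simp))

end Pool.Agent.H62.Hsc
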