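import Pool.Agent.H62.Hsc2

namespace Pool.Agent.H62.Hsc

section lists
variable {β : Type}

def allL (L : List β) (k : ℕ) : List (List β) :=
  Nat.rec [[]] (fun _ r => L.flatMap fun a => r.map fun l => a :: l) k

theorem mem_allL {L : List β} {k : ℕ} {l : List β} :
    l ∈ allL L k ↔ l.length = k ∧ ∀ x ∈ l, x ∈ L := by
  induction k generalizing l with
  | zero =>
    show l ∈ [[]] ↔ _
    cases l <;> simp
  | succ k ih =>
    show l ∈ (L.flatMap fun a => (allL L k).map fun l => a :: l) ↔ _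
    cases l with
    | nil => simp
    | cons a l =>
      simp only [List.mem_flatMap, List.mem_map, List.cons.injEq, ih, List.length_cons,
        Nat.add_right_cancel_iff, List.mem_cons, forall_eq_or_imp]
      constructor
      · rintro ⟨b, hb, m, ⟨h1, h2⟩, rfl, rfl⟩
        exact ⟨h1, hb, h2⟩
      · rintro ⟨h1, hb, h2⟩
        exact ⟨a, hb, l, ⟨h1, h2⟩, rfl, rfl⟩

def subs (L : List β) : List (List β) :=
  L.foldr (fun a r => r ++ r.map fun l => a :: l) [[]]

theorem mem_subs {L T : List β} : T ∈ subs L ↔ T.Sublist L := by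
  induction L generalizing T with
  | nil => simp [subs]
  | cons a L ih =>
    show T ∈ subs L ++ (subs L).map (fun l => a :: l) ↔ _
    simp only [List.mem_append, List.mem_map, ih, List.sublist_cons_iff]
    constructor
    · rintro (h | ⟨l, h, rfl⟩)
      exacts [Or.inl h, Or.inr ⟨l, rfl, h⟩]
    · rintro (h | ⟨l, rfl, h⟩)
      exacts [Or.inl h, Or.inr ⟨l, h, rfl⟩]

end lists

variable {α : Type} [DecidableEq α]

def app (d : α) (P : List (List α)) (f : List α) (q : List α) : α := (f[P.idxOf q]?).getD d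

theorem app_map (d : α) {P : List (List α)} (φ : List α → α) {q : List α} (h : q ∈ P) :
    app d P (P.map φ) q = φ q := by
  have h1 : P.idxOf q < P.length := List.idxOf_lt_length_of_mem h
  simp [app, List.getElem?_eq_getElem h1]

def pv (d : α) (q : List α) (i : ℕ) : α := (q[i]?).getD d

/-- pointwise algebra on tables indexed by `P` -/
def PA (A : Alg α) (P : List (List α)) : Alg (List α) where
  inf f g := P.map fun q => A.inf (app A.bot P f q) (app A.bot P g q)
  sup f g := P.map fun q => A.sup (app A.bot P f q) (app A.bot P g q)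
  imp f g := P.map fun q => A.imp (app A.bot P f q) (app A.bot P g q)
  bot := P.map fun _ => A.bot
  top := P.map fun _ => A.top

def tab (A : Alg α) (P : List (List α)) (u : Fm) : List α := P.map fun q => A.ev (pv A.bot q) u

theorem app_tab (A : Alg α) {P : List (List α)} (u : Fm) {q : List α} (h : q ∈ P) :
    app A.bot P (tab A P u) q = A.ev (pv A.bot q) u := app_map _ _ h

theorem PA_ev (A : Alg α) (P : List (List α)) (σ : ℕ → Fm) (φ : Fm) :
    (PA A P).ev (fun i => tab A P (σ i)) φ = tab A P (φ.sb σ) := by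
  induction φ with
  | var i => rfl
  | bot => rfl
  | top => rfl
  | conj a b ha hb | disj a b ha hb | impl a b ha hb =>
    simp only [Alg.ev, ha, hb]
    refine List.map_congr_left fun q hq => ?_
    rw [app_tab _ _ hq, app_tab _ _ hq]
    rfl

def IsTF (U : List α) (A : Alg α) (f : List α) : Prop :=
  ∀ T ∈ subs (allL U (allL U U.length).length),
    (∀ i ∈ List.range U.length, (allL U U.length).map (fun q => pv A.bot q i) ∈ T) →
      Cl T (PA A (allL U U.length)) → f ∈ T

open Classical in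
noncomputable def TF (U : List α) (A : Alg α) : List (List α) :=
  (allL U (allL U U.length).length).filter fun f => IsTF U A f

omit [DecidableEq α] in
theorem pt_pv {U : List α} {A : Alg α} (hU : Cl U A) {k : ℕ} {q : List α} (h : q ∈ allL U k) :
    Pt U A k (pv A.bot q) := by
  rw [mem_allL] at h
  constructor
  · intro i
    unfold pv
    by_cases hi : i < q.length
    · simp [List.getElem?_eq_getElem hi, h.2 _ (List.getElem_mem hi)]
    · simp [List.getElem?_eq_none (not_lt.1 hi), hU.1]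
  · intro i hi
    simp [pv, List.getElem?_eq_none (h.1.trans_le hi)]

omit [DecidableEq α] in
theorem exists_pv {U : List α} {A : Alg α} {k : ℕ} {v : ℕ → α} (h : Pt U A k v) :
    ∃ q ∈ allL U k, pv A.bot q = v := by
  refine ⟨(List.range k).map v, mem_allL.2 ⟨by simp, ?_⟩, funext fun i => ?_⟩
  · simp only [List.mem_map]
    rintro _ ⟨i, -, rfl⟩
    exact h.1 i
  · by_cases hi : i < k
    · simp [pv, hi]
    · simp [pv, hi, h.2 i (not_lt.1 hi)]

omit [DecidableEq α] in
theorem tab_mem {U : List α} {A : Alg α} (hU : Cl U A) (u : Fm) :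
    tab A (allL U U.length) u ∈ allL U (allL U U.length).length := by
  refine mem_allL.2 ⟨by simp [tab], ?_⟩
  simp only [tab, List.mem_map]
  rintro _ ⟨q, hq, rfl⟩
  exact hU.ev (pt_pv hU hq).1 _

theorem cl_tab (A : Alg α) (P : List (List α)) {T : List (List α)}
    (hT : ∀ f, f ∈ T ↔ ∃ u, f = tab A P u) : Cl T (PA A P) := by
  refine ⟨(hT _).2 ⟨.bot, rfl⟩, (hT _).2 ⟨.top, rfl⟩, fun f hf g hg => ?_⟩
  obtain ⟨u, rfl⟩ := (hT _).1 hf
  obtain ⟨w, rfl⟩ := (hT _).1 hg
  let σ : ℕ → Fm := fun i => if i = 0 then u else w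
  exact ⟨(hT _).2 ⟨_, PA_ev A P σ (.conj (.var 0) (.var 1))⟩,
    (hT _).2 ⟨_, PA_ev A P σ (.disj (.var 0) (.var 1))⟩,
    (hT _).2 ⟨_, PA_ev A P σ (.impl (.var 0) (.var 1))⟩⟩

theorem mem_TF {U : List α} {A : Alg α} (hU : Cl U A) (f : List α) :
    f ∈ TF U A ↔ ∃ u, f = tab A (allL U U.length) u := by
  classical
  simp only [TF, List.mem_filter, decide_eq_true_eq]
  constructor
  · rintro ⟨-, h⟩
    have hT : ∀ g, g ∈ (allL U (allL U U.length).length).filter
        (fun f => ∃ u, f = tab A (allL U U.length) u) ↔ ∃ u, g = tab A (allL U U.length) u := by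
      intro g
      simp only [List.mem_filter, decide_eq_true_eq, and_iff_right_iff_imp]
      rintro ⟨u, rfl⟩
      exact tab_mem hU u
    exact (hT f).1 (h _ (mem_subs.2 List.filter_sublist)
      (fun i _ => (hT _).2 ⟨.var i, rfl⟩) (cl_tab A _ hT))
  · rintro ⟨u, rfl⟩
    refine ⟨tab_mem hU u, fun T _ h1 h2 => ?_⟩
    have := h2.ev (v := fun i => tab A (allL U U.length) (.var i)) (fun i => ?_) u
    · rwa [PA_ev, sb_var] at this
    · by_cases hi : i < U.length
      · exact h1 i (List.mem_range.2 hi)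
      · have e : tab A (allL U U.length) (.var i) = (PA A (allL U U.length)).bot :=
          List.map_congr_left fun q hq => (pt_pv hU hq).2 i (not_lt.1 hi)
        rw [e]
        exact h2.1

theorem cl_TF {U : List α} {A : Alg α} (hU : Cl U A) : Cl (TF U A) (PA A (allL U U.length)) :=
  cl_tab A _ (mem_TF hU)

def CritL (U : List α) (A : Alg α) : Prop :=
  ∀ S ∈ subs (allL U U.length), ∀ b ∈ S, ∀ s ∈ TF U A,
    ¬ app A.bot (allL U U.length) s b = A.top →
    ∃ σ ∈ allL (TF U A) U.length,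
      (∀ p ∈ S, ∀ u ∈ TF U A, app A.bot (allL U U.length) u b = A.top →
        app A.bot (allL U U.length) u (σ.map fun g => app A.bot (allL U U.length) g p) = A.top) ∧
      ∃ p ∈ S, ¬ app A.bot (allL U U.length) s (σ.map fun g => app A.bot (allL U U.length) g p) = A.top

theorem comp_eq {U : List α} {A : Alg α} (hU : Cl U A) {σ : ℕ → Fm}
    (hσ : ∀ i, U.length ≤ i → σ i = .bot) {p : List α} (hp : p ∈ allL U U.length) (u : Fm) :
    app A.bot (allL U U.length) (tab A (allL U U.length) u)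
      (((List.range U.length).map fun i => tab A (allL U U.length) (σ i)).map
        fun g => app A.bot (allL U U.length) g p) = A.ev (pv A.bot p) (u.sb σ) := by
  rw [app_tab, ev_sb]
  · congr 1
    funext i
    by_cases hi : i < U.length
    · simp only [pv, List.map_map, List.getElem?_map, List.getElem?_range hi, Option.map_some,
        Option.getD_some, Function.comp]
      exact app_tab A _ hp
    · simp [pv, hi, hσ i (not_lt.1 hi), Alg.ev]
  · refine mem_allL.2 ⟨by simp, ?_⟩
    simp only [List.map_map, List.mem_map, Function.comp]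
    rintro _ ⟨i, -, rfl⟩
    rw [app_tab A _ hp]
    exact hU.ev (pt_pv hU hp).1 _

theorem sig_mem {U : List α} {A : Alg α} (hU : Cl U A) (l : List (List α)) :
    l ∈ allL (TF U A) U.length ↔ ∃ σ : ℕ → Fm, (∀ i, U.length ≤ i → σ i = .bot) ∧
      l = (List.range U.length).map fun i => tab A (allL U U.length) (σ i) := by
  rw [mem_allL]
  constructor
  · rintro ⟨h1, h2⟩
    have : ∀ i, ∃ u : Fm, (U.length ≤ i → u = .bot) ∧
        ∀ h : i < l.length, l[i] = tab A (allL U U.length) u := by
      intro i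
      by_cases hi : i < l.length
      · obtain ⟨u, hu⟩ := (mem_TF hU _).1 (h2 _ (List.getElem_mem hi))
        exact ⟨u, fun h => by omega, fun _ => hu⟩
      · exact ⟨.bot, fun _ => rfl, fun h => absurd h hi⟩
    choose σ h3 h4 using this
    refine ⟨σ, h3, List.ext_getElem (by simpa) fun i h5 h6 => ?_⟩
    simp [h4 i h5]
  · rintro ⟨σ, -, rfl⟩
    refine ⟨by simp, ?_⟩
    simp only [List.mem_map]
    rintro _ ⟨i, -, rfl⟩
    exact (mem_TF hU _).2 ⟨_, rfl⟩

theorem critL_iff {U : List α} {A : Alg α} (hU : Cl U A) : CritL U A ↔ CritM U A := by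
  classical
  constructor
  · intro h S hS b hb s hs
    obtain ⟨b, hbP, rfl⟩ := exists_pv (hS b hb)
    have hm : ∀ p, p ∈ (allL U U.length).filter (fun p => pv A.bot p ∈ S) ↔
        p ∈ allL U U.length ∧ pv A.bot p ∈ S := by simp
    obtain ⟨l, hl, h1, p, hp, h2⟩ := h _ (mem_subs.2 List.filter_sublist) b ((hm b).2 ⟨hbP, hb⟩)
      _ ((mem_TF hU _).2 ⟨s, rfl⟩) (by rwa [app_tab _ _ hbP])
    obtain ⟨σ, hσ, rfl⟩ := (sig_mem hU l).1 hl
    refine ⟨σ, hσ, fun q hq u hu => ?_, _, ((hm p).1 hp).2, ?_⟩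
    · obtain ⟨q, hqP, rfl⟩ := exists_pv (hS q hq)
      rw [← comp_eq hU hσ hqP]
      exact h1 q ((hm q).2 ⟨hqP, hq⟩) _ ((mem_TF hU _).2 ⟨u, rfl⟩) (by rwa [app_tab _ _ hbP])
    · rwa [comp_eq hU hσ ((hm p).1 hp).1] at h2
  · intro h S hS b hb s hs hne
    have hS' : ∀ p ∈ S, p ∈ allL U U.length := fun p hp => (mem_subs.1 hS).subset hp
    obtain ⟨s, rfl⟩ := (mem_TF hU _).1 hs
    rw [app_tab _ _ (hS' b hb)] at hne
    obtain ⟨σ, hσ, h1, _, ⟨p, hp, rfl⟩, h2⟩ := h (pv A.bot '' {p | p ∈ S}) (by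
      rintro _ ⟨p, hp, rfl⟩
      exact pt_pv hU (hS' p hp)) _ ⟨b, hb, rfl⟩ s hne
    refine ⟨_, (sig_mem hU _).2 ⟨σ, hσ, rfl⟩, fun q hq u hu hu' => ?_, p, hp, ?_⟩
    · obtain ⟨u, rfl⟩ := (mem_TF hU _).1 hu
      rw [app_tab _ _ (hS' b hb)] at hu'
      rw [comp_eq hU hσ (hS' q hq)]
      exact h1 _ ⟨q, hq, rfl⟩ u hu'
    · rwa [comp_eq hU hσ (hS' p hp)]

theorem tab_top {A : Alg α} {P : List (List α)} {u : Fm} :
    tab A P u = (PA A P).top ↔ ∀ q ∈ P, A.ev (pv A.bot q) u = A.top := by
  exact List.map_inj_left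

/-- admissible rules of the logic are the rules valid in the algebra of term functions -/
theorem val_free {U : List α} {A : Alg α} (hU : Cl U A) (Γ : Set Fm) (φ : Fm) :
    Val (TF U A) (PA A (allL U U.length)) Γ φ ↔
      ∀ σ, (∀ γ ∈ Γ, Val U A ∅ (γ.sb σ)) → Val U A ∅ (φ.sb σ) := by
  constructor
  · intro h σ hσ v hv _
    let ρ : ℕ → Fm := fun j => .var (U.idxOf (v j))
    have h1 := h (fun i => tab A (allL U U.length) ((σ i).sb ρ))
      (fun i => (mem_TF hU _).2 ⟨_, rfl⟩) (fun γ hγ => by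
        rw [PA_ev, tab_top, ← sb_sb]
        intro q hq
        rw [ev_sb]
        exact hσ γ hγ _ (fun i => hU.ev (pt_pv hU hq).1 _) (by simp))
    rw [PA_ev, tab_top, ← sb_sb] at h1
    have h2 := h1 U (mem_allL.2 ⟨rfl, fun _ h => h⟩)
    rw [ev_sb] at h2
    convert h2 with i
    have h3 : U.idxOf (v i) < U.length := List.idxOf_lt_length_of_mem (hv i)
    simp [ρ, Alg.ev, pv, List.getElem?_eq_getElem h3]
  · intro h w hw hγ
    choose σ hσ using fun i => (mem_TF hU _).1 (hw i)
    obtain rfl : w = fun i => tab A (allL U U.length) (σ i) := funext hσ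
    rw [PA_ev, tab_top]
    intro q hq
    have := h (fun i => (σ i).sb (tr U.length)) (fun γ hγ' v hv _ => by
      obtain ⟨q, hq, e⟩ := exists_pv (pt_tr hU U.length hv)
      have := hγ γ hγ'
      rw [PA_ev, tab_top] at this
      rw [← sb_sb, ev_sb, ← e]
      exact this q hq) _ (pt_pv hU hq).1 (by simp)
    rwa [← sb_sb, ev_tr (pt_pv hU hq)] at this

end Pool.Agent.H62.Hsc
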