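import Pool.Agent.H62.Hsc3

namespace Pool.Agent.H62.Hsc

attribute [fun_prop] Primrec

section basic
variable {X Y β γ : Type} [Primcodable X] [Primcodable Y] [Primcodable β] [Primcodable γ]

@[fun_prop] theorem p_id : Primrec (fun x : X => x) := Primrec.id
@[fun_prop] theorem p_const (b : β) : Primrec (fun _ : X => b) := Primrec.const b
@[fun_prop] theorem p_comp {f : β → γ} {g : X → β} (hf : Primrec f) (hg : Primrec g) :
    Primrec (fun x => f (g x)) := hf.comp hg
@[fun_prop] theorem p_pair {f : X → β} {g : X → γ} (hf : Primrec f) (hg : Primrec g) :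
    Primrec (fun x => (f x, g x)) := hf.pair hg
@[fun_prop] theorem p_fst {f : X → β × γ} (hf : Primrec f) : Primrec (fun x => (f x).1) :=
  Primrec.fst.comp hf
@[fun_prop] theorem p_snd {f : X → β × γ} (hf : Primrec f) : Primrec (fun x => (f x).2) :=
  Primrec.snd.comp hf
@[fun_prop] theorem p_len {f : X → List β} (hf : Primrec f) : Primrec (fun x => (f x).length) :=
  Primrec.list_length.comp hf
@[fun_prop] theorem p_range {f : X → ℕ} (hf : Primrec f) : Primrec (fun x => List.range (f x)) :=
  Primrec.list_range.comp hf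
@[fun_prop] theorem p_map {f : X → List β} {g : X → β → γ} (hf : Primrec f)
    (hg : Primrec (fun p : X × β => g p.1 p.2)) : Primrec (fun x => (f x).map (g x)) :=
  Primrec.list_map hf hg
@[fun_prop] theorem p_flatMap {f : X → List β} {g : X → β → List γ} (hf : Primrec f)
    (hg : Primrec (fun p : X × β => g p.1 p.2)) : Primrec (fun x => (f x).flatMap (g x)) :=
  Primrec.list_flatMap hf hg
@[fun_prop] theorem p_cons {f : X → β} {g : X → List β} (hf : Primrec f) (hg : Primrec g) :
    Primrec (fun x => f x :: g x) := Primrec.list_cons.comp hf hg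
@[fun_prop] theorem p_append {f g : X → List β} (hf : Primrec f) (hg : Primrec g) :
    Primrec (fun x => f x ++ g x) := Primrec.list_append.comp hf hg

@[fun_prop] theorem p_allL {f : X → List β} {g : X → ℕ} (hf : Primrec f) (hg : Primrec g) :
    Primrec (fun x => allL (f x) (g x)) :=
  Primrec.nat_rec' (g := fun _ => [[]])
    (h := fun x (r : ℕ × List (List β)) => (f x).flatMap fun a => r.2.map fun l => a :: l)
    hg (.const _) (show Primrec _ by fun_prop)

@[fun_prop] theorem p_subs {f : X → List β} (hf : Primrec f) : Primrec (fun x => subs (f x)) :=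
  Primrec.list_foldr (g := fun _ => [[]])
    (h := fun _ (r : β × List (List β)) => r.2 ++ r.2.map fun l => r.1 :: l)
    hf (.const _) (show Primrec _ by fun_prop)

@[fun_prop] theorem p_pv {d : X → β} {q : X → List β} {i : X → ℕ} (hd : Primrec d)
    (hq : Primrec q) (hi : Primrec i) : Primrec (fun x => pv (d x) (q x) (i x)) :=
  Primrec.option_getD.comp (Primrec.list_getElem?.comp hq hi) hd

@[fun_prop] theorem p_app [DecidableEq β] {d : X → β} {P : X → List (List β)} {f q : X → List β}
    (hd : Primrec d) (hP : Primrec P) (hf : Primrec f) (hq : Primrec q) :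
    Primrec (fun x => app (d x) (P x) (f x) (q x)) := by
  have : Primrec fun x => (P x).idxOf (q x) := by
    convert Primrec.list_idxOf.comp hq hP
  exact Primrec.option_getD.comp (Primrec.list_getElem?.comp hf this) hd

theorem pall {L : X → List β} {P : X → β → Prop} (hL : Primrec L)
    (hP : PrimrecPred fun p : X × β => P p.1 p.2) : PrimrecPred fun x => ∀ a ∈ L x, P x a :=
  (PrimrecRel.forall_mem_list (R := fun a x => P x a)
    (hP.comp (Primrec.snd.pair Primrec.fst))).comp hL Primrec.id

theorem pex {L : X → List β} {P : X → β → Prop} (hL : Primrec L)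
    (hP : PrimrecPred fun p : X × β => P p.1 p.2) : PrimrecPred fun x => ∃ a ∈ L x, P x a :=
  (PrimrecRel.exists_mem_list (R := fun a x => P x a)
    (hP.comp (Primrec.snd.pair Primrec.fst))).comp hL Primrec.id

theorem peq {f g : X → β} (hf : Primrec f) (hg : Primrec g) : PrimrecPred fun x => f x = g x :=
  Primrec.eq.comp hf hg

theorem pmem {f : X → β} {L : X → List β} (hf : Primrec f) (hL : Primrec L) :
    PrimrecPred fun x => f x ∈ L x :=
  (pex (P := fun x a => f x = a) hL (peq (by fun_prop) (by fun_prop))).of_eq (by simp)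

theorem pimp {p q : X → Prop} (hp : PrimrecPred p) (hq : PrimrecPred q) :
    PrimrecPred fun x => p x → q x :=
  (hp.not.or hq).of_eq fun _ => imp_iff_not_or.symm

/-- computable family of algebras -/
@[fun_prop] def PRA (B : X → Alg β) : Prop :=
  Primrec (fun p : X × β × β => (B p.1).inf p.2.1 p.2.2) ∧
  Primrec (fun p : X × β × β => (B p.1).sup p.2.1 p.2.2) ∧
  Primrec (fun p : X × β × β => (B p.1).imp p.2.1 p.2.2) ∧
  Primrec (fun x => (B x).bot) ∧ Primrec (fun x => (B x).top)

@[fun_prop] theorem p_inf {B : X → Alg β} {f g : X → β} (h : PRA B) (hf : Primrec f)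
    (hg : Primrec g) : Primrec (fun x => (B x).inf (f x) (g x)) :=
  h.1.comp (Primrec.id.pair (hf.pair hg))
@[fun_prop] theorem p_sup {B : X → Alg β} {f g : X → β} (h : PRA B) (hf : Primrec f)
    (hg : Primrec g) : Primrec (fun x => (B x).sup (f x) (g x)) :=
  h.2.1.comp (Primrec.id.pair (hf.pair hg))
@[fun_prop] theorem p_imp {B : X → Alg β} {f g : X → β} (h : PRA B) (hf : Primrec f)
    (hg : Primrec g) : Primrec (fun x => (B x).imp (f x) (g x)) :=
  h.2.2.1.comp (Primrec.id.pair (hf.pair hg))
@[fun_prop] theorem p_bot {B : X → Alg β} (h : PRA B) : Primrec (fun x => (B x).bot) := h.2.2.2.1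
@[fun_prop] theorem p_top {B : X → Alg β} (h : PRA B) : Primrec (fun x => (B x).top) := h.2.2.2.2

@[fun_prop] theorem PRA.comp {B : Y → Alg β} {g : X → Y} (h : PRA B) (hg : Primrec g) :
    PRA (fun x => B (g x)) :=
  ⟨h.1.comp ((hg.comp .fst).pair .snd), h.2.1.comp ((hg.comp .fst).pair .snd),
    h.2.2.1.comp ((hg.comp .fst).pair .snd), h.2.2.2.1.comp hg, h.2.2.2.2.comp hg⟩

@[fun_prop] theorem p_PA [DecidableEq β] {B : X → Alg β} {P : X → List (List β)} (h : PRA B)
    (hP : Primrec P) : PRA (fun x => PA (B x) (P x)) := by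
  refine ⟨?_, ?_, ?_, ?_, ?_⟩ <;> simp only [PA] <;> fun_prop

theorem p_cl {B : X → Alg β} {U : X → List β} (h : PRA B) (hU : Primrec U) :
    PrimrecPred fun x => Cl (U x) (B x) := by
  refine (pmem (by fun_prop) hU).and ((pmem (by fun_prop) hU).and
    (pall hU (pall (by fun_prop) (.and ?_ (.and ?_ ?_))))) <;>
  exact pmem (by fun_prop) (by fun_prop)

theorem p_isTF [DecidableEq β] {B : X → Alg β} {U f : X → List β} (h : PRA B) (hU : Primrec U)
    (hf : Primrec f) : PrimrecPred fun x => IsTF (U x) (B x) (f x) := by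
  refine pall (by fun_prop) (pimp (pall (by fun_prop) (pmem (by fun_prop) (by fun_prop)))
    (pimp (p_cl (by fun_prop) (by fun_prop)) (pmem (by fun_prop) (by fun_prop))))

@[fun_prop] theorem p_TF [DecidableEq β] {B : X → Alg β} {U : X → List β} (h : PRA B)
    (hU : Primrec U) : Primrec fun x => TF (U x) (B x) := by
  classical
  have h1 : PrimrecRel fun (f : List β) (x : X) => IsTF (U x) (B x) f :=
    p_isTF (X := List β × X) (by fun_prop) (by fun_prop) (by fun_prop)
  exact h1.listFilter.comp (by fun_prop) Primrec.id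

theorem p_crit [DecidableEq β] {B : X → Alg β} {U : X → List β} (h : PRA B) (hU : Primrec U) :
    PrimrecPred fun x => CritL (U x) (B x) := by
  refine pall (by fun_prop) (pall (by fun_prop) (pall (by fun_prop)
    (pimp (peq (by fun_prop) (by fun_prop)).not (pex (by fun_prop) (.and
      (pall (by fun_prop) (pall (by fun_prop)
        (pimp (peq (by fun_prop) (by fun_prop)) (peq (by fun_prop) (by fun_prop)))))
      (pex (by fun_prop) (peq (by fun_prop) (by fun_prop)).not))))))

end basic

def algN (c : Code) : Alg ℕ where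
  inf x y := pv 0 (pv [] c.2.1 x) y
  sup x y := pv 0 (pv [] c.2.2.1 x) y
  imp x y := pv 0 (pv [] c.2.2.2.1 x) y
  bot := c.2.2.2.2.1
  top := c.2.2.2.2.2

theorem p_algN : PRA algN := by
  refine ⟨?_, ?_, ?_, ?_, ?_⟩ <;> simp only [algN] <;> fun_prop

section transfer
variable {H : Type} [HeytingAlgebra H] {n : ℕ} (e : Fin n ≃ H)

omit [HeytingAlgebra H] in
theorem pv_table (f : H → H → H) (x y : H) :
    pv 0 (pv [] (table e f) (e.symm x).val) (e.symm y).val = (e.symm (f x y)).val := by
  simp [pv, table]

theorem ev_code (v : ℕ → H) (φ : Fm) :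
    (algN (code e)).ev (fun i => (e.symm (v i)).val) φ = (e.symm ((heyt H).ev v φ)).val := by
  induction φ with
  | var i => rfl
  | bot => rfl
  | top => rfl
  | conj a b ha hb | disj a b ha hb | impl a b ha hb =>
    simp only [Alg.ev, ha, hb]
    exact pv_table e _ _ _

omit [HeytingAlgebra H] in
theorem exists_val {w : ℕ → ℕ} (hw : ∀ i, w i ∈ List.range n) :
    ∃ v : ℕ → H, w = fun i => (e.symm (v i)).val :=
  ⟨fun i => e ⟨w i, List.mem_range.1 (hw i)⟩, by simp⟩

omit [HeytingAlgebra H] in
theorem enc_inj {x y : H} : (e.symm x).val = (e.symm y).val ↔ x = y := by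
  simp [Fin.val_inj]

theorem cl_code : Cl (List.range n) (algN (code e)) := by
  refine ⟨List.mem_range.2 (e.symm ⊥).2, List.mem_range.2 (e.symm ⊤).2, fun x hx y hy => ?_⟩
  obtain ⟨v, hv⟩ := exists_val e (w := fun i => if i = 0 then x else y)
    (fun i => by split_ifs <;> assumption)
  have h0 : x = (e.symm (v 0)).val := congrFun hv 0
  have h1 : y = (e.symm (v 1)).val := congrFun hv 1
  subst h0 h1
  refine ⟨?_, ?_, ?_⟩ <;> rw [List.mem_range]
  exacts [(pv_table e _ _ _).trans_lt (Fin.is_lt _), (pv_table e _ _ _).trans_lt (Fin.is_lt _),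
    (pv_table e _ _ _).trans_lt (Fin.is_lt _)]

theorem satQ_code (q : List (Fm × Fm) × (Fm × Fm)) :
    (heyt H).SatQ q ↔ ValQ (List.range n) (algN (code e)) q := by
  constructor
  · intro h w hw hq
    obtain ⟨v, rfl⟩ := exists_val e hw
    simp only [ev_code, enc_inj] at hq ⊢
    exact h v hq
  · intro h v hq
    have := h (fun i => (e.symm (v i)).val) (fun i => List.mem_range.2 (Fin.is_lt _))
    simp only [ev_code, enc_inj] at this
    exact this hq

theorem val_code : Val (List.range n) (algN (code e)) = consA (heyt H) := by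
  have ht : (algN (code e)).top = (e.symm (heyt H).top).val := rfl
  funext Γ φ
  refine propext ⟨fun h v hq => ?_, fun h w hw hq => ?_⟩
  · have := h (fun i => (e.symm (v i)).val) (fun i => List.mem_range.2 (Fin.is_lt _))
    simp only [ev_code, ht, enc_inj] at this
    exact this hq
  · obtain ⟨v, rfl⟩ := exists_val e hw
    simp only [ev_code, ht, enc_inj] at hq ⊢
    exact h v hq

theorem eqv_code : ∀ x ∈ List.range n, ∀ y ∈ List.range n,
    (algN (code e)).inf ((algN (code e)).imp x y) ((algN (code e)).imp y x) =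
      (algN (code e)).top ↔ x = y := by
  intro x hx y hy
  obtain ⟨v, hv⟩ := exists_val e (w := fun i => if i = 0 then x else y)
    (fun i => by split_ifs <;> assumption)
  have h0 : x = (e.symm (v 0)).val := congrFun hv 0
  have h1 : y = (e.symm (v 1)).val := congrFun hv 1
  have ht : (algN (code e)).top = (e.symm ⊤).val := rfl
  have := ev_code e v (bi (.var 0, .var 1))
  simp only [bi, Alg.ev, ← h0, ← h1] at this
  rw [this, ht, enc_inj, h0, h1, enc_inj]
  show (v 0 ⇨ v 1) ⊓ (v 1 ⇨ v 0) = ⊤ ↔ _
  rw [inf_eq_top_iff, himp_eq_top_iff, himp_eq_top_iff, le_antisymm_iff (a := v 0)]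

theorem prim_code : Primitive (QGen (heyt H)) ↔ CritL (List.range n) (algN (code e)) := by
  rw [critL_iff (cl_code e)]
  refine prim_core (cl_code e) (eqv_code e) fun G B => ?_
  simp only [QGen, satQ_code e]

theorem hsc_code : HSC (consA (heyt H)) ↔ CritL (List.range n) (algN (code e)) := by
  have : Finite H := Finite.of_equiv _ e
  rw [critL_iff (cl_code e), ← core (cl_code e), hsc_consA, val_code]

theorem scompl_code : HSC (SCompl (MPder (logic (heyt H)))) ↔
    CritL (TF (List.range n) (algN (code e)))
      (PA (algN (code e)) (allL (List.range n) (List.range n).length)) := by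
  have h : Val (TF (List.range n) (algN (code e)))
      (PA (algN (code e)) (allL (List.range n) (List.range n).length)) =
      Adm (MPder (logic (heyt H))) := by
    funext Γ φ
    rw [val_free (cl_code e), val_code]
    simp only [Adm, mp_thm]
    simp [logic, consA]
  rw [critL_iff (cl_TF (cl_code e)), ← core (cl_TF (cl_code e)), hsc_scompl, h]
  intro φ h σ v
  rw [ev_sb]
  exact h _

end transfer

theorem dec_of_pr {p : Code → Prop} (h : PrimrecPred p) :
    ∃ f : Code → Bool, Computable f ∧ ∀ c, f c = true ↔ p c := by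
  classical
  exact ⟨fun c => decide (p c), h.decide.to_comp, by simp⟩

end Pool.Agent.H62.Hsc
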