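import Mathlib

namespace Pool.Agent.H62.Hsc

/-- Formulas (terms) over countably many variables in the signature and, or, implies, 0, 1. -/
inductive Fm : Type
  | var : ℕ → Fm
  | bot : Fm
  | top : Fm
  | conj : Fm → Fm → Fm
  | disj : Fm → Fm → Fm
  | impl : Fm → Fm → Fm

/-- Substitution of formulas for variables. -/
def Fm.sb (σ : ℕ → Fm) : Fm → Fm
  | .var i => σ i
  | .bot => .bot
  | .top => .top
  | .conj a b => .conj (a.sb σ) (b.sb σ)
  | .disj a b => .disj (a.sb σ) (b.sb σ)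
  | .impl a b => .impl (a.sb σ) (b.sb σ)

/-- An algebra of the signature of Heyting algebras on the carrier `G`. -/
structure Alg (G : Type) where
  inf : G → G → G
  sup : G → G → G
  imp : G → G → G
  bot : G
  top : G

/-- Value of a formula under a valuation. -/
def Alg.ev {G : Type} (A : Alg G) (v : ℕ → G) : Fm → G
  | .var i => v i
  | .bot => A.bot
  | .top => A.top
  | .conj a b => A.inf (A.ev v a) (A.ev v b)
  | .disj a b => A.sup (A.ev v a) (A.ev v b)
  | .impl a b => A.imp (A.ev v a) (A.ev v b)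

/-- A Heyting algebra as an algebra of the signature. -/
def heyt (H : Type) [HeytingAlgebra H] : Alg H :=
  ⟨fun x y => x ⊓ y, fun x y => x ⊔ y, fun x y => x ⇨ y, ⊥, ⊤⟩

/-- The identity `e.1 = e.2` holds in `A`. -/
def Alg.SatId {G : Type} (A : Alg G) (e : Fm × Fm) : Prop := ∀ v, A.ev v e.1 = A.ev v e.2

/-- The quasi-identity with premises `q.1` and conclusion `q.2` holds in `A`. -/
def Alg.SatQ {G : Type} (A : Alg G) (q : List (Fm × Fm) × (Fm × Fm)) : Prop :=
  ∀ v, (∀ e ∈ q.1, A.ev v e.1 = A.ev v e.2) → A.ev v q.2.1 = A.ev v q.2.2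

/-- Classes of algebras of the signature. -/
abbrev Cls : Type 1 := ∀ G : Type, Alg G → Prop

/-- `K` is the class of models of a set of quasi-identities. -/
def IsQuasivar (K : Cls) : Prop :=
  ∃ S : Set (List (Fm × Fm) × (Fm × Fm)), ∀ G B, K G B ↔ ∀ q ∈ S, B.SatQ q

/-- `K` is the class of models of a set of identities. -/
def IsVariety (K : Cls) : Prop := ∃ E : Set (Fm × Fm), ∀ G B, K G B ↔ ∀ e ∈ E, B.SatId e

/-- The quasivariety generated by `A`. -/
def QGen {H : Type} (A : Alg H) : Cls := fun _ B => ∀ q, A.SatQ q → B.SatQ q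

/-- Every subquasivariety of `K` is the intersection of `K` with a variety. -/
def Primitive (K : Cls) : Prop :=
  ∀ K' : Cls, IsQuasivar K' → (∀ G B, K' G B → K G B) →
    ∃ V : Cls, IsVariety V ∧ ∀ G B, K' G B ↔ K G B ∧ V G B

/-- Relations between sets of formulas and formulas. -/
abbrev Cons : Type := Set Fm → Fm → Prop

/-- Deductive system: structural finitary consequence relation. -/
structure IsDed (D : Cons) : Prop where
  refl : ∀ Γ φ, φ ∈ Γ → D Γ φ
  mono : ∀ Γ Δ φ, Γ ⊆ Δ → D Γ φ → D Δ φ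
  cut : ∀ Γ Δ φ, (∀ ψ ∈ Δ, D Γ ψ) → D Δ φ → D Γ φ
  struct : ∀ Γ φ σ, D Γ φ → D (Fm.sb σ '' Γ) (φ.sb σ)
  fin : ∀ Γ φ, D Γ φ → ∃ Δ ⊆ Γ, Δ.Finite ∧ D Δ φ

/-- The rule with premises `Γ` and conclusion `φ` is admissible in `D`. -/
def Adm (D : Cons) (Γ : Set Fm) (φ : Fm) : Prop :=
  ∀ σ, (∀ γ ∈ Γ, D ∅ (γ.sb σ)) → D ∅ (φ.sb σ)

/-- Structural completeness: admissible rules are derivable. -/
def SC (D : Cons) : Prop := ∀ Γ φ, Γ.Finite → Adm D Γ φ → D Γ φ

/-- Hereditary structural completeness. -/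
def HSC (D : Cons) : Prop := ∀ D' : Cons, IsDed D' → (∀ Γ φ, D Γ φ → D' Γ φ) → SC D'

/-- The consequence relation of the matrix `(A, 1)`. -/
def consA {H : Type} (A : Alg H) : Cons :=
  fun Γ φ => ∀ v, (∀ γ ∈ Γ, A.ev v γ = A.top) → A.ev v φ = A.top

/-- The logic of `A`: formulas with value 1 under every valuation. -/
def logic {H : Type} (A : Alg H) : Set Fm := {φ | ∀ v, A.ev v φ = A.top}

/-- Derivability from `L` and `Γ` by modus ponens alone. -/
inductive MPder (L Γ : Set Fm) : Fm → Prop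
  | ax {φ} : φ ∈ L → MPder L Γ φ
  | hyp {φ} : φ ∈ Γ → MPder L Γ φ
  | mp {φ ψ} : MPder L Γ φ → MPder L Γ (φ.impl ψ) → MPder L Γ ψ

/-- Structural completion: the least deductive system that extends `D` and derives every rule
admissible in `D`. -/
def SCompl (D : Cons) : Cons := fun Γ φ =>
  ∀ D' : Cons, IsDed D' → (∀ Δ ψ, D Δ ψ → D' Δ ψ) →
    (∀ Δ ψ, Δ.Finite → Adm D Δ ψ → D' Δ ψ) → D' Γ φ

/-- Input format: size, tables of meet, join, implication, and the numbers of 0 and 1. -/
abbrev Code : Type := ℕ × List (List ℕ) × List (List ℕ) × List (List ℕ) × ℕ × ℕ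

/-- Table of a binary operation along an enumeration. -/
def table {H : Type} {n : ℕ} (e : Fin n ≃ H) (f : H → H → H) : List (List ℕ) :=
  List.ofFn fun i : Fin n => List.ofFn fun j : Fin n => (e.symm (f (e i) (e j))).val

/-- The operation tables of a finite Heyting algebra along an enumeration `e`. -/
def code {H : Type} [HeytingAlgebra H] {n : ℕ} (e : Fin n ≃ H) : Code :=
  (n, table e (fun x y => x ⊓ y), table e (fun x y => x ⊔ y), table e (fun x y => x ⇨ y),
    (e.symm ⊥).val, (e.symm ⊤).val)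

end Pool.Agent.H62.Hsc
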