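import Pool.Agent.H62.Ll1

/-!
Combinatorics of monochromatic pair sums along an idempotent ultrafilter.
-/

set_option autoImplicit false

namespace Pool.Agent.H62.Hts

open Filter

structure IU where
  U : Ultrafilter ℕ
  idem : ∀ p : ℕ → Prop, (∀ᶠ m in U, p m) → ∀ᶠ m in U, ∀ᶠ m' in U, p (m + m')
  big : ∀ k : ℕ, ∀ᶠ m : ℕ in U, k ≤ m
  even : ∀ᶠ m : ℕ in U, m % 2 = 0

theorem exists_IU : Nonempty IU := by
  obtain ⟨U, h1, h2⟩ := Hindman.exists_idempotent_ultrafilter_le_FS (Stream'.const 2)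
  have h3 : ∀ m ∈ Hindman.FS (Stream'.const 2), 0 < m ∧ m % 2 = 0 := by
    have : ∀ (a : Stream' ℕ) m, Hindman.FS a m → (∀ i, a.get i = 2) → 0 < m ∧ m % 2 = 0 := by
      intro a m h
      induction h with
      | head' a => intro h; rw [show a.head = 2 from h 0]; simp
      | tail' a m _ ih => exact fun h => ih fun i => h (i + 1)
      | cons' a m _ ih =>
        intro h
        have := ih fun i => h (i + 1)
        rw [show a.head = 2 from h 0]
        omega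
    exact fun m h => this _ m h fun _ => rfl
  have h4 : ∀ p : ℕ → Prop, (∀ᶠ m in U, p m) → ∀ᶠ m in U, ∀ᶠ m' in U, p (m + m') := fun p h => by
    rw [← h1] at h
    exact (Ultrafilter.eventually_add U U p).1 h
  refine ⟨⟨U, h4, fun k => ?_, h2.mono fun m h => (h3 m h).2⟩⟩
  rcases U.le_cofinite_or_eq_pure with h | ⟨a, rfl⟩
  · rw [Nat.cofinite_eq_atTop] at h
    exact h (eventually_ge_atTop k)
  · have a1 := h4 (· = a) (by simp)
    have a2 := (h3 a (by simpa using h2)).1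
    simp at a1
    omega

variable (e : IU)

open Classical in
noncomputable def lm (u : ℕ → Bool) : Bool := decide (∀ᶠ y in e.U, u y = true)

theorem lm_spec (u : ℕ → Bool) : ∀ᶠ y in e.U, u y = lm e u := by
  by_cases h : ∀ᶠ y in e.U, u y = true
  · simpa [lm, h] using h
  · have := Ultrafilter.eventually_not.2 h
    simp only [lm, h, decide_false]
    exact this.mono fun y hy => by simpa using hy

theorem lm_eq {u : ℕ → Bool} {i : Bool} (h : ∀ᶠ y in e.U, u y = i) : lm e u = i := by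
  obtain ⟨y, h1, h2⟩ := (h.and (lm_spec e u)).exists
  rw [← h2, h1]

noncomputable def sh (c : ℕ → Bool) (m : ℕ) : Bool := lm e fun y => c (m + y)

theorem lm_ev {u : ℕ → Bool} {i : Bool} (h : lm e u = i) : ∀ᶠ y in e.U, u y = i :=
  h ▸ lm_spec e u

theorem sh_ev {c : ℕ → Bool} {m : ℕ} {i : Bool} (h : sh e c m = i) :
    ∀ᶠ y in e.U, c (m + y) = i := lm_ev e h

def Hom (c : ℕ → Bool) (i : Bool) (H : Set ℕ) : Prop := ∀ x ∈ H, ∀ y ∈ H, x < y → c (x + y) = i

theorem ext {c : ℕ → Bool} {i : Bool} {F : Finset ℕ} (hF : Hom c i F) {n k : ℕ}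
    (hk : ∀ a ∈ F, a < k) (h1 : sh e c (2 * n) = i) (h2 : ∀ a ∈ F, sh e c (n + a) = i)
    {Y : ℕ → Prop} (hY : ∀ᶠ y in e.U, Y y) : ∃ H : Set ℕ, H.Infinite ∧ Hom c i H ∧
      (∀ a < k, a ∈ H ↔ a ∈ F) ∧ ∀ a ∈ H, a ∈ F ∨ ∃ y, Y y ∧ a = n + y := by
  have step : ∀ (G : {G : Finset ℕ // Hom c i G ∧ ∀ a ∈ G, sh e c (n + a) = i}) (m : ℕ),
      ∃ y, Y y ∧ m ≤ y ∧ (∀ a ∈ G.1, a < n + y) ∧ Hom c i (insert (n + y) G.1 : Finset ℕ) ∧
        ∀ a ∈ insert (n + y) G.1, sh e c (n + a) = i := fun G m => by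
    have a1 : ∀ᶠ y in e.U, ∀ a ∈ G.1, c (n + a + y) = i ∧ a + 1 ≤ y :=
      (eventually_all_finset _).2 fun a ha => (sh_ev e (G.2.2 a ha)).and (e.big _)
    have a2 := e.idem _ (sh_ev e h1)
    obtain ⟨y, ⟨b1, b2⟩, b3, b4⟩ := ((hY.and (e.big m)).and (a1.and a2)).exists
    refine ⟨y, b1, b2, fun a ha => by have := (b3 a ha).2; omega, fun x hx z hz l => ?_,
      fun a ha => ?_⟩
    · simp only [Finset.coe_insert, Set.mem_insert_iff, Finset.mem_coe] at hx hz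
      rcases hz with rfl | hz
      · rcases hx with rfl | hx
        · omega
        · rw [← (b3 x hx).1]; congr 1; omega
      · rcases hx with rfl | hx
        · have := (b3 z hz).2; omega
        · exact G.2.1 x hx z hz l
    · rcases Finset.mem_insert.1 ha with rfl | ha
      · exact lm_eq e (b4.mono fun z hz => by rw [← hz]; congr 1; omega)
      · exact G.2.2 a ha
  choose y y1 y2 y3 y4 using step
  let G : ℕ → {G : Finset ℕ // Hom c i G ∧ ∀ a ∈ G, sh e c (n + a) = i} := fun j =>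
    Nat.rec ⟨F, hF, h2⟩ (fun j G => ⟨_, y4 G (k + j)⟩) j
  have mono : Monotone fun j => (G j).1 :=
    monotone_nat_of_le_succ fun j => Finset.subset_insert _ _
  have mem : ∀ j, ∀ a ∈ (G j).1, a ∈ F ∨ ∃ y, (Y y ∧ a = n + y) ∧ k ≤ y := fun j => by
    induction j with
    | zero => exact fun a h => Or.inl h
    | succ j ih =>
      intro a ha
      rcases Finset.mem_insert.1 ha with rfl | ha
      · exact Or.inr ⟨_, ⟨y1 _ _, rfl⟩, le_of_add_le_left (y2 _ _)⟩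
      · exact ih a ha
  refine ⟨{a | ∃ j, a ∈ (G j).1}, Set.infinite_of_forall_exists_gt fun m =>
    ⟨_, ⟨m + 2, Finset.mem_insert_self _ _⟩, ?_⟩, fun x ⟨j, hx⟩ z ⟨l, hz⟩ =>
    (G (max j l)).2.1 x (mono (le_max_left _ _) hx) z (mono (le_max_right _ _) hz),
    fun a ha => ⟨fun ⟨j, h⟩ => (mem j a h).resolve_right fun ⟨y, h⟩ => by omega,
      fun h => ⟨0, h⟩⟩, fun a ⟨j, h⟩ => (mem j a h).imp_right fun ⟨y, h⟩ => ⟨y, h.1⟩⟩
  exact lt_of_lt_of_le (by omega) ((y2 (G (m + 1)) (k + (m + 1))).trans (Nat.le_add_left _ n))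

def Kill (x : ℕ → Bool) (F : Finset ℕ) (i : Bool) : Prop :=
  ∀ n, x (2 * n) = i → ∃ a ∈ F, x (n + a) ≠ i

def Av (c : ℕ → Bool) (X : ℕ → Set (ℕ → Bool)) : Prop := ∀ i H, H.Infinite → Hom c i H →
  ∃ F : Finset ℕ, ↑F ⊆ H ∧ ∃ T, ∀ t, T ≤ t → ∀ x ∈ X t, Kill x F i

theorem piece {c : ℕ → Bool} {X : ℕ → Set (ℕ → Bool)} (h : Av c X) (n : ℕ) {Y : ℕ → Prop}
    (hY : ∀ᶠ y in e.U, Y y) : ∃ F : Finset ℕ, (∀ a ∈ F, ∃ y, Y y ∧ a = n + y) ∧
      ∃ T, ∀ t, T ≤ t → ∀ x ∈ X t, Kill x F (sh e c (2 * n)) := by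
  obtain ⟨H, h1, h2, -, h3⟩ := ext e (c := c) (F := ∅) (k := 0) (fun _ h => by simp at h)
    (by simp) rfl (by simp) hY
  obtain ⟨F, h4, h5⟩ := h _ H h1 h2
  exact ⟨F, fun a ha => (h3 a (h4 ha)).resolve_left (by simp), h5⟩

theorem limK {c : ℕ → Bool} {X : ℕ → Set (ℕ → Bool)} (h : Av c X) {x : ℕ → ℕ → Bool}
    {τ n' : ℕ → ℕ} (hτ : ∀ j, j ≤ τ j) (hx : ∀ j, x j ∈ X (τ j)) (n : ℕ)
    (h1 : lm e (fun j => x j (2 * n' j)) = sh e c (2 * n)) :
    sh e (fun m => lm e fun j => x j (n' j + m)) n ≠ sh e c (2 * n) := fun h2 => by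
  obtain ⟨F, a1, T, a2⟩ := piece e h n (sh_ev e h2)
  have : ∀ᶠ j in e.U, ∀ a ∈ F, x j (n' j + a) = sh e c (2 * n) :=
    (eventually_all_finset _).2 fun a ha => by
      obtain ⟨y, b1, rfl⟩ := a1 a ha
      exact lm_ev e b1
  obtain ⟨j, ⟨b1, b2⟩, b3⟩ := ((this.and (e.big T)).and (lm_ev e h1)).exists
  obtain ⟨a, c1, c2⟩ := a2 _ (b2.trans (hτ j)) _ (hx j) _ b3
  exact c2 (b1 a c1)

theorem ev_const {c : ℕ → Bool} {X : ℕ → Set (ℕ → Bool)} (h : Av c X) (hX : ∀ t, (X t).Nonempty) :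
    ∃ N p, ∀ n, N ≤ n → sh e c (2 * n) = p := by
  choose x hx using hX
  let Z : ℕ → Bool := fun m => lm e fun j => x j m
  have K : ∀ n n', Z (2 * n') = sh e c (2 * n) → sh e Z (n + n') ≠ sh e c (2 * n) := fun n n' a => by
    have := limK e h (n' := fun _ => n') (fun j => le_refl j) hx n a
    rwa [show sh e (fun m => lm e fun j => x j (n' + m)) n = sh e Z (n + n') by
      simp only [sh, Z]; congr; funext y; congr; funext j; congr 1; omega] at this
  by_contra hn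
  push Not at hn
  have tr : ∀ p, ∃ n, sh e c (2 * n) = p ∧ sh e c (2 * (n + 1)) = !p := fun p => by
    obtain ⟨m, -, hm⟩ := hn 0 (!p)
    by_contra a
    push Not at a
    obtain ⟨l, h1, h2⟩ := hn m p
    refine h2 ?_
    clear h2
    induction l, h1 using Nat.le_induction with
    | base => simpa using hm
    | succ l _ ih => simpa using a l ih
  have cst : ∀ n, Z (2 * (n + 1)) = Z (2 * n) := fun n' => by
    by_contra a
    obtain ⟨n, b1, b2⟩ := tr (Z (2 * (n' + 1)))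
    have c1 := K n (n' + 1) b1.symm
    have c2 := K (n + 1) n' (by rw [b2]; exact Bool.eq_not_of_ne (Ne.symm a))
    rw [b1] at c1
    rw [b2, show n + 1 + n' = n + (n' + 1) by omega] at c2
    exact c2 (Bool.eq_not_of_ne c1)
  have cst' : ∀ n, Z (2 * n) = Z 0 := fun n => by
    induction n with
    | zero => rfl
    | succ n ih => rw [cst, ih]
  obtain ⟨n, b1, -⟩ := tr (Z 0)
  refine K n n (by rw [cst', b1]) ?_
  rw [b1]
  exact lm_eq e (e.even.mono fun y hy => by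
    rw [show n + n + y = 2 * (n + y / 2) by omega, cst'])

theorem par {c : ℕ → Bool} {X : ℕ → Set (ℕ → Bool)} (h : Av c X) {N : ℕ} {p : Bool}
    (hp : ∀ n, N ≤ n → sh e c (2 * n) = p) : ∃ D T, ∀ t, T ≤ t → ∀ x ∈ X t, ∀ n, x (2 * n) = p →
      ∃ a ≤ D, (n + a) % 2 = 0 ∧ x (n + a) ≠ p := by
  obtain ⟨F, a1, T, a2⟩ := piece e h (2 * N) e.even
  obtain ⟨F', b1, T', b2⟩ := piece e h (2 * N + 1) e.even
  rw [hp _ (by omega)] at a2 b2
  refine ⟨(F ∪ F').sup id, max T T', fun t ht x hx n hn => ?_⟩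
  by_cases l : n % 2 = 0
  · obtain ⟨a, c1, c2⟩ := a2 t (by omega) x hx n hn
    obtain ⟨y, c3, c4⟩ := a1 a c1
    exact ⟨a, Finset.le_sup (f := id) (Finset.mem_union_left _ c1), by omega, c2⟩
  · obtain ⟨a, c1, c2⟩ := b2 t (by omega) x hx n hn
    obtain ⟨y, c3, c4⟩ := b1 a c1
    exact ⟨a, Finset.le_sup (f := id) (Finset.mem_union_right _ c1), by omega, c2⟩

theorem synd {c : ℕ → Bool} {x : ℕ → ℕ → Bool} (h : Av c fun s => {x s}) {N : ℕ} {q : Bool}
    (hq : ∀ n, N ≤ n → sh e c (2 * n) = q) (K : ℕ) : ∃ S, ∀ s, S ≤ s → ∀ n, x s (2 * n) = q →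
      ∃ y ≤ S, ∀ k ≤ K, x s (n + y + k) ≠ q := by
  by_contra hn
  push Not at hn
  choose s s1 n s2 s3 using hn
  have K1 := fun m hm => limK e h (x := fun j => x (s j)) (n' := n) s1 (fun _ => rfl) m
    (by rw [hq m hm]; exact lm_eq e (Eventually.of_forall s2))
  have : ∀ᶠ y in e.U, ∀ k ∈ Finset.range (K + 1),
      (lm e fun j => x (s j) (n j + (N + k + y))) ≠ q := (eventually_all_finset _).2 fun k _ => by
    have := K1 (N + k) (by omega)
    rw [hq _ (by omega)] at this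
    exact (lm_spec e fun y => lm e fun j => x (s j) (n j + (N + k + y))).mono fun y hy => by
      rw [hy]; exact this
  obtain ⟨y, hy⟩ := this.exists
  have a : ∀ᶠ j in e.U, ∀ k ∈ Finset.range (K + 1), x (s j) (n j + (N + k + y)) ≠ q :=
    (eventually_all_finset _).2 fun k hk => (lm_spec e fun j =>
      x (s j) (n j + (N + k + y))).mono fun j hj => by rw [hj]; exact hy k hk
  obtain ⟨j, b1, b2⟩ := (a.and (e.big (N + y))).exists
  obtain ⟨k, c1, c2⟩ := s3 j _ b2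
  exact b1 k (by simp; omega) (by rw [← c2]; congr 1; omega)

theorem final {x : ℕ → Bool} {p : Bool} {D S : ℕ}
    (A : ∀ i n, x (2 * n) = i → ∃ a ≤ D, (n + a) % 2 = 0 ∧ x (n + a) ≠ i)
    (C : ∀ n, x (2 * n) = !p → ∃ y ≤ S, ∀ k ≤ 2 * D + 2, x (n + y + k) ≠ !p) : False := by
  let W : Bool → ℕ → ℕ → Prop := fun i r l => ∀ m, r ≤ m → m ≤ r + l → m % 2 = 0 → x m = i
  have st : ∀ i r l n, W i r l → r ≤ n → n + D ≤ r + l → x (2 * n) = !i := fun i r l n h a b => by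
    refine Bool.eq_not_of_ne fun c => ?_
    obtain ⟨a, c1, c2, c3⟩ := A i n c
    exact c3 (h _ (by omega) (by omega) c2)
  have st2 : ∀ i r l, W i r (2 * D + l) → W (!i) (2 * r) (2 * D + 2 * l) :=
    fun i r l h m a b c => by
      rw [show m = 2 * (m / 2) by omega]
      exact st i r _ _ h (by omega) (by omega)
  have C' : ∀ n, x (2 * n) = !p → ∃ y ≤ S, W p (n + y) (2 * D + 2) := fun n h => by
    obtain ⟨y, a, b⟩ := C n h
    refine ⟨y, a, fun m c d _ => ?_⟩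
    have := b (m - (n + y)) (by omega)
    rw [show n + y + (m - (n + y)) = m by omega] at this
    simpa using this
  obtain ⟨r, hr⟩ : ∃ r, W p r (2 * D + 2) := by
    by_contra hn
    have : ∀ n, x (2 * n) = p := fun n => by
      by_contra a
      obtain ⟨y, -, b⟩ := C' n (Bool.eq_not_of_ne a)
      exact hn ⟨_, b⟩
    obtain ⟨a, -, b, c⟩ := A p 0 (this 0)
    exact c (by rw [show 0 + a = 2 * (a / 2) by omega, this])
  have sy : ∀ m, r ≤ m → ∃ r', m ≤ r' ∧ r' ≤ m + S ∧ W p r' (2 * D + 2) := fun m hm => by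
    induction m, hm using Nat.le_induction with
    | base => exact ⟨r, le_rfl, by omega, hr⟩
    | succ m _ ih =>
      obtain ⟨r', a, b, c⟩ := ih
      by_cases l : m + 1 ≤ r'
      · exact ⟨r', l, by omega, c⟩
      · obtain ⟨y, d, f⟩ := C' (m + 1) (st p r' _ _ c (by omega) (by omega))
        exact ⟨_, by omega, by omega, f⟩
  have gr : ∀ j, ∃ r', r ≤ r' ∧ W p r' (2 * D + (j + 1)) := fun j => by
    induction j with
    | zero => exact ⟨r, le_rfl, fun m a b => hr m a (by omega)⟩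
    | succ j ih =>
      obtain ⟨r', a, b⟩ := ih
      have := st2 _ _ _ (st2 _ _ _ b)
      rw [Bool.not_not] at this
      exact ⟨2 * (2 * r'), by omega, fun m c d => this m c (by omega)⟩
  obtain ⟨r', a, b⟩ := gr S
  obtain ⟨r'', c, d, f⟩ := sy (2 * r') (by omega)
  have g1 := st2 _ _ _ b (r'' + r'' % 2) (by omega) (by omega) (by omega)
  rw [f _ (by omega) (by omega) (by omega)] at g1
  simp at g1

theorem core (c0 : ℕ → Bool) (c1 : ℕ → ℕ → Bool) (c2 : ℕ → ℕ → ℕ → Bool)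
    (h0 : Av c0 fun t => insert (sh e (c1 t)) (Set.range fun s => sh e (c2 t s)))
    (h1 : ∀ t, Av (c1 t) fun s => {sh e (c2 t s)}) : False := by
  obtain ⟨N, p, hp⟩ := ev_const e h0 fun t => ⟨_, Set.mem_insert _ _⟩
  obtain ⟨D, t, hD⟩ := par e h0 hp
  obtain ⟨N', q, hq⟩ := ev_const e (h1 t) fun s => ⟨_, rfl⟩
  obtain rfl : q = !p := Bool.eq_not_of_ne fun a => by
    obtain ⟨b, -, b1, b2⟩ := hD t le_rfl _ (Set.mem_insert _ _) (2 * N') (a ▸ hq _ (by omega))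
    exact b2 (by rw [show 2 * N' + b = 2 * (N' + b / 2) by omega, hq _ (by omega), a])
  obtain ⟨D', T, hD'⟩ := par e (h1 t) hq
  obtain ⟨S, hS⟩ := synd e (h1 t) hq (2 * max D D' + 2)
  refine final (x := sh e (c2 t (max S T))) (p := p) (D := max D D') (S := S) (fun i n h => ?_)
    (hS _ (le_max_left _ _))
  by_cases a : i = p
  · obtain ⟨b, b1, b2⟩ := hD t le_rfl _ (Set.mem_insert_of_mem _ ⟨_, rfl⟩) n (a ▸ h)
    exact ⟨b, by omega, a ▸ b2⟩
  · obtain rfl := Bool.eq_not_of_ne a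
    obtain ⟨b, b1, b2⟩ := hD' _ (le_max_right S T) _ rfl n h
    exact ⟨b, by omega, b2⟩

end Pool.Agent.H62.Hts
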