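import Pool.Agent.H62.PkDefs

/-!
Ramsey's theorem for pairs and Hindman's theorem for sums of exactly two elements as problems.
-/

set_option autoImplicit false

namespace Pool.Agent.H62.Pk

open Classical

/-- two-element subsets of the naturals, as increasing pairs -/
abbrev Pairs : Type := {q : ℕ × ℕ // q.1 < q.2}

/-- a 2-colouring of pairs is named by its values (0 off the increasing pairs) -/
def pairRep : Rep (Pairs → Bool) := fun p f =>
  ∀ x y, p (Nat.pair x y) = if h : x < y then (f ⟨(x, y), h⟩).toNat else 0

/-- a 2-colouring of the naturals is named by its values -/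
def colRep : Rep (ℕ → Bool) := fun p c => ∀ n, p n = (c n).toNat

/-- a set of naturals is named by its characteristic function -/
def setRep : Rep (Set ℕ) := fun u H => ∀ n, u n = if n ∈ H then 1 else 0

/-- Ramsey's theorem for pairs and two colours -/
def RT22 (f : Pairs → Bool) : Set (Set ℕ) :=
  {H | H.Infinite ∧ ∃ i, ∀ q : Pairs, q.1.1 ∈ H → q.1.2 ∈ H → f q = i}

/-- Hindman's theorem for sums of exactly two elements and two colours -/
def HT22 (c : ℕ → Bool) : Set (Set ℕ) :=
  {H | H.Infinite ∧ ∃ i, ∀ x ∈ H, ∀ y ∈ H, x < y → c (x + y) = i}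

end Pool.Agent.H62.Pk
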