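import Pool.Agent.H62.Hts1
import Pool.Agent.H62.HtsDefs

/-!
Ramsey's theorem for pairs does not reduce to Hindman's theorem for sums of two elements.
-/

set_option autoImplicit false

namespace Pool.Agent.H62.Pk

open Pool.Agent.H37 Pool.Agent.H62.Hts Filter

def fS (L : List ℕ) (q : Pairs) : Bool := decide (∀ t ∈ L, t ≤ q.1.1 ∨ q.1.2 < t)

def pS (L : List ℕ) : Baire := fun n =>
  if h : n.unpair.1 < n.unpair.2 then (fS L ⟨(n.unpair.1, n.unpair.2), h⟩).toNat else 0

theorem pS_rep (L : List ℕ) : pairRep (pS L) (fS L) := fun x y => by simp [pS]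

theorem fS_ne (L : List ℕ) : (RT22 (fS L)).Nonempty :=
  ⟨Set.Ici L.sum, Set.Ici_infinite _, true, fun q h _ => decide_eq_true fun t ht =>
    Or.inl ((List.single_le_sum (fun _ _ => Nat.zero_le _) t ht).trans h)⟩

theorem fS_sol {L : List ℕ} {H : Set ℕ} (h : H ∈ RT22 (fS L)) {a t : ℕ} (ha : a ∈ H)
    (ht : t ∈ L) : t ≤ a := by
  obtain ⟨h1, i, h2⟩ := h
  obtain ⟨y, y1, y2⟩ := h1.exists_gt (a + L.sum)
  obtain ⟨z, z1, z2⟩ := h1.exists_gt y
  have l : ∀ t ∈ L, t ≤ L.sum := List.single_le_sum fun _ _ => Nat.zero_le _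
  have e := h2 ⟨(y, z), z2⟩ y1 z1
  rw [show fS L ⟨(y, z), z2⟩ = true from decide_eq_true fun t ht =>
    Or.inl (by have := l t ht; simp only; omega)] at e
  have := of_decide_eq_true ((h2 ⟨(a, y), by simp only; omega⟩ ha y1).trans e.symm) t ht
  have := l t ht
  simp only at *
  omega

theorem pS_agree {L L' : List ℕ} {T : ℕ} (h1 : ∀ u ∈ L, u ∈ L') (h2 : ∀ u ∈ L', u ∈ L ∨ T ≤ u)
    {n : ℕ} (hn : n < T) : pS L' n = pS L n := by
  simp only [pS]
  split_ifs with h
  · congr 1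
    have := Nat.unpair_right_le n
    exact decide_eq_decide.2 ⟨fun a t ht => a t (h1 t ht), fun a t ht =>
      (h2 t ht).elim (a t) fun b => Or.inr (by simp only; omega)⟩
  · rfl

theorem not_RT : ¬ WLe pairRep setRep RT22 colRep setRep HT22 := by
  classical
  rintro ⟨Φ, Ψ, H⟩
  obtain ⟨e⟩ := exists_IU
  choose p' c h1 h2 h3 h4 using fun L => H _ _ (pS_rep L) (fS_ne L)
  have key : ∀ (L : List ℕ) (X : ℕ → Set (ℕ → Bool)), (∀ t, ∀ x ∈ X t, ∃ L', x = sh e (c L') ∧
      (∀ u ∈ L, u ∈ L') ∧ (∀ u ∈ L', u ∈ L ∨ t ≤ u) ∧ ∃ u ∈ L', t ≤ u) → Av (c L) X := by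
    intro L X hX i G g1 g2
    obtain ⟨r, v, a1, a2, a3⟩ := h4 L (fun n => if n ∈ G then 1 else 0) G (fun _ => rfl)
      ⟨g1, i, g2⟩
    obtain ⟨h, hh⟩ := a3.1.nonempty
    obtain ⟨k, hk⟩ := a1 h
    obtain ⟨K, hK⟩ := eventually_atTop.1 ((eventually_all_finite (Set.finite_Iio (2 * k))).2
      fun n _ => (h1 L).ev n)
    refine ⟨(Finset.range k).filter (· ∈ G), fun a ha => by simp at ha; exact ha.2,
      max (max k K) (h + 1), fun t ht x hx n hn => ?_⟩
    obtain ⟨L', rfl, b1, b2, u, b3, b4⟩ := hX t x hx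
    by_contra hc
    push Not at hc
    have ag : ∀ m < 2 * k, c L' m = c L m := fun m hm => by
      have := hK K le_rfl m hm
      rw [← pre_congr fun j hj => pS_agree b1 b2 (show j < t by omega)] at this
      have := (h1 L').sound this
      rw [h2, h2] at this
      revert this
      cases c L m <;> cases c L' m <;> simp
    obtain ⟨G', c1, c2, c3, -⟩ := ext e (c := c L') (i := i) (k := k)
      (F := (Finset.range k).filter (· ∈ G)) (fun a ha b hb l => by
        simp at ha hb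
        rw [ag _ (by omega), g2 a ha.2 b hb.2 l]) (fun a ha => by simp at ha; exact ha.1) hn hc
      (Y := fun _ => True) (by simp)
    obtain ⟨r', v', d1, d2, d3⟩ := h4 L' (fun n => if n ∈ G' then 1 else 0) G' (fun _ => rfl)
      ⟨c1, i, c2⟩
    rw [ini_eq, ← pre_congr (x := pr (pS L') fun n => if n ∈ G' then 1 else 0) fun j hj => by
      simp [pr, pS_agree b1 b2 (show j < t by omega), c3 j hj, hj]] at hk
    have := d1.sound hk
    rw [a2, d2, if_pos hh] at this
    have := fS_sol d3 (a := h) (by by_contra f; simp [f] at this) b3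
    omega
  refine core e (c []) (fun t => c [t]) (fun t s => c [t, t + s]) (key _ _ ?_) fun t => key _ _ ?_
  · rintro t _ (rfl | ⟨s, rfl⟩)
    · exact ⟨_, rfl, by simp, by simp, t, by simp, le_rfl⟩
    · exact ⟨_, rfl, by simp, by simp, t, by simp, le_rfl⟩
  · rintro s _ rfl
    exact ⟨_, rfl, by simp, by simp, t + s, by simp, by omega⟩

end Pool.Agent.H62.Pk
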