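import Pool.Agent.H62.HtsDefs

/-!
Ramsey's theorem for differences as a problem.
-/

set_option autoImplicit false

namespace Pool.Agent.H62.Pk

/-- Ramsey's theorem for differences and two colours -/
def RTsub (c : ℕ → Bool) : Set (Set ℕ) :=
  {H | H.Infinite ∧ ∃ i, ∀ x ∈ H, ∀ y ∈ H, x < y → c (y - x) = i}

end Pool.Agent.H62.Pk
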