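import Pool.Agent.H62.Hts2
import Pool.Agent.H62.HtsDefs2

/-!
Ramsey's theorem for differences does not reduce to Hindman's theorem for sums of two elements.
-/

set_option autoImplicit false

namespace Pool.Agent.H62.Pk

open Pool.Agent.H37 Pool.Agent.H62.Hts Filter

def gS (L : List ℕ) (n : ℕ) : Bool := decide (∀ t ∈ L, n ≤ t ∨ (t + 1) ∣ n)

theorem dvd_P {L : List ℕ} {t : ℕ} (h : t ∈ L) : t + 1 ∣ (L.map (· + 1)).prod :=
  List.dvd_prod (List.mem_map.2 ⟨t, h, rfl⟩)

theorem P_pos (L : List ℕ) : 0 < (L.map (· + 1)).prod :=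
  List.prod_pos fun a h => by obtain ⟨t, -, rfl⟩ := List.mem_map.1 h; omega

theorem gS_ne (L : List ℕ) : (RTsub (gS L)).Nonempty :=
  ⟨Set.range fun n => (L.map (· + 1)).prod * n, Set.infinite_range_of_injective
    (mul_right_injective₀ (P_pos L).ne'), true, by
      rintro _ ⟨a, rfl⟩ _ ⟨b, rfl⟩ -
      exact decide_eq_true fun t ht => Or.inr (Nat.dvd_sub ((dvd_P ht).mul_right _)
        ((dvd_P ht).mul_right _))⟩

theorem gS_sol {L : List ℕ} {H : Set ℕ} (h : H ∈ RTsub (gS L)) {a b t : ℕ} (ha : a ∈ H)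
    (hb : b ∈ H) (l : a < b) (ht : t ∈ L) : t < b := by
  obtain ⟨h1, i, h2⟩ := h
  obtain ⟨x, x1, y, y1, c, d⟩ := h1.exists_lt_map_eq_of_mapsTo
    (f := fun n => n % (L.map (· + 1)).prod) (t := Set.Iio (L.map (· + 1)).prod)
    (fun n _ => Nat.mod_lt _ (P_pos L)) (Set.finite_Iio _)
  have e := h2 x x1 y y1 c
  rw [show gS L (y - x) = true from decide_eq_true fun t ht =>
    Or.inr ((dvd_P ht).trans ((Nat.modEq_iff_dvd' c.le).1 d))] at e
  obtain ⟨z, z1, z2⟩ := h1.exists_gt (b + t)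
  have e1 := (of_decide_eq_true ((h2 a ha z z1 (by omega)).trans e.symm) t ht).resolve_left
    (by omega)
  have e2 := (of_decide_eq_true ((h2 b hb z z1 (by omega)).trans e.symm) t ht).resolve_left
    (by omega)
  have := Nat.le_of_dvd (by omega) (Nat.dvd_sub e1 e2)
  omega

theorem gS_agree {L L' : List ℕ} {T : ℕ} (h1 : ∀ u ∈ L, u ∈ L') (h2 : ∀ u ∈ L', u ∈ L ∨ T ≤ u)
    {n : ℕ} (hn : n < T) : gS L' n = gS L n :=
  decide_eq_decide.2 ⟨fun a t ht => a t (h1 t ht), fun a t ht =>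
    (h2 t ht).elim (a t) fun b => Or.inl (by omega)⟩

theorem not_RTsub : ¬ WLe colRep setRep RTsub colRep setRep HT22 := by
  classical
  rintro ⟨Φ, Ψ, H⟩
  obtain ⟨e⟩ := exists_IU
  choose p' c h1 h2 h3 h4 using fun L => H (fun n => (gS L n).toNat) _ (fun _ => rfl) (gS_ne L)
  have key : ∀ (L : List ℕ) (X : ℕ → Set (ℕ → Bool)), (∀ t, ∀ x ∈ X t, ∃ L', x = sh e (c L') ∧
      (∀ u ∈ L, u ∈ L') ∧ (∀ u ∈ L', u ∈ L ∨ t ≤ u) ∧ ∃ u ∈ L', t ≤ u) → Av (c L) X := by
    intro L X hX i G g1 g2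
    obtain ⟨r, v, a1, a2, a3⟩ := h4 L (fun n => if n ∈ G then 1 else 0) G (fun _ => rfl)
      ⟨g1, i, g2⟩
    obtain ⟨h0, hh0⟩ := a3.1.nonempty
    obtain ⟨h, hh, hl⟩ := a3.1.exists_gt h0
    obtain ⟨k, hk0, hk⟩ := ((a1.ev h0).and (a1.ev h)).exists
    obtain ⟨K, hK⟩ := eventually_atTop.1 ((eventually_all_finite (Set.finite_Iio (2 * k))).2
      fun n _ => (h1 L).ev n)
    refine ⟨(Finset.range k).filter (· ∈ G), fun a ha => by simp at ha; exact ha.2,
      max (max k K) (h + 1), fun t ht x hx n hn => ?_⟩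
    obtain ⟨L', rfl, b1, b2, u, b3, b4⟩ := hX t x hx
    by_contra hc
    push Not at hc
    have ag : ∀ m < 2 * k, c L' m = c L m := fun m hm => by
      have := hK K le_rfl m hm
      rw [← pre_congr (x := fun n => (gS L' n).toNat) fun j hj => by
        rw [gS_agree b1 b2 (show j < t by omega)]] at this
      have := (h1 L').sound this
      rw [h2, h2] at this
      revert this
      cases c L m <;> cases c L' m <;> simp
    obtain ⟨G', c1, c2, c3, -⟩ := ext e (c := c L') (i := i) (k := k)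
      (F := (Finset.range k).filter (· ∈ G)) (fun a ha b hb l => by
        simp at ha hb
        rw [ag _ (by omega), g2 a ha.2 b hb.2 l]) (fun a ha => by simp at ha; exact ha.1) hn hc
      (Y := fun _ => True) (by simp)
    obtain ⟨r', v', d1, d2, d3⟩ := h4 L' (fun n => if n ∈ G' then 1 else 0) G' (fun _ => rfl)
      ⟨c1, i, c2⟩
    rw [← pre_congr (x := pr (fun n => (gS L' n).toNat) fun n => if n ∈ G' then 1 else 0)
      fun j hj => by simp [pr, gS_agree b1 b2 (show j < t by omega), c3 j hj, hj]] at hk hk0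
    have f := d1.sound hk
    have f0 := d1.sound hk0
    rw [a2, d2, if_pos hh] at f
    rw [a2, d2, if_pos hh0] at f0
    have := gS_sol d3 (a := h0) (b := h) (by by_contra g; simp [g] at f0)
      (by by_contra g; simp [g] at f) hl b3
    omega
  refine core e (c []) (fun t => c [t]) (fun t s => c [t, t + s]) (key _ _ ?_) fun t => key _ _ ?_
  · rintro t _ (rfl | ⟨s, rfl⟩)
    · exact ⟨_, rfl, by simp, by simp, t, by simp, le_rfl⟩
    · exact ⟨_, rfl, by simp, by simp, t, by simp, le_rfl⟩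
  · rintro s _ rfl
    exact ⟨_, rfl, by simp, by simp, t + s, by simp, by omega⟩

end Pool.Agent.H62.Pk
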