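import Pool.Agent.H62.HtsDefs

/-!
The rainbow Ramsey theorem for pairs as a problem.
-/

set_option autoImplicit false

namespace Pool.Agent.H62.Pk

/-- a colouring of pairs by naturals is named by its values (0 off the increasing pairs) -/
def pairNRep : Rep (Pairs → ℕ) := fun p f =>
  ∀ x y, p (Nat.pair x y) = if h : x < y then f ⟨(x, y), h⟩ else 0

/-- each colour is assigned to at most two pairs -/
def TwoBdd (f : Pairs → ℕ) : Prop :=
  ∀ q r s, f q = f r → f r = f s → q = r ∨ q = s ∨ r = s

/-- the rainbow Ramsey theorem for pairs and 2-bounded colourings -/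
def RRT22 (f : Pairs → ℕ) : Set (Set ℕ) :=
  {H | TwoBdd f ∧ H.Infinite ∧ Set.InjOn f {q | q.1.1 ∈ H ∧ q.1.2 ∈ H}}

end Pool.Agent.H62.Pk
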