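import Pool.Agent.H62.Hts2
import Pool.Agent.H62.HtsDefs3

/-!
Hindman's theorem for sums of two elements does not reduce to the rainbow Ramsey theorem.
-/

set_option autoImplicit false

namespace Pool.Agent.H62.Pk

open Pool.Agent.H37 Pool.Agent.H62.Hts Filter

def Bd (g : ℕ → ℕ → ℕ) : Prop := ∀ a b a' b' a'' b'', a < b → a' < b' → a'' < b'' →
  g a b = g a' b' → g a' b' = g a'' b'' →
  (a = a' ∧ b = b') ∨ (a = a'' ∧ b = b'') ∨ (a' = a'' ∧ b' = b'')

variable (e : IU)

def MM (g : ℕ → ℕ → ℕ) (a b : ℕ) : Prop := ∀ᶠ x in e.U, g a x = g b x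

def GoodR (g : ℕ → ℕ → ℕ) (R : ℕ → ℕ → Prop) (G : Set ℕ) : Prop :=
  ∀ a ∈ G, ∀ b ∈ G, a < b → (¬ MM e g a b ∧ ¬ R a b) ∧
    ∀ a' ∈ G, ∀ b' ∈ G, a' < b' → g a b = g a' b' → a = a' ∧ b = b'

theorem rare {P : ℕ → Prop} (k : ℕ)
    (h : ∀ x y z, k < x → x < y → y < z → P x → P y → P z → False) : ∀ᶠ y in e.U, ¬ P y := by
  refine Ultrafilter.eventually_not.2 fun h' => ?_
  obtain ⟨x, a, b⟩ := (h'.and (e.big (k + 1))).exists
  obtain ⟨y, c, d⟩ := (h'.and (e.big (x + 1))).exists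
  obtain ⟨z, f, g⟩ := (h'.and (e.big (y + 1))).exists
  exact h x y z b d g a c f

theorem MM_two {g : ℕ → ℕ → ℕ} (hg : Bd g) {a x y : ℕ} (h1 : a < x) (h2 : x < y)
    (a1 : MM e g a x) (a2 : MM e g a y) : False := by
  obtain ⟨z, ⟨b1, b2⟩, b3⟩ := ((a1.and a2).and (e.big (y + 1))).exists
  have := hg x z a z y z (by omega) (by omega) (by omega) b1.symm b2
  omega

theorem extR {g : ℕ → ℕ → ℕ} (hg : Bd g) {R : ℕ → ℕ → Prop} (hR : ∀ a, ∀ᶠ y in e.U, ¬ R a y)
    {F : Finset ℕ} (hF : GoodR e g R F) {k : ℕ} (hk : ∀ a ∈ F, a < k) :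
    ∃ H : Set ℕ, H.Infinite ∧ GoodR e g R H ∧ ∀ a < k, a ∈ H ↔ a ∈ F := by
  have step : ∀ (G : {G : Finset ℕ // GoodR e g R G}) (m : ℕ),
      ∃ y, m ≤ y ∧ GoodR e g R (insert y G.1 : Finset ℕ) := fun G m => by
    have a1 : ∀ᶠ y in e.U, ∀ a ∈ G.1, (a + 1 ≤ y ∧ ¬ MM e g a y ∧ ¬ R a y) ∧ ∀ b ∈ G.1,
        (a < b → ¬ g a y = g b y) ∧ ∀ c ∈ G.1, ¬ g a y = g b c :=
      (eventually_all_finset _).2 fun a ha => ((e.big _).and ((rare e a
        fun x y _ h1 h2 _ b1 b2 _ => MM_two e hg h1 h2 b1 b2).and (hR a))).and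
        ((eventually_all_finset _).2 fun b hb => Eventually.and (by
          by_cases l : a < b
          · exact (Ultrafilter.eventually_not.2 (G.2 a ha b hb l).1.1).mono fun y h _ => h
          · simp [l])
          ((eventually_all_finset _).2 fun c _ => rare e a fun x y z h1 h2 h3 b1 b2 b3 => by
            have := hg a x a y a z h1 (by omega) (by omega) (b1.trans b2.symm) (b2.trans b3.symm)
            omega))
    obtain ⟨y, b1, b2⟩ := ((e.big m).and a1).exists
    refine ⟨y, b1, ?_⟩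
    simp only [GoodR, Finset.coe_insert, Set.mem_insert_iff, Finset.mem_coe]
    rintro a (rfl | ha) b (rfl | hb) l
    · omega
    · have := (b2 b hb).1.1; omega
    · refine ⟨(b2 a ha).1.2, ?_⟩
      rintro a' (rfl | ha') b' (rfl | hb') l' h
      · omega
      · have := (b2 b' hb').1.1; omega
      · rcases lt_trichotomy a a' with c | c | c
        · exact absurd h (((b2 a ha).2 a' ha').1 c)
        · exact ⟨c, rfl⟩
        · exact absurd h.symm (((b2 a' ha').2 a ha).1 c)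
      · exact absurd h (((b2 a ha).2 a' ha').2 b' hb')
    · refine ⟨(G.2 a ha b hb l).1, ?_⟩
      rintro a' (rfl | ha') b' (rfl | hb') l' h
      · omega
      · have := (b2 b' hb').1.1; omega
      · exact absurd h.symm (((b2 a' ha').2 a ha).2 b hb)
      · exact (G.2 a ha b hb l).2 a' ha' b' hb' l' h
  choose y y2 y4 using step
  let G : ℕ → {G : Finset ℕ // GoodR e g R G} := fun j =>
    Nat.rec ⟨F, hF⟩ (fun j G => ⟨_, y4 G (k + j)⟩) j
  have mono : Monotone fun j => (G j).1 :=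
    monotone_nat_of_le_succ fun j => Finset.subset_insert _ _
  have mem : ∀ j, ∀ a ∈ (G j).1, a ∈ F ∨ k ≤ a := fun j => by
    induction j with
    | zero => exact fun a h => Or.inl h
    | succ j ih =>
      intro a ha
      rcases Finset.mem_insert.1 ha with rfl | ha
      · exact Or.inr (le_of_add_le_left (y2 _ _))
      · exact ih a ha
  refine ⟨{a | ∃ j, a ∈ (G j).1}, Set.infinite_of_forall_exists_gt fun m =>
    ⟨_, ⟨m + 2, Finset.mem_insert_self _ _⟩,
      lt_of_lt_of_le (by omega) (y2 (G (m + 1)) (k + (m + 1)))⟩,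
    fun a ⟨j, ha⟩ b ⟨l, hb⟩ h => ⟨((G (max j l)).2 a (mono (le_max_left _ _) ha) b
      (mono (le_max_right _ _) hb) h).1, fun a' ⟨j', ha'⟩ b' ⟨l', hb'⟩ =>
      ((G (j + l + j' + l')).2 a (mono (by omega) ha) b (mono (by omega) hb) h).2 a'
        (mono (by omega) ha') b' (mono (by omega) hb')⟩,
    fun a ha => ⟨fun ⟨j, h⟩ => (mem j a h).resolve_right (by omega), fun h => ⟨0, h⟩⟩⟩

def cO (o : Option ℕ) (m : ℕ) : Bool := o.any fun n => decide (n ≤ m)

theorem cO_ne (o : Option ℕ) : (HT22 (cO o)).Nonempty := by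
  cases o with
  | none => exact ⟨Set.univ, Set.infinite_univ, false, fun _ _ _ _ _ => rfl⟩
  | some n => exact ⟨Set.Ici n, Set.Ici_infinite _, true, fun x hx y _ _ => by
      simp only [cO, Option.any_some, decide_eq_true_eq]; have : n ≤ x := hx; omega⟩

theorem not_HT : ¬ WLe colRep setRep HT22 pairNRep setRep RRT22 := by
  classical
  rintro ⟨Φ, Ψ, H⟩
  obtain ⟨e⟩ := exists_IU
  choose p f h1 h2 h3 h4 using fun o => H (fun n => (cO o n).toNat) _ (fun _ => rfl) (cO_ne o)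
  have e1 : ∀ o a b (h : a < b), p o (Nat.pair a b) = f o ⟨(a, b), h⟩ := fun o a b h => by
    rw [h2, dif_pos h]
  have bd : ∀ o, Bd fun a b => p o (Nat.pair a b) := fun o a b a' b' a'' b'' l l' l'' x y => by
    simp only [e1 o _ _ l, e1 o _ _ l', e1 o _ _ l''] at x y
    simpa [Subtype.ext_iff] using (h3 o).some_mem.1 _ _ _ x y
  have sol : ∀ o R G, G.Infinite → GoodR e (fun a b => p o (Nat.pair a b)) R G → G ∈ RRT22 (f o) :=
    fun o R G a b => ⟨(h3 o).some_mem.1, a, fun q hq r hr h => Subtype.ext (Prod.ext_iff.2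
      ((b _ hq.1 _ hq.2 q.2).2 _ hr.1 _ hr.2 r.2 (by
        simp only [e1 o _ _ q.2, e1 o _ _ r.2]; exact h)))⟩
  obtain ⟨G, g1, g2, -⟩ := extR e (bd none) (R := fun a b => ∀ᶠ n in e.U,
    MM e (fun a b => p (some n) (Nat.pair a b)) a b) (fun a => rare e a
      fun x y _ a1 a2 _ b1 b2 _ => by
        obtain ⟨n, c1, c2⟩ := (b1.and b2).exists
        exact MM_two e (bd _) a1 a2 c1 c2) (F := ∅) (fun _ h => by simp at h) (k := 0) (by simp)
  obtain ⟨r, v, a1, a2, a3⟩ := h4 none (fun n => if n ∈ G then 1 else 0) G (fun _ => rfl)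
    (sol _ _ _ g1 g2)
  obtain ⟨h0, hh0⟩ := a3.1.nonempty
  obtain ⟨h, hh, hl⟩ := a3.1.exists_gt h0
  obtain ⟨k, hk0, hk⟩ := ((a1.ev h0).and (a1.ev h)).exists
  obtain ⟨K, hK⟩ := eventually_atTop.1 ((eventually_all_finite (Set.finite_Iio (Nat.pair k k))).2
    fun n _ => (h1 none).ev n)
  have : ∀ᶠ n in e.U, ∀ a ∈ (Finset.range k).filter (· ∈ G), ∀ b ∈ (Finset.range k).filter (· ∈ G),
      a < b → ¬ MM e (fun a b => p (some n) (Nat.pair a b)) a b :=
    (eventually_all_finset _).2 fun a ha => (eventually_all_finset _).2 fun b hb => by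
      by_cases l : a < b
      · simp at ha hb
        exact (Ultrafilter.eventually_not.2 (g2 a ha.2 b hb.2 l).1.2).mono fun y h _ => h
      · simp [l]
  obtain ⟨n, b1, b2⟩ := (this.and (e.big (k + K + h0 + h + 1))).exists
  have ag0 : ∀ j < n, (cO (some n) j).toNat = (cO none j).toNat := fun j hj => by
    simp [cO, hj.not_ge]
  have ag : ∀ a < k, ∀ b < k, p (some n) (Nat.pair a b) = p none (Nat.pair a b) :=
    fun a ha b hb => by
      have := hK K le_rfl (Nat.pair a b)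
        ((Nat.pair_lt_pair_left b ha).trans (Nat.pair_lt_pair_right k hb))
      rw [← pre_congr (x := fun j => (cO (some n) j).toNat) fun j hj => ag0 j (by omega)] at this
      exact ((h1 _).sound this).symm
  obtain ⟨G', c1, c2, c3⟩ := extR e (bd (some n)) (R := fun _ _ => False) (by simp)
    (F := (Finset.range k).filter (· ∈ G)) (k := k) (fun a ha b hb l =>
      ⟨⟨b1 a ha b hb l, id⟩, fun a' ha' b' hb' l' h => by
        simp at ha hb ha' hb'
        simp only [ag a ha.1 b hb.1, ag a' ha'.1 b' hb'.1] at h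
        exact (g2 a ha.2 b hb.2 l).2 a' ha'.2 b' hb'.2 l' h⟩)
    (fun a ha => by simp at ha; exact ha.1)
  obtain ⟨r', v', d1, d2, d3, i, d4⟩ := h4 _ (fun n => if n ∈ G' then 1 else 0) G' (fun _ => rfl)
    (sol _ _ _ c1 c2)
  rw [← pre_congr (x := pr (fun j => (cO (some n) j).toNat) fun n => if n ∈ G' then 1 else 0)
    fun j hj => by simp [pr, ag0 j (by omega), c3 j hj, hj]] at hk hk0
  have f1 := d1.sound hk
  have f0 := d1.sound hk0
  rw [a2, d2, if_pos hh] at f1
  rw [a2, d2, if_pos hh0] at f0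
  have m0 : h0 ∈ v' := by by_contra g; simp [g] at f0
  obtain ⟨z, z1, z2⟩ := d3.exists_gt n
  have := (d4 h0 m0 h (by by_contra g; simp [g] at f1) hl).trans (d4 h0 m0 z z1 (by omega)).symm
  simp [cO] at this
  omega

end Pool.Agent.H62.Pk
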