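import Mathlib

/-!
Primitive recursive trees, index sets for cardinalities of bounded effectively closed classes,
the arithmetical hierarchy and the difference hierarchy over Σ2.
-/

set_option autoImplicit false

namespace Pool.Agent.H62.Ic

open Nat.Partrec

/-- codes without unbounded search: the codes of the primitive recursive functions -/
def prf : Code → Bool
  | .zero => true
  | .succ => true
  | .left => true
  | .right => true
  | .pair a b => prf a && prf b
  | .comp a b => prf a && prf b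
  | .prec a b => prf a && prf b
  | .rfind' _ => false

/-- `piE e τ` says π_e(τ) = 1: e codes a primitive recursive function with value 1 at τ
(π_e(τ) = 0 otherwise) -/
def piE (e : ℕ) (τ : List ℕ) : Prop :=
  prf (Denumerable.ofNat Code e) = true ∧ 1 ∈ (Denumerable.ofNat Code e).eval (Encodable.encode τ)

/-- the tree U_e -/
def tree (e : ℕ) : Set (List ℕ) := {σ | ∀ τ, τ <+: σ → piE e τ}

/-- P_e ∩ 2^ω -/
def Q (e : ℕ) : Set (ℕ → Bool) := {x | ∀ n, ((List.range n).map fun i => (x i).toNat) ∈ tree e}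

/-- the index set I_C -/
def I (C : Set ℕ) : Set ℕ := {e | (Q e).Finite ∧ (Q e).ncard ∈ C}

/-- Σ^0_n sets (Σ^0_0 read as computable): projections of complements of Σ^0_(n-1) sets -/
def Sig : ℕ → Set ℕ → Prop
  | 0, X => ComputablePred (· ∈ X)
  | n + 1, X => ∃ Y, Sig n Y ∧ ∀ e, e ∈ X ↔ ∃ m, Nat.pair e m ∉ Y

/-- level k of the difference hierarchy over Σ^0_2: A_1 \ (A_2 \ (... \ A_k)) -/
def Diff : ℕ → Set ℕ → Prop
  | 0, X => X = ∅
  | k + 1, X => ∃ A B, Sig 2 A ∧ Diff k B ∧ X = A \ B

/-- many-one completeness -/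
def Complete (Γ : Set ℕ → Prop) (X : Set ℕ) : Prop :=
  Γ X ∧ ∀ Y, Γ Y → ManyOneReducible (· ∈ Y) (· ∈ X)

/-- the e-th section of V -/
def sec (V : Set ℕ) (e : ℕ) : Set ℕ := {k | Nat.pair e k ∈ V}

/-- the class Γ_C: sets {e : V_e is finite with size in C} for a Σ2 set V whose set of empty
sections is Σ1 -/
def Gam (C X : Set ℕ) : Prop :=
  ∃ V, Sig 2 V ∧ Sig 1 {e | sec V e = ∅} ∧ X = {e | (sec V e).Finite ∧ (sec V e).ncard ∈ C}

/-- C contains the infinite range of a function limitwise monotonic in 0' (n ↦ size of the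
finite section V_n of a Σ2 set V) -/
def LM (C : Set ℕ) : Prop :=
  ∃ V, Sig 2 V ∧ (∀ n, (sec V n).Finite ∧ (sec V n).ncard ∈ C) ∧
    (Set.range fun n => (sec V n).ncard).Infinite

/-- number of alternations of membership in C along 1, 2, 3, ... -/
noncomputable def alt (C : Set ℕ) : ℕ := {n | 1 ≤ n ∧ ¬ (n ∈ C ↔ n + 1 ∈ C)}.ncard

end Pool.Agent.H62.Ic
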