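import Pool.Agent.H37.NF
import Pool.Agent.H62.IcDefs

/-!
Predicates c.e. in the halting problem, Post's theorem for Σ2, and Σ3 predicates.
-/

set_option autoImplicit false

namespace Pool.Agent.H62.Ic

open Pool.Agent.H37 Encodable Nat.Partrec Filter

variable {α β : Type} [Primcodable α] [Primcodable β]

abbrev KO : Set (ℕ →. ℕ) := orc Kf

def RK (p : α → Prop) : Prop :=
  ∃ D : α → ℕ → Bool, CI KO (fun q : α × ℕ => D q.1 q.2) ∧ ∀ a, p a ↔ ∃ s, D a s = true

theorem RK.of_eq {p q : α → Prop} (h : RK p) (H : ∀ a, p a ↔ q a) : RK q :=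
  (funext fun a => propext (H a) : p = q) ▸ h

theorem rk_of {p : α → Prop} (D : α → β → Bool) (hD : CI KO fun q : α × β => D q.1 q.2)
    (h : ∀ a, p a ↔ ∃ b, D a b = true) : RK p := by
  refine ⟨fun a n => (decode (α := β) n).elim false (D a), ?_, fun a => ?_⟩
  · refine CI.elim (by fun_prop) (by fun_prop) ?_
    exact hD.comp (g := fun q : (α × ℕ) × β => (q.1.1, q.2)) (by fun_prop)
  · rw [h]
    constructor
    · rintro ⟨b, hb⟩; exact ⟨encode b, by simpa using hb⟩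
    · rintro ⟨n, hn⟩
      cases e : decode (α := β) n with
      | none => simp [e] at hn
      | some b => exact ⟨b, by simpa [e] using hn⟩

theorem rk_bool {p : α → Prop} (f : α → Bool) (hf : CI KO f) (h : ∀ a, p a ↔ f a = true) :
    RK p := ⟨fun a _ => f a, by fun_prop, fun a => by simp [h]⟩

theorem RK.comp {p : β → Prop} (h : RK p) {g : α → β} (hg : CI KO g) : RK fun a => p (g a) := by
  obtain ⟨D, hD, H⟩ := h
  exact ⟨fun a => D (g a), hD.comp (g := fun q : α × ℕ => (g q.1, q.2)) (by fun_prop),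
    fun a => H _⟩

theorem RK.stage {p : α → Prop} (h : RK p) :
    ∃ D : α → ℕ → Bool, CI KO (fun q : α × ℕ => D q.1 q.2) ∧
      (∀ a s t, s ≤ t → D a s = true → D a t = true) ∧ ∀ a, p a ↔ ∃ s, D a s = true := by
  obtain ⟨D, hD, H⟩ := h
  refine ⟨fun a s => (List.range (s + 1)).any (D a), CI.any (by fun_prop)
    (hD.comp (g := fun q : (α × ℕ) × ℕ => (q.1.1, q.2)) (by fun_prop)), ?_, fun a => ?_⟩
  · intro a s t hst
    simp only [List.any_eq_true, List.mem_range]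
    rintro ⟨x, h1, h2⟩; exact ⟨x, by omega, h2⟩
  · simp only [H, List.any_eq_true, List.mem_range]
    exact ⟨fun ⟨s, hs⟩ => ⟨s, s, by omega, hs⟩, fun ⟨_, s, _, hs⟩ => ⟨s, hs⟩⟩

theorem RK.and {p q : α → Prop} (hp : RK p) (hq : RK q) : RK fun a => p a ∧ q a := by
  obtain ⟨D, hD, h⟩ := hp
  obtain ⟨E, hE, h'⟩ := hq
  refine rk_of (fun a (s : ℕ × ℕ) => D a s.1 && E a s.2) (CI.and
    (hD.comp (g := fun q : α × ℕ × ℕ => (q.1, q.2.1)) (by fun_prop))
    (hE.comp (g := fun q : α × ℕ × ℕ => (q.1, q.2.2)) (by fun_prop))) fun a => ?_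
  simp [h, h']

theorem RK.or {p q : α → Prop} (hp : RK p) (hq : RK q) : RK fun a => p a ∨ q a := by
  obtain ⟨D, hD, h⟩ := hp
  obtain ⟨E, hE, h'⟩ := hq
  refine ⟨fun a s => D a s || E a s, CI.or hD hE, fun a => ?_⟩
  simp [h, h', exists_or]

theorem RK.ex {p : α → β → Prop} (hp : RK fun q : α × β => p q.1 q.2) :
    RK fun a => ∃ b, p a b := by
  obtain ⟨D, hD, h⟩ := hp
  refine rk_of (fun a (b : β × ℕ) => D (a, b.1) b.2)
    (hD.comp (g := fun q : α × β × ℕ => ((q.1, q.2.1), q.2.2)) (by fun_prop)) fun a => ?_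
  constructor
  · rintro ⟨b, hb⟩
    obtain ⟨s, hs⟩ := (h (a, b)).1 hb
    exact ⟨(b, s), hs⟩
  · rintro ⟨⟨b, s⟩, hs⟩
    exact ⟨b, (h (a, b)).2 ⟨s, hs⟩⟩

theorem RK.all_lt {p : α → ℕ → Prop} (hp : RK fun q : α × ℕ => p q.1 q.2)
    {l : α → ℕ} (hl : CI KO l) : RK fun a => ∀ b < l a, p a b := by
  obtain ⟨D, hD, hm, h⟩ := hp.stage
  refine ⟨fun a s => (List.range (l a)).all fun b => D (a, b) s, CI.all (by fun_prop)
    (hD.comp (g := fun q : (α × ℕ) × ℕ => ((q.1.1, q.2), q.1.2)) (by fun_prop)), fun a => ?_⟩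
  constructor
  · intro H
    obtain ⟨s, hs⟩ := exists_stage_all (List.range (l a)) (fun b s => D (a, b) s)
      (fun b => hm (a, b)) fun b hb => (h (a, b)).1 (H b (List.mem_range.1 hb))
    exact ⟨s, by simpa using hs s le_rfl⟩
  · rintro ⟨s, hs⟩ b hb
    exact (h (a, b)).2 ⟨s, by simpa using List.all_eq_true.1 hs b (List.mem_range.2 hb)⟩

theorem rk_dec {p : α → Prop} [DecidablePred p] (h : CI KO fun a => decide (p a)) : RK p :=
  rk_bool _ h fun a => by simp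

theorem rk_re {p : α → Prop} (h : REPred p) : RK p := by
  obtain ⟨b, hb, H⟩ := ci_K h
  exact rk_bool b hb H

theorem rk_core {p : α → Prop} (h : REPred p) : RK fun a => ¬ p a := by
  obtain ⟨b, hb, H⟩ := ci_K h
  exact rk_bool (fun a => !b a) hb.not fun a => by simp [H]

theorem RK.choice {p : α → β → Prop} (hp : RK fun q : α × β => p q.1 q.2)
    (h : ∀ a, ∃ b, p a b) : ∃ f : α → β, CI KO f ∧ ∀ a, p a (f a) := by
  obtain ⟨D, hD, hh⟩ := hp
  obtain ⟨f, hf, H⟩ := CI.exists_choice (O := KO) (p := fun a (b : β × ℕ) => D (a, b.1) b.2)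
    (hD.comp (g := fun q : α × β × ℕ => ((q.1, q.2.1), q.2.2)) (by fun_prop)) fun a => by
      obtain ⟨b, hb⟩ := h a
      obtain ⟨s, hs⟩ := (hh (a, b)).1 hb
      exact ⟨(b, s), hs⟩
  exact ⟨fun a => (f a).1, by fun_prop, fun a => (hh (a, (f a).1)).2 ⟨_, H a⟩⟩

theorem Kf_eq (i : ℕ) : ∀ᶠ t in atTop, (Kst i t).toNat = Kf i := by
  unfold Kf
  split_ifs with h
  · obtain ⟨s, hs⟩ := ev_iff.1 (Part.get_mem h)
    refine eventually_atTop.2 ⟨s, fun t ht => ?_⟩
    simp [Kst, ev_mono ht hs]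
  · refine Eventually.of_forall fun t => ?_
    cases e : ev i i t with
    | none => simp [Kst, e]
    | some v => exact absurd (Part.dom_iff_mem.2 ⟨v, ev_iff.2 ⟨t, e⟩⟩) h

/-- Post's theorem -/
theorem RK.normal {p : α → Prop} (h : RK p) : ∃ R : α → ℕ → ℕ → Bool,
    CI ∅ (fun q : α × ℕ × ℕ => R q.1 q.2.1 q.2.2) ∧ ∀ a, p a ↔ ∃ n, ∀ m, R a n m = true := by
  obtain ⟨D, hD, H⟩ := h
  have hg : CI KO fun m : ℕ => (decode (α := α × ℕ) m).elim 0 fun q => (D q.1 q.2).toNat :=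
    CI.elim (by fun_prop) (by fun_prop)
      (CI.toNat (hD.comp (g := fun q : ℕ × α × ℕ => q.2) (by fun_prop)))
  obtain ⟨e, he⟩ := exists_app_tot hg
  have key : ∀ a s, D a s = true ↔ ∃ k, U e (pre Kf k) (encode (a, s)) = some 1 := by
    intro a s
    have := he (encode (a, s))
    simp only [encodek, Option.elim] at this
    rw [← mem_app]
    constructor
    · intro h; rwa [h] at this
    · intro h
      have := Part.mem_unique h this
      cases e : D a s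
      · simp [e] at this
      · rfl
  refine ⟨fun a n m => U e (pre (fun i => (Kst i n.unpair.2.unpair.2).toNat) n.unpair.2.unpair.1)
      (encode (a, n.unpair.1)) == some 1 && (List.range n.unpair.2.unpair.1).all fun i =>
      Kst i (n.unpair.2.unpair.2 + m) == Kst i n.unpair.2.unpair.2, by fun_prop, fun a => ?_⟩
  simp only [H, key, Bool.and_eq_true, beq_iff_eq, List.all_eq_true, List.mem_range]
  constructor
  · rintro ⟨s, k, hk⟩
    obtain ⟨t, ht⟩ := eventually_atTop.1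
      ((eventually_all_finite (Set.finite_lt_nat k)).2 fun i _ => Kf_eq i)
    refine ⟨Nat.pair s (Nat.pair k t), fun m => ?_⟩
    simp only [Nat.unpair_pair]
    refine ⟨by rw [pre_congr (y := Kf) fun i hi => ht t le_rfl i hi]; exact hk, fun i hi => ?_⟩
    have h1 := ht t le_rfl i hi
    have h2 := ht (t + m) (by omega) i hi
    revert h1 h2
    cases Kst i t <;> cases Kst i (t + m) <;> simp <;> omega
  · rintro ⟨n, hn⟩
    refine ⟨n.unpair.1, n.unpair.2.unpair.1, ?_⟩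
    rw [← (hn 0).1]
    congr 1
    refine pre_congr fun i hi => ?_
    obtain ⟨t, h1, h2⟩ := ((Kf_eq i).and (eventually_ge_atTop n.unpair.2.unpair.2)).exists
    obtain ⟨m, rfl⟩ := Nat.exists_eq_add_of_le h2
    rw [← h1, (hn m).2 i hi]

theorem sig0_iff {X : Set ℕ} : Sig 0 X ↔ ∃ f : ℕ → Bool, CI ∅ f ∧ ∀ a, a ∈ X ↔ f a = true :=
  computablePred_iff

theorem sig1_iff {X : Set ℕ} : Sig 1 X ↔ REPred (· ∈ X) := by
  constructor
  · rintro ⟨Y, hY, h⟩
    obtain ⟨f, hf, H⟩ := sig0_iff.1 hY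
    exact re_of_nat (fun a m => !f (Nat.pair a m)) (by fun_prop) fun a => by simp [h, H]
  · intro h
    obtain ⟨D, hD, -, H⟩ := re_stage h
    refine ⟨{n | D n.unpair.1 n.unpair.2 = false}, sig0_iff.2 ⟨fun n => !D n.unpair.1 n.unpair.2,
      CI.not (hD.comp (g := fun n : ℕ => n.unpair) (by fun_prop)), by simp⟩, fun e => ?_⟩
    simp [H e]

theorem sig2_iff {X : Set ℕ} : Sig 2 X ↔ RK (· ∈ X) := by
  constructor
  · rintro ⟨Y, hY, h⟩
    have := (rk_core (sig1_iff.1 hY)).comp (g := fun q : ℕ × ℕ => Nat.pair q.1 q.2) (by fun_prop)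
    exact (RK.ex (p := fun a m => Nat.pair a m ∉ Y) this).of_eq fun a => (h a).symm
  · intro h
    obtain ⟨R, hR, H⟩ := h.normal
    refine ⟨{n | ∃ m, R n.unpair.1 n.unpair.2 m = false}, sig1_iff.2 (re_of_nat
      (fun n m => !R n.unpair.1 n.unpair.2 m) (CI.not (hR.comp
        (g := fun q : ℕ × ℕ => (q.1.unpair.1, q.1.unpair.2, q.2)) (by fun_prop))) (by simp)),
      fun e => ?_⟩
    simp [H e]

theorem sig2_rel {V : ℕ → ℕ → Prop} (h : RK fun q : ℕ × ℕ => V q.1 q.2) :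
    ∃ W, Sig 2 W ∧ ∀ e, sec W e = {k | V e k} :=
  ⟨{n | V n.unpair.1 n.unpair.2}, sig2_iff.2 (h.comp (g := fun n : ℕ => n.unpair) (by fun_prop)),
    fun e => by simp [sec]⟩

theorem sig2_sec {W : Set ℕ} (h : Sig 2 W) : RK fun q : ℕ × ℕ => q.2 ∈ sec W q.1 :=
  (sig2_iff.1 h).comp (g := fun q : ℕ × ℕ => Nat.pair q.1 q.2) (by fun_prop)

def S3 (p : α → Prop) : Prop :=
  ∃ q : α → ℕ → Prop, RK (fun x : α × ℕ => q x.1 x.2) ∧ ∀ a, p a ↔ ∃ n, ¬ q a n

theorem sig3_iff {X : Set ℕ} : Sig 3 X ↔ S3 (· ∈ X) := by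
  constructor
  · rintro ⟨Y, hY, h⟩
    exact ⟨fun a m => Nat.pair a m ∈ Y, sig2_sec hY, h⟩
  · rintro ⟨q, hq, h⟩
    obtain ⟨W, hW, H⟩ := sig2_rel hq
    refine ⟨W, hW, fun e => (h e).trans (exists_congr fun m => not_congr ?_)⟩
    exact (Set.ext_iff.1 (H e) m).symm

theorem S3.of_eq {p q : α → Prop} (h : S3 p) (H : ∀ a, p a ↔ q a) : S3 q :=
  (funext fun a => propext (H a) : p = q) ▸ h

theorem s3_of {p : α → Prop} (q : α → β → Prop) (hq : RK fun x : α × β => q x.1 x.2)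
    (h : ∀ a, p a ↔ ∃ b, ¬ q a b) : S3 p := by
  rcases isEmpty_or_nonempty β with hβ | ⟨⟨d⟩⟩
  · exact ⟨fun _ _ => True, rk_bool (fun _ => true) (by fun_prop) (by simp), by simp [h]⟩
  refine ⟨fun a n => q a ((decode (α := β) n).getD d),
    hq.comp (g := fun x : α × ℕ => (x.1, (decode (α := β) x.2).getD d)) (by fun_prop), fun a => ?_⟩
  rw [h]
  exact ⟨fun ⟨b, hb⟩ => ⟨encode b, by simpa using hb⟩, fun ⟨n, hn⟩ => ⟨_, hn⟩⟩

theorem RK.s3 {p : α → Prop} (h : RK p) : S3 p := by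
  obtain ⟨D, hD, H⟩ := h
  exact ⟨fun a s => D a s = false, rk_bool _ hD.not (by simp), by simpa using H⟩

theorem RK.s3_not {p : α → Prop} (h : RK p) : S3 fun a => ¬ p a :=
  ⟨fun a _ => p a, h.comp (g := fun x : α × ℕ => x.1) (by fun_prop), by simp⟩

theorem S3.comp {p : β → Prop} (h : S3 p) {g : α → β} (hg : CI KO g) : S3 fun a => p (g a) := by
  obtain ⟨q, hq, H⟩ := h
  exact ⟨fun a => q (g a), hq.comp (g := fun x : α × ℕ => (g x.1, x.2)) (by fun_prop),
    fun a => H _⟩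

theorem S3.and {p q : α → Prop} (hp : S3 p) (hq : S3 q) : S3 fun a => p a ∧ q a := by
  obtain ⟨D, hD, h⟩ := hp
  obtain ⟨E, hE, h'⟩ := hq
  refine s3_of (fun a (s : ℕ × ℕ) => D a s.1 ∨ E a s.2) (RK.or
    (hD.comp (g := fun q : α × ℕ × ℕ => (q.1, q.2.1)) (by fun_prop))
    (hE.comp (g := fun q : α × ℕ × ℕ => (q.1, q.2.2)) (by fun_prop))) fun a => ?_
  simp [h, h']

theorem S3.or {p q : α → Prop} (hp : S3 p) (hq : S3 q) : S3 fun a => p a ∨ q a := by
  obtain ⟨D, hD, h⟩ := hp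
  obtain ⟨E, hE, h'⟩ := hq
  refine ⟨fun a s => D a s ∧ E a s, hD.and hE, fun a => ?_⟩
  simp only [h, h', not_and_or, exists_or]

theorem S3.ex {p : α → β → Prop} (hp : S3 fun q : α × β => p q.1 q.2) :
    S3 fun a => ∃ b, p a b := by
  obtain ⟨D, hD, h⟩ := hp
  refine s3_of (fun a (b : β × ℕ) => D (a, b.1) b.2)
    (hD.comp (g := fun q : α × β × ℕ => ((q.1, q.2.1), q.2.2)) (by fun_prop)) fun a => ?_
  constructor
  · rintro ⟨b, hb⟩
    obtain ⟨s, hs⟩ := (h (a, b)).1 hb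
    exact ⟨(b, s), hs⟩
  · rintro ⟨⟨b, s⟩, hs⟩
    exact ⟨b, (h (a, b)).2 ⟨s, hs⟩⟩

theorem S3.all_lt {p : α → ℕ → Prop} (hp : S3 fun q : α × ℕ => p q.1 q.2)
    {l : α → ℕ} (hl : CI KO l) : S3 fun a => ∀ b < l a, p a b := by
  obtain ⟨D, hD, h⟩ := hp
  refine s3_of (fun a (L : List ℕ) => ∃ b, b < l a ∧ D (a, b) (L.getD b 0))
    (RK.ex (p := fun (x : α × List ℕ) b => b < l x.1 ∧ D (x.1, b) (x.2.getD b 0))
      (RK.and (rk_dec (by fun_prop)) (hD.comp
        (g := fun q : (α × List ℕ) × ℕ => ((q.1.1, q.2), q.1.2.getD q.2 0)) (by fun_prop))))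
    fun a => ?_
  simp only [not_exists, not_and]
  constructor
  · intro H
    choose! n hn using fun b hb => (h (a, b)).1 (H b hb)
    exact ⟨pre n (l a), fun b hb => by rw [getD_pre _ hb]; exact hn b hb⟩
  · rintro ⟨L, hL⟩ b hb
    exact (h (a, b)).2 ⟨_, hL b hb⟩

/-- lower bounds on the size of a set -/
theorem le_encard_iff {γ : Type} [Nonempty γ] {S : Set γ} {c : ℕ} : (c : ℕ∞) ≤ S.encard ↔
    ∃ x : ℕ → γ, ∀ i < c, x i ∈ S ∧ ∀ j < i, x i ≠ x j := by
  classical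
  constructor
  · induction c with
    | zero => exact fun _ => ⟨fun _ => Classical.arbitrary γ, by simp⟩
    | succ c ih =>
      intro h
      obtain ⟨x, hx⟩ := ih (le_trans (by exact_mod_cast Nat.le_succ c) h)
      obtain ⟨y, h1, h2⟩ : ∃ y ∈ S, y ∉ (Finset.range c).image x := by
        by_contra hn
        push Not at hn
        have := Set.encard_le_encard (show S ⊆ ((Finset.range c).image x : Finset γ) from hn)
        rw [Set.encard_coe_eq_coe_finsetCard] at this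
        have h3 := h.trans this
        have h4 := Finset.card_image_le (s := Finset.range c) (f := x)
        rw [Finset.card_range] at h4
        have : c + 1 ≤ ((Finset.range c).image x).card := by exact_mod_cast h3
        omega
      refine ⟨fun i => if i = c then y else x i, fun i hi => ?_⟩
      by_cases e : i = c
      · subst e
        refine ⟨by simpa using h1, fun j hj => ?_⟩
        simp only [if_true, if_neg hj.ne]
        rintro rfl
        exact h2 (Finset.mem_image.2 ⟨j, Finset.mem_range.2 hj, rfl⟩)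
      · have := hx i (by omega)
        refine ⟨by simpa [e] using this.1, fun j hj => ?_⟩
        simp only [if_neg e, if_neg (show j ≠ c by omega)]
        exact this.2 j hj
  · rintro ⟨x, hx⟩
    have h1 : Set.InjOn x (Finset.range c) := by
      intro i hi j hj e
      have hi : i < c := by simpa using hi
      have hj : j < c := by simpa using hj
      rcases lt_trichotomy i j with h | h | h
      · exact absurd e.symm ((hx j hj).2 i h)
      · exact h
      · exact absurd e ((hx i hi).2 j h)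
    have h2 := h1.encard_image
    rw [Set.encard_coe_eq_coe_finsetCard, Finset.card_range] at h2
    rw [← h2]
    refine Set.encard_le_encard ?_
    rintro _ ⟨i, hi, rfl⟩
    exact (hx i (by simpa using hi)).1

theorem encard_lt (z : ℕ∞) : {k : ℕ | ((k + 1 : ℕ) : ℕ∞) ≤ z}.encard = z := by
  induction z using ENat.recTopCoe with
  | top => simp [Set.infinite_univ.encard_eq]
  | coe n =>
    have : {k : ℕ | ((k + 1 : ℕ) : ℕ∞) ≤ n} = (Finset.range n : Set ℕ) := by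
      ext k
      simp only [Set.mem_ofPred_eq, Nat.cast_le, Finset.coe_range, Set.mem_Iio]
      omega
    rw [this, Set.encard_coe_eq_coe_finsetCard, Finset.card_range]

def Size (z : α → ℕ∞) : Prop := RK fun q : α × ℕ => (q.2 : ℕ∞) ≤ z q.1

def InC (C : Set ℕ) (z : ℕ∞) : Prop := ∃ c ∈ C, z = c

@[simp] theorem inC_coe {C : Set ℕ} {n : ℕ} : InC C n ↔ n ∈ C :=
  ⟨fun ⟨c, hc, e⟩ => by rw [Nat.cast_inj.1 e]; exact hc, fun h => ⟨n, h, rfl⟩⟩
@[simp] theorem inC_top {C : Set ℕ} : ¬ InC C ⊤ := fun ⟨c, _, e⟩ => by simp at e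

theorem inC_iff {γ : Type} {C : Set ℕ} {S : Set γ} :
    (S.Finite ∧ S.ncard ∈ C) ↔ InC C S.encard := by
  by_cases h : S.Finite
  · rw [← h.cast_ncard_eq, inC_coe]; simp [h]
  · simp [h, Set.Infinite.encard_eq h]

theorem size_of {V : α → ℕ → Prop} (h : RK fun q : α × ℕ => V q.1 q.2) :
    Size fun e => {k | V e k}.encard := by
  have h1 : RK fun q : ((α × ℕ) × List ℕ) × ℕ => V q.1.1.1 (q.1.2.getD q.2 0) ∧
      ∀ j < q.2, q.1.2.getD q.2 0 ≠ q.1.2.getD j 0 :=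
    RK.and (h.comp (g := fun q : ((α × ℕ) × List ℕ) × ℕ => (q.1.1.1, q.1.2.getD q.2 0))
      (by fun_prop)) (rk_bool (fun q => (List.range q.2).all fun j =>
        q.1.2.getD q.2 0 != q.1.2.getD j 0) (by fun_prop) (by simp))
  have h2 := RK.ex (p := fun (q : α × ℕ) (L : List ℕ) => ∀ i < q.2, V q.1 (L.getD i 0) ∧
      ∀ j < i, L.getD i 0 ≠ L.getD j 0)
    (RK.all_lt (p := fun (q : (α × ℕ) × List ℕ) i => V q.1.1 (q.2.getD i 0) ∧
      ∀ j < i, q.2.getD i 0 ≠ q.2.getD j 0) h1 (l := fun q => q.1.2) (by fun_prop))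
  refine h2.of_eq fun q => ?_
  rw [le_encard_iff]
  refine ⟨fun ⟨L, hL⟩ => ⟨fun i => L.getD i 0, hL⟩, fun ⟨x, hx⟩ => ⟨pre x q.2, fun i hi => ?_⟩⟩
  rw [getD_pre _ hi]
  refine ⟨(hx i hi).1, fun j hj => ?_⟩
  rw [getD_pre _ (hj.trans hi)]
  exact (hx i hi).2 j hj

theorem Size.sig {z : ℕ → ℕ∞} (h : Size z) : ∃ W, Sig 2 W ∧ ∀ e, (sec W e).encard = z e := by
  obtain ⟨W, hW, H⟩ := sig2_rel (V := fun e k => ((k + 1 : ℕ) : ℕ∞) ≤ z e)
    (RK.comp h (g := fun q : ℕ × ℕ => (q.1, q.2 + 1)) (by fun_prop))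
  exact ⟨W, hW, fun e => by rw [H, encard_lt]⟩

theorem Size.comp {z : β → ℕ∞} (h : Size z) {g : α → β} (hg : CI KO g) :
    Size fun a => z (g a) := RK.comp h (g := fun q : α × ℕ => (g q.1, q.2)) (by fun_prop)

theorem gam_iff {C X : Set ℕ} : Gam C X ↔
    ∃ z : ℕ → ℕ∞, Size z ∧ REPred (fun e => z e = 0) ∧ ∀ e, e ∈ X ↔ InC C (z e) := by
  constructor
  · rintro ⟨V, h1, h2, rfl⟩
    exact ⟨fun e => (sec V e).encard, size_of (V := fun e k => k ∈ sec V e) (sig2_sec h1),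
      (sig1_iff.1 h2).of_eq fun e => by simp, fun e => inC_iff⟩
  · rintro ⟨z, h1, h2, h3⟩
    obtain ⟨W, hW, H⟩ := h1.sig
    refine ⟨W, hW, sig1_iff.2 (h2.of_eq fun e => by simp [← H]), Set.ext fun e => ?_⟩
    rw [h3, ← H]; exact inC_iff.symm

theorem lm_iff {C : Set ℕ} : LM C ↔ ∃ z : ℕ → ℕ, Size (fun n => (z n : ℕ∞)) ∧ (∀ n, z n ∈ C) ∧
    (Set.range z).Infinite := by
  constructor
  · rintro ⟨V, h1, h2, h3⟩
    refine ⟨fun e => (sec V e).ncard, ?_, fun n => (h2 n).2, h3⟩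
    have := size_of (V := fun e k => k ∈ sec V e) (sig2_sec h1)
    exact RK.of_eq this fun q => by beta_reduce; rw [(h2 q.1).1.cast_ncard_eq]; rfl
  · rintro ⟨z, h1, h2, h3⟩
    obtain ⟨W, hW, H⟩ := h1.sig
    have : ∀ n, (sec W n).ncard = z n := fun n => by simp [Set.ncard_def, H]
    refine ⟨W, hW, fun n => ⟨Set.finite_of_encard_eq_coe (H n), by rw [this]; exact h2 n⟩, ?_⟩
    simpa [this] using h3

theorem RK.univ : RK fun q : ℕ × ℕ => (app q.1 Kf q.2).Dom :=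
  ⟨fun q k => (U q.1 (pre Kf k) q.2).isSome, by
    have := CI.self Kf
    fun_prop, fun q => dom_app⟩

theorem RK.index {p : ℕ → Prop} (h : RK p) : ∃ i, ∀ a, p a ↔ (app i Kf a).Dom := by
  obtain ⟨D, hD, H⟩ := h
  obtain ⟨i, hi⟩ := exists_app (RI.rfind (p := fun a n => Part.some (D a n)) hD.ri)
  refine ⟨i, fun a => ?_⟩
  rw [← hi, H, Nat.rfind_dom]
  simp

end Pool.Agent.H62.Ic
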