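import Pool.Agent.H62.Ic1

/-!
The index set I_C is complete for Γ_C.
-/

set_option autoImplicit false

namespace Pool.Agent.H62.Ic

open Pool.Agent.H37 Encodable Nat.Partrec Filter

theorem prf_prim : Primrec prf := by
  have := Code.primrec_recOn (α := Code) (σ := Bool) (c := id) Primrec.id
    (z := fun _ => true) (Primrec.const _) (s := fun _ => true) (Primrec.const _)
    (l := fun _ => true) (Primrec.const _) (r := fun _ => true) (Primrec.const _)
    (pr := fun _ _ _ a b => a && b)
    (Primrec.and.comp (Primrec.fst.comp <| Primrec.snd.comp <| Primrec.snd.comp Primrec.snd)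
      (Primrec.snd.comp <| Primrec.snd.comp <| Primrec.snd.comp Primrec.snd))
    (co := fun _ _ _ a b => a && b)
    (Primrec.and.comp (Primrec.fst.comp <| Primrec.snd.comp <| Primrec.snd.comp Primrec.snd)
      (Primrec.snd.comp <| Primrec.snd.comp <| Primrec.snd.comp Primrec.snd))
    (pc := fun _ _ _ a b => a && b)
    (Primrec.and.comp (Primrec.fst.comp <| Primrec.snd.comp <| Primrec.snd.comp Primrec.snd)
      (Primrec.snd.comp <| Primrec.snd.comp <| Primrec.snd.comp Primrec.snd))
    (rf := fun _ _ _ => false) (Primrec.const _)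
  refine this.of_eq fun c => ?_
  induction c <;> simp_all [prf]

theorem prf_dom {c : Code} (h : prf c = true) (n : ℕ) : (c.eval n).Dom := by
  induction c generalizing n with
  | zero => trivial
  | succ => trivial
  | left => trivial
  | right => trivial
  | pair a b iha ihb =>
    simp only [prf, Bool.and_eq_true] at h
    obtain ⟨x, hx⟩ := Part.dom_iff_mem.1 (iha h.1 n)
    obtain ⟨y, hy⟩ := Part.dom_iff_mem.1 (ihb h.2 n)
    exact Part.dom_iff_mem.2 ⟨Nat.pair x y, by
      simp only [Code.eval, Seq.seq, Part.map_eq_map, Part.bind_eq_bind, Part.mem_bind_iff,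
        Part.mem_map_iff]
      exact ⟨_, ⟨x, hx, rfl⟩, y, hy, rfl⟩⟩
  | comp a b iha ihb =>
    simp only [prf, Bool.and_eq_true] at h
    obtain ⟨y, hy⟩ := Part.dom_iff_mem.1 (ihb h.2 n)
    obtain ⟨x, hx⟩ := Part.dom_iff_mem.1 (iha h.1 y)
    exact Part.dom_iff_mem.2 ⟨x, by
      simp only [Code.eval, Part.bind_eq_bind, Part.mem_bind_iff]
      exact ⟨y, hy, hx⟩⟩
  | prec a b iha ihb =>
    simp only [prf, Bool.and_eq_true] at h
    simp only [Code.eval, Nat.unpaired]
    induction n.unpair.2 with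
    | zero => exact iha h.1 _
    | succ m ih =>
      obtain ⟨y, hy⟩ := Part.dom_iff_mem.1 ih
      obtain ⟨x, hx⟩ := Part.dom_iff_mem.1 (ihb h.2 (Nat.pair n.unpair.1 (Nat.pair m y)))
      exact Part.dom_iff_mem.2 ⟨x, by
        simp only [Part.bind_eq_bind, Part.mem_bind_iff]
        exact ⟨y, hy, hx⟩⟩
  | rfind' a _ => simp [prf] at h

theorem exists_prf {f : ℕ → ℕ} (h : Nat.Primrec f) : ∃ c : Code, prf c = true ∧ c.eval = f := by
  induction h with
  | zero => exact ⟨.zero, rfl, rfl⟩
  | succ => exact ⟨.succ, rfl, rfl⟩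
  | left => exact ⟨.left, rfl, rfl⟩
  | right => exact ⟨.right, rfl, rfl⟩
  | pair _ _ ihf ihg =>
    obtain ⟨a, ha, ea⟩ := ihf
    obtain ⟨b, hb, eb⟩ := ihg
    exact ⟨.pair a b, by simp [prf, ha, hb], by funext n; simp [Code.eval, ea, eb, Seq.seq]⟩
  | comp _ _ ihf ihg =>
    obtain ⟨a, ha, ea⟩ := ihf
    obtain ⟨b, hb, eb⟩ := ihg
    exact ⟨.comp a b, by simp [prf, ha, hb], by funext n; simp [Code.eval, ea, eb]⟩
  | prec _ _ ihf ihg =>
    obtain ⟨a, ha, ea⟩ := ihf
    obtain ⟨b, hb, eb⟩ := ihg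
    refine ⟨.prec a b, by simp [prf, ha, hb], ?_⟩
    funext n
    simp only [Code.eval, Nat.unpaired, ea, eb, PFun.coe_val]
    induction n.unpair.2 with
    | zero => rfl
    | succ m ih => simp only [Part.bind_eq_bind] at ih; simp [ih]

theorem prf_curry {c : Code} (h : prf c = true) (n : ℕ) : prf (c.curry n) = true := by
  have : prf (Code.const n) = true := by
    induction n with
    | zero => rfl
    | succ n ih => simp [Code.const, prf, ih]
  simp [Code.curry, Code.id, prf, h, this]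

theorem pi_comp : ∃ b : ℕ → List ℕ → Bool, CI ∅ (fun q : ℕ × List ℕ => b q.1 q.2) ∧
    ∀ e τ, piE e τ ↔ b e τ = true := by
  have hp : CI ∅ fun q : ℕ × List ℕ => prf (Denumerable.ofNat Code q.1) :=
    CI.prim1 prf_prim (CI.ofNat (by fun_prop))
  obtain ⟨f, hf, H⟩ := CI.exists_choice (O := ∅) (p := fun (q : ℕ × List ℕ) (s : ℕ) =>
    !prf (Denumerable.ofNat Code q.1) || (ev q.1 (encode q.2) s).isSome)
    (CI.or (CI.not (hp.comp (g := fun q : (ℕ × List ℕ) × ℕ => q.1) (by fun_prop))) (by fun_prop))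
    fun q => by
      cases e : prf (Denumerable.ofNat Code q.1)
      · exact ⟨0, by simp⟩
      · obtain ⟨s, hs⟩ := ev_iff.1 (Part.get_mem (prf_dom e (encode q.2)))
        exact ⟨s, by simp [hs]⟩
  refine ⟨fun e τ => prf (Denumerable.ofNat Code e) && ev e (encode τ) (f (e, τ)) == some 1,
    CI.and hp (by fun_prop), fun e τ => ?_⟩
  simp only [piE, Bool.and_eq_true, beq_iff_eq, and_congr_right_iff, ev_iff]
  intro h
  have := H (e, τ)
  simp only [h, Bool.not_true, Bool.false_or] at this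
  obtain ⟨v, hv⟩ := Option.isSome_iff_exists.1 this
  exact ⟨fun ⟨s, hs⟩ => by rw [hv, ev_unique hv hs], fun h => ⟨_, h⟩⟩

theorem mem_Q {e : ℕ} {x : ℕ → Bool} :
    x ∈ Q e ↔ ∀ j, piE e (pre (fun i => (x i).toNat) j) := by
  constructor
  · intro h j; exact h j _ List.prefix_rfl
  · intro h n τ hτ
    rw [pf_pre (x := fun i => (x i).toNat) (k := n) hτ]; exact h _

theorem pre_map (x : ℕ → Bool) (j : ℕ) :
    (pre x j).map Bool.toNat = pre (fun i => (x i).toNat) j := by simp [pre]

theorem upper : Size (fun e => (Q e).encard) ∧ REPred fun e => (Q e).encard = 0 := by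
  obtain ⟨b, hb, H⟩ := pi_comp
  have hQ : ∀ e x, x ∈ Q e ↔ ∀ j, b e ((pre x j).map Bool.toNat) = true := fun e x => by
    simp only [mem_Q, pre_map, H]
  have hT : CI ∅ fun q : ℕ × List Bool => b q.1 (q.2.map Bool.toNat) :=
    hb.comp (g := fun q : ℕ × List Bool => (q.1, q.2.map Bool.toNat)) (by fun_prop)
  constructor
  · have h1 := rk_core (re_empty (T := fun (a : ℕ × List Bool) ρ =>
      b a.1 (ρ.map Bool.toNat) && (ρ.length != a.2.length || ρ == a.2))
      (CI.and (hT.comp (g := fun q : (ℕ × List Bool) × List Bool => (q.1.1, q.2)) (by fun_prop))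
        (by fun_prop)))
    have h2 : RK fun a : ℕ × List Bool => ∃ x ∈ Q a.1, pre x a.2.length = a.2 := by
      refine h1.of_eq fun a => ?_
      rw [not_not]
      refine exists_congr fun x => ?_
      simp only [hQ, Bool.and_eq_true, Bool.or_eq_true, bne_iff_ne, beq_iff_eq, length_pre,
        forall_and]
      refine and_congr_right fun _ => ⟨fun h => by simpa using h a.2.length, fun h j => ?_⟩
      by_cases e : j = a.2.length
      · exact Or.inr (e ▸ h)
      · exact Or.inl e
    have h3 : RK fun q : ((ℕ × ℕ) × List (List Bool) × ℕ) × ℕ =>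
        (∃ x ∈ Q q.1.1.1, pre x (q.1.2.1.getD q.2 []).length = q.1.2.1.getD q.2 []) ∧
        ((q.1.2.1.getD q.2 []).length = q.1.2.2 ∧
          ∀ j < q.2, q.1.2.1.getD q.2 [] ≠ q.1.2.1.getD j []) :=
      RK.and (h2.comp (g := fun q : ((ℕ × ℕ) × List (List Bool) × ℕ) × ℕ =>
        (q.1.1.1, q.1.2.1.getD q.2 [])) (by fun_prop))
        (rk_bool (fun q => (q.1.2.1.getD q.2 []).length == q.1.2.2 && (List.range q.2).all
          fun j => q.1.2.1.getD q.2 [] != q.1.2.1.getD j []) (by fun_prop) (by simp))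
    have h4 := RK.ex (p := fun (q : ℕ × ℕ) (L : List (List Bool) × ℕ) => ∀ i < q.2,
        (∃ x ∈ Q q.1, pre x (L.1.getD i []).length = L.1.getD i []) ∧
        ((L.1.getD i []).length = L.2 ∧ ∀ j < i, L.1.getD i [] ≠ L.1.getD j []))
      (RK.all_lt (p := fun (q : (ℕ × ℕ) × List (List Bool) × ℕ) i =>
        (∃ x ∈ Q q.1.1, pre x (q.2.1.getD i []).length = q.2.1.getD i []) ∧
        ((q.2.1.getD i []).length = q.2.2 ∧ ∀ j < i, q.2.1.getD i [] ≠ q.2.1.getD j [])) h3
        (l := fun q => q.1.2) (by fun_prop))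
    refine h4.of_eq fun q => ?_
    rw [le_encard_iff]
    constructor
    · rintro ⟨⟨L, n⟩, hL⟩
      choose! x hx using fun i hi => (hL i hi).1
      refine ⟨x, fun i hi => ⟨(hx i hi).1, fun j hj e => (hL i hi).2.2 j hj ?_⟩⟩
      have e1 := (hx i hi).2
      have e2 := (hx j (hj.trans hi)).2
      rw [(hL i hi).2.1] at e1
      rw [(hL j (hj.trans hi)).2.1] at e2
      rw [← e1, ← e2, e]
    · rintro ⟨x, hx⟩
      have : ∀ᶠ n in atTop, ∀ i < q.2, ∀ j < i, pre (x i) n ≠ pre (x j) n := by
        refine (eventually_all_finite (Set.finite_lt_nat _)).2 fun i hi => ?_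
        refine (eventually_all_finite (Set.finite_lt_nat _)).2 fun j hj => ?_
        obtain ⟨m, hm⟩ := Function.ne_iff.1 ((hx i hi).2 j hj)
        filter_upwards [eventually_gt_atTop m] with n hn e using hm (pre_eq_iff.1 e m hn)
      obtain ⟨n, hn⟩ := this.exists
      refine ⟨(pre (fun i => pre (x i) n) q.2, n), fun i hi => ?_⟩
      simp only [getD_pre _ hi, length_pre]
      refine ⟨⟨x i, (hx i hi).1, rfl⟩, trivial, fun j hj => ?_⟩
      rw [getD_pre _ (hj.trans hi)]
      exact hn i hi j hj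
  · refine (re_empty (T := fun (a : ℕ) ρ => b a (ρ.map Bool.toNat)) hT).of_eq fun e => ?_
    simp only [Set.encard_eq_zero, Set.eq_empty_iff_forall_notMem, hQ, not_exists]

/-- computable trees are replaced uniformly by primitive recursive trees -/
theorem exists_tree {ok : ℕ → List ℕ → Bool} (h : CI ∅ fun q : ℕ × List ℕ => ok q.1 q.2) :
    ∃ f, Computable f ∧ ∀ e x, x ∈ Q (f e) ↔ ∀ j, ok e (pre (fun i => (x i).toNat) j) = true := by
  obtain ⟨i, hi⟩ := exists_index (f := fun m => (ok m.unpair.1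
      (Denumerable.ofNat (List ℕ) m.unpair.2)).toNat)
    (CI.toNat (h.comp (g := fun m : ℕ => (m.unpair.1, Denumerable.ofNat (List ℕ) m.unpair.2))
      (CI.mk (by fun_prop) (CI.ofNat (by fun_prop)))))
  have hσ : Primrec fun m : ℕ => Denumerable.ofNat (List ℕ) m.unpair.2 :=
    (Primrec.ofNat _).comp (Primrec.snd.comp Primrec.unpair)
  have ht := Primrec.list_length.comp hσ
  have hF := Primrec.option_getD.comp (Code.primrec_evaln.comp (Primrec.pair (Primrec.pair ht
    (Primrec.const (Denumerable.ofNat Code i))) (Primrec₂.natPair.comp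
      (Primrec.fst.comp Primrec.unpair) (Primrec.encode.comp (Primrec.list_take.comp
        (Primrec.fst.comp (Primrec.unpair.comp ht)) hσ))))) (Primrec.const 1)
  obtain ⟨c, hc, ec⟩ := exists_prf (Primrec.nat_iff.1 hF)
  refine ⟨fun e => encode (c.curry e), CI.computable (CI.encode (CI.curry (by fun_prop)
    (by fun_prop))), fun e x => ?_⟩
  have key : ∀ t, piE (encode (c.curry e)) (pre (fun i => (x i).toNat) t) ↔
      (ev i (Nat.pair e (encode (pre (fun i => (x i).toNat) t.unpair.1))) t).getD 1 = 1 := by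
    intro t
    simp only [piE, Denumerable.ofNat_encode, prf_curry hc, true_and, Code.eval_curry, ec,
      PFun.coe_val, Part.mem_some_iff, Nat.unpair_pair, length_pre,
      take_pre _ (Nat.unpair_left_le t), ev]
    exact eq_comm
  simp only [mem_Q, key]
  constructor
  · intro H j
    obtain ⟨s, hs⟩ := hi (Nat.pair e (encode (pre (fun i => (x i).toNat) j)))
    have := H (Nat.pair j s)
    simp only [Nat.unpair_pair, Denumerable.ofNat_encode] at this hs
    rw [ev_mono (Nat.right_le_pair j s) hs] at this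
    revert this
    cases ok e (pre (fun i => (x i).toNat) j) <;> simp
  · intro H t
    obtain ⟨s, hs⟩ := hi (Nat.pair e (encode (pre (fun i => (x i).toNat) t.unpair.1)))
    simp only [Nat.unpair_pair, Denumerable.ofNat_encode, H] at hs
    cases e' : ev i (Nat.pair e (encode (pre (fun i => (x i).toNat) t.unpair.1))) t with
    | none => rfl
    | some v => simpa using ev_unique e' hs

/-- Σ2 sections have the same size as uniformly Π1 sets -/
theorem exists_pi1 {V : ℕ → ℕ → Prop} (h : RK fun q : ℕ × ℕ => V q.1 q.2) :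
    ∃ W : ℕ → ℕ → ℕ → Bool, CI ∅ (fun q : ℕ × ℕ × ℕ => W q.1 q.2.1 q.2.2) ∧
      ∀ e, {j | ∀ m, W e j m = true}.encard = {k | V e k}.encard := by
  obtain ⟨R, hR, H⟩ := h.normal
  let G : ℕ → ℕ → ℕ → ℕ → Bool := fun e k n s =>
    (List.range n).all fun n' => (List.range s).any fun m => !R (e, k) n' m
  have hG : CI ∅ fun q : ℕ × ℕ × ℕ × ℕ => G q.1 q.2.1 q.2.2.1 q.2.2.2 :=
    CI.all (by fun_prop) (CI.any (by fun_prop) (CI.not (hR.comp
      (g := fun q : ((ℕ × ℕ × ℕ × ℕ) × ℕ) × ℕ => ((q.1.1.1, q.1.1.2.1), q.1.2, q.2))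
      (by fun_prop))))
  have hG' : ∀ e k n s, G e k n s = true ↔ ∀ n' < n, ∃ m < s, R (e, k) n' m = false := by
    simp [G]
  refine ⟨fun e j m => R (e, j.unpair.1) j.unpair.2.unpair.1 m &&
    G e j.unpair.1 j.unpair.2.unpair.1 j.unpair.2.unpair.2 &&
    (List.range j.unpair.2.unpair.2).all fun s => !G e j.unpair.1 j.unpair.2.unpair.1 s,
    CI.and (CI.and (hR.comp (g := fun q : ℕ × ℕ × ℕ =>
      ((q.1, q.2.1.unpair.1), q.2.1.unpair.2.unpair.1, q.2.2)) (by fun_prop))
      (hG.comp (g := fun q : ℕ × ℕ × ℕ => (q.1, q.2.1.unpair.1, q.2.1.unpair.2.unpair.1,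
        q.2.1.unpair.2.unpair.2)) (by fun_prop))) (CI.all (by fun_prop) (CI.not
      (hG.comp (g := fun q : (ℕ × ℕ × ℕ) × ℕ => (q.1.1, q.1.2.1.unpair.1,
        q.1.2.1.unpair.2.unpair.1, q.2)) (by fun_prop)))), fun e => ?_⟩
  refine Set.encard_congr (Set.BijOn.equiv (fun j : ℕ => j.unpair.1) ⟨?_, ?_, ?_⟩)
  · intro j hj
    simp only [Set.mem_ofPred_eq, Bool.and_eq_true] at hj ⊢
    exact (H (e, _)).2 ⟨_, fun m => (hj m).1.1⟩
  · intro j hj j' hj' e1
    simp only [Set.mem_ofPred_eq, Bool.and_eq_true, List.all_eq_true, List.mem_range,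
      Bool.not_eq_true'] at hj hj' e1
    have e2 : j.unpair.2.unpair.1 = j'.unpair.2.unpair.1 := by
      rcases lt_trichotomy j.unpair.2.unpair.1 j'.unpair.2.unpair.1 with h | h | h
      · obtain ⟨m, -, hm⟩ := (hG' _ _ _ _).1 (hj' 0).1.2 _ h
        rw [← e1, (hj m).1.1] at hm; cases hm
      · exact h
      · obtain ⟨m, -, hm⟩ := (hG' _ _ _ _).1 (hj 0).1.2 _ h
        rw [e1, (hj' m).1.1] at hm; cases hm
    have e3 : j.unpair.2.unpair.2 = j'.unpair.2.unpair.2 := by
      rcases lt_trichotomy j.unpair.2.unpair.2 j'.unpair.2.unpair.2 with h | h | h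
      · have := (hj' 0).2 _ h
        rw [← e1, ← e2, (hj 0).1.2] at this; cases this
      · exact h
      · have := (hj 0).2 _ h
        rw [e1, e2, (hj' 0).1.2] at this; cases this
    rw [← Nat.pair_unpair j, ← Nat.pair_unpair j.unpair.2, e1, e2, e3]
    simp
  · intro k hk
    have h1 := (H (e, k)).1 hk
    classical
    have h2 : ∃ s, G e k (Nat.find h1) s = true := by
      have : ∀ᶠ s in atTop, ∀ n' < Nat.find h1, ∃ m < s, R (e, k) n' m = false := by
        refine (eventually_all_finite (Set.finite_lt_nat _)).2 fun n' hn => ?_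
        have := Nat.find_min h1 hn
        simp only [not_forall, Bool.not_eq_true] at this
        obtain ⟨m, hm⟩ := this
        filter_upwards [eventually_gt_atTop m] with s hs using ⟨m, hs, hm⟩
      obtain ⟨s, hs⟩ := this.exists
      exact ⟨s, (hG' _ _ _ _).2 hs⟩
    refine ⟨Nat.pair k (Nat.pair (Nat.find h1) (Nat.find h2)), fun m => ?_, by simp⟩
    simp only [Nat.unpair_pair, Bool.and_eq_true, List.all_eq_true, List.mem_range,
      Bool.not_eq_true']
    exact ⟨⟨Nat.find_spec h1 m, Nat.find_spec h2⟩, fun s hs => by simpa using Nat.find_min h2 hs⟩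

theorem hard {z : ℕ → ℕ∞} (h1 : Size z) (h2 : REPred fun e => z e = 0) :
    ∃ f, Computable f ∧ ∀ e, (Q (f e)).encard = z e := by
  obtain ⟨W, hW, HW⟩ := exists_pi1 (V := fun e k => ((k + 2 : ℕ) : ℕ∞) ≤ z e)
    (RK.comp h1 (g := fun q : ℕ × ℕ => (q.1, q.2 + 2)) (by fun_prop))
  obtain ⟨D, hD, -, HD⟩ := re_stage h2
  obtain ⟨f, hf, Hf⟩ := exists_tree (ok := fun e σ => !D e σ.length &&
      (List.range σ.length).all fun j => σ.getD j 0 == 0 ||
        (((List.range σ.length).all fun m => W e j m) &&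
          (List.range σ.length).all fun i => σ.getD i 0 == 0 || i == j))
    (CI.and (CI.not (hD.comp (g := fun q : ℕ × List ℕ => (q.1, q.2.length)) (by fun_prop)))
      (CI.all (by fun_prop) (CI.or (by fun_prop) (CI.and (CI.all (by fun_prop) (hW.comp
        (g := fun q : ((ℕ × List ℕ) × ℕ) × ℕ => (q.1.1.1, q.1.2, q.2)) (by fun_prop)))
        (by fun_prop)))))
  have key : ∀ e x, x ∈ Q (f e) ↔ z e ≠ 0 ∧ ∀ j, x j = true →
      (∀ m, W e j m = true) ∧ ∀ i, x i = true → i = j := by
    intro e x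
    simp only [Hf, length_pre, Bool.and_eq_true, Bool.not_eq_true', List.all_eq_true,
      List.mem_range, Bool.or_eq_true, beq_iff_eq, forall_and, Ne, HD, not_exists,
      Bool.not_eq_true]
    refine and_congr_right fun _ => ⟨fun h => ⟨fun j hj m => ?_, fun j hj i hi => ?_⟩,
      fun h n j hj => ?_⟩
    · rcases h (max j m + 1) j (by omega) with h | h
      · rw [getD_pre _ (by omega), hj] at h; cases h
      · exact h.1 m (by omega)
    · rcases h (max j i + 1) j (by omega) with h | h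
      · rw [getD_pre _ (by omega), hj] at h; cases h
      · rcases h.2 i (by omega) with h | h
        · rw [getD_pre _ (by omega), hi] at h; cases h
        · exact h
    · rw [getD_pre _ hj]
      cases e1 : x j
      · exact Or.inl rfl
      refine Or.inr ⟨fun m _ => h.1 j e1 m, fun i hi => ?_⟩
      rw [getD_pre _ hi]
      cases e2 : x i
      · exact Or.inl rfl
      · exact Or.inr (h.2 j e1 i e2)
  refine ⟨f, hf, fun e => ?_⟩
  by_cases h0 : z e = 0
  · rw [h0, Set.encard_eq_zero, Set.eq_empty_iff_forall_notMem]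
    exact fun x hx => ((key e x).1 hx).1 h0
  have e1 : Q (f e) = insert (fun _ => false)
      ((fun j i => decide (i = j)) '' {j | ∀ m, W e j m = true}) := by
    ext x
    rw [key]
    simp only [Set.mem_insert_iff, Set.mem_image, Set.mem_ofPred_eq]
    constructor
    · rintro ⟨-, h⟩
      by_cases hx : ∃ j, x j = true
      · obtain ⟨j, hj⟩ := hx
        refine Or.inr ⟨j, (h j hj).1, funext fun i => ?_⟩
        cases e2 : x i
        · simp only [decide_eq_false_iff_not]
          rintro rfl; rw [hj] at e2; cases e2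
        · simpa using (h j hj).2 i e2
      · exact Or.inl (funext fun i => by simpa using fun h => hx ⟨i, h⟩)
    · rintro (rfl | ⟨j, hj, rfl⟩)
      · exact ⟨h0, by simp⟩
      · refine ⟨h0, fun i hi => ?_⟩
        obtain rfl : i = j := by simpa using hi
        exact ⟨hj, by simp⟩
  rw [e1, Set.encard_insert_of_notMem, Set.InjOn.encard_image, HW]
  · induction hz : z e using ENat.recTopCoe with
    | top => simp [Set.infinite_univ.encard_eq]
    | coe n =>
      rw [hz] at h0
      obtain ⟨n, rfl⟩ : ∃ m, n = m + 1 := Nat.exists_eq_succ_of_ne_zero (by simpa using h0)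
      have := encard_lt n
      have e2 : {k : ℕ | ((k + 2 : ℕ) : ℕ∞) ≤ ((n + 1 : ℕ) : ℕ∞)} =
          {k : ℕ | ((k + 1 : ℕ) : ℕ∞) ≤ (n : ℕ∞)} := by
        ext k; simp only [Set.mem_ofPred_eq, Nat.cast_le]; omega
      rw [e2, this]; simp
  · intro j _ j' _ e2
    simpa using congrFun e2 j
  · rintro ⟨j, -, e2⟩
    simpa using congrFun e2 j

theorem mem_I {C : Set ℕ} {e : ℕ} : e ∈ I C ↔ InC C (Q e).encard := inC_iff

theorem gam_complete (C : Set ℕ) : Complete (Gam C) (I C) := by
  refine ⟨gam_iff.2 ⟨_, upper.1, upper.2, fun e => mem_I⟩, fun Y hY => ?_⟩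
  obtain ⟨z, h1, h2, h3⟩ := gam_iff.1 hY
  obtain ⟨f, hf, H⟩ := hard h1 h2
  exact ⟨f, hf, fun e => by beta_reduce; rw [h3, mem_I, H]⟩

end Pool.Agent.H62.Ic
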