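import Pool.Agent.H62.Ic2

/-!
The class Γ_C in the arithmetical and difference hierarchies.
-/

set_option autoImplicit false

namespace Pool.Agent.H62.Ic

open Pool.Agent.H37 Encodable Nat.Partrec Filter

variable {α : Type} [Primcodable α] {C : Set ℕ}

theorem complete_of {Γ : Set ℕ → Prop} (h1 : Γ (I C)) (h2 : ∀ X, Γ X → Gam C X) :
    Complete Γ (I C) := ⟨h1, fun Y hY => (gam_complete C).2 Y (h2 Y hY)⟩

theorem Gam.pre {X Y : Set ℕ} (h : Gam C X) (hr : ManyOneReducible (· ∈ Y) (· ∈ X)) :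
    Gam C Y := by
  obtain ⟨z, h1, h2, h3⟩ := gam_iff.1 h
  obtain ⟨f, hf, H⟩ := hr
  exact gam_iff.2 ⟨fun e => z (f e), h1.comp (CI.of_comp hf), REPred.comp' h2 (CI.of_comp hf),
    fun e => (H e).trans (h3 _)⟩

theorem eq_coe_iff {z : ℕ∞} {c : ℕ} : z = c ↔ (c : ℕ∞) ≤ z ∧ ¬ ((c + 1 : ℕ) : ℕ∞) ≤ z := by
  induction z using ENat.recTopCoe with
  | top => simp
  | coe n => simp only [Nat.cast_inj, Nat.cast_le]; omega

theorem ne_iff {z w : ℕ∞} : z ≠ w ↔
    ∃ c : ℕ, ((c : ℕ∞) ≤ z ∧ ¬ (c : ℕ∞) ≤ w) ∨ ((c : ℕ∞) ≤ w ∧ ¬ (c : ℕ∞) ≤ z) := by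
  constructor
  · intro h
    by_contra hn
    push Not at hn
    exact h (le_antisymm (ENat.forall_natCast_le_iff_le.1 fun c => (hn c).1)
      (ENat.forall_natCast_le_iff_le.1 fun c => (hn c).2))
  · rintro ⟨c, h⟩ rfl
    tauto

theorem Size.s3_eq {z : α → ℕ∞} (h : Size z) : S3 fun q : α × ℕ => z q.1 = q.2 :=
  ((RK.s3 h).and (RK.comp h (g := fun q : α × ℕ => (q.1, q.2 + 1)) (by fun_prop)).s3_not).of_eq
    fun _ => eq_coe_iff.symm

theorem Size.s3_ne {z w : α → ℕ∞} (h : Size z) (h' : Size w) : S3 fun a => z a ≠ w a :=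
  (S3.ex (p := fun a (c : ℕ) => ((c : ℕ∞) ≤ z a ∧ ¬ (c : ℕ∞) ≤ w a) ∨
    ((c : ℕ∞) ≤ w a ∧ ¬ (c : ℕ∞) ≤ z a))
    (((RK.s3 h).and (RK.s3_not h')).or ((RK.s3 h').and (RK.s3_not h)))).of_eq fun _ => ne_iff.symm

theorem size_nat {g : α → ℕ} (h : CI KO g) : Size fun a => (g a : ℕ∞) :=
  rk_bool (fun q => decide (q.2 ≤ g q.1)) (by fun_prop) (by simp)

theorem gam_s3 {X : Set ℕ} (hC : Sig 3 C) (h : Gam C X) : Sig 3 X := by
  obtain ⟨z, h1, -, h3⟩ := gam_iff.1 h
  exact sig3_iff.2 ((S3.ex (p := fun e (c : ℕ) => c ∈ C ∧ z e = c)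
    (((sig3_iff.1 hC).comp (g := fun q : ℕ × ℕ => q.2) (by fun_prop)).and h1.s3_eq)).of_eq
    fun e => (h3 e).symm)

theorem gam_self (C : Set ℕ) : Gam C C :=
  gam_iff.2 ⟨fun e => e, size_nat (g := fun e => e) (by fun_prop),
    re_of_bool (fun e => e == 0) (by fun_prop) (by simp), by simp⟩

theorem s3_of_I (h : Sig 3 (I C)) : Sig 3 C := by
  obtain ⟨f, hf, H⟩ := (gam_complete C).2 C (gam_self C)
  exact sig3_iff.2 (((sig3_iff.1 h).comp (CI.of_comp hf)).of_eq fun e => (H e).symm)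

/-- a Σ2 set is finite iff a uniformly 0'-computable set is -/
theorem rk_fin {V : ℕ → ℕ → Prop} (h : RK fun q : ℕ × ℕ => V q.1 q.2) :
    ∃ b : ℕ → ℕ → Bool, CI KO (fun q : ℕ × ℕ => b q.1 q.2) ∧
      ∀ e, {t | b e t = true}.Finite ↔ {k | V e k}.Finite := by
  classical
  obtain ⟨D, hD, H⟩ := h
  refine ⟨fun e t => D (e, t.unpair.1) t.unpair.2 &&
    (List.range t.unpair.2).all fun s => !D (e, t.unpair.1) s, CI.and (hD.comp
      (g := fun q : ℕ × ℕ => ((q.1, q.2.unpair.1), q.2.unpair.2)) (by fun_prop))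
      (CI.all (by fun_prop) (CI.not (hD.comp
      (g := fun q : (ℕ × ℕ) × ℕ => ((q.1.1, q.1.2.unpair.1), q.2)) (by fun_prop)))), fun e => ?_⟩
  refine Set.BijOn.finite_iff_finite (f := fun t : ℕ => t.unpair.1) ⟨?_, ?_, ?_⟩
  · intro t ht
    simp only [Set.mem_ofPred_eq, Bool.and_eq_true] at ht
    exact (H (e, _)).2 ⟨_, ht.1⟩
  · intro j hj j' hj' e1
    simp only [Set.mem_ofPred_eq, Bool.and_eq_true, List.all_eq_true, List.mem_range,
      Bool.not_eq_true'] at hj hj' e1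
    have e2 : j.unpair.2 = j'.unpair.2 := by
      rcases lt_trichotomy j.unpair.2 j'.unpair.2 with h | h | h
      · have := hj'.2 _ h
        rw [← e1, hj.1] at this; cases this
      · exact h
      · have := hj.2 _ h
        rw [e1, hj'.1] at this; cases this
    rw [← Nat.pair_unpair j, e1, e2, Nat.pair_unpair]
  · intro k hk
    have h1 := (H (e, k)).1 hk
    refine ⟨Nat.pair k (Nat.find h1), ?_, by simp⟩
    simp only [Set.mem_ofPred_eq, Nat.unpair_pair, Bool.and_eq_true, List.all_eq_true,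
      List.mem_range, Bool.not_eq_true']
    exact ⟨Nat.find_spec h1, fun s hs => by simpa using Nat.find_min h1 hs⟩

theorem encard_Iio (n : ℕ) : {k : ℕ | k < n}.encard = n := by
  have := encard_lt n
  simp only [Nat.cast_le] at this
  exact this

theorem hard_of_lm (h : LM C) {X : Set ℕ} (hX : Sig 3 X) : Gam C X := by
  obtain ⟨z, h1, h2, h3⟩ := lm_iff.1 h
  obtain ⟨m, hm, Hm⟩ := RK.choice (p := fun n m : ℕ => (n : ℕ∞) ≤ z m)
    (RK.comp h1 (g := fun q : ℕ × ℕ => (q.2, q.1)) (by fun_prop)) fun n => by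
      obtain ⟨_, ⟨m, rfl⟩, h⟩ := h3.exists_gt n
      exact ⟨m, by exact_mod_cast h.le⟩
  have Hm' : ∀ n, n ≤ z (m n) := fun n => by exact_mod_cast Hm n
  obtain ⟨q, hq, Hq⟩ := sig3_iff.1 hX
  obtain ⟨b, hb, Hb⟩ := rk_fin (V := fun e d => ∀ n < d + 1, q e n)
    (RK.all_lt (p := fun (x : ℕ × ℕ) n => q x.1 n)
      (hq.comp (g := fun x : (ℕ × ℕ) × ℕ => (x.1.1, x.2)) (by fun_prop))
      (l := fun x => x.2 + 1) (by fun_prop))
  have hX' : ∀ e, e ∈ X ↔ {t | b e t = true}.Finite := by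
    intro e
    rw [Hb, show e ∈ X ↔ _ from Hq e]
    constructor
    · rintro ⟨n, hn⟩
      exact (Set.finite_lt_nat n).subset fun d hd => by
        by_contra hl
        exact hn (hd n (by simpa [Nat.lt_succ_iff] using hl))
    · intro hf
      obtain ⟨d, hd⟩ := hf.exists_notMem
      simp only [Set.mem_ofPred_eq, not_forall] at hd
      obtain ⟨n, -, hn⟩ := hd
      exact ⟨n, hn⟩
  let V : ℕ → ℕ → Prop := fun e j => ∃ t, (t = 0 ∨ b e t = true) ∧
    (j ≤ t ∨ ((∀ r < j + 1, t < r → b e r = false) ∧ ((j + 1 : ℕ) : ℕ∞) ≤ z (m (t + 1))))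
  have hb1 : CI KO fun x : (ℕ × ℕ) × ℕ => b x.1.1 x.2 :=
    hb.comp (g := fun x : (ℕ × ℕ) × ℕ => (x.1.1, x.2)) (by fun_prop)
  have hb2 : CI KO fun x : ((ℕ × ℕ) × ℕ) × ℕ => b x.1.1.1 x.2 :=
    hb.comp (g := fun x : ((ℕ × ℕ) × ℕ) × ℕ => (x.1.1.1, x.2)) (by fun_prop)
  have hV : RK fun x : ℕ × ℕ => V x.1 x.2 :=
    RK.ex (p := fun (x : ℕ × ℕ) (t : ℕ) => (t = 0 ∨ b x.1 t = true) ∧
      (x.2 ≤ t ∨ ((∀ r < x.2 + 1, t < r → b x.1 r = false) ∧
        ((x.2 + 1 : ℕ) : ℕ∞) ≤ z (m (t + 1)))))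
      (RK.and (rk_bool (fun x => x.2 == 0 || b x.1.1 x.2) (CI.or (by fun_prop) hb1) (by simp))
        (RK.or (rk_dec (by fun_prop)) (RK.and (rk_bool (fun x => (List.range (x.1.2 + 1)).all
          fun r => decide (r ≤ x.2) || !b x.1.1 r) (CI.all (by fun_prop)
            (CI.or (by fun_prop) hb2.not)) (by
              intro x
              simp only [List.all_eq_true, List.mem_range, Bool.or_eq_true, decide_eq_true_eq,
                Bool.not_eq_true']
              exact forall₂_congr fun r _ => by rw [← not_le, or_iff_not_imp_left]))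
          (RK.comp h1 (g := fun x : (ℕ × ℕ) × ℕ => (m (x.2 + 1), x.1.2 + 1)) (by fun_prop)))))
  refine gam_iff.2 ⟨fun e => {j | V e j}.encard, size_of hV, re_of_bool (fun _ => false)
    (by fun_prop) fun e => ?_, fun e => ?_⟩
  · simp only [Set.encard_eq_zero, Bool.false_eq_true, iff_false]
    exact Set.Nonempty.ne_empty ⟨0, 0, Or.inl rfl, Or.inl le_rfl⟩
  rw [hX']
  by_cases hf : {t | b e t = true}.Finite
  · obtain ⟨t, ht, ht'⟩ := Set.exists_max_image _ id (hf.insert 0) ⟨0, by simp⟩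
    simp only [Set.mem_insert_iff, Set.mem_ofPred_eq, id] at ht ht'
    have : {j | V e j} = {j | j < z (m (t + 1))} := by
      ext j
      have h4 := Hm' (t + 1)
      constructor
      · rintro ⟨t', h5, h6 | ⟨h6, h7⟩⟩
        · have := ht' t' h5
          change j < _; omega
        · rcases (ht' t' h5).eq_or_lt with rfl | h8
          · exact_mod_cast h7
          · by_contra h9
            have h9 : ¬ j < z (m (t + 1)) := h9
            have := h6 t (by omega) h8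
            rcases ht with rfl | ht
            · omega
            · rw [ht] at this; cases this
      · intro hj
        refine ⟨t, ht, Or.inr ⟨fun r _ hr => ?_, by exact_mod_cast hj⟩⟩
        by_contra h5
        have := ht' r (Or.inr (by simpa using h5))
        omega
    simp only [this, encard_Iio, inC_coe, h2, hf]
  · have : {j | V e j} = Set.univ := Set.eq_univ_of_forall fun j => by
      obtain ⟨t, h4, h5⟩ := Set.Infinite.exists_gt hf j
      exact ⟨t, Or.inr h4, Or.inl h5.le⟩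
    simp [this, Set.infinite_univ.encard_eq, hf]

noncomputable def uz (i e : ℕ) : ℕ∞ := {k | (app i Kf (Nat.pair e k)).Dom}.encard

theorem size_uz : Size fun q : ℕ × ℕ => uz q.1 q.2 :=
  size_of (V := fun (q : ℕ × ℕ) k => (app q.1 Kf (Nat.pair q.2 k)).Dom)
    (RK.univ.comp (g := fun x : (ℕ × ℕ) × ℕ => (x.1.1, Nat.pair x.1.2 x.2)) (by fun_prop))

theorem Size.index {z : ℕ → ℕ∞} (h : Size z) : ∃ i, ∀ e, z e = uz i e := by
  obtain ⟨W, hW, H⟩ := h.sig
  obtain ⟨i, hi⟩ := (sig2_iff.1 hW).index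
  exact ⟨i, fun e => by rw [← H, uz, sec]; simp only [hi]⟩

theorem lm_of_hard (h : ∀ X, Sig 3 X → Gam C X) : LM C := by
  let X : Set ℕ := {e | ∀ j < e.unpair.2, uz e.unpair.1 e ≠ uz e.unpair.1 (Nat.pair e.unpair.1 j)}
  have hX : Sig 3 X := sig3_iff.2 (S3.all_lt
    (p := fun e j => uz e.unpair.1 e ≠ uz e.unpair.1 (Nat.pair e.unpair.1 j))
    (Size.s3_ne (size_uz.comp (g := fun x : ℕ × ℕ => (x.1.unpair.1, x.1)) (by fun_prop))
      (size_uz.comp (g := fun x : ℕ × ℕ => (x.1.unpair.1, Nat.pair x.1.unpair.1 x.2))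
        (by fun_prop))) (l := fun e => e.unpair.2) (by fun_prop))
  obtain ⟨z, h1, -, h3⟩ := gam_iff.1 (h X hX)
  obtain ⟨i, hi⟩ := h1.index
  have hX' : ∀ k, Nat.pair i k ∈ X ↔ ∀ j < k, z (Nat.pair i k) ≠ z (Nat.pair i j) := by
    simp [X, hi]
  have key : ∀ k, Nat.pair i k ∈ X := by
    intro k
    induction k using Nat.strong_induction_on with
    | _ k ih =>
      by_contra hn
      have := hn
      rw [hX'] at this
      push Not at this
      obtain ⟨j, hj, e⟩ := this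
      exact hn ((h3 _).2 (e ▸ (h3 _).1 (ih j hj)))
  choose w hw using fun k => (h3 _).1 (key k)
  refine lm_iff.2 ⟨w, ?_, fun n => (hw n).1, Set.infinite_range_of_injective fun a b e => ?_⟩
  · exact RK.of_eq (h1.comp (g := fun k => Nat.pair i k) (by fun_prop)) fun q => by
      beta_reduce; rw [(hw _).2]
  · have e' : z (Nat.pair i a) = z (Nat.pair i b) := by rw [(hw _).2, (hw _).2, e]
    rcases lt_trichotomy a b with h | h | h
    · exact absurd e'.symm ((hX' b).1 (key b) a h)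
    · exact h
    · exact absurd e' ((hX' a).1 (key a) b h)

theorem sig3_complete_iff (C : Set ℕ) : Complete (Sig 3) (I C) ↔ Sig 3 C ∧ LM C :=
  ⟨fun h => ⟨s3_of_I h.1, lm_of_hard fun X hX => (gam_complete C).1.pre (h.2 X hX)⟩,
    fun h => complete_of (gam_s3 h.1 (gam_complete C).1) fun _ => hard_of_lm h.2⟩

theorem inf_range {z : ℕ → ℕ} (h : ∀ n, n ≤ z n) : (Set.range z).Infinite :=
  Set.infinite_of_forall_exists_gt fun n => ⟨z (n + 1), ⟨_, rfl⟩, h (n + 1)⟩

theorem lm_sig2 (hi : C.Infinite) (h : Sig 2 C) : LM C := by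
  obtain ⟨g, hg, H⟩ := RK.choice (p := fun n c : ℕ => c ∈ C ∧ n ≤ c)
    (RK.and ((sig2_iff.1 h).comp (g := fun q : ℕ × ℕ => q.2) (by fun_prop)) (rk_dec (by fun_prop)))
    fun n => by
      obtain ⟨c, h1, h2⟩ := hi.exists_gt n
      exact ⟨c, h1, h2.le⟩
  exact lm_iff.2 ⟨g, size_nat hg, fun n => (H n).1, inf_range fun n => (H n).2⟩

theorem lm_pi2 (hi : C.Infinite) (h : Sig 2 Cᶜ) : LM C := by
  classical
  have hex : ∀ n, ∃ c, c ∈ C ∧ n ≤ c := fun n => by
    obtain ⟨c, h1, h2⟩ := hi.exists_gt n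
    exact ⟨c, h1, h2.le⟩
  refine lm_iff.2 ⟨fun n => Nat.find (hex n), ?_, fun n => (Nat.find_spec (hex n)).1,
    inf_range fun n => (Nat.find_spec (hex n)).2⟩
  refine RK.of_eq (RK.all_lt (p := fun (q : ℕ × ℕ) c => c ∈ Cᶜ ∨ c < q.1)
    (RK.or ((sig2_iff.1 h).comp (g := fun q : (ℕ × ℕ) × ℕ => q.2) (by fun_prop))
      (rk_dec (by fun_prop))) (l := fun q => q.2) (by fun_prop)) fun q => ?_
  simp only [Nat.cast_le, Nat.le_find_iff, not_and_or, not_le, Set.mem_compl_iff]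

theorem sig2_complete (hi : C.Infinite) (h : Sig 2 C ∨ Sig 2 Cᶜ) : Complete (Sig 3) (I C) := by
  rcases h with h | h
  · exact (sig3_complete_iff C).2 ⟨sig3_iff.2 (sig2_iff.1 h).s3, lm_sig2 hi h⟩
  · exact (sig3_complete_iff C).2 ⟨sig3_iff.2 ((sig2_iff.1 h).s3_not.of_eq fun a => by simp),
      lm_pi2 hi h⟩

theorem sig1_complete (hi : C.Infinite) (h : Sig 0 C ∨ Sig 1 C ∨ Sig 1 Cᶜ) :
    Complete (Sig 3) (I C) := by
  rcases h with h | h | h
  · exact sig2_complete hi (Or.inl (sig2_iff.2 (rk_re (ComputablePred.to_re h))))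
  · exact sig2_complete hi (Or.inl (sig2_iff.2 (rk_re (sig1_iff.1 h))))
  · exact sig2_complete hi (Or.inr (sig2_iff.2 (rk_re (sig1_iff.1 h))))

theorem exists_bad : ∃ C : Set ℕ, C.Infinite ∧ Sig 3 C ∧ Sig 3 Cᶜ ∧ ¬ Complete (Sig 3) (I C) := by
  classical
  let P : ℕ → ℕ → Prop := fun i n => ((2 * i + 1 : ℕ) : ℕ∞) ≤ uz i n
  have hP : RK fun q : ℕ × ℕ => P q.1 q.2 :=
    RK.comp size_uz (g := fun q : ℕ × ℕ => (q, 2 * q.1 + 1)) (by fun_prop)
  let Lst : ℕ → ℕ → Prop := fun i n => P i n ∧ ∀ n' < n, ¬ P i n'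
  have hL : S3 fun q : ℕ × ℕ => Lst q.1 q.2 :=
    hP.s3.and (S3.all_lt (p := fun (q : ℕ × ℕ) n' => ¬ P q.1 n')
      (hP.comp (g := fun x : (ℕ × ℕ) × ℕ => (x.1.1, x.2)) (by fun_prop)).s3_not
      (l := fun q => q.2) (by fun_prop))
  have uniq : ∀ i n n', Lst i n → Lst i n' → n = n' := fun i n n' h h' => by
    rcases lt_trichotomy n n' with l | l | l
    · exact absurd h.1 (h'.2 n l)
    · exact l
    · exact absurd h'.1 (h.2 n' l)
  have ex : ∀ i, (∃ n, P i n) → ∃ n, Lst i n := fun i h =>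
    ⟨Nat.find h, Nat.find_spec h, fun n' => Nat.find_min h⟩
  let B : Set ℕ := {c | ∃ q : ℕ × ℕ, Lst q.1 q.2 ∧ uz q.1 q.2 = c}
  have hlt : ∀ i n (c : ℕ), Lst i n → uz i n = c → 2 * i + 1 ≤ c := fun i n c h e => by
    have := h.1
    simp only [P, e] at this
    exact_mod_cast this
  refine ⟨Bᶜ, fun hf => ?_, sig3_iff.2 ?_, sig3_iff.2 ?_, fun h => ?_⟩
  · obtain ⟨M, hM⟩ := hf.bddAbove
    have : ∀ c, M < c → ∃ q : ℕ × ℕ, Lst q.1 q.2 ∧ uz q.1 q.2 = c := fun c hc => by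
      by_contra hn
      exact absurd (hM (show c ∈ Bᶜ from hn)) (not_le.2 hc)
    choose! φ hφ using this
    have := Finset.card_le_card_of_injOn (s := Finset.Icc (M + 1) (2 * (M + 1)))
      (t := Finset.range (M + 1)) (fun c => (φ c).1) (fun c hc => by
        have hc := Finset.mem_Icc.1 (Finset.mem_coe.1 hc)
        have := hlt _ _ _ (hφ c (by omega)).1 (hφ c (by omega)).2
        simp only [Finset.coe_range, Set.mem_Iio]; omega) (fun c hc d hd e => by
        have hc := hφ c (by have := Finset.mem_Icc.1 (Finset.mem_coe.1 hc); omega)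
        have hd := hφ d (by have := Finset.mem_Icc.1 (Finset.mem_coe.1 hd); omega)
        have e : (φ c).1 = (φ d).1 := e
        have e' := uniq _ _ _ hc.1 (e ▸ hd.1)
        have := hc.2
        rw [e, e', hd.2] at this
        exact_mod_cast this.symm)
    simp only [Nat.card_Icc, Finset.card_range] at this
    omega
  · refine (S3.all_lt (p := fun c i => (¬ ∃ n, P i n) ∨ ∃ n, Lst i n ∧ uz i n ≠ (c : ℕ))
      (S3.or (RK.ex (p := fun (q : ℕ × ℕ) n => P q.2 n)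
        (hP.comp (g := fun x : (ℕ × ℕ) × ℕ => (x.1.2, x.2)) (by fun_prop))).s3_not
        (S3.ex (p := fun (q : ℕ × ℕ) n => Lst q.2 n ∧ uz q.2 n ≠ (q.1 : ℕ))
          ((hL.comp (g := fun x : (ℕ × ℕ) × ℕ => (x.1.2, x.2)) (by fun_prop)).and
          (Size.s3_ne (size_uz.comp (g := fun x : (ℕ × ℕ) × ℕ => (x.1.2, x.2)) (by fun_prop))
            (size_nat (g := fun x : (ℕ × ℕ) × ℕ => x.1.1) (by fun_prop))))))
      (l := fun c => c) (by fun_prop)).of_eq fun c => ?_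
    constructor
    · rintro h ⟨⟨i, n⟩, h1, h2⟩
      rcases h i (by have := hlt _ _ _ h1 h2; omega) with h3 | ⟨n', h3, h4⟩
      · exact h3 ⟨n, h1.1⟩
      · obtain rfl := uniq _ _ _ h1 h3
        exact h4 h2
    · intro h i _
      by_cases h1 : ∃ n, P i n
      · obtain ⟨n, hn⟩ := ex i h1
        exact Or.inr ⟨n, hn, fun e => h ⟨(i, n), hn, e⟩⟩
      · exact Or.inl h1
  · refine (S3.ex (p := fun (c : ℕ) (q : ℕ × ℕ) => Lst q.1 q.2 ∧ uz q.1 q.2 = c)
      ((hL.comp (g := fun x : ℕ × ℕ × ℕ => x.2) (by fun_prop)).and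
        (size_uz.s3_eq.comp (g := fun x : ℕ × ℕ × ℕ => (x.2, x.1)) (by fun_prop)))).of_eq
      fun c => by simp [B]
  · obtain ⟨z, h1, h2, h3⟩ := lm_iff.1 ((sig3_complete_iff _).1 h).2
    obtain ⟨i, hi⟩ := h1.index
    obtain ⟨n, hn⟩ := ex i (by
      obtain ⟨_, ⟨n, rfl⟩, h⟩ := h3.exists_gt (2 * i)
      exact ⟨n, by simp only [P, ← hi]; exact_mod_cast h⟩)
    exact h2 n ⟨(i, n), hn, (hi n).symm⟩

/-! ### finite C -/

theorem Diff.inter {k : ℕ} {X P : Set ℕ} (h : Diff k X) (hP : RK (· ∈ P)) : Diff k (X ∩ P) := by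
  cases k with
  | zero => obtain rfl : X = ∅ := h; exact Set.empty_inter _
  | succ k =>
    obtain ⟨A, B, h1, h2, rfl⟩ := h
    exact ⟨A ∩ P, B, sig2_iff.2 ((sig2_iff.1 h1).and hP), h2, by ext; simp; tauto⟩

theorem Diff.union {k : ℕ} {X N : Set ℕ} (h : Diff (k + 1) X) (hN : REPred (· ∈ N)) :
    Diff (k + 1) (X ∪ N) := by
  obtain ⟨A, B, h1, h2, rfl⟩ := h
  exact ⟨A ∪ N, B ∩ Nᶜ, sig2_iff.2 ((sig2_iff.1 h1).or (rk_re hN)), h2.inter (rk_core hN),
    by ext; simp; tauto⟩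

def Alt (C : Set ℕ) (a : ℕ) : Set ℕ := {n | a ≤ n ∧ ¬ (n ∈ C ↔ n + 1 ∈ C)}

theorem alt_finite (hC : C.Finite) (a : ℕ) : (Alt C a).Finite := by
  obtain ⟨M, hM⟩ := hC.bddAbove
  refine (Set.finite_le_nat M).subset fun n hn => ?_
  by_contra hl
  have hl : M < n := not_le.1 hl
  exact hn.2 ⟨fun h => absurd (hM h) (by omega), fun h => absurd (hM h) (by omega)⟩

theorem alt_const {a b : ℕ} (h : ∀ n ∈ Alt C a, b ≤ n) {n : ℕ} (h1 : a ≤ n) (h2 : n ≤ b) :
    n ∈ C ↔ a ∈ C := by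
  induction n, h1 using Nat.le_induction with
  | base => rfl
  | succ n h1 ih =>
    rw [← ih (by omega)]
    by_contra hn
    have := h n ⟨h1, fun h' => hn h'.symm⟩
    omega

theorem alt_zero (hC : C.Finite) {a : ℕ} (h : (Alt C a).ncard = 0) {n : ℕ} (hn : a ≤ n) :
    n ∉ C := by
  rw [Set.ncard_eq_zero (alt_finite hC a)] at h
  obtain ⟨M, hM⟩ := hC.bddAbove
  have := fun m hm => alt_const (C := C) (a := a) (b := m) (by simp [h]) hm le_rfl
  rw [this n hn, ← this (a + M + 1) (by omega)]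
  exact fun h => absurd (hM h) (by omega)

theorem alt_succ (hC : C.Finite) {a k : ℕ} (h : (Alt C a).ncard = k + 1) :
    ∃ b, a < b ∧ (Alt C b).ncard = k ∧ ¬ (b ∈ C ↔ a ∈ C) ∧ ∀ n, a ≤ n → n < b → (n ∈ C ↔ a ∈ C) := by
  have hne : (Alt C a).Nonempty := Set.nonempty_of_ncard_ne_zero (by omega)
  have h1 := Nat.sInf_mem hne
  have h2 : ∀ n ∈ Alt C a, sInf (Alt C a) ≤ n := fun n => Nat.sInf_le
  refine ⟨sInf (Alt C a) + 1, Nat.lt_succ_of_le h1.1, ?_, ?_, fun n h3 h4 =>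
    alt_const h2 h3 (by omega)⟩
  · have : Alt C a = insert (sInf (Alt C a)) (Alt C (sInf (Alt C a) + 1)) := by
      ext n
      constructor
      · intro hn
        rcases (h2 n hn).eq_or_lt with e | e
        · exact Or.inl e.symm
        · exact Or.inr ⟨e, hn.2⟩
      · rintro (rfl | hn)
        · exact h1
        · exact ⟨by have := h1.1; have := hn.1; omega, hn.2⟩
    rw [this, Set.ncard_insert_of_notMem (fun h => by have := h.1; omega) (alt_finite hC _)] at h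
    omega
  · rw [← alt_const h2 h1.1 le_rfl]
    exact fun h' => h1.2 h'.symm

theorem diff_upper (hC : C.Finite) {z : ℕ → ℕ∞} (hz : Size z) (k : ℕ) : ∀ a,
    (Alt C a).ncard = k → Diff k {e | (a : ℕ∞) ≤ z e ∧ ¬ (InC C (z e) ↔ a ∈ C)} := by
  induction k with
  | zero =>
    intro a h
    refine Set.eq_empty_of_forall_notMem fun e ⟨h1, h2⟩ => h2 ?_
    have := alt_zero hC h le_rfl
    induction hz : z e using ENat.recTopCoe with
    | top => simp [this]
    | coe n =>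
      rw [hz] at h1
      simp [this, alt_zero hC h (by exact_mod_cast h1 : a ≤ n)]
  | succ k ih =>
    intro a h
    obtain ⟨b, h1, h2, h3, h4⟩ := alt_succ hC h
    refine ⟨{e | (b : ℕ∞) ≤ z e}, _, sig2_iff.2 (RK.comp hz (g := fun e => (e, b)) (by fun_prop)),
      ih b h2, Set.ext fun e => ?_⟩
    simp only [Set.mem_ofPred_eq, Set.mem_sdiff]
    induction z e using ENat.recTopCoe with
    | top => simp; tauto
    | coe n =>
      simp only [Nat.cast_le, inC_coe]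
      by_cases hb : b ≤ n
      · have : a ≤ n := by omega
        tauto
      · have := fun h => h4 n h (by omega)
        tauto

theorem diff_hard (hC : C.Finite) (k : ℕ) : ∀ a X, (Alt C a).ncard = k → Diff k X →
    ∃ z : ℕ → ℕ, Size (fun e => (z e : ℕ∞)) ∧ ∀ e, a ≤ z e ∧ (e ∈ X ↔ ¬ (z e ∈ C ↔ a ∈ C)) := by
  classical
  induction k with
  | zero =>
    rintro a X - (rfl : X = ∅)
    exact ⟨fun _ => a, size_nat (by fun_prop), by simp⟩
  | succ k ih =>
    rintro a X h ⟨A, B, h5, h6, rfl⟩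
    obtain ⟨b, h1, h2, h3, h4⟩ := alt_succ hC h
    obtain ⟨z, h7, h8⟩ := ih b B h2 h6
    refine ⟨fun e => if e ∈ A then z e else a, RK.of_eq (RK.or (p := fun q : ℕ × ℕ => q.2 ≤ a)
      (rk_dec (by fun_prop)) (RK.and ((sig2_iff.1 h5).comp (g := fun q : ℕ × ℕ => q.1)
        (by fun_prop)) h7)) fun q => ?_, fun e => ?_⟩
    · have := (h8 q.1).1
      simp only [Nat.cast_le]
      split_ifs with hA
      · simp only [hA, true_and]; omega
      · simp [hA]
    · have := h8 e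
      beta_reduce
      split_ifs with hA
      · refine ⟨by omega, ?_⟩
        simp only [Set.mem_sdiff, hA, true_and]
        tauto
      · simp [hA]

theorem finite_case (hC : C.Finite) (h0 : ¬ C ⊆ {0}) :
    (1 ∉ C → Complete (Diff (alt C)) (I C)) ∧
      (1 ∈ C → Complete (fun X => Diff (alt C) Xᶜ) (I C)) := by
  obtain ⟨k, hk⟩ : ∃ k, alt C = k + 1 := Nat.exists_eq_succ_of_ne_zero fun h => h0 fun c hc => by
    by_contra hn
    exact alt_zero hC (a := 1) h (Nat.one_le_iff_ne_zero.2 hn) hc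
  have hU := diff_upper hC upper.1 (k + 1) 1 hk
  have hN := hU.union (N := {e | (Q e).encard = 0}) upper.2
  have hard' : ∀ X, Diff (alt C) X → ∀ Y : Set ℕ, (∀ e, e ∈ Y ↔ ¬ (e ∈ X ↔ 1 ∈ C)) → Gam C Y := by
    intro X hX Y hY
    obtain ⟨z, h1, h2⟩ := diff_hard hC _ 1 X rfl hX
    refine gam_iff.2 ⟨_, h1, re_of_bool (fun _ => false) (by fun_prop) fun e => ?_, fun e => ?_⟩
    · have := (h2 e).1
      simp; omega
    · have := (h2 e).2
      rw [hY, inC_coe]; tauto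
  have hz : ∀ z : ℕ∞, (((1 : ℕ) : ℕ∞) ≤ z ↔ z ≠ 0) ∧ (z = 0 → (InC C z ↔ 0 ∈ C)) := fun z =>
    ⟨by simpa using ENat.one_le_iff_ne_zero, by rintro rfl; exact inC_coe (n := 0)⟩
  constructor
  · intro h1
    refine complete_of ?_ fun X hX => hard' X hX X fun e => by tauto
    rw [hk]
    by_cases h2 : 0 ∈ C
    · refine (Set.ext fun e => ?_ : _ = I C) ▸ hN
      have := hz (Q e).encard
      simp only [mem_I, Set.mem_union, Set.mem_ofPred_eq]; tauto
    · refine (Set.ext fun e => ?_ : _ = I C) ▸ hU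
      have := hz (Q e).encard
      simp only [mem_I, Set.mem_ofPred_eq]; tauto
  · intro h1
    refine complete_of ?_ fun X hX => hard' Xᶜ hX X fun e => by simp [h1]
    rw [hk]
    by_cases h2 : 0 ∈ C
    · refine (Set.ext fun e => ?_ : _ = (I C)ᶜ) ▸ hU
      have := hz (Q e).encard
      simp only [mem_I, Set.mem_compl_iff, Set.mem_ofPred_eq]; tauto
    · refine (Set.ext fun e => ?_ : _ = (I C)ᶜ) ▸ hN
      have := hz (Q e).encard
      simp only [mem_I, Set.mem_compl_iff, Set.mem_union, Set.mem_ofPred_eq]; tauto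

theorem zero_case : Complete (Sig 1) (I {0}) := by
  classical
  have : ∀ z : ℕ∞, InC {0} z ↔ z = 0 := fun z => by simp [InC]
  refine complete_of (sig1_iff.2 (upper.2.of_eq fun e => by rw [mem_I, this])) fun X hX => ?_
  have h := sig1_iff.1 hX
  refine gam_iff.2 ⟨fun e => if e ∈ X then 0 else 1, RK.of_eq (RK.or
    (p := fun q : ℕ × ℕ => q.2 = 0) (rk_dec (by fun_prop)) (RK.and ((rk_core h).comp
      (g := fun q : ℕ × ℕ => q.1) (by fun_prop)) (p := fun q : ℕ × ℕ => q.1 ∉ X)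
      (q := fun q : ℕ × ℕ => q.2 ≤ 1) (rk_dec (by fun_prop)))) fun q => ?_,
    h.of_eq fun e => by simp, fun e => by simp [this]⟩
  beta_reduce
  split_ifs with hX
  · simp [hX]
  · simp only [hX, not_false_eq_true, true_and, Nat.cast_le_one]; omega

theorem empty_case : I ∅ = ∅ := by simp [I]

end Pool.Agent.H62.Ic
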