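import Pool.Agent.H62.IcDefs

/-!
Index sets for differences of two effectively closed classes: size properties.
-/

set_option autoImplicit false

namespace Pool.Agent.H62.Ic

open MeasureTheory Classical

/-- Q_b \ Q_a for n = ⟨a, b⟩ -/
def Dif (n : ℕ) : Set (ℕ → Bool) := Q n.unpair.2 \ Q n.unpair.1

/-- the index set D(R) -/
def DS (R : Set (ℕ → Bool) → Prop) : Set ℕ := {n | R (Dif n)}

/-- Π^0_n sets -/
def PiS (n : ℕ) (X : Set ℕ) : Prop := Sig n Xᶜ

/-- Σ^1_1 sets (Kleene normal form) -/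
def Sig11 (X : Set ℕ) : Prop :=
  ∃ R : ℕ × List ℕ → Prop, ComputablePred R ∧
    ∀ e, e ∈ X ↔ ∃ f : ℕ → ℕ, ∀ n, R (e, (List.range n).map f)

/-- Π^1_1 sets -/
def Pi11 (X : Set ℕ) : Prop := Sig11 Xᶜ

/-- the uniform product measure on 2^ω -/
noncomputable def mu : Measure (ℕ → Bool) :=
  Measure.infinitePi fun _ : ℕ => (PMF.uniformOfFintype Bool).toMeasure

/-- the real with digit set A -/
noncomputable def val (A : Set ℕ) : ℝ := ∑' i, if i ∈ A then (1 / 2 : ℝ) ^ (i + 1) else 0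

/-- nonnegative right-c.e. reals: the dyadic rationals above y form a c.e. set -/
def RightCE (y : ℝ) : Prop := 0 ≤ y ∧ REPred fun q : ℕ × ℕ => y < q.1 / 2 ^ q.2

/-- differences of right-c.e. reals (d.c.e. reals) -/
def DCE (r : ℝ) : Prop := ∃ y z, RightCE y ∧ RightCE z ∧ r = y - z

/-- characteristic function -/
noncomputable def chi (X : Set ℕ) : ℕ →. ℕ := fun n => Part.some (if n ∈ X then 1 else 0)

/-- the join of A with the halting set -/
def joinK (A : Set ℕ) : Set ℕ :=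
  {n | (n % 2 = 0 ∧ n / 2 ∈ A) ∨
    (n % 2 = 1 ∧ ((Denumerable.ofNat Nat.Partrec.Code (n / 2)).eval (n / 2)).Dom)}

end Pool.Agent.H62.Ic
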