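import Pool.Agent.H62.Ic3
import Pool.Agent.H62.IdDefs

/-!
Cardinality properties of differences of two classes.
-/

set_option autoImplicit false

namespace Pool.Agent.H62.Ic

open Pool.Agent.H37 Encodable Nat.Partrec Filter Cardinal

variable {α : Type} [Primcodable α]

theorem tree_comp : ∃ T : ℕ → List Bool → Bool, CI ∅ (fun q : ℕ × List Bool => T q.1 q.2) ∧
    ∀ e x, x ∈ Q e ↔ ∀ j, T e (pre x j) = true := by
  obtain ⟨b, hb, H⟩ := pi_comp
  exact ⟨fun e σ => b e (σ.map Bool.toNat),
    hb.comp (g := fun q : ℕ × List Bool => (q.1, q.2.map Bool.toNat)) (by fun_prop),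
    fun e x => by simp only [mem_Q, pre_map, H]⟩

theorem exists_tree' {ok : ℕ → List Bool → Bool} (h : CI ∅ fun q : ℕ × List Bool => ok q.1 q.2) :
    ∃ f, Computable f ∧ ∀ e x, x ∈ Q (f e) ↔ ∀ j, ok e (pre x j) = true := by
  obtain ⟨f, hf, H⟩ := exists_tree (ok := fun e σ => ok e (σ.map fun v => v == 1))
    (h.comp (g := fun q : ℕ × List ℕ => (q.1, q.2.map fun v => v == 1)) (by fun_prop))
  refine ⟨f, hf, fun e x => (H e x).trans (forall_congr' fun j => ?_)⟩
  have : (pre (fun i => (x i).toNat) j).map (fun v => v == 1) = pre x j := by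
    simp only [pre, List.map_map]
    exact List.map_congr_left fun i _ => by cases h : x i <;> simp [h]
  rw [this]

theorem re_ext {T : α → List Bool → Bool} (hT : CI ∅ fun q : α × List Bool => T q.1 q.2) :
    REPred fun a : α × List Bool => ¬ ∃ x, (∀ j, T a.1 (pre x j) = true) ∧
      pre x a.2.length = a.2 := by
  refine (re_empty (T := fun (a : α × List Bool) ρ =>
      T a.1 ρ && (ρ.length != a.2.length || ρ == a.2))
      (CI.and (hT.comp (g := fun q : (α × List Bool) × List Bool => (q.1.1, q.2)) (by fun_prop))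
        (by fun_prop))).of_eq fun a => not_congr (exists_congr fun x => ?_)
  simp only [Bool.and_eq_true, Bool.or_eq_true, bne_iff_ne, beq_iff_eq, length_pre,
    forall_and]
  refine and_congr_right fun _ => ⟨fun h => by simpa using h a.2.length, fun h j => ?_⟩
  by_cases e : j = a.2.length
  · exact Or.inr (e ▸ h)
  · exact Or.inl e

theorem size_class {S : α → Set (ℕ → Bool)}
    (h2 : RK fun a : α × List Bool => ∃ x ∈ S a.1, pre x a.2.length = a.2) :
    Size fun e => (S e).encard := by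
  have h3 : RK fun q : ((α × ℕ) × List (List Bool) × ℕ) × ℕ =>
      (∃ x ∈ S q.1.1.1, pre x (q.1.2.1.getD q.2 []).length = q.1.2.1.getD q.2 []) ∧
      ((q.1.2.1.getD q.2 []).length = q.1.2.2 ∧
        ∀ j < q.2, q.1.2.1.getD q.2 [] ≠ q.1.2.1.getD j []) :=
    RK.and (h2.comp (g := fun q : ((α × ℕ) × List (List Bool) × ℕ) × ℕ =>
      (q.1.1.1, q.1.2.1.getD q.2 [])) (by fun_prop))
      (rk_bool (fun q => (q.1.2.1.getD q.2 []).length == q.1.2.2 && (List.range q.2).all
        fun j => q.1.2.1.getD q.2 [] != q.1.2.1.getD j []) (by fun_prop) (by simp))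
  have h4 := RK.ex (p := fun (q : α × ℕ) (L : List (List Bool) × ℕ) => ∀ i < q.2,
      (∃ x ∈ S q.1, pre x (L.1.getD i []).length = L.1.getD i []) ∧
      ((L.1.getD i []).length = L.2 ∧ ∀ j < i, L.1.getD i [] ≠ L.1.getD j []))
    (RK.all_lt (p := fun (q : (α × ℕ) × List (List Bool) × ℕ) i =>
      (∃ x ∈ S q.1.1, pre x (q.2.1.getD i []).length = q.2.1.getD i []) ∧
      ((q.2.1.getD i []).length = q.2.2 ∧ ∀ j < i, q.2.1.getD i [] ≠ q.2.1.getD j [])) h3
      (l := fun q => q.1.2) (by fun_prop))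
  refine h4.of_eq fun q => ?_
  rw [le_encard_iff]
  constructor
  · rintro ⟨⟨L, n⟩, hL⟩
    choose! x hx using fun i hi => (hL i hi).1
    refine ⟨x, fun i hi => ⟨(hx i hi).1, fun j hj e => (hL i hi).2.2 j hj ?_⟩⟩
    have e1 := (hx i hi).2
    have e2 := (hx j (hj.trans hi)).2
    rw [(hL i hi).2.1] at e1
    rw [(hL j (hj.trans hi)).2.1] at e2
    rw [← e1, ← e2, e]
  · rintro ⟨x, hx⟩
    have : ∀ᶠ n in atTop, ∀ i < q.2, ∀ j < i, pre (x i) n ≠ pre (x j) n := by
      refine (eventually_all_finite (Set.finite_lt_nat _)).2 fun i hi => ?_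
      refine (eventually_all_finite (Set.finite_lt_nat _)).2 fun j hj => ?_
      obtain ⟨m, hm⟩ := Function.ne_iff.1 ((hx i hi).2 j hj)
      filter_upwards [eventually_gt_atTop m] with n hn e using hm (pre_eq_iff.1 e m hn)
    obtain ⟨n, hn⟩ := this.exists
    refine ⟨(pre (fun i => pre (x i) n) q.2, n), fun i hi => ?_⟩
    simp only [getD_pre _ hi, length_pre]
    refine ⟨⟨x i, (hx i hi).1, rfl⟩, trivial, fun j hj => ?_⟩
    rw [getD_pre _ (hj.trans hi)]
    exact hn i hi j hj

theorem size_Dif : Size fun n => (Dif n).encard := by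
  obtain ⟨T, hT, H⟩ := tree_comp
  refine size_class ?_
  have h1 := (rk_core (re_ext hT)).comp
    (g := fun q : (ℕ × List Bool) × List Bool × ℕ => (q.1.1.unpair.2, q.2.1)) (by fun_prop)
  have h2 : RK fun q : (ℕ × List Bool) × List Bool × ℕ =>
      q.2.1.take q.1.2.length = q.1.2 ∧ q.1.2.length ≤ q.2.1.length ∧ q.2.2 ≤ q.2.1.length ∧
        T q.1.1.unpair.1 (q.2.1.take q.2.2) = false :=
    rk_bool (fun q => q.2.1.take q.1.2.length == q.1.2 && (decide (q.1.2.length ≤ q.2.1.length) &&
      (decide (q.2.2 ≤ q.2.1.length) && !T q.1.1.unpair.1 (q.2.1.take q.2.2))))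
      (CI.and (by fun_prop) (CI.and (by fun_prop) (CI.and (by fun_prop) (CI.not
        ((hT.comp (g := fun q : (ℕ × List Bool) × List Bool × ℕ =>
          (q.1.1.unpair.1, q.2.1.take q.2.2)) (by fun_prop)).of_empty))))) (by simp)
  refine (RK.ex (p := fun (a : ℕ × List Bool) (r : List Bool × ℕ) =>
    (¬¬∃ x, (∀ j, T a.1.unpair.2 (pre x j) = true) ∧ pre x r.1.length = r.1) ∧
      (r.1.take a.2.length = a.2 ∧ a.2.length ≤ r.1.length ∧ r.2 ≤ r.1.length ∧
        T a.1.unpair.1 (r.1.take r.2) = false)) (h1.and h2)).of_eq fun a => ?_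
  simp only [not_not, Dif, Set.mem_sdiff, H]
  constructor
  · rintro ⟨⟨ρ, j⟩, ⟨x, h3, h4⟩, h5, h6, h7, h8⟩
    refine ⟨x, ⟨h3, fun h => ?_⟩, ?_⟩
    · simp only at h4 h7 h8
      rw [← h4, take_pre _ h7, h] at h8; cases h8
    · simp only at h4 h5 h6
      rw [← h4, take_pre _ h6] at h5; exact h5
  · rintro ⟨x, ⟨h3, h4⟩, h5⟩
    simp only [not_forall, Bool.not_eq_true] at h4
    obtain ⟨j, hj⟩ := h4
    refine ⟨(pre x (max j a.2.length), j), ⟨x, h3, by simp⟩, ?_, by simp, by simp, ?_⟩
    · simp only [take_pre _ (le_max_right _ _), h5]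
    · simp only [take_pre _ (le_max_left _ _), hj]

theorem hard_Dif {z : ℕ → ℕ∞} (h : Size z) :
    ∃ f, Computable f ∧ ∀ e, (Dif (f e)).encard = z e := by
  obtain ⟨W, hW, HW⟩ := exists_pi1 (V := fun e k => ((k + 1 : ℕ) : ℕ∞) ≤ z e)
    (RK.comp h (g := fun q : ℕ × ℕ => (q.1, q.2 + 1)) (by fun_prop))
  obtain ⟨f, hf, Hf⟩ := exists_tree' (ok := fun e σ =>
      (List.range σ.length).all fun j => !σ.getD j false ||
        (((List.range σ.length).all fun m => W e j m) &&
          (List.range σ.length).all fun i => !σ.getD i false || i == j))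
      (CI.all (by fun_prop) (CI.or (by fun_prop) (CI.and (CI.all (by fun_prop) (hW.comp
        (g := fun q : ((ℕ × List Bool) × ℕ) × ℕ => (q.1.1.1, q.1.2, q.2)) (by fun_prop)))
        (by fun_prop))))
  obtain ⟨g, hg, Hg⟩ := exists_tree' (ok := fun _ σ => σ.all fun v => !v) (by fun_prop)
  have key : ∀ e x, x ∈ Q (f e) ↔ ∀ j, x j = true →
      (∀ m, W e j m = true) ∧ ∀ i, x i = true → i = j := by
    intro e x
    simp only [Hf, length_pre, Bool.and_eq_true, Bool.not_eq_true', List.all_eq_true,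
      List.mem_range, Bool.or_eq_true, beq_iff_eq]
    refine ⟨fun h j hj => ⟨fun m => ?_, fun i hi => ?_⟩, fun h n j hj => ?_⟩
    · rcases h (max j m + 1) j (by omega) with h | h
      · rw [getD_pre _ (by omega), hj] at h; cases h
      · exact h.1 m (by omega)
    · rcases h (max j i + 1) j (by omega) with h | h
      · rw [getD_pre _ (by omega), hj] at h; cases h
      · rcases h.2 i (by omega) with h | h
        · rw [getD_pre _ (by omega), hi] at h; cases h
        · exact h
    · rw [getD_pre _ hj]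
      cases e1 : x j
      · exact Or.inl rfl
      refine Or.inr ⟨fun m _ => (h j e1).1 m, fun i hi => ?_⟩
      rw [getD_pre _ hi]
      cases e2 : x i
      · exact Or.inl rfl
      · exact Or.inr ((h j e1).2 i e2)
  have key2 : ∀ x, x ∈ Q (g 0) ↔ ∀ j, x j = false := by
    intro x
    simp only [Hg, pre, List.all_eq_true, List.mem_map, List.mem_range, Bool.not_eq_true']
    exact ⟨fun h j => h (j + 1) _ ⟨j, by omega, rfl⟩, by rintro h n _ ⟨j, -, rfl⟩; exact h j⟩
  have hf' := CI.of_comp (O := ∅) hf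
  refine ⟨fun e => Nat.pair (g 0) (f e), CI.computable (by fun_prop), fun e => ?_⟩
  have e1 : Dif (Nat.pair (g 0) (f e)) =
      (fun j i => decide (i = j)) '' {j | ∀ m, W e j m = true} := by
    ext x
    simp only [Dif, Nat.unpair_pair, Set.mem_sdiff, key, key2, Set.mem_image, Set.mem_ofPred_eq,
      not_forall, Bool.not_eq_false]
    constructor
    · rintro ⟨h, j, hj⟩
      refine ⟨j, (h j hj).1, funext fun i => ?_⟩
      cases e2 : x i
      · simp only [decide_eq_false_iff_not]
        rintro rfl; rw [hj] at e2; cases e2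
      · simpa using (h j hj).2 i e2
    · rintro ⟨j, hj, rfl⟩
      refine ⟨fun i hi => ?_, j, by simp⟩
      obtain rfl : i = j := by simpa using hi
      exact ⟨hj, by simp⟩
  rw [e1, Set.InjOn.encard_image, HW, encard_lt]
  intro j _ j' _ e2
  simpa using congrFun e2 j

theorem Complete.compl {Γ : Set ℕ → Prop} {X : Set ℕ} (h : Complete Γ X) :
    Complete (fun Y => Γ Yᶜ) Xᶜ :=
  ⟨by simpa using h.1, fun Y hY => by
    obtain ⟨f, hf, H⟩ := h.2 _ hY
    exact ⟨f, hf, fun e => by simpa using not_congr (H e)⟩⟩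

theorem Complete.congr {Γ : Set ℕ → Prop} {X Y : Set ℕ} (h : Complete Γ X)
    (e : ∀ n, n ∈ X ↔ n ∈ Y) : Complete Γ Y := (Set.ext e : X = Y) ▸ h

theorem comp_of_size {Γ : Set ℕ → Prop} {P : ℕ∞ → Prop} (h1 : Γ {n | P (Dif n).encard})
    (h2 : ∀ Y, Γ Y → ∃ z, Size z ∧ ∀ e, e ∈ Y ↔ P (z e)) : Complete Γ {n | P (Dif n).encard} :=
  ⟨h1, fun Y hY => by
    obtain ⟨z, hz, H⟩ := h2 Y hY
    obtain ⟨f, hf, H'⟩ := hard_Dif hz
    exact ⟨f, hf, fun e => by simp only [H, Set.mem_ofPred_eq, H']⟩⟩

theorem ge_complete (c : ℕ) : Complete (Sig 2) {n | ((c + 1 : ℕ) : ℕ∞) ≤ (Dif n).encard} := by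
  classical
  refine comp_of_size (P := fun z => ((c + 1 : ℕ) : ℕ∞) ≤ z)
    (sig2_iff.2 (RK.comp size_Dif (g := fun n => (n, c + 1)) (by fun_prop))) fun Y hY =>
    ⟨fun e => if e ∈ Y then ⊤ else 0, RK.of_eq (RK.or (p := fun q : ℕ × ℕ => q.2 = 0)
      (rk_dec (by fun_prop)) ((sig2_iff.1 hY).comp (g := fun q : ℕ × ℕ => q.1) (by fun_prop)))
      fun q => by by_cases h : q.1 ∈ Y <;> simp [h], fun e => by by_cases h : e ∈ Y <;> simp [h]⟩

theorem eq_complete (c : ℕ) : Complete (Diff 2) {n | (Dif n).encard = ((c + 1 : ℕ) : ℕ∞)} := by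
  classical
  refine comp_of_size (P := fun z => z = ((c + 1 : ℕ) : ℕ∞)) ⟨_, _, (ge_complete c).1,
    ⟨_, ∅, (ge_complete (c + 1)).1, rfl, rfl⟩, Set.ext fun n => by
      simp only [Set.mem_ofPred_eq, Set.mem_sdiff, Set.mem_empty_iff_false, not_false_eq_true,
        and_true]
      exact eq_coe_iff⟩ ?_
  rintro _ ⟨A, _, hA, ⟨B, _, hB, rfl, rfl⟩, rfl⟩
  have hA' := (sig2_iff.1 hA).comp (g := fun q : ℕ × ℕ => q.1) (by fun_prop)
  have hB' := (sig2_iff.1 hB).comp (g := fun q : ℕ × ℕ => q.1) (by fun_prop)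
  refine ⟨fun e => if e ∈ A then if e ∈ B then ⊤ else ((c + 1 : ℕ) : ℕ∞) else 0,
    RK.of_eq (RK.or (p := fun q : ℕ × ℕ => q.2 = 0) (rk_dec (by fun_prop)) (hA'.and
      (RK.or hB' (q := fun q : ℕ × ℕ => q.2 ≤ c + 1) (rk_dec (by fun_prop))))) fun q => ?_,
    fun e => ?_⟩
  · beta_reduce
    split_ifs with h1 h2
    · simp [h1, h2]
    · simp only [h1, h2, true_and, false_or, Nat.cast_le]; omega
    · simp [h1]
  · beta_reduce
    split_ifs with h1 h2
    · simp only [Set.mem_sdiff, Set.mem_empty_iff_false, h2, not_false_eq_true, and_self,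
        not_true, and_false, false_iff]
      exact (ENat.coe_ne_top _).symm
    · simp [h1, h2]
    · simp only [Set.mem_sdiff, h1, false_and, false_iff]
      exact_mod_cast (Nat.succ_ne_zero c).symm

theorem fin_complete : Complete (Sig 3) {n | (Dif n).encard ≠ ⊤} := by
  have : ∀ z : ℕ∞, InC Set.univ z ↔ z ≠ ⊤ := fun z => by
    induction z using ENat.recTopCoe <;> simp
  refine comp_of_size (P := fun z => z ≠ ⊤) (sig3_iff.2 ((S3.ex
    (p := fun n (c : ℕ) => (Dif n).encard = c) size_Dif.s3_eq).of_eq fun n => ?_)) fun Y hY => ?_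
  · rw [Set.mem_ofPred_eq, ← this]; simp [InC]
  · obtain ⟨z, h1, -, h2⟩ := gam_iff.1 (hard_of_lm (C := Set.univ) (lm_sig2 Set.infinite_univ
      (sig2_iff.2 (rk_bool (fun _ => true) (by fun_prop) (by simp)))) hY)
    exact ⟨z, h1, fun e => (h2 e).trans (this _)⟩

/-! ### Σ^1_1 -/

theorem s11_of {X : Set ℕ} (S : ℕ → ℕ → List ℕ → Bool)
    (hS : CI ∅ fun q : ℕ × ℕ × List ℕ => S q.1 q.2.1 q.2.2)
    (h : ∀ e, e ∈ X ↔ ∃ f : ℕ → ℕ, ∀ c, S e c (pre f (c + 2)) = true) : Sig11 X := by
  refine ⟨fun q => ∀ c < q.2.length - 1, S q.1 c (q.2.take (c + 2)) = true, computablePred_of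
    (fun q => (List.range (q.2.length - 1)).all fun c => S q.1 c (q.2.take (c + 2)))
    (CI.all (by fun_prop) (hS.comp
      (g := fun q : (ℕ × List ℕ) × ℕ => (q.1.1, q.2, q.1.2.take (q.2 + 2))) (by fun_prop)))
    (by simp), fun e => (h e).trans (exists_congr fun f => ?_)⟩
  change _ ↔ ∀ n, ∀ c < (pre f n).length - 1, S e c ((pre f n).take (c + 2)) = true
  simp only [length_pre]
  exact ⟨fun H n c hc => by rw [take_pre _ (by omega)]; exact H c,
    fun H c => by simpa [take_pre f le_rfl] using H (c + 2) c (by omega)⟩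

theorem Sig11.norm {X : Set ℕ} (h : Sig11 X) : ∃ R : ℕ → List ℕ → Bool,
    CI ∅ (fun q : ℕ × List ℕ => R q.1 q.2) ∧ ∀ e, e ∈ X ↔ ∃ f, ∀ n, R e (pre f n) = true := by
  obtain ⟨R, hR, H⟩ := h
  obtain ⟨b, hb, H'⟩ := computablePred_iff.1 hR
  exact ⟨fun e σ => b (e, σ), hb, fun e => by simp only [H, H']; rfl⟩

theorem Sig11.union {X Y : Set ℕ} (hX : Sig11 X) (hY : Sig11 Y) : Sig11 (X ∪ Y) := by
  obtain ⟨R, hR, H⟩ := hX.norm
  obtain ⟨R', hR', H'⟩ := hY.norm
  have key : ∀ (f : ℕ → ℕ) c, (pre f (c + 2)).tail.take c = pre (fun i => f (i + 1)) c := by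
    intro f c
    apply List.ext_getElem <;> simp [pre]
  refine s11_of (fun e c σ => cond (σ.getD 0 0 == 0) (R e (σ.tail.take c)) (R' e (σ.tail.take c)))
    (CI.cond (by fun_prop)
      (hR.comp (g := fun q : ℕ × ℕ × List ℕ => (q.1, q.2.2.tail.take q.2.1)) (by fun_prop))
      (hR'.comp (g := fun q : ℕ × ℕ × List ℕ => (q.1, q.2.2.tail.take q.2.1)) (by fun_prop)))
    fun e => ?_
  simp only [Set.mem_union, H, H', key, getD_pre _ (Nat.succ_pos _)]
  constructor
  · rintro (⟨f, hf⟩ | ⟨f, hf⟩)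
    · exact ⟨fun i => Nat.casesOn i 0 f, by simpa using hf⟩
    · exact ⟨fun i => Nat.casesOn i 1 f, by simpa using hf⟩
  · rintro ⟨f, hf⟩
    cases e : f 0 == 0
    · exact Or.inr ⟨_, by simpa [e] using hf⟩
    · exact Or.inl ⟨_, by simpa [e] using hf⟩

theorem Sig.s11 {X : Set ℕ} (h : Sig 3 X) : Sig11 X := by
  obtain ⟨q, hq, H⟩ := sig3_iff.1 h
  obtain ⟨R, hR, H'⟩ := hq.normal
  refine s11_of (fun e c σ => !R (e, σ.getD 0 0) c (σ.getD (c + 1) 0)) (CI.not (hR.comp
    (g := fun q : ℕ × ℕ × List ℕ => ((q.1, q.2.2.getD 0 0), q.2.1, q.2.2.getD (q.2.1 + 1) 0))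
    (by fun_prop))) fun e => (H e).trans ?_
  simp only [getD_pre _ (Nat.succ_pos _), getD_pre _ (Nat.lt_succ_self _), Bool.not_eq_true']
  constructor
  · rintro ⟨n, hn⟩
    have := (H' (e, n)).not.1 hn
    simp only [not_exists, not_forall, Bool.not_eq_true] at this
    choose g hg using this
    exact ⟨fun i => Nat.casesOn i n g, hg⟩
  · rintro ⟨f, hf⟩
    refine ⟨f 0, (H' (e, f 0)).not.2 ?_⟩
    rintro ⟨n, hn⟩
    have := hn (f (n + 1))
    rw [hf] at this; cases this

def Cyl (S : Set (ℕ → Bool)) (σ : List Bool) : Set (ℕ → Bool) := {x ∈ S | pre x σ.length = σ}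

theorem split {S : Set (ℕ → Bool)} {σ : List Bool} (h : ¬ (Cyl S σ).Countable) :
    ∃ τ, σ <+: τ ∧ ∀ b, ¬ (Cyl S (τ ++ [b])).Countable := by
  by_contra hn
  push Not at hn
  have c1 : (⋃ τ ∈ {τ : List Bool | (Cyl S τ).Countable}, Cyl S τ).Countable :=
    Set.Countable.biUnion (Set.to_countable _) fun _ h => h
  have c2 : {x : ℕ → Bool | pre x σ.length = σ ∧
      ∀ n, ¬ (Cyl S (pre x n)).Countable}.Subsingleton := by
    intro x hx y hy
    have : ∀ n, pre x n = pre y n := by
      intro n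
      induction n with
      | zero => rfl
      | succ n ih =>
        by_cases hl : n + 1 ≤ σ.length
        · rw [← take_pre x hl, ← take_pre y hl, hx.1, hy.1]
        have h0 : σ <+: pre x n := by
          have := pre_pf x (show σ.length ≤ n by omega)
          rwa [hx.1] at this
        obtain ⟨b, hb⟩ := hn (pre x n) h0
        have h1 := hx.2 (n + 1)
        have h2 := hy.2 (n + 1)
        rw [pre_succ] at h1 h2
        rw [pre_succ, pre_succ, ← ih]
        rw [← ih] at h2
        have e1 : x n ≠ b := fun e => h1 (by rw [e]; exact hb)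
        have e2 : y n ≠ b := fun e => h2 (by rw [e]; exact hb)
        have e3 : x n = y n := by revert e1 e2; cases x n <;> cases y n <;> cases b <;> simp
        rw [e3]
    exact funext fun i => pre_eq_iff.1 (this (i + 1)) i (by omega)
  refine h ((c1.union c2.countable).mono fun x hx => ?_)
  by_cases h1 : ∀ n, ¬ (Cyl S (pre x n)).Countable
  · exact Or.inr ⟨hx.2, h1⟩
  · push Not at h1
    obtain ⟨n, hn⟩ := h1
    refine Or.inl (Set.mem_iUnion₂.2 ⟨pre x n, hn, hx.1, ?_⟩)
    rw [length_pre]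

def PTree (T : ℕ → List Bool → Bool) (n : ℕ) (F : ℕ → List Bool) : Prop :=
  (∃ j ≤ (F 0).length, T n.unpair.1 ((F 0).take j) = false) ∧ ∀ k,
    (∀ j ≤ (F k).length, T n.unpair.2 ((F k).take j) = true) ∧ F (k / 2) ++ [k.bodd] <+: F (k + 1)

section
variable {T : ℕ → List Bool → Bool} (H : ∀ e x, x ∈ Q e ↔ ∀ j, T e (pre x j) = true)
include H

theorem ptree_of {n : ℕ} (h : ¬ (Dif n).Countable) : ∃ F, PTree T n F := by
  obtain ⟨σ, h1, h2⟩ : ∃ σ, T n.unpair.1 σ = false ∧ ¬ (Cyl (Q n.unpair.2) σ).Countable := by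
    by_contra hn
    push Not at hn
    refine h (Set.Countable.mono (s₂ := ⋃ τ ∈ {τ | T n.unpair.1 τ = false}, Cyl (Q n.unpair.2) τ)
      (fun x hx => ?_) ((Set.to_countable _).biUnion hn))
    have := (H _ _).not.1 hx.2
    simp only [not_forall, Bool.not_eq_true] at this
    obtain ⟨j, hj⟩ := this
    exact Set.mem_biUnion hj ⟨hx.1, by simp⟩
  choose! sp hsp using fun σ => split (S := Q n.unpair.2) (σ := σ)
  let F : ℕ → List Bool := fun k => Nat.strongRecOn k fun k ih =>
    match k, ih with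
    | 0, _ => sp σ
    | k + 1, ih => sp (ih (k / 2) (by omega) ++ [k.bodd])
  have F0 : F 0 = sp σ := by simp only [F]; rw [Nat.strongRecOn_eq]
  have FS : ∀ k, F (k + 1) = sp (F (k / 2) ++ [k.bodd]) := fun k => by
    simp only [F]; rw [Nat.strongRecOn_eq]
  have hF : ∀ k b, ¬ (Cyl (Q n.unpair.2) (F k ++ [b])).Countable := by
    intro k
    induction k using Nat.strong_induction_on with
    | _ k ih =>
      cases k with
      | zero => rw [F0]; exact (hsp _ h2).2
      | succ k => rw [FS]; exact (hsp _ (ih _ (by omega) _)).2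
  refine ⟨F, ⟨σ.length, by rw [F0]; exact (hsp _ h2).1.length_le, ?_⟩, fun k => ⟨fun j hj => ?_,
    by rw [FS]; exact (hsp _ (hF _ _)).1⟩⟩
  · rw [F0, ← List.prefix_iff_eq_take.1 (hsp _ h2).1]; exact h1
  · obtain ⟨x, h3, h4⟩ : (Cyl (Q n.unpair.2) (F k ++ [false])).Nonempty := by
      by_contra hn
      exact hF k false (Set.not_nonempty_iff_eq_empty.1 hn ▸ Set.countable_empty)
    have h5 := pf_pre (x := x) (σ := F k) (h4 ▸ List.prefix_append (F k) [false])
    rw [h5, take_pre _ hj]
    exact (H _ _).1 h3 j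

theorem inj_of_ptree {n : ℕ} {F : ℕ → List Bool} (h : PTree T n F) :
    ∃ φ : (ℕ → Bool) → ℕ → Bool, Function.Injective φ ∧ ∀ y, φ y ∈ Dif n := by
  let κ : (ℕ → Bool) → ℕ → ℕ := fun y m => Nat.rec 0 (fun m k => 2 * k + (y m).toNat + 1) m
  have h1 : ∀ y m, F (κ y m) ++ [y m] <+: F (κ y (m + 1)) := fun y m => by
    have := (h.2 (2 * κ y m + (y m).toNat)).2
    rwa [show (2 * κ y m + (y m).toNat) / 2 = κ y m by cases y m <;> simp <;> omega,
      show (2 * κ y m + (y m).toNat).bodd = y m by cases y m <;> simp] at this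
  have h2 : ∀ y m m', m ≤ m' → F (κ y m) <+: F (κ y m') := fun y m m' hm => by
    induction m', hm using Nat.le_induction with
    | base => exact List.prefix_rfl
    | succ m' _ ih => exact ih.trans ((List.prefix_append _ _).trans (h1 y m'))
  have h3 : ∀ y m, m ≤ (F (κ y m)).length := fun y m => by
    induction m with
    | zero => omega
    | succ m ih => have := (h1 y m).length_le; simp at this; omega
  let φ : (ℕ → Bool) → ℕ → Bool := fun y i => (F (κ y (i + 1))).getD i false
  have h4 : ∀ y m, pre (φ y) (F (κ y m)).length = F (κ y m) := fun y m => by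
    refine List.ext_getElem (by simp) fun i a b => ?_
    have c := h3 y (i + 1)
    simp only [pre, List.getElem_map, List.getElem_range, φ]
    rw [List.getD_eq_getElem _ _ c, (h2 y _ _ (le_max_left (i + 1) m)).getElem c,
      (h2 y _ _ (le_max_right (i + 1) m)).getElem b]
  refine ⟨φ, fun y y' e => ?_, fun y => ⟨(H _ _).2 fun j => ?_, fun hq => ?_⟩⟩
  · have : ∀ m, κ y m = κ y' m ∧ y m = y' m := by
      have aux : ∀ m, κ y m = κ y' m → y m = y' m := fun m hm => by
        have a := pf_pre (x := φ y) ((h4 y (m + 1)) ▸ h1 y m)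
        have b := pf_pre (x := φ y') ((h4 y' (m + 1)) ▸ h1 y' m)
        rw [← hm, ← e] at b
        simp only [List.length_append, List.length_singleton] at a b
        simpa using a.trans b.symm
      intro m
      induction m with
      | zero => exact ⟨rfl, aux 0 rfl⟩
      | succ m ih =>
        have : κ y (m + 1) = κ y' (m + 1) := by
          change 2 * κ y m + (y m).toNat + 1 = 2 * κ y' m + (y' m).toNat + 1
          rw [ih.1, ih.2]
        exact ⟨this, aux _ this⟩
    exact funext fun m => (this m).2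
  · have := (h.2 (κ y j)).1 j (h3 y j)
    rwa [← h4, take_pre _ (h3 y j)] at this
  · obtain ⟨j, h5, h6⟩ := h.1
    have := h4 y 0
    change pre _ (F 0).length = F 0 at this
    rw [← this, take_pre _ h5, (H _ _).1 hq] at h6
    cases h6
end

theorem mk_cantor : #(ℕ → Bool) = 𝔠 := by simp

theorem mk_of_inj {S : Set (ℕ → Bool)} {φ : (ℕ → Bool) → ℕ → Bool} (h : Function.Injective φ)
    (h' : ∀ y, φ y ∈ S) : #S = 𝔠 :=
  le_antisymm (mk_cantor ▸ mk_set_le S) (mk_cantor ▸ mk_le_of_injective
    (f := fun y => (⟨φ y, h' y⟩ : S)) fun _ _ e => h (congrArg Subtype.val e))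

theorem not_countable_of {S : Set (ℕ → Bool)} (h : #S = 𝔠) : ¬ S.Countable := fun h' =>
  absurd (le_aleph0_iff_set_countable.2 h') (by rw [h]; exact not_le.2 aleph0_lt_continuum)

theorem mk_Dif {n : ℕ} (h : ¬ (Dif n).Countable) : #(Dif n) = 𝔠 := by
  obtain ⟨T, -, H⟩ := tree_comp
  obtain ⟨F, hF⟩ := ptree_of H h
  obtain ⟨φ, h1, h2⟩ := inj_of_ptree H hF
  exact mk_of_inj h1 h2

theorem unc_s11 : Sig11 {n | ¬ (Dif n).Countable} := by
  obtain ⟨T, hT, H⟩ := tree_comp
  let d : ℕ → List Bool := fun m => (decode (α := List Bool) m).getD []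
  have hd : CI ∅ d := by fun_prop
  refine s11_of (fun e c σ => ((List.range ((d (σ.getD 0 0)).length + 1)).any fun j =>
      !T e.unpair.1 ((d (σ.getD 0 0)).take j)) &&
      (((List.range ((d (σ.getD c 0)).length + 1)).all fun j =>
        T e.unpair.2 ((d (σ.getD c 0)).take j)) &&
      d (σ.getD (c / 2) 0) ++ [c.bodd] ==
        (d (σ.getD (c + 1) 0)).take ((d (σ.getD (c / 2) 0)).length + 1)))
    (CI.and (CI.any (by fun_prop) (CI.not (hT.comp (g := fun q : (ℕ × ℕ × List ℕ) × ℕ =>
      (q.1.1.unpair.1, (d (q.1.2.2.getD 0 0)).take q.2)) (by fun_prop))))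
      (CI.and (CI.all (by fun_prop) (hT.comp (g := fun q : (ℕ × ℕ × List ℕ) × ℕ =>
      (q.1.1.unpair.2, (d (q.1.2.2.getD q.1.2.1 0)).take q.2)) (by fun_prop))) (by fun_prop)))
    fun e => ?_
  have key : ∀ f : ℕ → ℕ, PTree T e (fun k => d (f k)) ↔ ∀ c, (((List.range
      ((d ((pre f (c + 2)).getD 0 0)).length + 1)).any fun j =>
      !T e.unpair.1 ((d ((pre f (c + 2)).getD 0 0)).take j)) &&
      (((List.range ((d ((pre f (c + 2)).getD c 0)).length + 1)).all fun j =>
        T e.unpair.2 ((d ((pre f (c + 2)).getD c 0)).take j)) &&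
      d ((pre f (c + 2)).getD (c / 2) 0) ++ [c.bodd] == (d ((pre f (c + 2)).getD (c + 1) 0)).take
        ((d ((pre f (c + 2)).getD (c / 2) 0)).length + 1))) = true := by
    intro f
    have e1 : ∀ c, (pre f (c + 2)).getD c 0 = f c := fun c => getD_pre _ (by omega) _
    have e2 : ∀ c, (pre f (c + 2)).getD (c / 2) 0 = f (c / 2) := fun c => getD_pre _ (by omega) _
    simp only [e1, e2, getD_pre _ (Nat.succ_pos _), getD_pre _ (Nat.lt_succ_self _),
      Bool.and_eq_true, List.any_eq_true, List.all_eq_true, List.mem_range, Nat.lt_succ_iff,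
      Bool.not_eq_true', beq_iff_eq, PTree, List.prefix_iff_eq_take, List.length_append,
      List.length_singleton, forall_and, forall_const]
  constructor
  · intro h
    obtain ⟨F, hF⟩ := ptree_of H h
    exact ⟨fun k => encode (F k), (key _).1 (by simpa [d] using hF)⟩
  · rintro ⟨f, hf⟩
    obtain ⟨φ, h1, h2⟩ := inj_of_ptree H ((key f).2 hf)
    exact not_countable_of (mk_of_inj h1 h2)

theorem exists_empty : ∃ a, Q a = ∅ := by
  obtain ⟨g, -, Hg⟩ := exists_tree' (ok := fun _ _ => false) (by fun_prop)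
  exact ⟨g 0, Set.eq_empty_of_forall_notMem fun x => by simp [Hg]⟩

theorem unc_hard {X : Set ℕ} (h : Sig11 X) : ∃ f, Computable f ∧
    ∀ e, (Dif (f e)).Infinite ∧ (e ∈ X ↔ ¬ (Dif (f e)).Countable) := by
  obtain ⟨R, hR, H⟩ := h.norm
  let l : ℕ → List ℕ := Denumerable.ofNat (List ℕ)
  have hl : CI ∅ l := CI.ofNat CI.id'
  have le : ∀ σ, l (encode σ) = σ := fun σ => Denumerable.ofNat_encode σ
  have el : ∀ i, encode (l i) = i := fun σ => Denumerable.encode_ofNat σ
  let G : ℕ → List ℕ → Bool := fun e ρ =>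
    decide (ρ.length ≤ 1) || R e ((ρ.take (ρ.length - 2)).map fun v => v / 2)
  have hG : CI ∅ fun q : ℕ × List ℕ => G q.1 q.2 := CI.or (by fun_prop) (hR.comp
    (g := fun q : ℕ × List ℕ => (q.1, (q.2.take (q.2.length - 2)).map fun v => v / 2))
    (by fun_prop))
  obtain ⟨f, hf, Hf⟩ := exists_tree' (ok := fun e σ =>
      (List.range σ.length).all fun i => !σ.getD i false || (G e (l i) &&
        (List.range σ.length).all fun j => (l j != (l i).take (l j).length || σ.getD j false) &&
          (!σ.getD j false || (l i).length != (l j).length || i == j)))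
      (CI.all (by fun_prop) (CI.or (by fun_prop) (CI.and (hG.comp
        (g := fun q : (ℕ × List Bool) × ℕ => (q.1.1, l q.2)) (by fun_prop)) (by fun_prop))))
  have key : ∀ e x, x ∈ Q (f e) ↔ ∀ σ, x (encode σ) = true → G e σ = true ∧
      ∀ τ, (τ <+: σ → x (encode τ) = true) ∧
        (x (encode τ) = true → σ.length = τ.length → σ = τ) := by
    intro e x
    simp only [Hf, length_pre, Bool.and_eq_true, Bool.not_eq_true', List.all_eq_true,
      List.mem_range, Bool.or_eq_true, beq_iff_eq, bne_iff_ne]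
    constructor
    · intro h σ hσ
      refine ⟨?_, fun τ => ?_⟩
      · rcases h (encode σ + 1) (encode σ) (by omega) with h | h
        · rw [getD_pre _ (by omega), hσ] at h; cases h
        · simpa [le] using h.1
      · rcases h (max (encode σ) (encode τ) + 1) (encode σ) (by omega) with h | h
        · rw [getD_pre _ (by omega), hσ] at h; cases h
        have := h.2 (encode τ) (by omega)
        rw [getD_pre _ (by omega), le, le] at this
        refine ⟨fun hp => this.1.resolve_left fun h' => h' (List.prefix_iff_eq_take.1 hp),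
          fun h1 h2 => ?_⟩
        rcases this.2 with (h' | h') | h'
        · rw [h1] at h'; cases h'
        · exact absurd h2 h'
        · exact encode_injective h'
    · intro h n i hi
      rw [getD_pre _ hi]
      cases e1 : x i
      · exact Or.inl rfl
      have h1 := h (l i) (by rw [el]; exact e1)
      refine Or.inr ⟨h1.1, fun j hj => ?_⟩
      have h2 := h1.2 (l j)
      rw [el] at h2
      rw [getD_pre _ hj]
      constructor
      · by_cases hp : l j = (l i).take (l j).length
        · exact Or.inr (h2.1 (List.prefix_iff_eq_take.2 hp))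
        · exact Or.inl hp
      · cases e2 : x j
        · exact Or.inl (Or.inl rfl)
        by_cases hp : (l i).length = (l j).length
        · exact Or.inr (by rw [← el i, h2.2 e2 hp, el])
        · exact Or.inl (Or.inr hp)
  obtain ⟨a, ha⟩ := exists_empty
  have hf' := CI.of_comp (O := ∅) hf
  refine ⟨fun e => Nat.pair a (f e), CI.computable (by fun_prop), fun e => ?_⟩
  have e0 : Dif (Nat.pair a (f e)) = Q (f e) := by simp [Dif, ha]
  rw [e0]
  refine ⟨Set.infinite_of_injective_forall_mem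
    (f := fun k : ℕ => fun i => decide (l i = [] ∨ l i = [k])) (fun k k' e => by
      have := congrFun e (encode [k])
      simp only [le] at this
      simpa using this) fun k => (key _ _).2 fun σ hσ => ?_, ?_⟩
  · simp only [le, decide_eq_true_eq] at hσ ⊢
    rcases hσ with rfl | rfl
    · refine ⟨by simp [G], fun τ => ⟨by simp +contextual, ?_⟩⟩
      rintro (rfl | rfl) <;> simp
    · refine ⟨by simp [G], fun τ => ⟨fun h => ?_, ?_⟩⟩
      · simpa [List.prefix_cons_iff] using h
      · rintro (rfl | rfl) <;> simp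
  constructor
  · intro he
    obtain ⟨g, hg⟩ := (H e).1 he
    refine not_countable_of (mk_of_inj (φ := fun y i =>
      decide (l i = pre (fun m => 2 * g m + (y m).toNat) (l i).length)) (fun y y' e => ?_)
      fun y => (key _ _).2 fun σ hσ => ?_)
    · funext m
      have := congrFun e (encode (pre (fun m => 2 * g m + (y m).toNat) (m + 1)))
      simp only [le, length_pre, decide_true, true_eq_decide_iff] at this
      have := pre_eq_iff.1 this m (by omega)
      revert this
      cases y m <;> cases y' m <;> simp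
    · simp only [le, decide_eq_true_eq] at hσ ⊢
      refine ⟨?_, fun τ => ⟨fun h => pf_pre (hσ ▸ h), fun h1 h2 => by rw [hσ, h1, ← h2]⟩⟩
      have : (σ.take (σ.length - 2)).map (fun v => v / 2) = pre g (σ.length - 2) := by
        rw [hσ, length_pre, take_pre _ (Nat.sub_le _ _)]
        simp only [pre, List.map_map]
        exact List.map_congr_left fun m _ => by cases h : y m <;> simp [h] <;> omega
      simp only [G, this, hg, Bool.or_true]
  · intro hc
    by_contra hn
    refine hc (Set.Countable.mono (s₂ := Set.range fun s : Finset ℕ => fun i => decide (i ∈ s))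
      (fun x hx => ?_) (Set.countable_range _))
    have hx := (key _ _).1 hx
    have hfin : {i | x i = true}.Finite := by
      by_contra hi
      have h1 : ((fun i => (l i).length) '' {i | x i = true}).Infinite :=
        Set.Infinite.image (fun i hi j hj e => by
          have := ((hx (l i) (by rw [el]; exact hi)).2 (l j)).2 (by rw [el]; exact hj) e
          rw [← el i, this, el]) hi
      have h2 : ∀ n, ∃ σ : List ℕ, x (encode σ) = true ∧ σ.length = n := fun n => by
        obtain ⟨_, ⟨i, h3, rfl⟩, h4⟩ := h1.exists_gt n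
        exact ⟨(l i).take n, ((hx (l i) (by rw [el]; exact h3)).2 _).1 (List.take_prefix _ _),
          by simp [h4.le]⟩
      choose ρ hρ using h2
      have h3 : ∀ n m, n ≤ m → ρ n = (ρ m).take n := fun n m h =>
        ((hx _ (hρ n).1).2 _).2 (((hx _ (hρ m).1).2 _).1 (List.take_prefix _ _))
          (by simp [(hρ _).2, h])
      refine hn ((H e).2 ⟨fun m => (ρ (m + 1)).getD m 0 / 2, fun n => ?_⟩)
      have h4 := (hx _ (hρ (n + 2)).1).1
      simp only [G, (hρ _).2, Nat.add_sub_cancel, Bool.or_eq_true, decide_eq_true_eq] at h4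
      rw [← h4.resolve_left (by omega)]
      congr 1
      refine List.ext_getElem (by simp [(hρ _).2]) fun i a b => ?_
      have : i < n := by simpa using a
      simp only [pre, List.getElem_map, List.getElem_range, List.getElem_take]
      rw [h3 (i + 1) (n + 2) (by omega), List.getD_eq_getElem _ _ (by simp [(hρ _).2]; omega),
        List.getElem_take]
    exact ⟨hfin.toFinset, funext fun i => by simp⟩

theorem unc_complete : Complete Sig11 {n | ¬ (Dif n).Countable} :=
  ⟨unc_s11, fun Y hY => by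
    obtain ⟨f, hf, H⟩ := unc_hard hY
    exact ⟨f, hf, fun e => (H e).2⟩⟩

theorem ctbl_inf_complete : Complete Pi11 {n | (Dif n).Countable ∧ (Dif n).Infinite} := by
  refine ⟨?_, fun Y hY => ?_⟩
  · have : {n | (Dif n).Countable ∧ (Dif n).Infinite}ᶜ =
        {n | ¬ (Dif n).Countable} ∪ {n | (Dif n).encard ≠ ⊤} := by
      ext n
      simp only [Set.mem_union, Set.mem_ofPred_eq, Set.mem_compl_iff, Set.encard_ne_top_iff,
        Set.Infinite]
      tauto
    unfold Pi11
    rw [this]
    exact unc_s11.union fin_complete.1.s11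
  · obtain ⟨f, hf, H⟩ := unc_hard hY
    exact ⟨f, hf, fun e => by
      have := H e
      simp only [Set.mem_compl_iff, Set.mem_ofPred_eq] at this ⊢
      tauto⟩

end Pool.Agent.H62.Ic
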