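import Pool.Agent.H62.Id1

/-!
Measures of effectively closed classes and right-c.e. reals.
-/

set_option autoImplicit false

namespace Pool.Agent.H62.Ic

open Pool.Agent.H37 Encodable Filter MeasureTheory Topology

variable {α β : Type} [Primcodable α] [Primcodable β]

def num (σ : List Bool) : ℕ := σ.foldl (fun a b => 2 * a + b.toNat) 0
def N (n : ℕ) (x : ℕ → Bool) : ℕ := num (pre x n)
def bits (m k : ℕ) : List Bool := pre (fun i => (k / 2 ^ (m - 1 - i)).bodd) m

@[fun_prop] theorem ci_num {O : Set (ℕ →. ℕ)} {l : α → List Bool} (h : CI O l) :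
    CI O fun a => num (l a) := by unfold num; fun_prop
@[fun_prop] theorem ci_bits {O : Set (ℕ →. ℕ)} {m k : α → ℕ} (h : CI O m) (h' : CI O k) :
    CI O fun a => bits (m a) (k a) := by unfold bits; fun_prop

theorem N_zero (x : ℕ → Bool) : N 0 x = 0 := rfl
theorem N_succ (n : ℕ) (x : ℕ → Bool) : N (n + 1) x = 2 * N n x + (x n).toNat := by
  simp [N, num, pre_succ]
theorem N_lt (n : ℕ) (x : ℕ → Bool) : N n x < 2 ^ n := by
  induction n with
  | zero => simp [N_zero]
  | succ n ih => have := Bool.toNat_le (x n); rw [N_succ, pow_succ]; omega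
theorem N_div (n d : ℕ) (x : ℕ → Bool) : N (n + d) x / 2 ^ d = N n x := by
  induction d with
  | zero => simp
  | succ d ih =>
    have := Bool.toNat_le (x (n + d))
    rw [← add_assoc, N_succ, pow_succ', ← Nat.div_div_eq_div_mul,
      show (2 * N (n + d) x + (x (n + d)).toNat) / 2 = N (n + d) x by omega, ih]
theorem bits_N (m : ℕ) (x : ℕ → Bool) : bits m (N m x) = pre x m := pre_congr fun i hi => by
  have := N_div (i + 1) (m - 1 - i) x
  rw [show i + 1 + (m - 1 - i) = m by omega] at this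
  rw [this, N_succ]
  cases x i <;> simp
theorem N_surj {m k : ℕ} (h : k < 2 ^ m) : ∃ x, N m x = k := by
  induction m generalizing k with
  | zero => exact ⟨fun _ => false, by simp at h; simp [N_zero, h]⟩
  | succ m ih =>
    obtain ⟨x, hx⟩ := ih (k := k / 2) (by rw [pow_succ] at h; omega)
    refine ⟨fun i => if i < m then x i else k.bodd, ?_⟩
    rw [N_succ, show N m (fun i => if i < m then x i else k.bodd) = N m x from
      congrArg num (pre_congr fun i hi => if_pos hi), hx, if_neg (lt_irrefl m)]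
    have := Nat.bodd_add_div2 k
    rw [Nat.div2_val] at this
    omega
theorem N_mono {x y : ℕ → Bool} {n : ℕ} (h : ∀ i < n, x i = true → y i = true) :
    N n x ≤ N n y := by
  induction n with
  | zero => simp [N_zero]
  | succ n ih =>
    have := ih fun i hi => h i (by omega)
    have h2 := h n (by omega)
    rw [N_succ, N_succ]
    revert h2
    cases x n <;> cases y n <;> simp <;> omega
theorem N_not (n : ℕ) (x : ℕ → Bool) : N n x + N n (fun i => !x i) + 1 = 2 ^ n := by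
  induction n with
  | zero => rfl
  | succ n ih => rw [N_succ, N_succ, pow_succ]; cases x n <;> simp <;> omega

theorem N_real (m n : ℕ) (x : ℕ → Bool) : (N n x : ℝ) / 2 ^ n < (N m x + 1) / 2 ^ m := by
  have h1 : ∀ d, (N n x : ℝ) / 2 ^ n ≤ N (n + d) x / 2 ^ (n + d) := fun d => by
    have := Nat.div_mul_le_self (N (n + d) x) (2 ^ d)
    rw [N_div] at this
    rw [div_le_div_iff₀ (by positivity) (by positivity), pow_add]
    have : (N n x : ℝ) * 2 ^ d ≤ N (n + d) x := by exact_mod_cast this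
    nlinarith [show (0 : ℝ) < 2 ^ n by positivity]
  have h2 : ∀ d, (N (m + d) x : ℝ) / 2 ^ (m + d) < (N m x + 1) / 2 ^ m := fun d => by
    have := Nat.lt_mul_div_succ (N (m + d) x) (show 0 < 2 ^ d by positivity)
    rw [N_div] at this
    rw [div_lt_div_iff₀ (by positivity) (by positivity), pow_add]
    have : (N (m + d) x : ℝ) < 2 ^ d * (N m x + 1) := by exact_mod_cast this
    nlinarith [show (0 : ℝ) < 2 ^ m by positivity]
  exact (h1 m).trans_lt (by rw [add_comm n m]; exact h2 n)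

instance : IsProbabilityMeasure mu := by unfold mu; infer_instance

theorem cyl_eq (m : ℕ) (y : ℕ → Bool) :
    {x | pre x m = pre y m} = Set.pi (Finset.range m) fun i => {y i} := by
  ext x; simp [pre_eq_iff]

theorem meas_cyl (m : ℕ) (y : ℕ → Bool) : MeasurableSet {x | pre x m = pre y m} := by
  rw [cyl_eq]
  exact MeasurableSet.pi (Finset.countable_toSet _) fun _ _ => measurableSet_singleton _

theorem mu_cyl (m : ℕ) (y : ℕ → Bool) : mu.real {x | pre x m = pre y m} = 1 / 2 ^ m := by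
  rw [cyl_eq, Measure.real, mu, Measure.infinitePi_pi _ fun _ _ => measurableSet_singleton _]
  simp [PMF.toMeasure_apply_singleton _ _ (measurableSet_singleton _)]

theorem N_eq_cyl (m : ℕ) (y : ℕ → Bool) : {x | N m x = N m y} = {x | pre x m = pre y m} := by
  ext x
  exact ⟨fun h => by rw [Set.mem_ofPred_eq, ← bits_N, ← bits_N, h], fun h => congrArg num h⟩

theorem meas_N (m k : ℕ) : MeasurableSet {x | N m x = k} := by
  by_cases h : k < 2 ^ m
  · obtain ⟨y, rfl⟩ := N_surj h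
    rw [N_eq_cyl]; exact meas_cyl _ _
  · rw [Set.eq_empty_of_forall_notMem (s := {x | N m x = k}) fun x hx => h (hx ▸ N_lt m x)]
    exact MeasurableSet.empty

theorem meas_NP (m : ℕ) (P : ℕ → Prop) : MeasurableSet {x | P (N m x)} := by
  have : {x | P (N m x)} = ⋃ k ∈ {k | P k}, {x | N m x = k} := by ext x; simp
  rw [this]
  exact MeasurableSet.biUnion (Set.to_countable _) fun k _ => meas_N m k

theorem mu_count (m : ℕ) (P : ℕ → Bool) {k : ℕ} (h : k ≤ 2 ^ m) :
    mu.real {x | N m x < k ∧ P (N m x) = true} = ((List.range k).countP P : ℝ) / 2 ^ m := by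
  induction k with
  | zero => simp
  | succ k ih =>
    rw [List.range_succ, List.countP_append]
    cases e : P k
    · rw [show {x | N m x < k + 1 ∧ P (N m x) = true} = {x | N m x < k ∧ P (N m x) = true} from
        Set.ext fun x => ⟨fun h => ⟨lt_of_le_of_ne (Nat.lt_succ_iff.1 h.1) fun e' =>
          Bool.false_ne_true (e.symm.trans (e' ▸ h.2)), h.2⟩,
          fun h => ⟨by have := h.1; omega, h.2⟩⟩,
        ih (by omega)]
      simp [e]
    · obtain ⟨y, hy⟩ := N_surj (show k < 2 ^ m by omega)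
      rw [show {x | N m x < k + 1 ∧ P (N m x) = true} =
          {x | N m x < k ∧ P (N m x) = true} ∪ {x | N m x = N m y} from
        Set.ext fun x => ⟨fun h => (Nat.lt_succ_iff.1 h.1).lt_or_eq.imp (fun h' => ⟨h', h.2⟩)
          fun h' => h'.trans hy.symm, by
            rintro (h | h)
            · exact ⟨by have := h.1; omega, h.2⟩
            · have h : N m x = k := h.trans hy
              exact ⟨by omega, by rw [h, e]⟩⟩,
        measureReal_union (Set.disjoint_left.2 fun x h1 h2 => by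
          have := h1.1; have h : N m x = k := h2.trans hy; omega) (meas_N _ _),
        ih (by omega), N_eq_cyl, mu_cyl]
      simp [e, add_div]

theorem mu_lt {m k : ℕ} (h : k ≤ 2 ^ m) : mu.real {x | N m x < k} = (k : ℝ) / 2 ^ m := by
  simpa using mu_count m (fun _ => true) h

theorem dense_dy {u v : ℝ} (h0 : 0 ≤ u) (h : u < v) :
    ∃ a n : ℕ, u < a / 2 ^ n ∧ (a : ℝ) / 2 ^ n < v := by
  obtain ⟨n, hn⟩ := exists_pow_lt_of_lt_one (sub_pos.2 h) (show (1 / 2 : ℝ) < 1 by norm_num)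
  have hp : (0 : ℝ) < 2 ^ n := by positivity
  refine ⟨⌊u * 2 ^ n⌋₊ + 1, n, ?_, ?_⟩
  · rw [lt_div_iff₀ hp]; push_cast; exact Nat.lt_floor_add_one _
  · have := Nat.floor_le (show 0 ≤ u * 2 ^ n by positivity)
    rw [one_div, inv_pow, inv_lt_iff_one_lt_mul₀ hp] at hn
    rw [div_lt_iff₀ hp]; push_cast; nlinarith

def RC (y : α → ℝ) : Prop := REPred fun q : α × ℕ × ℕ => y q.1 < q.2.1 / 2 ^ q.2.2

theorem RC.comp {y : β → ℝ} (h : RC y) {g : α → β} (hg : CI ∅ g) : RC fun a => y (g a) :=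
  REPred.comp' h (g := fun q : α × ℕ × ℕ => (g q.1, q.2)) (by fun_prop)

theorem rc_const {y : ℝ} (h : RightCE y) : RC fun _ : α => y :=
  REPred.comp' h.2 (g := fun q : α × ℕ × ℕ => q.2) (by fun_prop)

theorem RC.rightCE {y : α → ℝ} (h : RC y) (a : α) (h0 : 0 ≤ y a) : RightCE (y a) :=
  ⟨h0, REPred.comp' h (g := fun q : ℕ × ℕ => (a, q)) (by fun_prop)⟩

theorem dy_lt {a b m n : ℕ} : (a : ℝ) / 2 ^ m < b / 2 ^ n ↔ a * 2 ^ n < b * 2 ^ m := by
  rw [div_lt_div_iff₀ (by positivity) (by positivity)]; exact_mod_cast Iff.rfl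

theorem rc_dy {k m : α → ℕ} (hk : CI ∅ k) (hm : CI ∅ m) : RC fun a => (k a : ℝ) / 2 ^ m a :=
  re_of_bool (fun q => decide (k q.1 * 2 ^ q.2.2 < q.2.1 * 2 ^ m q.1)) (by fun_prop)
    fun q => by simp [dy_lt]

theorem RC.sub_dy {y : α → ℝ} (h : RC y) (k m : ℕ) : RC fun a => y a - (k : ℝ) / 2 ^ m :=
  (REPred.comp' h (g := fun q : α × ℕ × ℕ => (q.1, q.2.1 * 2 ^ m + k * 2 ^ q.2.2, q.2.2 + m))
    (by fun_prop)).of_eq fun q => by
    rw [sub_lt_iff_lt_add]
    refine iff_of_eq (congrArg _ ?_)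
    push_cast; field_simp; ring

theorem RC.add {y z : α → ℝ} (hy : RC y) (hz : RC z) (h0 : ∀ a, 0 ≤ y a) (h1 : ∀ a, 0 ≤ z a) :
    RC fun a => y a + z a := by
  refine (re_exists (p := fun (q : α × ℕ × ℕ) (r : (ℕ × ℕ) × ℕ × ℕ) =>
    (y q.1 < r.1.1 / 2 ^ r.1.2 ∧ z q.1 < r.2.1 / 2 ^ r.2.2) ∧
      (r.1.1 * 2 ^ r.2.2 + r.2.1 * 2 ^ r.1.2) * 2 ^ q.2.2 < q.2.1 * 2 ^ (r.1.2 + r.2.2))
    (re_and (re_and (REPred.comp' hy (g := fun x : (α × ℕ × ℕ) × (ℕ × ℕ) × ℕ × ℕ =>
      (x.1.1, x.2.1)) (by fun_prop)) (REPred.comp' hz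
      (g := fun x : (α × ℕ × ℕ) × (ℕ × ℕ) × ℕ × ℕ => (x.1.1, x.2.2)) (by fun_prop)))
      (re_of_bool (fun x => decide ((x.2.1.1 * 2 ^ x.2.2.2 + x.2.2.1 * 2 ^ x.2.1.2) * 2 ^ x.1.2.2 <
        x.1.2.1 * 2 ^ (x.2.1.2 + x.2.2.2))) (by fun_prop) (by simp)))).of_eq fun q => ?_
  have key : ∀ a m b n : ℕ, (a : ℝ) / 2 ^ m + b / 2 ^ n =
      ((a * 2 ^ n + b * 2 ^ m : ℕ) : ℝ) / 2 ^ (m + n) := fun a m b n => by
    push_cast; field_simp; ring
  simp only [← dy_lt, ← key]
  constructor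
  · rintro ⟨r, ⟨h2, h3⟩, h4⟩; linarith
  · intro h
    obtain ⟨a, m, h2, h3⟩ := dense_dy (h0 q.1)
      (show y q.1 < y q.1 + (q.2.1 / 2 ^ q.2.2 - (y q.1 + z q.1)) / 2 by linarith)
    obtain ⟨b, n, h4, h5⟩ := dense_dy (h1 q.1)
      (show z q.1 < z q.1 + (q.2.1 / 2 ^ q.2.2 - (y q.1 + z q.1)) / 2 by linarith)
    exact ⟨((a, m), b, n), ⟨h2, h4⟩, by simp only; linarith⟩

theorem rk_lt {y z : α → ℝ} (hy : RC y) (hz : RC z) (h0 : ∀ a, 0 ≤ y a) :
    RK fun a => y a < z a := by
  refine (RK.ex (p := fun a (r : ℕ × ℕ) => y a < r.1 / 2 ^ r.2 ∧ ¬ z a < r.1 / 2 ^ r.2)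
    ((rk_re hy).and (rk_core hz))).of_eq fun a => ⟨fun ⟨r, h1, h2⟩ => by linarith [not_lt.1 h2],
    fun h => ?_⟩
  obtain ⟨k, m, h1, h2⟩ := dense_dy (h0 a) h
  exact ⟨(k, m), h1, not_lt.2 h2.le⟩

theorem rc_eps {p : α → Prop} (h : RK p) (M : ℕ) : ∃ ε : α → ℝ, RC ε ∧
    ∀ a, 0 ≤ ε a ∧ ε a ≤ 1 / 2 ^ M ∧ (0 < ε a ↔ p a) := by
  classical
  obtain ⟨R, hR, H⟩ := h.normal
  refine ⟨fun a => if h : ∃ n, ∀ m, R a n m = true then ((1 : ℕ) : ℝ) / 2 ^ (Nat.find h + M) else 0,
    ?_, fun a => ?_⟩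
  · refine (re_and (re_of_bool (p := fun q : α × ℕ × ℕ => 0 < q.2.1) (fun q => decide (0 < q.2.1))
      (by fun_prop) (by simp)) (re_forall_mem (p := fun (q : α × ℕ × ℕ) n =>
        ∃ m, (decide (2 ^ q.2.2 < q.2.1 * 2 ^ (n + M)) || !R q.1 n m) = true)
        (re_of_nat (fun (x : (α × ℕ × ℕ) × ℕ) m =>
          decide (2 ^ x.1.2.2 < x.1.2.1 * 2 ^ (x.2 + M)) || !R x.1.1 x.2 m) (CI.or (by fun_prop)
          (CI.not (hR.comp (g := fun x : ((α × ℕ × ℕ) × ℕ) × ℕ => (x.1.1.1, x.1.2, x.2))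
            (by fun_prop)))) fun _ => Iff.rfl)
        (l := fun q => List.range (q.2.2 + 1)) (by fun_prop))).of_eq fun ⟨a, k, n⟩ => ?_
    simp only [List.mem_range, Bool.or_eq_true, decide_eq_true_eq, Bool.not_eq_true']
    split_ifs with h
    · rw [dy_lt, one_mul]
      constructor
      · rintro ⟨h1, h2⟩
        by_cases h3 : Nat.find h < n + 1
        · obtain ⟨m, h4 | h4⟩ := h2 _ h3
          · exact h4
          · rw [Nat.find_spec h m] at h4; cases h4
        · calc 2 ^ n < 2 ^ (Nat.find h + M) := Nat.pow_lt_pow_right (by omega) (by omega)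
            _ ≤ _ := Nat.le_mul_of_pos_left _ h1
      · intro h1
        refine ⟨Nat.pos_of_ne_zero fun e => by simp [e] at h1, fun n' _ => ?_⟩
        by_cases h3 : ∀ m, R a n' m = true
        · exact ⟨0, Or.inl (h1.trans_le (Nat.mul_le_mul_left _ (Nat.pow_le_pow_right (by omega)
            (by have := Nat.find_min' h h3; omega))))⟩
        · simp only [not_forall, Bool.not_eq_true] at h3
          exact h3.imp fun _ => Or.inr
    · simp only [not_exists, not_forall, Bool.not_eq_true] at h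
      exact ⟨fun h1 => by have := h1.1; positivity, fun h1 =>
        ⟨Nat.pos_of_ne_zero fun e => by simp [e] at h1, fun n' _ => (h n').imp fun _ => Or.inr⟩⟩
  · rw [H]
    beta_reduce
    split_ifs with h
    · refine ⟨by positivity, ?_, by simp [h]⟩
      rw [Nat.cast_one]
      exact one_div_le_one_div_of_le (by positivity) (pow_le_pow_right₀ (by norm_num) (by omega))
    · simp [h]

theorem meas_T (T : List Bool → Bool) (j : ℕ) : MeasurableSet {x | T (pre x j) = true} := by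
  simpa only [bits_N] using meas_NP j fun k => T (bits j k) = true

theorem rc_mu {T : α → List Bool → Bool} (hT : CI ∅ fun q : α × List Bool => T q.1 q.2) :
    RC fun a => mu.real {x | ∀ j, T a (pre x j) = true} := by
  refine re_of_nat (fun q m => decide ((List.range (2 ^ m)).countP (fun k =>
    (List.range (m + 1)).all fun j => T q.1 ((bits m k).take j)) * 2 ^ q.2.2 < q.2.1 * 2 ^ m))
    (CI.lt (CI.mul (CI.countP (CI.all (by fun_prop) (hT.comp
      (g := fun x : (((α × ℕ × ℕ) × ℕ) × ℕ) × ℕ => (x.1.1.1.1, (bits x.1.1.2 x.1.2).take x.2))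
      (by fun_prop))) (by fun_prop)) (by fun_prop)) (by fun_prop)) fun q => ?_
  let S : ℕ → Set (ℕ → Bool) := fun m => {x | ∀ j ≤ m, T q.1 (pre x j) = true}
  have hS : ∀ m, S m = {x | N m x < 2 ^ m ∧ ((List.range (m + 1)).all fun j =>
      T q.1 ((bits m (N m x)).take j)) = true} := fun m => Set.ext fun x => by
    simp only [S, Set.mem_ofPred_eq, N_lt, true_and, bits_N, List.all_eq_true, List.mem_range,
      Nat.lt_succ_iff]
    exact forall₂_congr fun j hj => by rw [take_pre _ hj]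
  have h1 : ∀ m, mu.real (S m) = (((List.range (2 ^ m)).countP (fun k =>
      (List.range (m + 1)).all fun j => T q.1 ((bits m k).take j)) : ℕ) : ℝ) / 2 ^ m := fun m => by
    rw [hS]
    exact mu_count m (fun k => (List.range (m + 1)).all fun j => T q.1 ((bits m k).take j)) le_rfl
  have h2 : {x | ∀ j, T q.1 (pre x j) = true} = ⋂ m, S m := Set.ext fun x => by
    simp only [S, Set.mem_ofPred_eq, Set.mem_iInter]
    exact ⟨fun h m j _ => h j, fun h j => h j j le_rfl⟩
  have h3 : Tendsto (fun m => mu.real (S m)) atTop (𝓝 (mu.real (⋂ m, S m))) :=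
    (ENNReal.tendsto_toReal (measure_ne_top _ _)).comp (tendsto_measure_iInter_atTop
      (fun m => (by
        rw [hS]
        exact meas_NP m fun k => k < 2 ^ m ∧ ((List.range (m + 1)).all fun j =>
          T q.1 ((bits m k).take j)) = true : MeasurableSet (S m)).nullMeasurableSet)
      (fun m m' h x hx j hj => hx j (hj.trans h)) ⟨0, measure_ne_top _ _⟩)
  simp only [decide_eq_true_eq, ← dy_lt, ← h1, h2]
  exact ⟨fun h => (h3.eventually (gt_mem_nhds h)).exists, fun ⟨m, hm⟩ =>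
    (measureReal_mono (Set.iInter_subset S m)).trans_lt hm⟩

theorem meas_Q (e : ℕ) : MeasurableSet (Q e) := by
  obtain ⟨T, -, H⟩ := tree_comp
  rw [show Q e = ⋂ j, {x | T e (pre x j) = true} from Set.ext fun x => by simp [H]]
  exact MeasurableSet.iInter fun j => meas_T _ j

theorem mu_Dif : ∃ y z : ℕ → ℝ, RC y ∧ RC z ∧
    ∀ n, 0 ≤ y n ∧ 0 ≤ z n ∧ mu.real (Dif n) = y n - z n := by
  obtain ⟨T, hT, H⟩ := tree_comp
  have h1 := hT.comp (g := fun q : ℕ × List Bool => (q.1.unpair.2, q.2)) (by fun_prop)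
  have h2 := hT.comp (g := fun q : ℕ × List Bool => (q.1.unpair.1, q.2)) (by fun_prop)
  refine ⟨_, _, rc_mu (T := fun n => T n.unpair.2) h1,
    rc_mu (T := fun n σ => T n.unpair.2 σ && T n.unpair.1 σ) (h1.and h2),
    fun n => ⟨measureReal_nonneg, measureReal_nonneg, ?_⟩⟩
  have := measureReal_inter_add_sdiff (μ := mu) (s := Q n.unpair.2) (meas_Q n.unpair.1)
  rw [show {x | ∀ j, T n.unpair.2 (pre x j) = true} = Q n.unpair.2 from
    Set.ext fun x => (H _ _).symm, show {x | ∀ j, (T n.unpair.2 (pre x j) &&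
      T n.unpair.1 (pre x j)) = true} = Q n.unpair.2 ∩ Q n.unpair.1 from
    Set.ext fun x => by simp [H, forall_and], Dif]
  linarith

def IV (y : ℝ) : Set (ℕ → Bool) := {x | ∀ a n : ℕ, y < a / 2 ^ n → N n x < a}

theorem mu_IV {y : ℝ} (h0 : 0 ≤ y) (h1 : y ≤ 1) : mu.real (IV y) = y := by
  refine le_antisymm (not_lt.1 fun h => ?_) (not_lt.1 fun h => ?_)
  · obtain ⟨a, n, h2, h3⟩ := dense_dy h0 h
    have h4 : (a : ℝ) / 2 ^ n < 1 := h3.trans_le measureReal_le_one
    rw [div_lt_one (by positivity)] at h4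
    have h5 := measureReal_mono (μ := mu) (show IV y ⊆ {x | N n x < a} from fun x hx => hx a n h2)
    rw [mu_lt (by exact_mod_cast h4.le)] at h5
    linarith
  · obtain ⟨a, n, h2, h3⟩ := dense_dy measureReal_nonneg h
    have h4 : (a : ℝ) / 2 ^ n < 1 := h3.trans_le h1
    rw [div_lt_one (by positivity)] at h4
    have h5 := measureReal_mono (μ := mu) (show {x | N n x < a} ⊆ IV y from fun x hx b m h6 => by
      have h7 : (N n x + 1 : ℝ) / 2 ^ n ≤ a / 2 ^ n :=
        div_le_div_of_nonneg_right (by exact_mod_cast hx) (by positivity)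
      have := (N_real n m x).trans_le (h7.trans (h3.trans h6).le)
      rw [div_lt_div_iff_of_pos_right (by positivity)] at this
      exact_mod_cast this)
    rw [mu_lt (by exact_mod_cast h4.le)] at h5
    linarith

theorem exists_IV {y : ℕ → ℝ} (h : RC y) : ∃ f, Computable f ∧ ∀ e, Q (f e) = IV (y e) := by
  obtain ⟨D, hD, -, H⟩ := re_stage h
  obtain ⟨f, hf, Hf⟩ := exists_tree' (ok := fun e σ => (List.range σ.length).all fun t =>
      !D (e, t.unpair.1, t.unpair.2.unpair.1) t.unpair.2.unpair.2 ||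
        decide (num (σ.take t.unpair.2.unpair.1) < t.unpair.1))
    (CI.all (by fun_prop) (CI.or (CI.not (hD.comp (g := fun q : (ℕ × List Bool) × ℕ =>
      ((q.1.1, q.2.unpair.1, q.2.unpair.2.unpair.1), q.2.unpair.2.unpair.2)) (by fun_prop)))
      (by fun_prop)))
  refine ⟨f, hf, fun e => Set.ext fun x => ?_⟩
  simp only [Hf, length_pre, List.all_eq_true, List.mem_range, Bool.or_eq_true, Bool.not_eq_true',
    decide_eq_true_eq, IV, Set.mem_ofPred_eq]
  constructor
  · intro h a n h1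
    obtain ⟨s, hs⟩ := (H (e, a, n)).1 h1
    have := h (Nat.pair a (Nat.pair n s) + 1) _ (Nat.lt_succ_self _)
    simp only [Nat.unpair_pair, hs] at this
    rw [take_pre _ (((Nat.left_le_pair n s).trans (Nat.right_le_pair a _)).trans
      (Nat.le_succ _))] at this
    exact this.resolve_left (by simp)
  · intro h j t ht
    cases e' : D (e, t.unpair.1, t.unpair.2.unpair.1) t.unpair.2.unpair.2
    · exact Or.inl rfl
    · rw [take_pre _ (((Nat.unpair_left_le _).trans (Nat.unpair_right_le t)).trans ht.le)]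
      exact Or.inr (h _ _ ((H (e, _, _)).2 ⟨_, e'⟩))

theorem realize {y z : ℕ → ℝ} (hy : RC y) (hz : RC z) (h : ∀ e, 0 ≤ z e ∧ z e ≤ y e ∧ y e ≤ 1) :
    ∃ f, Computable f ∧ ∀ e, mu.real (Dif (f e)) = y e - z e := by
  obtain ⟨f, hf, Hf⟩ := exists_IV hy
  obtain ⟨g, hg, Hg⟩ := exists_IV hz
  have hf' := CI.of_comp (O := ∅) hf
  have hg' := CI.of_comp (O := ∅) hg
  refine ⟨fun e => Nat.pair (g e) (f e), CI.computable (by fun_prop), fun e => ?_⟩
  obtain ⟨h1, h2, h3⟩ := h e
  simp only [Dif, Nat.unpair_pair]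
  rw [measureReal_sdiff (by rw [Hf, Hg]; exact fun x hx a n h => hx a n (h2.trans_lt h))
    (meas_Q _), Hf, Hg, mu_IV h1 (h2.trans h3), mu_IV (h1.trans h2) h3]

end Pool.Agent.H62.Ic
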