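import Pool.Agent.H62.Id2

/-!
Measure properties of differences of two classes.
-/

set_option autoImplicit false

namespace Pool.Agent.H62.Ic

open Pool.Agent.H37 Encodable Filter MeasureTheory Topology

theorem rc_nat (k : ℕ) : RC fun _ : ℕ => (k : ℝ) := by
  simpa using rc_dy (α := ℕ) (k := fun _ => k) (m := fun _ => 0) (by fun_prop) (by fun_prop)

theorem dce_dy (k m : ℕ) : DCE ((k : ℝ) / 2 ^ m) :=
  ⟨_, (0 : ℕ), (rc_dy (α := ℕ) (k := fun _ => k) (m := fun _ => m) (by fun_prop)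
    (by fun_prop)).rightCE 0 (by positivity), (rc_nat 0).rightCE 0 (by positivity), by simp⟩

theorem dce_mu (n : ℕ) : DCE (mu.real (Dif n)) := by
  obtain ⟨y, z, h1, h2, h3⟩ := mu_Dif
  exact ⟨_, _, h1.rightCE n (h3 n).1, h2.rightCE n (h3 n).2.1, (h3 n).2.2⟩

theorem upper_mu {α : Type} [Primcodable α] {u v : α → ℝ} (hu : RC u) (hv : RC v)
    (h0 : ∀ a, 0 ≤ u a) (h1 : ∀ a, 0 ≤ v a) :
    RK (fun q : ℕ × α => u q.2 - v q.2 < mu.real (Dif q.1)) ∧
      RK fun q : ℕ × α => mu.real (Dif q.1) < u q.2 - v q.2 := by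
  obtain ⟨y, z, h2, h3, h4⟩ := mu_Dif
  have a1 := (h3.comp (g := fun q : ℕ × α => q.1) (by fun_prop)).add
    (hu.comp (g := fun q : ℕ × α => q.2) (by fun_prop)) (fun q => (h4 _).2.1) fun q => h0 _
  have a2 := (h2.comp (g := fun q : ℕ × α => q.1) (by fun_prop)).add
    (hv.comp (g := fun q : ℕ × α => q.2) (by fun_prop)) (fun q => (h4 _).1) fun q => h1 _
  exact ⟨(rk_lt a1 a2 fun q => add_nonneg (h4 _).2.1 (h0 _)).of_eq fun q => by
      rw [(h4 _).2.2]; constructor <;> intro <;> linarith,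
    (rk_lt a2 a1 fun q => add_nonneg (h4 _).1 (h1 _)).of_eq fun q => by
      rw [(h4 _).2.2]; constructor <;> intro <;> linarith⟩

theorem upper_dce {r : ℝ} (h : DCE r) :
    RK (fun n => r < mu.real (Dif n)) ∧ RK fun n => mu.real (Dif n) < r := by
  obtain ⟨y, z, h1, h2, rfl⟩ := h
  have := upper_mu (α := ℕ) (rc_const h1) (rc_const h2) (fun _ => h1.1) fun _ => h2.1
  exact ⟨this.1.comp (g := fun n : ℕ => (n, 0)) (by fun_prop),
    this.2.comp (g := fun n : ℕ => (n, 0)) (by fun_prop)⟩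

theorem dce_small {r : ℝ} (h : DCE r) (M : ℕ) : ∃ y z : ℝ, RC (fun _ : ℕ => y) ∧
    RC (fun _ : ℕ => z) ∧ r = y - z ∧ 0 ≤ z ∧ z ≤ 1 / 2 ^ M := by
  obtain ⟨y, z, h1, h2, rfl⟩ := h
  have hp : (0 : ℝ) < 2 ^ M := by positivity
  refine ⟨_, _, (rc_const h1).sub_dy ⌊z * 2 ^ M⌋₊ M, (rc_const h2).sub_dy ⌊z * 2 ^ M⌋₊ M,
    by ring, ?_, ?_⟩
  · rw [sub_nonneg, div_le_iff₀ hp]; exact Nat.floor_le (mul_nonneg h2.1 hp.le)
  · rw [sub_le_iff_le_add, ← add_div, le_div_iff₀ hp, add_comm]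
    exact (Nat.lt_floor_add_one _).le

theorem small {δ : ℝ} (h : 0 < δ) : ∃ M : ℕ, (1 : ℝ) / 2 ^ M < δ := by
  obtain ⟨n, hn⟩ := exists_pow_lt_of_lt_one h (show (1 / 2 : ℝ) < 1 by norm_num)
  exact ⟨n, by simpa using hn⟩

theorem hard_up {r : ℝ} (h : DCE r) (h0 : 0 ≤ r) (h1 : r < 1) {p : ℕ → Prop} (hp : RK p) :
    ∃ f, Computable f ∧ ∀ e, r ≤ mu.real (Dif (f e)) ∧ (r < mu.real (Dif (f e)) ↔ p e) := by
  obtain ⟨M, hM⟩ := small (show 0 < (1 - r) / 2 by linarith)
  obtain ⟨y, z, h2, h3, h4, h5, h6⟩ := dce_small h M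
  obtain ⟨ε, h7, h8⟩ := rc_eps hp M
  obtain ⟨f, hf, H⟩ := realize (h2.add h7 (fun _ => by linarith) fun e => (h8 e).1) h3 fun e => by
    obtain ⟨a, b, -⟩ := h8 e
    exact ⟨h5, by linarith, by linarith⟩
  refine ⟨f, hf, fun e => ?_⟩
  obtain ⟨a, -, c⟩ := h8 e
  rw [H, ← c]
  exact ⟨by linarith, by constructor <;> intro <;> linarith⟩

theorem hard_down {r : ℝ} (h : DCE r) (h0 : 0 < r) (h1 : r ≤ 1) {p : ℕ → Prop} (hp : RK p) :
    ∃ f, Computable f ∧ ∀ e, mu.real (Dif (f e)) ≤ r ∧ (mu.real (Dif (f e)) < r ↔ p e) := by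
  rcases h1.eq_or_lt with rfl | h1
  · obtain ⟨ε, h7, h8⟩ := rc_eps hp 0
    obtain ⟨f, hf, H⟩ := realize (rc_nat 1) h7 fun e => by
      obtain ⟨a, b, -⟩ := h8 e
      exact ⟨a, by simpa using b, by simp⟩
    refine ⟨f, hf, fun e => ?_⟩
    obtain ⟨a, -, c⟩ := h8 e
    rw [H, ← c, Nat.cast_one]
    exact ⟨by linarith, by constructor <;> intro <;> linarith⟩
  obtain ⟨M, hM⟩ := small (lt_min h0 (sub_pos.2 h1))
  obtain ⟨y, z, h2, h3, h4, h5, h6⟩ := dce_small h M
  obtain ⟨ε, h7, h8⟩ := rc_eps hp M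
  have := min_le_left r (1 - r)
  have := min_le_right r (1 - r)
  obtain ⟨f, hf, H⟩ := realize h2 (h3.add h7 (fun _ => h5) fun e => (h8 e).1) fun e => by
    obtain ⟨a, b, -⟩ := h8 e
    exact ⟨by linarith, by linarith, by linarith⟩
  refine ⟨f, hf, fun e => ?_⟩
  obtain ⟨a, -, c⟩ := h8 e
  rw [H, ← c]
  exact ⟨by linarith, by constructor <;> intro <;> linarith⟩

theorem dce_case {r : ℝ} (h : DCE r) (h0 : 0 ≤ r) (h1 : r ≤ 1) :
    (r < 1 → Complete (Sig 2) (DS fun S => r < mu.real S) ∧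
      Complete (PiS 2) (DS fun S => mu.real S ≤ r)) ∧
    (0 < r → Complete (Sig 2) (DS fun S => mu.real S < r) ∧
      Complete (PiS 2) (DS fun S => r ≤ mu.real S)) ∧
    Complete (PiS 2) (DS fun S => mu.real S = r) := by
  obtain ⟨u1, u2⟩ := upper_dce h
  refine ⟨fun h2 => ?_, fun h2 => ?_, sig2_iff.2 ((u1.or u2).of_eq fun n => ?_), fun Y hY => ?_⟩
  · have : Complete (Sig 2) (DS fun S => r < mu.real S) := ⟨sig2_iff.2 u1, fun Y hY => by
      obtain ⟨f, hf, H⟩ := hard_up h h0 h2 (sig2_iff.1 hY)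
      exact ⟨f, hf, fun e => (H e).2.symm⟩⟩
    exact ⟨this, this.compl.congr fun n => by simp [DS]⟩
  · have : Complete (Sig 2) (DS fun S => mu.real S < r) := ⟨sig2_iff.2 u2, fun Y hY => by
      obtain ⟨f, hf, H⟩ := hard_down h h2 h1 (sig2_iff.1 hY)
      exact ⟨f, hf, fun e => (H e).2.symm⟩⟩
    exact ⟨this, this.compl.congr fun n => by simp [DS]⟩
  · exact or_comm.trans ne_iff_lt_or_gt.symm
  · rcases h1.eq_or_lt with e | h2
    · obtain ⟨f, hf, H⟩ := hard_down h (by linarith) h1 (sig2_iff.1 hY)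
      refine ⟨f, hf, fun e => ?_⟩
      have := H e
      rw [Set.mem_compl_iff, (H e).1.lt_iff_ne, Ne, not_iff_not] at this
      exact this.2.symm
    · obtain ⟨f, hf, H⟩ := hard_up h h0 h2 (sig2_iff.1 hY)
      refine ⟨f, hf, fun e => ?_⟩
      have := H e
      rw [Set.mem_compl_iff, (H e).1.lt_iff_ne', Ne, not_iff_not] at this
      exact this.2.symm

/-! ### digit sets -/

open Classical in
noncomputable def ch (A : Set ℕ) (i : ℕ) : Bool := decide (i ∈ A)

theorem tend_val (A : Set ℕ) :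
    Tendsto (fun m => (N m (ch A) : ℝ) / 2 ^ m) atTop (𝓝 (val A)) := by
  classical
  have hs : Summable fun i => if i ∈ A then (1 / 2 : ℝ) ^ (i + 1) else 0 :=
    Summable.of_nonneg_of_le (fun i => by split_ifs <;> positivity)
      (fun i => by split_ifs <;> [exact le_rfl; positivity])
      ((summable_nat_add_iff 1).2 summable_geometric_two)
  refine hs.hasSum.tendsto_sum_nat.congr fun m => ?_
  induction m with
  | zero => simp [N_zero]
  | succ m ih =>
    rw [Finset.sum_range_succ, ih, N_succ]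
    by_cases h : m ∈ A <;> simp [h, ch] <;> field_simp <;> ring

theorem val_le (A : Set ℕ) (m : ℕ) : val A ≤ (N m (ch A) + 1) / 2 ^ m :=
  le_of_tendsto' (tend_val A) fun n => (N_real m n _).le

theorem tend_half : Tendsto (fun m : ℕ => (1 : ℝ) / 2 ^ m) atTop (𝓝 0) := by
  simpa using tendsto_pow_atTop_nhds_zero_of_lt_one (show (0 : ℝ) ≤ 1 / 2 by norm_num)
    (by norm_num)

theorem tend_val' (A : Set ℕ) :
    Tendsto (fun m => (N m (ch A) + 1 : ℝ) / 2 ^ m) atTop (𝓝 (val A)) := by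
  simpa [add_div] using (tend_val A).add tend_half

theorem le_val (A : Set ℕ) (m : ℕ) : (N m (ch A) : ℝ) / 2 ^ m ≤ val A :=
  ge_of_tendsto' (tend_val' A) fun n => (N_real n m _).le

theorem val_nonneg (A : Set ℕ) : 0 ≤ val A := by simpa [N_zero] using le_val A 0
theorem val_le_one (A : Set ℕ) : val A ≤ 1 := by simpa [N_zero] using val_le A 0

theorem val_compl (A : Set ℕ) : val A = 1 - val Aᶜ := by
  have := (tend_val A).add (tend_val' Aᶜ)
  have e : ∀ m, (N m (ch A) : ℝ) / 2 ^ m + (N m (ch Aᶜ) + 1 : ℝ) / 2 ^ m = 1 := fun m => by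
    have h1 := N_not m (ch A)
    rw [show (fun i => !ch A i) = ch Aᶜ from funext fun i => by
      by_cases h : i ∈ A <;> simp [ch, h]] at h1
    have h2 : (N m (ch A) : ℝ) + N m (ch Aᶜ) + 1 = 2 ^ m := by exact_mod_cast h1
    rw [← add_div, ← add_assoc, h2, div_self (by positivity)]
  simp only [e] at this
  linarith [tendsto_nhds_unique this tendsto_const_nhds]

theorem rce_val {A : Set ℕ} (h : Sig 1 Aᶜ) : RightCE (val A) := by
  obtain ⟨D, hD, hm, H⟩ := re_stage (sig1_iff.1 h)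
  refine ⟨val_nonneg A, re_of_exists (fun q (r : ℕ × ℕ) =>
    decide ((num (pre (fun i => !D i r.2) r.1) + 1) * 2 ^ q.2 < q.1 * 2 ^ r.1))
    (CI.lt (CI.mul (CI.add (ci_num (CI.pre (x := fun (q : (ℕ × ℕ) × ℕ × ℕ) i => !D i q.2.2)
      (CI.not (hD.comp (g := fun q : ((ℕ × ℕ) × ℕ × ℕ) × ℕ => (q.2, q.1.2.2)) (by fun_prop)))
      (by fun_prop))) (by fun_prop)) (by fun_prop)) (by fun_prop)) fun q => ?_⟩
  simp only [decide_eq_true_eq, ← dy_lt]
  constructor
  · intro h1
    obtain ⟨m, hm'⟩ := ((tend_val' A).eventually (gt_mem_nhds h1)).exists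
    have : ∀ᶠ t in atTop, ∀ i < m, (!D i t) = ch A i := by
      refine (eventually_all_finite (Set.finite_lt_nat m)).2 fun i _ => ?_
      by_cases hi : i ∈ A
      · refine Eventually.of_forall fun t => ?_
        have : ¬ D i t = true := fun h => (H i).2 ⟨t, h⟩ hi
        simp [ch, hi, this]
      · obtain ⟨s, hs⟩ := (H i).1 hi
        filter_upwards [eventually_ge_atTop s] with t ht
        simp [ch, hi, hm i s t ht hs]
    obtain ⟨t, ht⟩ := this.exists
    refine ⟨(m, t), ?_⟩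
    simp only [pre_congr ht]
    push_cast
    exact hm'
  · rintro ⟨⟨m, t⟩, h1⟩
    refine ((val_le A m).trans ?_).trans_lt h1
    refine div_le_div_of_nonneg_right ?_ (by positivity)
    have := N_mono (x := ch A) (y := fun i => !D i t) (n := m) fun i _ hi => by
      have : ¬ D i t = true := fun h => (H i).2 ⟨t, h⟩ (by simpa [ch] using hi)
      simpa using this
    exact_mod_cast Nat.succ_le_succ this

theorem dce_val {A : Set ℕ} (h : Sig 0 A ∨ Sig 1 A ∨ Sig 1 Aᶜ) : DCE (val A) := by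
  have h1 : Sig 1 A → DCE (val A) := fun h => ⟨(1 : ℕ), _, (rc_nat 1).rightCE 0 (by positivity),
    rce_val (A := Aᶜ) (by simpa using h), by rw [val_compl A, Nat.cast_one]⟩
  rcases h with h | h | h
  · exact h1 (sig1_iff.2 (ComputablePred.to_re h))
  · exact h1 h
  · exact ⟨_, (0 : ℕ), rce_val h, (rc_nat 0).rightCE 0 (by positivity), by simp⟩

theorem nondce_case {A : Set ℕ} (h : ¬ DCE (val A)) :
    DS (fun S => mu.real S = val A) = ∅ ∧
    DS (fun S => val A ≤ mu.real S) = DS (fun S => val A < mu.real S) ∧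
    DS (fun S => mu.real S ≤ val A) = (DS fun S => val A < mu.real S)ᶜ ∧
    DS (fun S => mu.real S < val A) = (DS fun S => val A < mu.real S)ᶜ ∧
    TuringEquivalent (chi (DS fun S => val A < mu.real S)) (chi (joinK A)) := by
  classical
  have hne : ∀ n, mu.real (Dif n) ≠ val A := fun n e => h (e ▸ dce_mu n)
  have hdy : ∀ k m : ℕ, val A ≠ (k : ℝ) / 2 ^ m := fun k m e => h (e ▸ dce_dy k m)
  refine ⟨Set.eq_empty_of_forall_notMem hne, Set.ext fun n => (hne n).symm.le_iff_lt,
    Set.ext fun n => by simp [DS], Set.ext fun n => (hne n).le_iff_lt.symm.trans not_lt.symm,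
    ?_, ?_⟩
  · let x : ℕ → ℕ := fun n => if n ∈ joinK A then 1 else 0
    have hx : CI (orc x) x := CI.self x
    have hK : CI (orc x) Kf := (hx.comp (g := fun e => 2 * e + 1) (by fun_prop)).of_eq fun e => by
      simp only [x, Kf, joinK, Set.mem_ofPred_eq, show (2 * e + 1) % 2 = 1 by omega,
        show (2 * e + 1) / 2 = e by omega]
      simp
    have hA : CI (orc x) (ch A) := (CI.beq (hx.comp (g := fun e => 2 * e) (by fun_prop))
      (CI.const 1)).of_eq fun e => by
      simp only [x, ch, joinK, Set.mem_ofPred_eq, show (2 * e) % 2 = 0 by omega,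
        show (2 * e) / 2 = e by omega]
      by_cases h : e ∈ A <;> simp [h]
    have hN : CI (orc x) fun m => N m (ch A) := ci_num (CI.pre (x := fun _ => ch A)
      (hA.comp (g := fun q : ℕ × ℕ => q.2) (by fun_prop)) CI.id')
    obtain ⟨⟨D, hD, HD⟩, E, hE, HE⟩ := upper_mu (α := ℕ × ℕ)
      (rc_dy (k := fun q => q.1) (m := fun q => q.2) (by fun_prop) (by fun_prop))
      ((rc_nat 0).comp (g := fun q : ℕ × ℕ => q.1) (by fun_prop)) (fun _ => by positivity)
      fun _ => by positivity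
    simp only [Nat.cast_zero, sub_zero] at HD HE
    have hD' := (hD.trans hK).comp
      (g := fun q : ℕ × ℕ × ℕ => ((q.1, N q.2.1 (ch A) + 1, q.2.1), q.2.2)) (by fun_prop)
    have hE' := (hE.trans hK).comp
      (g := fun q : ℕ × ℕ × ℕ => ((q.1, N q.2.1 (ch A), q.2.1), q.2.2)) (by fun_prop)
    obtain ⟨g, hg, Hg⟩ := CI.exists_choice (O := orc x) (p := fun (n : ℕ) (r : ℕ × ℕ) =>
      D (n, N r.1 (ch A) + 1, r.1) r.2 || E (n, N r.1 (ch A), r.1) r.2) (hD'.or hE') fun n => by
        rcases (hne n).lt_or_gt with l | l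
        · obtain ⟨m, hm⟩ := ((tend_val A).eventually (lt_mem_nhds l)).exists
          obtain ⟨s, hs⟩ := (HE (n, N m (ch A), m)).1 hm
          exact ⟨(m, s), by simp [hs]⟩
        · obtain ⟨m, hm⟩ := ((tend_val' A).eventually (gt_mem_nhds l)).exists
          obtain ⟨s, hs⟩ := (HD (n, N m (ch A) + 1, m)).1 (by push_cast; exact hm)
          exact ⟨(m, s), by simp [hs]⟩
    refine CI.ri (O := orc x) ((CI.toNat (hD'.comp (g := fun n => (n, g n)) (by fun_prop))).of_eq
      fun n => ?_)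
    have h1 := Hg n
    cases e : D (n, N (g n).1 (ch A) + 1, (g n).1) (g n).2
    · rw [e, Bool.false_or] at h1
      have := ((HE (n, _, _)).2 ⟨_, h1⟩).trans_le (le_val A _)
      rw [if_neg (show n ∉ DS fun S => val A < mu.real S from not_lt.2 this.le)]; rfl
    · have := (HD (n, _, _)).2 ⟨_, e⟩
      push_cast at this
      rw [if_pos (show n ∈ DS fun S => val A < mu.real S from (val_le A _).trans_lt this)]; rfl
  · let x : ℕ → ℕ := fun n => if n ∈ DS (fun S => val A < mu.real S) then 1 else 0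
    have hx : CI (orc x) x := CI.self x
    have hx' : ∀ n, (x n == 1) = decide (val A < mu.real (Dif n)) := fun n => by
      by_cases h : val A < mu.real (Dif n) <;> simp [x, DS, h]
    obtain ⟨f, hf, Hf⟩ := realize (rc_dy (k := fun e : ℕ => min e.unpair.1 (2 ^ e.unpair.2))
      (m := fun e => e.unpair.2) (by fun_prop) (by fun_prop)) (rc_nat 0) fun e =>
        ⟨by simp, by rw [Nat.cast_zero]; positivity, by
          rw [div_le_one (by positivity)]; exact_mod_cast min_le_right _ _⟩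
    have hr : REPred fun e => ∃ s, Kst e s = true := re_of_nat _ (by fun_prop) fun _ => Iff.rfl
    obtain ⟨g, hg, Hg⟩ := realize (y := fun e => if ∃ s, Kst e s = true then 0 else 1)
      ((re_or (re_of_bool (p := fun q : ℕ × ℕ × ℕ => 2 ^ q.2.2 < q.2.1)
        (fun q => decide (2 ^ q.2.2 < q.2.1)) (by fun_prop) (by simp))
        (re_and (re_of_bool (p := fun q : ℕ × ℕ × ℕ => 0 < q.2.1) (fun q => decide (0 < q.2.1))
          (by fun_prop) (by simp)) (REPred.comp' hr (g := fun q : ℕ × ℕ × ℕ => q.1)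
          (by fun_prop)))).of_eq fun q => by
        beta_reduce
        split_ifs with h1
        · simp only [h1, and_true]
          rw [div_pos_iff_of_pos_right (by positivity), Nat.cast_pos]
          have : 0 < 2 ^ q.2.2 := by positivity
          omega
        · simp only [h1, and_false, or_false]
          rw [one_lt_div (by positivity)]
          exact_mod_cast Iff.rfl)
      (rc_nat 0) fun e => by split_ifs <;> simp
    have hf' := CI.of_comp (O := orc x) hf
    have hg' := CI.of_comp (O := orc x) hg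
    have hb : ∀ m, (x (f (Nat.pair (2 * N m (ch A) + 1) (m + 1))) == 1) = !ch A m := fun m => by
      have h1 := N_lt m (ch A)
      have h2 := le_val A (m + 1)
      have h3 := (val_le A (m + 1)).lt_of_ne (by
        have := hdy (N (m + 1) (ch A) + 1) (m + 1)
        push_cast at this; exact this)
      rw [hx', Hf, Nat.unpair_pair, min_eq_left (by rw [pow_succ]; omega), Nat.cast_zero, sub_zero]
      rw [N_succ] at h2 h3
      cases e : ch A m <;> rw [e] at h2 h3
      · simpa using h3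
      · simpa using h2
    have hN : CI (orc x) fun m => N m (ch A) := CI.of_rec1
      (h := fun m k => 2 * k + (!(x (f (Nat.pair (2 * k + 1) (m + 1))) == 1)).toNat)
      (by fun_prop) fun m => by rw [hb, N_succ, Bool.not_not]
    have h1 : val A < 1 := (val_le_one A).lt_of_ne (by simpa using hdy 1 0)
    refine CI.ri (O := orc x) (CI.of_eq (f := fun n => cond (n % 2 == 0)
      (!(x (f (Nat.pair (2 * N (n / 2) (ch A) + 1) (n / 2 + 1))) == 1)).toNat
      (!(x (g (n / 2)) == 1)).toNat) (by fun_prop) fun n => ?_)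
    have hK : (∃ s, Kst (n / 2) s = true) ↔
        ((Denumerable.ofNat Nat.Partrec.Code (n / 2)).eval (n / 2)).Dom := by
      simp only [Kst, Option.isSome_iff_exists, Part.dom_iff_mem, ev_iff]
      exact exists_comm
    rw [hb, hx', Hg, Bool.not_not]
    simp only [joinK, Set.mem_ofPred_eq, ← hK]
    rcases Nat.mod_two_eq_zero_or_one n with e | e
    · by_cases h2 : n / 2 ∈ A <;> simp [e, h2, ch]
    · by_cases h2 : ∃ s, Kst (n / 2) s = true
      · simp [e, h2, val_nonneg]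
      · simp [e, h2, h1]

/-! ### cardinalities -/

open Cardinal

theorem mk_le_nat {S : Set (ℕ → Bool)} {c : ℕ} : (c : Cardinal) ≤ #S ↔ (c : ℕ∞) ≤ S.encard := by
  rw [← Set.toENat_cardinalMk]; exact (Cardinal.natCast_le_toENat).symm

theorem mk_eq_nat {S : Set (ℕ → Bool)} {c : ℕ} : #S = (c : Cardinal) ↔ S.encard = (c : ℕ∞) := by
  rw [← Set.toENat_cardinalMk]; exact (Cardinal.toENat_eq_natCast).symm

theorem card_finite (c : ℕ) :
    Complete (Sig 2) (DS fun S => ((c + 1 : ℕ) : Cardinal) ≤ #S) ∧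
    Complete (Sig 2) (DS fun S => (c : Cardinal) < #S) ∧
    Complete (PiS 2) (DS fun S => #S ≤ (c : Cardinal)) ∧
    Complete (PiS 2) (DS fun S => #S < ((c + 1 : ℕ) : Cardinal)) ∧
    Complete (PiS 2) (DS fun S => #S = 0) ∧
    Complete (Diff 2) (DS fun S => #S = ((c + 1 : ℕ) : Cardinal)) := by
  have h1 : ∀ c : ℕ, Complete (Sig 2) (DS fun S => ((c + 1 : ℕ) : Cardinal) ≤ #S) := fun c =>
    (ge_complete c).congr fun n => mk_le_nat.symm
  have h2 : ∀ c : ℕ, Complete (Sig 2) (DS fun S => (c : Cardinal) < #S) := fun c =>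
    (h1 c).congr fun n => by
      simp only [DS, Set.mem_ofPred_eq, Nat.cast_succ, ← Cardinal.succ_natCast, Order.succ_le_iff]
  exact ⟨h1 c, h2 c, (h2 c).compl.congr fun n => by simp [DS], (h1 c).compl.congr fun n => by simp [DS],
    (h2 0).compl.congr fun n => by simp [DS], (eq_complete c).congr fun n => mk_eq_nat.symm⟩

theorem card_aleph0 :
    Complete (Sig 3) (DS fun S => #S < ℵ₀) ∧ Complete (PiS 3) (DS fun S => ℵ₀ ≤ #S) ∧
    Complete Pi11 (DS fun S => #S = ℵ₀) := by
  have h1 : Complete (Sig 3) (DS fun S => #S < ℵ₀) := fin_complete.congr fun n => by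
    simp only [DS, Set.mem_ofPred_eq, Set.encard_ne_top_iff, Cardinal.lt_aleph0_iff_set_finite]
  refine ⟨h1, h1.compl.congr fun n => by
    simp only [DS, Set.mem_compl_iff, Set.mem_ofPred_eq, not_lt], ctbl_inf_complete.congr fun n => ?_⟩
  simp only [DS, Set.mem_ofPred_eq, le_antisymm_iff, le_aleph0_iff_set_countable,
    Cardinal.aleph0_le_mk_iff, Set.infinite_coe_iff]

theorem card_big (κ : Cardinal) :
    (ℵ₀ ≤ κ → κ < 𝔠 → Complete Pi11 (DS fun S => #S ≤ κ) ∧ Complete Sig11 (DS fun S => κ < #S)) ∧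
    (ℵ₀ < κ → κ ≤ 𝔠 → Complete Pi11 (DS fun S => #S < κ) ∧ Complete Sig11 (DS fun S => κ ≤ #S)) ∧
    (ℵ₀ < κ → κ < 𝔠 → DS (fun S => #S = κ) = ∅) := by
  refine ⟨fun h1 h2 => ?_, fun h1 h2 => ?_, fun h1 h2 => Set.eq_empty_of_forall_notMem
    fun n (h : #(Dif n) = κ) => ?_⟩
  · have : Complete Sig11 (DS fun S => κ < #S) := unc_complete.congr fun n =>
      ⟨fun h => by change κ < _; rw [mk_Dif h]; exact h2, fun h h' =>
        absurd ((le_aleph0_iff_set_countable.2 h').trans h1) (not_le.2 h)⟩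
    exact ⟨this.compl.congr fun n => by simp [DS], this⟩
  · have : Complete Sig11 (DS fun S => κ ≤ #S) := unc_complete.congr fun n =>
      ⟨fun h => by change κ ≤ _; rw [mk_Dif h]; exact h2, fun h h' =>
        absurd ((le_aleph0_iff_set_countable.2 h').trans_lt h1) (not_lt.2 h)⟩
    exact ⟨this.compl.congr fun n => by simp [DS], this⟩
  · by_cases h' : (Dif n).Countable
    · exact absurd (h ▸ le_aleph0_iff_set_countable.2 h') (not_le.2 h1)
    · exact absurd (h ▸ mk_Dif h') h2.ne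

theorem card_cont : Complete Sig11 (DS fun S => #S = 𝔠) :=
  unc_complete.congr fun _ => ⟨mk_Dif, not_countable_of⟩

end Pool.Agent.H62.Ic
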