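import Mathlib

set_option autoImplicit false

namespace H62.ImpEq

/-- `{→, ;}`-terms -/
inductive Tm : Type
  | var : ℕ → Tm
  | imp : Tm → Tm → Tm
  | comp : Tm → Tm → Tm

/-- relational composition -/
def rc {X : Type} (a b : Set (X × X)) : Set (X × X) := {p | ∃ y, (p.1, y) ∈ a ∧ (y, p.2) ∈ b}

/-- value of a term in the full implication semigroup over `T` -/
def eval {X : Type} (T : Set (X × X)) (v : ℕ → Set (X × X)) : Tm → Set (X × X)
  | .var i => v i
  | .imp s t => (T \ eval T v s) ∪ eval T v t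
  | .comp s t => rc (eval T v s) (eval T v t)

/-- `s ≈ t` holds in every full implication semigroup -/
def Valid (s t : Tm) : Prop :=
  ∀ (X : Type) (T : Set (X × X)), (∀ x y z, (x, y) ∈ T → (y, z) ∈ T → (x, z) ∈ T) →
    ∀ v : ℕ → Set (X × X), (∀ i, v i ⊆ T) → eval T v s = eval T v t

/-- Gödel numbering of terms -/
def enc : Tm → ℕ
  | .var i => 3 * i
  | .imp s t => 3 * Nat.pair (enc s) (enc t) + 1
  | .comp s t => 3 * Nat.pair (enc s) (enc t) + 2

end H62.ImpEq
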