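import Mathlib

set_option autoImplicit false

namespace H62.ImpFB

variable {L : Type} (ok : L → Prop) (tr : L → L → L → Prop)

/-- labelled strict posets on `ℕ` with consistent triangles -/
def Net (T : ℕ → ℕ → Prop) (lab : ℕ → ℕ → L) : Prop :=
  (∀ x y, T x y → ok (lab x y)) ∧ ∀ x y z, T x y → T y z → T x z ∧ tr (lab x y) (lab y z) (lab x z)

/-- local rule for inserting a point into an edge labelled `c` -/
def Rule (c a b : L) (f g : L → L) : Prop :=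
  ok a ∧ ok b ∧ tr a b c ∧
  (∀ p q, ok p → tr p c q → ok (f p) ∧ tr p a (f p) ∧ tr (f p) b q) ∧
  (∀ p q, ok p → tr c p q → ok (g p) ∧ tr b p (g p) ∧ tr a (g p) q) ∧
  (∀ p1 p2 p3 q2, ok p1 → ok p3 → tr p1 p2 p3 → tr p2 c q2 → tr p1 (f p2) (f p3)) ∧
  (∀ p1 p2 p3 q2, ok p1 → ok p3 → tr p2 p1 p3 → tr c p2 q2 → tr (g p2) p1 (g p3)) ∧
  ∀ p r q q1 q2, ok p → ok r → tr p c q1 → tr q1 r q → tr c r q2 → tr p q2 q → tr (f p) (g r) q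

lemma step (irr : ∀ a, ¬tr a a a) {T : ℕ → ℕ → Prop} {lab : ℕ → ℕ → L} (N : Net ok tr T lab) {m : ℕ}
    (hm : ∀ u v, T u v → u < m ∧ v < m) {x y : ℕ} (h : T x y) {a b : L} {f g : L → L}
    (R : Rule ok tr (lab x y) a b f g) : ∃ T' lab', Net ok tr T' lab' ∧ (∀ u v, T' u v → u < m + 1 ∧ v < m + 1) ∧
      (∀ u v, T u v → T' u v ∧ lab' u v = lab u v) ∧ T' x m ∧ T' m y ∧ lab' x m = a ∧ lab' m y = b := by
  classical
  obtain ⟨n1, n2⟩ := N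
  obtain ⟨r1, r2, r3, r4, r5, r6, r7, r8⟩ := R
  have ir : ∀ u, ¬T u u := fun u hu => irr _ (n2 _ _ _ hu hu).2
  have hx := hm _ _ h
  let T' : ℕ → ℕ → Prop := fun u v => T u v ∨ (v = m ∧ (u = x ∨ T u x)) ∨ (u = m ∧ (v = y ∨ T y v))
  let lab' : ℕ → ℕ → L := fun u v => if v = m then (if u = x then a else f (lab u x)) else
    if u = m then (if v = y then b else g (lab y v)) else lab u v
  have e0 : ∀ u v, T u v → lab' u v = lab u v := fun u v h => by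
    have := hm _ _ h
    simp only [lab', if_neg this.1.ne, if_neg this.2.ne]
  have e1 : lab' x m = a := by simp [lab']
  have e2 : lab' m y = b := by simp [lab', hx.2.ne]
  have e3 : ∀ u, T u x → lab' u m = f (lab u x) := fun u h => by
    have : u ≠ x := fun e => ir x (e ▸ h)
    simp [lab', this]
  have e4 : ∀ v, T y v → lab' m v = g (lab y v) := fun v h => by
    have : v ≠ y := fun e => ir y (e ▸ h)
    simp [lab', this, (hm _ _ h).2.ne]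
  have nm : ∀ u, ¬T u m ∧ ¬T m u := fun u => ⟨fun h => (hm _ _ h).2.false, fun h => (hm _ _ h).1.false⟩
  refine ⟨T', lab', ⟨?_, ?_⟩, ?_, fun u v h => ⟨.inl h, e0 _ _ h⟩, .inr (.inl ⟨rfl, .inl rfl⟩),
    .inr (.inr ⟨rfl, .inl rfl⟩), e1, e2⟩
  · rintro u v (h1 | ⟨rfl, rfl | h1⟩ | ⟨rfl, rfl | h1⟩)
    · rw [e0 _ _ h1]; exact n1 _ _ h1
    · rwa [e1]
    · rw [e3 _ h1]; exact (r4 _ _ (n1 _ _ h1) (n2 _ _ _ h1 h).2).1
    · rwa [e2]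
    · rw [e4 _ h1]; exact (r5 _ _ (n1 _ _ h1) (n2 _ _ _ h h1).2).1
  · rintro u v w (h1 | ⟨rfl, rfl | h1⟩ | ⟨rfl, rfl | h1⟩) (h2 | ⟨rfl, rfl | h2⟩ | ⟨h3, rfl | h2⟩)
    any_goals first | exact ((nm _).1 ‹_›).elim | exact ((nm _).2 ‹_›).elim | omega
    · have := n2 _ _ _ h1 h2
      rw [e0 _ _ h1, e0 _ _ h2, e0 _ _ this.1]
      exact ⟨.inl this.1, this.2⟩
    · rw [e0 _ _ h1, e1, e3 _ h1]
      exact ⟨.inr (.inl ⟨rfl, .inr h1⟩), (r4 _ _ (n1 _ _ h1) (n2 _ _ _ h1 h).2).2.1⟩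
    · have := n2 _ _ _ h1 h2
      rw [e0 _ _ h1, e3 _ h2, e3 _ this.1]
      exact ⟨.inr (.inl ⟨rfl, .inr this.1⟩), r6 _ _ _ _ (n1 _ _ h1) (n1 _ _ this.1) this.2 (n2 _ _ _ h2 h).2⟩
    · exact ((nm _).1 (h3 ▸ h1)).elim
    · exact ((nm _).1 (h3 ▸ h1)).elim
    · rw [e1, e2, e0 _ _ h]; exact ⟨.inl h, r3⟩
    · have := n2 _ _ _ h h2
      rw [e1, e4 _ h2, e0 _ _ this.1]
      exact ⟨.inl this.1, (r5 _ _ (n1 _ _ h2) this.2).2.2⟩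
    · have := n2 _ _ _ h1 h
      rw [e2, e3 _ h1, e0 _ _ this.1]
      exact ⟨.inl this.1, (r4 _ _ (n1 _ _ h1) this.2).2.2⟩
    · have a1 := n2 _ _ _ h1 h
      have a2 := n2 _ _ _ a1.1 h2
      have a3 := n2 _ _ _ h h2
      rw [e3 _ h1, e4 _ h2, e0 _ _ a2.1]
      exact ⟨.inl a2.1, r8 _ _ _ _ _ (n1 _ _ h1) (n1 _ _ h2) a1.2 a2.2 a3.2 (n2 _ _ _ h1 a3.1).2⟩
    · rw [e2, e0 _ _ h2, e4 _ h2]
      exact ⟨.inr (.inr ⟨rfl, .inr h2⟩), (r5 _ _ (n1 _ _ h2) (n2 _ _ _ h h2).2).2.1⟩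
    · exact (ir _ h).elim
    · exact (ir _ (n2 _ _ _ h h2).1).elim
    · have := n2 _ _ _ h1 h2
      rw [e4 _ h1, e0 _ _ h2, e4 _ this.1]
      exact ⟨.inr (.inr ⟨rfl, .inr this.1⟩), r7 _ _ _ _ (n1 _ _ h2) (n1 _ _ this.1) this.2 (n2 _ _ _ h h1).2⟩
    · exact (ir _ (n2 _ _ _ h h1).1).elim
    · exact (ir _ (n2 _ _ _ h (n2 _ _ _ h1 h2).1).1).elim
    · exact ((nm _).1 (h3 ▸ h1)).elim
    · exact ((nm _).1 (h3 ▸ h1)).elim
  · rintro u v (h1 | ⟨rfl, rfl | h1⟩ | ⟨rfl, rfl | h1⟩)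
    any_goals have := hm _ _ h1
    all_goals omega

/-- step-by-step construction -/
lemma build (irr : ∀ a, ¬tr a a a) {D : Type} [Countable D] (dem : D → L → Prop) (ans : D → L → L → Prop)
    (H : ∀ d c, ok c → dem d c → ∃ a b f g, ans d a b ∧ Rule ok tr c a b f g) {l : L} (hl : ok l) :
    ∃ T lab, Net ok tr T lab ∧ T 0 1 ∧ lab 0 1 = l ∧
      ∀ d x y, T x y → dem d (lab x y) → ∃ z, T x z ∧ T z y ∧ ans d (lab x z) (lab z y) := by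
  classical
  obtain ⟨e, he⟩ := exists_surjective_nat (Option (ℕ × ℕ × D))
  let S := fun n => {p : (ℕ → ℕ → Prop) × (ℕ → ℕ → L) // Net ok tr p.1 p.2 ∧ ∀ u v, p.1 u v → u < n + 2 ∧ v < n + 2}
  have st : ∀ n (p : S n), ∃ q : S (n + 1), (∀ u v, p.1.1 u v → q.1.1 u v ∧ q.1.2 u v = p.1.2 u v) ∧
      ∀ d x y, e n.unpair.1 = some (x, y, d) → p.1.1 x y → dem d (p.1.2 x y) →
        ∃ z, q.1.1 x z ∧ q.1.1 z y ∧ ans d (q.1.2 x z) (q.1.2 z y) := by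
    intro n p
    by_cases h : ∃ d x y, e n.unpair.1 = some (x, y, d) ∧ p.1.1 x y ∧ dem d (p.1.2 x y)
    · obtain ⟨d, x, y, h1, h2, h3⟩ := h
      obtain ⟨a, b, f, g, h4, R⟩ := H d _ (p.2.1.1 _ _ h2) h3
      obtain ⟨T, lab, b1, b2, b3, b4, b5, b6, b7⟩ := step ok tr irr p.2.1 p.2.2 h2 R
      refine ⟨⟨(T, lab), b1, b2⟩, b3, fun d' x' y' c1 _ _ => ?_⟩
      obtain ⟨rfl, rfl, rfl⟩ : x = x' ∧ y = y' ∧ d = d' := by simpa [h1] using c1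
      exact ⟨_, b4, b5, by simpa only [b6, b7]⟩
    · exact ⟨⟨p.1, p.2.1, fun u v h => by have := p.2.2 u v h; omega⟩, fun _ _ h => ⟨h, rfl⟩,
        fun d x y a b c => (h ⟨d, x, y, a, b, c⟩).elim⟩
  choose nx h1 h2 using st
  let s : ∀ n, S n := fun n => Nat.rec (motive := S) ⟨(fun u v => u = 0 ∧ v = 1, fun _ _ => l),
    ⟨fun _ _ _ => hl, fun _ _ _ a b => by omega⟩, fun _ _ a => by omega⟩ nx n
  have mono : ∀ n k, n ≤ k → ∀ u v, (s n).1.1 u v → (s k).1.1 u v ∧ (s k).1.2 u v = (s n).1.2 u v := by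
    intro n k h u v a
    induction k, h using Nat.le_induction with
    | base => exact ⟨a, rfl⟩
    | succ k _ ih => exact ⟨(h1 k _ u v ih.1).1, (h1 k _ u v ih.1).2.trans ih.2⟩
  let T := fun u v => ∃ n, (s n).1.1 u v
  let lab := fun u v => if h : T u v then (s h.choose).1.2 u v else l
  have e1 : ∀ n u v, (s n).1.1 u v → lab u v = (s n).1.2 u v := fun n u v a => by
    have h : T u v := ⟨n, a⟩
    simp only [lab, dif_pos h]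
    exact (mono _ _ (le_max_left _ n) _ _ h.choose_spec).2.symm.trans (mono _ _ (le_max_right _ _) _ _ a).2
  refine ⟨T, lab, ⟨?_, ?_⟩, ⟨0, rfl, rfl⟩, e1 0 _ _ ⟨rfl, rfl⟩, ?_⟩
  · rintro x y ⟨n, a⟩
    exact e1 n _ _ a ▸ (s n).2.1.1 _ _ a
  · rintro x y z ⟨n, a⟩ ⟨k, b⟩
    replace a := (mono _ _ (le_max_left n k) _ _ a).1
    replace b := (mono _ _ (le_max_right n k) _ _ b).1
    have c := (s _).2.1.2 _ _ _ a b
    rw [e1 _ _ _ a, e1 _ _ _ b, e1 _ _ _ c.1]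
    exact ⟨⟨_, c.1⟩, c.2⟩
  · rintro d x y ⟨n, a⟩ b
    obtain ⟨k, hk⟩ := he (some (x, y, d))
    replace a := (mono _ _ (Nat.right_le_pair k n) _ _ a).1
    obtain ⟨z, c1, c2, c3⟩ := h2 _ (s _) d x y (by rwa [Nat.unpair_pair]) a (e1 _ _ _ a ▸ b)
    exact ⟨z, ⟨_ + 1, c1⟩, ⟨_ + 1, c2⟩, by rwa [e1 (_ + 1) _ _ c1, e1 (_ + 1) _ _ c2]⟩

end H62.ImpFB
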