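import Pool.Agent.H62.ImpEqDefs

set_option autoImplicit false

namespace H62.ImpEq

/-- value of a term in an arbitrary algebra `(S, i, c)` with two binary operations -/
def ev {S : Type} (i c : S → S → S) (v : ℕ → S) : Tm → S
  | .var k => v k
  | .imp s t => i (ev i c v s) (ev i c v t)
  | .comp s t => c (ev i c v s) (ev i c v t)

/-- the algebra `(S, i, c)` satisfies the equation `s ≈ t` -/
def Sat {S : Type} (i c : S → S → S) (s t : Tm) : Prop := ∀ v : ℕ → S, ev i c v s = ev i c v t

end H62.ImpEq
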