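import Pool.Agent.H62.ImpFB1
import Pool.Agent.H62.ImpFBDefs

set_option autoImplicit false

namespace H62.ImpFB
open H62.ImpEq

structure At where
  s : ℕ
  t : ℕ
  i : ℕ
  j : ℕ
  col : Prop
  bit : Prop

def R (n i j : ℕ) (p q : Prop) : Prop := ((j = i ∨ j = i + 1) → (p ↔ q)) ∧ (i = n ∧ j = 0 → ¬(p ↔ q))

def red (a : At) : Prop := 1 ≤ a.s ∧ a.s ≤ 2 ∧ 4 ≤ a.t ∧ a.t ≤ 5 ∧ a.col

def tri (n : ℕ) (a b c : At) : Prop :=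
  a.s < a.t ∧ b.s < b.t ∧ a.s = c.s ∧ a.t = b.s ∧ b.t = c.t ∧ (1 ≤ c.s → c.t ≤ 5 →
    (c.s = 1 → a.i = c.i) ∧ (c.t = 5 → b.j = c.j) ∧ (red a ∨ red b → c.col) ∧
    (c.s = 1 → a.t = 3 → c.t = 5 → c.col → R n c.i c.j a.bit b.bit))

def cc (n : ℕ) (P Q : Set At) : Set At := {c | ∃ a ∈ P, ∃ b ∈ Q, tri n a b c}
def ii (P Q : Set At) : Set At := Pᶜ ∪ Q

def ok (k : ℕ) (l : At × Prop) : Prop :=
  (l.1.s = 1 → l.1.t ≤ 5 → l.1.i ≠ k) ∧ (l.1.s = 1 → l.1.t = 3 → (l.1.bit ↔ (l.2 ↔ k < l.1.i))) ∧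
    (l.1.s = 3 → l.1.t = 5 → (l.1.bit ↔ (l.2 ↔ k < l.1.j)))

def tr (n : ℕ) (a b c : At × Prop) : Prop :=
  tri n a.1 b.1 c.1 ∧ (b.1.t = 3 → 1 ≤ a.1.s → (c.2 ↔ b.2)) ∧ (a.1.s = 3 → b.1.t ≤ 5 → (c.2 ↔ a.2)) ∧
    (a.1.t = 3 → red c.1 → ¬(a.1.s = 1 ∧ b.1.t = 5) → (a.2 ↔ b.2))

def mk (k s t i j : ℕ) (col ph : Prop) : At × Prop :=
  (⟨s, t, i, j, col, ph ↔ k < if s = 1 then i else j⟩, ph)

lemma rule {n k : ℕ} (hk : k < n) {c : At × Prop} (hc : ok k c) {a b : At} (h : tri n a b c.1)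
    (ha : a.s = 1 → a.t ≤ 5 → a.i ≠ k) (hb : b.s = 1 → b.t ≤ 5 → b.i ≠ k) :
    ∃ pa pb f g, Rule (ok k) (tr n) c (a, pa) (b, pb) f g := by
  obtain ⟨pa, pb, h1, h2, h3, h4⟩ : ∃ pa pb, ok k (a, pa) ∧ ok k (b, pb) ∧ tr n (a, pa) (b, pb) c ∧
      (a.t = 3 → ¬(a.s = 1 ∧ b.t = 5) → (pa ↔ pb)) := by
    refine ⟨if a.s = 1 ∧ a.t = 3 then (a.bit ↔ k < a.i) else if a.s = 3 ∧ a.t = 5 then (a.bit ↔ k < a.j) else
      if a.t = 3 then (b.bit ↔ k < b.j) else c.2,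
      if b.s = 1 ∧ b.t = 3 then (b.bit ↔ k < b.i) else if b.s = 3 ∧ (b.t = 5 ∨ a.s ≠ 1) then (b.bit ↔ k < b.j) else
      if b.s = 3 then (a.bit ↔ k < a.i) else c.2, ?_⟩
    simp only [ok, tr, h, true_and]
    simp only [tri, ok] at h hc
    refine ⟨⟨ha, ?_, ?_⟩, ⟨hb, ?_, ?_⟩, ⟨?_, ?_, ?_⟩, ?_⟩ <;> intros <;> split_ifs <;> grind
  refine ⟨pa, pb, fun p => mk k p.1.s a.t p.1.i a.j (red a ∨ red p.1) (if a.t = 3 then pa else p.2),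
    fun p => mk k b.s p.1.t b.i p.1.j (red b ∨ red p.1) (if a.t = 3 then pb else p.2), h1, h2, h3, ?_, ?_, ?_, ?_, ?_⟩
  all_goals simp only [ok, tr, tri, mk, red, R] at *
  · intro p q a1 a2
    refine ⟨⟨?_, ?_, ?_⟩, ⟨⟨?_, ?_, ?_, ?_, ?_, fun _ _ => ⟨?_, ?_, ?_, ?_⟩⟩, ?_, ?_, ?_⟩,
      ⟨?_, ?_, ?_, ?_, ?_, fun _ _ => ⟨?_, ?_, ?_, ?_⟩⟩, ?_, ?_, ?_⟩ <;> grind (splits := 30)
  · intro p q a1 a2
    refine ⟨⟨?_, ?_, ?_⟩, ⟨⟨?_, ?_, ?_, ?_, ?_, fun _ _ => ⟨?_, ?_, ?_, ?_⟩⟩, ?_, ?_, ?_⟩,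
      ⟨?_, ?_, ?_, ?_, ?_, fun _ _ => ⟨?_, ?_, ?_, ?_⟩⟩, ?_, ?_, ?_⟩ <;> grind (splits := 30)
  · intro p1 p2 p3 q2 a1 a2 a3 a4
    refine ⟨⟨?_, ?_, ?_, ?_, ?_, fun _ _ => ⟨?_, ?_, ?_, ?_⟩⟩, ?_, ?_, ?_⟩ <;> grind (splits := 30)
  · intro p1 p2 p3 q2 a1 a2 a3 a4
    refine ⟨⟨?_, ?_, ?_, ?_, ?_, fun _ _ => ⟨?_, ?_, ?_, ?_⟩⟩, ?_, ?_, ?_⟩ <;> grind (splits := 30)
  · intro p r q q1 q2 a1 a2 a3 a4 a5 a6
    grind

lemma locrep (S : Finset (Set At)) {n : ℕ} (hn : S.card * 6 + 1 < n) (a₀ : At) :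
    ∃ (T : Set (ℕ × ℕ)) (h : Set At → Set (ℕ × ℕ)), (∀ x y z, (x, y) ∈ T → (y, z) ∈ T → (x, z) ∈ T) ∧
      (∀ P, h P ⊆ T) ∧ (∀ P Q, h (ii P Q) = (T \ h P) ∪ h Q) ∧
      (∀ P ∈ S, ∀ Q ∈ S, h (cc n P Q) = rc (h P) (h Q)) ∧ ∀ P, (0, 1) ∈ h P ↔ a₀ ∈ P := by
  classical
  have : ∀ (P : Set At) (t : ℕ), ∃ b : At, ∀ a ∈ P, a.s = 1 → a.t = t → b ∈ P ∧ b.s = 1 ∧ b.t = t := by
    intro P t
    by_cases h : ∃ a ∈ P, a.s = 1 ∧ a.t = t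
    · exact h.imp fun _ h _ _ _ _ => h
    · exact ⟨a₀, fun a h1 h2 h3 => (h ⟨a, h1, h2, h3⟩).elim⟩
  choose ch hch using this
  obtain ⟨k, hk, hU⟩ := Finset.exists_mem_notMem_of_card_lt_card (t := Finset.range n)
    (s := insert a₀.i ((S ×ˢ Finset.range 6).image fun p => (ch p.1 p.2).i)) (by
      refine (Finset.card_insert_le _ _).trans_lt ?_
      have := Finset.card_image_le (s := S ×ˢ Finset.range 6) (f := fun p => (ch p.1 p.2).i)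
      simp only [Finset.card_product, Finset.card_range] at this ⊢
      omega)
  simp only [Finset.mem_insert, Finset.mem_image, Finset.mem_product, Finset.mem_range, not_or, not_exists,
    not_and, Prod.forall, and_imp] at hU hk
  obtain ⟨T, lab, ⟨-, h1⟩, h2, h3, h4⟩ := build (ok k) (tr n) (fun a h => by have := h.1; unfold tri at this; omega)
    (D := S × S) (fun d c => c.1 ∈ cc n d.1 d.2) (fun d a b => a.1 ∈ d.1.1 ∧ b.1 ∈ d.2.1)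
    (l := (a₀, if a₀.s = 1 then (a₀.bit ↔ k < a₀.i) else (a₀.bit ↔ k < a₀.j))) (by
      rintro ⟨⟨P, hP⟩, Q, hQ⟩ c hc ⟨a, ha, b, hb, h⟩
      obtain ⟨a, ha, b, hb, h, h1, h2⟩ : ∃ a ∈ P, ∃ b ∈ Q, tri n a b c.1 ∧ (a.s = 1 → a.t ≤ 5 → a.i ≠ k) ∧
          (b.s = 1 → b.t ≤ 5 → b.i ≠ k) := by
        have e1 := hch P a.t a ha
        have e2 := hch Q b.t b hb
        have e3 := hU.2 P a.t hP
        have e4 := hU.2 Q b.t hQ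
        by_cases c1 : b.s = 1
        · exact ⟨a, ha, ch Q b.t, (e2 c1 rfl).1, by unfold tri at *; grind⟩
        by_cases c2 : a.s = 1 ∧ 5 < b.t
        · exact ⟨ch P a.t, (e1 c2.1 rfl).1, b, hb, by unfold tri at *; grind⟩
        · exact ⟨a, ha, b, hb, h, by unfold tri ok at *; grind⟩
      obtain ⟨pa, pb, f, g, r⟩ := rule hk hc h h1 h2
      exact ⟨_, _, f, g, ⟨ha, hb⟩, r⟩) (by unfold ok; grind)
  refine ⟨{p | T p.1 p.2}, fun P => {p | T p.1 p.2 ∧ (lab p.1 p.2).1 ∈ P}, fun _ _ _ a b => (h1 _ _ _ a b).1,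
    fun _ _ h => h.1, fun P Q => ?_, fun P hP Q hQ => Set.ext fun p => ⟨fun ⟨a, b⟩ => ?_, fun ⟨y, a, b⟩ => ?_⟩,
    fun P => by simp [h2, h3]⟩
  · ext p
    simp only [ii, Set.mem_union, Set.mem_sdiff, Set.mem_ofPred_eq, Set.mem_compl_iff]
    tauto
  · obtain ⟨z, c1, c2, c3, c4⟩ := h4 (⟨P, hP⟩, ⟨Q, hQ⟩) _ _ a b
    exact ⟨z, ⟨c1, c3⟩, c2, c4⟩
  · exact ⟨(h1 _ _ _ a.1 b.1).1, _, a.2, _, b.2, (h1 _ _ _ a.1 b.1).2.1⟩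

def Cl (S : Set Tm) : Tm → Prop
  | .var _ => True
  | .imp s t => Cl S s ∧ Cl S t
  | .comp s t => s ∈ S ∧ t ∈ S ∧ Cl S s ∧ Cl S t

lemma exists_cl (s : Tm) : ∃ S : Set Tm, S.Finite ∧ ∀ S', S ⊆ S' → Cl S' s := by
  induction s with
  | var => exact ⟨∅, Set.finite_empty, fun _ _ => trivial⟩
  | imp s t ih1 ih2 =>
    obtain ⟨⟨A, a, a'⟩, B, b, b'⟩ := And.intro ih1 ih2
    exact ⟨A ∪ B, a.union b, fun _ h => ⟨a' _ (by grind), b' _ (by grind)⟩⟩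
  | comp s t ih1 ih2 =>
    obtain ⟨⟨A, a, a'⟩, B, b, b'⟩ := And.intro ih1 ih2
    exact ⟨insert s (insert t (A ∪ B)), ((a.union b).insert _).insert _, fun _ h =>
      ⟨by grind, by grind, a' _ (by grind), b' _ (by grind)⟩⟩

/-- every valid equation holds in almost all the algebras -/
lemma sat_of_valid {s t : Tm} (h : Valid s t) : ∀ᶠ n in Filter.atTop, Sat ii (cc n) s t := by
  classical
  obtain ⟨⟨A, a, a'⟩, B, b, b'⟩ := And.intro (exists_cl s) (exists_cl t)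
  filter_upwards [Filter.eventually_gt_atTop ((a.union b).toFinset.card * 6 + 1)] with n hn v
  ext a₀
  obtain ⟨T, f, h1, h2, h3, h4, h5⟩ := locrep ((a.union b).toFinset.image (ev ii (cc n) v)) (n := n)
    (by have := Finset.card_image_le (s := (a.union b).toFinset) (f := ev ii (cc n) v); omega) a₀
  have : ∀ u, Cl (A ∪ B) u → eval T (fun i => f (v i)) u = f (ev ii (cc n) v u) := fun u hu => by
    induction u with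
    | var => rfl
    | imp s t ih1 ih2 => rw [eval, ev, h3, ih1 hu.1, ih2 hu.2]
    | comp s t ih1 ih2 =>
      rw [eval, ev, h4 _ (Finset.mem_image_of_mem _ (by simpa using hu.1)) _
        (Finset.mem_image_of_mem _ (by simpa using hu.2.1)), ih1 hu.2.2.1, ih2 hu.2.2.2]
  rw [← h5, ← h5, ← this _ (a' _ Set.subset_union_left), ← this _ (b' _ Set.subset_union_right),
    h _ T h1 _ fun _ => h2 _]

end H62.ImpFB
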