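import Pool.Agent.H62.ImpFB2

set_option autoImplicit false

namespace H62.ImpFB
open H62.ImpEq Tm

variable {X : Type}

def un (s t : Tm) : Tm := imp (imp s t) t
def top : Tm := imp (var 0) (var 0)
def w0 : List (Tm × Tm) → Tm
  | [] => var 0
  | p :: L => un (un (imp (imp p.1 p.2) (var 0)) (imp (imp p.2 p.1) (var 0))) (w0 L)
def Z (L : List (Tm × Tm)) : Tm :=
  un (un (w0 L) (comp top (w0 L))) (un (comp (w0 L) top) (comp top (comp (w0 L) top)))

section
variable {T : Set (X × X)} (hT : ∀ x y z, (x, y) ∈ T → (y, z) ∈ T → (x, z) ∈ T)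
  {v : ℕ → Set (X × X)} (hv : ∀ i, v i ⊆ T)
include hT hv

lemma eval_sub (s : Tm) : eval T v s ⊆ T := by
  induction s with
  | var i => exact hv i
  | imp s t _ ih => exact Set.union_subset Set.sdiff_subset ih
  | comp s t ih1 ih2 => exact fun _ ⟨_, a, b⟩ => hT _ _ _ (ih1 a) (ih2 b)

lemma eval_un (s t : Tm) : eval T v (un s t) = eval T v s ∪ eval T v t := by
  ext p
  have := @eval_sub _ _ hT _ hv s p
  simp only [un, eval, Set.mem_union, Set.mem_sdiff]
  tauto

omit hT in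
lemma eval_top : eval T v top = T := Set.sdiff_union_of_subset (hv 0)

lemma mem_w0 (L : List (Tm × Tm)) (p : X × X) :
    p ∈ eval T v (w0 L) ↔ p ∈ v 0 ∨ ∃ q ∈ L, ¬(p ∈ eval T v q.1 ↔ p ∈ eval T v q.2) := by
  induction L with
  | nil => simp [w0, eval]
  | cons q L ih =>
    have := @eval_sub _ _ hT _ hv q.1 p
    have := @eval_sub _ _ hT _ hv q.2 p
    simp only [w0, eval_un hT hv, eval, Set.mem_union, Set.mem_sdiff, ih, List.mem_cons, exists_eq_or_imp]
    have := @hv 0 p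
    generalize (∃ q ∈ L, ¬(p ∈ eval T v q.1 ↔ p ∈ eval T v q.2)) = A
    grind

def cut (T : Set (X × X)) (p : X × X) : Set (X × X) :=
  {q | q ∈ T ∧ (q.1 = p.1 ∨ (p.1, q.1) ∈ T) ∧ (q.2 = p.2 ∨ (q.2, p.2) ∈ T)}

lemma eval_cut (p : X × X) (s : Tm) : eval (cut T p) (fun i => v i ∩ cut T p) s = eval T v s ∩ cut T p := by
  induction s with
  | var i => rfl
  | imp s t ih1 ih2 =>
    ext q
    have : q ∈ cut T p → q ∈ T := And.left
    simp only [eval, ih1, ih2, Set.mem_union, Set.mem_sdiff, Set.mem_inter_iff]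
    tauto
  | comp s t ih1 ih2 =>
    ext q
    have h1 := fun y => @eval_sub _ _ hT _ hv s (q.1, y)
    have h2 := fun y => @eval_sub _ _ hT _ hv t (y, q.2)
    simp only [eval, ih1, ih2, rc, Set.mem_inter_iff, Set.mem_ofPred_eq]
    simp only [cut, Set.mem_ofPred_eq]
    grind

end

lemma valid_of (L : List (Tm × Tm)) (s t : Tm)
    (h : ∀ (X : Type) (T : Set (X × X)) (v : ℕ → Set (X × X)), (∀ x y z, (x, y) ∈ T → (y, z) ∈ T → (x, z) ∈ T) →
      (∀ i, v i ⊆ T) → v 0 = ∅ → (∀ q ∈ L, eval T v q.1 = eval T v q.2) → eval T v s = eval T v t) :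
    Valid (un s (Z L)) (un t (Z L)) := by
  intro X T hT v hv
  ext p
  rw [eval_un hT hv, eval_un hT hv]
  by_cases hp : p ∈ eval T v (Z L)
  · simp [hp]
  by_cases hpT : p ∈ T
  swap
  · simp [hp, mt (@eval_sub _ _ hT _ hv s p) hpT, mt (@eval_sub _ _ hT _ hv t p) hpT]
  have key : ∀ r ∈ cut T p, r ∉ eval T v (w0 L) := fun r hr this => hp (by
    simp only [Z, eval_un hT hv, eval, eval_top hv, Set.mem_union]
    obtain ⟨x, y⟩ := r
    obtain ⟨-, rfl | a, rfl | b⟩ := hr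
    exacts [.inl (.inl this), .inr (.inl ⟨_, this, b⟩), .inl (.inr ⟨_, a, this⟩), .inr (.inr ⟨_, a, _, this, b⟩)])
  have := h X (cut T p) (fun i => v i ∩ cut T p) (fun x y z a b => ⟨hT _ _ _ a.1 b.1, a.2.1, b.2.2⟩)
    (fun _ => Set.inter_subset_right)
    (Set.eq_empty_of_forall_notMem fun r hr => key r hr.2 ((mem_w0 hT hv L r).mpr (.inl hr.1))) fun q hq => by
    rw [eval_cut hT hv, eval_cut hT hv]
    ext r
    exact and_congr_left fun hr => by_contra fun hc => key r hr ((mem_w0 hT hv L r).mpr (Or.inr ⟨q, hq, hc⟩))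
  rw [eval_cut hT hv, eval_cut hT hv] at this
  have hc : p ∈ cut T p := ⟨hpT, .inl rfl, .inl rfl⟩
  simpa [hp, hc] using Set.ext_iff.mp this p

lemma of_sat {n : ℕ} {L : List (Tm × Tm)} {s t : Tm} (h : Sat ii (cc n) (un s (Z L)) (un t (Z L)))
    (v : ℕ → Set At) (h0 : v 0 = ∅) (hL : ∀ q ∈ L, ev ii (cc n) v q.1 = ev ii (cc n) v q.2) :
    ev ii (cc n) v s = ev ii (cc n) v t := by
  have u : ∀ s t, ev ii (cc n) v (un s t) = ev ii (cc n) v s ∪ ev ii (cc n) v t := fun s t => by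
    ext; simp [un, ev, ii]; tauto
  have e : ev ii (cc n) v (w0 L) = ∅ := by
    clear h
    induction L with
    | nil => exact h0
    | cons q L ih => simp [w0, u, ev, ii, h0, hL q (by simp), ih fun q hq => hL q (by simp [hq])]
  simpa [Z, u, ev, e, cc] using h v

end H62.ImpFB
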