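import Mathlib

set_option autoImplicit false

namespace Pool.Agent.H62.Wiggle

open Set Filter Topology Real

noncomputable def term (n : ℕ) (x : ℝ) : ℝ := (1 / 2) ^ n * cos (7 ^ n * π * x)

noncomputable def w (x : ℝ) : ℝ := ∑' n, term n x

lemma term_le (n : ℕ) (x : ℝ) : ‖term n x‖ ≤ (1 / 2) ^ n := by
  rw [term, norm_mul, Real.norm_eq_abs, Real.norm_eq_abs, abs_of_pos (by positivity)]
  exact mul_le_of_le_one_right (by positivity) (abs_cos_le_one _)

lemma summable_term (x : ℝ) : Summable fun n => term n x :=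
  Summable.of_norm_bounded summable_geometric_two fun n => term_le n x

lemma continuous_w : Continuous w :=
  continuous_tsum (fun n => by unfold term; fun_prop) summable_geometric_two
    fun n x => term_le n x

lemma abs_w_le (x : ℝ) : |w x| ≤ 2 := by
  rw [← Real.norm_eq_abs, ← tsum_geometric_two]
  exact tsum_of_norm_bounded summable_geometric_two.hasSum fun n => term_le n x

lemma tail (N j : ℕ) : ∑' n, term (n + N) ((j : ℝ) / 7 ^ N) = (-1) ^ j * (2 * (1 / 2) ^ N) := by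
  have : ∀ n, term (n + N) ((j : ℝ) / 7 ^ N) = ((-1) ^ j * (1 / 2) ^ N) * (1 / 2) ^ n := by
    intro n
    have h1 : (7 : ℝ) ^ (n + N) * π * (j / 7 ^ N) = ((7 ^ n * j : ℕ) : ℝ) * π := by
      push_cast; rw [pow_add]; field_simp
    rw [term, h1, cos_nat_mul_pi, pow_mul, Odd.neg_one_pow (Odd.pow (by decide)), pow_add]
    ring
  simp_rw [this]
  rw [tsum_mul_left, tsum_geometric_two]
  ring

lemma head (N : ℕ) (x y : ℝ) :
    |∑ n ∈ Finset.range N, term n x - ∑ n ∈ Finset.range N, term n y| ≤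
      2 * (7 / 2) ^ N * |x - y| := by
  induction N with
  | zero => simp
  | succ N ih =>
    rw [Finset.sum_range_succ, Finset.sum_range_succ, add_sub_add_comm]
    refine (abs_add_le _ _).trans ?_
    have h1 : |term N x - term N y| ≤ 4 * (7 / 2) ^ N * |x - y| := by
      rw [term, term, ← mul_sub, abs_mul, abs_of_pos (by positivity)]
      refine (mul_le_mul_of_nonneg_left (abs_cos_sub_cos_le _ _) (by positivity)).trans ?_
      rw [← mul_sub, abs_mul, abs_of_pos (by positivity)]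
      have h7 : (7 / 2 : ℝ) ^ N = (1 / 2) ^ N * 7 ^ N := by rw [← mul_pow]; norm_num
      rw [h7]
      have : π ≤ 4 := pi_le_four
      have h0 : 0 ≤ (1 / 2 : ℝ) ^ N * 7 ^ N * |x - y| := by positivity
      nlinarith
    have h0 : 0 ≤ (7 / 2 : ℝ) ^ N * |x - y| := by positivity
    rw [pow_succ]
    nlinarith

lemma alt (N j : ℕ) : 0 < (-1) ^ j * (w ((j : ℝ) / 7 ^ N) - w (((j + 1 : ℕ) : ℝ) / 7 ^ N)) := by
  unfold w
  rw [← (summable_term _).sum_add_tsum_nat_add N, ← (summable_term _).sum_add_tsum_nat_add N,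
    tail, tail]
  have h := head N ((j : ℝ) / 7 ^ N) (((j + 1 : ℕ) : ℝ) / 7 ^ N)
  have h2 : |(j : ℝ) / 7 ^ N - ((j + 1 : ℕ) : ℝ) / 7 ^ N| = 1 / 7 ^ N := by
    rw [← sub_div, abs_div, abs_of_pos (by positivity : (0 : ℝ) < 7 ^ N)]
    push_cast
    simp
  have h3 : 2 * (7 / 2 : ℝ) ^ N * (1 / 7 ^ N) = 2 * (1 / 2) ^ N := by
    rw [div_pow, div_pow, one_pow]; field_simp
  rw [h2, h3, abs_le] at h
  have hp : (0 : ℝ) < (1 / 2) ^ N := by positivity
  rcases neg_one_pow_eq_or ℝ j with hj | hj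
  · rw [pow_succ, hj]; linarith [h.1, h.2]
  · rw [pow_succ, hj]; linarith [h.1, h.2]

lemma w_zero : w 0 = 2 := by
  have := tail 0 0
  simpa [w] using this

lemma w_one : w 1 = -2 := by
  have := tail 0 1
  simpa [w] using this

lemma zigzag (u v : ℝ) (hu : 0 ≤ u) (huv : u < v) :
    ∃ a b c, u ≤ a ∧ a < b ∧ b < c ∧ c ≤ v ∧
      ((w a < w b ∧ w c < w b) ∨ (w b < w a ∧ w b < w c)) := by
  obtain ⟨N, hN⟩ := pow_unbounded_of_one_lt (3 / (v - u)) (by norm_num : (1 : ℝ) < 7)
  have hp : (0 : ℝ) < 7 ^ N := by positivity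
  rw [div_lt_iff₀ (by linarith)] at hN
  set j := ⌈u * 7 ^ N⌉₊ with hj
  have h1 : u * 7 ^ N ≤ j := Nat.le_ceil _
  have h2 : (j : ℝ) < u * 7 ^ N + 1 := Nat.ceil_lt_add_one (by positivity)
  refine ⟨j / 7 ^ N, ((j + 1 : ℕ) : ℝ) / 7 ^ N, ((j + 1 + 1 : ℕ) : ℝ) / 7 ^ N, ?_, ?_, ?_, ?_, ?_⟩
  · rw [le_div_iff₀ hp]; exact h1
  · gcongr; norm_num
  · gcongr; norm_num
  · rw [div_le_iff₀ hp]; push_cast; nlinarith
  · have a1 := alt N j
    have a2 := alt N (j + 1)
    rw [pow_succ] at a2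
    rcases neg_one_pow_eq_or ℝ j with hj | hj
    · rw [hj] at a1 a2; right; constructor <;> linarith
    · rw [hj] at a1 a2; left; constructor <;> linarith

/-- A continuous surjection of the unit interval that is monotone on no subinterval. -/
noncomputable def phi (a : unitInterval) : unitInterval :=
  ⟨(w a + 2) / 4, by
    have := abs_le.mp (abs_w_le a)
    constructor <;> linarith [this.1, this.2]⟩

lemma continuous_phi : Continuous phi :=
  Continuous.subtype_mk (((continuous_w.comp continuous_subtype_val).add continuous_const).div_const _) _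

lemma surjective_phi : Function.Surjective phi := by
  intro t
  have h := intermediate_value_Icc' (zero_le_one' ℝ) continuous_w.continuousOn
  rw [w_zero, w_one] at h
  obtain ⟨x, hx, hxt⟩ := h (show 4 * (t : ℝ) - 2 ∈ Icc (-2 : ℝ) 2 from
    ⟨by linarith [t.2.1], by linarith [t.2.2]⟩)
  refine ⟨⟨x, hx⟩, Subtype.ext ?_⟩
  simp only [phi]
  rw [hxt]; ring

lemma zigzag_phi (u v : unitInterval) (huv : u < v) :
    ∃ a b c, u ≤ a ∧ a < b ∧ b < c ∧ c ≤ v ∧
      ((phi a < phi b ∧ phi c < phi b) ∨ (phi b < phi a ∧ phi b < phi c)) := by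
  obtain ⟨a, b, c, h1, h2, h3, h4, h5⟩ := zigzag u v u.2.1 huv
  have hu := u.2.1
  have hv := v.2.2
  refine ⟨⟨a, by constructor <;> linarith⟩, ⟨b, by constructor <;> linarith⟩,
    ⟨c, by constructor <;> linarith⟩, h1, h2, h3, h4, ?_⟩
  simp only [← Subtype.coe_lt_coe, phi]
  rcases h5 with h | h
  · left; constructor <;> linarith [h.1, h.2]
  · right; constructor <;> linarith [h.1, h.2]

lemma not_const (u v : unitInterval) (huv : u < v) (r : unitInterval) :
    ∃ b, u ≤ b ∧ b ≤ v ∧ phi b ≠ r := by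
  obtain ⟨a, b, c, h1, h2, h3, h4, h5⟩ := zigzag_phi u v huv
  by_cases h : phi a = r
  · refine ⟨b, h1.trans h2.le, h3.le.trans h4, ?_⟩
    rw [← h]
    rcases h5 with h | h
    · exact h.1.ne'
    · exact h.1.ne
  · exact ⟨a, h1, (h2.le.trans h3.le).trans h4, h⟩

lemma not_inj (u v : unitInterval) (huv : u < v) : ¬ InjOn phi (Icc u v) := by
  intro hinj
  obtain ⟨a, b, c, h1, h2, h3, h4, h5⟩ := zigzag_phi u v huv
  have ha : a ∈ Icc u v := ⟨h1, (h2.le.trans h3.le).trans h4⟩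
  have hb : b ∈ Icc u v := ⟨h1.trans h2.le, h3.le.trans h4⟩
  have hc : c ∈ Icc u v := ⟨(h1.trans h2.le).trans h3.le, h4⟩
  rcases ContinuousOn.strictMonoOn_of_injOn_Icc' huv.le continuous_phi.continuousOn hinj with h | h
  · rcases h5 with h5 | h5
    · exact absurd (h hb hc h3) h5.2.le.not_gt
    · exact absurd (h ha hb h2) h5.1.le.not_gt
  · rcases h5 with h5 | h5
    · exact absurd (h ha hb h2) h5.1.le.not_gt
    · exact absurd (h hb hc h3) h5.2.le.not_gt

end Pool.Agent.H62.Wiggle
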