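import Pool.Agent.H62.Solen
import Pool.Agent.H62.Wiggle

set_option autoImplicit false

namespace Pool.Agent.H62.Irred

open Set Filter Topology Function unitInterval
open Pool.Agent.H62.Solen Pool.Agent.H62.Wiggle

lemma glue {Z A : Type} [MetricSpace Z] [CompactSpace Z] [TopologicalSpace A] [CompactSpace A]
    [Nonempty A] (j : A → Z) (hj : Continuous j) (hinj : Injective j) (p : A → ℝ)
    (hp : Continuous p) :
    ∃ (M : Type) (_ : MetricSpace M) (_ : CompactSpace M) (Ψ : Z → M), Continuous Ψ ∧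
      Surjective Ψ ∧ ∀ z z', Ψ z = Ψ z' ↔
        z = z' ∨ ∃ u u' : A, z = j u ∧ z' = j u' ∧ p u = p u' := by
  obtain ⟨α, hα⟩ := ContinuousMap.exists_extension' (hj.isClosedEmbedding hinj) (⟨p, hp⟩ : C(A, ℝ))
  have hα' : ∀ u, α (j u) = p u := fun u => congrFun hα u
  have hW : IsClosed (range j) := (isCompact_range hj).isClosed
  have hρ : ∀ z, Metric.infDist z (range j) = 0 ↔ z ∈ range j := fun z =>
    (hW.mem_iff_infDist_zero (range_nonempty j)).symm
  let P : Z → ℝ × ℝ × lp (fun _ : ℕ => ℝ) ⊤ := fun z =>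
    (α z, Metric.infDist z (range j), Metric.infDist z (range j) • kuratowskiEmbedding Z z)
  have hP : Continuous P := by
    have h1 := Metric.continuous_infDist_pt (range j)
    exact α.continuous.prodMk (h1.prodMk (h1.smul (kuratowskiEmbedding.isometry Z).continuous))
  refine ⟨range P, inferInstance, isCompact_iff_compactSpace.mp (isCompact_range hP),
    rangeFactorization P, hP.rangeFactorization, rangeFactorization_surjective, fun z z' => ?_⟩
  rw [Subtype.ext_iff]
  change P z = P z' ↔ _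
  constructor
  · intro h
    simp only [P, Prod.mk.injEq] at h
    obtain ⟨h1, h2, h3⟩ := h
    by_cases h0 : Metric.infDist z (range j) = 0
    · right
      obtain ⟨u, rfl⟩ := (hρ z).mp h0
      obtain ⟨u', rfl⟩ := (hρ z').mp (h2 ▸ h0)
      exact ⟨u, u', rfl, rfl, by rw [← hα', ← hα', h1]⟩
    · left
      rw [← h2] at h3
      exact (kuratowskiEmbedding.isometry Z).injective (smul_right_injective _ h0 h3)
  · rintro (rfl | ⟨u, u', rfl, rfl, h⟩)
    · rfl
    · simp only [P]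
      rw [hα', hα', h, (hρ _).mpr (mem_range_self u), (hρ _).mpr (mem_range_self u')]
      simp

lemma cantor_inj (A : Type) [TopologicalSpace A] [CompactSpace A] [T2Space A]
    [TotallyDisconnectedSpace A] [SecondCountableTopology A] :
    ∃ sg : A → ℕ → Bool, Continuous sg ∧ Injective sg := by
  have : Countable (TopologicalSpace.Clopens A) :=
    TopologicalSpace.Clopens.countable_iff_secondCountable.mpr inferInstance
  obtain ⟨U, hU⟩ := exists_surjective_nat (TopologicalSpace.Clopens A)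
  refine ⟨fun u n => (U n : Set A).boolIndicator u, continuous_pi fun n =>
    (continuous_boolIndicator_iff_isClopen _).mpr (U n).isClopen, fun u u' h => ?_⟩
  by_contra hne
  obtain ⟨V, hV, h1, h2⟩ := exists_isClopen_of_totally_separated hne
  obtain ⟨n, hn⟩ := hU ⟨V, hV⟩
  have h3 := congrFun h n
  simp only [hn] at h3
  have h4 : V.boolIndicator u = true := (mem_iff_boolIndicator V u).mp h1
  have h5 : V.boolIndicator u' = false := (notMem_iff_boolIndicator V u').mp h2
  change V.boolIndicator u = V.boolIndicator u' at h3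
  rw [h4, h5] at h3
  exact Bool.noConfusion h3

lemma cut_wire {Z : Type} [TopologicalSpace Z] [T2Space Z] (E W₁ W₂ : Set Z) (hE : IsCompact E)
    (h1 : IsClosed W₁) (h2 : IsClosed W₂)
    (h : ∀ T ⊆ E, IsClosed T → IsPreconnected T → (T ∩ W₁).Nonempty → (T ∩ W₂).Nonempty → False) :
    ∃ E₁ E₂ : Set Z, IsCompact E₁ ∧ IsCompact E₂ ∧ E ⊆ E₁ ∪ E₂ ∧ E₁ ⊆ E ∧ E₂ ⊆ E ∧
      Disjoint E₁ E₂ ∧ Disjoint E₁ W₂ ∧ Disjoint E₂ W₁ := by
  have : CompactSpace E := isCompact_iff_compactSpace.mp hE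
  let π : E → ConnectedComponents E := ConnectedComponents.mk
  have hπ : Continuous π := ConnectedComponents.continuous_coe
  have c1 : IsClosed (π '' (Subtype.val ⁻¹' W₁)) :=
    hπ.isClosedMap _ (h1.preimage continuous_subtype_val)
  have c2 : IsClosed (π '' (Subtype.val ⁻¹' W₂)) :=
    hπ.isClosedMap _ (h2.preimage continuous_subtype_val)
  have hsub : π '' (Subtype.val ⁻¹' W₁) ⊆ (π '' (Subtype.val ⁻¹' W₂))ᶜ := by
    rintro _ ⟨x, hx, rfl⟩ ⟨y, hy, hxy⟩
    have hc : connectedComponent y = connectedComponent x := ConnectedComponents.coe_eq_coe.mp hxy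
    refine h (Subtype.val '' connectedComponent x) (Subtype.coe_image_subset _ _) ?_ ?_
      ⟨x, ⟨x, mem_connectedComponent, rfl⟩, hx⟩ ⟨y, ⟨y, hc ▸ mem_connectedComponent, rfl⟩, hy⟩
    · exact (isClosed_connectedComponent.isCompact.image continuous_subtype_val).isClosed
    · exact isPreconnected_connectedComponent.image _ continuous_subtype_val.continuousOn
  obtain ⟨U, hU, hU1, hU2⟩ := exists_clopen_of_closed_subset_open c1 c2.isOpen_compl hsub
  refine ⟨Subtype.val '' (π ⁻¹' U), Subtype.val '' (π ⁻¹' Uᶜ),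
    ((hU.preimage hπ).isClosed.isCompact.image continuous_subtype_val),
    ((hU.compl.preimage hπ).isClosed.isCompact.image continuous_subtype_val), ?_,
    Subtype.coe_image_subset _ _, Subtype.coe_image_subset _ _, ?_, ?_, ?_⟩
  · intro z hz
    by_cases hh : π ⟨z, hz⟩ ∈ U
    · exact Or.inl ⟨_, hh, rfl⟩
    · exact Or.inr ⟨_, hh, rfl⟩
  · rw [Set.disjoint_left]
    rintro _ ⟨x, hx, rfl⟩ ⟨y, hy, hxy⟩
    rw [Subtype.ext hxy] at hy
    exact hy hx
  · rw [Set.disjoint_left]
    rintro _ ⟨x, hx, rfl⟩ hw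
    exact hU2 hx ⟨x, hw, rfl⟩
  · rw [Set.disjoint_left]
    rintro _ ⟨x, hx, rfl⟩ hw
    exact hx (hU1 ⟨x, hw, rfl⟩)

/-- lifting a connected set through a map that is injective over it -/
lemma lift_conn {Z M : Type} [TopologicalSpace Z] [TopologicalSpace M] [T2Space M]
    (Ψ : Z → M) (E : Set Z) (hΨ : ContinuousOn Ψ E) (hE : IsCompact E) (hi : InjOn Ψ E)
    (hT : IsPreconnected (Ψ '' E)) : IsPreconnected E := by
  have : CompactSpace E := isCompact_iff_compactSpace.mp hE
  have hc : Continuous (E.domRestrict Ψ) := hΨ.domRestrict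
  have h := hT.preimage_of_isClosedMap (f := E.domRestrict Ψ) hi.injective hc.isClosedMap
    (by rintro _ ⟨x, hx, rfl⟩; exact ⟨⟨x, hx⟩, rfl⟩)
  have h2 : (E.domRestrict Ψ) ⁻¹' (Ψ '' E) = univ :=
    eq_univ_of_forall fun x => ⟨x.1, x.2, rfl⟩
  rw [h2] at h
  simpa using h.image _ continuous_subtype_val.continuousOn

/-- preimages of intervals under monotone restrictions -/
lemma mono_preimage {M : Type} [TopologicalSpace M] (f : M → I) (D : Set M) (hD : IsCompact D)
    (hf : Continuous f) (hs : f '' D = univ) (hm : ∀ t, IsPreconnected (D ∩ f ⁻¹' {t}))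
    (s t : I) (hst : s ≤ t) : IsPreconnected (D ∩ f ⁻¹' Icc s t) := by
  have : CompactSpace D := isCompact_iff_compactSpace.mp hD
  have hc : Continuous (D.domRestrict f) := hf.continuousOn.domRestrict
  have hsurj : Surjective (D.domRestrict f) := by
    intro r
    obtain ⟨x, hx, rfl⟩ : r ∈ f '' D := hs ▸ mem_univ r
    exact ⟨⟨x, hx⟩, rfl⟩
  have hq := hc.isClosedMap.isQuotientMap hc hsurj
  have himg : ∀ S : Set I, Subtype.val '' (D.domRestrict f ⁻¹' S) = D ∩ f ⁻¹' S := by
    intro S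
    ext x
    constructor
    · rintro ⟨y, hy, rfl⟩; exact ⟨y.2, hy⟩
    · rintro ⟨h1, h2⟩; exact ⟨⟨x, h1⟩, h2, rfl⟩
  have h := hq.isCoinducing.isConnected_preimage_of_isClosed (fun r => by
    refine ⟨hsurj r, ?_⟩
    rw [← IsInducing.subtypeVal.isPreconnected_image, himg]
    exact hm r) isClosed_Icc (isConnected_Icc hst)
  rw [← himg]
  exact h.isPreconnected.image _ continuous_subtype_val.continuousOn

lemma eq_univ_of_meets (S : Set I) (hS : IsClosed S)
    (h : ∀ s t : I, s < t → (S ∩ Icc s t).Nonempty) : S = univ := by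
  rw [← hS.closure_eq, ← dense_iff_closure_eq, dense_iff_exists_between]
  intro a b hab
  obtain ⟨c, hac, hcb⟩ := exists_between hab
  obtain ⟨d, hcd, hdb⟩ := exists_between hcb
  obtain ⟨x, hx, hx1, hx2⟩ := h c d hcd
  exact ⟨x, hx, hac.trans_le hx1, hx2.trans_lt hdb⟩

lemma no_section (S : Set I) (hS : IsClosed S) (hs : phi '' S = univ) (s t : I) (hst : s < t) :
    ∃ a ∈ S, ∃ a' ∈ S, a < a' ∧ phi a = phi a' ∧ phi a ∈ Icc s t := by
  by_contra hcon
  push Not at hcon
  set E := S ∩ phi ⁻¹' Icc s t with hE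
  have hi : InjOn phi E := by
    intro a ha a' ha' h
    by_contra hne
    rcases lt_or_gt_of_ne hne with h1 | h1
    · exact hcon a ha.1 a' ha'.1 h1 h ha.2
    · exact hcon a' ha'.1 a ha.1 h1 h.symm ha'.2
  have himg : phi '' E = Icc s t := by
    rw [hE, image_inter_preimage, hs, univ_inter]
  have hc : IsPreconnected E := lift_conn phi E continuous_phi.continuousOn
    (hS.inter (isClosed_Icc.preimage continuous_phi)).isCompact hi
    (himg ▸ isPreconnected_Icc)
  obtain ⟨u, hu, hus⟩ : s ∈ phi '' E := himg ▸ left_mem_Icc.mpr hst.le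
  obtain ⟨v, hv, hvt⟩ : t ∈ phi '' E := himg ▸ right_mem_Icc.mpr hst.le
  have hne : u ≠ v := by
    rintro rfl
    exact hst.ne (hus.symm.trans hvt)
  rcases lt_or_gt_of_ne hne with h1 | h1
  · exact not_inj u v h1 (hi.mono (hc.Icc_subset hu hv))
  · exact not_inj v u h1 (hi.mono (hc.Icc_subset hv hu))

lemma e_injective : Injective e := by
  intro ω ω' h
  by_contra hne
  have := propP ω ω' hne {e ω} isClosed_singleton isPreconnected_singleton rfl h.symm
  obtain ⟨x, hx⟩ := exists_not_mem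
  have h2 : x ∈ ({e ω} : Set Sol) := this ▸ mem_univ x
  exact hx ⟨ω, h2.symm⟩

abbrev A {C : Type} (q : C → I) : Type := {u : C × I // q u.1 = phi u.2}

noncomputable def j {C : Type} {q : C → I} (sg : A q → ℕ → Bool) (u : A q) : C × Sol :=
  (u.1.1, e (sg u))

theorem main {C M : Type} [TopologicalSpace C] [CompactSpace C] [T2Space C]
    [TotallyDisconnectedSpace C] [MetricSpace M] [CompactSpace M]
    {q : C → I} (hq : Continuous q) (hqs : Surjective q)
    (hirr : ∀ E : Set C, IsClosed E → q '' E = univ → E = univ)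
    {sg : A q → ℕ → Bool} (hsg : Continuous sg) (hsi : Injective sg)
    {Ψ : C × Sol → M} (hΨ : Continuous Ψ) (hΨs : Surjective Ψ)
    (hΨe : ∀ z z', Ψ z = Ψ z' ↔
      z = z' ∨ ∃ u u' : A q, z = j sg u ∧ z' = j sg u' ∧ u.1.2 = u'.1.2) :
    ConnectedSpace M ∧ ∃ f : C(M, I), Surjective f ∧ (∀ t, IsPreconnected (f ⁻¹' {t})) ∧
      (∀ D : Set M, IsClosed D → D ≠ univ → f '' D = univ →
        ¬ ∀ t, IsPreconnected (D ∩ f ⁻¹' {t})) ∧
      ∀ p p' : M, ∃ K : Set M, IsClosed K ∧ IsConnected K ∧ p ∈ K ∧ p' ∈ K ∧ K ≠ univ := by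
  have hAcl : IsClosed {u : C × I | q u.1 = phi u.2} :=
    isClosed_eq (hq.comp continuous_fst) (continuous_phi.comp continuous_snd)
  have : CompactSpace (A q) := isCompact_iff_compactSpace.mp hAcl.isCompact
  have hj : Continuous (j sg) :=
    (continuous_fst.comp continuous_subtype_val).prodMk (continuous_e.comp hsg)
  have hji : Injective (j sg) := fun u u' h => hsi (e_injective (congrArg Prod.snd h))
  have hq' : ∀ z z', Ψ z = Ψ z' → q z.1 = q z'.1 := by
    intro z z' h
    rcases (hΨe z z').mp h with rfl | ⟨u, u', rfl, rfl, h2⟩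
    · rfl
    · exact u.2.trans (by rw [h2]; exact u'.2.symm)
  obtain ⟨f, hf⟩ : ∃ f : M → I, ∀ z, f (Ψ z) = q z.1 :=
    ⟨fun m => q (surjInv hΨs m).1, fun z => hq' _ _ (surjInv_eq hΨs _)⟩
  have hfc : Continuous f := by
    rw [(hΨ.isClosedMap.isQuotientMap hΨ hΨs).continuous_iff]
    have : f ∘ Ψ = q ∘ Prod.fst := funext hf
    rw [this]
    exact hq.comp continuous_fst
  obtain ⟨k, hk⟩ : ∃ k : I → M, ∀ u : A q, k u.1.2 = Ψ (j sg u) :=
    ⟨fun a => Ψ (j sg ⟨(surjInv hqs (phi a), a), surjInv_eq _ _⟩),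
      fun u => (hΨe _ _).mpr (Or.inr ⟨_, u, rfl, rfl, rfl⟩)⟩
  have hpc : Continuous fun u : A q => u.1.2 := continuous_snd.comp continuous_subtype_val
  have hps : Surjective fun u : A q => u.1.2 := fun a =>
    ⟨⟨(surjInv hqs (phi a), a), surjInv_eq _ _⟩, rfl⟩
  have hkc : Continuous k := by
    rw [(hpc.isClosedMap.isQuotientMap hpc hps).continuous_iff]
    have : (k ∘ fun u : A q => u.1.2) = Ψ ∘ j sg := funext hk
    rw [this]
    exact hΨ.comp hj
  have hfk : ∀ a, f (k a) = phi a := by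
    intro a
    obtain ⟨u, rfl⟩ := hps a
    simp only [hk, hf]
    exact u.2
  have hΨk : ∀ z a, Ψ z = k a → ∃ u : A q, z = j sg u ∧ u.1.2 = a := by
    intro z a h
    obtain ⟨u, rfl⟩ := hps a
    simp only [hk] at h
    rcases (hΨe _ _).mp h with rfl | ⟨u1, u2, rfl, h2, h3⟩
    · exact ⟨u, rfl, rfl⟩
    · exact ⟨u1, rfl, by rw [h3, ← hji h2]⟩
  -- copies of the solenoid
  let cp : C → Set M := fun c => range fun x => Ψ (c, x)
  have hcpc : ∀ c, Continuous fun x => Ψ (c, x) := fun c => hΨ.comp (Continuous.prodMk_right c)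
  have hcp1 : ∀ c, IsPreconnected (cp c) := fun c => isPreconnected_range (hcpc c)
  have hcp2 : ∀ c, IsClosed (cp c) := fun c => (isCompact_range (hcpc c)).isClosed
  have hcpk : ∀ c a, q c = phi a → k a ∈ cp c := fun c a h =>
    ⟨_, (hk ⟨(c, a), h⟩).symm⟩
  have hK : IsPreconnected (range k) := isPreconnected_range hkc
  have hKc : ∀ c, IsPreconnected (range k ∪ cp c) := by
    intro c
    obtain ⟨a, ha⟩ := surjective_phi (q c)
    exact hK.union (k a) (mem_range_self a) (hcpk c a ha.symm) (hcp1 c)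
  refine ⟨?_, ⟨f, hfc⟩, ?_, ?_, ?_, ?_⟩
  · have : PreconnectedSpace M := by
      refine ⟨isPreconnected_of_forall (k 0) fun y _ => ?_⟩
      obtain ⟨⟨c, x⟩, rfl⟩ := hΨs y
      exact ⟨range k ∪ cp c, subset_univ _, Or.inl (mem_range_self _), Or.inr ⟨x, rfl⟩, hKc c⟩
    exact ⟨⟨k 0⟩⟩
  · intro t
    obtain ⟨a, rfl⟩ := surjective_phi t
    exact ⟨k a, hfk a⟩
  · intro t
    obtain ⟨a, rfl⟩ := surjective_phi t
    refine isPreconnected_of_forall (k a) fun y hy => ?_
    obtain ⟨⟨c, x⟩, rfl⟩ := hΨs y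
    have hc : q c = phi a := (hf (c, x)).symm.trans hy
    refine ⟨cp c, ?_, hcpk c a hc, ⟨x, rfl⟩, hcp1 c⟩
    rintro _ ⟨x', rfl⟩
    exact (hf (c, x')).trans hc
  · intro D hD hDu hDs hm
    change f '' D = univ at hDs
    change ∀ t, IsPreconnected (D ∩ f ⁻¹' {t}) at hm
    -- every strip contains a point of the arc
    have stepb : ∀ s t : I, s < t → (phi '' (k ⁻¹' D) ∩ Icc s t).Nonempty := by
      intro s t hst
      by_contra hcon
      set T := D ∩ f ⁻¹' Icc s t with hT
      have hTc : IsClosed T := hD.inter (isClosed_Icc.preimage hfc)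
      have hTp : IsPreconnected T := mono_preimage f D hD.isCompact hfc hDs hm s t hst.le
      have hi : InjOn Ψ (Ψ ⁻¹' T) := by
        intro z hz z' _ h
        rcases (hΨe z z').mp h with rfl | ⟨u, u', rfl, rfl, h⟩
        · rfl
        · exfalso
          apply hcon
          rw [mem_preimage, ← hk] at hz
          exact ⟨phi u.1.2, ⟨u.1.2, hz.1, rfl⟩, by rw [← hfk]; exact hz.2⟩
      have hE := lift_conn Ψ (Ψ ⁻¹' T) hΨ.continuousOn (hTc.preimage hΨ).isCompact hi
        (by rw [image_preimage_eq _ hΨs]; exact hTp)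
      have hsub := (hE.image _ continuous_fst.continuousOn).subsingleton
      obtain ⟨m1, hm1, h1⟩ : s ∈ f '' D := hDs ▸ mem_univ s
      obtain ⟨m2, hm2, h2⟩ : t ∈ f '' D := hDs ▸ mem_univ t
      obtain ⟨z1, rfl⟩ := hΨs m1
      obtain ⟨z2, rfl⟩ := hΨs m2
      have := hsub ⟨z1, ⟨hm1, by rw [mem_preimage, h1]; exact left_mem_Icc.mpr hst.le⟩, rfl⟩
        ⟨z2, ⟨hm2, by rw [mem_preimage, h2]; exact right_mem_Icc.mpr hst.le⟩, rfl⟩
      rw [hf] at h1 h2
      exact hst.ne (by rw [← h1, ← h2, this])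
    have hSc : IsClosed (k ⁻¹' D) := hD.preimage hkc
    have stepc : phi '' (k ⁻¹' D) = univ :=
      eq_univ_of_meets _ (continuous_phi.isClosedMap _ hSc) stepb
    -- full copies
    have stepe : ∀ a ∈ k ⁻¹' D, ∀ a' ∈ k ⁻¹' D, a < a' → phi a = phi a' →
        ∃ c, q c = phi a ∧ ∀ x, Ψ (c, x) ∈ D := by
      intro a ha a' ha' haa' hphi
      by_contra hcon
      push Not at hcon
      obtain ⟨b, hab, hba, hb⟩ := not_const a a' haa' (phi a)
      set T := D ∩ f ⁻¹' {phi a} with hT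
      have hTc : IsClosed T := hD.inter (isClosed_singleton.preimage hfc)
      have hW1 : IsClosed (j sg '' {u | u.1.2 ≤ b}) :=
        hj.isClosedMap _ (isClosed_le hpc continuous_const)
      have hW2 : IsClosed (j sg '' {u | b ≤ u.1.2}) :=
        hj.isClosedMap _ (isClosed_le continuous_const hpc)
      obtain ⟨E₁, E₂, c1, c2, hcov, s1, s2, hdis, d1, d2⟩ :=
        cut_wire (Ψ ⁻¹' T) _ _ (hTc.preimage hΨ).isCompact hW1 hW2 (by
          rintro Y hY hYc hYp ⟨_, hy1, u1, hu1, rfl⟩ ⟨_, hy2, u2, hu2, rfl⟩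
          have hsub := (hYp.image _ continuous_fst.continuousOn).subsingleton
          have hq1 : q u1.1.1 = phi a := (hf (j sg u1)).symm.trans (hY hy1).2
          have hne : u1 ≠ u2 := by
            rintro rfl
            have : u1.1.2 = b := le_antisymm hu1 hu2
            exact hb (by rw [← this, ← u1.2, hq1])
          have hY' := propP (sg u1) (sg u2) (hsi.ne hne) (Prod.snd '' Y)
            (hYc.isCompact.image continuous_snd).isClosed
            (hYp.image _ continuous_snd.continuousOn) ⟨_, hy1, rfl⟩ ⟨_, hy2, rfl⟩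
          obtain ⟨x, hx⟩ := hcon u1.1.1 hq1
          obtain ⟨⟨c, x'⟩, hz, rfl⟩ : x ∈ Prod.snd '' Y := hY' ▸ mem_univ x
          have hc : c = u1.1.1 := hsub ⟨_, hz, rfl⟩ ⟨_, hy1, rfl⟩
          rw [← hc] at hx
          exact hx (hY hz).1)
      have hmem : ∀ a0, k a0 ∈ T → ∃ u : A q, u.1.2 = a0 ∧ j sg u ∈ Ψ ⁻¹' T := by
        intro a0 h0
        obtain ⟨u, rfl⟩ := hps a0
        exact ⟨u, rfl, by rw [mem_preimage, ← hk]; exact h0⟩
      obtain ⟨m, -, ⟨z1, hz1, rfl⟩, ⟨z2, hz2, h12⟩⟩ := isPreconnected_closed_iff.mp (hm (phi a))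
        (Ψ '' E₁) (Ψ '' E₂) (c1.image hΨ).isClosed (c2.image hΨ).isClosed
        (by
          intro m hm'
          obtain ⟨z, rfl⟩ := hΨs m
          rcases hcov hm' with h | h
          · exact Or.inl ⟨z, h, rfl⟩
          · exact Or.inr ⟨z, h, rfl⟩)
        (by
          obtain ⟨u, hu, hu'⟩ := hmem a ⟨ha, hfk a⟩
          refine ⟨Ψ (j sg u), hu', _, ?_, rfl⟩
          rcases hcov hu' with h | h
          · exact h
          · exact (Set.disjoint_left.mp d2 h ⟨u, by rw [mem_ofPred_eq, hu]; exact hab, rfl⟩).elim)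
        (by
          obtain ⟨u, hu, hu'⟩ := hmem a' ⟨ha', (hfk a').trans hphi.symm⟩
          refine ⟨Ψ (j sg u), hu', _, ?_, rfl⟩
          rcases hcov hu' with h | h
          · exact (Set.disjoint_left.mp d1 h ⟨u, by rw [mem_ofPred_eq, hu]; exact hba, rfl⟩).elim
          · exact h)
      rcases (hΨe _ _).mp h12 with rfl | ⟨u2, u1, rfl, rfl, h⟩
      · exact Set.disjoint_left.mp hdis hz1 hz2
      · rcases le_total u2.1.2 b with h1 | h1
        · exact Set.disjoint_left.mp d2 hz2 ⟨u2, h1, rfl⟩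
        · exact Set.disjoint_left.mp d1 hz1 ⟨u1, by rw [mem_ofPred_eq, ← h]; exact h1, rfl⟩
    have hC : IsClosed {c : C | ∀ x, Ψ (c, x) ∈ D} := by
      rw [Set.ofPred_forall]
      exact isClosed_iInter fun x => hD.preimage (hΨ.comp (Continuous.prodMk_left x))
    have hCu := hirr _ hC (eq_univ_of_meets _ (hq.isClosedMap _ hC) fun s t hst => by
      obtain ⟨a, ha, a', ha', h1, h2, h3⟩ := no_section _ hSc stepc s t hst
      obtain ⟨c, hc, hc'⟩ := stepe a ha a' ha' h1 h2
      exact ⟨phi a, ⟨c, hc', hc⟩, h3⟩)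
    apply hDu
    refine eq_univ_of_forall fun m => ?_
    obtain ⟨⟨c, x⟩, rfl⟩ := hΨs m
    have : c ∈ {c : C | ∀ x, Ψ (c, x) ∈ D} := hCu ▸ mem_univ c
    exact this x
  · intro p p'
    obtain ⟨⟨c, x⟩, rfl⟩ := hΨs p
    obtain ⟨⟨c', x'⟩, rfl⟩ := hΨs p'
    refine ⟨(range k ∪ cp c) ∪ (range k ∪ cp c'),
      ((isCompact_range hkc).isClosed.union (hcp2 c)).union
        ((isCompact_range hkc).isClosed.union (hcp2 c')),
      ⟨⟨k 0, Or.inl (Or.inl (mem_range_self _))⟩,
        (hKc c).union (k 0) (Or.inl (mem_range_self _)) (Or.inl (mem_range_self _)) (hKc c')⟩,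
      Or.inl (Or.inr ⟨x, rfl⟩), Or.inr (Or.inr ⟨x', rfl⟩), ?_⟩
    have : Infinite I := Set.Icc.infinite zero_lt_one
    obtain ⟨t, ht⟩ := Infinite.exists_notMem_finset ({q c, q c'} : Finset I)
    obtain ⟨c3, rfl⟩ := hqs t
    obtain ⟨x0, hx0⟩ := exists_not_mem
    intro hu
    have hmem : Ψ (c3, x0) ∈ (range k ∪ cp c) ∪ (range k ∪ cp c') := hu ▸ mem_univ _
    have hnk : Ψ (c3, x0) ∉ range k := by
      rintro ⟨a, ha⟩
      obtain ⟨u, hu, -⟩ := hΨk _ a ha.symm
      exact hx0 ⟨sg u, (congrArg Prod.snd hu).symm⟩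
    simp only [Finset.mem_insert, Finset.mem_singleton, not_or] at ht
    rcases hmem with (h | ⟨y, h⟩) | (h | ⟨y, h⟩)
    · exact hnk h
    · exact ht.1 (hq' _ _ h).symm
    · exact hnk h
    · exact ht.2 (hq' _ _ h).symm

theorem final : ∃ (M : Type) (_ : MetricSpace M) (_ : CompactSpace M),
    ConnectedSpace M ∧ ∃ f : C(M, I), Surjective f ∧ (∀ t, IsPreconnected (f ⁻¹' {t})) ∧
      (∀ D : Set M, IsClosed D → D ≠ univ → f '' D = univ →
        ¬ ∀ t, IsPreconnected (D ∩ f ⁻¹' {t})) ∧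
      ∀ p p' : M, ∃ K : Set M, IsClosed K ∧ IsConnected K ∧ p ∈ K ∧ p' ∈ K ∧ K ≠ univ := by
  obtain ⟨C, hC, hCs, hirr⟩ := exists_compact_surjective_zorn_subset Real.fromBinary_continuous
    Real.fromBinary_surjective
  let q : C → I := C.domRestrict Real.fromBinary
  have hq : Continuous q := Real.fromBinary_continuous.continuousOn.domRestrict
  have hqs : Surjective q := by
    intro t
    obtain ⟨x, hx, rfl⟩ : t ∈ Real.fromBinary '' C := hCs ▸ mem_univ t
    exact ⟨⟨x, hx⟩, rfl⟩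
  have hAcl : IsClosed {u : C × I | q u.1 = phi u.2} :=
    isClosed_eq (hq.comp continuous_fst) (continuous_phi.comp continuous_snd)
  have : CompactSpace (A q) := isCompact_iff_compactSpace.mp hAcl.isCompact
  have : TotallyDisconnectedSpace (A q) := by
    refine ⟨fun T _ hT u hu u' hu' => ?_⟩
    have h1 := (hT.image (fun u : A q => u.1.1)
      (continuous_fst.comp continuous_subtype_val).continuousOn).subsingleton
    have h2 := hT.image (fun u : A q => u.1.2)
      (continuous_snd.comp continuous_subtype_val).continuousOn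
    have key : ∀ u ∈ T, ∀ u' ∈ T, ¬ u.1.2 < u'.1.2 := by
      intro u hu u' hu' hlt
      obtain ⟨b, hb1, hb2, hb⟩ := not_const _ _ hlt (phi u.1.2)
      obtain ⟨w, hw, rfl⟩ := h2.Icc_subset ⟨u, hu, rfl⟩ ⟨u', hu', rfl⟩ ⟨hb1, hb2⟩
      apply hb
      have h3 : w.1.1 = u.1.1 := h1 ⟨w, hw, rfl⟩ ⟨u, hu, rfl⟩
      rw [← w.2, ← u.2, h3]
    exact Subtype.ext (Prod.ext (h1 ⟨u, hu, rfl⟩ ⟨u', hu', rfl⟩)
      (le_antisymm (not_lt.mp (key u' hu' u hu)) (not_lt.mp (key u hu u' hu'))))
  have : SecondCountableTopology (A q) := IsInducing.subtypeVal.secondCountableTopology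
  obtain ⟨sg, hsg, hsi⟩ := cantor_inj (A q)
  have : Nonempty (A q) := ⟨⟨(surjInv hqs (phi 0), 0), surjInv_eq _ _⟩⟩
  let : MetricSpace (C × Sol) := TopologicalSpace.metrizableSpaceMetric _
  obtain ⟨M, i1, i2, Ψ, hΨ, hΨs, hΨe⟩ := glue (Z := C × Sol) (j sg)
    ((continuous_fst.comp continuous_subtype_val).prodMk (continuous_e.comp hsg))
    (fun u u' h => hsi (e_injective (congrArg Prod.snd h))) (fun u => (u.1.2 : ℝ))
    (continuous_subtype_val.comp (continuous_snd.comp continuous_subtype_val))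
  refine ⟨M, i1, i2, main hq hqs (fun E hE hEs => ?_) hsg hsi hΨ hΨs ?_⟩
  · by_contra hne
    exact hirr E hne hE hEs
  · simpa only [Subtype.ext_iff] using hΨe

end Pool.Agent.H62.Irred
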