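import Mathlib

set_option autoImplicit false

namespace Pool.Agent.H62.Jones

open Set Filter Topology

noncomputable def x (i : ℕ) : ℝ := (1 / 2) ^ i + (-1 / 3) ^ i

noncomputable def r (n : ℕ) : ℝ := (1 / 2) ^ n - (1 / 4) * (-1 / 3) ^ n

noncomputable def sm (n : ℕ) (ε : ℕ → Bool) : ℝ := ∑' i, if ε i then x (n + 1 + i) else 0

def E (n : ℕ) : Set ℝ := range (sm n)

lemma abs_neg_third (i : ℕ) : |(-1 / 3 : ℝ) ^ i| = (1 / 3) ^ i := by
  rw [abs_pow]; norm_num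

lemma x_pos (i : ℕ) : 0 < x (i + 1) := by
  have h1 : (1 / 3 : ℝ) ^ (i + 1) < (1 / 2) ^ (i + 1) :=
    pow_lt_pow_left₀ (by norm_num) (by norm_num) (Nat.succ_ne_zero i)
  have h2 := neg_abs_le ((-1 / 3 : ℝ) ^ (i + 1))
  rw [abs_neg_third] at h2
  unfold x; linarith

lemma x_pos' (n i : ℕ) : 0 < x (n + 1 + i) := by
  rw [show n + 1 + i = (n + i) + 1 by ring]; exact x_pos _

lemma hasSum_x (n : ℕ) : HasSum (fun i => x (n + 1 + i)) (r n) := by
  have h1 := (hasSum_geometric_of_abs_lt_one (r := (1 / 2 : ℝ))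
    (by rw [abs_lt]; constructor <;> norm_num)).mul_left ((1 / 2) ^ (n + 1))
  have h2 := (hasSum_geometric_of_abs_lt_one (r := (-1 / 3 : ℝ))
    (by rw [abs_lt]; constructor <;> norm_num)).mul_left ((-1 / 3) ^ (n + 1))
  have e1 : (fun i => x (n + 1 + i)) = fun i => (1 / 2 : ℝ) ^ (n + 1) * (1 / 2) ^ i +
      (-1 / 3) ^ (n + 1) * (-1 / 3) ^ i := by
    funext i; simp only [x, pow_add]
  have e2 : r n = (1 / 2) ^ (n + 1) * (1 - 1 / 2)⁻¹ + (-1 / 3) ^ (n + 1) * (1 - -1 / 3)⁻¹ := by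
    simp only [r, pow_succ]; ring
  rw [e1, e2]
  exact h1.add h2

lemma term_le (n : ℕ) (ε : ℕ → Bool) (i : ℕ) :
    ‖if ε i then x (n + 1 + i) else 0‖ ≤ x (n + 1 + i) := by
  have := x_pos' n i
  split_ifs
  · rw [Real.norm_eq_abs, abs_of_pos this]
  · simpa using this.le

lemma summable_term (n : ℕ) (ε : ℕ → Bool) :
    Summable fun i => if ε i then x (n + 1 + i) else 0 :=
  Summable.of_norm_bounded (hasSum_x n).summable (term_le n ε)

lemma E_bounds {n : ℕ} {z : ℝ} (hz : z ∈ E n) : 0 ≤ z ∧ z ≤ r n := by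
  obtain ⟨ε, rfl⟩ := hz
  constructor
  · refine tsum_nonneg fun i => ?_
    split_ifs
    · exact (x_pos' n i).le
    · exact le_rfl
  · exact (le_abs_self _).trans (tsum_of_norm_bounded (hasSum_x n) (term_le n ε))

lemma E_step {n : ℕ} {z : ℝ} (hz : z ∈ E n) : z ∈ E (n + 1) ∨ z - x (n + 1) ∈ E (n + 1) := by
  obtain ⟨ε, rfl⟩ := hz
  have h : sm n ε = (if ε 0 then x (n + 1) else 0) + sm (n + 1) (fun i => ε (i + 1)) := by
    unfold sm
    rw [(summable_term n ε).tsum_eq_zero_add]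
    congr 2
    funext i
    rw [show n + 1 + (i + 1) = n + 1 + 1 + i by ring]
  rw [h]
  split_ifs
  · right; exact ⟨_, by ring⟩
  · left; exact ⟨_, by ring⟩

noncomputable def D : ℕ → ℝ
  | 0 => 0
  | (k + 1) => (((k + 1) % 2 : ℕ) : ℝ) - 3 * D ((k + 1) / 2)
decreasing_by omega

lemma D_zero : D 0 = 0 := by rw [D]

lemma D_even (k : ℕ) : D (2 * k) = -3 * D k := by
  rcases k with _ | k
  · simp [D_zero]
  · rw [show 2 * (k + 1) = (2 * k + 1) + 1 by ring, D,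
      show (2 * k + 1 + 1) % 2 = 0 by omega, show (2 * k + 1 + 1) / 2 = k + 1 by omega]
    simp

lemma D_odd (k : ℕ) : D (2 * k + 1) = 1 - 3 * D k := by
  rw [D, show (2 * k + 1) % 2 = 1 by omega, show (2 * k + 1) / 2 = k by omega]
  simp

lemma D_bound (t : ℕ) : ∀ k < 2 ^ t, |D k| ≤ (3 ^ t - 1) / 2 := by
  induction t with
  | zero => intro k hk; obtain rfl : k = 0 := by omega
            simp [D_zero]
  | succ t ih =>
    intro k hk
    rw [pow_succ] at hk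
    obtain ⟨j, rfl | rfl⟩ := Nat.even_or_odd' k
    · have := abs_le.mp (ih j (by omega))
      rw [D_even, pow_succ, abs_le]
      constructor <;> linarith [this.1, this.2]
    · have := abs_le.mp (ih j (by omega))
      rw [D_odd, pow_succ, abs_le]
      constructor <;> linarith [this.1, this.2]

lemma D_jump (d q : ℕ) : ∀ k, k + 1 = 2 ^ d * (2 * q + 1) →
    4 * (D (k + 1) - D k) + 1 = 5 * (-3) ^ d := by
  induction d with
  | zero =>
    intro k hk
    obtain rfl : k = 2 * q := by omega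
    rw [D_odd, D_even]; ring
  | succ d ih =>
    intro k hk
    have hpos : 0 < 2 ^ d * (2 * q + 1) := by positivity
    obtain ⟨j, hj⟩ : ∃ j, j + 1 = 2 ^ d * (2 * q + 1) := ⟨2 ^ d * (2 * q + 1) - 1, by omega⟩
    have hk2 : k + 1 = 2 * (j + 1) := by rw [hk, hj]; ring
    have hk3 : k = 2 * j + 1 := by omega
    have := ih j hj
    rw [hk2, hk3, D_even, D_odd, pow_succ]
    linarith

noncomputable def s (m k : ℕ) : ℝ := k * (1 / 2) ^ m + (-1 / 3) ^ m * D k

lemma E_decomp {n : ℕ} {z : ℝ} (hz : z ∈ E n) (t : ℕ) :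
    ∃ k < 2 ^ t, z - s (n + t) k ∈ E (n + t) := by
  induction t with
  | zero => exact ⟨0, by norm_num, by simpa [s, D_zero] using hz⟩
  | succ t ih =>
    obtain ⟨k, hk, h⟩ := ih
    rcases E_step h with h | h
    · refine ⟨2 * k, by rw [pow_succ]; omega, ?_⟩
      have : s (n + (t + 1)) (2 * k) = s (n + t) k := by
        simp only [s, D_even, ← add_assoc, pow_succ]; push_cast; ring
      rw [this]; exact h
    · refine ⟨2 * k + 1, by rw [pow_succ]; omega, ?_⟩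
      have : z - s (n + (t + 1)) (2 * k + 1) = z - s (n + t) k - x (n + t + 1) := by
        simp only [s, x, D_odd, ← add_assoc, pow_succ]; push_cast; ring
      rw [this]; exact h

lemma s_near (n t k : ℕ) (hk : k < 2 ^ t) :
    |s (n + t) k - k * (1 / 2) ^ (n + t)| ≤ ((1 / 3) ^ n - (1 / 3) ^ (n + t)) / 2 := by
  have h := D_bound t k hk
  simp only [s, add_sub_cancel_left, abs_mul, abs_neg_third]
  calc (1 / 3 : ℝ) ^ (n + t) * |D k| ≤ (1 / 3) ^ (n + t) * ((3 ^ t - 1) / 2) := by gcongr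
    _ = _ := by
      have : (1 / 3 : ℝ) ^ t * 3 ^ t = 1 := by rw [← mul_pow]; norm_num
      rw [pow_add]; linear_combination (1 / 3 : ℝ) ^ n / 2 * this

lemma r_le (m : ℕ) : r m ≤ (1 / 2) ^ m + (1 / 3) ^ m / 4 := by
  have h2 := neg_abs_le ((-1 / 3 : ℝ) ^ m)
  rw [abs_neg_third] at h2
  unfold r; linarith

lemma junction (m d q k : ℕ) (hk : k + 1 = 2 ^ d * (2 * q + 1)) :
    s m k + r m - s m (k + 1) = -(5 / 4) * ((-1 / 3) ^ m * (-3) ^ d) := by
  have := D_jump d q k hk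
  simp only [s, r]; push_cast
  linear_combination (-(-1 / 3 : ℝ) ^ m / 4) * this

lemma junction' (a d q k : ℕ) (hk : k + 1 = 2 ^ d * (2 * q + 1)) :
    s (a + d) k + r (a + d) - s (a + d) (k + 1) = -(5 / 4) * (-1 / 3) ^ a := by
  rw [junction _ d q k hk, pow_add, mul_assoc, ← mul_pow]; norm_num

/-- only two sub-branches can be present near a grid point -/
lemma two {n : ℕ} {z : ℝ} (hz : z ∈ E n) (t : ℕ) (κ : ℤ)
    (hκ : |z - κ * (1 / 2) ^ (n + t)| < (1 / 2) ^ (n + t) - (1 / 3) ^ n) :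
    ∃ k < 2 ^ t, z - s (n + t) k ∈ E (n + t) ∧ ((k : ℤ) = κ ∨ (k : ℤ) + 1 = κ) := by
  obtain ⟨k, hk, h⟩ := E_decomp hz t
  refine ⟨k, hk, h, ?_⟩
  have h1 := abs_le.mp (s_near n t k hk)
  have h2 := E_bounds h
  have h3 := r_le (n + t)
  have h4 := abs_lt.mp hκ
  have hp : (0 : ℝ) < (1 / 2) ^ (n + t) := by positivity
  have hq : (0 : ℝ) < (1 / 3) ^ (n + t) := by positivity
  have hq' : (0 : ℝ) < (1 / 3) ^ n := by positivity
  have a1 : (k : ℝ) < κ + 1 := by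
    by_contra hc
    push Not at hc
    nlinarith [h1.1, h1.2, h2.1, h2.2, h4.1, h4.2]
  have a2 : (κ : ℝ) < k + 2 := by
    by_contra hc
    push Not at hc
    nlinarith [h1.1, h1.2, h2.1, h2.2, h4.1, h4.2]
  have b1 : (k : ℤ) < κ + 1 := by exact_mod_cast a1
  have b2 : κ < (k : ℤ) + 2 := by exact_mod_cast a2
  omega

/-- reduce one branch -/
lemma red (n t : ℕ) (u a L ρ : ℝ) (κ : ℤ) (hρ : 0 ≤ ρ) (hL : 6 * ρ < L)
    (h1 : ∀ y ∈ Icc a (a + L), |y - u - κ * (1 / 2) ^ (n + t)| < (1 / 2) ^ (n + t) - (1 / 3) ^ n)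
    (h2 : ∀ k : ℕ, k + 1 < 2 ^ t → (k : ℤ) + 1 = κ →
      s (n + t) k + r (n + t) - s (n + t) (k + 1) ≤ ρ) :
    ∃ a' u', a ≤ a' ∧ a' + L / 3 ≤ a + L ∧
      ∀ y ∈ Icc a' (a' + L / 3), y - u ∈ E n → y - u' ∈ E (n + t) := by
  by_cases hc : ∃ k : ℕ, k + 1 < 2 ^ t ∧ (k : ℤ) + 1 = κ
  · obtain ⟨k, hk, hkκ⟩ := hc
    have h3 := h2 k hk hkκ
    rcases le_total (u + s (n + t) (k + 1)) (a + L / 2) with h | h
    · refine ⟨a + 2 * L / 3, u + s (n + t) (k + 1), by linarith, by linarith, fun y hy hyE => ?_⟩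
      obtain ⟨k', -, hk', h4 | h4⟩ := two hyE t κ (h1 y ⟨by linarith [hy.1], by linarith [hy.2]⟩)
      · obtain rfl : k' = k + 1 := by omega
        convert hk' using 1; ring
      · obtain rfl : k' = k := by omega
        have := (E_bounds hk').2
        linarith [hy.1]
    · refine ⟨a, u + s (n + t) k, le_rfl, by linarith, fun y hy hyE => ?_⟩
      obtain ⟨k', -, hk', h4 | h4⟩ := two hyE t κ (h1 y ⟨by linarith [hy.1], by linarith [hy.2]⟩)
      · obtain rfl : k' = k + 1 := by omega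
        have := (E_bounds hk').1
        linarith [hy.2]
      · obtain rfl : k' = k := by omega
        convert hk' using 1; ring
  · push Not at hc
    by_cases h0 : κ ≤ 0
    · refine ⟨a, u + s (n + t) 0, le_rfl, by linarith, fun y hy hyE => ?_⟩
      obtain ⟨k', -, hk', h4⟩ := two hyE t κ (h1 y ⟨by linarith [hy.1], by linarith [hy.2]⟩)
      obtain rfl : k' = 0 := by omega
      convert hk' using 1; ring
    · obtain ⟨k, hk⟩ : ∃ k : ℕ, (k : ℤ) + 1 = κ := ⟨(κ - 1).toNat, by omega⟩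
      refine ⟨a, u + s (n + t) k, le_rfl, by linarith, fun y hy hyE => ?_⟩
      obtain ⟨k', hlt, hk', h4 | h4⟩ :=
        two hyE t κ (h1 y ⟨by linarith [hy.1], by linarith [hy.2]⟩)
      · exact absurd hk (hc k (by omega))
      · obtain rfl : k' = k := by omega
        convert hk' using 1; ring

/-- reduce a list of branches -/
lemma redList (n t : ℕ) (ρ : ℝ) (hρ : 0 ≤ ρ) (U : List ℝ) : ∀ (a L : ℝ),
    6 * ρ * 3 ^ U.length < L →
    (∀ u ∈ U, ∃ κ : ℤ,
      (∀ y ∈ Icc a (a + L), |y - u - κ * (1 / 2) ^ (n + t)| < (1 / 2) ^ (n + t) - (1 / 3) ^ n) ∧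
      ∀ k : ℕ, k + 1 < 2 ^ t → (k : ℤ) + 1 = κ →
        s (n + t) k + r (n + t) - s (n + t) (k + 1) ≤ ρ) →
    ∃ a', ∃ U' : List ℝ, U'.length = U.length ∧ a ≤ a' ∧ a' + L / 3 ^ U.length ≤ a + L ∧
      ∀ y ∈ Icc a' (a' + L / 3 ^ U.length), (∀ u' ∈ U', y - u' ∉ E (n + t)) →
        ∀ u ∈ U, y - u ∉ E n := by
  induction U with
  | nil => intro a L _ _; exact ⟨a, [], rfl, le_rfl, by simp, by simp⟩
  | cons u U ih =>
    intro a L hL h
    rw [List.length_cons, pow_succ] at hL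
    have h3 : (1 : ℝ) ≤ 3 ^ U.length := one_le_pow₀ (by norm_num)
    obtain ⟨κ, hκ1, hκ2⟩ := h u List.mem_cons_self
    obtain ⟨a1, u', ha1, ha2, hu'⟩ := red n t u a L ρ κ hρ (by nlinarith) hκ1 hκ2
    obtain ⟨a', U', hlen, hb1, hb2, hU'⟩ := ih a1 (L / 3) (by linarith) (fun v hv => by
      obtain ⟨κ', h1, h2⟩ := h v (List.mem_cons_of_mem _ hv)
      exact ⟨κ', fun y hy => h1 y ⟨by linarith [hy.1], by linarith [hy.2]⟩, h2⟩)
    have heq : L / 3 ^ (u :: U).length = L / 3 / 3 ^ U.length := by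
      rw [List.length_cons, pow_succ]; field_simp
    rw [heq]
    refine ⟨a', u' :: U', by simp [hlen], by linarith, by linarith, fun y hy hy' v hv => ?_⟩
    rcases List.mem_cons.mp hv with rfl | hv
    · intro hE
      exact hy' u' List.mem_cons_self (hu' y ⟨by linarith [hy.1], by linarith [hy.2]⟩ hE)
    · exact hU' y hy (fun w hw => hy' w (List.mem_cons_of_mem _ hw)) v hv

/-- a gap of one branch next to an odd grid point of even level -/
lemma gap (n t : ℕ) (ht : 1 ≤ t) (hev : Even (n + t)) (κ : ℤ) (hκ : Odd κ)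
    (hn : 3 * (1 / 3 : ℝ) ^ n < (1 / 2) ^ (n + t)) :
    ∃ g : ℝ, |g - κ * (1 / 2) ^ (n + t)| ≤ (1 / 3) ^ n ∧
      ∀ z ∈ Icc g (g + (1 / 3) ^ (n + t)), z ∉ E n := by
  have hq : (0 : ℝ) < (1 / 3) ^ (n + t) := by positivity
  have hq' : (0 : ℝ) < (1 / 3) ^ n := by positivity
  have hle : (1 / 3 : ℝ) ^ (n + t) ≤ (1 / 3) ^ n / 3 := by
    calc (1 / 3 : ℝ) ^ (n + t) ≤ (1 / 3) ^ (n + 1) :=
          pow_le_pow_of_le_one (by norm_num) (by norm_num) (by omega)
      _ = _ := by rw [pow_succ]; ring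
  have key : ∀ g : ℝ, |g - κ * (1 / 2) ^ (n + t)| ≤ (1 / 3) ^ n →
      ∀ z ∈ Icc g (g + (1 / 3) ^ (n + t)),
        |z - κ * (1 / 2) ^ (n + t)| < (1 / 2) ^ (n + t) - (1 / 3) ^ n := by
    intro g hg z hz
    rw [abs_le] at hg
    rw [abs_lt]
    constructor <;> linarith [hz.1, hz.2, hg.1, hg.2]
  by_cases hc : ∃ k : ℕ, k + 1 < 2 ^ t ∧ (k : ℤ) + 1 = κ
  · obtain ⟨k, hk, hkκ⟩ := hc
    obtain ⟨q, hq2⟩ := hκ
    have hj := junction' (n + t) 0 q.toNat k (by omega)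
    rw [add_zero, show (-1 / 3 : ℝ) = -(1 / 3) by ring, hev.neg_pow] at hj
    have hs := abs_le.mp (s_near n t (k + 1) hk)
    have hκ' : (κ : ℝ) = ((k + 1 : ℕ) : ℝ) := by rw [← hkκ]; push_cast; ring
    have hg : |s (n + t) (k + 1) - 9 / 8 * (1 / 3) ^ (n + t) - κ * (1 / 2) ^ (n + t)| ≤
        (1 / 3) ^ n := by
      rw [hκ', abs_le]
      constructor <;> linarith [hs.1, hs.2]
    refine ⟨_, hg, fun z hz hE => ?_⟩
    obtain ⟨k', -, hk', h4 | h4⟩ := two hE t κ (key _ hg z hz)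
    · obtain rfl : k' = k + 1 := by omega
      have := (E_bounds hk').1
      linarith [hz.2]
    · obtain rfl : k' = k := by omega
      have := (E_bounds hk').2
      linarith [hz.1]
  · push Not at hc
    have hg : |(κ : ℝ) * (1 / 2) ^ (n + t) - κ * (1 / 2) ^ (n + t)| ≤ (1 / 3) ^ n := by
      simp
    refine ⟨_, hg, fun z hz hE => ?_⟩
    obtain ⟨k', hlt, hk', h4⟩ := two hE t κ (key _ hg z hz)
    obtain ⟨q, hq2⟩ := hκ
    obtain ⟨t', rfl⟩ : ∃ t', t = t' + 1 := ⟨t - 1, by omega⟩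
    rw [pow_succ] at hlt
    simp only [pow_succ 2 t'] at hc
    rcases h4 with h4 | h4
    · exact hc (k' - 1) (by omega) (by omega)
    · exact hc k' (by omega) h4

end Pool.Agent.H62.Jones
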