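import Pool.Agent.H62.Jones2
import Pool.Agent.H62.Brouwer

set_option autoImplicit false

namespace Pool.Agent.H62.Jones

open Set Filter Topology

lemma continuous_sm (n : ℕ) : Continuous (sm n) := by
  refine continuous_tsum (fun i => ?_) (hasSum_x n).summable fun i ε => term_le n ε i
  exact (continuous_of_discreteTopology
    (f := fun b : Bool => if b then x (n + 1 + i) else 0)).comp (continuous_apply i)

lemma flip (ε : ℕ → Bool) (j : ℕ) :
    |sm 0 (Function.update ε j (!ε j)) - sm 0 ε| = x (0 + 1 + j) := by
  unfold sm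
  rw [← (summable_term 0 _).tsum_sub (summable_term 0 ε), tsum_eq_single j]
  · have := x_pos' 0 j
    cases h : ε j
    · simp only [Function.update_self, Bool.not_false, if_true, Bool.false_eq_true, if_false,
        sub_zero, abs_of_pos this]
    · simp only [Function.update_self, Bool.not_true, if_true, Bool.false_eq_true, if_false,
        zero_sub, abs_neg, abs_of_pos this]
  · intro i hi
    rw [Function.update_of_ne hi, sub_self]

lemma good : Brouwer.Good (E 0) := by
  refine ⟨isCompact_range (continuous_sm 0), range_nonempty _, ?_, exists_not_mem⟩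
  rintro _ ⟨ε, rfl⟩
  rw [accPt_iff_nhds]
  intro U hU
  obtain ⟨δ, hδ, hU'⟩ := Metric.mem_nhds_iff.mp hU
  obtain ⟨j, hj⟩ := ((hasSum_x 0).summable.tendsto_atTop_zero.eventually (gt_mem_nhds hδ)).exists
  refine ⟨sm 0 (Function.update ε j (!ε j)), ⟨hU' ?_, mem_range_self _⟩, fun h => ?_⟩
  · rw [Metric.mem_ball, Real.dist_eq, flip]; exact hj
  · have := flip ε j
    rw [h, sub_self, abs_zero] at this
    exact (x_pos' 0 j).ne this

theorem final : Nonempty (E 0 ≃ₜ cantorSet) := by
  obtain ⟨h⟩ := Brouwer.homeo good
  exact ⟨h.trans cantorSetHomeomorphNatToBool.symm⟩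

end Pool.Agent.H62.Jones
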