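import Mathlib

set_option autoImplicit false

namespace Pool.Agent.H62.Kara

open Finset ZMod

variable {n : ℕ} [NeZero n]

/-- character sum over a family -/
noncomputable def T {X : Type} [Fintype X] (β : X → ZMod n) (t : ZMod n) : ℂ :=
  ∑ y, stdAddChar (t * β y)

/-- additive energy of a family -/
def E {X : Type} [Fintype X] (β : X → ZMod n) : ℕ := #{z : X × X | β z.1 = β z.2}

lemma psi_sum {ι : Type} (s : Finset ι) (f : ι → ZMod n) :
    stdAddChar (∑ i ∈ s, f i) = ∏ i ∈ s, stdAddChar (f i) := by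
  classical
  induction s using Finset.induction with
  | empty => simp
  | insert a s ha ih => rw [sum_insert ha, prod_insert ha, AddChar.map_add_eq_mul, ih]

lemma T_neg {X : Type} [Fintype X] (β : X → ZMod n) (t : ZMod n) :
    T β (-t) = starRingEnd ℂ (T β t) := by
  simp [T, AddChar.map_neg_eq_conj]

lemma norm_T_le {X : Type} [Fintype X] (β : X → ZMod n) (t : ZMod n) :
    ‖T β t‖ ≤ Fintype.card X := by
  refine (norm_sum_le _ _).trans ?_
  simp

lemma T_mul {X Y : Type} [Fintype X] [Fintype Y] (α : X → ZMod n) (β : Y → ZMod n) (t : ZMod n) :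
    T α t * T β t = T (fun z : X × Y => α z.1 + β z.2) t := by
  simp only [T, sum_mul_sum, Fintype.sum_prod_type, mul_add, AddChar.map_add_eq_mul]

lemma parseval {X : Type} [Fintype X] (β : X → ZMod n) :
    ∑ t, ‖T β t‖ ^ 2 = (n : ℝ) * E β := by
  have h : ∀ t, ((‖T β t‖ ^ 2 : ℝ) : ℂ) = ∑ z : X × X, stdAddChar (t * (β z.1 - β z.2)) := by
    intro t
    push_cast
    rw [← Complex.mul_conj', ← T_neg, T, T, sum_mul_sum, Fintype.sum_prod_type]
    refine sum_congr rfl fun x _ => sum_congr rfl fun y _ => ?_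
    rw [← AddChar.map_add_eq_mul]
    congr 1
    ring
  have h2 : ((∑ t, ‖T β t‖ ^ 2 : ℝ) : ℂ) = ((n : ℝ) * E β : ℝ) := by
    rw [Complex.ofReal_sum]
    simp_rw [h]
    rw [sum_comm]
    simp_rw [AddChar.sum_mulShift _ (isPrimitive_stdAddChar n), sub_eq_zero]
    simp [E, sum_ite, mul_comm]
  exact_mod_cast h2

lemma bilinear {X Y : Type} [Fintype X] [Fintype Y] (α : X → ZMod n) (β : Y → ZMod n) :
    (∑ x, ‖T β (α x)‖) ^ 2 ≤ E α * ((n : ℝ) * E β) := by
  have h1 : ∑ x, ‖T β (α x)‖ = ∑ t, (#{x | α x = t} : ℝ) * ‖T β t‖ := by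
    rw [← sum_fiberwise univ α]
    refine sum_congr rfl fun t _ => ?_
    rw [sum_congr rfl fun x hx => by rw [(mem_filter.mp hx).2], sum_const, nsmul_eq_mul]
  have h2 : ∑ t, (#{x | α x = t} : ℝ) ^ 2 = E α := by
    have : E α = ∑ t, #{x | α x = t} ^ 2 := by
      rw [E, card_eq_sum_card_fiberwise (f := fun z : X × X => α z.1) (t := univ) (by simp)]
      refine sum_congr rfl fun t _ => ?_
      rw [sq, ← card_product]
      congr 1
      ext z
      simp only [mem_filter, mem_univ, true_and, mem_product]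
      constructor
      · rintro ⟨h1, h2⟩
        exact ⟨h2, h1 ▸ h2⟩
      · rintro ⟨h1, h2⟩
        exact ⟨h1.trans h2.symm, h1⟩
    rw [this]
    push_cast
    rfl
  rw [h1, ← h2, ← parseval]
  exact sum_mul_sq_le_sq_mul_sq _ _ _

/-- signs -/
def sg (b : Bool) : ℤ := if b then 1 else -1

/-- signed sums -/
def sig {U : Type} (j : ℕ) (u : U → ZMod n) (f : Fin j × Bool → U) : ZMod n :=
  ∑ x, sg x.2 * u (f x)

lemma moment {U : Type} [Fintype U] (j : ℕ) (u : U → ZMod n) (t : ZMod n) :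
    ((‖T u t‖ ^ (2 * j) : ℝ) : ℂ) = T (sig j u) t := by
  have h : T (sig j u) t = ∏ x : Fin j × Bool, T u (sg x.2 * t) := by
    unfold T
    rw [Fintype.prod_sum
      (fun (x : Fin j × Bool) (y : U) => stdAddChar ((sg x.2 : ZMod n) * t * u y))]
    refine sum_congr rfl fun f _ => ?_
    rw [← psi_sum, sig, mul_sum]
    congr 1
    exact sum_congr rfl fun x _ => by ring
  rw [h, Fintype.prod_prod_type]
  simp [sg, T_neg, Complex.mul_conj', pow_mul]

lemma kara {U : Type} [Fintype U] (j : ℕ) (hj : 1 ≤ j) (u : U → ZMod n) (a : ZMod n) (B : ℝ)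
    (h1 : (E (sig j u) : ℝ) ≤ B) (h2 : (E (fun f => a * sig j u f) : ℝ) ≤ B) :
    ‖∑ p, T u (a * u p)‖ ^ (2 * j * (2 * j) * 2) ≤
      (Fintype.card U : ℝ) ^ (2 * (2 * j) * (2 * j - 1) * 2) * (B * (n * B)) := by
  obtain ⟨k, hk⟩ : ∃ k, 2 * j = k + 1 := ⟨2 * j - 1, by omega⟩
  set P : ℝ := (Fintype.card U : ℝ) with hP
  have hP0 : 0 ≤ P := by positivity
  have a1 : ‖∑ p, T u (a * u p)‖ ^ (2 * j) ≤ P ^ k * ∑ f, ‖T u (a * sig j u f)‖ := by
    refine (pow_le_pow_left₀ (norm_nonneg _) (norm_sum_le _ _) _).trans ?_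
    have := pow_sum_le_card_mul_sum_pow (s := univ) (f := fun p => ‖T u (a * u p)‖)
      (fun _ _ => norm_nonneg _) k
    rw [← hk] at this
    refine this.trans (mul_le_mul_of_nonneg_left ?_ (by positivity))
    have e : ((∑ p, ‖T u (a * u p)‖ ^ (2 * j) : ℝ) : ℂ) = ∑ f, T u (a * sig j u f) := by
      rw [Complex.ofReal_sum]
      simp_rw [moment]
      unfold T
      rw [sum_comm]
      exact sum_congr rfl fun f _ => sum_congr rfl fun p _ => by congr 1; ring
    refine le_trans ?_ (norm_sum_le _ _)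
    rw [← e, Complex.norm_real]
    exact le_abs_self _
  have a2 : (∑ f, ‖T u (a * sig j u f)‖) ^ (2 * j) ≤
      (P ^ (2 * j)) ^ k * ∑ f, ‖T (sig j u) (a * sig j u f)‖ := by
    have := pow_sum_le_card_mul_sum_pow (s := univ) (f := fun f => ‖T u (a * sig j u f)‖)
      (fun _ _ => norm_nonneg _) k
    rw [← hk] at this
    refine this.trans (le_of_eq ?_)
    congr 1
    · simp [hP, mul_comm]
    · refine sum_congr rfl fun f _ => ?_
      rw [← moment, Complex.norm_real, Real.norm_of_nonneg (by positivity)]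
  have a3 := bilinear (fun f => a * sig j u f) (sig j u)
  have hB : 0 ≤ B := le_trans (by positivity) h1
  have a4 : (∑ f, ‖T (sig j u) (a * sig j u f)‖) ^ 2 ≤ B * (n * B) := a3.trans (by gcongr)
  calc ‖∑ p, T u (a * u p)‖ ^ (2 * j * (2 * j) * 2)
      = ((‖∑ p, T u (a * u p)‖ ^ (2 * j)) ^ (2 * j)) ^ 2 := by rw [pow_mul, pow_mul]
    _ ≤ ((P ^ k * ∑ f, ‖T u (a * sig j u f)‖) ^ (2 * j)) ^ 2 := by gcongr
    _ ≤ ((P ^ k) ^ (2 * j) * ((P ^ (2 * j)) ^ k * ∑ f, ‖T (sig j u) (a * sig j u f)‖)) ^ 2 := by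
      rw [mul_pow]
      gcongr
    _ = P ^ (2 * (2 * j) * (2 * j - 1) * 2) * (∑ f, ‖T (sig j u) (a * sig j u f)‖) ^ 2 := by
      rw [show 2 * j - 1 = k by omega]
      ring
    _ ≤ _ := by gcongr

lemma clear_den {R κ : Type} [CommRing R] [DecidableEq κ] (s : Finset κ) (ε : κ → ℤ) (H : κ → ℕ)
    (v : κ → R) (hv : ∀ x ∈ s, (H x : R) * v x = 1) :
    (∑ x ∈ s, ε x * v x) * ((∏ y ∈ s, H y : ℕ) : R) =
      ((∑ x ∈ s, ε x * (∏ y ∈ s.erase x, H y : ℕ) : ℤ) : R) := by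
  rw [sum_mul]
  push_cast
  refine sum_congr rfl fun x hx => ?_
  rw [← mul_prod_erase s _ hx]
  linear_combination (ε x * ∏ y ∈ s.erase x, (H y : R)) * hv x hx

omit [NeZero n] in
lemma relation {κ : Type} [Fintype κ] [DecidableEq κ] (ε : κ → ℤ) (hε : ∀ x, |ε x| = 1)
    (H : κ → ℕ) (Z : ℕ) (hp : ∀ x, (H x).Prime) (hK : ∀ x, Fintype.card κ < H x)
    (hZ : ∀ x, H x ≤ Z) (hc : ∀ x, (H x).Coprime n) (a : ℤ) (ha : a ≠ 0)
    (hn : |a| * (Fintype.card κ * (Z : ℤ) ^ (Fintype.card κ - 1)) < n)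
    (h : (a : ZMod n) * ∑ x, ε x * (H x : ZMod n)⁻¹ = 0) (x0 : κ) :
    ∃ x, H x = H x0 ∧ ε x ≠ ε x0 := by
  set W : ℤ := ∑ x, ε x * (∏ y ∈ univ.erase x, H y : ℕ) with hW
  have a1 := clear_den univ ε H (fun x => (H x : ZMod n)⁻¹)
    fun x _ => coe_mul_inv_eq_one _ (hc x)
  have a2 : (n : ℤ) ∣ a * W := by
    rw [← intCast_zmod_eq_zero_iff_dvd, Int.cast_mul, ← a1, ← mul_assoc, h, zero_mul]
  have a3 : |W| ≤ Fintype.card κ * (Z : ℤ) ^ (Fintype.card κ - 1) := by
    refine (abs_sum_le_sum_abs _ _).trans ?_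
    refine (sum_le_card_nsmul _ _ ((Z : ℤ) ^ (Fintype.card κ - 1)) fun x _ => ?_).trans (by simp)
    rw [abs_mul, hε, one_mul, abs_of_nonneg (by positivity)]
    have := prod_le_pow_card (univ.erase x) H Z fun y _ => hZ y
    rw [card_erase_of_mem (mem_univ _), card_univ] at this
    exact_mod_cast this
  have a4 : W = 0 := by
    have := Int.eq_zero_of_abs_lt_dvd a2 (by
      rw [abs_mul]
      exact lt_of_le_of_lt (by gcongr) hn)
    exact (mul_eq_zero.mp this).resolve_left ha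
  have hq : ∀ x, (H x : ℚ) * (H x : ℚ)⁻¹ = 1 := fun x =>
    mul_inv_cancel₀ (by exact_mod_cast (hp x).ne_zero)
  have a5 := clear_den univ ε H (fun x => (H x : ℚ)⁻¹) fun x _ => hq x
  rw [← hW, a4, Int.cast_zero, mul_eq_zero] at a5
  have a6 := a5.resolve_right (by exact_mod_cast prod_ne_zero_iff.mpr fun x _ => (hp x).ne_zero)
  by_contra hcon
  push Not at hcon
  rw [← sum_filter_add_sum_filter_not univ (fun x => H x = H x0)] at a6
  set t := univ.filter fun x => ¬ H x = H x0 with ht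
  set s := univ.filter fun x => H x = H x0 with hs
  have a7 := clear_den t ε H (fun x => (H x : ℚ)⁻¹) fun x _ => hq x
  have a8 : ∑ x ∈ s, (ε x : ℚ) * (H x : ℚ)⁻¹ = #s * (ε x0 * (H x0 : ℚ)⁻¹) := by
    rw [sum_congr rfl fun x hx => by rw [hcon x (mem_filter.mp hx).2, (mem_filter.mp hx).2],
      sum_const, nsmul_eq_mul]
  set W' : ℤ := ∑ x ∈ t, ε x * (∏ y ∈ t.erase x, H y : ℕ)
  have a9 : ((#s * (∏ y ∈ t, H y : ℕ) * ε x0 : ℤ) : ℚ) = ((H x0 * (-W') : ℤ) : ℚ) := by
    rw [a8] at a6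
    rw [Int.cast_mul, Int.cast_mul, Int.cast_mul, Int.cast_neg, ← a7]
    simp only [Int.cast_natCast]
    linear_combination ((H x0 : ℚ) * ((∏ y ∈ t, H y : ℕ) : ℚ)) * a6 -
      (#s * ((∏ y ∈ t, H y : ℕ) : ℚ) * ε x0) * hq x0
  have b1 : (H x0 : ℤ) ∣ #s * (∏ y ∈ t, H y : ℕ) * ε x0 := ⟨_, Int.cast_injective a9⟩
  rw [← dvd_abs, abs_mul, hε, mul_one, dvd_abs] at b1
  have b2 : H x0 ∣ #s * ∏ y ∈ t, H y := by exact_mod_cast b1
  rcases (hp x0).dvd_mul.mp b2 with b3 | b3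
  · have c1 : 0 < #s := card_pos.mpr ⟨x0, by simp [hs]⟩
    have c2 := Nat.le_of_dvd c1 b3
    have c3 := card_le_univ s
    have := hK x0
    omega
  · obtain ⟨y, hy, hd⟩ := (Prime.dvd_finsetProd_iff (hp x0).prime _).mp b3
    exact (mem_filter.mp hy).2 ((Nat.prime_dvd_prime_iff_eq (hp x0) (hp y)).mp hd).symm

lemma energy_le (S : Finset ℕ) (j Z : ℕ) (hp : ∀ p ∈ S, p.Prime) (hK : ∀ p ∈ S, 4 * j < p)
    (hZ : ∀ p ∈ S, p ≤ Z) (hc : ∀ p ∈ S, p.Coprime n) (a : ℤ) (ha : a ≠ 0)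
    (hn : |a| * ((4 * j : ℕ) * (Z : ℤ) ^ (4 * j - 1)) < n) :
    E (fun f => (a : ZMod n) * sig j (fun p : S => ((p : ℕ) : ZMod n)⁻¹) f) ≤
      #S ^ (2 * j) * (2 * j) ^ (4 * j) := by
  classical
  have hcard : Fintype.card (Bool × (Fin j × Bool)) = 4 * j := by
    simp
    ring
  refine le_trans (card_le_card_of_surjOn (s := (univ : Finset ((Bool × Fin j → S) ×
    (Bool × (Fin j × Bool) → Bool × Fin j))))
    (fun z => (fun x => z.1 (z.2 (true, x)), fun x => z.1 (z.2 (false, x)))) ?_) ?_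
  · rintro ⟨f, f'⟩ hf
    have hf' := (mem_filter.mp hf).2
    simp only at hf'
    set F : Bool × (Fin j × Bool) → S := fun x => if x.1 then f x.2 else f' x.2 with hF
    have key := relation (n := n) (fun x : Bool × (Fin j × Bool) => sg x.1 * sg x.2.2)
      (fun x => by rcases x with ⟨_ | _, _, _ | _⟩ <;> simp [sg]) (fun x => F x) Z
      (fun x => hp _ (F x).2) (fun x => hcard ▸ hK _ (F x).2) (fun x => hZ _ (F x).2)
      (fun x => hc _ (F x).2) a ha (by rwa [hcard]) (by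
        rw [Fintype.sum_prod_type, Fintype.sum_bool, mul_add, ← sub_eq_zero.mpr hf', sig, sig,
          sub_eq_add_neg, ← mul_neg, ← sum_neg_distrib]
        congr 2 <;> refine sum_congr rfl fun x _ => ?_ <;> rcases x with ⟨_, _ | _⟩ <;>
          simp [hF, sg])
    have key2 : ∀ x : Bool × (Fin j × Bool), ∃ y : Bool × Fin j, F (y.1, (y.2, y.1)) = F x := by
      rintro ⟨b, i, b'⟩
      by_cases hb : b = b'
      · exact ⟨(b, i), by rw [hb]⟩
      · obtain ⟨⟨c, i', c'⟩, h1, h2⟩ := key (b, i, b')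
        have : c = c' := by
          revert h2 hb
          cases b <;> cases b' <;> cases c <;> cases c' <;> simp [sg]
        exact ⟨(c, i'), Subtype.ext (by rw [← h1, this])⟩
    choose g hg using key2
    refine ⟨(fun y => F (y.1, (y.2, y.1)), g), mem_coe.mpr (mem_univ _), ?_⟩
    simp only [hg]
    simp [hF]
  · rw [card_univ, Fintype.card_prod, Fintype.card_fun, Fintype.card_fun, hcard]
    simp

lemma norm_geom (a : ZMod n) (H : ℕ) :
    ‖T (fun h : Fin H => ((h + 1 : ℕ) : ZMod n)) a‖ * (2 * |(a.valMinAbs : ℝ)|) ≤ n := by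
  have hn : (0 : ℝ) < n := by exact_mod_cast NeZero.pos n
  set z : ℂ := stdAddChar a with hz
  have hz1 : ‖z‖ = 1 := AddChar.norm_apply _ _
  have h1 : T (fun h : Fin H => ((h + 1 : ℕ) : ZMod n)) a * (z - 1) = z * (z ^ H - 1) := by
    rw [← geom_sum_mul, ← mul_assoc, mul_sum, T,
      ← Fin.sum_univ_eq_sum_range (fun i => z * z ^ i)]
    congr 1
    refine sum_congr rfl fun h _ => ?_
    rw [mul_comm a, ← nsmul_eq_mul, AddChar.map_nsmul_eq_pow, pow_succ']
  have h2 : ‖T (fun h : Fin H => ((h + 1 : ℕ) : ZMod n)) a‖ * ‖z - 1‖ ≤ 2 := by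
    rw [← norm_mul, h1, norm_mul, hz1, one_mul]
    refine (norm_sub_le _ _).trans ?_
    rw [norm_pow, hz1]
    norm_num
  have h3 : 4 * |(a.valMinAbs : ℝ)| / n ≤ ‖z - 1‖ := by
    have e : z = Complex.exp (Complex.I * (2 * Real.pi * a.valMinAbs / n : ℝ)) := by
      rw [hz]
      conv_lhs => rw [← a.coe_valMinAbs, stdAddChar_coe]
      congr 1
      push_cast
      ring
    have hm : 2 * |(a.valMinAbs : ℝ)| ≤ n := by
      have := a.natAbs_valMinAbs_le
      have h : 2 * a.valMinAbs.natAbs ≤ n := by omega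
      have h' : (2 * (a.valMinAbs.natAbs : ℤ) : ℤ) ≤ n := by exact_mod_cast h
      rw [Int.natCast_natAbs] at h'
      exact_mod_cast h'
    have e2 : |2 * Real.pi * a.valMinAbs / n / 2| = Real.pi * |(a.valMinAbs : ℝ)| / n := by
      rw [show 2 * Real.pi * a.valMinAbs / n / 2 = Real.pi * a.valMinAbs / n by ring, abs_div,
        abs_mul, abs_of_pos Real.pi_pos, abs_of_pos hn]
    have := Real.mul_abs_le_abs_sin (x := 2 * Real.pi * a.valMinAbs / n / 2) (by
      rw [e2, div_le_div_iff₀ hn two_pos]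
      nlinarith [Real.pi_pos])
    rw [e, Complex.norm_exp_I_mul_ofReal_sub_one, norm_mul, Real.norm_eq_abs, Real.norm_eq_abs,
      abs_two]
    rw [e2] at this
    refine le_trans (le_of_eq ?_) (mul_le_mul_of_nonneg_left this zero_le_two)
    field_simp
    ring
  have h4 := (mul_le_mul_of_nonneg_left h3 (norm_nonneg _)).trans h2
  rw [← mul_div_assoc, div_le_iff₀ hn] at h4
  linarith

lemma detect {U : Type} [Fintype U] (u : U → ZMod n) (H : ℕ) (hH : H ≤ n) (θ : ℝ)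
    (h : ∀ a : ZMod n, a ≠ 0 →
      ‖∑ p, T u (a * u p)‖ * ‖T (fun h : Fin H => ((h + 1 : ℕ) : ZMod n)) a‖ ≤ θ)
    (hθ0 : 0 ≤ θ) (hθ : θ * (n * H) < (Fintype.card U : ℝ) ^ 2 * H ^ 3) :
    ∃ p q : U, ∃ y : ℕ, 1 ≤ y ∧ y ≤ 3 * H ∧ u p * u q + y = 0 := by
  by_contra hc
  push Not at hc
  set β : Fin H → ZMod n := fun h => ((h + 1 : ℕ) : ZMod n) with hβ
  have h1 : ∑ a, (∑ p, T u (a * u p)) * T β a ^ 3 = 0 := by
    have e : ∀ a, ∑ p, T u (a * u p) = T (fun z : U × U => u z.1 * u z.2) a := by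
      intro a
      simp only [T, Fintype.sum_prod_type, mul_assoc]
    simp_rw [e, pow_three, T_mul]
    unfold T
    rw [sum_comm]
    refine sum_eq_zero fun z _ => ?_
    rw [AddChar.sum_mulShift _ (isPrimitive_stdAddChar n), if_neg]
    · simp
    · have := hc z.1.1 z.1.2 (z.2.1 + 1 + (z.2.2.1 + 1 + (z.2.2.2 + 1))) (by omega) (by omega)
      rwa [Nat.cast_add, Nat.cast_add (z.2.2.1 + 1 : ℕ)] at this
  have h2 : E β = H := by
    rw [E]
    refine Eq.trans ?_ (card_fin H)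
    refine card_bij (fun z _ => z.1) (fun _ _ => mem_univ _) (fun z hz w hw e => ?_)
      fun i _ => ⟨(i, i), by simp, rfl⟩
    have key : ∀ z : Fin H × Fin H, β z.1 = β z.2 → z.2 = z.1 := fun z hz => by
      have := (natCast_eq_natCast_iff _ _ _).mp hz
      exact Fin.ext ((Nat.ModEq.add_right_cancel' 1 this).eq_of_lt_of_lt (by omega) (by omega)).symm
    exact Prod.ext e (by rw [key z (mem_filter.mp hz).2, key w (mem_filter.mp hw).2, e])
  rw [← add_sum_erase _ _ (mem_univ 0)] at h1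
  have h3 : (∑ p, T u (0 * u p)) * T β 0 ^ 3 = ((Fintype.card U : ℝ) ^ 2 * H ^ 3 : ℝ) := by
    simp [T, sq]
  have h4 := congrArg norm (eq_neg_of_add_eq_zero_left h1)
  rw [h3, norm_neg, Complex.norm_real, Real.norm_of_nonneg (by positivity)] at h4
  have h5 : ‖∑ a ∈ univ.erase 0, (∑ p, T u (a * u p)) * T β a ^ 3‖ ≤ θ * (n * H) := by
    refine (norm_sum_le _ _).trans ?_
    have := parseval β
    rw [h2] at this
    rw [← this, mul_sum]
    refine le_trans (sum_le_sum fun a ha => ?_)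
      (sum_le_sum_of_subset_of_nonneg (erase_subset 0 univ) fun _ _ _ => by positivity)
    rw [norm_mul, norm_pow, pow_succ', ← mul_assoc]
    exact mul_le_mul_of_nonneg_right (h a (ne_of_mem_erase ha)) (by positivity)
  linarith

end Pool.Agent.H62.Kara
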