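import Mathlib
import Pool.Agent.H62.Kara

set_option autoImplicit false

namespace Pool.Agent.H62.Kara

open Finset ZMod Filter

lemma omega_le (n : ℕ) (hn : n ≠ 0) : (#n.primeFactors : ℝ) ≤ 2 * Real.log n := by
  have h1 : 2 ^ #n.primeFactors ≤ n :=
    (pow_card_le_prod _ (fun p => p) 2 fun p hp => (Nat.prime_of_mem_primeFactors hp).two_le).trans
      (Nat.le_of_dvd (Nat.pos_of_ne_zero hn) (Nat.prod_primeFactors_dvd n))
  have h2 : (2 : ℝ) ^ #n.primeFactors ≤ n := by exact_mod_cast h1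
  have h3 := Real.log_le_log (by positivity) h2
  rw [Real.log_pow] at h3
  nlinarith [Real.log_two_gt_d9, (Nat.cast_nonneg _ : (0 : ℝ) ≤ #n.primeFactors)]

lemma pi_low (γ : ℕ) (t : ℝ) (ht : 10 ≤ t) (hl : 12 * (γ + 1) * Real.log t ≤ t) :
    3 * t ^ γ ≤ #((range (⌊t ^ (γ + 1)⌋₊ + 1)).filter Nat.Prime) := by
  have h1 : t ≤ t ^ (γ + 1) := le_self_pow₀ (by linarith) (by omega)
  have h := Chebyshev.pi_ge' (x := t ^ (γ + 1)) (by linarith)
  rw [Nat.primeCounting, Nat.primeCounting', Nat.count_eq_card_filter_range] at h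
  refine le_trans ?_ h
  rw [le_div_iff₀ (Real.log_pos (by linarith)), Real.log_pow]
  have h2 := Real.log_le_sub_one_of_pos (show 0 < (t ^ (γ + 1) + 2) / 8 by linarith)
  rw [Real.log_div (by linarith) (by norm_num), show (8 : ℝ) = 2 ^ 3 by norm_num,
    Real.log_pow] at h2
  have h3 : 3 * t ^ γ * (((γ + 1 : ℕ) : ℝ) * Real.log t) ≤ t ^ (γ + 1) / 4 := by
    push_cast
    rw [pow_succ]
    nlinarith [show 0 < t ^ γ by positivity]
  push_cast at h2
  nlinarith [Real.log_two_gt_d9, Real.log_two_lt_d9]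

theorem box (i : ℕ) : ∃ γ : ℕ, ∀ᶠ t : ℝ in atTop, ∀ n : ℕ, (n : ℝ) = t ^ ((γ + 1) * (4 * i + 3) + 4) →
    ∃ x y : ℕ, 1 ≤ x ∧ (x : ℝ) ≤ t ^ (2 * (γ + 1)) ∧ 1 ≤ y ∧
      (y : ℝ) ≤ 3 * t ^ ((γ + 1) * (4 * i + 3) + 3) ∧ n ∣ x * y + 1 := by
  set j := i + 1 with hj
  set γ := 8 * j ^ 2 + 4 * j + 4 with hγ
  set L := (γ + 1) * (4 * i + 3) with hL
  refine ⟨γ, ?_⟩
  have hlog := (Real.isLittleO_log_id_atTop.bound
    (show (0 : ℝ) < 1 / (12 * (γ + 1)) by positivity))
  filter_upwards [hlog, eventually_ge_atTop (10 : ℝ), eventually_ge_atTop (4 * j + 1 : ℝ),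
    eventually_ge_atTop (2 * (L + 4) : ℝ),
    eventually_ge_atTop ((8 : ℝ) ^ (2 * j * (2 * j) * 2) * (2 * j) ^ (8 * j))]
    with t t1 t2 t3 t4 t5 n hn
  have ht0 : 0 < t := by linarith
  have ht1 : 1 ≤ t := by linarith
  have hn0 : n ≠ 0 := by
    have : (0 : ℝ) < n := by rw [hn]; positivity
    exact_mod_cast this.ne'
  have : NeZero n := ⟨hn0⟩
  set Z := ⌊t ^ (γ + 1)⌋₊ with hZ
  have hZt : (Z : ℝ) ≤ t ^ (γ + 1) := Nat.floor_le (by positivity)
  set S := (range (Z + 1)).filter fun p => p.Prime ∧ 4 * j < p ∧ ¬ p ∣ n with hS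
  have s1 : ∀ p ∈ S, p.Prime := fun p hp => (mem_filter.mp hp).2.1
  have s2 : ∀ p ∈ S, 4 * j < p := fun p hp => (mem_filter.mp hp).2.2.1
  have s3 : ∀ p ∈ S, p ≤ Z := fun p hp => Nat.lt_succ_iff.mp (mem_range.mp (mem_filter.mp hp).1)
  have s4 : ∀ p ∈ S, p.Coprime n := fun p hp =>
    (Nat.Prime.coprime_iff_not_dvd (s1 p hp)).mpr (mem_filter.mp hp).2.2.2
  have hP : t ^ γ ≤ #S := by
    have a1 := pi_low γ t t2 (by
      rw [Real.norm_of_nonneg (Real.log_nonneg ht1), id, Real.norm_of_nonneg ht0.le,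
        one_div, inv_mul_eq_div, le_div_iff₀ (by positivity)] at t1
      linarith)
    have a2 : (range (Z + 1)).filter Nat.Prime ⊆ S ∪ range (4 * j + 1) ∪ n.primeFactors := by
      intro p hp
      rw [mem_filter] at hp
      simp only [mem_union, hS, mem_filter, mem_range, Nat.mem_primeFactors]
      by_cases h1 : p ∣ n
      · exact Or.inr ⟨hp.2, h1, hn0⟩
      by_cases h2 : 4 * j < p
      · exact Or.inl (Or.inl ⟨mem_range.mp hp.1, hp.2, h2, h1⟩)
      · exact Or.inl (Or.inr (by omega))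
    have a3 := (card_le_card a2).trans ((card_union_le _ _).trans
      (Nat.add_le_add_right (card_union_le _ _) _))
    rw [card_range] at a3
    have a4 : (#((range (Z + 1)).filter Nat.Prime) : ℝ) ≤ #S + (4 * j + 1) + #n.primeFactors := by
      exact_mod_cast a3
    have a5 := omega_le n hn0
    rw [hn, Real.log_pow] at a5
    have a6 := Real.log_le_sub_one_of_pos ht0
    have a7 : t ^ 2 ≤ t ^ γ := pow_le_pow_right₀ ht1 (by omega)
    have a8 : 2 * (((L + 4 : ℕ) : ℝ) * Real.log t) ≤ t ^ 2 := by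
      push_cast
      nlinarith [Real.log_nonneg ht1]
    nlinarith
  set P : ℝ := (#S : ℝ) with hPd
  have hP0 : 0 < P := lt_of_lt_of_le (by positivity) hP
  set s := t ^ L with hs
  have hs1 : 1 ≤ s := one_le_pow₀ ht1
  have hn' : (n : ℝ) = s * t ^ 4 := by rw [hn, pow_add]
  set H := ⌊s * t ^ 3⌋₊ with hH
  have ht3 : 2 ≤ t ^ 3 := le_trans (by norm_num) (pow_le_pow_left₀ (by norm_num) t2 3)
  have H1 : (H : ℝ) ≤ s * t ^ 3 := Nat.floor_le (by positivity)
  have H2 : s * t ^ 3 / 2 ≤ H := by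
    have := Nat.lt_floor_add_one (s * t ^ 3)
    nlinarith
  set u : S → ZMod n := fun p => ((p : ℕ) : ZMod n)⁻¹ with hu
  have hen : ∀ m : ℤ, m ≠ 0 → |(m : ℝ)| ≤ t ^ 3 →
      (E (fun f => (m : ZMod n) * sig j u f) : ℝ) ≤ P ^ (2 * j) * (2 * j) ^ (4 * j) := by
    intro m hm hmt
    have := energy_le S j Z s1 s2 s3 s4 m hm (by
      have : |(m : ℝ)| * ((4 * j : ℕ) * (Z : ℝ) ^ (4 * j - 1)) < n := by
        rw [hn', show 4 * j - 1 = 4 * i + 3 by omega]
        calc _ ≤ t ^ 3 * ((4 * j : ℕ) * (t ^ (γ + 1)) ^ (4 * i + 3)) := by gcongr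
          _ = (4 * j) * (s * t ^ 3) := by rw [← pow_mul]; push_cast; ring
          _ < t * (s * t ^ 3) := by gcongr; linarith
          _ = _ := by ring
      exact_mod_cast this)
    rw [hPd]
    exact_mod_cast this
  obtain ⟨p, q, y, y1, y2, y3⟩ := detect u H (by
      have : (H : ℝ) ≤ n := by
        rw [hn']
        refine H1.trans ?_
        gcongr
        norm_num
      exact_mod_cast this) (P ^ 2 * (s * t ^ 2 / 8)) (fun a ha => by
      by_cases hm : |(a.valMinAbs : ℝ)| ≤ t ^ 3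
      · have b1 := kara j (by omega) u a _ (by simpa using hen 1 one_ne_zero (by simp; linarith))
          (by simpa using hen a.valMinAbs (by simpa using ha) hm)
        rw [Fintype.card_coe, ← hPd] at b1
        have b2 : ‖∑ p, T u (a * u p)‖ * (8 * t) ≤ P ^ 2 := by
          refine le_of_pow_le_pow_left₀ (n := 2 * j * (2 * j) * 2) (by positivity) (by positivity) ?_
          have c1 : (8 * t) ^ (2 * j * (2 * j) * 2) * (2 * j) ^ (8 * j) * n ≤ P ^ (4 * j) := by
            calc _ = (8 ^ (2 * j * (2 * j) * 2) * (2 * j) ^ (8 * j)) *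
                  t ^ (2 * j * (2 * j) * 2 + (L + 4)) := by rw [hn, mul_pow, pow_add]; ring
              _ ≤ t * t ^ (2 * j * (2 * j) * 2 + (L + 4)) := by gcongr
              _ = (t ^ γ) ^ (4 * j) := by
                rw [← pow_succ', ← pow_mul]
                congr 1
                rw [hL, hγ, hj]
                ring
              _ ≤ _ := by gcongr
          rw [mul_pow]
          refine (mul_le_mul_of_nonneg_right b1 (by positivity)).trans ?_
          calc _ = P ^ (2 * (2 * j) * (2 * j - 1) * 2 + 4 * j) *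
                ((8 * t) ^ (2 * j * (2 * j) * 2) * (2 * j) ^ (8 * j) * n) := by ring
            _ ≤ P ^ (2 * (2 * j) * (2 * j - 1) * 2 + 4 * j) * P ^ (4 * j) := by gcongr
            _ = _ := by
              rw [← pow_add, ← pow_mul]
              congr 1
              rw [show 2 * j - 1 = 2 * i + 1 by omega, hj]
              ring
        have b3 := (norm_T_le (fun h : Fin H => ((h + 1 : ℕ) : ZMod n)) a).trans
          (by simpa using H1)
        refine (mul_le_mul_of_nonneg_left b3 (norm_nonneg _)).trans ?_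
        have := mul_le_mul_of_nonneg_right b2 (show 0 ≤ s * t ^ 2 / 8 by positivity)
        linarith [show ‖∑ p, T u (a * u p)‖ * (8 * t) * (s * t ^ 2 / 8) =
          ‖∑ p, T u (a * u p)‖ * (s * t ^ 3) by ring]
      · have b1 := norm_geom a H
        have b2 : ‖∑ p, T u (a * u p)‖ ≤ P ^ 2 := by
          refine (norm_sum_le _ _).trans ((sum_le_card_nsmul _ _ P fun p _ => ?_).trans ?_)
          · simpa using norm_T_le u _
          · simp [sq, hPd]
        refine mul_le_mul b2 ?_ (norm_nonneg _) (by positivity)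
        refine le_of_mul_le_mul_right ?_ (show 0 < 2 * t ^ 3 by positivity)
        refine le_trans (mul_le_mul_of_nonneg_left (by linarith [not_le.mp hm]) (norm_nonneg _))
          (b1.trans ?_)
        rw [hn']
        nlinarith [show 0 < s * t ^ 4 by positivity])
    (by positivity) (by
      rw [Fintype.card_coe, ← hPd, hn']
      have H0 : (0 : ℝ) < H := lt_of_lt_of_le (by positivity) H2
      have : s * t ^ 2 / 8 * (s * t ^ 4) < (H : ℝ) ^ 2 := by
        nlinarith [show 0 < s * t ^ 3 by positivity]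
      calc _ = P ^ 2 * H * (s * t ^ 2 / 8 * (s * t ^ 4)) := by ring
        _ < P ^ 2 * H * (H : ℝ) ^ 2 := by gcongr
        _ = _ := by ring)
  refine ⟨p * q, y, Nat.mul_pos (s1 _ p.2).pos (s1 _ q.2).pos, ?_, y1, ?_, ?_⟩
  · have a1 : ((p : ℕ) : ℝ) ≤ Z := by exact_mod_cast s3 _ p.2
    have a2 : ((q : ℕ) : ℝ) ≤ Z := by exact_mod_cast s3 _ q.2
    push_cast
    rw [two_mul, pow_add]
    exact mul_le_mul (a1.trans hZt) (a2.trans hZt) (by positivity) (by positivity)
  · have : (y : ℝ) ≤ 3 * H := by exact_mod_cast y2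
    rw [pow_add]
    linarith
  · rw [← natCast_eq_zero_iff]
    have a1 := coe_mul_inv_eq_one _ (s4 _ p.2)
    have a2 := coe_mul_inv_eq_one _ (s4 _ q.2)
    push_cast
    linear_combination (((p : ℕ) : ZMod n) * (q : ℕ)) * y3 - (((q : ℕ) : ZMod n) * u q) * a1 - a2

end Pool.Agent.H62.Kara
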