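import Mathlib

set_option autoImplicit false

namespace Pool.Agent.H62.LAtom
open Filter Topology Metric Set

lemma pre_ball : IsPreconnected (ball (0 : ℂ) 1) := (convex_ball 0 1).isPreconnected

lemma step (β : ℂ → ℂ) (hβ : AnalyticOnNhd ℂ β (ball 0 1))
    (hu : ∀ C : ℝ, ∃ z ∈ ball (0 : ℂ) 1, C < ‖β z‖) (S : ℂ → ℂ) (hS : Differentiable ℂ S)
    (R : ℝ) (hR : 0 < R) (ε : ℝ) (hε : 0 < ε) (M : ℝ) :
    ∃ (P : ℂ → ℂ) (R' : ℝ) (z0 : ℂ) (ρ : ℝ), Differentiable ℂ P ∧ R + 1 ≤ R' ∧ 0 < ρ ∧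
      closedBall z0 ρ ⊆ ball 0 1 ∧ (∀ w, ‖w‖ ≤ R → ‖P w‖ ≤ ε) ∧
      (∀ z ∈ closedBall z0 ρ, ‖β z‖ < R') ∧
      ∀ z ∈ sphere z0 ρ, 2 * ‖S (β z0) + P (β z0)‖ + M ≤
        ‖(S (β z) + P (β z)) - (S (β z0) + P (β z0))‖ := by
  obtain ⟨z0, hz0, h3⟩ := hu (3 * R)
  have e1 : ∀ᶠ z in 𝓝[≠] z0, β z ≠ β z0 := by
    rcases (hβ z0 hz0).eventually_eq_or_eventually_ne (g := fun _ => β z0) analyticAt_const
      with h | h
    · exfalso
      have := hβ.eqOn_of_preconnected_of_eventuallyEq analyticOnNhd_const pre_ball hz0 h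
      obtain ⟨z, hz, hz'⟩ := hu ‖β z0‖
      rw [this hz] at hz'
      exact lt_irrefl _ hz'
    · exact h
  have e2 : ∀ᶠ z in 𝓝 z0, z ∈ ball (0 : ℂ) 1 ∧ 3 * R < ‖β z‖ :=
    (isOpen_ball.eventually_mem hz0).and
      ((hβ z0 hz0).continuousAt.norm.eventually (lt_mem_nhds h3))
  rw [eventually_nhdsWithin_iff] at e1
  obtain ⟨ρ, hρ, hb⟩ := nhds_basis_closedBall.eventually_iff.1 (e1.and e2)
  have hsub : closedBall z0 ρ ⊆ ball 0 1 := fun z hz => (hb hz).2.1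
  have hc : ContinuousOn β (closedBall z0 ρ) := hβ.continuousOn.mono hsub
  obtain ⟨C1, hC1⟩ := (isCompact_closedBall z0 ρ).exists_bound_of_continuousOn hc
  obtain ⟨C2, hC2⟩ := (isCompact_closedBall z0 ρ).exists_bound_of_continuousOn
    (hS.continuous.comp_continuousOn hc)
  obtain ⟨z1, hz1, hm⟩ := (isCompact_sphere z0 ρ).exists_isMinOn
    (NormedSpace.sphere_nonempty.2 hρ.le) (f := fun z => ‖β z - β z0‖)
    (((hc.mono sphere_subset_closedBall).sub continuousOn_const).norm)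
  set m := ‖β z1 - β z0‖ with hmdef
  have hm0 : 0 < m := by
    refine norm_pos_iff.2 (sub_ne_zero.2 ((hb (sphere_subset_closedBall hz1)).1 ?_))
    exact ne_of_mem_sphere hz1 hρ.ne'
  have t1 : ∀ᶠ N : ℕ in atTop, (1 / 2 : ℝ) ^ N * (R + ‖β z0‖) ≤ ε := by
    have := (tendsto_pow_atTop_nhds_zero_of_lt_one (r := (1 / 2 : ℝ)) (by norm_num)
      (by norm_num)).mul_const (R + ‖β z0‖)
    rw [zero_mul] at this
    exact this.eventually (ge_mem_nhds hε)
  have t2 : ∀ᶠ N : ℕ in atTop, 4 * C2 + M ≤ (3 / 2 : ℝ) ^ N * m :=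
    ((tendsto_pow_atTop_atTop_of_one_lt (r := (3 / 2 : ℝ)) (by norm_num)).atTop_mul_const
      hm0).eventually_ge_atTop _
  obtain ⟨N, n1, n2⟩ := (t1.and t2).exists
  have hn : ‖((2 * R : ℝ) : ℂ)‖ = 2 * R := by
    rw [Complex.norm_real, Real.norm_eq_abs, abs_of_pos (by positivity)]
  refine ⟨fun w => (w / ((2 * R : ℝ) : ℂ)) ^ N * (w - β z0), max (R + 1) (C1 + 1), z0, ρ,
    by fun_prop, le_max_left _ _, hρ, hsub, fun w hw => ?_, fun z hz => ?_, fun z hz => ?_⟩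
  · refine le_trans ?_ n1
    rw [norm_mul, norm_pow, norm_div, hn]
    refine mul_le_mul (pow_le_pow_left₀ (by positivity) ?_ _) ?_ (norm_nonneg _) (by positivity)
    · rw [div_le_iff₀ (by positivity)]; linarith
    · exact (norm_sub_le _ _).trans (by linarith)
  · exact lt_of_lt_of_le (by linarith [hC1 z hz]) (le_max_right _ _)
  · have hz' := sphere_subset_closedBall hz
    have a : (3 / 2 : ℝ) ^ N * m ≤ ‖(β z / ((2 * R : ℝ) : ℂ)) ^ N * (β z - β z0)‖ := by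
      rw [norm_mul, norm_pow, norm_div, hn]
      refine mul_le_mul (pow_le_pow_left₀ (by positivity) ?_ _) (hm hz) hm0.le (by positivity)
      rw [le_div_iff₀ (by positivity)]; linarith [(hb hz').2.2]
    have b : ‖S (β z)‖ ≤ C2 := hC2 z hz'
    have c : ‖S (β z0)‖ ≤ C2 := hC2 z0 (mem_closedBall_self hρ.le)
    simp only [sub_self, mul_zero, add_zero]
    set T := (β z / ((2 * R : ℝ) : ℂ)) ^ N * (β z - β z0)
    have d : ‖T‖ ≤ ‖S (β z) + T - S (β z0)‖ + ‖S (β z)‖ + ‖S (β z0)‖ := by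
      calc ‖T‖ = ‖(S (β z) + T - S (β z0)) - S (β z) + S (β z0)‖ := by congr 1; ring
        _ ≤ _ := (norm_add_le _ _).trans (by gcongr; exact norm_sub_le _ _)
    linarith

lemma onto (β : ℂ → ℂ) (hβ : AnalyticOnNhd ℂ β (ball 0 1))
    (hu : ∀ C : ℝ, ∃ z ∈ ball (0 : ℂ) 1, C < ‖β z‖) :
    ∃ φ : ℂ → ℂ, Differentiable ℂ φ ∧ ∀ c : ℂ, ∃ z ∈ ball (0 : ℂ) 1, φ (β z) + z = c := by
  have st := fun (k : ℕ) (p : {p : (ℂ → ℂ) × ℝ // Differentiable ℂ p.1 ∧ 0 < p.2}) =>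
    step β hβ hu p.1.1 p.2.1 p.1.2 p.2.2 ((1 / 2) ^ k) (by positivity) (2 * k + 12)
  choose P' R' z0' ρ' h1 h2 h3 h4 h5 h6 h7 using st
  let s : ℕ → {p : (ℂ → ℂ) × ℝ // Differentiable ℂ p.1 ∧ 0 < p.2} := fun n => Nat.rec
    ⟨(fun _ => 0, 1), differentiable_const _, one_pos⟩
    (fun k p => ⟨(fun w => p.1.1 w + P' k p w, R' k p), p.2.1.add (h1 k p),
      by linarith [h2 k p, p.2.2]⟩) n
  let P : ℕ → ℂ → ℂ := fun k => P' k (s k)
  let R : ℕ → ℝ := fun k => (s k).1.2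
  have hS : ∀ k w, (s k).1.1 w = ∑ i ∈ Finset.range k, P i w := by
    intro k w
    induction k with
    | zero => rfl
    | succ k ih => rw [Finset.sum_range_succ, ← ih]
  have hR : ∀ k, R k + 1 ≤ R (k + 1) := fun k => h2 k (s k)
  have hmono : Monotone R := monotone_nat_of_le_succ fun k => by linarith [hR k]
  have hge : ∀ k : ℕ, (k : ℝ) < R k := by
    intro k
    induction k with
    | zero => simpa using (s 0).2.2
    | succ k ih => push_cast; linarith [hR k]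
  have hb : ∀ j k w, ‖w‖ < R j → ‖P (k + j) w‖ ≤ (1 / 2 : ℝ) ^ k := by
    intro j k w hw
    refine (h5 (k + j) (s (k + j)) w (hw.le.trans (hmono (Nat.le_add_left j k)))).trans ?_
    exact pow_le_pow_of_le_one (by norm_num) (by norm_num) (Nat.le_add_right k j)
  have hsum : ∀ j w, ‖w‖ < R j → Summable fun k => P (k + j) w := fun j w hw =>
    Summable.of_norm_bounded summable_geometric_two fun k => hb j k w hw
  have hsplit : ∀ j w, ‖w‖ < R j → ∑' k, P k w = (s j).1.1 w + ∑' k, P (k + j) w := by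
    intro j w hw
    rw [hS, ((summable_nat_add_iff j).1 (hsum j w hw)).sum_add_tsum_nat_add j]
  have htail : ∀ j w, ‖w‖ < R j → ‖∑' k, P (k + j) w‖ ≤ 2 := by
    intro j w hw
    exact tsum_of_norm_bounded hasSum_geometric_two fun k => hb j k w hw
  have hφ : Differentiable ℂ fun w => ∑' k, P k w := by
    intro w
    obtain ⟨j, hj⟩ := exists_nat_gt ‖w‖
    have hw : w ∈ ball (0 : ℂ) (R j) := by rw [mem_ball_zero_iff]; linarith [hge j]
    have d := Complex.differentiableOn_tsum_of_summable_norm (F := fun k => P (k + j))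
      summable_geometric_two (fun k => (h1 _ _).differentiableOn) isOpen_ball
      (fun k w (hw : w ∈ ball (0 : ℂ) (R j)) => hb j k w (mem_ball_zero_iff.1 hw))
    have d2 := ((s j).2.1 w).add (d.differentiableAt (isOpen_ball.mem_nhds hw))
    refine d2.congr_of_eventuallyEq ?_
    filter_upwards [isOpen_ball.mem_nhds hw] with v hv
    exact hsplit j v (mem_ball_zero_iff.1 hv)
  refine ⟨_, hφ, fun c => ?_⟩
  obtain ⟨k, hk⟩ := exists_nat_gt ‖c‖
  set φ : ℂ → ℂ := fun w => ∑' k, P k w with hφdef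
  set z0 := z0' k (s k)
  set ρ := ρ' k (s k)
  have hρ : 0 < ρ := h3 k (s k)
  have hsub : closedBall z0 ρ ⊆ ball 0 1 := h4 k (s k)
  have hz0 : z0 ∈ closedBall z0 ρ := mem_closedBall_self hρ.le
  have hF : AnalyticOnNhd ℂ (fun z => φ (β z) + z) (ball 0 1) := fun z hz =>
    ((hφ.analyticAt _).comp (hβ z hz)).add analyticAt_id
  have happ : ∀ z ∈ closedBall z0 ρ, ‖(φ (β z) + z) - (s (k + 1)).1.1 (β z)‖ ≤ 3 := by
    intro z hz
    have a := h6 k (s k) z hz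
    have b := hsplit (k + 1) (β z) a
    have c := htail (k + 1) (β z) a
    have d := mem_ball_zero_iff.1 (hsub hz)
    have e : (φ (β z) + z) - (s (k + 1)).1.1 (β z) = ∑' i, P (i + (k + 1)) (β z) + z := by
      simp only [hφdef]; rw [b]; ring
    rw [e]
    exact (norm_add_le _ _).trans (by linarith)
  set A := (s (k + 1)).1.1 (β z0) with hA
  have hsph : ∀ z ∈ sphere z0 ρ, 2 * ‖A‖ + 2 * k + 6 ≤ ‖(φ (β z) + z) - (φ (β z0) + z0)‖ := by
    intro z hz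
    have a : 2 * ‖A‖ + (2 * k + 12) ≤ ‖(s (k + 1)).1.1 (β z) - A‖ := h7 k (s k) z hz
    have b := happ z (sphere_subset_closedBall hz)
    have c := happ z0 hz0
    have d : ‖(s (k + 1)).1.1 (β z) - A‖ ≤ ‖(φ (β z) + z) - (φ (β z0) + z0)‖ +
        ‖(φ (β z) + z) - (s (k + 1)).1.1 (β z)‖ + ‖(φ (β z0) + z0) - A‖ := by
      calc _ = ‖((φ (β z) + z) - (φ (β z0) + z0)) - ((φ (β z) + z) - (s (k + 1)).1.1 (β z)) +
          ((φ (β z0) + z0) - A)‖ := by congr 1; ring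
        _ ≤ _ := (norm_add_le _ _).trans (by gcongr; exact norm_sub_le _ _)
    linarith
  have hdc : DiffContOnCl ℂ (fun z => φ (β z) + z) (ball z0 ρ) := by
    refine DifferentiableOn.diffContOnCl ?_
    rw [closure_ball z0 hρ.ne']
    exact hF.differentiableOn.mono hsub
  have hfr : ∃ᶠ z in 𝓝 z0, φ (β z) + z ≠ φ (β z0) + z0 := by
    by_contra hcon
    rw [not_frequently] at hcon
    have := hF.eqOn_of_preconnected_of_eventuallyEq (g := fun _ => φ (β z0) + z0)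
      analyticOnNhd_const pre_ball (hsub hz0) (hcon.mono fun z h => not_not.1 h)
    obtain ⟨z, hz⟩ := (NormedSpace.sphere_nonempty (x := z0)).2 hρ.le
    have a := hsph z hz
    have b : φ (β z) + z = φ (β z0) + z0 := this (hsub (sphere_subset_closedBall hz))
    rw [b, sub_self, norm_zero] at a
    have : (0 : ℝ) ≤ k := Nat.cast_nonneg k
    linarith [norm_nonneg A]
  obtain ⟨z, hz, hzc⟩ := hdc.ball_subset_image_closedBall hρ hsph hfr (a := c) (by
    rw [mem_ball, dist_eq_norm]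
    have a := happ z0 hz0
    have d : ‖c - (φ (β z0) + z0)‖ ≤ ‖c‖ + ‖A‖ + ‖(φ (β z0) + z0) - A‖ := by
      calc _ = ‖c - A - ((φ (β z0) + z0) - A)‖ := by congr 1; ring
        _ ≤ _ := (norm_sub_le _ _).trans (by gcongr; exact norm_sub_le _ _)
    linarith)
  exact ⟨z, hsub hz, hzc⟩

lemma isOpen_im {α : ℂ → ℂ} (hα : AnalyticOnNhd ℂ α (ball 0 1))
    (hn : ∃ a ∈ ball (0 : ℂ) 1, ∃ b ∈ ball (0 : ℂ) 1, α a ≠ α b) :
    ∀ s ⊆ ball (0 : ℂ) 1, IsOpen s → IsOpen (α '' s) := by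
  rcases hα.is_constant_or_isOpen pre_ball with ⟨w, hw⟩ | h
  · obtain ⟨a, ha, b, hb, hab⟩ := hn
    exact absurd ((hw a ha).trans (hw b hb).symm) hab
  · exact h

lemma exists_iota {α : ℂ → ℂ} (hα : AnalyticOnNhd ℂ α (ball 0 1))
    (hn : ∃ a ∈ ball (0 : ℂ) 1, ∃ b ∈ ball (0 : ℂ) 1, α a ≠ α b) :
    ∃ ι : ℂ → ℂ, AnalyticOnNhd ℂ ι (α '' ball 0 1) ∧
      ∀ C : ℝ, ∃ z ∈ ball (0 : ℂ) 1, C < ‖ι (α z)‖ := by
  by_cases h : α '' ball 0 1 = univ
  · refine ⟨id, analyticOnNhd_id, fun C => ?_⟩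
    obtain ⟨z, hz, hz'⟩ : ((|C| + 1 : ℝ) : ℂ) ∈ α '' ball 0 1 := h ▸ mem_univ _
    refine ⟨z, hz, ?_⟩
    rw [id, hz', Complex.norm_real, Real.norm_eq_abs, abs_of_pos (by positivity)]
    linarith [le_abs_self C]
  · have ho := isOpen_im hα hn _ Subset.rfl isOpen_ball
    obtain ⟨b, hb⟩ := nonempty_frontier_iff.2 ⟨(nonempty_ball.2 one_pos).image α, h⟩
    rw [ho.frontier_eq] at hb
    have hne : ∀ w ∈ α '' ball 0 1, w - b ≠ 0 := fun w hw e => hb.2 (sub_eq_zero.1 e ▸ hw)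
    refine ⟨fun w => (w - b)⁻¹, fun w hw =>
      (analyticAt_id.sub analyticAt_const).inv (hne w hw), fun C => ?_⟩
    obtain ⟨_, ⟨z, hz, rfl⟩, hd⟩ := Metric.mem_closure_iff.1 hb.1 (1 / (|C| + 1)) (by positivity)
    refine ⟨z, hz, ?_⟩
    have hp : 0 < ‖α z - b‖ := norm_pos_iff.2 (hne _ ⟨z, hz, rfl⟩)
    rw [dist_comm, dist_eq_norm, lt_div_iff₀ (by positivity)] at hd
    rw [norm_inv, ← one_div, lt_div_iff₀ hp]
    nlinarith [le_abs_self C]

lemma inv_analytic {α : ℂ → ℂ} (hα : AnalyticOnNhd ℂ α (ball 0 1))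
    (hn : ∃ a ∈ ball (0 : ℂ) 1, ∃ b ∈ ball (0 : ℂ) 1, α a ≠ α b) (hi : InjOn α (ball 0 1)) :
    AnalyticOnNhd ℂ (Function.invFunOn α (ball 0 1)) (α '' ball 0 1) := by
  set g := Function.invFunOn α (ball 0 1) with hg
  have hop := isOpen_im hα hn
  have ho := hop _ Subset.rfl isOpen_ball
  have hl : ∀ z ∈ ball (0 : ℂ) 1, g (α z) = z := fun z hz => hi.leftInvOn_invFunOn hz
  have hc : ∀ z ∈ ball (0 : ℂ) 1, ContinuousAt g (α z) := by
    intro z hz
    rw [ContinuousAt, hl z hz]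
    intro U hU
    obtain ⟨V, hVU, hV, hzV⟩ := _root_.mem_nhds_iff.1 (inter_mem hU (isOpen_ball.mem_nhds hz))
    have hVb : V ⊆ ball 0 1 := fun x hx => (hVU hx).2
    rw [mem_map]
    refine mem_of_superset ((hop V hVb hV).mem_nhds ⟨z, hzV, rfl⟩) ?_
    rintro _ ⟨x, hx, rfl⟩
    show g (α x) ∈ U
    rw [hl x (hVb hx)]
    exact (hVU hx).1
  rintro _ ⟨z0, hz0, rfl⟩
  refine Complex.analyticAt_of_differentiable_on_punctured_nhds_of_continuousAt ?_ (hc z0 hz0)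
  have e1 : ∀ᶠ z in 𝓝[≠] z0, deriv α z ≠ 0 := by
    rcases (hα.deriv z0 hz0).eventually_eq_zero_or_eventually_ne_zero with h | h
    · exfalso
      have := hα.deriv.eqOn_zero_of_preconnected_of_eventuallyEq_zero pre_ball hz0 h
      obtain ⟨a, ha, b, hb, hab⟩ := hn
      exact hab (isOpen_ball.is_const_of_deriv_eq_zero pre_ball hα.differentiableOn this ha hb)
    · exact h
  rw [eventually_nhdsWithin_iff] at e1 ⊢
  have e2 : ∀ᶠ w in 𝓝 (α z0), g w ∈ ({z0}ᶜ : Set ℂ) → deriv α (g w) ≠ 0 := by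
    have t : Tendsto g (𝓝 (α z0)) (𝓝 z0) := by
      have := hc z0 hz0
      rwa [ContinuousAt, hl z0 hz0] at this
    exact t.eventually e1
  filter_upwards [e2, ho.mem_nhds ⟨z0, hz0, rfl⟩] with w h1 h2 h3
  obtain ⟨z, hz, rfl⟩ := h2
  have hzz : z ≠ z0 := fun e => h3 (by rw [e]; rfl)
  rw [hl z hz] at h1
  have hd : HasDerivAt α (deriv α z) (g (α z)) := by
    rw [hl z hz]; exact (hα z hz).differentiableAt.hasDerivAt
  refine (HasDerivAt.of_local_left_inverse (hc z hz) hd (h1 hzz) ?_).differentiableAt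
  filter_upwards [ho.mem_nhds ⟨z, hz, rfl⟩] with v hv
  obtain ⟨x, hx, rfl⟩ := hv
  rw [hl x hx]

theorem main : ∀ α : ℂ → ℂ, AnalyticOnNhd ℂ α (Metric.ball (0:ℂ) 1) →
      (∃ a ∈ Metric.ball (0:ℂ) 1, ∃ b ∈ Metric.ball (0:ℂ) 1, α a ≠ α b) →
      ((∀ f : ℂ → ℂ, AnalyticOnNhd ℂ f (Metric.ball (0:ℂ) 1) →
          (∀ z : ℕ → ℂ, (∀ n, z n ∈ Metric.ball (0:ℂ) 1) →
            Tendsto (fun n => ‖z n‖) atTop (𝓝 1) →
            (∀ K : Set ℂ, K ⊆ f '' Metric.ball (0:ℂ) 1 → IsCompact K →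
              {n : ℕ | f (z n) ∈ K}.Finite) →
            (∀ K : Set ℂ, K ⊆ α '' Metric.ball (0:ℂ) 1 → IsCompact K →
              {n : ℕ | α (z n) ∈ K}.Finite)) →
          ∃ φ : ℂ → ℂ, AnalyticOnNhd ℂ φ (α '' Metric.ball (0:ℂ) 1) ∧
            ∀ w ∈ Metric.ball (0:ℂ) 1, f w = φ (α w))
        ↔ Set.InjOn α (Metric.ball (0:ℂ) 1)) := by
  intro α hα hn
  constructor
  · intro H
    obtain ⟨ι, hι, hu⟩ := exists_iota hα hn
    have hβ : AnalyticOnNhd ℂ (fun z => ι (α z)) (ball 0 1) := fun z hz =>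
      (hι _ ⟨z, hz, rfl⟩).comp (hα z hz)
    obtain ⟨φ, hφ, hon⟩ := onto _ hβ hu
    obtain ⟨ψ, -, hψ⟩ := H (fun z => φ (ι (α z)) + z)
      (fun z hz => ((hφ.analyticAt _).comp (hβ z hz)).add analyticAt_id) (by
        intro z hz _ hf K hK hKc
        obtain ⟨C, hC⟩ := hKc.exists_bound_of_continuousOn
          (hφ.continuous.comp_continuousOn (hι.continuousOn.mono hK))
        refine (hf (closedBall 0 (C + 1)) (fun c _ => hon c) (isCompact_closedBall _ _)).subset ?_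
        intro n hn'
        have a : ‖φ (ι (α (z n)))‖ ≤ C := hC _ hn'
        have b := mem_ball_zero_iff.1 (hz n)
        show φ (ι (α (z n))) + z n ∈ closedBall 0 (C + 1)
        rw [mem_closedBall_zero_iff]
        exact (norm_add_le _ _).trans (by linarith))
    intro a ha b hb hab
    have e1 := hψ a ha
    have e2 := hψ b hb
    simp only [hab] at e1 e2
    exact add_left_cancel (e1.trans e2.symm)
  · intro hi f hf _
    have hl : ∀ z ∈ ball (0 : ℂ) 1, Function.invFunOn α (ball 0 1) (α z) = z :=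
      fun z hz => hi.leftInvOn_invFunOn hz
    refine ⟨fun w => f (Function.invFunOn α (ball 0 1) w), ?_, fun w hw => by simp only [hl w hw]⟩
    rintro _ ⟨z, hz, rfl⟩
    refine AnalyticAt.comp (g := f) ?_ (inv_analytic hα hn hi _ ⟨z, hz, rfl⟩)
    rw [hl z hz]
    exact hf z hz

end Pool.Agent.H62.LAtom
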