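import Pool.Agent.H36.Sim
import Pool.Agent.H62.Hsc4

/-!
A primitive recursive enumeration of the polynomial-time functions.
-/

namespace Pool.Agent.H62.Lad

open Pool.Agent.H38.NP Pool.Agent.H36.Sim Pool.Agent.H62.Hsc Function Turing Turing.TM2

section kit
variable {X β γ δ : Type} [Primcodable X] [Primcodable β] [Primcodable γ] [Primcodable δ]

@[fun_prop] theorem p_add {f g : X → ℕ} (hf : Primrec f) (hg : Primrec g) :
    Primrec fun x => f x + g x := Primrec.nat_add.comp hf hg
@[fun_prop] theorem p_pow {f g : X → ℕ} (hf : Primrec f) (hg : Primrec g) :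
    Primrec fun x => f x ^ g x := (Primrec₂.unpaired'.1 Nat.Primrec.pow).comp hf hg
@[fun_prop] theorem p_cond {c : X → Bool} {f g : X → β} (hc : Primrec c) (hf : Primrec f)
    (hg : Primrec g) : Primrec fun x => cond (c x) (f x) (g x) := Primrec.cond hc hf hg
@[fun_prop] theorem p_some {f : X → β} (hf : Primrec f) : Primrec fun x => some (f x) :=
  Primrec.option_some.comp hf
@[fun_prop] theorem p_get? {f : X → List β} {g : X → ℕ} (hf : Primrec f) (hg : Primrec g) :
    Primrec fun x => (f x)[g x]? := Primrec.list_getElem?.comp hf hg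
@[fun_prop] theorem p_ogetD {f : X → Option β} {g : X → β} (hf : Primrec f) (hg : Primrec g) :
    Primrec fun x => (f x).getD (g x) := Primrec.option_getD.comp hf hg
@[fun_prop] theorem p_getD {f : X → List β} {g : X → ℕ} {d : X → β} (hf : Primrec f)
    (hg : Primrec g) (hd : Primrec d) : Primrec fun x => (f x).getD (g x) (d x) :=
  (p_ogetD (p_get? hf hg) hd).of_eq fun x => by simp
@[fun_prop] theorem p_filterMap {f : X → List β} {g : X → β → Option γ} (hf : Primrec f)
    (hg : Primrec (fun p : X × β => g p.1 p.2)) : Primrec (fun x => (f x).filterMap (g x)) :=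
  Primrec.listFilterMap hf hg
@[fun_prop] theorem p_deq [DecidableEq β] {f g : X → β} (hf : Primrec f) (hg : Primrec g) :
    Primrec fun x => decide (f x = g x) := by
  obtain ⟨_, h⟩ := peq hf hg
  exact h.of_eq fun x => by simp
theorem p_iter {f : X → ℕ} {g : X → β} {h : X → β → β} (hf : Primrec f) (hg : Primrec g)
    (hh : Primrec fun p : X × β => h p.1 p.2) : Primrec fun x => (h x)^[f x] (g x) :=
  Primrec.nat_iterate hf hg hh
@[fun_prop] theorem p_tail {f : X → List β} (hf : Primrec f) : Primrec fun x => (f x).tail :=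
  Primrec.list_tail.comp hf
@[fun_prop] theorem p_drop {f : X → List β} {g : X → ℕ} (hg : Primrec g) (hf : Primrec f) :
    Primrec fun x => (f x).drop (g x) :=
  (p_iter (h := fun _ (l : List β) => l.tail) hg hf (by fun_prop)).of_eq fun x => by
    generalize g x = n
    induction n with
    | zero => rfl
    | succ n ih => rw [iterate_succ_apply', ih, List.tail_drop]
@[fun_prop] theorem p_take {f : X → List β} {g : X → ℕ} (hg : Primrec g) (hf : Primrec f) :
    Primrec fun x => (f x).take (g x) := by
  have : Primrec fun x => (List.range (g x)).filterMap fun i => (f x)[i]? := by fun_prop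
  refine this.of_eq fun x => ?_
  generalize g x = n
  induction n with
  | zero => simp
  | succ n ih =>
    rw [List.range_succ, List.filterMap_append, ih, List.take_add_one]
    cases h : (f x)[n]? <;> simp [h]
@[fun_prop] theorem p_head? {f : X → List β} (hf : Primrec f) : Primrec fun x => (f x).head? :=
  Primrec.list_head?.comp hf
@[fun_prop] theorem p_omap {f : X → Option β} {g : X → β → γ} (hf : Primrec f)
    (hg : Primrec (fun p : X × β => g p.1 p.2)) : Primrec (fun x => (f x).map (g x)) :=
  Primrec.option_map hf hg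
@[fun_prop] theorem p_obind {f : X → Option β} {g : X → β → Option γ} (hf : Primrec f)
    (hg : Primrec (fun p : X × β => g p.1 p.2)) : Primrec (fun x => (f x).bind (g x)) :=
  Primrec.option_bind hf hg
@[fun_prop] theorem p_find? {f : X → List β} {g : X → β → Bool} (hf : Primrec f)
    (hg : Primrec (fun p : X × β => g p.1 p.2)) : Primrec (fun x => (f x).find? (g x)) := by
  have : Primrec fun x => ((f x).filterMap fun b => cond (g x b) (some b) none).head? := by
    fun_prop
  refine this.of_eq fun x => ?_
  generalize f x = l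
  induction l with
  | nil => rfl
  | cons a l ih => cases h : g x a <;> simp_all
@[fun_prop] theorem p_zipWith {f : X → List β} {g : X → List γ} {h : X → β → γ → δ}
    (hf : Primrec f) (hg : Primrec g) (hh : Primrec fun p : X × β × γ => h p.1 p.2.1 p.2.2) :
    Primrec fun x => List.zipWith (h x) (f x) (g x) := by
  have : Primrec fun x => (List.range (f x).length).filterMap fun i =>
      (f x)[i]?.bind fun a => (g x)[i]?.map fun b => h x a b := by
    refine p_filterMap (by fun_prop) (p_obind (by fun_prop) (p_omap (by fun_prop) ?_))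
    exact hh.comp (g := fun p : ((X × ℕ) × β) × γ => (p.1.1.1, p.1.2, p.2)) (by fun_prop)
  refine this.of_eq fun x => ?_
  generalize f x = l
  generalize g x = m
  induction l generalizing m with
  | nil => rfl
  | cons a l ih =>
    cases m with
    | nil => simp
    | cons b m =>
      rw [List.length_cons, List.range_succ_eq_map, List.filterMap_cons, List.filterMap_map]
      simpa [Function.comp_def] using ih m
end kit

abbrev Pm := (ℕ × List (Cd × Cd)) × (ℕ × List Bool × ℕ × ℕ) × ℕ × ℕ × ℕ

def uU (a : Pm) (x : List Bool) : List Bool :=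
  (((stp a.1.1 a.1.2)^[(x.length + a.2.2.2.2) ^ a.2.2.2.2]
    (a.2.1.1, a.2.1.2.1.map fun b =>
      cond b (x.map fun y => cond y a.2.1.2.2.1 a.2.1.2.2.2) [])).2.getD a.2.2.1 []).map
    fun n => decide (n = a.2.2.2.1)

theorem p_stp : Primrec fun p : (ℕ × List (Cd × Cd)) × Cd => stp p.1.1 p.1.2 p.2 := by
  have h : Primrec fun p : (ℕ × List (Cd × Cd)) × Cd =>
      ((p.1.2.find? fun e => decide (e.1 = (p.2.1, p.2.2.map (List.take p.1.1)))).map (·.2)).getD
        (0, []) := by fun_prop
  have h2 : Primrec fun p : (ℕ × List (Cd × Cd)) × Cd =>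
      ((p.1.2.find? fun e => e.1 == (p.2.1, p.2.2.map (List.take p.1.1))).map (·.2)).getD
        (0, []) := h.of_eq fun p => by congr 3; funext e; simp [beq_eq_decide]
  unfold stp
  refine p_pair (p_fst h2) (p_zipWith (p_snd h2) (by fun_prop) (by fun_prop))

theorem p_uU : Primrec fun p : Pm × List Bool => uU p.1 p.2 := by
  unfold uU
  refine p_map (p_getD (p_snd (p_iter (h := fun (p : Pm × List Bool) c => stp p.1.1.1 p.1.1.2 c)
    (by fun_prop) (by fun_prop) ?_)) (by fun_prop) (by fun_prop)) (by fun_prop)
  exact p_stp.comp (g := fun p : (Pm × List Bool) × Cd => (p.1.1.1, p.2)) (by fun_prop)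

theorem pt_pow {α : Type} [Enc α] {f : α → ℕ} (hf : PT f) (c : ℕ) : PT fun a => f a ^ c :=
  (PT.polyEval (Polynomial.X ^ c) hf).of_eq (by simp)

theorem pt_uU (a : Pm) : PT fun x : Bits => (⟨uU a x.val⟩ : Bits) := by
  obtain ⟨⟨D, Tb⟩, ⟨s, bl, a1, a0⟩, k, o, c⟩ := a
  have hi : PT fun x : Bits => ((s, bl.map fun b => cond b (x.val.map fun y => cond y a1 a0) []) : Cd) := by
    fun_prop
  have hn : PT fun x : Bits => (x.val.length + c) ^ c := pt_pow (by fun_prop) c
  have hI := PT.iterate (step := fun (_ : Bits) c => stp D Tb c) (by unfold stp; fun_prop) hn hi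
    (B := fun x => sz ((s, bl.map fun b => cond b (x.val.map fun y => cond y a1 a0) []) : Cd) +
      (x.val.length + c) ^ c * (sz Tb + 1))
    (hi.pb.add (hn.nat_pb.mul (PB.const _))) (fun x i h => by
      refine le_trans ?_ (Nat.add_le_add_left (Nat.mul_le_mul_right _ h) _)
      clear h
      induction i with
      | zero => simp
      | succ i ih =>
        rw [iterate_succ_apply']
        have := sz_stp D Tb ((fun c => stp D Tb c)^[i]
          ((s, bl.map fun b => cond b (x.val.map fun y => cond y a1 a0) []) : Cd))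
        rw [Nat.succ_mul]
        omega)
  have hO : PT fun c : Cd => Bits.mk ((c.2.getD k []).map fun n => decide (n = o)) := by fun_prop
  exact hO.comp hI

theorem poly_bd (τ : Polynomial ℕ) : ∃ c, ∀ n, τ.eval n ≤ (n + c) ^ c := by
  have mono : ∀ n a c : ℕ, a ≤ c → (n + a) ^ a ≤ (n + (c + 2)) ^ (c + 1) := fun n a c h =>
    (Nat.pow_le_pow_left (by omega) a).trans (Nat.pow_le_pow_right (by omega) (by omega))
  induction τ using Polynomial.induction_on' with
  | add p q hp hq =>
    obtain ⟨a, ha⟩ := hp
    obtain ⟨b, hb⟩ := hq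
    refine ⟨a + b + 2, fun n => ?_⟩
    have h1 := (ha n).trans (mono n a (a + b) (by omega))
    have h2 := (hb n).trans (mono n b (a + b) (by omega))
    rw [Polynomial.eval_add, pow_succ _ (a + b + 1)]
    nlinarith [Nat.zero_le ((n + (a + b + 2)) ^ (a + b + 1))]
  | monomial e k =>
    refine ⟨k + e + 1, fun n => ?_⟩
    rw [Polynomial.eval_monomial, pow_succ']
    exact Nat.mul_le_mul (by omega) ((Nat.pow_le_pow_left (by omega) e).trans
      (Nat.pow_le_pow_right (by omega) (by omega)))

theorem uU_univ {f : List Bool → List Bool} (hf : PolyTime f) : ∃ a, ∀ x, uU a x = f x := by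
  classical
  obtain ⟨⟨⟨tm, ia, oa⟩, τ, hout⟩⟩ := hf
  obtain ⟨cc, hcc⟩ := poly_bd τ
  have := tm.kFin
  have := tm.ΛFin
  have := tm.σFin
  let M := tm.m
  let G : Set (Σ k, tm.Γ k) := (⋃ l, syms (M l)) ∪ Set.range fun b : Bool => ⟨tm.k₀, ia.symm b⟩
  have hGf : G.Finite := (Set.finite_iUnion fun l => syms_finite _).union (Set.finite_range _)
  have hG : ∀ l, syms (M l) ⊆ G := fun l x hx => Or.inl (Set.mem_iUnion.2 ⟨l, hx⟩)
  let D := Finset.univ.sup fun l => depth (M l)
  have hD : ∀ l, depth (M l) ≤ D := fun l =>
    Finset.le_sup (f := fun l => depth (M l)) (Finset.mem_univ l)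
  let ks : List tm.K := Finset.univ.toList
  have hks : ∀ k, k ∈ ks := fun k => by simp [ks]
  let c0 : List Bool → Cfg tm.Γ tm.Λ tm.σ := fun u => initList tm (u.map ia.symm)
  have hgood0 : ∀ u, Good G (c0 u).stk := by
    intro u k a ha
    by_cases e : k = tm.k₀
    · subst e
      simp only [c0, initList_k0, List.mem_map] at ha
      obtain ⟨b, -, rfl⟩ := ha
      exact Or.inr ⟨b, rfl⟩
    · simp [c0, initList_ne tm _ e] at ha
  have hgood : ∀ u t, Good G ((nxt M)^[t] (c0 u)).stk := by
    intro u t
    induction t with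
    | zero => exact hgood0 u
    | succ t ih => rw [iterate_succ_apply']; exact good_nxt M hG _ ih
  have hrun : ∀ (u : List Bool),
      ((nxt M)^[(u.length + cc) ^ cc] (c0 u)).stk tm.k₁ = (f u).map oa.symm := by
    intro u
    have h := hout u
    exact (congrArg (fun c => c.stk tm.k₁)
      (iter_nxt_le M (h.steps_le_m.trans (hcc _)) rfl h.evals_in_steps)).trans (haltList_k1 _ _)
  let sy : ∀ k, tm.Γ k → ℕ := fun k a => hGf.toFinset.toList.idxOf ⟨k, a⟩
  have hsy : ∀ k a b, (⟨k, a⟩ : Σ k, tm.Γ k) ∈ G → sy k a = sy k b → a = b := by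
    intro k a b ha e
    have := (List.idxOf_inj (by simpa using ha)).1 e
    simpa using this
  let st : Option tm.Λ × tm.σ → ℕ := fun s => Finset.univ.toList.idxOf s
  have hst : ∀ a b, st a = st b → a = b := fun a b e => (List.idxOf_inj (by simp)).1 e
  let cd : Cfg tm.Γ tm.Λ tm.σ → Cd := fun c =>
    (st (c.l, c.var), ks.map fun k => (c.stk k).map (sy k))
  have hcd : ∀ a b, Good G a.stk → cd a = cd b → a = b := by
    rintro ⟨l, v, S⟩ ⟨l', v', S'⟩ ha e
    simp only [cd, Prod.mk.injEq, List.map_inj_left] at e
    obtain ⟨rfl, rfl⟩ := Prod.mk.inj (hst _ _ e.1)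
    congr 1
    funext k
    have h1 := e.2 k (hks k)
    have h2 := ha k
    simp only at h2
    generalize S k = s at h1 h2
    generalize S' k = s' at h1
    induction s generalizing s' with
    | nil => cases s' <;> simp_all
    | cons a s ih =>
      cases s' with
      | nil => simp at h1
      | cons b s' =>
        simp only [List.map_cons, List.cons.injEq] at h1
        rw [hsy k a b (h2 a (by simp)) h1.1, ih (fun x hx => h2 x (by simp [hx])) s' h1.2]
  let Tb : List (Cd × Cd) := (wins_finite (Λ := tm.Λ) (σ := tm.σ) hGf D).toFinset.toList.map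
    fun ω => (cd ω, cd (nxt M ω))
  have hstp : ∀ c, Good G c.stk → stp D Tb (cd c) = cd (nxt M c) := by
    intro c hc
    have hw : win D c ∈ Wins G D :=
      ⟨fun k a ha => hc k a (List.mem_of_mem_take ha), fun k => by simp [win]⟩
    have e1 : ((cd c).1, (cd c).2.map (List.take D)) = cd (win D c) := by
      simp [cd, win, List.map_take]
    have e2 : Tb.find? (fun e => e.1 == cd (win D c)) = some (cd (win D c), cd (nxt M (win D c))) := by
      cases e : Tb.find? (fun e => e.1 == cd (win D c)) with
      | none =>
        have := List.find?_eq_none.1 e (cd (win D c), cd (nxt M (win D c)))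
          (List.mem_map.2 ⟨_, by simpa using hw, rfl⟩)
        simp at this
      | some p =>
        have h1 := List.find?_some e
        obtain ⟨ω, -, rfl⟩ := List.mem_map.1 (List.mem_of_find?_eq_some e)
        rw [hcd _ _ hw.1 (beq_iff_eq.1 h1).symm]
    unfold stp
    rw [e1, e2, nxt_win M hD c]
    simp [cd, ext, List.zipWith_map, List.map_drop]
  have hit : ∀ u t, (stp D Tb)^[t] (cd (c0 u)) = cd ((nxt M)^[t] (c0 u)) := by
    intro u t
    induction t with
    | zero => rfl
    | succ t ih => rw [iterate_succ_apply', iterate_succ_apply', ih, hstp _ (hgood u t)]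
  have hi : ∀ x : List Bool, (st ((c0 []).l, (c0 []).var),
        (ks.map fun k => decide (k = tm.k₀)).map fun b =>
          cond b (x.map fun y => cond y (sy _ (ia.symm true)) (sy _ (ia.symm false))) []) =
        cd (c0 x) := by
    intro x
    simp only [cd, List.map_map]
    congr 1
    refine List.map_congr_left fun k _ => ?_
    by_cases e : k = tm.k₀
    · subst e
      simp only [c0, initList_k0, List.map_map, comp, decide_true, cond_true]
      exact List.map_congr_left fun y _ => by cases y <;> rfl
    · simp [c0, initList_ne tm _ e, e]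
  refine ⟨((D, Tb), (st ((c0 []).l, (c0 []).var), ks.map fun k => decide (k = tm.k₀),
    sy _ (ia.symm true), sy _ (ia.symm false)), ks.idxOf tm.k₁, sy _ (oa.symm true), cc), fun x => ?_⟩
  simp only [uU]
  rw [hi, hit]
  have hl := List.idxOf_lt_length_of_mem (hks tm.k₁)
  have hg := hgood x ((x.length + cc) ^ cc) tm.k₁
  have : (cd ((nxt M)^[(x.length + cc) ^ cc] (c0 x))).2.getD (ks.idxOf tm.k₁) [] =
      ((f x).map oa.symm).map (sy _) := by
    rw [← hrun]
    simp only [cd, List.getD_eq_getElem?_getD, List.getElem?_map]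
    rw [List.getElem?_idxOf (hks _)]
    rfl
  rw [this, List.map_map, List.map_map]
  rw [hrun] at hg
  conv_rhs => rw [← List.map_id (f x)]
  refine List.map_congr_left fun b hb => ?_
  cases b
  · simp only [comp, id, decide_eq_false_iff_not]
    intro e
    simpa using hsy _ _ _ (hg _ (List.mem_map_of_mem hb)) e
  · simp

instance : Primcodable Bits :=
  Primcodable.ofEquiv (List Bool) ⟨Bits.val, Bits.mk, fun _ => rfl, fun _ => rfl⟩

@[fun_prop] theorem p_bval : Primrec Bits.val := Primrec.of_equiv
@[fun_prop] theorem p_bmk : Primrec Bits.mk := Primrec.of_equiv_symm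

/-- the enumeration -/
def uu (i : ℕ) (x : Bits) : Bits := ⟨uU ((Encodable.decode i).getD default) x.val⟩

theorem pt_uu (i : ℕ) : PT (uu i) := pt_uU _

theorem uu_univ {f : Bits → Bits} (hf : PT f) : ∃ i, uu i = f := by
  obtain ⟨a, ha⟩ := uU_univ hf.polyTime
  exact ⟨Encodable.encode a, funext fun x => by simp [uu, ha]⟩

@[fun_prop] theorem p_uu {X : Type} [Primcodable X] {f : X → ℕ} {g : X → Bits} (hf : Primrec f)
    (hg : Primrec g) : Primrec fun x => uu (f x) (g x) :=
  p_bmk.comp (p_uU.comp (g := fun x => ((Encodable.decode (f x)).getD default, (g x).val))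
    ((p_ogetD (Primrec.decode.comp hf) (.const _)).pair (p_bval.comp hg)))

theorem pr_bits {f : Bits → Bits} (hf : PT f) : Primrec f := by
  obtain ⟨i, rfl⟩ := uu_univ hf
  exact p_uu (.const i) .id

class PD (α : Type) [Enc α] [Dec α] [Primcodable α] : Prop where
  pe : Primrec (raw : α → Bits)
  pd : Primrec (dec : Bits → α)

attribute [fun_prop] PD.pe PD.pd

@[fun_prop] theorem p_enc {α : Type} [Enc α] [Dec α] [Primcodable α] [PD α] :
    Primrec (enc : α → List Bool) := p_bval.comp PD.pe

theorem pr_of_pt {α β : Type} [Enc α] [Dec α] [Primcodable α] [PD α] [Enc β] [Dec β]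
    [Primcodable β] [PD β] {f : α → β} (hf : PT f) : Primrec f :=
  (PD.pd.comp ((pr_bits (f := fun x => raw (f (dec x))) (hf.comp Dec.pt).raw).comp
    (PD.pe (α := α)))).of_eq fun a => by simp

@[fun_prop] theorem p_npair {X : Type} [Primcodable X] {f g : X → List Bool} (hf : Primrec f)
    (hg : Primrec g) : Primrec fun x => pair (f x) (g x) := by
  unfold pair; fun_prop

instance : PD Bits := ⟨Primrec.id, Primrec.id⟩
instance : PD ℕ := ⟨by
    have : Primrec fun n : ℕ => Bits.mk ((List.range n).map fun _ => true) := by fun_prop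
    exact this.of_eq fun n => by simp [raw],
  by
    have : Primrec fun x : Bits => x.val.length := by fun_prop
    exact this⟩
instance : PD Bool := ⟨by
    have : Primrec fun n : Bool => Bits.mk [n] := by fun_prop
    exact this,
  by
    have : Primrec fun x : Bits => x.val.head?.getD false := by fun_prop
    exact this.of_eq fun x => by
      show _ = x.val.headD false
      cases x.val <;> rfl⟩

section
variable {α β : Type} [Enc α] [Dec α] [Primcodable α] [PD α] [Enc β] [Dec β]
    [Primcodable β] [PD β]

instance : PD (α × β) := ⟨by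
    have : Primrec fun p : α × β => Bits.mk (pair (raw p.1).val (raw p.2).val) := by fun_prop
    exact this,
  by
    have h1 := pr_bits PT.bfst
    have h2 := pr_bits PT.bsnd
    have : Primrec fun x : Bits => ((dec x.fst, dec x.snd) : α × β) := by fun_prop
    exact this⟩

instance : PD (List α) := ⟨by
    have : Primrec fun l : List α => l.foldr (fun a r => pair (raw a).val r) [] :=
      Primrec.list_foldr (h := fun _ (r : α × List Bool) => pair (raw r.1).val r.2) .id (.const _)
        (show Primrec _ by fun_prop)
    exact p_bmk.comp this,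
  by
    have h1 := pr_bits PT.bfst
    have h2 := pr_bits PT.bsnd
    have h3 : Primrec fun p : Bits × ℕ => Bits.snd^[p.2] p.1 :=
      p_iter (h := fun _ (y : Bits) => y.snd) (by fun_prop) (by fun_prop) (by fun_prop)
    have h4 : Primrec Bits.isNil := by
      have : Primrec fun x : Bits => decide (x.val = []) := by fun_prop
      exact this.of_eq fun x => by
        show _ = x.val.isEmpty
        cases x.val <;> rfl
    have : Primrec fun x : Bits => (List.range x.val.length).filterMap fun i =>
        cond (Bits.snd^[i] x).isNil none (some (dec (Bits.snd^[i] x).fst : α)) :=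
      p_filterMap (by fun_prop) (p_cond (h4.comp h3) (.const _) (p_some (PD.pd.comp (h1.comp h3))))
    exact this⟩
end

end Pool.Agent.H62.Lad
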