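import Pool.Agent.H38.NP.Defs

/-!
Relational structures over a finite signature, finitely bounded structures and their CSPs.
-/

namespace Pool.Agent.H62.Lad

open Pool.Agent.H38.NP

/-- A structure on `β` for the finite relational signature whose `i`-th symbol has arity `ar[i]`:
`rel i l` says that the tuple `l` lies in the `i`-th relation. -/
structure Str (ar : List ℕ) (β : Type) where
  /-- the relations -/
  rel : ℕ → List β → Prop
  /-- only symbols of the signature, only tuples of the right length -/
  wf : ∀ i l, rel i l → ar[i]? = some l.length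

variable {ar : List ℕ} {α β : Type}

/-- There is a homomorphism from `B` to `A`. -/
def Hom (B : Str ar β) (A : Str ar α) : Prop :=
  ∃ f : β → α, ∀ i l, B.rel i l → A.rel i (l.map f)

/-- `B` embeds into `A`. -/
def Emb (B : Str ar β) (A : Str ar α) : Prop :=
  ∃ f : β → α, Function.Injective f ∧ ∀ i l, B.rel i l ↔ A.rel i (l.map f)

/-- `A` is finitely bounded (finite structures are taken with domain `Fin n`). -/
def FinBounded (A : Str ar α) : Prop :=
  ∃ F : Set (Σ n, Str ar (Fin n)), F.Finite ∧
    ∀ (n : ℕ) (B : Str ar (Fin n)), Emb B A ↔ ∀ C ∈ F, ¬ Emb C.2 B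

/-- Codes of finite structures: the size `n` of the domain and the list of all facts
(symbol, tuple). -/
abbrev Code : Type := ℕ × List (ℕ × List ℕ)

/-- Well-formed codes: right arities, entries below `n`. -/
def Valid (ar : List ℕ) (c : Code) : Prop :=
  ∀ f ∈ c.2, ar[f.1]? = some f.2.length ∧ ∀ x ∈ f.2, x < c.1

/-- The structure on `Fin n` described by a code. -/
def str (ar : List ℕ) (c : Code) : Str ar (Fin c.1) :=
  ⟨fun i l => ar[i]? = some l.length ∧ (i, l.map Fin.val) ∈ c.2, fun _ _ h => h.1⟩

/-- `CSP A` as a language of bit strings. -/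
def CSP (A : Str ar α) : Set (List Bool) :=
  lang fun c : Code => Valid ar c ∧ Hom (str ar c) A

end Pool.Agent.H62.Lad
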