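import Pool.Agent.H62.Lad1
import Pool.Agent.H62.LadDefs
import Pool.Agent.H38.NP.Col4

/-!
Delayed diagonalisation for colouring problems that are switched on and off by a clock.
-/

namespace Pool.Agent.H62.Lad

open Pool.Agent.H38.NP Pool.Agent.H36.Sim Pool.Agent.H62.Hsc Function List

abbrev Z := ℕ × List ((ℕ × ℕ) × (ℕ × ℕ))

def ok (z : Z) (t c : List ℕ) : Bool := z.2.all fun f => (range t.length).all fun i =>
  (range t.length).all fun j => !(t.getD i 0 == f.1.1 && t.getD j 0 == f.2.1 &&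
    c.getD i 0 == f.1.2 && c.getD j 0 == f.2.2)

theorem ok_iff {z t c} : ok z t c = true ↔ ∀ f ∈ z.2, ∀ i < t.length, ∀ j < t.length,
    t.getD i 0 = f.1.1 → t.getD j 0 = f.2.1 → ¬ (c.getD i 0 = f.1.2 ∧ c.getD j 0 = f.2.2) := by
  simp only [ok, all_eq_true, mem_range, Bool.not_eq_true', Bool.and_eq_false_imp,
    Bool.and_eq_true, beq_iff_eq, beq_eq_false_iff_ne, not_and, and_imp, ne_eq]

theorem pt_ok : PT fun p : Z × List ℕ × List ℕ => ok p.1 p.2.1 p.2.2 := by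
  unfold ok; fun_prop

def LOC (n : ℕ) (z : Z) : Prop :=
  ∀ t ∈ allL (range z.1) n, ∃ c ∈ allL (range 4) n, ok z t c = true

def COL (z : Z) : Prop := ∃ χ : ℕ → ℕ, (∀ x, χ x < 4) ∧
  ∀ f ∈ z.2, f.1.1 < z.1 → f.2.1 < z.1 → ¬ (χ f.1.1 = f.1.2 ∧ χ f.2.1 = f.2.2)

theorem COL.loc {z} (h : COL z) (n : ℕ) : LOC n z := by
  obtain ⟨χ, h1, h2⟩ := h
  intro t ht
  rw [mem_allL] at ht
  refine ⟨t.map χ, mem_allL.2 ⟨by simp [ht.1], by simp [h1]⟩, ok_iff.2 fun f hf i hi j hj e1 e2 => ?_⟩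
  have a1 := ht.2 _ (getElem_mem hi)
  have a2 := ht.2 _ (getElem_mem hj)
  simp only [getD_eq_getElem?_getD, getElem?_map, getElem?_eq_getElem hi, getElem?_eq_getElem hj,
    Option.getD_some, Option.map_some, mem_range] at *
  rw [e1] at a1 ⊢
  rw [e2] at a2 ⊢
  exact h2 f hf a1 a2

theorem col_of_ok {z : Z} {c} (hc : ∀ x ∈ c, x < 4) (h : ok z (range z.1) c = true) : COL z := by
  refine ⟨fun x => c.getD x 0, fun x => ?_, fun f hf a1 a2 => ok_iff.1 h f hf _ (by simpa using a1)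
    _ (by simpa using a2) (by simp [a1]) (by simp [a2])⟩
  beta_reduce
  rw [getD_eq_getElem?_getD]
  cases e : getElem? c x with
  | none => simp
  | some a => exact hc a (mem_of_getElem? e)

theorem LOC.col {z : Z} (h : LOC z.1 z) : COL z := by
  obtain ⟨c, h1, h2⟩ := h (range z.1) (mem_allL.2 ⟨by simp, by simp⟩)
  exact col_of_ok (by simpa using (mem_allL.1 h1).2) h2

theorem pt_allL {α β : Type} [Enc α] [Enc β] {L : α → List β} (hL : PT L) (n : ℕ) :
    PT fun a => allL (L a) n := by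
  induction n with
  | zero => exact PT.const _
  | succ n ih =>
    show PT fun a => (L a).flatMap fun x => (allL (L a) n).map fun l => x :: l
    exact PT.flatMap (PT.map (f := fun (p : α × β) l => p.2 :: l) (by fun_prop)
      (ih.comp (g := fun p : α × β => p.1) (by fun_prop))) hL

def loc (n : ℕ) (z : Z) : Bool :=
  (allL (range z.1) n).all fun t => (allL (range 4) n).any fun c => ok z t c

theorem loc_iff {n z} : loc n z = true ↔ LOC n z := by simp [loc, LOC]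

theorem pt_loc (n : ℕ) : PT (loc n) := by
  unfold loc
  refine PT.all (PT.any ?_ (PT.const _)) (pt_allL (by fun_prop) n)
  exact pt_ok.comp (g := fun p : (Z × List ℕ) × List ℕ => (p.1.1, p.1.2, p.2)) (by fun_prop)

theorem p_LOC {X : Type} [Primcodable X] {n : X → ℕ} {z : X → Z} (hn : Primrec n)
    (hz : Primrec z) : PrimrecPred fun x => LOC (n x) (z x) :=
  pall (by fun_prop) (pex (by fun_prop) (peq ((pr_of_pt pt_ok).comp
    (g := fun p : (X × List ℕ) × List ℕ => (z p.1.1, p.1.2, p.2)) (by fun_prop)) (.const _)))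

theorem inNP_col {α : Type} [Enc α] [Dec α] {φ : α → Z} (hφ : PT φ) :
    InNP (lang fun a => COL (φ a)) := by
  refine inNP_lang (β := List ℕ)
    (fun a c => c.all (fun x => decide (x < 4)) && ok (φ a) (range (φ a).1) c)
    (PT.and (by fun_prop) (pt_ok.comp (g := fun p : α × List ℕ => (φ p.1, range (φ p.1).1, p.2))
      (by fun_prop))) (B := fun a => (φ a).1 * (2 * 4 + 1))
    (hφ.fst.nat_pb.mul (PB.const _)) (fun a h => ?_) fun a c h => ?_
  · obtain ⟨c, h1, h2⟩ := h.loc (φ a).1 (range (φ a).1) (mem_allL.2 ⟨by simp, by simp⟩)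
    obtain ⟨h3, h4⟩ := mem_allL.1 h1
    refine ⟨c, ?_, by simpa [h2] using h4⟩
    rw [← h3]
    exact sz_le_of_forall fun x hx => by have := h4 x hx; simp at this ⊢; omega
  · simp only [Bool.and_eq_true, all_eq_true, decide_eq_true_eq] at h
    exact col_of_ok h.1 h.2

abbrev Gr := ℕ × List (ℕ × ℕ)

def zG (g : Gr) : Z := (g.1, g.2.flatMap fun e => (range 4).map fun a => ((e.1, a), (e.2, a)))

theorem pt_zG : PT zG := by unfold zG; fun_prop

def Hd (g : Gr) : Prop := COL (zG g)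

theorem hd_iff {g : Gr} : Hd g ↔ ∃ χ : ℕ → ℕ, (∀ x, χ x < 4) ∧
    ∀ e ∈ g.2, e.1 < g.1 → e.2 < g.1 → χ e.1 ≠ χ e.2 := by
  refine exists_congr fun χ => and_congr_right fun h => ?_
  simp only [zG, mem_flatMap, mem_map, mem_range]
  constructor
  · intro H e he h1 h2 h3
    exact H _ ⟨e, he, χ e.1, h _, rfl⟩ h1 h2 ⟨rfl, h3.symm⟩
  · rintro H _ ⟨e, he, a, -, rfl⟩ h1 h2 ⟨h3, h4⟩
    exact H e he h1 h2 (h3.trans h4.symm)

theorem hd_nph (n : ℕ) : NPH (fun g : Gr => n < g.1) Hd := by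
  refine col4_nph.reduce (fun E => (sz E + n + 1, E)) (by fun_prop) fun E _ => ⟨by simp only; omega, ?_⟩
  rw [hd_iff]
  constructor
  · rintro ⟨c, hc⟩
    refine ⟨fun x => 2 * (c x).1.toNat + (c x).2.toNat, fun x => ?_, fun e he _ _ h => hc e he ?_⟩
    · beta_reduce
      rcases c x with ⟨_ | _, _ | _⟩ <;> simp
    · revert h
      beta_reduce
      rcases c e.1 with ⟨_ | _, _ | _⟩ <;> rcases c e.2 with ⟨_ | _, _ | _⟩ <;> simp
  · rintro ⟨χ, h1, h2⟩
    refine ⟨fun x => (decide (χ x < 2), decide (χ x % 2 = 0)), fun e he h => ?_⟩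
    have := sz_le_of_mem he
    rw [sz_prod, sz_nat, sz_nat] at this
    refine h2 e he (by simp only; omega) (by simp only; omega) ?_
    have a1 := h1 e.1
    have a2 := h1 e.2
    simp only [Prod.mk.injEq, decide_eq_decide] at h
    omega

theorem hd_notP (hP : ¬ ∀ L, InNP L → InP L) (n : ℕ) {d : Gr → Bool} (hd : PT d) :
    ∃ g : Gr, n < g.1 ∧ ¬ (d g = true ↔ Hd g) := by
  by_contra h
  push Not at h
  refine hP fun L hL => ?_
  obtain ⟨g, hg, hx⟩ := hd_nph n L hL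
  exact inP_of_pt (fun x => d (g x)) (hd.comp hg) fun x => (hx x).2.trans (h _ (hx x).1).symm

def dk (k : ℕ) : Gr := (Encodable.decode k).getD default

@[fun_prop] theorem p_dk : Primrec dk := p_ogetD Primrec.decode (.const _)

def Sr (ρ : Gr → Code) (n m : ℕ) : Prop := ∀ i ∈ range (n + 1),
  (∃ k ∈ range m, n < (dk k).1 ∧ (dk k).1 < m ∧
    ¬ (uu i (raw (ρ (dk k))) = ⟨[true]⟩ ↔ LOC (dk k).1 (zG (dk k)))) ∧
  ∃ k ∈ range m, (dec (uu i (raw (dk k))) : Z).1 < m ∧
    ¬ (LOC n (dec (uu i (raw (dk k)))) ↔ LOC (dk k).1 (zG (dk k)))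

theorem hd_loc (g : Gr) : LOC g.1 (zG g) ↔ Hd g := ⟨fun h => LOC.col (z := zG g) h, fun h => h.loc _⟩

theorem piff {X : Type} [Primcodable X] {p q : X → Prop} (hp : PrimrecPred p)
    (hq : PrimrecPred q) : PrimrecPred fun x => p x ↔ q x :=
  ((pimp hp hq).and (pimp hq hp)).of_eq fun _ => iff_def.symm

theorem plt {X : Type} [Primcodable X] {f g : X → ℕ} (hf : Primrec f) (hg : Primrec g) :
    PrimrecPred fun x => f x < g x := Primrec.nat_lt.comp hf hg

theorem p_Sr {ρ : Gr → Code} (hρ : PT ρ) : PrimrecPred fun p : ℕ × ℕ => Sr ρ p.1 p.2 := by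
  have h1 := pr_of_pt hρ
  have h2 := pr_of_pt pt_zG
  refine pall (by fun_prop) (.and (pex (by fun_prop) (.and (plt (by fun_prop) (by fun_prop))
    (.and (plt (by fun_prop) (by fun_prop)) (piff (peq (by fun_prop) (by fun_prop))
      (p_LOC (by fun_prop) (by fun_prop))).not)))
    (pex (by fun_prop) (.and (plt (p_fst (PD.pd.comp (by fun_prop))) (by fun_prop))
      (piff (p_LOC (by fun_prop) (by fun_prop)) (p_LOC (by fun_prop) (by fun_prop))).not)))

theorem sr_ex (hP : ¬ ∀ L, InNP L → InP L) {ρ : Gr → Code} (hρ : PT ρ) (n : ℕ) :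
    ∃ m, Sr ρ n (m + 1) := by
  have : ∀ᶠ m in Filter.atTop, Sr ρ n (m + 1) := by
    simp only [Sr, ← List.mem_toFinset (l := range (n + 1))]
    refine (Filter.eventually_all_finset _).2 fun i _ => Filter.Eventually.and ?_ ?_
    · obtain ⟨g, h1, h2⟩ := hd_notP hP n (d := fun g => decide (uu i (raw (ρ g)) = ⟨[true]⟩))
        (PT.eq ((pt_uu i).comp hρ.raw) (PT.const _))
      refine Filter.eventually_atTop.2 ⟨Encodable.encode g + g.1, fun m hm =>
        ⟨Encodable.encode g, by simp; omega, ?_⟩⟩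
      have : dk (Encodable.encode g) = g := by rw [dk, Encodable.encodek]; rfl
      rw [this, hd_loc]
      exact ⟨h1, by omega, by simpa using h2⟩
    · obtain ⟨g, h1, h2⟩ := hd_notP hP n (d := fun g => loc n (dec (uu i (raw g))))
        ((pt_loc n).comp (Dec.pt.comp ((pt_uu i).comp PT.id'.raw)))
      refine Filter.eventually_atTop.2 ⟨Encodable.encode g + (dec (uu i (raw g)) : Z).1, fun m hm =>
        ⟨Encodable.encode g, by simp; omega, ?_⟩⟩
      have : dk (Encodable.encode g) = g := by rw [dk, Encodable.encodek]; rfl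
      rw [this, hd_loc]
      exact ⟨by omega, by simpa [loc_iff] using h2⟩
  exact this.exists

def zbot : List ((ℕ × ℕ) × (ℕ × ℕ)) := (range 4).map fun a => ((0, a), (0, a))

theorem not_loc {n : ℕ} (hn : 0 < n) {z : Z} (h0 : 0 < z.1) (h : ∀ f ∈ zbot, f ∈ z.2) :
    ¬ LOC n z := by
  intro H
  obtain ⟨c, h1, h2⟩ := H (replicate n 0) (mem_allL.2 ⟨by simp, by simp [h0]⟩)
  obtain ⟨h3, h4⟩ := mem_allL.1 h1
  have h5 : c.getD 0 0 ∈ range 4 := by
    rw [getD_eq_getElem _ _ (by omega)]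
    exact h4 _ (getElem_mem _)
  exact ok_iff.1 h2 _ (h _ (mem_map_of_mem h5)) 0 (by simpa) 0 (by simpa) (by simp [hn])
    (by simp [hn]) ⟨rfl, rfl⟩

theorem ladner {ρ : Gr → Code} (X : ℕ → Prop) (C : Code → Prop) {φ : Code → Z} (hφ : PT φ)
    (h0 : ∀ y, 0 < (φ y).1) (h1 : ∀ g : Gr, 0 < g.1 → X (g.1 - 1) → (C (ρ g) ↔ Hd g))
    (h2 : ∀ y n, 0 < n → (∀ t, n ≤ t → t < (φ y).1 → ¬ X t) → (C y ↔ LOC n (φ y)))
    (hon : ∀ n0, ∃ n m, n0 ≤ n ∧ Sr ρ n m ∧ ∀ t, n ≤ t → t < m → X t)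
    (off : ∀ n0, ∃ n m, n0 ≤ n ∧ Sr ρ n m ∧ ∀ t, n ≤ t → t < m → ¬ X t) :
    InNP (lang C) ∧ ¬ InP (lang C) ∧ ¬ NPComplete (lang C) := by
  refine ⟨?_, ?_, ?_⟩
  · have : C = fun y => COL (φ y) := funext fun y => propext
      ((h2 y _ (h0 y) fun t a b => by omega).trans ⟨LOC.col, fun h => h.loc _⟩)
    rw [this]
    exact inNP_col hφ
  · rintro ⟨f, hf, h⟩
    obtain ⟨i, hi⟩ := uu_univ (pt_of_polyTime hf)
    obtain ⟨n, m, a1, a2, a3⟩ := hon i
    obtain ⟨k, -, b1, b2, b3⟩ := (a2 i (by simp; omega)).1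
    refine b3 ?_
    rw [hd_loc, ← h1 _ (by omega) (a3 _ (by omega) (by omega)), hi, ← enc_mem_lang (P := C), h]
    simp
  · rintro ⟨-, hH⟩
    obtain ⟨f, hf, h⟩ := hH _ (inNP_col pt_zG)
    have hF := pt_of_polyTime hf
    let φ' : Bits → Z := fun b => if raw (dec b : Code) = b then φ (dec b) else (1, zbot)
    have hφ' : PT φ' := PT.ite (by fun_prop) (hφ.comp Dec.pt) (PT.const _)
    obtain ⟨i, hi⟩ := uu_univ (hφ'.comp hF).raw
    obtain ⟨n, m, a1, a2, a3⟩ := off (i + 1)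
    obtain ⟨k, -, b1, b2⟩ := (a2 i (by simp; omega)).2
    refine b2 ?_
    rw [hi] at b1 ⊢
    simp only [Dec.dec_raw, raw_val] at b1 ⊢
    have h5 := mem_lang_iff (P := C) ⟨f (enc (dk k))⟩
    rw [hd_loc, Hd, ← enc_mem_lang (P := fun a => COL (zG a)), h, h5]
    by_cases e : raw (dec ⟨f (enc (dk k))⟩ : Code) = ⟨f (enc (dk k))⟩
    · simp only [φ', if_pos e] at b1 ⊢
      rw [h2 _ n (by omega) fun t c1 c2 => a3 t c1 (by omega)]
      simp [e]
    · simp only [φ', if_neg e]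
      exact ⟨fun H => (not_loc (by omega) (by simp) (fun _ h => h) H).elim, fun H => (e H.1).elim⟩

end Pool.Agent.H62.Lad
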