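import Pool.Agent.H73.EP5

/-!
A counter machine with two phases, each long enough for a primitive recursive search.
-/

namespace Pool.Agent.H62.Lad

open Pool.Agent.H73.EP Relation Function

def vi (n : ℕ) : Vl := fun j => if j = 0 then n else 0

theorem search (P : ℕ → ℕ → Prop) (hp : PrimrecPred fun p : ℕ × ℕ => P p.1 p.2)
    (hex : ∀ n, ∃ m, P n (m + 1)) : Prog fun v v' => ∃ n, v = vi n ∧ P n (v' 1) ∧
      v' = fun j => if j = 0 then n else if j = 1 then (by classical exact Nat.find (hex n)) + 1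
        else 0 := by
  classical
  have hp : Primrec₂ fun n s : ℕ => if P n (s + 1) then 0 else 1 :=
    Primrec.ite (hp.comp (Primrec.fst.pair (Primrec.succ.comp Primrec.snd))) (.const 0) (.const 1)
  let R : Vl → Vl → Prop := fun v v' => (∀ j, 3 ≤ j → v j = 0) ∧ v' = fun j =>
    if j = 1 then v 1 + 1 else if j = 2 then v 2 + (if P (v 0) (v 1 + 1) then 0 else 1) else v j
  have body : Prog R := by
    refine ((cmp_of (Nat.Primrec'.prim_iff₂.2 hp) ![0, 1] 2 3
      (by decide) (by omega) (by decide)).seq (Prog.inc 1)).mono ?_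
    rintro v _ ⟨h, rfl⟩
    refine ⟨_, ⟨h, rfl⟩, ?_⟩
    funext j
    simp only [update_apply]
    split_ifs <;> first | omega | simp_all
  refine ((Prog.inc 2).seq (body.loop 2)).mono ?_
  rintro _ _ ⟨n, rfl, -, rfl⟩
  let F : ℕ → Vl := fun k j => if j = 0 then n else if j = 1 then k else
    if j = 2 then (if k ≤ Nat.find (hex n) then 1 else 0) else 0
  refine ⟨_, rfl, F, Nat.find (hex n) + 1, ?_, ?_, by simp, fun k hk => ⟨?_, fun j hj => ?_, ?_⟩⟩
  · funext j
    simp only [F, vi, update_apply]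
    split_ifs <;> simp_all
  · funext j
    simp only [F]
    split_ifs <;> first | rfl | omega
  · simp only [F]
    rw [if_neg (by omega), if_neg (by omega), if_pos trivial, if_pos (by omega)]
    omega
  · simp only [update_apply, F]
    split_ifs <;> omega
  · have e : P n (k + 1) ↔ ¬ k + 1 ≤ Nat.find (hex n) :=
      ⟨fun h => by have := Nat.find_min' (hex n) h; omega,
        fun h => by rw [show k = Nat.find (hex n) by omega]; exact Nat.find_spec (hex n)⟩
    have e2 : k ≤ Nat.find (hex n) := by omega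
    funext j
    simp only [update_apply, F]
    by_cases h0 : j = 0
    · simp [h0]
    by_cases h1 : j = 1
    · simp [h1]
    by_cases h2 : j = 2
    · subst h2
      simp only [OfNat.ofNat_ne_zero, OfNat.ofNat_ne_one, if_false, if_true, e2, zero_ne_one,
        OfNat.zero_ne_ofNat, one_ne_zero, OfNat.one_ne_ofNat, e]
      split_ifs <;> rfl
    · simp [h0, h1, h2]

section
variable {Q : Type} (ins : Q → Ins Q) (s : Option Q)

def cstep (t : ℕ) (c : (Option Q × Vl) × Bool) : (Option Q × Vl) × Bool :=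
  match c.1.1 with
  | some q => (nxt (ins q) c.1.2, c.2)
  | none => ((s, vi (t + 1)), !c.2)

def conf : ℕ → (Option Q × Vl) × Bool
  | 0 => ((none, fun _ => 0), false)
  | t + 1 => cstep ins s t (conf t)

theorem conf_le (t j : ℕ) : (conf ins s t).1.2 j ≤ t := by
  induction t generalizing j with
  | zero => simp [conf]
  | succ t ih =>
    rw [conf, cstep]
    split
    · have := ih j
      simp only [nxt]
      split_ifs <;> simp only [update_apply] <;> (try split_ifs) <;> (try subst j) <;> omega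
    · simp only [vi]
      split_ifs <;> omega

theorem conf_run {c c'} (h : ReflTransGen (CStep ins) c c') (n : ℕ) (hn : (conf ins s n).1 = c) :
    ∃ T, (conf ins s (n + T)).1 = c' ∧ ∀ i ≤ T, (conf ins s (n + i)).2 = (conf ins s n).2 := by
  induction h with
  | refl => exact ⟨0, hn, fun i hi => by rw [Nat.le_zero.1 hi]; rfl⟩
  | tail _ h2 ih =>
    obtain ⟨T, h3, h4⟩ := ih
    obtain ⟨q, h5, rfl⟩ := h2
    have : conf ins s (n + (T + 1)) = (nxt (ins q) (conf ins s (n + T)).1.2, (conf ins s (n + T)).2) := by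
      rw [← add_assoc, conf, cstep, h3, h5]
    refine ⟨T + 1, by rw [this, h3], fun i hi => ?_⟩
    rcases Nat.lt_or_eq_of_le hi with hi | rfl
    · exact h4 i (by omega)
    · rw [this]; exact h4 T le_rfl
end

theorem clock (P : ℕ → ℕ → Prop) (hp : PrimrecPred fun p : ℕ × ℕ => P p.1 p.2)
    (hex : ∀ n, ∃ m, P n (m + 1)) : ∃ (Q : Type) (_ : Finite Q) (ins : Q → Ins Q) (s : Option Q),
    ∀ n0 b, ∃ n m, n0 ≤ n ∧ P n m ∧ ∀ t, n ≤ t → t < m → (conf ins s t).2 = b := by
  obtain ⟨Q, _, ins, s, h⟩ := search P hp hex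
  refine ⟨Q, ‹_›, ins, s, ?_⟩
  have key : ∀ t, (conf ins s t).1.1 = none → ∃ t' m, t < t' ∧ (conf ins s t').1.1 = none ∧
      (conf ins s t').2 = !(conf ins s t).2 ∧ P (t + 1) m ∧
      ∀ u, t + 1 ≤ u → u < m → (conf ins s u).2 = !(conf ins s t).2 := by
    intro t ht
    classical
    have e : conf ins s (t + 1) = ((s, vi (t + 1)), !(conf ins s t).2) := by rw [conf, cstep, ht]
    obtain ⟨T, h1, h2⟩ := conf_run ins s (h _ (fun j => if j = 0 then t + 1 else
      if j = 1 then Nat.find (hex (t + 1)) + 1 else 0)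
      ⟨t + 1, rfl, Nat.find_spec (hex (t + 1)), rfl⟩)
      (t + 1) (by rw [e])
    have h3 := conf_le ins s (t + 1 + T) 1
    rw [h1] at h3
    refine ⟨t + 1 + T, _, by omega, by rw [h1], by rw [h2 T le_rfl, e],
      Nat.find_spec (hex (t + 1)), fun u a1 a2 => ?_⟩
    obtain ⟨i, rfl⟩ := Nat.exists_eq_add_of_le a1
    have h4 : Nat.find (hex (t + 1)) + 1 ≤ t + 1 + T := h3
    rw [h2 i (by omega), e]
  have k2 : ∀ n0, ∃ t, n0 ≤ t ∧ (conf ins s t).1.1 = none := by
    intro n0
    induction n0 with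
    | zero => exact ⟨0, le_rfl, rfl⟩
    | succ n ih =>
      obtain ⟨t, h1, h2⟩ := ih
      obtain ⟨t', _, h3, h4, -⟩ := key t h2
      exact ⟨t', by omega, h4⟩
  intro n0 b
  obtain ⟨t, h1, h2⟩ := k2 n0
  obtain ⟨t', m, h3, h4, h5, h6, h7⟩ := key t h2
  obtain ⟨_, m', -, -, -, h8, h9⟩ := key t' h4
  by_cases e : b = !(conf ins s t).2
  · exact ⟨t + 1, m, by omega, h6, e ▸ h7⟩
  · refine ⟨t' + 1, m', by omega, h8, fun u a1 a2 => ?_⟩
    rw [h9 u a1 a2, h5]
    revert e
    cases b <;> cases (conf ins s t).2 <;> simp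

end Pool.Agent.H62.Lad
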