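import Pool.Agent.H62.Lad2
import Pool.Agent.H62.Lad4

/-!
Polynomial-time preprocessing: folding of the successor relation and backward reachability.
-/

namespace Pool.Agent.H62.Lad

open Pool.Agent.H38.NP Pool.Agent.H62.Hsc Function List Relation

abbrev Fc := ℕ × List ℕ

variable {T : List In} {ar : List ℕ}

def RN (F : List Fc) : Rl ℕ := fun i l => (i, l) ∈ F

def cf (N : ℕ) (F : List Fc) : Option (ℕ × ℕ) :=
  ((range N).product (range N)).find? fun p => decide (p.1 < p.2) && (range N).any fun x =>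
    (decide ((0, [x, p.1]) ∈ F) && decide ((0, [x, p.2]) ∈ F)) ||
    (decide ((0, [p.1, x]) ∈ F) && decide ((0, [p.2, x]) ∈ F))

def sb (p : ℕ × ℕ) (x : ℕ) : ℕ := if x = p.2 then p.1 else x

def mg (N : ℕ) (F : List Fc) : List Fc :=
  F.map fun f => (f.1, f.2.map (sb ((cf N F).getD (0, 0))))

theorem cf_some {N F p} (h : cf N F = some p) : p.1 < p.2 ∧ p.2 < N ∧ ∃ x,
    ((0, [x, p.1]) ∈ F ∧ (0, [x, p.2]) ∈ F) ∨ ((0, [p.1, x]) ∈ F ∧ (0, [p.2, x]) ∈ F) := by
  have h1 := find?_some h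
  have h2 := mem_of_find?_eq_some h
  obtain ⟨a, b⟩ := p
  simp only [Bool.and_eq_true, decide_eq_true_eq, any_eq_true, Bool.or_eq_true] at h1
  obtain ⟨h3, x, -, h4⟩ := h1
  exact ⟨h3, by simpa using (mem_product.1 h2).2, x, h4⟩

def Fn (F : List Fc) : Prop := (∀ x y z, (0, [x, y]) ∈ F → (0, [x, z]) ∈ F → y = z) ∧
  ∀ x y z, (0, [y, x]) ∈ F → (0, [z, x]) ∈ F → y = z

theorem cf_none {N F} (hv : Valid ar (N, F)) (h : cf N F = none) : Fn F := by
  have key : ∀ x y z, y < z → ¬ (((0, [x, y]) ∈ F ∧ (0, [x, z]) ∈ F) ∨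
      ((0, [y, x]) ∈ F ∧ (0, [z, x]) ∈ F)) := by
    intro x y z h1 h2
    have hx : x < N ∧ z < N := h2.elim
      (fun h => ⟨(hv _ h.2).2 x (by simp), (hv _ h.2).2 z (by simp)⟩)
      fun h => ⟨(hv _ h.2).2 x (by simp), (hv _ h.2).2 z (by simp)⟩
    refine find?_eq_none.1 h (y, z) (mem_product.2 ⟨by simp; omega, by simp; omega⟩) ?_
    simp only [Bool.and_eq_true, decide_eq_true_eq, any_eq_true, Bool.or_eq_true, mem_range]
    exact ⟨h1, x, hx.1, h2⟩
  refine ⟨fun x y z a b => ?_, fun x y z a b => ?_⟩ <;> rcases lt_trichotomy y z with e | e | e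
  exacts [(key x y z e (.inl ⟨a, b⟩)).elim, e, (key x z y e (.inl ⟨b, a⟩)).elim,
    (key x y z e (.inr ⟨a, b⟩)).elim, e, (key x z y e (.inr ⟨b, a⟩)).elim]

theorem sb_le (N F x) : sb ((cf N F).getD (0, 0)) x ≤ x := by
  unfold sb
  split_ifs with h
  · cases e : cf N F with
    | none => simp
    | some p =>
      have := (cf_some e).1
      simp [e] at h ⊢
      omega
  · rfl

theorem mg_none {N F} (h : cf N F = none) : mg N F = F := by
  have : sb (0, 0) = id := by
    funext x
    simp [sb]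
    omega
  simp [mg, h, this]

theorem mg_valid {N F} (hv : Valid ar (N, F)) : Valid ar (N, mg N F) := by
  intro f hf
  obtain ⟨f, h, rfl⟩ := mem_map.1 hf
  refine ⟨by simpa using (hv f h).1, fun x hx => ?_⟩
  obtain ⟨x, h1, rfl⟩ := mem_map.1 hx
  exact (sb_le _ _ _).trans_lt ((hv f h).2 x h1)

theorem sz_map_le {α : Type} [Enc α] {g : α → α} {l : List α} (h : ∀ a, sz (g a) ≤ sz a) :
    sz (l.map g) ≤ sz l := by
  induction l with
  | nil => rfl
  | cons a l ih =>
    have := h a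
    rw [map_cons, sz_cons, sz_cons]
    omega

theorem mg_sz (N F) : sz (mg N F) ≤ sz F := by
  refine sz_map_le fun f => ?_
  have : sz (f.2.map (sb ((cf N F).getD (0, 0)))) ≤ sz f.2 :=
    sz_map_le fun a => by simpa using sb_le N F a
  rw [sz_prod, sz_prod]
  simp only
  omega

theorem mg_sat (N F) : Sat T ar (mg N F) ↔ Sat T ar F := by
  constructor
  · rintro ⟨β, M, g, h, hh⟩
    exact ⟨β, M, g, h ∘ sb ((cf N F).getD (0, 0)), fun f hf => by
      simpa using hh _ (mem_map_of_mem hf)⟩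
  · rintro ⟨β, M, g, h, hh⟩
    refine ⟨β, M, g, h, fun f hf => ?_⟩
    obtain ⟨f, h1, rfl⟩ := mem_map.1 hf
    have : h ∘ sb ((cf N F).getD (0, 0)) = h := by
      funext x
      simp only [comp, sb]
      split_ifs with e
      · subst e
        cases e : cf N F with
        | none => rfl
        | some p =>
          obtain ⟨-, -, x, ⟨a, b⟩ | ⟨a, b⟩⟩ := cf_some e
          exacts [g.fn _ _ _ (hh _ a) (hh _ b), g.inj _ _ _ (hh _ a) (hh _ b)]
      · rfl
    simpa [this] using hh f h1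

def mu (N : ℕ) (F : List Fc) : Finset ℕ := (Finset.range N).filter fun x => ∃ f ∈ F, x ∈ f.2

theorem mu_lt {N F p} (h : cf N F = some p) : (mu N (mg N F)).card < (mu N F).card := by
  obtain ⟨h1, h2, x, h3⟩ := cf_some h
  have a1 : ∃ f ∈ F, p.1 ∈ f.2 := h3.elim (fun h => ⟨_, h.1, by simp⟩) fun h => ⟨_, h.1, by simp⟩
  have a2 : ∃ f ∈ F, p.2 ∈ f.2 := h3.elim (fun h => ⟨_, h.2, by simp⟩) fun h => ⟨_, h.2, by simp⟩
  refine Finset.card_lt_card ⟨fun y hy => ?_, fun hs => ?_⟩
  · simp only [mu, mg, h, Finset.mem_filter, mem_map, Option.getD_some] at hy ⊢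
    obtain ⟨b1, _, ⟨f, b2, rfl⟩, b3⟩ := hy
    obtain ⟨z, b4, rfl⟩ := mem_map.1 b3
    refine ⟨b1, ?_⟩
    unfold sb
    split_ifs
    exacts [a1, ⟨f, b2, b4⟩]
  · have := hs (Finset.mem_filter.2 ⟨Finset.mem_range.2 h2, a2⟩)
    simp only [mu, mg, h, Finset.mem_filter, mem_map, Option.getD_some] at this
    obtain ⟨-, _, ⟨f, b2, rfl⟩, b3⟩ := this
    obtain ⟨z, b4, e⟩ := mem_map.1 b3
    unfold sb at e
    split_ifs at e <;> omega

def nrm (c : Code) : List Fc := (mg c.1)^[c.1 + 1] c.2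

theorem nrm_valid {c : Code} (hv : Valid ar c) (k : ℕ) : Valid ar (c.1, (mg c.1)^[k] c.2) := by
  induction k with
  | zero => exact hv
  | succ k ih => rw [iterate_succ_apply']; exact mg_valid ih

theorem nrm_sat (c : Code) : Sat T ar (nrm c) ↔ Sat T ar c.2 := by
  unfold nrm
  generalize c.1 + 1 = k
  induction k with
  | zero => rfl
  | succ k ih => rw [iterate_succ_apply', mg_sat, ih]

theorem nrm_fn {c : Code} (hv : Valid ar c) : Fn (nrm c) := by
  have : ∀ k, cf c.1 ((mg c.1)^[k] c.2) = none ∨ (mu c.1 ((mg c.1)^[k] c.2)).card + k ≤ c.1 := by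
    intro k
    induction k with
    | zero => exact .inr (by simpa [mu] using Finset.card_filter_le (Finset.range c.1) _)
    | succ k ih =>
      rw [iterate_succ_apply']
      cases e : cf c.1 ((mg c.1)^[k] c.2) with
      | none => exact .inl (by rw [mg_none e, e])
      | some p =>
        have := mu_lt e
        simp only [e, reduceCtorEq, false_or] at ih
        exact .inr (by omega)
  exact cf_none (nrm_valid hv _) ((this (c.1 + 1)).resolve_right (by omega))

theorem pt_nrm : PT nrm := by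
  refine PT.iterate (step := fun (c : Code) F => mg c.1 F) ?_ (by fun_prop) (by fun_prop)
    (B := fun c => sz c.2) (PT.snd PT.id').pb fun c i h => ?_
  · have : PT fun p : Code × List Fc => (cf p.1.1 p.2).getD (0, 0) := by unfold cf; fun_prop
    have h2 : PT fun p : (ℕ × ℕ) × List Fc => p.2.map fun f => (f.1, f.2.map (sb p.1)) := by
      unfold sb; fun_prop
    exact h2.comp (this.mk (PT.snd PT.id'))
  · clear h
    induction i with
    | zero => rfl
    | succ i ih => rw [iterate_succ_apply']; exact (mg_sz _ _).trans ih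

section reach
variable {α : Type} (U : List α) (b : α → Bool) (st : α → α → Bool)

def bs (B : List α) : List α := U.filter fun x => b x || B.any (st x)

theorem bs_mono {B B' : List α} (h : B ⊆ B') : bs U b st B ⊆ bs U b st B' := fun x hx => by
  simp only [bs, mem_filter, Bool.or_eq_true, any_eq_true] at hx ⊢
  exact ⟨hx.1, hx.2.imp_right fun ⟨y, h1, h2⟩ => ⟨y, h h1, h2⟩⟩

theorem it_mono {j k : ℕ} (h : j ≤ k) : (bs U b st)^[j] [] ⊆ (bs U b st)^[k] [] := by
  have : ∀ k, (bs U b st)^[k] [] ⊆ (bs U b st)^[k + 1] [] := fun k => by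
    induction k with
    | zero => simp
    | succ k ih =>
      rw [iterate_succ_apply', iterate_succ_apply']
      exact bs_mono U b st ih
  induction h with
  | refl => exact Subset.refl _
  | step _ ih => exact List.Subset.trans ih (this _)

theorem it_sub (k : ℕ) : (bs U b st)^[k] [] <+ U := by
  cases k with
  | zero => simp
  | succ k => rw [iterate_succ_apply']; exact filter_sublist

theorem reach (hU : ∀ x ∈ U, ∀ y, st x y = true → y ∈ U) {x} (hx : x ∈ U) :
    x ∈ (bs U b st)^[U.length + 1] [] ↔ ∃ y, b y = true ∧ ReflTransGen (st · · = true) x y := by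
  classical
  constructor
  · generalize U.length + 1 = k
    clear hx
    induction k generalizing x with
    | zero => simp
    | succ k ih =>
      rw [iterate_succ_apply']
      simp only [bs, mem_filter, Bool.or_eq_true, any_eq_true]
      rintro ⟨-, h | ⟨y, h1, h2⟩⟩
      · exact ⟨x, h, .refl⟩
      · obtain ⟨z, h3, h4⟩ := ih h1
        exact ⟨z, h3, .head h2 h4⟩
  have : ∀ k, (∃ j < k, (bs U b st)^[j + 1] [] ⊆ (bs U b st)^[j] []) ∨
      k ≤ ((bs U b st)^[k] []).toFinset.card := by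
    intro k
    induction k with
    | zero => simp
    | succ k ih =>
      by_cases e : (bs U b st)^[k + 1] [] ⊆ (bs U b st)^[k] []
      · exact .inl ⟨k, by omega, e⟩
      refine ih.imp (fun ⟨j, h1, h2⟩ => ⟨j, by omega, h2⟩) fun h => h.trans_lt ?_
      refine Finset.card_lt_card ⟨fun y hy => ?_, fun hs => e fun y hy => ?_⟩
      · exact mem_toFinset.2 (it_mono U b st (by omega) (mem_toFinset.1 hy))
      · exact mem_toFinset.1 (hs (mem_toFinset.2 hy))
  obtain ⟨j, h1, h2⟩ := (this (U.length + 1)).resolve_right fun h => by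
    have := (h.trans (toFinset_card_le _)).trans (it_sub U b st _).length_le
    omega
  rintro ⟨y, h3, h4⟩
  refine it_mono U b st h1.le ?_
  rw [iterate_succ_apply'] at h2
  induction h4 using ReflTransGen.head_induction_on with
  | refl => exact h2 (mem_filter.2 ⟨hx, by simp [h3]⟩)
  | head h5 _ ih =>
    exact h2 (mem_filter.2 ⟨hx, by
      simp only [Bool.or_eq_true, any_eq_true]
      exact .inr ⟨_, ih (hU _ hx _ h5), h5⟩⟩)
end reach

def atB (F : List Fc) (k a b : ℕ) : Bool :=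
  (k == 0 && a == b) || (k == 1 && decide ((0, [a, b]) ∈ F)) || (k == 2 && decide ((0, [b, a]) ∈ F)) ||
    (k == 3 && decide ((1, [a]) ∈ F)) || (k == 4 && decide ((2, [a]) ∈ F))

theorem atB_iff {F k a b} : atB F k a b = true ↔ At (RN F) k a b := by
  simp [atB, At, RN, or_assoc]

def stB (T : List In) (F : List Fc) (φ ψ : Fc) : Bool := T.any fun I =>
  φ.1 == I.1 && ψ.1 == I.2.2.1 && (I.2.1.all fun c => φ.2[c.2.1]?.toList.any fun a =>
    φ.2[c.2.2]?.toList.any fun b => atB F c.1 a b) && I.2.2.2.length == ψ.2.length &&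
    (I.2.2.2.zip ψ.2).all fun m => φ.2[m.1.2]?.toList.any fun a => atB F m.1.1 a m.2

theorem stB_iff {F φ ψ} : stB T F φ ψ = true ↔ Step T (RN F) φ ψ := by
  simp only [stB, Step, any_eq_true, Bool.and_eq_true, beq_iff_eq, all_eq_true, atB_iff,
    Option.mem_toList, forall₂_iff_zip, and_assoc, Prod.forall, exists_and_left]

theorem pt_stB : PT fun p : List Fc × Fc × Fc => stB T p.1 p.2.1 p.2.2 := by
  unfold stB atB; fun_prop

def UU (ar : List ℕ) (N : ℕ) : List Fc :=
  (ar.length, []) :: (range ar.length).flatMap fun i => (allL (range N) (ar.getD i 0)).map fun l => (i, l)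

theorem mem_UU {N} {φ : Fc} : φ ∈ UU ar N ↔
    φ = (ar.length, []) ∨ (ar[φ.1]? = some φ.2.length ∧ ∀ x ∈ φ.2, x < N) := by
  simp only [UU, mem_cons, mem_flatMap, mem_range, mem_map, mem_allL]
  refine or_congr_right ⟨?_, fun ⟨h1, h2⟩ => ⟨φ.1, (List.getElem?_eq_some_iff.1 h1).1, φ.2,
    ⟨by simp [h1], h2⟩, rfl⟩⟩
  rintro ⟨i, h1, l, ⟨h2, h3⟩, rfl⟩
  exact ⟨by simp [h2, h1], h3⟩

theorem pt_UU : PT (UU ar) := by
  refine PT.cons (PT.const _) ?_
  generalize range ar.length = L
  induction L with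
  | nil => exact PT.const _
  | cons i L ih =>
    simp only [flatMap_cons]
    have := pt_allL (L := fun N : ℕ => range N) (by fun_prop) (ar.getD i 0)
    exact PT.append (PT.map (by fun_prop) this) ih

def Bad (T : List In) (ar : List ℕ) {β : Type} (R : Rl β) (φ : ℕ × List β) : Prop :=
  ∃ ψ : ℕ × List β, ψ.1 = ar.length ∧ ReflTransGen (Step T R) φ ψ

def bad (T : List In) (ar : List ℕ) (c : Code) : List Fc :=
  (bs (UU ar c.1) (fun φ => φ.1 == ar.length) (stB T c.2))^[(UU ar c.1).length + 1] []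

theorem pt_bad : PT (bad T ar) := by
  have hU : PT fun c : Code => UU ar c.1 := pt_UU.comp (by fun_prop)
  refine PT.iterate (step := fun (c : Code) B =>
    bs (UU ar c.1) (fun φ => φ.1 == ar.length) (stB T c.2) B) ?_ (by fun_prop) (by fun_prop)
    hU.pb fun c i _ => sz_le_of_sublist (it_sub _ _ _ _)
  unfold bs
  refine PT.filter (PT.or (by fun_prop) (PT.any ?_ (by fun_prop))) (hU.comp (PT.fst PT.id'))
  exact pt_stB.comp (g := fun p : ((Code × List Fc) × Fc) × Fc => (p.1.1.1.2, p.1.2, p.2))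
    (by fun_prop)

theorem mem_bad (W : WF T ar) {c : Code} (hv : Valid ar c) {φ : Fc}
    (h : ar[φ.1]? = some φ.2.length ∧ ∀ x ∈ φ.2, x < c.1) :
    φ ∈ bad T ar c ↔ Bad T ar (RN c.2) φ := by
  rw [bad, reach _ _ _ _ (mem_UU.2 (.inr h))]
  · simp only [stB_iff, Bad, beq_iff_eq]
  intro φ hφ ψ h
  obtain ⟨I, hI, -, h2, -, h3⟩ := stB_iff.1 h
  have h4 := h3.length_eq
  rw [mem_UU]
  rcases W.len I hI with ⟨e1, e2⟩ | e
  · exact .inl (Prod.ext (h2.trans e1) (by simpa [e2, eq_comm] using h4))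
  refine .inr ⟨by rw [h2, e, h4], fun x hx => ?_⟩
  obtain ⟨m, hm, a, h5, h6⟩ := forall₂_mem h3 x hx
  have := W.mv I hI m hm
  rcases h6 with ⟨e, rfl⟩ | ⟨e, H⟩ | ⟨e, H⟩ | ⟨e, H⟩ | ⟨e, H⟩
  · rcases mem_UU.1 hφ with rfl | h
    · simp at h5
    · exact h.2 _ (mem_of_getElem? h5)
  exacts [(hv _ H).2 x (by simp), (hv _ H).2 x (by simp), by omega, by omega]

end Pool.Agent.H62.Lad
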