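import Pool.Agent.H62.Lad5

/-!
Reduction of the CSP to a colouring problem.
-/

namespace Pool.Agent.H62.Lad

open Pool.Agent.H38.NP Pool.Agent.H62.Hsc Function List Relation

variable {T : List In} {ar : List ℕ}

theorem Bad.not {β γ : Type} {R : Rl γ} {M : Str ar β} (g : Good T M.rel) {h : γ → β}
    (hh : ∀ i l, R i l → M.rel i (l.map h)) {φ} (H : Bad T ar R φ) : ¬ M.rel φ.1 (φ.2.map h) := by
  obtain ⟨ψ, h1, h2⟩ := H
  induction h2 using ReflTransGen.head_induction_on with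
  | refl => exact fun e => by simpa [h1] using M.wf _ _ e
  | head h3 _ ih => exact fun e => ih (g.step (_, _) (_, _) e (h3.map fun i _ => hh i))

theorem Bad.head {β : Type} {R : Rl β} {φ ψ} (h : Step T R φ ψ) (H : Bad T ar R ψ) :
    Bad T ar R φ := let ⟨χ, h1, h2⟩ := H; ⟨χ, h1, .head h h2⟩

theorem sat_of_col (W : WF T ar) {N F} (hv : Valid ar (N, F)) (hf : Fn F)
    (hb : ∀ f ∈ F, ¬ Bad T ar (RN F) f) (χ : ℕ → ℕ) (h4 : ∀ x, χ x < 4)
    (hp : ∀ a < 4, ∀ x, (5 + a, [x]) ∈ F → χ x = a)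
    (he : ∀ x y, (3, [x, y]) ∈ F → Bad T ar (RN F) (4, [x, y]) → χ x ≠ χ y) : Sat T ar F := by
  let M : Str ar ℕ := ⟨fun i l => ar[i]? = some l.length ∧ (i < 4 → (i, l) ∈ F) ∧
    (i = 4 ∨ 9 ≤ i → ¬ Bad T ar (RN F) (i, l)) ∧
    (5 ≤ i → i < 9 → ∃ x, l = [x] ∧ i = 5 + χ x), fun _ _ h => h.1⟩
  have hc : ∀ a < 4, ∀ x, M.rel (5 + a) [x] → χ x = a := fun a ha x h => by
    obtain ⟨y, e1, e2⟩ := h.2.2.2 (by omega) (by omega)
    obtain rfl : x = y := by simpa using e1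
    omega
  refine ⟨ℕ, M, ⟨fun x y z a b => hf.1 x y z (a.2.1 (by omega)) (b.2.1 (by omega)),
    fun x y z a b => hf.2 x y z (a.2.1 (by omega)) (b.2.1 (by omega)),
    fun x => ⟨χ x, h4 x, W.a5 _ (h4 x), by omega, by have := h4 x; omega, fun _ _ => ⟨x, rfl, rfl⟩⟩,
    fun x a ha b hb h1 h2 => (hc a ha x h1).symm.trans (hc b hb x h2),
    fun x y a ha h1 h2 h3 => ⟨W.a4, by omega, fun _ H => he x y (h1.2.1 (by omega)) H
      ((hc a ha x h2).trans (hc a ha y h3).symm), by omega⟩, fun φ ψ h1 h2 => ?_⟩, id,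
    fun f h => ⟨by simpa using (hv f h).1, fun _ => by simpa using h,
      fun _ => by simpa using hb f h, fun a b => ?_⟩⟩
  · have h3 : Step T (RN F) φ ψ := by
      simpa using h2.map (R := RN F) (f := id) fun i hi l h => by simpa [RN] using h.2.1 (by omega)
    obtain ⟨I, hI, e1, e2, -, e3⟩ := h2
    have a1 := W.src I hI
    have a2 := W.tgt I hI
    have h5 : ¬ Bad T ar (RN F) φ := by
      by_cases e : φ.1 < 4
      · exact hb _ (h1.2.1 e)
      · exact h1.2.2.1 (by omega)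
    have h6 : ¬ Bad T ar (RN F) ψ := fun H => h5 (H.head h3)
    refine ⟨?_, by omega, fun _ => h6, by omega⟩
    rcases W.len I hI with ⟨e, -⟩ | e
    · exact (h6 ⟨ψ, e2.trans e, .refl⟩).elim
    · rw [e2, e, e3.length_eq]
  · obtain ⟨i, l⟩ := f
    obtain ⟨c, rfl⟩ := Nat.exists_eq_add_of_le a
    have h1 := (hv _ h).1
    rw [W.a5 c (by simp only at b; omega)] at h1
    obtain ⟨x, rfl⟩ := length_eq_one_iff.1 (Option.some.inj h1).symm
    exact ⟨x, rfl, by rw [hp c (by simp only at b; omega) x h]⟩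

def validB (ar : List ℕ) (c : Code) : Bool :=
  c.2.all fun f => ar[f.1]? == some f.2.length && f.2.all fun x => decide (x < c.1)

theorem validB_iff {c} : validB ar c = true ↔ Valid ar c := by simp [validB, Valid]

def cons (F B : List Fc) : List ((ℕ × ℕ) × (ℕ × ℕ)) :=
  F.flatMap fun f => (range 4).flatMap fun a =>
    (if 5 ≤ f.1 ∧ f.1 < 9 ∧ f.1 ≠ 5 + a then [((f.2.getD 0 0, a), (f.2.getD 0 0, a))] else []) ++
    if f.1 = 3 ∧ (4, f.2) ∈ B then [((f.2.getD 0 0, a), (f.2.getD 1 0, a))] else []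

def ph (T : List In) (ar : List ℕ) (c : Code) : Z :=
  (c.1 + 1, cond (validB ar c && (nrm c).all fun f => !decide (f ∈ bad T ar (c.1, nrm c)))
    (cons (nrm c) (bad T ar (c.1, nrm c))) zbot)

theorem pt_ph : PT (ph T ar) := by
  have h1 := pt_nrm
  have h2 : PT fun c : Code => bad T ar (c.1, nrm c) := pt_bad.comp (by fun_prop)
  have h3 : PT fun p : List Fc × List Fc => cons p.1 p.2 := by unfold cons; fun_prop
  have h4 : PT (validB ar) := by unfold validB; fun_prop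
  have h5 : PT fun p : List Fc × List Fc => p.1.all fun f => !decide (f ∈ p.2) := by fun_prop
  exact PT.mk (by fun_prop) (PT.cond (h4.and (h5.comp (h1.mk h2))) (h3.comp (h1.mk h2)) (PT.const _))

theorem mem_cons' (W : WF T ar) {c : Code} (hv : Valid ar c) {u} :
    u ∈ cons c.2 (bad T ar c) ↔ (∃ a < 4, ∃ b < 4, ∃ x, (5 + b, [x]) ∈ c.2 ∧ b ≠ a ∧
      u = ((x, a), (x, a))) ∨ ∃ a < 4, ∃ x y, (3, [x, y]) ∈ c.2 ∧ Bad T ar (RN c.2) (4, [x, y]) ∧
      u = ((x, a), (y, a)) := by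
  simp only [cons, mem_flatMap, mem_range, mem_append, mem_ite_nil_right, mem_singleton]
  constructor
  · rintro ⟨⟨i, l⟩, h, a, ha, ⟨⟨h1, h2, h3⟩, rfl⟩ | ⟨⟨rfl, h2⟩, rfl⟩⟩
    · obtain ⟨b, rfl⟩ := Nat.exists_eq_add_of_le h1
      have h4 := (hv _ h).1
      rw [W.a5 b (by simp only at h2; omega)] at h4
      obtain ⟨x, rfl⟩ := length_eq_one_iff.1 (Option.some.inj h4).symm
      exact .inl ⟨a, ha, b, by simp only at h2; omega, x, h, by simpa using h3, rfl⟩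
    · have h4 := (hv _ h).1
      rw [W.a3] at h4
      obtain ⟨x, y, rfl⟩ := length_eq_two.1 (Option.some.inj h4).symm
      exact .inr ⟨a, ha, x, y, h, (mem_bad W hv (φ := (4, [x, y])) ⟨W.a4, (hv _ h).2⟩).1 h2, rfl⟩
  · rintro (⟨a, ha, b, hb, x, h, h1, rfl⟩ | ⟨a, ha, x, y, h, h1, rfl⟩)
    · exact ⟨_, h, a, ha, .inl ⟨⟨by simp, by simp only; omega, by simpa using h1⟩, rfl⟩⟩
    · exact ⟨_, h, a, ha, .inr ⟨⟨rfl, (mem_bad W hv (φ := (4, [x, y])) ⟨W.a4, (hv _ h).2⟩).2 h1⟩, rfl⟩⟩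

theorem ph_cond (W : WF T ar) {c : Code} :
    (validB ar c && (nrm c).all fun f => !decide (f ∈ bad T ar (c.1, nrm c))) = true ↔
      Valid ar c ∧ ∀ f ∈ nrm c, ¬ Bad T ar (RN (nrm c)) f := by
  simp only [Bool.and_eq_true, validB_iff, all_eq_true, Bool.not_eq_true', decide_eq_false_iff_not]
  refine and_congr_right fun hv => forall₂_congr fun f hf => not_congr ?_
  exact mem_bad W (c := (c.1, nrm c)) (nrm_valid hv _) (nrm_valid hv _ f hf)

theorem col_of_sat (W : WF T ar) {c : Code} (hv : Valid ar c) (h : Sat T ar c.2) :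
    COL (ph T ar c) := by
  obtain ⟨β, M, g, h, hh⟩ := (nrm_sat c).2 h
  have hh' : ∀ i l, RN (nrm c) i l → M.rel i (l.map h) := fun i l e => hh _ e
  have := (ph_cond W).2 ⟨hv, fun f hf H => H.not g hh' (hh f hf)⟩
  choose χ h1 h2 using g.col
  refine ⟨fun x => χ (h x), fun x => h1 _, fun u hu _ _ => ?_⟩
  simp only [ph, this, cond_true] at hu
  rcases (mem_cons' W (c := (c.1, nrm c)) (nrm_valid hv _)).1 hu with
    ⟨a, ha, b, hb, x, e, e1, rfl⟩ | ⟨a, ha, x, y, e, e1, rfl⟩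
  · exact fun H => e1 ((g.uq _ _ hb _ (h1 _) (hh _ e) (h2 _)).trans H.1)
  · rintro ⟨H', H⟩
    simp only at H H'
    exact e1.not g hh' (g.edge _ _ _ ha (hh _ e) (H' ▸ h2 (h x)) (H ▸ h2 (h y)))

theorem glue {z : Z} {n : ℕ} (h : LOC n z) (root idx : ℕ → ℕ) (tup : ℕ → List ℕ)
    (h1 : ∀ x < z.1, tup (root x) ∈ allL (range z.1) n ∧ idx x < n ∧
      (tup (root x)).getD (idx x) 0 = x) (h2 : ∀ f ∈ z.2, root f.1.1 = root f.2.1) : COL z := by
  classical
  choose! C c1 c2 using h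
  refine ⟨fun x => if x < z.1 then (C (tup (root x))).getD (idx x) 0 else 0, fun x => ?_,
    fun f hf a b => ?_⟩
  · beta_reduce
    split_ifs with e
    · obtain ⟨b1, b2, -⟩ := h1 x e
      obtain ⟨b3, b4⟩ := mem_allL.1 (c1 _ b1)
      rw [getD_eq_getElem _ _ (by omega)]
      simpa using b4 _ (getElem_mem _)
    · omega
  · obtain ⟨b1, b2, b3⟩ := h1 _ a
    obtain ⟨-, b4, b5⟩ := h1 _ b
    have := (mem_allL.1 b1).1
    simp only [if_pos a, if_pos b]
    rw [← h2 f hf] at b5 ⊢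
    exact ok_iff.1 (c2 _ b1) f hf _ (by omega) _ (by omega) b3 b5

def Pth {β : Type} (R : Rl β) (p : ℕ → β) (t : ℕ) : Prop :=
  R 1 [p 0] ∧ ∀ i < t, R 0 [p i, p (i + 1)]

theorem Pth.inj {β : Type} {R : Rl β} {p q : ℕ → β} {t u : ℕ}
    (hi : ∀ x y z, R 0 [y, x] → R 0 [z, x] → y = z) (hn : ∀ x y, R 1 [x] → ¬ R 0 [y, x])
    (hp : Pth R p t) (hq : Pth R q u) {a b : ℕ} (ha : a ≤ t) (hb : b ≤ u) (e : p a = q b) :
    a = b ∧ p 0 = q 0 := by
  induction a generalizing b with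
  | zero =>
    cases b with
    | zero => exact ⟨rfl, e⟩
    | succ b => exact (hn _ _ hp.1 (e ▸ hq.2 b hb)).elim
  | succ a ih =>
    cases b with
    | zero => exact (hn _ _ hq.1 (e ▸ hp.2 a ha)).elim
    | succ b =>
      have := ih (by omega) (by omega) (hi _ _ _ (hp.2 a ha) (e ▸ hq.2 b hb))
      exact ⟨by omega, this.2⟩

theorem sat_of_loc (W : WF T ar) (np : (0, [(3, 1, 1)], ar.length, []) ∈ T) (X : ℕ → Prop)
    (sm : ∀ F, Fn F → (∀ f ∈ F, ¬ Bad T ar (RN F) f) → ∀ x y, Bad T ar (RN F) (4, [x, y]) →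
      ∃ p t a b, X t ∧ Pth (RN F) p t ∧ a ≤ t ∧ b ≤ t ∧ p a = x ∧ p b = y)
    {c : Code} {n : ℕ} (hn : 0 < n) (hX : ∀ t, n ≤ t → t < c.1 + 1 → ¬ X t)
    (h : LOC n (ph T ar c)) : Valid ar c ∧ Sat T ar c.2 := by
  classical
  obtain ⟨hv, hb⟩ := (ph_cond W (c := c)).1 (by
    by_contra e
    refine not_loc hn (by simp [ph]) (fun f hf => ?_) h
    simp only [ph, Bool.not_eq_true] at e ⊢
    rw [e]
    exact hf)
  have hz : ph T ar c = (c.1 + 1, cons (nrm c) (bad T ar (c.1, nrm c))) := by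
    simp only [ph, (ph_cond W).2 ⟨hv, hb⟩, cond_true]
  have hf := nrm_fn hv
  have hv' : Valid ar (c.1, nrm c) := nrm_valid hv _
  refine ⟨hv, (nrm_sat c).1 ?_⟩
  generalize nrm c = F at *
  have hm := fun u => mem_cons' W hv' (u := u)
  have hnp : ∀ x y, RN F 1 [x] → ¬ RN F 0 [y, x] := fun x y a b => hb _ b
    ⟨(ar.length, []), rfl, .single ⟨_, np, rfl, rfl, by simpa [At] using a, .nil⟩⟩
  let s : ℕ → ℕ := fun x => if h : ∃ y, (0, [x, y]) ∈ F then h.choose else x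
  have hs : ∀ x y, (0, [x, y]) ∈ F → s x = y := fun x y e => by
    simp only [s, dif_pos (⟨y, e⟩ : ∃ y, (0, [x, y]) ∈ F)]
    exact hf.1 _ _ _ (Exists.choose_spec (⟨y, e⟩ : ∃ y, (0, [x, y]) ∈ F)) e
  have hs2 : ∀ a x, x < c.1 + 1 → s^[a] x < c.1 + 1 := fun a x hx => by
    induction a with
    | zero => exact hx
    | succ a ih =>
      rw [iterate_succ_apply']
      by_cases e : ∃ y, (0, [s^[a] x, y]) ∈ F
      · obtain ⟨y, e⟩ := e
        rw [hs _ _ e]
        exact ((hv' _ e).2 y (by simp)).trans (by simp)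
      · simpa only [s, dif_neg e] using ih
  have hs3 : ∀ p t, Pth (RN F) p t → ∀ a ≤ t, s^[a] (p 0) = p a := fun p t hp a ha => by
    induction a with
    | zero => rfl
    | succ a ih => rw [iterate_succ_apply', ih (by omega), hs _ _ (hp.2 a ha)]
  have hr : ∀ x, ∃ r a, a < n ∧ s^[a] r = x ∧ (x < c.1 + 1 → r < c.1 + 1) ∧
      ∀ p b, b < n → Pth (RN F) p b → p b = x → r = p 0 := fun x => by
    by_cases e : ∃ p b, b < n ∧ Pth (RN F) p b ∧ p b = x
    · obtain ⟨p, b, e1, e2, e3⟩ := e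
      exact ⟨p 0, b, e1, (hs3 p b e2 b le_rfl).trans e3,
        fun _ => ((hv' _ e2.1).2 _ (by simp)).trans (by simp),
        fun q b' _ e4 e5 => (Pth.inj hf.2 hnp e2 e4 le_rfl le_rfl (e3.trans e5.symm)).2⟩
    · exact ⟨x, 0, hn, rfl, id, fun p b e1 e2 e3 => (e ⟨p, b, e1, e2, e3⟩).elim⟩
  choose root idx r1 r2 r3 r4 using hr
  obtain ⟨χ, c1, c2⟩ := glue h root idx (fun r => (range n).map fun a => s^[a] r)
    (fun x hx => ⟨mem_allL.2 ⟨by simp, by
      simp only [hz, mem_map, mem_range] at hx ⊢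
      rintro _ ⟨a, -, rfl⟩
      exact hs2 _ _ (r3 x hx)⟩, r1 x, by simp [r1 x, r2 x]⟩) (fun u hu => by
    rw [hz] at hu
    rcases (hm u).1 hu with ⟨a, ha, b, hb, x, e, e1, rfl⟩ | ⟨a, ha, x, y, e, e1, rfl⟩
    · rfl
    obtain ⟨p, t, a, b, d1, d2, d3, d4, rfl, rfl⟩ := sm F hf hb x y e1
    have ht : t < c.1 + 1 := by
      have := Finset.card_le_card_of_injOn (s := Finset.range (t + 1))
        (t := Finset.range (c.1 + 1)) p (fun i hi => ?_) fun i hi j hj e => ?_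
      · simpa using this
      · simp only [Finset.coe_range, Set.mem_Iio] at hi ⊢
        rw [← hs3 p t d2 i (by omega)]
        exact hs2 _ _ (((hv' _ d2.1).2 _ (by simp)).trans (by simp))
      · simp only [Finset.coe_range, Set.mem_Iio] at hi hj
        exact (Pth.inj hf.2 hnp d2 d2 (by omega) (by omega) e).1
    have hn : t < n := by
      by_contra e
      exact hX t (by omega) ht d1
    exact (r4 _ p a (by omega) ⟨d2.1, fun i hi => d2.2 i (by omega)⟩ rfl).trans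
      (r4 _ p b (by omega) ⟨d2.1, fun i hi => d2.2 i (by omega)⟩ rfl).symm)
  rw [hz] at c2
  refine sat_of_col W hv' hf hb χ c1 (fun a ha x e => ?_) fun x y e e1 e2 => ?_
  · by_contra e1
    have := (hv' _ e).2 x (by simp)
    exact c2 _ ((hm _).2 (.inl ⟨χ x, c1 x, a, ha, x, e, Ne.symm e1, rfl⟩)) (by simp only at this ⊢; omega)
      (by simp only at this ⊢; omega) ⟨rfl, rfl⟩
  · have a1 := (hv' _ e).2 x (by simp)
    have a2 := (hv' _ e).2 y (by simp)
    exact c2 _ ((hm _).2 (.inr ⟨χ x, c1 x, x, y, e, e1, rfl⟩)) (by simp only at a1 ⊢; omega)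
      (by simp only at a2 ⊢; omega) ⟨rfl, e2.symm⟩

end Pool.Agent.H62.Lad
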