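import Pool.Agent.H62.Lad6
import Pool.Agent.H62.Lad3

/-!
Linear rules that run the clock along a successor path.
-/

namespace Pool.Agent.H62.Lad

open Function List Relation
open Pool.Agent.H73.EP (Ins Vl)

section
variable {Q : Type} (ins : Q → Ins Q) (s : Option Q) (r : ℕ) {K : ℕ} (e : Option Q × Bool ≃ Fin K)

def ix (σ : Option Q × Bool) : ℕ := 9 + e σ

theorem ix_inj {σ τ} : ix e σ = ix e τ ↔ σ = τ := by simp [ix, Fin.val_inj]
theorem ix_ge (σ) : 9 ≤ ix e σ := by simp [ix]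
theorem ix_lt (σ) : ix e σ < 9 + K := by simp [ix]

def mvs (f : ℕ → ℕ × ℕ) : List (ℕ × ℕ) := (1, 0) :: (0, 1) :: (range r).map f

inductive Rule : In → Prop
  | np : Rule (0, [(3, 1, 1)], 9 + K, [])
  | ns : Rule (0, [(4, 0, 0)], 9 + K, [])
  | d1 : Rule (4, [], 4, [(2, 0), (0, 1)])
  | d2 : Rule (4, [], 4, [(0, 0), (2, 1)])
  | st : Rule (4, [(0, 0, 1), (3, 0, 0)], ix e (none, false), replicate (r + 2) (0, 0))
  | fin (o) : Rule (ix e (o, true), [(4, 0, 0)], 9 + K, [])
  | rs (b) : Rule (ix e (none, b), [], ix e (s, !b), mvs r fun j => if j = 0 then (1, 0) else (0, 1))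
  | inc (q b) (h : (ins q).2.1 = true) : Rule (ix e (some q, b), [], ix e ((ins q).2.2.1, b),
      mvs r fun j => (if j = (ins q).1 then 1 else 0, j + 2))
  | zero (q b) (h : (ins q).2.1 = false) : Rule (ix e (some q, b),
      [(3, (ins q).1 + 2, (ins q).1 + 2)], ix e ((ins q).2.2.2, b), mvs r fun j => (0, j + 2))
  | dec (q b) (h : (ins q).2.1 = false) : Rule (ix e (some q, b), [], ix e ((ins q).2.2.1, b),
      mvs r fun j => (if j = (ins q).1 then 2 else 0, j + 2))

theorem rule_fin [Finite Q] : ∃ T : List In, ∀ I, I ∈ T ↔ Rule ins s r e I := by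
  have : {I | Rule ins s r e I}.Finite := by
    refine Set.Finite.subset (s := {(0, [(3, 1, 1)], 9 + K, []), (0, [(4, 0, 0)], 9 + K, []),
      (4, [], 4, [(2, 0), (0, 1)]), (4, [], 4, [(0, 0), (2, 1)]),
      (4, [(0, 0, 1), (3, 0, 0)], ix e (none, false), replicate (r + 2) (0, 0))} ∪
      Set.range (fun o => (ix e (o, true), [(4, 0, 0)], 9 + K, [])) ∪
      Set.range (fun b => (ix e (none, b), [], ix e (s, !b),
        mvs r fun j => if j = 0 then (1, 0) else (0, 1))) ∪
      Set.range (fun p : Q × Bool => (ix e (some p.1, p.2), [], ix e ((ins p.1).2.2.1, p.2),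
        mvs r fun j => (if j = (ins p.1).1 then 1 else 0, j + 2))) ∪
      Set.range (fun p : Q × Bool => (ix e (some p.1, p.2), [(3, (ins p.1).1 + 2, (ins p.1).1 + 2)],
        ix e ((ins p.1).2.2.2, p.2), mvs r fun j => (0, j + 2))) ∪
      Set.range (fun p : Q × Bool => (ix e (some p.1, p.2), [], ix e ((ins p.1).2.2.1, p.2),
        mvs r fun j => (if j = (ins p.1).1 then 2 else 0, j + 2)))) (Set.toFinite _) fun I h => ?_
    cases h with
    | fin o => exact .inl (.inl (.inl (.inl (.inr ⟨o, rfl⟩))))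
    | rs b => exact .inl (.inl (.inl (.inr ⟨b, rfl⟩)))
    | inc q b => exact .inl (.inl (.inr ⟨(q, b), rfl⟩))
    | zero q b => exact .inl (.inr ⟨(q, b), rfl⟩)
    | dec q b => exact .inr ⟨(q, b), rfl⟩
    | _ => exact .inl (.inl (.inl (.inl (.inl (by simp)))))
  exact ⟨this.toFinset.toList, by simp⟩

def arr (r K : ℕ) : List ℕ := [2, 1, 1, 2, 2, 1, 1, 1, 1] ++ replicate K (r + 2)

@[simp] theorem arr_len : (arr r K).length = 9 + K := by simp [arr]; omega

theorem arr_ix (σ) : (arr r K)[ix e σ]? = some (r + 2) := by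
  rw [arr, getElem?_append_right (by simp [ix])]
  simp [ix]

variable {ins s r e} {T : List In} (hT : ∀ I, I ∈ T ↔ Rule ins s r e I)
include hT

theorem wf : WF T (arr r K) := by
  refine ⟨rfl, rfl, rfl, rfl, rfl, fun a ha => by interval_cases a <;> rfl, fun a ha => ?_,
    fun I h => ?_, fun I h => ?_, fun I h => ?_, fun I h m hm => ?_⟩
  · simp only [arr, mem_append, mem_replicate, mem_cons, not_mem_nil] at ha
    grind
  · cases (hT I).1 h <;> simp [ix]
  · cases (hT I).1 h <;> simp [ix]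
  · cases (hT I).1 h <;> first | exact .inr rfl | simp [arr_ix, mvs]
  · cases (hT I).1 h <;> simp only [mvs, mem_cons, mem_map, mem_replicate, not_mem_nil] at hm <;>
      grind

variable {β : Type} {R : Rl β}

def cfg (ins : Q → Ins Q) (s : Option Q) (r : ℕ) (e : Option Q × Bool ≃ Fin K) (p : ℕ → β)
    (t : ℕ) : ℕ × List β :=
  (ix e ((conf ins s t).1.1, (conf ins s t).2),
    p t :: p 0 :: (range r).map fun j => p ((conf ins s t).1.2 j))

omit hT in
theorem f2_mvs {p : ℕ → β} {t} (hp : Pth R p (t + 1)) {f : ℕ → ℕ × ℕ} {v v' : Vl}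
    (h : ∀ j < r, ∃ a, (p t :: p 0 :: (range r).map fun j => p (v j))[(f j).2]? = some a ∧
      At R (f j).1 a (p (v' j))) :
    Forall₂ (fun m b => ∃ a, (p t :: p 0 :: (range r).map fun j => p (v j))[m.2]? = some a ∧
      At R m.1 a b) (mvs r f) (p (t + 1) :: p 0 :: (range r).map fun j => p (v' j)) :=
  .cons ⟨_, rfl, .inr (.inl ⟨rfl, hp.2 t (by omega)⟩)⟩ (.cons ⟨_, rfl, .inl ⟨rfl, rfl⟩⟩
    (forall₂_map_left_iff.2 (forall₂_map_right_iff.2 (forall₂_same.2 fun j hj =>
      h j (mem_range.1 hj)))))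

theorem fwd (hr : ∀ q, (ins q).1 < r) {p : ℕ → β} {t} (hp : Pth R p (t + 1)) :
    Step T R (cfg ins s r e p t) (cfg ins s r e p (t + 1)) := by
  have hl := conf_le ins s t
  simp only [cfg, conf, cstep]
  generalize conf ins s t = c at *
  obtain ⟨⟨o, v⟩, b⟩ := c
  simp only at hl
  cases o with
  | none =>
    refine ⟨_, (hT _).2 (.rs b), rfl, rfl, by simp, f2_mvs hp fun j hj => ?_⟩
    by_cases h : j = 0
    · exact ⟨p t, by simp [h], by simpa [At, vi, h] using hp.2 t (by omega)⟩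
    · exact ⟨p 0, by simp [h], by simp [At, vi, h]⟩
  | some q =>
    cases h : (ins q).2.1
    · by_cases h0 : v (ins q).1 = 0
      · refine ⟨_, (hT _).2 (.zero q b h), rfl, by simp [H73.EP.nxt, h, h0], ?_, ?_⟩
        · simpa [hr q, At, h0] using hp.1
        · simp only [H73.EP.nxt, h, h0, Bool.false_eq_true, if_false, if_true]
          exact f2_mvs hp fun j hj => ⟨p (v j), by simp [hj], by simp [At]⟩
      · refine ⟨_, (hT _).2 (.dec q b h), rfl, by simp [H73.EP.nxt, h, h0], by simp, ?_⟩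
        simp only [H73.EP.nxt, h, h0, Bool.false_eq_true, if_false]
        refine f2_mvs hp fun j hj => ⟨p (v j), by simp [hj], ?_⟩
        by_cases h1 : j = (ins q).1
        · have := hp.2 (v j - 1) (by have := hl j; omega)
          rw [Nat.sub_add_cancel (by rw [h1]; omega)] at this
          simpa [At, h1] using this
        · simp [At, h1]
    · refine ⟨_, (hT _).2 (.inc q b h), rfl, by simp [H73.EP.nxt, h], by simp, ?_⟩
      simp only [H73.EP.nxt, h, if_true]
      refine f2_mvs hp fun j hj => ⟨p (v j), by simp [hj], ?_⟩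
      by_cases h1 : j = (ins q).1
      · have := hp.2 (v j) (by have := hl j; omega)
        simpa [At, h1] using this
      · simp [At, h1]

theorem bad_D (hr : ∀ q, (ins q).1 < r) {p : ℕ → β} {t} (hp : Pth R p t) (hl : R 2 [p t])
    (hx : (conf ins s t).2 = true) {a b} (ha : a ≤ t) (hb : b ≤ t) :
    Bad T (arr r K) R (4, [p a, p b]) := by
  have h1 : ∀ u ≤ t, ReflTransGen (Step T R) (cfg ins s r e p 0) (cfg ins s r e p u) := by
    intro u hu
    induction u with
    | zero => exact .refl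
    | succ u ih => exact (ih (by omega)).tail (fwd hT hr ⟨hp.1, fun i hi => hp.2 i (by omega)⟩)
  induction a with
  | succ a ih =>
    refine (ih (by omega)).head ⟨_, (hT _).2 .d1, rfl, rfl, by simp, ?_⟩
    simpa [At] using hp.2 a ha
  | zero =>
    induction b with
    | succ b ih =>
      refine (ih (by omega)).head ⟨_, (hT _).2 .d2, rfl, rfl, by simp, ?_⟩
      simpa [At] using hp.2 b hb
    | zero =>
      refine ⟨(9 + K, []), by simp, .head (b := cfg ins s r e p 0)
        ⟨_, (hT _).2 .st, rfl, rfl, by simpa [At] using hp.1, ?_⟩ ((h1 t le_rfl).tail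
        ⟨_, (hT _).2 (.fin (conf ins s t).1.1), by simp [cfg, hx], rfl,
          by simpa [At, cfg] using hl, .nil⟩)⟩
      have : (cfg ins s r e p 0).2 = replicate (r + 2) (p 0) := by simp [cfg, conf, replicate_succ]
      rw [this]
      exact forall₂_iff_zip.2 ⟨by simp, by simp [At]⟩

variable (hf : ∀ x y z, R 0 [x, y] → R 0 [x, z] → y = z)
  (hi : ∀ x y z, R 0 [y, x] → R 0 [z, x] → y = z) (hn : ∀ x y, R 1 [x] → ¬ R 0 [y, x])
include hf hi

omit hT in
theorem det {l l1 l2 : List β} {mv : List (ℕ × ℕ)} (hm : ∀ m ∈ mv, m.1 ≤ 2)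
    (h1 : Forall₂ (fun m b => ∃ a, l[m.2]? = some a ∧ At R m.1 a b) mv l1)
    (h2 : Forall₂ (fun m b => ∃ a, l[m.2]? = some a ∧ At R m.1 a b) mv l2) : l1 = l2 := by
  induction h1 generalizing l2 with
  | nil => cases h2; rfl
  | cons h _ ih =>
    cases h2 with
    | cons h' h3 =>
      rw [ih (fun m h => hm m (by simp [h])) h3]
      obtain ⟨a, e1, e2⟩ := h
      obtain ⟨a', e3, e4⟩ := h'
      obtain rfl : a = a' := Option.some.inj (e1.symm.trans e3)
      have := hm _ mem_cons_self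
      congr 1
      unfold At at e2 e4
      grind

include hn

theorem uniq (hr : ∀ q, (ins q).1 < r) {φ ψ ψ' : ℕ × List β} (h : Step T R φ ψ)
    (h' : Step T R φ ψ') (h9 : 9 ≤ φ.1) (a1 : ψ.1 ≠ 9 + K) (a2 : ψ'.1 ≠ 9 + K) : ψ = ψ' := by
  obtain ⟨I, hI, b1, b2, b3, b4⟩ := h
  obtain ⟨I', hI', c1, c2, c3, c4⟩ := h'
  suffices I = I' by
    subst this
    exact Prod.ext (b2.trans c2.symm) (det hf hi ((wf hT).mv I hI) b4 c4)
  have key : ∀ q (l : List β), (∀ c ∈ [(3, (ins q).1 + 2, (ins q).1 + 2)], ∃ a b,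
      φ.2[c.2.1]? = some a ∧ φ.2[c.2.2]? = some b ∧ At R c.1 a b) →
      ¬ Forall₂ (fun m b => ∃ a, φ.2[m.2]? = some a ∧ At R m.1 a b)
        (mvs r fun j => (if j = (ins q).1 then 2 else 0, j + 2)) l := by
    intro q l d1 d2
    obtain ⟨a, b, d3, -, d4⟩ := d1 _ mem_cons_self
    obtain ⟨b', -, a', d5, d6⟩ := forall₂_mem d2.flip (2, (ins q).1 + 2)
      (by simp only [mvs, mem_cons, mem_map, mem_range]; exact .inr (.inr ⟨_, hr q, by simp⟩))
    obtain rfl : a = a' := Option.some.inj (d3.symm.trans d5)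
    exact hn a b' (by simpa [At] using d4) (by simpa [At] using d6)
  rw [b1] at c1 h9
  cases (hT I).1 hI <;> (try simp at h9; done) <;> (try exact (a1 b2).elim) <;>
    cases (hT I').1 hI' <;> (try exact (a2 c2).elim) <;> (try simp only at c1 h9; omega) <;>
    simp only [ix_inj, Prod.mk.injEq, Option.some.injEq, reduceCtorEq, false_and, true_and] at c1
  all_goals first
    | (subst c1; rfl)
    | (obtain ⟨rfl, rfl⟩ := c1
       first | rfl | exact (key _ _ b3 c4).elim | exact (key _ _ c3 b4).elim | simp_all)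

theorem small (hr : ∀ q, (ins q).1 < r) (hs : ∀ x y, R 2 [x] → ¬ R 0 [x, y]) {x y : β}
    (H : Bad T (arr r K) R (4, [x, y])) :
    ∃ p t a b, (conf ins s t).2 = true ∧ Pth R p t ∧ a ≤ t ∧ b ≤ t ∧ p a = x ∧ p b = y := by
  let Rc := ReflTransGen fun u v => R 0 [u, v]
  let Inv : ℕ × List β → Prop := fun ψ => (∃ u v, ψ = (4, [u, v]) ∧ Rc u x ∧ Rc v y) ∨
    ∃ p t, Pth R p t ∧ Rc (p 0) x ∧ Rc (p 0) y ∧
      (ψ = cfg ins s r e p t ∨ (ψ = (9 + K, []) ∧ (conf ins s t).2 = true ∧ R 2 [p t]))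
  obtain ⟨ψ, h1, h2⟩ := H
  have : Inv ψ := by
    clear h1
    induction h2 with
    | refl => exact .inl ⟨x, y, rfl, .refl, .refl⟩
    | @tail φ ψ _ h3 ih =>
      rcases ih with ⟨u, v, rfl, c1, c2⟩ | ⟨p, t, c1, c2, c3, rfl | ⟨rfl, -⟩⟩
      · obtain ⟨i, l⟩ := ψ
        obtain ⟨I, hI, b1, b2, b3, b4⟩ := h3
        cases (hT I).1 hI <;> (try simp [ix] at b1 <;> omega) <;> obtain rfl : i = _ := b2
        · simp only [forall₂_cons_left_iff, forall₂_nil_left_iff] at b4
          obtain ⟨u', _, b5, ⟨v', _, b6, rfl, rfl⟩, rfl⟩ := b4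
          simp [At] at b5 b6
          exact .inl ⟨u', v', rfl, .head b5 c1, b6 ▸ c2⟩
        · simp only [forall₂_cons_left_iff, forall₂_nil_left_iff] at b4
          obtain ⟨u', _, b5, ⟨v', _, b6, rfl, rfl⟩, rfl⟩ := b4
          simp [At] at b5 b6
          exact .inl ⟨u', v', rfl, b5 ▸ c1, .head b6 c2⟩
        · simp [At] at b3
          obtain ⟨rfl, b3⟩ := b3
          refine .inr ⟨fun _ => u, 0, ⟨b3, by simp⟩, c1, c2, .inl (Prod.ext rfl ?_)⟩
          refine det hf hi (by simp) b4 ?_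
          have : (cfg ins s r e (fun _ => u) 0).2 = replicate (r + 2) u := by
            simp [cfg, replicate_succ]
          rw [this]
          exact forall₂_iff_zip.2 ⟨by simp, by simp [At]⟩
      · have h4 := h3
        obtain ⟨I, hI, b1, b2, b3, b4⟩ := h4
        by_cases e1 : ψ.1 = 9 + K
        · refine .inr ⟨p, t, c1, c2, c3, .inr ?_⟩
          rw [e1] at b2
          cases (hT I).1 hI <;> (try simp [ix, cfg] at b1 <;> omega) <;>
            (try exact absurd b2.symm (ix_lt e _).ne)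
          simp only [cfg, ix_inj, Prod.mk.injEq] at b1
          exact ⟨Prod.ext e1 (by simpa using b4), b1.2, by simpa [At, cfg] using b3⟩
        · have : ∃ f, I.2.2.2 = mvs r f := by
            cases (hT I).1 hI <;> (try simp [ix, cfg] at b1 <;> omega) <;>
              first | exact ⟨_, rfl⟩ | exact (e1 b2).elim
          obtain ⟨f, e2⟩ := this
          obtain ⟨z, -, a, d5, d6⟩ := forall₂_mem b4.flip (1, 0) (by simp [e2, mvs])
          obtain rfl : p t = a := by simpa [cfg] using d5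
          have d7 : Pth R (update p (t + 1) z) (t + 1) := ⟨by simpa using c1.1, fun i hi => by
            rcases Nat.lt_succ_iff_lt_or_eq.1 hi with hi | rfl
            · rw [update_of_ne (by omega), update_of_ne (by omega)]
              exact c1.2 i hi
            · simpa [At] using d6⟩
          have d8 : cfg ins s r e p t = cfg ins s r e (update p (t + 1) z) t := by
            simp only [cfg, Prod.mk.injEq, cons.injEq, map_inj_left, true_and]
            exact ⟨by simp, by simp, fun j _ => by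
              rw [update_of_ne (by have := conf_le ins s t j; omega)]⟩
          refine .inr ⟨_, _, d7, by simpa using c2, by simpa using c3, .inl ?_⟩
          exact uniq hT hf hi hn hr h3 (d8 ▸ fwd hT hr d7) (ix_ge e _) e1 (ix_lt e _).ne
      · obtain ⟨I, hI, b1, -⟩ := h3
        cases (hT I).1 hI <;> (try simp only at b1; omega) <;> exact absurd b1.symm (ix_lt e _).ne
  rcases this with ⟨u, v, rfl, -⟩ | ⟨p, t, c1, c2, c3, rfl | ⟨rfl, c4, c5⟩⟩
  · simp at h1; omega
  · exact absurd (h1.trans (arr_len r)) (ix_lt e _).ne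
  have : ∀ x, Rc (p 0) x → ∃ a ≤ t, p a = x := fun x h => by
    induction h with
    | refl => exact ⟨0, by omega, rfl⟩
    | tail _ h ih =>
      obtain ⟨a, h1, rfl⟩ := ih
      rcases Nat.lt_or_eq_of_le h1 with h1 | rfl
      · exact ⟨a + 1, h1, hf _ _ _ (c1.2 a h1) h⟩
      · exact (hs _ _ c5 h).elim
  obtain ⟨a, h1, h2⟩ := this x c2
  obtain ⟨b, h3, h4⟩ := this y c3
  exact ⟨p, t, a, b, c4, c1, h1, h3, h2, h4⟩
end

open Pool.Agent.H38.NP

def rho (g : Gr) : Code := (g.1, (1, [0]) :: (2, [g.1 - 1]) ::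
  ((range (g.1 - 1)).map fun i => (0, [i, i + 1])) ++
  (g.2.filter fun e => decide (e.1 < g.1) && decide (e.2 < g.1)).map fun e => (3, [e.1, e.2]))

theorem pt_rho : PT rho := by unfold rho; fun_prop

theorem mem_rho {g : Gr} {f} : f ∈ (rho g).2 ↔ f = (1, [0]) ∨ f = (2, [g.1 - 1]) ∨
    (∃ i, i + 1 < g.1 ∧ f = (0, [i, i + 1])) ∨
    ∃ e ∈ g.2, e.1 < g.1 ∧ e.2 < g.1 ∧ f = (3, [e.1, e.2]) := by
  simp only [rho, cons_append, mem_cons, mem_append, mem_map, mem_range, mem_filter,
    Bool.and_eq_true, decide_eq_true_eq, and_assoc, lt_tsub_iff_right, eq_comm (a := f)]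

theorem main (hP : ¬ ∀ L, InNP L → InP L) : ∃ (ar : List ℕ) (α : Type) (A : Str ar α),
    FinBounded A ∧ InNP (CSP A) ∧ ¬ InP (CSP A) ∧ ¬ NPComplete (CSP A) := by
  obtain ⟨Q, _, ins, s, hc⟩ := clock (Sr rho) (p_Sr pt_rho) (sr_ex hP pt_rho)
  obtain ⟨r0, hr0⟩ := (Set.finite_range fun q => (ins q).1).bddAbove
  have hr : ∀ q, (ins q).1 < r0 + 1 := fun q => Nat.lt_succ_of_le (hr0 ⟨q, rfl⟩)
  generalize r0 + 1 = r at hr
  obtain ⟨K, ⟨e⟩⟩ := Finite.exists_equiv_fin (Option Q × Bool)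
  obtain ⟨T, hT⟩ := rule_fin ins s r e
  have W := wf hT
  refine ⟨arr r K, _, UA T (arr r K), ua_bdd W, ?_⟩
  have e1 : CSP (UA T (arr r K)) = lang fun c : Code => Valid (arr r K) c ∧ Sat T (arr r K) c.2 := by
    unfold CSP
    congr 1
    funext c
    exact propext (and_congr_right fun h => hom_iff W h)
  rw [e1]
  refine ladner (ρ := rho) (fun t => (conf ins s t).2 = true) _ (pt_ph (T := T) (ar := arr r K))
    (by simp [ph]) (fun g g0 gx => ?_)
    (fun y n hn hX => ⟨fun h => (col_of_sat W h.1 h.2).loc n, sat_of_loc W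
      ((hT _).2 (by simpa using Rule.np)) _ (fun F hf hb x y H => small hT hf.1 hf.2
        (fun x y a b => hb _ b ⟨(9 + K, []), by simp,
          .single ⟨_, (hT _).2 .np, rfl, rfl, by simpa [At] using a, .nil⟩⟩) hr
        (fun x y a b => hb _ b ⟨(9 + K, []), by simp,
          .single ⟨_, (hT _).2 .ns, rfl, rfl, by simpa [At] using a, .nil⟩⟩) H) hn hX⟩)
    (fun n => hc n true) fun n => by simpa using hc n false
  have hv : Valid (arr r K) (rho g) := fun f hf => by
    rcases mem_rho.1 hf with rfl | rfl | ⟨i, h, rfl⟩ | ⟨e, -, h1, h2, rfl⟩ <;>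
      refine ⟨rfl, ?_⟩ <;> simp [rho] <;> omega
  rw [hd_iff]
  constructor
  · rintro ⟨-, β, M, G, h, hh⟩
    choose χ h1 h2 using G.col
    refine ⟨fun x => χ (h x), fun x => h1 _, fun u hu a b H => ?_⟩
    have := bad_D hT (R := RN (rho g).2) hr (p := id) (t := g.1 - 1) ⟨mem_rho.2 (.inl rfl),
      fun i hi => mem_rho.2 (.inr (.inr (.inl ⟨i, by omega, rfl⟩)))⟩ (mem_rho.2 (.inr (.inl rfl)))
      gx (a := u.1) (b := u.2) (by omega) (by omega)
    simp only at H
    exact this.not G (fun i l e => hh _ e) (G.edge _ _ _ (h1 _)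
      (hh _ (mem_rho.2 (.inr (.inr (.inr ⟨u, hu, a, b, rfl⟩))))) (h2 _) (H ▸ h2 (h u.2)))
  · rintro ⟨χ, h1, h2⟩
    refine ⟨hv, sat_of_col W hv ⟨fun x y z a b => ?_, fun x y z a b => ?_⟩ ?_ χ h1
      (fun a ha x h => ?_) fun x y h _ => ?_⟩
    · simp [mem_rho] at a b
      grind
    · simp [mem_rho] at a b
      grind
    · rintro f hf ⟨ψ, h3, h4⟩
      rcases h4.cases_head with rfl | ⟨φ, ⟨I, hI, b1, -, b3, -⟩, -⟩
      · have := (hv _ hf).1
        simp [h3] at this
      · rcases mem_rho.1 hf with rfl | rfl | ⟨i, h, rfl⟩ | ⟨e, -, h1, h2, rfl⟩ <;>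
          cases (hT I).1 hI <;> (try simp [ix] at b1 <;> omega) <;>
          simp [At, RN, mem_rho] at b3
        omega
    · simp [mem_rho] at h
      omega
    · simp [mem_rho] at h
      exact h2 (x, y) h.1 h.2.1 h.2.2

end Pool.Agent.H62.Lad
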