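import Mathlib

set_option autoImplicit false

namespace Pool.Agent.H62.LinOde

open Complex MeasureTheory Filter Topology Set intervalIntegral

/-- iterated integrals -/
noncomputable def it (B : ℝ → ℂ × ℂ →L[ℂ] ℂ × ℂ) (e : ℂ × ℂ) : ℕ → ℝ → ℂ × ℂ
  | 0, _ => e
  | n + 1, t => ∫ s in (0 : ℝ)..t, B s (it B e n s)

variable {B : ℝ → ℂ × ℂ →L[ℂ] ℂ × ℂ} (hB : Continuous B) (e : ℂ × ℂ)
include hB

lemma it_cont (n : ℕ) : Continuous (it B e n) := by
  induction n with
  | zero => exact continuous_const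
  | succ n ih =>
    exact continuous_iff_continuousAt.mpr fun t =>
      ((hB.clm_apply ih).integral_hasStrictDerivAt 0 t).hasDerivAt.continuousAt

lemma it_deriv (n : ℕ) (t : ℝ) : HasDerivAt (it B e (n + 1)) (B t (it B e n t)) t :=
  ((hB.clm_apply (it_cont hB e n)).integral_hasStrictDerivAt 0 t).hasDerivAt

omit hB in
lemma it_bound {C : ℝ} (hC : ∀ t, ‖B t‖ ≤ C) (n : ℕ) (t : ℝ) :
    ‖it B e n t‖ ≤ ‖e‖ * ((C * |t|) ^ n / n.factorial) := by
  have C0 : 0 ≤ C := (norm_nonneg _).trans (hC 0)
  induction n generalizing t with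
  | zero => simp [it]
  | succ n ih =>
    calc ‖it B e (n + 1) t‖ ≤ ∫ s in uIoc 0 t, ‖e‖ * C ^ (n + 1) / n.factorial * |s - 0| ^ n := by
          rw [it, norm_intervalIntegral_eq]
          refine MeasureTheory.norm_integral_le_of_norm_le
            (Continuous.integrableOn_uIoc (by fun_prop)) (Eventually.of_forall fun s => ?_)
          refine ((B s).le_opNorm _).trans ((mul_le_mul (hC s) (ih s) (norm_nonneg _) C0).trans
            (le_of_eq ?_))
          rw [sub_zero, mul_pow]
          ring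
      _ = _ := by
          rw [MeasureTheory.integral_const_mul, integral_pow_abs_sub_uIoc, sub_zero,
            Nat.factorial_succ, mul_pow]
          push_cast
          field_simp

theorem exists_sol {C : ℝ} (hC : ∀ t, ‖B t‖ ≤ C) : ∃ W : ℂ → ℝ → ℂ × ℂ,
    (∀ u t, HasDerivAt (W u) (B t (e + u • W u t)) t) ∧ (∀ u, W u 0 = 0) ∧
    (∀ t, AnalyticAt ℂ (fun u => W u t) 0) ∧ ∀ t, W 0 t = ∫ s in (0 : ℝ)..t, B s e := by
  have C0 : 0 ≤ C := (norm_nonneg _).trans (hC 0)
  have hb : ∀ (u : ℂ) (n : ℕ) (t R : ℝ), |t| ≤ R →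
      ‖u ^ n • it B e n t‖ ≤ ‖e‖ * ((‖u‖ * (C * R)) ^ n / n.factorial) := fun u n t R h => by
    rw [norm_smul, norm_pow, mul_pow]
    refine (mul_le_mul_of_nonneg_left (it_bound e hC n t) (by positivity)).trans ?_
    rw [mul_div_assoc, mul_left_comm]
    gcongr
  have hs : ∀ x : ℝ, Summable fun n : ℕ => ‖e‖ * (x ^ n / n.factorial) := fun x =>
    (Real.summable_pow_div_factorial x).mul_left _
  refine ⟨fun u t => ∑' n, u ^ n • it B e (n + 1) t, fun u t => ?_, fun u => by simp [it],
    fun t => ?_, fun t => ?_⟩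
  · have h1 := hasDerivAt_tsum_of_isPreconnected (g := fun n t => u ^ n • it B e (n + 1) t)
      (g' := fun n t => B t (u ^ n • it B e n t)) (t := Metric.ball 0 (|t| + 1)) (y₀ := 0) (y := t)
      ((hs (‖u‖ * (C * (|t| + 1)))).mul_left C) Metric.isOpen_ball
      (convex_ball _ _).isPreconnected
      (fun n y _ => by rw [map_smul]; exact (it_deriv hB e n y).const_smul (u ^ n))
      (fun n y hy => ((B y).le_opNorm _).trans (mul_le_mul (hC y)
        (hb u n y _ (by simpa using (mem_ball_zero_iff.mp hy).le)) (norm_nonneg _) C0))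
      (by simp; positivity) (by simp [it, summable_zero]) (by simp)
    have h2 : Summable fun n => u ^ n • it B e n t :=
      Summable.of_norm_bounded (hs _) fun n => hb u n t _ le_rfl
    rw [← (B t).map_tsum h2, h2.tsum_eq_zero_add] at h1
    refine h1.congr_deriv ?_
    rw [← tsum_const_smul'' u]
    simp [it, pow_succ', mul_smul]
  · refine (differentiableOn_tsum_of_summable_norm (U := Metric.ball 0 1)
      ((summable_nat_add_iff 1).mpr (hs (C * |t|))) (fun n => by fun_prop) Metric.isOpen_ball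
      fun n u hu => ?_).analyticAt (Metric.ball_mem_nhds _ one_pos)
    rw [norm_smul, norm_pow]
    exact (mul_le_of_le_one_left (norm_nonneg _) (pow_le_one₀ (norm_nonneg _)
      (mem_ball_zero_iff.mp hu).le)).trans (it_bound e hC _ t)
  · refine (tsum_eq_single 0 fun n hn => by simp [hn]).trans ?_
    simp [it]

end Pool.Agent.H62.LinOde
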