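import Pool.Agent.H62.CbsDefs

/-!
Unique choice on Baire space and the listing problem on Cantor space.
-/

set_option autoImplicit false

namespace Pool.Agent.H62.Pk

abbrev Cantor : Type := ℕ → Bool

/-- negative representation of closed subsets of Cantor space: p lists (entry `encode σ + 1` for
the cylinder of σ, other entries for nothing) cylinders whose union is the complement of A -/
def negC : Rep (Set Cantor) := fun p A =>
  A = {x | ∀ n (σ : List Bool), p n = Encodable.encode σ + 1 → (List.range σ.length).map x ≠ σ}

/-- sequences (b_i, x_i) of a bit and a point of Cantor space -/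
def listC : Rep (ℕ → Bool × Cantor) := fun u s =>
  ∀ i, u (Nat.pair i 0) = (s i).1.toNat ∧ ∀ n, u (Nat.pair i (n + 1)) = ((s i).2 n).toNat

/-- unique choice on Baire space: the element of a singleton -/
def UC (A : Set Baire) : Set Baire := {x | A = {x}}

/-- the listing problem for countable closed subsets of Cantor space -/
def ListP (A : Set Cantor) : Set (ℕ → Bool × Cantor) :=
  {s | A.Countable ∧ A = {x | ∃ i, s i = (true, x)}}

end Pool.Agent.H62.Pk
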