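import Pool.Agent.H62.Cbs3
import Pool.Agent.H62.LlDefs

/-!
Arithmetical predicates have unique witnesses; finite approximations of functionals.
-/

set_option autoImplicit false

namespace Pool.Agent.H62.Pk

open Pool.Agent.H37 Encodable Filter Topology

def UQ (P : Baire → Prop) : Prop := ∃ h : Baire → Baire,
  IsClosed {q : Baire × Baire | q.2 = h q.1} ∧ ∀ p, (h p 0 = 0 ↔ P p)

theorem UQ.congr {P Q : Baire → Prop} (h : UQ P) (e : ∀ p, P p ↔ Q p) : UQ Q := by
  rwa [show Q = P from funext fun p => propext (e p).symm]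

theorem UQ.base (Q : List ℕ → Prop) (n : ℕ) : UQ fun p => Q (pre p n) := by
  classical
  refine ⟨fun p _ => if Q (pre p n) then 0 else 1, isClosed_eq continuous_snd
    (Continuous.comp (g := fun (p : Baire) (_ : ℕ) => if Q (pre p n) then 0 else 1)
      (continuous_pi fun _ => ?_) continuous_fst), fun p => by simp⟩
  refine continuous_iff_continuousAt.2 fun p => tendsto_const_nhds.congr' ?_
  filter_upwards [cyl_nhds p n] with y hy
  rw [hy]

theorem closed_two (i j : ℕ) (Q : ℕ → ℕ → Prop) :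
    IsClosed {q : Baire × Baire | Q (q.2 i) (q.2 j)} :=
  (isClosed_discrete {u : ℕ × ℕ | Q u.1 u.2}).preimage
    (f := fun q : Baire × Baire => (q.2 i, q.2 j)) (by fun_prop)

theorem UQ.not {P : Baire → Prop} (h : UQ P) : UQ fun p => ¬ P p := by
  obtain ⟨h, h1, h2⟩ := h
  refine ⟨fun p i => if i = 0 then (if h p 0 = 0 then 1 else 0) else h p (i - 1), ?_,
    fun p => by simp [h2]⟩
  have : {q : Baire × Baire | q.2 = fun i => if i = 0 then (if h q.1 0 = 0 then 1 else 0)
      else h q.1 (i - 1)} = (fun q : Baire × Baire => ((q.1, fun i => q.2 (i + 1)) :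
      Baire × Baire)) ⁻¹' {q | q.2 = h q.1} ∩ {q | q.2 0 = if q.2 1 = 0 then 1 else 0} := by
    ext q
    simp only [Set.mem_ofPred_eq, Set.mem_inter_iff, Set.mem_preimage]
    constructor
    · intro e
      rw [e]
      simp
    · rintro ⟨a, b⟩
      funext i
      rw [← a]
      cases i with
      | zero => simpa using b
      | succ i => simp
  rw [this]
  exact (h1.preimage (by fun_prop)).inter (closed_two 0 1 fun a b => a = if b = 0 then 1 else 0)

theorem UQ.ex {P : ℕ → Baire → Prop} (h : ∀ n, UQ (P n)) : UQ fun p => ∃ n, P n p := by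
  classical
  choose h h1 h2 using h
  refine ⟨fun p i => if i = 0 then (if ∃ n, h n p 0 = 0 then 0 else 1) else if i = 1 then
    sInf {n | h n p 0 = 0} else h (i - 2).unpair.1 p (i - 2).unpair.2, ?_, fun p => by simp [h2]⟩
  have : {q : Baire × Baire | q.2 = fun i => if i = 0 then (if ∃ n, h n q.1 0 = 0 then 0 else 1)
      else if i = 1 then sInf {n | h n q.1 0 = 0} else h (i - 2).unpair.1 q.1 (i - 2).unpair.2} =
      ⋂ n, (fun q : Baire × Baire => ((q.1, fun i => q.2 (Nat.pair n i + 2)) :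
      Baire × Baire)) ⁻¹' {q | q.2 = h n q.1} ∩ {q | q.2 0 = 0 ∨ (q.2 0 = 1 ∧ q.2 1 = 0)} ∩
      {q | q.2 (Nat.pair n 0 + 2) = 0 → q.2 0 = 0} ∩ {q | q.2 (Nat.pair n 0 + 2) = 0 → q.2 1 ≤ n} ∩
      ({q | q.2 0 = 1} ∪ {q | q.2 1 = n → q.2 (Nat.pair n 0 + 2) = 0}) := by
    ext q
    simp only [Set.mem_ofPred_eq, Set.mem_inter_iff, Set.mem_preimage, Set.mem_iInter,
      Set.mem_union]
    constructor
    · intro e n
      rw [e]
      by_cases a : ∃ n, h n q.1 0 = 0
      · simp only [a]
        simpa using ⟨fun b => Nat.sInf_le b, fun b => b ▸ Nat.sInf_mem a⟩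
      · simp only [a]
        push Not at a
        simp [a]
    · intro e
      have e1 : ∀ n, q.2 (Nat.pair n 0 + 2) = h n q.1 0 := fun n => congrFun (e n).1.1.1.1 0
      simp only [e1] at e
      funext i
      by_cases a : ∃ n, h n q.1 0 = 0
      · obtain ⟨n, hn⟩ := id a
        have b := (e n).1.1.2 hn
        have c : h (q.2 1) q.1 0 = 0 := ((e (q.2 1)).2.resolve_left (by omega)) rfl
        split_ifs with d f
        · rw [d, b]
        · rw [f]
          exact le_antisymm ((e _).1.2 (Nat.sInf_mem a)) (Nat.sInf_le c)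
        · rw [← (e _).1.1.1.1]
          simp only [Nat.pair_unpair]
          rw [show i - 2 + 2 = i by omega]
      · have b : q.2 0 = 1 := by
          rcases (e (q.2 1)).2 with c | c
          · exact c
          · exact absurd ⟨_, c rfl⟩ a
        split_ifs with d f
        · rw [d, b]
        · push Not at a
          rw [f, (((e 0).1.1.1.2).resolve_left (by omega)).2]
          simp [a]
        · rw [← (e _).1.1.1.1]
          simp only [Nat.pair_unpair]
          rw [show i - 2 + 2 = i by omega]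
  rw [this]
  exact isClosed_iInter fun n => (((((h1 n).preimage (by fun_prop)).inter
    (closed_two 0 1 fun a b => a = 0 ∨ (a = 1 ∧ b = 0))).inter
    (closed_two _ 0 fun a b => a = 0 → b = 0)).inter
    (closed_two _ 1 fun a b => a = 0 → b ≤ n)).inter ((closed_two 0 0 fun a _ => a = 1).union
    (closed_two 1 _ fun a b => a = n → b = 0))

theorem UQ.all {P : ℕ → Baire → Prop} (h : ∀ n, UQ (P n)) : UQ fun p => ∀ n, P n p :=
  (UQ.ex fun n => (h n).not).not.congr fun p => by simp

theorem UQ.exL {P : List ℕ → Baire → Prop} (h : ∀ n, UQ (P n)) : UQ fun p => ∃ n, P n p :=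
  (UQ.ex fun n => h (ls n)).congr fun p => ⟨fun ⟨_, h⟩ => ⟨_, h⟩,
    fun ⟨σ, h⟩ => ⟨encode σ, by rwa [ls_enc]⟩⟩

theorem UQ.allL {P : List ℕ → Baire → Prop} (h : ∀ n, UQ (P n)) : UQ fun p => ∀ n, P n p :=
  (UQ.exL fun n => (h n).not).not.congr fun p => by simp

theorem UQ.and {P Q : Baire → Prop} (h : UQ P) (h' : UQ Q) : UQ fun p => P p ∧ Q p :=
  (UQ.all (P := fun n p => Nat.casesOn n (P p) fun _ => Q p) fun n => by
    cases n; exacts [h, h']).congr fun p => ⟨fun h => ⟨h 0, h 1⟩, fun h n => by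
      cases n; exacts [h.1, h.2]⟩

theorem UQ.imp {P Q : Baire → Prop} (h : UQ P) (h' : UQ Q) : UQ fun p => P p → Q p :=
  (h.and h'.not).not.congr fun p => by tauto

theorem UQ.const (Q : Prop) : UQ fun _ => Q := UQ.base (fun _ => Q) 0

theorem UQ.diag {P : Baire → Prop} (h : UQ P) : ∃ p y, negRep p {y} ∧ ¬ (P p ↔ y 0 = 0) := by
  obtain ⟨h, h1, h2⟩ := h.not
  obtain ⟨p, hp⟩ := fix_neg h1
  exact ⟨p, h p, hp, by rw [h2]; tauto⟩

def LimS (s : ℕ → List ℕ) (q : Baire) : Prop :=
  (∀ k, s k = pre q (s k).length) ∧ ∀ m, ∀ᶠ k in atTop, m ≤ (s k).length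

open Classical in
noncomputable def ap (F : Fnl) (σ : List ℕ) : List ℕ := pre (fun n => (F.toFun σ n).getD 0)
  (Nat.findGreatest (fun m => ∀ n < m, (F.toFun σ n).isSome = true) σ.length)

theorem LimS.pre (p : Baire) : LimS (pre p) p :=
  ⟨fun k => by simp, fun m => (eventually_ge_atTop m).mono fun k h => by simpa using h⟩

theorem LimS.zp {s t : ℕ → List ℕ} {p q : Baire} (h : LimS s p) (h' : LimS t q) :
    LimS (fun k => zp (s k) (t k)) (pr p q) := by
  have : ∀ k, Pk.zp (s k) (t k) = H37.pre (pr p q) (min (s k).length (t k).length) := fun k => by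
    rw [← zp_pre, ← h.1, ← h'.1]
  exact ⟨fun k => by simp [this], fun m => ((h.2 m).and (h'.2 m)).mono fun k h => by
    simpa [this] using h⟩

theorem LimS.ap {s : ℕ → List ℕ} {p q : Baire} {F : Fnl} (h : LimS s p) (hF : F.Ev p q) :
    LimS (fun k => ap F (s k)) q := by
  classical
  refine ⟨fun k => ?_, fun m => ?_⟩
  · simp only [Pk.ap, length_pre]
    refine pre_congr fun n hn => ?_
    have := Nat.findGreatest_spec (P := fun m => ∀ n < m, (F.toFun (s k) n).isSome = true)
      (Nat.zero_le (s k).length) (by simp) n hn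
    obtain ⟨v, hv⟩ := Option.isSome_iff_exists.1 this
    rw [hv]
    rw [h.1 k] at hv
    exact hF.sound hv
  · obtain ⟨K, hK⟩ := eventually_atTop.1 ((eventually_all_finite (Set.finite_Iio m)).2
      fun n _ => hF.ev n)
    filter_upwards [h.2 (max m K)] with k hk
    simp only [Pk.ap, length_pre]
    refine Nat.le_findGreatest (by omega) fun n hn => ?_
    rw [h.1 k, hK _ (by omega) n hn]
    rfl

end Pool.Agent.H62.Pk
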