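import Pool.Agent.H62.Ll1

/-!
Unique choice on Baire space does not reduce to two consecutive uses of the listing problem.
-/

set_option autoImplicit false

namespace Pool.Agent.H62.Pk

open Pool.Agent.H37 Encodable Filter Topology

abbrev LS : Type := ℕ → Bool × Cantor

def nm (s : LS) : Baire := fun j => if j.unpair.2 = 0 then (s j.unpair.1).1.toNat
  else ((s j.unpair.1).2 (j.unpair.2 - 1)).toNat

theorem nm_list (s : LS) : listC (nm s) s := fun i => by simp [nm]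

theorem nm_cont : Continuous nm := continuous_pi fun j => by
  have : Continuous Bool.toNat := continuous_of_discreteTopology
  unfold nm
  split_ifs <;> fun_prop

theorem nm_agree {s s' : LS} {k : ℕ} (h : ∀ i < k, s' i = s i) :
    pre (nm s') k = pre (nm s) k := pre_congr fun j hj => by
  simp only [nm, h _ ((Nat.unpair_left_le j).trans_lt hj)]

theorem closed_pre {γ : Type} [TopologicalSpace γ] [DiscreteTopology γ] (Q : List γ → Prop)
    (k : ℕ) : IsClosed {x : ℕ → γ | Q (pre x k)} := by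
  rw [← isOpen_compl_iff, isOpen_iff_mem_nhds]
  intro x hx
  have : ∀ᶠ y in 𝓝 x, ∀ i ∈ Set.Iio k, y i = x i := (eventually_all_finite (Set.finite_Iio k)).2
    fun i _ => ((continuous_apply i).tendsto x).eventually (p := fun v => v = x i) (by simp)
  exact this.mono fun y hy h => hx (by rwa [Set.mem_ofPred_eq, pre_congr hy] at h)

theorem cpt {Z : ℕ → Set LS} (h : ∀ k, IsClosed (Z k)) (h' : ∀ K, ∃ s, ∀ k ≤ K, s ∈ Z k) :
    ∃ s, ∀ k, s ∈ Z k := by
  obtain ⟨s, -, hs⟩ := isCompact_univ.inter_iInter_nonempty Z h fun u => by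
    obtain ⟨s, hs⟩ := h' (u.sup id)
    exact ⟨s, trivial, Set.mem_iInter₂.2 fun i hi => hs i (Finset.le_sup (f := id) hi)⟩
  exact ⟨s, Set.mem_iInter.1 hs⟩

def Sub (A : Set Cantor) : Set LS := {s | ∀ i, (s i).1 = true → (s i).2 ∈ A}

theorem Sub_closed {A : Set Cantor} (h : IsClosed A) : IsClosed (Sub A) := by
  have : Sub A = ⋂ i, {s : LS | (s i).1 = false} ∪ (fun s : LS => (s i).2) ⁻¹' A := by
    ext s
    simp only [Sub, Set.mem_ofPred_eq, Set.mem_iInter, Set.mem_union, Set.mem_preimage]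
    exact forall_congr' fun i => by cases (s i).1 <;> simp
  rw [this]
  exact isClosed_iInter fun i => (isClosed_eq (by fun_prop) continuous_const).union
    (h.preimage (by fun_prop))

def Cl (ν : List ℕ) : Set Cantor :=
  {x | ∀ n (σ : List Bool), (n < ν.length ∧ ν.getD n 0 = encode σ + 1) → pre x σ.length ≠ σ}

theorem closed_neg (R : ℕ → List Bool → Prop) :
    IsClosed {x : Cantor | ∀ n σ, R n σ → pre x σ.length ≠ σ} := by
  simp only [Set.setOf_forall]
  exact isClosed_iInter fun _ => isClosed_iInter fun σ => isClosed_iInter fun _ =>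
    closed_pre (· ≠ σ) _

def XX (A : Set Cantor) (l : List ℕ) : Prop := ∃ s ∈ Sub A, pre (nm s) l.length = l

theorem XX_iff {a : ℕ → List ℕ} {q : Baire} {A : Set Cantor} (h : LimS a q) (hA : negC q A)
    (l : List ℕ) : XX A l ↔ ∀ k, XX (Cl (a k)) l := by
  constructor
  · rintro ⟨s, h1, h2⟩ k
    refine ⟨s, fun i hi n σ e => ?_, h2⟩
    have := h1 i hi
    rw [hA] at this
    exact this n σ (by rw [← e.2, h.1 k, getD_pre _ e.1])
  · intro H
    obtain ⟨s, hs⟩ := cpt (Z := fun m => Sub (Cl (pre q m)) ∩ nm ⁻¹' {u | pre u l.length = l})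
      (fun m => (Sub_closed (closed_neg _)).inter ((closed_pre (· = l) _).preimage nm_cont))
      fun K => by
        obtain ⟨k, hk⟩ := (h.2 K).exists
        obtain ⟨s, h1, h2⟩ := H k
        refine ⟨s, fun m hm => ⟨fun i hi n σ e => h1 i hi n σ ?_, h2⟩⟩
        rw [length_pre] at e
        rw [getD_pre _ e.1] at e
        rw [h.1 k, length_pre, getD_pre _ (by omega)]
        exact ⟨by omega, e.2⟩
    refine ⟨s, fun i hi => ?_, (hs 0).2⟩
    rw [hA]
    exact fun n σ e => (hs (n + 1)).1 i hi n σ ⟨by simp, by rw [getD_pre _ (by omega), e]⟩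

theorem list_sub {A : Set Cantor} {s : LS} (h : s ∈ ListP A) : s ∈ Sub A :=
  fun i hi => h.2 ▸ ⟨i, by rw [← hi]⟩

theorem exists_list {A : Set Cantor} (h : A.Countable) : ∃ e, e ∈ ListP A := by
  rcases A.eq_empty_or_nonempty with f | f
  · exact ⟨fun _ => (false, fun _ => false), h, by simp [f]⟩
  · obtain ⟨g, hg⟩ := h.exists_eq_range f
    exact ⟨fun i => (true, g i), h, by rw [hg]; ext; simp⟩

theorem full_ext {A : Set Cantor} (h : A.Countable) {s : LS} (hs : s ∈ Sub A) (m : ℕ) :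
    ∃ s' ∈ ListP A, ∀ i < m, s' i = s i := by
  obtain ⟨e, he⟩ := exists_list h
  refine ⟨fun i => if i < m then s i else e (i - m), ⟨h, Set.Subset.antisymm (fun x hx => ?_)
    fun x ⟨i, hi⟩ => ?_⟩, fun i hi => if_pos hi⟩
  · obtain ⟨i, hi⟩ := he.2 ▸ hx
    exact ⟨m + i, by simp [hi]⟩
  · beta_reduce at hi
    split_ifs at hi
    · simpa [hi] using hs i
    · exact he.2 ▸ ⟨_, hi⟩

theorem baire_step {A : Set Cantor} (h : A.Countable) {H : List ℕ → ℕ → List ℕ → Prop}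
    (hH : ∀ s ∈ ListP A, ∃ μ, ∀ k, H μ k (pre (nm s) k)) :
    ∃ m μ, ∃ s ∈ Sub A, ∀ s' ∈ Sub A, (∀ i < m, s' i = s i) → ∀ k, H μ k (pre (nm s') k) := by
  by_contra hn
  push Not at hn
  obtain ⟨e, he⟩ := exists_list h
  have : ∀ (j : ℕ) (L : {L : List (Bool × Cantor) // ∀ t ∈ L, t.1 = true → t.2 ∈ A}),
      ∃ L' : {L : List (Bool × Cantor) // ∀ t ∈ L, t.1 = true → t.2 ∈ A}, L.1 ++ [e j] <+: L'.1 ∧
        ∀ s, pre s L'.1.length = L'.1 → ∃ k, ¬ H (ls j) k (pre (nm s) k) := fun j L => by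
    obtain ⟨s, a, b, k, c⟩ := hn (L.1 ++ [e j]).length (ls j)
      (fun i => (L.1 ++ [e j]).getD i (false, fun _ => false)) fun i hi => by
        rcases lt_or_ge i (L.1 ++ [e j]).length with l | l
        · simp only [List.getD_eq_getElem _ _ l] at hi ⊢
          rcases List.mem_append.1 (List.getElem_mem l) with m | m
          · exact L.2 _ m hi
          · rw [List.mem_singleton.1 m] at hi ⊢
            exact list_sub he j hi
        · simp only [List.getD_eq_default _ _ l] at hi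
          simp at hi
    refine ⟨⟨pre s ((L.1 ++ [e j]).length + k), fun t ht => ?_⟩, ?_, fun s' h' => ⟨k, ?_⟩⟩
    · obtain ⟨i, -, rfl⟩ := List.mem_map.1 ht
      exact a i
    · conv_lhs => rw [← pre_getD (L.1 ++ [e j]) (false, fun _ => false), ← pre_congr b]
      exact pre_pf _ (by omega)
    · rw [length_pre] at h'
      rwa [nm_agree fun i hi => pre_eq_iff.1 h' i (by omega)]
  choose g g1 g2 using this
  let F : ℕ → {L : List (Bool × Cantor) // ∀ t ∈ L, t.1 = true → t.2 ∈ A} := fun n =>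
    Nat.rec ⟨[], by simp⟩ (fun j L => g j L) n
  have l : ∀ m, m ≤ (F m).1.length := fun m => by
    induction m with
    | zero => omega
    | succ m ih =>
      have : ((F m).1 ++ [e m]).length ≤ (F (m + 1)).1.length := (g1 m (F m)).length_le
      simp at this
      omega
  obtain ⟨s, hs⟩ := chain_lim (false, fun _ => false) (F := fun m => (F m).1)
    (fun m => (List.prefix_append _ _).trans (g1 m (F m))) l
  suffices hs' : s ∈ ListP A by
    obtain ⟨μ, hμ⟩ := hH s hs'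
    obtain ⟨k, hk⟩ := g2 (encode μ) (F _) s (hs (encode μ + 1))
    exact hk (by rw [ls_enc]; exact hμ k)
  refine ⟨h, Set.Subset.antisymm (fun x hx => ?_) fun x ⟨i, hi⟩ => ?_⟩
  · obtain ⟨j, hj⟩ := he.2 ▸ hx
    have : e j ∈ (F (j + 1)).1 := (g1 j (F j)).subset (by simp)
    obtain ⟨i, -, hi⟩ := List.mem_map.1 ((congrArg (e j ∈ ·) (hs (j + 1))).mpr this)
    exact ⟨i, hi.trans hj⟩
  · have : s i ∈ (F (i + 1)).1 := (congrArg (s i ∈ ·) (hs (i + 1))).mp
      (List.mem_map.2 ⟨i, List.mem_range.2 (l (i + 1)), rfl⟩)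
    simpa [hi] using (F (i + 1)).2 _ this

theorem arith {A : Set Cantor} (hA : IsClosed A) (H : ℕ → List ℕ → Prop) (m : ℕ) :
    (∃ s ∈ Sub A, ∀ s' ∈ Sub A, (∀ i < m, s' i = s i) → ∀ k, H k (pre (nm s') k)) ↔
    ∀ K, ∃ l : List ℕ, XX A l ∧ (l.length = K ∧ ∀ k, ∀ l' : List ℕ, XX A l' →
      (k ≤ K ∧ l'.length = k ∧ ∀ j < k, j.unpair.1 < m → l'.getD j 0 = l.getD j 0) → H k l') := by
  constructor
  · rintro ⟨s, h1, h2⟩ K
    refine ⟨pre (nm s) K, ⟨s, h1, by simp⟩, by simp, ?_⟩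
    rintro _ l' ⟨t, a, b⟩ ⟨c, rfl, d⟩
    have := h2 (fun i => if i < m then s i else t i) (fun i => by
      beta_reduce; split_ifs; exacts [h1 i, a i]) (fun i hi => if_pos hi) l'.length
    rwa [show pre (nm fun i => if i < m then s i else t i) l'.length = l' from ?_] at this
    conv_rhs => rw [← b]
    refine pre_congr fun j hj => ?_
    by_cases e : j.unpair.1 < m
    · have := d j hj e
      rw [← b, getD_pre _ hj, getD_pre _ (by omega)] at this
      rw [this]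
      simp [nm, e]
    · simp [nm, e]
  · intro h
    obtain ⟨s, hs⟩ := cpt (Z := fun k => Sub A ∩ nm ⁻¹' {u | ∀ l' : List ℕ, XX A l' →
      (l'.length = k ∧ ∀ j < k, j.unpair.1 < m → l'.getD j 0 = (pre u k).getD j 0) → H k l'})
      (fun k => (Sub_closed hA).inter ((closed_pre (fun l => ∀ l' : List ℕ, XX A l' →
        (l'.length = k ∧ ∀ j < k, j.unpair.1 < m → l'.getD j 0 = l.getD j 0) → H k l') _).preimage
        nm_cont)) fun K => by
        obtain ⟨l, ⟨s, a, b⟩, rfl, c⟩ := h K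
        refine ⟨s, fun k hk => ⟨a, fun l' d e => c k l' d ⟨hk, e.1, fun j hj f => ?_⟩⟩⟩
        rw [e.2 j hj f, ← b, getD_pre _ hj, getD_pre _ (by omega)]
    refine ⟨s, (hs 0).1, fun s' a b k => (hs k).2 _ ⟨s', a, by simp⟩ ⟨by simp, fun j hj c => ?_⟩⟩
    rw [getD_pre _ hj, getD_pre _ hj]
    simp [nm, b _ c]

theorem core (a1 : List ℕ → List ℕ) (a2 : List ℕ → List ℕ → List ℕ)
    (out : List ℕ → List ℕ → List ℕ → List ℕ)
    (H : ∀ p y, negRep p {y} → ∃ p1 A, LimS (fun k => a1 (pre p k)) p1 ∧ negC p1 A ∧ A.Countable ∧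
      ∀ s ∈ ListP A, ∃ p2 B, LimS (fun k => a2 (pre p k) (pre (nm s) k)) p2 ∧ negC p2 B ∧
        B.Countable ∧ ∀ t ∈ ListP B,
          LimS (fun k => out (pre p k) (pre (nm s) k) (pre (nm t) k)) y) : False := by
  let G : ℕ → List ℕ → List ℕ → ℕ → List ℕ → Prop := fun v π μ k l =>
    XX (Cl (a2 π l)) μ ∧ (k = μ.length → (out π l μ)[0]? = some v)
  obtain ⟨p, y, hp, hy⟩ := UQ.diag (P := fun p => ∃ m : ℕ, ∃ μ : List ℕ, ∀ K : ℕ, ∃ l : List ℕ,
    (∀ k, XX (Cl (a1 (pre p k))) l) ∧ (l.length = K ∧ ∀ k, ∀ l' : List ℕ,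
      (∀ k, XX (Cl (a1 (pre p k))) l') → (k ≤ K ∧ l'.length = k ∧
      ∀ j < k, j.unpair.1 < m → l'.getD j 0 = l.getD j 0) → G 0 (pre p k) μ k l'))
    (UQ.ex fun m => UQ.exL fun μ => UQ.all fun K => UQ.exL fun l =>
      (UQ.all fun k => UQ.base (fun π => XX (Cl (a1 π)) l) k).and ((UQ.const _).and
      (UQ.all fun k => UQ.allL fun l' => (UQ.all fun k =>
        UQ.base (fun π => XX (Cl (a1 π)) l') k).imp ((UQ.const _).imp
        (UQ.base (fun π => G 0 π μ k l') k)))))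
  obtain ⟨p1, A, h1, h2, h3, h4⟩ := H p y hp
  have hA : IsClosed A := h2 ▸ closed_neg fun n σ => p1 n = encode σ + 1
  simp only [← XX_iff h1 h2, ← arith hA fun k l => G 0 (pre p k) _ k l] at hy
  refine hy ⟨fun ⟨m, μ, s, a, b⟩ => ?_, fun e => baire_step h3
    (H := fun μ k l => G 0 (pre p k) μ k l) fun s hs => ?_⟩
  · obtain ⟨s', c, d⟩ := full_ext h3 a m
    obtain ⟨p2, B, b1, b2, b3, b4⟩ := h4 s' c
    obtain ⟨t, t1, t2⟩ := (XX_iff b1 b2 μ).2 fun k => (b s' (list_sub c) d k).1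
    obtain ⟨t', t3, t4⟩ := full_ext b3 t1 μ.length
    have f := (b s' (list_sub c) d _).2 rfl
    have g := (b4 t' t3).1 μ.length
    simp only [nm_agree t4, t2] at g
    have l := (List.getElem?_eq_some_iff.1 f).1
    rw [g, getElem?_pre _ l] at f
    exact Option.some.inj f
  · obtain ⟨p2, B, b1, b2, b3, b4⟩ := h4 s hs
    obtain ⟨t, ht⟩ := exists_list b3
    obtain ⟨k, hk⟩ := ((b4 t ht).2 1).exists
    refine ⟨pre (nm t) k, fun k' => ⟨(XX_iff b1 b2 _).1 ⟨t, list_sub ht, by simp⟩ k', fun e' => ?_⟩⟩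
    rw [length_pre] at e'
    have g := (b4 t ht).1 k
    beta_reduce at g hk
    rw [e', g, getElem?_pre _ hk, e]

theorem not_UC {X Y Z : Type} (RX : Rep X) (RY : Rep Y) (RZ : Rep Z) (g : X → Set Y)
    (f : Y → Set Z) (hf : WLe RY RZ f negC listC ListP) (hg : WLe RX RY g negC listC ListP) :
    ¬ WLe negRep baireRep UC RX RZ (comp f g) := by
  rintro ⟨Φ0, Ψ0, H0⟩
  obtain ⟨Φ1, Ψ1, H1⟩ := hg
  obtain ⟨Φ2, Ψ2, H2⟩ := hf
  refine core (fun π => ap Φ1 (ap Φ0 π)) (fun π l => ap Φ2 (ap Ψ1 (zp (ap Φ0 π) l)))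
    (fun π l μ => ap Ψ0 (zp π (ap Ψ2 (zp (ap Ψ1 (zp (ap Φ0 π) l)) μ)))) fun p y hp => ?_
  obtain ⟨p0, x, a1, a2, ⟨z, a3, v0, a4, -⟩, a5⟩ := H0 p _ hp ⟨y, rfl⟩
  obtain ⟨p1, A, b1, b2, ⟨_, b3, -⟩, b4⟩ := H1 p0 x a2 ⟨v0, a4⟩
  have l0 := (LimS.pre p).ap a1
  refine ⟨p1, A, l0.ap b1, b2, b3, fun s hs => ?_⟩
  obtain ⟨r1, v, c1, c2, c3⟩ := b4 _ s (nm_list s) hs
  obtain ⟨p2, B, d1, d2, ⟨_, d3, -⟩, d4⟩ := H2 r1 v c2 (a3 v c3)
  have l1 := (l0.zp (LimS.pre (nm s))).ap c1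
  refine ⟨p2, B, l1.ap d1, d2, d3, fun t ht => ?_⟩
  obtain ⟨r2, w, e1, e2, e3⟩ := d4 _ t (nm_list t) ht
  obtain ⟨r, y', f1, rfl, f2⟩ := a5 r2 w e2 ⟨a3, v, c3, e3⟩
  obtain rfl : y = r := Set.singleton_injective f2
  exact ((LimS.pre p).zp ((l1.zp (LimS.pre (nm t))).ap e1)).ap f1

end Pool.Agent.H62.Pk
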