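import Pool.Agent.H37.NF

/-!
An effectively closed class whose computable members form an infinite maximal almost disjoint
family of computable sets.
-/

set_option autoImplicit false

namespace Pool.Agent.H62.Mad

open Pool.Agent.H37 Encodable Filter

def shw (j : ℕ) (l : List ℕ) (m s : ℕ) : Bool :=
  (List.range (m + 1)).all fun n => ev j n s == some (l.contains n).toNat
def gt (L : List (List ℕ)) (i : ℕ) : List ℕ := L.getD i [i]
def cand (s : ℕ) (L : List (List ℕ)) (i n : ℕ) : Bool :=
  decide (2 * (gt L i).headD 0 < n) && ev i n s == some 1 &&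
    ((List.range (i + (gt L i).length)).all fun j => !(gt L j).contains n) &&
    !shw ((gt L i).length + 1).unpair.1 (n :: gt L i) n s
def nxt (s : ℕ) (L : List (List ℕ)) (i : ℕ) : List ℕ :=
  cond (i == s.unpair.1) ((((List.range s).find? (cand s L i)).toList) ++ gt L i) (gt L i)
def ST : ℕ → List (List ℕ)
  | 0 => []
  | s + 1 => (List.range (s + 1)).map (nxt s (ST s))
def E (s i : ℕ) : List ℕ := gt (ST s) i
def hd (s i : ℕ) : ℕ := (E s i).headD 0

section
variable {α : Type} [Primcodable α] {O : Set (ℕ →. ℕ)}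
@[fun_prop] theorem ci_shw {j m s : α → ℕ} {l : α → List ℕ} (hj : CI O j) (hl : CI O l)
    (hm : CI O m) (hs : CI O s) : CI O fun a => shw (j a) (l a) (m a) (s a) := by
  unfold shw; fun_prop
@[fun_prop] theorem ci_gt {i : α → ℕ} {l : α → List (List ℕ)} (hl : CI O l) (hi : CI O i) :
    CI O fun a => gt (l a) (i a) := by unfold gt; fun_prop
@[fun_prop] theorem ci_cand {s i n : α → ℕ} {l : α → List (List ℕ)} (hs : CI O s) (hl : CI O l)
    (hi : CI O i) (hn : CI O n) : CI O fun a => cand (s a) (l a) (i a) (n a) := by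
  unfold cand; fun_prop
@[fun_prop] theorem ci_nxt {s i : α → ℕ} {l : α → List (List ℕ)} (hs : CI O s) (hl : CI O l)
    (hi : CI O i) : CI O fun a => nxt (s a) (l a) (i a) := by
  unfold nxt; fun_prop
theorem ci_ST : CI O ST :=
  CI.of_rec1 (h := fun s L => (List.range (s + 1)).map (nxt s L)) (by fun_prop) fun _ => rfl
@[fun_prop] theorem ci_E {s i : α → ℕ} (hs : CI O s) (hi : CI O i) :
    CI O fun a => E (s a) (i a) := ci_gt (ci_ST.comp hs) hi
@[fun_prop] theorem ci_hd {s i : α → ℕ} (hs : CI O s) (hi : CI O i) :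
    CI O fun a => hd (s a) (i a) := by unfold hd; fun_prop
end

theorem shw_iff {j m s : ℕ} {l : List ℕ} :
    shw j l m s = true ↔ ∀ n ≤ m, ev j n s = some (decide (n ∈ l)).toNat := by
  simp [shw, Nat.lt_succ_iff]

theorem cand_iff {s i n : ℕ} : cand s (ST s) i n = true ↔ 2 * hd s i < n ∧ ev i n s = some 1 ∧
    (∀ j < i + (E s i).length, n ∉ E s j) ∧
    ¬ shw ((E s i).length + 1).unpair.1 (n :: E s i) n s = true := by
  simp [cand, hd, E, and_assoc]

theorem len_ST (s : ℕ) : (ST s).length = s := by cases s <;> simp [ST]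

theorem E_succ (s i : ℕ) : E (s + 1) i = nxt s (ST s) i := by
  by_cases h : i < s + 1
  · simp [E, gt, ST, h]
  · have h1 : (i == s.unpair.1) = false := by
      have := Nat.unpair_left_le s
      simp; omega
    simp only [E, gt, nxt, h1, cond_false]
    rw [List.getD_eq_default _ _ (by rw [len_ST]; omega),
      List.getD_eq_default _ _ (by rw [len_ST]; omega)]

def Pick (s i n : ℕ) : Prop :=
  i = s.unpair.1 ∧ cand s (ST s) i n = true ∧ E (s + 1) i = n :: E s i

theorem step (s i : ℕ) : E (s + 1) i = E s i ∨ ∃ n, Pick s i n := by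
  by_cases h : i = s.unpair.1
  · cases e : (List.range s).find? (cand s (ST s) i) with
    | none => left; rw [E_succ, nxt, e]; simp [E]
    | some n =>
      refine Or.inr ⟨n, h, List.find?_some e, ?_⟩
      rw [E_succ, nxt, e]; simp [E, h]
  · left; rw [E_succ, nxt]; simp [E, beq_false_of_ne h]

theorem acts {s i n : ℕ} (h : i = s.unpair.1) (hn : n < s) (hc : cand s (ST s) i n = true) :
    E (s + 1) i ≠ E s i := by
  cases e : (List.range s).find? (cand s (ST s) i) with
  | none => exact absurd hc (by simpa using List.find?_eq_none.1 e n (List.mem_range.2 hn))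
  | some n => rw [E_succ, nxt, e]; simp [E, h]

theorem E_zero (i : ℕ) : E 0 i = [i] := rfl

theorem Pick.hd {s i n : ℕ} (h : Pick s i n) : hd (s + 1) i = n := by simp [Mad.hd, h.2.2]

theorem inv (s i : ℕ) : (E s i).Nodup ∧ i ∈ E s i ∧ hd s i ∈ E s i ∧
    ∀ n ∈ E s i, i ≤ n ∧ n ≤ hd s i := by
  induction s with
  | zero => simp [E_zero, hd]
  | succ s ih =>
    rcases step s i with h | ⟨n, h⟩
    · simpa only [hd, h] using ih
    · have h1 := (cand_iff.1 h.2.1).1
      have h2 := ih.2.2.2 i ih.2.1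
      rw [h.hd, h.2.2]
      refine ⟨List.nodup_cons.2 ⟨fun h3 => by have := ih.2.2.2 n h3; omega, ih.1⟩,
        List.mem_cons_of_mem _ ih.2.1, List.mem_cons_self, fun m hm => ?_⟩
      rcases List.mem_cons.1 hm with rfl | hm
      · omega
      · have := ih.2.2.2 m hm; omega

theorem mono {s t : ℕ} (h : s ≤ t) (i : ℕ) : (∀ n ∈ E s i, n ∈ E t i) ∧
    (E s i).length ≤ (E t i).length ∧ hd s i ≤ hd t i ∧ ∀ n ∈ E t i, n ≤ hd s i → n ∈ E s i := by
  induction t, h using Nat.le_induction with
  | base => simp +contextual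
  | succ t _ ih =>
    rcases step t i with h | ⟨n, h⟩
    · simpa only [hd, h] using ih
    · have h1 := (cand_iff.1 h.2.1).1
      rw [h.hd, h.2.2]
      refine ⟨fun m hm => List.mem_cons_of_mem _ (ih.1 m hm), by simp; omega, by omega,
        fun m hm h2 => ?_⟩
      rcases List.mem_cons.1 hm with rfl | hm
      · omega
      · exact ih.2.2.2 m hm h2

def X (i : ℕ) : Set ℕ := {n | ∃ s, n ∈ E s i}

theorem mem_X {i s n : ℕ} (h : n ≤ hd s i) : n ∈ X i ↔ n ∈ E s i :=
  ⟨fun ⟨t, ht⟩ => (mono (le_max_left s t) i).2.2.2 n ((mono (le_max_right s t) i).1 n ht) h,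
    fun h => ⟨s, h⟩⟩

theorem X_cases {i n : ℕ} (h : n ∈ X i) : n = i ∨ ∃ s, Pick s i n := by
  obtain ⟨s, hs⟩ := h
  induction s with
  | zero => exact Or.inl (by simpa [E_zero] using hs)
  | succ s ih =>
    rcases step s i with h | ⟨m, h⟩
    · exact ih (h ▸ hs)
    · rw [h.2.2] at hs
      rcases List.mem_cons.1 hs with rfl | hs
      · exact Or.inr ⟨s, h⟩
      · exact ih hs

theorem stab (i : ℕ) : (∃ s, ∀ t, s ≤ t → E t i = E s i) ∨ ∀ B, ∃ s, B < (E s i).length := by
  by_contra hn
  push Not at hn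
  obtain ⟨h1, B, h2⟩ := hn
  have : ∀ k, ∃ s, k ≤ (E s i).length := by
    intro k
    induction k with
    | zero => exact ⟨0, Nat.zero_le _⟩
    | succ k ih =>
      obtain ⟨s, hs⟩ := ih
      obtain ⟨t, h3, h4⟩ := h1 s
      refine ⟨t, ?_⟩
      induction t, h3 using Nat.le_induction with
      | base => exact absurd rfl h4
      | succ t h3 ih =>
        rcases step t i with h | ⟨n, h⟩
        · rw [h] at h4 ⊢; exact ih h4
        · have := (mono h3 i).2.1
          rw [h.2.2]; simp; omega
  obtain ⟨s, hs⟩ := this (B + 1)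
  have := h2 s
  omega

theorem count_E {s i : ℕ} {x : ℕ → Bool} (h : ∀ n ≤ hd s i, x n = decide (n ∈ E s i)) :
    (List.range (hd s i + 1)).countP x = (E s i).length := by
  rw [List.countP_eq_length_filter]
  refine List.Perm.length_eq ((List.perm_ext_iff_of_nodup (List.nodup_range.filter _)
    (inv s i).1).2 fun n => ?_)
  simp only [List.mem_filter, List.mem_range, Nat.lt_succ_iff]
  exact ⟨fun h1 => by simpa [h n h1.1] using h1.2, fun h1 =>
    have := ((inv s i).2.2.2 n h1).2
    ⟨this, by simp [h n this, h1]⟩⟩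

theorem len_le (s i : ℕ) : (E s i).length ≤ hd s i + 1 := by
  rw [← count_E (x := fun n => decide (n ∈ E s i)) fun _ _ => rfl]
  simpa using List.countP_le_length (l := List.range (hd s i + 1))

theorem fin_of_stab {i s : ℕ} (h : ∀ t, s ≤ t → E t i = E s i) : (X i).Finite :=
  (E s i).finite_toSet.subset fun n ⟨t, ht⟩ =>
    h _ (le_max_left s t) ▸ (mono (le_max_right s t) i).1 n ht

theorem unb {i : ℕ} (h : (X i).Infinite) (B : ℕ) : ∃ s, B < (E s i).length :=
  (stab i).resolve_left (fun ⟨_, hs⟩ => h (fin_of_stab hs)) B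

theorem unb' {i : ℕ} (h : (X i).Infinite) (B : ℕ) : ∃ s, B ≤ hd s i := by
  obtain ⟨s, hs⟩ := unb h B
  exact ⟨s, by have := len_le s i; omega⟩

theorem sparse {i n m : ℕ} (hn : n ∈ X i) (hm : m ∈ X i) (h : n < m) : 2 * n < m := by
  rcases X_cases hm with rfl | ⟨s, hs⟩
  · obtain ⟨t, ht⟩ := hn
    have := ((inv t m).2.2.2 n ht).1
    omega
  · have h1 := (mem_X (s := s + 1) (by rw [hs.hd]; omega)).1 hn
    rw [hs.2.2] at h1
    have h2 := ((inv s i).2.2.2 n ((List.mem_cons.1 h1).resolve_left h.ne)).2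
    have := (cand_iff.1 hs.2.1).1
    omega

theorem picks_fin (i j : ℕ) : {n | ∃ s, Pick s i n ∧ (E s i).length ≤ j}.Finite := by
  by_cases h : (X i).Finite
  · exact h.subset fun n ⟨s, hs, _⟩ => ⟨s + 1, by rw [hs.2.2]; exact List.mem_cons_self⟩
  · obtain ⟨t, ht⟩ := unb h j
    refine (E t i).finite_toSet.subset fun n ⟨s, hs, h1⟩ => (mono (s := s + 1) ?_ i).1 n
      (by rw [hs.2.2]; exact List.mem_cons_self)
    by_contra hl
    have := (mono (show t ≤ s by omega) i).2.1
    omega

theorem ad {i j : ℕ} (h : i ≠ j) : (X i ∩ X j).Finite := by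
  refine (((picks_fin i j).union (picks_fin j i)).insert i |>.insert j).subset fun n hn => ?_
  rcases X_cases hn.1 with rfl | ⟨s, hs⟩
  · simp
  rcases X_cases hn.2 with rfl | ⟨t, ht⟩
  · simp
  refine Or.inr (Or.inr ?_)
  rcases lt_trichotomy s t with l | rfl | l
  · refine Or.inr ⟨t, ht, ?_⟩
    by_contra hl
    exact (cand_iff.1 ht.2.1).2.2.1 i (by omega)
      ((mono l i).1 n (by rw [hs.2.2]; exact List.mem_cons_self))
  · exact absurd (hs.1.trans ht.1.symm) h
  · refine Or.inl ⟨s, hs, ?_⟩
    by_contra hl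
    exact (cand_iff.1 hs.2.1).2.2.1 j (by omega)
      ((mono l j).1 n (by rw [ht.2.2]; exact List.mem_cons_self))

theorem maxi {r : ℕ → Bool} (hr : Computable r) (hi : {n | r n = true}.Infinite) :
    ∃ j, (X j ∩ {n | r n = true}).Infinite := by
  by_contra hn
  simp only [not_exists, Set.not_infinite] at hn
  obtain ⟨i, he⟩ := exists_index (CI.toNat (ci_iff.2 hr))
  rcases stab i with ⟨s0, h0⟩ | h0
  · have h1 : ({n | r n = true} \ ((⋃ j ∈ Set.Iio (i + (E s0 i).length), X j ∩ {n | r n = true}) ∪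
        Set.Iic (2 * hd s0 i))).Infinite :=
      hi.diff (((Set.finite_Iio _).biUnion fun j _ => hn j).union (Set.finite_Iic _))
    obtain ⟨n, h2, h3⟩ : ∃ n ∈ ({n | r n = true} \ ((⋃ j ∈ Set.Iio (i + (E s0 i).length),
        X j ∩ {n | r n = true}) ∪ Set.Iic (2 * hd s0 i))),
        ∀ s, ¬ shw ((E s0 i).length + 1).unpair.1 (n :: E s0 i) n s = true := by
      by_contra hc
      push Not at hc
      obtain ⟨a, ha⟩ := h1.nonempty
      obtain ⟨b, hb, hab⟩ := h1.exists_gt a
      obtain ⟨s, hs⟩ := hc a ha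
      obtain ⟨t, ht⟩ := hc b hb
      have := ev_unique (shw_iff.1 hs a le_rfl) (shw_iff.1 ht a hab.le)
      have h4 : a ∉ E s0 i := fun h => by
        have := ((inv s0 i).2.2.2 a h).2
        exact ha.2 (Or.inr (show a ≤ _ by omega))
      simp [hab.ne, h4] at this
    obtain ⟨t, ht⟩ := he n
    have h4 := Nat.right_le_pair i (s0 + t + n + 1)
    have h5 := h0 (Nat.pair i (s0 + t + n + 1)) (by omega)
    refine acts (s := Nat.pair i (s0 + t + n + 1)) (i := i) (n := n) (by simp) (by omega)
      (cand_iff.2 ⟨?_, ?_, fun j hj hc => ?_, ?_⟩) (by rw [h5, h0 _ (by omega)])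
    · rw [hd, h5]; exact not_le.1 fun h => h2.2 (Or.inr h)
    · rw [ev_mono (by omega) ht, show r n = true from h2.1]; rfl
    · rw [h5] at hj
      exact h2.2 (Or.inl (Set.mem_biUnion hj ⟨⟨_, hc⟩, h2.1⟩))
    · rw [h5]; exact h3 _
  · have h1 : (X i).Finite := ((hn i).insert i).subset fun n h => by
      rcases X_cases h with rfl | ⟨s, hs⟩
      · simp
      · obtain ⟨t, ht⟩ := he n
        have := ev_unique ht (cand_iff.1 hs.2.1).2.1
        exact Or.inr ⟨h, by cases e : r n <;> simp_all⟩
    obtain ⟨B, hB⟩ := h1.bddAbove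
    obtain ⟨s, hs⟩ := h0 (B + 1)
    have := hB ⟨s, (inv s i).2.2.1⟩
    have := len_le s i
    omega

/-! ### the class -/

def Mem (x : ℕ → Bool) : Prop := ∀ i, x i = true → (∀ n < i, x n = false) →
  (∀ s, ∀ n ≤ hd s i, x n = decide (n ∈ E s i)) ∧ ∀ m t, x m = true →
    (E t i).length < (List.range (m + 1)).countP x →
    ¬ ∀ n ≤ m, ev ((List.range (m + 1)).countP x).unpair.1 n t = some (x n).toNat

def ok (σ : List Bool) : Bool := (List.range σ.length).all fun i =>
  !σ.getD i false || ((List.range i).any fun n => σ.getD n false) ||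
    (List.range σ.length).all fun s => (List.range σ.length).all fun m =>
      (decide (hd s i < m) || σ.getD m false == (E s i).contains m) &&
      (!σ.getD m false ||
        decide (((List.range (m + 1)).countP fun n => σ.getD n false) ≤ (E s i).length) ||
        (List.range (m + 1)).any fun n =>
          ev ((List.range (m + 1)).countP fun n => σ.getD n false).unpair.1 n s !=
            some (σ.getD n false).toNat)

theorem ci_ok : CI ∅ ok := by unfold ok; fun_prop

theorem ok_pre (x : ℕ → Bool) (k : ℕ) : ok (pre x k) = true ↔ ∀ i < k, x i = true →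
    (∀ n < i, x n = false) → ∀ s < k, ∀ m < k, (m ≤ hd s i → x m = decide (m ∈ E s i)) ∧
      (x m = true → (E s i).length < (List.range (m + 1)).countP x →
      ¬ ∀ n ≤ m, ev ((List.range (m + 1)).countP x).unpair.1 n s = some (x n).toNat) := by
  have e0 : ∀ n < k, (pre x k).getD n false = x n := fun n hn => getD_pre _ hn _
  have e2 : ∀ m < k, ((List.range (m + 1)).countP fun n => (pre x k).getD n false) =
      (List.range (m + 1)).countP x := fun m hm => List.countP_congr fun n hn => by
    rw [e0 n (by have := List.mem_range.1 hn; omega)]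
  simp only [ok, length_pre, List.all_eq_true, List.mem_range, Bool.or_eq_true, Bool.not_eq_true',
    List.any_eq_true, Bool.and_eq_true, decide_eq_true_eq, beq_iff_eq, bne_iff_ne]
  refine forall₂_congr fun i hi => ?_
  rw [e0 i hi]
  constructor
  · rintro ((h | ⟨n, h1, h2⟩) | h) h3 h4 s hs m hm
    · rw [h] at h3; cases h3
    · rw [e0 n (by omega), h4 n h1] at h2; cases h2
    · obtain ⟨h5, h6⟩ := h s hs m hm
      rw [e0 m hm] at h5 h6
      rw [e2 m hm] at h6
      refine ⟨fun h7 => by simpa using h5.resolve_left (by omega), fun h7 h8 h9 => ?_⟩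
      rcases h6 with (h6 | h6) | ⟨n, h10, h11⟩
      · rw [h6] at h7; cases h7
      · omega
      · rw [e0 n (by omega)] at h11
        exact h11 (h9 n (by omega))
  · intro h
    cases h3 : x i
    · exact Or.inl (Or.inl rfl)
    by_cases h4 : ∀ n < i, x n = false
    · refine Or.inr fun s hs m hm => ?_
      obtain ⟨h5, h6⟩ := h h3 h4 s hs m hm
      rw [e0 m hm, e2 m hm]
      refine ⟨(lt_or_ge _ _).imp_right fun h7 => by simpa using h5 h7, ?_⟩
      cases h7 : x m
      · exact Or.inl (Or.inl rfl)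
      refine (le_or_gt _ _).imp Or.inr fun h8 => ?_
      have := h6 h7 h8
      push Not at this
      obtain ⟨n, h9, h10⟩ := this
      exact ⟨n, by omega, by rw [e0 n (by omega)]; exact h10⟩
    · push Not at h4
      obtain ⟨n, h5, h6⟩ := h4
      exact Or.inl (Or.inr ⟨n, h5, by rw [e0 n (by omega)]; simpa using h6⟩)

theorem mem_iff {x : ℕ → Bool} : Mem x ↔ ∀ k, ok (pre x k) = true := by
  simp only [ok_pre]
  exact ⟨fun h k i _ h1 h2 s _ m _ => ⟨(h i h1 h2).1 s m, (h i h1 h2).2 m s⟩,
    fun h i h1 h2 => ⟨fun s m => (h (i + s + m + 1) i (by omega) h1 h2 s (by omega) m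
      (by omega)).1, fun m s => (h (i + s + m + 1) i (by omega) h1 h2 s (by omega) m
      (by omega)).2⟩⟩

open Classical in
noncomputable def chi (i n : ℕ) : Bool := decide (n ∈ X i)

theorem chi_compat (i s : ℕ) : ∀ n ≤ hd s i, chi i n = decide (n ∈ E s i) := fun n hn => by
  simp [chi, mem_X hn]

theorem mem_chi (i : ℕ) : Mem (chi i) := by
  intro j h1 h2
  obtain rfl : j = i := by
    obtain ⟨s, hs⟩ : j ∈ X i := by simpa [chi] using h1
    refine le_antisymm (not_lt.1 fun h => ?_) ((inv s i).2.2.2 j hs).1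
    have := h2 i h
    simp only [chi, decide_eq_false_iff_not] at this
    exact this ⟨0, by simp [E_zero]⟩
  refine ⟨chi_compat j, fun m t h3 h4 h5 => ?_⟩
  rcases X_cases (show m ∈ X j by simpa [chi] using h3) with rfl | ⟨s, hs⟩
  · have := count_E (chi_compat m 0)
    have h6 := (mono (Nat.zero_le t) m).2.1
    change (List.range (m + 1)).countP _ = _ at this
    omega
  · have h6 := count_E (chi_compat j (s + 1))
    rw [hs.hd] at h6
    rw [h6] at h4 h5
    have h7 : t ≤ s := by
      by_contra hl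
      have := (mono (show s + 1 ≤ t by omega) j).2.1
      omega
    refine (cand_iff.1 hs.2.1).2.2.2 (shw_iff.2 fun n hn => ?_)
    have := ev_mono h7 (h5 n hn)
    rwa [chi_compat j (s + 1) n (by rw [hs.hd]; exact hn), hs.2.2] at this

theorem chi_comp {i : ℕ} (h : (X i).Infinite) : Computable (chi i) := by
  obtain ⟨g, hg, H⟩ := CI.exists_choice (O := ∅) (p := fun n s : ℕ => decide (n ≤ hd s i))
    (by fun_prop) fun n => by simpa using unb' h n
  refine CI.computable (CI.of_eq (f := fun n => (E (g n) i).contains n) (by fun_prop) fun n => ?_)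
  rw [chi_compat i (g n) n (by simpa using H n)]; simp

theorem eq_chi {x : ℕ → Bool} (h : Mem x) (hc : Computable x) (hi : {n | x n = true}.Infinite) :
    ∃ i, x = chi i := by
  classical
  obtain ⟨h1, h2⟩ := h (Nat.find hi.nonempty) (Nat.find_spec hi.nonempty) fun n hn => by
    simpa using Nat.find_min hi.nonempty hn
  generalize Nat.find hi.nonempty = i at h1 h2
  refine ⟨i, ?_⟩
  rcases stab i with ⟨s, hs⟩ | hs
  · obtain ⟨j, hj⟩ := exists_index (CI.toNat (ci_iff.2 hc))
    obtain ⟨k, hk⟩ : ∃ k, Nat.pair j ((E s i).length + 1) = k + 1 :=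
      Nat.exists_eq_succ_of_ne_zero (by have := Nat.right_le_pair j ((E s i).length + 1); omega)
    have h3 : (List.range (Nat.nth (fun n => x n = true) k + 1)).countP x = k + 1 := by
      have := Nat.count_nth_succ_of_infinite hi k
      simpa [Nat.count] using this
    have : ∀ᶠ t in atTop, ∀ n ≤ Nat.nth (fun n => x n = true) k, ev j n t = some (x n).toNat := by
      refine (eventually_all_finite (Set.finite_le_nat _)).2 fun n _ => ?_
      obtain ⟨t, ht⟩ := hj n
      exact eventually_atTop.2 ⟨t, fun _ h => ev_mono h ht⟩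
    obtain ⟨t, h4, h5⟩ := (this.and (eventually_ge_atTop s)).exists
    refine absurd ?_ (h2 _ t (Nat.nth_mem_of_infinite hi k) (by
      have := Nat.right_le_pair j ((E s i).length + 1)
      rw [h3, hs t h5]; omega))
    rw [h3, ← hk, Nat.unpair_pair]; exact h4
  · funext n
    obtain ⟨s, h3⟩ := hs n
    have := len_le s i
    rw [h1 s n (by omega), chi_compat i s n (by omega)]

theorem chi_set (i : ℕ) : {n | chi i n = true} = X i := by ext; simp [chi]

theorem maxi' {r : ℕ → Bool} (hr : Computable r) (hi : {n | r n = true}.Infinite) :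
    ∃ x, Mem x ∧ Computable x ∧ {n | x n = true ∧ r n = true}.Infinite := by
  obtain ⟨j, hj⟩ := maxi hr hi
  exact ⟨chi j, mem_chi j, chi_comp (hj.mono Set.inter_subset_left), hj.mono fun n h => ⟨by simpa [chi] using h.1, h.2⟩⟩

theorem ad' {x y : ℕ → Bool} (hx : Mem x) (hy : Mem y) (cx : Computable x) (cy : Computable y)
    (h : x ≠ y) : {n | x n = true ∧ y n = true}.Finite := by
  by_contra hn
  obtain ⟨i, rfl⟩ := eq_chi hx cx (Set.Infinite.mono (fun _ h => h.1) hn)
  obtain ⟨j, rfl⟩ := eq_chi hy cy (Set.Infinite.mono (fun _ h => h.2) hn)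
  exact hn ((ad (i := i) (j := j) fun e => h (e ▸ rfl)).subset fun n h => by simpa [chi] using h)

theorem inf_many : {x | Mem x ∧ Computable x ∧ {n | x n = true}.Infinite}.Infinite := by
  classical
  intro hf
  have h1 : ∀ F : Set (ℕ → Bool), F.Finite → (∀ x ∈ F, Computable x) →
      ∃ r : ℕ → Bool, CI ∅ r ∧ ∀ n, r n = true ↔ ∀ x ∈ F, x n = false := by
    intro F hF
    induction F, hF using Set.Finite.induction_on with
    | empty => exact fun _ => ⟨fun _ => true, by fun_prop, by simp⟩
    | @insert x F _ _ ih =>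
      intro h
      obtain ⟨r, h1, h2⟩ := ih fun y hy => h y (Or.inr hy)
      exact ⟨fun n => !x n && r n, CI.and (ci_iff.2 (h x (Or.inl rfl))).not h1, by simp [h2]⟩
  obtain ⟨r, h2, h3⟩ := h1 _ hf fun x hx => hx.2.1
  have h4 : {n | r n = true}.Infinite := by
    intro h
    obtain ⟨B, hB⟩ := h.bddAbove
    have h5 : ∀ n, B < n → ∃ x ∈ hf.toFinset, x n = true := fun n hn => by
      by_contra hc
      push Not at hc
      exact absurd (hB ((h3 n).2 fun x hx => by simpa using hc x (hf.mem_toFinset.2 hx)))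
        (not_le.2 hn)
    choose! φ hφ using h5
    have h6 : ∀ n m, B < n → n < m → φ n = φ m → 2 * n < m := fun n m a b e => by
      have c := hf.mem_toFinset.1 (hφ n a).1
      obtain ⟨i, hi⟩ := eq_chi c.1 c.2.1 c.2.2
      have d1 := (hφ n a).2
      have d2 := (hφ m (by omega)).2
      rw [← e] at d2
      rw [hi] at d1 d2
      exact sparse (by simpa [chi] using d1) (by simpa [chi] using d2) b
    have := Finset.card_le_card_of_injOn (s := Finset.Icc (B + hf.toFinset.card + 1)
      (2 * (B + hf.toFinset.card + 1))) (t := hf.toFinset) φ (fun n hn => (hφ n (by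
        have := Finset.mem_Icc.1 (Finset.mem_coe.1 hn); omega)).1) fun n hn m hm e => by
        have a := Finset.mem_Icc.1 (Finset.mem_coe.1 hn)
        have b := Finset.mem_Icc.1 (Finset.mem_coe.1 hm)
        rcases lt_trichotomy n m with l | l | l
        · have := h6 n m (by omega) l e; omega
        · exact l
        · have := h6 m n (by omega) l e.symm; omega
    rw [Nat.card_Icc] at this
    omega
  obtain ⟨x, a, b, c⟩ := maxi' h2.computable h4
  obtain ⟨n, d1, d2⟩ := c.nonempty
  have := (h3 n).1 d2 x ⟨a, b, c.mono fun _ h => h.1⟩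
  rw [d1] at this; cases this

theorem main : ∃ T : Set (List Bool), ComputablePred (· ∈ T) ∧
    (∀ σ τ, τ <+: σ → σ ∈ T → τ ∈ T) ∧ ∀ x, (∀ n, (List.range n).map x ∈ T) ↔ Mem x := by
  refine ⟨{σ | ∀ j ≤ σ.length, ok (σ.take j) = true}, computablePred_of
    (fun σ => (List.range (σ.length + 1)).all fun j => ok (σ.take j)) (CI.all (by fun_prop)
      (ci_ok.comp (g := fun q : List Bool × ℕ => q.1.take q.2) (by fun_prop)))
    (by simp [Nat.lt_succ_iff]), ?_, fun x => ?_⟩
  · rintro _ τ ⟨ρ, rfl⟩ h j hj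
    have := h j (by simp; omega)
    rwa [List.take_append_of_le_length hj] at this
  · rw [mem_iff]
    change (∀ n, ∀ j ≤ (pre x n).length, ok ((pre x n).take j) = true) ↔ _
    simp only [length_pre]
    exact ⟨fun h k => by simpa [take_pre x le_rfl] using h k k le_rfl,
      fun h n j hj => by rw [take_pre x hj]; exact h j⟩

end Pool.Agent.H62.Mad
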