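import Mathlib

set_option autoImplicit false

namespace Pool.Agent.H62.Milj
open Filter Topology

section abs
variable {X Y : Type*} [NormedAddCommGroup X] [NormedSpace ℝ X] [CompleteSpace X]
  [NormedAddCommGroup Y] [NormedSpace ℝ Y] [CompleteSpace Y]

lemma bij_one_add (C : Y →L[ℝ] Y) (t : ℝ) (ht : 0 ≤ t) (h : t * ‖C‖ < 1) :
    Function.Bijective (fun y => y + t • C y) := by
  have h1 : ‖-(t • C)‖ < 1 := by
    rw [norm_neg, norm_smul, Real.norm_eq_abs, abs_of_nonneg ht]; exact h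
  have h2 : IsUnit (1 - -(t • C)) := (Units.oneSub _ h1).isUnit
  rw [ContinuousLinearMap.isUnit_iff_bijective] at h2
  convert h2 using 1
  funext y
  simp

lemma exists_equiv (ρ0 ρ1 ι0 ι1 P : Y →L[ℝ] Y) (j r : X →L[ℝ] Y) (u E : Y →L[ℝ] X)
    (h00 : ∀ g, ρ0 (ι0 g) = g) (h11 : ∀ g, ρ1 (ι1 g) = g) (h01 : ∀ g, ρ0 (ι1 g) = 0)
    (h10 : ∀ g, ρ1 (ι0 g) = 0) (hsum : ∀ g, ι0 (ρ0 g) + ι1 (ρ1 g) = g)
    (huj : ∀ x, u (j x) = x) (hrE : ∀ g, r (E g) = g)
    (hP : ∀ g, P g = ι0 (P (ρ0 g)) + ι1 (j (u (ρ1 g)))) (hPP : ∀ g, P (P g) = P g) :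
    ∃ l : ℝ, 0 < l ∧ ∃ T : X ≃L[ℝ] Y, ∀ x, T x = l • ρ1 (r x) +
      l • (ι0 (P (l • ρ1 (r x))) + ι1 (j (x + l • E (ρ0 (r x))))) := by
  set C1 : X × Y →L[ℝ] X × Y :=
    (E.comp ((ι0.comp (r.comp (ContinuousLinearMap.fst ℝ X Y))) +
      ι1.comp (ContinuousLinearMap.snd ℝ X Y))).prod 0 with hC1
  set C2 : Y →L[ℝ] Y := P.comp ρ0 with hC2
  set l : ℝ := ‖C1‖ + ‖C2‖ + 1 with hl
  have hl0 : 0 < l := by positivity
  have hn1 := norm_nonneg C1
  have hn2 := norm_nonneg C2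
  have ht : 0 ≤ l⁻¹ := by positivity
  have b1 := bij_one_add C1 l⁻¹ ht (by rw [inv_mul_lt_iff₀ hl0]; linarith)
  have b2 := bij_one_add C2 l⁻¹ ht (by rw [inv_mul_lt_iff₀ hl0]; linarith)
  have hρ0P : ∀ g, ρ0 (P g) = P (ρ0 g) := by
    intro g; rw [hP g, map_add, h00, h01, add_zero]
  have hρ1P : ∀ g, ρ1 (P g) = j (u (ρ1 g)) := by
    intro g; rw [hP g, map_add, h10, h11, zero_add]
  have hPW : ∀ g h, P (ι0 (P g) + ι1 (j h)) = ι0 (P g) + ι1 (j h) := by
    intro g h
    rw [hP, map_add ρ0, map_add ρ1, h00, h01, h10, h11, add_zero, zero_add, hPP, huj]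
  have hll : l * l⁻¹ = 1 := mul_inv_cancel₀ hl0.ne'
  have hll' : l⁻¹ * l = 1 := inv_mul_cancel₀ hl0.ne'
  let A1 : X → X × Y := fun x => (x - E (r x) + l • E (ρ0 (r x)), l • ρ1 (r x))
  let A1' : X × Y → X := fun p => p.1 - E (r p.1) + l⁻¹ • E (ι0 (r p.1) + ι1 p.2)
  have a1 : Function.Bijective A1 := by
    refine Function.bijective_iff_has_inverse.2 ⟨A1', ?_, ?_⟩
    · intro x
      simp only [A1, A1', map_add, map_sub, map_smul, hrE, sub_self, zero_add]
      have := congrArg E (hsum (r x))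
      rw [map_add] at this
      rw [← smul_add, this, smul_smul, hll', one_smul]
      abel
    · rintro ⟨h, g⟩
      simp only [A1, A1', map_add, map_sub, map_smul, hrE, sub_self, zero_add, h00, h01, h10, h11,
        map_zero, add_zero, smul_smul, hll, one_smul, Prod.mk.injEq, and_true]
      abel
  let A2 : X × Y → Y := fun p => p.2 - P p.2 + l • (ι0 (P p.2) + ι1 (j p.1))
  let A2' : Y → X × Y := fun G => (l⁻¹ • u (ρ1 G), G - P G + l⁻¹ • P (ρ0 G))
  have a2 : Function.Bijective A2 := by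
    refine Function.bijective_iff_has_inverse.2 ⟨A2', ?_, ?_⟩
    · rintro ⟨h, g⟩
      simp only [A2, A2', map_add (f := P) (g - P g), map_smul, hPW, map_sub, hPP]
      simp only [map_add, map_sub, map_smul, hρ0P, hρ1P, huj, h00, h01, h10, h11, hPP, sub_self,
        zero_add, add_zero, smul_smul, hll', one_smul, Prod.mk.injEq, true_and]
      abel
    · intro G
      simp only [A2, A2', map_add, map_sub, map_smul, hPP, sub_self, zero_add]
      rw [← smul_add, smul_smul, hll, one_smul, ← hP]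
      abel
  let T1 : X →L[ℝ] X × Y :=
    (ContinuousLinearMap.id ℝ X + l • E.comp (ρ0.comp r)).prod (l • ρ1.comp r)
  let T2 : X × Y →L[ℝ] Y := ContinuousLinearMap.snd ℝ X Y +
    l • (ι0.comp (P.comp (ContinuousLinearMap.snd ℝ X Y)) +
      ι1.comp (j.comp (ContinuousLinearMap.fst ℝ X Y)))
  have t1 : Function.Bijective T1 := by
    convert b1.comp a1 using 1
    funext x
    have := congrArg E (hsum (r x))
    rw [map_add] at this
    simp only [T1, A1, hC1, Function.comp]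
    ext
    · simp only [ContinuousLinearMap.prod_apply, add_apply,
        ContinuousLinearMap.id_apply, smul_apply,
        ContinuousLinearMap.comp_apply, Prod.fst_add, Prod.smul_fst,
        ContinuousLinearMap.coe_fst', ContinuousLinearMap.coe_snd', map_add, map_sub, map_smul,
        hrE, sub_self, zero_add]
      rw [← smul_add, this, smul_smul, hll', one_smul]
      abel
    · simp
  have t2 : Function.Bijective T2 := by
    convert b2.comp a2 using 1
    funext p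
    simp only [T2, A2, hC2, Function.comp, add_apply,
        smul_apply,
        ContinuousLinearMap.comp_apply,
        ContinuousLinearMap.coe_fst', ContinuousLinearMap.coe_snd', map_add, map_sub, map_smul,
        hρ0P, h00, h01, hPP, sub_self, zero_add, map_zero, add_zero, smul_smul, hll', one_smul]
    abel
  have t : Function.Bijective (T2.comp T1) := t2.comp t1
  refine ⟨l, hl0, ContinuousLinearEquiv.ofBijective (T2.comp T1)
    (LinearMap.ker_eq_bot.2 t.1) (LinearMap.range_eq_top.2 t.2), ?_⟩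
  intro x
  simp [T1, T2]

end abs

section scale
variable {K L : Type*} [TopologicalSpace K] [CompactSpace K] [TopologicalSpace L] [CompactSpace L]

structure Scale (K : Type*) [TopologicalSpace K] where
  R : ℕ → K → K → Prop
  τ0 : C(K, K)
  τ1 : C(K, K)
  k0 : K
  zero : ∀ x y, R 0 x y
  s0 : ∀ n x y, R n x y → R (n + 1) (τ0 x) (τ0 y)
  s1 : ∀ n x y, R n x y → R (n + 1) (τ1 x) (τ1 y)
  closed : ∀ n, IsClosed {p : K × K | R n p.1 p.2}
  anti : ∀ n x y, R (n + 1) x y → R n x y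
  diag : ∀ x y, (∀ n, R n x y) → x = y

lemma Scale.uc (s : Scale K) (f : C(K, ℝ)) {ε : ℝ} (hε : 0 < ε) :
    ∃ n, ∀ x y, s.R n x y → |f x - f y| ≤ ε := by
  by_contra hc
  push Not at hc
  let F : ℕ → Set (K × K) := fun n => {p | s.R n p.1 p.2} ∩ {p | ε ≤ |f p.1 - f p.2|}
  have hcl : ∀ n, IsClosed (F n) := fun n =>
    (s.closed n).inter (isClosed_le continuous_const (by fun_prop))
  obtain ⟨p, hp⟩ := IsCompact.nonempty_iInter_of_sequence_nonempty_isCompact_isClosed F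
    (fun n p hp => ⟨s.anti n _ _ hp.1, hp.2⟩)
    (fun n => by
      obtain ⟨x, y, h1, h2⟩ := hc n
      exact ⟨(x, y), h1, h2.le⟩)
    (hcl 0).isCompact hcl
  rw [Set.mem_iInter] at hp
  have h1 : p.1 = p.2 := s.diag _ _ fun n => (hp n).1
  have h2 : ε ≤ |f p.1 - f p.2| := (hp 0).2
  rw [h1, sub_self, abs_zero] at h2
  linarith

/-- composition operator -/
noncomputable abbrev cmp {A B : Type*} [TopologicalSpace A] [TopologicalSpace B] (τ : C(A, B)) :
    C(B, ℝ) →L[ℝ] C(A, ℝ) := ContinuousMap.compCLM ℝ ℝ τ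

lemma Scale.vanish (s : Scale K) {W : Type*} [NormedAddCommGroup W] [NormedSpace ℝ W]
    (D : C(K, ℝ) →L[ℝ] W) (h1 : D 1 = 0)
    (hD : ∀ f, ‖D f‖ ≤ max ‖D (f.comp s.τ0)‖ ‖D (f.comp s.τ1)‖) (f : C(K, ℝ)) : D f = 0 := by
  have key : ∀ ε : ℝ, 0 ≤ ε → ∀ n, ∀ f : C(K, ℝ), (∀ x y, s.R n x y → |f x - f y| ≤ ε) →
      ‖D f‖ ≤ ‖D‖ * ε := by
    intro ε hε n
    induction n with
    | zero =>
      intro f hf
      have e : D f = D (f - f s.k0 • 1) := by rw [map_sub, map_smul, h1]; simp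
      rw [e]
      refine (D.le_opNorm _).trans (mul_le_mul_of_nonneg_left ?_ (norm_nonneg _))
      rw [ContinuousMap.norm_le _ hε]
      intro x
      simpa using hf x s.k0 (s.zero _ _)
    | succ n ih =>
      intro f hf
      refine (hD f).trans (max_le (ih _ ?_) (ih _ ?_))
      · intro x y h; exact hf _ _ (s.s0 n x y h)
      · intro x y h; exact hf _ _ (s.s1 n x y h)
  rw [← norm_le_zero_iff]
  refine le_of_forall_pos_le_add fun δ hδ => ?_
  have hp : 0 < δ / (‖D‖ + 1) := by positivity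
  obtain ⟨n, hn⟩ := s.uc f hp
  refine (key _ hp.le n f hn).trans ?_
  rw [zero_add, mul_div_assoc', div_le_iff₀ (by positivity)]
  nlinarith [norm_nonneg D]

/-- positivity -/
def IsPos (S : C(K, ℝ) →L[ℝ] C(L, ℝ)) : Prop := ∀ f : C(K, ℝ), (∀ x, 0 ≤ f x) → ∀ y, 0 ≤ S f y

omit [CompactSpace K] [CompactSpace L] in
lemma IsPos.bd {S : C(K, ℝ) →L[ℝ] C(L, ℝ)} (h : IsPos S) (f : C(K, ℝ)) (c ε : ℝ)
    (hf : ∀ x, |f x - c| ≤ ε) (y : L) : |S f y - c * S 1 y| ≤ ε * S 1 y := by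
  have a := h (f - c • 1 + ε • 1) (fun x => by
    have := abs_le.1 (hf x); simp; linarith [this.1]) y
  have b := h (ε • 1 - (f - c • 1)) (fun x => by
    have := abs_le.1 (hf x); simp; linarith [this.2]) y
  simp only [map_add, map_sub, map_smul, ContinuousMap.add_apply, ContinuousMap.sub_apply,
    ContinuousMap.smul_apply, smul_eq_mul] at a b
  rw [abs_le]
  constructor <;> linarith

lemma Scale.fix (s : Scale K) (G0 G1 : C(L, ℝ) →L[ℝ] C(L, ℝ)) (H : C(K, ℝ) →L[ℝ] C(L, ℝ))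
    (p0 : IsPos G0) (p1 : IsPos G1) (pH : IsPos H) (hu : G0 1 + G1 1 + H 1 = 1) :
    ∃ S : C(K, ℝ) →L[ℝ] C(L, ℝ), IsPos S ∧ S 1 = 1 ∧
      ∀ f, S f = G0 (S (f.comp s.τ0)) + G1 (S (f.comp s.τ1)) + H f := by
  let S : ℕ → C(K, ℝ) →L[ℝ] C(L, ℝ) := fun n => Nat.rec
    (cmp (ContinuousMap.const L s.k0))
    (fun _ T => G0.comp (T.comp (cmp s.τ0)) + G1.comp (T.comp (cmp s.τ1)) + H) n
  have S0 : ∀ f y, S 0 f y = f s.k0 := fun f y => rfl
  have Ss : ∀ n f, S (n + 1) f = G0 (S n (f.comp s.τ0)) + G1 (S n (f.comp s.τ1)) + H f :=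
    fun n f => rfl
  have Sp : ∀ n, IsPos (S n) := by
    intro n
    induction n with
    | zero => intro f hf y; exact hf _
    | succ n ih =>
      intro f hf y
      rw [Ss]
      simp only [ContinuousMap.add_apply]
      have a := p0 _ (ih (f.comp s.τ0) fun x => hf _) y
      have b := p1 _ (ih (f.comp s.τ1) fun x => hf _) y
      have c := pH f hf y
      linarith
  have S1 : ∀ n, S n 1 = 1 := by
    intro n
    induction n with
    | zero => ext y; exact S0 1 y
    | succ n ih =>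
      rw [Ss, ContinuousMap.one_comp, ContinuousMap.one_comp, ih, hu]
  have hb : ∀ n f c ε, (∀ x, |f x - c| ≤ ε) → ∀ y, |S n f y - c| ≤ ε := by
    intro n f c ε hf y
    have := (Sp n).bd f c ε hf y
    rw [S1] at this
    simpa using this
  have key : ∀ ε : ℝ, 0 ≤ ε → ∀ n, ∀ f : C(K, ℝ), (∀ x y, s.R n x y → |f x - f y| ≤ ε) →
      ∀ k l y, |S (k + n) f y - S (l + n) f y| ≤ 2 * ε := by
    intro ε hε n
    induction n with
    | zero =>
      intro f hf k l y
      have a := abs_le.1 (hb k f (f s.k0) ε (fun x => hf _ _ (s.zero _ _)) y)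
      have b := abs_le.1 (hb l f (f s.k0) ε (fun x => hf _ _ (s.zero _ _)) y)
      rw [abs_le]
      simp only [add_zero]
      constructor <;> linarith [a.1, a.2, b.1, b.2]
    | succ n ih =>
      intro f hf k l y
      rw [← add_assoc, ← add_assoc, Ss, Ss]
      have a := p0.bd (S (k + n) (f.comp s.τ0) - S (l + n) (f.comp s.τ0)) 0 (2 * ε)
        (fun x => by
          simpa using ih (f.comp s.τ0) (fun x y h => hf _ _ (s.s0 n x y h)) k l x) y
      have b := p1.bd (S (k + n) (f.comp s.τ1) - S (l + n) (f.comp s.τ1)) 0 (2 * ε)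
        (fun x => by
          simpa using ih (f.comp s.τ1) (fun x y h => hf _ _ (s.s1 n x y h)) k l x) y
      have c := pH 1 (fun x => by simp) y
      have d := congrArg (fun g : C(L, ℝ) => g y) hu
      simp only [map_sub, ContinuousMap.add_apply, ContinuousMap.sub_apply,
        ContinuousMap.one_apply, zero_mul, sub_zero] at a b d ⊢
      rw [abs_le] at a b ⊢
      constructor <;> nlinarith [a.1, a.2, b.1, b.2]
  have cau : ∀ f, CauchySeq (fun n => S n f) := by
    intro f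
    rw [Metric.cauchySeq_iff']
    intro ε hε
    obtain ⟨n, hn⟩ := s.uc f (show 0 < ε / 3 by positivity)
    refine ⟨n, fun m hm => ?_⟩
    obtain ⟨k, rfl⟩ := Nat.exists_eq_add_of_le' hm
    refine lt_of_le_of_lt (b := 2 * (ε / 3)) ?_ (by linarith)
    rw [ContinuousMap.dist_le (by positivity)]
    intro y
    have := key _ (by positivity) n f hn k 0 y
    rw [zero_add] at this
    rw [Real.dist_eq]
    exact this
  choose lim hlim using fun f => cauchySeq_tendsto_of_complete (cau f)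
  have hlim' : Tendsto (fun n f => S n f) atTop (𝓝 lim) := tendsto_pi_nhds.2 hlim
  let T : C(K, ℝ) →L[ℝ] C(L, ℝ) := continuousLinearMapOfTendsto S hlim'
  have hT : ∀ f, T f = lim f := fun f => rfl
  refine ⟨T, ?_, ?_, ?_⟩
  · intro f hf y
    rw [hT]
    exact ge_of_tendsto' (((continuous_eval_const y).tendsto _).comp (hlim f))
      fun n => Sp n f hf y
  · rw [hT]
    have := hlim 1
    simp only [S1] at this
    exact tendsto_nhds_unique this tendsto_const_nhds
  · intro f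
    simp only [hT]
    have a := (tendsto_add_atTop_iff_nat 1).2 (hlim f)
    simp only [Ss] at a
    exact tendsto_nhds_unique a ((((G0.continuous.tendsto _).comp (hlim _)).add
      ((G1.continuous.tendsto _).comp (hlim _))).add tendsto_const_nhds)

end scale

section conc
open unitInterval

abbrev Δ := ℕ → Bool

def cons (b : Bool) : C(Δ, Δ) :=
  ⟨fun ω n => Nat.casesOn n b ω, continuous_pi fun n => by
    cases n with
    | zero => exact continuous_const
    | succ n => exact continuous_apply n⟩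

def tail : C(Δ, Δ) := ⟨fun ω n => ω (n + 1), continuous_pi fun n => continuous_apply (n + 1)⟩

noncomputable def chi (b : Bool) : C(Δ, ℝ) :=
  ⟨fun ω => if ω 0 = b then 1 else 0,
    (continuous_of_discreteTopology (f := fun c : Bool => if c = b then (1 : ℝ) else 0)).comp
      (continuous_apply 0)⟩

/-- weighted composition operator -/
noncomputable def wc {A B : Type*} [TopologicalSpace A] [CompactSpace A] [TopologicalSpace B]
    [CompactSpace B] (m : C(A, ℝ)) (ψ : C(A, B)) : C(B, ℝ) →L[ℝ] C(A, ℝ) :=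
  (ContinuousLinearMap.mul ℝ C(A, ℝ) m).comp (cmp ψ)

lemma wc_apply {A B : Type*} [TopologicalSpace A] [CompactSpace A] [TopologicalSpace B]
    [CompactSpace B] (m : C(A, ℝ)) (ψ : C(A, B)) (f : C(B, ℝ)) (x : A) :
    wc m ψ f x = m x * f (ψ x) := rfl

lemma wc_pos {A B : Type*} [TopologicalSpace A] [CompactSpace A] [TopologicalSpace B]
    [CompactSpace B] (m : C(A, ℝ)) (ψ : C(A, B)) (hm : ∀ x, 0 ≤ m x) : IsPos (wc m ψ) :=
  fun _ hf x => mul_nonneg (hm x) (hf _)

lemma chi_nonneg (b : Bool) (ω : Δ) : 0 ≤ chi b ω := by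
  show 0 ≤ (if ω 0 = b then (1 : ℝ) else 0)
  split_ifs <;> norm_num

noncomputable def io (b : Bool) : C(Δ, ℝ) →L[ℝ] C(Δ, ℝ) := wc (chi b) tail

noncomputable def ro (b : Bool) : C(Δ, ℝ) →L[ℝ] C(Δ, ℝ) := cmp (cons b)

lemma ro_apply (b : Bool) (g : C(Δ, ℝ)) : ro b g = g.comp (cons b) := rfl

lemma tail_cons (b : Bool) (ω : Δ) : tail (cons b ω) = ω := rfl

lemma cons_tail (ω : Δ) : cons (ω 0) (tail ω) = ω := by
  funext n; cases n <;> rfl

lemma io_cons (b c : Bool) (g : C(Δ, ℝ)) (ω : Δ) :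
    io b g (cons c ω) = if c = b then g ω else 0 := by
  show (if c = b then (1 : ℝ) else 0) * g ω = _
  split_ifs <;> simp

lemma ro_io (b c : Bool) (g : C(Δ, ℝ)) : ro c (io b g) = if c = b then g else 0 := by
  ext ω
  show io b g (cons c ω) = _
  rw [io_cons]
  split_ifs <;> rfl

lemma ext_ro {g h : C(Δ, ℝ)} (h0 : ro false g = ro false h) (h1 : ro true g = ro true h) :
    g = h := by
  ext ω
  rw [← cons_tail ω]
  cases ω 0
  · exact congrArg (fun f : C(Δ, ℝ) => f (tail ω)) h0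
  · exact congrArg (fun f : C(Δ, ℝ) => f (tail ω)) h1

lemma io_sum (g : C(Δ, ℝ)) : io false (ro false g) + io true (ro true g) = g := by
  apply ext_ro <;> simp [ro_io]

lemma norm_le_ro (g : C(Δ, ℝ)) : ‖g‖ ≤ max ‖ro false g‖ ‖ro true g‖ := by
  rw [ContinuousMap.norm_le _ (by positivity)]
  intro ω
  rw [← cons_tail ω]
  cases ω 0
  · exact ((ro false g).norm_coe_le_norm (tail ω)).trans (le_max_left _ _)
  · exact ((ro true g).norm_coe_le_norm (tail ω)).trans (le_max_right _ _)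

def sΔ : Scale Δ where
  R n x y := ∀ i < n, x i = y i
  τ0 := cons false
  τ1 := cons true
  k0 := fun _ => false
  zero x y i hi := absurd hi (Nat.not_lt_zero i)
  s0 n x y h i hi := by
    cases i with
    | zero => rfl
    | succ i => exact h i (by omega)
  s1 n x y h i hi := by
    cases i with
    | zero => rfl
    | succ i => exact h i (by omega)
  closed n := by
    simp only [Set.ofPred_forall]
    refine isClosed_iInter fun i => isClosed_iInter fun _ => isClosed_eq ?_ ?_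
    · exact (continuous_apply i).comp continuous_fst
    · exact (continuous_apply i).comp continuous_snd
  anti n x y h i hi := h i (by omega)
  diag x y h := funext fun i => h (i + 1) i (by omega)

noncomputable def cl (F : ℝ → ℝ) (hF : Continuous F) : C(I, I) :=
  ⟨fun x => Set.projIcc 0 1 zero_le_one (F x),
    continuous_projIcc.comp (hF.comp continuous_subtype_val)⟩

lemma cl_val (F : ℝ → ℝ) (hF : Continuous F) (x : I) :
    (cl F hF x : ℝ) = max 0 (min 1 (F x)) := rfl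

lemma cl_of_mem (F : ℝ → ℝ) (hF : Continuous F) (x : I) (h0 : 0 ≤ F x) (h1 : F x ≤ 1) :
    (cl F hF x : ℝ) = F x := by
  rw [cl_val, min_eq_right h1, max_eq_right h0]

noncomputable def φ (a θ : ℝ) : C(I, I) := cl (fun x => a + θ * x) (by fun_prop)

noncomputable def ψ (a θ : ℝ) : C(I, I) := cl (fun x => (x - a) / θ) (by fun_prop)

lemma φ_val {a θ : ℝ} (ha : 0 ≤ a) (hθ : 0 ≤ θ) (h : a + θ ≤ 1) (x : I) :
    (φ a θ x : ℝ) = a + θ * x := by
  have := x.2.1
  have := x.2.2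
  exact cl_of_mem _ _ x (by positivity) (by nlinarith)

lemma ψ_φ {a θ : ℝ} (ha : 0 ≤ a) (hθ : 0 < θ) (h : a + θ ≤ 1) (x : I) :
    ψ a θ (φ a θ x) = x := by
  have e : ((φ a θ x : ℝ) - a) / θ = x := by
    rw [φ_val ha hθ.le h]; field_simp; ring
  apply Subtype.ext
  rw [ψ, cl_of_mem _ _ _ (by simp only [e]; exact x.2.1) (by simp only [e]; exact x.2.2)]
  exact e

lemma φ_ψ {a θ : ℝ} (ha : 0 ≤ a) (hθ : 0 < θ) (h : a + θ ≤ 1) (x : I) (h0 : a ≤ x)
    (h1 : (x : ℝ) ≤ a + θ) : φ a θ (ψ a θ x) = x := by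
  apply Subtype.ext
  have e : (ψ a θ x : ℝ) = (x - a) / θ :=
    cl_of_mem (fun x => (x - a) / θ) _ x (div_nonneg (by linarith) hθ.le)
      (by rw [div_le_one hθ]; linarith)
  rw [φ_val ha hθ.le h, e]
  field_simp; ring

noncomputable def sI (θ : ℝ) (h0 : 0 < θ) (h1 : θ < 1) : Scale I where
  R n x y := |(x : ℝ) - y| ≤ θ ^ n
  τ0 := φ 0 θ
  τ1 := φ (1 - θ) θ
  k0 := 0
  zero x y := by
    rw [pow_zero, abs_le]
    constructor <;> linarith [x.2.1, x.2.2, y.2.1, y.2.2]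
  s0 n x y h := by
    rw [φ_val le_rfl h0.le (by linarith), φ_val le_rfl h0.le (by linarith),
      show 0 + θ * x - (0 + θ * y) = θ * (x - y) by ring, abs_mul, abs_of_pos h0, pow_succ']
    exact mul_le_mul_of_nonneg_left h h0.le
  s1 n x y h := by
    rw [φ_val (by linarith) h0.le (by linarith), φ_val (by linarith) h0.le (by linarith),
      show 1 - θ + θ * x - (1 - θ + θ * y) = θ * (x - y) by ring, abs_mul, abs_of_pos h0,
      pow_succ']
    exact mul_le_mul_of_nonneg_left h h0.le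
  closed n := isClosed_le (by fun_prop) continuous_const
  anti n x y h := h.trans (pow_le_pow_of_le_one h0.le h1.le (Nat.le_succ n))
  diag x y h := by
    have := ge_of_tendsto' (tendsto_pow_atTop_nhds_zero_of_lt_one h0.le h1) h
    exact Subtype.ext (sub_eq_zero.1 (abs_nonpos_iff.1 this))

noncomputable def m1 : C(I, ℝ) := ⟨fun x => max 0 (min 1 (3 * x - 1)), by fun_prop⟩

noncomputable def m0 : C(I, ℝ) := 1 - m1

lemma m1_nonneg (x : I) : 0 ≤ m1 x := le_max_left _ _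

lemma m1_le (x : I) : m1 x ≤ 1 := max_le zero_le_one (min_le_left _ _)

lemma m0_apply (x : I) : m0 x = 1 - m1 x := rfl

lemma m1_lo (x : I) (h : (x : ℝ) ≤ 1 / 3) : m1 x = 0 :=
  max_eq_left ((min_le_right _ _).trans (by linarith))

lemma m1_hi (x : I) (h : 2 / 3 ≤ (x : ℝ)) : m1 x = 1 := by
  show max 0 (min 1 (3 * (x : ℝ) - 1)) = 1
  rw [min_eq_left (by linarith), max_eq_right zero_le_one]

lemma io_pos (b : Bool) : IsPos (io b) := wc_pos _ _ (chi_nonneg b)

lemma ro_pos (b : Bool) : IsPos (ro b) := fun _ hf _ => hf _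

lemma ro_one (b : Bool) : ro b 1 = 1 := rfl

lemma zero_pos {K L : Type*} [TopologicalSpace K] [TopologicalSpace L] :
    IsPos (0 : C(K, ℝ) →L[ℝ] C(L, ℝ)) := fun _ _ _ => le_rfl

lemma exists_J (θ : ℝ) (h0 : 0 < θ) (h1 : θ < 1) :
    ∃ J : C(I, ℝ) →L[ℝ] C(Δ, ℝ), IsPos J ∧ J 1 = 1 ∧
      (∀ f, ro false (J f) = J (f.comp (φ 0 θ))) ∧
      (∀ f, ro true (J f) = J (f.comp (φ (1 - θ) θ))) := by
  obtain ⟨J, a, b, c⟩ := (sI θ h0 h1).fix (io false) (io true) 0 (io_pos _) (io_pos _) zero_pos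
    (by have := io_sum 1; rw [ro_one, ro_one] at this; simpa using this)
  refine ⟨J, a, b, fun f => ?_, fun f => ?_⟩
  · rw [c f]; simp [ro_io, sI]
  · rw [c f]; simp [ro_io, sI]

lemma exists_S (θ : ℝ) :
    ∃ S : C(Δ, ℝ) →L[ℝ] C(I, ℝ), IsPos S ∧ S 1 = 1 ∧
      ∀ g x, S g x = (1 - m1 x) * S (ro false g) (ψ 0 θ x) +
        m1 x * S (ro true g) (ψ (1 - θ) θ x) := by
  obtain ⟨S, a, b, c⟩ := sΔ.fix (wc m0 (ψ 0 θ)) (wc m1 (ψ (1 - θ) θ)) 0
    (wc_pos _ _ fun x => by rw [m0_apply]; linarith [m1_le x]) (wc_pos _ _ m1_nonneg) zero_pos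
    (by ext x; simp [wc_apply, m0_apply])
  refine ⟨S, a, b, fun g x => ?_⟩
  rw [c g]
  simp only [ContinuousMap.add_apply, wc_apply, m0_apply]
  simp [sΔ, ro_apply]

lemma exists_uj : ∃ (j : C(I, ℝ) →L[ℝ] C(Δ, ℝ)) (u : C(Δ, ℝ) →L[ℝ] C(I, ℝ)),
    IsPos j ∧ IsPos u ∧ j 1 = 1 ∧ u 1 = 1 ∧ ∀ f, u (j f) = f := by
  obtain ⟨j, jp, j1, j0', j1'⟩ := exists_J (2 / 3) (by norm_num) (by norm_num)
  obtain ⟨u, up, u1, hu⟩ := exists_S (2 / 3)
  refine ⟨j, u, jp, up, j1, u1, fun f => ?_⟩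
  have := (sI (2 / 3) (by norm_num) (by norm_num)).vanish
    (u.comp j - ContinuousLinearMap.id ℝ _) (by simp [j1, u1]) ?_ f
  · simpa [sub_eq_zero] using this
  intro f
  set D := u.comp j - ContinuousLinearMap.id ℝ C(I, ℝ) with hD
  have hDa : ∀ f x, D f x = u (j f) x - f x := fun f x => rfl
  rw [ContinuousMap.norm_le _ (by positivity)]
  intro x
  have e : D f x = (1 - m1 x) * D (f.comp (φ 0 (2 / 3))) (ψ 0 (2 / 3) x) +
      m1 x * D (f.comp (φ (1 - 2 / 3) (2 / 3))) (ψ (1 - 2 / 3) (2 / 3) x) := by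
    rw [hDa, hDa, hDa, hu, j0', j1']
    simp only [ContinuousMap.comp_apply]
    by_cases a : (x : ℝ) ≤ 1 / 3
    · rw [m1_lo x a, φ_ψ le_rfl (by norm_num) (by norm_num) x x.2.1 (by linarith)]
      ring
    by_cases b : 2 / 3 ≤ (x : ℝ)
    · rw [m1_hi x b, φ_ψ (a := 1 - 2 / 3) (by norm_num) (by norm_num) (by norm_num) x
        (by linarith) (by linarith [x.2.2])]
      ring
    · rw [φ_ψ le_rfl (by norm_num) (by norm_num) x x.2.1 (by linarith),
        φ_ψ (a := 1 - 2 / 3) (by norm_num) (by norm_num) (by norm_num) x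
        (by linarith) (by linarith [x.2.2])]
      ring
  rw [e]
  have a := ((D (f.comp (φ 0 (2 / 3)))).norm_coe_le_norm (ψ 0 (2 / 3) x)).trans
    (le_max_left _ ‖D (f.comp (φ (1 - 2 / 3) (2 / 3)))‖)
  have b := ((D (f.comp (φ (1 - 2 / 3) (2 / 3)))).norm_coe_le_norm
    (ψ (1 - 2 / 3) (2 / 3) x)).trans (le_max_right ‖D (f.comp (φ 0 (2 / 3)))‖ _)
  have c := m1_nonneg x
  have d := m1_le x
  show _ ≤ max ‖D (f.comp (φ 0 (2 / 3)))‖ ‖D (f.comp (φ (1 - 2 / 3) (2 / 3)))‖
  rw [Real.norm_eq_abs, abs_le] at a b ⊢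
  constructor <;> nlinarith [a.1, a.2, b.1, b.2]

lemma exists_rE : ∃ (r : C(I, ℝ) →L[ℝ] C(Δ, ℝ)) (E : C(Δ, ℝ) →L[ℝ] C(I, ℝ)),
    IsPos r ∧ IsPos E ∧ ∀ g, r (E g) = g := by
  obtain ⟨r, rp, r1, r0', r1'⟩ := exists_J (1 / 3) (by norm_num) (by norm_num)
  obtain ⟨E, Ep, E1, hE⟩ := exists_S (1 / 3)
  refine ⟨r, E, rp, Ep, fun g => ?_⟩
  have e0 : ∀ g, (E g).comp (φ 0 (1 / 3)) = E (ro false g) := by
    intro g
    ext x
    have hx : (φ 0 (1 / 3) x : ℝ) ≤ 1 / 3 := by
      rw [φ_val le_rfl (by norm_num) (by norm_num)]; linarith [x.2.2]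
    rw [ContinuousMap.comp_apply, hE, m1_lo _ hx, ψ_φ le_rfl (by norm_num) (by norm_num)]
    ring
  have e1 : ∀ g, (E g).comp (φ (1 - 1 / 3) (1 / 3)) = E (ro true g) := by
    intro g
    ext x
    have hx : 2 / 3 ≤ (φ (1 - 1 / 3) (1 / 3) x : ℝ) := by
      rw [φ_val (by norm_num) (by norm_num) (by norm_num)]; linarith [x.2.1]
    rw [ContinuousMap.comp_apply, hE, m1_hi _ hx, ψ_φ (by norm_num) (by norm_num) (by norm_num)]
    ring
  have := sΔ.vanish (r.comp E - ContinuousLinearMap.id ℝ _) (by simp [r1, E1]) ?_ g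
  · simpa [sub_eq_zero] using this
  intro g
  refine (norm_le_ro _).trans (le_of_eq ?_)
  simp only [sub_apply, ContinuousLinearMap.comp_apply, ContinuousLinearMap.id_apply, map_sub,
    r0', r1', e0, e1]
  rfl

lemma exists_P (Q : C(Δ, ℝ) →L[ℝ] C(Δ, ℝ)) (Qp : IsPos Q) (Q1 : Q 1 = 1)
    (QQ : ∀ g, Q (Q g) = Q g) : ∃ P : C(Δ, ℝ) →L[ℝ] C(Δ, ℝ), IsPos P ∧
      (∀ g, P g = io false (P (ro false g)) + io true (Q (ro true g))) ∧ ∀ g, P (P g) = P g := by
  obtain ⟨P, a, b, c⟩ := sΔ.fix (io false) 0 ((io true).comp (Q.comp (ro true))) (io_pos _)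
    zero_pos (fun f hf => io_pos true _ (Qp _ (ro_pos true f hf)))
    (by have := io_sum 1; rw [ro_one, ro_one] at this; simpa [ro_one, Q1] using this)
  have c' : ∀ g, P g = io false (P (ro false g)) + io true (Q (ro true g)) := by
    intro g; rw [c g]; simp [sΔ, ro_apply]
  have c0 : ∀ g, ro false (P g) = P (ro false g) := by
    intro g; rw [c' g]; simp [ro_io]
  have c1 : ∀ g, ro true (P g) = Q (ro true g) := by
    intro g; rw [c' g]; simp [ro_io]
  refine ⟨P, a, c', fun g => ?_⟩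
  have := sΔ.vanish (P.comp P - P) (by simp [b]) ?_ g
  · simpa [sub_eq_zero] using this
  intro g
  refine (norm_le_ro _).trans (max_le_max (le_of_eq ?_) ?_)
  · simp only [sub_apply, ContinuousLinearMap.comp_apply, map_sub, c0]
    rfl
  · simp only [sub_apply, ContinuousLinearMap.comp_apply, map_sub, c1, QQ, sub_self, norm_zero]
    exact norm_nonneg _

theorem main : ∃ T : C(unitInterval, ℝ) ≃L[ℝ] C(ℕ → Bool, ℝ),
    ∀ f : C(unitInterval, ℝ), (∀ x, 0 ≤ f x) → ∀ y, 0 ≤ T f y := by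
  obtain ⟨j, u, jp, up, j1, u1, huj⟩ := exists_uj
  obtain ⟨r, E, rp, Ep, hrE⟩ := exists_rE
  obtain ⟨P, Pp, hP, hPP⟩ := exists_P (j.comp u) (fun f hf => jp _ (up f hf))
    (by simp [j1, u1]) (by intro g; simp [huj])
  obtain ⟨l, hl, T, hT⟩ := exists_equiv (ro false) (ro true) (io false) (io true) P j r u E
    (by simp [ro_io]) (by simp [ro_io]) (by simp [ro_io]) (by simp [ro_io]) io_sum huj hrE
    hP hPP
  refine ⟨T, fun f hf y => ?_⟩
  rw [hT]
  have a : ∀ y, 0 ≤ (l • ro true (r f)) y := fun y =>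
    mul_nonneg hl.le (ro_pos true _ (rp f hf) y)
  have b := io_pos false _ (Pp _ a) y
  have c := io_pos true _ (jp (f + l • E (ro false (r f))) fun x =>
    add_nonneg (hf x) (mul_nonneg hl.le (Ep _ (ro_pos false _ (rp f hf)) x))) y
  exact add_nonneg (a y) (mul_nonneg hl.le (add_nonneg b c))

end conc

end Pool.Agent.H62.Milj
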