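import Pool.Agent.H62.Milj

set_option autoImplicit false

namespace Pool.Agent.H62.Milj
open Filter Topology

section abs
variable {X Y : Type*} [NormedAddCommGroup X] [NormedSpace ℝ X] [CompleteSpace X]
  [NormedAddCommGroup Y] [NormedSpace ℝ Y] [CompleteSpace Y]

lemma exists_equiv' (ρ0 ρ1 ι0 ι1 P : Y →L[ℝ] Y) (j r : X →L[ℝ] Y) (u E : Y →L[ℝ] X)
    (h00 : ∀ g, ρ0 (ι0 g) = g) (h11 : ∀ g, ρ1 (ι1 g) = g) (h01 : ∀ g, ρ0 (ι1 g) = 0)
    (h10 : ∀ g, ρ1 (ι0 g) = 0) (hsum : ∀ g, ι0 (ρ0 g) + ι1 (ρ1 g) = g)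
    (huj : ∀ x, u (j x) = x) (hrE : ∀ g, r (E g) = g)
    (hP : ∀ g, P g = ι0 (P (ρ0 g)) + ι1 (j (u (ρ1 g)))) (hPP : ∀ g, P (P g) = P g) :
    ∃ l : ℝ, 0 < l ∧ ∃ T : Y ≃L[ℝ] X, ∀ G, T G = l • u (ρ1 G) +
      l • E (ι0 (r (l • u (ρ1 G))) + ι1 (G + l • P (ρ0 G))) := by
  set C1 : X × Y →L[ℝ] X × Y :=
    (0 : X × Y →L[ℝ] X).prod (ι0.comp (P.comp (ContinuousLinearMap.snd ℝ X Y)) +
      ι1.comp (j.comp (ContinuousLinearMap.fst ℝ X Y))) with hC1
  set C2 : X →L[ℝ] X := E.comp (ρ0.comp r) with hC2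
  set l : ℝ := ‖C1‖ + ‖C2‖ + 1 with hl
  have hl0 : 0 < l := by positivity
  have hn1 := norm_nonneg C1
  have hn2 := norm_nonneg C2
  have ht : 0 ≤ l⁻¹ := by positivity
  have b1 := bij_one_add C1 l⁻¹ ht (by rw [inv_mul_lt_iff₀ hl0]; linarith)
  have b2 := bij_one_add C2 l⁻¹ ht (by rw [inv_mul_lt_iff₀ hl0]; linarith)
  have hρ0P : ∀ g, ρ0 (P g) = P (ρ0 g) := by
    intro g; rw [hP g, map_add, h00, h01, add_zero]
  have hρ1P : ∀ g, ρ1 (P g) = j (u (ρ1 g)) := by
    intro g; rw [hP g, map_add, h10, h11, zero_add]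
  have hPW : ∀ g h, P (ι0 (P g) + ι1 (j h)) = ι0 (P g) + ι1 (j h) := by
    intro g h
    rw [hP, map_add ρ0, map_add ρ1, h00, h01, h10, h11, add_zero, zero_add, hPP, huj]
  have hll : l * l⁻¹ = 1 := mul_inv_cancel₀ hl0.ne'
  have hll' : l⁻¹ * l = 1 := inv_mul_cancel₀ hl0.ne'
  let A1 : X → X × Y := fun x => (x - E (r x) + l⁻¹ • E (ρ0 (r x)), l⁻¹ • ρ1 (r x))
  let A1' : X × Y → X := fun p => p.1 - E (r p.1) + l • E (ι0 (r p.1) + ι1 p.2)
  have a1 : Function.Bijective A1' := by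
    refine Function.bijective_iff_has_inverse.2 ⟨A1, ?_, ?_⟩
    · rintro ⟨h, g⟩
      simp only [A1, A1', map_add, map_sub, map_smul, hrE, sub_self, zero_add, h00, h01, h10, h11,
        add_zero, smul_smul, hll', one_smul, Prod.mk.injEq, and_true]
      abel
    · intro x
      simp only [A1, A1', map_add, map_sub, map_smul, hrE, sub_self, zero_add]
      have := congrArg E (hsum (r x))
      rw [map_add] at this
      rw [← smul_add, this, smul_smul, hll, one_smul]
      abel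
  let A2 : X × Y → Y := fun p => p.2 - P p.2 + l⁻¹ • (ι0 (P p.2) + ι1 (j p.1))
  let A2' : Y → X × Y := fun G => (l • u (ρ1 G), G - P G + l • P (ρ0 G))
  have a2 : Function.Bijective A2' := by
    refine Function.bijective_iff_has_inverse.2 ⟨A2, ?_, ?_⟩
    · intro G
      simp only [A2, A2', map_add, map_sub, map_smul, hPP, sub_self, zero_add]
      rw [← smul_add, smul_smul, hll', one_smul, ← hP]
      abel
    · rintro ⟨h, g⟩
      simp only [A2, A2', map_add (f := P) (g - P g), map_smul, hPW, map_sub, hPP]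
      simp only [map_add, map_sub, map_smul, hρ0P, hρ1P, huj, h00, h01, h10, h11, hPP, sub_self,
        zero_add, add_zero, smul_smul, hll, one_smul, Prod.mk.injEq, true_and]
      abel
  let T1 : Y →L[ℝ] X × Y :=
    (l • u.comp ρ1).prod (ContinuousLinearMap.id ℝ Y + l • P.comp ρ0)
  let T2 : X × Y →L[ℝ] X := ContinuousLinearMap.fst ℝ X Y +
    l • E.comp (ι0.comp (r.comp (ContinuousLinearMap.fst ℝ X Y)) +
      ι1.comp (ContinuousLinearMap.snd ℝ X Y))
  have t1 : Function.Bijective T1 := by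
    convert b1.comp a2 using 1
    funext G
    simp only [T1, A2', hC1, Function.comp]
    ext
    · simp
    · simp only [ContinuousLinearMap.prod_apply, add_apply,
        ContinuousLinearMap.id_apply, smul_apply,
        ContinuousLinearMap.comp_apply, Prod.snd_add, Prod.smul_snd,
        ContinuousLinearMap.coe_fst', ContinuousLinearMap.coe_snd', map_add, map_sub, map_smul,
        hPP, sub_self, zero_add]
      rw [← smul_add, ← hP, smul_smul, hll', one_smul]
      abel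
  have t2 : Function.Bijective T2 := by
    convert b2.comp a1 using 1
    funext p
    simp only [T2, A1', hC2, Function.comp, add_apply, smul_apply,
        ContinuousLinearMap.comp_apply,
        ContinuousLinearMap.coe_fst', ContinuousLinearMap.coe_snd', map_add, map_sub, map_smul,
        hrE, h00, h01, sub_self, zero_add, map_zero, add_zero, smul_smul, hll', one_smul]
    abel
  have t : Function.Bijective (T2.comp T1) := t2.comp t1
  refine ⟨l, hl0, ContinuousLinearEquiv.ofBijective (T2.comp T1)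
    (LinearMap.ker_eq_bot.2 t.1) (LinearMap.range_eq_top.2 t.2), ?_⟩
  intro x
  simp [T1, T2]

end abs

theorem main' : ∃ T : C(ℕ → Bool, ℝ) ≃L[ℝ] C(unitInterval, ℝ),
    ∀ f : C(ℕ → Bool, ℝ), (∀ x, 0 ≤ f x) → ∀ y, 0 ≤ T f y := by
  obtain ⟨j, u, jp, up, j1, u1, huj⟩ := exists_uj
  obtain ⟨r, E, rp, Ep, hrE⟩ := exists_rE
  obtain ⟨P, Pp, hP, hPP⟩ := exists_P (j.comp u) (fun f hf => jp _ (up f hf))
    (by simp [j1, u1]) (by intro g; simp [huj])
  obtain ⟨l, hl, T, hT⟩ := exists_equiv' (ro false) (ro true) (io false) (io true) P j r u E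
    (by simp [ro_io]) (by simp [ro_io]) (by simp [ro_io]) (by simp [ro_io]) io_sum huj hrE
    hP hPP
  refine ⟨T, fun f hf y => ?_⟩
  rw [hT]
  have a : ∀ y, 0 ≤ (l • u (ro true f)) y := fun y =>
    mul_nonneg hl.le (up _ (ro_pos true _ hf) y)
  have b := io_pos false _ (rp _ a)
  have c := io_pos true (f + l • P (ro false f)) fun x =>
    add_nonneg (hf x) (mul_nonneg hl.le (Pp _ (ro_pos false _ hf) x))
  exact add_nonneg (a y) (mul_nonneg hl.le (Ep _ (fun z => add_nonneg (b z) (c z)) y))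

end Pool.Agent.H62.Milj
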