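import Pool.Agent.H62.Milj2

set_option autoImplicit false

namespace Pool.Agent.H62.Milj
open Filter Topology unitInterval

abbrev Q := ℕ → I

def shift : C(Q, Q) := ⟨fun p n => p (n + 1), continuous_pi fun n => continuous_apply (n + 1)⟩

def hd : C(Q, I) := ⟨fun p => p 0, continuous_apply 0⟩

def Supp (p : Q) (ω : Δ) : Prop :=
  ∀ i, (ω i = false → (p i : ℝ) ≤ 2 / 3) ∧ (ω i = true → 1 / 3 ≤ (p i : ℝ))

lemma supp_nonempty (p : Q) : ∃ ω, Supp p ω := by
  refine ⟨fun i => decide (1 / 3 ≤ (p i : ℝ)), fun i => ⟨fun h => ?_, fun h => ?_⟩⟩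
  · have := of_decide_eq_false h
    linarith [not_le.1 this]
  · exact of_decide_eq_true h

lemma supp_closed : IsClosed {z : Q × Δ | Supp z.1 z.2} := by
  simp only [Supp, Set.ofPred_forall]
  refine isClosed_iInter fun i => ?_
  have c1 : Continuous fun z : Q × Δ => z.2 i := (continuous_apply i).comp continuous_snd
  have c2 : Continuous fun z : Q × Δ => (z.1 i : ℝ) :=
    continuous_subtype_val.comp ((continuous_apply i).comp continuous_fst)
  refine IsClosed.and (isClosed_imp ?_ (isClosed_le c2 continuous_const))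
    (isClosed_imp ?_ (isClosed_le continuous_const c2))
  · exact (isOpen_discrete {false}).preimage c1
  · exact (isOpen_discrete {true}).preimage c1

lemma exists_U : ∃ U : C(Δ, ℝ) →L[ℝ] C(Q, ℝ), IsPos U ∧
    ∀ (g : C(Δ, ℝ)) (p : Q) (c : ℝ), (∀ ω, Supp p ω → g ω = c) → U g p = c := by
  obtain ⟨U, Up, U1, hU⟩ := sΔ.fix (wc (m0.comp hd) shift) (wc (m1.comp hd) shift) 0
    (wc_pos _ _ fun x => by
      rw [ContinuousMap.comp_apply, m0_apply]; linarith [m1_le (hd x)])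
    (wc_pos _ _ fun x => m1_nonneg _) zero_pos
    (by ext x; simp [wc_apply, m0_apply])
  have hU' : ∀ g p, U g p = (1 - m1 (p 0)) * U (g.comp (cons false)) (shift p) +
      m1 (p 0) * U (g.comp (cons true)) (shift p) := by
    intro g p
    rw [hU g]
    simp only [ContinuousMap.add_apply, wc_apply, ContinuousMap.comp_apply, m0_apply]
    simp [sΔ, hd]
  refine ⟨U, Up, fun g p c hg => ?_⟩
  have key : ∀ ε : ℝ, 0 ≤ ε → ∀ n, ∀ (g : C(Δ, ℝ)) (p : Q),
      (∀ x y, sΔ.R n x y → |g x - g y| ≤ ε) → (∀ ω, Supp p ω → g ω = c) → |U g p - c| ≤ ε := by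
    intro ε hε n
    induction n with
    | zero =>
      intro g p h1 h2
      obtain ⟨ω, hω⟩ := supp_nonempty p
      have := Up.bd g c ε (fun x => by rw [← h2 ω hω]; exact h1 _ _ (sΔ.zero _ _)) p
      rw [U1] at this
      simpa using this
    | succ n ih =>
      intro g p h1 h2
      have a : (p 0 : ℝ) ≤ 2 / 3 → |U (g.comp (cons false)) (shift p) - c| ≤ ε := by
        intro h
        refine ih _ _ (fun x y hxy => h1 _ _ (sΔ.s0 n x y hxy)) fun ω hω => h2 _ fun i => ?_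
        cases i with
        | zero => exact ⟨fun _ => h, fun h' => absurd h' (by simp [cons])⟩
        | succ i => exact hω i
      have b : 1 / 3 ≤ (p 0 : ℝ) → |U (g.comp (cons true)) (shift p) - c| ≤ ε := by
        intro h
        refine ih _ _ (fun x y hxy => h1 _ _ (sΔ.s1 n x y hxy)) fun ω hω => h2 _ fun i => ?_
        cases i with
        | zero => exact ⟨fun h' => absurd h' (by simp [cons]), fun _ => h⟩
        | succ i => exact hω i
      rw [hU']
      by_cases h0 : (p 0 : ℝ) ≤ 1 / 3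
      · rw [m1_lo _ h0]
        simpa using a (by linarith)
      by_cases h1 : 2 / 3 ≤ (p 0 : ℝ)
      · rw [m1_hi _ h1]
        simpa using b (by linarith)
      · have a' := a (by linarith)
        have b' := b (by linarith)
        have c' := m1_nonneg (p 0)
        have d' := m1_le (p 0)
        rw [abs_le] at a' b' ⊢
        constructor <;> nlinarith [a'.1, a'.2, b'.1, b'.2]
  rw [← sub_eq_zero, ← abs_nonpos_iff]
  refine le_of_forall_pos_le_add fun δ hδ => ?_
  obtain ⟨n, hn⟩ := sΔ.uc g hδ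
  rw [zero_add]
  exact key δ hδ.le n g p hn hg

variable (K : Type*) [MetricSpace K] [CompactSpace K]

lemma exists_sep [Nonempty K] : ∃ h : C(K, Q), ∀ x y, x ≠ y →
    ∃ n, (h x n : ℝ) < 1 / 3 ∧ 2 / 3 < (h y n : ℝ) := by
  let a := TopologicalSpace.denseSeq K
  refine ⟨⟨fun x n => Set.projIcc 0 1 zero_le_one (n.unpair.2 * dist x (a n.unpair.1)),
    continuous_pi fun n => continuous_projIcc.comp (by fun_prop)⟩, fun x y hxy => ?_⟩
  have hd : 0 < dist x y := dist_pos.2 hxy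
  obtain ⟨k, hk⟩ := exists_nat_gt (1 / dist x y)
  have hk0 : (0 : ℝ) < k := lt_trans (by positivity) hk
  obtain ⟨i, hi⟩ := (TopologicalSpace.denseRange_denseSeq K).exists_dist_lt x
    (show 0 < 1 / (3 * (k : ℝ)) by positivity)
  rw [lt_div_iff₀ (by positivity)] at hi
  rw [div_lt_iff₀ hd] at hk
  have tri : dist x y ≤ dist x (a i) + dist y (a i) := dist_triangle_right _ _ _
  refine ⟨Nat.pair i k, ?_, ?_⟩
  · show max 0 (min 1 ((Nat.pair i k).unpair.2 * dist x (a (Nat.pair i k).unpair.1))) < 1 / 3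
    rw [Nat.unpair_pair]
    refine max_lt (by norm_num) ((min_le_right _ _).trans_lt ?_)
    show k * dist x (a i) < 1 / 3
    linarith
  · show 2 / 3 < max 0 (min 1 ((Nat.pair i k).unpair.2 * dist y (a (Nat.pair i k).unpair.1)))
    rw [Nat.unpair_pair]
    refine lt_max_of_lt_right (lt_min (by norm_num) ?_)
    show 2 / 3 < k * dist y (a i)
    nlinarith

lemma exists_theta [Nonempty K] : ∃ (h : C(K, Q)) (θ : C(Δ, K)),
    ∀ x ω, Supp (h x) ω → θ ω = x := by
  obtain ⟨h, hh⟩ := exists_sep K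
  let Γ : Set (K × Δ) := {z | Supp (h z.1) z.2}
  have hΓ : IsClosed Γ := supp_closed.preimage (f := fun z : K × Δ => (h z.1, z.2)) (by fun_prop)
  haveI : CompactSpace Γ := isCompact_iff_compactSpace.1 hΓ.isCompact
  let e : Γ → Δ := fun z => z.1.2
  have ec : Continuous e := continuous_snd.comp continuous_subtype_val
  have ei : Function.Injective e := by
    rintro ⟨⟨x, ω⟩, hx⟩ ⟨⟨y, ω'⟩, hy⟩ (rfl : ω = ω')
    have : x = y := by
      by_contra hxy
      obtain ⟨n, h1, h2⟩ := hh x y hxy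
      have a := hx n
      have b := hy n
      cases hω : ω n
      · linarith [b.1 hω]
      · linarith [a.2 hω]
    subst this
    rfl
  have ee : IsClosedEmbedding e := ec.isClosedEmbedding ei
  obtain ⟨x0⟩ := ‹Nonempty K›
  obtain ⟨ω0, hω0⟩ := supp_nonempty (h x0)
  obtain ⟨f, hf, -, fc⟩ := PiNat.exists_retraction_subtype_of_isClosed ee.isClosed_range
    ⟨_, ⟨⟨(x0, ω0), hω0⟩, rfl⟩⟩
  let H := ee.isEmbedding.toHomeomorph
  refine ⟨h, ⟨fun ω => (H.symm (f ω)).1.1, by fun_prop⟩, fun x ω hx => ?_⟩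
  have := hf (H ⟨(x, ω), hx⟩)
  show (H.symm (f ω)).1.1 = x
  have e2 : ((H ⟨(x, ω), hx⟩ : Set.range e) : Δ) = ω := rfl
  rw [e2] at this
  rw [this, H.symm_apply_apply]

lemma exists_uj_gen [Nonempty K] : ∃ (j : C(K, ℝ) →L[ℝ] C(Δ, ℝ)) (u : C(Δ, ℝ) →L[ℝ] C(K, ℝ)),
    IsPos j ∧ IsPos u ∧ j 1 = 1 ∧ u 1 = 1 ∧ ∀ f, u (j f) = f := by
  obtain ⟨U, Up, hU⟩ := exists_U
  obtain ⟨h, θ, hθ⟩ := exists_theta K
  refine ⟨cmp θ, (cmp h).comp U, fun f hf y => hf _, fun f hf y => Up f hf _, rfl, ?_,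
    fun f => ?_⟩
  · ext x
    exact hU 1 (h x) 1 fun _ _ => rfl
  · ext x
    exact hU (f.comp θ) (h x) (f x) fun ω hω => by rw [ContinuousMap.comp_apply, hθ x ω hω]

lemma exists_rE_gen [Uncountable K] :
    ∃ (r : C(K, ℝ) →L[ℝ] C(Δ, ℝ)) (E : C(Δ, ℝ) →L[ℝ] C(K, ℝ)),
    IsPos r ∧ IsPos E ∧ ∀ g, r (E g) = g := by
  obtain ⟨U, Up, hU⟩ := exists_U
  obtain ⟨e, -, ec, ei⟩ := (isClosed_univ (X := K)).exists_nat_bool_injection_of_not_countable
    Set.not_countable_univ
  have hq : ∀ i : ℕ, ∃ q : C(K, ℝ), Set.EqOn q 0 (e '' {ω | ω i = false}) ∧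
      Set.EqOn q 1 (e '' {ω | ω i = true}) ∧ ∀ x, q x ∈ Set.Icc (0 : ℝ) 1 := by
    intro i
    refine exists_continuous_zero_one_of_isClosed ?_ ?_ ?_
    · exact ec.isClosedMap _ (isClosed_eq (continuous_apply i) continuous_const)
    · exact ec.isClosedMap _ (isClosed_eq (continuous_apply i) continuous_const)
    · rw [Set.disjoint_image_iff ei, Set.disjoint_left]
      intro ω h0 h1
      simp only [Set.mem_ofPred_eq] at h0 h1
      rw [h0] at h1
      exact absurd h1 (by simp)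
  choose q q0 q1 qm using hq
  let qq : C(K, Q) := ⟨fun x i => ⟨q i x, qm i x⟩,
    continuous_pi fun i => (q i).continuous.subtype_mk _⟩
  refine ⟨cmp ⟨e, ec⟩, (cmp qq).comp U, fun f hf y => hf _, fun f hf y => Up f hf _,
    fun g => ?_⟩
  ext ω
  refine hU g (qq (e ω)) (g ω) fun ω' hω' => ?_
  congr 1
  funext i
  have a := hω' i
  have e1 : (qq (e ω) i : ℝ) = q i (e ω) := rfl
  rw [e1] at a
  cases h : ω i
  · have := q0 i ⟨ω, h, rfl⟩
    rw [this] at a
    cases h' : ω' i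
    · rfl
    · have := a.2 h'
      norm_num at this
  · have := q1 i ⟨ω, h, rfl⟩
    rw [this] at a
    cases h' : ω' i
    · have := a.1 h'
      norm_num at this
    · rfl

theorem to_cantor [Uncountable K] : ∃ T : C(K, ℝ) ≃L[ℝ] C(ℕ → Bool, ℝ),
    ∀ f : C(K, ℝ), (∀ x, 0 ≤ f x) → ∀ y, 0 ≤ T f y := by
  obtain ⟨j, u, jp, up, j1, u1, huj⟩ := exists_uj_gen K
  obtain ⟨r, E, rp, Ep, hrE⟩ := exists_rE_gen K
  obtain ⟨P, Pp, hP, hPP⟩ := exists_P (j.comp u) (fun f hf => jp _ (up f hf))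
    (by simp [j1, u1]) (by intro g; simp [huj])
  obtain ⟨l, hl, T, hT⟩ := exists_equiv (ro false) (ro true) (io false) (io true) P j r u E
    (by simp [ro_io]) (by simp [ro_io]) (by simp [ro_io]) (by simp [ro_io]) io_sum huj hrE
    hP hPP
  refine ⟨T, fun f hf y => ?_⟩
  rw [hT]
  have a : ∀ y, 0 ≤ (l • ro true (r f)) y := fun y =>
    mul_nonneg hl.le (ro_pos true _ (rp f hf) y)
  have b := io_pos false _ (Pp _ a) y
  have c := io_pos true _ (jp (f + l • E (ro false (r f))) fun x =>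
    add_nonneg (hf x) (mul_nonneg hl.le (Ep _ (ro_pos false _ (rp f hf)) x))) y
  exact add_nonneg (a y) (mul_nonneg hl.le (add_nonneg b c))

theorem from_cantor [Uncountable K] : ∃ T : C(ℕ → Bool, ℝ) ≃L[ℝ] C(K, ℝ),
    ∀ f : C(ℕ → Bool, ℝ), (∀ x, 0 ≤ f x) → ∀ y, 0 ≤ T f y := by
  obtain ⟨j, u, jp, up, j1, u1, huj⟩ := exists_uj_gen K
  obtain ⟨r, E, rp, Ep, hrE⟩ := exists_rE_gen K
  obtain ⟨P, Pp, hP, hPP⟩ := exists_P (j.comp u) (fun f hf => jp _ (up f hf))
    (by simp [j1, u1]) (by intro g; simp [huj])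
  obtain ⟨l, hl, T, hT⟩ := exists_equiv' (ro false) (ro true) (io false) (io true) P j r u E
    (by simp [ro_io]) (by simp [ro_io]) (by simp [ro_io]) (by simp [ro_io]) io_sum huj hrE
    hP hPP
  refine ⟨T, fun f hf y => ?_⟩
  rw [hT]
  have a : ∀ y, 0 ≤ (l • u (ro true f)) y := fun y =>
    mul_nonneg hl.le (up _ (ro_pos true _ hf) y)
  have b := io_pos false _ (rp _ a)
  have c := io_pos true (f + l • P (ro false f)) fun x =>
    add_nonneg (hf x) (mul_nonneg hl.le (Pp _ (ro_pos false _ hf) x))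
  exact add_nonneg (a y) (mul_nonneg hl.le (Ep _ (fun z => add_nonneg (b z) (c z)) y))

theorem general [Uncountable K] (L : Type*) [MetricSpace L] [CompactSpace L] [Uncountable L] :
    ∃ T : C(K, ℝ) ≃L[ℝ] C(L, ℝ), ∀ f : C(K, ℝ), (∀ x, 0 ≤ f x) → ∀ y, 0 ≤ T f y := by
  obtain ⟨T1, h1⟩ := to_cantor K
  obtain ⟨T2, h2⟩ := from_cantor L
  exact ⟨T1.trans T2, fun f hf y => h2 _ (h1 f hf) y⟩

end Pool.Agent.H62.Milj
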