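import Mathlib

set_option autoImplicit false
open Set Filter Topology MeasureTheory

namespace Pool.Agent.H62.NullFin

abbrev X : Type := (n : ℕ) → ZMod (n + 2)

lemma upd {β : ℕ → Type} [∀ n, TopologicalSpace (β n)] (y : ∀ n, β n) (g : ℕ → ∀ n, β n)
    (h : ∀ i n, n ≠ i → g i n = y n) : Tendsto g atTop (𝓝 y) :=
  tendsto_pi_nhds.mpr fun n => tendsto_const_nhds.congr'
    ((eventually_gt_atTop n).mono fun i hi => (h i n hi.ne).symm)

theorem not_cover (B : ℕ → Set X) (hB : ∀ k, MeasurableSet (B k))
    (hx : ∀ k, ∃ x : ℕ → X, Tendsto x atTop (𝓝 0) ∧ ∀ y, {n | y + x n ∈ B k}.Finite) :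
    ¬ {y : X | ∀ n, y n ≠ 0} ⊆ ⋃ k, B k := by
  classical
  intro hc
  choose x hx hx' using hx
  have h1 : ∀ i : ℕ, ∃ k ≥ i, ∀ t < 2 ^ (i + 1), x i.unpair.1 k t = 0 := fun i => by
    have : ∀ᶠ k in atTop, ∀ t ∈ Iio (2 ^ (i + 1)), x i.unpair.1 k t = 0 :=
      (eventually_all_finite (finite_Iio _)).mpr fun t _ => by
        have := tendsto_pi_nhds.mp (hx i.unpair.1) t
        rwa [nhds_discrete, tendsto_pure] at this
    exact ((eventually_ge_atTop i).and this).exists
  choose k hk hk' using h1
  let z : ℕ → X := fun i => x i.unpair.1 (k i)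
  have h2 : ∀ t : ℕ, ∃ a : ZMod (t + 2), ∀ s ⊆ Finset.range (Nat.log 2 (t + 1)), a + ∑ i ∈ s, z i t ≠ 0 := by
    intro t
    obtain ⟨a, -, ha⟩ := Finset.exists_mem_notMem_of_card_lt_card (t := Finset.univ)
      (s := (Finset.range (Nat.log 2 (t + 1))).powerset.image fun s => -∑ i ∈ s, z i t) (by
        refine Finset.card_image_le.trans_lt ?_
        rw [Finset.card_powerset, Finset.card_range, Finset.card_univ, ZMod.card]
        exact Nat.lt_succ_of_le (Nat.pow_log_le_self 2 (by omega)))
    exact ⟨a, fun s hs h => ha (Finset.mem_image.mpr ⟨s, Finset.mem_powerset.mpr hs,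
      (eq_neg_of_add_eq_zero_left h).symm⟩)⟩
  choose a ha using h2
  let f : (ℕ → ZMod 2) → X := fun S t =>
    a t + ∑ i ∈ Finset.range (Nat.log 2 (t + 1)), if S i = 0 then 0 else z i t
  have hf : Continuous f := continuous_pi fun t => continuous_const.add (continuous_finsetSum _ fun i _ =>
    (continuous_of_discreteTopology (f := fun c : ZMod 2 => if c = 0 then 0 else z i t)).comp
      (continuous_apply i))
  have hA : ∀ S n, f S n ≠ 0 := fun S n => by
    have := ha n ((Finset.range _).filter fun i => ¬ S i = 0) (Finset.filter_subset _ _)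
    simpa only [Finset.sum_filter, ite_not] using this
  have hs : ∀ S i, S i = 0 → f (S + Pi.single i 1) = f S + z i := fun S i hi => funext fun t => by
    have e : ∀ l, (if (S + Pi.single i 1 : ℕ → ZMod 2) l = 0 then 0 else z l t) =
        (if S l = 0 then 0 else z l t) + if l = i then z i t else 0 := fun l => by
      by_cases h : l = i
      · simp [h, hi]
      · simp [h]
    simp only [f, e, Finset.sum_add_distrib, Finset.sum_ite_eq', Finset.mem_range]
    rw [Pi.add_apply, add_assoc]
    split_ifs with h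
    · rfl
    · rw [show z i t = 0 from hk' i t ((Nat.lt_succ_self t).trans ((Nat.lt_pow_succ_log_self one_lt_two _).trans_le
        (Nat.pow_le_pow_right two_pos (Nat.succ_le_succ (not_lt.mp h)))))]
  choose U hU hU' using fun j => (hf.measurable (hB j)).baireMeasurableSet.residualEq_isOpen
  have w1 : ∀ᶠ S in residual (ℕ → ZMod 2), ∀ j, (S ∈ f ⁻¹' B j) = (S ∈ U j) := eventually_countable_forall.mpr hU'
  have w2 : ∀ᶠ S in residual (ℕ → ZMod 2), ∀ i : ℕ, ∀ j,
      (S + Pi.single i 1 ∈ f ⁻¹' B j) = (S + Pi.single i 1 ∈ U j) := eventually_countable_forall.mpr fun i =>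
    (tendsto_residual_of_isOpenMap (continuous_add_const _) (isOpenMap_add_right _)).eventually w1
  have w3 : ∀ᶠ S in residual (ℕ → ZMod 2), ∀ j n : ℕ, ∃ i ≥ n, i.unpair.1 = j ∧ S i = 0 := by
    refine eventually_countable_forall.mpr fun j => eventually_countable_forall.mpr fun n =>
      residual_of_dense_open ?_ fun S => ?_
    · simp only [ofPred_exists, ofPred_and]
      exact isOpen_iUnion fun i => isOpen_const.inter (isOpen_const.inter
        ((isOpen_discrete {0}).preimage (continuous_apply i)))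
    · refine mem_closure_of_frequently_of_tendsto ?_ (upd S (fun i => Function.update S i 0)
        fun i n h => Function.update_of_ne h _ _)
      exact frequently_atTop.mpr fun m => ⟨Nat.pair j (max m n), le_trans (le_max_left _ _) (Nat.right_le_pair _ _),
        _, le_trans (le_max_right _ _) (Nat.right_le_pair _ _), by simp, Function.update_self ..⟩
  obtain ⟨S, s1, s2, s3⟩ := (dense_of_mem_residual (w1.and (w2.and w3))).nonempty
  obtain ⟨j, hj⟩ := mem_iUnion.mp (hc (hA S))
  obtain ⟨N, hN⟩ := eventually_atTop.mp ((upd S (fun i => S + Pi.single i 1) fun i n h => by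
    simp [h]).eventually ((hU j).mem_nhds (s1 j ▸ hj)))
  refine (infinite_of_forall_exists_gt fun n => ?_) (hx' j (f S))
  obtain ⟨i, hi, rfl, h0⟩ := s3 j (max N (n + 1))
  have := (s2 i _).mpr (hN i (le_of_max_le_left hi))
  rw [mem_preimage, hs S i h0] at this
  exact ⟨k i, this, lt_of_lt_of_le (le_of_max_le_right hi) (hk i)⟩

lemma img (x : X) : (fun y => y + x) '' {y : X | ∀ n, y n ≠ 0} = {y | ∀ n, y n ≠ x n} := by
  ext y
  simp [sub_eq_zero, ← sub_eq_add_neg]

lemma closed (x : X) : IsClosed {y : X | ∀ n, y n ≠ x n} := by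
  simp only [ofPred_forall]
  exact isClosed_iInter fun n => (isClosed_discrete ({x n}ᶜ : Set (ZMod (n + 2)))).preimage
    (continuous_apply (A := fun n : ℕ => ZMod (n + 2)) n)

lemma meagre (x : X) : IsMeagre {y : X | ∀ n, y n ≠ x n} :=
  residual_of_dense_open (closed x).isOpen_compl fun y => mem_closure_of_tendsto
    (upd y (fun i => Function.update y i (x i)) fun _ _ h => Function.update_of_ne h _ _)
    (.of_forall fun i h => h i (Function.update_self ..))

lemma null : ∃ μ : Measure X, IsProbabilityMeasure μ ∧ ∀ x : X, μ {y : X | ∀ n, y n ≠ x n} = 0 := by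
  let ν : ∀ n : ℕ, Measure (ZMod (n + 2)) := fun n => ProbabilityTheory.uniformOn univ
  refine ⟨Measure.infinitePi ν, inferInstance, fun x => ?_⟩
  have h1 : ∀ n, ν n {x n}ᶜ = ENNReal.ofReal ((n + 1) / (n + 2)) := fun n => by
    rw [ProbabilityTheory.uniformOn_univ, Measure.count_apply_finite _ (toFinite _), ZMod.card,
      ENNReal.ofReal_div_of_pos (by positivity)]
    rw [show (toFinite ({x n}ᶜ : Set (ZMod (n + 2)))).toFinset = {x n}ᶜ by ext; simp, Finset.card_compl, ZMod.card]
    congr 1 <;> norm_cast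
  have h2 : ∀ N : ℕ, ∏ n ∈ Finset.range N, ((n + 1) / (n + 2) : ℝ) = 1 / (N + 1) := fun N => by
    induction N with
    | zero => simp
    | succ N ih => rw [Finset.prod_range_succ, ih]; push_cast; field_simp; ring
  refine le_antisymm (ge_of_tendsto' (f := fun N : ℕ => ENNReal.ofReal (1 / (N + 1)))
    (by simpa using ENNReal.tendsto_ofReal (tendsto_one_div_add_atTop_nhds_zero_nat (𝕜 := ℝ))) fun N => ?_) zero_le
  rw [← h2, ENNReal.ofReal_prod_of_nonneg fun _ _ => by positivity, ← Finset.prod_congr rfl fun n _ => h1 n,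
    ← Measure.infinitePi_pi ν fun _ _ => (Set.toFinite _).measurableSet]
  exact measure_mono fun y hy n _ => hy n

end Pool.Agent.H62.NullFin
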