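import Mathlib

set_option autoImplicit false

namespace Pool.Agent.H62.PRootStmt

/-- `g` is a primitive root modulo the prime `p`. -/
def IsPR (g : ℤ) (p : ℕ) : Prop := orderOf (g : ZMod p) = p - 1

/-- the primes `p` for which `a` is the largest negative primitive root modulo `p` -/
def S (a : ℤ) : Set ℕ :=
  {p | p.Prime ∧ IsPR a p ∧ ∀ b : ℤ, a < b → b < 0 → ¬ IsPR b p}

/-- `p_n(a)`, the `n`-th element (counting from `n = 1`) of `S a` -/
noncomputable def pn (a : ℤ) (n : ℕ) : ℕ := Nat.nth (fun p => p ∈ S a) (n - 1)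

end Pool.Agent.H62.PRootStmt
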