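import Mathlib
import Pool.Agent.H62.PRootDefs
import Pool.Agent.H62.PRootStmt

set_option autoImplicit false

namespace Pool.Agent.H62.PRoot

open Pool.Agent.H62.PRootStmt

lemma beq_t {a b : ℕ} (h : Nat.beq a b = true) : a = b := Nat.eq_of_beq_eq_true h
lemma beq_f {a b : ℕ} (h : Nat.beq a b = false) : a ≠ b := Nat.ne_of_beq_eq_false h

lemma pm_eq (a e p : ℕ) : pm a e p = a ^ e % p := by
  have e1 : e = ((e >>> 14) * 128 + ((e >>> 7) &&& 127)) * 128 + (e &&& 127) := by
    rw [show (127 : ℕ) = 2 ^ 7 - 1 by norm_num, Nat.and_two_pow_sub_one_eq_mod,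
      Nat.and_two_pow_sub_one_eq_mod, Nat.shiftRight_eq_div_pow, Nat.shiftRight_eq_div_pow]
    omega
  show (((a ^ (e >>> 14) % p) ^ 128 * a ^ ((e >>> 7) &&& 127) % p) ^ 128 * a ^ (e &&& 127)) % p = _
  conv_rhs => rw [e1, pow_add, pow_mul, pow_add, pow_mul]
  have h1 := Nat.mod_modEq (a ^ (e >>> 14)) p
  have h2 := (Nat.mod_modEq _ p).trans ((h1.pow 128).mul_right (a ^ ((e >>> 7) &&& 127)))
  exact (h2.pow 128).mul_right _

lemma PB_spec0 : ∀ i < 72, ∀ j < 100, 2 ≤ 100 * i + j → Nat.gcd (100 * i + j) PB ≠ 1 := by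
  decide +kernel

lemma PB_spec (k : ℕ) (h : k < 7200) : 2 ≤ k → Nat.gcd k PB ≠ 1 := by
  have := PB_spec0 (k / 100) (by omega) (k % 100) (by omega)
  rwa [Nat.div_add_mod] at this

lemma dvd_PB {l : ℕ} (hl : l.Prime) (h : l < 7200) : l ∣ PB := by
  by_contra hn
  exact PB_spec l h hl.two_le ((Nat.Prime.coprime_iff_not_dvd hl).mpr hn)

lemma gg_eq (m : ℕ) : gg m = Nat.gcd m PB := by
  show Nat.gcd m (PB % m) = _
  rw [Nat.gcd_comm m (PB % m), ← Nat.gcd_rec]

lemma prime_of_cop {n : ℕ} (h1 : 1 < n) (h2 : n < 51840000) (h : Nat.Coprime n PB) : n.Prime := by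
  by_contra hn
  have h3 := Nat.minFac_sq_le_self (by omega) hn
  have hp := Nat.minFac_prime (show n ≠ 1 by omega)
  have h4 : n.minFac < 7200 := by nlinarith
  have h5 := Nat.dvd_gcd (Nat.minFac_dvd n) (dvd_PB hp h4)
  rw [h] at h5
  exact hp.one_lt.ne' (Nat.dvd_one.mp h5)

/-- trial division -/
def nodiv (q : ℕ) : Prop := ∀ d < 85, 2 ≤ d → d < q → q % d ≠ 0

instance (q : ℕ) : Decidable (nodiv q) := by unfold nodiv; infer_instance

lemma bit_spec00 : ∀ i < 72, ∀ j < 100, bit (100 * i + j) ≠ 0 →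
    2 ≤ 100 * i + j ∧ nodiv (100 * i + j) := by
  decide +kernel

lemma bit_spec0 (q : ℕ) (h : q < 7200) :
    bit q ≠ 0 → 2 ≤ q ∧ ∀ d < 85, 2 ≤ d → d < q → q % d ≠ 0 := by
  have := bit_spec00 (q / 100) (by omega) (q % 100) (by omega)
  rwa [Nat.div_add_mod] at this

lemma mask_lt : mask < 2 ^ 7200 := by decide +kernel

lemma bit_spec {q : ℕ} (h : bit q ≠ 0) : q.Prime := by
  have hq : q < 7200 := by
    by_contra hc
    apply h
    show (mask >>> q) &&& 1 = 0
    rw [Nat.shiftRight_eq_div_pow, Nat.div_eq_of_lt, Nat.zero_and]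
    exact mask_lt.trans_le (Nat.pow_le_pow_right (by norm_num) (not_lt.mp hc))
  obtain ⟨h2, h3⟩ := bit_spec0 q hq h
  by_contra hn
  have h4 := Nat.minFac_sq_le_self (by omega) hn
  have hp := Nat.minFac_prime (show q ≠ 1 by omega)
  have h5 := hp.two_le
  exact h3 q.minFac (by nlinarith) h5 (by nlinarith)
    (Nat.mod_eq_zero_of_dvd (Nat.minFac_dvd q))

lemma rec_bit {g x : ℕ} (P : ℕ → Prop) (hx : P x) (hg : g.Prime → P g) :
    P (Nat.rec (motive := fun _ => ℕ) x (fun _ _ => g) (bit g)) := by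
  rcases hb : bit g with _ | k
  · exact hx
  · exact hg (bit_spec (by omega))

lemma split_spec (t : T) : ∀ g, split t g = 0 ∨ ((split t g).Prime ∧ split t g ∣ g) := by
  induction t with
  | leaf =>
    intro g
    exact rec_bit (fun y => y = 0 ∨ (y.Prime ∧ y ∣ g)) (Or.inl rfl) fun h => Or.inr ⟨h, dvd_rfl⟩
  | node P l r il ir =>
    intro g
    refine rec_bit (fun y => y = 0 ∨ (y.Prime ∧ y ∣ g)) ?_ fun h => Or.inr ⟨h, dvd_rfl⟩
    cases Nat.beq (Nat.gcd g (Nat.mod P g)) 1
    · rcases il (Nat.gcd g (Nat.mod P g)) with h | h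
      · exact Or.inl h
      · exact Or.inr ⟨h.1, h.2.trans (Nat.gcd_dvd_left _ _)⟩
    · exact ir g

lemma loopA_spec (b h p : ℕ) (hp : 1 < p) (fuel : ℕ) : ∀ g, loopA b h p fuel g = true →
    ∀ l : ℕ, l.Prime → l ∣ g → b ^ (h / l) % p ≠ 1 := by
  induction fuel with
  | zero => intro g hg; exact absurd hg (by simp [loopA])
  | succ k ih =>
    intro g hg l hl hlg
    change Bool.rec (Bool.rec (loopA b h p k (g / split tr g)) false
      (Nat.beq (pm b (h / split tr g) p) 1)) true (Nat.beq g 1) = true at hg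
    cases h1 : Nat.beq g 1
    · rw [h1] at hg
      cases h2 : Nat.beq (pm b (h / split tr g) p) 1
      · rw [h2] at hg
        have h3 := beq_f h2
        rw [pm_eq] at h3
        rcases split_spec tr g with h0 | ⟨hq, hd⟩
        · rw [h0] at h3
          exact absurd (by simp [Nat.mod_eq_of_lt hp]) h3
        · by_cases hlq : l = split tr g
          · rw [hlq]; exact h3
          · refine ih _ hg l hl ?_
            have : l ∣ split tr g * (g / split tr g) := by rwa [Nat.mul_div_cancel' hd]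
            rcases (Nat.Prime.dvd_mul hl).mp this with h4 | h4
            · exact absurd ((Nat.prime_dvd_prime_iff_eq hl hq).mp h4) hlq
            · exact h4
      · rw [h2] at hg; exact absurd hg (by simp)
    · rw [beq_t h1] at hlg
      exact absurd (Nat.dvd_one.mp hlg) hl.one_lt.ne'

lemma loopE_spec (b h p : ℕ) (hp : 1 < p) (fuel : ℕ) : ∀ g, loopE b h p fuel g = true →
    ∃ l : ℕ, l.Prime ∧ l ∣ g ∧ b ^ (h / l) % p = 1 := by
  induction fuel with
  | zero => intro g hg; exact absurd hg (by simp [loopE])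
  | succ k ih =>
    intro g hg
    change Bool.rec (Bool.rec (loopE b h p k (g / split tr g)) (Nat.ble 1 (split tr g))
      (Nat.beq (pm b (h / split tr g) p) 1)) false (Nat.beq g 1) = true at hg
    cases h1 : Nat.beq g 1
    · rw [h1] at hg
      cases h2 : Nat.beq (pm b (h / split tr g) p) 1
      · rw [h2] at hg
        obtain ⟨l, hl, hd, h3⟩ := ih _ hg
        refine ⟨l, hl, ?_, h3⟩
        rcases split_spec tr g with h0 | ⟨_, hd'⟩
        · have h4 := beq_f h2
          rw [pm_eq, h0] at h4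
          exact absurd (by simp [Nat.mod_eq_of_lt hp]) h4
        · exact hd.trans (Nat.div_dvd_of_dvd hd')
      · rw [h2] at hg
        have h3 := beq_t h2
        rw [pm_eq] at h3
        have h4 : 1 ≤ split tr g := Nat.le_of_ble_eq_true hg
        rcases split_spec tr g with h0 | ⟨hq, hd⟩
        · omega
        · exact ⟨_, hq, hd, h3⟩
    · rw [h1] at hg; exact absurd hg (by simp)

lemma dvd_div_gcd {l m n : ℕ} (hl : l.Prime) (h : l ∣ m) (hn : ¬ l ∣ n) :
    l ∣ m / Nat.gcd m n := by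
  have : l ∣ Nat.gcd m n * (m / Nat.gcd m n) := by
    rwa [Nat.mul_div_cancel' (Nat.gcd_dvd_left _ _)]
  rcases (Nat.Prime.dvd_mul hl).mp this with h4 | h4
  · exact absurd (h4.trans (Nat.gcd_dvd_right _ _)) hn
  · exact h4

lemma allOdd_spec (b h p : ℕ) (hp : 1 < p) (h0 : 0 < h) (h1 : h < 51840000)
    (ht : allOdd b h p (gg (mm h)) (rr (mm h) (gg (mm h))) = true) :
    ∀ l : ℕ, l.Prime → l ≠ 2 → l ∣ h → b ^ (h / l) % p ≠ 1 := by
  intro l hl hl2 hlh
  set m := mm h with hm
  set g := gg m with hg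
  set r := rr m g with hr
  have hmd : m ∣ h := Nat.div_dvd_of_dvd (Nat.gcd_dvd_left _ _)
  have hrd : r ∣ m := Nat.div_dvd_of_dvd (Nat.gcd_dvd_left _ _)
  have hlm : l ∣ m := by
    refine dvd_div_gcd hl hlh fun hc => hl2 ?_
    rw [show 33554432 = 2 ^ 25 by norm_num] at hc
    exact (Nat.prime_dvd_prime_iff_eq hl Nat.prime_two).mp (hl.dvd_of_dvd_pow hc)
  unfold allOdd at ht
  cases c1 : Nat.beq (Nat.gcd r g) 1
  · rw [c1] at ht; exact absurd ht (by simp)
  rw [c1] at ht
  have hrg := beq_t c1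
  have key : loopA b h p 9 g = true ∧ (r = 1 ∨ b ^ (h / r) % p ≠ 1) := by
    cases c2 : Nat.beq r 1
    · rw [c2] at ht
      cases c3 : Nat.beq (Nat.mod (Nat.pow b (Nat.div h r)) p) 1
      · rw [c3] at ht; exact ⟨ht, Or.inr (beq_f c3)⟩
      · rw [c3] at ht; exact absurd ht (by simp)
    · rw [c2] at ht; exact ⟨ht, Or.inl (beq_t c2)⟩
  by_cases hlg : l ∣ g
  · exact loopA_spec b h p hp 9 g key.1 l hl hlg
  · have hlr : l ∣ r := dvd_div_gcd hl hlm fun hc => hlg (hl.dvd_of_dvd_pow hc)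
    have hr0 : 0 < r := Nat.pos_of_dvd_of_pos (hrd.trans hmd) h0
    have hr1 : r ≠ 1 := fun e => hl.one_lt.ne' (Nat.dvd_one.mp (e ▸ hlr))
    have hrp : r.Prime := by
      refine prime_of_cop (by omega) ((Nat.le_of_dvd h0 (hrd.trans hmd)).trans_lt h1) ?_
      apply Nat.eq_one_of_dvd_one
      rw [← hrg]
      refine Nat.dvd_gcd (Nat.gcd_dvd_left _ _) ?_
      rw [hg, gg_eq]
      exact Nat.dvd_gcd ((Nat.gcd_dvd_left _ _).trans hrd) (Nat.gcd_dvd_right _ _)
    rw [(Nat.prime_dvd_prime_iff_eq hl hrp).mp hlr]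
    exact key.2.resolve_left hr1

lemma neg_pow_cast (a e p : ℕ) : (((-(a : ℤ) : ℤ) : ZMod p)) ^ (2 * e) = (((a ^ 2) ^ e : ℕ) : ZMod p) := by
  push_cast
  rw [pow_mul, neg_sq]

lemma cast_eq_one_iff {x p : ℕ} (hp : 1 < p) : (x : ZMod p) = 1 ↔ x % p = 1 := by
  have := ZMod.natCast_eq_natCast_iff' x 1 p
  rw [Nat.mod_eq_of_lt hp, Nat.cast_one] at this
  exact this

lemma isPR_of (a p : ℕ) (hp : p.Prime) (hodd : p % 2 = 1) (ha0 : 0 < a) (ha : a < p)
    (hns : ¬ IsSquare (((-(a : ℤ) : ℤ)) : ZMod p))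
    (hall : ∀ l : ℕ, l.Prime → l ≠ 2 → l ∣ p / 2 → (a ^ 2) ^ (p / 2 / l) % p ≠ 1) :
    IsPR (-(a : ℤ)) p := by
  have := Fact.mk hp
  have h2 := hp.two_le
  have hne : (((-(a : ℤ) : ℤ)) : ZMod p) ≠ 0 := by
    push_cast
    rw [neg_ne_zero, Ne, ZMod.natCast_eq_zero_iff]
    exact Nat.not_dvd_of_pos_of_lt ha0 ha
  refine orderOf_eq_of_pow_and_pow_div_prime (by omega) (ZMod.pow_card_sub_one_eq_one hne) ?_
  intro l hl hd
  have hp2 : p - 1 = 2 * (p / 2) := by omega
  by_cases h : l = 2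
  · subst h
    rw [hp2, Nat.mul_div_cancel_left _ two_pos]
    exact fun hc => hns ((ZMod.euler_criterion p hne).mpr hc)
  · have hd2 : l ∣ p / 2 := by
      rw [hp2] at hd
      exact ((Nat.Prime.dvd_mul hl).mp hd).resolve_left
        fun hc => h ((Nat.prime_dvd_prime_iff_eq hl Nat.prime_two).mp hc)
    rw [hp2, Nat.mul_div_assoc _ hd2, neg_pow_cast, Ne, cast_eq_one_iff hp.one_lt]
    exact hall l hl h hd2

lemma not_isPR_of {g : ℤ} {p e : ℕ} (he0 : 0 < e) (he : e < p - 1) (h : (g : ZMod p) ^ e = 1) :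
    ¬ IsPR g p := by
  intro hc
  have := orderOf_le_of_pow_eq_one he0 h
  unfold IsPR at hc
  omega

lemma not_isPR_of_sq {g : ℤ} {p : ℕ} (hp : p.Prime) (hodd : p % 2 = 1)
    (h : IsSquare (g : ZMod p)) : ¬ IsPR g p := by
  have := Fact.mk hp
  have h2 := hp.two_le
  by_cases hne : (g : ZMod p) = 0
  · intro hc
    unfold IsPR at hc
    rw [hne, orderOf_zero] at hc
    omega
  · exact not_isPR_of (e := p / 2) (by omega) (by omega) ((ZMod.euler_criterion p hne).mp h)

lemma not_sq_three {p : ℕ} (hp : p.Prime) (h6 : p % 6 = 5) :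
    ¬ IsSquare (((-((3 : ℕ) : ℤ) : ℤ)) : ZMod p) := by
  have := Fact.mk hp
  rintro ⟨s, hs⟩
  push_cast at hs
  have h2 : (2 : ZMod p) ≠ 0 := by
    have : ((2 : ℕ) : ZMod p) ≠ 0 := by
      rw [Ne, ZMod.natCast_eq_zero_iff]
      exact Nat.not_dvd_of_pos_of_lt (by norm_num) (by omega)
    exact_mod_cast this
  have h3 : (3 : ZMod p) ≠ 0 := by
    have : ((3 : ℕ) : ZMod p) ≠ 0 := by
      rw [Ne, ZMod.natCast_eq_zero_iff]
      exact Nat.not_dvd_of_pos_of_lt (by norm_num) (by omega)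
    exact_mod_cast this
  set w : ZMod p := (s - 1) / 2 with hw
  have hq : w ^ 2 + w + 1 = 0 := by
    rw [hw]; field_simp; linear_combination -hs
  have hw3 : w ^ 3 = 1 := by linear_combination (w - 1) * hq
  have hw1 : w ≠ 1 := by
    intro e; rw [e] at hq; apply h3; linear_combination hq
  have hw0 : w ≠ 0 := by
    intro e; rw [e] at hq; simp at hq
  have : Fact (Nat.Prime 3) := ⟨Nat.prime_three⟩
  have ho := orderOf_eq_prime hw3 hw1
  have := ZMod.orderOf_dvd_card_sub_one hw0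
  rw [ho] at this
  omega

lemma test_odd {p : ℕ} (ht : test p = true) : Nat.Coprime p PB := by
  unfold test at ht
  cases c1 : Nat.beq (gg p) 1
  · rw [c1] at ht; exact absurd ht (by simp)
  · have := beq_t c1
    rwa [gg_eq] at this

lemma test_spec {p : ℕ} (h6 : p % 6 = 5) (hb : p < 51840000) (ht : test p = true) :
    p ∈ S (-3) := by
  have hp : p.Prime := prime_of_cop (by omega) hb (test_odd ht)
  have := Fact.mk hp
  unfold test at ht
  cases c1 : Nat.beq (gg p) 1
  · rw [c1] at ht; exact absurd ht (by simp)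
  rw [c1] at ht
  have hh : Nat.shiftRight p 1 = p / 2 := by
    show p >>> 1 = _
    rw [Nat.shiftRight_eq_div_pow]
  rw [hh] at ht
  change test3 p (p / 2) (mm (p / 2)) (gg (mm (p / 2))) = true at ht
  unfold test3 at ht
  have hland : Nat.land p 7 = p % 8 := Nat.and_two_pow_sub_one_eq_mod p 3
  have key : allOdd 9 (p / 2) p (gg (mm (p / 2))) (rr (mm (p / 2)) (gg (mm (p / 2)))) = true ∧
      ¬ IsPR (-2) p := by
    cases c2 : Nat.ble (Nat.land p 7) 3
    · rw [c2] at ht
      cases c3 : loopE 4 (p / 2) p 9 (gg (mm (p / 2)))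
      · rw [c3] at ht; exact absurd ht (by simp)
      · rw [c3] at ht
        refine ⟨ht, ?_⟩
        obtain ⟨l, hl, hd, h1⟩ := loopE_spec _ _ _ hp.one_lt _ _ c3
        have hd2 : l ∣ p / 2 :=
          (hd.trans (Nat.gcd_dvd_left _ _)).trans (Nat.div_dvd_of_dvd (Nat.gcd_dvd_left _ _))
        have hpos : 0 < p / 2 / l := Nat.div_pos (Nat.le_of_dvd (by omega) hd2) hl.pos
        have hlt : p / 2 / l < p / 2 := Nat.div_lt_self (by omega) hl.one_lt
        refine not_isPR_of (e := 2 * (p / 2 / l)) (by omega) (by omega) ?_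
        have := neg_pow_cast 2 (p / 2 / l) p
        rw [show (-((2 : ℕ) : ℤ)) = -2 by norm_num] at this
        rw [this, cast_eq_one_iff hp.one_lt]
        exact h1
    · rw [c2] at ht
      refine ⟨ht, not_isPR_of_sq hp (by omega) ?_⟩
      have h3 := Nat.le_of_ble_eq_true c2
      rw [hland] at h3
      push_cast
      exact (ZMod.exists_sq_eq_neg_two_iff (by omega)).mpr (by omega)
  refine ⟨hp, ?_, ?_⟩
  · exact isPR_of 3 p hp (by omega) (by norm_num) (by omega) (not_sq_three hp h6)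
      (allOdd_spec 9 (p / 2) p hp.one_lt (by omega) (by omega) key.1)
  · intro b h1 h2
    have : b = -2 ∨ b = -1 := by omega
    rcases this with rfl | rfl
    · exact key.2
    · exact not_isPR_of (e := 2) (by norm_num) (by omega) (by simp)

open Classical in
/-- number of elements of `S (-3)` that are at most `p` -/
noncomputable def ct (p : ℕ) : ℕ := Nat.count (fun q => q ∈ S (-3)) (p + 1)

/-- the invariant -/
def Good (p q n : ℕ) : Prop :=
  q ≠ 0 → p ≠ 0 ∧ p ≤ q ∧ (q < 51840000 → p % 6 = 5 → q % 6 = 5 ∧ ct p + n ≤ ct q)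

lemma Good.trans {p q r m n : ℕ} (h1 : Good p q m) (h2 : Good q r n) : Good p r (m + n) := by
  intro hr
  obtain ⟨a1, a2, a3⟩ := h2 hr
  obtain ⟨b1, b2, b3⟩ := h1 a1
  refine ⟨b1, b2.trans a2, fun c1 c2 => ?_⟩
  obtain ⟨d1, d2⟩ := b3 (by omega) c2
  obtain ⟨e1, e2⟩ := a3 c1 d1
  exact ⟨e1, by omega⟩

lemma good_step (p x : ℕ) (ht : test (p + 6 * (x + 1)) = true) : Good p (p + 6 * (x + 1)) 1 := by
  classical
  intro _
  refine ⟨?_, by omega, fun c1 c2 => ⟨by omega, ?_⟩⟩
  · rintro rfl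
    have h := test_odd ht
    have h2 : 2 ∣ Nat.gcd (0 + 6 * (x + 1)) PB :=
      Nat.dvd_gcd (by omega) (dvd_PB Nat.prime_two (by norm_num))
    rw [h] at h2; omega
  · have hS := test_spec (by omega) c1 ht
    unfold ct
    rw [Nat.count_succ _ (p + 6 * (x + 1)), if_pos hS]
    exact Nat.add_le_add_right (Nat.count_monotone _ (by omega)) 1

lemma run_spec (D n : ℕ) : ∀ p, Good p (run D n p) n := by
  induction n with
  | zero => intro p hp; exact ⟨hp, le_rfl, fun _ c => ⟨c, le_rfl⟩⟩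
  | succ k ih =>
    intro p
    change Good p (Bool.rec 0 (run D k (p + 6 * (Nat.land (Nat.shiftRight D (Nat.mul 8 k)) 255 + 1)))
      (test (p + 6 * (Nat.land (Nat.shiftRight D (Nat.mul 8 k)) 255 + 1)))) (k + 1)
    cases c : test (p + 6 * (Nat.land (Nat.shiftRight D (Nat.mul 8 k)) 255 + 1))
    · intro h; exact absurd rfl h
    · rw [add_comm k 1]
      exact (good_step p _ c).trans (ih _)

lemma runL_spec (L : List ℕ) : ∀ p, Good p (runL L p) (256 * L.length) := by
  induction L with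
  | nil => intro p hp; exact ⟨hp, le_rfl, fun _ c => ⟨c, le_rfl⟩⟩
  | cons D L ih =>
    intro p
    have := (run_spec D 256 p).trans (ih _)
    rw [List.length_cons, mul_add, mul_one, add_comm]
    exact this

lemma good_of {L : List ℕ} {p q : ℕ} (h : runL L p = q) : Good p q (256 * L.length) :=
  h ▸ runL_spec L p

/-- checker that `x` is not in `S (-3)` -/
noncomputable def excl (x : ℕ) : Bool :=
  (decide (x % 2 = 0) || (decide (1 < split tr (gg x)) && decide (split tr (gg x) < x) &&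
    decide (x % split tr (gg x) = 0))) ||
  ((List.range 200).any fun q => decide (2 ≤ q) && decide (pm (x - 3) ((x - 1) / q) x = 1)) ||
  (decide (x % 8 = 5 ∨ x % 8 = 7) &&
    allOdd 4 (x / 2) x (gg (mm (x / 2))) (rr (mm (x / 2)) (gg (mm (x / 2)))))

lemma excl_spec {x : ℕ} (h1 : 1000 < x) (h2 : x < 51840000) (h : excl x = true) : x ∉ S (-3) := by
  rintro ⟨hp, h3, h4⟩
  have := Fact.mk hp
  simp only [excl, Bool.or_eq_true, Bool.and_eq_true, decide_eq_true_eq, List.any_eq_true,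
    List.mem_range] at h
  rcases h with ((a0 | ⟨⟨a1, a2⟩, a3⟩) | ⟨q, a1, a2, a3⟩) | ⟨a1, a2⟩
  · have := hp.eq_two_or_odd
    omega
  · rcases (Nat.dvd_prime hp).mp (Nat.dvd_of_mod_eq_zero a3) with h | h <;> omega
  · refine not_isPR_of (e := (x - 1) / q) (Nat.div_pos (by omega) (by omega))
      (Nat.div_lt_self (by omega) (by omega)) ?_ h3
    rw [pm_eq, ← cast_eq_one_iff hp.one_lt] at a3
    rw [← a3]
    push_cast [Nat.cast_sub (show 3 ≤ x by omega)]
    simp
  · refine h4 (-2) (by norm_num) (by norm_num) ?_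
    refine isPR_of 2 x hp (by omega) (by norm_num) (by omega) ?_
      (allOdd_spec 4 (x / 2) x hp.one_lt (by omega) (by omega) a2)
    push_cast
    rw [ZMod.exists_sq_eq_neg_two_iff (by omega)]
    omega

lemma gap00 : ∀ i < 13, ∀ j < 100, 100 * i + j < 1229 → excl (51459204 + (100 * i + j)) = true := by
  decide +kernel

lemma gap0 (k : ℕ) (h : k < 1229) : excl (51459204 + k) = true := by
  have := gap00 (k / 100) (by omega) (k % 100) (by omega)
  rw [Nat.div_add_mod] at this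
  exact this h

lemma gap {x : ℕ} (h1 : 51459203 < x) (h2 : x < 51460433) : x ∉ S (-3) := by
  have := gap0 (x - 51459204) (by omega)
  rw [show 51459204 + (x - 51459204) = x by omega] at this
  exact excl_spec (by omega) (by omega) this

lemma mem_P : 51459203 ∈ S (-3) := test_spec (by norm_num) (by norm_num) (by decide +kernel)

lemma mem_Q : 51460433 ∈ S (-3) := test_spec (by norm_num) (by norm_num) (by decide +kernel)

end Pool.Agent.H62.PRoot
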