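import Pool.Agent.H62.PRoot
import Pool.Agent.H62.PRootD0
import Pool.Agent.H62.PRootD1
import Pool.Agent.H62.PRootD2
import Pool.Agent.H62.PRootD3
import Pool.Agent.H62.PRootD4
import Pool.Agent.H62.PRootD5
import Pool.Agent.H62.PRootD6
import Pool.Agent.H62.PRootD7
import Pool.Agent.H62.PRootD8
import Pool.Agent.H62.PRootD9
import Pool.Agent.H62.PRootD10
import Pool.Agent.H62.PRootD11
import Pool.Agent.H62.PRootD12
import Pool.Agent.H62.PRootD13
import Pool.Agent.H62.PRootD14
import Pool.Agent.H62.PRootD15
import Pool.Agent.H62.PRootD16
import Pool.Agent.H62.PRootD17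
import Pool.Agent.H62.PRootD18
import Pool.Agent.H62.PRootD19
import Pool.Agent.H62.PRootD20
import Pool.Agent.H62.PRootD21
import Pool.Agent.H62.PRootD22
import Pool.Agent.H62.PRootD23
import Pool.Agent.H62.PRootD24
import Pool.Agent.H62.PRootD25
import Pool.Agent.H62.PRootD26
import Pool.Agent.H62.PRootD27
import Pool.Agent.H62.PRootD28
import Pool.Agent.H62.PRootD29
import Pool.Agent.H62.PRootD30
import Pool.Agent.H62.PRootD31
import Pool.Agent.H62.PRootD32

set_option autoImplicit false

namespace Pool.Agent.H62.PRoot

lemma gd0 : Good 7199 1203809 22528 :=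
  (((((((((((good_of d0_0).trans
    (good_of d0_1)).trans
    (good_of d0_2)).trans
    (good_of d0_3)).trans
    (good_of d0_4)).trans
    (good_of d0_5)).trans
    (good_of d0_6)).trans
    (good_of d0_7)).trans
    (good_of d0_8)).trans
    (good_of d0_9)).trans
    (good_of d0_10))

lemma gd1 : Good 1203809 2544923 22528 :=
  (((((((((((good_of d1_0).trans
    (good_of d1_1)).trans
    (good_of d1_2)).trans
    (good_of d1_3)).trans
    (good_of d1_4)).trans
    (good_of d1_5)).trans
    (good_of d1_6)).trans
    (good_of d1_7)).trans
    (good_of d1_8)).trans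
    (good_of d1_9)).trans
    (good_of d1_10))

lemma gd2 : Good 2544923 3929753 22528 :=
  (((((((((((good_of d2_0).trans
    (good_of d2_1)).trans
    (good_of d2_2)).trans
    (good_of d2_3)).trans
    (good_of d2_4)).trans
    (good_of d2_5)).trans
    (good_of d2_6)).trans
    (good_of d2_7)).trans
    (good_of d2_8)).trans
    (good_of d2_9)).trans
    (good_of d2_10))

lemma gd3 : Good 3929753 5359841 22528 :=
  (((((((((((good_of d3_0).trans
    (good_of d3_1)).trans
    (good_of d3_2)).trans
    (good_of d3_3)).trans
    (good_of d3_4)).trans
    (good_of d3_5)).trans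
    (good_of d3_6)).trans
    (good_of d3_7)).trans
    (good_of d3_8)).trans
    (good_of d3_9)).trans
    (good_of d3_10))

lemma gd4 : Good 5359841 6808979 22528 :=
  (((((((((((good_of d4_0).trans
    (good_of d4_1)).trans
    (good_of d4_2)).trans
    (good_of d4_3)).trans
    (good_of d4_4)).trans
    (good_of d4_5)).trans
    (good_of d4_6)).trans
    (good_of d4_7)).trans
    (good_of d4_8)).trans
    (good_of d4_9)).trans
    (good_of d4_10))

lemma gd5 : Good 6808979 8282129 22528 :=
  (((((((((((good_of d5_0).trans
    (good_of d5_1)).trans
    (good_of d5_2)).trans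
    (good_of d5_3)).trans
    (good_of d5_4)).trans
    (good_of d5_5)).trans
    (good_of d5_6)).trans
    (good_of d5_7)).trans
    (good_of d5_8)).trans
    (good_of d5_9)).trans
    (good_of d5_10))

lemma gd6 : Good 8282129 9780203 22528 :=
  (((((((((((good_of d6_0).trans
    (good_of d6_1)).trans
    (good_of d6_2)).trans
    (good_of d6_3)).trans
    (good_of d6_4)).trans
    (good_of d6_5)).trans
    (good_of d6_6)).trans
    (good_of d6_7)).trans
    (good_of d6_8)).trans
    (good_of d6_9)).trans
    (good_of d6_10))

lemma gd7 : Good 9780203 11289587 22528 :=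
  (((((((((((good_of d7_0).trans
    (good_of d7_1)).trans
    (good_of d7_2)).trans
    (good_of d7_3)).trans
    (good_of d7_4)).trans
    (good_of d7_5)).trans
    (good_of d7_6)).trans
    (good_of d7_7)).trans
    (good_of d7_8)).trans
    (good_of d7_9)).trans
    (good_of d7_10))

lemma gd8 : Good 11289587 12802091 22528 :=
  (((((((((((good_of d8_0).trans
    (good_of d8_1)).trans
    (good_of d8_2)).trans
    (good_of d8_3)).trans
    (good_of d8_4)).trans
    (good_of d8_5)).trans
    (good_of d8_6)).trans
    (good_of d8_7)).trans
    (good_of d8_8)).trans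
    (good_of d8_9)).trans
    (good_of d8_10))

lemma gd9 : Good 12802091 14335259 22528 :=
  (((((((((((good_of d9_0).trans
    (good_of d9_1)).trans
    (good_of d9_2)).trans
    (good_of d9_3)).trans
    (good_of d9_4)).trans
    (good_of d9_5)).trans
    (good_of d9_6)).trans
    (good_of d9_7)).trans
    (good_of d9_8)).trans
    (good_of d9_9)).trans
    (good_of d9_10))

lemma gd10 : Good 14335259 15876473 22528 :=
  (((((((((((good_of d10_0).trans
    (good_of d10_1)).trans
    (good_of d10_2)).trans
    (good_of d10_3)).trans
    (good_of d10_4)).trans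
    (good_of d10_5)).trans
    (good_of d10_6)).trans
    (good_of d10_7)).trans
    (good_of d10_8)).trans
    (good_of d10_9)).trans
    (good_of d10_10))

lemma gd11 : Good 15876473 17429963 22528 :=
  (((((((((((good_of d11_0).trans
    (good_of d11_1)).trans
    (good_of d11_2)).trans
    (good_of d11_3)).trans
    (good_of d11_4)).trans
    (good_of d11_5)).trans
    (good_of d11_6)).trans
    (good_of d11_7)).trans
    (good_of d11_8)).trans
    (good_of d11_9)).trans
    (good_of d11_10))

lemma gd12 : Good 17429963 18986057 22528 :=
  (((((((((((good_of d12_0).trans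
    (good_of d12_1)).trans
    (good_of d12_2)).trans
    (good_of d12_3)).trans
    (good_of d12_4)).trans
    (good_of d12_5)).trans
    (good_of d12_6)).trans
    (good_of d12_7)).trans
    (good_of d12_8)).trans
    (good_of d12_9)).trans
    (good_of d12_10))

lemma gd13 : Good 18986057 20556299 22528 :=
  (((((((((((good_of d13_0).trans
    (good_of d13_1)).trans
    (good_of d13_2)).trans
    (good_of d13_3)).trans
    (good_of d13_4)).trans
    (good_of d13_5)).trans
    (good_of d13_6)).trans
    (good_of d13_7)).trans
    (good_of d13_8)).trans
    (good_of d13_9)).trans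
    (good_of d13_10))

lemma gd14 : Good 20556299 22135769 22528 :=
  (((((((((((good_of d14_0).trans
    (good_of d14_1)).trans
    (good_of d14_2)).trans
    (good_of d14_3)).trans
    (good_of d14_4)).trans
    (good_of d14_5)).trans
    (good_of d14_6)).trans
    (good_of d14_7)).trans
    (good_of d14_8)).trans
    (good_of d14_9)).trans
    (good_of d14_10))

lemma gd15 : Good 22135769 23714921 22528 :=
  (((((((((((good_of d15_0).trans
    (good_of d15_1)).trans
    (good_of d15_2)).trans
    (good_of d15_3)).trans
    (good_of d15_4)).trans
    (good_of d15_5)).trans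
    (good_of d15_6)).trans
    (good_of d15_7)).trans
    (good_of d15_8)).trans
    (good_of d15_9)).trans
    (good_of d15_10))

lemma gd16 : Good 23714921 25313009 22528 :=
  (((((((((((good_of d16_0).trans
    (good_of d16_1)).trans
    (good_of d16_2)).trans
    (good_of d16_3)).trans
    (good_of d16_4)).trans
    (good_of d16_5)).trans
    (good_of d16_6)).trans
    (good_of d16_7)).trans
    (good_of d16_8)).trans
    (good_of d16_9)).trans
    (good_of d16_10))

lemma gd17 : Good 25313009 26910641 22528 :=
  (((((((((((good_of d17_0).trans
    (good_of d17_1)).trans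
    (good_of d17_2)).trans
    (good_of d17_3)).trans
    (good_of d17_4)).trans
    (good_of d17_5)).trans
    (good_of d17_6)).trans
    (good_of d17_7)).trans
    (good_of d17_8)).trans
    (good_of d17_9)).trans
    (good_of d17_10))

lemma gd18 : Good 26910641 28518227 22528 :=
  (((((((((((good_of d18_0).trans
    (good_of d18_1)).trans
    (good_of d18_2)).trans
    (good_of d18_3)).trans
    (good_of d18_4)).trans
    (good_of d18_5)).trans
    (good_of d18_6)).trans
    (good_of d18_7)).trans
    (good_of d18_8)).trans
    (good_of d18_9)).trans
    (good_of d18_10))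

lemma gd19 : Good 28518227 30129467 22528 :=
  (((((((((((good_of d19_0).trans
    (good_of d19_1)).trans
    (good_of d19_2)).trans
    (good_of d19_3)).trans
    (good_of d19_4)).trans
    (good_of d19_5)).trans
    (good_of d19_6)).trans
    (good_of d19_7)).trans
    (good_of d19_8)).trans
    (good_of d19_9)).trans
    (good_of d19_10))

lemma gd20 : Good 30129467 31742339 22528 :=
  (((((((((((good_of d20_0).trans
    (good_of d20_1)).trans
    (good_of d20_2)).trans
    (good_of d20_3)).trans
    (good_of d20_4)).trans
    (good_of d20_5)).trans
    (good_of d20_6)).trans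
    (good_of d20_7)).trans
    (good_of d20_8)).trans
    (good_of d20_9)).trans
    (good_of d20_10))

lemma gd21 : Good 31742339 33355097 22528 :=
  (((((((((((good_of d21_0).trans
    (good_of d21_1)).trans
    (good_of d21_2)).trans
    (good_of d21_3)).trans
    (good_of d21_4)).trans
    (good_of d21_5)).trans
    (good_of d21_6)).trans
    (good_of d21_7)).trans
    (good_of d21_8)).trans
    (good_of d21_9)).trans
    (good_of d21_10))

lemma gd22 : Good 33355097 34985891 22528 :=
  (((((((((((good_of d22_0).trans
    (good_of d22_1)).trans
    (good_of d22_2)).trans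
    (good_of d22_3)).trans
    (good_of d22_4)).trans
    (good_of d22_5)).trans
    (good_of d22_6)).trans
    (good_of d22_7)).trans
    (good_of d22_8)).trans
    (good_of d22_9)).trans
    (good_of d22_10))

lemma gd23 : Good 34985891 36628817 22528 :=
  (((((((((((good_of d23_0).trans
    (good_of d23_1)).trans
    (good_of d23_2)).trans
    (good_of d23_3)).trans
    (good_of d23_4)).trans
    (good_of d23_5)).trans
    (good_of d23_6)).trans
    (good_of d23_7)).trans
    (good_of d23_8)).trans
    (good_of d23_9)).trans
    (good_of d23_10))

lemma gd24 : Good 36628817 38271923 22528 :=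
  (((((((((((good_of d24_0).trans
    (good_of d24_1)).trans
    (good_of d24_2)).trans
    (good_of d24_3)).trans
    (good_of d24_4)).trans
    (good_of d24_5)).trans
    (good_of d24_6)).trans
    (good_of d24_7)).trans
    (good_of d24_8)).trans
    (good_of d24_9)).trans
    (good_of d24_10))

lemma gd25 : Good 38271923 39909491 22528 :=
  (((((((((((good_of d25_0).trans
    (good_of d25_1)).trans
    (good_of d25_2)).trans
    (good_of d25_3)).trans
    (good_of d25_4)).trans
    (good_of d25_5)).trans
    (good_of d25_6)).trans
    (good_of d25_7)).trans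
    (good_of d25_8)).trans
    (good_of d25_9)).trans
    (good_of d25_10))

lemma gd26 : Good 39909491 41557403 22528 :=
  (((((((((((good_of d26_0).trans
    (good_of d26_1)).trans
    (good_of d26_2)).trans
    (good_of d26_3)).trans
    (good_of d26_4)).trans
    (good_of d26_5)).trans
    (good_of d26_6)).trans
    (good_of d26_7)).trans
    (good_of d26_8)).trans
    (good_of d26_9)).trans
    (good_of d26_10))

lemma gd27 : Good 41557403 43214081 22528 :=
  (((((((((((good_of d27_0).trans
    (good_of d27_1)).trans
    (good_of d27_2)).trans
    (good_of d27_3)).trans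
    (good_of d27_4)).trans
    (good_of d27_5)).trans
    (good_of d27_6)).trans
    (good_of d27_7)).trans
    (good_of d27_8)).trans
    (good_of d27_9)).trans
    (good_of d27_10))

lemma gd28 : Good 43214081 44863331 22528 :=
  (((((((((((good_of d28_0).trans
    (good_of d28_1)).trans
    (good_of d28_2)).trans
    (good_of d28_3)).trans
    (good_of d28_4)).trans
    (good_of d28_5)).trans
    (good_of d28_6)).trans
    (good_of d28_7)).trans
    (good_of d28_8)).trans
    (good_of d28_9)).trans
    (good_of d28_10))

lemma gd29 : Good 44863331 46518083 22528 :=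
  (((((((((((good_of d29_0).trans
    (good_of d29_1)).trans
    (good_of d29_2)).trans
    (good_of d29_3)).trans
    (good_of d29_4)).trans
    (good_of d29_5)).trans
    (good_of d29_6)).trans
    (good_of d29_7)).trans
    (good_of d29_8)).trans
    (good_of d29_9)).trans
    (good_of d29_10))

lemma gd30 : Good 46518083 48174299 22528 :=
  (((((((((((good_of d30_0).trans
    (good_of d30_1)).trans
    (good_of d30_2)).trans
    (good_of d30_3)).trans
    (good_of d30_4)).trans
    (good_of d30_5)).trans
    (good_of d30_6)).trans
    (good_of d30_7)).trans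
    (good_of d30_8)).trans
    (good_of d30_9)).trans
    (good_of d30_10))

lemma gd31 : Good 48174299 49828907 22528 :=
  (((((((((((good_of d31_0).trans
    (good_of d31_1)).trans
    (good_of d31_2)).trans
    (good_of d31_3)).trans
    (good_of d31_4)).trans
    (good_of d31_5)).trans
    (good_of d31_6)).trans
    (good_of d31_7)).trans
    (good_of d31_8)).trans
    (good_of d31_9)).trans
    (good_of d31_10))

lemma gd32 : Good 49828907 51459203 22016 :=
  (((((((((((good_of d32_0).trans
    (good_of d32_1)).trans
    (good_of d32_2)).trans
    (good_of d32_3)).trans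
    (good_of d32_4)).trans
    (good_of d32_5)).trans
    (good_of d32_6)).trans
    (good_of d32_7)).trans
    (good_of d32_8)).trans
    (good_of d32_9)).trans
    (good_of d32_10))

lemma gall : Good 7199 51459203 742912 :=
  ((((((((((((((((((((((((((((((((gd0.trans gd1).trans gd2).trans gd3).trans gd4).trans gd5).trans gd6).trans gd7).trans gd8).trans gd9).trans gd10).trans gd11).trans gd12).trans gd13).trans gd14).trans gd15).trans gd16).trans gd17).trans gd18).trans gd19).trans gd20).trans gd21).trans gd22).trans gd23).trans gd24).trans gd25).trans gd26).trans gd27).trans gd28).trans gd29).trans gd30).trans gd31).trans gd32)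

lemma ct_ge : 742912 ≤ ct 51459203 := by
  have := ((gall (by norm_num)).2.2 (by norm_num) (by norm_num)).2
  omega

end Pool.Agent.H62.PRoot
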