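import Pool.Agent.H62.PRootAll

set_option autoImplicit false

namespace Pool.Agent.H62.PRoot

open Pool.Agent.H62.PRootStmt

lemma big : 51459203 ^ (742912 + 1) ≤ 51460433 ^ 742912 := by decide +kernel

lemma real_ineq0 (P Q N n : ℕ) (hP : 1 ≤ P) (hN : 1 ≤ N) (h : P ^ (N + 1) ≤ Q ^ N) (hn : N ≤ n) :
    (P : ℝ) ^ (1 + 1 / (n : ℝ)) ≤ Q := by
  have hN0 : (0 : ℝ) < N := by exact_mod_cast hN
  have h1 : (1 + 1 / (n : ℝ)) ≤ ((N + 1 : ℕ) : ℝ) * (N : ℝ)⁻¹ := by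
    have : (N : ℝ) ≤ n := by exact_mod_cast hn
    have h2 : 1 / (n : ℝ) ≤ 1 / N := one_div_le_one_div_of_le hN0 this
    push_cast
    rw [add_mul, mul_inv_cancel₀ hN0.ne', one_mul, ← one_div]
    linarith
  refine (Real.rpow_le_rpow_of_exponent_le (by exact_mod_cast hP) h1).trans ?_
  rw [Real.rpow_mul (Nat.cast_nonneg _), Real.rpow_natCast]
  have h3 : (P : ℝ) ^ (N + 1) ≤ (Q : ℝ) ^ N := by exact_mod_cast h
  have h4 : (Q : ℝ) = ((Q : ℝ) ^ N) ^ ((N : ℝ)⁻¹) := by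
    rw [Real.pow_rpow_inv_natCast (Nat.cast_nonneg _) (by omega)]
  rw [h4]
  exact Real.rpow_le_rpow (by positivity) h3 (by positivity)

lemma real_ineq (n : ℕ) (hn : 742912 ≤ n) :
    ((51459203 : ℕ) : ℝ) ^ (1 + 1 / (n : ℝ)) ≤ ((51460433 : ℕ) : ℝ) :=
  real_ineq0 51459203 51460433 742912 n (by norm_num) (by norm_num) big hn

open Classical in
lemma ct_succ0 (P Q : ℕ) (hPQ : P < Q) (hQ : Q ∈ S (-3)) (hg : ∀ x, P < x → x < Q → x ∉ S (-3)) :
    ct Q = ct P + 1 := by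
  unfold ct
  rw [Nat.count_succ _ Q, if_pos hQ]
  have : ∀ k, P + 1 + k ≤ Q → Nat.count (fun q => q ∈ S (-3)) (P + 1 + k) =
      Nat.count (fun q => q ∈ S (-3)) (P + 1) := by
    intro k hk
    induction k with
    | zero => rfl
    | succ k ih =>
      rw [← add_assoc, Nat.count_succ, if_neg (hg _ (by omega) (by omega)), add_zero,
        ih (by omega)]
  have h := this (Q - (P + 1)) (by omega)
  rw [show P + 1 + (Q - (P + 1)) = Q by omega] at h
  rw [h]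

lemma ct_succ : ct 51460433 = ct 51459203 + 1 :=
  ct_succ0 _ _ (by norm_num) mem_Q fun _ h1 h2 => gap h1 h2

open Classical in
lemma pn_ct {p : ℕ} (hp : p ∈ S (-3)) : pn (-3) (ct p) = p := by
  unfold pn ct
  rw [Nat.count_succ, if_pos hp, Nat.add_sub_cancel]
  exact Nat.nth_count hp

open Classical in
lemma ct_le_encard (p : ℕ) : (ct p : ℕ∞) ≤ (S (-3)).encard := by
  unfold ct
  rw [Nat.count_eq_card_filter_range, ← Set.encard_coe_eq_coe_finsetCard]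
  apply Set.encard_le_encard
  intro x hx
  exact (Finset.mem_filter.mp hx).2

lemma not_pp : ¬ ∃ (x : ℤ) (m : ℕ), 1 < m ∧ x ^ m = -3 := by
  rintro ⟨x, m, hm, h⟩
  have h1 : x.natAbs ^ m = 3 := by
    rw [← Int.natAbs_pow, h]; rfl
  have := (Nat.prime_three.pow_eq_iff.mp h1).2
  omega

end Pool.Agent.H62.PRoot
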