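import Mathlib

/-! Retractions of ordered rational vector spaces that keep finitely many signs. -/

set_option autoImplicit false

namespace Pool.Agent.H62.Pb

variable {W : Type} [AddCommGroup W] [LinearOrder W] [IsOrderedAddMonoid W] [Module ℚ W]

theorem qpos {q : ℚ} {z : W} (hq : 0 < q) (hz : 0 < z) : 0 < q • z := by
  have h1 : (q.den : ℕ) • (q • z) = q.num • z := by
    rw [← Nat.cast_smul_eq_nsmul ℚ, ← Int.cast_smul_eq_zsmul ℚ, smul_smul]
    congr 1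
    rw [mul_comm]; exact Rat.mul_den_eq_num q
  by_contra h
  have h2 : (q.den : ℕ) • (q • z) ≤ 0 := nsmul_nonpos (not_lt.1 h) _
  have h3 : 0 < q.num • z := zsmul_pos hz (Rat.num_pos.2 hq)
  rw [h1] at h2
  exact absurd h3 (not_lt.2 h2)

theorem qlt {q : ℚ} {a b : W} (hq : 0 < q) : q • a < q • b ↔ a < b := by
  have key : ∀ {q : ℚ} {a b : W}, 0 < q → a < b → q • a < q • b := fun hq h => by
    have := qpos hq (sub_pos.2 h)
    rwa [smul_sub, sub_pos] at this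
  refine ⟨fun h => ?_, key hq⟩
  have := key (inv_pos.2 hq) h
  rwa [smul_smul, smul_smul, inv_mul_cancel₀ hq.ne', one_smul, one_smul] at this

theorem cut (U : Submodule ℚ W) {p : W} (hp : p ∈ U) (hp0 : 0 < p) (x : W) (A : Finset W)
    (hA : ∀ a ∈ A, a ∈ U) : ∃ y ∈ U, ∀ a ∈ A, (a < x → a < y) ∧ (x < a → y < a) := by
  classical
  rcases (A.filter (· < x)).eq_empty_or_nonempty with hL | hL <;>
  rcases (A.filter (x < ·)).eq_empty_or_nonempty with hH | hH
  · refine ⟨0, U.zero_mem, fun a ha => ⟨fun h => ?_, fun h => ?_⟩⟩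
    · exact absurd (Finset.mem_filter.2 ⟨ha, h⟩) (by rw [hL]; simp)
    · exact absurd (Finset.mem_filter.2 ⟨ha, h⟩) (by rw [hH]; simp)
  · obtain ⟨m, hm, hm'⟩ := Finset.exists_min_image _ id hH
    refine ⟨m - p, U.sub_mem (hA m (Finset.mem_filter.1 hm).1) hp, fun a ha => ⟨fun h => ?_, fun h => ?_⟩⟩
    · exact absurd (Finset.mem_filter.2 ⟨ha, h⟩) (by rw [hL]; simp)
    · exact (sub_lt_self m hp0).trans_le (hm' a (Finset.mem_filter.2 ⟨ha, h⟩))
  · obtain ⟨m, hm, hm'⟩ := Finset.exists_max_image _ id hL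
    refine ⟨m + p, U.add_mem (hA m (Finset.mem_filter.1 hm).1) hp, fun a ha => ⟨fun h => ?_, fun h => ?_⟩⟩
    · exact lt_of_le_of_lt (hm' a (Finset.mem_filter.2 ⟨ha, h⟩)) (lt_add_of_pos_right m hp0)
    · exact absurd (Finset.mem_filter.2 ⟨ha, h⟩) (by rw [hH]; simp)
  · obtain ⟨m, hm, hm'⟩ := Finset.exists_max_image _ id hL
    obtain ⟨n, hn, hn'⟩ := Finset.exists_min_image _ id hH
    have hmn : m < n := (Finset.mem_filter.1 hm).2.trans (Finset.mem_filter.1 hn).2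
    have h2 : 0 < (1 / 2 : ℚ) • (n - m) := qpos (by norm_num) (sub_pos.2 hmn)
    refine ⟨m + (1 / 2 : ℚ) • (n - m), U.add_mem (hA m (Finset.mem_filter.1 hm).1)
      (U.smul_mem _ (U.sub_mem (hA n (Finset.mem_filter.1 hn).1) (hA m (Finset.mem_filter.1 hm).1))),
      fun a ha => ⟨fun h => ?_, fun h => ?_⟩⟩
    · exact lt_of_le_of_lt (hm' a (Finset.mem_filter.2 ⟨ha, h⟩)) (lt_add_of_pos_right m h2)
    · refine lt_of_lt_of_le ?_ (hn' a (Finset.mem_filter.2 ⟨ha, h⟩))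
      have : m + (1 / 2 : ℚ) • (n - m) = n - (1 / 2 : ℚ) • (n - m) := by module
      rw [this]; exact sub_lt_self n h2

theorem ret1 (U : Submodule ℚ W) {p : W} (hp : p ∈ U) (hp0 : 0 < p) (x : W) (S : Finset W) :
    ∃ φ : W →ₗ[ℚ] W, (∀ u ∈ U, φ u = u) ∧ φ x ∈ U ∧
      ∀ z ∈ S, z ∈ U ⊔ Submodule.span ℚ {x} → 0 < z → 0 < φ z := by
  classical
  by_cases hx : x ∈ U
  · exact ⟨LinearMap.id, fun _ _ => rfl, hx, fun _ _ _ h => h⟩
  obtain ⟨f, hf, hf'⟩ := U.exists_dual_map_eq_bot_of_notMem hx inferInstance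
  have hfU : ∀ u ∈ U, f u = 0 := fun u hu => by
    have : f u ∈ U.map f := Submodule.mem_map_of_mem hu
    rwa [hf', Submodule.mem_bot] at this
  let l : W →ₗ[ℚ] ℚ := (f x)⁻¹ • f
  have hlx : l x = 1 := by simp [l, inv_mul_cancel₀ hf]
  have hlU : ∀ u ∈ U, l u = 0 := fun u hu => by simp [l, hfU u hu]
  obtain ⟨y, hy, hy'⟩ := cut U hp hp0 x
    ((S.image fun z => x - (l z)⁻¹ • z).filter (· ∈ U)) fun a ha => (Finset.mem_filter.1 ha).2
  refine ⟨LinearMap.id + l.smulRight (y - x), fun u hu => by simp [hlU u hu], by simpa [hlx] using hy,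
    fun z hz hz' h0 => ?_⟩
  obtain ⟨u, hu, v, hv, rfl⟩ := Submodule.mem_sup.1 hz'
  obtain ⟨q, rfl⟩ := Submodule.mem_span_singleton.1 hv
  have hl : l (u + q • x) = q := by simp [hlU u hu, hlx]
  simp only [LinearMap.add_apply, LinearMap.id_coe, id_eq, LinearMap.smulRight_apply, hl]
  rcases eq_or_ne q 0 with rfl | hq
  · simpa using h0
  have ha : x - q⁻¹ • (u + q • x) = -(q⁻¹ • u) := by
    rw [smul_add, smul_smul, inv_mul_cancel₀ hq, one_smul]; abel
  have hm := hy' (x - q⁻¹ • (u + q • x)) (Finset.mem_filter.2 ⟨Finset.mem_image.2 ⟨_, hz, by rw [hl]⟩,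
    by rw [ha]; exact U.neg_mem (U.smul_mem _ hu)⟩)
  have e1 : u + q • x + q • (y - x) = q • (y - (x - q⁻¹ • (u + q • x))) := by
    rw [ha, sub_neg_eq_add, smul_add, smul_smul, mul_inv_cancel₀ hq, one_smul, smul_sub]; abel
  rw [e1]
  rcases lt_or_gt_of_ne hq with h | h
  · have h1 : 0 < (-q⁻¹) • (u + q • x) := qpos (neg_pos.2 (inv_lt_zero.2 h)) h0
    have h2 := hm.2 (by rw [sub_eq_add_neg, ← neg_smul]; exact lt_add_of_pos_right _ h1)
    have h3 := qpos (neg_pos.2 h) (sub_pos.2 h2)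
    rwa [neg_smul, ← smul_neg, neg_sub] at h3
  · have h1 : 0 < q⁻¹ • (u + q • x) := qpos (inv_pos.2 h) h0
    exact qpos h (sub_pos.2 (hm.1 (sub_lt_self _ h1)))

theorem ret (U : Submodule ℚ W) {p : W} (hp : p ∈ U) (hp0 : 0 < p) (xs : List W) :
    ∀ S : Finset W, ∃ φ : W →ₗ[ℚ] W, (∀ u ∈ U, φ u = u) ∧
      (∀ z ∈ U ⊔ Submodule.span ℚ {x | x ∈ xs}, φ z ∈ U) ∧
      ∀ z ∈ S, z ∈ U ⊔ Submodule.span ℚ {x | x ∈ xs} → 0 < z → 0 < φ z := by
  classical
  induction xs with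
  | nil => exact fun S => ⟨LinearMap.id, fun _ _ => rfl, fun z hz => by simpa using hz, fun _ _ _ h => h⟩
  | cons x xs ih =>
    intro S
    obtain ⟨φ, h1, h2, h3⟩ := ret1 (U ⊔ Submodule.span ℚ {x | x ∈ xs}) (Submodule.mem_sup_left hp) hp0 x S
    obtain ⟨ψ, g1, g2, g3⟩ := ih (S.image φ)
    have e : U ⊔ Submodule.span ℚ {y | y ∈ x :: xs} =
        (U ⊔ Submodule.span ℚ {x | x ∈ xs}) ⊔ Submodule.span ℚ {x} := by
      rw [sup_assoc, ← Submodule.span_union]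
      congr 2
      ext y; simp [or_comm]
    have h4 : ∀ z ∈ (U ⊔ Submodule.span ℚ {x | x ∈ xs}) ⊔ Submodule.span ℚ {x},
        φ z ∈ U ⊔ Submodule.span ℚ {x | x ∈ xs} := by
      intro z hz
      obtain ⟨u, hu, v, hv, rfl⟩ := Submodule.mem_sup.1 hz
      obtain ⟨q, rfl⟩ := Submodule.mem_span_singleton.1 hv
      rw [map_add, map_smul, h1 u hu]
      exact Submodule.add_mem _ hu (Submodule.smul_mem _ _ h2)
    rw [e]
    refine ⟨ψ ∘ₗ φ, fun u hu => ?_, fun z hz => g2 _ (h4 z hz), fun z hz hz' h0 => ?_⟩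
    · simp [h1 u (Submodule.mem_sup_left hu), g1 u hu]
    · exact g3 _ (Finset.mem_image_of_mem _ hz) (h4 z hz') (h3 z hz hz' h0)

/-- finitely many points can be moved into `U` keeping sums and order -/
theorem ret2 (U : Submodule ℚ W) {p : W} (hp : p ∈ U) (hp0 : 0 < p) (xs : List W) :
    ∃ φ : W → W, (∀ u ∈ U, φ u = u) ∧ (∀ x ∈ xs, φ x ∈ U) ∧
      (∀ a ∈ xs, ∀ b ∈ xs, ∀ c ∈ xs, φ a + φ b = φ c ↔ a + b = c) ∧
      ∀ a ∈ xs, ∀ b ∈ xs, φ a < φ b ↔ a < b := by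
  classical
  let X := xs.toFinset
  let S1 := (X ×ˢ X ×ˢ X).image fun q => q.1 + q.2.1 - q.2.2
  let S2 := (X ×ˢ X ×ˢ X).image fun q => q.2.2 - (q.1 + q.2.1)
  let S3 := (X ×ˢ X).image fun q => q.1 - q.2
  obtain ⟨φ, h1, h2, h3⟩ := ret U hp hp0 xs (S1 ∪ S2 ∪ S3)
  have hm : ∀ a ∈ xs, a ∈ U ⊔ Submodule.span ℚ {x | x ∈ xs} := fun a ha =>
    Submodule.mem_sup_right (Submodule.subset_span ha)
  have hlt : ∀ a ∈ xs, ∀ b ∈ xs, a < b → φ a < φ b := fun a ha b hb h => by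
    have := h3 (b - a) (by
      simp only [Finset.mem_union]; right
      exact Finset.mem_image.2 ⟨(b, a), by simp [X, ha, hb], rfl⟩)
      (Submodule.sub_mem _ (hm b hb) (hm a ha)) (sub_pos.2 h)
    rwa [map_sub, sub_pos] at this
  refine ⟨φ, h1, fun x hx => h2 x (hm x hx), fun a ha b hb c hc => ⟨fun h => ?_, fun h => by
    rw [← h, map_add]⟩, fun a ha b hb => ⟨fun h => ?_, hlt a ha b hb⟩⟩
  · rcases lt_trichotomy (a + b) c with h' | h' | h'
    · have := h3 (c - (a + b)) (by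
        simp only [Finset.mem_union]; left; right
        exact Finset.mem_image.2 ⟨(a, b, c), by simp [X, ha, hb, hc], rfl⟩)
        (Submodule.sub_mem _ (hm c hc) (Submodule.add_mem _ (hm a ha) (hm b hb))) (sub_pos.2 h')
      rw [map_sub, map_add, h, sub_self] at this
      exact absurd this (lt_irrefl _)
    · exact h'
    · have := h3 (a + b - c) (by
        simp only [Finset.mem_union]; left; left
        exact Finset.mem_image.2 ⟨(a, b, c), by simp [X, ha, hb, hc], rfl⟩)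
        (Submodule.sub_mem _ (Submodule.add_mem _ (hm a ha) (hm b hb)) (hm c hc)) (sub_pos.2 h')
      rw [map_sub, map_add, h, sub_self] at this
      exact absurd this (lt_irrefl _)
  · rcases lt_trichotomy a b with h' | h' | h'
    · exact h'
    · rw [h'] at h; exact absurd h (lt_irrefl _)
    · exact absurd (hlt b hb a ha h') (lt_asymm h)

end Pool.Agent.H62.Pb
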