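import Pool.Agent.H62.Pb1
import Pool.Agent.H37.NF
import Pool.Agent.H37.DC

/-! A finite injury construction: the span of a co-c.e. family has a computable numbering. -/

set_option autoImplicit false

namespace Pool.Agent.H62.Pb

open Pool.Agent.H37 Classical

variable {O : Set (ℕ →. ℕ)}

/-- sums and order are computable in the names `ν` -/
structure Num {M : Type} [Add M] [LT M] (O : Set (ℕ →. ℕ)) (ν : ℕ → M) : Prop where
  add : CI O fun q : ℕ × ℕ × ℕ => decide (ν q.1 + ν q.2.1 = ν q.2.2)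
  lt : CI O fun q : ℕ × ℕ => decide (ν q.1 < ν q.2)

theorem Num.comp {M : Type} [Add M] [LT M] {ν : ℕ → M} (h : Num O ν) {g : ℕ → ℕ} (hg : CI O g) :
    Num O fun n => ν (g n) :=
  ⟨h.add.comp (g := fun q : ℕ × ℕ × ℕ => (g q.1, g q.2.1, g q.2.2)) (by fun_prop),
    h.lt.comp (g := fun q : ℕ × ℕ => (g q.1, g q.2)) (by fun_prop)⟩

theorem Num.ad {M : Type} [Add M] [LT M] {ν : ℕ → M} (h : Num O ν) (hs : Function.Surjective ν) :
    ∃ ad : ℕ → ℕ → ℕ, CI O (fun q : ℕ × ℕ => ad q.1 q.2) ∧ ∀ a b, ν (ad a b) = ν a + ν b := by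
  obtain ⟨f, hf, hf'⟩ := CI.exists_choice (O := O)
    (p := fun (q : ℕ × ℕ) c => decide (ν q.1 + ν q.2 = ν c))
    (h.add.comp (g := fun q : (ℕ × ℕ) × ℕ => (q.1.1, q.1.2, q.2)) (by fun_prop)) fun q => by
      obtain ⟨c, hc⟩ := hs (ν q.1 + ν q.2)
      exact ⟨c, by simp [hc]⟩
  exact ⟨fun a b => f (a, b), hf, fun a b => (of_decide_eq_true (hf' (a, b))).symm⟩

theorem Num.eq {M : Type} [Add M] [LinearOrder M] {ν : ℕ → M} (h : Num O ν) :
    CI O fun q : ℕ × ℕ => decide (ν q.1 = ν q.2) := by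
  have h1 := h.lt
  have h2 := h.lt.comp (g := fun q : ℕ × ℕ => (q.2, q.1)) (by fun_prop)
  refine ((h1.or h2).not).of_eq fun q => ?_
  rcases lt_trichotomy (ν q.1) (ν q.2) with h | h | h
  · simp [h, h.ne]
  · simp [h]
  · simp [h, h.ne']

theorem Num.mul {M : Type} [AddMonoid M] [LT M] {ν : ℕ → M} (h : Num O ν)
    (hs : Function.Surjective ν) :
    ∃ mu : ℕ → ℕ → ℕ, CI O (fun q : ℕ × ℕ => mu q.1 q.2) ∧ ∀ n a, ν (mu n a) = n • ν a := by
  obtain ⟨ad, h1, h2⟩ := h.ad hs
  obtain ⟨z, hz⟩ := hs 0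
  refine ⟨fun n a => (fun c => ad c a)^[n] z, by fun_prop, fun n a => ?_⟩
  induction n with
  | zero => simpa using hz
  | succ n ih =>
    beta_reduce at ih ⊢
    rw [Function.iterate_succ_apply', h2, ih, succ_nsmul]

variable {W : Type} [AddCommGroup W] [LinearOrder W] [IsOrderedAddMonoid W] [Module ℚ W]

def qv (r : ℕ × ℕ × ℕ) : ℚ := ((r.1 : ℚ) - r.2.1) / ((r.2.2 : ℚ) + 1)

theorem qv_surj (q : ℚ) : ∃ r, qv r = q := by
  refine ⟨(q.num.toNat, (-q.num).toNat, q.den - 1), ?_⟩
  have h1 : ((q.den - 1 : ℕ) : ℚ) + 1 = q.den := by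
    have := q.den_pos
    exact_mod_cast (by omega : q.den - 1 + 1 = q.den)
  have h2 : ((q.num.toNat : ℕ) : ℚ) - ((-q.num).toNat : ℕ) = q.num := by
    exact_mod_cast Int.toNat_sub_toNat_neg q.num
  simp only [qv, h1, h2, Rat.num_div_den]

abbrev T := List (ℕ × ℕ × ℕ × ℕ)

def tval (μ : ℕ → W) (t : T) : W := (t.map fun e => qv e.2 • μ e.1).sum

omit [LinearOrder W] [IsOrderedAddMonoid W] in
theorem mem_span_iff (μ : ℕ → W) (A : Set ℕ) (z : W) :
    z ∈ Submodule.span ℚ (μ '' A) ↔ ∃ t : T, (∀ e ∈ t, e.1 ∈ A) ∧ tval μ t = z := by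
  constructor
  · intro hz
    induction hz using Submodule.span_induction with
    | mem x hx =>
      obtain ⟨i, hi, rfl⟩ := hx
      exact ⟨[(i, 1, 0, 0)], by simpa using hi, by simp [tval, qv]⟩
    | zero => exact ⟨[], by simp, by simp [tval]⟩
    | add x y _ _ hx hy =>
      obtain ⟨s, hs, rfl⟩ := hx
      obtain ⟨t, ht, rfl⟩ := hy
      refine ⟨s ++ t, fun e he => ?_, by simp [tval]⟩
      rcases List.mem_append.1 he with h | h
      exacts [hs e h, ht e h]
    | smul q x _ hx =>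
      obtain ⟨s, hs, rfl⟩ := hx
      choose g hg using qv_surj
      refine ⟨s.map fun e => (e.1, g (q * qv e.2)), fun e he => ?_, ?_⟩
      · obtain ⟨e', he', rfl⟩ := List.mem_map.1 he
        exact hs e' he'
      · simp only [tval, List.map_map, List.smul_sum, Function.comp_def, hg, mul_smul]
  · rintro ⟨t, ht, rfl⟩
    refine list_sum_mem fun x hx => ?_
    obtain ⟨e, he, rfl⟩ := List.mem_map.1 hx
    exact Submodule.smul_mem _ _ (Submodule.subset_span ⟨_, ht e he, rfl⟩)

omit [IsOrderedAddMonoid W] in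
theorem Num.tc {μ : ℕ → W} (h : Num O μ) (hs : Function.Surjective μ) :
    ∃ tc : T → ℕ, CI O tc ∧ ∀ t, μ (tc t) = tval μ t := by
  obtain ⟨ad, h1, h2⟩ := h.ad hs
  obtain ⟨mu, h3, h4⟩ := h.mul hs
  obtain ⟨z, hz⟩ := hs 0
  have key : ∀ (e : ℕ × ℕ × ℕ × ℕ) (c : ℕ),
      μ (ad (mu (e.2.2.2 + 1) c) (mu e.2.2.1 e.1)) = μ (mu e.2.1 e.1) ↔ μ c = qv e.2 • μ e.1 := by
    intro e c
    have hne : ((e.2.2.2 : ℚ) + 1) ≠ 0 := by positivity
    rw [h2, h4, h4, h4, ← Nat.cast_smul_eq_nsmul ℚ, ← Nat.cast_smul_eq_nsmul ℚ,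
      ← Nat.cast_smul_eq_nsmul ℚ, ← eq_sub_iff_add_eq, ← sub_smul, qv, div_eq_inv_mul, mul_smul,
      eq_inv_smul_iff₀ hne]
    push_cast; rfl
  obtain ⟨f, hf, hf'⟩ := CI.exists_choice (O := O)
    (p := fun (e : ℕ × ℕ × ℕ × ℕ) c =>
      decide (μ (ad (mu (e.2.2.2 + 1) c) (mu e.2.2.1 e.1)) = μ (mu e.2.1 e.1)))
    (h.eq.comp (g := fun q : (ℕ × ℕ × ℕ × ℕ) × ℕ =>
      (ad (mu (q.1.2.2.2 + 1) q.2) (mu q.1.2.2.1 q.1.1), mu q.1.2.1 q.1.1)) (by fun_prop))
    fun e => by
      obtain ⟨c, hc⟩ := hs (qv e.2 • μ e.1)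
      exact ⟨c, decide_eq_true ((key e c).2 hc)⟩
  refine ⟨fun t => t.foldr (fun e c => ad (f e) c) z, by fun_prop, fun t => ?_⟩
  induction t with
  | nil => simpa [tval] using hz
  | cons e t ih =>
    beta_reduce at ih ⊢
    rw [List.foldr_cons, h2, ih, (key e _).1 (of_decide_eq_true (hf' e))]
    simp [tval]

def lev (t : T) : ℕ := t.foldr (fun e c => max (e.1 + 1) c) 0

theorem lev_le {t : T} {j : ℕ} : lev t ≤ j ↔ ∀ e ∈ t, e.1 < j := by
  induction t with
  | nil => simp [lev]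
  | cons e t ih =>
    have : lev (e :: t) = max (e.1 + 1) (lev t) := rfl
    simp [this, ih]

@[fun_prop] theorem ci_lev {α : Type} [Primcodable α] {f : α → T} (hf : CI O f) :
    CI O fun a => lev (f a) := by
  unfold lev; fun_prop

def nw (s : ℕ) : T := (Encodable.decode (α := T) s.unpair.1).getD []

@[fun_prop] theorem ci_nw {α : Type} [Primcodable α] {f : α → ℕ} (hf : CI O f) :
    CI O fun a => nw (f a) := by
  unfold nw; fun_prop

/-- one step of the construction -/
structure St (μ : ℕ → W) (B : ℕ → ℕ → Bool) (L L' : List T) : Prop where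
  len : L'.length = L.length + 1
  good : ∀ t ∈ L', ∀ e ∈ t, B (L.length + 1) e.1 = false
  mv : ∀ a < L.length, L'.getD a [] = L.getD a [] ∨ lev (L'.getD a []) < lev (L.getD a [])
  fix : ∀ a < L.length, (∀ j < lev (L.getD a []), B (L.length + 1) j = B L.length j) →
    L'.getD a [] = L.getD a []
  new : (∀ e ∈ nw L.length, B (L.length + 1) e.1 = false) → L'.getD L.length [] = nw L.length
  add : ∀ a < L.length, ∀ b < L.length, ∀ c < L.length,
    (tval μ (L'.getD a []) + tval μ (L'.getD b []) = tval μ (L'.getD c []) ↔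
      tval μ (L.getD a []) + tval μ (L.getD b []) = tval μ (L.getD c []))
  lt : ∀ a < L.length, ∀ b < L.length,
    (tval μ (L'.getD a []) < tval μ (L'.getD b []) ↔ tval μ (L.getD a []) < tval μ (L.getD b []))

theorem st_exists {μ : ℕ → W} (h0 : 0 < μ 0) {B : ℕ → ℕ → Bool}
    (hB0 : ∀ s, B s 0 = false) (L : List T) (hL : ∀ t ∈ L, ∀ e ∈ t, B L.length e.1 = false) :
    ∃ L', St μ B L L' := by
  -- a level `j` below which nothing changes
  obtain ⟨j, hj0, hj1, hj2⟩ : ∃ j, 0 < j ∧ (∀ i < j, B (L.length + 1) i = B L.length i) ∧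
      ∀ t ∈ L, (∀ i < lev t, B (L.length + 1) i = B L.length i) → lev t ≤ j := by
    by_cases hc : ∃ i, B (L.length + 1) i ≠ B L.length i
    · refine ⟨Nat.find hc, ?_, fun i hi => not_not.1 (Nat.find_min hc hi), fun t _ ht => ?_⟩
      · rw [Nat.find_pos]; simp [hB0]
      · by_contra hlt
        exact Nat.find_spec hc (ht _ (not_le.1 hlt))
    · refine ⟨(L.map lev).sum + 1, by omega, fun i _ => not_not.1 fun h => hc ⟨i, h⟩, fun t ht _ => ?_⟩
      exact (List.le_sum_of_mem (List.mem_map_of_mem ht)).trans (Nat.le_succ _)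
  let A : Set ℕ := {i | i < j ∧ B (L.length + 1) i = false}
  obtain ⟨φ, h1, h2, h3, h4⟩ := ret2 (Submodule.span ℚ (μ '' A))
    (Submodule.subset_span ⟨0, ⟨hj0, hB0 _⟩, rfl⟩) h0 (L.map (tval μ))
  have : ∀ t ∈ L, ∃ t' : T, (∀ e ∈ t', e.1 ∈ A) ∧ tval μ t' = φ (tval μ t) ∧ (lev t ≤ j → t' = t) := by
    intro t ht
    by_cases hl : lev t ≤ j
    · have hA : ∀ e ∈ t, e.1 ∈ A := fun e he =>
        ⟨lev_le.1 hl e he, by rw [hj1 _ (lev_le.1 hl e he)]; exact hL t ht e he⟩
      exact ⟨t, hA, (h1 _ ((mem_span_iff μ A _).2 ⟨t, hA, rfl⟩)).symm, fun _ => rfl⟩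
    · obtain ⟨t', g1, g2⟩ := (mem_span_iff μ A _).1 (h2 _ (List.mem_map_of_mem ht))
      exact ⟨t', g1, g2, fun h => absurd h hl⟩
  choose! F hF1 hF2 hF3 using this
  let n : T := if ∀ e ∈ nw L.length, B (L.length + 1) e.1 = false then nw L.length else []
  have hget : ∀ a < L.length, (L.map F ++ [n]).getD a [] = F (L.getD a []) := by
    intro a ha
    rw [List.getD_append _ _ _ _ (by simpa using ha)]
    simp [List.getD_eq_getElem?_getD, List.getElem?_eq_getElem ha]
  have hmem : ∀ a < L.length, L.getD a [] ∈ L := fun a ha => by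
    rw [List.getD_eq_getElem _ _ ha]; exact List.getElem_mem ha
  refine ⟨L.map F ++ [n], by simp, fun t ht e he => ?_, fun a ha => ?_, fun a ha hh => ?_,
    fun hh => ?_, fun a ha b hb c hc => ?_, fun a ha b hb => ?_⟩
  · rcases List.mem_append.1 ht with h | h
    · obtain ⟨t', ht', rfl⟩ := List.mem_map.1 h
      exact (hF1 t' ht' e he).2
    · rw [List.mem_singleton] at h
      subst h
      simp only [n] at he
      split_ifs at he with hh
      · exact hh e he
      · simp at he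
  · rw [hget a ha]
    by_cases hl : lev (L.getD a []) ≤ j
    · exact Or.inl (hF3 _ (hmem a ha) hl)
    · exact Or.inr (lt_of_le_of_lt (lev_le.2 fun e he => (hF1 _ (hmem a ha) e he).1) (not_le.1 hl))
  · rw [hget a ha]
    exact hF3 _ (hmem a ha) (hj2 _ (hmem a ha) hh)
  · rw [List.getD_append_right _ _ _ _ (by simp)]
    simp only [List.length_map, Nat.sub_self, List.getD_cons_zero, n]
    rw [if_pos hh]
  · rw [hget a ha, hget b hb, hget c hc, hF2 _ (hmem a ha), hF2 _ (hmem b hb), hF2 _ (hmem c hc)]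
    exact h3 _ (List.mem_map_of_mem (hmem a ha)) _ (List.mem_map_of_mem (hmem b hb)) _
      (List.mem_map_of_mem (hmem c hc))
  · rw [hget a ha, hget b hb, hF2 _ (hmem a ha), hF2 _ (hmem b hb)]
    exact h4 _ (List.mem_map_of_mem (hmem a ha)) _ (List.mem_map_of_mem (hmem b hb))

omit [IsOrderedAddMonoid W] in
theorem st_dec {μ : ℕ → W} (h : Num O μ) (hs : Function.Surjective μ) {B : ℕ → ℕ → Bool}
    (hB : CI O fun q : ℕ × ℕ => B q.1 q.2) :
    ∃ D : List T → List T → Bool, CI O (fun q : List T × List T => D q.1 q.2) ∧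
      ∀ L L', D L L' = true ↔ St μ B L L' := by
  obtain ⟨tc, h1, h2⟩ := h.tc hs
  obtain ⟨A, hA, hA'⟩ : ∃ A : ℕ → ℕ → ℕ → Bool, CI O (fun q : ℕ × ℕ × ℕ => A q.1 q.2.1 q.2.2) ∧
    ∀ a b c, A a b c = decide (μ a + μ b = μ c) :=
    ⟨_, h.add.of_eq fun _ => decide_eq_decide.2 Iff.rfl, fun _ _ _ => rfl⟩
  obtain ⟨C, hC, hC'⟩ : ∃ C : ℕ → ℕ → Bool, CI O (fun q : ℕ × ℕ => C q.1 q.2) ∧
    ∀ a b, C a b = decide (μ a < μ b) :=
    ⟨_, h.lt.of_eq fun _ => decide_eq_decide.2 Iff.rfl, fun _ _ => rfl⟩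
  refine ⟨fun L L' => decide (L'.length = L.length + 1) &&
    (L'.all fun t => t.all fun e => !B (L.length + 1) e.1) &&
    ((List.range L.length).all fun a => decide (L'.getD a [] = L.getD a []) ||
      decide (lev (L'.getD a []) < lev (L.getD a []))) &&
    ((List.range L.length).all fun a =>
      !((List.range (lev (L.getD a []))).all fun j => decide (B (L.length + 1) j = B L.length j)) ||
      decide (L'.getD a [] = L.getD a [])) &&
    (!((nw L.length).all fun e => !B (L.length + 1) e.1) ||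
      decide (L'.getD L.length [] = nw L.length)) &&
    ((List.range L.length).all fun a => (List.range L.length).all fun b =>
      (List.range L.length).all fun c =>
        decide (A (tc (L'.getD a [])) (tc (L'.getD b [])) (tc (L'.getD c [])) =
          A (tc (L.getD a [])) (tc (L.getD b [])) (tc (L.getD c [])))) &&
    ((List.range L.length).all fun a => (List.range L.length).all fun b =>
        decide (C (tc (L'.getD a [])) (tc (L'.getD b [])) =
          C (tc (L.getD a [])) (tc (L.getD b [])))), by fun_prop, fun L L' => ?_⟩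
  simp only [Bool.and_eq_true, decide_eq_true_eq, List.all_eq_true, List.mem_range, Bool.or_eq_true,
    Bool.not_eq_true', hA', hC', h2, decide_eq_decide]
  constructor
  · rintro ⟨⟨⟨⟨⟨⟨g1, g2⟩, g3⟩, g4⟩, g5⟩, g6⟩, g7⟩
    refine ⟨g1, g2, g3, fun a ha hh => (g4 a ha).resolve_left fun hf => ?_,
      fun hh => g5.resolve_left fun hf => ?_, g6, g7⟩
    · rw [← Bool.not_eq_true] at hf
      exact hf (by simpa using hh)
    · rw [← Bool.not_eq_true] at hf
      exact hf (by simpa using hh)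
  · intro g
    refine ⟨⟨⟨⟨⟨⟨g.len, g.good⟩, g.mv⟩, fun a ha => ?_⟩, ?_⟩, g.add⟩, g.lt⟩
    · rw [or_iff_not_imp_left, Bool.not_eq_false]
      exact fun hh => g.fix a ha (by simpa using hh)
    · rw [or_iff_not_imp_left, Bool.not_eq_false]
      exact fun hh => g.new (by simpa using hh)

theorem lim_of_lev (x : ℕ → T) (h : ∀ s, x (s + 1) = x s ∨ lev (x (s + 1)) < lev (x s)) :
    ∃ s0, ∀ s ≥ s0, x s = x s0 := by
  have key : ∀ k s0, lev (x s0) ≤ k → ∃ s1, ∀ s ≥ s1, x s = x s1 := by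
    intro k
    induction k using Nat.strong_induction_on with
    | _ k ih =>
      intro s0 hk
      by_cases hc : ∀ s ≥ s0, x s = x s0
      · exact ⟨s0, hc⟩
      · have hc' : ∃ n, x (s0 + n + 1) ≠ x s0 := by
          by_contra hn
          refine hc fun s hs => ?_
          obtain ⟨n, rfl⟩ := Nat.exists_eq_add_of_le hs
          cases n with
          | zero => rfl
          | succ n => exact not_not.1 fun h' => hn ⟨n, h'⟩
        have h1 : x (s0 + Nat.find hc') = x s0 := by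
          rcases hf : Nat.find hc' with _ | n
          · rfl
          · exact not_not.1 (Nat.find_min hc' (m := n) (by omega))
        have h2 := (h (s0 + Nat.find hc')).resolve_left (by rw [h1]; exact Nat.find_spec hc')
        rw [h1] at h2
        exact ih _ (h2.trans_le hk) _ le_rfl
  exact key _ 0 le_rfl

theorem engine {μ : ℕ → W} (h : Num O μ) (hs : Function.Surjective μ) (h0 : 0 < μ 0)
    {B : ℕ → ℕ → Bool} (hB : CI O fun q : ℕ × ℕ => B q.1 q.2) (hB0 : ∀ s, B s 0 = false)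
    (hm : ∀ s t j, s ≤ t → B s j = true → B t j = true) :
    ∃ ν : ℕ → W, Num O ν ∧
      Set.range ν = Submodule.span ℚ (μ '' {j | ∀ s, B s j = false}) := by
  obtain ⟨D, hD, hD'⟩ := st_dec h hs hB
  obtain ⟨S, hS, hS0, hS1⟩ := CI.dc (O := O) (D := fun L L' _ => D L L') (by fun_prop)
    (fun L => ∀ t ∈ L, ∀ e ∈ t, B L.length e.1 = false) [] (by simp)
    (fun L hL => by
      obtain ⟨L', h'⟩ := st_exists h0 hB0 L hL
      exact ⟨L', 0, (hD' _ _).2 h'⟩)
    (fun L L' _ _ h' => by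
      have := (hD' _ _).1 h'
      rw [this.len]; exact this.good)
  have hSt : ∀ s, St μ B (S s) (S (s + 1)) := fun s => by
    obtain ⟨_, h'⟩ := (hS1 s).2
    exact (hD' _ _).1 h'
  have hlen : ∀ s, (S s).length = s := fun s => by
    induction s with
    | zero => simp [hS0]
    | succ s ih => rw [(hSt s).len, ih]
  have hlim : ∀ a, ∃ s0, a < s0 ∧ ∀ s ≥ s0, (S s).getD a [] = (S s0).getD a [] := fun a => by
    obtain ⟨s0, h'⟩ := lim_of_lev (fun s => (S (a + 1 + s)).getD a []) fun s =>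
      (hSt (a + 1 + s)).mv a (by rw [hlen]; omega)
    refine ⟨a + 1 + s0, by omega, fun s hs => ?_⟩
    obtain ⟨n, rfl⟩ : ∃ n, s = a + 1 + n := ⟨s - (a + 1), by omega⟩
    exact h' n (by omega)
  choose σ hσ1 hσ2 using hlim
  let ν : ℕ → W := fun a => tval μ ((S (σ a)).getD a [])
  have hadd : ∀ a b c s t, a < s → b < s → c < s → s ≤ t →
      (tval μ ((S t).getD a []) + tval μ ((S t).getD b []) = tval μ ((S t).getD c []) ↔
      tval μ ((S s).getD a []) + tval μ ((S s).getD b []) = tval μ ((S s).getD c [])) := by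
    intro a b c s t ha hb hc hst
    induction t, hst using Nat.le_induction with
    | base => rfl
    | succ t hst ih =>
      rw [← ih]
      exact (hSt t).add a (by rw [hlen]; omega) b (by rw [hlen]; omega) c (by rw [hlen]; omega)
  have hlt : ∀ a b s t, a < s → b < s → s ≤ t →
      (tval μ ((S t).getD a []) < tval μ ((S t).getD b []) ↔
      tval μ ((S s).getD a []) < tval μ ((S s).getD b [])) := by
    intro a b s t ha hb hst
    induction t, hst using Nat.le_induction with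
    | base => rfl
    | succ t hst ih =>
      rw [← ih]
      exact (hSt t).lt a (by rw [hlen]; omega) b (by rw [hlen]; omega)
  obtain ⟨tc, h1, h2⟩ := h.tc hs
  refine ⟨ν, ⟨?_, ?_⟩, ?_⟩
  · refine (h.add.comp (g := fun q : ℕ × ℕ × ℕ =>
      (tc ((S (q.1 + q.2.1 + q.2.2 + 1)).getD q.1 []), tc ((S (q.1 + q.2.1 + q.2.2 + 1)).getD q.2.1 []),
        tc ((S (q.1 + q.2.1 + q.2.2 + 1)).getD q.2.2 []))) (by fun_prop)).of_eq fun ⟨a, b, c⟩ => ?_
    simp only [h2, decide_eq_decide, ν]
    rw [← hadd a b c _ (a + b + c + 1 + σ a + σ b + σ c) (by omega) (by omega) (by omega) (by omega),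
      hσ2 a _ (by omega), hσ2 b _ (by omega), hσ2 c _ (by omega)]
  · refine (h.lt.comp (g := fun q : ℕ × ℕ =>
      (tc ((S (q.1 + q.2 + 1)).getD q.1 []), tc ((S (q.1 + q.2 + 1)).getD q.2 [])))
        (by fun_prop)).of_eq fun ⟨a, b⟩ => ?_
    simp only [h2, decide_eq_decide, ν]
    rw [← hlt a b _ (a + b + 1 + σ a + σ b) (by omega) (by omega) (by omega),
      hσ2 a _ (by omega), hσ2 b _ (by omega)]
  · ext z
    simp only [SetLike.mem_coe, mem_span_iff]
    constructor
    · rintro ⟨a, rfl⟩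
      refine ⟨_, fun e he s => ?_, rfl⟩
      rw [← hσ2 a (σ a + s) (by omega)] at he
      have hl : a < (S (σ a + s)).length := by rw [hlen]; have := hσ1 a; omega
      have := (hS1 (σ a + s)).1 _ (by rw [List.getD_eq_getElem _ _ hl]; exact List.getElem_mem hl) e he
      rw [hlen] at this
      by_contra hb
      rw [hm s (σ a + s) e.1 (by omega) (by simpa using hb)] at this
      exact absurd this (by simp)
    · rintro ⟨t, ht, rfl⟩
      obtain ⟨s0, hs0⟩ : ∃ s0, ∀ j < lev t, ∀ s ≥ s0, B s j = B s0 j := by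
        generalize lev t = k
        induction k with
        | zero => exact ⟨0, by simp⟩
        | succ k ih =>
          obtain ⟨s0, hs0⟩ := ih
          obtain ⟨s1, hs1⟩ : ∃ s1, ∀ s ≥ s1, B s k = B s1 k := by
            by_cases hc : ∃ s, B s k = true
            · obtain ⟨s1, hs1⟩ := hc
              exact ⟨s1, fun s hs => by rw [hs1, hm s1 s k hs hs1]⟩
            · exact ⟨0, fun s _ => by
                rw [Bool.eq_false_iff.2 fun h => hc ⟨s, h⟩, Bool.eq_false_iff.2 fun h => hc ⟨0, h⟩]⟩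
          refine ⟨s0 + s1, fun j hj s hs => ?_⟩
          rcases Nat.lt_succ_iff_lt_or_eq.1 hj with hj | rfl
          · rw [hs0 j hj s (by omega), hs0 j hj (s0 + s1) (by omega)]
          · rw [hs1 s (by omega), hs1 (s0 + s1) (by omega)]
      let a := Nat.pair (Encodable.encode t) s0
      have ha : s0 ≤ a := Nat.right_le_pair _ _
      have hn : nw a = t := by simp [nw, a]
      have key : ∀ s, a + 1 ≤ s → (S s).getD a [] = t := by
        intro s hs
        induction s, hs using Nat.le_induction with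
        | base =>
          have := (hSt a).new
          rw [hlen, hn] at this
          exact this fun e he => ht e he _
        | succ s hs ih =>
          have := (hSt s).fix a (by rw [hlen]; omega)
          rw [hlen, ih] at this
          exact this fun j hj => by rw [hs0 j hj _ (by omega), hs0 j hj s (by omega)]
      exact ⟨a, by simp only [ν]; rw [key _ (hσ1 a)]⟩

end Pool.Agent.H62.Pb
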