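import Pool.Agent.H62.Pb2

/-! Computable numberings of `V` and of `V ×ₗ ℤ` in the same oracle. -/

set_option autoImplicit false

namespace Pool.Agent.H62.Pb

open Pool.Agent.H37 Classical

variable {O : Set (ℕ →. ℕ)}

theorem ratMod (V : Type) [AddCommGroup V] [LinearOrder V] [IsOrderedAddMonoid V]
    (hd : ∀ (n : ℕ) (v : V), n ≠ 0 → ∃ w, n • w = v) : Nonempty (Module ℚ V) := by
  have : IsLocalizedModule (nonZeroDivisors ℤ) (LinearMap.id : V →ₗ[ℤ] V) := by
    refine ⟨fun x => ?_, fun y => ⟨(y, 1), by simp⟩, fun h => ⟨1, by simpa using h⟩⟩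
    have hx : (x : ℤ) ≠ 0 := nonZeroDivisors.coe_ne_zero x
    rw [Module.End.isUnit_iff]
    refine ⟨fun a b h => ?_, fun v => ?_⟩
    · simp only [Module.algebraMap_end_apply] at h
      exact zsmul_right_injective hx h
    · obtain ⟨w, hw⟩ := hd (x : ℤ).natAbs v (Int.natAbs_ne_zero.2 hx)
      refine ⟨(x : ℤ).sign • w, ?_⟩
      rw [Module.algebraMap_end_apply, smul_smul, Int.mul_sign_self, natCast_zsmul, hw]
  exact ⟨IsLocalizedModule.module (A := ℚ) (nonZeroDivisors ℤ) (LinearMap.id : V →ₗ[ℤ] V)⟩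

theorem num_hull {P W : Type} [AddCommGroup P] [LinearOrder P]
    [AddCommGroup W] [LinearOrder W] [IsOrderedAddMonoid W] [Module ℚ W] (ι : P →+ W)
    (hι : ∀ a b, ι a < ι b ↔ a < b) (hw : ∀ w : W, ∃ n : ℕ, ∃ p, (n + 1) • w = ι p)
    {e : ℕ → P} (h : Num O e) (hs : Function.Surjective e) :
    ∃ μ : ℕ → W, Num O μ ∧ Function.Surjective μ := by
  obtain ⟨mu, h3, h4⟩ := h.mul hs
  have hinj : Function.Injective ι := fun a b hab => by
    rcases lt_trichotomy a b with h | h | h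
    · exact absurd hab ((hι _ _).2 h).ne
    · exact h
    · exact absurd hab ((hι _ _).2 h).ne'
  have hpos : ∀ n : ℕ, (0 : ℚ) < n + 1 := fun n => by positivity
  refine ⟨fun n => ((n.unpair.2 : ℚ) + 1)⁻¹ • ι (e n.unpair.1), ⟨?_, ?_⟩, fun w => ?_⟩
  · refine (h.add.comp (g := fun q : ℕ × ℕ × ℕ =>
      (mu ((q.2.1.unpair.2 + 1) * (q.2.2.unpair.2 + 1)) q.1.unpair.1,
        mu ((q.1.unpair.2 + 1) * (q.2.2.unpair.2 + 1)) q.2.1.unpair.1,
        mu ((q.1.unpair.2 + 1) * (q.2.1.unpair.2 + 1)) q.2.2.unpair.1)) (by fun_prop)).of_eq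
      fun ⟨a, b, c⟩ => ?_
    simp only [h4, decide_eq_decide]
    have hN : ((a.unpair.2 : ℚ) + 1) * ((b.unpair.2 : ℚ) + 1) * ((c.unpair.2 : ℚ) + 1) ≠ 0 := by
      positivity
    rw [← hinj.eq_iff]
    refine Iff.trans ?_ (smul_right_injective W hN).eq_iff
    simp only [map_add, map_nsmul, ← Nat.cast_smul_eq_nsmul ℚ, smul_add, smul_smul]
    push_cast
    have := (hpos a.unpair.2).ne'
    have := (hpos b.unpair.2).ne'
    have := (hpos c.unpair.2).ne'
    refine Eq.congr ?_ ?_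
    · congr 2 <;> field_simp
    · congr 1; field_simp
  · refine (h.lt.comp (g := fun q : ℕ × ℕ =>
      (mu (q.2.unpair.2 + 1) q.1.unpair.1, mu (q.1.unpair.2 + 1) q.2.unpair.1)) (by fun_prop)).of_eq
      fun ⟨a, b⟩ => ?_
    simp only [h4, decide_eq_decide]
    have hN : 0 < ((a.unpair.2 : ℚ) + 1) * ((b.unpair.2 : ℚ) + 1) := by positivity
    rw [← hι]
    refine Iff.trans ?_ (qlt (W := W) hN)
    simp only [map_nsmul, ← Nat.cast_smul_eq_nsmul ℚ, smul_smul]
    push_cast
    have := (hpos a.unpair.2).ne'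
    have := (hpos b.unpair.2).ne'
    congr! 2 <;> field_simp
  · obtain ⟨n, p, hp⟩ := hw w
    obtain ⟨a, rfl⟩ := hs p
    refine ⟨Nat.pair a n, ?_⟩
    simp only [Nat.unpair_pair, ← hp, ← Nat.cast_smul_eq_nsmul ℚ, smul_smul]
    push_cast
    rw [inv_mul_cancel₀ (hpos n).ne', one_smul]

/-- a complement of a line has a computable numbering -/
theorem num_compl {W : Type} [AddCommGroup W] [LinearOrder W] [IsOrderedAddMonoid W] [Module ℚ W]
    {μ : ℕ → W} (h : Num O μ) (hs : Function.Surjective μ) (ε v : W) (hv : 0 < v)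
    (hv' : v ∉ Submodule.span ℚ {ε}) :
    ∃ (ν : ℕ → W) (U : Submodule ℚ W), Num O ν ∧ Set.range ν = U ∧
      IsCompl U (Submodule.span ℚ {ε}) := by
  obtain ⟨a0, ha0⟩ := hs v
  let μ' : ℕ → W := fun n => μ (if n = 0 then a0 else n - 1)
  have h' : Num O μ' := h.comp (by fun_prop)
  have hs' : Function.Surjective μ' := fun w => by
    obtain ⟨a, rfl⟩ := hs w
    exact ⟨a + 1, by simp [μ']⟩
  have h0 : μ' 0 = v := by simp [μ', ha0]
  clear_value μ'
  obtain ⟨e0, he0⟩ := hs' ε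
  obtain ⟨tc, h1, h2⟩ := h'.tc hs'
  obtain ⟨E, hE, hE'⟩ : ∃ E : ℕ → ℕ → Bool, CI O (fun q : ℕ × ℕ => E q.1 q.2) ∧
    ∀ a b, E a b = true ↔ μ' a = μ' b := ⟨fun a b => decide (μ' a = μ' b), h'.eq, fun _ _ => by simp⟩
  let B : ℕ → ℕ → Bool := fun s j => (List.range s).any fun n =>
    ((nw n).all fun e => decide (e.1 < j) || decide (e.1 = e0)) && E j (tc (nw n))
  have hB : CI O fun q : ℕ × ℕ => B q.1 q.2 := by simp only [B]; fun_prop
  have hB' : ∀ s j, B s j = true ↔ ∃ n < s, (∀ e ∈ nw n, e.1 < j ∨ e.1 = e0) ∧ μ' j = tval μ' (nw n) := by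
    intro s j; simp [B, hE', h2]
  clear_value B
  have hG : ∀ j, (∀ s, B s j = false) ↔ μ' j ∉ Submodule.span ℚ (μ' '' {i | i < j ∨ i = e0}) := by
    intro j
    rw [mem_span_iff]
    constructor
    · rintro hb ⟨t, ht, ht'⟩
      have hn : nw (Nat.pair (Encodable.encode t) 0) = t := by simp [nw]
      have := (hB' (Nat.pair (Encodable.encode t) 0 + 1) j).2 ⟨_, Nat.lt_succ_self _, by
        rw [hn]; exact ⟨ht, ht'.symm⟩⟩
      rw [hb] at this
      exact absurd this (by simp)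
    · intro hn s
      rw [Bool.eq_false_iff]
      intro hb
      obtain ⟨n, -, g1, g2⟩ := (hB' s j).1 hb
      exact hn ⟨_, g1, g2.symm⟩
  obtain ⟨ν, g1, g2⟩ := engine h' hs' (h0 ▸ hv) hB ((hG 0).2 (by
      have : μ' '' {i | i < 0 ∨ i = e0} = {ε} := by ext x; simp [he0, eq_comm]
      rw [this, h0]; exact hv'))
    fun s t j hst hb => by
      obtain ⟨n, g0, g1⟩ := (hB' s j).1 hb
      exact (hB' t j).2 ⟨n, by omega, g1⟩
  refine ⟨ν, _, g1, g2, ?_, ?_⟩
  · have key : ∀ k, Disjoint (Submodule.span ℚ (μ' '' {j | j < k ∧ ∀ s, B s j = false}))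
        (Submodule.span ℚ {ε}) := by
      intro k
      induction k with
      | zero => simp
      | succ k ih =>
        by_cases hk : ∀ s, B s k = false
        · have : μ' '' {j | j < k + 1 ∧ ∀ s, B s j = false} =
              insert (μ' k) (μ' '' {j | j < k ∧ ∀ s, B s j = false}) := by
            rw [← Set.image_insert_eq]
            congr 1
            ext j
            simp only [Set.mem_ofPred_eq, Set.mem_insert_iff]
            constructor
            · rintro ⟨g, g'⟩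
              rcases Nat.lt_succ_iff_lt_or_eq.1 g with g | g
              exacts [Or.inr ⟨g, g'⟩, Or.inl g]
            · rintro (rfl | ⟨g, g'⟩)
              exacts [⟨by omega, hk⟩, ⟨by omega, g'⟩]
          rw [this, Submodule.disjoint_def]
          intro x hx hx'
          obtain ⟨q, z, hz, rfl⟩ := Submodule.mem_span_insert.1 hx
          rcases eq_or_ne q 0 with rfl | hq
          · simp only [zero_smul, zero_add] at hx' ⊢
            exact Submodule.disjoint_def.1 ih z hz hx'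
          · refine absurd ?_ ((hG k).1 hk)
            have e1 : μ' k = q⁻¹ • ((q • μ' k + z) - z) := by
              rw [add_sub_cancel_right, smul_smul, inv_mul_cancel₀ hq, one_smul]
            rw [e1]
            refine Submodule.smul_mem _ _ (Submodule.sub_mem _ (Submodule.span_mono ?_ hx')
              (Submodule.span_mono (Set.image_mono fun j hj => Or.inl hj.1) hz))
            rintro _ rfl
            exact ⟨e0, Or.inr rfl, he0⟩
        · have : {j | j < k + 1 ∧ ∀ s, B s j = false} = {j | j < k ∧ ∀ s, B s j = false} := by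
            ext j
            simp only [Set.mem_ofPred_eq]
            constructor
            · rintro ⟨g, g'⟩
              rcases Nat.lt_succ_iff_lt_or_eq.1 g with g | rfl
              exacts [⟨g, g'⟩, absurd g' hk]
            · rintro ⟨g, g'⟩
              exact ⟨by omega, g'⟩
          rw [this]; exact ih
    rw [Submodule.disjoint_def]
    intro x hx hx'
    obtain ⟨t, ht, rfl⟩ := (mem_span_iff _ _ _).1 hx
    exact Submodule.disjoint_def.1 (key (lev t)) _ ((mem_span_iff _ _ _).2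
      ⟨t, fun e he => ⟨lev_le.1 le_rfl e he, ht e he⟩, rfl⟩) hx'
  · rw [codisjoint_iff, eq_top_iff]
    intro w _
    obtain ⟨j, rfl⟩ := hs' w
    clear ‹_ ∈ ⊤›
    induction j using Nat.strong_induction_on with
    | _ j ih =>
      by_cases hj : ∀ s, B s j = false
      · exact Submodule.mem_sup_left (Submodule.subset_span ⟨j, hj, rfl⟩)
      · rw [hG, not_not] at hj
        refine (Submodule.span_le.2 ?_) hj
        rintro _ ⟨i, hi | rfl, rfl⟩
        · exact ih i hi
        · exact Submodule.mem_sup_right (Submodule.subset_span he0)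

variable {V : Type} [AddCommGroup V] [LinearOrder V] [IsOrderedAddMonoid V]

theorem num_of_prod [Nontrivial V] (hd : ∀ (n : ℕ) (v : V), n ≠ 0 → ∃ w, n • w = v)
    {e : ℕ → V ×ₗ ℤ} (h : Num O e) (hs : Function.Surjective e) :
    ∃ ν : ℕ → V, Num O ν ∧ Function.Surjective ν := by
  obtain ⟨_⟩ := ratMod V hd
  let ι : V ×ₗ ℤ →+ V ×ₗ ℚ := AddMonoidHom.mk' (fun p => toLex ((ofLex p).1, ((ofLex p).2 : ℚ)))
    fun a b => by
      simp only [ofLex_add, Prod.fst_add, Prod.snd_add, Int.cast_add, ← toLex_add, Prod.mk_add_mk]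
  obtain ⟨μ, g1, g2⟩ := num_hull ι (fun a b => by simp [ι, Prod.Lex.lt_iff]) (fun w =>
    ⟨(ofLex w).2.den - 1, toLex ((ofLex w).2.den • (ofLex w).1, (ofLex w).2.num), by
      have := (ofLex w).2.den_pos
      rw [Nat.sub_add_cancel this]
      apply ofLex.injective
      refine Prod.ext rfl ?_
      show (ofLex w).2.den • (ofLex w).2 = ((ofLex w).2.num : ℚ)
      rw [nsmul_eq_mul, mul_comm]; exact Rat.mul_den_eq_num _⟩) h hs
  obtain ⟨v, hv⟩ : ∃ v : V, 0 < v := by
    obtain ⟨v, hv⟩ := exists_ne (0 : V)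
    exact ⟨|v|, abs_pos.2 hv⟩
  have hε : ∀ z : V ×ₗ ℚ, z ∈ Submodule.span ℚ {toLex ((0 : V), (1 : ℚ))} ↔ (ofLex z).1 = 0 := by
    intro z
    rw [Submodule.mem_span_singleton]
    constructor
    · rintro ⟨q, rfl⟩
      exact smul_zero q
    · intro hz
      refine ⟨(ofLex z).2, ofLex.injective (Prod.ext ?_ ?_)⟩
      · rw [hz]; exact smul_zero _
      · exact mul_one _
  obtain ⟨ν, U, k1, k2, k3⟩ := num_compl g1 g2 (toLex (0, 1)) (toLex (v, 0))
    (by simp [Prod.Lex.lt_iff, hv]) (by rw [hε]; exact hv.ne')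
  have hU : ∀ n, ν n ∈ U := fun n => by rw [← SetLike.mem_coe, ← k2]; exact ⟨n, rfl⟩
  have hinj : ∀ a ∈ U, ∀ b ∈ U, (ofLex a).1 = (ofLex b).1 → a = b := fun a ha b hb hab =>
    sub_eq_zero.1 (Submodule.disjoint_def.1 k3.disjoint _ (U.sub_mem ha hb)
      ((hε _).2 (sub_eq_zero.2 hab)))
  refine ⟨fun n => (ofLex (ν n)).1, ⟨k1.add.of_eq fun q => ?_, k1.lt.of_eq fun q => ?_⟩, fun x => ?_⟩
  · rw [decide_eq_decide]
    exact ⟨fun h => by rw [← h]; rfl, fun h => hinj _ (U.add_mem (hU _) (hU _)) _ (hU _) h⟩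
  · rw [decide_eq_decide, Prod.Lex.lt_iff]
    refine ⟨fun h => h.elim id fun h => ?_, Or.inl⟩
    rw [hinj _ (hU _) _ (hU _) h.1] at h
    exact absurd h.2 (lt_irrefl _)
  · have : toLex (x, (0 : ℚ)) ∈ U ⊔ Submodule.span ℚ {toLex ((0 : V), (1 : ℚ))} := by
      rw [k3.sup_eq_top]; trivial
    obtain ⟨u, hu, z, hz, huz⟩ := Submodule.mem_sup.1 this
    rw [← SetLike.mem_coe, ← k2] at hu
    obtain ⟨n, rfl⟩ := hu
    refine ⟨n, ?_⟩
    have := congrArg (fun z => (ofLex z).1) huz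
    simpa [(hε z).1 hz] using this

omit [IsOrderedAddMonoid V] in
theorem num_prod {e : ℕ → V} (h : Num O e) (hs : Function.Surjective e) :
    ∃ ν : ℕ → V ×ₗ ℤ, Num O ν ∧ Function.Surjective ν := by
  refine ⟨fun n => toLex (e n.unpair.1, (n.unpair.2.unpair.1 : ℤ) - n.unpair.2.unpair.2),
    ⟨?_, ?_⟩, fun p => ?_⟩
  · refine ((h.add.comp (g := fun q : ℕ × ℕ × ℕ => (q.1.unpair.1, q.2.1.unpair.1, q.2.2.unpair.1))
      (by fun_prop)).and (g := fun q : ℕ × ℕ × ℕ => decide
        (q.1.unpair.2.unpair.1 + q.2.1.unpair.2.unpair.1 + q.2.2.unpair.2.unpair.2 =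
        q.1.unpair.2.unpair.2 + q.2.1.unpair.2.unpair.2 + q.2.2.unpair.2.unpair.1))
      (by fun_prop)).of_eq fun q => ?_
    rw [← Bool.decide_and, decide_eq_decide, ← toLex_add, toLex_inj, Prod.mk_add_mk, Prod.mk_inj]
    exact and_congr Iff.rfl (by omega)
  · refine ((h.lt.comp (g := fun q : ℕ × ℕ => (q.1.unpair.1, q.2.unpair.1)) (by fun_prop)).or
      ((h.eq.comp (g := fun q : ℕ × ℕ => (q.1.unpair.1, q.2.unpair.1)) (by fun_prop)).and
      (g := fun q : ℕ × ℕ => decide (q.1.unpair.2.unpair.1 + q.2.unpair.2.unpair.2 <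
        q.1.unpair.2.unpair.2 + q.2.unpair.2.unpair.1)) (by fun_prop))).of_eq fun q => ?_
    rw [← Bool.decide_and, ← Bool.decide_or, decide_eq_decide, Prod.Lex.toLex_lt_toLex]
    exact or_congr Iff.rfl (and_congr Iff.rfl (by simp only; omega))
  · obtain ⟨a, ha⟩ := hs (ofLex p).1
    refine ⟨Nat.pair a (Nat.pair (ofLex p).2.toNat (-(ofLex p).2).toNat), ?_⟩
    simp only [Nat.unpair_pair, ha, Int.toNat_sub_toNat_neg]
    rfl

end Pool.Agent.H62.Pb
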