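import Mathlib

/-! Atomic diagrams and degree spectra of ordered groups with constants. -/

set_option autoImplicit false

namespace Pool.Agent.H62.Pb

/-- terms built by `+` from `k` constant symbols and from names `n : ℕ` of elements -/
inductive Tm (k : ℕ) : Type
  | par (n : ℕ) : Tm k
  | con (i : Fin k) : Tm k
  | add (s t : Tm k) : Tm k

/-- Goedel number of a term -/
def Tm.code {k : ℕ} : Tm k → ℕ
  | .par n => 3 * n
  | .con i => 3 * i.val + 1
  | .add s t => 3 * Nat.pair s.code t.code + 2

/-- value of a term: `c` interprets the constants and `e` the names -/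
def Tm.val {k : ℕ} {M : Type} [Add M] (c : Fin k → M) (e : ℕ → M) : Tm k → M
  | .par n => e n
  | .con i => c i
  | .add s t => s.val c e + t.val c e

/-- the atomic diagram of `(M, +, <, c)` in the names `e`: the Goedel numbers of the true
sentences `s = t` and `s < t` -/
def diag {k : ℕ} {M : Type} [Add M] [LT M] (c : Fin k → M) (e : ℕ → M) : Set ℕ :=
  {n | ∃ s t : Tm k, (n = 2 * Nat.pair s.code t.code ∧ s.val c e = t.val c e) ∨
    (n = 2 * Nat.pair s.code t.code + 1 ∧ s.val c e < t.val c e)}

open Classical in
/-- characteristic function -/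
noncomputable def chi (A : Set ℕ) (n : ℕ) : ℕ := if n ∈ A then 1 else 0

/-- the Turing degree of a set of naturals -/
noncomputable def deg (A : Set ℕ) : TuringDegree :=
  toAntisymmetrization TuringReducible fun n => Part.some (chi A n)

/-- the degree spectrum of `(M, +, <, c)`: the degrees of the atomic diagrams of the copies with
domain `ℕ` (the structures pulled back along a bijection `ℕ ≃ M`) -/
def DgSp {k : ℕ} (M : Type) [Add M] [LT M] (c : Fin k → M) : Set TuringDegree :=
  {d | ∃ e : ℕ ≃ M, d = deg (diag c e)}

end Pool.Agent.H62.Pb
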