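import Pool.Agent.H62.Pb3
import Pool.Agent.H62.PbDefs

/-! Atomic diagrams, upward closure of spectra of ordered structures. -/

set_option autoImplicit false

namespace Pool.Agent.H62.Pb

open Pool.Agent.H37 Classical

variable {O : Set (ℕ →. ℕ)}

theorem equiv_of_num {τ : Type} [Infinite τ] (ν : ℕ → τ)
    (hν : Function.Surjective ν) (E : ℕ → ℕ → Bool) (hE : CI O fun p : ℕ × ℕ => E p.1 p.2)
    (hEν : ∀ a b, E a b = true ↔ ν a = ν b) :
    ∃ (e : ℕ ≃ τ) (r s : ℕ → ℕ), CI O r ∧ CI O s ∧ (∀ n, ν (r n) = e n) ∧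
      ∀ m, e (s m) = ν m := by
  classical
  let P : ℕ → Bool := fun n => (List.range n).all fun m => !E m n
  have hP : CI O P := by
    refine CI.all (by fun_prop) (CI.not ?_)
    exact hE.comp (g := fun q : ℕ × ℕ => (q.2, q.1)) (by fun_prop)
  have hPs : ∀ n, P n = true ↔ ∀ m < n, ν m ≠ ν n := by
    intro n; simp [P, ← hEν]
  have hex : ∀ m, ∃ k, E k m = true := fun m => ⟨m, (hEν _ _).2 rfl⟩
  let lst : ℕ → ℕ := fun m => Nat.find (hex m)
  have hlst : CI O lst := CI.find (p := fun m k => E k m)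
    (hE.comp (g := fun q : ℕ × ℕ => (q.2, q.1)) (by fun_prop)) hex
  have hl1 : ∀ m, ν (lst m) = ν m := fun m => (hEν _ _).1 (Nat.find_spec (hex m))
  have hl2 : ∀ m, P (lst m) = true := fun m => (hPs _).2 fun k hk hkk =>
    Nat.find_min (hex m) hk ((hEν _ _).2 (hkk.trans (hl1 m)))
  have hinj : ∀ a b, P a = true → P b = true → ν a = ν b → a = b := by
    intro a b ha hb hab
    rcases lt_trichotomy a b with h | h | h
    · exact absurd hab ((hPs b).1 hb a h)
    · exact h
    · exact absurd hab.symm ((hPs a).1 ha b h)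
  have hinf : (Set.ofPred fun n => P n = true).Infinite := by
    intro hf
    have : (Set.univ : Set τ).Finite := by
      refine (hf.image ν).subset fun x _ => ?_
      obtain ⟨m, rfl⟩ := hν x
      exact ⟨lst m, hl2 m, hl1 m⟩
    exact Set.infinite_univ this
  let cnt : ℕ → ℕ := fun n => Nat.count (fun n => P n = true) n
  have hcnt : CI O cnt :=
    CI.of_rec1 (h := fun n c => c + cond (P n) 1 0) (by fun_prop) fun n => by
      simp only [cnt, Nat.count_succ]; cases P n <;> simp
  have hex2 : ∀ n, ∃ k, (P k && decide (cnt k = n)) = true := fun n =>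
    ⟨Nat.nth (fun n => P n = true) n, by
      simp [cnt, Nat.nth_mem_of_infinite hinf, Nat.count_nth_of_infinite hinf]⟩
  obtain ⟨r, hr, hr'⟩ := CI.exists_choice (O := O)
    (p := fun n k => P k && decide (cnt k = n)) (by fun_prop) hex2
  simp only [Bool.and_eq_true, decide_eq_true_eq] at hr'
  have hcinj : ∀ a b, P a = true → P b = true → cnt a = cnt b → a = b := by
    intro a b ha hb hab
    rw [← Nat.nth_count (p := fun n => P n = true) ha, ← Nat.nth_count (p := fun n => P n = true) hb]
    exact congrArg _ hab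
  have hbij : Function.Bijective fun n => ν (r n) := by
    constructor
    · intro a b hab
      have := hinj _ _ (hr' a).1 (hr' b).1 hab
      rw [← (hr' a).2, ← (hr' b).2, this]
    · intro x
      obtain ⟨m, rfl⟩ := hν x
      refine ⟨cnt (lst m), ?_⟩
      show ν (r _) = _
      rw [hcinj _ _ (hr' _).1 (hl2 m) (hr' _).2, hl1]
  refine ⟨Equiv.ofBijective _ hbij, r, fun m => cnt (lst m), hr, by fun_prop, fun n => rfl,
    fun m => ?_⟩
  show ν (r _) = _
  rw [hcinj _ _ (hr' _).1 (hl2 m) (hr' _).2, hl1]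


theorem ci_strong {σ : Type} [Primcodable σ] {g : ℕ → σ} {h : ℕ → List σ → σ}
    (hh : CI O fun q : ℕ × List σ => h q.1 q.2) (H : ∀ n, g n = h n (pre g n)) : CI O g := by
  have h1 : CI O (pre g) := CI.of_rec1 (h := fun n l => l ++ [h n l]) (by fun_prop) fun n => by
    rw [pre_succ, ← H]
  exact (hh.comp (g := fun n => (n, pre g n)) (by fun_prop)).of_eq fun n => (H n).symm

theorem code_inj {k : ℕ} : ∀ s t : Tm k, s.code = t.code → s = t := by
  intro s
  induction s with
  | par n => intro t h; cases t <;> simp only [Tm.code] at h <;> first | omega | (congr 1; omega)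
  | con i =>
    intro t h; cases t <;> simp only [Tm.code] at h <;> first | omega | (congr 1; ext; omega)
  | add a b iha ihb =>
    intro t h
    cases t with
    | add c d =>
      simp only [Tm.code] at h
      have := Nat.pair_eq_pair.1 (by omega : Nat.pair a.code b.code = Nat.pair c.code d.code)
      rw [iha _ this.1, ihb _ this.2]
    | _ => simp only [Tm.code] at h; omega

variable {k : ℕ} {M : Type}

theorem mem_diag_eq [Add M] [LT M] (c : Fin k → M) (e : ℕ → M) (s t : Tm k) :
    2 * Nat.pair s.code t.code ∈ diag c e ↔ s.val c e = t.val c e := by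
  refine ⟨?_, fun h => ⟨s, t, Or.inl ⟨rfl, h⟩⟩⟩
  rintro ⟨s', t', ⟨h, h'⟩ | ⟨h, -⟩⟩
  · have := Nat.pair_eq_pair.1 (by omega : Nat.pair s.code t.code = Nat.pair s'.code t'.code)
    rw [code_inj _ _ this.1, code_inj _ _ this.2, h']
  · omega

theorem mem_diag_lt [Add M] [LT M] (c : Fin k → M) (e : ℕ → M) (s t : Tm k) :
    2 * Nat.pair s.code t.code + 1 ∈ diag c e ↔ s.val c e < t.val c e := by
  refine ⟨?_, fun h => ⟨s, t, Or.inr ⟨rfl, h⟩⟩⟩
  rintro ⟨s', t', ⟨h, -⟩ | ⟨h, h'⟩⟩
  · omega
  · have := Nat.pair_eq_pair.1 (by omega : Nat.pair s.code t.code = Nat.pair s'.code t'.code)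
    rw [code_inj _ _ this.1, code_inj _ _ this.2]; exact h'

theorem num_of_diag [Add M] [LT M] (c : Fin k → M) (e : ℕ → M) :
    Num (orc (chi (diag c e))) e := by
  have h := CI.self (chi (diag c e))
  constructor
  · refine (show CI (orc (chi (diag c e))) fun q : ℕ × ℕ × ℕ => decide (chi (diag c e)
      (2 * Nat.pair (3 * Nat.pair (3 * q.1) (3 * q.2.1) + 2) (3 * q.2.2)) = 1) by fun_prop).of_eq
      fun q => ?_
    have := mem_diag_eq c e (.add (.par q.1) (.par q.2.1)) (.par q.2.2)
    simp only [Tm.code, Tm.val] at this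
    simp [chi, this]
  · refine (show CI (orc (chi (diag c e))) fun q : ℕ × ℕ => decide (chi (diag c e)
      (2 * Nat.pair (3 * q.1) (3 * q.2) + 1) = 1) by fun_prop).of_eq fun q => ?_
    have := mem_diag_lt c e (.par q.1) (.par q.2)
    simp only [Tm.code, Tm.val] at this
    simp [chi, this]

def gv (cs : List ℕ) (ad : ℕ → ℕ → ℕ) (n : ℕ) : Option ℕ :=
  if n % 3 = 0 then some (n / 3) else if n % 3 = 1 then cs[n / 3]? else
    (gv cs ad (n / 3).unpair.1).bind fun a => (gv cs ad (n / 3).unpair.2).map (ad a)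
decreasing_by
  · have := Nat.unpair_left_le (n / 3); omega
  · have := Nat.unpair_right_le (n / 3); omega

theorem diag_of_num [Add M] [LinearOrder M] (c : Fin k → M) {e : ℕ → M} (h : Num O e)
    (hs : Function.Surjective e) : CI O (chi (diag c e)) := by
  obtain ⟨ad, h1, h2⟩ := h.ad hs
  choose cc hcc using fun i => hs (c i)
  let g := gv (List.ofFn cc) ad
  have hg : CI O g := by
    refine ci_strong (h := fun n l => if n % 3 = 0 then some (n / 3) else if n % 3 = 1 then
      (List.ofFn cc)[n / 3]? else (l.getD (n / 3).unpair.1 none).bind fun a =>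
        (l.getD (n / 3).unpair.2 none).map (ad a)) (by fun_prop) fun n => ?_
    simp only [g]
    rw [gv]
    split_ifs with g1 g2
    · rfl
    · rfl
    · have := Nat.unpair_left_le (n / 3)
      have := Nat.unpair_right_le (n / 3)
      rw [getD_pre _ (by omega), getD_pre _ (by omega)]
  have s1 : ∀ t : Tm k, ∃ a, g t.code = some a ∧ e a = t.val c e := by
    intro t
    simp only [g]
    induction t with
    | par n => exact ⟨n, by rw [gv]; simp [Tm.code], rfl⟩
    | con i =>
      refine ⟨cc i, ?_, hcc i⟩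
      rw [gv, Tm.code, if_neg (by omega), if_pos (by omega), (by omega : (3 * i.val + 1) / 3 = i)]
      simp
    | add s t ihs iht =>
      obtain ⟨a, ha, ha'⟩ := ihs
      obtain ⟨b, hb, hb'⟩ := iht
      refine ⟨ad a b, ?_, by rw [h2, ha', hb']; rfl⟩
      rw [gv, Tm.code, if_neg (by omega), if_neg (by omega),
        (by omega : (3 * Nat.pair s.code t.code + 2) / 3 = Nat.pair s.code t.code), Nat.unpair_pair,
        ha, hb]
      rfl
  have s2 : ∀ n a, g n = some a → ∃ t : Tm k, t.code = n := by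
    intro n
    simp only [g]
    induction n using Nat.strong_induction_on with
    | _ n ih =>
      intro a ha
      rw [gv] at ha
      split_ifs at ha with g1 g2
      · exact ⟨.par (n / 3), by simp only [Tm.code]; omega⟩
      · have : n / 3 < k := by simpa using (List.getElem?_eq_some_iff.1 ha).1
        exact ⟨.con ⟨n / 3, this⟩, by simp only [Tm.code]; omega⟩
      · obtain ⟨x, hx, hx'⟩ := Option.bind_eq_some_iff.1 ha
        obtain ⟨y, hy, -⟩ := Option.map_eq_some_iff.1 hx'
        have := Nat.unpair_left_le (n / 3)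
        have := Nat.unpair_right_le (n / 3)
        obtain ⟨s, hs⟩ := ih _ (by omega) _ hx
        obtain ⟨t, ht⟩ := ih _ (by omega) _ hy
        exact ⟨.add s t, by simp only [Tm.code, hs, ht, Nat.pair_unpair]; omega⟩
  clear_value g
  obtain ⟨E, hE, hE'⟩ : ∃ E : ℕ → ℕ → Bool, CI O (fun q : ℕ × ℕ => E q.1 q.2) ∧
    ∀ a b, E a b = true ↔ e a = e b := ⟨fun a b => decide (e a = e b), h.eq, fun _ _ => by simp⟩
  obtain ⟨C, hC, hC'⟩ : ∃ C : ℕ → ℕ → Bool, CI O (fun q : ℕ × ℕ => C q.1 q.2) ∧
    ∀ a b, C a b = true ↔ e a < e b :=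
    ⟨fun a b => decide (e a < e b), h.lt.of_eq fun _ => decide_eq_decide.2 Iff.rfl,
      fun _ _ => by simp⟩
  refine (show CI O fun n => (((g (n / 2).unpair.1).bind fun a => (g (n / 2).unpair.2).map fun b =>
    if n % 2 = 0 then E a b else C a b).getD false).toNat by fun_prop).of_eq fun n => ?_
  by_cases hc : ∃ s t : Tm k, n / 2 = Nat.pair s.code t.code
  · obtain ⟨s, t, hn⟩ := hc
    obtain ⟨a, ha, ha'⟩ := s1 s
    obtain ⟨b, hb, hb'⟩ := s1 t
    rw [hn, Nat.unpair_pair, ha, hb]
    simp only [Option.map_some, Option.bind_some, Option.getD_some, chi]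
    by_cases h0 : n % 2 = 0
    · rw [if_pos h0, (by omega : n = 2 * Nat.pair s.code t.code)]
      simp only [mem_diag_eq, ← ha', ← hb', ← hE']
      cases E a b <;> simp
    · rw [if_neg h0, (by omega : n = 2 * Nat.pair s.code t.code + 1)]
      simp only [mem_diag_lt, ← ha', ← hb', ← hC']
      cases C a b <;> simp
  · have h3 : n ∉ diag c e := by
      rintro ⟨s, t, ⟨h, -⟩ | ⟨h, -⟩⟩ <;> exact hc ⟨s, t, by omega⟩
    rw [chi, if_neg h3]
    rcases ha : g (n / 2).unpair.1 with _ | a
    · simp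
    rcases hb : g (n / 2).unpair.2 with _ | b
    · simp
    obtain ⟨s, hs⟩ := s2 _ _ ha
    obtain ⟨t, ht⟩ := s2 _ _ hb
    exact absurd ⟨s, t, by rw [hs, ht, Nat.pair_unpair]⟩ hc

theorem knight [Add M] [LinearOrder M] [Infinite M] (c : Fin k → M) (X : Set ℕ) {ν : ℕ → M}
    (h : Num (orc (chi X)) ν) (hs : Function.Surjective ν) : deg X ∈ DgSp M c := by
  obtain ⟨e0, r, -, hr, -, hr', -⟩ := equiv_of_num ν hs (fun a b => decide (ν a = ν b)) h.eq
    (fun _ _ => by simp)
  have h0 : Num (orc (chi X)) e0 := by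
    have := h.comp hr
    rwa [funext hr'] at this
  have hX := CI.self (chi X)
  obtain ⟨C, hC, hC'⟩ : ∃ C : ℕ → ℕ → Bool, CI (orc (chi X)) (fun q : ℕ × ℕ => C q.1 q.2) ∧
    ∀ a b, C a b = true ↔ e0 a < e0 b := 
    ⟨fun a b => decide (e0 a < e0 b), h0.lt.of_eq fun _ => decide_eq_decide.2 Iff.rfl,
      fun _ _ => by simp⟩
  let π : ℕ → ℕ := fun n => if C (2 * (n / 2)) (2 * (n / 2) + 1) = decide (chi X (n / 2) = 1) then n
    else if n % 2 = 0 then n + 1 else n - 1
  have hπ : CI (orc (chi X)) π := by simp only [π]; fun_prop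
  have hi : Function.Involutive π := fun n => by
    have h2 : π n / 2 = n / 2 := by simp only [π]; split_ifs <;> omega
    show (if C (2 * (π n / 2)) (2 * (π n / 2) + 1) = decide (chi X (π n / 2) = 1) then π n
      else if π n % 2 = 0 then π n + 1 else π n - 1) = n
    rw [h2]
    simp only [π]
    split_ifs <;> omega
  let e : ℕ ≃ M := (hi.toPerm π).trans e0
  have he : Num (orc (chi X)) e := h0.comp hπ
  have key : ∀ n, e (2 * n) < e (2 * n + 1) ↔ n ∈ X := by
    intro n
    show e0 (π _) < e0 (π _) ↔ _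
    simp only [π, (by omega : 2 * n / 2 = n), (by omega : (2 * n + 1) / 2 = n)]
    have hne : e0 (2 * n) ≠ e0 (2 * n + 1) := fun h => by have := e0.injective h; omega
    have hx : (chi X n = 1) ↔ n ∈ X := by simp [chi]
    by_cases hc : C (2 * n) (2 * n + 1) = decide (chi X n = 1)
    · rw [if_pos hc, if_pos hc, ← hC', hc, decide_eq_true_eq, hx]
    · rw [if_neg hc, if_neg hc, if_pos (by omega), if_neg (by omega), Nat.add_sub_cancel, ← hx,
        ← not_le, le_iff_lt_or_eq, or_iff_left hne, ← hC']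
      revert hc
      cases C (2 * n) (2 * n + 1) <;> simp
  refine ⟨e, Quotient.sound ⟨?_, ?_⟩⟩
  · refine CI.ri (O := orc (chi (diag c e))) ?_
    refine ((((num_of_diag c e).lt.comp (g := fun n => (2 * n, 2 * n + 1))
      (by fun_prop))).toNat).of_eq fun n => ?_
    simp only [key, chi]
    split_ifs with hn <;> simp [hn]
  · exact (diag_of_num c he e.surjective).ri

theorem spec_eq (V : Type) [AddCommGroup V] [LinearOrder V] [IsOrderedAddMonoid V] [Nontrivial V]
    (hd : ∀ (n : ℕ) (v : V), n ≠ 0 → ∃ w, n • w = v) {k l : ℕ} (c : Fin k → V)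
    (c' : Fin l → V ×ₗ ℤ) : DgSp V c = DgSp (V ×ₗ ℤ) c' := by
  ext d
  constructor
  · rintro ⟨e, rfl⟩
    obtain ⟨ν, h1, h2⟩ := num_prod (num_of_diag c e) e.surjective
    exact knight c' _ h1 h2
  · rintro ⟨e, rfl⟩
    obtain ⟨ν, h1, h2⟩ := num_of_prod hd (num_of_diag c' e) e.surjective
    exact knight c _ h1 h2

end Pool.Agent.H62.Pb
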