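import Mathlib

/-!
Weihrauch reducibility between problems on represented spaces, the limit operator and the perfect
kernel problems.
-/

set_option autoImplicit false

namespace Pool.Agent.H62.Pk

open Classical

abbrev Baire : Type := ℕ → ℕ

/-- the first k values of p -/
def ini (p : Baire) (k : ℕ) : List ℕ := (List.range k).map p

/-- the pairing ⟨p, q⟩ -/
def pr (p q : Baire) : Baire := fun n => Nat.pair (p n) (q n)

/-- a computable partial map on Baire space, given by a computable monotone approximation -/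
structure Fnl where
  toFun : List ℕ → ℕ → Option ℕ
  comp : Computable₂ toFun
  mono : ∀ σ τ n v, σ <+: τ → toFun σ n = some v → toFun τ n = some v

/-- the map F is defined at p with value q -/
def Fnl.Ev (F : Fnl) (p q : Baire) : Prop := ∀ n, ∃ k, F.toFun (ini p k) n = some (q n)

/-- a naming relation: `R p x` says that p names x -/
abbrev Rep (X : Type) : Type := Baire → X → Prop

/-- Weihrauch reducibility f ≤_W g; the domain of a problem is the set of points with a nonempty
set of solutions -/
def WLe {X Y Z W : Type} (RX : Rep X) (RY : Rep Y) (f : X → Set Y) (RZ : Rep Z) (RW : Rep W)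
    (g : Z → Set W) : Prop :=
  ∃ Φ Ψ : Fnl, ∀ p x, RX p x → (f x).Nonempty → ∃ p' y, Φ.Ev p p' ∧ RZ p' y ∧ (g y).Nonempty ∧
    ∀ q w, RW q w → w ∈ g y → ∃ r v, Ψ.Ev (pr p q) r ∧ RY r v ∧ v ∈ f x

/-- composition of multi-valued functions -/
def comp {X Y Z : Type} (f : Y → Set Z) (g : X → Set Y) : X → Set Z :=
  fun x => {z | (∀ y ∈ g x, (f y).Nonempty) ∧ ∃ y ∈ g x, z ∈ f y}

def baireRep : Rep Baire := fun p x => p = x

def seqRep : Rep (ℕ → Baire) := fun u s => ∀ n m, u (Nat.pair n m) = s n m

/-- the limit operator -/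
def lim (s : ℕ → Baire) : Set Baire := {l | Filter.Tendsto s Filter.atTop (nhds l)}

def IsTree (T : Set (List ℕ)) : Prop := ∀ σ τ, τ <+: σ → σ ∈ T → τ ∈ T

/-- p is the characteristic function of T -/
def IsChar (p : Baire) (T : Set (List ℕ)) : Prop :=
  ∀ σ, p (Encodable.encode σ) = if σ ∈ T then 1 else 0

/-- the space of trees -/
def Tr : Type := {T : Set (List ℕ) // IsTree T}

def trRep : Rep Tr := fun p T => IsChar p T.1

def body (T : Set (List ℕ)) : Set Baire := {x | ∀ n, ini x n ∈ T}

/-- perfect trees -/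
def PerfT (S : Set (List ℕ)) : Prop :=
  IsTree S ∧ ∀ σ ∈ S, ∃ τ ∈ S, ∃ ρ ∈ S, σ <+: τ ∧ σ <+: ρ ∧ ¬ τ <+: ρ ∧ ¬ ρ <+: τ

/-- the largest perfect subtree -/
def pk (T : Set (List ℕ)) : Set (List ℕ) := ⋃₀ {S | PerfT S ∧ S ⊆ T}

/-- the problem PK on trees -/
def PK (T : Tr) : Set Tr := {S | S.1 = pk T.1}

/-- closed subsets of Baire space, named by trees -/
def clRep : Rep (Set Baire) := fun p A => ∃ T, IsTree T ∧ IsChar p T ∧ body T = A

/-- the perfect kernel problem on closed subsets of Baire space -/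
def PKN (A : Set Baire) : Set (Set Baire) := {⋃₀ {P | Perfect P ∧ P ⊆ A}}

end Pool.Agent.H62.Pk
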