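import Pool.Agent.H37.NF
import Pool.Agent.H62.PkDefs

/-!
Perfect trees, perfect kernels, and building functionals.
-/

set_option autoImplicit false

namespace Pool.Agent.H62.Pk

open Pool.Agent.H37 Encodable Filter Topology

theorem ini_eq (p : Baire) (k : ℕ) : ini p k = pre p k := rfl

theorem pk_sub (T : Set (List ℕ)) : pk T ⊆ T := fun _ ⟨_, h, h'⟩ => h.2 h'

theorem pk_perf (T : Set (List ℕ)) : PerfT (pk T) :=
  ⟨fun σ τ h ⟨S, h1, h2⟩ => ⟨S, h1, h1.1.1 σ τ h h2⟩, fun σ ⟨S, h1, h2⟩ => by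
    obtain ⟨τ, a, ρ, b, c⟩ := h1.1.2 σ h2
    exact ⟨τ, ⟨S, h1, a⟩, ρ, ⟨S, h1, b⟩, c⟩⟩

theorem sub_pk {T G : Set (List ℕ)} (hT : IsTree T) (h : ∀ σ ∈ G, σ ∈ T ∧
    ∃ τ ∈ G, ∃ ρ ∈ G, σ <+: τ ∧ σ <+: ρ ∧ ¬ τ <+: ρ ∧ ¬ ρ <+: τ) : G ⊆ pk T := fun σ hσ =>
  ⟨{σ | ∃ τ ∈ G, σ <+: τ}, ⟨⟨fun _ _ h1 ⟨τ, h2, h3⟩ => ⟨τ, h2, h1.trans h3⟩,
    fun _ ⟨τ, h2, h3⟩ => by
      obtain ⟨a, h4, b, h5, h6, h7, h8⟩ := (h τ h2).2
      exact ⟨a, ⟨a, h4, List.prefix_rfl⟩, b, ⟨b, h5, List.prefix_rfl⟩, h3.trans h6, h3.trans h7,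
        h8⟩⟩, fun _ ⟨τ, h2, h3⟩ => hT _ _ h3 (h τ h2).1⟩, σ, hσ, List.prefix_rfl⟩

theorem chain_lim {γ : Type} (d : γ) {F : ℕ → List γ} (h1 : ∀ m, F m <+: F (m + 1))
    (h3 : ∀ m, m ≤ (F m).length) : ∃ x : ℕ → γ, ∀ m, pre x (F m).length = F m := by
  have h2 : ∀ m m', m ≤ m' → F m <+: F m' := fun m m' hm => by
    induction m', hm using Nat.le_induction with
    | base => exact List.prefix_rfl
    | succ m' _ ih => exact ih.trans (h1 m')
  refine ⟨fun i => (F (i + 1)).getD i d, fun m => List.ext_getElem (by simp) fun i a b => ?_⟩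
  have c := h3 (i + 1)
  simp only [pre, List.getElem_map, List.getElem_range]
  rw [List.getD_eq_getElem _ _ c, (h2 _ _ (le_max_left (i + 1) m)).getElem c,
    (h2 _ _ (le_max_right (i + 1) m)).getElem b]

theorem PerfT.path {S : Set (List ℕ)} (h : PerfT S) {σ : List ℕ} (hσ : σ ∈ S) :
    ∃ x ∈ body S, pre x σ.length = σ := by
  have : ∀ σ ∈ S, ∃ τ ∈ S, σ <+: τ ∧ σ.length < τ.length := fun σ hσ => by
    obtain ⟨τ, a, ρ, b, c, d, e, f⟩ := h.2 σ hσ
    refine ⟨τ, a, c, c.length_le.lt_of_ne fun l => e ?_⟩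
    rw [← c.eq_of_length l]; exact d
  choose! g hg using this
  have h1 : ∀ m, g^[m] σ ∈ S ∧ m ≤ (g^[m] σ).length := fun m => by
    induction m with
    | zero => exact ⟨hσ, Nat.zero_le _⟩
    | succ m ih =>
      rw [Function.iterate_succ_apply']
      have := hg _ ih.1
      exact ⟨this.1, by omega⟩
  obtain ⟨x, hx⟩ := chain_lim 0 (F := fun m => g^[m] σ) (fun m => by
    rw [Function.iterate_succ_apply']; exact (hg _ (h1 m).1).2.1) fun m => (h1 m).2
  exact ⟨x, fun n => h.1 _ _ (by rw [← hx n]; exact pre_pf x (h1 n).2) (h1 n).1, hx 0⟩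

theorem cyl_nhds (x : Baire) (n : ℕ) : {y | pre y n = pre x n} ∈ 𝓝 x := by
  have : {y | pre y n = pre x n} = PiNat.cylinder x n := by
    ext y; simp [pre_eq_iff, PiNat.mem_cylinder_iff]
  rw [this]
  exact (PiNat.isOpen_cylinder _ x n).mem_nhds (PiNat.self_mem_cylinder x n)

theorem nhds_cyl {x : Baire} {U : Set Baire} (h : U ∈ 𝓝 x) : ∃ n, ∀ y, pre y n = pre x n → y ∈ U := by
  obtain ⟨t, ⟨z, n, rfl⟩, h1, h2⟩ := (PiNat.isTopologicalBasis_cylinders _).mem_nhds_iff.1 h
  exact ⟨n, fun y hy => h2 fun i hi => (pre_eq_iff.1 hy i hi).trans (h1 i hi)⟩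

theorem PerfT.perfect {S : Set (List ℕ)} (h : PerfT S) : Perfect (body S) := by
  refine ⟨isClosed_iff_nhds.2 fun x hx n => ?_, fun x hx => accPt_iff_nhds.2 fun U hU => ?_⟩
  · obtain ⟨y, h1, h2⟩ := hx _ (cyl_nhds x n)
    have := h2 n
    rwa [ini_eq, h1] at this
  · obtain ⟨n, hn⟩ := nhds_cyl hU
    obtain ⟨τ, a, ρ, b, c, d, e, f⟩ := h.2 _ (hx n)
    have key : ∀ τ ∈ S, pre x n <+: τ → pre x τ.length ≠ τ → ∃ y ∈ U ∩ body S, y ≠ x := by
      intro τ a c g
      obtain ⟨y, h1, h2⟩ := h.path a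
      refine ⟨y, ⟨hn y ?_, h1⟩, by rintro rfl; exact g h2⟩
      have := pf_pre (x := y) (h2 ▸ c)
      rw [length_pre] at this; exact this.symm
    by_cases g : pre x τ.length = τ
    · refine key ρ b d fun g' => ?_
      rcases le_total τ.length ρ.length with l | l
      · exact e (by rw [← g, ← g']; simpa using pre_pf x l)
      · exact f (by rw [← g, ← g']; simpa using pre_pf x l)
    · exact key τ a c g

theorem kernel_eq {T : Set (List ℕ)} (hT : IsTree T) :
    ⋃₀ {P | Perfect P ∧ P ⊆ body T} = body (pk T) := by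
  refine Set.Subset.antisymm ?_ fun x hx => ⟨_, ⟨(pk_perf T).perfect, fun y hy n =>
    pk_sub T (hy n)⟩, hx⟩
  rintro x ⟨P, ⟨h1, h2⟩, hx⟩ n
  refine sub_pk hT (G := {σ | ∃ y ∈ P, pre y σ.length = σ}) ?_ ⟨x, hx, by simp [ini_eq]⟩
  rintro σ ⟨y, hy, e⟩
  refine ⟨e ▸ h2 hy _, ?_⟩
  obtain ⟨z, ⟨h3, h4⟩, h5⟩ := accPt_iff_nhds.1 (h1.acc y hy) _ (cyl_nhds y σ.length)
  obtain ⟨i, hi⟩ := Function.ne_iff.1 h5
  have h6 : pre y (σ.length + i + 1) ≠ pre z (σ.length + i + 1) := fun e =>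
    hi (pre_eq_iff.1 e i (by omega)).symm
  refine ⟨pre y (σ.length + i + 1), ⟨y, hy, by simp⟩, pre z (σ.length + i + 1), ⟨z, h4, by simp⟩,
    ?_, ?_, fun h => h6 (h.eq_of_length (by simp)), fun h => h6 (h.eq_of_length (by simp)).symm⟩
  · conv_lhs => rw [← e]
    exact pre_pf y (by omega)
  · conv_lhs => rw [← e, ← show pre z σ.length = _ from h3]
    exact pre_pf z (by omega)

theorem enc_mono {σ τ : List ℕ} (h : τ <+: σ) : encode τ ≤ encode σ := by
  induction τ generalizing σ with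
  | nil => simp
  | cons a τ ih =>
    obtain ⟨ρ, rfl⟩ := h
    simp only [List.cons_append, encode_list_cons]
    have := ih (List.prefix_append τ ρ)
    rcases this.eq_or_lt with e | l
    · rw [e]
    · exact Nat.succ_le_succ (Nat.pair_lt_pair_right _ l).le

/-- monotone selection -/
def mon {β : Type} (c : List ℕ → Option β) (σ : List ℕ) : Option β :=
  ((List.range (σ.length + 1)).filterMap fun t => c (σ.take t)).head?

theorem mon_mono {β : Type} {c : List ℕ → Option β} {σ τ : List ℕ} {v : β} (h : σ <+: τ)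
    (hv : mon c σ = some v) : mon c τ = some v := by
  obtain ⟨ρ, rfl⟩ := h
  unfold mon at hv ⊢
  rw [List.length_append, add_right_comm, List.range_add, List.filterMap_append,
    List.filterMap_congr (g := fun k => c (σ.take k)) fun k hk => by
      rw [List.take_append_of_le_length]
      have := List.mem_range.1 hk
      omega]
  rw [List.head?_append, hv]; rfl

theorem mon_sound {β : Type} {c : List ℕ → Option β} {x : Baire} {k : ℕ} {v : β}
    (h : mon c (pre x k) = some v) : ∃ t, c (pre x t) = some v := by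
  obtain ⟨t, h1, h2⟩ := List.mem_filterMap.1 (List.mem_of_mem_head? h)
  exact ⟨t, by rwa [take_pre _ (by simpa [Nat.lt_succ_iff] using h1)] at h2⟩

theorem mon_compl {β : Type} {c : List ℕ → Option β} {σ : List ℕ} {v : β} (h : c σ = some v) :
    ∃ w, mon c σ = some w :=
  ⟨_, List.head?_eq_some_head (List.ne_nil_of_mem (List.mem_filterMap.2
    ⟨σ.length, by simp, by simpa using h⟩))⟩

theorem ci_mon {α β : Type} [Primcodable α] [Primcodable β] {c : α → List ℕ → Option β}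
    (h : CI ∅ fun q : α × List ℕ => c q.1 q.2) : CI ∅ fun q : α × List ℕ => mon (c q.1) q.2 :=
  CI.head? (CI.filterMap (h.comp (g := fun q : (α × List ℕ) × ℕ => (q.1.1, q.1.2.take q.2))
    (by fun_prop)) (by fun_prop))

/-- a functional from a c.e. graph -/
theorem exists_fnl {β : Type} [Primcodable β] {R : List ℕ → ℕ → β → Option ℕ}
    (hR : CI ∅ fun q : List ℕ × ℕ × β => R q.1 q.2.1 q.2.2) : ∃ F : Fnl, ∀ x y : Baire,
      (∀ k n b v, R (pre x k) n b = some v → v = y n) →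
      (∀ n, ∃ b, ∀ᶠ k in atTop, R (pre x k) n b = some (y n)) → F.Ev x y := by
  let c : ℕ → List ℕ → Option ℕ := fun n σ =>
    ((List.range σ.length).filterMap fun j => (decode (α := β) j).bind (R σ n)).head?
  have hc : CI ∅ fun q : ℕ × List ℕ => c q.1 q.2 :=
    CI.head? (CI.filterMap (CI.optBind (by fun_prop) (hR.comp
      (g := fun q : ((ℕ × List ℕ) × ℕ) × β => (q.1.1.2, q.1.1.1, q.2)) (by fun_prop)))
      (by fun_prop))
  refine ⟨⟨fun σ n => mon (c n) σ, ((ci_mon hc).comp (g := fun q : List ℕ × ℕ => (q.2, q.1))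
    (by fun_prop)).computable, fun _ _ _ _ => mon_mono⟩, fun x y h1 h2 n => ?_⟩
  obtain ⟨b, hb⟩ := h2 n
  obtain ⟨k, h3, h4⟩ := (hb.and (eventually_gt_atTop (encode b))).exists
  obtain ⟨v, hv⟩ : ∃ v, c n (pre x k) = some v :=
    ⟨_, List.head?_eq_some_head (List.ne_nil_of_mem (List.mem_filterMap.2
      ⟨encode b, by simpa using h4, by simpa using h3⟩))⟩
  obtain ⟨w, hw⟩ := mon_compl hv
  obtain ⟨t, ht⟩ := mon_sound hw
  obtain ⟨j, -, h5⟩ := List.mem_filterMap.1 (List.mem_of_mem_head? ht)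
  obtain ⟨b', -, h6⟩ := Option.bind_eq_some_iff.1 h5
  exact ⟨k, by rw [← h1 _ _ _ _ h6]; exact hw⟩

theorem Fnl.ci (F : Fnl) : CI ∅ fun q : List ℕ × ℕ => F.toFun q.1 q.2 := ci_iff.2 F.comp

theorem Fnl.Ev.sound {F : Fnl} {p q : Baire} (h : F.Ev p q) {k n v : ℕ}
    (hv : F.toFun (pre p k) n = some v) : v = q n := by
  obtain ⟨j, hj⟩ := h n
  have a := F.mono _ _ _ _ (pre_pf p (le_max_left k j)) hv
  rw [F.mono _ _ _ _ (pre_pf p (le_max_right k j)) hj] at a
  exact (Option.some.inj a).symm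

theorem Fnl.Ev.ev {F : Fnl} {p q : Baire} (h : F.Ev p q) (n : ℕ) :
    ∀ᶠ k in atTop, F.toFun (pre p k) n = some (q n) := by
  obtain ⟨j, hj⟩ := h n
  exact (eventually_ge_atTop j).mono fun k hk => F.mono _ _ _ _ (pre_pf p hk) hj

def zp (a b : List ℕ) : List ℕ := (a.zip b).map fun x => Nat.pair x.1 x.2

@[fun_prop] theorem ci_zp {α : Type} [Primcodable α] {a b : α → List ℕ} (ha : CI ∅ a)
    (hb : CI ∅ b) : CI ∅ fun x => zp (a x) (b x) := by unfold zp; fun_prop

theorem zp_pre (p q : Baire) (k l : ℕ) : zp (pre p k) (pre q l) = pre (pr p q) (min k l) := by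
  apply List.ext_getElem <;> simp [zp, pre, pr]

def ls (c : ℕ) : List ℕ := Denumerable.ofNat (List ℕ) c

@[fun_prop] theorem ci_ls {α : Type} [Primcodable α] {a : α → ℕ} (ha : CI ∅ a) :
    CI ∅ fun x => ls (a x) := CI.ofNat ha
@[simp] theorem ls_enc (σ : List ℕ) : ls (encode σ) = σ := Denumerable.ofNat_encode σ
@[simp] theorem enc_ls (c : ℕ) : encode (ls c) = c := Denumerable.encode_ofNat c

/-- the tree collecting countably many Σ^1_1 questions -/
def QT (V : List ℕ → ℕ → List ℕ → Bool) (p : Baire) : Set (List ℕ) :=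
  {ρ | ∀ j < ρ.length, V (pre p j) (ρ.headD 0) ((ρ.tail.take j).map fun v => v / 2) = false}

theorem QT_tree (V : List ℕ → ℕ → List ℕ → Bool) (p : Baire) : IsTree (QT V p) := by
  rintro _ τ ⟨ρ, rfl⟩ h j hj
  have := h j (by simp; omega)
  cases τ with
  | nil => simp at hj
  | cons a τ =>
    simp only [List.cons_append, List.headD_cons, List.tail_cons, List.length_cons] at this hj ⊢
    rwa [List.take_append_of_le_length (by omega)] at this

theorem QT_pk {V : List ℕ → ℕ → List ℕ → Bool} {p : Baire} {c : ℕ} :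
    [c] ∈ pk (QT V p) ↔ ∃ h : Baire, ∀ j, V (pre p j) c (pre h j) = false := by
  constructor
  · intro h
    obtain ⟨x, h1, h2⟩ := (pk_perf _).path h
    refine ⟨fun i => x (i + 1) / 2, fun j => ?_⟩
    have := pk_sub _ (h1 (j + 1)) j (by simp [ini_eq])
    have e1 : (ini x (j + 1)).headD 0 = c := by
      have : x 0 = c := by simpa [pre] using h2
      simp [ini, List.range_succ_eq_map, this]
    have e2 : (((ini x (j + 1)).tail.take j).map fun v => v / 2) =
        pre (fun i => x (i + 1) / 2) j := by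
      apply List.ext_getElem <;> simp [ini, pre]
    rwa [e1, e2] at this
  · rintro ⟨h, hh⟩
    refine sub_pk (QT_tree V p) (G := {σ | ∃ ρ : List ℕ, σ = c :: ρ ∧
      (ρ.map fun v => v / 2) = pre h ρ.length}) ?_ ⟨[], rfl, rfl⟩
    rintro _ ⟨ρ, rfl, e⟩
    refine ⟨fun j hj => ?_, c :: (ρ ++ [2 * h ρ.length]), ⟨_, rfl, ?_⟩,
      c :: (ρ ++ [2 * h ρ.length + 1]), ⟨_, rfl, ?_⟩, by simp, by simp, by simp, by simp⟩
    · simp only [List.headD_cons, List.tail_cons, List.map_take, e]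
      rw [take_pre _ (by simpa [Nat.lt_succ_iff] using hj)]; exact hh j
    · simp [pre_succ, e]
    · simp only [List.map_append, e, List.length_append, List.length_singleton, pre_succ]
      simp; omega

theorem QT_fnl {V : List ℕ → ℕ → List ℕ → Bool}
    (hV : CI ∅ fun q : List ℕ × ℕ × List ℕ => V q.1 q.2.1 q.2.2) :
    ∃ F : Fnl, ∀ p, ∃ p', F.Ev p p' ∧ IsChar p' (QT V p) := by
  classical
  obtain ⟨F, hF⟩ := exists_fnl (β := ℕ) (R := fun σ n _ => cond (decide ((ls n).length ≤ σ.length))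
    (some ((List.range (ls n).length).all fun j => !V (σ.take j) ((ls n).headD 0)
      (((ls n).tail.take j).map fun v => v / 2)).toNat) none)
    (CI.cond (by fun_prop) (CI.some (CI.toNat (CI.all (by fun_prop) (CI.not (hV.comp
      (g := fun q : (List ℕ × ℕ × ℕ) × ℕ => (q.1.1.take q.2, (ls q.1.2.1).headD 0,
        ((ls q.1.2.1).tail.take q.2).map fun v => v / 2)) (by fun_prop)))))) (by fun_prop))
  refine ⟨F, fun p => ⟨fun n => if ls n ∈ QT V p then 1 else 0, ?_, fun σ => by simp⟩⟩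
  have key : ∀ k n, (ls n).length ≤ k → ((List.range (ls n).length).all fun j =>
      !V ((pre p k).take j) ((ls n).headD 0) (((ls n).tail.take j).map fun v => v / 2)).toNat =
      if ls n ∈ QT V p then 1 else 0 := by
    intro k n hk
    have : ((List.range (ls n).length).all fun j => !V ((pre p k).take j) ((ls n).headD 0)
        (((ls n).tail.take j).map fun v => v / 2)) = true ↔ ls n ∈ QT V p := by
      simp only [List.all_eq_true, List.mem_range, Bool.not_eq_true', QT, Set.mem_ofPred_eq]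
      exact forall₂_congr fun j hj => by rw [take_pre _ (by omega)]
    split_ifs with h
    · rw [this.2 h]; rfl
    · rw [Bool.eq_false_iff.2 fun h' => h (this.1 h')]; rfl
  refine hF _ _ (fun k n _ v hv => ?_) fun n => ⟨0, (eventually_ge_atTop (ls n).length).mono
    fun k hk => by simp only [length_pre, hk, decide_true, cond_true, key k n hk]⟩
  by_cases hk : (ls n).length ≤ k
  · simp only [length_pre, hk, decide_true, cond_true, key k n hk] at hv
    exact (Option.some.inj hv).symm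
  · simp [hk] at hv

end Pool.Agent.H62.Pk
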