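import Pool.Agent.H62.Pk1

/-!
lim * PK on closed sets reduces to PK on trees: forcing with the hyperjump.
-/

set_option autoImplicit false

namespace Pool.Agent.H62.Pk

open Pool.Agent.H37 Encodable Filter Topology

def shape (c a b : ℕ) : Bool :=
  (ls a).take (ls c).length == ls c && (ls b).take (ls c).length == ls c &&
    (ls b).take (ls a).length != ls a && (ls a).take (ls b).length != ls b
def sysv (F : Fnl) (π η : List ℕ) : Bool := (List.range η.length).any fun c =>
  η.getD c 0 != 0 && (F.toFun π c == some 0 ||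
    !shape c (η.getD c 0 - 1).unpair.1 (η.getD c 0 - 1).unpair.2 ||
    η.getD (η.getD c 0 - 1).unpair.1 1 == 0 || η.getD (η.getD c 0 - 1).unpair.2 1 == 0)
def VV (F : Fnl) (dem : List ℕ → ℕ → ℕ → Option (List ℕ)) (π : List ℕ) (c : ℕ) (η : List ℕ) :
    Bool := sysv F π η || (List.range (π.length + 1)).any fun k => (List.range π.length).any
  fun ω => (dem (π.take k) c ω).elim false fun l => l.all fun d => η.getD d 1 == 0

theorem shape_iff {c a b : ℕ} : shape c a b = true ↔
    ls c <+: ls a ∧ ls c <+: ls b ∧ ¬ ls a <+: ls b ∧ ¬ ls b <+: ls a := by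
  simp only [shape, Bool.and_eq_true, beq_iff_eq, bne_iff_ne, List.prefix_iff_eq_take, and_assoc,
    eq_comm (b := List.take _ _), Ne]

theorem ci_VV (F : Fnl) {dem : List ℕ → ℕ → ℕ → Option (List ℕ)}
    (h : CI ∅ fun q : List ℕ × ℕ × ℕ => dem q.1 q.2.1 q.2.2) :
    CI ∅ fun q : List ℕ × ℕ × List ℕ => VV F dem q.1 q.2.1 q.2.2 := by
  have := F.ci
  unfold VV sysv shape
  refine CI.or (CI.any (by fun_prop) (CI.and (by fun_prop) (CI.or (CI.or (CI.or (CI.beq
    (this.comp (g := fun q : (List ℕ × ℕ × List ℕ) × ℕ => (q.1.1, q.2)) (by fun_prop))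
    (by fun_prop)) (by fun_prop)) (by fun_prop)) (by fun_prop))))
    (CI.any (by fun_prop) (CI.any (by fun_prop) (CI.elim (h.comp
      (g := fun q : ((List ℕ × ℕ × List ℕ) × ℕ) × ℕ => (q.1.1.1.take q.1.2, q.1.1.2.1, q.2))
      (by fun_prop)) (by fun_prop) (by fun_prop))))

theorem getD_pre' (h : Baire) (j d : ℕ) (e : (pre h j).getD d 1 = 0) : h d = 0 := by
  by_cases l : d < j
  · rwa [getD_pre _ l] at e
  · rw [List.getD_eq_default _ _ (by simpa using l)] at e; cases e

theorem ans {F : Fnl} {dem : List ℕ → ℕ → ℕ → Option (List ℕ)} {p t : Baire}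
    {T : Set (List ℕ)} (hT : IsTree T) (ht : IsChar t T) (hF : F.Ev p t) (c : ℕ) :
    (∃ h : Baire, ∀ j, VV F dem (pre p j) c (pre h j) = false) ↔
      ∀ k ω l, dem (pre p k) c ω = some l → ∃ d ∈ l, ls d ∈ pk T := by
  classical
  simp only [VV, sysv, Bool.or_eq_false_iff, List.any_eq_false, List.mem_range, length_pre,
    Bool.and_eq_true, Bool.or_eq_true, bne_iff_ne, beq_iff_eq, Bool.not_eq_true', not_and, not_or,
    Bool.not_eq_false, shape_iff, List.any_eq_true, not_exists]
  constructor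
  · rintro ⟨h, hh⟩ k ω l hl
    have hG := sub_pk hT (G := {σ | h (encode σ) ≠ 0}) fun σ hσ => by
      obtain ⟨j, h1, h2, h3, h4⟩ := ((hF.ev (encode σ)).and ((eventually_gt_atTop (encode σ)).and
        ((eventually_gt_atTop (h (encode σ) - 1).unpair.1).and
          (eventually_gt_atTop (h (encode σ) - 1).unpair.2)))).exists
      have := (hh j).1 _ h2
      rw [getD_pre _ h2, getD_pre _ h3, getD_pre _ h4, h1, ht, ls_enc] at this
      obtain ⟨⟨⟨a, b⟩, d⟩, e⟩ := this hσ
      exact ⟨by by_contra hn; simp [hn] at a, _, by simpa using d, _, by simpa using e, b⟩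
    obtain ⟨j, h1, h2, h3⟩ := ((eventually_ge_atTop k).and ((eventually_gt_atTop ω).and
      ((eventually_all_finite l.finite_toSet).2 fun d _ => eventually_gt_atTop d))).exists
    have := (hh j).2 k (by omega) ω h2
    rw [take_pre _ h1, hl] at this
    simp only [Option.elim, List.all_eq_true, beq_iff_eq, not_forall] at this
    obtain ⟨d, h4, h5⟩ := this
    rw [getD_pre _ (h3 d h4)] at h5
    exact ⟨d, h4, hG (by simpa using h5)⟩
  · intro H
    choose! τ h1 ρ h2 using (pk_perf T).2
    refine ⟨fun c => if ls c ∈ pk T then Nat.pair (encode (τ (ls c))) (encode (ρ (ls c))) + 1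
      else 0, fun j => ⟨fun d hd h3 => ?_, fun k hk ω _ => ?_⟩⟩
    · rw [getD_pre _ hd] at h3 ⊢
      have h4 : ls d ∈ pk T := by by_contra hn; simp [hn] at h3
      simp only [h4, if_true, Nat.add_sub_cancel, Nat.unpair_pair, ls_enc]
      refine ⟨⟨⟨fun e => ?_, (h2 _ h4).2⟩, fun e => ?_⟩, fun e => ?_⟩
      · have := hF.sound e
        rw [← enc_ls d, ht, if_pos (pk_sub T h4)] at this
        cases this
      · simpa [h1 _ h4] using getD_pre' _ _ _ e
      · simpa [(h2 _ h4).1] using getD_pre' _ _ _ e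
    · rw [take_pre _ (by omega)]
      cases e : dem (pre p k) c ω with
      | none => simp
      | some l =>
        obtain ⟨d, h3, h4⟩ := H k ω l e
        simp only [Option.elim, List.all_eq_true, beq_iff_eq, not_forall]
        exact ⟨d, h3, fun e => by simpa [h4] using getD_pre' _ _ _ e⟩

def adm (β O β' : List ℕ) : Bool :=
  β'.take β.length == β && decide (β.length < β'.length) && (List.range β'.length).all fun c =>
    β'.getD c 0 == 0 || (β'.getD c 0 == 1 && ((List.range ((ls c).length + 1)).all fun j =>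
      β'.getD (encode ((ls c).take j)) 0 == 1) &&
      (decide (c < β.length) || O.all fun o => (ls c).take (ls o).length != ls o))
def cons (G : Fnl) (σ L : List ℕ) : Bool :=
  (List.range L.length).all fun j => G.toFun σ j == some (L.getD j 0)
def WW (F G : Fnl) (π β O : List ℕ) (s ω : ℕ) : Bool :=
  adm β O (ls ω.unpair.1) && decide (s.unpair.2 ≤ ω.unpair.2.unpair.1) &&
    cons G (zp π (ls ω.unpair.1)) (ls ω.unpair.2.unpair.2) &&
    (F.toFun (ls ω.unpair.2.unpair.2) (Nat.pair s.unpair.2 s.unpair.1)).isSome &&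
    (F.toFun (ls ω.unpair.2.unpair.2) (Nat.pair ω.unpair.2.unpair.1 s.unpair.1)).isSome &&
    F.toFun (ls ω.unpair.2.unpair.2) (Nat.pair s.unpair.2 s.unpair.1) !=
      F.toFun (ls ω.unpair.2.unpair.2) (Nat.pair ω.unpair.2.unpair.1 s.unpair.1)
def outs (β β' : List ℕ) : List ℕ :=
  (List.range β'.length).filter fun c => decide (β.length ≤ c) && β'.getD c 0 == 0
def dem (F G : Fnl) (π : List ℕ) (c ω : ℕ) : Option (List ℕ) :=
  cond (c.unpair.1 == 0) (some [c.unpair.2])
    (cond (WW F G π (ls (c.unpair.1 - 1)) (ls c.unpair.2.unpair.1) c.unpair.2.unpair.2 ω)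
      (some (outs (ls (c.unpair.1 - 1)) (ls ω.unpair.1))) none)
def qa (c : ℕ) : ℕ := encode [Nat.pair 0 c]
def qq (β O : List ℕ) (s : ℕ) : ℕ := encode [Nat.pair (encode β + 1) (Nat.pair (encode O) s)]
def rd (σ : List ℕ) (i : ℕ) : ℕ := (σ.map fun v => v.unpair.2).getD i 2
def OO (σ : List ℕ) (s : ℕ) : List ℕ := (List.range s).filter fun c => rd σ (qa c) == 0
def chk (F G : Fnl) (s : ℕ) (st : List ℕ × List Bool) (σ : List ℕ) :
    Option (List ℕ × List Bool) :=
  cond (((List.range (s + st.1.length + 1)).all fun c => decide (qa c < σ.length)) &&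
      decide (qq st.1 (OO σ s) s < σ.length))
    (cond (rd σ (qq st.1 (OO σ s) s) == 1) (some (st.1 ++ [rd σ (qa st.1.length)], st.2 ++ [true]))
      (((List.range σ.length).find? fun ω => WW F G (σ.map fun v => v.unpair.1) st.1 (OO σ s) s ω &&
        (outs st.1 (ls ω.unpair.1)).all fun c => rd σ (qa c) == 0).map
        fun ω => (ls ω.unpair.1, st.2 ++ [false]))) none
def BB (F G : Fnl) (σ : List ℕ) : ℕ → Option (List ℕ × List Bool)
  | 0 => some ([], [])
  | s + 1 => (BB F G σ s).bind fun st => mon (chk F G s st) σ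

section
variable {α : Type} [Primcodable α]
@[fun_prop] theorem ci_fnl (F : Fnl) {a : α → List ℕ} {b : α → ℕ} (ha : CI ∅ a) (hb : CI ∅ b) :
    CI ∅ fun x => F.toFun (a x) (b x) := F.ci.comp (g := fun x => (a x, b x)) (by fun_prop)
@[fun_prop] theorem ci_adm {a b c : α → List ℕ} (ha : CI ∅ a) (hb : CI ∅ b) (hc : CI ∅ c) :
    CI ∅ fun x => adm (a x) (b x) (c x) := by unfold adm; fun_prop
@[fun_prop] theorem ci_cons (G : Fnl) {a b : α → List ℕ} (ha : CI ∅ a) (hb : CI ∅ b) :
    CI ∅ fun x => cons G (a x) (b x) := by unfold cons; fun_prop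
@[fun_prop] theorem ci_WW (F G : Fnl) {a b c : α → List ℕ} {d e : α → ℕ} (ha : CI ∅ a)
    (hb : CI ∅ b) (hc : CI ∅ c) (hd : CI ∅ d) (he : CI ∅ e) :
    CI ∅ fun x => WW F G (a x) (b x) (c x) (d x) (e x) := by unfold WW; fun_prop
@[fun_prop] theorem ci_outs {a b : α → List ℕ} (ha : CI ∅ a) (hb : CI ∅ b) :
    CI ∅ fun x => outs (a x) (b x) := by unfold outs; fun_prop
theorem ci_dem (F G : Fnl) : CI ∅ fun q : List ℕ × ℕ × ℕ => dem F G q.1 q.2.1 q.2.2 := by
  unfold dem; fun_prop
@[fun_prop] theorem ci_qa {a : α → ℕ} (ha : CI ∅ a) : CI ∅ fun x => qa (a x) := by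
  unfold qa; fun_prop
@[fun_prop] theorem ci_qq {a b : α → List ℕ} {c : α → ℕ} (ha : CI ∅ a) (hb : CI ∅ b)
    (hc : CI ∅ c) : CI ∅ fun x => qq (a x) (b x) (c x) := by unfold qq; fun_prop
@[fun_prop] theorem ci_rd {a : α → List ℕ} {c : α → ℕ} (ha : CI ∅ a) (hc : CI ∅ c) :
    CI ∅ fun x => rd (a x) (c x) := by unfold rd; fun_prop
@[fun_prop] theorem ci_OO {a : α → List ℕ} {c : α → ℕ} (ha : CI ∅ a) (hc : CI ∅ c) :
    CI ∅ fun x => OO (a x) (c x) := by unfold OO; fun_prop
theorem ci_chk (F G : Fnl) : CI ∅ fun q : (ℕ × List ℕ × List Bool) × List ℕ =>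
    chk F G q.1.1 q.1.2 q.2 := by unfold chk; fun_prop
theorem ci_BB (F G : Fnl) : CI ∅ fun q : List ℕ × ℕ => BB F G q.1 q.2 :=
  CI.of_rec (g := fun _ => some ([], []))
    (h := fun σ s o => o.bind fun st => mon (chk F G s st) σ) (by fun_prop)
    (CI.optBind (by fun_prop) ((ci_mon (c := fun a : ℕ × List ℕ × List Bool => chk F G a.1 a.2)
      (ci_chk F G)).comp (g := fun q : (List ℕ × ℕ × Option (List ℕ × List Bool)) ×
        List ℕ × List Bool => ((q.1.2.1, q.2), q.1.1)) (by fun_prop)))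
    (fun _ => rfl) fun _ _ => rfl
end

theorem BB_mono {F G : Fnl} {σ τ : List ℕ} (h : σ <+: τ) {s : ℕ} {v : List ℕ × List Bool}
    (hv : BB F G σ s = some v) : BB F G τ s = some v := by
  induction s generalizing v with
  | zero => exact hv
  | succ s ih =>
    obtain ⟨st, h1, h2⟩ := Option.bind_eq_some_iff.1 hv
    exact Option.bind_eq_some_iff.2 ⟨st, ih h1, mon_mono h h2⟩

theorem adm_iff {β O β' : List ℕ} : adm β O β' = true ↔ β <+: β' ∧ β.length < β'.length ∧
    ∀ c < β'.length, β'.getD c 0 = 0 ∨ (β'.getD c 0 = 1 ∧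
      (∀ τ, τ <+: ls c → β'.getD (encode τ) 0 = 1) ∧
      (β.length ≤ c → ∀ o ∈ O, ¬ ls o <+: ls c)) := by
  simp only [adm, Bool.and_eq_true, beq_iff_eq, decide_eq_true_eq, List.all_eq_true,
    List.mem_range, Bool.or_eq_true, bne_iff_ne, and_assoc, Ne, ← not_lt, ← or_iff_not_imp_left,
    eq_comm (a := List.take _ _), ← List.prefix_iff_eq_take]
  refine and_congr_right fun _ => and_congr_right fun _ => forall₂_congr fun c _ =>
    or_congr_right (and_congr_right fun _ => and_congr_left fun _ =>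
      ⟨fun h τ hτ => ?_, fun h j _ => h _ (List.take_prefix _ _)⟩)
  rw [List.prefix_iff_eq_take.1 hτ]
  exact h _ (Nat.lt_succ_of_le hτ.length_le)

theorem cons_pre {G : Fnl} {x r : Baire} (h : G.Ev x r) {k : ℕ} {L : List ℕ}
    (hc : cons G (pre x k) L = true) : L = pre r L.length := by
  rw [← pre_getD L 0, length_pre]
  exact pre_congr fun j hj => h.sound
    (by simpa using List.all_eq_true.1 hc j (List.mem_range.2 hj))

theorem cons_ev {G : Fnl} {x r : Baire} (h : G.Ev x r) (K : ℕ) :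
    ∀ᶠ k in atTop, cons G (pre x k) (pre r K) = true := by
  filter_upwards [(eventually_all_finite (Set.finite_lt_nat K)).2 fun j _ => h.ev j] with k hk
  simp only [cons, length_pre, List.all_eq_true, List.mem_range, beq_iff_eq]
  exact fun j hj => by rw [getD_pre _ hj]; exact hk j hj

theorem map_fst (p w : Baire) (k : ℕ) : ((pre (pr p w) k).map fun v => v.unpair.1) = pre p k := by
  simp [pre, pr]

theorem rd_pre (p w : Baire) (k i : ℕ) : rd (pre (pr p w) k) i = if i < k then w i else 2 := by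
  have : ((pre (pr p w) k).map fun v => v.unpair.2) = pre w k := by simp [pre, pr]
  rw [rd, this]
  split_ifs with h
  · exact getD_pre _ h _
  · exact List.getD_eq_default _ _ (by simpa using h)

theorem len_le_enc (l : List ℕ) : l.length ≤ encode l := by
  induction l with
  | nil => simp
  | cons a l ih =>
    have := Nat.right_le_pair (encode a) (encode l)
    simp only [List.length_cons, encode_list_cons]; omega

open Classical in
noncomputable def Os (P : Set (List ℕ)) (s : ℕ) : List ℕ :=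
  (List.range s).filter fun c => decide (ls c ∉ P)

def Good (P : Set (List ℕ)) (β : List ℕ) : Prop := ∀ c < β.length,
  (β.getD c 0 = 0 ∧ ls c ∉ P) ∨ (β.getD c 0 = 1 ∧ ∀ τ, τ <+: ls c → β.getD (encode τ) 0 = 1)

def No (F G : Fnl) (P : Set (List ℕ)) (p : Baire) (β : List ℕ) (s : ℕ) : Prop :=
  ∀ k ω, WW F G (pre p k) β (Os P s) s ω = true → ∃ d ∈ outs β (ls ω.unpair.1), ls d ∈ P

def St (F G : Fnl) (P : Set (List ℕ)) (p : Baire) (s : ℕ) (a b : List ℕ × List Bool) : Prop :=
  adm a.1 (Os P s) b.1 = true ∧ Good P b.1 ∧ ((b.2 = a.2 ++ [true] ∧ No F G P p a.1 s) ∨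
    (b.2 = a.2 ++ [false] ∧ ∃ k ω, WW F G (pre p k) a.1 (Os P s) s ω = true ∧ b.1 = ls ω.unpair.1))

section
open Classical
variable {F G : Fnl} {P : Set (List ℕ)} {p w : Baire} (hP : IsTree P)
  (h1 : ∀ c, w (qa c) = if ls c ∈ P then 1 else 0)
  (h2 : ∀ β s, w (qq β (Os P s) s) = if No F G P p β s then 1 else 0)
include h1

theorem OO_eq {k s : ℕ} (h : ∀ c < s, qa c < k) : OO (pre (pr p w) k) s = Os P s :=
  List.filter_congr fun c hc => by
    rw [rd_pre, if_pos (h c (List.mem_range.1 hc)), h1]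
    by_cases e : ls c ∈ P <;> simp [e]

include hP h2

theorem chk_sound {s k : ℕ} {a b : List ℕ × List Bool} (ha : Good P a.1)
    (h : chk F G s a (pre (pr p w) k) = some b) : St F G P p s a b := by
  unfold chk at h
  simp only [Bool.cond_eq_ite, Bool.and_eq_true, List.all_eq_true, List.mem_range,
    decide_eq_true_eq, length_pre, beq_iff_eq, map_fst] at h
  split_ifs at h with h3 h4
  all_goals rw [OO_eq h1 fun c hc => h3.1 c (by omega)] at h3 h4
  all_goals rw [rd_pre, if_pos h3.2, h2] at h4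
  · obtain rfl := Option.some.inj h
    rw [rd_pre, if_pos (h3.1 _ (by omega)), h1]
    have hg : Good P (a.1 ++ [if ls a.1.length ∈ P then 1 else 0]) := by
      have key : ∀ τ ∈ P, encode τ ≤ a.1.length →
          (a.1 ++ [if ls a.1.length ∈ P then 1 else 0]).getD (encode τ) 0 = 1 := by
        intro τ h5 h6
        rcases h6.eq_or_lt with e | l
        · rw [List.getD_append_right _ _ _ _ e.ge, ← e]; simp [h5]
        · rw [List.getD_append _ _ _ _ l]
          exact ((ha _ l).resolve_left fun h => h.2 (by simpa using h5)).1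
      intro c hc
      by_cases h5 : ls c ∈ P
      · simp only [List.length_append, List.length_singleton] at hc
        exact Or.inr ⟨by simpa using key _ h5 (by simp; omega), fun τ hτ => key τ (hP _ _ hτ h5)
          (by have := enc_mono hτ; rw [enc_ls] at this; omega)⟩
      · by_cases l : c < a.1.length
        · rw [List.getD_append _ _ _ _ l]
          refine (ha c l).imp_right fun h => ⟨h.1, fun τ hτ => ?_⟩
          rw [List.getD_append _ _ _ _ (by have := enc_mono hτ; rw [enc_ls] at this; omega)]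
          exact h.2 τ hτ
        · obtain rfl : c = a.1.length := by simp at hc; omega
          exact Or.inl ⟨by simp [h5], h5⟩
    refine ⟨adm_iff.2 ⟨List.prefix_append _ _, by simp, fun c hc => (hg c hc).imp And.left
      fun h => ⟨h.1, h.2, fun l o ho hp => ?_⟩⟩, hg, Or.inl ⟨rfl, by simpa using h4⟩⟩
    obtain rfl : c = a.1.length := by simp at hc; omega
    have h5 : ls a.1.length ∈ P := by by_contra hn; simp [hn] at h
    exact (by simpa [Os] using ho : _ ∧ ls o ∉ P).2 (hP _ _ hp h5)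
  · obtain ⟨ω, h5, rfl⟩ := Option.map_eq_some_iff.1 h
    have h6 := List.find?_some h5
    rw [OO_eq h1 fun c hc => h3.1 c (by omega)] at h6
    simp only [Bool.and_eq_true, List.all_eq_true, beq_iff_eq] at h6
    have h7 : adm a.1 (Os P s) (ls ω.unpair.1) = true := by
      have := h6.1
      simp only [WW, Bool.and_eq_true] at this
      exact this.1.1.1.1.1
    refine ⟨h7, fun c hc => ?_, Or.inr ⟨rfl, k, ω, h6.1, rfl⟩⟩
    obtain ⟨h8, -, h9⟩ := adm_iff.1 h7
    refine (h9 c hc).imp (fun h => ⟨h, fun hn => ?_⟩) fun h => ⟨h.1, h.2.1⟩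
    by_cases l : c < a.1.length
    · obtain ⟨ρ, e⟩ := h8
      simp only at h
      rw [← e, List.getD_append _ _ _ _ l] at h
      rcases ha c l with h' | h'
      · exact h'.2 hn
      · omega
    · have := h6.2 c (List.mem_filter.2 ⟨List.mem_range.2 hc, by simpa using ⟨not_lt.1 l, h⟩⟩)
      rw [rd_pre, h1, if_pos hn] at this
      split_ifs at this

omit hP in
theorem chk_compl (s : ℕ) (a : List ℕ × List Bool) :
    ∀ᶠ k in atTop, ∃ b, chk F G s a (pre (pr p w) k) = some b := by
  have e1 := (eventually_all_finite (Set.finite_lt_nat (s + a.1.length + 1))).2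
    fun c _ => eventually_gt_atTop (qa c)
  have e2 := eventually_gt_atTop (qq a.1 (Os P s) s)
  by_cases h : No F G P p a.1 s
  · filter_upwards [e1, e2] with k h3 h4
    unfold chk
    rw [OO_eq h1 fun c hc => h3 c (show c < _ by omega), rd_pre, if_pos h4, h2, if_pos h]
    simp only [Bool.cond_eq_ite, Bool.and_eq_true, List.all_eq_true, List.mem_range,
      decide_eq_true_eq, length_pre]
    rw [if_pos ⟨h3, h4⟩]
    exact ⟨_, by rw [if_pos (by rfl)]⟩
  · have h' := h
    simp only [No, not_forall, not_exists, not_and] at h'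
    obtain ⟨j, ω, h5, h6⟩ := h'
    filter_upwards [e1, e2, eventually_ge_atTop j, eventually_gt_atTop ω,
      (eventually_all_finite (outs a.1 (ls ω.unpair.1)).finite_toSet).2
        fun c _ => eventually_gt_atTop (qa c)] with k h3 h4 h7 h8 h9
    unfold chk
    rw [OO_eq h1 fun c hc => h3 c (show c < _ by omega), rd_pre, if_pos h4, h2, if_neg h]
    simp only [Bool.cond_eq_ite, Bool.and_eq_true, List.all_eq_true, List.mem_range,
      decide_eq_true_eq, length_pre, map_fst]
    rw [if_pos ⟨h3, h4⟩, if_neg (by simp), ← Option.isSome_iff_exists, Option.isSome_map,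
      List.find?_isSome]
    refine ⟨ω, List.mem_range.2 h8, ?_⟩
    simp only [Bool.and_eq_true, List.all_eq_true, beq_iff_eq]
    refine ⟨?_, fun c hc => by rw [rd_pre, if_pos (h9 c hc), h1, if_neg (h6 c hc)]⟩
    simp only [WW, cons, Bool.and_eq_true, List.all_eq_true, beq_iff_eq] at h5 ⊢
    refine ⟨⟨⟨⟨h5.1.1.1.1, fun i hi => G.mono _ _ _ _ ?_ (h5.1.1.1.2 i hi)⟩, h5.1.1.2⟩, h5.1.2⟩,
      h5.2⟩
    rw [← pre_getD (ls ω.unpair.1) 0, zp_pre, zp_pre]
    exact pre_pf _ (min_le_min_right _ h7)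

theorem exists_run : ∃ st : ℕ → List ℕ × List Bool, st 0 = ([], []) ∧ ∀ s,
    (∀ᶠ k in atTop, BB F G (pre (pr p w) k) s = some (st s)) ∧ St F G P p s (st s) (st (s + 1)) := by
  have ev : ∀ {s k a}, BB F G (pre (pr p w) k) s = some a →
      ∀ᶠ k in atTop, BB F G (pre (pr p w) k) s = some a := fun {s k a} h =>
    (eventually_ge_atTop k).mono fun _ hk => BB_mono (pre_pf _ hk) h
  have : ∀ s, ∃ a, (∀ᶠ k in atTop, BB F G (pre (pr p w) k) s = some a) ∧ Good P a.1 := by
    intro s
    induction s with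
    | zero => exact ⟨([], []), Eventually.of_forall fun _ => rfl, by simp [Good]⟩
    | succ s ih =>
      obtain ⟨a, h3, h4⟩ := ih
      obtain ⟨k, h5, b, h6⟩ := (h3.and (chk_compl h1 h2 s a)).exists
      obtain ⟨b, h7⟩ := mon_compl h6
      obtain ⟨t, h8⟩ := mon_sound h7
      exact ⟨b, ev (k := k) (by rw [BB, h5]; exact h7), (chk_sound hP h1 h2 h4 h8).2.1⟩
  choose st h3 h4 using this
  refine ⟨st, ?_, fun s => ⟨h3 s, ?_⟩⟩
  · obtain ⟨k, hk⟩ := (h3 0).exists
    exact (Option.some.inj hk).symm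
  · obtain ⟨k, h5, h6⟩ := ((h3 s).and (h3 (s + 1))).exists
    rw [BB, h5] at h6
    obtain ⟨t, h8⟩ := mon_sound h6
    exact chk_sound hP h1 h2 (h4 s) h8
end

end Pool.Agent.H62.Pk
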