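import Pool.Agent.H62.Pk2

/-!
The reduction of lim * PK on closed sets to PK on trees.
-/

set_option autoImplicit false

namespace Pool.Agent.H62.Pk

open Pool.Agent.H37 Encodable Filter Topology

theorem limit_q {F G : Fnl} {P : Set (List ℕ)} {p : Baire} {st : ℕ → List ℕ × List Bool}
    (h0 : st 0 = ([], [])) (hs : ∀ s, St F G P p s (st s) (st (s + 1))) :
    ∃ (q : Baire) (S : Set (List ℕ)), IsTree S ∧ IsChar q S ∧ body S = body P ∧
      (∀ s, pre q (st s).1.length = (st s).1 ∧ s ≤ (st s).1.length ∧ (st s).2.length = s) ∧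
      ∀ s s', s < s' → adm (st s).1 (Os P s) (st s').1 = true ∧ Good P (st s').1 ∧
        (st (s + 1)).2 <+: (st s').2 := by
  classical
  have a1 := fun s => adm_iff.1 (hs s).1
  have l1 : ∀ s, s ≤ (st s).1.length ∧ (st s).2.length = s := fun s => by
    induction s with
    | zero => simp [h0]
    | succ s ih =>
      refine ⟨by have := (a1 s).2.1; omega, ?_⟩
      rcases (hs s).2.2 with h | h <;> simp [h.1, ih.2]
  obtain ⟨q, hq⟩ := chain_lim 0 (F := fun s => (st s).1) (fun s => (a1 s).1) fun s => (l1 s).1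
  have hv : ∀ s c, c < (st s).1.length → (st s).1.getD c 0 = q c := fun s c hc => by
    rw [← hq s, getD_pre _ hc]
  have key : ∀ s s', s < s' → adm (st s).1 (Os P s) (st s').1 = true ∧ Good P (st s').1 ∧
      (st (s + 1)).2 <+: (st s').2 := by
    intro s s' h
    induction s', h using Nat.le_induction with
    | base => exact ⟨(hs s).1, (hs s).2.1, List.prefix_rfl⟩
    | succ r h ih =>
      obtain ⟨b1, b2, b3⟩ := adm_iff.1 ih.1
      obtain ⟨c1, c2, c3⟩ := a1 r
      refine ⟨adm_iff.2 ⟨b1.trans c1, by omega, fun c hc => (c3 c hc).imp_right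
        fun d => ⟨d.1, d.2.1, fun l o ho => ?_⟩⟩, (hs r).2.1, ih.2.2.trans ?_⟩
      · by_cases l' : c < (st r).1.length
        · refine ((b3 c l').resolve_left ?_).2.2 l o ho
          rw [hv _ _ l', ← hv _ _ hc, d.1]; simp
        · refine d.2.2 (not_lt.1 l') o ?_
          simp only [Os, List.mem_filter, List.mem_range] at ho ⊢
          exact ⟨by omega, ho.2⟩
      · rcases (hs r).2.2 with h | h <;> rw [h.1] <;> exact List.prefix_append _ _
  have gd : ∀ c, (q c = 0 ∧ ls c ∉ P) ∨ (q c = 1 ∧ ∀ τ, τ <+: ls c → q (encode τ) = 1) := by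
    intro c
    have l : c < (st (c + 1)).1.length := (l1 _).1
    have := (hs c).2.1 c l
    rw [hv _ _ l] at this
    refine this.imp_right fun h => ⟨h.1, fun τ hτ => ?_⟩
    rw [← hv (c + 1) _ (by have := enc_mono hτ; rw [enc_ls] at this; omega)]
    exact h.2 τ hτ
  refine ⟨q, {σ | q (encode σ) = 1}, fun σ τ h1 h2 => ?_, fun σ => ?_, Set.ext fun x =>
    ⟨fun h n => ?_, fun h n => ?_⟩, fun s => ⟨hq s, l1 s⟩, key⟩
  · exact ((gd (encode σ)).resolve_left fun h => by rw [show q _ = 1 from h2] at h; simp at h).2 τ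
      (by simpa using h1)
  · rcases gd (encode σ) with h | h <;> simp [h.1]
  · by_contra hn
    let s := encode (ini x n) + 1
    let c := encode (pre x (n + (st s).1.length))
    have l : c < (st (s + c + 1)).1.length := by have := (l1 (s + c + 1)).1; omega
    have := ((adm_iff.1 (key s (s + c + 1) (by omega)).1).2.2 c l).resolve_left (by
      rw [hv _ _ l, show q c = 1 from h _]; simp)
    refine this.2.2 (by have := len_le_enc (pre x (n + (st s).1.length)); simp at this; omega)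
      (encode (ini x n)) (by simp [Os, s, hn]) ?_
    simp only [c, ls_enc]
    exact pre_pf x (by omega)
  · exact ((gd (encode (ini x n))).resolve_left fun h' => h'.2 (by simpa using h n)).1

def RR (F1 G1 G2 : Fnl) (σ : List ℕ) (i : ℕ) (b : ℕ × List ℕ × List ℕ × List ℕ) : Option ℕ :=
  (BB F1 G2 σ b.1).bind fun st =>
    cond (cons G2 (zp (σ.map fun v => v.unpair.1) st.1) b.2.1 &&
      (List.range b.2.2.1.length).all fun m => st.2.getD (Nat.pair m (b.2.2.2.getD m 0)) false &&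
        F1.toFun b.2.1 (Nat.pair (b.2.2.2.getD m 0) m) == some (b.2.2.1.getD m 0))
      (G1.toFun (zp b.2.1 b.2.2.1) i) none

theorem ci_RR (F1 G1 G2 : Fnl) : CI ∅ fun q : List ℕ × ℕ × ℕ × List ℕ × List ℕ × List ℕ =>
    RR F1 G1 G2 q.1 q.2.1 q.2.2 :=
  CI.optBind ((ci_BB F1 G2).comp (g := fun q : List ℕ × ℕ × ℕ × List ℕ × List ℕ × List ℕ =>
    (q.1, q.2.2.1)) (by fun_prop)) (by fun_prop)

theorem upper {X Y Z : Type} (RX : Rep X) (RY : Rep Y) (RZ : Rep Z) (g : X → Set Y)
    (f : Y → Set Z) (hf : WLe RY RZ f seqRep baireRep lim) (hg : WLe RX RY g clRep clRep PKN) :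
    WLe RX RZ (comp f g) trRep trRep PK := by
  classical
  obtain ⟨F1, G1, H1⟩ := hf
  obtain ⟨F2, G2, H2⟩ := hg
  obtain ⟨Φ, hΦ⟩ := QT_fnl (ci_VV F2 (ci_dem F1 G2))
  obtain ⟨Ψ, hΨ⟩ := exists_fnl (ci_RR F1 G1 G2)
  refine ⟨Φ, Ψ, fun p x hx ⟨_, hz1, y0, hy0, _⟩ => ?_⟩
  obtain ⟨p', hp', hc⟩ := hΦ p
  obtain ⟨t, A, ht, ⟨T, hT, htc, rfl⟩, -, H2'⟩ := H2 p x hx ⟨y0, hy0⟩
  refine ⟨p', ⟨_, QT_tree _ p⟩, hp', hc, ⟨⟨pk _, (pk_perf _).1⟩, rfl⟩, fun w W hw hW => ?_⟩
  have hw' : ∀ c, w (encode [c]) = if (∀ k ω l, dem F1 G2 (pre p k) c ω = some l →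
      ∃ d ∈ l, ls d ∈ pk T) then 1 else 0 := fun c => by
    rw [hw, show W.1 = _ from hW]
    exact if_congr (QT_pk.trans (ans hT htc ht c)) rfl rfl
  have h1 : ∀ c, w (qa c) = if ls c ∈ pk T then 1 else 0 := fun c => by
    rw [qa, hw']; simp [dem]
  have h2 : ∀ β s, w (qq β (Os (pk T) s) s) = if No F1 G2 (pk T) p β s then 1 else 0 := by
    intro β s
    rw [qq, hw']
    refine if_congr (forall₂_congr fun k ω => ?_) rfl rfl
    cases e : WW F1 G2 (pre p k) β (Os (pk T) s) s ω <;> simp [dem, e]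
  obtain ⟨st, s0, hs⟩ := exists_run (pk_perf T).1 h1 h2
  obtain ⟨q, S, hS, hq, hb, l1, key⟩ := limit_q s0 fun s => (hs s).2
  obtain ⟨r, y, hr, hry, hy⟩ := H2' q _ ⟨S, hS, hq, hb.trans (kernel_eq hT).symm⟩ rfl
  obtain ⟨u, sq, hu, hsq, ⟨ℓ, hℓ⟩, H1'⟩ := H1 r y hry (hz1 y hy)
  obtain ⟨z, v, hz, hzv, hv⟩ := H1' ℓ ℓ rfl hℓ
  refine ⟨z, v, ?_, hzv, hz1, y, hy, hv⟩
  have hl : ∀ m, ∀ᶠ n in atTop, u (Nat.pair n m) = ℓ m := fun m => by
    have := tendsto_pi_nhds.1 hℓ m
    simp only [show ∀ n m, u (Nat.pair n m) = sq n m from hsq]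
    simpa using this
  have zq : ∀ k s, zp (pre p k) (st s).1 = pre (pr p q) (min k (st s).1.length) := fun k s => by
    rw [← zp_pre, (l1 s).1]
  have fl : ∀ s s', (st s').2.getD s false = true → No F1 G2 (pk T) p (st s).1 s := by
    intro s s' h
    have l : s < s' := by
      by_contra hn
      rw [List.getD_eq_default _ _ (by have := (l1 s').2.2; omega)] at h; cases h
    obtain ⟨ρ, e⟩ := (key s s' l).2.2
    rcases (hs s).2.2.2 with h' | h'
    · exact h'.2
    · rw [← e, h'.1, List.append_assoc, List.getD_append_right _ _ _ _ (l1 s).2.2.le,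
        (l1 s).2.2] at h
      simp at h
  have fa : ∀ m n, No F1 G2 (pk T) p (st (Nat.pair m n)).1 (Nat.pair m n) →
      u (Nat.pair n m) = ℓ m := by
    intro m n h
    by_contra hn
    obtain ⟨n', h3, h4⟩ := ((hl m).and (eventually_ge_atTop n)).exists
    obtain ⟨K, h5, h6⟩ := ((hu.ev (Nat.pair n m)).and (hu.ev (Nat.pair n' m))).exists
    obtain ⟨k, h7⟩ := eventually_atTop.1 (cons_ev hr K)
    have h8 := key (Nat.pair m n) (Nat.pair m n + k + 1) (by omega)
    obtain ⟨d, h9, h10⟩ := h k (Nat.pair (encode (st (Nat.pair m n + k + 1)).1)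
      (Nat.pair n' (encode (pre r K)))) (by
        simp only [WW, Nat.unpair_pair, ls_enc, h8.1, h4, zq, h5, h6, h3,
          h7 _ (le_min le_rfl (show k ≤ (st (Nat.pair m n + k + 1)).1.length by
            have := (l1 (Nat.pair m n + k + 1)).2.1; omega))]
        simpa using hn)
    simp only [outs, Nat.unpair_pair, ls_enc, List.mem_filter, List.mem_range, Bool.and_eq_true,
      beq_iff_eq] at h9
    rcases h8.2.1 d h9.1 with h' | h'
    · exact h'.2 h10
    · omega
  have fb : ∀ m, ∃ n, ∀ s', Nat.pair m n < s' → (st s').2.getD (Nat.pair m n) false = true := by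
    intro m
    obtain ⟨n, hn⟩ := eventually_atTop.1 (hl m)
    refine ⟨n, fun s' l => ?_⟩
    obtain ⟨ρ, e⟩ := (key _ s' l).2.2
    rcases (hs (Nat.pair m n)).2.2.2 with h' | ⟨-, k, ω, h', e'⟩
    · rw [← e, h'.1, List.append_assoc, List.getD_append_right _ _ _ _ (l1 _).2.2.le, (l1 _).2.2]
      simp
    · simp only [WW, Nat.unpair_pair, Bool.and_eq_true, decide_eq_true_eq, ← e', zq,
        Option.isSome_iff_exists, bne_iff_ne] at h'
      obtain ⟨⟨⟨⟨⟨-, a⟩, b⟩, v1, c⟩, v2, d⟩, e⟩ := h'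
      rw [cons_pre hr b] at c d e
      rw [c, d, hu.sound c, hu.sound d, hn _ a, hn _ le_rfl] at e
      exact absurd rfl e
  refine hΨ _ _ (fun k i b v' h => ?_) fun i => ?_
  · obtain ⟨a, h3, h4⟩ := Option.bind_eq_some_iff.1 h
    obtain ⟨k', h5, h6⟩ := ((hs b.1).1.and (eventually_ge_atTop k)).exists
    rw [BB_mono (pre_pf _ h6) h3] at h5
    obtain rfl := Option.some.inj h5
    simp only [Bool.cond_eq_ite, map_fst, zq, Bool.and_eq_true, List.all_eq_true, List.mem_range,
      beq_iff_eq] at h4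
    split_ifs at h4 with h7
    have e1 := cons_pre hr h7.1
    have e2 : b.2.2.1 = pre ℓ b.2.2.1.length := by
      rw [← pre_getD b.2.2.1 0, length_pre]
      refine pre_congr fun m hm => ?_
      have := (h7.2 m hm).2
      rw [e1] at this
      rw [hu.sound this]
      exact fa _ _ (fl _ _ (h7.2 m hm).1)
    rw [e1, e2, zp_pre] at h4
    exact hz.sound h4
  · choose nn hnn using fb
    obtain ⟨k0, hk0⟩ := hz i
    obtain ⟨K, a1, a2⟩ := ((eventually_ge_atTop k0).and ((eventually_all_finite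
      (Set.finite_lt_nat k0)).2 fun m _ => hu.ev (Nat.pair (nn m) m))).exists
    obtain ⟨k1, a3⟩ := eventually_atTop.1 (cons_ev hr K)
    obtain ⟨s, a4, a5⟩ := ((eventually_ge_atTop k1).and ((eventually_all_finite
      (Set.finite_lt_nat k0)).2 fun m _ => eventually_gt_atTop (Nat.pair m (nn m)))).exists
    refine ⟨(s, pre r K, pre ℓ k0, pre nn k0), ?_⟩
    filter_upwards [(hs s).1, eventually_ge_atTop k1] with k a6 a7
    simp only [RR, a6, Option.bind_some, map_fst, zq, length_pre, zp_pre, min_eq_right a1,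
      a3 _ (le_min a7 (a4.trans (l1 s).2.1)), Bool.true_and]
    rw [List.all_eq_true.2 fun m hm => ?_]
    · exact hk0
    · have hm := List.mem_range.1 hm
      simp only [getD_pre _ hm, hnn m s (a5 m hm), a2 m hm, Bool.true_and, beq_iff_eq]
      rw [fa _ _ (fl _ _ (hnn m s (a5 m hm)))]

end Pool.Agent.H62.Pk
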