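import Pool.Agent.H62.Pk3

/-!
PK on trees reduces to a composition below lim * PK on closed sets.
-/

set_option autoImplicit false

namespace Pool.Agent.H62.Pk

open Pool.Agent.H37 Encodable Filter Topology

def idF : Fnl := ⟨fun σ n => σ[n]?, CI.computable (f := fun q : List ℕ × ℕ => q.1[q.2]?)
  (by fun_prop), by
    rintro σ _ n v ⟨ρ, rfl⟩ h
    rw [List.getElem?_append_left (List.getElem?_eq_some_iff.1 h).1, h]⟩

def sndF : Fnl := ⟨fun σ n => σ[n]?.map fun v : ℕ => v.unpair.2, CI.computable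
  (f := fun q : List ℕ × ℕ => q.1[q.2]?.map fun v : ℕ => v.unpair.2) (by fun_prop), by
    rintro σ _ n v ⟨ρ, rfl⟩ h
    obtain ⟨a, h1, h2⟩ := Option.map_eq_some_iff.1 h
    rw [List.getElem?_append_left (List.getElem?_eq_some_iff.1 h1).1, h]⟩

theorem idF_ev (p : Baire) : idF.Ev p p := fun n => ⟨n + 1, by simp [idF, ini]⟩
theorem sndF_ev (p q : Baire) : sndF.Ev (pr p q) q := fun n => ⟨n + 1, by simp [sndF, ini, pr]⟩

def CT (T : Set (List ℕ)) : Set (List ℕ) := {ρ | ∀ i < ρ.length, ρ.getD i 0 = 0 ∨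
  (ρ.getD i 0 = 1 ∧ ls i ∈ T ∧ ∀ j < ρ.length, (ls j <+: ls i → ρ.getD j 0 = 1) ∧
    (ρ.getD j 0 = 1 → (ls i).length = (ls j).length → i = j))}

theorem CT_tree (T : Set (List ℕ)) : IsTree (CT T) := by
  rintro _ τ ⟨ρ, rfl⟩ h i hi
  have := h i (by simp; omega)
  rw [List.getD_append _ _ _ _ hi] at this
  refine this.imp_right fun h => ⟨h.1, h.2.1, fun j hj => ?_⟩
  have := h.2.2 j (by simp; omega)
  rwa [List.getD_append _ _ _ _ hj] at this

theorem body_CT {T : Set (List ℕ)} {x : Baire} : x ∈ body (CT T) ↔ ∀ σ, x (encode σ) = 0 ∨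
    (x (encode σ) = 1 ∧ σ ∈ T ∧ ∀ τ : List ℕ, (τ <+: σ → x (encode τ) = 1) ∧
      (x (encode τ) = 1 → σ.length = τ.length → σ = τ)) := by
  simp only [body, CT, Set.mem_ofPred_eq, ini_eq, length_pre]
  constructor
  · intro h σ
    rcases h (encode σ + 1) (encode σ) (by omega) with h1 | h1
    · exact Or.inl (by rwa [getD_pre _ (by omega)] at h1)
    rw [getD_pre _ (by omega), ls_enc] at h1
    refine Or.inr ⟨h1.1, h1.2.1, fun τ => ?_⟩
    have := ((h (encode σ + encode τ + 1) (encode σ) (by omega)).resolve_left (by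
      rw [getD_pre _ (by omega), h1.1]; simp)).2.2 (encode τ) (by omega)
    rw [getD_pre _ (by omega), ls_enc, ls_enc] at this
    exact ⟨this.1, fun a b => encode_injective (this.2 a b)⟩
  · intro h n i hi
    have := h (ls i)
    rw [enc_ls] at this
    rw [getD_pre _ hi]
    refine this.imp_right fun h => ⟨h.1, h.2.1, fun j hj => ?_⟩
    have := h.2.2 (ls j)
    rw [enc_ls] at this
    rw [getD_pre _ hj]
    exact ⟨this.1, fun a b => by rw [← enc_ls i, this.2 a b, enc_ls]⟩

theorem PerfT.near {S : Set (List ℕ)} (h : PerfT S) {x : Baire} (hx : x ∈ body S) (n : ℕ) :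
    ∃ y ∈ body S, pre y n = pre x n ∧ y ≠ x := by
  obtain ⟨y, h1, h2⟩ := accPt_iff_nhds.1 (h.perfect.acc x hx) _ (cyl_nhds x n)
  exact ⟨y, h1.2, h1.1, h2⟩

def cd (y : Baire) : Baire := fun i => if ls i = pre y (ls i).length then 1 else 0

theorem cd_one {y : Baire} {σ : List ℕ} : cd y (encode σ) = 1 ↔ σ = pre y σ.length := by
  simp [cd]

theorem pk_CT {T : Set (List ℕ)} (hT : IsTree T) {σ : List ℕ} :
    σ ∈ pk T ↔ ∃ x ∈ body (pk (CT T)), x (encode σ) = 1 := by
  constructor
  · intro h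
    obtain ⟨y, h1, h2⟩ := (pk_perf T).path h
    refine ⟨cd y, fun n => sub_pk (CT_tree T)
      (G := {ρ | ∃ y ∈ body (pk T), ρ = pre (cd y) ρ.length}) ?_ ⟨y, h1, by simp [ini_eq]⟩,
      cd_one.2 h2.symm⟩
    rintro ρ ⟨y, hy, e⟩
    have c : cd y ∈ body (CT T) := body_CT.2 fun σ => by
      by_cases h : cd y (encode σ) = 1
      · refine Or.inr ⟨h, ?_, fun τ => ⟨fun a => cd_one.2 (pf_pre (cd_one.1 h ▸ a)), fun a b => ?_⟩⟩
        · rw [cd_one.1 h]; exact pk_sub T (hy _)
        · rw [cd_one.1 h, cd_one.1 a, b]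
      · exact Or.inl (by simpa [cd] using h)
    refine ⟨e ▸ c _, ?_⟩
    obtain ⟨z, h3, h4, h5⟩ := (pk_perf T).near hy ρ.length
    obtain ⟨i, hi⟩ := Function.ne_iff.1 h5
    have h6 : pre (cd y) (ρ.length + encode (pre y (i + 1)) + 1) ≠
        pre (cd z) (ρ.length + encode (pre y (i + 1)) + 1) := fun e => by
      have := pre_eq_iff.1 e (encode (pre y (i + 1))) (by omega)
      rw [cd_one.2 (by simp), eq_comm, cd_one, length_pre] at this
      exact hi (pre_eq_iff.1 this i (by omega)).symm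
    have h7 : pre (cd z) ρ.length = pre (cd y) ρ.length := pre_congr fun j hj => by
      have := len_le_enc (ls j)
      rw [enc_ls] at this
      simp only [cd]
      rw [← take_pre z (show (ls j).length ≤ ρ.length by omega), h4, take_pre _ (by omega)]
    refine ⟨_, ⟨y, hy, by simp⟩, _, ⟨z, h3, by simp⟩, ?_, ?_,
      fun h => h6 (h.eq_of_length (by simp)), fun h => h6 (h.eq_of_length (by simp)).symm⟩
    · conv_lhs => rw [e]
      exact pre_pf _ (by omega)
    · conv_lhs => rw [e, ← h7]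
      exact pre_pf _ (by omega)
  · refine fun h => sub_pk hT (G := {σ | ∃ x ∈ body (pk (CT T)), x (encode σ) = 1}) ?_ h
    have B : ∀ x ∈ body (pk (CT T)), ∀ σ, x (encode σ) = 0 ∨
        (x (encode σ) = 1 ∧ σ ∈ T ∧ ∀ τ : List ℕ, (τ <+: σ → x (encode τ) = 1) ∧
        (x (encode τ) = 1 → σ.length = τ.length → σ = τ)) :=
      fun x hx => body_CT.1 fun n => pk_sub _ (hx n)
    have B1 : ∀ x ∈ body (pk (CT T)), ∀ σ, x (encode σ) = 1 → σ ∈ T ∧ ∀ τ : List ℕ,
        (τ <+: σ → x (encode τ) = 1) ∧ (x (encode τ) = 1 → σ.length = τ.length → σ = τ) :=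
      fun x hx σ h => ((B x hx σ).resolve_left (by simp [h])).2
    have B2 : ∀ x ∈ body (pk (CT T)), ∀ σ τ : List ℕ, x (encode σ) = 1 → x (encode τ) = 1 →
        σ.length ≤ τ.length → σ <+: τ := fun x hx σ τ a b c => by
      rw [((B1 x hx σ a).2 (τ.take σ.length)).2 (((B1 x hx τ b).2 _).1 (List.take_prefix _ _))
        (by simp [c])]
      exact List.take_prefix _ _
    have B3 : ∀ x ∈ body (pk (CT T)), ∀ y ∈ body (pk (CT T)),
        (∀ σ : List ℕ, x (encode σ) = 1 ↔ y (encode σ) = 1) → x = y := fun x hx y hy h => by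
      funext i
      have := h (ls i)
      have a := B x hx (ls i)
      have b := B y hy (ls i)
      rw [enc_ls] at this a b
      omega
    rintro τ ⟨x, hx, h1⟩
    refine ⟨(B1 x hx τ h1).1, ?_⟩
    by_contra hn
    push Not at hn
    obtain ⟨x1, a1, a2, α, ⟨x2, a3, a4⟩, a5, a6⟩ : ∃ x1 ∈ body (pk (CT T)), x1 (encode τ) = 1 ∧
        ∃ α, (∃ x2 ∈ body (pk (CT T)), x2 (encode α) = 1) ∧ τ <+: α ∧ x1 (encode α) ≠ 1 := by
      obtain ⟨y, h3, h4, h5⟩ := (pk_perf _).near hx (encode τ + 1)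
      have h6 : y (encode τ) = 1 := (pre_eq_iff.1 h4 _ (by omega)).trans h1
      have key : ∀ u ∈ body (pk (CT T)), ∀ v ∈ body (pk (CT T)), u (encode τ) = 1 →
          v (encode τ) = 1 → ∀ α : List ℕ, u (encode α) = 1 → v (encode α) ≠ 1 → τ <+: α :=
        fun u hu v hv a b α c d => by
          rcases le_total τ.length α.length with l | l
          · exact B2 u hu _ _ a c l
          · exact absurd (((B1 v hv τ b).2 α).1 (B2 u hu _ _ c a l)) d
      by_contra hc
      push Not at hc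
      refine h5 (B3 y h3 x hx fun α => ⟨fun a => ?_, fun a => ?_⟩)
      · by_contra b
        exact b (hc x hx h1 α ⟨y, h3, a⟩ (key y h3 x hx h6 h1 α a b))
      · by_contra b
        exact b (hc y h3 h6 α ⟨x, hx, a⟩ (key x hx y h3 h1 h6 α a b))
    induction α using List.reverseRecOn with
    | nil => exact a6 (((B1 x1 a1 τ a2).2 _).1 List.nil_prefix)
    | append_singleton α c ih =>
      have b1 : τ <+: α := by
        rcases List.prefix_concat_iff.1 a5 with h | h
        · exact absurd (h ▸ a2) a6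
        · exact h
      have b2 := ((B1 x2 a3 _ a4).2 α).1 (List.prefix_append _ _)
      by_cases b3 : x1 (encode α) = 1
      swap
      · exact ih b2 b1 b3
      obtain ⟨y, h3, h4, h5⟩ := (pk_perf _).near a1 (encode (α ++ [c]) + encode α + 1)
      have key : ∀ u ∈ body (pk (CT T)), ∀ v ∈ body (pk (CT T)), u (encode α) = 1 →
          v (encode α) = 1 → u (encode (α ++ [c])) ≠ 1 → ∀ γ : List ℕ, u (encode γ) = 1 →
          v (encode γ) = 1 := fun u hu v hv a b d γ e => by
        by_cases l : γ.length ≤ α.length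
        · exact ((B1 v hv α b).2 γ).1 (B2 u hu _ _ e a l)
        · have f1 := b1.trans (B2 u hu _ _ a e (by omega))
          refine absurd (((B1 u hu γ e).2 _).1 ?_) d
          by_contra f2
          have f3 := hn _ ⟨x2, a3, a4⟩ γ ⟨u, hu, e⟩ a5 f1 f2
          exact f2 (by rw [f3.eq_of_length (by have := f3.length_le; simp at this ⊢; omega)])
      have c1 : y (encode α) = 1 := (pre_eq_iff.1 h4 _ (by omega)).trans b3
      have c2 : y (encode (α ++ [c])) ≠ 1 := by rwa [pre_eq_iff.1 h4 _ (by omega)]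
      exact h5 (B3 y h3 x1 a1 fun γ => ⟨key y h3 x1 a1 c1 b3 c2 γ, key x1 a1 y h3 b3 c1 a6 γ⟩)

def gP (T : Tr) : Set (Set Baire) := PKN (body (CT T.1))
def fP (K : Set Baire) : Set Tr :=
  {W | (∀ x ∈ K, ∀ i, x i ≤ 1) ∧ W.1 = {σ | ∃ x ∈ K, x (encode σ) = 1}}

theorem fnl_of_bound {c : List ℕ → ℕ → ℕ} {bd : ℕ → ℕ} (hc : CI ∅ fun q : List ℕ × ℕ => c q.1 q.2)
    (hb : CI ∅ bd) : ∃ F : Fnl, ∀ p, F.Ev p fun n => c (pre p (bd n)) n := by
  obtain ⟨F, hF⟩ := exists_fnl (β := ℕ) (R := fun σ n _ => cond (decide (bd n ≤ σ.length))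
    (some (c (σ.take (bd n)) n)) none) (CI.cond (by fun_prop) (CI.some (hc.comp
      (g := fun q : List ℕ × ℕ × ℕ => (q.1.take (bd q.2.1), q.2.1)) (by fun_prop))) (by fun_prop))
  refine ⟨F, fun p => hF _ _ (fun k n _ v hv => ?_) fun n => ⟨0, (eventually_ge_atTop (bd n)).mono
    fun k hk => by simp only [length_pre, hk, decide_true, cond_true, take_pre p hk]⟩⟩
  by_cases hk : bd n ≤ k
  · simp only [length_pre, hk, decide_true, cond_true, take_pre p hk] at hv
    exact (Option.some.inj hv).symm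
  · simp [hk] at hv

theorem gP_le : WLe trRep clRep gP clRep clRep PKN := by
  obtain ⟨F, hF⟩ := fnl_of_bound (c := fun σ n => ((List.range (ls n).length).all fun i =>
    (ls n).getD i 0 == 0 || ((ls n).getD i 0 == 1 && (σ.getD i 0 == 1 &&
      (List.range (ls n).length).all fun j =>
        ((ls i).take (ls j).length != ls j || (ls n).getD j 0 == 1) &&
        ((ls n).getD j 0 != 1 || (ls i).length != (ls j).length || i == j)))).toNat)
    (bd := fun n => (ls n).length) (by fun_prop) (by fun_prop)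
  refine ⟨F, sndF, fun p T hp _ => ⟨_, body (CT T.1), hF p, ⟨_, CT_tree _, fun σ => ?_, rfl⟩,
    ⟨_, rfl⟩, fun q w hq hw => ⟨q, w, sndF_ev p q, hq, hw⟩⟩⟩
  have : ((List.range σ.length).all fun i =>
      σ.getD i 0 == 0 || (σ.getD i 0 == 1 && ((pre p σ.length).getD i 0 == 1 &&
      (List.range σ.length).all fun j => ((ls i).take (ls j).length != ls j || σ.getD j 0 == 1) &&
        (σ.getD j 0 != 1 || (ls i).length != (ls j).length || i == j)))) = true ↔ σ ∈ CT T.1 := by
    simp only [List.all_eq_true, List.mem_range, Bool.or_eq_true, beq_iff_eq, Bool.and_eq_true,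
      bne_iff_ne, CT, Set.mem_ofPred_eq, List.prefix_iff_eq_take, Ne,
      ← imp_iff_not_or, eq_comm (a := List.take _ _)]
    refine forall₂_congr fun i hi => or_congr_right (and_congr_right fun _ =>
      and_congr ?_ (forall₂_congr fun j _ => and_congr_right fun _ => by tauto))
    have := hp (ls i)
    rw [enc_ls] at this
    rw [getD_pre _ hi, this]; simp
  simp only [ls_enc]
  split_ifs with h
  · rw [this.2 h]; rfl
  · rw [Bool.eq_false_iff.2 fun h' => h (this.1 h')]; rfl

theorem fP_le : WLe clRep trRep fP seqRep baireRep lim := by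
  classical
  obtain ⟨F, hF⟩ := fnl_of_bound (c := fun σ n =>
    ((allLists [true, false] (n.unpair.1 + n.unpair.2 + 1)).any fun ρ =>
      ρ.length == n.unpair.1 + n.unpair.2 + 1 && (σ.getD (encode (ρ.map Bool.toNat)) 0 == 1 &&
        ρ.getD n.unpair.2 false)).toNat)
    (bd := fun n => ((allLists [true, false] (n.unpair.1 + n.unpair.2 + 1)).map fun ρ =>
      encode (ρ.map Bool.toNat) + 1).sum) (by fun_prop) (by fun_prop)
  refine ⟨F, sndF, ?_⟩
  rintro q _ ⟨S, hS, hq, rfl⟩ ⟨W, h1, h2⟩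
  have key : Tendsto (fun n c => if ∃ ρ : List Bool, ρ.length = n + c + 1 ∧ ρ.map Bool.toNat ∈ S ∧
      ρ.getD c false = true then 1 else 0) atTop (𝓝 fun c => if ls c ∈ W.1 then 1 else 0) := by
    refine tendsto_pi_nhds.2 fun c => tendsto_const_nhds.congr' ?_
    rw [h2]
    simp only [Set.mem_ofPred_eq, enc_ls]
    by_cases h : ∃ x ∈ body S, x c = 1
    · refine Eventually.of_forall fun n => ?_
      obtain ⟨x, a, b⟩ := id h
      simp only [if_pos h]
      refine (if_pos ⟨pre (fun i => x i == 1) (n + c + 1), by simp, ?_, by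
        rw [getD_pre _ (by omega)]; simpa using b⟩).symm
      have := a (n + c + 1)
      rwa [show (pre (fun i => x i == 1) (n + c + 1)).map Bool.toNat = ini x (n + c + 1) by
        simp only [pre, ini, List.map_map]
        refine List.map_congr_left fun i _ => ?_
        rcases Nat.le_one_iff_eq_zero_or_eq_one.1 (h1 x a i) with e | e <;> simp [e]]
    · by_contra hn
      rw [EventuallyEq, not_eventually] at hn
      obtain ⟨x, hx⟩ := exists_path (T := fun ρ => ρ.map Bool.toNat ∈ S ∧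
          (c < ρ.length → ρ.getD c false = true)) fun k => by
        obtain ⟨n, a, b⟩ := (hn.and_eventually (eventually_ge_atTop k)).exists
        simp only [if_neg h] at a
        obtain ⟨ρ, c1, c2, c3⟩ : ∃ ρ : List Bool, ρ.length = n + c + 1 ∧ ρ.map Bool.toNat ∈ S ∧
            ρ.getD c false = true := by by_contra hc; exact a (if_neg hc).symm
        refine ⟨fun i => ρ.getD i false, fun j hj => ⟨hS _ _ (List.IsPrefix.map _ ?_) c2,
          fun l => by rw [getD_pre _ (by simpa using l)]; exact c3⟩⟩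
        conv_rhs => rw [← pre_getD ρ false]
        exact pre_pf _ (by omega)
      refine h ⟨fun i => (x i).toNat, fun n => by simpa [pre, ini, Function.comp_def] using (hx n).1, ?_⟩
      have := (hx (c + 1)).2 (by simp)
      rw [getD_pre _ (by omega)] at this
      simp [this]
  refine ⟨_, _, hF q, fun n c => ?_, ⟨_, key⟩, fun r l hr hl => ⟨r, W, sndF_ev q r, ?_, h1, h2⟩⟩
  · simp only [Nat.unpair_pair]
    have : ((allLists [true, false] (n + c + 1)).any fun ρ => ρ.length == n + c + 1 &&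
        ((pre q ((allLists [true, false] (n + c + 1)).map fun ρ =>
          encode (ρ.map Bool.toNat) + 1).sum).getD (encode (ρ.map Bool.toNat)) 0 == 1 &&
        ρ.getD c false)) = true ↔ ∃ ρ : List Bool, ρ.length = n + c + 1 ∧ ρ.map Bool.toNat ∈ S ∧
        ρ.getD c false = true := by
      simp only [List.any_eq_true, Bool.and_eq_true, beq_iff_eq]
      refine exists_congr fun ρ => ?_
      by_cases l : ρ.length = n + c + 1
      · have m : ρ ∈ allLists [true, false] (n + c + 1) := mem_allLists.2 ⟨l.le, by simp⟩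
        have m2 : encode (ρ.map Bool.toNat) + 1 ≤ ((allLists [true, false] (n + c + 1)).map fun ρ =>
            encode (ρ.map Bool.toNat) + 1).sum :=
          List.single_le_sum (fun _ _ => Nat.zero_le _) _ (List.mem_map.2 ⟨ρ, m, rfl⟩)
        rw [getD_pre _ m2, hq]
        simp [m, l]
      · simp [l]
    split_ifs with h
    · rw [this.2 h]; rfl
    · rw [Bool.eq_false_iff.2 fun h' => h (this.1 h')]; rfl
  · obtain rfl : r = l := hr
    rw [tendsto_nhds_unique hl key]
    exact fun σ => by simp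

theorem PK_le : WLe trRep trRep PK trRep trRep (comp fP gP) := by
  have key : ∀ T : Tr, ∀ K ∈ gP T, ∀ W : Tr, W ∈ fP K ↔ W ∈ PK T := by
    intro T K hK W
    obtain rfl : K = body (pk (CT T.1)) := (kernel_eq (CT_tree _)) ▸ hK
    have : {σ | ∃ x ∈ body (pk (CT T.1)), x (encode σ) = 1} = pk T.1 :=
      Set.ext fun σ => (pk_CT T.2).symm
    simp only [fP, PK, Set.mem_ofPred_eq, this, and_iff_right_iff_imp]
    intro _ x hx i
    have := body_CT.1 (fun n => pk_sub _ (hx n)) (ls i)
    rw [enc_ls] at this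
    omega
  refine ⟨idF, sndF, fun p T hp ⟨W, hW⟩ => ⟨p, T, idF_ev p, hp, ⟨W, fun K hK =>
    ⟨W, (key T K hK W).2 hW⟩, _, rfl, (key T _ rfl W).2 hW⟩, ?_⟩⟩
  rintro q w hq ⟨-, K, hK, hw⟩
  exact ⟨q, w, sndF_ev p q, hq, (key T K hK w).1 hw⟩

end Pool.Agent.H62.Pk
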