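import Pool.Agent.H62.PossDefs

set_option autoImplicit false

namespace H62.Poss
open MF

variable {I : Type} (i : I)

def bot : MF I := and (var 0) (neg (var 0))
def dia (φ : MF I) : MF I := neg (box i (neg φ))
def dead : MF I := box i bot
def mu : MF I := dia i (dead i)
def gam : MF I := and (neg (dead i)) (and (neg (mu i)) (neg (dia i (mu i))))
def sg : MF I := dia i (and (mu i) (box i (dead i)))
def gp : MF I := and (gam i) (var 1)
def spl : MF I := and (dia i (gp i)) (dia i (and (mu i) (dia i (gp i))))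
def lst : MF I := and (spl i) (neg (dia i (spl i)))
def split : MF I :=
  neg (and (dia i (gp i)) (neg (and (dia i (and (gp i) (dia i (lst i)))) (dia i (and (gp i) (neg (dia i (lst i))))))))
def reap : MF I :=
  neg (and (neg (dia i (and (mu i) (box i (var 2))))) (neg (dia i (and (mu i) (box i (neg (var 2)))))))
def phi : MF I := neg (and (sg i) (neg (and (dia i (gam i)) (and (split i) (reap i)))))

lemma kvalid {W : Type} (R : I → W → W → Prop) : KValid R (phi i) ↔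
    ∀ w, ¬∃ v, R i w v ∧ (∃ u, R i v u ∧ ∀ z, ¬R i u z) ∧ ∀ u, R i v u → ∀ z, ¬R i u z := by
  have hs : ∀ V w, ksat R V (sg i) w ↔
      ∃ v, R i w v ∧ (∃ u, R i v u ∧ ∀ z, ¬R i u z) ∧ ∀ u, R i v u → ∀ z, ¬R i u z := by
    intro V w
    simp only [sg, dia, mu, dead, bot, ksat, not_forall, not_not, and_not_self, imp_false, exists_prop,
      not_exists]
  refine ⟨fun h w hw => ?_, fun h V w a => h w ((hs V w).mp a.1)⟩
  have a : ∀ V, ksat R V (dia i (gam i)) w ∧ ksat R V (split i) w := fun V => by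
    have := not_not.mp fun b => h V w ⟨(hs V w).mpr hw, b⟩
    exact ⟨this.1, this.2.1⟩
  have d : ∀ V φ, ksat R V (dia i φ) w ↔ ∃ v, R i w v ∧ ksat R V φ v := by intro V φ; simp [dia, ksat]
  obtain ⟨v, h1, h2⟩ := (d _ _).mp (a fun _ => ∅).1
  have h3 : ksat R (fun _ => {v}) (gam i) v := by simpa [gam, dia, mu, dead, bot, ksat] using h2
  obtain ⟨b1, b2⟩ := not_not.mp fun b => (a fun _ => {v}).2 ⟨(d _ _).mpr ⟨v, h1, h3, rfl⟩, b⟩
  obtain ⟨v1, -, ⟨-, rfl⟩, c1⟩ := (d _ _).mp b1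
  obtain ⟨v2, -, ⟨-, rfl⟩, c2⟩ := (d _ _).mp b2
  exact c2 c1

def C : Type := {x : Finset ℕ × Finset ℕ // Disjoint x.1 x.2}

instance : Countable C := Subtype.countable

def sub (x y : C) : Prop := y.1.1 ⊆ x.1.1 ∧ y.1.2 ⊆ x.1.2

lemma ext1 (x : C) {k : ℕ} (h : k ∉ x.1.2) : ∃ y : C, sub y x ∧ k ∈ y.1.1 :=
  ⟨⟨(insert k x.1.1, x.1.2), Finset.disjoint_insert_left.mpr ⟨h, x.2⟩⟩,
    ⟨Finset.subset_insert _ _, le_rfl⟩, Finset.mem_insert_self _ _⟩

lemma ext2 (x : C) {k : ℕ} (h : k ∉ x.1.1) : ∃ y : C, sub y x ∧ k ∈ y.1.2 :=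
  ⟨⟨(x.1.1, insert k x.1.2), Finset.disjoint_insert_right.mpr ⟨h, x.2⟩⟩,
    ⟨le_rfl, Finset.subset_insert _ _⟩, Finset.mem_insert_self _ _⟩

lemma sub_rfl (x : C) : sub x x := ⟨le_rfl, le_rfl⟩

inductive S (J : Type) : Type
  | root : S J
  | c : C → S J
  | n : ℕ → S J
  | m : ℕ → S J
  | leaf : ℕ → S J
  | a : J → S J

open S
variable {J : Type}

instance : PartialOrder (S J) where
  le u v := u = v ∨ ∃ x y, u = c x ∧ v = c y ∧ sub x y
  le_refl _ := Or.inl rfl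
  le_trans := by
    rintro u v w (rfl | ⟨x, y, rfl, rfl, h⟩) (rfl | ⟨x', y', e, rfl, h'⟩)
    · exact Or.inl rfl
    · exact Or.inr ⟨_, _, e, rfl, h'⟩
    · exact Or.inr ⟨_, _, rfl, rfl, h⟩
    · cases e; exact Or.inr ⟨_, _, rfl, rfl, h'.1.trans h.1, h'.2.trans h.2⟩
  le_antisymm := by
    rintro u v (rfl | ⟨x, y, rfl, rfl, h⟩) (e | ⟨x', y', e, e', h'⟩)
    · rfl
    · rfl
    · exact e.symm
    · cases e; cases e'
      exact congrArg c (Subtype.ext (Prod.ext (h'.1.antisymm h.1) (h'.2.antisymm h.2)))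

lemma le_def {u v : S J} : u ≤ v ↔ u = v ∨ ∃ x y, u = c x ∧ v = c y ∧ sub x y := Iff.rfl
@[simp] lemma le_root {u : S J} : u ≤ root ↔ u = root := by simp [le_def]
@[simp] lemma le_n {u : S J} {k : ℕ} : u ≤ n k ↔ u = n k := by simp [le_def]
@[simp] lemma le_m {u : S J} {k : ℕ} : u ≤ m k ↔ u = m k := by simp [le_def]
@[simp] lemma le_leaf {u : S J} {k : ℕ} : u ≤ leaf k ↔ u = leaf k := by simp [le_def]
@[simp] lemma le_a {u : S J} {j : J} : u ≤ a j ↔ u = a j := by simp [le_def]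
@[simp] lemma le_c {u : S J} {y : C} : u ≤ c y ↔ ∃ x, u = c x ∧ sub x y :=
  ⟨by rintro (rfl | ⟨x, y, rfl, e, h⟩); exacts [⟨y, rfl, sub_rfl y⟩, by cases e; exact ⟨x, rfl, h⟩],
    fun ⟨x, e, h⟩ => Or.inr ⟨x, y, e, rfl, h⟩⟩

def R (A : J → Set ℕ) : S J → S J → Prop
  | root, c _ => True
  | root, a _ => True
  | c x, n k => k ∉ x.1.2
  | n k, n k' => k' < k
  | n k, m k' => k' = k
  | n k, c x => k ∈ x.1.1
  | m _, leaf _ => True
  | m k, c x => k ∈ x.1.2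
  | a j, leaf k => k ∈ A j
  | _, _ => False

variable (A : J → Set ℕ)

lemma all_S {P : S J → Prop} : (∀ u, P u) ↔
    P root ∧ (∀ x, P (c x)) ∧ (∀ k, P (n k)) ∧ (∀ k, P (m k)) ∧ (∀ k, P (leaf k)) ∧ ∀ j, P (a j) :=
  ⟨fun h => ⟨h _, fun _ => h _, fun _ => h _, fun _ => h _, fun _ => h _, fun _ => h _⟩,
    fun ⟨h1, h2, h3, h4, h5, h6⟩ u => by cases u <;> simp [*]⟩

lemma ex_S {P : S J → Prop} : (∃ u, P u) ↔
    P root ∨ (∃ x, P (c x)) ∨ (∃ k, P (n k)) ∨ (∃ k, P (m k)) ∨ (∃ k, P (leaf k)) ∨ ∃ j, P (a j) := by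
  rw [← not_iff_not]; simp only [not_exists, not_or]; exact all_S

lemma R_down {x y y' : S J} (h : R A x y) (h' : y' ≤ y) : R A x y' := by
  rcases h' with rfl | ⟨u, v, rfl, rfl, h'⟩
  · exact h
  · cases x <;> simp only [R] at * <;> first | exact h'.1 h | exact h'.2 h

lemma full : Full (fun _ : I => R A) := by
  intro _ X _ x
  refine ⟨fun h x' hx' => ⟨x', le_rfl, fun y hy => ?_⟩, fun h y hy => ?_⟩
  · rcases hx' with rfl | ⟨u, v, rfl, rfl, h'⟩
    · exact h y hy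
    · cases y <;> simp only [R] at hy
      exact h _ fun b => hy (h'.2 b)
  · cases x with
    | c x =>
      cases y <;> simp only [R] at hy
      obtain ⟨z, h1, h2⟩ := ext1 x hy
      obtain ⟨_, h3, h4⟩ := h (c z) (le_c.mpr ⟨z, rfl, h1⟩)
      obtain ⟨z', rfl, h5⟩ := le_c.mp h3
      exact h4 _ (Finset.disjoint_left.mp z'.2 (h5.1 h2))
    | _ =>
      obtain ⟨_, h3, h4⟩ := h _ le_rfl
      simp only [le_root, le_n, le_m, le_leaf, le_a] at h3
      exact h4 _ (h3 ▸ hy)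

variable (V : ℕ → Set (S J))

lemma f_dia (φ : MF I) (x : S J) : force (fun _ => R A) V (dia i φ) x ↔
    ∀ x' ≤ x, ∃ y, R A x' y ∧ force (fun _ => R A) V φ y := by
  simp only [dia, force, not_forall, not_not]
  exact forall₂_congr fun x' _ => ⟨fun ⟨y, h1, y', h2, h3⟩ => ⟨y', R_down A h1 h2, h3⟩,
    fun ⟨y, h1, h2⟩ => ⟨y, h1, y, le_rfl, h2⟩⟩

lemma f_bot (x : S J) : ¬force (fun _ : I => R A) V bot x := fun h => h.2 x le_rfl h.1

lemma fresh (x : C) : ∃ k, k ∉ x.1.1 ∧ k ∉ x.1.2 := by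
  simpa using Infinite.exists_notMem_finset (x.1.1 ∪ x.1.2)

def c0 : C := ⟨(∅, ∅), disjoint_bot_left⟩

variable {A} (hA : ∀ j, (A j).Nonempty)
include hA

lemma f_dead (x : S J) : force (fun _ => R A) V (dead i) x ↔ ∃ k, x = leaf k := by
  have : ∀ y, force (fun _ : I => R A) V bot y ↔ False := fun y => iff_false_intro (f_bot A V y)
  simp only [dead, force, this]
  cases x with
  | root => simpa using ⟨c c0, trivial⟩
  | c x => simpa using ⟨n _, (fresh x).choose_spec.2⟩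
  | n k => simpa using ⟨m k, rfl⟩
  | m k => simpa using ⟨leaf 0, trivial⟩
  | leaf k => simp [R]
  | a j => simpa using ⟨leaf _, (hA j).choose_spec⟩

lemma f_mu (x : S J) : force (fun _ => R A) V (mu i) x ↔ (∃ k, x = m k) ∨ ∃ j, x = a j := by
  simp only [mu, f_dia, f_dead i V hA]
  cases x <;> simp [R]
  exacts [⟨_, sub_rfl _⟩, hA _]

variable [Nonempty J]

lemma f_dmu (x : S J) : force (fun _ => R A) V (dia i (mu i)) x ↔ x = root ∨ ∃ k, x = n k := by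
  simp only [f_dia, f_mu i V hA]
  cases x <;> simp [R, ex_S]
  exact ⟨_, sub_rfl _⟩

lemma f_gam (x : S J) : force (fun _ => R A) V (gam i) x ↔ ∃ y, x = c y := by
  simp only [gam, force, f_dmu i V hA, f_mu i V hA, f_dead i V hA]
  cases x <;> simp
  refine ⟨?_, ?_, ?_⟩ <;> rintro _ _ rfl _ <;> simp

lemma f_sg (x : S J) : force (fun _ => R A) V (sg i) x ↔ x = root := by
  simp only [sg, f_dia, force, f_mu i V hA, f_dead i V hA]
  cases x <;> simp [R, ex_S, all_S]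
  · exact ⟨_, sub_rfl _⟩
  · rename_i k
    exact (ext2 c0 (k := k) (by simp [c0])).imp fun _ h => h.2

lemma f_spl (x : S J) : force (fun _ => R A) V (spl i) x ↔
    ∃ k, x = n k ∧ (∃ y : C, k ∈ y.1.1 ∧ c y ∈ V 1) ∧ ∃ y : C, k ∈ y.1.2 ∧ c y ∈ V 1 := by
  simp only [spl, gp, f_dia, force, f_mu i V hA, f_gam i V hA]
  cases x <;> simp [R, ex_S]
  exact fun h => by simpa using h _ _ rfl (sub_rfl _)

lemma f_split (hV : RO (V 1)) : force (fun _ => R A) V (split i) root := by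
  classical
  have dn : ∀ x y : C, sub x y → c y ∈ V 1 → c x ∈ V 1 := fun x y h h' =>
    (hV _).mpr fun x' hx' => (hV _).mp h' x' (hx'.trans (le_c.mpr ⟨x, rfl, h⟩))
  simp only [split, force, le_root, forall_eq, not_and, f_dia, gp, f_gam i V hA]
  rintro ⟨_, -, ⟨x, rfl⟩, hx⟩
  have ex : ∃ k, (∃ y : C, k ∈ y.1.1 ∧ c y ∈ V 1) ∧ ∃ y : C, k ∈ y.1.2 ∧ c y ∈ V 1 := by
    obtain ⟨k, h1, h2⟩ := fresh x
    exact ⟨k, (ext1 x h2).imp fun y h => ⟨h.2, dn _ _ h.1 hx⟩, (ext2 x h1).imp fun y h => ⟨h.2, dn _ _ h.1 hx⟩⟩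
  have hl : ∀ u, force (fun _ => R A) V (lst i) u ↔ u = n (Nat.find ex) := by
    intro u
    simp only [lst, force, f_dia, f_spl i V hA]
    constructor
    · rintro ⟨⟨k, rfl, hk⟩, h⟩
      refine congrArg n ((Nat.find_eq_iff ex).mpr ⟨hk, fun k' h1 h2 => h _ le_rfl fun u hu => ?_⟩).symm
      exact ⟨n k', le_n.mp hu ▸ h1, k', rfl, h2⟩
    · rintro rfl
      refine ⟨⟨_, rfl, Nat.find_spec ex⟩, fun u hu h => ?_⟩
      obtain ⟨_, h1, k, rfl, h2⟩ := h u le_rfl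
      rw [le_n.mp hu] at h1
      exact Nat.find_min ex h1 h2
  obtain ⟨⟨y1, a1, a2⟩, y2, a3, a4⟩ := Nat.find_spec ex
  simp only [hl]
  refine fun b => b ⟨c y1, trivial, ⟨⟨_, rfl⟩, a2⟩, fun u hu => ?_⟩
    ⟨c y2, trivial, ⟨⟨_, rfl⟩, a4⟩, fun u hu h => ?_⟩
  · obtain ⟨z, rfl, hz⟩ := le_c.mp hu
    exact ⟨n _, Finset.disjoint_left.mp z.2 (hz.1 a1), rfl⟩
  · obtain ⟨z, rfl, hz⟩ := le_c.mp hu
    obtain ⟨_, h1, rfl⟩ := h _ le_rfl
    exact h1 (hz.2 a3)

lemma f_reap : force (fun _ => R A) V (reap i) root ↔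
    ∃ j, (∀ k ∈ A j, leaf k ∈ V 2) ∨ ∀ k ∈ A j, leaf k ∉ V 2 := by
  simp only [reap, force, le_root, forall_eq, f_dia, f_mu i V hA, not_and_or, not_not]
  simp [R, ex_S, all_S, exists_or]

lemma pvalid : PValid (fun _ : I => R A) (phi i) ↔
    ∀ q : Set ℕ, ∃ j, (∀ k ∈ A j, k ∈ q) ∨ ∀ k ∈ A j, k ∉ q := by
  constructor
  · intro h q
    have := h (fun _ => {u | ∃ k ∈ q, u = leaf k}) (fun _ u => by
      cases u <;> simp
      exact ⟨_, sub_rfl _⟩) root root le_rfl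
    simp only [force, f_sg i _ hA, true_and, le_root, forall_eq, not_not, f_reap i _ hA] at this
    simpa using this.2.2
  · intro h V hV x x' _ h1
    obtain rfl := (f_sg i V hA _).mp h1.1
    refine h1.2 _ le_rfl ⟨(f_dia _ _ _ _ _).mpr fun u hu => ⟨c c0, le_root.mp hu ▸ trivial,
      (f_gam i V hA _).mpr ⟨_, rfl⟩⟩, f_split i V hA (hV 1), (f_reap i V hA).mpr (h {k | leaf k ∈ V 2})⟩

end H62.Poss
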