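import Mathlib

set_option autoImplicit false
open FirstOrder

namespace H62.Poss

/-- polymodal formulas -/
inductive MF (I : Type) : Type
  | var : ℕ → MF I
  | neg : MF I → MF I
  | and : MF I → MF I → MF I
  | box : I → MF I → MF I

variable {I W : Type}

/-- Kripke semantics -/
def ksat (R : I → W → W → Prop) (V : ℕ → Set W) : MF I → W → Prop
  | .var p, x => x ∈ V p
  | .neg φ, x => ¬ksat R V φ x
  | .and φ ψ, x => ksat R V φ x ∧ ksat R V ψ x
  | .box i φ, x => ∀ y, R i x y → ksat R V φ y

def KValid (R : I → W → W → Prop) (φ : MF I) : Prop := ∀ V x, ksat R V φ x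

/-- regular open sets -/
def RO [PartialOrder W] (X : Set W) : Prop := ∀ x, x ∈ X ↔ ∀ x' ≤ x, ∃ x'' ≤ x', x'' ∈ X

/-- full possibility frame -/
def Full [PartialOrder W] (R : I → W → W → Prop) : Prop :=
  ∀ i X, RO X → RO {x | ∀ y, R i x y → y ∈ X}

/-- possibility semantics -/
def force [PartialOrder W] (R : I → W → W → Prop) (V : ℕ → Set W) : MF I → W → Prop
  | .var p, x => x ∈ V p
  | .neg φ, x => ∀ x' ≤ x, ¬force R V φ x'
  | .and φ ψ, x => force R V φ x ∧ force R V ψ x
  | .box i φ, x => ∀ y, R i x y → force R V φ y

def PValid [PartialOrder W] (R : I → W → W → Prop) (φ : MF I) : Prop :=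
  ∀ V : ℕ → Set W, (∀ p, RO (V p)) → ∀ x, force R V φ x

/-- binary relation symbols indexed by `J` -/
inductive Sym (J : Type) : ℕ → Type
  | r : J → Sym J 2

/-- the first-order language with one binary relation symbol for each `j : J` -/
def Lg (J : Type) : Language := ⟨fun _ => Empty, Sym J⟩

/-- the structure interpreting the symbol `j` as `r j` -/
@[reducible] def str {J : Type} (r : J → W → W → Prop) : (Lg J).Structure W where
  funMap := fun f => f.elim
  RelMap | .r j => fun x => r j (x 0) (x 1)

def Sat {J : Type} (r : J → W → W → Prop) (α : (Lg J).Sentence) : Prop :=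
  @Language.Sentence.Realize _ W (str r) α

/-- the signature of possibility frames: `none` is the refinement order -/
def sig [PartialOrder W] (R : I → W → W → Prop) : Option I → W → W → Prop
  | none => (· ≤ ·)
  | some i => R i

end H62.Poss
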