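import Pool.Agent.H62.ProphetDefs

set_option autoImplicit false
open Finset SimpleGraph

namespace Pool.Agent.H62.Prophet

variable {V ι : Type}

lemma acyc {G : SimpleGraph V} (lev : V → ℕ) (up : V → V)
    (h : ∀ u v, G.Adj u v → (v = up u ∧ lev v < lev u) ∨ (u = up v ∧ lev u < lev v)) : G.IsAcyclic := by
  classical
  intro u c hc
  obtain ⟨v, hv, hm⟩ := exists_max_image c.support.toFinset lev ⟨u, by simp⟩
  rw [List.mem_toFinset] at hv
  have h1 := hc.rotate hv
  have h2 : ∀ w ∈ (c.rotate v hv).support, G.Adj v w → w = up v := fun w hw ha =>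
    (h v w ha).elim And.left fun h3 =>
      absurd (hm w (List.mem_toFinset.mpr ((c.mem_support_rotate_iff v hv).mp hw))) (not_le.mpr h3.2)
  exact h1.snd_ne_penultimate ((h2 _ (Walk.getVert_mem_support _ _) (Walk.adj_snd h1.not_nil)).trans
    (h2 _ (Walk.getVert_mem_support _ _) (Walk.adj_penultimate h1.not_nil).symm).symm)

open Classical in
lemma ins (ed : ι → Sym2 V) (F : Finset ι) {e : ι} {u v : V} (h : ed e = s(u, v)) :
    fromEdgeSet (ed '' (insert e F : Finset ι)) = fromEdgeSet (ed '' F) ⊔ edge u v := by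
  rw [coe_insert, Set.image_insert_eq, Set.insert_eq, Set.union_comm, fromEdgeSet_union, h, edge]

open Classical in
lemma inv (ed : ι → Sym2 V) (T : ι → WithTop ℝ) (X : ι → ℝ) (L : List ι) :
    Forest ed (accepted ed T X L) ∧
    (∀ e ∈ L, T e ≤ X e → ∀ u v, ed e = s(u, v) → (fromEdgeSet (ed '' accepted ed T X L)).Reachable u v) ∧
    ∀ e ∈ accepted ed T X L, T e ≤ X e ∧
      ∃ L1 L2, L = L1 ++ e :: L2 ∧ Forest ed (insert e (accepted ed T X L1)) := by
  induction L using List.reverseRecOn with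
  | nil => simp [accepted, Forest]
  | append_singleton L f ih =>
    obtain ⟨h1, h2, h3⟩ := ih
    have e1 : accepted ed T X (L ++ [f]) = if T f ≤ X f ∧ Forest ed (insert f (accepted ed T X L)) then
        insert f (accepted ed T X L) else accepted ed T X L := by simp [accepted]
    have h4 : ∀ e ∈ accepted ed T X L, T e ≤ X e ∧
        ∃ L1 L2, L ++ [f] = L1 ++ e :: L2 ∧ Forest ed (insert e (accepted ed T X L1)) := fun e he => by
      obtain ⟨a, L1, L2, rfl, b⟩ := h3 e he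
      exact ⟨a, L1, L2 ++ [f], by simp, b⟩
    rw [e1]
    split_ifs with h
    · refine ⟨h.2, fun e he ht u v huv => ?_, fun e he => ?_⟩
      · rcases List.mem_append.mp he with he | he
        · exact (h2 e he ht u v huv).mono (fromEdgeSet_mono (Set.image_mono (by simp)))
        · obtain rfl := List.mem_singleton.mp he
          rcases eq_or_ne u v with rfl | hne
          · rfl
          · exact Adj.reachable ((fromEdgeSet_adj _).mpr ⟨⟨e, by simp, huv⟩, hne⟩)
      · rcases mem_insert.mp he with rfl | he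
        · exact ⟨h.1, L, [], rfl, h.2⟩
        · exact h4 e he
    · refine ⟨h1, fun e he ht u v huv => ?_, h4⟩
      rcases List.mem_append.mp he with he | he
      · exact h2 e he ht u v huv
      · obtain rfl := List.mem_singleton.mp he
        by_contra hn
        exact h ⟨ht, by rw [Forest, ins ed _ huv]; exact IsAcyclic.sup_edge_of_not_reachable hn h1⟩

lemma key {ed : ι → Sym2 V} (hi : ed.Injective) (T : ι → WithTop ℝ) (X : ι → ℝ) {L : List ι} (hL : L.Nodup)
    {e : ι} (he : e ∈ accepted ed T X L) {u v : V} (huv : ed e = s(u, v)) (hne : u ≠ v) :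
    ∃ L1 L2, L = L1 ++ e :: L2 ∧ ¬(fromEdgeSet (ed '' accepted ed T X L1)).Reachable u v := by
  obtain ⟨-, L1, L2, rfl, h⟩ := (inv ed T X L).2.2 e he
  refine ⟨L1, L2, rfl, fun hr => ?_⟩
  rw [Forest, ins ed _ huv, isAcyclic_sup_fromEdgeSet_iff] at h
  obtain ⟨⟨f, hf, h1⟩, -⟩ := (fromEdgeSet_adj _).mp ((h.2 hr).resolve_left hne)
  obtain rfl := hi (h1.trans huv.symm)
  obtain ⟨-, A, B, rfl, -⟩ := (inv ed T X L1).2.2 f hf
  simp [List.nodup_append] at hL

lemma pre {L1 L2 A B : List ι} {e : ι} (h : A ++ B = L1 ++ e :: L2) (he : e ∉ A) : A ⊆ L1 := by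
  rcases List.append_eq_append_iff.mp h with ⟨c, rfl, -⟩ | ⟨_ | ⟨x, c⟩, rfl, h1⟩
  · simp
  · simp
  · obtain ⟨rfl, -⟩ := List.cons.inj h1
    simp at he

lemma pair {ed : ι → Sym2 V} (hi : ed.Injective) (T : ι → WithTop ℝ) (X : ι → ℝ) {A B : List ι}
    (hL : (A ++ B).Nodup) {e e' : ι} (he : e ∈ accepted ed T X (A ++ B)) (he' : e' ∈ accepted ed T X (A ++ B))
    (h1 : e ∉ A) (h2 : e' ∉ A) {a a' s z : V} (ha : ed e = s(a, s)) (ha' : ed e' = s(a', s)) (n1 : a ≠ s)
    (n2 : a' ≠ s) {f f' : ι} (hf : f ∈ A) (hf' : f' ∈ A) (t1 : T f ≤ X f) (t2 : T f' ≤ X f')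
    (g1 : ed f = s(a, z)) (g2 : ed f' = s(a', z)) : e = e' := by
  by_contra hne
  obtain ⟨L1, L2, b1, b2⟩ := key hi T X hL he ha n1
  obtain ⟨L1', L2', c1, c2⟩ := key hi T X hL he' ha' n2
  have r := fun L1 (h : A ⊆ L1) => ((inv ed T X L1).2.1 f (h hf) t1 _ _ g1).trans
    ((inv ed T X L1).2.1 f' (h hf') t2 _ _ g2).symm
  by_cases h : e' ∈ L1
  · exact b2 ((r L1 (pre b1 h1)).trans ((inv ed T X L1).2.1 e' h ((inv ed T X _).2.2 e' he').1 _ _ ha'))
  · have : L1 ++ [e] ⊆ L1' := pre (B := L2) (by rw [← c1, b1]; simp) (by simp [h, Ne.symm hne])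
    exact c2 ((r L1' (pre c1 h2)).symm.trans
      ((inv ed T X L1').2.1 e (this (by simp)) ((inv ed T X _).2.2 e he).1 _ _ ha))

variable [Fintype ι]

open Classical in
noncomputable def E (q : ι → ℝ) (f : (ι → Bool) → ℝ) : ℝ :=
  ∑ ω : ι → Bool, (∏ e, if ω e then q e else 1 - q e) * f ω

def I (ω : ι → Bool) (e : ι) : ℝ := if ω e then 1 else 0

lemma Ex_eq (v q : ι → ℝ) (f : (ι → ℝ) → ℝ) : Ex v q f = E q fun ω => f fun e => v e * I ω e := by
  simp only [Ex, E, I, mul_ite, mul_one, mul_zero]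

lemma E_prod (q : ι → ℝ) (U : Finset ι) : E q (fun ω => ∏ e ∈ U, I ω e) = ∏ e ∈ U, q e := by
  classical
  have := prod_univ_sum (fun _ : ι => (univ : Finset Bool))
    fun e b => (if b then q e else 1 - q e) * if e ∈ U then (if b then 1 else 0) else 1
  rw [Fintype.piFinset_univ] at this
  simp only [prod_mul_distrib, prod_ite_mem, univ_inter] at this
  rw [E]
  simp only [I]
  rw [← this, ← univ_inter U, ← prod_ite_mem, univ_inter]
  exact prod_congr rfl fun e _ => by split_ifs <;> simp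

lemma E_one (q : ι → ℝ) (e : ι) : E q (fun ω => I ω e) = q e := by simpa using E_prod q {e}

lemma E_add (q : ι → ℝ) (f g : (ι → Bool) → ℝ) : E q (fun ω => f ω + g ω) = E q f + E q g := by
  simp only [E, mul_add, sum_add_distrib]

lemma E_mul (q : ι → ℝ) (c : ℝ) (f : (ι → Bool) → ℝ) : E q (fun ω => c * f ω) = c * E q f := by
  simp only [E, mul_sum, mul_left_comm]

lemma E_const (q : ι → ℝ) (c : ℝ) : E q (fun _ => c) = c := by
  have := E_mul q c fun ω => ∏ e ∈ ∅, I ω e
  rw [E_prod] at this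
  simpa using this

lemma E_sum {κ : Type} (q : ι → ℝ) (s : Finset κ) (f : κ → (ι → Bool) → ℝ) :
    E q (fun ω => ∑ i ∈ s, f i ω) = ∑ i ∈ s, E q (f i) := by
  simp only [E, mul_sum]; exact sum_comm

lemma E_mono {q : ι → ℝ} (hq : ∀ e, q e ∈ Set.Icc (0 : ℝ) 1) {f g : (ι → Bool) → ℝ}
    (h : ∀ ω, (∀ e, q e = 1 → ω e = true) → f ω ≤ g ω) : E q f ≤ E q g := by
  refine sum_le_sum fun ω _ => ?_
  by_cases h1 : ∀ e, q e = 1 → ω e = true
  · exact mul_le_mul_of_nonneg_left (h ω h1) (prod_nonneg fun e _ => by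
      split_ifs; exacts [(hq e).1, sub_nonneg.mpr (hq e).2])
  · push Not at h1
    obtain ⟨e, h1, h2⟩ := h1
    rw [prod_eq_zero (mem_univ e) (by simp [h1, h2]), zero_mul, zero_mul]

lemma E_none {κ : Type} (q : ι → ℝ) (N : Finset κ) (U : κ → Finset ι)
    (hU : Pairwise fun i j => Disjoint (U i) (U j)) (x : ℝ) (hx : ∀ i, ∏ e ∈ U i, q e = x) :
    E q (fun ω => ∏ i ∈ N, (1 - ∏ e ∈ U i, I ω e)) = (1 - x) ^ #N := by
  classical
  have h := fun (t : Finset κ) (g : ι → ℝ) => prod_biUnion (s := t) (t := U) (f := g) fun i _ j _ h => hU h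
  simp only [sub_eq_add_neg, prod_one_add, prod_neg, ← h, E_sum, E_mul, E_prod]
  rw [← prod_const, prod_one_add]
  simp only [h, hx, prod_neg]

lemma bern {x : ℝ} (h0 : 0 ≤ x) (h1 : x ≤ 1) (t : ℕ) : (1 - x) ^ t ≤ 1 / (1 + t * x) := by
  rw [le_div_iff₀ (by positivity)]
  calc _ ≤ (1 - x) ^ t * (1 + x) ^ t := by
        exact mul_le_mul_of_nonneg_left (one_add_mul_le_pow (by linarith) t) (pow_nonneg (by linarith) _)
    _ ≤ 1 := by rw [← mul_pow]; exact pow_le_one₀ (by nlinarith) (by nlinarith)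

end Pool.Agent.H62.Prophet
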