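import Pool.Agent.H62.Prophet1

set_option autoImplicit false
open Finset SimpleGraph Sum

namespace Pool.Agent.H62.Prophet

abbrev Ed (m r : ℕ) := (Fin m × Fin r) ⊕ (Fin r ⊕ Fin r)
abbrev Vx (m r : ℕ) := Fin m ⊕ (Fin r ⊕ Bool)

variable {m r : ℕ}

def ed : Ed m r → Sym2 (Vx m r)
  | inl p => s(inr (inl p.2), inl p.1)
  | inr (inl j) => s(inr (inl j), inr (inr false))
  | inr (inr j) => s(inr (inl j), inr (inr true))

lemma ed_inj : (ed : Ed m r → _).Injective := by
  rintro (⟨i, j⟩ | j | j) (⟨i', j'⟩ | j' | j') h <;> simp_all [ed]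

lemma ed_nd (e : Ed m r) : ¬(ed e).IsDiag := by
  rcases e with (⟨i, j⟩ | j | j) <;> simp [ed]

noncomputable def LA : List (Ed m r) := univ.toList.map inl
noncomputable def LB : List (Ed m r) := univ.toList.map fun j => inr (inl j)
noncomputable def LC : List (Ed m r) := univ.toList.map fun j => inr (inr j)

lemma L_nodup : (LA ++ (LB ++ LC) : List (Ed m r)).Nodup := by
  refine List.Nodup.append ((nodup_toList _).map inl_injective) (List.Nodup.append
    ((nodup_toList _).map fun _ _ h => by simpa using h) ((nodup_toList _).map fun _ _ h => by simpa using h) ?_) ?_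
  · simp [List.disjoint_left, LB, LC]
  · simp [List.disjoint_left, LA, LB, LC]

lemma L_mem (e : Ed m r) : e ∈ LA ++ (LB ++ LC) := by
  rcases e with (⟨i, j⟩ | j | j) <;> simp [LA, LB, LC]

def vv (b K : ℝ) : Ed m r → ℝ := Sum.elim (fun _ => b) (Sum.elim (fun _ => 1) fun _ => K)

lemma I_mem {ι : Type} (ω : ι → Bool) (e : ι) : 0 ≤ I ω e ∧ I ω e ≤ 1 := by unfold I; split_ifs <;> simp

lemma alg_le {b K p : ℝ} {t : ℕ} (hb : 0 < b) (hK : 1 ≤ K) (p0 : 0 < p) (p1 : p < 1) (h1 : m * p * b = 1)
    (h2 : r ^ 3 * t ≤ m) (h3 : (1 + K) * r ^ 3 ≤ t * p ^ 2) (T : Ed m r → WithTop ℝ) :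
    Ex (vv b K) (vv p (1 / K)) (alg ed T (LA ++ (LB ++ LC))) ≤ r + 2 * K + 3 := by
  classical
  let H : Fin m → Finset (Fin r) := fun i => univ.filter fun j => T (inl (i, j)) ≤ b
  let N : Fin r × Fin r → Finset (Fin m) := fun a => univ.filter fun i => a.1 ∈ H i ∧ a.2 ∈ H i
  let J : Finset (Fin r) := univ.filter fun j => T (inr (inl j)) ≤ (1 : ℝ)
  obtain ⟨S, hS, hmax⟩ := exists_max_image (univ.filter fun S : Finset (Fin r) => ∀ a ∈ S.offDiag, t ≤ #(N a))
    card ⟨∅, by simp⟩
  simp only [mem_filter, mem_univ, true_and] at hS hmax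
  let bad : (Ed m r → Bool) → ℝ := fun ω => ∑ a ∈ S.offDiag, ∏ i ∈ N a,
    (1 - ∏ e ∈ ({inl (i, a.1), inl (i, a.2)} : Finset (Ed m r)), I ω e)
  have K0 : 0 < K := by linarith
  have hq : ∀ e : Ed m r, vv p (1 / K) e ∈ Set.Icc (0 : ℝ) 1 := by
    rintro (_ | _ | _)
    exacts [⟨p0.le, p1.le⟩, ⟨zero_le_one, le_rfl⟩, ⟨by simp [vv, K0.le], (div_le_one K0).mpr hK⟩]
  rw [Ex_eq]
  refine (E_mono hq (g := fun ω => ∑ i, ∑ j ∈ H i, b * I ω (inl (i, j)) +
    (∑ j ∈ Sᶜ, (if j ∈ J then 1 else K * I ω (inr (inr j))) + (1 + 2 * K + (1 + K) * r * bad ω)))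
    fun ω hω => ?_).trans ?_
  · set X : Ed m r → ℝ := fun e => vv b K e * I ω e with hX
    set acc := accepted ed T X (LA ++ (LB ++ LC)) with hacc
    have el := fun e he => ((inv ed T X (LA ++ (LB ++ LC))).2.2 e he).1
    have b0 : ∀ a ∈ S.offDiag, 0 ≤ ∏ i ∈ N a,
        (1 - ∏ e ∈ ({inl (i, a.1), inl (i, a.2)} : Finset (Ed m r)), I ω e) := fun a _ =>
      prod_nonneg fun i _ => sub_nonneg.mpr (prod_le_one (fun e _ => (I_mem ω e).1) fun e _ => (I_mem ω e).2)
    have b1 : 0 ≤ bad ω := sum_nonneg b0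
    have c1 : ∀ (g : Fin r → Fin r ⊕ Fin r) (β : Bool), g.Injective →
        (∀ j, ed (inr (g j) : Ed m r) = s(inr (inl j), inr (inr β))) →
        (#(S.filter fun j => inr (g j) ∈ acc) : ℝ) ≤ 1 + r * bad ω := by
      intro g β hg he
      rcases le_or_gt 1 (bad ω) with h | h
      · have : (#(S.filter fun j => inr (g j) ∈ acc) : ℝ) ≤ r := by exact_mod_cast card_finset_fin_le _
        nlinarith [Nat.cast_nonneg (α := ℝ) r]
      · refine le_trans (Nat.cast_le_one.mpr (card_le_one.mpr fun j hj j' hj' => ?_))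
          (le_add_of_nonneg_right (by positivity))
        rw [mem_filter] at hj hj'
        by_contra hne
        have ha : (j, j') ∈ S.offDiag := mem_offDiag.mpr ⟨hj.1, hj'.1, hne⟩
        have h4 := (single_le_sum b0 ha).trans_lt h
        obtain ⟨i, hi, h5⟩ : ∃ i ∈ N (j, j'), ω (inl (i, j)) = true ∧ ω (inl (i, j')) = true := by
          by_contra! h6
          refine h4.ne (prod_eq_one fun i hi => ?_)
          rw [prod_pair (by simpa using hne)]
          by_cases h7 : ω (inl (i, j)) = true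
          · simp [I, h6 i hi h7]
          · simp [I, h7]
        simp only [N, H, mem_filter, mem_univ, true_and] at hi
        exact hne (hg (inr_injective (pair ed_inj T X L_nodup hj.2 hj'.2 (by simp [LA]) (by simp [LA]) (he j)
          (he j') (by simp) (by simp) (f := inl (i, j)) (f' := inl (i, j')) (by simp [LA]) (by simp [LA])
          (by simpa [hX, vv, I, h5.1] using hi.1) (by simpa [hX, vv, I, h5.2] using hi.2) rfl rfl)))
    have c2 : (#(J.filter fun j => inr (inr j) ∈ acc) : ℝ) ≤ 1 := by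
      refine Nat.cast_le_one.mpr (card_le_one.mpr fun j hj j' hj' => ?_)
      simp only [J, mem_filter, mem_univ, true_and, hacc, ← List.append_assoc] at hj hj'
      exact inr_injective (inr_injective (pair ed_inj T X (by rw [List.append_assoc]; exact L_nodup) hj.2 hj'.2
        (by simp [LA, LB]) (by simp [LA, LB]) rfl rfl (by simp) (by simp) (f := inr (inl j)) (f' := inr (inl j'))
        (by simp [LB]) (by simp [LB]) (by simpa [hX, vv, I, hω (inr (inl j)) rfl] using hj.1)
        (by simpa [hX, vv, I, hω (inr (inl j')) rfl] using hj'.1) rfl rfl))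
    have c3 := c1 inl false inl_injective fun _ => rfl
    have c4 := c1 inr true inr_injective fun _ => rfl
    rw [alg, ← hacc, ← univ_inter acc, ← sum_ite_mem, Fintype.sum_sum_type, Fintype.sum_sum_type,
      Fintype.sum_prod_type, ← sum_add_distrib]
    refine add_le_add (sum_le_sum fun i _ => ?_) ?_
    · rw [sum_filter]
      refine sum_le_sum fun j _ => ?_
      have := I_mem ω (inl (i, j))
      split_ifs with a1 a2 a2
      · rfl
      · exact absurd ((el _ a1).trans (WithTop.coe_le_coe.mpr (mul_le_of_le_one_right hb.le this.2))) a2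
      · exact mul_nonneg hb.le this.1
      · rfl
    · refine (sum_le_sum (g := fun j => (if j ∈ Sᶜ then (if j ∈ J then 1 else K * I ω (inr (inr j))) else 0) +
        ((if j ∈ S.filter fun j => inr (inl j) ∈ acc then 1 else 0) +
        (K * (if j ∈ J.filter fun j => inr (inr j) ∈ acc then 1 else 0) +
        K * if j ∈ S.filter fun j => inr (inr j) ∈ acc then 1 else 0))) fun j _ => ?_).trans ?_
      · have a1 := I_mem ω (inr (inl j))
        have a2 := I_mem ω (inr (inr j))
        have a3 : inr (inl j) ∈ acc → j ∈ J := fun h => mem_filter.mpr ⟨mem_univ _,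
          (el _ h).trans (WithTop.coe_le_coe.mpr (mul_le_of_le_one_right zero_le_one a1.2))⟩
        have a4 : K * I ω (inr (inr j)) ≤ K := mul_le_of_le_one_right K0.le a2.2
        have a5 := mul_nonneg K0.le a2.1
        simp only [mem_filter, mem_compl, hX, vv, elim_inl, elim_inr]
        by_cases d1 : j ∈ S <;> by_cases d2 : j ∈ J <;> by_cases d3 : inr (inl j) ∈ acc <;>
          by_cases d4 : inr (inr j) ∈ acc <;> simp only [d1, d2, d3, d4, if_true, if_false, not_true, not_false_iff,
            and_true, and_false] <;> first | linarith | exact absurd (a3 d3) d2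
      · simp only [sum_add_distrib, ← mul_sum, sum_ite_mem, univ_inter, sum_const, nsmul_eq_mul, mul_one]
        nlinarith
  · have e1 : ∀ a ∈ S.offDiag, E (vv p (1 / K)) (fun ω => ∏ i ∈ N a,
        (1 - ∏ e ∈ ({inl (i, a.1), inl (i, a.2)} : Finset (Ed m r)), I ω e)) ≤ 1 / (1 + t * p ^ 2) := by
      intro a ha
      rw [E_none _ _ _ (fun i j h => by simp [h.symm]) (p ^ 2) fun i => by
        rw [prod_pair (by simpa using (mem_offDiag.mp ha).2.2)]; simp [vv, sq]]
      refine (bern (by positivity) (by nlinarith) _).trans ?_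
      gcongr
      exact hS a ha
    have e2 : E (vv p (1 / K)) bad ≤ r ^ 2 * (1 / (1 + t * p ^ 2)) := by
      rw [E_sum]
      refine (sum_le_card_nsmul _ _ _ e1).trans ?_
      rw [nsmul_eq_mul]
      gcongr
      exact_mod_cast (card_le_univ _).trans (by simp [sq])
    have e3 : ∀ j, E (vv p (1 / K)) (fun ω : Ed m r → Bool => if j ∈ J then 1 else K * I ω (inr (inr j))) = 1 := by
      intro j
      split_ifs
      · exact E_const _ _
      · rw [E_mul, E_one]; simp [vv, K0.ne']
    have e4 : ∑ i, #(H i) ≤ m * #S + m := by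
      let B := (univ.filter fun a => #(N a) < t).biUnion N
      have f1 : #B ≤ r ^ 2 * t := (card_biUnion_le_card_mul _ _ t fun a ha => (mem_filter.mp ha).2.le).trans
        (Nat.mul_le_mul_right _ ((card_le_univ _).trans (by simp [sq])))
      refine (sum_le_sum (g := fun i => #S + if i ∈ B then r else 0) fun i _ => ?_).trans ?_
      · split_ifs with h
        · exact (card_finset_fin_le _).trans le_add_self
        · refine hmax _ fun a ha => not_lt.mp fun h4 => h (mem_biUnion.mpr ⟨a, by simpa using h4, ?_⟩)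
          exact mem_filter.mpr ⟨mem_univ _, (mem_offDiag.mp ha).1, (mem_offDiag.mp ha).2.1⟩
      · simp only [sum_add_distrib, sum_ite_mem, univ_inter, sum_const, smul_eq_mul, card_univ, Fintype.card_fin]
        nlinarith
    have e0 : ∀ a, (vv p (1 / K) : Ed m r → ℝ) (inl a) = p := fun _ => rfl
    simp only [E_add, E_sum, E_mul, E_one, E_const, e3, e0, sum_const, nsmul_eq_mul, card_compl,
      Fintype.card_fin, ← sum_mul]
    rw [Nat.cast_sub (card_finset_fin_le _), ← Nat.cast_sum]
    have e5 : ((∑ i, #(H i) : ℕ) : ℝ) * (b * p) ≤ #S + 1 := by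
      refine (mul_le_mul_of_nonneg_right (Nat.cast_le.mpr e4) (by positivity)).trans (le_of_eq ?_)
      push_cast
      linear_combination (#S + 1) * h1
    have e6 : (1 + K) * r * (r ^ 2 * (1 / (1 + t * p ^ 2))) ≤ 1 := by
      rw [mul_one_div, ← mul_div_assoc, div_le_one (by positivity)]
      nlinarith
    have e7 := mul_le_mul_of_nonneg_left e2 (show 0 ≤ (1 + K) * r by positivity)
    linarith

lemma opt_ge {b K p : ℝ} (hb : 0 < b) (hK : 1 ≤ K) (p0 : 0 < p) (p1 : p < 1) :
    m * b * (1 - 1 / (1 + r * p)) + r * (2 - 1 / K) ≤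
      Ex (vv b K) (vv p (1 / K)) (opt (ed : Ed m r → _)) := by
  classical
  have K0 : 0 < K := by linarith
  have hq : ∀ e : Ed m r, vv p (1 / K) e ∈ Set.Icc (0 : ℝ) 1 := by
    rintro (_ | _ | _)
    exacts [⟨p0.le, p1.le⟩, ⟨zero_le_one, le_rfl⟩, ⟨by simp [vv, K0.le], (div_le_one K0).mpr hK⟩]
  rw [Ex_eq]
  refine le_trans ?_ (E_mono hq (f := fun ω => ∑ i, (b + -b * ∏ j, (1 - ∏ e ∈ {inl (i, j)}, I ω e)) +
    ∑ j, (1 + (K - 1) * I ω (inr (inr j)))) fun ω hω => ?_)
  · have e1 := fun i : Fin m => E_none (vv p (1 / K) : Ed m r → ℝ) univ (fun j : Fin r => {inl (i, j)})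
      (fun i j h => by simp [h]) p (by simp [vv])
    simp only [E_add, E_sum, E_mul, E_one, E_const, e1]
    simp only [vv, elim_inr, sum_const, nsmul_eq_mul, card_univ, Fintype.card_fin]
    have := mul_le_mul_of_nonneg_left (bern p0.le p1.le r) (show 0 ≤ m * b by positivity)
    have e2 : (K - 1) * (1 / K) = 1 - 1 / K := by field_simp
    rw [e2]
    linarith
  · let c : Fin m → Option (Fin r) := fun i => if h : ∃ j, ω (inl (i, j)) = true then some h.choose else none
    let F : Finset (Ed m r) := univ.filter (Sum.elim (fun a => c a.1 = some a.2)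
      (Sum.elim (fun j => ω (inr (inr j)) = false) fun j => ω (inr (inr j)) = true))
    have hF : Forest ed F := by
      refine acyc (Sum.elim (fun _ => 2) (Sum.elim (fun _ => 1) fun _ => 0))
        (Sum.elim (fun i => (c i).elim (inl i) fun j => inr (inl j))
          (Sum.elim (fun j => inr (inr (ω (inr (inr j))))) fun β => inr (inr β))) fun u v h => ?_
      obtain ⟨⟨e, he, h1⟩, -⟩ := (fromEdgeSet_adj _).mp h
      simp only [F, coe_filter, mem_univ, true_and, Set.mem_ofPred_eq] at he
      rcases e with (⟨i, j⟩ | j | j) <;> rcases Sym2.eq_iff.mp h1 with ⟨rfl, rfl⟩ | ⟨rfl, rfl⟩ <;> simp_all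
    refine le_trans ?_ (le_ciSup (f := fun F : {F : Finset (Ed m r) // Forest ed F} =>
      ∑ e ∈ F.1, vv b K e * I ω e) (Set.finite_range _).bddAbove ⟨F, hF⟩)
    simp only [F, sum_filter, Fintype.sum_sum_type, Fintype.sum_prod_type, ← sum_add_distrib, elim_inl, elim_inr,
      vv, prod_singleton]
    refine add_le_add (sum_le_sum fun i _ => ?_) (sum_le_sum fun j _ => ?_)
    · by_cases h : ∃ j, ω (inl (i, j)) = true
      · rw [prod_eq_zero (mem_univ h.choose) (by simp [I, h.choose_spec])]
        simp [c, h, I, h.choose_spec]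
      · have : ∀ j, I ω (inl (i, j)) = 0 := fun j => if_neg fun h1 => h ⟨j, h1⟩
        simp [this]
    · cases h : ω (inr (inr j)) <;> simp [I, h, hω (inr (inl j)) rfl]

end Pool.Agent.H62.Prophet
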