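import Mathlib

set_option autoImplicit false

namespace Pool.Agent.H62.Prophet

variable {V ι : Type}

/-- the edges with index in `F` form a forest -/
def Forest (ed : ι → Sym2 V) (F : Finset ι) : Prop := (SimpleGraph.fromEdgeSet (ed '' F)).IsAcyclic

open Classical in
/-- the edges accepted by the thresholds `T` when the values are `X` and the arrival order is `L` -/
noncomputable def accepted (ed : ι → Sym2 V) (T : ι → WithTop ℝ) (X : ι → ℝ) (L : List ι) : Finset ι :=
  L.foldl (fun F e => if T e ≤ X e ∧ Forest ed (insert e F) then insert e F else F) ∅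

/-- the value collected by the non-adaptive algorithm -/
noncomputable def alg (ed : ι → Sym2 V) (T : ι → WithTop ℝ) (L : List ι) (X : ι → ℝ) : ℝ :=
  ∑ e ∈ accepted ed T X L, X e

/-- the value of the prophet -/
noncomputable def opt (ed : ι → Sym2 V) (X : ι → ℝ) : ℝ :=
  ⨆ F : {F : Finset ι // Forest ed F}, ∑ e ∈ F.1, X e

open Classical in
/-- expectation of `f X` when the `X e` are independent, `X e = v e` with probability `q e`, else `0` -/
noncomputable def Ex [Fintype ι] (v q : ι → ℝ) (f : (ι → ℝ) → ℝ) : ℝ :=
  ∑ ω : ι → Bool, (∏ e, if ω e then q e else 1 - q e) * f fun e => if ω e then v e else 0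

end Pool.Agent.H62.Prophet
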