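import Mathlib

set_option autoImplicit false

namespace Pool.Agent.H62.Riesz

open Complex MeasureTheory Filter Topology Set intervalIntegral

lemma osc {F : ℝ → ℂ} {ψ g g' G b : ℝ → ℝ} (hF : ∀ x, HasDerivAt F (I * ψ x * F x) x)
    (h1 : ∀ x, ‖F x‖ = 1) (hψ : Continuous ψ) (hg : ∀ x, HasDerivAt g (g' x) x)
    (hg' : Continuous g') (hG : ∀ x, HasDerivAt G (b x) x) (hb : Continuous b)
    (h : ∀ x ∈ Icc (1 : ℝ) 2, |g' x| + |1 - ψ x * g x| ≤ b x) :
    ‖∫ x in (1 : ℝ)..2, F x‖ ≤ |g 1| + |g 2| + (G 2 - G 1) := by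
  have cF : Continuous F := continuous_iff_continuousAt.mpr fun x => (hF x).continuousAt
  have cg : Continuous g := continuous_iff_continuousAt.mpr fun x => (hg x).continuousAt
  have d : ∀ x, HasDerivAt (fun x => F x * g x) (I * ψ x * F x * g x + F x * g' x) x :=
    fun x => (hF x).mul (hg x).ofReal_comp
  have e1 := integral_eq_sub_of_hasDerivAt (a := 1) (b := 2) (fun x _ => d x)
    (Continuous.intervalIntegrable (by fun_prop) _ _)
  have e2 : ∫ x in (1 : ℝ)..2, F x = -I * (F 2 * g 2 - F 1 * g 1) +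
      ∫ x in (1 : ℝ)..2, F x * (I * g' x + (1 - ψ x * g x : ℝ)) := by
    rw [← e1, ← intervalIntegral.integral_const_mul, ← intervalIntegral.integral_add
      (Continuous.intervalIntegrable (by fun_prop) _ _)
      (Continuous.intervalIntegrable (by fun_prop) _ _)]
    refine integral_congr fun x _ => ?_
    push_cast
    linear_combination (ψ x * F x * g x : ℂ) * I_mul_I
  rw [e2, ← integral_eq_sub_of_hasDerivAt (fun x _ => hG x) (hb.intervalIntegrable _ _)]
  refine norm_add_le_of_le ?_ (norm_integral_le_of_norm_le (by norm_num)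
    (Eventually.of_forall fun x hx => ?_) (hb.intervalIntegrable _ _))
  · rw [norm_mul, norm_neg, norm_I, one_mul, add_comm]
    refine (norm_sub_le _ _).trans (le_of_eq ?_)
    simp [h1]
  · rw [norm_mul, h1, one_mul]
    refine (norm_add_le _ _).trans (le_trans (le_of_eq ?_) (h x (Ioc_subset_Icc_self hx)))
    rw [norm_mul, norm_I, one_mul, norm_real, norm_real, Real.norm_eq_abs, Real.norm_eq_abs]

/-- the Cayley transform on the line -/
noncomputable def v (x : ℝ) : ℂ := (I * x + 1) / (I * x - 1)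

/-- characters -/
noncomputable def e (m : ℤ) (x : ℝ) : ℂ := exp (2 * Real.pi * I * m * x)

lemma den_ne (x : ℝ) : (I * x - 1 : ℂ) ≠ 0 := fun h => by simpa using congrArg re h

lemma norm_v (x : ℝ) : ‖v x‖ = 1 := by
  rw [v, norm_div, div_eq_one_iff_eq (norm_ne_zero_iff.mpr (den_ne x)), norm_eq_sqrt_sq_add_sq,
    norm_eq_sqrt_sq_add_sq]
  simp

lemma norm_e (m : ℤ) (x : ℝ) : ‖e m x‖ = 1 := by
  rw [e, norm_exp]
  simp

@[fun_prop] lemma v_cont : Continuous v := Continuous.div (by fun_prop) (by fun_prop) den_ne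

@[fun_prop] lemma e_cont (m : ℤ) : Continuous (e m) := by unfold e; fun_prop

lemma deriv_F (n : ℕ) (m : ℤ) (x : ℝ) : HasDerivAt (fun x => v x ^ n * e m x)
    (I * (2 * n / (1 + x ^ 2) + 2 * Real.pi * m : ℝ) * (v x ^ n * e m x)) x := by
  have h0 : HasDerivAt (fun x : ℝ => (x : ℂ)) 1 x := ofRealCLM.hasDerivAt
  have h1 : HasDerivAt v (I * (2 / (1 + x ^ 2)) * v x) x := by
    have := ((h0.const_mul I).add_const 1).div ((h0.const_mul I).sub_const 1) (den_ne x)
    refine this.congr_deriv ?_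
    have a1 := den_ne x
    have a2 : (1 + x ^ 2 : ℂ) = -((I * x + 1) * (I * x - 1)) := by
      linear_combination (x : ℂ) ^ 2 * I_mul_I
    have a3 : (I * x + 1 : ℂ) ≠ 0 := fun h => by simpa using congrArg re h
    rw [v, a2]
    field_simp
    ring
  have h2 : HasDerivAt (e m) (e m x * (2 * Real.pi * I * m * 1)) x := (h0.const_mul _).cexp
  refine ((h1.fun_pow n).mul h2).congr_deriv ?_
  push_cast
  rcases n with _ | n
  · simp
    ring
  · rw [Nat.add_sub_cancel]
    push_cast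
    ring

lemma vdc (n : ℕ) (m : ℤ) {s : ℝ} (hs : 0 < s) (hn : 25 * s ^ 2 ≤ 4 * n) :
    ‖∫ x in (1 : ℝ)..2, v x ^ n * e m x‖ ≤ 9 / s := by
  set ψ : ℝ → ℝ := fun x => 2 * n / (1 + x ^ 2) + 2 * Real.pi * m with hψ
  set ψ' : ℝ → ℝ := fun x => -(4 * n * x) / (1 + x ^ 2) ^ 2 with hψ'
  have p1 : ∀ x : ℝ, 1 + x ^ 2 ≠ 0 := fun x => by positivity
  have p2 : ∀ x : ℝ, 0 < ψ x ^ 2 + s ^ 2 := fun x => by positivity
  have d1 : ∀ x, HasDerivAt ψ (ψ' x) x := fun x => by
    refine (((hasDerivAt_const x (2 * n : ℝ)).div ((hasDerivAt_pow 2 x).const_add 1)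
      (p1 x)).add_const _).congr_deriv ?_
    simp only [hψ']
    ring
  have c1 : Continuous ψ := continuous_iff_continuousAt.mpr fun x => (d1 x).continuousAt
  have c2 : Continuous ψ' := Continuous.div (by fun_prop) (by fun_prop) fun x => pow_ne_zero _ (p1 x)
  have hg : ∀ x, |ψ x / (ψ x ^ 2 + s ^ 2)| ≤ 1 / s := fun x => by
    rw [abs_div, abs_of_pos (p2 x), div_le_div_iff₀ (p2 x) hs, ← sq_abs]
    nlinarith [sq_nonneg (|ψ x| - s), abs_nonneg (ψ x)]
  have h := osc (g := fun x => ψ x / (ψ x ^ 2 + s ^ 2))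
    (g' := fun x => ψ' x * (s ^ 2 - ψ x ^ 2) / (ψ x ^ 2 + s ^ 2) ^ 2)
    (G := fun x => -2 / s * Real.arctan (ψ x / s)) (b := fun x => -2 * ψ' x / (ψ x ^ 2 + s ^ 2))
    (deriv_F n m) (fun x => by simp [norm_v, norm_e]) c1 (fun x => ?_)
    (Continuous.div (by fun_prop) (by fun_prop) fun x => pow_ne_zero _ (p2 x).ne') (fun x => ?_)
    (Continuous.div (by fun_prop) (by fun_prop) fun x => (p2 x).ne') fun x hx => ?_
  · refine h.trans ?_
    have a1 := Real.arctan_lt_pi_div_two (ψ 1 / s)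
    have a2 := Real.neg_pi_div_two_lt_arctan (ψ 2 / s)
    have a3 : -2 / s * Real.arctan (ψ 2 / s) - -2 / s * Real.arctan (ψ 1 / s) =
        2 * (Real.arctan (ψ 1 / s) - Real.arctan (ψ 2 / s)) / s := by ring
    have a4 : 2 * (Real.arctan (ψ 1 / s) - Real.arctan (ψ 2 / s)) / s ≤ 7 / s := by
      gcongr
      linarith [Real.pi_lt_d2]
    have a5 : 9 / s = 1 / s + 1 / s + 7 / s := by ring
    linarith [hg 1, hg 2]
  · refine ((d1 x).div (((d1 x).fun_pow 2).add_const _) (p2 x).ne').congr_deriv ?_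
    simp
    ring
  · refine (((d1 x).div_const s).arctan.const_mul _).congr_deriv ?_
    have := (p2 x).ne'
    field_simp
    ring
  · have a1 : s ^ 2 ≤ -ψ' x := by
      show s ^ 2 ≤ -(-(4 * n * x) / (1 + x ^ 2) ^ 2)
      rw [neg_div, neg_neg, le_div_iff₀ (by positivity)]
      have b0 : x ^ 2 ≤ 4 := by nlinarith [hx.1, hx.2]
      have b1 : (1 + x ^ 2) ^ 2 ≤ 25 := by nlinarith [sq_nonneg x]
      nlinarith [hx.1, (Nat.cast_nonneg n : (0 : ℝ) ≤ n), sq_nonneg s]
    have a2 : 1 - ψ x * (ψ x / (ψ x ^ 2 + s ^ 2)) = s ^ 2 / (ψ x ^ 2 + s ^ 2) := by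
      have := (p2 x).ne'
      field_simp
      ring
    have a3 : |ψ' x * (s ^ 2 - ψ x ^ 2) / (ψ x ^ 2 + s ^ 2) ^ 2| ≤ -ψ' x / (ψ x ^ 2 + s ^ 2) := by
      rw [abs_div, abs_mul, abs_of_nonpos (by nlinarith [sq_nonneg s]), abs_of_pos (pow_pos (p2 x) 2),
        div_le_div_iff₀ (pow_pos (p2 x) 2) (p2 x), sq (ψ x ^ 2 + s ^ 2), mul_assoc]
      refine mul_le_mul_of_nonneg_left (mul_le_mul_of_nonneg_right ?_ (p2 x).le)
        (by nlinarith [sq_nonneg s])
      rw [abs_le]
      constructor <;> nlinarith [sq_nonneg s, sq_nonneg (ψ x)]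
    have a4 : s ^ 2 / (ψ x ^ 2 + s ^ 2) ≤ -ψ' x / (ψ x ^ 2 + s ^ 2) :=
      div_le_div_of_nonneg_right a1 (p2 x).le
    rw [a2, abs_of_pos (div_pos (by positivity) (p2 x))]
    linarith [show -2 * ψ' x / (ψ x ^ 2 + s ^ 2) = 2 * (-ψ' x / (ψ x ^ 2 + s ^ 2)) by ring]

lemma far (n : ℕ) (hn : 1 ≤ n) (m : ℤ) (hm : m ≠ 0) :
    ‖∫ x in (1 : ℝ)..2, v x ^ n * e m x‖ ≤ n / |(m : ℝ)| := by
  have m0 : (0 : ℝ) < |(m : ℝ)| := abs_pos.mpr (by exact_mod_cast hm)
  have m1 : (m : ℝ) ≠ 0 := abs_pos.mp m0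
  have n1 : (1 : ℝ) ≤ n := by exact_mod_cast hn
  have hp := Real.pi_gt_three
  have e0 : |1 / (2 * Real.pi * m)| ≤ 1 / (6 * |(m : ℝ)|) := by
    rw [abs_div, abs_one, abs_mul, abs_of_pos (by positivity : 0 < 2 * Real.pi)]
    gcongr
    linarith
  have h := osc (g := fun _ => 1 / (2 * Real.pi * m)) (g' := fun _ => 0)
    (G := fun x => n / (3 * |(m : ℝ)|) * x) (b := fun _ => n / (3 * |(m : ℝ)|))
    (deriv_F n m) (fun x => by simp [norm_v, norm_e])
    (Continuous.add (Continuous.div (by fun_prop) (by fun_prop) fun x => by positivity)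
      continuous_const) (fun x => hasDerivAt_const _ _) continuous_const
    (fun x => by simpa using (hasDerivAt_id x).const_mul (n / (3 * |(m : ℝ)|))) continuous_const
    fun x _ => ?_
  · refine h.trans ?_
    have : 1 / (6 * |(m : ℝ)|) ≤ n / (6 * |(m : ℝ)|) := by gcongr
    have a1 : (n : ℝ) / |(m : ℝ)| = 6 * (n / (6 * |(m : ℝ)|)) := by field_simp
    have a2 : (n : ℝ) / (3 * |(m : ℝ)|) = 2 * (n / (6 * |(m : ℝ)|)) := by field_simp; norm_num
    have a3 : 0 ≤ (n : ℝ) / (6 * |(m : ℝ)|) := by positivity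
    linarith
  · have a1 : 1 - (2 * n / (1 + x ^ 2) + 2 * Real.pi * m) * (1 / (2 * Real.pi * m)) =
        -(2 * n / (1 + x ^ 2)) * (1 / (2 * Real.pi * m)) := by
      field_simp
      ring
    rw [abs_zero, zero_add, a1, abs_mul, abs_neg, abs_of_nonneg (by positivity)]
    refine (mul_le_mul (div_le_self (by positivity) (by nlinarith [sq_nonneg x])) e0
      (abs_nonneg _) (by positivity)).trans (le_of_eq ?_)
    field_simp
    norm_num

/-- finite Riesz products -/
noncomputable def P : ℕ → ℝ → ℝ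
  | 0, _ => 1
  | K + 1, x => P K x * (1 + Real.cos (2 * Real.pi * 64 ^ K * x))

@[fun_prop] lemma P_cont (K : ℕ) : Continuous (P K) := by
  induction K with
  | zero => exact continuous_const
  | succ K ih =>
    show Continuous fun x => P K x * (1 + Real.cos (2 * Real.pi * 64 ^ K * x))
    fun_prop

lemma P_nonneg (K : ℕ) (x : ℝ) : 0 ≤ P K x := by
  induction K with
  | zero => exact zero_le_one
  | succ K ih => exact mul_nonneg ih (by linarith [Real.neg_one_le_cos (2 * Real.pi * 64 ^ K * x)])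

/-- twisted integrals -/
noncomputable def J (h : ℝ → ℂ) (K : ℕ) (j : ℤ) : ℂ := ∫ x in (1 : ℝ)..2, P K x * (h x * e j x)

lemma J_succ {h : ℝ → ℂ} (hc : Continuous h) (K : ℕ) (j : ℤ) :
    J h (K + 1) j = J h K j + (J h K (j + 64 ^ K) + J h K (j - 64 ^ K)) / 2 := by
  unfold J
  rw [← intervalIntegral.integral_add (Continuous.intervalIntegrable (by fun_prop) _ _)
    (Continuous.intervalIntegrable (by fun_prop) _ _), ← intervalIntegral.integral_div,
    ← intervalIntegral.integral_add (Continuous.intervalIntegrable (by fun_prop) _ _)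
    (Continuous.intervalIntegrable (by fun_prop) _ _)]
  refine integral_congr fun x _ => ?_
  have a1 : e (j + 64 ^ K) x = e j x * exp ((2 * Real.pi * 64 ^ K * x) * I) := by
    rw [e, e, ← exp_add]
    congr 1
    push_cast
    ring
  have a2 : e (j - 64 ^ K) x = e j x * exp (-(2 * Real.pi * 64 ^ K * x) * I) := by
    rw [e, e, ← exp_add]
    congr 1
    push_cast
    ring
  simp only [P, a1, a2]
  push_cast
  rw [cos]
  ring

lemma J_bound {h : ℝ → ℂ} (hc : Continuous h) (β : ℝ) (K : ℕ) : ∀ j : ℤ,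
    (∀ m : ℤ, 32 * |m - j| ≤ 64 ^ K → ‖J h 0 m‖ ≤ β) → ‖J h K j‖ ≤ 2 ^ K * β := by
  induction K with
  | zero => exact fun j H => by simpa using H j (by simp)
  | succ K ih =>
    intro j H
    have key : ∀ j' : ℤ, |j' - j| ≤ 64 ^ K → ‖J h K j'‖ ≤ 2 ^ K * β := fun j' hj =>
      ih j' fun m hm => H m (by
        have := abs_sub_le m j' j
        rw [pow_succ]
        nlinarith [abs_nonneg (m - j')])
    rw [J_succ hc]
    have a1 := key j (by simp)
    have a2 := key (j + 64 ^ K) (by simp)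
    have a3 := key (j - 64 ^ K) (by simp)
    refine (norm_add_le _ _).trans ?_
    rw [norm_div, pow_succ]
    have := norm_add_le (J h K (j + 64 ^ K)) (J h K (j - 64 ^ K))
    simp only [norm_ofNat]
    linarith

lemma J_one_zero (m : ℤ) (hm : m ≠ 0) : J (fun _ => 1) 0 m = 0 := by
  have hne : 2 * Real.pi * I * m ≠ 0 := by simp [hm]
  simp only [J, P, e, ofReal_one, one_mul]
  rw [integral_exp_mul_complex hne]
  have e1 := (exp_int_mul_two_pi_mul_I (m * 2)).trans (exp_int_mul_two_pi_mul_I m).symm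
  have : exp (2 * Real.pi * I * m * (2 : ℝ)) = exp (2 * Real.pi * I * m * (1 : ℝ)) := by
    push_cast at e1 ⊢
    convert e1 using 2 <;> ring
  rw [this]
  simp

lemma J_one_far (K : ℕ) (j : ℤ) (hj : 64 ^ K < 32 * |j|) : J (fun _ => 1) K j = 0 := by
  have := J_bound (h := fun _ => 1) continuous_const 0 K j fun m hm => by
    rw [J_one_zero m, norm_zero]
    rintro rfl
    rw [zero_sub, abs_neg] at hm
    omega
  simpa using this

lemma J_mass (K : ℕ) : J (fun _ => 1) K 0 = 1 := by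
  induction K with
  | zero => simp [J, P, e]; norm_num
  | succ K ih =>
    have : (0 : ℤ) < 64 ^ K := by positivity
    rw [J_succ continuous_const, ih, J_one_far K (0 + _) (by simp), J_one_far K (0 - _) (by simp)]
    simp

lemma J_half (k K : ℕ) (h : k < K) : J (fun _ => 1) K (64 ^ k) = 1 / 2 := by
  have p : (0 : ℤ) < 64 ^ k := by positivity
  induction K, h using Nat.le_induction with
  | base =>
    rw [J_succ continuous_const, sub_self, J_mass, J_one_far k _ (by rw [abs_of_pos p]; omega),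
      J_one_far k _ (by rw [abs_of_pos (by omega)]; omega)]
    simp
  | succ K hK ih =>
    have q : (64 : ℤ) ^ (k + 1) ≤ 64 ^ K := pow_le_pow_right₀ (by norm_num) hK
    rw [pow_succ] at q
    rw [J_succ continuous_const, ih, J_one_far K _ (by rw [abs_of_pos (by omega)]; omega),
      J_one_far K _ (by rw [abs_of_neg (by omega)]; omega)]
    simp

lemma J_decay (n k : ℕ) (h1 : 16 ^ k ≤ n) (h2 : n < 16 ^ (k + 1)) (K : ℕ) (hK : k + 1 ≤ K) :
    ‖J (fun x => v x ^ n) K 0‖ ≤ 49 / 2 ^ k - 4 / 2 ^ K := by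
  have hc : Continuous fun x => v x ^ n := by fun_prop
  induction K, hK using Nat.le_induction with
  | base =>
    have a1 : ((16 : ℝ)) ^ k ≤ n := by exact_mod_cast h1
    have a2 : (16 : ℝ) ^ k = (2 ^ k * 2 ^ k) ^ 2 := by
      rw [← mul_pow, ← pow_mul, mul_comm k, pow_mul]
      norm_num
    refine (J_bound hc (9 / (2 / 5 * (2 ^ k * 2 ^ k))) (k + 1) 0 fun m _ => ?_).trans ?_
    · simpa [J, P] using vdc n m (s := 2 / 5 * (2 ^ k * 2 ^ k)) (by positivity) (by nlinarith)
    · rw [pow_succ]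
      have : (0 : ℝ) < 2 ^ k := by positivity
      field_simp
      norm_num
  | succ K hK ih =>
    have p : (0 : ℤ) < 64 ^ K := by positivity
    have key : ∀ j : ℤ, |j| = 64 ^ K → ‖J (fun x => v x ^ n) K j‖ ≤ 2 / 2 ^ K := by
      intro j hj
      refine (J_bound hc (16 ^ K / (64 ^ K / 2)) K j fun m hm => ?_).trans (le_of_eq ?_)
      · have b1 : 64 ^ K ≤ 2 * |m| := by
          have := abs_sub_abs_le_abs_sub j m
          rw [abs_sub_comm] at this
          omega
        have b2 : (64 : ℝ) ^ K ≤ 2 * |(m : ℝ)| := by exact_mod_cast b1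
        have b3 : (n : ℝ) ≤ 16 ^ K := by
          exact_mod_cast h2.le.trans (Nat.pow_le_pow_right (by norm_num) hK)
        have b4 := far n (le_trans (Nat.one_le_pow _ _ (by norm_num)) h1) m (by
          rintro rfl
          simp at b1
          omega)
        refine le_trans (by simpa [J, P] using b4) ?_
        gcongr
        linarith
      · rw [show (64 : ℝ) = 2 * 2 * 16 by norm_num, mul_pow, mul_pow]
        field_simp
    rw [J_succ hc]
    have a2 := key (0 + 64 ^ K) (by simp)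
    have a3 := key (0 - 64 ^ K) (by simp)
    refine (norm_add_le _ _).trans ?_
    rw [norm_div, pow_succ (2 : ℝ) K]
    have := norm_add_le (J (fun x => v x ^ n) K (0 + 64 ^ K)) (J (fun x => v x ^ n) K (0 - 64 ^ K))
    simp only [norm_ofNat]
    linarith [show (4 : ℝ) / (2 ^ K * 2) = 2 / 2 ^ K by ring, show (4 : ℝ) / 2 ^ K = 2 * (2 / 2 ^ K) by ring]

/-- the approximating measures -/
noncomputable def mu (K : ℕ) : Measure (Icc (1 : ℝ) 2) :=
  (volume.withDensity fun x => ENNReal.ofReal (P K x)).comap Subtype.val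

lemma int_mu (K : ℕ) (h : ℝ → ℂ) : ∫ x, h x ∂(mu K) = J h K 0 := by
  rw [mu, integral_subtype_comap measurableSet_Icc,
    setIntegral_withDensity_eq_setIntegral_toReal_smul (P_cont K).measurable.ennreal_ofReal
      (Eventually.of_forall fun _ => ENNReal.ofReal_lt_top) _ measurableSet_Icc,
    integral_Icc_eq_integral_Ioc, J, integral_of_le (by norm_num)]
  refine integral_congr_ae (Eventually.of_forall fun x => ?_)
  simp [ENNReal.toReal_ofReal (P_nonneg K x), e]

lemma mu_prob (K : ℕ) : IsProbabilityMeasure (mu K) := by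
  have := int_mu K fun _ => 1
  rw [J_mass, MeasureTheory.integral_const] at this
  exact ⟨(ENNReal.toReal_eq_one_iff _).mp (by simpa [Measure.real] using this)⟩

theorem exists_measure : ∃ μ : ProbabilityMeasure (Icc (1 : ℝ) 2),
    (∀ k : ℕ, ∫ x, e (64 ^ k) x ∂(μ : Measure (Icc (1 : ℝ) 2)) = 1 / 2) ∧
    Tendsto (fun n : ℕ => ∫ x, v x ^ n ∂(μ : Measure (Icc (1 : ℝ) 2))) atTop (𝓝 0) := by
  set ν : ℕ → ProbabilityMeasure (Icc (1 : ℝ) 2) := fun K => ⟨mu K, mu_prob K⟩ with hν
  obtain ⟨μ, -, hμ⟩ := isCompact_univ.ultrafilter_le_nhds ((hyperfilter ℕ).map ν) (by simp)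
  have hlim : ∀ h : ℝ → ℂ, Continuous h → Tendsto (fun K => J h K 0) (hyperfilter ℕ)
      (𝓝 (∫ x, h x ∂(μ : Measure (Icc (1 : ℝ) 2)))) := by
    intro h hc
    have := (ProbabilityMeasure.tendsto_iff_forall_integral_rclike_tendsto ℂ).mp hμ
      (BoundedContinuousFunction.mkOfCompact ⟨fun x => h x, by fun_prop⟩)
    simpa [hν, int_mu] using this
  refine ⟨μ, fun k => ?_, ?_⟩
  · refine tendsto_nhds_unique (hlim _ (e_cont _)) (tendsto_const_nhds.congr' ?_)
    filter_upwards [Nat.hyperfilter_le_atTop (eventually_gt_atTop k)] with K hK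
    rw [← J_half k K hK]
    simp [J, e]
  · have hb : ∀ n : ℕ, n ≠ 0 →
        ‖∫ x, v x ^ n ∂(μ : Measure (Icc (1 : ℝ) 2))‖ ≤ 49 * (1 / 2) ^ Nat.log 16 n := by
      intro n hn
      refine le_of_tendsto (hlim (fun x => v x ^ n) (by fun_prop)).norm ?_
      filter_upwards [Nat.hyperfilter_le_atTop (eventually_ge_atTop (Nat.log 16 n + 1))] with K hK
      refine (J_decay n _ (Nat.pow_log_le_self 16 hn) (Nat.lt_pow_succ_log_self (by norm_num) n)
        K hK).trans ?_
      rw [one_div, inv_pow, ← div_eq_mul_inv]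
      exact sub_le_self _ (by positivity)
    refine squeeze_zero_norm' ((eventually_ne_atTop 0).mono hb) ?_
    have h1 : Tendsto (Nat.log 16) atTop atTop :=
      tendsto_atTop_atTop.mpr fun b => ⟨16 ^ b, fun a ha =>
        (Nat.le_log_iff_pow_le (by norm_num) (by
          have : 0 < 16 ^ b := by positivity
          omega)).mpr ha⟩
    simpa using ((tendsto_pow_atTop_nhds_zero_of_lt_one (r := (1 / 2 : ℝ)) (by norm_num)
      (by norm_num)).comp h1).const_mul 49

end Pool.Agent.H62.Riesz
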