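import Mathlib

set_option autoImplicit false

namespace Pool.Agent.H62.RieszShift

theorem shift {H : Type} [NormedAddCommGroup H] [InnerProductSpace ℂ H] {Λ : Type} [DecidableEq Λ]
    (G : Λ → H) (L : lp (fun _ : Λ => ℂ) 2 ≃L[ℂ] H) (hL : ∀ k, L (lp.single 2 k (1:ℂ)) = G k)
    (s : Λ → Λ) (hs : Function.Injective s) :
    ∃ T : H →L[ℂ] H, Function.Injective T ∧ ∀ k, T (G k) = G (s k) := by
  have h0 : Orthonormal ℂ fun k : Λ => (lp.single 2 k (1:ℂ) : lp (fun _ : Λ => ℂ) 2) := by
    refine orthonormal_iff_ite.mpr fun i j => ?_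
    rw [lp.inner_single_left, lp.single_apply, Pi.single_apply]
    split_ifs <;> simp
  have h1 := h0.comp s hs
  let U := h1.orthogonalFamily.linearIsometry
  refine ⟨L.toContinuousLinearMap ∘L U.toContinuousLinearMap ∘L L.symm.toContinuousLinearMap,
    L.injective.comp (U.injective.comp L.symm.injective), fun k => ?_⟩
  rw [← hL, ← hL]
  simp [U]

end Pool.Agent.H62.RieszShift
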