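import Mathlib

set_option autoImplicit false
open MeasureTheory Set Filter Topology
open scoped ENNReal

namespace Pool.Agent.H62.RotNull

noncomputable def ψ (ε x : ℝ) : ℝ := ⌊x⌋ + min (Int.fract x / ε) 1

lemma ψ_bd {ε : ℝ} (h : 0 < ε) (x : ℝ) : (⌊x⌋ : ℝ) ≤ ψ ε x ∧ ψ ε x ≤ ⌊x⌋ + 1 := by
  have : 0 ≤ min (Int.fract x / ε) 1 := le_min (div_nonneg (Int.fract_nonneg x) h.le) zero_le_one
  have := min_le_right (Int.fract x / ε) 1
  unfold ψ
  constructor <;> linarith

lemma ψ_mono {ε : ℝ} (h : 0 < ε) : Monotone (ψ ε) := by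
  intro x y hxy
  rcases (Int.floor_mono hxy).eq_or_lt with h1 | h1
  · have : Int.fract x ≤ Int.fract y := by unfold Int.fract; rw [h1]; linarith
    unfold ψ
    rw [h1]
    gcongr
  · have : (⌊x⌋ : ℝ) + 1 ≤ ⌊y⌋ := by exact_mod_cast h1
    linarith [(ψ_bd h x).2, (ψ_bd h y).1]

lemma ψ_add (ε x : ℝ) (n : ℕ) : ψ ε (x + n) = ψ ε x + n := by
  simp [ψ]; ring

lemma ψ_cont {ε : ℝ} (h : 0 < ε) (h1 : ε ≤ 1) : Continuous (ψ ε) := by
  have h2 : Continuous ((fun t : ℝ => min (t / ε) 1 - t) ∘ Int.fract) :=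
    ContinuousOn.comp_fract'' (by fun_prop) (by simp [min_eq_right (one_le_inv₀ h |>.mpr h1)])
  convert continuous_id.add h2 using 1
  funext x
  simp only [ψ, Pi.add_apply, Function.comp, id]
  linarith [Int.floor_add_fract x]

lemma ψ_ge {ε : ℝ} (h : 0 < ε) (h1 : ε ≤ 1) (x : ℝ) : x ≤ ψ ε x := by
  have : Int.fract x ≤ min (Int.fract x / ε) 1 :=
    le_min (by rw [le_div_iff₀ h]; nlinarith [Int.fract_nonneg x]) (Int.fract_lt_one x).le
  have := Int.floor_add_fract x
  unfold ψ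
  linarith

lemma ψ_eq {ε : ℝ} (h : 0 < ε) {x : ℝ} {i : ℤ} (h1 : i + ε ≤ x) : i + 1 ≤ ψ ε x := by
  rcases (show i ≤ ⌊x⌋ from Int.le_floor.mpr (by linarith)).eq_or_lt with h2 | h2
  · have : 1 ≤ Int.fract x / ε := by rw [le_div_iff₀ h, Int.fract, ← h2]; linarith
    rw [ψ, min_eq_right this, ← h2]
  · have : (i : ℝ) + 1 ≤ ⌊x⌋ := by exact_mod_cast h2
    linarith [(ψ_bd h x).1]

/-- clamp to the unit interval -/
noncomputable def cl (σ : ℝ) : ℝ := max 0 (min σ 1)

noncomputable def ep (n : ℕ) : ℝ := 1 / ((n : ℝ) + 1) ^ 2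

lemma ep_pos (n : ℕ) : 0 < ep n := by unfold ep; positivity

lemma ep_le (n : ℕ) : ep n ≤ 1 := by
  unfold ep; rw [div_le_one (by positivity)]; nlinarith [Nat.cast_nonneg (α := ℝ) n]

noncomputable def w (n : ℕ) (v : ℝ × ℝ) (x : ℝ) : ℝ :=
  v.1 + (ep n * ((n + 1) * (x - v.1) + cl v.2) + (1 - ep n) * ψ (ep n) ((n + 1) * (x - v.1) + cl v.2)) / (n + 1)

lemma w_slope (n : ℕ) (v : ℝ × ℝ) {x y : ℝ} (h : x ≤ y) : ep n * (y - x) ≤ w n v y - w n v x := by
  have h1 : ψ (ep n) ((n + 1) * (x - v.1) + cl v.2) ≤ ψ (ep n) ((n + 1) * (y - v.1) + cl v.2) :=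
    ψ_mono (ep_pos n) (by gcongr)
  have h2 := mul_le_mul_of_nonneg_left h1 (sub_nonneg.mpr (ep_le n))
  unfold w
  rw [add_sub_add_left_eq_sub, ← sub_div, le_div_iff₀ (by positivity)]
  linarith

noncomputable def W (n : ℕ) (v : ℝ × ℝ) : CircleDeg1Lift where
  toFun := w n v
  monotone' x y h := by nlinarith [w_slope n v h, ep_pos n]
  map_add_one' x := by
    have := ψ_add (ep n) ((n + 1) * (x - v.1) + cl v.2) (n + 1)
    simp only [w]
    rw [show ((n : ℝ) + 1) * (x + 1 - v.1) + cl v.2 = (n + 1) * (x - v.1) + cl v.2 + (n + 1 : ℕ) by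
      push_cast; ring, this]
    field_simp
    push_cast
    ring

lemma W_apply (n : ℕ) (v : ℝ × ℝ) (x : ℝ) : W n v x = w n v x := rfl

lemma w_cont (n : ℕ) : Continuous fun p : (ℝ × ℝ) × ℝ => w n p.1 p.2 := by
  have := ψ_cont (ep_pos n) (ep_le n)
  unfold w cl
  fun_prop

lemma w_close (n : ℕ) (v : ℝ × ℝ) (x : ℝ) : dist x (w n v x) ≤ 2 / (n + 1) := by
  have h0 : 0 ≤ cl v.2 := le_max_left _ _
  have h1 : cl v.2 ≤ 1 := max_le zero_le_one (min_le_right _ _)
  have h2 := ψ_ge (ep_pos n) (ep_le n) ((n + 1) * (x - v.1) + cl v.2)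
  have h3 := (ψ_bd (ep_pos n) ((n + 1) * (x - v.1) + cl v.2)).2
  have h4 := Int.floor_le ((n + 1) * (x - v.1) + cl v.2)
  have h5 := ep_pos n
  have h6 := ep_le n
  have : w n v x - x = (cl v.2 + (1 - ep n) * (ψ (ep n) ((n + 1) * (x - v.1) + cl v.2) -
      ((n + 1) * (x - v.1) + cl v.2))) / (n + 1) := by
    unfold w; field_simp; ring
  rw [dist_comm, Real.dist_eq, this, abs_of_nonneg (by
    refine div_nonneg (add_nonneg h0 (mul_nonneg ?_ ?_)) (by positivity) <;> linarith)]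
  gcongr
  nlinarith

lemma lint (Φ : ℝ → ℝ) (hm : Monotone Φ) (h1 : ∀ x, Φ (x + 1) = Φ x + 1) (a b : ℝ) (hab : a ≤ b) :
    ∫⁻ t in Icc (0 : ℝ) 1, ENNReal.ofReal (Φ (b + t) - Φ (a + t)) = ENNReal.ofReal (b - a) := by
  have hi : ∀ c d, IntervalIntegrable Φ volume c d := fun c d => hm.intervalIntegrable
  have hj : ∀ c, IntervalIntegrable (fun t => Φ (c + t)) volume 0 1 := fun c =>
    Monotone.intervalIntegrable fun x y h => hm (by gcongr)
  rw [← ofReal_integral_eq_lintegral_ofReal, integral_Icc_eq_integral_Ioc,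
    ← intervalIntegral.integral_of_le zero_le_one, intervalIntegral.integral_sub (hj b) (hj a),
    intervalIntegral.integral_comp_add_left, intervalIntegral.integral_comp_add_left]
  · have e1 := intervalIntegral.integral_add_adjacent_intervals (hi a b) (hi b (b + 1))
    have e2 := intervalIntegral.integral_add_adjacent_intervals (hi a (a + 1)) (hi (a + 1) (b + 1))
    have e3 := intervalIntegral.integral_comp_add_right Φ (a := a) (b := b) 1
    simp only [h1] at e3
    rw [intervalIntegral.integral_add (hi a b) (by simp)] at e3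
    simp only [add_zero, intervalIntegral.integral_const, smul_eq_mul, mul_one] at *
    congr 1
    linarith
  · exact (intervalIntegrable_iff_integrableOn_Icc_of_le zero_le_one).mp ((hj b).sub (hj a))
  · exact Eventually.of_forall fun t => sub_nonneg.mpr (hm (by gcongr))

noncomputable def ν : Measure (ℝ × ℝ) := (volume.restrict (Icc 0 1)).prod (volume.restrict (Icc 0 1))

instance : IsProbabilityMeasure (volume.restrict (Icc (0 : ℝ) 1)) := ⟨by simp⟩

instance : IsProbabilityMeasure ν := by unfold ν; infer_instance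

/-- the bad event -/
def Bad (Γ : CircleDeg1Lift) (n : ℕ) (j : ℤ) : Set (ℝ × ℝ) :=
  {v | ⌊(n + 1) * (Γ ((j - ep n) / (n + 1) + v.1) - v.1) - ep n + v.2⌋ ≠
    ⌊(n + 1) * (Γ (j / (n + 1) + v.1) - v.1) + v.2⌋}

lemma bad_le (Γ : CircleDeg1Lift) (n : ℕ) (j : ℤ) : ν (Bad Γ n j) ≤ ENNReal.ofReal (2 * ep n) := by
  have hΓ : Measurable Γ := Γ.monotone.measurable
  have he := ep_pos n
  have hl : ((j : ℝ) - ep n) / (n + 1) ≤ j / (n + 1) := by gcongr; linarith
  have hB : MeasurableSet (Bad Γ n j) := (measurableSet_eq_fun (by fun_prop) (by fun_prop)).compl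
  rw [ν, Measure.prod_apply hB]
  calc _ ≤ ∫⁻ o in Icc (0 : ℝ) 1, (ENNReal.ofReal (n + 1) *
        ENNReal.ofReal (Γ (j / (n + 1) + o) - Γ ((j - ep n) / (n + 1) + o)) + ENNReal.ofReal (ep n)) := by
        refine lintegral_mono fun o => ?_
        have h1 : Γ ((j - ep n) / (n + 1) + o) ≤ Γ (j / (n + 1) + o) := Γ.monotone (by gcongr)
        have h2 : (n + 1) * (Γ ((j - ep n) / (n + 1) + o) - o) - ep n ≤ (n + 1) * (Γ (j / (n + 1) + o) - o) := by
          nlinarith [Nat.cast_nonneg (α := ℝ) n]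
        have := lint (fun x => ⌊x⌋) (fun x y h => Int.cast_le.mpr (Int.floor_mono h)) (by simp) _ _ h2
        rw [← ENNReal.ofReal_mul (by positivity), ← ENNReal.ofReal_add (by
          refine mul_nonneg (by positivity) (by linarith)) he.le]
        refine le_trans ?_ (this.le.trans (le_of_eq (by congr 1; ring)))
        refine le_trans (measure_mono fun σ hσ => ?_) ((one_mul _).ge.trans
          (mul_meas_ge_le_lintegral (by fun_prop) 1))
        have h3 := lt_of_le_of_ne (Int.floor_mono (by gcongr)) hσ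
        have h4 : ((⌊(n + 1) * (Γ ((j - ep n) / (n + 1) + o) - o) - ep n + σ⌋ : ℤ) : ℝ) + 1 ≤
          ⌊(n + 1) * (Γ (j / (n + 1) + o) - o) + σ⌋ := by exact_mod_cast h3
        exact ENNReal.one_le_ofReal.mpr (by linarith)
    _ = _ := by
        rw [lintegral_add_right _ measurable_const, lintegral_const_mul _ (by fun_prop),
          lint Γ Γ.monotone Γ.map_add_one _ _ hl, ← ENNReal.ofReal_mul (by positivity)]
        simp only [lintegral_const, measure_univ, mul_one]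
        rw [← ENNReal.ofReal_add (by refine mul_nonneg (by positivity) (by linarith)) he.le]
        congr 1
        field_simp
        ring

lemma good (Γ : CircleDeg1Lift) (n : ℕ) (v : ℝ × ℝ) (hv : v.2 ∈ Icc (0 : ℝ) 1)
    (h : ∀ j ∈ Finset.range (n + 1), v ∉ Bad Γ n j) :
    ∃ (m : ℕ) (p : ℤ), 0 < m ∧ ((W n v * Γ) ^ m).translationNumber = p := by
  have he := ep_pos n
  have he1 := ep_le n
  have hn : (0 : ℝ) < n + 1 := by positivity
  have hc : cl v.2 = v.2 := by rw [cl, min_eq_left hv.2, max_eq_right hv.1]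
  let i : ℤ → ℤ := fun j => ⌊(n + 1) * (Γ (j / (n + 1) + v.1) - v.1) + v.2⌋ + 1
  have h1 : ∀ j : ℤ, v ∉ Bad Γ n j := by
    intro j hj
    have h0 : (0 : ℤ) < n + 1 := by positivity
    obtain ⟨r, hr⟩ := Int.eq_ofNat_of_zero_le (Int.emod_nonneg j h0.ne')
    refine h r (Finset.mem_range.mpr (by have := Int.emod_lt_of_pos j h0; omega)) fun h2 => hj ?_
    obtain ⟨q, hq⟩ : ∃ q : ℤ, j = r + q * (n + 1) := ⟨j / (n + 1), by rw [← hr, Int.emod_add_ediv_mul]⟩
    have e : ∀ a : ℝ, (n + 1) * (Γ ((j - a) / (n + 1) + v.1) - v.1) =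
        (n + 1) * (Γ (((r : ℤ) - a) / (n + 1) + v.1) - v.1) + (q * (n + 1) : ℤ) := by
      intro a
      rw [show (j - a) / (n + 1) + v.1 = ((r : ℤ) - a) / (n + 1) + v.1 + q by
        rw [hq]; push_cast; field_simp; ring, Γ.map_add_int]
      push_cast; ring
    have e0 := e 0
    rw [sub_zero, sub_zero] at e0
    rw [e, e0, add_right_comm, add_sub_right_comm, add_right_comm, Int.floor_add_intCast,
      Int.floor_add_intCast, h2]
  have h2 : ∀ j : ℤ, (i j - ep n) / (n + 1) + v.1 ≤ (W n v * Γ) ((j - ep n) / (n + 1) + v.1) ∧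
      (W n v * Γ) (j / (n + 1) + v.1) ≤ i j / (n + 1) + v.1 := by
    intro j
    have a1 : _ = _ := not_not.mp (h1 j)
    have a2 := Int.floor_le ((n + 1) * (Γ ((j - ep n) / (n + 1) + v.1) - v.1) - ep n + v.2)
    have a3 := Int.lt_floor_add_one ((n + 1) * (Γ (j / (n + 1) + v.1) - v.1) + v.2)
    have a4 := (ψ_bd he ((n + 1) * (Γ (j / (n + 1) + v.1) - v.1) + v.2)).2
    rw [a1] at a2
    have a5 := ψ_eq he (x := (n + 1) * (Γ ((j - ep n) / (n + 1) + v.1) - v.1) + v.2)
      (i := ⌊(n + 1) * (Γ (j / (n + 1) + v.1) - v.1) + v.2⌋) (by linarith)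
    simp only [CircleDeg1Lift.mul_apply, W_apply, w, hc, i]
    push_cast
    constructor
    · refine (add_comm _ _).le.trans ?_; gcongr; nlinarith
    · refine le_trans ?_ (add_comm _ _).le; gcongr _ + ?_ / _; nlinarith
  have h3 : ∀ (m : ℕ) (j : ℤ), (i^[m] j - ep n) / (n + 1) + v.1 ≤
      ((W n v * Γ) ^ m) ((j - ep n) / (n + 1) + v.1) ∧
      ((W n v * Γ) ^ m) (j / (n + 1) + v.1) ≤ i^[m] j / (n + 1) + v.1 := by
    intro m j
    induction m with
    | zero => simp
    | succ m ih =>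
      rw [pow_succ', Function.iterate_succ_apply']
      exact ⟨(h2 _).1.trans ((W n v * Γ).monotone ih.1), ((W n v * Γ).monotone ih.2).trans (h2 _).2⟩
  have h4 : ∀ a b : ℕ, a < b → ((i^[a] 0 : ℤ) : ZMod (n + 1)) = (i^[b] 0 : ℤ) →
      ∃ (m : ℕ) (p : ℤ), 0 < m ∧ ((W n v * Γ) ^ m).translationNumber = p := by
    intro a b hab h5
    obtain ⟨p, hp⟩ := (ZMod.intCast_eq_intCast_iff_dvd_sub _ _ _).mp h5
    have h6 : i^[b - a] (i^[a] 0) = i^[a] 0 + (n + 1) * p := by
      rw [← Function.iterate_add_apply, Nat.sub_add_cancel hab.le]; push_cast at hp; linarith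
    obtain ⟨h7, h8⟩ := h3 (b - a) (i^[a] 0)
    rw [h6] at h7 h8
    refine ⟨b - a, p, by omega, le_antisymm (CircleDeg1Lift.translationNumber_le_of_le_add_int _
      (h8.trans (le_of_eq ?_))) (CircleDeg1Lift.le_translationNumber_of_add_int_le _ (le_trans (le_of_eq ?_) h7))⟩
    all_goals push_cast; field_simp; ring
  obtain ⟨a, b, hab, h5⟩ := Finite.exists_ne_map_eq_of_infinite fun a : ℕ => ((i^[a] 0 : ℤ) : ZMod (n + 1))
  rcases hab.lt_or_gt with h6 | h6
  · exact h4 a b h6 h5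
  · exact h4 b a h6 h5.symm

lemma prob (Γ : CircleDeg1Lift) (n : ℕ) :
    ν {v | ∀ (m : ℕ) (p : ℤ), 0 < m → ((W n v * Γ) ^ m).translationNumber ≠ p} ≤
      ENNReal.ofReal (2 / (n + 1)) := by
  have h0 : ν (univ ×ˢ (Icc (0 : ℝ) 1)ᶜ) = 0 := by simp [ν]
  refine (measure_mono (t := (⋃ j ∈ Finset.range (n + 1), Bad Γ n j) ∪ univ ×ˢ (Icc (0 : ℝ) 1)ᶜ)
    fun v hv => ?_).trans ((measure_union_le _ _).trans ?_)
  · by_contra h
    simp only [mem_union, mem_iUnion, not_or, not_exists, mem_prod, mem_univ, true_and, mem_compl_iff,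
      not_not] at h
    obtain ⟨m, p, h1, h2⟩ := good Γ n v h.2 h.1
    exact hv m p h1 h2
  · rw [h0, add_zero]
    refine (measure_biUnion_finset_le _ _).trans ((Finset.sum_le_sum fun (j : ℕ) _ => bad_le Γ n j).trans ?_)
    rw [Finset.sum_const, Finset.card_range, nsmul_eq_mul, ← ENNReal.ofReal_natCast,
      ← ENNReal.ofReal_mul (by positivity)]
    refine le_of_eq ?_
    congr 1
    unfold ep
    push_cast
    field_simp

end Pool.Agent.H62.RotNull
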