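import Pool.Agent.H62.RotNull1

set_option autoImplicit false
open MeasureTheory Set Filter Topology
open scoped ENNReal

namespace Pool.Agent.H62.RotNull

noncomputable def s : ℕ → ℝ
  | 0 => 1
  | k + 1 => s k * ep ⌈2 ^ k / s k⌉₊

noncomputable def N (k : ℕ) : ℕ := ⌈2 ^ k / s k⌉₊

lemma s_pos (k : ℕ) : 0 < s k := by
  induction k with
  | zero => simp [s]
  | succ k ih => exact mul_pos ih (ep_pos _)

lemma s_anti : Antitone s := antitone_nat_of_succ_le fun k => mul_le_of_le_one_right (s_pos k).le (ep_le _)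

lemma N_le (k : ℕ) : (2 : ℝ) / (N k + 1) ≤ 2 * s k / 2 ^ k := by
  have h := Nat.le_ceil (2 ^ k / s k)
  have := s_pos k
  rw [div_le_iff₀ this] at h
  rw [div_le_div_iff₀ (by positivity) (by positivity), N]
  nlinarith

noncomputable def P (ω : ℕ → ℝ × ℝ) (k : ℕ) : ℕ → CircleDeg1Lift
  | 0 => 1
  | m + 1 => W (N (k + m)) (ω (k + m)) * P ω k m

lemma P_step (ω : ℕ → ℝ × ℝ) (k : ℕ) (x : ℝ) (m : ℕ) :
    dist (P ω k m x) (P ω k (m + 1) x) ≤ 4 * s k / 2 ^ k / 2 / 2 ^ m := by
  refine (w_close _ _ _).trans ((N_le _).trans ?_)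
  have := s_anti (Nat.le_add_right k m)
  rw [pow_add, show 4 * s k / 2 ^ k / 2 / 2 ^ m = 2 * s k / (2 ^ k * 2 ^ m) by field_simp; ring]
  gcongr

lemma P_lim (ω : ℕ → ℝ × ℝ) (k : ℕ) (x : ℝ) :
    Tendsto (fun m => P ω k m x) atTop (𝓝 (limUnder atTop fun m => P ω k m x)) :=
  (cauchySeq_of_le_geometric_two (P_step ω k x)).tendsto_limUnder

noncomputable def T (ω : ℕ → ℝ × ℝ) (k : ℕ) : CircleDeg1Lift where
  toFun x := limUnder atTop fun m => P ω k m x
  monotone' x y h := le_of_tendsto_of_tendsto' (P_lim ω k x) (P_lim ω k y) fun m => (P ω k m).monotone h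
  map_add_one' x := tendsto_nhds_unique (P_lim ω k (x + 1)) (by
    simp only [CircleDeg1Lift.map_add_one]; exact (P_lim ω k x).add_const 1)

lemma T_lim (ω : ℕ → ℝ × ℝ) (k : ℕ) (x : ℝ) : Tendsto (fun m => P ω k m x) atTop (𝓝 (T ω k x)) :=
  P_lim ω k x

lemma P_add (ω : ℕ → ℝ × ℝ) (k m : ℕ) : P ω 0 (k + m) = P ω k m * P ω 0 k := by
  induction m with
  | zero => simp [P]
  | succ m ih => rw [← add_assoc, P, P, ih, zero_add, mul_assoc]

lemma T_eq (ω : ℕ → ℝ × ℝ) (k : ℕ) : T ω 0 = T ω k * P ω 0 k := by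
  ext x
  refine tendsto_nhds_unique ((T_lim ω 0 x).comp (tendsto_add_atTop_nat k)) ?_
  simpa only [Function.comp_def, add_comm _ k, P_add, CircleDeg1Lift.mul_apply] using T_lim ω k (P ω 0 k x)

lemma P_slope (ω : ℕ → ℝ × ℝ) (k : ℕ) {x y : ℝ} (h : x ≤ y) : s k * (y - x) ≤ P ω 0 k y - P ω 0 k x := by
  induction k with
  | zero => simp [s, P]
  | succ k ih =>
    have h1 := w_slope (N (0 + k)) (ω (0 + k)) ((P ω 0 k).monotone h)
    have h2 := mul_le_mul_of_nonneg_left ih (ep_pos (N k)).le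
    rw [zero_add] at h1
    simp only [s, P, zero_add, CircleDeg1Lift.mul_apply, W_apply]
    rw [N] at h2
    rw [N] at h1 ⊢
    linarith

lemma T_strict (ω : ℕ → ℝ × ℝ) : StrictMono (T ω 0) := by
  intro x y h
  obtain ⟨k, hk⟩ := pow_unbounded_of_one_lt (8 / (y - x)) (one_lt_two (α := ℝ))
  have h1 := P_slope ω k h.le
  have h2 := fun z => abs_le.mp (dist_le_of_le_geometric_two_of_tendsto₀ (P_step ω k z) (T_lim ω k z))
  have h3 := (h2 (P ω 0 k x)).1
  have h4 := (h2 (P ω 0 k y)).2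
  have h5 := s_pos k
  have h6 : 8 * s k / 2 ^ k < s k * (y - x) := by
    rw [div_lt_iff₀ (sub_pos.mpr h)] at hk
    rw [div_lt_iff₀ (by positivity)]
    nlinarith
  rw [T_eq ω k]
  simp only [P, CircleDeg1Lift.coe_one, id, CircleDeg1Lift.mul_apply] at *
  have : 8 * s k / 2 ^ k = 2 * (4 * s k / 2 ^ k) := by ring
  linarith

lemma P_cont (m : ℕ) : Continuous fun p : (ℕ → ℝ × ℝ) × ℝ => P p.1 0 m p.2 := by
  induction m with
  | zero => exact continuous_snd
  | succ m ih => exact (w_cont _).comp (((continuous_apply _).comp continuous_fst).prodMk ih)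

lemma T_cont : Continuous fun p : (ℕ → ℝ × ℝ) × ℝ => T p.1 0 p.2 := by
  refine TendstoUniformly.continuous (p := atTop) (F := fun m p => P p.1 0 m p.2) ?_
    (Frequently.of_forall P_cont)
  refine Metric.tendstoUniformly_iff.mpr fun ε hε => ?_
  have : Tendsto (fun m : ℕ => 4 * s 0 / 2 ^ 0 / 2 ^ m) atTop (𝓝 (0 : ℝ)) :=
    tendsto_const_nhds.div_atTop (tendsto_pow_atTop_atTop_of_one_lt one_lt_two)
  filter_upwards [this.eventually_lt_const hε] with m hm p
  rw [dist_comm]
  exact (dist_le_of_le_geometric_two_of_tendsto (P_step p.1 0 p.2) (T_lim p.1 0 p.2) m).trans_lt hm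

lemma P_congr {ω ω' : ℕ → ℝ × ℝ} (k m : ℕ) (h : ∀ i < m, ω (k + i) = ω' (k + i)) : P ω k m = P ω' k m := by
  induction m with
  | zero => rfl
  | succ m ih => rw [P, P, ih fun i hi => h i (by omega), h m (by omega)]

lemma T_update (ω : ℕ → ℝ × ℝ) (k : ℕ) (v : ℝ × ℝ) :
    T (Function.update ω k v) 0 = T ω (k + 1) * (W (N k) v * P ω 0 k) := by
  rw [T_eq _ (k + 1), P, zero_add, Function.update_self,
    P_congr (ω' := ω) 0 k fun i hi => Function.update_of_ne (by omega) _ _]
  congr 1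
  ext x
  refine tendsto_nhds_unique (T_lim _ _ x) ?_
  have : ∀ m, P (Function.update ω k v) (k + 1) m = P ω (k + 1) m := fun m =>
    P_congr _ _ fun i _ => Function.update_of_ne (by omega) _ _
  simpa only [this] using T_lim ω (k + 1) x

noncomputable def Pr : Measure (ℕ → ℝ × ℝ) := Measure.infinitePi fun _ => ν

instance : IsProbabilityMeasure Pr := by unfold Pr; infer_instance

lemma upd (k : ℕ) : (Pr.prod ν).map (fun p => Function.update p.1 k p.2) = Pr := by
  refine Measure.eq_infinitePi _ fun S t ht => ?_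
  rw [Measure.map_apply (by fun_prop) (MeasurableSet.pi S.countable_toSet fun i _ => ht i)]
  by_cases hk : k ∈ S
  · have : (fun p : (ℕ → ℝ × ℝ) × (ℝ × ℝ) => Function.update p.1 k p.2) ⁻¹' (Set.pi S t) =
        (Set.pi (S.erase k) t) ×ˢ t k := by
      ext ⟨ω, v⟩
      simp only [mem_preimage, Set.mem_pi, Finset.mem_coe, mem_prod, Finset.mem_erase]
      refine ⟨fun h => ⟨fun i hi => by simpa [hi.1] using h i hi.2, by simpa using h k hk⟩, fun h i hi => ?_⟩
      rcases eq_or_ne i k with rfl | h1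
      · simpa using h.2
      · simpa [h1] using h.1 i ⟨h1, hi⟩
    rw [this, Measure.prod_prod, Pr, Measure.infinitePi_pi _ fun i _ => ht i, Finset.prod_erase_mul _ _ hk]
  · have : (fun p : (ℕ → ℝ × ℝ) × (ℝ × ℝ) => Function.update p.1 k p.2) ⁻¹' (Set.pi S t) =
        (Set.pi S t) ×ˢ univ := by
      ext ⟨ω, v⟩
      simp only [mem_preimage, Set.mem_pi, Finset.mem_coe, mem_prod, mem_univ, and_true]
      exact forall₂_congr fun i hi => by rw [Function.update_of_ne (by rintro rfl; exact hk hi)]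
    rw [this, Measure.prod_prod, Pr, Measure.infinitePi_pi _ fun i _ => ht i, measure_univ, mul_one]

theorem null (A C : CircleDeg1Lift) (S : Set (ℕ → ℝ × ℝ)) (hS : MeasurableSet S)
    (h : ∀ ω ∈ S, ∀ (m : ℕ) (p : ℤ), 0 < m → ((A * T ω 0 * C) ^ m).translationNumber ≠ p) : Pr S = 0 := by
  have h1 : ∀ k, Pr S ≤ ENNReal.ofReal (2 / 2 ^ k) := by
    intro k
    have hm : Measurable fun p : (ℕ → ℝ × ℝ) × (ℝ × ℝ) => Function.update p.1 k p.2 := by fun_prop
    rw [← upd k, Measure.map_apply hm hS, Measure.prod_apply (hm hS)]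
    refine (lintegral_mono fun ω => ?_).trans (by rw [lintegral_const, measure_univ, mul_one])
    refine le_trans (measure_mono ?_)
      ((prob (P ω 0 k * C * A * T ω (k + 1)) (N k)).trans (ENNReal.ofReal_le_ofReal ((N_le k).trans ?_)))
    · refine fun v hv m p hm h2 => h _ hv m p hm ?_
      rw [← h2, CircleDeg1Lift.translationNumber_pow, CircleDeg1Lift.translationNumber_pow, T_update]
      congr 1
      symm
      exact CircleDeg1Lift.translationNumber_eq_of_semiconjBy (f := A * T ω (k + 1))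
        (by simp only [SemiconjBy, mul_assoc])
    · have := s_anti (Nat.zero_le k)
      simp only [s] at this
      gcongr
      linarith
  have h2 : Tendsto (fun k : ℕ => ENNReal.ofReal (2 / 2 ^ k)) atTop (𝓝 (ENNReal.ofReal 0)) :=
    ENNReal.tendsto_ofReal (tendsto_const_nhds.div_atTop (tendsto_pow_atTop_atTop_of_one_lt one_lt_two))
  simpa using ge_of_tendsto' h2 h1

lemma coe_eq {x y : ℝ} : (x : UnitAddCircle) = y ↔ ∃ p : ℤ, x = y + p := by
  rw [QuotientAddGroup.eq, AddSubgroup.mem_zmultiples_iff]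
  exact ⟨fun ⟨p, h⟩ => ⟨-p, by simp at h; push_cast; linarith⟩, fun ⟨p, h⟩ => ⟨-p, by simp [h]⟩⟩

noncomputable def down (F : CircleDeg1Lift) : UnitAddCircle → UnitAddCircle :=
  Function.Periodic.lift (f := fun x : ℝ => (F x : UnitAddCircle)) (c := 1)
    fun x => coe_eq.mpr ⟨1, by simp⟩

lemma down_coe (F : CircleDeg1Lift) (x : ℝ) : down F x = F x := rfl

lemma lift_bij {f : UnitAddCircle → UnitAddCircle} {F : CircleDeg1Lift} (h : ∀ x : ℝ, f x = F x) :
    Function.Bijective f ↔ Function.Bijective F := by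
  refine ⟨fun hf => ⟨fun x y hxy => ?_, fun y => ?_⟩, fun hF => ⟨fun x y hxy => ?_, fun y => ?_⟩⟩
  · obtain ⟨p, rfl⟩ := coe_eq.mp (hf.1 (show f x = f y by rw [h, h, hxy]))
    simpa using hxy
  · obtain ⟨x, hx⟩ := hf.2 y
    induction x using QuotientAddGroup.induction_on with | H x => ?_
    obtain ⟨p, hp⟩ := coe_eq.mp ((h x).symm.trans hx)
    exact ⟨x - p, by simp [hp]⟩
  · induction x using QuotientAddGroup.induction_on with | H x => ?_
    induction y using QuotientAddGroup.induction_on with | H y => ?_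
    obtain ⟨p, hp⟩ := coe_eq.mp ((h x).symm.trans (hxy.trans (h y)))
    exact coe_eq.mpr ⟨p, hF.1 (by simp [hp])⟩
  · induction y using QuotientAddGroup.induction_on with | H y => ?_
    obtain ⟨x, rfl⟩ := hF.2 y
    exact ⟨x, h x⟩

lemma lift_iter {f : UnitAddCircle → UnitAddCircle} {F : CircleDeg1Lift} (h : ∀ x : ℝ, f x = F x) (m : ℕ)
    (x : ℝ) : f^[m] x = (F ^ m) x := by
  induction m with
  | zero => simp
  | succ m ih => rw [Function.iterate_succ_apply', ih, h, pow_succ', CircleDeg1Lift.mul_apply]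

noncomputable def q : C((ℕ → ℝ × ℝ) × UnitAddCircle, UnitAddCircle) :=
  ⟨fun p => down (T p.1 0) p.2,
    (IsOpenQuotientMap.id.prodMap QuotientAddGroup.isOpenQuotientMap_mk).isQuotientMap.continuous_iff.mpr
      (QuotientAddGroup.continuous_mk.comp T_cont)⟩

lemma T_bij (ω : ℕ → ℝ × ℝ) : Function.Bijective (T ω 0) :=
  ⟨(T_strict ω).injective, (CircleDeg1Lift.continuous_iff_surjective _).mp
    (T_cont.comp (Continuous.prodMk_right ω))⟩

/-- maps without periodic points -/
def NP : Set C(UnitAddCircle, UnitAddCircle) := {f | ∀ m : ℕ, 0 < m → ∀ x, f^[m] x ≠ x}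

lemma NP_meas [MeasurableSpace C(UnitAddCircle, UnitAddCircle)] [BorelSpace C(UnitAddCircle, UnitAddCircle)] :
    MeasurableSet NP := by
  have h : ∀ m : ℕ, Continuous fun p : C(UnitAddCircle, UnitAddCircle) × UnitAddCircle => p.1^[m] p.2 := by
    intro m
    induction m with
    | zero => exact continuous_snd
    | succ m ih => simp only [Function.iterate_succ_apply']; fun_prop
  have : NP = ⋂ m : ℕ, ⋂ _ : 0 < m,
      (Prod.fst '' {p : C(UnitAddCircle, UnitAddCircle) × UnitAddCircle | p.1^[m] p.2 = p.2})ᶜ := by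
    ext f; simp [NP]
  rw [this]
  exact .iInter fun m => .iInter fun _ =>
    (isClosedMap_fst_of_compactSpace _ (isClosed_eq (h m) continuous_snd)).measurableSet.compl

theorem main (G : Set C(UnitAddCircle, UnitAddCircle))
    (hG : G = {f : C(UnitAddCircle, UnitAddCircle) | Function.Bijective f ∧
      ∃ F : CircleDeg1Lift, ∀ x : ℝ, f x = F x}) [MeasurableSpace G] [BorelSpace G] :
    MeasurableSet {x : G | x.1 ∈ NP} ∧ ∃ μ : Measure G, IsProbabilityMeasure μ ∧
      ∀ g h : G, μ {x : G | ∃ b ∈ {x : G | x.1 ∈ NP}, x.1 = g.1.comp (b.1.comp h.1)} = 0 := by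
  let : MeasurableSpace C(UnitAddCircle, UnitAddCircle) := borel _
  have : BorelSpace C(UnitAddCircle, UnitAddCircle) := ⟨rfl⟩
  let f : (ℕ → ℝ × ℝ) → G := fun ω => ⟨q.curry ω, hG ▸ ⟨(lift_bij (down_coe _)).mpr (T_bij ω), T ω 0,
    fun _ => rfl⟩⟩
  have hf : Measurable f := (q.curry.continuous.subtype_mk _).measurable
  refine ⟨continuous_subtype_val.measurable NP_meas, Pr.map f, Measure.isProbabilityMeasure_map hf.aemeasurable,
    fun g h => ?_⟩
  have inv : ∀ g : G, ∃ (α : C(UnitAddCircle, UnitAddCircle)) (A : CircleDeg1Lift), Function.Bijective A ∧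
      (∀ x : ℝ, α x = A x) ∧ (∀ x, α (g.1 x) = x) ∧ ∀ x, g.1 (α x) = x := by
    rintro ⟨g, hg⟩
    obtain ⟨h1, F, hF⟩ := hG ▸ hg
    obtain ⟨u, rfl⟩ := CircleDeg1Lift.isUnit_iff_bijective.mpr ((lift_bij hF).mp h1)
    let e := Continuous.homeoOfEquivCompactToT2 (f := Equiv.ofBijective _ h1) g.continuous
    refine ⟨⟨e.symm, e.symm.continuous⟩, ↑u⁻¹, CircleDeg1Lift.isUnit_iff_bijective.mp (Units.isUnit _),
      fun x => e.symm_apply_eq.mpr ?_, e.symm_apply_apply, e.apply_symm_apply⟩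
    exact ((hF _).trans (by simp)).symm
  obtain ⟨α, A, hA, a1, a2, -⟩ := inv g
  obtain ⟨β, C, hC, b1, -, b2⟩ := inv h
  have hm : MeasurableSet {x : G | α.comp (x.1.comp β) ∈ NP} :=
    (show Continuous fun x : G => α.comp (x.1.comp β) by fun_prop).measurable NP_meas
  refine measure_mono_null (t := {x : G | α.comp (x.1.comp β) ∈ NP}) ?_ ?_
  · rintro x ⟨b, hb, hx⟩
    have : α.comp (x.1.comp β) = b.1 := by ext z; simp [hx, a2, b2]
    rwa [mem_ofPred_eq, this]
  · rw [Measure.map_apply hf hm]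
    refine null A C _ (hf hm) fun ω hω m p h0 h1 => ?_
    have hc : Continuous (A * T ω 0 * C) := (CircleDeg1Lift.continuous_iff_surjective _).mpr
      ((hA.comp (T_bij ω)).comp hC).2
    obtain ⟨x, hx⟩ := (CircleDeg1Lift.translationNumber_eq_int_iff _
      (CircleDeg1Lift.continuous_pow _ hc m)).mp h1
    refine hω m h0 x ((lift_iter (F := A * T ω 0 * C) (fun z => ?_) m x).trans (coe_eq.mpr ⟨p, hx⟩))
    simp only [ContinuousMap.comp_apply, b1, CircleDeg1Lift.mul_apply]
    exact a1 _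

end Pool.Agent.H62.RotNull
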