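import Pool.Agent.H62.SctDefs
import Pool.Agent.H37.NF
import Pool.Agent.H37.DC

/-! A criterion for strong computable type through roots of a circle valued map. -/

set_option autoImplicit false

namespace Pool.Agent.H62.Sct

open Pool.Agent.H37 Filter Topology

abbrev T := UnitAddCircle

theorem root_unique {q : ℕ} (hq : 0 < q) {δ : T} (h : q • δ = 0) (h' : ‖δ‖ < 1 / q) : δ = 0 := by
  obtain ⟨x, rfl⟩ := QuotientAddGroup.mk_surjective δ
  rw [← AddCircle.coe_nsmul, AddCircle.coe_eq_zero_iff] at h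
  obtain ⟨k, hk⟩ := h
  rw [UnitAddCircle.norm_eq] at h'
  have hq' : (0 : ℝ) < q := by exact_mod_cast hq
  simp only [zsmul_eq_mul, mul_one, nsmul_eq_mul] at hk
  have h1 : |((k - q * round x : ℤ) : ℝ)| < 1 := by
    push_cast
    rw [hk, ← mul_sub, abs_mul, abs_of_pos hq']
    rwa [lt_div_iff₀ hq', mul_comm] at h'
  have h2 : k - q * round x = 0 := by
    have : |k - q * round x| < 1 := by exact_mod_cast h1
    exact Int.abs_lt_one_iff.1 this
  have h3 : (q : ℝ) * x = q * round x := by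
    rw [← hk]; exact_mod_cast sub_eq_zero.1 h2
  rw [AddCircle.coe_eq_zero_iff]
  exact ⟨round x, by simpa using (mul_left_cancel₀ hq'.ne' h3).symm⟩

noncomputable def lf (a : ℝ) (y : T) : ℝ := AddCircle.equivIco 1 a y

theorem coe_lf (a : ℝ) (y : T) : ((lf a y : ℝ) : T) = y := (AddCircle.equivIco 1 a).symm_apply_apply y

theorem cont_lf {a : ℝ} {y : T} (h : y ≠ a) : ContinuousAt (lf a) y :=
  continuousAt_subtype_val.comp (AddCircle.continuousAt_equivIco 1 a h)

theorem abs_lf (y : T) : |lf (-1 / 2) y| = ‖y‖ := by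
  have h := (AddCircle.equivIco 1 (-1 / 2) y).2
  conv_rhs => rw [← coe_lf (-1 / 2) y]
  refine ((AddCircle.norm_coe_eq_abs_iff 1 one_ne_zero).2 ?_).symm
  rw [abs_le]
  simp only [abs_one, lf]
  constructor <;> linarith [h.1, h.2]

theorem norm_coe_le (x : ℝ) : ‖(x : T)‖ ≤ |x| := by
  rw [UnitAddCircle.norm_eq]; simpa using round_le x 0

theorem smul_div {q : ℕ} (hq : 0 < q) (x : ℝ) : q • ((x / q : ℝ) : T) = x := by
  rw [← AddCircle.coe_nsmul, nsmul_eq_mul, mul_div_cancel₀ _ (by positivity)]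

theorem glue {Z ι : Type} [TopologicalSpace Z] {g : Z → T} (hg : Continuous g) {q : ℕ} (hq : 0 < q)
    (V : ι → Set Z) (β : ι → T) (hV : ∀ j, IsOpen (V j)) (hc : ∀ z, ∃ j, z ∈ V j)
    (h1 : ∀ j, ∀ z ∈ V j, ‖g z - q • β j‖ < 1 / 8)
    (h2 : ∀ j k z, z ∈ V j → z ∈ V k → ‖β j - β k‖ ≤ 2 / (q * 8)) :
    ∃ r : Z → T, Continuous r ∧ ∀ z, q • r z = g z := by
  let R : ι → Z → T := fun j z => β j + (lf (-1 / 2) (g z - q • β j) / q : ℝ)
  have hq' : (0 : ℝ) < q := by exact_mod_cast hq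
  have r1 : ∀ j z, q • R j z = g z := fun j z => by
    simp only [R, smul_add, smul_div hq, coe_lf]; abel
  have r2 : ∀ j, ∀ z ∈ V j, ‖R j z - β j‖ < 1 / (q * 8) := fun j z hz => by
    simp only [R, add_sub_cancel_left]
    refine (norm_coe_le _).trans_lt ?_
    rw [abs_div, abs_lf, abs_of_pos hq', div_lt_div_iff₀ hq' (by positivity)]
    nlinarith [h1 j z hz]
  have r3 : ∀ j k z, z ∈ V j → z ∈ V k → R j z = R k z := fun j k z hj hk => by
    refine sub_eq_zero.1 (root_unique hq (by rw [smul_sub, r1, r1, sub_self]) ?_)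
    have e : R j z - R k z = (R j z - β j) + (β j - β k) - (R k z - β k) := by abel
    have := r2 j z hj
    have := r2 k z hk
    have := h2 j k z hj hk
    have e2 : (1 : ℝ) / q = 8 * (1 / (q * 8)) := by field_simp
    have e3 : (2 : ℝ) / (q * 8) = 2 * (1 / (q * 8)) := by ring
    have : (0 : ℝ) < 1 / (q * 8) := by positivity
    rw [e]
    linarith [norm_sub_le ((R j z - β j) + (β j - β k)) (R k z - β k),
      norm_add_le (R j z - β j) (β j - β k)]
  choose J hJ using hc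
  refine ⟨fun z => R (J z) z, continuous_iff_continuousAt.2 fun z => ?_, fun z => r1 _ z⟩
  have : ContinuousAt (R (J z)) z := by
    refine continuousAt_const.add ((AddCircle.continuous_mk' 1).continuousAt.comp
      (ContinuousAt.div_const ?_ _))
    refine ContinuousAt.comp (f := fun w => g w - q • β (J z)) (cont_lf fun h => ?_)
      (hg.sub continuous_const).continuousAt
    have := h1 _ z (hJ z)
    rw [h, (AddCircle.norm_coe_eq_abs_iff 1 one_ne_zero).2 (by norm_num [abs_div])] at this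
    norm_num [abs_div] at this
  refine this.congr ?_
  filter_upwards [(hV _).mem_nhds (hJ z)] with w hw
  exact r3 _ _ w hw (hJ w)

def near (n : ℕ) (x y : Q) : Prop := ∀ i < n + 1, |(x i : ℝ) - y i| * (n + 1) ≤ 3

theorem near.mono {n m : ℕ} {x y : Q} (h : near m x y) (hn : n ≤ m) : near n x y := fun i hi =>
  le_trans (mul_le_mul_of_nonneg_left (by exact_mod_cast Nat.succ_le_succ hn) (abs_nonneg _))
    (h i (by omega))

theorem uc {Z : Type} [TopologicalSpace Z] [CompactSpace Z] {e : Z → Q} (he : Continuous e)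
    (hi : Function.Injective e) {r : Z → T} (hr : Continuous r) {ε : ℝ} (hε : 0 < ε) :
    ∃ n, ∀ y y', near n (e y) (e y') → ‖r y - r y'‖ < ε := by
  by_contra hn
  push Not at hn
  have hc : ∀ n, IsClosed {p : Z × Z | near n (e p.1) (e p.2) ∧ ε ≤ ‖r p.1 - r p.2‖} := fun n => by
    refine IsClosed.and ?_ (isClosed_le continuous_const (by fun_prop))
    have : {p : Z × Z | near n (e p.1) (e p.2)} =
        ⋂ i ∈ {i | i < n + 1}, {p : Z × Z | |(e p.1 i : ℝ) - e p.2 i| * (n + 1) ≤ 3} := by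
      ext p; simp [near]
    exact this ▸ isClosed_biInter fun i _ => isClosed_le (by fun_prop) continuous_const
  obtain ⟨p, hp⟩ := IsCompact.nonempty_iInter_of_sequence_nonempty_isCompact_isClosed
    (fun n => {p : Z × Z | near n (e p.1) (e p.2) ∧ ε ≤ ‖r p.1 - r p.2‖})
    (fun n p hp => ⟨hp.1.mono (Nat.le_succ n), hp.2⟩)
    (fun n => by obtain ⟨y, y', h⟩ := hn n; exact ⟨(y, y'), h⟩) (hc 0).isCompact hc
  simp only [Set.mem_iInter, Set.mem_ofPred_eq] at hp
  have : p.1 = p.2 := hi (funext fun i => Subtype.ext (by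
    by_contra hne
    have h0 : 0 < |(e p.1 i : ℝ) - e p.2 i| := abs_pos.2 (sub_ne_zero.2 hne)
    obtain ⟨n, hn⟩ := exists_nat_gt (3 / |(e p.1 i : ℝ) - e p.2 i|)
    have := (hp (n + i)).1 i (by omega)
    rw [div_lt_iff₀ h0] at hn
    push_cast at this
    nlinarith [(Nat.cast_nonneg i : (0 : ℝ) ≤ i)]))
  have h2 := (hp 0).2
  rw [this, sub_self, norm_zero] at h2
  linarith

noncomputable def rd (n : ℕ) (x : Q) : List ℕ :=
  (List.range (n + 1)).map fun i => ⌊(x i : ℝ) * (n + 1) + 1 / 2⌋₊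

theorem rd_spec {n i : ℕ} (x : Q) (hi : i < n + 1) :
    |(x i : ℝ) * (n + 1) - (rd n x).getD i 0| ≤ 1 / 2 := by
  have : (rd n x).getD i 0 = ⌊(x i : ℝ) * (n + 1) + 1 / 2⌋₊ := by
    simp [rd, List.getD_eq_getElem?_getD, hi]
  rw [this, abs_le]
  have h0 : 0 ≤ (x i : ℝ) * (n + 1) + 1 / 2 := by have := (x i).2.1; positivity
  constructor
  · linarith [Nat.floor_le h0]
  · linarith [Nat.lt_floor_add_one ((x i : ℝ) * (n + 1) + 1 / 2)]

theorem fin_rd {Z : Type} (e : Z → Q) (n : ℕ) {P : Z → ℕ → Prop} (h : ∀ z, ∃ b, P z b) :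
    ∃ L : List (List ℕ × ℕ), (∀ m ∈ L, ∃ z, rd n (e z) = m.1 ∧ P z m.2) ∧
      ∀ z, ∃ b, (rd n (e z), b) ∈ L := by
  have hf : (Set.range fun z => rd n (e z)).Finite := by
    refine (allLists (List.range (n + 2)) (n + 1)).finite_toSet.subset ?_
    rintro _ ⟨z, rfl⟩
    refine mem_allLists.2 ⟨by simp [rd], fun a ha => ?_⟩
    obtain ⟨i, -, rfl⟩ := List.mem_map.1 ha
    rw [List.mem_range, Nat.floor_lt (by have := (e z i).2.1; positivity)]
    have := (e z i).2.2
    push_cast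
    nlinarith [(Nat.cast_nonneg n : (0 : ℝ) ≤ n)]
  choose b hb using h
  choose! w hw using fun v (hv : v ∈ Set.range fun z => rd n (e z)) =>
    (show ∃ m : List ℕ × ℕ, m.1 = v ∧ ∃ z, rd n (e z) = m.1 ∧ P z m.2 by
      obtain ⟨z, rfl⟩ := hv
      exact ⟨(_, b z), rfl, z, rfl, hb z⟩)
  refine ⟨hf.toFinset.toList.map w, fun m hm => ?_, fun z => ⟨(w (rd n (e z))).2, ?_⟩⟩
  · obtain ⟨v, hv, rfl⟩ := List.mem_map.1 hm
    exact (hw v (by simpa using hv)).2
  · exact List.mem_map.2 ⟨rd n (e z), by simp, Prod.ext (hw _ ⟨z, rfl⟩).1 rfl⟩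

def bc (n : ℕ) (v : List ℕ) : BC :=
  (List.range (n + 1)).map fun i => (i, (v.getD i 0, 1, n), (v.getD i 0 + 1, 0, n))

theorem mem_bc {n : ℕ} {v : List ℕ} {x : Q} :
    x ∈ basic (bc n v) ↔ ∀ i < n + 1, |(x i : ℝ) * (n + 1) - v.getD i 0| < 1 := by
  have h : (0 : ℝ) < n + 1 := by positivity
  simp only [basic, bc, Set.mem_ofPred_eq, List.forall_mem_map, List.mem_range, rat,
    div_lt_iff₀ h, lt_div_iff₀ h, abs_lt]
  push_cast
  refine forall₂_congr fun i _ => ?_
  constructor <;> rintro ⟨h1, h2⟩ <;> constructor <;> linarith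

theorem isOpen_basic (l : BC) : IsOpen (basic l) := by
  have : basic l = ⋂ e ∈ {e | e ∈ l}, {x : Q | rat e.2.1 < x e.1 ∧ (x e.1 : ℝ) < rat e.2.2} := by
    ext x; simp [basic]
  rw [this]
  exact l.finite_toSet.isOpen_biInter fun e _ =>
    IsOpen.and (isOpen_lt continuous_const (by fun_prop)) (isOpen_lt (by fun_prop) continuous_const)

theorem close_iff {m b c : ℕ} (hm : 0 < m) :
    ((∃ d < 5, (b + d) % m = (c + 2) % m) → ‖((b / m : ℝ) : T) - (c / m : ℝ)‖ ≤ 2 / m) ∧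
    (‖((b / m : ℝ) : T) - (c / m : ℝ)‖ < 3 / m → ∃ d < 5, (b + d) % m = (c + 2) % m) := by
  have hm' : (0 : ℝ) < m := by exact_mod_cast hm
  rw [← AddCircle.coe_sub]
  constructor
  · rintro ⟨d, hd, h⟩
    obtain ⟨k, hk⟩ := (Nat.modEq_iff_dvd.1 h)
    have hk' : ((c : ℝ) + 2) - (b + d) = m * k := by exact_mod_cast hk
    have : ((b / m - c / m : ℝ) : T) = ((2 - d) / m : ℝ) := by
      rw [← sub_eq_zero, ← AddCircle.coe_sub, AddCircle.coe_eq_zero_iff]
      refine ⟨-k, ?_⟩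
      simp only [zsmul_eq_mul, mul_one]
      push_cast
      field_simp
      linarith
    rw [this]
    refine (norm_coe_le _).trans ?_
    rw [abs_div, abs_of_pos hm']
    refine div_le_div_of_nonneg_right (abs_le.2 ⟨?_, ?_⟩) hm'.le
    · have : (d : ℝ) ≤ 4 := by exact_mod_cast Nat.lt_succ_iff.1 hd
      linarith
    · linarith [(Nat.cast_nonneg d : (0 : ℝ) ≤ d)]
  · intro h
    rw [UnitAddCircle.norm_eq] at h
    generalize round ((b : ℝ) / m - c / m) = k at h
    have h1 : |((b - c - m * k : ℤ) : ℝ)| < 3 := by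
      have : ((b - c - m * k : ℤ) : ℝ) = ((b : ℝ) / m - c / m - k) * m := by
        push_cast; field_simp
      rw [this, abs_mul, abs_of_pos hm']
      rwa [lt_div_iff₀ hm'] at h
    have h2 : |(b - c - m * k : ℤ)| < 3 := by exact_mod_cast h1
    rw [abs_lt] at h2
    refine ⟨(2 - (b - c - m * k : ℤ)).toNat, by omega, Nat.modEq_iff_dvd.2 ⟨-k, ?_⟩⟩
    push_cast
    rw [Int.toNat_of_nonneg (by omega)]
    ring

theorem exists_label {q a : ℕ} (hq : 0 < q) {ρ g : T} (h : q • ρ = g)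
    (ha : ‖g - (a / 8 : ℝ)‖ < 1 / 8) :
    ∃ b : ℕ, b % 8 = a % 8 ∧ ‖ρ - (b / (q * 8 : ℕ) : ℝ)‖ < 1 / (q * 8 : ℕ) := by
  have hq' : (0 : ℝ) < q := by exact_mod_cast hq
  let θ := lf (-1 / 2) (g - (a / 8 : ℝ))
  have h1 : q • (ρ - ((a / 8 / q : ℝ) : T) - (θ / q : ℝ)) = 0 := by
    rw [smul_sub, smul_sub, h, smul_div hq, smul_div hq, coe_lf, sub_self]
  obtain ⟨j, -, hj⟩ := (AddCircle.nsmul_eq_zero_iff (p := (1 : ℝ)) hq).1 h1
  refine ⟨a + 8 * j, by omega, ?_⟩
  have : ρ - ((((a + 8 * j : ℕ) : ℝ) / (q * 8 : ℕ) : ℝ) : T) = (θ / q : ℝ) := by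
    have e : (((a + 8 * j : ℕ) : ℝ) / (q * 8 : ℕ) : ℝ) = a / 8 / q + j / q * 1 := by
      push_cast; field_simp
    rw [e, AddCircle.coe_add, hj]; abel
  rw [this]
  refine (norm_coe_le _).trans_lt ?_
  rw [abs_div, abs_lf, abs_of_pos hq']
  push_cast
  rw [div_lt_div_iff₀ hq' (by positivity)]
  nlinarith

theorem exists_lab (g : T) : ∃ a : ℕ, ‖g - (a / 8 : ℝ)‖ ≤ 1 / 16 := by
  have h := (AddCircle.equivIco 1 0 g).2.1
  refine ⟨⌊lf 0 g * 8 + 1 / 2⌋₊, ?_⟩
  conv_lhs => rw [← coe_lf 0 g, coe_lf 0 g]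
  nth_rewrite 1 [← coe_lf 0 g]
  rw [← AddCircle.coe_sub]
  refine (norm_coe_le _).trans (abs_le.2 ⟨?_, ?_⟩)
  · linarith [Nat.floor_le (show 0 ≤ lf 0 g * 8 + 1 / 2 by unfold lf; positivity)]
  · linarith [Nat.lt_floor_add_one (lf 0 g * 8 + 1 / 2)]

def chk (Adv : List (List ℕ × ℕ)) (n0 q n : ℕ) (L : List (List ℕ × ℕ)) : Bool :=
  decide (n0 ≤ n) &&
  (L.all fun m => Adv.any fun u => decide (m.2 % 8 = u.2 % 8) && (List.range (n0 + 1)).all fun i =>
    decide (m.1.getD i 0 * (n0 + 1) ≤ u.1.getD i 0 * (n + 1) + (n + 1)) &&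
    decide (u.1.getD i 0 * (n + 1) ≤ m.1.getD i 0 * (n0 + 1) + (n + 1))) &&
  (L.all fun m => L.all fun m' => !((List.range (n + 1)).all fun i =>
    decide (m.1.getD i 0 ≤ m'.1.getD i 0 + 1) && decide (m'.1.getD i 0 ≤ m.1.getD i 0 + 1)) ||
    (List.range 5).any fun d => decide ((m.2 + d) % (q * 8) = (m'.2 + 2) % (q * 8)))

theorem chk_iff {Adv : List (List ℕ × ℕ)} {n0 q n : ℕ} {L : List (List ℕ × ℕ)} :
    chk Adv n0 q n L = true ↔ n0 ≤ n ∧
    (∀ m ∈ L, ∃ u ∈ Adv, m.2 % 8 = u.2 % 8 ∧ ∀ i < n0 + 1,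
      m.1.getD i 0 * (n0 + 1) ≤ u.1.getD i 0 * (n + 1) + (n + 1) ∧
      u.1.getD i 0 * (n + 1) ≤ m.1.getD i 0 * (n0 + 1) + (n + 1)) ∧
    ∀ m ∈ L, ∀ m' ∈ L, (∀ i < n + 1, m.1.getD i 0 ≤ m'.1.getD i 0 + 1 ∧
      m'.1.getD i 0 ≤ m.1.getD i 0 + 1) → ∃ d < 5, (m.2 + d) % (q * 8) = (m'.2 + 2) % (q * 8) := by
  simp only [chk, Bool.and_eq_true, decide_eq_true_eq, List.all_eq_true, List.any_eq_true,
    List.mem_range, Bool.or_eq_true, Bool.not_eq_true', ← Bool.not_eq_true, and_assoc,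
    ← imp_iff_not_or]

theorem sct_of {X : Type} [TopologicalSpace X] [CompactSpace X] {g : X → T} (hg : Continuous g)
    {p : ℕ → ℕ} (hp : CI ∅ p) (hp0 : ∀ n, 0 < p n)
    (h1 : ∀ B : Set X, IsOpen B → B.Nonempty →
      ∃ n, ∃ r : X → T, ContinuousOn r Bᶜ ∧ ∀ x ∈ Bᶜ, p n • r x = g x)
    (h2 : ∀ n (r : X → T), Continuous r → ¬∀ x, p n • r x = g x) : SCT X := by
  rintro O Y ⟨h⟩ hS
  refine ⟨hS, ?_⟩
  have : CompactSpace Y := h.symm.compactSpace
  let G : Y → T := fun y => g (h y)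
  have hG : Continuous G := hg.comp h.continuous
  obtain ⟨n0, hn0⟩ := uc continuous_subtype_val Subtype.val_injective hG (ε := 1 / 16) (by norm_num)
  obtain ⟨Adv, a1, a2⟩ := fin_rd (Subtype.val : Y → Q) n0 fun y => exists_lab (G y)
  have a3 : ∀ u ∈ Adv, ∀ y : Y, (∀ i < n0 + 1, |(y.1 i : ℝ) * (n0 + 1) - u.1.getD i 0| ≤ 2) →
      ‖G y - (u.2 / 8 : ℝ)‖ < 1 / 8 := by
    intro u hu y hy
    obtain ⟨z, z1, z2⟩ := a1 u hu
    have := hn0 y z fun i hi => by
      have e1 := hy i hi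
      have e2 := rd_spec z.1 hi
      rw [z1] at e2
      rw [← abs_of_pos (show (0 : ℝ) < n0 + 1 by positivity), ← abs_mul, sub_mul]
      rw [abs_le] at *
      constructor <;> linarith [e1.1, e1.2, e2.1, e2.2]
    linarith [norm_sub_le_norm_sub_add_norm_sub (G y) (G z) (u.2 / 8 : ℝ)]
  obtain ⟨f, f1, f2⟩ := hS
  obtain ⟨e, rfl⟩ := exists_app (x := chi O) f1
  have hx := CI.self (chi O)
  have hp' : CI (orc (chi O)) p := hp.of_empty
  let D : BC → ℕ × ℕ × ℕ × List (List ℕ × ℕ) → Bool := fun l c =>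
    chk Adv n0 (p c.2.1) c.2.2.1 c.2.2.2 && (U e (pre (chi O) c.1)
      (Encodable.encode (l :: c.2.2.2.map fun m => bc c.2.2.1 m.1))).isSome
  have hD : CI (orc (chi O)) fun z : BC × ℕ × ℕ × ℕ × List (List ℕ × ℕ) => D z.1 z.2 := by
    simp only [D, chk, bc, pre]; fun_prop
  have key : ∀ l, (Y ∩ basic l).Nonempty ↔ ∃ c, D l c = true := by
    intro l
    constructor
    · rintro ⟨y0, hy0, hy0'⟩
      have hB : IsOpen (h.symm ⁻¹' (Subtype.val ⁻¹' basic l)) :=
        ((isOpen_basic l).preimage continuous_subtype_val).preimage h.symm.continuous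
      obtain ⟨k, r, r1, r2⟩ := h1 _ hB ⟨h ⟨y0, hy0⟩, by simpa using hy0'⟩
      let Z := {y : Y // y.1 ∉ basic l}
      have : CompactSpace Z := isCompact_iff_compactSpace.1
        ((isOpen_basic l).preimage continuous_subtype_val).isClosed_compl.isCompact
      have hZ : ∀ z : Z, h z.1 ∈ (h.symm ⁻¹' (Subtype.val ⁻¹' basic l))ᶜ := fun z => by
        simpa using z.2
      have hr : Continuous fun z : Z => r (h z.1) :=
        r1.comp_continuous (h.continuous.comp continuous_subtype_val) hZ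
      have hm : 0 < p k * 8 := by have := hp0 k; omega
      have hm' : (0 : ℝ) < (p k * 8 : ℕ) := by exact_mod_cast hm
      obtain ⟨n1, hn1⟩ := uc (e := fun z : Z => z.1.1)
        (continuous_subtype_val.comp continuous_subtype_val)
        (Subtype.val_injective.comp Subtype.val_injective) hr (ε := 1 / (p k * 8 : ℕ))
        (by positivity)
      obtain ⟨L, l1, l2⟩ := fin_rd (fun z : Z => z.1.1) (n0 + n1)
        (P := fun z b => (∃ a, (rd n0 z.1.1, a) ∈ Adv ∧ b % 8 = a % 8) ∧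
          ‖r (h z.1) - (b / (p k * 8 : ℕ) : ℝ)‖ < 1 / (p k * 8 : ℕ)) fun z => by
        obtain ⟨a, ha⟩ := a2 z.1
        obtain ⟨b, b1, b2⟩ := exists_label (hp0 k) (r2 _ (hZ z)) (a3 _ ha z.1 fun i hi =>
          (rd_spec z.1.1 hi).trans (by norm_num))
        exact ⟨b, ⟨a, ha, b1⟩, b2⟩
      obtain ⟨s, hs⟩ := dom_app.1 ((f2 (l :: L.map fun m => bc (n0 + n1) m.1)).1 fun y hy => by
        simp only [Set.mem_iUnion, List.mem_cons, exists_prop, exists_eq_or_imp]
        by_cases hb : y ∈ basic l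
        · exact Or.inl hb
        · obtain ⟨b, hb'⟩ := l2 ⟨⟨y, hy⟩, hb⟩
          exact Or.inr ⟨_, List.mem_map_of_mem hb', mem_bc.2 fun i hi =>
            (rd_spec y hi).trans_lt (by norm_num)⟩)
      refine ⟨(s, k, n0 + n1, L), ?_⟩
      simp only [D, Bool.and_eq_true]
      refine ⟨chk_iff.2 ⟨by omega, fun m hm => ?_, fun m hm m' hm' hadj => ?_⟩, hs⟩
      · obtain ⟨z, z1, ⟨a, ha, z2⟩, -⟩ := l1 m hm
        refine ⟨_, ha, z2, fun i hi => ?_⟩
        have e1 := rd_spec z.1.1 hi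
        have e2 := rd_spec (n := n0 + n1) z.1.1 (show i < n0 + n1 + 1 by omega)
        rw [z1] at e2
        rw [abs_le] at e1 e2
        push_cast at e2
        have : (0 : ℝ) ≤ n0 := Nat.cast_nonneg _
        have : (0 : ℝ) ≤ n1 := Nat.cast_nonneg _
        constructor <;> rw [← Nat.cast_le (α := ℝ)] <;> push_cast <;>
          nlinarith [e1.1, e1.2, e2.1, e2.2]
      · obtain ⟨z, z1, -, z2⟩ := l1 m hm
        obtain ⟨w, w1, -, w2⟩ := l1 m' hm'
        refine (close_iff ‹0 < p k * 8›).2 ?_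
        have := hn1 z w (near.mono (m := n0 + n1) (fun i hi => by
          have e1 := rd_spec z.1.1 hi
          have e2 := rd_spec w.1.1 hi
          rw [z1] at e1
          rw [w1] at e2
          have e3 : (m.1.getD i 0 : ℝ) ≤ m'.1.getD i 0 + 1 := by exact_mod_cast (hadj i hi).1
          have e4 : (m'.1.getD i 0 : ℝ) ≤ m.1.getD i 0 + 1 := by exact_mod_cast (hadj i hi).2
          rw [← abs_of_pos (show (0 : ℝ) < (n0 + n1 : ℕ) + 1 by positivity), ← abs_mul, sub_mul]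
          rw [abs_le] at *
          constructor <;> linarith [e1.1, e1.2, e2.1, e2.2]) (by omega))
        rw [norm_sub_rev] at z2
        have e3 : (3 : ℝ) / (p k * 8 : ℕ) = 3 * (1 / (p k * 8 : ℕ)) := by ring
        linarith [norm_sub_le_norm_sub_add_norm_sub ((m.2 / (p k * 8 : ℕ) : ℝ) : T) (r (h z.1))
          (m'.2 / (p k * 8 : ℕ) : ℝ), norm_sub_le_norm_sub_add_norm_sub (r (h z.1)) (r (h w.1))
          (m'.2 / (p k * 8 : ℕ) : ℝ)]
    · rintro ⟨⟨s, k, n, L⟩, hc⟩
      simp only [D, Bool.and_eq_true] at hc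
      obtain ⟨c0, c1, c2⟩ := chk_iff.1 hc.1
      have hcov := (f2 _).2 (dom_app.2 ⟨s, hc.2⟩)
      by_contra hn
      have hm : 0 < p k * 8 := by have := hp0 k; omega
      obtain ⟨r, r1, r2⟩ := glue hG (hp0 k)
        (fun m : {m // m ∈ L} => Subtype.val ⁻¹' basic (bc n m.1.1))
        (fun m => (m.1.2 / (p k * 8 : ℕ) : ℝ))
        (fun m => (isOpen_basic _).preimage continuous_subtype_val)
        (fun y => by
          have := hcov y.2
          simp only [Set.mem_iUnion, List.mem_cons, exists_prop, exists_eq_or_imp] at this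
          rcases this with hb | ⟨_, hb, hb'⟩
          · exact absurd ⟨_, y.2, hb⟩ hn
          · obtain ⟨m, hm, rfl⟩ := List.mem_map.1 hb
            exact ⟨⟨m, hm⟩, hb'⟩)
        (fun m y hy => by
          obtain ⟨u, hu, u1, u2⟩ := c1 m.1 m.2
          have e : p k • ((m.1.2 / (p k * 8 : ℕ) : ℝ) : T) = (u.2 / 8 : ℝ) := by
            rw [show (m.1.2 / (p k * 8 : ℕ) : ℝ) = m.1.2 / 8 / p k by
              push_cast; rw [div_div, mul_comm], smul_div (hp0 k), ← sub_eq_zero,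
              ← AddCircle.coe_sub, AddCircle.coe_eq_zero_iff]
            obtain ⟨j, hj⟩ := Nat.modEq_iff_dvd.1 u1.symm
            have hj' : (m.1.2 : ℝ) - u.2 = 8 * j := by exact_mod_cast hj
            exact ⟨j, by simp only [zsmul_eq_mul, mul_one]; linarith⟩
          rw [e]
          refine a3 u hu y fun i hi => ?_
          have e1 := mem_bc.1 hy i (by omega)
          have e2 : (m.1.1.getD i 0 : ℝ) * (n0 + 1) ≤ u.1.getD i 0 * (n + 1) + (n + 1) := by
            exact_mod_cast (u2 i hi).1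
          have e3 : (u.1.getD i 0 : ℝ) * (n + 1) ≤ m.1.1.getD i 0 * (n0 + 1) + (n + 1) := by
            exact_mod_cast (u2 i hi).2
          have e4 : (n0 : ℝ) ≤ n := by exact_mod_cast c0
          have : (0 : ℝ) ≤ n0 := Nat.cast_nonneg _
          rw [abs_lt] at e1
          rw [abs_le]
          constructor <;> refine le_of_mul_le_mul_right ?_ (show (0 : ℝ) < n + 1 by positivity) <;>
            nlinarith [e1.1, e1.2])
        (fun m m' y hy hy' => by
          have := (close_iff hm).1 (c2 m.1 m.2 m'.1 m'.2 fun i hi => by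
            have e1 := mem_bc.1 hy i hi
            have e2 := mem_bc.1 hy' i hi
            rw [abs_lt] at e1 e2
            constructor <;> rw [← Nat.lt_succ_iff, ← Nat.cast_lt (α := ℝ)] <;> push_cast <;>
              linarith [e1.1, e1.2, e2.1, e2.2])
          push_cast at this ⊢
          exact this)
      exact h2 k (fun x => r (h.symm x)) (r1.comp h.symm.continuous) fun x => by
        rw [r2]; simp [G]
  let F : ℕ → ℕ → Bool := fun a s => ((Encodable.decode (α := BC) a).bind fun l =>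
    (Encodable.decode (α := ℕ × ℕ × ℕ × List (List ℕ × ℕ)) s).map (D l)).getD false
  have hF : CI (orc (chi O)) fun z : ℕ × ℕ => F z.1 z.2 := by
    clear_value D
    simp only [F]; fun_prop
  refine ⟨fun a => Nat.rfind fun s => Part.some (F a s),
    RI.rfind (p := fun a s => Part.some (F a s)) hF.ri, fun l => ?_⟩
  refine (key l).trans (Iff.trans ?_ Nat.rfind_dom.symm)
  simp only [F, Encodable.encodek, Option.bind_some, Part.mem_some_iff, Part.some_dom, implies_true,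
    and_true]
  constructor
  · rintro ⟨c, hc⟩
    exact ⟨Encodable.encode c, by rw [Encodable.encodek]; exact hc.symm⟩
  · rintro ⟨s, hs⟩
    cases hd : Encodable.decode (α := ℕ × ℕ × ℕ × List (List ℕ × ℕ)) s with
    | none => rw [hd] at hs; exact absurd hs (by simp)
    | some c => rw [hd] at hs; exact ⟨c, hs.symm⟩

end Pool.Agent.H62.Sct
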