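import Pool.Agent.H62.Sct1

/-! Solenoids that miss one bonding factor, converging to the full solenoid. -/

set_option autoImplicit false

namespace Pool.Agent.H62.Sct

open Pool.Agent.H37 Filter Topology

theorem cont_ns : Continuous fun z : ℕ × T => z.1 • z.2 :=
  continuous_prod_of_discrete_left.2 fun n => continuous_nsmul n

def pf (n : ℕ) : ℕ := Nat.fermatNumber n

theorem pf_gt (n : ℕ) : 1 < pf n := lt_trans (by norm_num) (Nat.two_lt_fermatNumber n)

def cf (t : ℕ → Bool) (k : ℕ) : ℕ := cond (t k) 1 (pf k)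

def EE (t : ℕ → Bool) (k : ℕ) : ℕ := ∏ i ∈ Finset.range k, cf t i

theorem cf_pos (t : ℕ → Bool) (k : ℕ) : 0 < cf t k := by
  unfold cf; cases t k
  · exact (pf_gt k).le
  · exact one_pos

theorem EE_pos (t : ℕ → Bool) (k : ℕ) : 0 < EE t k := Finset.prod_pos fun i _ => cf_pos t i

theorem EE_succ (t : ℕ → Bool) (k : ℕ) : EE t (k + 1) = EE t k * cf t k := Finset.prod_range_succ _ _

theorem cont_cf (k : ℕ) : Continuous fun t => cf t k :=
  (continuous_of_discreteTopology (f := fun b : Bool => cond b 1 (pf k))).comp (continuous_apply k)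

theorem cont_EE (k : ℕ) : Continuous fun t => EE t k :=
  continuous_finsetProd _ fun i _ => cont_cf i

def XS : Set ((ℕ → Bool) × (ℕ → T)) :=
  {z | (∀ i j, z.1 i = true → z.1 j = true → i = j) ∧ ∀ k, z.2 k = cf z.1 k • z.2 (k + 1)}

theorem isClosed_XS : IsClosed XS := by
  refine IsClosed.and ?_ ?_
  · simp only [Set.ofPred_forall]
    refine isClosed_iInter fun i => isClosed_iInter fun j => ?_
    have h2 : IsClosed ((fun z : (ℕ → Bool) × (ℕ → T) => (z.1 i, z.1 j)) ⁻¹'
        {b | b.1 = true → b.2 = true → i = j}) := (isClosed_discrete _).preimage (by fun_prop)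
    exact h2
  · simp only [Set.ofPred_forall]
    exact isClosed_iInter fun k => isClosed_eq (by fun_prop)
      (cont_ns.comp (f := fun z : (ℕ → Bool) × (ℕ → T) => (cf z.1 k, z.2 (k + 1)))
        (((cont_cf k).comp continuous_fst).prodMk (by fun_prop)))

instance : CompactSpace XS := isCompact_iff_compactSpace.1 isClosed_XS.isCompact

theorem coord0 (z : XS) (k : ℕ) : z.1.2 0 = EE z.1.1 k • z.1.2 k := by
  induction k with
  | zero => simp [EE]
  | succ k ih => rw [ih, EE_succ, mul_smul, ← z.2.2 k]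

theorem coord_eq {z w : XS} (h : z.1.1 = w.1.1) {k : ℕ} (hk : z.1.2 k = w.1.2 k) :
    ∀ i ≤ k, z.1.2 i = w.1.2 i := by
  intro i hi
  induction hi using Nat.decreasingInduction with
  | self => exact hk
  | of_succ i _ ih => rw [z.2.2 i, w.2.2 i, h, ih]

def dl (n : ℕ) : ℕ → Bool := fun k => decide (k = n)

theorem eq_dl {z : XS} {n : ℕ} (h : z.1.1 n = true) : z.1.1 = dl n := funext fun k => by
  by_cases hk : k = n
  · simp [dl, hk, h]
  · simp only [dl, hk, decide_false]
    exact Bool.eq_false_iff.2 fun h' => hk (z.2.1 k n h' h)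

theorem dense_dl {B : Set XS} (hB : IsOpen B) (hn : B.Nonempty) : ∃ n, ∃ a ∈ B, a.1.1 n = true := by
  obtain ⟨z, hz⟩ := hn
  by_cases h : ∃ n, z.1.1 n = true
  · exact h.imp fun n hn => ⟨z, hz, hn⟩
  have h0 : ∀ n, z.1.1 n = false := fun n => Bool.eq_false_iff.2 fun h' => h ⟨n, h'⟩
  have h1 : ∀ k, z.1.2 k = pf k • z.1.2 (k + 1) := fun k => by rw [z.2.2 k, cf, h0]; rfl
  let u : ℕ → XS := fun n => ⟨(dl n, fun k => if k ≤ n then z.1.2 k else pf n • z.1.2 k),
    fun i j hi hj => by simp only [dl, decide_eq_true_eq] at hi hj; rw [hi, hj], fun k => by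
      simp only [cf, dl]
      rcases lt_trichotomy k n with g | rfl | g
      · simp [g.le, g.ne, Nat.succ_le_of_lt g, ← h1]
      · simp [← h1]
      · rw [if_neg (by omega), if_neg (by omega), decide_eq_false g.ne', cond_false, smul_comm, ← h1]⟩
  have : Tendsto u atTop (𝓝 z) := by
    rw [tendsto_subtype_rng, Prod.tendsto_iff, tendsto_pi_nhds, tendsto_pi_nhds]
    refine ⟨fun k => tendsto_const_nhds.congr' ?_, fun k => tendsto_const_nhds.congr' ?_⟩
    · filter_upwards [eventually_gt_atTop k] with n hn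
      simp [u, dl, h0, hn.ne]
    · filter_upwards [eventually_ge_atTop k] with n hn
      simp [u, hn]
  obtain ⟨n, hn⟩ := (this.eventually (hB.mem_nhds hz)).exists
  exact ⟨n, u n, hn, by simp [u, dl]⟩

theorem has_root (B : Set XS) (hB : IsOpen B) (hn : B.Nonempty) :
    ∃ n, ∃ r : XS → T, ContinuousOn r Bᶜ ∧ ∀ x ∈ Bᶜ, pf n • r x = x.1.2 0 := by
  obtain ⟨n, a, ha, han⟩ := dense_dl hB hn
  obtain ⟨U, hU, rfl⟩ := isOpen_induced_iff.1 hB
  obtain ⟨I, u, hu, hu'⟩ := isOpen_pi_iff.1 (hU.preimage (f := fun x => (a.1.1, x)) (by fun_prop))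
    a.1.2 ha
  obtain ⟨α, hα⟩ := QuotientAddGroup.mk_surjective (a.1.2 (I.sup id))
  have h1 : ∀ z : XS, z.1.1 n = true → z ∈ (Subtype.val ⁻¹' U)ᶜ → z.1.2 (I.sup id) ≠ α := by
    intro z hz hz' h
    have e : z.1.1 = a.1.1 := (eq_dl hz).trans (eq_dl han).symm
    have := hu' (a := z.1.2) fun i hi => by
      rw [coord_eq e (h.trans hα) i (Finset.le_sup (f := id) hi)]
      exact (hu i hi).2
    rw [← e] at this
    exact hz' this
  refine ⟨n, fun z => if z.1.1 n = true then
    EE z.1.1 (I.sup id) • (lf α (z.1.2 (I.sup id)) / pf n : ℝ) else EE z.1.1 n • z.1.2 (n + 1),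
    fun z hz => ContinuousAt.continuousWithinAt ?_, fun z _ => ?_⟩
  · have hc : Continuous fun w : XS => w.1.1 n := by fun_prop
    have he : ∀ᶠ w in 𝓝 z, w.1.1 n = z.1.1 n :=
      hc.continuousAt.eventually (p := fun b => b = z.1.1 n) (by simp [nhds_discrete])
    have hE : ∀ k, Continuous fun w : XS => EE w.1.1 k := fun k => (cont_EE k).comp (by fun_prop)
    by_cases h : z.1.1 n = true
    · have : ContinuousAt (fun w : XS =>
          EE w.1.1 (I.sup id) • ((lf α (w.1.2 (I.sup id)) / pf n : ℝ) : T)) z :=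
        cont_ns.continuousAt.comp (f := fun w : XS =>
          (EE w.1.1 (I.sup id), ((lf α (w.1.2 (I.sup id)) / pf n : ℝ) : T)))
          ((hE _).continuousAt.prodMk ((AddCircle.continuous_mk' 1).continuousAt.comp
          (ContinuousAt.div_const (ContinuousAt.comp (f := fun w : XS => w.1.2 (I.sup id))
            (cont_lf (h1 z h hz)) (by fun_prop)) _)))
      exact this.congr (he.mono fun w hw => by simp only [hw, h, if_true])
    · have : ContinuousAt (fun w : XS => EE w.1.1 n • w.1.2 (n + 1)) z :=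
        (cont_ns.comp (f := fun w : XS => (EE w.1.1 n, w.1.2 (n + 1)))
          ((hE _).prodMk (by fun_prop))).continuousAt
      exact this.congr (he.mono fun w hw => by simp only [hw, h]; rfl)
  · beta_reduce
    split_ifs with h
    · rw [smul_comm, smul_div (pf_gt n).le, coe_lf, ← coord0]
    · rw [coord0 z (n + 1), EE_succ, smul_smul, cf, Bool.eq_false_iff.2 h, cond_false, mul_comm]

noncomputable def ray (n : ℕ) (s : ℝ) : XS := ⟨(dl n, fun k => (s / EE (dl n) k : ℝ)),
  fun i j hi hj => by simp only [dl, decide_eq_true_eq] at hi hj; rw [hi, hj], fun k => by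
    dsimp only
    rw [EE_succ, ← smul_div (cf_pos (dl n) k), div_div, Nat.cast_mul]⟩

theorem no_root (n : ℕ) (r : XS → T) (hr : Continuous r) : ¬∀ x, pf n • r x = x.1.2 0 := by
  intro h
  have hq : 0 < pf n := (pf_gt n).le
  have hc : Continuous (ray n) := by
    refine Continuous.subtype_mk (continuous_const.prodMk (continuous_pi fun k => ?_)) _
    exact (AddCircle.continuous_mk' 1).comp (by fun_prop)
  have h1 : ∀ s, r (ray n s) - (s / pf n : ℝ) = r (ray n 0) - (0 / pf n : ℝ) := fun s =>
    isPreconnected_univ.constant_of_mapsTo (AddCircle.finite_torsion (1 : ℝ) hq).isDiscrete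
      (f := fun s : ℝ => r (ray n s) - (s / pf n : ℝ))
      ((hr.comp hc).sub ((AddCircle.continuous_mk' 1).comp (by fun_prop))).continuousOn
      (fun s _ => by simp [smul_sub, h, smul_div hq, ray, EE]) trivial trivial
  have h2 : Tendsto (fun k => ray n (EE (dl n) k)) atTop (𝓝 (ray n 0)) := by
    rw [tendsto_subtype_rng, Prod.tendsto_iff, tendsto_pi_nhds (f := fun k => (ray n _).1.2)]
    refine ⟨tendsto_const_nhds, fun i => tendsto_const_nhds.congr' ?_⟩
    filter_upwards [eventually_ge_atTop i] with k hk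
    obtain ⟨c, hc⟩ : EE (dl n) i ∣ EE (dl n) k :=
      Finset.prod_dvd_prod_of_subset _ _ _ (Finset.range_mono hk)
    have := (EE_pos (dl n) i).ne'
    simp only [ray, zero_div, hc, Nat.cast_mul]
    rw [mul_div_cancel_left₀ _ (by exact_mod_cast this), eq_comm]
    exact (AddCircle.coe_eq_zero_iff _).2 ⟨c, by simp⟩
  have h3 := Metric.tendsto_nhds.1 ((hr.tendsto _).comp h2) (1 / pf n) (by positivity)
  obtain ⟨k, hk⟩ := h3.exists
  have h4 : r (ray n (EE (dl n) k)) - r (ray n 0) = (EE (dl n) k / pf n : ℝ) := by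
    have := h1 (EE (dl n) k)
    rw [zero_div, QuotientAddGroup.mk_zero, sub_zero] at this
    rw [← this]; abel
  rw [Function.comp_apply, dist_eq_norm, h4] at hk
  have h5 := root_unique hq (by
    rw [smul_div hq]; exact (AddCircle.coe_eq_zero_iff _).2 ⟨EE (dl n) k, by simp⟩) hk
  obtain ⟨m, hm⟩ := (AddCircle.coe_eq_zero_iff _).1 h5
  have h6 : pf n ∣ EE (dl n) k := by
    rw [← Int.natCast_dvd_natCast]
    refine ⟨m, ?_⟩
    rw [zsmul_eq_mul, mul_one, eq_div_iff (by positivity)] at hm
    exact_mod_cast (hm.symm.trans (mul_comm _ _))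
  have h7 : (pf n).Coprime (EE (dl n) k) := Nat.Coprime.prod_right fun i _ => by
    by_cases hi : i = n
    · simp [cf, dl, hi]
    · simp only [cf, dl, hi, decide_false, cond_false]
      exact Nat.coprime_fermatNumber_fermatNumber (Ne.symm hi)
  exact absurd (Nat.Coprime.eq_one_of_dvd h7 h6) (pf_gt n).ne'

theorem sct_XS : SCT XS :=
  sct_of (g := fun x : XS => x.1.2 0) (by fun_prop) (p := pf)
    (show CI ∅ fun n => 2 ^ 2 ^ n + 1 by fun_prop) (fun n => (pf_gt n).le) has_root no_root

theorem inf_comp : Infinite (ConnectedComponents XS) := by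
  refine Infinite.of_injective (fun n => ConnectedComponents.mk (ray n 0)) fun n m h => ?_
  have h1 : ray n 0 ∈ connectedComponent (ray m 0) := ConnectedComponents.coe_eq_coe'.1 h
  have := isPreconnected_connectedComponent.constant (f := fun z : XS => z.1.1 n)
    (Continuous.continuousOn (by fun_prop)) h1 mem_connectedComponent
  simpa [ray, dl] using this

end Pool.Agent.H62.Sct
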