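import Pool.Agent.H62.SctDefs

/-! Strong computable type through rational balls, and covering dimension. -/

set_option autoImplicit false

namespace Pool.Agent.H62.Sct

/-- the metric of the Hilbert cube -/
noncomputable def dQ (x y : Q) : ℝ := ∑' n, (1 / 2 : ℝ) ^ n * |(x n : ℝ) - y n|

/-- the rational point with `n`-th coordinate `min 1 (a / (c + 1))`, where `(a, c)` is the `n`-th
entry of the list, and `0` beyond the list -/
noncomputable def rpt (l : List (ℕ × ℕ)) : Q := fun n =>
  ⟨min 1 (((l.getD n (0, 0)).1 : ℝ) / (((l.getD n (0, 0)).2 : ℝ) + 1)),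
    le_min zero_le_one (by positivity), min_le_left _ _⟩

/-- codes of rational open balls: a centre and a radius `(a + 1) / (c + 1)` -/
abbrev BB : Type := List (ℕ × ℕ) × ℕ × ℕ

/-- the rational open ball with code `b` -/
def rball (b : BB) : Set Q := {x | dQ (rpt b.1) x < ((b.2.1 : ℝ) + 1) / ((b.2.2 : ℝ) + 1)}

/-- the finite covers of `K` by rational open balls are c.e. relative to `O` -/
def SemiB (O : Set ℕ) (K : Set Q) : Prop := REIn O fun L : List BB => K ⊆ ⋃ b ∈ L, rball b

/-- moreover the rational open balls that meet `K` are c.e. relative to `O` -/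
def CompB (O : Set ℕ) (K : Set Q) : Prop :=
  SemiB O K ∧ REIn O fun b : BB => (K ∩ rball b).Nonempty

/-- strong computable type -/
def SCTB (X : Type) [TopologicalSpace X] : Prop :=
  ∀ (O : Set ℕ) (Y : Set Q), Nonempty (Y ≃ₜ X) → SemiB O Y → CompB O Y

/-- covering dimension at most `d`: every finite open cover has a finite open refinement in which
every point lies in at most `d + 1` members -/
def DimLE (d : ℕ) (X : Type) [TopologicalSpace X] : Prop :=
  ∀ (ι : Type) [Finite ι] (U : ι → Set X), (∀ i, IsOpen (U i)) → (∀ x, ∃ i, x ∈ U i) →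
    ∃ (κ : Type) (_ : Finite κ) (V : κ → Set X), (∀ k, IsOpen (V k)) ∧ (∀ x, ∃ k, x ∈ V k) ∧
      (∀ k, ∃ i, V k ⊆ U i) ∧ ∀ x, {k | x ∈ V k}.ncard ≤ d + 1

end Pool.Agent.H62.Sct
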