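import Pool.Agent.H62.Sct1
import Pool.Agent.H62.SdDefs

/-! The root criterion for rational balls, and a dimension bound. -/

set_option autoImplicit false

namespace Pool.Agent.H62.Sct

open Pool.Agent.H37 Filter Topology

theorem abs_Q (x y : Q) (n : ℕ) : |(x n : ℝ) - y n| ≤ 1 := by
  have := (x n).2; have := (y n).2
  rw [abs_le]; constructor <;> linarith [(x n).2.1, (x n).2.2, (y n).2.1, (y n).2.2]

theorem summ_Q (x y : Q) : Summable fun n => (1 / 2 : ℝ) ^ n * |(x n : ℝ) - y n| :=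
  Summable.of_nonneg_of_le (fun n => by positivity)
    (fun n => mul_le_of_le_one_right (by positivity) (abs_Q x y n)) summable_geometric_two

theorem isOpen_rball (b : BB) : IsOpen (rball b) := by
  refine isOpen_lt (continuous_tsum (fun n => by fun_prop) summable_geometric_two fun n x => ?_)
    continuous_const
  rw [Real.norm_of_nonneg (by positivity)]
  exact mul_le_of_le_one_right (by positivity) (abs_Q _ _ n)

theorem le_dQ (x y : Q) (n : ℕ) : (1 / 2 : ℝ) ^ n * |(x n : ℝ) - y n| ≤ dQ x y :=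
  (summ_Q x y).le_tsum n fun _ _ => by positivity

theorem dQ_le {x y : Q} {N : ℕ} {ε : ℝ} (hε : 0 ≤ ε) (h : ∀ i < N + 1, |(x i : ℝ) - y i| ≤ ε) :
    dQ x y ≤ 2 * ε + (1 / 2) ^ N := by
  rw [dQ, ← (summ_Q x y).sum_add_tsum_nat_add (N + 1)]
  refine add_le_add ?_ ?_
  · calc _ ≤ ∑ i ∈ Finset.range (N + 1), (1 / 2 : ℝ) ^ i * ε :=
          Finset.sum_le_sum fun i hi =>
            mul_le_mul_of_nonneg_left (h i (Finset.mem_range.1 hi)) (by positivity)
      _ ≤ 2 * ε := by
          rw [← Finset.sum_mul]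
          exact mul_le_mul_of_nonneg_right (sum_geometric_two_le _) hε
  · have h1 : Summable fun i => (1 / 2 : ℝ) ^ (i + (N + 1)) :=
      (summable_nat_add_iff (N + 1)).2 summable_geometric_two
    refine (((summable_nat_add_iff (N + 1)).2 (summ_Q x y)).tsum_le_tsum
      (fun i => mul_le_of_le_one_right (by positivity) (abs_Q _ _ _)) h1).trans ?_
    simp only [pow_add, tsum_mul_right, tsum_geometric_two]
    ring_nf; rfl

def NN (n : ℕ) : ℕ := 16 * (n + 1) * 2 ^ n - 1

theorem NN_eq (n : ℕ) : NN n + 1 = 16 * (n + 1) * 2 ^ n := Nat.sub_add_cancel (Nat.succ_le_of_lt (by positivity))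

def cov (n : ℕ) (v : List ℕ) : List BB :=
  ((allLists (List.range (NN n + 2)) (NN n + 1)).filter fun u => (List.range (n + 1)).all fun i =>
    decide (4 * (u.getD i 0 * (n + 1)) ≤ 4 * (v.getD i 0 * (NN n + 1)) + 3 * (NN n + 1)) &&
    decide (4 * (v.getD i 0 * (NN n + 1)) ≤ 4 * (u.getD i 0 * (n + 1)) + 3 * (NN n + 1))).map
    fun u => (u.map fun a => (a, NN n), 0, 4 * (n + 1) * 2 ^ n - 1)

@[fun_prop] theorem ci_cov {α : Type} [Primcodable α] {O : Set (ℕ →. ℕ)} {f : α → ℕ}
    {g : α → List ℕ} (hf : CI O f) (hg : CI O g) : CI O fun a => cov (f a) (g a) := by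
  unfold cov NN; fun_prop

theorem rpt_grid {N : ℕ} {u : List ℕ} (hu : ∀ a ∈ u, a < N + 2) (i : ℕ) :
    (rpt (u.map fun a => (a, N)) i : ℝ) * (N + 1) = u.getD i 0 := by
  simp only [rpt, List.getD_eq_getElem?_getD, List.getElem?_map]
  rcases h : u[i]? with _ | a
  · simp
  · have : (a : ℝ) ≤ N + 1 := by exact_mod_cast Nat.lt_succ_iff.1 (hu a (List.mem_of_getElem? h))
    simp only [Option.map_some, Option.getD_some]
    rw [min_eq_right ((div_le_one (by positivity)).2 this), div_mul_cancel₀ _ (by positivity)]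

theorem rad_eq (n : ℕ) : ((4 * (n + 1) * 2 ^ n - 1 : ℕ) : ℝ) + 1 = 4 * (n + 1) * 2 ^ n := by
  exact_mod_cast Nat.sub_add_cancel (show 1 ≤ 4 * (n + 1) * 2 ^ n by
    exact Nat.succ_le_of_lt (by positivity))

theorem cov_sub {n : ℕ} {v : List ℕ} {b : BB} {x : Q} (hb : b ∈ cov n v) (hx : x ∈ rball b) :
    ∀ i < n + 1, |(x i : ℝ) * (n + 1) - v.getD i 0| < 1 := by
  intro i hi
  obtain ⟨u, hu, rfl⟩ := List.mem_map.1 hb
  obtain ⟨u1, u2⟩ := List.mem_filter.1 hu
  simp only [List.all_eq_true, List.mem_range, Bool.and_eq_true, decide_eq_true_eq] at u2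
  have h1 := rpt_grid (N := NN n) (fun a ha => List.mem_range.1 ((mem_allLists.1 u1).2 a ha)) i
  have h2 := (le_dQ _ x i).trans_lt hx
  rw [rad_eq] at h2
  generalize (rpt (u.map fun a => (a, NN n)) i : ℝ) = c at h1 h2
  have e1 : (4 : ℝ) * (u.getD i 0 * (n + 1)) ≤ 4 * (v.getD i 0 * (NN n + 1)) + 3 * (NN n + 1) := by
    exact_mod_cast (u2 i hi).1
  have e2 : (4 : ℝ) * (v.getD i 0 * (NN n + 1)) ≤ 4 * (u.getD i 0 * (n + 1)) + 3 * (NN n + 1) := by
    exact_mod_cast (u2 i hi).2
  rw [← h1] at e1 e2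
  have hN : (0 : ℝ) < NN n + 1 := by positivity
  have e3 : c * (n + 1) - v.getD i 0 ≤ 3 / 4 := le_of_mul_le_mul_right (by nlinarith) hN
  have e4 : -(3 / 4) ≤ c * (n + 1) - v.getD i 0 := le_of_mul_le_mul_right (by nlinarith) hN
  have e5 : |c - x i| * (n + 1) < 1 / 4 := by
    have h3 : (2 : ℝ) ^ i ≤ 2 ^ n := pow_le_pow_right₀ (by norm_num) (by omega)
    rw [lt_div_iff₀ (by positivity), one_div, inv_pow, inv_mul_eq_div, div_mul_eq_mul_div,
      div_lt_iff₀ (by positivity)] at h2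
    have h4 : 0 ≤ |c - x i| * (n + 1) := by positivity
    have h5 : (0 : ℝ) < 2 ^ n := by positivity
    push_cast at h2
    refine lt_of_mul_lt_mul_right ?_ h5.le
    nlinarith
  rw [← abs_of_pos (show (0 : ℝ) < n + 1 by positivity), ← abs_mul, sub_mul, abs_lt] at e5
  rw [abs_lt]
  constructor <;> linarith [e5.1, e5.2]

theorem rd_mem (n : ℕ) (x : Q) : rd n x ∈ allLists (List.range (n + 2)) (n + 1) := by
  refine mem_allLists.2 ⟨by simp [rd], fun a ha => ?_⟩
  obtain ⟨i, -, rfl⟩ := List.mem_map.1 ha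
  rw [List.mem_range, Nat.floor_lt (by have := (x i).2.1; positivity)]
  have := (x i).2.2
  push_cast
  nlinarith [(Nat.cast_nonneg n : (0 : ℝ) ≤ n)]

theorem cov_rd (n : ℕ) (x : Q) : ∃ b ∈ cov n (rd n x), x ∈ rball b := by
  have hN : ((NN n : ℝ) + 1) = 16 * (n + 1) * 2 ^ n := by exact_mod_cast NN_eq n
  have h2 : (1 : ℝ) ≤ 2 ^ n := one_le_pow₀ (by norm_num)
  have h0 : (0 : ℝ) ≤ n := Nat.cast_nonneg n
  have hn : n ≤ NN n := by
    have : (n : ℝ) + 1 ≤ NN n + 1 := by rw [hN]; nlinarith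
    exact_mod_cast (by linarith : (n : ℝ) ≤ NN n)
  refine ⟨_, List.mem_map.2 ⟨rd (NN n) x, List.mem_filter.2 ⟨rd_mem _ x, ?_⟩, rfl⟩, ?_⟩
  · simp only [List.all_eq_true, List.mem_range, Bool.and_eq_true, decide_eq_true_eq]
    intro i hi
    have e1 := rd_spec x hi
    have e2 := rd_spec (n := NN n) x (show i < NN n + 1 by omega)
    rw [abs_le] at e1 e2
    have e3 : 2 * ((n : ℝ) + 1) ≤ NN n + 1 := by rw [hN]; nlinarith
    constructor <;> rw [← Nat.cast_le (α := ℝ)] <;> push_cast <;>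
      nlinarith [e1.1, e1.2, e2.1, e2.2]
  · have hp : (0 : ℝ) < NN n + 1 := by positivity
    refine (dQ_le (N := NN n) (ε := 1 / (2 * (NN n + 1))) (by positivity) fun i hi => ?_).trans_lt ?_
    · have e1 := rd_spec x hi
      rw [← rpt_grid (N := NN n) (fun a ha => List.mem_range.1 ((mem_allLists.1 (rd_mem _ x)).2 a ha)),
        ← sub_mul, abs_mul, abs_of_pos hp, abs_sub_comm] at e1
      rw [le_div_iff₀ (by positivity)]
      linarith
    · have e2 : (1 / 2 : ℝ) ^ NN n ≤ 1 / (NN n + 1) := by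
        rw [one_div, inv_pow, one_div]
        refine inv_anti₀ hp ?_
        exact_mod_cast Nat.succ_le_of_lt Nat.lt_two_pow_self
      simp only [rad_eq]
      have e3 : 2 * (1 / (2 * ((NN n : ℝ) + 1))) = 1 / (NN n + 1) := by field_simp
      have e4 : (((0 : ℕ) : ℝ) + 1) / (4 * (n + 1) * 2 ^ n) = 4 * (1 / (NN n + 1)) := by
        rw [hN]; push_cast; field_simp; norm_num
      have : (0 : ℝ) < 1 / (NN n + 1) := by positivity
      rw [e3, e4]
      linarith

theorem sctb_of {X : Type} [TopologicalSpace X] [CompactSpace X] {g : X → T} (hg : Continuous g)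
    {p : ℕ → ℕ} (hp : CI ∅ p) (hp0 : ∀ n, 0 < p n)
    (h1 : ∀ B : Set X, IsOpen B → B.Nonempty →
      ∃ n, ∃ r : X → T, ContinuousOn r Bᶜ ∧ ∀ x ∈ Bᶜ, p n • r x = g x)
    (h2 : ∀ n (r : X → T), Continuous r → ¬∀ x, p n • r x = g x) : SCTB X := by
  rintro O Y ⟨h⟩ hS
  refine ⟨hS, ?_⟩
  have : CompactSpace Y := h.symm.compactSpace
  let G : Y → T := fun y => g (h y)
  have hG : Continuous G := hg.comp h.continuous
  obtain ⟨n0, hn0⟩ := uc continuous_subtype_val Subtype.val_injective hG (ε := 1 / 16) (by norm_num)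
  obtain ⟨Adv, a1, a2⟩ := fin_rd (Subtype.val : Y → Q) n0 fun y => exists_lab (G y)
  have a3 : ∀ u ∈ Adv, ∀ y : Y, (∀ i < n0 + 1, |(y.1 i : ℝ) * (n0 + 1) - u.1.getD i 0| ≤ 2) →
      ‖G y - (u.2 / 8 : ℝ)‖ < 1 / 8 := by
    intro u hu y hy
    obtain ⟨z, z1, z2⟩ := a1 u hu
    have := hn0 y z fun i hi => by
      have e1 := hy i hi
      have e2 := rd_spec z.1 hi
      rw [z1] at e2
      rw [← abs_of_pos (show (0 : ℝ) < n0 + 1 by positivity), ← abs_mul, sub_mul]
      rw [abs_le] at *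
      constructor <;> linarith [e1.1, e1.2, e2.1, e2.2]
    linarith [norm_sub_le_norm_sub_add_norm_sub (G y) (G z) (u.2 / 8 : ℝ)]
  obtain ⟨f, f1, f2⟩ := hS
  obtain ⟨e, rfl⟩ := exists_app (x := chi O) f1
  have hx := CI.self (chi O)
  have hp' : CI (orc (chi O)) p := hp.of_empty
  let D : BB → ℕ × ℕ × ℕ × List (List ℕ × ℕ) → Bool := fun l c =>
    chk Adv n0 (p c.2.1) c.2.2.1 c.2.2.2 && (U e (pre (chi O) c.1)
      (Encodable.encode (l :: c.2.2.2.flatMap fun m => cov c.2.2.1 m.1))).isSome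
  have hD : CI (orc (chi O)) fun z : BB × ℕ × ℕ × ℕ × List (List ℕ × ℕ) => D z.1 z.2 := by
    simp only [D, chk, pre]; fun_prop
  have key : ∀ l, (Y ∩ rball l).Nonempty ↔ ∃ c, D l c = true := by
    intro l
    constructor
    · rintro ⟨y0, hy0, hy0'⟩
      have hB : IsOpen (h.symm ⁻¹' (Subtype.val ⁻¹' rball l)) :=
        ((isOpen_rball l).preimage continuous_subtype_val).preimage h.symm.continuous
      obtain ⟨k, r, r1, r2⟩ := h1 _ hB ⟨h ⟨y0, hy0⟩, by simpa using hy0'⟩
      let Z := {y : Y // y.1 ∉ rball l}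
      have : CompactSpace Z := isCompact_iff_compactSpace.1
        ((isOpen_rball l).preimage continuous_subtype_val).isClosed_compl.isCompact
      have hZ : ∀ z : Z, h z.1 ∈ (h.symm ⁻¹' (Subtype.val ⁻¹' rball l))ᶜ := fun z => by
        simpa using z.2
      have hr : Continuous fun z : Z => r (h z.1) :=
        r1.comp_continuous (h.continuous.comp continuous_subtype_val) hZ
      have hm : 0 < p k * 8 := by have := hp0 k; omega
      have hm' : (0 : ℝ) < (p k * 8 : ℕ) := by exact_mod_cast hm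
      obtain ⟨n1, hn1⟩ := uc (e := fun z : Z => z.1.1)
        (continuous_subtype_val.comp continuous_subtype_val)
        (Subtype.val_injective.comp Subtype.val_injective) hr (ε := 1 / (p k * 8 : ℕ))
        (by positivity)
      obtain ⟨L, l1, l2⟩ := fin_rd (fun z : Z => z.1.1) (n0 + n1)
        (P := fun z b => (∃ a, (rd n0 z.1.1, a) ∈ Adv ∧ b % 8 = a % 8) ∧
          ‖r (h z.1) - (b / (p k * 8 : ℕ) : ℝ)‖ < 1 / (p k * 8 : ℕ)) fun z => by
        obtain ⟨a, ha⟩ := a2 z.1
        obtain ⟨b, b1, b2⟩ := exists_label (hp0 k) (r2 _ (hZ z)) (a3 _ ha z.1 fun i hi =>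
          (rd_spec z.1.1 hi).trans (by norm_num))
        exact ⟨b, ⟨a, ha, b1⟩, b2⟩
      obtain ⟨s, hs⟩ := dom_app.1 ((f2 (l :: L.flatMap fun m => cov (n0 + n1) m.1)).1 fun y hy => by
        simp only [Set.mem_iUnion, List.mem_cons, exists_prop, exists_eq_or_imp]
        by_cases hb : y ∈ rball l
        · exact Or.inl hb
        · obtain ⟨b, hb'⟩ := l2 ⟨⟨y, hy⟩, hb⟩
          obtain ⟨c, c1, c2⟩ := cov_rd (n0 + n1) y
          exact Or.inr ⟨c, List.mem_flatMap.2 ⟨_, hb', c1⟩, c2⟩)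
      refine ⟨(s, k, n0 + n1, L), ?_⟩
      simp only [D, Bool.and_eq_true]
      refine ⟨chk_iff.2 ⟨by omega, fun m hm => ?_, fun m hm m' hm' hadj => ?_⟩, hs⟩
      · obtain ⟨z, z1, ⟨a, ha, z2⟩, -⟩ := l1 m hm
        refine ⟨_, ha, z2, fun i hi => ?_⟩
        have e1 := rd_spec z.1.1 hi
        have e2 := rd_spec (n := n0 + n1) z.1.1 (show i < n0 + n1 + 1 by omega)
        rw [z1] at e2
        rw [abs_le] at e1 e2
        push_cast at e2
        have : (0 : ℝ) ≤ n0 := Nat.cast_nonneg _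
        have : (0 : ℝ) ≤ n1 := Nat.cast_nonneg _
        constructor <;> rw [← Nat.cast_le (α := ℝ)] <;> push_cast <;>
          nlinarith [e1.1, e1.2, e2.1, e2.2]
      · obtain ⟨z, z1, -, z2⟩ := l1 m hm
        obtain ⟨w, w1, -, w2⟩ := l1 m' hm'
        refine (close_iff ‹0 < p k * 8›).2 ?_
        have := hn1 z w (near.mono (m := n0 + n1) (fun i hi => by
          have e1 := rd_spec z.1.1 hi
          have e2 := rd_spec w.1.1 hi
          rw [z1] at e1
          rw [w1] at e2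
          have e3 : (m.1.getD i 0 : ℝ) ≤ m'.1.getD i 0 + 1 := by exact_mod_cast (hadj i hi).1
          have e4 : (m'.1.getD i 0 : ℝ) ≤ m.1.getD i 0 + 1 := by exact_mod_cast (hadj i hi).2
          rw [← abs_of_pos (show (0 : ℝ) < (n0 + n1 : ℕ) + 1 by positivity), ← abs_mul, sub_mul]
          rw [abs_le] at *
          constructor <;> linarith [e1.1, e1.2, e2.1, e2.2]) (by omega))
        rw [norm_sub_rev] at z2
        have e3 : (3 : ℝ) / (p k * 8 : ℕ) = 3 * (1 / (p k * 8 : ℕ)) := by ring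
        linarith [norm_sub_le_norm_sub_add_norm_sub ((m.2 / (p k * 8 : ℕ) : ℝ) : T) (r (h z.1))
          (m'.2 / (p k * 8 : ℕ) : ℝ), norm_sub_le_norm_sub_add_norm_sub (r (h z.1)) (r (h w.1))
          (m'.2 / (p k * 8 : ℕ) : ℝ)]
    · rintro ⟨⟨s, k, n, L⟩, hc⟩
      simp only [D, Bool.and_eq_true] at hc
      obtain ⟨c0, c1, c2⟩ := chk_iff.1 hc.1
      have hcov := (f2 _).2 (dom_app.2 ⟨s, hc.2⟩)
      by_contra hn
      have hm : 0 < p k * 8 := by have := hp0 k; omega
      obtain ⟨r, r1, r2⟩ := glue hG (hp0 k)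
        (fun m : {m // m ∈ L} => Subtype.val ⁻¹' basic (bc n m.1.1))
        (fun m => (m.1.2 / (p k * 8 : ℕ) : ℝ))
        (fun m => (isOpen_basic _).preimage continuous_subtype_val)
        (fun y => by
          have := hcov y.2
          simp only [Set.mem_iUnion, List.mem_cons, exists_prop, exists_eq_or_imp] at this
          rcases this with hb | ⟨_, hb, hb'⟩
          · exact absurd ⟨_, y.2, hb⟩ hn
          · obtain ⟨m, hm, hm'⟩ := List.mem_flatMap.1 hb
            exact ⟨⟨m, hm⟩, mem_bc.2 (cov_sub hm' hb')⟩)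
        (fun m y hy => by
          obtain ⟨u, hu, u1, u2⟩ := c1 m.1 m.2
          have e : p k • ((m.1.2 / (p k * 8 : ℕ) : ℝ) : T) = (u.2 / 8 : ℝ) := by
            rw [show (m.1.2 / (p k * 8 : ℕ) : ℝ) = m.1.2 / 8 / p k by
              push_cast; rw [div_div, mul_comm], smul_div (hp0 k), ← sub_eq_zero,
              ← AddCircle.coe_sub, AddCircle.coe_eq_zero_iff]
            obtain ⟨j, hj⟩ := Nat.modEq_iff_dvd.1 u1.symm
            have hj' : (m.1.2 : ℝ) - u.2 = 8 * j := by exact_mod_cast hj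
            exact ⟨j, by simp only [zsmul_eq_mul, mul_one]; linarith⟩
          rw [e]
          refine a3 u hu y fun i hi => ?_
          have e1 := mem_bc.1 hy i (by omega)
          have e2 : (m.1.1.getD i 0 : ℝ) * (n0 + 1) ≤ u.1.getD i 0 * (n + 1) + (n + 1) := by
            exact_mod_cast (u2 i hi).1
          have e3 : (u.1.getD i 0 : ℝ) * (n + 1) ≤ m.1.1.getD i 0 * (n0 + 1) + (n + 1) := by
            exact_mod_cast (u2 i hi).2
          have e4 : (n0 : ℝ) ≤ n := by exact_mod_cast c0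
          have : (0 : ℝ) ≤ n0 := Nat.cast_nonneg _
          rw [abs_lt] at e1
          rw [abs_le]
          constructor <;> refine le_of_mul_le_mul_right ?_ (show (0 : ℝ) < n + 1 by positivity) <;>
            nlinarith [e1.1, e1.2])
        (fun m m' y hy hy' => by
          have := (close_iff hm).1 (c2 m.1 m.2 m'.1 m'.2 fun i hi => by
            have e1 := mem_bc.1 hy i hi
            have e2 := mem_bc.1 hy' i hi
            rw [abs_lt] at e1 e2
            constructor <;> rw [← Nat.lt_succ_iff, ← Nat.cast_lt (α := ℝ)] <;> push_cast <;>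
              linarith [e1.1, e1.2, e2.1, e2.2])
          push_cast at this ⊢
          exact this)
      exact h2 k (fun x => r (h.symm x)) (r1.comp h.symm.continuous) fun x => by
        rw [r2]; simp [G]
  let F : ℕ → ℕ → Bool := fun a s => ((Encodable.decode (α := BB) a).bind fun l =>
    (Encodable.decode (α := ℕ × ℕ × ℕ × List (List ℕ × ℕ)) s).map (D l)).getD false
  have hF : CI (orc (chi O)) fun z : ℕ × ℕ => F z.1 z.2 := by
    clear_value D
    simp only [F]; fun_prop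
  refine ⟨fun a => Nat.rfind fun s => Part.some (F a s),
    RI.rfind (p := fun a s => Part.some (F a s)) hF.ri, fun l => ?_⟩
  refine (key l).trans (Iff.trans ?_ Nat.rfind_dom.symm)
  simp only [F, Encodable.encodek, Option.bind_some, Part.mem_some_iff, Part.some_dom, implies_true,
    and_true]
  constructor
  · rintro ⟨c, hc⟩
    exact ⟨Encodable.encode c, by rw [Encodable.encodek]; exact hc.symm⟩
  · rintro ⟨s, hs⟩
    cases hd : Encodable.decode (α := ℕ × ℕ × ℕ × List (List ℕ × ℕ)) s with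
    | none => rw [hd] at hs; exact absurd hs (by simp)
    | some c => rw [hd] at hs; exact ⟨c, hs.symm⟩


theorem dim_of {X : Type} [MetricSpace X] [CompactSpace X] {f : X → ℝ} (hf : Continuous f)
    (hd : ∀ c, IsTotallyDisconnected {x | f x = c}) : DimLE 1 X := by
  intro ι _ U hU hc
  have key : ∀ c : ℝ, ∃ (n : ℕ) (W : Fin n → Set X) (δ : ℝ), 0 < δ ∧ (∀ j, IsOpen (W j)) ∧
      (∀ j, ∃ i, W j ⊆ U i) ∧ (∀ j k x, x ∈ W j → x ∈ W k → j = k) ∧
      ∀ x, f x ∈ Metric.ball c δ → ∃ j, x ∈ W j := by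
    intro c
    let F := {x | f x = c}
    have hF : IsClosed F := isClosed_eq hf continuous_const
    have : CompactSpace F := isCompact_iff_compactSpace.1 hF.isCompact
    have : TotallyDisconnectedSpace F := totallyDisconnectedSpace_subtype_iff.2 (hd c)
    have hcov : TopologicalSpace.IsOpenCover fun i =>
        (⟨Subtype.val ⁻¹' U i, (hU i).preimage continuous_subtype_val⟩ : TopologicalSpace.Opens F) :=
      TopologicalSpace.IsOpenCover.of_sets _ (Set.eq_univ_of_forall fun x => Set.mem_iUnion.2 (hc x.1))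
    obtain ⟨n, C, c1, c2, c3⟩ := hcov.exists_finite_nonempty_disjoint_clopen_cover
    choose c0 i hi using c1
    let K : Fin n → Set X := fun j => Subtype.val '' (C j : Set F)
    have k1 : ∀ j, IsClosed (K j) := fun j =>
      ((C j).isClosed.isCompact.image continuous_subtype_val).isClosed
    have k2 : ∀ j, (K j).Nonempty := fun j => by
      refine Set.Nonempty.image _ (Set.nonempty_iff_ne_empty.2 fun h => c0 j ?_)
      exact SetLike.coe_injective h
    let W : Fin n → Set X := fun j => U (i j) ∩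
      ⋂ k ∈ {k | k ≠ j}, {x | Metric.infDist x (K j) < Metric.infDist x (K k)}
    have w1 : ∀ j, IsOpen (W j) := fun j => (hU _).inter ((Set.toFinite _).isOpen_biInter fun k _ =>
      isOpen_lt (Metric.continuous_infDist_pt _) (Metric.continuous_infDist_pt _))
    have w2 : F ⊆ ⋃ j, W j := fun x hx => by
      obtain ⟨j, hj⟩ := Set.mem_iUnion.1 (c2 (Set.mem_univ (⟨x, hx⟩ : F)))
      refine Set.mem_iUnion.2 ⟨j, hi j hj, Set.mem_iInter₂.2 fun k hk => ?_⟩
      show Metric.infDist x (K j) < _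
      rw [Metric.infDist_zero_of_mem (show x ∈ K j from ⟨_, hj, rfl⟩)]
      refine ((k1 k).notMem_iff_infDist_pos (k2 k)).1 ?_
      rintro ⟨y, hy, rfl⟩
      have := c3 hk
      rw [Function.onFun, ← TopologicalSpace.Clopens.coe_disjoint] at this
      exact Set.disjoint_left.1 this hy hj
    have w3 : IsClosed (f '' (⋃ j, W j)ᶜ) :=
      ((isOpen_iUnion w1).isClosed_compl.isCompact.image hf).isClosed
    obtain ⟨δ, hδ, hδ'⟩ := Metric.isOpen_iff.1 w3.isOpen_compl c (by
      rintro ⟨x, hx, hx'⟩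
      exact hx (w2 hx'))
    refine ⟨n, W, δ, hδ, w1, fun j => ⟨i j, Set.inter_subset_left⟩, fun j k x hj hk => ?_,
      fun x hx => ?_⟩
    · by_contra hne
      exact lt_asymm (show Metric.infDist x (K j) < Metric.infDist x (K k) from
        Set.mem_iInter₂.1 hj.2 k (Ne.symm hne)) (Set.mem_iInter₂.1 hk.2 j hne)
    · by_contra hn
      exact hδ' hx ⟨x, fun h => hn (Set.mem_iUnion.1 h), rfl⟩
  choose n W δ d0 w1 w2 w3 w4 using key
  obtain ⟨η, hη, hη'⟩ := lebesgue_number_lemma_of_metric (isCompact_range hf)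
    (c := fun c => Metric.ball c (δ c)) (fun _ => Metric.isOpen_ball)
    fun y _ => Set.mem_iUnion.2 ⟨y, Metric.mem_ball_self (d0 y)⟩
  let S : Set ℤ := {k | ∃ x, |f x / (η / 2) - k| < 1}
  have hS : S.Finite := by
    obtain ⟨M, hM⟩ := (isCompact_range (hf.div_const (η / 2))).isBounded.exists_norm_le
    refine (Set.finite_Icc (-(⌈M⌉ + 1)) (⌈M⌉ + 1)).subset ?_
    rintro k ⟨x, hx⟩
    have := hM _ ⟨x, rfl⟩
    rw [Real.norm_eq_abs, abs_le] at this
    rw [abs_lt] at hx
    have h1 := Int.le_ceil M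
    constructor <;> rw [← Int.cast_le (R := ℝ)] <;> push_cast <;> linarith [hx.1, hx.2]
  have : ∀ k : S, ∃ c, ∀ x, |f x / (η / 2) - k| < 1 → f x ∈ Metric.ball c (δ c) := by
    rintro ⟨k, y, hy⟩
    obtain ⟨c, hc⟩ := hη' (f y) ⟨y, rfl⟩
    refine ⟨c, fun x hx => hc ?_⟩
    rw [Metric.mem_ball, Real.dist_eq]
    have e : f x - f y = (f x / (η / 2) - f y / (η / 2)) * (η / 2) := by field_simp
    rw [e, abs_mul, abs_of_pos (half_pos hη)]
    have : |f x / (η / 2) - f y / (η / 2)| < 2 := by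
      rw [abs_lt] at *
      constructor <;> linarith [hx.1, hx.2, hy.1, hy.2]
    nlinarith
  choose c hc' using this
  have := hS.to_subtype
  refine ⟨Σ k : S, Fin (n (c k)), inferInstance,
    fun k => {x | |f x / (η / 2) - k.1| < 1} ∩ W _ k.2,
    fun k => (isOpen_lt (by fun_prop) continuous_const).inter (w1 _ _), fun x => ?_,
    fun k => (w2 _ k.2).imp fun i hi => Set.inter_subset_right.trans hi, fun x => ?_⟩
  · have h1 : |f x / (η / 2) - ⌊f x / (η / 2)⌋| < 1 := by
      rw [abs_lt]; constructor <;> linarith [Int.floor_le (f x / (η / 2)), Int.lt_floor_add_one (f x / (η / 2))]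
    obtain ⟨j, hj⟩ := w4 _ x (hc' ⟨_, x, h1⟩ x h1)
    exact ⟨⟨⟨_, x, h1⟩, j⟩, h1, hj⟩
  · refine (Set.ncard_le_ncard_of_injOn (t := {⌊f x / (η / 2)⌋, ⌊f x / (η / 2)⌋ + 1})
      (fun k => k.1.1) (fun k hk => ?_) ?_).trans ((Set.ncard_insert_le _ _).trans (by simp))
    · have h1 := abs_lt.1 (show |f x / (η / 2) - k.1.1| < 1 from hk.1)
      have h2 : ⌊f x / (η / 2)⌋ < k.1.1 + 1 := by
        rw [← Int.cast_lt (R := ℝ)]; push_cast; linarith [Int.floor_le (f x / (η / 2)), h1.2]
      have h3 : k.1.1 < ⌊f x / (η / 2)⌋ + 2 := by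
        rw [← Int.cast_lt (R := ℝ)]; push_cast; linarith [Int.lt_floor_add_one (f x / (η / 2)), h1.1]
      simp only [Set.mem_insert_iff, Set.mem_singleton_iff]
      omega
    · rintro ⟨k, j⟩ h1 ⟨k', j'⟩ h2 h3
      obtain rfl : k = k' := Subtype.ext h3
      rw [w3 _ j j' x h1.2 h2.2]

end Pool.Agent.H62.Sct
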