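import Pool.Agent.H62.Sct2
import Pool.Agent.H62.Sct3

/-! A one-dimensional space of strong computable type that contains a proper copy of itself. -/

set_option autoImplicit false

namespace Pool.Agent.H62.Sct

open Pool.Agent.H37 Filter Topology

def E0 (k : ℕ) : ℕ := ∏ i ∈ Finset.range k, pf i

theorem pf_pos (n : ℕ) : 0 < pf n := (pf_gt n).le

theorem E0_pos (k : ℕ) : 0 < E0 k := Finset.prod_pos fun i _ => pf_pos i

def D0 (i b : ℕ) : ℕ := ∏ l ∈ (Finset.range b).erase i, pf l

def KS : Set (ℕ → T) := {x | ∀ k, x k = pf k • x (k + 1)}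

theorem isClosed_KS : IsClosed KS := by
  simp only [KS, Set.ofPred_forall]
  exact isClosed_iInter fun k => isClosed_eq (by fun_prop) (by fun_prop)

theorem KS0 {x : ℕ → T} (hx : x ∈ KS) (k : ℕ) : x 0 = E0 k • x k := by
  induction k with
  | zero => simp [E0]
  | succ k ih => rw [ih, E0, E0, Finset.prod_range_succ, mul_smul, ← hx k]

theorem KS_eq {x y : ℕ → T} (hx : x ∈ KS) (hy : y ∈ KS) {k : ℕ} (hk : x k = y k) :
    ∀ i ≤ k, x i = y i := by
  intro i hi
  induction hi using Nat.decreasingInduction with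
  | self => exact hk
  | of_succ i _ ih => rw [hx i, hy i, ih]

noncomputable def psi (i : ℕ) : T → ℝ := AddCircle.liftIco 1 0 fun u => min (pf i * u) 1 - u

@[fun_prop] theorem cont_psi (i : ℕ) : Continuous (psi i) := by
  refine AddCircle.liftIco_zero_continuous ?_ (by fun_prop)
  have : (1 : ℝ) ≤ pf i := by exact_mod_cast pf_pos i
  simp [this]

theorem psi0 (i : ℕ) : psi i 0 = 0 := by
  have := AddCircle.liftIco_zero_coe_apply (p := (1 : ℝ)) (f := fun u => min (pf i * u) 1 - u)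
    (x := 0) (by simp)
  simpa [psi] using this

theorem psi_spec (i : ℕ) (y : T) : y + psi i y = 0 ∨ y + psi i y = pf i • y := by
  have h : lf 0 y ∈ Set.Ico (0 : ℝ) 1 := by simpa [lf] using (AddCircle.equivIco 1 0 y).2
  rw [← coe_lf 0 y, psi, AddCircle.liftIco_zero_coe_apply h, ← AddCircle.coe_add, add_sub_cancel,
    ← AddCircle.coe_nsmul, nsmul_eq_mul]
  rcases min_choice (pf i * lf 0 y) 1 with g | g
  · exact Or.inr (by rw [g])
  · exact Or.inl (by rw [g]; exact AddCircle.coe_period 1)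

@[fun_prop] theorem cont_coe {Z : Type} [TopologicalSpace Z] {f : Z → ℝ} (hf : Continuous f) :
    Continuous fun z => (f z : T) := (AddCircle.continuous_mk' 1).comp hf

def yy (i : ℕ) (x : ℕ → T) : T := E0 i • x (i + 1)

theorem yy_eq {x : ℕ → T} (hx : x ∈ KS) {i b : ℕ} (h : i + 1 ≤ b) : yy i x = D0 i b • x b := by
  induction b, h using Nat.le_induction with
  | base => rw [D0, Finset.range_add_one, Finset.erase_insert (by simp)]; rfl
  | succ b hb ih =>
    rw [ih, hx b, D0, D0, Finset.range_add_one, Finset.erase_insert_of_ne (by omega),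
      Finset.prod_insert (by simp), smul_smul, mul_comm]

noncomputable def GG (z : ℤ) (x : ℕ → T) : T :=
  if 0 ≤ z then yy z.toNat x + psi z.toNat (yy z.toNat x) else 0

noncomputable def RR (z : ℤ) (m : ℕ) (x : ℕ → T) : T :=
  if 0 ≤ z ∧ z ≠ m then (∏ l ∈ ((Finset.range (z.toNat + m + 1)).erase z.toNat).erase m, pf l) •
    x (z.toNat + m + 1) + (psi z.toNat (yy z.toNat x) / pf m : ℝ) else 0

theorem GG_spec {x : ℕ → T} (hx : x ∈ KS) (z : ℤ) : GG z x = 0 ∨ GG z x = x 0 := by
  unfold GG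
  split_ifs
  · refine (psi_spec _ _).imp id fun h => ?_
    rw [h, yy, smul_smul, KS0 hx (z.toNat + 1), E0, E0, Finset.prod_range_succ, mul_comm]
  · exact Or.inl rfl

theorem RR_spec {x : ℕ → T} (hx : x ∈ KS) {z : ℤ} {m : ℕ} (h : z ≠ m) :
    pf m • RR z m x = GG z x := by
  unfold RR GG
  by_cases h0 : 0 ≤ z
  · rw [if_pos ⟨h0, h⟩, if_pos h0, smul_add, smul_div (pf_pos m), smul_smul,
      Finset.mul_prod_erase _ _ (by simp; omega), yy_eq hx (b := z.toNat + m + 1) (by omega), D0]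
  · rw [if_neg fun g => h0 g.1, if_neg h0, smul_zero]

abbrev AA : Type := (ℕ → Bool) × (ℕ → T) × (ℤ → T) × (ℤ × ℕ → T)

noncomputable def FF (n : ℕ) (x : ℕ → T) : AA :=
  (dl n, x, fun j => GG (n + j) x, fun q => RR (n + q.1) q.2 x)

theorem cont_FF (n : ℕ) : Continuous (FF n) := by
  refine continuous_const.prodMk (continuous_id.prodMk (Continuous.prodMk
    (continuous_pi fun j => ?_) (continuous_pi fun q => ?_)))
  · unfold GG yy; split_ifs <;> fun_prop
  · unfold RR yy; split_ifs <;> fun_prop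

def XX : Set AA := closure (⋃ n, FF n '' KS)

instance : CompactSpace XX := isCompact_iff_compactSpace.1 isClosed_closure.isCompact

theorem FF_mem (n : ℕ) {x : ℕ → T} (hx : x ∈ KS) : FF n x ∈ XX :=
  subset_closure (Set.mem_iUnion.2 ⟨n, x, hx, rfl⟩)

theorem clo {P : Set AA} (hP : IsClosed P) (h : ∀ n, ∀ x ∈ KS, FF n x ∈ P) : XX ⊆ P :=
  closure_minimal (Set.iUnion_subset fun n => by rintro _ ⟨x, hx, rfl⟩; exact h n x hx) hP

theorem P1 (z : XX) (n : ℕ) : z.1.1 n = true ∨ pf n • z.1.2.2.2 (0, n) = z.1.2.2.1 0 :=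
  clo (P := {z | z.1 n = true} ∪ {z | pf n • z.2.2.2 (0, n) = z.2.2.1 0})
    ((isClosed_eq (by fun_prop) continuous_const).union (isClosed_eq (by fun_prop) (by fun_prop)))
    (fun m x hx => by
      by_cases h : n = m
      · exact Or.inl (by simp [FF, dl, h])
      · exact Or.inr (RR_spec hx (by omega))) z.2

theorem P2 (z : XX) (n : ℕ) : z.1.1 n = false ∨ z.1 ∈ FF n '' KS :=
  clo (P := {z | z.1 n = false} ∪ FF n '' KS)
    ((isClosed_eq (by fun_prop) continuous_const).union
      (isClosed_KS.isCompact.image (cont_FF n)).isClosed)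
    (fun m x hx => by
      by_cases h : n = m
      · exact Or.inr ⟨x, hx, by rw [h]⟩
      · exact Or.inl (by simp [FF, dl, h])) z.2

theorem P3 (z : XX) : z.1.2.1 ∈ KS :=
  clo (P := {z | z.2.1 ∈ KS}) (isClosed_KS.preimage (by fun_prop)) (fun _ _ hx => hx) z.2

theorem P4 (z : XX) (j : ℤ) : z.1.2.2.1 j = 0 ∨ z.1.2.2.1 j = z.1.2.1 0 :=
  clo (P := {z | z.2.2.1 j = 0} ∪ {z | z.2.2.1 j = z.2.1 0})
    ((isClosed_eq (by fun_prop) continuous_const).union (isClosed_eq (by fun_prop) (by fun_prop)))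
    (fun _ _ hx => GG_spec hx _) z.2

theorem P5 (z : XX) (q : ℤ × ℕ) : pf q.2 • z.1.2.2.2 q = 0 ∨ pf q.2 • z.1.2.2.2 q = z.1.2.1 0 :=
  clo (P := {z | pf q.2 • z.2.2.2 q = 0} ∪ {z | pf q.2 • z.2.2.2 q = z.2.1 0})
    ((isClosed_eq (by fun_prop) continuous_const).union (isClosed_eq (by fun_prop) (by fun_prop)))
    (fun n x hx => by
      show pf q.2 • RR (n + q.1) q.2 x = 0 ∨ pf q.2 • RR (n + q.1) q.2 x = x 0
      by_cases h : n + q.1 = q.2
      · exact Or.inl (by simp [RR, h])
      · rw [RR_spec hx h]; exact GG_spec hx _) z.2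

theorem has_root2 (B : Set XX) (hB : IsOpen B) (hn : B.Nonempty) :
    ∃ n, ∃ r : XX → T, ContinuousOn r Bᶜ ∧ ∀ x ∈ Bᶜ, pf n • r x = x.1.2.2.1 0 := by
  obtain ⟨U, hU, rfl⟩ := isOpen_induced_iff.1 hB
  obtain ⟨z0, hz0⟩ := hn
  obtain ⟨_, ha, hb⟩ := mem_closure_iff.1 z0.2 U hU hz0
  obtain ⟨n, a, haK, rfl⟩ := Set.mem_iUnion.1 hb
  obtain ⟨I, u, hu, hu'⟩ := isOpen_pi_iff.1 (hU.preimage (cont_FF n)) a ha
  obtain ⟨α, hα⟩ := QuotientAddGroup.mk_surjective (a (I.sup id + n + 1))
  have h1 : ∀ z : XX, z.1.1 n = true → z ∈ (Subtype.val ⁻¹' U)ᶜ →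
      z.1.2.1 (I.sup id + n + 1) ≠ α := by
    intro z hz hz' h
    obtain ⟨x, hx, hx'⟩ := (P2 z n).resolve_left (by simp [hz])
    have := hu' (a := x) fun i hi => by
      rw [← hx'] at h
      rw [KS_eq hx haK (h.trans hα) i ((Finset.le_sup (f := id) hi).trans (by omega))]
      exact (hu i hi).2
    exact hz' (show z.1 ∈ U from hx' ▸ this)
  refine ⟨n, fun z => if z.1.1 n = true then
    D0 n (I.sup id + n + 1) • (lf α (z.1.2.1 (I.sup id + n + 1)) / pf n : ℝ) +
      (psi n (yy n z.1.2.1) / pf n : ℝ) else z.1.2.2.2 (0, n),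
    fun z hz => ContinuousAt.continuousWithinAt ?_, fun z _ => ?_⟩
  · have hc : Continuous fun w : XX => w.1.1 n := by fun_prop
    have he : ∀ᶠ w in 𝓝 z, w.1.1 n = z.1.1 n :=
      hc.continuousAt.eventually (p := fun b => b = z.1.1 n) (by simp [nhds_discrete])
    by_cases h : z.1.1 n = true
    · have : ContinuousAt (fun w : XX =>
          D0 n (I.sup id + n + 1) • ((lf α (w.1.2.1 (I.sup id + n + 1)) / pf n : ℝ) : T) +
          (psi n (yy n w.1.2.1) / pf n : ℝ)) z := by
        refine ContinuousAt.add ((continuous_nsmul _).continuousAt.comp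
          ((AddCircle.continuous_mk' 1).continuousAt.comp (ContinuousAt.div_const
          (ContinuousAt.comp (f := fun w : XX => w.1.2.1 (I.sup id + n + 1))
            (cont_lf (h1 z h hz)) (by fun_prop)) _))) (Continuous.continuousAt ?_)
        unfold yy; fun_prop
      exact this.congr (he.mono fun w hw => by simp only [hw, h, if_true])
    · have : ContinuousAt (fun w : XX => w.1.2.2.2 (0, n)) z := by fun_prop
      exact this.congr (he.mono fun w hw => by simp only [hw, h]; rfl)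
  · beta_reduce
    split_ifs with h
    · obtain ⟨x, hx, hx'⟩ := (P2 z n).resolve_left (by simp [h])
      rw [smul_add, smul_comm, smul_div (pf_pos n), smul_div (pf_pos n), coe_lf,
        ← yy_eq (P3 z) (by omega), ← hx']
      simp [FF, GG]
    · exact (P1 z n).resolve_left h

noncomputable def ray2 (s : ℝ) : ℕ → T := fun k => (s / E0 k : ℝ)

theorem ray2_mem (s : ℝ) : ray2 s ∈ KS := fun k => by
  simp only [ray2]
  rw [E0, E0, Finset.prod_range_succ, ← smul_div (pf_pos k), div_div, Nat.cast_mul]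

theorem yy_ray (n : ℕ) (s : ℝ) : yy n (ray2 s) = (s / pf n : ℝ) := by
  rw [yy, ray2, E0, E0, Finset.prod_range_succ, Nat.cast_mul, mul_comm, ← div_div]
  exact smul_div (E0_pos n) _

theorem no_root2 (n : ℕ) (r : XX → T) (hr : Continuous r) : ¬∀ x, pf n • r x = x.1.2.2.1 0 := by
  intro h
  have hq := pf_pos n
  let ι : KS → XX := fun x => ⟨FF n x, FF_mem n x.2⟩
  have hι : Continuous ι := ((cont_FF n).comp continuous_subtype_val).subtype_mk _
  let ρ : ℝ → KS := fun s => ⟨ray2 s, ray2_mem s⟩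
  have hρ : Continuous ρ := Continuous.subtype_mk (by unfold ray2; fun_prop) _
  let W : ℝ → ℝ := fun s => s / pf n + psi n (s / pf n : ℝ)
  have h1 : ∀ s, r (ι (ρ s)) - (W s / pf n : ℝ) = r (ι (ρ 0)) - (W 0 / pf n : ℝ) := fun s =>
    isPreconnected_univ.constant_of_mapsTo (AddCircle.finite_torsion (1 : ℝ) hq).isDiscrete
      (f := fun s : ℝ => r (ι (ρ s)) - (W s / pf n : ℝ))
      ((hr.comp (hι.comp hρ)).sub (by simp only [W]; fun_prop)).continuousOn
      (fun s _ => by
        simp only [Set.mem_ofPred_eq, smul_sub, h, smul_div hq]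
        simp [ι, ρ, FF, GG, yy_ray, W]) trivial trivial
  have h2 : Tendsto (fun k => ρ (E0 k)) atTop (𝓝 (ρ 0)) := by
    rw [tendsto_subtype_rng, tendsto_pi_nhds]
    refine fun i => tendsto_const_nhds.congr' ?_
    filter_upwards [eventually_ge_atTop i] with k hk
    obtain ⟨c, hc⟩ : E0 i ∣ E0 k := Finset.prod_dvd_prod_of_subset _ _ _ (Finset.range_mono hk)
    have := (E0_pos i).ne'
    simp only [ρ, ray2, zero_div, hc, Nat.cast_mul]
    rw [mul_div_cancel_left₀ _ (by exact_mod_cast this), eq_comm]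
    exact (AddCircle.coe_eq_zero_iff _).2 ⟨c, by simp⟩
  have h3 := Metric.tendsto_nhds.1 (((hr.comp hι).tendsto _).comp h2) (1 / pf n) (by positivity)
  obtain ⟨k, hk, hk'⟩ := (h3.and (eventually_gt_atTop n)).exists
  have hD : ((D0 n k : ℝ) : T) = 0 := (AddCircle.coe_eq_zero_iff _).2 ⟨D0 n k, by simp⟩
  have hW : W (E0 k) = D0 n k := by
    have : (E0 k : ℝ) / pf n = D0 n k := by
      rw [E0, ← Finset.mul_prod_erase _ _ (Finset.mem_range.2 hk'), Nat.cast_mul,
        mul_div_cancel_left₀ _ (by positivity), D0]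
    simp only [W, this, hD, psi0, add_zero]
  have h4 : r (ι (ρ (E0 k))) - r (ι (ρ 0)) = (D0 n k / pf n : ℝ) := by
    have := h1 (E0 k)
    rw [hW, show W 0 = 0 by simp [W, psi0], zero_div, QuotientAddGroup.mk_zero, sub_zero] at this
    rw [← this]; abel
  rw [Function.comp_apply, Function.comp_apply, Function.comp_apply, dist_eq_norm, h4] at hk
  have h5 := root_unique hq (by rw [smul_div hq, hD]) hk
  obtain ⟨m, hm⟩ := (AddCircle.coe_eq_zero_iff _).1 h5
  have h6 : pf n ∣ D0 n k := by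
    rw [← Int.natCast_dvd_natCast]
    refine ⟨m, ?_⟩
    rw [zsmul_eq_mul, mul_one, eq_div_iff (by positivity)] at hm
    exact_mod_cast (hm.symm.trans (mul_comm _ _))
  have h7 : (pf n).Coprime (D0 n k) := Nat.Coprime.prod_right fun i hi =>
    Nat.coprime_fermatNumber_fermatNumber (Finset.ne_of_mem_erase hi).symm
  exact absurd (Nat.Coprime.eq_one_of_dvd h7 h6) (pf_gt n).ne'

theorem sctb_XX : SCTB XX :=
  sctb_of (g := fun x : XX => x.1.2.2.1 0) (by fun_prop) (p := pf)
    (show CI ∅ fun n => 2 ^ 2 ^ n + 1 by fun_prop) pf_pos has_root2 no_root2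

def sh (z : AA) : AA :=
  (fun k => Nat.casesOn k false z.1, z.2.1, fun j => z.2.2.1 (j + 1), fun q => z.2.2.2 (q.1 + 1, q.2))

theorem cont_sh : Continuous sh := by
  refine Continuous.prodMk (continuous_pi fun k => ?_) (by fun_prop)
  cases k <;> simp only <;> fun_prop

theorem sh_inj : Function.Injective sh := by
  rintro ⟨a, b, c, d⟩ ⟨a', b', c', d'⟩ h
  simp only [sh, Prod.mk.injEq] at h ⊢
  refine ⟨funext fun k => congrFun h.1 (k + 1), h.2.1, funext fun j => ?_, funext fun q => ?_⟩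
  · simpa using congrFun h.2.2.1 (j - 1)
  · simpa using congrFun h.2.2.2 (q.1 - 1, q.2)

theorem sh_FF (n : ℕ) (x : ℕ → T) : sh (FF n x) = FF (n + 1) x := by
  simp only [sh, FF, Prod.mk.injEq, true_and]
  refine ⟨funext fun k => ?_, funext fun j => ?_, funext fun q => ?_⟩
  · cases k <;> simp [dl]
  · congr 1; push_cast; ring
  · congr 1; push_cast; ring

theorem self_copy : ∃ X' : Set XX, X' ≠ Set.univ ∧ Nonempty (X' ≃ₜ XX) := by
  have h : XX ⊆ sh ⁻¹' XX := clo (isClosed_closure.preimage cont_sh) fun n x hx => by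
    rw [Set.mem_preimage, sh_FF]; exact FF_mem _ hx
  let φ : XX → XX := fun z => ⟨sh z, h z.2⟩
  have h1 : Continuous φ := (cont_sh.comp continuous_subtype_val).subtype_mk _
  have h2 : Function.Injective φ := fun a b hab => Subtype.ext (sh_inj (congrArg Subtype.val hab))
  refine ⟨Set.range φ, fun he => ?_, ⟨(h1.isClosedEmbedding h2).isEmbedding.toHomeomorph.symm⟩⟩
  obtain ⟨z, hz⟩ : (⟨FF 0 (ray2 0), FF_mem 0 (ray2_mem 0)⟩ : XX) ∈ Set.range φ := he ▸ trivial
  have := congrArg (fun w : XX => w.1.1 0) hz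
  simp [φ, sh, FF, dl] at this

theorem fin_root {N : ℕ} (hN : 0 < N) {S : Set T} (hS : S.Finite) : {y : T | N • y ∈ S}.Finite := by
  refine hS.preimage' (f := fun y : T => N • y) fun b _ => ?_
  rcases ((fun y : T => N • y) ⁻¹' {b}).eq_empty_or_nonempty with h | ⟨y0, h⟩
  · rw [h]; exact Set.finite_empty
  · refine ((AddCircle.finite_torsion (1 : ℝ) hN).image (· + y0)).subset fun y hy => ?_
    exact ⟨y - y0, by
      simp only [Set.mem_preimage, Set.mem_singleton_iff] at h hy
      simp [smul_sub, h, hy], by simp⟩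

theorem dim_XX : DimLE 1 XX := by
  let _ := TopologicalSpace.metrizableSpaceMetric XX
  refine dim_of (f := fun z : XX => ‖z.1.2.1 0‖) (by fun_prop) fun c S hS hp => ?_
  let G : Set T := {0, (c : T), ((-c : ℝ) : T)}
  have hG : G.Finite := Set.toFinite _
  have h0 : ∀ z ∈ S, z.1.2.1 0 ∈ G := fun z hz => by
    have h := hS hz
    simp only [Set.mem_ofPred_eq] at h
    rw [← abs_lf] at h
    rw [← coe_lf (-1 / 2) (z.1.2.1 0)]
    rcases abs_eq_abs.1 (h.trans (abs_of_nonneg (h ▸ abs_nonneg _)).symm) with g | g <;>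
      simp [G, g]
  have key : ∀ (N : ℕ) (f : XX → T), 0 < N → Continuous f →
      (∀ z, N • f z = 0 ∨ N • f z = z.1.2.1 0) → ∀ a ∈ S, ∀ b ∈ S, f a = f b :=
    fun N f hN hf h a ha b hb => hp.constant_of_mapsTo (fin_root hN hG).isDiscrete hf.continuousOn
      (fun z hz => by
        rcases h z with g | g
        · simp [g, G]
        · simpa [g] using h0 z hz) ha hb
  intro a ha b hb
  refine Subtype.ext (Prod.ext (funext fun k => ?_) (Prod.ext (funext fun k => ?_)
    (Prod.ext (funext fun j => ?_) (funext fun q => ?_))))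
  · exact hp.constant (f := fun z : XX => z.1.1 k) (Continuous.continuousOn (by fun_prop)) ha hb
  · exact key (E0 k) (fun z => z.1.2.1 k) (E0_pos k) (by fun_prop)
      (fun z => Or.inr (KS0 (P3 z) k).symm) a ha b hb
  · exact key 1 (fun z => z.1.2.2.1 j) one_pos (by fun_prop)
      (fun z => by simpa using P4 z j) a ha b hb
  · exact key (pf q.2) (fun z => z.1.2.2.2 q) (pf_pos _) (by fun_prop) (fun z => P5 z q) a ha b hb

end Pool.Agent.H62.Sct
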