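import Mathlib

/-! Semicomputable and computable compact subsets of the Hilbert cube, strong computable type. -/

set_option autoImplicit false

namespace Pool.Agent.H62.Sct

/-- the Hilbert cube, with the product topology -/
abbrev Q : Type := ℕ → unitInterval

/-- the rational number `(a - b) / (c + 1)` -/
noncomputable def rat (r : ℕ × ℕ × ℕ) : ℝ := ((r.1 : ℝ) - r.2.1) / ((r.2.2 : ℝ) + 1)

/-- codes of basic open sets: finite lists of (coordinate, left end, right end) -/
abbrev BC : Type := List (ℕ × (ℕ × ℕ × ℕ) × (ℕ × ℕ × ℕ))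

/-- the basic open set with code `l` -/
def basic (l : BC) : Set Q := {x | ∀ e ∈ l, rat e.2.1 < x e.1 ∧ (x e.1 : ℝ) < rat e.2.2}

open Classical in
/-- the characteristic function of the oracle -/
noncomputable def chi (O : Set ℕ) (n : ℕ) : ℕ := if n ∈ O then 1 else 0

/-- `p` is c.e. relative to `O` -/
def REIn {α : Type} [Primcodable α] (O : Set ℕ) (p : α → Prop) : Prop :=
  ∃ f : ℕ →. ℕ, TuringReducible f (fun n => Part.some (chi O n)) ∧
    ∀ a, p a ↔ (f (Encodable.encode a)).Dom

/-- the finite covers of `K` by basic open sets are c.e. relative to `O` -/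
def Semi (O : Set ℕ) (K : Set Q) : Prop := REIn O fun L : List BC => K ⊆ ⋃ l ∈ L, basic l

/-- moreover the basic open sets that meet `K` are c.e. relative to `O` -/
def Comp (O : Set ℕ) (K : Set Q) : Prop :=
  Semi O K ∧ REIn O fun l : BC => (K ∩ basic l).Nonempty

/-- strong computable type -/
def SCT (X : Type) [TopologicalSpace X] : Prop :=
  ∀ (O : Set ℕ) (Y : Set Q), Nonempty (Y ≃ₜ X) → Semi O Y → Comp O Y

end Pool.Agent.H62.Sct
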