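import Mathlib
import Pool.Agent.Lead.Sel.Spec

set_option autoImplicit false
open Complex MeasureTheory Set Filter Topology

namespace Pool.Agent.H62.SelCM

open Pool.Agent.Lead.Sel

lemma pe (p δ : ℝ) (hδ : 0 < δ) :
    ∃ C : ℝ, 0 < C ∧ ∀ t : ℝ, 1 ≤ t → t ^ p * Real.exp (-(δ * t)) ≤ C * (1 + t ^ 2)⁻¹ := by
  set N : ℕ := ⌈p⌉₊ + 2 with hN
  refine ⟨2 * (N.factorial : ℝ) / δ ^ N, by positivity, fun t ht => ?_⟩
  have h0 : 0 < t := by linarith
  have h1 : t ^ p ≤ t ^ ⌈p⌉₊ := by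
    rw [← Real.rpow_natCast]
    exact Real.rpow_le_rpow_of_exponent_le ht (Nat.le_ceil p)
  have h2 := Real.pow_div_factorial_le_exp (δ * t) (by positivity) N
  rw [div_le_iff₀ (by positivity), mul_pow] at h2
  have h3 : t ^ p * (1 + t ^ 2) ≤ 2 * t ^ N := by
    have e : t ^ N = t ^ ⌈p⌉₊ * t ^ 2 := by rw [hN, pow_add]
    have h4 : 1 + t ^ 2 ≤ 2 * t ^ 2 := by nlinarith
    calc t ^ p * (1 + t ^ 2) ≤ t ^ ⌈p⌉₊ * (2 * t ^ 2) := by gcongr
      _ = 2 * t ^ N := by rw [e]; ring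
  rw [Real.exp_neg, ← div_eq_mul_inv, ← div_eq_mul_inv, div_le_div_iff₀ (by positivity) (by positivity)]
  refine h3.trans ?_
  rw [div_mul_eq_mul_div, le_div_iff₀ (by positivity)]
  nlinarith

lemma gam_ne (s : ℂ) (h : 0 < s.re ∨ s.im ≠ 0) (m : ℕ) : s ≠ -m := by
  rintro rfl
  rcases h with h | h
  · simp at h
    linarith [(Nat.cast_nonneg m : (0 : ℝ) ≤ m)]
  · simp at h

lemma gam_cont (σ : ℝ) (hσ : 0 < σ) : Continuous fun t : ℝ => Gamma (σ + t * I) := by
  refine continuous_iff_continuousAt.mpr fun t => ?_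
  refine ContinuousAt.comp (f := fun t : ℝ => (σ : ℂ) + t * I) (g := Gamma) ?_ (by fun_prop)
  exact continuousAt_Gamma _ (gam_ne _ (Or.inl (by simpa using hσ)))

lemma integ (h3 : G3) (σ c : ℝ) (hσ : 0 < σ) (hc : c < Real.pi / 2) :
    Integrable fun t : ℝ => ‖Gamma (σ + t * I)‖ * Real.exp (c * |t|) := by
  obtain ⟨c0, C, -, hC, h⟩ := h3 σ σ
  obtain ⟨C1, hC1, h1⟩ := pe (σ + 1 / 2) (Real.pi / 2 - c) (by linarith)
  have hcont : Continuous fun t : ℝ => ‖Gamma (σ + t * I)‖ * Real.exp (c * |t|) :=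
    (gam_cont σ hσ).norm.mul (by fun_prop)
  refine hcont.locallyIntegrable.integrable_of_isBigO_cocompact (g := fun t : ℝ => (1 + t ^ 2)⁻¹) ?_
    (integrable_inv_one_add_sq.integrableAtFilter _)
  refine Asymptotics.IsBigO.of_bound (C * C1) ?_
  have hev : ∀ᶠ t : ℝ in cocompact ℝ, 1 ≤ |t| :=
    (tendsto_norm_cocompact_atTop (E := ℝ)).eventually (eventually_ge_atTop 1)
  filter_upwards [hev] with t ht
  have e1 := (h σ t le_rfl le_rfl ht).2
  have e2 := h1 |t| ht
  rw [Real.norm_of_nonneg (by positivity), Real.norm_of_nonneg (by positivity)]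
  rw [sq_abs] at e2
  calc ‖Gamma (σ + t * I)‖ * Real.exp (c * |t|)
      ≤ C * |t| ^ (σ + 1 / 2) * Real.exp (-(Real.pi * |t| / 2)) * Real.exp (c * |t|) := by gcongr
    _ = C * (|t| ^ (σ + 1 / 2) * Real.exp (-((Real.pi / 2 - c) * |t|))) := by
      rw [mul_assoc, mul_assoc, ← Real.exp_add]
      congr 3
      ring
    _ ≤ C * (C1 * (1 + t ^ 2)⁻¹) := by gcongr
    _ = _ := by ring

lemma norm_exp_mul (σ t : ℝ) (z : ℂ) :
    ‖exp (-((σ + t * I) * z))‖ = Real.exp (-(σ * z.re) + t * z.im) := by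
  rw [norm_exp]
  congr 1
  simp
  ring

lemma integ' (h3 : G3) (σ : ℝ) (hσ : 0 < σ) (z : ℂ) (hz : |z.im| < Real.pi / 2) :
    Integrable fun t : ℝ => Gamma (σ + t * I) * exp (-((σ + t * I) * z)) := by
  refine ((integ h3 σ |z.im| hσ hz).mul_const (Real.exp (-(σ * z.re)))).mono'
    ((gam_cont σ hσ).mul (by fun_prop)).aestronglyMeasurable (Eventually.of_forall fun t => ?_)
  rw [norm_mul, norm_exp_mul, mul_assoc, ← Real.exp_add]
  refine mul_le_mul_of_nonneg_left (Real.exp_le_exp.mpr ?_) (norm_nonneg _)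
  have := le_abs_self (t * z.im)
  rw [abs_mul] at this
  linarith

lemma cm_real (h3 : G3) (σ : ℝ) (hσ : 0 < σ) (y : ℝ) :
    ∫ t : ℝ, Gamma (σ + t * I) * exp (-((σ + t * I) * y)) = 2 * Real.pi * exp (-exp y) := by
  have hm : ∀ t : ℝ, mellin (fun x : ℝ => (Real.exp (-x) : ℂ)) (σ + t * I) = Gamma (σ + t * I) := by
    intro t
    rw [Gamma_eq_integral (by simpa using hσ), GammaIntegral_eq_mellin]
  have h := mellinInv_mellin_eq σ (fun x : ℝ => (Real.exp (-x) : ℂ)) (Real.exp_pos y) ?_ ?_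
    (by fun_prop)
  · unfold mellinInv at h
    simp_rw [hm] at h
    have e : ∀ t : ℝ, ((Real.exp y : ℝ) : ℂ) ^ (-((σ : ℂ) + t * I)) • Gamma (σ + t * I) =
        Gamma (σ + t * I) * exp (-((σ + t * I) * y)) := by
      intro t
      rw [smul_eq_mul, mul_comm, cpow_def_of_ne_zero (by simp), ← ofReal_log (Real.exp_pos y).le,
        Real.log_exp]
      congr 2
      ring
    simp_rw [e] at h
    have hp : (Real.pi : ℂ) ≠ 0 := by simp [Real.pi_ne_zero]
    push_cast at h
    rw [← h, real_smul, ← mul_assoc]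
    have e2 : (2 * Real.pi : ℂ) * ((1 / (2 * Real.pi) : ℝ) : ℂ) = 1 := by
      push_cast
      field_simp
    rw [e2, one_mul]
  · have := Complex.GammaIntegral_convergent (s := σ) (by simpa using hσ)
    unfold MellinConvergent
    simpa only [smul_eq_mul, mul_comm] using this
  · unfold VerticalIntegrable
    simp_rw [hm]
    simpa using integ' h3 σ hσ 0 (by simpa using Real.pi_pos)

lemma cm_diff (h3 : G3) (σ : ℝ) (hσ : 0 < σ) (z : ℂ) (hz : |z.im| < Real.pi / 2) :
    DifferentiableAt ℂ (fun w : ℂ => ∫ t : ℝ, Gamma (σ + t * I) * exp (-((σ + t * I) * w))) z := by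
  set δ := (Real.pi / 2 - |z.im|) / 2 with hδ
  have hδ0 : 0 < δ := by linarith
  refine (hasDerivAt_integral_of_dominated_loc_of_deriv_le (μ := volume)
    (F := fun (w : ℂ) (t : ℝ) => Gamma (σ + t * I) * exp (-((σ + t * I) * w)))
    (F' := fun (w : ℂ) (t : ℝ) => Gamma (σ + t * I) * (exp (-((σ + t * I) * w)) * (-(σ + t * I))))
    (bound := fun t : ℝ => ‖Gamma (((σ + 1 : ℝ) : ℂ) + t * I)‖ * Real.exp ((|z.im| + δ) * |t|) *
      Real.exp (σ * (|z.re| + δ)))
    (Metric.ball_mem_nhds z hδ0) ?_ (integ' h3 σ hσ z hz) ?_ ?_ ?_ ?_).2.differentiableAt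
  · exact Eventually.of_forall fun w => ((gam_cont σ hσ).mul (by fun_prop)).aestronglyMeasurable
  · exact ((gam_cont σ hσ).mul (by fun_prop)).aestronglyMeasurable
  · refine Eventually.of_forall fun t w hw => ?_
    have hs : (σ : ℂ) + t * I ≠ 0 := by
      intro e
      have := congrArg re e
      simp at this
      linarith
    have e : Gamma (((σ + 1 : ℝ) : ℂ) + t * I) = (σ + t * I) * Gamma (σ + t * I) := by
      rw [← Gamma_add_one _ hs]
      congr 1
      push_cast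
      ring
    rw [e, norm_mul, norm_mul, norm_mul, norm_neg, norm_exp_mul, mul_assoc, ← Real.exp_add,
      mul_comm ‖(σ : ℂ) + t * I‖, mul_assoc, mul_comm ‖(σ : ℂ) + t * I‖]
    refine mul_le_mul_of_nonneg_left (mul_le_mul_of_nonneg_right (Real.exp_le_exp.mpr ?_)
      (norm_nonneg _)) (norm_nonneg _)
    rw [Metric.mem_ball, dist_eq_norm] at hw
    have a1 := (abs_re_le_norm (w - z)).trans hw.le
    have a2 := (abs_im_le_norm (w - z)).trans hw.le
    rw [sub_re] at a1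
    rw [sub_im] at a2
    have a3 : |w.im| ≤ |z.im| + δ := by linarith [abs_sub_abs_le_abs_sub w.im z.im]
    have a4 : -w.re ≤ |z.re| + δ := by
      linarith [abs_sub_abs_le_abs_sub w.re z.re, neg_le_abs w.re]
    have a5 := le_abs_self (t * w.im)
    rw [abs_mul] at a5
    nlinarith [abs_nonneg t]
  · exact (integ h3 (σ + 1) (|z.im| + δ) (by linarith) (by linarith)).mul_const _
  · refine Eventually.of_forall fun t w _ => ?_
    refine HasDerivAt.const_mul _ (HasDerivAt.cexp ?_)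
    have := ((hasDerivAt_id w).const_mul ((σ : ℂ) + t * I)).fun_neg
    simpa only [mul_one, id] using this

/-- the Cahen-Mellin integral in the right half plane -/
theorem cm (h3 : G3) (σ : ℝ) (hσ : 0 < σ) (z : ℂ) (hz : |z.im| < Real.pi / 2) :
    ∫ t : ℝ, Gamma (σ + t * I) * exp (-((σ + t * I) * z)) = 2 * Real.pi * exp (-exp z) := by
  set U : Set ℂ := {w | |w.im| < Real.pi / 2} with hU
  have hUo : IsOpen U := isOpen_lt (by fun_prop) continuous_const
  have hUc : Convex ℝ U := by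
    have : U = {w : ℂ | w.im < Real.pi / 2} ∩ {w : ℂ | -(Real.pi / 2) < w.im} := by
      ext w
      simp [hU, abs_lt, and_comm]
    rw [this]
    exact (convex_halfSpace_im_lt _).inter (convex_halfSpace_im_gt _)
  have h1 : AnalyticOnNhd ℂ
      (fun w : ℂ => ∫ t : ℝ, Gamma (σ + t * I) * exp (-((σ + t * I) * w))) U :=
    DifferentiableOn.analyticOnNhd
      (fun w hw => (cm_diff h3 σ hσ w hw).differentiableWithinAt) hUo
  have h2 : AnalyticOnNhd ℂ (fun w : ℂ => 2 * Real.pi * exp (-exp w)) U :=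
    DifferentiableOn.analyticOnNhd (by fun_prop) hUo
  refine h1.eqOn_of_preconnected_of_frequently_eq h2 hUc.isPreconnected (z₀ := 0)
    (by simpa [hU] using Real.pi_pos) ?_ hz
  have ht : Tendsto (fun y : ℝ => (y : ℂ)) (𝓝[≠] 0) (𝓝[≠] 0) := by
    refine tendsto_nhdsWithin_iff.mpr ⟨?_, ?_⟩
    · exact (continuous_ofReal.tendsto' 0 0 (by simp)).mono_left nhdsWithin_le_nhds
    · filter_upwards [self_mem_nhdsWithin] with y hy
      simpa using hy
  exact ht.frequently (Frequently.of_forall fun y => cm_real h3 σ hσ y)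

end Pool.Agent.H62.SelCM
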