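import Mathlib
import Pool.Agent.H62.SelCM

set_option autoImplicit false
open Complex MeasureTheory Set Filter Topology

namespace Pool.Agent.H62.SelCon

open Pool.Agent.H62.SelCM

lemma exp_bd {A B σ t : ℝ} {z : ℂ} (h1 : A ≤ σ) (h2 : σ ≤ B) (hz : |z.re| ≤ 3) :
    ‖exp (-((σ + t * I) * z))‖ ≤ Real.exp (3 * (|A| + |B|)) * Real.exp (t * z.im) := by
  rw [norm_exp_mul, ← Real.exp_add]
  refine Real.exp_le_exp.mpr ?_
  have a1 : |σ| ≤ |A| + |B| := by
    rw [abs_le]
    constructor
    · linarith [neg_abs_le A, abs_nonneg B]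
    · linarith [le_abs_self B, abs_nonneg A]
  have a2 := neg_le_abs (σ * z.re)
  rw [abs_mul] at a2
  nlinarith [abs_nonneg σ, abs_nonneg z.re]

/-- moving the upper part of a vertical line to the left -/
theorem contour (Ψ : ℂ → ℂ) (A B t0 M2 M3 P : ℝ) (hAB : A ≤ B) (ht0 : 1 ≤ t0)
    (hM2 : 0 ≤ M2) (hM3 : 0 ≤ M3)
    (hd : ∀ w : ℂ, 0 < w.im → DifferentiableAt ℂ Ψ w)
    (hl : ∀ t : ℝ, t0 ≤ t →
      ‖Ψ (A + t * I)‖ ≤ M2 * (1 + t ^ 2)⁻¹ * Real.exp (-(Real.pi * t / 2)))
    (hs : ∀ σ t : ℝ, A ≤ σ → σ ≤ B → t0 ≤ t →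
      ‖Ψ (σ + t * I)‖ ≤ M3 * t ^ P * Real.exp (-(Real.pi * t / 2))) :
    ∃ M : ℝ, ∀ z : ℂ, |z.re| ≤ 3 → z.im < Real.pi / 2 →
      ‖∫ t in Ioi t0, Ψ (B + t * I) * exp (-((B + t * I) * z))‖ ≤ M := by
  set L := Real.exp (3 * (|A| + |B|)) with hL
  have hL0 : 0 < L := Real.exp_pos _
  refine ⟨M3 * t0 ^ P * L * (B - A) + M2 * L * Real.pi, fun z hz1 hz2 => ?_⟩
  have hBA : 0 ≤ B - A := by linarith
  set f : ℂ → ℂ := fun w => Ψ w * exp (-(w * z)) with hf
  by_cases hint : IntegrableOn (fun t : ℝ => f (B + t * I)) (Ioi t0); swap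
  · rw [integral_undef hint, norm_zero]
    have : 0 < t0 := by linarith
    positivity
  set δ := Real.pi / 2 - z.im with hδ
  have hδ0 : 0 < δ := by linarith
  obtain ⟨C, hC, hpe⟩ := pe P δ hδ0
  have hor : ∀ t : ℝ, t0 ≤ t →
      ‖∫ x in A..B, f (x + t * I)‖ ≤ M3 * (t ^ P * Real.exp (-(δ * t))) * L * (B - A) := by
    intro t ht
    have ht1 : 0 < t := by linarith
    have := intervalIntegral.norm_integral_le_of_norm_le_const (a := A) (b := B)
      (f := fun x : ℝ => f (x + t * I)) (C := M3 * (t ^ P * Real.exp (-(δ * t))) * L) ?_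
    · rwa [abs_of_nonneg hBA] at this
    · intro x hx
      rw [uIoc_of_le hAB] at hx
      simp only [hf, norm_mul]
      calc _ ≤ (M3 * t ^ P * Real.exp (-(Real.pi * t / 2))) * (L * Real.exp (t * z.im)) :=
            mul_le_mul (hs x t hx.1.le hx.2 ht) (exp_bd hx.1.le hx.2 hz1) (norm_nonneg _)
              (by positivity)
        _ = M3 * (t ^ P * (Real.exp (-(Real.pi * t / 2)) * Real.exp (t * z.im))) * L := by ring
        _ = _ := by
          rw [← Real.exp_add]
          congr 4
          rw [hδ]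
          ring
  have hleft : ∀ T : ℝ, t0 ≤ T → ‖∫ y in t0..T, f (A + y * I)‖ ≤ M2 * L * Real.pi := by
    intro T hT
    have hi : Integrable fun y : ℝ => M2 * L * (1 + y ^ 2)⁻¹ :=
      integrable_inv_one_add_sq.const_mul _
    refine (intervalIntegral.norm_integral_le_of_norm_le hT (g := fun y => M2 * L * (1 + y ^ 2)⁻¹)
      (Eventually.of_forall fun y hy => ?_) hi.intervalIntegrable).trans ?_
    · have hy0 : 0 < y := by linarith [hy.1]
      simp only [hf, norm_mul]
      calc _ ≤ (M2 * (1 + y ^ 2)⁻¹ * Real.exp (-(Real.pi * y / 2))) * (L * Real.exp (y * z.im)) :=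
            mul_le_mul (hl y hy.1.le) (exp_bd le_rfl hAB hz1) (norm_nonneg _) (by positivity)
        _ = M2 * L * (1 + y ^ 2)⁻¹ * (Real.exp (-(Real.pi * y / 2)) * Real.exp (y * z.im)) := by
          ring
        _ ≤ M2 * L * (1 + y ^ 2)⁻¹ * 1 := by
          gcongr
          rw [← Real.exp_add, Real.exp_le_one_iff]
          nlinarith
        _ = _ := mul_one _
    · rw [intervalIntegral.integral_of_le hT]
      refine (setIntegral_le_integral hi (Eventually.of_forall fun y => by positivity)).trans ?_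
      rw [integral_const_mul, integral_univ_inv_one_add_sq]
  have hrect : ∀ T : ℝ, t0 ≤ T → ‖∫ y in t0..T, f (B + y * I)‖ ≤
      M3 * t0 ^ P * L * (B - A) + M2 * L * Real.pi + M3 * (C * (1 + T ^ 2)⁻¹) * L * (B - A) := by
    intro T hT
    have h := integral_boundary_rect_eq_zero_of_differentiableOn f (A + t0 * I) (B + T * I) ?_
    · simp only [add_re, ofReal_re, mul_re, I_re, mul_zero, ofReal_im, I_im, mul_one, sub_self,
        add_zero, add_im, mul_im, zero_add] at h
      have e : I • ∫ y in t0..T, f (B + y * I) = -(∫ x in A..B, f (x + t0 * I)) +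
          I • (∫ y in t0..T, f (A + y * I)) + ∫ x in A..B, f (x + T * I) := by
        linear_combination h
      have e2 := congrArg norm e
      rw [norm_smul, norm_I, one_mul] at e2
      rw [e2]
      refine norm_add_le_of_le (norm_add_le_of_le ?_ ?_) ?_
      · rw [norm_neg]
        refine (hor t0 le_rfl).trans ?_
        have ht1 : 0 < t0 := by linarith
        have : Real.exp (-(δ * t0)) ≤ 1 := Real.exp_le_one_iff.mpr (by nlinarith)
        gcongr
        exact mul_le_of_le_one_right (by positivity) this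
      · rw [norm_smul, norm_I, one_mul]
        exact hleft T hT
      · refine (hor T hT).trans ?_
        have := hpe T (le_trans ht0 hT)
        gcongr
    · intro w hw
      have hw2 := hw.2
      simp only [add_im, ofReal_im, mul_im, ofReal_re, I_im, mul_one, I_re, mul_zero, add_zero,
        zero_add, mem_preimage, uIcc_of_le hT] at hw2
      exact ((hd w (by linarith [hw2.1])).mul (by fun_prop)).differentiableWithinAt
  have h1 := (intervalIntegral_tendsto_integral_Ioi t0 hint tendsto_id).norm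
  have h2 : Tendsto (fun T : ℝ => M3 * t0 ^ P * L * (B - A) + M2 * L * Real.pi +
      M3 * (C * (1 + T ^ 2)⁻¹) * L * (B - A)) atTop
      (𝓝 (M3 * t0 ^ P * L * (B - A) + M2 * L * Real.pi + M3 * (C * 0) * L * (B - A))) := by
    have : Tendsto (fun T : ℝ => (1 + T ^ 2)⁻¹) atTop (𝓝 0) :=
      tendsto_inv_atTop_zero.comp
        (tendsto_atTop_add_const_left _ _ (tendsto_pow_atTop two_ne_zero))
    exact tendsto_const_nhds.add ((((this.const_mul C).const_mul M3).mul_const L).mul_const _)
  simp only [mul_zero, zero_mul, add_zero] at h2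
  exact le_of_tendsto_of_tendsto h1 h2 ((eventually_ge_atTop t0).mono fun T hT => hrect T hT)

/-- extraction of a Fourier coefficient -/
theorem fourier (c : ℕ → ℂ) (hc : Summable fun n => ‖c n‖) (M : ℝ)
    (h : ∀ u : ℝ, 1 ≤ u → u ≤ 2 → ‖∑' n : ℕ, c n * exp (-(2 * Real.pi * I * n * u))‖ ≤ M)
    (N : ℕ) : ‖c N‖ ≤ M := by
  have hn : ∀ x u : ℝ, ‖exp (2 * Real.pi * I * x * u)‖ = 1 := by
    intro x u
    rw [norm_exp]
    simp
  set F : ℕ → ℝ → ℂ := fun n u => c n * exp (2 * Real.pi * I * ((N : ℝ) - n : ℝ) * u) with hF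
  have hFn : ∀ n u, ‖F n u‖ = ‖c n‖ := fun n u => by rw [hF, norm_mul, hn, mul_one]
  have h1 := hasSum_integral_of_summable_integral_norm (μ := volume.restrict (Ioc (1 : ℝ) 2))
    (F := F) (fun n => ?_) ?_
  · have h2 : ∀ n, n ≠ N → ∫ u in Ioc (1 : ℝ) 2, F n u = 0 := by
      intro n hnN
      have hne : 2 * Real.pi * I * ((N : ℝ) - n : ℝ) ≠ 0 := by
        have : ((N : ℝ) - n : ℝ) ≠ 0 := sub_ne_zero.mpr (by exact_mod_cast hnN.symm)
        have hp := Real.pi_ne_zero
        simp only [ne_eq, mul_eq_zero, ofReal_eq_zero, I_ne_zero]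
        simp [this, hp]
      rw [hF, integral_const_mul, ← intervalIntegral.integral_of_le (by norm_num),
        integral_exp_mul_complex hne]
      have e1 := exp_int_mul_two_pi_mul_I (((N : ℤ) - n) * 2)
      have e2 := exp_int_mul_two_pi_mul_I ((N : ℤ) - n)
      have : exp (2 * Real.pi * I * ((N : ℝ) - n : ℝ) * (2 : ℝ)) =
          exp (2 * Real.pi * I * ((N : ℝ) - n : ℝ) * (1 : ℝ)) := by
        have e3 := e1.trans e2.symm
        push_cast at e3 ⊢
        convert e3 using 2 <;> ring
      rw [this]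
      simp
    have h3 : ∫ u in Ioc (1 : ℝ) 2, F N u = c N := by
      simp [hF]
      norm_num
    have h4 := (hasSum_single N h2).unique h1
    rw [← h3, h4, ← intervalIntegral.integral_of_le (by norm_num)]
    have := intervalIntegral.norm_integral_le_of_norm_le_const (a := 1) (b := 2)
      (f := fun u : ℝ => ∑' n, F n u) (C := M) ?_
    · norm_num at this
      exact this
    · intro u hu
      rw [uIoc_of_le (by norm_num)] at hu
      have e : ∑' n, F n u = (∑' n : ℕ, c n * exp (-(2 * Real.pi * I * n * u))) *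
          exp (2 * Real.pi * I * (N : ℝ) * u) := by
        rw [← tsum_mul_right]
        refine tsum_congr fun n => ?_
        rw [hF, mul_assoc (c n), ← exp_add]
        push_cast
        ring_nf
      rw [e, norm_mul, hn, mul_one]
      exact h u hu.1.le hu.2
  · exact (Continuous.integrableOn_Icc (by rw [hF]; fun_prop)).mono_set Ioc_subset_Icc_self
  · simp_rw [hFn]
    simpa using hc.mul_left (2 - 1)

end Pool.Agent.H62.SelCon
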