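import Mathlib
import Pool.Agent.H62.SelCon

set_option autoImplicit false
open Complex MeasureTheory Set Filter Topology

namespace Pool.Agent.H62.SelCG1a

open Pool.Agent.Lead.Sel Pool.Agent.H62.SelCM Pool.Agent.H62.SelCon

lemma ram_summable {a : ℕ → ℂ} (h : Ram a) : LSeriesSummable a (2 : ℝ) := by
  obtain ⟨C, hC⟩ := h (1 / 2) (by norm_num)
  refine LSeriesSummable_of_le_const_mul_rpow (x := 3 / 2) (by simp; norm_num) ⟨C, fun n hn => ?_⟩
  rw [show (3 / 2 - 1 : ℝ) = 1 / 2 by norm_num]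
  exact hC n (Nat.one_le_iff_ne_zero.mpr hn)

lemma norm_term {a : ℕ → ℂ} {s : ℂ} {σ : ℝ} (hs : s.re = σ) (n : ℕ) :
    ‖LSeries.term a s n‖ = ‖LSeries.term a σ n‖ := by
  rw [LSeries.norm_term_eq, LSeries.norm_term_eq, hs, ofReal_re]

lemma norm_L_le {a : ℕ → ℂ} {σ : ℝ} (h : LSeriesSummable a σ) {s : ℂ} (hs : σ ≤ s.re) :
    ‖LSeries a s‖ ≤ ∑' n, ‖LSeries.term a σ n‖ :=
  tsum_of_norm_bounded (summable_norm_iff.mpr h).hasSum fun n =>
    LSeries.norm_term_le_of_re_le_re a (by simpa using hs) n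

lemma rep (h3 : G3) {a : ℕ → ℂ} (h : LSeriesSummable a (2 : ℝ)) (k : ℕ) (z : ℂ)
    (hz : |z.im| < Real.pi / 2) :
    HasSum (fun n : ℕ => (if n = 0 then 0 else a n * n ^ k * (2 * Real.pi)) * exp (-(n * exp z)))
      (∫ t : ℝ, Gamma ((k + 2 : ℝ) + t * I) * exp (-(((k + 2 : ℝ) + t * I) * z)) *
        LSeries a (2 + t * I)) := by
  have hσ : (0 : ℝ) < k + 2 := by positivity
  have hi := integ' h3 (k + 2) hσ z hz
  have key : ∀ n : ℕ, n ≠ 0 → ∀ t : ℝ,
      Gamma ((k + 2 : ℝ) + t * I) * exp (-(((k + 2 : ℝ) + t * I) * z)) *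
        LSeries.term a (2 + t * I) n = a n * n ^ k *
      (Gamma ((k + 2 : ℝ) + t * I) * exp (-(((k + 2 : ℝ) + t * I) * (z + Real.log n)))) := by
    intro n hn t
    have hn0 : (n : ℂ) ≠ 0 := by exact_mod_cast hn
    rw [LSeries.term_of_ne_zero hn, cpow_def_of_ne_zero hn0, ← natCast_log, div_eq_mul_inv,
      ← exp_neg]
    have e : (n : ℂ) ^ k = exp (k * (Real.log n : ℝ)) := by
      rw [exp_nat_mul, natCast_log, exp_log hn0]
    have e2 : exp (-(((k + 2 : ℝ) + t * I) * z)) * exp (-((Real.log n : ℝ) * (2 + t * I))) =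
        exp (k * (Real.log n : ℝ)) * exp (-(((k + 2 : ℝ) + t * I) * (z + Real.log n))) := by
      rw [← exp_add, ← exp_add]
      congr 1
      push_cast
      ring
    rw [e]
    linear_combination (Gamma ((k + 2 : ℝ) + t * I) * a n) * e2
  have h1 := hasSum_integral_of_summable_integral_norm (μ := volume)
    (F := fun (n : ℕ) (t : ℝ) => Gamma ((k + 2 : ℝ) + t * I) * exp (-(((k + 2 : ℝ) + t * I) * z)) *
        LSeries.term a (2 + t * I) n) (fun n => ?_) ?_
  · simp_rw [tsum_mul_left] at h1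
    have e : ∀ n : ℕ, (∫ t : ℝ, Gamma ((k + 2 : ℝ) + t * I) * exp (-(((k + 2 : ℝ) + t * I) * z)) *
        LSeries.term a (2 + t * I) n) =
        (if n = 0 then 0 else a n * n ^ k * (2 * Real.pi)) * exp (-(n * exp z)) := by
      intro n
      split_ifs with hn
      · simp [hn]
      · simp_rw [key n hn]
        have hn0 : (n : ℂ) ≠ 0 := by exact_mod_cast hn
        rw [integral_const_mul, cm h3 _ hσ _ (by rwa [add_im, ofReal_im, add_zero]), exp_add,
          natCast_log, exp_log hn0, mul_comm (exp z), mul_assoc _ (2 * Real.pi : ℂ)]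
    simp_rw [e] at h1
    exact h1
  · rcases eq_or_ne n 0 with rfl | hn
    · simp
    · simp_rw [key n hn]
      exact (integ' h3 _ hσ _ (by rwa [add_im, ofReal_im, add_zero])).const_mul _
  · have e : ∀ (n : ℕ) (t : ℝ), ‖LSeries.term a (2 + t * I) n‖ = ‖LSeries.term a (2 : ℝ) n‖ :=
      fun n t => norm_term (by simp) n
    simp_rw [norm_mul _ (LSeries.term a _ _), e, integral_mul_const]
    exact (summable_norm_iff.mpr h).mul_left _

lemma strip (h5 : G5) {a : ℕ → ℂ} {m : ℕ} {G : ℂ → ℂ} (h : LSeriesSummable a (2 : ℝ))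
    (hG : Differentiable ℂ G) (ho : ∃ ρ C : ℝ, ∀ z : ℂ, ‖G z‖ ≤ C * Real.exp (‖z‖ ^ ρ))
    (hL : ∀ s : ℂ, 1 < s.re → G s = (s - 1) ^ m * LSeries a s) (R C t0 p : ℝ) (ht0 : 1 ≤ t0)
    (hb : ∀ t : ℝ, t0 ≤ |t| → ‖G (-R + t * I)‖ ≤ C * |t| ^ p) :
    ∃ (N : ℕ) (C' : ℝ), 0 ≤ C' ∧ ∀ s : ℂ, -R ≤ s.re → s.re ≤ 2 → ‖G s‖ ≤ C' * (1 + |s.im|) ^ N := by
  set N := max m ⌈p⌉₊ with hN
  obtain ⟨K, hK⟩ := (isCompact_Icc (a := -t0) (b := t0)).exists_bound_of_continuousOn
    (f := fun t : ℝ => G (-R + t * I)) (by have := hG.continuous; fun_prop)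
  set M0 := ∑' n, ‖LSeries.term a (2 : ℝ) n‖ with hM0
  have hM00 : 0 ≤ M0 := tsum_nonneg fun n => norm_nonneg _
  have hh := h5 G (-R) 2 N hG ho ⟨|C| + |K| + M0, fun s hs => ?_⟩
  · obtain ⟨C', hC'⟩ := hh
    refine ⟨N, |C'|, abs_nonneg _, fun s h1 h2 => (hC' s h1 h2).trans ?_⟩
    gcongr
    exact le_abs_self _
  have h1 : 1 ≤ 1 + |s.im| := by linarith [abs_nonneg s.im]
  have h2 : 1 ≤ (1 + |s.im|) ^ N := one_le_pow₀ h1
  have hC := abs_nonneg C
  have hK0 := abs_nonneg K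
  rcases hs with hs | hs
  · have e : s = -R + s.im * I := by
      apply Complex.ext <;> simp [hs]
    by_cases ht : t0 ≤ |s.im|
    · have h3 := hb s.im ht
      rw [← e] at h3
      have h4 : |s.im| ^ p ≤ (1 + |s.im|) ^ N := by
        calc |s.im| ^ p ≤ |s.im| ^ (N : ℝ) := by
              refine Real.rpow_le_rpow_of_exponent_le (by linarith) ((Nat.le_ceil p).trans ?_)
              exact_mod_cast le_max_right _ _
          _ = |s.im| ^ N := Real.rpow_natCast _ _
          _ ≤ _ := by gcongr; linarith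
      have h6 : C * |s.im| ^ p ≤ |C| * (1 + |s.im|) ^ N :=
        mul_le_mul (le_abs_self _) h4 (by positivity) hC
      nlinarith
    · have h3 := hK s.im (abs_le.mp (not_le.mp ht).le)
      simp only [← e] at h3
      nlinarith [le_abs_self K]
  · rw [hL s (by linarith), norm_mul, norm_pow]
    have h3 : ‖s - 1‖ ≤ 1 + |s.im| := by
      have := norm_le_abs_re_add_abs_im (s - 1)
      simp only [sub_re, hs, one_re, sub_im, one_im, sub_zero] at this
      norm_num at this
      exact this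
    have h4 : ‖s - 1‖ ^ m ≤ (1 + |s.im|) ^ N :=
      (pow_le_pow_left₀ (norm_nonneg _) h3 m).trans (pow_le_pow_right₀ h1 (le_max_left _ _))
    have h6 := mul_le_mul h4 (norm_L_le h (s := s) hs.ge) (norm_nonneg _) (by positivity)
    nlinarith

lemma unif (h0 : CG0) (h3 : G3) (h5 : G5) (a : ℕ → ℂ) (D : ℝ) (m : ℕ) (G : ℂ → ℂ) (ha : a 1 = 1)
    (hR : Ram a) (hS : SelData a D m G) (hD : D < 1) (k : ℕ) :
    ∃ M : ℝ, ∀ z : ℂ, |z.re| ≤ 3 → 0 ≤ z.im → z.im < Real.pi / 2 →
      ‖∫ t : ℝ, Gamma ((k + 2 : ℝ) + t * I) * exp (-(((k + 2 : ℝ) + t * I) * z)) *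
        LSeries a (2 + t * I)‖ ≤ M := by
  obtain ⟨E, R0, hE⟩ := h0 a D m G ha hR hS
  obtain ⟨hG, ho, hL, -⟩ := hS
  have hs := ram_summable hR
  set R := max (max R0 0) ((k + E + 5 / 2) / (1 - D)) with hRd
  have hR0 : R0 ≤ R := (le_max_left _ _).trans (le_max_left _ _)
  have hR1 : 0 ≤ R := (le_max_right _ _).trans (le_max_left _ _)
  have hR2 : k + E + 5 / 2 ≤ R * (1 - D) :=
    (div_le_iff₀ (by linarith)).mp (le_max_right _ _)
  obtain ⟨c, C, t0, -, ht0, hb⟩ := hE R hR0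
  obtain ⟨N, C2, hC2, hN⟩ := strip h5 hs hG ho hL R C t0 _ ht0 fun t ht => (hb t ht).2
  obtain ⟨c1, C1, -, hC1, hg⟩ := h3 (k - R) (k + 2)
  set Ψ : ℂ → ℂ := fun w => Gamma w * (G (w - k) / (w - k - 1) ^ m) with hΨ
  have hΨn : ∀ σ t : ℝ, 1 ≤ t → ‖Ψ (σ + t * I)‖ ≤ ‖Gamma (σ + t * I)‖ * ‖G (σ + t * I - k)‖ := by
    intro σ t ht
    rw [hΨ, norm_mul, norm_div, norm_pow]
    gcongr
    refine div_le_self (norm_nonneg _) (one_le_pow₀ ?_)
    have := abs_im_le_norm ((σ : ℂ) + t * I - k - 1)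
    simp at this
    exact ht.trans ((le_abs_self _).trans this)
  have hh := contour Ψ (k - R) (k + 2) t0 (C1 * |C| * 2) (C1 * C2 * 2 ^ N) (k + 5 / 2 + N)
    (by linarith) ht0 (by positivity) (by positivity) ?_ ?_ ?_
  · obtain ⟨M, hM⟩ := hh
    set M0 := ∑' n, ‖LSeries.term a (2 : ℝ) n‖ with hM0
    have hM00 : 0 ≤ M0 := tsum_nonneg fun n => norm_nonneg _
    have hσ : (0 : ℝ) < k + 2 := by positivity
    have hi0 := integ h3 (k + 2) 0 hσ (by positivity)
    simp only [zero_mul, Real.exp_zero, mul_one] at hi0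
    set K := Real.exp (3 * (|(k + 2 : ℝ)| + |(k + 2 : ℝ)|)) * Real.exp (t0 * (Real.pi / 2)) * M0
    refine ⟨(∫ t : ℝ, ‖Gamma ((k + 2 : ℝ) + t * I)‖ * K) + M, fun z hz1 hz2 hz3 => ?_⟩
    have hLe : ∀ t : ℝ, LSeries a (2 + t * I) = G (2 + t * I) / (2 + t * I - 1) ^ m := by
      intro t
      have hne : (2 + t * I - 1 : ℂ) ≠ 0 := by
        intro e
        have := congrArg re e
        norm_num at this
      rw [hL _ (by simp)]
      field_simp
    have hLc : Continuous fun t : ℝ => LSeries a (2 + t * I) := by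
      simp_rw [hLe]
      have := hG.continuous
      refine Continuous.div (by fun_prop) (by fun_prop) fun t => pow_ne_zero _ fun e => ?_
      have := congrArg re e
      norm_num at this
    have hLb : ∀ t : ℝ, ‖LSeries a (2 + t * I)‖ ≤ M0 := fun t => norm_L_le hs (by simp)
    have hi := (integ' h3 (k + 2) hσ z (by rwa [abs_of_nonneg hz2])).mul_bdd
      hLc.aestronglyMeasurable (Eventually.of_forall hLb)
    rw [← intervalIntegral.integral_Iic_add_Ioi (b := t0) hi.integrableOn hi.integrableOn]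
    refine norm_add_le_of_le ?_ ?_
    · refine (norm_integral_le_of_norm_le (hi0.mul_const K).integrableOn ?_).trans
        (setIntegral_le_integral (hi0.mul_const K) (Eventually.of_forall fun t => by positivity))
      refine (ae_restrict_iff' measurableSet_Iic).mpr (Eventually.of_forall fun t ht => ?_)
      rw [norm_mul, norm_mul, mul_assoc]
      gcongr
      refine mul_le_mul ((exp_bd le_rfl le_rfl hz1).trans ?_) (hLb t) (norm_nonneg _)
        (by positivity)
      gcongr Real.exp _ * Real.exp ?_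
      have : t ≤ t0 := ht
      nlinarith
    · refine le_of_eq_of_le (congrArg norm (integral_congr_ae (Eventually.of_forall fun t => ?_)))
        (hM z hz1 hz3)
      simp only [hLe, hΨ]
      have e : (((k + 2 : ℝ) : ℂ) + t * I - k) = 2 + t * I := by
        push_cast
        ring
      simp only [e]
      ring
  · intro w hw
    refine (differentiableAt_Gamma _ (gam_ne _ (Or.inr hw.ne'))).mul
      (DifferentiableAt.div (by fun_prop) (by fun_prop) (pow_ne_zero _ fun e => ?_))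
    have := congrArg im e
    simp at this
    linarith
  · intro t ht
    have ht1 : 1 ≤ t := ht0.trans ht
    have hta : |t| = t := abs_of_nonneg (by linarith)
    refine (hΨn _ t ht1).trans ?_
    have e : (((k - R : ℝ) : ℂ) + t * I - k) = -R + t * I := by
      push_cast
      ring
    have b1 := (hg (k - R) t le_rfl (by linarith) (by rwa [hta])).2
    have b2 := (hb t (by rwa [hta])).2
    rw [hta] at b1 b2
    have b3 : C * t ^ (D * R + E) ≤ |C| * t ^ (D * R + E) := by gcongr; exact le_abs_self _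
    have b4 : t ^ (k - R + 1 / 2) * t ^ (D * R + E) ≤ 2 * (1 + t ^ 2)⁻¹ := by
      rw [← Real.rpow_add (by linarith)]
      calc t ^ (k - R + 1 / 2 + (D * R + E)) ≤ t ^ (-2 : ℝ) :=
            Real.rpow_le_rpow_of_exponent_le ht1 (by linarith)
        _ = (t ^ 2)⁻¹ := by rw [Real.rpow_neg (by linarith), Real.rpow_two]
        _ ≤ _ := by
          rw [← div_eq_mul_inv, le_div_iff₀ (by positivity), inv_mul_le_iff₀ (by positivity)]
          nlinarith
    rw [e]
    calc _ ≤ (C1 * t ^ (k - R + 1 / 2) * Real.exp (-(Real.pi * t / 2))) * (|C| * t ^ (D * R + E)) :=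
          mul_le_mul b1 (b2.trans b3) (norm_nonneg _) (by positivity)
      _ = C1 * |C| * (t ^ (k - R + 1 / 2) * t ^ (D * R + E)) * Real.exp (-(Real.pi * t / 2)) := by
        ring
      _ ≤ C1 * |C| * (2 * (1 + t ^ 2)⁻¹) * Real.exp (-(Real.pi * t / 2)) := by gcongr
      _ = _ := by ring
  · intro σ t h1 h2 ht
    have ht1 : 1 ≤ t := ht0.trans ht
    have hta : |t| = t := abs_of_nonneg (by linarith)
    refine (hΨn _ t ht1).trans ?_
    have b1 := (hg σ t h1 h2 (by rwa [hta])).2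
    have b2 := hN (σ + t * I - k) (by simp; linarith) (by simp; linarith)
    simp only [sub_im, add_im, ofReal_im, mul_im, ofReal_re, I_im, mul_one, I_re, mul_zero,
      add_zero, zero_add, natCast_im, sub_zero] at b2
    rw [hta] at b1 b2
    have b3 : t ^ (σ + 1 / 2) ≤ t ^ (k + 5 / 2 : ℝ) :=
      Real.rpow_le_rpow_of_exponent_le ht1 (by linarith)
    have b4 : (1 + t) ^ N ≤ (2 * t) ^ N := by gcongr; linarith
    calc _ ≤ (C1 * t ^ (k + 5 / 2 : ℝ) * Real.exp (-(Real.pi * t / 2))) * (C2 * (2 * t) ^ N) := by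
          refine mul_le_mul (b1.trans ?_) (b2.trans ?_) (norm_nonneg _) (by positivity) <;> gcongr
      _ = _ := by
        rw [Real.rpow_add (by linarith) _ (N : ℝ), Real.rpow_natCast, mul_pow]
        ring

theorem cg1a (h0 : CG0) (h3 : G3) (h5 : G5) : CG1a := by
  intro a D m G ha hR hS hD k
  obtain ⟨M, hM⟩ := unif h0 h3 h5 a D m G ha hR hS hD k
  refine ⟨M * Real.exp 1, fun N hN => ?_⟩
  have hN0 : (0 : ℝ) < N := by exact_mod_cast hN
  have hε1 : (N : ℝ)⁻¹ ≤ 1 := inv_le_one_of_one_le₀ (by exact_mod_cast hN)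
  have hε0 : 0 < (N : ℝ)⁻¹ := by positivity
  set ε : ℝ := (N : ℝ)⁻¹ with hε
  set c : ℕ → ℂ := fun n => (if n = 0 then 0 else a n * n ^ k * (2 * Real.pi)) * exp (-(n * ε))
    with hc
  have key : ∀ u : ℝ, 1 ≤ u → u ≤ 2 → ∃ S : ℂ,
      HasSum (fun n : ℕ => c n * exp (-(2 * Real.pi * I * n * u))) S ∧ ‖S‖ ≤ M := by
    intro u h1 h2
    set x : ℂ := ε + (2 * Real.pi * u : ℝ) * I with hx
    have hre : x.re = ε := by simp [hx]
    have him : x.im = 2 * Real.pi * u := by simp [hx]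
    have hp3 := Real.pi_gt_three
    have hp4 := Real.pi_le_four
    have hx1 : 1 ≤ ‖x‖ := by
      have := (le_abs_self _).trans (abs_im_le_norm x)
      nlinarith
    have hx2 : ‖x‖ ≤ 17 := by
      have := norm_le_abs_re_add_abs_im x
      rw [hre, him, abs_of_pos hε0, abs_of_pos (by positivity)] at this
      nlinarith
    have hx0 : x ≠ 0 := norm_pos_iff.mp (by linarith)
    have ha1 : |(log x).im| < Real.pi / 2 := by
      rw [log_im]
      exact abs_arg_lt_pi_div_two_iff.mpr (Or.inl (by rwa [hre]))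
    have ha2 : 0 ≤ (log x).im := by
      rw [log_im]
      exact arg_nonneg_iff.mpr (by rw [him]; positivity)
    have ha3 : |(log x).re| ≤ 3 := by
      rw [log_re, abs_of_nonneg (Real.log_nonneg hx1), Real.log_le_iff_le_exp (by linarith)]
      have e1 := Real.exp_one_gt_d9
      have e2 : Real.exp 3 = Real.exp 1 ^ 3 := by rw [← Real.exp_nat_mul]; norm_num
      have e3 : (2.7 : ℝ) ^ 3 ≤ Real.exp 1 ^ 3 := by gcongr; linarith
      norm_num at e3
      linarith
    refine ⟨_, ?_, hM (log x) ha3 ha2 ((le_abs_self _).trans_lt ha1)⟩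
    convert rep h3 (ram_summable hR) k (log x) ha1 using 2 with n
    rw [exp_log hx0, hc, mul_assoc, ← exp_add, hx]
    congr 2
    push_cast
    ring
  have hsum : Summable fun n => ‖c n‖ := by
    obtain ⟨S, hS, -⟩ := key 1 le_rfl (by norm_num)
    refine (summable_norm_iff.mpr hS.summable).congr fun n => ?_
    rw [norm_mul, norm_exp]
    simp
  have h := fourier c hsum M (fun u h1 h2 => by
    obtain ⟨S, hS, hS2⟩ := key u h1 h2
    rwa [hS.tsum_eq]) N
  have hNe : (N : ℂ) * ε = 1 := by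
    rw [hε]
    push_cast
    exact mul_inv_cancel₀ (by exact_mod_cast hN0.ne')
  simp only [hc, if_neg (Nat.one_le_iff_ne_zero.mp hN), hNe, norm_mul, norm_pow, norm_natCast,
    norm_exp, neg_re, one_re, norm_real, Real.norm_eq_abs, abs_of_pos Real.pi_pos,
    norm_ofNat] at h
  rw [Real.exp_neg, ← div_eq_mul_inv, div_le_iff₀ (Real.exp_pos _)] at h
  have : 0 ≤ ‖a N‖ * (N : ℝ) ^ k := by positivity
  nlinarith [Real.pi_gt_three]

end Pool.Agent.H62.SelCG1a
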