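import Mathlib
import Pool.Agent.H62.SelCG1a

set_option autoImplicit false
open Complex Set Filter Topology LSeries

namespace Pool.Agent.H62.SelEul

open Pool.Agent.H62.SelCG1a

lemma rec_bound (a β : ℕ → ℂ) (C : ℝ) (P : ℕ) (ha1 : a 1 = 1) (hβ1 : β 1 = 0)
    (hC : ∀ n : ℕ, 1 ≤ n → ‖a n‖ * (n : ℝ) ^ 4 ≤ C) (hP : 3 * C ≤ P + 1)
    (hrec : ∀ n : ℕ, n ≠ 0 → log n * a n = ∑ d ∈ n.divisors, β (n / d) * a d) (n : ℕ) :
    2 ≤ n → P < n.minFac → ‖β n‖ ≤ ((n : ℝ) ^ 2)⁻¹ := by
  induction n using Nat.strong_induction_on with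
  | _ n ih =>
    intro hn hm
    have hC0 : 0 ≤ C := le_trans (by positivity) (hC 1 le_rfl)
    have hn0 : (0 : ℝ) < n := by exact_mod_cast (show 0 < n by omega)
    have h := hrec n (by omega)
    rw [← Finset.add_sum_erase _ _ (Nat.one_mem_divisors.mpr (by omega)), Nat.div_one, ha1,
      mul_one] at h
    have h1 : ‖log n * a n‖ ≤ C / (P + 1) * ((n : ℝ) ^ 2)⁻¹ := by
      rw [norm_mul, ← natCast_log, norm_real, Real.norm_of_nonneg (Real.log_natCast_nonneg n)]
      have e1 : Real.log n ≤ n := (Real.log_le_sub_one_of_pos hn0).trans (by linarith)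
      have e2 : (P : ℝ) + 1 ≤ n := by
        exact_mod_cast (show P + 1 ≤ n from hm.trans_le (Nat.minFac_le (by omega)))
      rw [← div_eq_mul_inv, div_div, le_div_iff₀ (by positivity)]
      calc _ ≤ n * ‖a n‖ * (n * (n : ℝ) ^ 2) := by gcongr
        _ = ‖a n‖ * (n : ℝ) ^ 4 := by ring
        _ ≤ C := hC n (by omega)
    have h2 : ∀ d ∈ n.divisors.erase 1,
        ‖β (n / d) * a d‖ ≤ C * ((n : ℝ) ^ 2)⁻¹ * ((d : ℝ) ^ 2)⁻¹ := by
      intro d hd
      obtain ⟨hd1, hd2⟩ := Finset.mem_erase.mp hd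
      obtain ⟨e, rfl⟩ := Nat.dvd_of_mem_divisors hd2
      have hd0 : 0 < d := Nat.pos_of_mul_pos_right (b := e) (by omega)
      have he0 : 0 < e := Nat.pos_of_mul_pos_left (a := d) (by omega)
      rw [Nat.mul_div_cancel_left _ hd0]
      rcases eq_or_ne e 1 with rfl | he
      · rw [hβ1, zero_mul, norm_zero]
        positivity
      have b1 := ih e (by nlinarith [show 2 ≤ d by omega]) (by omega)
        (hm.trans_le (Nat.minFac_le_of_dvd (Nat.minFac_prime he).two_le
          ((Nat.minFac_dvd e).mul_left d)))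
      have hd0' : (0 : ℝ) < d := by exact_mod_cast hd0
      have he0' : (0 : ℝ) < e := by exact_mod_cast he0
      have b2 : ‖a d‖ ≤ C / (d : ℝ) ^ 4 := (le_div_iff₀ (by positivity)).mpr (hC d hd0)
      rw [norm_mul]
      refine (mul_le_mul b1 b2 (norm_nonneg _) (by positivity)).trans (le_of_eq ?_)
      push_cast
      field_simp
    have h3 : ∑ d ∈ n.divisors.erase 1, ((d : ℝ) ^ 2)⁻¹ ≤ 2 / (P + 1) := by
      refine le_trans (Finset.sum_le_sum_of_subset_of_nonneg (fun d hd => ?_)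
        fun _ _ _ => by positivity) (sum_Ioo_inv_sq_le P (n + 1))
      obtain ⟨hd1, hd2⟩ := Finset.mem_erase.mp hd
      have := Nat.pos_of_mem_divisors hd2
      exact Finset.mem_Ioo.mpr ⟨hm.trans_le (Nat.minFac_le_of_dvd (by omega)
        (Nat.dvd_of_mem_divisors hd2)), Nat.lt_succ_of_le (Nat.divisor_le hd2)⟩
    have h4 := (norm_sum_le _ _).trans (Finset.sum_le_sum h2)
    rw [← Finset.mul_sum] at h4
    have h5 := h4.trans (mul_le_mul_of_nonneg_left h3 (by positivity))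
    rw [eq_sub_of_add_eq h.symm]
    refine (norm_sub_le_of_le h1 h5).trans ?_
    have e : C / (P + 1) * ((n : ℝ) ^ 2)⁻¹ + C * ((n : ℝ) ^ 2)⁻¹ * (2 / (P + 1)) =
        3 * C / (P + 1) * ((n : ℝ) ^ 2)⁻¹ := by ring
    rw [e]
    exact mul_le_of_le_one_left (by positivity) ((div_le_one (by positivity)).mpr hP)

lemma absc {f : ℕ → ℂ} {σ : ℝ} (h : LSeriesSummable f σ) {s : ℂ} (hs : σ < s.re) :
    abscissaOfAbsConv f < s.re :=
  h.abscissaOfAbsConv_le.trans_lt (by simpa using hs)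

lemma recur {a b : ℕ → ℂ} (ha : LSeriesSummable a (2 : ℝ)) (hb : LSeriesSummable b (2 : ℝ))
    (h : ∀ s : ℂ, 1 < s.re → LSeries a s = exp (LSeries b s)) (n : ℕ) (hn : n ≠ 0) :
    log n * a n = ∑ d ∈ n.divisors, logMul b (n / d) * a d := by
  have h1 : abscissaOfAbsConv (logMul a) < ⊤ := by
    rw [abscissaOfAbsConv_logMul]
    exact ha.abscissaOfAbsConv_le.trans_lt (EReal.coe_lt_top _)
  have h2 : abscissaOfAbsConv (convolution (logMul b) a) < ⊤ :=
    ((LSeriesSummable_logMul_of_lt_re (absc hb (s := 3) (by norm_num))).convolution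
      (ha.of_re_le_re (by norm_num))).abscissaOfAbsConv_le.trans_lt (EReal.coe_lt_top _)
  have h3 := eq_of_LSeries_eventually_eq h1 h2 ?_ hn
  · rw [convolution_def] at h3
    simp only at h3
    rw [Nat.sum_divisorsAntidiagonal' (fun x y => logMul b x * a y)] at h3
    exact h3
  · filter_upwards [eventually_gt_atTop 2] with x hx
    have hx' : (2 : ℝ) < (x : ℂ).re := by simpa using hx
    have d1 := LSeries_hasDerivAt (absc ha hx')
    have d2 := (LSeries_hasDerivAt (absc hb hx')).cexp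
    have ev : LSeries a =ᶠ[𝓝 (x : ℂ)] fun s => exp (LSeries b s) := by
      filter_upwards [(isOpen_lt continuous_const continuous_re).mem_nhds
        (show (1 : ℝ) < (x : ℂ).re by linarith)] with s hs using h s hs
    have d3 := d1.unique (d2.congr_of_eventuallyEq ev)
    rw [LSeries_convolution' (LSeriesSummable_logMul_of_lt_re (absc hb hx'))
      (ha.of_re_le_re hx'.le), h x (by linarith)]
    linear_combination -d3

lemma pow_summable (p : ℕ) (hp : 2 ≤ p) (δ : ℝ) (hδ : δ < 0) :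
    Summable (indicator (range fun j : ℕ => p ^ j) fun n : ℕ => (n : ℝ) ^ δ) := by
  refine ((Nat.pow_right_injective hp).summable_iff fun x hx => indicator_of_notMem hx _).mp ?_
  have hp1 : (1 : ℝ) < p := by exact_mod_cast hp
  refine (summable_geometric_of_lt_one (r := (p : ℝ) ^ δ) (by positivity)
    (Real.rpow_lt_one_of_one_lt_of_neg hp1 hδ)).congr fun j => ?_
  rw [Function.comp_apply, indicator_of_mem (mem_range_self j)]
  push_cast
  rw [← Real.rpow_natCast, ← Real.rpow_natCast, ← Real.rpow_mul (by positivity),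
    ← Real.rpow_mul (by positivity), mul_comm]

lemma b_summable {a b : ℕ → ℂ} (ha1 : a 1 = 1) (ha : LSeriesSummable a (2 : ℝ))
    (h4 : ∃ C : ℝ, ∀ n : ℕ, 1 ≤ n → ‖a n‖ * (n : ℝ) ^ 4 ≤ C)
    (hb : ∀ n : ℕ, ¬ IsPrimePow n → b n = 0) {θ C : ℝ} (hθ : θ < 1 / 2)
    (hC : ∀ n : ℕ, 1 ≤ n → ‖b n‖ ≤ C * (n : ℝ) ^ θ)
    (h : ∀ s : ℂ, 1 < s.re → LSeries a s = exp (LSeries b s)) {σ : ℝ} (h0 : 0 ≤ σ) (h1 : θ < σ) :
    LSeriesSummable b σ := by
  obtain ⟨C4, hC4⟩ := h4
  obtain ⟨P, hP⟩ := exists_nat_ge (3 * C4)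
  have hb2 : LSeriesSummable b (2 : ℝ) :=
    LSeriesSummable_of_le_const_mul_rpow (x := θ + 1) (by simp; linarith)
      ⟨C, fun n hn => by simpa using hC n (Nat.one_le_iff_ne_zero.mpr hn)⟩
  have hr := rec_bound a (logMul b) C4 P ha1 (by simp [logMul]) hC4 (by linarith) (recur ha hb2 h)
  have hC0 : 0 ≤ C := by simpa using (norm_nonneg _).trans (hC 1 le_rfl)
  refine Summable.of_norm_bounded (g := fun n : ℕ => 2 * ((n : ℝ) ^ 2)⁻¹ +
    C * ∑ p ∈ Finset.Icc 2 P, indicator (range fun j : ℕ => p ^ j)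
      (fun n : ℕ => (n : ℝ) ^ (θ - σ)) n) ?_ fun n => ?_
  · refine ((Real.summable_nat_pow_inv.mpr one_lt_two).mul_left 2).add (Summable.mul_left _ ?_)
    exact summable_sum fun p hp => pow_summable p (Finset.mem_Icc.mp hp).1 _ (by linarith)
  have hi : ∀ p : ℕ, 0 ≤ indicator (range fun j : ℕ => p ^ j) (fun n : ℕ => (n : ℝ) ^ (θ - σ)) n :=
    fun p => indicator_nonneg (fun _ _ => by positivity) _
  have hs := mul_nonneg hC0 (Finset.sum_nonneg (s := Finset.Icc 2 P) fun p _ => hi p)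
  have hq : 0 ≤ 2 * ((n : ℝ) ^ 2)⁻¹ := by positivity
  by_cases hn : IsPrimePow n; swap
  · have : term b σ n = 0 := by simp [term, hb n hn]
    rw [this, norm_zero]
    linarith
  have hn2 := hn.two_le
  have hn1 : (2 : ℝ) ≤ n := by exact_mod_cast hn2
  rw [norm_term_eq, if_neg (by omega), ofReal_re]
  by_cases hm : P < n.minFac
  · have b1 := hr n hn2 hm
    rw [logMul, norm_mul, ← natCast_log, norm_real,
      Real.norm_of_nonneg (Real.log_natCast_nonneg n)] at b1
    have b2 : 1 / 2 ≤ Real.log n :=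
      le_trans (by linarith [Real.log_two_gt_d9]) (Real.log_le_log two_pos hn1)
    have b3 := div_le_self (norm_nonneg (b n)) (Real.one_le_rpow (by linarith : (1 : ℝ) ≤ n) h0)
    nlinarith [norm_nonneg (b n)]
  · have b1 := Finset.single_le_sum (s := Finset.Icc 2 P) (fun p _ => hi p)
      (Finset.mem_Icc.mpr ⟨(Nat.minFac_prime (show n ≠ 1 by omega)).two_le, not_lt.mp hm⟩)
    rw [indicator_of_mem (mem_range.mpr ⟨_, hn.minFac_pow_factorization_eq⟩)] at b1
    have b2 : ‖b n‖ / (n : ℝ) ^ σ ≤ C * (n : ℝ) ^ (θ - σ) := by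
      rw [Real.rpow_sub (by linarith), ← mul_div_assoc]
      gcongr
      exact hC n (by omega)
    nlinarith [mul_le_mul_of_nonneg_left b1 hC0]

end Pool.Agent.H62.SelEul
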