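import Mathlib
import Pool.Agent.H62.SelEul

set_option autoImplicit false
open Complex Set Filter Topology LSeries

namespace Pool.Agent.H62.SelCG1

open Pool.Agent.Lead.Sel Pool.Agent.H62.SelCG1a Pool.Agent.H62.SelEul

lemma all_summable {a : ℕ → ℂ} (h : ∀ k : ℕ, ∃ C : ℝ, ∀ n : ℕ, 1 ≤ n → ‖a n‖ * (n : ℝ) ^ k ≤ C)
    (s : ℂ) : LSeriesSummable a s := by
  obtain ⟨k, hk⟩ := exists_nat_ge (2 - s.re)
  obtain ⟨C, hC⟩ := h k
  refine LSeriesSummable_of_le_const_mul_rpow (x := s.re - 1) (by linarith) ⟨C, fun n hn => ?_⟩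
  have hn1 : (1 : ℝ) ≤ n := by exact_mod_cast Nat.one_le_iff_ne_zero.mpr hn
  have h1 := (le_div_iff₀ (by positivity)).mpr (hC n (Nat.one_le_iff_ne_zero.mpr hn))
  have hC0 : 0 ≤ C := le_trans (by positivity) (hC 1 le_rfl)
  refine h1.trans ?_
  rw [div_eq_mul_inv, ← Real.rpow_natCast, ← Real.rpow_neg (by linarith)]
  gcongr
  linarith

lemma ent_eq {f g : ℂ → ℂ} (hf : Differentiable ℂ f) (hg : Differentiable ℂ g) {z : ℂ}
    (h : f =ᶠ[𝓝 z] g) : f = g :=
  AnalyticOnNhd.eq_of_eventuallyEq (hf.differentiableOn.analyticOnNhd isOpen_univ)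
    (hg.differentiableOn.analyticOnNhd isOpen_univ) h

lemma deg_le {a : ℕ → ℂ} {D E R0 : ℝ} {m : ℕ} (hs : ∀ s, LSeriesSummable a s)
    (h : ∀ R : ℝ, R0 ≤ R → ∃ c t0 : ℝ, 0 < c ∧ 1 ≤ t0 ∧ ∀ t : ℝ, t0 ≤ |t| →
      c * |t| ^ (D * R - E) ≤ ‖(-R + t * I - 1) ^ m * LSeries a (-R + t * I)‖) : D ≤ 0 := by
  by_contra hD
  have hD : 0 < D := not_le.mp hD
  set R := max R0 ((E + m + 1) / D) with hR
  have hR2 : E + m + 1 ≤ R * D := (div_le_iff₀ hD).mp (le_max_right _ _)
  obtain ⟨c, t0, hc, ht0, hb⟩ := h R (le_max_left _ _)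
  set M := ∑' n, ‖term a (-R : ℝ) n‖ with hM
  have hM0 : 0 ≤ M := tsum_nonneg fun n => norm_nonneg _
  set t := max t0 (max (|R| + 1) (2 ^ m * M / c + 1)) with ht
  have h1 : t0 ≤ t := le_max_left _ _
  have h2 : |R| + 1 ≤ t := (le_max_left _ _).trans (le_max_right _ _)
  have h3 : 2 ^ m * M / c + 1 ≤ t := (le_max_right _ _).trans (le_max_right _ _)
  have ht1 : 1 ≤ t := ht0.trans h1
  have hta : |t| = t := abs_of_nonneg (by linarith)
  have b1 := hb t (by rwa [hta])
  rw [hta, norm_mul, norm_pow] at b1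
  have b2 : ‖LSeries a (-R + t * I)‖ ≤ M := norm_L_le (hs _) (by simp)
  have b3 : ‖(-R + t * I - 1 : ℂ)‖ ≤ 2 * t := by
    have := norm_le_abs_re_add_abs_im (-R + t * I - 1 : ℂ)
    simp only [sub_re, add_re, neg_re, ofReal_re, mul_re, I_re, mul_zero, ofReal_im, I_im, mul_one,
      sub_self, add_zero, one_re, sub_im, add_im, neg_im, neg_zero, mul_im, zero_add, one_im,
      sub_zero, hta] at this
    have e : |-R - 1| ≤ |R| + 1 := by
      rw [abs_le]
      constructor <;> linarith [le_abs_self R, neg_abs_le R]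
    linarith
  have b4 : t ^ (m + 1) ≤ t ^ (D * R - E) := by
    rw [← Real.rpow_natCast]
    exact Real.rpow_le_rpow_of_exponent_le ht1 (by push_cast; linarith)
  have b5 : c * t ^ (m + 1) ≤ (2 * t) ^ m * M := by
    refine le_trans (by gcongr) (b1.trans ?_)
    gcongr
  have b6 : c * t ≤ 2 ^ m * M := by
    rw [mul_pow, pow_succ] at b5
    have hp : 0 < t ^ m := by positivity
    nlinarith
  have b7 : 2 ^ m * M < t * c := (div_lt_iff₀ hc).mp (by linarith)
  linarith

lemma const_of_fe {F : ℂ → ℂ} (hF : Differentiable ℂ F) {Q M : ℝ} (hQ : 0 < Q)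
    (fe : ∀ s : ℂ, Q ^ s.re * ‖F s‖ = Q ^ (1 - s.re) * ‖F (1 - starRingEnd ℂ s)‖)
    (hb : ∀ s : ℂ, 1 / 2 ≤ s.re → Real.exp (-M) ≤ ‖F s‖ ∧ ‖F s‖ ≤ Real.exp M) (z w : ℂ) :
    F z = F w := by
  rcases le_total Q 1 with h | h
  · refine hF.apply_eq_apply_of_bounded (isBounded_iff_forall_norm_le.mpr ⟨Real.exp M, ?_⟩) z w
    rintro _ ⟨s, rfl⟩
    rcases le_total (1 / 2) s.re with hs | hs
    · exact (hb s hs).2
    have b1 := (hb (1 - starRingEnd ℂ s) (by simp; linarith)).2
    have b2 : Q ^ (1 - s.re) ≤ Q ^ s.re := Real.rpow_le_rpow_of_exponent_ge hQ h (by linarith)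
    refine le_of_mul_le_mul_left ?_ (Real.rpow_pos_of_pos hQ s.re)
    rw [fe]
    exact mul_le_mul b2 b1 (norm_nonneg _) (by positivity)
  · have low : ∀ s, Real.exp (-M) ≤ ‖F s‖ := by
      intro s
      rcases le_total (1 / 2) s.re with hs | hs
      · exact (hb s hs).1
      have b1 := (hb (1 - starRingEnd ℂ s) (by simp; linarith)).1
      have b2 : Q ^ s.re ≤ Q ^ (1 - s.re) := Real.rpow_le_rpow_of_exponent_le h (by linarith)
      refine le_of_mul_le_mul_left ?_ (Real.rpow_pos_of_pos hQ s.re)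
      rw [fe]
      exact mul_le_mul b2 b1 (by positivity) (by positivity)
    have hne : ∀ s, F s ≠ 0 := fun s => norm_pos_iff.mp ((Real.exp_pos _).trans_le (low s))
    refine inv_injective ((hF.inv hne).apply_eq_apply_of_bounded
      (isBounded_iff_forall_norm_le.mpr ⟨(Real.exp (-M))⁻¹, ?_⟩) z w)
    rintro _ ⟨s, rfl⟩
    rw [Pi.inv_apply, norm_inv]
    exact inv_anti₀ (Real.exp_pos _) (low s)

theorem cg1 (h0 : CG0) (h1 : CG1a) : CG1 := by
  intro a D m G ha hR hE hS hD
  have hk := h1 a D m G ha hR hS hD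
  obtain ⟨E, R0, hlow⟩ := h0 a D m G ha hR hS
  obtain ⟨hG, -, hL, Q, hQ, k, lam, μ, ω, hlam, -, hω, hDe, fe⟩ := hS
  obtain ⟨b, hb, θ, hθ, C, hC, hexp⟩ := hE
  have hs := all_summable hk
  have hF : Differentiable ℂ (LSeries a) := fun s =>
    (LSeries_hasDerivAt (absc (σ := s.re - 1) (hs _) (by linarith))).differentiableAt
  have hGe : G = fun s => (s - 1) ^ m * LSeries a s := by
    refine ent_eq hG (by fun_prop) (z := 2) ?_
    filter_upwards [(isOpen_lt continuous_const continuous_re).mem_nhds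
      (show (1 : ℝ) < (2 : ℂ).re by norm_num)] with s hs using hL s hs
  have hD0 : D ≤ 0 := deg_le (E := E) (R0 := R0) (m := m) hs fun R hR => by
    obtain ⟨c, C, t0, h1, h2, h3⟩ := hlow R hR
    exact ⟨c, t0, h1, h2, fun t ht => by simpa only [hGe] using (h3 t ht).1⟩
  have hk0 : IsEmpty (Fin k) := ⟨fun j => by
    have := Finset.sum_pos (s := Finset.univ) (fun i _ => hlam i) ⟨j, Finset.mem_univ j⟩
    linarith⟩
  have hQ0 : (Q : ℂ) ≠ 0 := by exact_mod_cast hQ.ne'
  have fe2 : (fun s => (Q : ℂ) ^ s * LSeries a s) = fun s => ω * starRingEnd ℂ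
      ((Q : ℂ) ^ (1 - starRingEnd ℂ s) * LSeries a (1 - starRingEnd ℂ s)) := by
    refine ent_eq (fun s => ((differentiableAt_id.const_cpow (Or.inl hQ0)).mul (hF s)))
      (fun s => DifferentiableAt.const_mul ?_ _) (z := 1 / 2) ?_
    · refine (differentiableAt_conj_conj_iff
        (f := fun w => (Q : ℂ) ^ (1 - w) * LSeries a (1 - w))).mpr ?_
      exact (((differentiableAt_const _).sub differentiableAt_id).const_cpow (Or.inl hQ0)).mul
        ((hF _).comp _ ((differentiableAt_const _).sub differentiableAt_id))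
    · filter_upwards [(isOpen_lt continuous_const continuous_re).mem_nhds
        (show (0 : ℝ) < (1 / 2 : ℂ).re by norm_num), (isOpen_lt continuous_re continuous_const).mem_nhds
        (show (1 / 2 : ℂ).re < (1 : ℝ) by norm_num)] with s h1 h2
      have h := fe s h1 h2
      have n1 : (s - 1) ^ m ≠ 0 := pow_ne_zero _ fun e => by
        have := congrArg re e
        simp at this
        linarith [show s.re < 1 from h2]
      have n2 : (1 - starRingEnd ℂ s - 1) ^ m ≠ 0 := pow_ne_zero _ fun e => by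
        have := congrArg re e
        simp at this
        linarith [show 0 < s.re from h1]
      simpa only [Finset.univ_eq_empty, Finset.prod_empty, mul_one, hGe,
        mul_div_cancel_left₀ _ n1, mul_div_cancel_left₀ _ n2] using h
  set σ := max θ 0 / 2 + 1 / 4 with hσ
  have s0 : 0 ≤ σ := by positivity
  have s1 : θ < σ := by
    rcases le_total θ 0 with h | h
    · rw [hσ, max_eq_right h]
      linarith
    · rw [hσ, max_eq_left h]
      linarith
  have s2 : σ < 1 / 2 := by
    have : max θ 0 < 1 / 2 := max_lt hθ (by norm_num)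
    linarith
  have hbs := b_summable ha (hs _) (hk 4) hb hθ hC hexp s0 s1
  have hU : IsOpen {s : ℂ | σ < s.re} := isOpen_lt continuous_const continuous_re
  have hexp2 : EqOn (LSeries a) (fun s => exp (LSeries b s)) {s : ℂ | σ < s.re} := by
    refine AnalyticOnNhd.eqOn_of_preconnected_of_eventuallyEq
      (hF.differentiableOn.analyticOnNhd hU) (DifferentiableOn.analyticOnNhd (fun s hs =>
        (LSeries_hasDerivAt (absc hbs hs)).cexp.differentiableAt.differentiableWithinAt) hU)
      (convex_halfSpace_re_gt σ).isPreconnected (z₀ := 2) (by simp; linarith) ?_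
    filter_upwards [(isOpen_lt continuous_const continuous_re).mem_nhds
      (show (1 : ℝ) < (2 : ℂ).re by norm_num)] with s hs using hexp s hs
  have hconst := const_of_fe hF (M := ∑' n, ‖term b σ n‖) hQ (fun s => ?_) (fun s hs => ?_)
  · intro n hn
    have hsum : LSeriesSummable (LSeries a 0 • delta) 0 :=
      LSeriesSummable.smul _ (by
        refine summable_of_ne_finset_zero (s := {1}) fun n hn => ?_
        simp [term_delta, Finset.notMem_singleton.mp hn])
    have h := eq_of_LSeries_eventually_eq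
      ((hs 0).abscissaOfAbsConv_le.trans_lt (EReal.coe_lt_top _))
      (hsum.abscissaOfAbsConv_le.trans_lt (EReal.coe_lt_top _))
      (Eventually.of_forall fun x => by
        simp only [LSeries_smul, LSeries_delta, Pi.one_apply, mul_one]
        exact hconst _ _) (show n ≠ 0 by omega)
    rw [h]
    simp [delta, show n ≠ 1 by omega]
  · have h := congrArg norm (congrFun fe2 s)
    simpa only [norm_mul, hω, one_mul, RCLike.norm_conj, norm_cpow_eq_rpow_re_of_pos hQ, sub_re,
      one_re, conj_re] using h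
  · rw [hexp2 (show σ < s.re by linarith), norm_exp]
    have := (abs_re_le_norm _).trans (norm_L_le hbs (s := s) (by linarith))
    rw [abs_le] at this
    exact ⟨Real.exp_le_exp.mpr this.1, Real.exp_le_exp.mpr this.2⟩

end Pool.Agent.H62.SelCG1
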