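import Mathlib

set_option autoImplicit false

namespace Pool.Agent.H62.Solen

open Set Filter Topology

/-- The 4-adic solenoid. -/
abbrev Sol : Type := {z : ℕ → UnitAddCircle // ∀ n, 4 • z (n + 1) = z n}

instance : TopologicalSpace.MetrizableSpace Sol :=
  Topology.IsEmbedding.subtypeVal.metrizableSpace

instance : CompactSpace Sol := by
  have h : IsClosed {z : ℕ → UnitAddCircle | ∀ n, 4 • z (n + 1) = z n} := by
    rw [Set.ofPred_forall]
    refine isClosed_iInter fun n => isClosed_eq ?_ ?_ <;> fun_prop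
  exact isCompact_iff_compactSpace.mp h.isCompact

lemma pow_smul (z : Sol) (n k : ℕ) : 4 ^ k • z.1 (n + k) = z.1 n := by
  induction k with
  | zero => simp
  | succ k ih => rw [pow_succ, mul_smul, ← add_assoc, z.2, ih]

lemma tendsto_of_diag (z : Sol) (s : ℕ → Sol) (h : ∀ n, (s n).1 n = z.1 n) :
    Tendsto s atTop (𝓝 z) := by
  rw [show (𝓝 z) = comap Subtype.val (𝓝 z.1) from nhds_subtype_eq_comap, tendsto_comap_iff,
    tendsto_pi_nhds]
  intro n
  refine tendsto_const_nhds.congr' ?_
  filter_upwards [eventually_ge_atTop n] with m hm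
  obtain ⟨k, rfl⟩ := Nat.exists_eq_add_of_le hm
  simp only [Function.comp]
  rw [← pow_smul (s (n + k)) n k, h, pow_smul]

/-- The one-parameter subgroup. -/
noncomputable def line (t : ℝ) : Sol :=
  ⟨fun n => ((t / 4 ^ n : ℝ) : UnitAddCircle), fun n => by
    rw [← AddCircle.coe_nsmul]
    congr 1
    rw [nsmul_eq_mul, pow_succ]
    push_cast
    field_simp⟩

lemma continuous_line : Continuous line := by
  refine Continuous.subtype_mk ?_ _
  refine continuous_pi fun n => ?_
  exact (AddCircle.continuous_mk' 1).comp (by fun_prop)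

instance : ConnectedSpace Sol := by
  have hd : DenseRange line := by
    intro z
    have : ∀ n, ∃ t : ℝ, (line t).1 n = z.1 n := by
      intro n
      obtain ⟨x, hx⟩ := QuotientAddGroup.mk_surjective (z.1 n)
      refine ⟨x * 4 ^ n, ?_⟩
      simp only [line]
      rw [← hx]
      congr 1
      field_simp
    choose t ht using this
    exact mem_closure_of_tendsto (tendsto_of_diag z (fun n => line (t n)) ht)
      (Eventually.of_forall fun n => mem_range_self _)
  have := hd.preconnectedSpace continuous_line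
  exact ⟨⟨line 0⟩⟩

/-- digits: repeated infinitely often -/
noncomputable def v (ω : ℕ → Bool) : ℕ → ℝ
  | 0 => 0
  | (m + 1) => (v ω m + if ω (Nat.unpair m).1 then 1 else 0) / 4

lemma v_bounds (ω : ℕ → Bool) (m : ℕ) : 0 ≤ v ω m ∧ v ω m ≤ 1 / 3 := by
  induction m with
  | zero => simp [v]
  | succ m ih =>
    simp only [v]
    split_ifs <;> constructor <;> linarith [ih.1, ih.2]

lemma continuous_v (m : ℕ) : Continuous fun ω => v ω m := by
  induction m with
  | zero => simp only [v]; fun_prop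
  | succ m ih =>
    simp only [v]
    refine (ih.add ?_).div_const _
    exact (continuous_of_discreteTopology (f := fun b : Bool => if b then (1 : ℝ) else 0)).comp
      (continuous_apply _)

noncomputable def e (ω : ℕ → Bool) : Sol :=
  ⟨fun n => ((v ω n : ℝ) : UnitAddCircle), fun n => by
    rw [← AddCircle.coe_nsmul]
    simp only [v]
    split_ifs
    · rw [← AddCircle.coe_add_period 1 (v ω n)]
      congr 1
      rw [nsmul_eq_mul]; push_cast; ring
    · congr 1
      rw [nsmul_eq_mul]; push_cast; ring⟩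

lemma continuous_e : Continuous e := by
  refine Continuous.subtype_mk ?_ _
  refine continuous_pi fun n => ?_
  exact (AddCircle.continuous_mk' 1).comp (continuous_v n)

lemma far (ω ω' : ℕ → Bool) (i : ℕ) (h : ω i ≠ ω' i) (N : ℕ) :
    ∃ m ≥ N, 1 / 6 ≤ ‖(e ω).1 m - (e ω').1 m‖ := by
  refine ⟨Nat.pair i N + 1, (Nat.right_le_pair i N).trans (Nat.le_succ _), ?_⟩
  simp only [e]
  rw [← AddCircle.coe_sub]
  have h1 := v_bounds ω (Nat.pair i N)
  have h2 := v_bounds ω' (Nat.pair i N)
  have key : 1 / 6 ≤ |v ω (Nat.pair i N + 1) - v ω' (Nat.pair i N + 1)| ∧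
      |v ω (Nat.pair i N + 1) - v ω' (Nat.pair i N + 1)| ≤ 1 / 3 := by
    simp only [v, Nat.unpair_pair]
    cases hω : ω i <;> cases hω' : ω' i
    · simp [hω, hω'] at h
    · simp only [Bool.false_eq_true, if_false, if_true]
      rw [abs_of_nonpos (by linarith [h1.1, h1.2, h2.1, h2.2])]
      constructor <;> linarith [h1.1, h1.2, h2.1, h2.2]
    · simp only [Bool.false_eq_true, if_false, if_true]
      rw [abs_of_nonneg (by linarith [h1.1, h1.2, h2.1, h2.2])]
      constructor <;> linarith [h1.1, h1.2, h2.1, h2.2]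
    · simp [hω, hω'] at h
  rw [(AddCircle.norm_coe_eq_abs_iff 1 one_ne_zero).mpr (by
    rw [abs_one]; linarith [key.2])]
  exact key.1

lemma close_of_miss (Y : Set Sol) (hY : IsPreconnected Y) (n : ℕ) (a : ℝ)
    (ha : ∀ y ∈ Y, y.1 n ≠ (a : UnitAddCircle)) (y y' : Sol) (hy : y ∈ Y) (hy' : y' ∈ Y) (k : ℕ) :
    ‖y.1 (n + k) - y'.1 (n + k)‖ ≤ 1 / 4 ^ k := by
  let h : Sol → ℝ := fun z => (AddCircle.equivIco 1 a (z.1 n) : ℝ)
  have hc : ContinuousOn h Y := by
    intro z hz
    apply ContinuousAt.continuousWithinAt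
    have h1 : ContinuousAt (fun z : Sol => z.1 n) z :=
      ((continuous_apply n).comp continuous_subtype_val).continuousAt
    exact continuous_subtype_val.continuousAt.comp
      (ContinuousAt.comp (g := AddCircle.equivIco 1 a) (AddCircle.continuousAt_equivIco 1 a (ha z hz)) h1)
  have hcoe : ∀ z, ((h z : ℝ) : UnitAddCircle) = z.1 n := fun z => AddCircle.coe_equivIco
  have hmem : ∀ z, h z ∈ Ico a (a + 1) := fun z => (AddCircle.equivIco 1 a (z.1 n)).2
  let g : Sol → UnitAddCircle := fun z => z.1 (n + k) - ((h z / 4 ^ k : ℝ) : UnitAddCircle)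
  have hg : ContinuousOn g Y := by
    refine ContinuousOn.sub ((continuous_apply (n + k)).comp continuous_subtype_val).continuousOn ?_
    exact (AddCircle.continuous_mk' 1).comp_continuousOn (hc.div_const _)
  have hmap : MapsTo g Y {u : UnitAddCircle | (4 ^ k : ℕ) • u = 0} := by
    intro z _
    simp only [g, mem_ofPred_eq, smul_sub]
    rw [pow_smul, ← AddCircle.coe_nsmul, ← hcoe z, sub_eq_zero]
    congr 1
    rw [nsmul_eq_mul]; push_cast; field_simp
  have hconst := hY.constant_of_mapsTo (AddCircle.finite_torsion 1 (by positivity)).isDiscrete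
    hg hmap hy hy'
  have heq : y.1 (n + k) - y'.1 (n + k) = (((h y - h y') / 4 ^ k : ℝ) : UnitAddCircle) := by
    simp only [g] at hconst
    rw [sub_div, AddCircle.coe_sub]
    rw [sub_eq_sub_iff_sub_eq_sub] at hconst
    exact hconst
  rw [heq]
  refine (QuotientAddGroup.norm_mk_le_norm).trans ?_
  rw [Real.norm_eq_abs, abs_div, abs_of_pos (by positivity : (0 : ℝ) < 4 ^ k)]
  gcongr
  have := hmem y
  have := hmem y'
  rw [abs_le]
  constructor <;> linarith [(hmem y).1, (hmem y).2, (hmem y').1, (hmem y').2]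

theorem propP (ω ω' : ℕ → Bool) (hne : ω ≠ ω') (Y : Set Sol) (hc : IsClosed Y)
    (hY : IsPreconnected Y) (h1 : e ω ∈ Y) (h2 : e ω' ∈ Y) : Y = univ := by
  by_contra hYu
  have : ∃ n, ∃ w : UnitAddCircle, ∀ y ∈ Y, y.1 n ≠ w := by
    by_contra hcon
    push Not at hcon
    apply hYu
    refine eq_univ_of_forall fun z => ?_
    choose s hs hs' using fun n => hcon n (z.1 n)
    exact hc.mem_of_tendsto (tendsto_of_diag z s hs') (Eventually.of_forall hs)
  obtain ⟨n, w, hw⟩ := this
  obtain ⟨a, rfl⟩ := QuotientAddGroup.mk_surjective w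
  obtain ⟨i, hi⟩ := Function.ne_iff.mp hne
  obtain ⟨m, hm, hfar⟩ := far ω ω' i hi (n + 2)
  obtain ⟨k, rfl⟩ := Nat.exists_eq_add_of_le hm
  have := close_of_miss Y hY n a hw _ _ h1 h2 (2 + k)
  rw [← add_assoc] at this
  have h4 : (1 : ℝ) / 4 ^ (2 + k) ≤ 1 / 16 := by
    rw [pow_add]
    have : (1 : ℝ) ≤ 4 ^ k := one_le_pow₀ (by norm_num)
    apply one_div_le_one_div_of_le (by norm_num)
    nlinarith
  linarith

theorem exists_not_mem : ∃ x : Sol, x ∉ range e := by
  refine ⟨line (1 / 2), ?_⟩
  rintro ⟨ω, hω⟩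
  have := congrArg (fun z : Sol => ‖z.1 0‖) hω
  simp only [e, line, v, pow_zero, div_one] at this
  rw [(AddCircle.norm_coe_eq_abs_iff 1 one_ne_zero (x := 1 / 2)).mpr (by
    rw [abs_one, abs_of_pos] <;> norm_num)] at this
  simp at this

end Pool.Agent.H62.Solen
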