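import Mathlib

set_option autoImplicit false

namespace Pool.Agent.H62.Spectra

/-- The spectrum `X^m(q)`: all sums `a_0 + a_1 q + ... + a_n q^n` with digits in `{0,...,m}`. -/
def spectrum (m : ℕ) (q : ℂ) : Set ℂ :=
  {x | ∃ (n : ℕ) (a : ℕ → ℕ), (∀ j, a j ≤ m) ∧ x = ∑ j ∈ Finset.range (n + 1), (a j : ℂ) * q ^ j}

/-- Relative density in the plane: some radius `R` such that each closed disc of radius `R`
meets the set. -/
def RelDense (S : Set ℂ) : Prop :=
  ∃ R : ℝ, 0 < R ∧ ∀ c : ℂ, (Metric.closedBall c R ∩ S).Nonempty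

/-- Complex Pisot unit: a non-real algebraic unit of modulus `> 1` all of whose conjugates other
than itself and its complex conjugate have modulus `< 1`. -/
def IsComplexPisotUnit (g : ℂ) : Prop :=
  g.im ≠ 0 ∧ 1 < ‖g‖ ∧ IsIntegral ℤ g ∧ IsIntegral ℤ g⁻¹ ∧
    ∀ z : ℂ, Polynomial.aeval z (minpoly ℚ g) = 0 →
      z = g ∨ z = (starRingEnd ℂ) g ∨ ‖z‖ < 1

end Pool.Agent.H62.Spectra
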