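import Mathlib
import Pool.Agent.H62.SpectraDefs

set_option autoImplicit false

namespace Pool.Agent.H62.Spectra

open Finset

section
variable (g : ℂ) (m : ℕ) (a : ℕ → ℕ)

/-- normalised sums -/
noncomputable def kk (N : ℕ) : ℂ := g⁻¹ ^ N * ∑ j ∈ range N, (a j : ℂ) * g ^ j

lemma re_nat_mul (n : ℕ) (z : ℂ) : ((n : ℂ) * z).re = n * z.re := by simp

lemma kk_succ (hg : g ≠ 0) (N : ℕ) : kk g a (N + 1) = g⁻¹ * (kk g a N + a N) := by
  unfold kk
  rw [sum_range_succ, pow_succ]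
  have : g⁻¹ ^ N * g ^ N = 1 := by rw [← mul_pow, inv_mul_cancel₀ hg, one_pow]
  linear_combination (g⁻¹ * (a N : ℂ)) * this

lemma kk_norm (hr : 3 ≤ ‖g‖) (hm : (m : ℝ) ≤ ‖g‖ ^ 2) (ha : ∀ j, a j ≤ m) (N : ℕ) :
    ‖kk g a N‖ ≤ ‖g‖ ^ 2 / 2 := by
  have hg : g ≠ 0 := by
    intro h; rw [h, norm_zero] at hr; norm_num at hr
  induction N with
  | zero => simp [kk]; positivity
  | succ N ih =>
    rw [kk_succ g a hg, norm_mul, norm_inv]
    have h1 : ‖kk g a N + a N‖ ≤ ‖g‖ ^ 2 / 2 + ‖g‖ ^ 2 := by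
      refine (norm_add_le _ _).trans (add_le_add ih ?_)
      rw [Complex.norm_natCast]
      exact le_trans (by exact_mod_cast ha N) hm
    rw [inv_mul_le_iff₀ (by linarith)]
    have : 0 ≤ ‖g‖ ^ 2 := by positivity
    nlinarith

lemma kk_re (hr : 3 ≤ ‖g‖) (hm : (m : ℝ) ≤ ‖g‖ ^ 2) (ha : ∀ j, a j ≤ m)
    (h1 : 0 ≤ (g⁻¹).re) (h2 : 0 ≤ (g⁻¹ ^ 2).re) (N : ℕ) :
    -(1 / 2) ≤ (kk g a N).re := by
  have hg : g ≠ 0 := by
    intro h; rw [h, norm_zero] at hr; norm_num at hr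
  match N with
  | 0 => simp [kk]
  | 1 =>
    rw [kk_succ g a hg]
    have : kk g a 0 = 0 := by simp [kk]
    rw [this, zero_add, mul_comm, re_nat_mul]
    have : 0 ≤ (a 0 : ℝ) * (g⁻¹).re := by positivity
    linarith
  | N + 2 =>
    have e : kk g a (N + 2) = (a (N + 1) : ℂ) * g⁻¹ + (a N : ℂ) * g⁻¹ ^ 2 + g⁻¹ ^ 2 * kk g a N := by
      rw [kk_succ g a hg, kk_succ g a hg]; ring
    rw [e, Complex.add_re, Complex.add_re, re_nat_mul, re_nat_mul]
    have p1 : 0 ≤ (a (N + 1) : ℝ) * (g⁻¹).re := by positivity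
    have p2 : 0 ≤ (a N : ℝ) * (g⁻¹ ^ 2).re := by positivity
    have p3 : ‖g⁻¹ ^ 2 * kk g a N‖ ≤ 1 / 2 := by
      rw [norm_mul, norm_pow, norm_inv, inv_pow, inv_mul_le_iff₀ (by positivity)]
      have := kk_norm g m a hr hm ha N
      linarith
    have p4 := (abs_le.mp ((Complex.abs_re_le_norm _).trans p3)).1
    linarith
end

lemma far (g : ℂ) (m : ℕ) (hr : 3 ≤ ‖g‖) (hm : (m : ℝ) ≤ ‖g‖ ^ 2)
    (h1 : 0 ≤ (g⁻¹).re) (h2 : 0 ≤ (g⁻¹ ^ 2).re) (n : ℕ) (a : ℕ → ℕ) (ha : ∀ j, a j ≤ m)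
    (N : ℕ) : 1 / 2 ≤ ‖g⁻¹ ^ n * (∑ j ∈ range N, (a j : ℂ) * g ^ j) + 1‖ := by
  have hg : g ≠ 0 := by
    intro h; rw [h, norm_zero] at hr; norm_num at hr
  induction N with
  | zero => simp; norm_num
  | succ N ih =>
    by_cases h0 : a N = 0
    · rw [sum_range_succ, h0]; simpa using ih
    by_cases hN : N + 1 ≤ n
    · have e : ∑ j ∈ range (N + 1), (a j : ℂ) * g ^ j =
          ∑ j ∈ range n, ((if j < N + 1 then a j else 0 : ℕ) : ℂ) * g ^ j := by
        rw [← sum_subset (range_subset_range.mpr hN)]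
        · refine sum_congr rfl fun j hj => ?_
          rw [if_pos (mem_range.mp hj)]
        · intro j _ hj
          rw [if_neg (by simpa using hj)]; simp
      have := kk_re g m (fun j => if j < N + 1 then a j else 0) hr hm
        (fun j => by split_ifs; exacts [ha j, Nat.zero_le _]) h1 h2 n
      rw [e]
      refine le_trans ?_ (Complex.re_le_norm _)
      rw [Complex.add_re, Complex.one_re]
      unfold kk at this
      linarith
    · obtain ⟨d, rfl⟩ : ∃ d, N = n + d := ⟨N - n, by omega⟩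
      have hk := kk_re g m a hr hm ha h1 h2 (n + d)
      have ha1 : (1 : ℝ) ≤ a (n + d) := by exact_mod_cast Nat.pos_of_ne_zero h0
      have e : g⁻¹ ^ n * ∑ j ∈ range (n + d + 1), (a j : ℂ) * g ^ j =
          g ^ d * (kk g a (n + d) + a (n + d)) := by
        unfold kk
        rw [sum_range_succ]
        have i1 : g⁻¹ ^ d * g ^ d = 1 := by rw [← mul_pow, inv_mul_cancel₀ hg, one_pow]
        have i2 : g⁻¹ ^ n * g ^ n = 1 := by rw [← mul_pow, inv_mul_cancel₀ hg, one_pow]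
        rw [pow_add, pow_add]
        linear_combination (-(g⁻¹ ^ n * ∑ j ∈ range (n + d), (a j : ℂ) * g ^ j)) * i1
          + ((a (n + d) : ℂ) * g ^ d) * i2
      rw [e]
      have hre : 1 / 2 ≤ (kk g a (n + d) + a (n + d)).re := by
        rw [Complex.add_re, Complex.natCast_re]; linarith
      rcases d with _ | d
      · refine le_trans ?_ (Complex.re_le_norm _)
        rw [pow_zero, one_mul, Complex.add_re, Complex.one_re]; linarith
      · have hn1 : 1 / 2 ≤ ‖kk g a (n + (d + 1)) + a (n + (d + 1))‖ :=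
          hre.trans (Complex.re_le_norm _)
        have hn2 : 3 ≤ ‖g ^ (d + 1)‖ := by
          rw [norm_pow, pow_succ]
          have : 1 ≤ ‖g‖ ^ d := one_le_pow₀ (by linarith)
          nlinarith
        have hn3 : 3 / 2 ≤ ‖g ^ (d + 1) * (kk g a (n + (d + 1)) + a (n + (d + 1)))‖ := by
          rw [norm_mul]; nlinarith
        have := norm_sub_le (g ^ (d + 1) * (kk g a (n + (d + 1)) + a (n + (d + 1))) + 1) 1
        rw [add_sub_cancel_right, norm_one] at this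
        linarith

theorem not_relDense (g : ℂ) (m : ℕ) (hr : 3 ≤ ‖g‖) (hm : (m : ℝ) ≤ ‖g‖ ^ 2)
    (h1 : 0 ≤ (g⁻¹).re) (h2 : 0 ≤ (g⁻¹ ^ 2).re) : ¬ RelDense (spectrum m g) := by
  rintro ⟨R, hR, h⟩
  have hg : g ≠ 0 := by
    intro h; rw [h, norm_zero] at hr; norm_num at hr
  obtain ⟨n, hn⟩ := pow_unbounded_of_one_lt (2 * R) (show 1 < ‖g‖ by linarith)
  obtain ⟨x, hx, N, a, ha, rfl⟩ := h (-g ^ n)
  have hf := far g m hr hm h1 h2 n a ha (N + 1)
  rw [Metric.mem_closedBall, dist_eq_norm, sub_neg_eq_add] at hx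
  have i2 : g⁻¹ ^ n * g ^ n = 1 := by rw [← mul_pow, inv_mul_cancel₀ hg, one_pow]
  rw [← i2, ← mul_add, norm_mul, norm_pow, norm_inv, inv_pow,
    le_inv_mul_iff₀ (by positivity)] at hf
  linarith

lemma exists_root : ∃ s : ℝ, 1 / 10 < s ∧ s < 1 / 9 ∧ s ^ 3 - 6 * s ^ 2 + 10 * s - 1 = 0 := by
  have hc : ContinuousOn (fun s : ℝ => s ^ 3 - 6 * s ^ 2 + 10 * s - 1) (Set.Icc (1 / 10) (1 / 9)) := by
    fun_prop
  have := intermediate_value_Ioo (show (1 / 10 : ℝ) ≤ 1 / 9 by norm_num) hc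
  obtain ⟨s, hs, h⟩ := this (show (0 : ℝ) ∈ _ by constructor <;> norm_num)
  exact ⟨s, hs.1, hs.2, h⟩

open Polynomial in
theorem exists_unit : ∃ g : ℂ, IsComplexPisotUnit g ∧ 9 < ‖g‖ ^ 2 ∧ ‖g‖ ^ 2 < 10 ∧
    0 ≤ (g⁻¹).re ∧ 0 ≤ (g⁻¹ ^ 2).re := by
  obtain ⟨s, hs1, hs2, hs⟩ := exists_root
  have hs0 : 0 < s := by linarith
  set u : ℝ := (6 - s) / 2 with hu
  set w : ℝ := s ^ 2 - 6 * s + 10 with hw
  have hsw : s * w = 1 := by rw [hw]; linear_combination hs
  have hw9 : 9 < w := by rw [hw]; nlinarith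
  have hw10 : w < 10 := by rw [hw]; nlinarith
  have hD : 0 < w - u ^ 2 := by rw [hu]; nlinarith
  have hD2 : w - u ^ 2 ≤ u ^ 2 := by rw [hu]; nlinarith
  set v : ℝ := Real.sqrt (w - u ^ 2) with hv
  have hv0 : 0 < v := Real.sqrt_pos.mpr hD
  have hv2 : v ^ 2 = w - u ^ 2 := Real.sq_sqrt hD.le
  set g : ℂ := ⟨u, v⟩ with hg
  have hn : ‖g‖ ^ 2 = w := by
    rw [Complex.sq_norm, Complex.normSq_apply]; simp only [hg]; nlinarith
  have hns : Complex.normSq g = w := by rw [← Complex.sq_norm, hn]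
  have hfac : ∀ z : ℂ, z ^ 3 - 6 * z ^ 2 + 10 * z - 1 =
      (z - g) * (z - (starRingEnd ℂ) g) * (z - s) := by
    intro z
    have e1 : g + (starRingEnd ℂ) g = 6 - (s : ℂ) := by
      rw [Complex.add_conj]; simp only [hg, hu]; push_cast; ring
    have e2 : g * (starRingEnd ℂ) g = (s : ℂ) ^ 2 - 6 * s + 10 := by
      rw [Complex.mul_conj, hns, hw]; push_cast; ring
    have e3 : (s : ℂ) ^ 3 - 6 * (s : ℂ) ^ 2 + 10 * s - 1 = 0 := by exact_mod_cast hs
    linear_combination (z ^ 2 - z * s) * e1 - (z - s) * e2 + e3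
  have hroot : g ^ 3 - 6 * g ^ 2 + 10 * g - 1 = 0 := by rw [hfac]; simp
  have hg0 : g ≠ 0 := by
    intro h; rw [h] at hroot; norm_num at hroot
  have hint : IsIntegral ℤ g := by
    refine ⟨X ^ 3 - 6 * X ^ 2 + 10 * X - 1, by monicity!, ?_⟩
    simp [eval₂_sub, eval₂_add, eval₂_mul, eval₂_pow]
    linear_combination hroot
  have hinv : g⁻¹ = g ^ 2 - 6 * g + 10 := by
    apply inv_eq_of_mul_eq_one_right
    linear_combination hroot
  have hu0 : 0 < u := by rw [hu]; linarith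
  refine ⟨g, ⟨hv0.ne', ?_, hint, ?_, ?_⟩, by linarith, by linarith, ?_, ?_⟩
  · nlinarith [norm_nonneg g]
  · rw [hinv]
    exact ((hint.pow 2).sub ((isIntegral_algebraMap (x := (6 : ℤ))).mul hint)).add
      (isIntegral_algebraMap (x := (10 : ℤ)))
  · intro z hz
    have hd : minpoly ℚ g ∣ X ^ 3 - 6 * X ^ 2 + 10 * X - 1 := by
      apply minpoly.dvd
      simp only [map_sub, map_add, map_mul, map_pow, aeval_X, map_one, map_ofNat]
      exact hroot
    have := aeval_eq_zero_of_dvd_aeval_eq_zero hd hz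
    simp only [map_sub, map_add, map_mul, map_pow, aeval_X, map_one, map_ofNat] at this
    rw [hfac] at this
    rcases mul_eq_zero.mp this with h | h
    · rcases mul_eq_zero.mp h with h | h
      · exact Or.inl (sub_eq_zero.mp h)
      · exact Or.inr (Or.inl (sub_eq_zero.mp h))
    · right; right
      rw [sub_eq_zero.mp h, Complex.norm_real, Real.norm_eq_abs, abs_of_pos hs0]; linarith
  · rw [Complex.inv_re, hns]; simp only [hg]; positivity
  · rw [sq, Complex.mul_re, Complex.inv_re, Complex.inv_im, hns]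
    simp only [hg]
    have : u / w * (u / w) - -v / w * (-v / w) = (u ^ 2 - v ^ 2) / w ^ 2 := by
      field_simp
    rw [this]
    apply div_nonneg <;> nlinarith

end Pool.Agent.H62.Spectra
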