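import Mathlib

set_option autoImplicit false

namespace Pool.Agent.H62.SqfreePow

open Finset

/-- primes in `(a, b]` -/
def PI (a b : ℕ) : Finset ℕ := (Ioc a b).filter Nat.Prime

lemma dyadic (y : ℕ) (hy : 2 ^ 400 ≤ y) : (PI y (2 * y)).card * 400 ≤ 4 * y := by
  have h1 : (2 ^ 400) ^ (PI y (2 * y)).card ≤ ∏ p ∈ PI y (2 * y), p := by
    apply Finset.pow_card_le_prod
    intro p hp
    have := (mem_Ioc.mp (mem_filter.mp hp).1).1
    omega
  have h2 : ∏ p ∈ PI y (2 * y), p ≤ primorial (2 * y) := by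
    unfold primorial
    apply Finset.prod_le_prod_of_subset_of_one_le'
    · intro p hp
      have h := mem_filter.mp hp
      have := (mem_Ioc.mp h.1).2
      exact mem_filter.mpr ⟨mem_range.mpr (by omega), h.2⟩
    · intro p hp _
      exact (mem_filter.mp hp).2.one_lt.le
  have h3 := primorial_le_four_pow (2 * y)
  have h4 : 2 ^ (400 * (PI y (2 * y)).card) ≤ 2 ^ (4 * y) := by
    rw [pow_mul]
    refine h1.trans (h2.trans (h3.trans (le_of_eq ?_)))
    rw [show (4 : ℕ) = 2 ^ 2 by norm_num, ← pow_mul]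
    congr 1; ring
  have := (Nat.pow_le_pow_iff_right (by norm_num)).mp h4
  omega

lemma dyadic_sum (y : ℕ) (hy : 2 ^ 400 ≤ y) :
    ∑ p ∈ PI y (2 * y), (1 / (p : ℝ) ^ 2) ≤ 1 / (100 * (y : ℝ)) := by
  have hy0 : (0 : ℝ) < y := by
    have : 0 < y := lt_of_lt_of_le (by positivity) hy
    exact_mod_cast this
  have h1 : ∑ p ∈ PI y (2 * y), (1 / (p : ℝ) ^ 2) ≤ (PI y (2 * y)).card • (1 / (y : ℝ) ^ 2) := by
    apply Finset.sum_le_card_nsmul
    intro p hp
    have h := (mem_Ioc.mp (mem_filter.mp hp).1).1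
    have h' : (y : ℝ) ≤ p := by exact_mod_cast h.le
    gcongr
  have h2 : ((PI y (2 * y)).card : ℝ) * 400 ≤ 4 * y := by exact_mod_cast dyadic y hy
  refine h1.trans ?_
  rw [nsmul_eq_mul, mul_one_div, div_le_div_iff₀ (by positivity) (by positivity)]
  nlinarith

lemma tail_sum (z : ℕ) (hz : 2 ^ 400 ≤ z) (j : ℕ) :
    ∑ p ∈ PI z (z * 2 ^ j), (1 / (p : ℝ) ^ 2) ≤ 1 / (50 * (z : ℝ)) * (1 - 1 / 2 ^ j) := by
  have hz0 : (0 : ℝ) < z := by
    have : 0 < z := lt_of_lt_of_le (by positivity) hz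
    exact_mod_cast this
  induction j with
  | zero => simp [PI]
  | succ j ih =>
    have hle : z ≤ z * 2 ^ j := Nat.le_mul_of_pos_right _ (by positivity)
    have hU : PI z (z * 2 ^ (j + 1)) = PI z (z * 2 ^ j) ∪ PI (z * 2 ^ j) (2 * (z * 2 ^ j)) := by
      unfold PI
      rw [← filter_union, Ioc_union_Ioc_eq_Ioc hle (by omega)]
      congr 2; ring
    have hd : Disjoint (PI z (z * 2 ^ j)) (PI (z * 2 ^ j) (2 * (z * 2 ^ j))) := by
      unfold PI
      exact disjoint_filter_filter (Ioc_disjoint_Ioc_of_le le_rfl)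
    rw [hU, sum_union hd]
    have h2 := dyadic_sum (z * 2 ^ j) (hz.trans hle)
    refine (add_le_add ih h2).trans (le_of_eq ?_)
    push_cast
    field_simp
    ring

lemma count_mod (a b c q M : ℕ) (hc : Nat.Coprime q a) :
    ((range M).filter fun t => a * t + b ≡ c [MOD q]).card ≤ M / q + 1 := by
  have : ((range M).filter fun t => a * t + b ≡ c [MOD q]).card ≤ (range (M / q + 1)).card := by
    refine card_le_card_of_injOn (fun t => t / q) ?_ ?_
    · intro t ht
      have h := mem_range.mp (mem_filter.mp ht).1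
      simp only [coe_range, Set.mem_Iio]
      exact Nat.lt_succ_of_le (Nat.div_le_div_right h.le)
    · intro s hs t ht hst
      have h1 := (mem_filter.mp hs).2
      have h2 := (mem_filter.mp ht).2
      have h3 : a * s ≡ a * t [MOD q] := Nat.ModEq.add_right_cancel' b (h1.trans h2.symm)
      have h4 : s ≡ t [MOD q] := Nat.ModEq.cancel_left_of_coprime hc h3
      have h5 : s / q = t / q := hst
      unfold Nat.ModEq at h4
      rw [← Nat.div_add_mod s q, ← Nat.div_add_mod t q, h4, h5]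
  simpa using this

lemma lin_le_pow (z : ℕ) (hz : 20 ≤ z) : 96 * z ≤ 2 ^ z := by
  induction z, hz using Nat.le_induction with
  | base => norm_num
  | succ n hn ih => rw [pow_succ]; omega

theorem exists_good (N : ℕ) :
    ∃ n : ℕ, N ≤ n ∧ 3 ≤ n ∧ ∀ k : ℕ, 2 ^ k < n → Squarefree (n - 2 ^ k) := by
  classical
  obtain ⟨z, hz, hzN⟩ : ∃ z : ℕ, 2 ^ 400 ≤ z ∧ N ≤ z := ⟨2 ^ 400 + N, by omega, by omega⟩
  have hz20 : 20 ≤ z :=
    le_trans (le_trans (by norm_num) (Nat.pow_le_pow_right (by norm_num : 0 < 2)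
      (by norm_num : 5 ≤ 400))) hz
  set P : ℕ := ∏ p ∈ (range (z + 1)).filter (fun p => p.Prime ∧ p ≠ 2), p with hP
  have hPle : P ≤ 4 ^ z := by
    refine le_trans ?_ (primorial_le_four_pow z)
    unfold primorial
    apply Finset.prod_le_prod_of_subset_of_one_le'
    · intro p hp
      have h := mem_filter.mp hp
      exact mem_filter.mpr ⟨h.1, h.2.1⟩
    · intro p hp _
      exact (mem_filter.mp hp).2.one_lt.le
  have hcop : ∀ p : ℕ, p.Prime → (p = 2 ∨ z < p) → Nat.Coprime p P := by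
    intro p hp h
    apply Nat.Coprime.prod_right
    intro q hq
    have hq' := mem_filter.mp hq
    have := mem_range.mp hq'.1
    rw [Nat.coprime_primes hp hq'.2.1]
    rcases h with rfl | h
    · exact fun e => hq'.2.2 e.symm
    · omega
  have hPodd : Odd P := by
    have := hcop 2 Nat.prime_two (Or.inl rfl)
    simpa using this
  have hP0 : 0 < P := hPodd.pos
  have hdvd : ∀ p : ℕ, p.Prime → p ≠ 2 → p ≤ z → p ∣ P := by
    intro p hp h2 h
    exact dvd_prod_of_mem _ (mem_filter.mpr ⟨mem_range.mpr (by omega), hp, h2⟩)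
  set M : ℕ := 2 ^ (6 * z) with hM
  set B : Finset ℕ := (range (10 * z + 2)).biUnion fun k =>
    (PI z (2 ^ (5 * z + 1))).biUnion fun p =>
      (range M).filter fun t => (4 * P ^ 2) * t + 3 * P ^ 2 ≡ 2 ^ k [MOD p ^ 2] with hB
  have hz0 : (0 : ℝ) < z := by exact_mod_cast (show 0 < z by omega)
  have hS : ∑ p ∈ PI z (2 ^ (5 * z + 1)), (1 / (p : ℝ) ^ 2) ≤ 1 / (50 * (z : ℝ)) := by
    have h1 := tail_sum z hz (5 * z + 1)
    have h2 : ∑ p ∈ PI z (2 ^ (5 * z + 1)), (1 / (p : ℝ) ^ 2) ≤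
        ∑ p ∈ PI z (z * 2 ^ (5 * z + 1)), (1 / (p : ℝ) ^ 2) := by
      apply sum_le_sum_of_subset_of_nonneg
      · unfold PI
        exact filter_subset_filter _ (Ioc_subset_Ioc_right (Nat.le_mul_of_pos_left _ (by omega)))
      · intros; positivity
    refine h2.trans (h1.trans ?_)
    apply mul_le_of_le_one_right (by positivity)
    have : (0 : ℝ) ≤ 1 / 2 ^ (5 * z + 1) := by positivity
    linarith
  have hcard : (B.card : ℝ) ≤ (10 * z + 2) * (M * (1 / (50 * (z : ℝ))) + 2 ^ (5 * z + 1)) := by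
    have h1 : B.card ≤ ∑ k ∈ range (10 * z + 2), ∑ p ∈ PI z (2 ^ (5 * z + 1)), (M / p ^ 2 + 1) := by
      refine card_biUnion_le.trans (sum_le_sum fun k _ => card_biUnion_le.trans
        (sum_le_sum fun p hp => ?_))
      have hp' := mem_filter.mp hp
      have hzp := (mem_Ioc.mp hp'.1).1
      apply count_mod
      apply Nat.Coprime.pow_left
      apply Nat.Coprime.mul_right
      · rw [show (4 : ℕ) = 2 ^ 2 by norm_num]
        apply Nat.Coprime.pow_right
        rw [Nat.coprime_primes hp'.2 Nat.prime_two]; omega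
      · exact (hcop p hp'.2 (Or.inr hzp)).pow_right 2
    have h2 : ((∑ p ∈ PI z (2 ^ (5 * z + 1)), (M / p ^ 2 + 1) : ℕ) : ℝ) ≤
        M * (1 / (50 * (z : ℝ))) + 2 ^ (5 * z + 1) := by
      rw [sum_add_distrib]
      push_cast
      apply add_le_add
      · refine le_trans ?_ (mul_le_mul_of_nonneg_left hS (Nat.cast_nonneg M))
        rw [mul_sum]
        refine sum_le_sum fun p _ => ?_
        refine Nat.cast_div_le.trans (le_of_eq ?_)
        push_cast; ring
      · have : (PI z (2 ^ (5 * z + 1))).card ≤ 2 ^ (5 * z + 1) := by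
          unfold PI
          refine (card_filter_le _ _).trans ?_
          simp
        simp only [sum_const, nsmul_eq_mul, mul_one]
        exact_mod_cast this
    rw [sum_const, card_range, smul_eq_mul] at h1
    have h3 : (B.card : ℝ) ≤ ((10 * z + 2 : ℕ) : ℝ) *
        ((∑ p ∈ PI z (2 ^ (5 * z + 1)), (M / p ^ 2 + 1) : ℕ) : ℝ) := by exact_mod_cast h1
    refine h3.trans ?_
    push_cast at h2 ⊢
    gcongr
  have hlt : B.card + N < M := by
    have h96 : (96 * z : ℝ) ≤ 2 ^ z := by exact_mod_cast lin_le_pow z hz20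
    have hMe : (M : ℝ) = 2 ^ z * 2 ^ (5 * z) := by
      rw [hM]; push_cast; rw [← pow_add]; congr 1; ring
    have h5 : (1 : ℝ) ≤ 2 ^ (5 * z) := one_le_pow₀ (by norm_num)
    have hN : (N : ℝ) ≤ z := by exact_mod_cast hzN
    have hz1 : (20 : ℝ) ≤ z := by exact_mod_cast hz20
    have hM0 : (0 : ℝ) < M := by rw [hMe]; positivity
    have e1 : (10 * z + 2 : ℝ) * (M * (1 / (50 * (z : ℝ)))) ≤ M / 4 := by
      rw [mul_one_div, ← mul_div_assoc, div_le_div_iff₀ (by positivity) (by norm_num)]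
      nlinarith
    have e2 : (10 * z + 2 : ℝ) * 2 ^ (5 * z + 1) ≤ M / 4 := by
      rw [hMe, pow_succ]
      nlinarith
    have e3 : (z : ℝ) ≤ M / 4 := by
      rw [hMe]; nlinarith
    have : (B.card : ℝ) + N < M := by
      rw [mul_add] at hcard
      linarith
    exact_mod_cast this
  obtain ⟨t, htM, ht⟩ : ∃ t ∈ range M, t ∉ B ∪ range N := by
    apply exists_mem_notMem_of_card_lt_card
    refine lt_of_le_of_lt (card_union_le _ _) ?_
    simpa using hlt
  rw [mem_union, not_or, mem_range, not_lt] at ht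
  obtain ⟨htB, htN⟩ := ht
  have hP2 : 1 ≤ P ^ 2 := Nat.one_le_pow _ _ hP0
  have hP4 : P ^ 2 % 4 = 1 := by
    obtain ⟨r, hr⟩ := hPodd
    rw [hr, show (2 * r + 1) ^ 2 = 4 * (r ^ 2 + r) + 1 by ring]
    omega
  refine ⟨4 * P ^ 2 * t + 3 * P ^ 2, by nlinarith, by omega, ?_⟩
  intro k hk
  set n := 4 * P ^ 2 * t + 3 * P ^ 2 with hn
  have hn4 : n % 4 = 3 := by
    rw [hn, mul_assoc]; omega
  have hnlt : n < 2 ^ (10 * z + 2) := by
    have h1 : t + 1 ≤ M := mem_range.mp htM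
    have h2 : P ^ 2 ≤ 2 ^ (4 * z) := by
      refine (Nat.pow_le_pow_left hPle 2).trans (le_of_eq ?_)
      rw [show (4 : ℕ) = 2 ^ 2 by norm_num, ← pow_mul, ← pow_mul]
      congr 1; ring
    have h3 : 2 ^ (10 * z + 2) = 4 * 2 ^ (4 * z) * M := by
      rw [hM, show (4 : ℕ) = 2 ^ 2 by norm_num, ← pow_add, ← pow_add]
      congr 1; ring
    rw [h3]
    calc n < 4 * P ^ 2 * (t + 1) := by rw [hn]; nlinarith
      _ ≤ 4 * 2 ^ (4 * z) * M := by gcongr
  rw [Nat.squarefree_iff_prime_squarefree]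
  intro p hp hdiv
  by_cases h2 : p = 2
  · subst h2
    rcases k with _ | k
    · simp only [pow_zero] at hdiv hk
      omega
    · rw [pow_succ] at hdiv hk
      omega
  by_cases hpz : p ≤ z
  · have h1 : p ∣ n := by
      have := hdvd p hp h2 hpz
      rw [hn]
      exact Dvd.dvd.add (Dvd.dvd.mul_right (Dvd.dvd.mul_left (dvd_pow this two_ne_zero) _) _)
        (Dvd.dvd.mul_left (dvd_pow this two_ne_zero) _)
    have h3 : p ∣ n - 2 ^ k := (Dvd.intro _ rfl).trans hdiv
    have h4 : p ∣ 2 ^ k := (Nat.dvd_sub_iff_right hk.le h1).mp h3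
    exact h2 ((Nat.prime_dvd_prime_iff_eq hp Nat.prime_two).mp (hp.dvd_of_dvd_pow h4))
  · apply htB
    have hk' : k < 10 * z + 2 :=
      (Nat.pow_lt_pow_iff_right (by norm_num : 1 < 2)).mp (hk.trans hnlt)
    have hpp : p * p ≤ n - 2 ^ k := Nat.le_of_dvd (by omega) hdiv
    have hp5 : p ≤ 2 ^ (5 * z + 1) := by
      by_contra hc
      have hc' : 2 ^ (5 * z + 1) < p := not_le.mp hc
      have : 2 ^ (10 * z + 2) = 2 ^ (5 * z + 1) * 2 ^ (5 * z + 1) := by
        rw [← pow_add]; congr 1; ring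
      have h5 := Nat.mul_le_mul hc'.le hc'.le
      have h6 : n - 2 ^ k ≤ n := Nat.sub_le _ _
      exact absurd (h5.trans (hpp.trans h6)) (not_le.mpr (this ▸ hnlt))
    rw [hB]
    refine mem_biUnion.mpr ⟨k, mem_range.mpr hk', mem_biUnion.mpr ⟨p,
      mem_filter.mpr ⟨mem_Ioc.mpr ⟨not_le.mp hpz, hp5⟩, hp⟩, mem_filter.mpr ⟨htM, ?_⟩⟩⟩
    rw [sq p]
    exact ((Nat.modEq_iff_dvd' hk.le).mpr hdiv).symm

end Pool.Agent.H62.SqfreePow
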