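import Pool.Agent.H62.TdDefs
import Pool.Agent.H37.Gen

/-! Arithmetical recursion below the omega-jump and a Kleene-Post diagonalisation. -/

set_option autoImplicit false

namespace Pool.Agent.H62.Td

open Encodable Pool.Agent.H37

def bit (X : ℕ → Bool) (n : ℕ) : ℕ := (X n).toNat

theorem ci_bit {O : Set (ℕ →. ℕ)} {X : ℕ → Bool} : CI O (bit X) ↔ CI O X :=
  ⟨fun h => (show CI O fun n => bit X n == 1 by fun_prop).of_eq fun n => by
    unfold bit; cases X n <;> rfl, fun h => h.toNat⟩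

theorem tr_iff {X Y : ℕ → Bool} : TuringReducible (ora X) (ora Y) ↔ CI (orc (bit Y)) (bit X) :=
  ⟨fun h => CI.of_ri h, fun h => h.ri⟩

abbrev Z : Set (ℕ →. ℕ) := orc (bit zw)

theorem engine {Q : Type} [Primcodable Q] {A B : Q × ℕ → Q} {D : (Q × ℕ) × Bool × Bool → Bool}
    (hA : CI ∅ A) (hB : CI ∅ B) (hD : CI ∅ D) :
    ∃ W : ℕ × Q → Bool, CI Z W ∧ ∀ n q, W (n + 1, q) = true ↔
      ∃ x, D ((q, x), W (n, A (q, x)), W (n, B (q, x))) = true := by
  let G : ℕ × ℕ × Q → ℕ := fun z => Nat.pair z.1 (encode z)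
  have hG : ∀ O, CI O G := fun O => by simp only [G]; fun_prop
  have hG0 := hG ∅
  have hG1 := hG Z
  obtain ⟨c, hc⟩ := re_index (re_of_nat (p := fun z : (ℕ × ℕ × Q) × List Bool => ∃ x,
    (decide (G (z.1.1, z.1.2.1 - 1, A (z.1.2.2, x)) < z.2.length) &&
      decide (G (z.1.1, z.1.2.1 - 1, B (z.1.2.2, x)) < z.2.length) &&
      D ((z.1.2.2, x), z.2.getD (G (z.1.1, z.1.2.1 - 1, A (z.1.2.2, x))) false,
        z.2.getD (G (z.1.1, z.1.2.1 - 1, B (z.1.2.2, x))) false)) = true) _ (by fun_prop)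
    fun _ => Iff.rfl)
  have hz : CI Z zw := ci_bit.1 (CI.self _)
  refine ⟨fun z => zw (Nat.pair z.1 (G (c, z))), by fun_prop, fun n q => ?_⟩
  have h2 : ∀ s, ((Denumerable.ofNat Nat.Partrec.Code c).eval
      (encode (encode (c, n + 1, q), pre (zn n) s))).Dom ↔ _ := fun s =>
    Iff.trans (by
      simp only [Option.isSome_iff_exists, Part.dom_iff_mem, ev_iff]
      exact exists_comm) (hc ((c, n + 1, q), pre (zn n) s)).symm
  simp only [zw, Nat.unpair_pair, zn, jump, decide_eq_true_eq, G]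
  refine (exists_congr h2).trans ⟨fun ⟨s, x, h⟩ => ⟨x, ?_⟩, fun ⟨x, h⟩ =>
    ⟨G (c, n, A (q, x)) + G (c, n, B (q, x)) + 1, x, ?_⟩⟩
  · simp only [Bool.and_eq_true, decide_eq_true_eq, length_pre, Nat.add_sub_cancel] at h
    rw [getD_pre _ h.1.1, getD_pre _ h.1.2] at h
    exact h.2
  · simp only [Bool.and_eq_true, decide_eq_true_eq, length_pre, Nat.add_sub_cancel]
    rw [getD_pre _ (by omega), getD_pre _ (by omega)]
    exact ⟨⟨by omega, by omega⟩, h⟩

theorem sig1 {α β : Type} [Primcodable α] [Primcodable β] {F : α × β → Bool} (hF : CI ∅ F) :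
    ∃ b : α → Bool, CI Z b ∧ ∀ a, b a = true ↔ ∃ t, F (a, t) = true := by
  obtain ⟨W, h1, h2⟩ := engine (Q := α) (A := Prod.fst) (B := Prod.fst)
    (D := fun z => (decode (α := β) z.1.2).elim false fun t => F (z.1.1, t))
    (by fun_prop) (by fun_prop) (by fun_prop)
  refine ⟨fun a => W (1, a), by fun_prop, fun a => (h2 0 a).trans ⟨fun ⟨x, h⟩ => ?_,
    fun ⟨t, h⟩ => ⟨encode t, by simpa using h⟩⟩⟩
  cases e : decode (α := β) x with
  | none => simp [e] at h
  | some t => exact ⟨t, by simpa [e] using h⟩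

theorem diag {V : ℕ × ℕ → Bool} (hV : CI Z V) : ∃ D : ℕ → Bool, CI Z D ∧ ∀ e,
    CI (orc (bit D)) (bit fun n => V (e, n)) → ¬CI (orc (bit fun n => V (e, n))) (bit D) := by
  obtain ⟨hl, hl1, hl2⟩ := sig1 (F := fun z : (ℕ × ℕ) × ℕ => ev z.1.1 z.1.2 z.2 == some 1)
    (by fun_prop)
  let u : ℕ → List Bool → ℕ → Option ℕ := fun i τ x => U i (τ.map Bool.toNat) x
  obtain ⟨sp, sp1, sp2⟩ := sig1 (F := fun z : (ℕ × List Bool) × List Bool × List Bool × ℕ =>
    (u z.1.1 (z.1.2 ++ z.2.1) z.2.2.2).isSome && (u z.1.1 (z.1.2 ++ z.2.2.1) z.2.2.2).isSome &&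
      u z.1.1 (z.1.2 ++ z.2.1) z.2.2.2 != u z.1.1 (z.1.2 ++ z.2.2.1) z.2.2.2)
    (by simp only [u]; fun_prop)
  let ex : ℕ × List Bool → List Bool := fun z => z.2 ++ [!hl (z.1.unpair.2, z.2.length)]
  have hex : CI Z ex := by simp only [ex]; fun_prop
  obtain ⟨f, f1, f2⟩ := CI.exists_choice (O := Z) (p := fun (z : ℕ × List Bool)
    (w : List Bool × ℕ) => !sp (z.1.unpair.2, ex z) || ((u z.1.unpair.2 (ex z ++ w.1) w.2).isSome &&
      u z.1.unpair.2 (ex z ++ w.1) w.2 != some (V (z.1.unpair.1, w.2)).toNat))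
    (by simp only [u]; fun_prop) fun z => by
      cases h : sp (z.1.unpair.2, ex z)
      · exact ⟨([], 0), rfl⟩
      obtain ⟨⟨τ, ρ, x⟩, h⟩ := (sp2 _).1 h
      simp only [Bool.and_eq_true, bne_iff_ne] at h
      by_cases k : u z.1.unpair.2 (ex z ++ τ) x = some (V (z.1.unpair.1, x)).toNat
      · exact ⟨(ρ, x), by simpa [h.1.2] using fun e => h.2 (k.trans e.symm)⟩
      · exact ⟨(τ, x), by simpa [h.1.1] using k⟩
  let σ : ℕ → List Bool := fun s => s.rec [] fun s τ => ex (s, τ) ++ (f (s, τ)).1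
  have σs : ∀ s, σ (s + 1) = ex (s, σ s) ++ (f (s, σ s)).1 := fun _ => rfl
  have hσ : CI Z σ := CI.of_rec1 (h := fun s τ => ex (s, τ) ++ (f (s, τ)).1) (by fun_prop) σs
  have p1 : ∀ s, ex (s, σ s) <+: σ (s + 1) := fun s => List.prefix_append _ _
  have p2 : ∀ s t, s ≤ t → σ s <+: σ t := fun s t h => by
    induction h with
    | refl => exact List.prefix_rfl
    | step _ ih => exact ih.trans ((List.prefix_append _ _).trans (p1 _))
  have p3 : ∀ s, s ≤ (σ s).length := fun s => by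
    induction s with
    | zero => simp
    | succ s ih => have := (p1 s).length_le; simp [ex] at this; omega
  let D : ℕ → Bool := fun n => (σ (n + 1)).getD n false
  have p4 : ∀ s, σ s = pre D (σ s).length := fun s => by
    conv_lhs => rw [← pre_getD (σ s) false]
    refine pre_congr fun i hi => ?_
    have hi' : i < (σ (i + 1)).length := p3 _
    simp only [D, List.getD_eq_getElem _ _ hi, List.getD_eq_getElem _ _ hi']
    rcases le_total s (i + 1) with l | l
    exacts [(p2 _ _ l).getElem hi, ((p2 _ _ l).getElem hi').symm]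
  have p5 : ∀ s, ex (s, σ s) = pre D ((σ s).length + 1) := fun s => by
    have := pf_pre (p4 (s + 1) ▸ p1 s)
    simpa [ex] using this
  have mp : ∀ k, (pre D k).map Bool.toNat = pre (bit D) k := fun k => by simp [pre, bit]
  refine ⟨D, by simp only [D]; fun_prop, fun e h1 h2 => ?_⟩
  obtain ⟨i, hi⟩ := exists_app_tot h1
  have nc : ¬CI ∅ (bit D) := fun h => by
    obtain ⟨j, hj⟩ := exists_index h
    have a := p5 (Nat.pair 0 j)
    rw [pre_succ, ← p4] at a
    simp only [ex, Nat.unpair_pair, List.append_cancel_left_eq, List.cons.injEq, and_true] at a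
    obtain ⟨t, ht⟩ := hj (σ (Nat.pair 0 j)).length
    have b := hl2 (j, (σ (Nat.pair 0 j)).length)
    simp only [bit, ← a, beq_iff_eq] at ht b
    cases k : hl (j, (σ (Nat.pair 0 j)).length) <;> rw [k] at ht b
    · exact absurd (b.2 ⟨t, ht⟩) (by simp)
    · obtain ⟨t', ht'⟩ := b.1 rfl
      simpa using ev_unique ht ht'
  refine nc (h2.trans ?_)
  have a := f2 (Nat.pair e i, σ (Nat.pair e i))
  simp only [Nat.unpair_pair, ← σs, Bool.or_eq_true, Bool.not_eq_true', Bool.and_eq_true,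
    bne_iff_ne, Option.isSome_iff_exists] at a
  rcases a with a | ⟨⟨v, a⟩, b⟩
  swap
  · rw [a] at b
    rw [p4 (Nat.pair e i + 1)] at a
    simp only [u, mp] at a
    exact (b (congrArg _ (Part.mem_unique (mem_app.2 ⟨_, a⟩) (hi _)))).elim
  generalize hτ : ex (Nat.pair e i, σ (Nat.pair e i)) = τ at a
  have c : ∀ x, ∃ ρ, u i (τ ++ ρ) x = some (V (e, x)).toNat := fun x => by
    obtain ⟨k, k1, k2⟩ := ((mem_app'.1 (hi x)).and (Filter.eventually_ge_atTop
      ((σ (Nat.pair e i)).length + 1))).exists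
    obtain ⟨ρ, hρ⟩ := pre_pf D k2
    exact ⟨ρ, by rw [← hτ, p5, hρ]; simp only [u, mp]; exact k1⟩
  obtain ⟨g, g1, g2⟩ := CI.exists_choice (O := ∅) (p := fun (x : ℕ) (ρ : List Bool) =>
    (u i (τ ++ ρ) x).isSome) (by simp only [u]; fun_prop) fun x => (c x).imp fun ρ h => by simp [h]
  refine (show CI ∅ fun x => (u i (τ ++ g x) x).getD 0 by simp only [u]; fun_prop).of_eq
    fun x => ?_
  obtain ⟨ρ, hρ⟩ := c x
  have := mt (sp2 (i, τ)).2 (by simp [a])
  simp only [not_exists, Bool.and_eq_true, bne_iff_ne, not_and, not_not] at this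
  rw [this (g x, ρ, x) ⟨g2 x, by simp [hρ]⟩, hρ]
  rfl

end Pool.Agent.H62.Td
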