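import Pool.Agent.H62.Td1

/-! Syntax and truth are uniformly computable in the omega-jump. -/

set_option autoImplicit false

namespace Pool.Agent.H62.Td

open Encodable Pool.Agent.H37 FirstOrder FirstOrder.Language

variable {L : FirstOrder.Language.{0, 0}} (S : Sig L)

theorem lt_pair {a : ℕ} (b : ℕ) (h : a ≠ 0) : b < Nat.pair a b := by
  unfold Nat.pair; split_ifs <;> nlinarith [Nat.pos_of_ne_zero h]

theorem lt1 {c : ℕ} (h : c.unpair.1 ≠ 0) : c.unpair.2 < c := by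
  have := lt_pair c.unpair.2 h
  rwa [Nat.pair_unpair] at this

def PT (n c : ℕ) : Prop := ∃ t : L.Term (Empty ⊕ Fin n), tcode S t = c
def PL (n k c : ℕ) : Prop :=
  ∃ ts : Fin k → L.Term (Empty ⊕ Fin n), encode (List.ofFn fun i => tcode S (ts i)) = c
def PF (n c : ℕ) : Prop := ∃ φ : L.BoundedFormula Empty n, code S φ = c

theorem PT_iff (n c : ℕ) : PT S n c ↔ (c.unpair.1 = 0 ∧ c.unpair.2 < n) ∨ (c.unpair.1 = 1 ∧
    ∃ k, S.af c.unpair.2.unpair.1 = some k ∧ PL S n k c.unpair.2.unpair.2) := by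
  constructor
  · rintro ⟨(a | i) | ⟨f, ts⟩, rfl⟩
    · exact a.elim
    · simp [tcode]
    · exact Or.inr ⟨by simp [tcode], _, (S.haf _ _).2 ⟨f, by simp [tcode]⟩, ts, by simp [tcode]⟩
  · rintro (⟨a, b⟩ | ⟨a, k, b, ts, d⟩)
    · exact ⟨.var (.inr ⟨_, b⟩), by simp only [tcode]; rw [← a, Nat.pair_unpair]⟩
    · obtain ⟨f, hf⟩ := (S.haf _ _).1 b
      exact ⟨.func f ts, by simp only [tcode]; rw [hf, d, ← a, Nat.pair_unpair, Nat.pair_unpair]⟩

theorem PL_iff (n k c : ℕ) : PL S n k c ↔ (k = 0 ∧ c = 0) ∨ (k ≠ 0 ∧ c ≠ 0 ∧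
    PT S n (c - 1).unpair.1 ∧ PL S n (k - 1) (c - 1).unpair.2) := by
  rcases k with _ | k
  · simp [PL, eq_comm]
  simp only [PL, List.ofFn_succ, encode_list_cons, Nat.add_sub_cancel]
  constructor
  · rintro ⟨ts, rfl⟩
    exact Or.inr ⟨by simp, by simp, ⟨ts 0, by simp⟩, fun i => ts i.succ, by simp⟩
  · rintro (h | ⟨-, a, ⟨t, b⟩, ts, d⟩)
    · simp at h
    · refine ⟨Fin.cons t ts, ?_⟩
      simp only [Fin.cons_zero, Fin.cons_succ, encode_nat, b]
      erw [d, Nat.pair_unpair]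
      omega

theorem PF_iff (n c : ℕ) : PF S n c ↔ c = 0 ∨
    (c.unpair.1 = 1 ∧ PT S n c.unpair.2.unpair.1 ∧ PT S n c.unpair.2.unpair.2) ∨
    (c.unpair.1 = 2 ∧ ∃ k, S.ar c.unpair.2.unpair.1 = some k ∧ PL S n k c.unpair.2.unpair.2) ∨
    (c.unpair.1 = 3 ∧ PF S n c.unpair.2.unpair.1 ∧ PF S n c.unpair.2.unpair.2) ∨
    (c.unpair.1 = 4 ∧ PF S (n + 1) c.unpair.2) := by
  constructor
  · rintro ⟨_ | ⟨s, t⟩ | ⟨r, ts⟩ | ⟨φ, ψ⟩ | φ, rfl⟩
    · exact Or.inl rfl
    · exact .inr (.inl ⟨by simp [code], ⟨s, by simp [code]⟩, t, by simp [code]⟩)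
    · exact .inr (.inr (.inl ⟨by simp [code], _, (S.har _ _).2 ⟨r, by simp [code]⟩, ts,
        by simp [code]⟩))
    · exact .inr (.inr (.inr (.inl ⟨by simp [code], ⟨φ, by simp [code]⟩, ψ, by simp [code]⟩)))
    · exact .inr (.inr (.inr (.inr ⟨by simp [code], φ, by simp [code]⟩)))
  · rintro (rfl | ⟨a, ⟨s, b⟩, t, d⟩ | ⟨a, k, b, ts, d⟩ | ⟨a, ⟨s, b⟩, t, d⟩ | ⟨a, s, b⟩)
    · exact ⟨.falsum, rfl⟩
    · exact ⟨.equal s t, by simp only [code]; rw [b, d, ← a, Nat.pair_unpair, Nat.pair_unpair]⟩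
    · obtain ⟨f, hf⟩ := (S.har _ _).1 b
      exact ⟨.rel f ts, by simp only [code]; rw [hf, d, ← a, Nat.pair_unpair, Nat.pair_unpair]⟩
    · exact ⟨.imp s t, by simp only [code]; rw [b, d, ← a, Nat.pair_unpair, Nat.pair_unpair]⟩
    · exact ⟨.all s, by simp only [code]; rw [b, ← a, Nat.pair_unpair]⟩

theorem ar_iff {a : ℕ → Option ℕ} {e : ℕ} (h : ∀ n, ∃ s, ev e n s = some (encode (a n)))
    (m : ℕ) (P : ℕ → Prop) : (∃ x : ℕ, ev e m x.unpair.2 = some (x.unpair.1 + 1) ∧ P x.unpair.1) ↔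
      ∃ k, a m = some k ∧ P k := by
  obtain ⟨s, hs⟩ := h m
  refine ⟨fun ⟨x, h1, h2⟩ => ⟨_, encode_injective (ev_unique hs h1), h2⟩, fun ⟨k, h1, h2⟩ =>
    ⟨Nat.pair k s, by simpa [h1] using hs, by simpa using h2⟩⟩

abbrev QW := (ℕ × ℕ) × ℕ × ℕ × ℕ × ℕ

def wA (z : QW × ℕ) : QW :=
  let c := z.1.2.2.2.2
  let n := z.1.2.2.1
  (z.1.1, if z.1.2.1 = 0 then (1, n, z.2.unpair.1, c.unpair.2.unpair.2)
    else if z.1.2.1 = 1 then (0, n, 0, (c - 1).unpair.1)
    else if c.unpair.1 = 1 then (0, n, 0, c.unpair.2.unpair.1)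
    else if c.unpair.1 = 2 then (1, n, z.2.unpair.1, c.unpair.2.unpair.2)
    else if c.unpair.1 = 3 then (2, n, 0, c.unpair.2.unpair.1) else (2, n + 1, 0, c.unpair.2))

def wB (z : QW × ℕ) : QW :=
  let c := z.1.2.2.2.2
  let n := z.1.2.2.1
  (z.1.1, if z.1.2.1 = 1 then (1, n, z.1.2.2.2.1 - 1, (c - 1).unpair.2)
    else if c.unpair.1 = 1 then (0, n, 0, c.unpair.2.unpair.2) else (2, n, 0, c.unpair.2.unpair.2))

def wD (y : (QW × ℕ) × Bool × Bool) : Bool :=
  let c := y.1.1.2.2.2.2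
  let k := y.1.1.2.2.2.1
  let x := y.1.2
  if y.1.1.2.1 = 0 then (c.unpair.1 == 0 && decide (c.unpair.2 < y.1.1.2.2.1)) ||
    (c.unpair.1 == 1 && (ev y.1.1.1.1 c.unpair.2.unpair.1 x.unpair.2 == some (x.unpair.1 + 1) &&
      y.2.1))
  else if y.1.1.2.1 = 1 then (k == 0 && c == 0) || (k != 0 && (c != 0 && (y.2.1 && y.2.2)))
  else c == 0 || ((c.unpair.1 == 1 && (y.2.1 && y.2.2)) || ((c.unpair.1 == 2 &&
    (ev y.1.1.1.2 c.unpair.2.unpair.1 x.unpair.2 == some (x.unpair.1 + 1) && y.2.1)) ||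
    ((c.unpair.1 == 3 && (y.2.1 && y.2.2)) || (c.unpair.1 == 4 && y.2.1))))

theorem wf : ∃ V : (ℕ × ℕ) × ℕ → Bool, CI Z V ∧ ∀ (L : FirstOrder.Language.{0, 0}) (S : Sig L),
    ∃ e, ∀ c, V (e, c) = true ↔ PF S 0 c := by
  obtain ⟨W, h1, h2⟩ := engine (A := wA) (B := wB) (D := wD) (by unfold wA; fun_prop)
    (by unfold wB; fun_prop) (by unfold wD; fun_prop)
  refine ⟨fun z => W (z.2 + 1, z.1, 2, 0, 0, z.2), by fun_prop, fun L S => ?_⟩
  obtain ⟨ef, hf⟩ := exists_index (CI.of_comp S.caf).encode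
  obtain ⟨er, hr⟩ := exists_index (CI.of_comp S.car).encode
  suffices ∀ N c, c < N → ∀ n k, (W (N, (ef, er), 0, n, k, c) = true ↔ PT S n c) ∧
      (W (N, (ef, er), 1, n, k, c) = true ↔ PL S n k c) ∧
      (W (N, (ef, er), 2, n, k, c) = true ↔ PF S n c) from
    ⟨(ef, er), fun c => (this _ c c.lt_succ_self 0 0).2.2⟩
  intro N
  induction N with
  | zero => simp
  | succ N ih =>
  intro c hc n k
  have l1 := Nat.unpair_left_le c.unpair.2
  have l2 := Nat.unpair_right_le c.unpair.2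
  have l3 := Nat.unpair_left_le (c - 1)
  have l4 := Nat.unpair_right_le (c - 1)
  have l5 := @lt1 c
  refine ⟨?_, ?_, ?_⟩
  · rw [h2, PT_iff, ← ar_iff hf]
    simp only [wA, wD, if_true, Bool.or_eq_true, Bool.and_eq_true, beq_iff_eq, decide_eq_true_eq,
      exists_or, exists_and_left, exists_const]
    refine or_congr_right (and_congr_right fun a => exists_congr fun x => and_congr_right fun _ =>
      (ih _ (by omega) _ _).2.1)
  · rw [h2, PL_iff]
    simp only [wA, wB, wD, if_true, one_ne_zero, if_false, Bool.or_eq_true, Bool.and_eq_true,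
      beq_iff_eq, bne_iff_ne, exists_const]
    exact or_congr_right (and_congr_right fun _ => and_congr_right fun a =>
      and_congr (ih _ (by omega) _ _).1 (ih _ (by omega) _ _).2.1)
  · rw [h2, PF_iff, ← ar_iff hr]
    simp only [wA, wB, wD, OfNat.ofNat_ne_zero, OfNat.ofNat_ne_one, if_false, Bool.or_eq_true,
      Bool.and_eq_true, beq_iff_eq, exists_or, exists_and_left, exists_const]
    refine or_congr_right (or_congr (and_congr_right fun a => ?_) (or_congr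
      (and_congr_right fun a => ?_) (or_congr (and_congr_right fun a => ?_)
        (and_congr_right fun a => ?_)))) <;> simp only [a, OfNat.ofNat_ne_one, if_true, if_false,
          exists_const, Nat.reduceEqDiff]
    · exact and_congr (ih _ (by omega) _ _).1 (ih _ (by omega) _ _).1
    · exact exists_congr fun x => and_congr_right fun _ => (ih _ (by omega) _ _).2.1
    · exact and_congr (ih _ (by omega) _ _).2.2 (ih _ (by omega) _ _).2.2
    · exact (ih _ (by omega) _ _).2.2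

abbrev QT := (ℕ × ℕ) × ℕ × List ℕ

def tA (z : QT × ℕ) : QT :=
  (z.1.1, if z.1.2.1.unpair.1 = 3 then (z.1.2.1.unpair.2.unpair.1, z.1.2.2)
    else (z.1.2.1.unpair.2, z.1.2.2 ++ [z.2.unpair.1]))

def tB (z : QT × ℕ) : QT := (z.1.1, z.1.2.1.unpair.2.unpair.2, z.1.2.2)

def tD (y : (QT × ℕ) × Bool × Bool) : Bool :=
  if y.1.1.2.1.unpair.1 = 0 then true
  else if y.1.1.2.1.unpair.1 = 3 then !y.2.1 && y.2.2
  else if y.1.1.2.1.unpair.1 = 4 then
    ev y.1.1.1.1 y.1.2.unpair.1 y.1.2.unpair.2 == some 1 && y.2.1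
  else ev y.1.1.1.2 (encode y.1.1.2) y.1.2 == some 0

theorem tru : ∃ V : (ℕ × ℕ) × ℕ → Bool, CI Z V ∧ ∀ (L : FirstOrder.Language.{0, 0}) (S : Sig L)
    (M : Type) [L.Structure M], CompStr S M →
    ∃ e, ∀ φ : L.Sentence, V (e, code S φ) = true ↔ ¬M ⊨ φ := by
  obtain ⟨W, h1, h2⟩ := engine (A := tA) (B := tB) (D := tD) (by unfold tA; fun_prop)
    (by unfold tB; fun_prop) (by unfold tD; fun_prop)
  refine ⟨fun z => W (z.2 + 1, z.1, z.2, []), by fun_prop, fun L S M _ ⟨ν, _, a, p, b, d⟩ => ?_⟩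
  obtain ⟨r, r1, r2⟩ := computablePred_iff.1 a
  obtain ⟨es, hs⟩ := exists_index r1.toNat
  have b' : CI ∅ p := CI.of_comp b
  obtain ⟨ep, hp⟩ := exists_index (f := fun m =>
    (decode (α := ℕ × List ℕ) m).elim 0 fun q => (p q).toNat) (by fun_prop)
  have at0 : ∀ q, (∃ x, ev ep (encode q) x = some 0) ↔ ¬p q = true := fun q => by
    obtain ⟨s, hs⟩ := hp (encode q)
    simp only [encodek, Option.elim_some] at hs
    refine ⟨fun ⟨x, h⟩ => ?_, fun h => ⟨s, by simpa [h] using hs⟩⟩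
    have := ev_unique hs h
    cases k : p q <;> simp_all
  suffices ∀ n (φ : L.BoundedFormula Empty n) N (v : Fin n → M), code S φ < N →
      (W (N, (es, ep), code S φ, List.ofFn (ν ∘ v)) = true ↔ ¬φ.Realize default v) from
    ⟨(es, ep), fun φ => by simpa using! this 0 φ _ default (Nat.lt_succ_self _)⟩
  intro n φ
  induction φ with
  | falsum => rintro (_ | N) v h; · omega
              simp [h2, tD, code, BoundedFormula.Realize]
  | equal s t =>
    rintro (_ | N) v h; · omega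
    rw [h2, ← d _ (.equal s t) v (.equal s t), ← at0]
    simp [tD, code]
  | rel r ts =>
    rintro (_ | N) v h; · omega
    rw [h2, ← d _ (.rel r ts) v (.rel r ts), ← at0]
    simp [tD, code]
  | imp φ ψ i1 i2 =>
    rintro (_ | N) v h; · omega
    have l1 := lt_pair (a := 3) (Nat.pair (code S φ) (code S ψ)) (by simp)
    have l2 := Nat.left_le_pair (code S φ) (code S ψ)
    have l3 := Nat.right_le_pair (code S φ) (code S ψ)
    simp only [code] at h
    rw [h2]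
    simp [tD, tA, tB, code, ← Bool.not_eq_true, i1 N v (by omega), i2 N v (by omega)]
  | all φ i1 =>
    rintro (_ | N) v h; · omega
    have l1 := lt_pair (a := 4) (code S φ) (by simp)
    simp only [code] at h
    have e : ∀ a, List.ofFn (ν ∘ v) ++ [ν a] = List.ofFn (ν ∘ Fin.snoc v a) := fun a => by
      rw [List.ofFn_succ_last]; simp [Function.comp_def]
    rw [h2]
    simp only [tD, tA, code, Nat.unpair_pair, OfNat.ofNat_ne_zero, Nat.reduceEqDiff, if_true,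
      if_false, Bool.and_eq_true, beq_iff_eq, BoundedFormula.realize_all, not_forall]
    constructor
    · rintro ⟨x, x1, x2⟩
      obtain ⟨s, hs⟩ := hs x.unpair.1
      obtain ⟨a, ha⟩ := (r2 x.unpair.1).2 (by simpa using ev_unique hs x1)
      rw [← ha, e, i1 N _ (by omega)] at x2
      exact ⟨a, x2⟩
    · rintro ⟨a, ha⟩
      obtain ⟨s, hs⟩ := hs (ν a)
      rw [(r2 _).1 ⟨a, rfl⟩] at hs
      exact ⟨Nat.pair (ν a) s, by simpa using hs, by
        rw [Nat.unpair_pair, e, i1 N _ (by omega)]; exact ha⟩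

end Pool.Agent.H62.Td
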