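import Mathlib

/-! Iterated jumps, computable signatures, Goedel numbers and computable structures. -/

set_option autoImplicit false

namespace Pool.Agent.H62.Td

open FirstOrder FirstOrder.Language Encodable

/-- a set of naturals as an oracle -/
def ora (X : ℕ → Bool) : ℕ →. ℕ := fun n => Part.some (X n).toNat

open Classical in
/-- the Turing jump: pairs `(e, n)` such that program `e` halts on `n` and some initial segment -/
noncomputable def jump (X : ℕ → Bool) (p : ℕ) : Bool :=
  decide (∃ s : ℕ, ((Denumerable.ofNat Nat.Partrec.Code p.unpair.1).eval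
    (encode (p.unpair.2, (List.range s).map X))).Dom)

/-- the finite jumps of the empty set -/
noncomputable def zn : ℕ → ℕ → Bool
  | 0 => fun _ => false
  | n + 1 => jump (zn n)

/-- the omega-jump of the empty set -/
noncomputable def zw (p : ℕ) : Bool := zn p.unpair.1 p.unpair.2

/-- a computable presentation of a signature -/
structure Sig (L : FirstOrder.Language.{0, 0}) where
  nf : (Σ n, L.Functions n) → ℕ
  nr : (Σ n, L.Relations n) → ℕ
  nf_inj : Function.Injective nf
  nr_inj : Function.Injective nr
  af : ℕ → Option ℕ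
  ar : ℕ → Option ℕ
  caf : Computable af
  car : Computable ar
  haf : ∀ m n, af m = some n ↔ ∃ f : L.Functions n, nf ⟨n, f⟩ = m
  har : ∀ m n, ar m = some n ↔ ∃ r : L.Relations n, nr ⟨n, r⟩ = m

variable {L : FirstOrder.Language.{0, 0}} (S : Sig L)

/-- Goedel number of a term -/
def tcode {n : ℕ} : L.Term (Empty ⊕ Fin n) → ℕ
  | .var (.inl a) => a.elim
  | .var (.inr i) => Nat.pair 0 i
  | .func f ts => Nat.pair 1 (Nat.pair (S.nf ⟨_, f⟩) (encode (List.ofFn fun i => tcode (ts i))))

/-- Goedel number of a formula in the variables `x_0, ..., x_(n-1)` -/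
def code : ∀ {n : ℕ}, L.BoundedFormula Empty n → ℕ
  | _, .falsum => Nat.pair 0 0
  | _, .equal s t => Nat.pair 1 (Nat.pair (tcode S s) (tcode S t))
  | _, .rel r ts => Nat.pair 2 (Nat.pair (S.nr ⟨_, r⟩) (encode (List.ofFn fun i => tcode S (ts i))))
  | _, .imp φ ψ => Nat.pair 3 (Nat.pair (code φ) (code ψ))
  | _, .all φ => Nat.pair 4 (code φ)

open Classical in
/-- the set of Goedel numbers of the sentences of `T` -/
noncomputable def gn (T : L.Theory) (c : ℕ) : Bool := decide (∃ φ ∈ T, code S φ = c)

/-- `M` is (a copy of) a computable structure: its universe is a computable set of naturals and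
its atomic diagram is computable -/
def CompStr (M : Type) [L.Structure M] : Prop :=
  ∃ ν : M → ℕ, Function.Injective ν ∧ ComputablePred (· ∈ Set.range ν) ∧
    ∃ p : ℕ × List ℕ → Bool, Computable p ∧
      ∀ (n : ℕ) (φ : L.BoundedFormula Empty n) (v : Fin n → M), φ.IsAtomic →
        (p (code S φ, List.ofFn (ν ∘ v)) = true ↔ φ.Realize default v)

end Pool.Agent.H62.Td
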