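import Mathlib

/-!
Computable relational structures on subsets of ℕ, indices of atomic diagrams, isomorphisms, and
the two notions of uniform computable categoricity (for the degree 0).
-/

set_option autoImplicit false

namespace Pool.Agent.H62.Uc

open Classical

/-- a structure in a relational language with symbols R_0, R_1, ...: a universe `U ⊆ ℕ` and the
interpretations `R i` (only tuples from `U` of the right length matter) -/
structure Str where
  U : Set ℕ
  R : ℕ → List ℕ → Prop

/-- characteristic function of the atomic diagram, `ar i` being the arity of R_i: the code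
⟨0, x⟩ asks whether x is in the universe, the code ⟨i+1, l⟩ whether the tuple l satisfies R_i -/
noncomputable def diag (ar : ℕ → ℕ) (A : Str) (q : ℕ) : ℕ :=
  if (∃ x ∈ A.U, q = Nat.pair 0 x) ∨
      ∃ (i : ℕ) (l : List ℕ), q = Nat.pair (i + 1) (Encodable.encode l) ∧ l.length = ar i ∧
        (∀ x ∈ l, x ∈ A.U) ∧ A.R i l then 1 else 0

/-- φ_e is the atomic diagram of `A` -/
def IsIdx (ar : ℕ → ℕ) (e : ℕ) (A : Str) : Prop :=
  ∀ q, diag ar A q ∈ (Denumerable.ofNat Nat.Partrec.Code e).eval q

/-- `f` restricted to the universe of `A` is an isomorphism `A → M` -/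
def Iso (ar : ℕ → ℕ) (A M : Str) (f : ℕ → ℕ) : Prop :=
  Set.BijOn f A.U M.U ∧ ∀ (i : ℕ) (l : List ℕ), l.length = ar i → (∀ x ∈ l, x ∈ A.U) →
    (A.R i l ↔ M.R i (l.map f))

/-- uniformly computably categorical -/
def UCC (ar : ℕ → ℕ) (A : Str) : Prop :=
  ∃ g : ℕ × ℕ →. ℕ, Partrec g ∧ ∀ (e : ℕ) (M : Str), IsIdx ar e M → (∃ π, Iso ar A M π) →
    ∃ π, Iso ar A M π ∧ ∀ x ∈ A.U, π x ∈ g (e, x)

/-- uniformly computably categorical within every uniformly computable collection of copies -/
def Within (ar : ℕ → ℕ) (A : Str) : Prop :=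
  ∀ (C : ℕ → Str) (f : ℕ → ℕ), Computable f →
    (∀ i, IsIdx ar (f i) (C i) ∧ ∃ π, Iso ar A (C i) π) →
    ∃ h : ℕ × ℕ → ℕ, Computable h ∧ ∀ i, Iso ar A (C i) fun x => h (i, x)

end Pool.Agent.H62.Uc
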