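import Pool.Agent.H37.RE
import Pool.Agent.H62.UcDefs

/-!
Labelled pairs: the structures built from a labelling.
-/

set_option autoImplicit false

namespace Pool.Agent.H62.Uc

open Pool.Agent.H37 Encodable

def ar0 (i : ℕ) : ℕ := if i % 2 = 0 then 1 else 2
def cd (s a b n : ℕ) : ℕ := Nat.pair s (Nat.pair a (Nat.pair b n))
def sx (x : ℕ) : ℕ := x.unpair.1
def ax (x : ℕ) : ℕ := x.unpair.2.unpair.1
def bx (x : ℕ) : ℕ := x.unpair.2.unpair.2.unpair.1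
def nx (x : ℕ) : ℕ := x.unpair.2.unpair.2.unpair.2
def vx (a b : ℕ) : ℕ := cd 0 a b 0

@[simp] theorem sx_cd (s a b n : ℕ) : sx (cd s a b n) = s := by simp [sx, cd]
@[simp] theorem ax_cd (s a b n : ℕ) : ax (cd s a b n) = a := by simp [ax, cd]
@[simp] theorem bx_cd (s a b n : ℕ) : bx (cd s a b n) = b := by simp [bx, cd]
@[simp] theorem nx_cd (s a b n : ℕ) : nx (cd s a b n) = n := by simp [nx, cd]
theorem cd_eta (x : ℕ) : cd (sx x) (ax x) (bx x) (nx x) = x := by simp [cd, sx, ax, bx, nx]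
@[simp] theorem sx_vx (a b : ℕ) : sx (vx a b) = 0 := by simp [vx]
@[simp] theorem ax_vx (a b : ℕ) : ax (vx a b) = a := by simp [vx]
@[simp] theorem bx_vx (a b : ℕ) : bx (vx a b) = b := by simp [vx]
@[simp] theorem nx_vx (a b : ℕ) : nx (vx a b) = 0 := by simp [vx]
theorem vx_inj {a b a' b' : ℕ} : vx a b = vx a' b' ↔ a = a' ∧ b = b' :=
  ⟨fun h => ⟨by simpa using congrArg ax h, by simpa using congrArg bx h⟩,
    fun h => by rw [h.1, h.2]⟩

section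
variable {α : Type} [Primcodable α] {O : Set (ℕ →. ℕ)}
@[fun_prop] theorem ci_cd {s a b n : α → ℕ} (hs : CI O s) (ha : CI O a) (hb : CI O b)
    (hn : CI O n) : CI O fun p => cd (s p) (a p) (b p) (n p) := by unfold cd; fun_prop
@[fun_prop] theorem ci_sx {x : α → ℕ} (h : CI O x) : CI O fun p => sx (x p) := by
  unfold sx; fun_prop
@[fun_prop] theorem ci_ax {x : α → ℕ} (h : CI O x) : CI O fun p => ax (x p) := by
  unfold ax; fun_prop
@[fun_prop] theorem ci_bx {x : α → ℕ} (h : CI O x) : CI O fun p => bx (x p) := by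
  unfold bx; fun_prop
@[fun_prop] theorem ci_nx {x : α → ℕ} (h : CI O x) : CI O fun p => nx (x p) := by
  unfold nx; fun_prop
@[fun_prop] theorem ci_vx {a b : α → ℕ} (ha : CI O a) (hb : CI O b) :
    CI O fun p => vx (a p) (b p) := by unfold vx; fun_prop
end

/-- a labelling: stage, pair, side, label -/
abbrev Lab := ℕ → ℕ → ℕ → ℕ → Bool

def L (Λ : Lab) (a b n : ℕ) : Prop := ∃ s, Λ s a b n = true
noncomputable def fs (Λ : Lab) (a b n : ℕ) : ℕ := sInf {s | Λ s a b n = true}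

def inU (Λ : Lab) (x : ℕ) : Bool :=
  decide (bx x < 2) && cond (sx x == 0) (nx x == 0)
    (Λ (sx x - 1) (ax x) (bx x) (nx x) &&
      (List.range (sx x - 1)).all fun s => !Λ s (ax x) (bx x) (nx x))

def rel (i : ℕ) (l : List ℕ) : Bool :=
  cond (i % 2 == 0) (l == [vx (i / 2) 0] || l == [vx (i / 2) 1])
    (sx (l.getD 1 0) != 0 && nx (l.getD 1 0) == i / 2 &&
      l == [vx (ax (l.getD 1 0)) (bx (l.getD 1 0)), l.getD 1 0])

def S (Λ : Lab) : Str := ⟨{x | inU Λ x = true}, fun i l => rel i l = true⟩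

theorem mem_U {Λ : Lab} {x : ℕ} : x ∈ (S Λ).U ↔ bx x < 2 ∧
    ((sx x = 0 ∧ nx x = 0) ∨ (L Λ (ax x) (bx x) (nx x) ∧ sx x = fs Λ (ax x) (bx x) (nx x) + 1)) := by
  change inU Λ x = true ↔ _
  unfold inU
  rcases h : sx x with _ | s
  · simp
  · simp only [Bool.and_eq_true, decide_eq_true_eq, Nat.add_sub_cancel, List.all_eq_true,
      List.mem_range, Bool.not_eq_true', Nat.add_eq_zero_iff, one_ne_zero, and_false, false_and,
      false_or, Nat.add_right_cancel_iff, and_congr_right_iff]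
    intro _
    have : (s + 1 == 0) = false := by simp
    rw [this]
    simp only [cond_false, Bool.and_eq_true, List.all_eq_true, List.mem_range, Bool.not_eq_true']
    constructor
    · rintro ⟨h1, h2⟩
      refine ⟨⟨s, h1⟩, le_antisymm ?_ (Nat.sInf_le h1)⟩
      by_contra hlt
      have := Nat.sInf_mem (s := {s | Λ s (ax x) (bx x) (nx x) = true}) ⟨s, h1⟩
      have h3 := h2 _ (not_le.1 hlt)
      simp only [Set.mem_ofPred_eq] at this
      unfold fs at h3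
      rw [h3] at this; cases this
    · rintro ⟨h1, h2⟩
      refine ⟨h2 ▸ Nat.sInf_mem (s := {s | Λ s (ax x) (bx x) (nx x) = true}) h1, fun t ht => ?_⟩
      have := Nat.notMem_of_lt_sInf (s := {s | Λ s (ax x) (bx x) (nx x) = true}) (m := t)
        (by rw [h2] at ht; exact ht)
      simpa using this

theorem vx_mem {Λ : Lab} {a b : ℕ} (hb : b < 2) : vx a b ∈ (S Λ).U := by simp [mem_U, hb]

noncomputable def wit (Λ : Lab) (a b n : ℕ) : ℕ := cd (fs Λ a b n + 1) a b n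

theorem wit_mem {Λ : Lab} {a b n : ℕ} (hb : b < 2) (h : L Λ a b n) : wit Λ a b n ∈ (S Λ).U := by
  simp [mem_U, hb, wit, h]

theorem mem_cases {Λ : Lab} {x : ℕ} (h : x ∈ (S Λ).U) :
    (∃ a b, b < 2 ∧ x = vx a b) ∨ ∃ a b n, b < 2 ∧ L Λ a b n ∧ x = wit Λ a b n := by
  obtain ⟨h1, h2 | h2⟩ := mem_U.1 h
  · refine Or.inl ⟨ax x, bx x, h1, ?_⟩
    conv_lhs => rw [← cd_eta x, h2.1, h2.2]
    rfl
  · refine Or.inr ⟨ax x, bx x, nx x, h1, h2.1, ?_⟩
    conv_lhs => rw [← cd_eta x, h2.2]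
    rfl

theorem rel_even {Λ : Lab} {a : ℕ} {l : List ℕ} :
    (S Λ).R (2 * a) l ↔ ∃ b < 2, l = [vx a b] := by
  change rel _ _ = true ↔ _
  have h1 : (2 * a % 2 == 0) = true := by simp
  have h2 : 2 * a / 2 = a := by omega
  simp only [rel, h1, h2, cond_true, Bool.or_eq_true, beq_iff_eq]
  constructor
  · rintro (h | h)
    · exact ⟨0, by omega, h⟩
    · exact ⟨1, by omega, h⟩
  · rintro ⟨b, hb, h⟩
    interval_cases b
    · exact Or.inl h
    · exact Or.inr h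

theorem rel_odd {Λ : Lab} {n : ℕ} {l : List ℕ} :
    (S Λ).R (2 * n + 1) l ↔ ∃ y, sx y ≠ 0 ∧ nx y = n ∧ l = [vx (ax y) (bx y), y] := by
  change rel _ _ = true ↔ _
  have h1 : ((2 * n + 1) % 2 == 0) = false := by simp
  have h2 : (2 * n + 1) / 2 = n := by omega
  simp only [rel, h1, h2, cond_false, Bool.and_eq_true, beq_iff_eq, bne_iff_ne]
  constructor
  · rintro ⟨⟨h, h'⟩, h''⟩; exact ⟨_, h, h', h''⟩
  · rintro ⟨y, h, h', rfl⟩; simp [h, h']

theorem ar_even (a : ℕ) : ar0 (2 * a) = 1 := by simp [ar0]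
theorem ar_odd (a : ℕ) : ar0 (2 * a + 1) = 2 := by simp [ar0]

/-- the swap map -/
noncomputable def sw (Λ' : Lab) (τ : ℕ → ℕ → ℕ) (x : ℕ) : ℕ :=
  if sx x = 0 then vx (ax x) (τ (ax x) (bx x)) else wit Λ' (ax x) (τ (ax x) (bx x)) (nx x)

theorem sw_vx (Λ' : Lab) (τ : ℕ → ℕ → ℕ) (a b : ℕ) : sw Λ' τ (vx a b) = vx a (τ a b) := by
  simp [sw]
theorem sw_wit (Λ Λ' : Lab) (τ : ℕ → ℕ → ℕ) (a b n : ℕ) :
    sw Λ' τ (wit Λ a b n) = wit Λ' a (τ a b) n := by simp [sw, wit]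

def Sw (Λ Λ' : Lab) (τ : ℕ → ℕ → ℕ) : Prop :=
  ∀ a b, b < 2 → τ a b < 2 ∧ τ a (τ a b) = b ∧ ∀ n, L Λ a b n ↔ L Λ' a (τ a b) n

theorem Sw.symm {Λ Λ' : Lab} {τ : ℕ → ℕ → ℕ} (h : Sw Λ Λ' τ) : Sw Λ' Λ τ := fun a b hb =>
  ⟨(h a b hb).1, (h a b hb).2.1, fun n => by
    have := (h a _ (h a b hb).1).2.2 n
    rw [(h a b hb).2.1] at this; exact this.symm⟩

theorem Sw.maps {Λ Λ' : Lab} {τ : ℕ → ℕ → ℕ} (h : Sw Λ Λ' τ) :
    Set.MapsTo (sw Λ' τ) (S Λ).U (S Λ').U := fun x hx => by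
  rcases mem_cases hx with ⟨a, b, hb, rfl⟩ | ⟨a, b, n, hb, hl, rfl⟩
  · rw [sw_vx]; exact vx_mem (h a b hb).1
  · rw [sw_wit]; exact wit_mem (h a b hb).1 (((h a b hb).2.2 n).1 hl)

theorem Sw.inv {Λ Λ' : Lab} {τ : ℕ → ℕ → ℕ} (h : Sw Λ Λ' τ) :
    Set.LeftInvOn (sw Λ τ) (sw Λ' τ) (S Λ).U := fun x hx => by
  rcases mem_cases hx with ⟨a, b, hb, rfl⟩ | ⟨a, b, n, hb, hl, rfl⟩
  · rw [sw_vx, sw_vx, (h a b hb).2.1]
  · rw [sw_wit, sw_wit, (h a b hb).2.1]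

theorem Sw.rel {Λ Λ' : Lab} {τ : ℕ → ℕ → ℕ} (h : Sw Λ Λ' τ) {i : ℕ} {l : List ℕ}
    (hl : ∀ x ∈ l, x ∈ (S Λ).U) (hr : (S Λ).R i l) : (S Λ').R i (l.map (sw Λ' τ)) := by
  obtain ⟨k, rfl | rfl⟩ := Nat.even_or_odd' i
  · obtain ⟨b, hb, rfl⟩ := rel_even.1 hr
    exact rel_even.2 ⟨_, (h k b hb).1, by simp [sw_vx]⟩
  · obtain ⟨y, h1, h2, rfl⟩ := rel_odd.1 hr
    rcases mem_cases (hl y (by simp)) with ⟨a, b, hb, rfl⟩ | ⟨a, b, n, hb, hl, rfl⟩
    · simp at h1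
    · refine rel_odd.2 ⟨wit Λ' a (τ a b) n, by simp [wit], by simpa [wit] using h2, ?_⟩
      simp only [List.map_cons, List.map_nil, sw_wit, sw_vx]
      simp [wit]

theorem Sw.iso {Λ Λ' : Lab} {τ : ℕ → ℕ → ℕ} (h : Sw Λ Λ' τ) :
    Iso ar0 (S Λ) (S Λ') (sw Λ' τ) := by
  refine ⟨Set.InvOn.bijOn ⟨h.inv, h.symm.inv⟩ h.maps h.symm.maps, fun i l _ hl =>
    ⟨h.rel hl, fun hr => ?_⟩⟩
  have := h.symm.rel (l := l.map (sw Λ' τ)) (by
    intro x hx
    obtain ⟨y, hy, rfl⟩ := List.mem_map.1 hx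
    exact h.maps (hl y hy)) hr
  rwa [List.map_map, List.map_congr_left (f := sw Λ τ ∘ sw Λ' τ) (g := id) (fun x hx => h.inv (hl x hx)), List.map_id]
    at this

/-! ### reading labels in an arbitrary copy -/

def qP (a u : ℕ) : ℕ := Nat.pair (2 * a + 1) (encode [u])
def qE (n u y : ℕ) : ℕ := Nat.pair (2 * n + 2) (encode [u, y])

theorem diag_rel {ar : ℕ → ℕ} {M : Str} {i : ℕ} {l : List ℕ} :
    diag ar M (Nat.pair (i + 1) (encode l)) = 1 ↔
      l.length = ar i ∧ (∀ x ∈ l, x ∈ M.U) ∧ M.R i l := by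
  unfold diag
  simp only [ite_eq_left_iff, zero_ne_one, imp_false, not_not]
  constructor
  · rintro (⟨x, -, h⟩ | ⟨j, l', h, h'⟩)
    · simp [Nat.pair_eq_pair] at h
    · simp only [Nat.pair_eq_pair, Nat.add_right_cancel_iff, encode_inj] at h
      obtain ⟨rfl, rfl⟩ := h
      exact h'
  · intro h; exact Or.inr ⟨i, l, rfl, h⟩

theorem Iso.diag_iff {ar : ℕ → ℕ} {A M : Str} {π : ℕ → ℕ} (h : Iso ar A M π) {i : ℕ}
    {l : List ℕ} : diag ar M (Nat.pair (i + 1) (encode l)) = 1 ↔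
      ∃ l' : List ℕ, l = l'.map π ∧ l'.length = ar i ∧ (∀ x ∈ l', x ∈ A.U) ∧ A.R i l' := by
  rw [diag_rel]
  constructor
  · rintro ⟨h1, h2, h3⟩
    have : ∀ x ∈ l, ∃ y ∈ A.U, π y = x := fun x hx => h.1.surjOn (h2 x hx)
    choose! p hp using this
    have e : l = (l.map p).map π := by
      rw [List.map_map, List.map_congr_left (f := π ∘ p) (g := id) (fun x hx => (hp x hx).2), List.map_id]
    have hU : ∀ x ∈ l.map p, x ∈ A.U := by
      intro x hx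
      obtain ⟨y, hy, rfl⟩ := List.mem_map.1 hx
      exact (hp y hy).1
    refine ⟨l.map p, e, by simpa using h1, hU, (h.2 i _ (by simpa using h1) hU).2 (e ▸ h3)⟩
  · rintro ⟨l', rfl, h1, h2, h3⟩
    refine ⟨by simpa using h1, fun x hx => ?_, (h.2 i _ h1 h2).1 h3⟩
    obtain ⟨y, hy, rfl⟩ := List.mem_map.1 hx
    exact h.1.mapsTo (h2 y hy)

variable {Λ : Lab} {M : Str} {π : ℕ → ℕ}

theorem Iso.qP_iff (h : Iso ar0 (S Λ) M π) {a u : ℕ} :
    diag ar0 M (qP a u) = 1 ↔ ∃ b < 2, u = π (vx a b) := by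
  unfold qP
  rw [h.diag_iff]
  constructor
  · rintro ⟨l, h1, -, -, h4⟩
    obtain ⟨b, hb, rfl⟩ := rel_even.1 h4
    exact ⟨b, hb, by simpa using h1⟩
  · rintro ⟨b, hb, rfl⟩
    exact ⟨[vx a b], by simp, by simp [ar_even], by simpa using vx_mem hb, rel_even.2 ⟨b, hb, rfl⟩⟩

theorem Iso.qE_iff (h : Iso ar0 (S Λ) M π) {n u y : ℕ} :
    diag ar0 M (qE n u y) = 1 ↔
      ∃ a b, b < 2 ∧ L Λ a b n ∧ u = π (vx a b) ∧ y = π (wit Λ a b n) := by
  unfold qE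
  rw [show 2 * n + 2 = (2 * n + 1) + 1 by ring, h.diag_iff]
  constructor
  · rintro ⟨l, h1, -, h3, h4⟩
    obtain ⟨z, h5, h6, rfl⟩ := rel_odd.1 h4
    rcases mem_cases (h3 z (by simp)) with ⟨a, b, hb, rfl⟩ | ⟨a, b, m, hb, hl, rfl⟩
    · simp at h5
    · have : m = n := by simpa [wit] using h6
      subst this
      refine ⟨a, b, hb, hl, ?_⟩
      simpa [wit] using h1
  · rintro ⟨a, b, hb, hl, rfl, rfl⟩
    refine ⟨[vx a b, wit Λ a b n], by simp, by simp [ar_odd], ?_,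
      rel_odd.2 ⟨wit Λ a b n, by simp [wit], by simp [wit], by simp [wit]⟩⟩
    simp only [List.mem_cons, List.not_mem_nil, or_false, forall_eq_or_imp, forall_eq]
    exact ⟨vx_mem hb, wit_mem hb hl⟩

theorem Iso.vx_inj (h : Iso ar0 (S Λ) M π) {a b a' b' : ℕ} (hb : b < 2) (hb' : b' < 2)
    (e : π (vx a b) = π (vx a' b')) : a = a' ∧ b = b' :=
  Uc.vx_inj.1 (h.1.injOn (vx_mem hb) (vx_mem hb') e)

def HL (M : Str) (a u n : ℕ) : Prop :=
  diag ar0 M (qP a u) = 1 ∧ ∃ y, diag ar0 M (qE n u y) = 1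

theorem Iso.HL_iff (h : Iso ar0 (S Λ) M π) {a u n : ℕ} :
    HL M a u n ↔ ∃ b < 2, u = π (vx a b) ∧ L Λ a b n := by
  unfold HL
  simp only [h.qP_iff, h.qE_iff]
  constructor
  · rintro ⟨⟨b, hb, rfl⟩, y, a', b', hb', hl, e, -⟩
    obtain ⟨rfl, rfl⟩ := h.vx_inj hb hb' e
    exact ⟨b, hb, rfl, hl⟩
  · rintro ⟨b, hb, rfl, hl⟩
    exact ⟨⟨b, hb, rfl⟩, _, a, b, hb, hl, rfl, rfl⟩

theorem iso_id (Λ : Lab) : Iso ar0 (S Λ) (S Λ) id := ⟨Set.bijOn_id _, fun i l _ _ => by simp⟩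

/-- isomorphisms between labelled structures preserve pairs and labels -/
theorem Iso.lab {Λ' : Lab} (h : Iso ar0 (S Λ) (S Λ') π) {a b n : ℕ} (hb : b < 2)
    (hl : L Λ a b n) : ∃ b' < 2, π (vx a b) = vx a b' ∧ L Λ' a b' n :=
  (iso_id Λ').HL_iff.1 (h.HL_iff.2 ⟨b, hb, rfl, hl⟩)

theorem Iso.congr {ar : ℕ → ℕ} {A : Str} {π' : ℕ → ℕ} (h : Iso ar A M π)
    (e : ∀ x ∈ A.U, π x = π' x) : Iso ar A M π' :=
  ⟨h.1.congr e, fun i l h1 h2 => by
    rw [h.2 i l h1 h2, List.map_congr_left fun x hx => e x (h2 x hx)]⟩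

/-! ### the diagram is computable -/

def lst (m : ℕ) : List ℕ := Denumerable.ofNat (List ℕ) m

def dg (Λ : Lab) (q : ℕ) : ℕ :=
  cond (cond (q.unpair.1 == 0) (inU Λ q.unpair.2)
    ((lst q.unpair.2).length == ar0 (q.unpair.1 - 1) && (lst q.unpair.2).all (inU Λ) &&
      rel (q.unpair.1 - 1) (lst q.unpair.2))) 1 0

theorem diag_eq (Λ : Lab) (q : ℕ) : diag ar0 (S Λ) q = dg Λ q := by
  have h01 : diag ar0 (S Λ) q = 1 ∨ diag ar0 (S Λ) q = 0 := by unfold diag; split_ifs <;> simp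
  obtain ⟨i, m, rfl⟩ : ∃ i m, q = Nat.pair i m := ⟨_, _, (Nat.pair_unpair q).symm⟩
  obtain ⟨l, rfl⟩ : ∃ l : List ℕ, m = encode l := ⟨Denumerable.ofNat _ m, by simp⟩
  have hl : lst (encode l) = l := by simp [lst]
  rcases i with _ | i
  · have : diag ar0 (S Λ) (Nat.pair 0 (encode l)) = 1 ↔ inU Λ (encode l) = true := by
      unfold diag
      simp only [ite_eq_left_iff, zero_ne_one, imp_false, not_not, Nat.pair_eq_pair]
      constructor
      · rintro (⟨x, hx, -, h⟩ | ⟨j, l', h, -⟩)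
        · rw [h]; exact hx
        · simp at h
      · intro h; exact Or.inl ⟨_, h, trivial, rfl⟩
    simp only [dg, Nat.unpair_pair, beq_self_eq_true, cond_true]
    cases e : inU Λ (encode l) <;> simp_all
  · have h1 := diag_rel (ar := ar0) (M := S Λ) (i := i) (l := l)
    have : (i + 1 == 0) = false := by simp
    simp only [dg, Nat.unpair_pair, this, cond_false, Nat.add_sub_cancel, hl]
    have h2 : (l.length == ar0 i && l.all (inU Λ) && rel i l) = true ↔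
        l.length = ar0 i ∧ (∀ x ∈ l, x ∈ (S Λ).U) ∧ (S Λ).R i l := by
      simp [S, and_assoc]
    rw [← h2] at h1
    cases e : (l.length == ar0 i && l.all (inU Λ) && rel i l)
    · rw [e] at h1
      rcases h01 with h | h
      · exact absurd (h1.1 h) (by simp)
      · exact h
    · exact h1.2 e

section
variable {α : Type} [Primcodable α] {O : Set (ℕ →. ℕ)}
@[fun_prop] theorem ci_lst {x : α → ℕ} (h : CI O x) : CI O fun p => lst (x p) := by
  unfold lst; exact CI.ofNat h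
@[fun_prop] theorem ci_ar0 {x : α → ℕ} (h : CI O x) : CI O fun p => ar0 (x p) := by
  unfold ar0; fun_prop
@[fun_prop] theorem ci_rel {x : α → ℕ} {l : α → List ℕ} (h : CI O x) (hl : CI O l) :
    CI O fun p => rel (x p) (l p) := by unfold rel; fun_prop
@[fun_prop] theorem ci_qP {x y : α → ℕ} (h : CI O x) (hl : CI O y) :
    CI O fun p => qP (x p) (y p) := by unfold qP; fun_prop
@[fun_prop] theorem ci_qE {x y z : α → ℕ} (h : CI O x) (hl : CI O y) (hz : CI O z) :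
    CI O fun p => qE (x p) (y p) (z p) := by unfold qE; fun_prop

theorem ci_inU {Λ : α → Lab}
    (h : CI O fun q : α × ℕ × ℕ × ℕ × ℕ => Λ q.1 q.2.1 q.2.2.1 q.2.2.2.1 q.2.2.2.2) :
    CI O fun q : α × ℕ => inU (Λ q.1) q.2 := by
  unfold inU
  refine CI.and (by fun_prop) (CI.cond (by fun_prop) (by fun_prop) (CI.and ?_ (CI.all
    (by fun_prop) (CI.not ?_))))
  · exact h.comp (g := fun q : α × ℕ => (q.1, sx q.2 - 1, ax q.2, bx q.2, nx q.2)) (by fun_prop)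
  · exact h.comp (g := fun q : (α × ℕ) × ℕ => (q.1.1, q.2, ax q.1.2, bx q.1.2, nx q.1.2))
      (by fun_prop)

theorem ci_dg {Λ : α → Lab}
    (h : CI O fun q : α × ℕ × ℕ × ℕ × ℕ => Λ q.1 q.2.1 q.2.2.1 q.2.2.2.1 q.2.2.2.2) :
    CI O fun q : α × ℕ => dg (Λ q.1) q.2 := by
  have h' := ci_inU h
  unfold dg
  refine CI.cond (CI.cond (by fun_prop) ?_ (CI.and (CI.and (by fun_prop) (CI.all (by fun_prop)
    ?_)) (by fun_prop))) (by fun_prop) (by fun_prop)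
  · exact h'.comp (g := fun q : α × ℕ => (q.1, q.2.unpair.2)) (by fun_prop)
  · exact h'.comp (g := fun q : (α × ℕ) × ℕ => (q.1.1, q.2)) (by fun_prop)
end

end Pool.Agent.H62.Uc
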