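import Pool.Agent.H62.Uc1

/-!
The priority construction: states of the attempts.
-/

set_option autoImplicit false

namespace Pool.Agent.H62.Uc

open Pool.Agent.H37 Encodable Nat.Partrec Filter

def kk (a : ℕ) : ℕ := a.unpair.1
def sg (a : ℕ) : List ℕ := lst a.unpair.2.unpair.1
def tt (a : ℕ) : ℕ := a.unpair.2.unpair.2
def idx (c a : ℕ) : ℕ := encode (Code.curry (Denumerable.ofNat Code c) a)
def shows (j i q s : ℕ) : Bool := ((ev j i s).bind fun e => ev e q s) == some 1
def hasL (j i a u n s : ℕ) : Bool :=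
  shows j i (qP a u) s && (List.range s).any fun y => shows j i (qE n u y) s
def resp (j a r s : ℕ) : Bool :=
  (List.range (r + 1)).all fun i => (List.range r).all fun u => (List.range 2).all fun b =>
    !hasL j i a u b r || hasL j i a u (b + 2) s
def allresp (j t s : ℕ) (l : List ℕ) : Bool :=
  (List.range t).all fun a => decide (l.getD a 0 < 4) || resp j a (l.getD a 0 - 4) s
def stop (s : ℕ) (l : List ℕ) (a : ℕ) : Bool :=
  ((List.range s).any fun a' => kk a' == kk a && l.getD a' 0 == 2) ||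
    (List.range (kk a)).any fun j => !(sg a).contains j && allresp j (tt a) s l
def conv (c a s : ℕ) : Bool := ev (kk a) (Nat.pair (idx c a) (vx a 0)) s == some (vx a 0)
def step (c s : ℕ) (l : List ℕ) (a : ℕ) : ℕ :=
  cond (l.getD a 0 == 0) (cond (stop s l a) 1 (cond (conv c a s) (s + 4) 0))
    (cond (decide (l.getD a 0 < 4)) (l.getD a 0) (cond (stop s l a) 3
      (cond ((sg a).all fun j => resp j a (l.getD a 0 - 4) s) 2 (l.getD a 0))))
def LL (c : ℕ) : ℕ → List ℕ
  | 0 => []
  | s + 1 => (List.range s).map (step c s (LL c s))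
def st (c s a : ℕ) : ℕ := (LL c s).getD a 0

section
variable {α : Type} [Primcodable α] {O : Set (ℕ →. ℕ)}
@[fun_prop] theorem ci_kk {x : α → ℕ} (h : CI O x) : CI O fun p => kk (x p) := by
  unfold kk; fun_prop
@[fun_prop] theorem ci_sg {x : α → ℕ} (h : CI O x) : CI O fun p => sg (x p) := by
  unfold sg; fun_prop
@[fun_prop] theorem ci_tt {x : α → ℕ} (h : CI O x) : CI O fun p => tt (x p) := by
  unfold tt; fun_prop
@[fun_prop] theorem ci_idx {x y : α → ℕ} (h : CI O x) (hy : CI O y) :
    CI O fun p => idx (x p) (y p) := by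
  unfold idx; exact CI.encode (CI.curry (CI.ofNat h) hy)
@[fun_prop] theorem ci_shows {j i q s : α → ℕ} (hj : CI O j) (hi : CI O i) (hq : CI O q)
    (hs : CI O s) : CI O fun p => shows (j p) (i p) (q p) (s p) := by
  unfold shows; fun_prop
@[fun_prop] theorem ci_hasL {j i a u n s : α → ℕ} (hj : CI O j) (hi : CI O i) (ha : CI O a)
    (hu : CI O u) (hn : CI O n) (hs : CI O s) :
    CI O fun p => hasL (j p) (i p) (a p) (u p) (n p) (s p) := by
  unfold hasL; fun_prop
@[fun_prop] theorem ci_resp {j a r s : α → ℕ} (hj : CI O j) (ha : CI O a) (hr : CI O r)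
    (hs : CI O s) : CI O fun p => resp (j p) (a p) (r p) (s p) := by
  unfold resp; fun_prop
@[fun_prop] theorem ci_allresp {j t s : α → ℕ} {l : α → List ℕ} (hj : CI O j) (ht : CI O t)
    (hs : CI O s) (hl : CI O l) : CI O fun p => allresp (j p) (t p) (s p) (l p) := by
  unfold allresp; fun_prop
@[fun_prop] theorem ci_stop {s a : α → ℕ} {l : α → List ℕ} (hs : CI O s) (hl : CI O l)
    (ha : CI O a) : CI O fun p => stop (s p) (l p) (a p) := by
  unfold stop; fun_prop
@[fun_prop] theorem ci_conv {c a s : α → ℕ} (hc : CI O c) (ha : CI O a) (hs : CI O s) :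
    CI O fun p => conv (c p) (a p) (s p) := by
  unfold conv; fun_prop
@[fun_prop] theorem ci_step {c s a : α → ℕ} {l : α → List ℕ} (hc : CI O c) (hs : CI O s)
    (hl : CI O l) (ha : CI O a) : CI O fun p => step (c p) (s p) (l p) (a p) := by
  unfold step; fun_prop
theorem ci_LL' : CI O fun p : ℕ × ℕ => LL p.1 p.2 :=
  CI.of_rec (g := fun _ => []) (h := fun c s l => (List.range s).map (step c s l))
    (by fun_prop) (by fun_prop) (fun _ => rfl) fun _ _ => rfl
@[fun_prop] theorem ci_st {c s a : α → ℕ} (hc : CI O c) (hs : CI O s) (ha : CI O a) :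
    CI O fun p => st (c p) (s p) (a p) :=
  CI.getD (ci_LL'.comp (g := fun p => (c p, s p)) (by fun_prop)) ha (by fun_prop)
end

/-! ### monotonicity of the observations -/

theorem shows_iff {j i q s : ℕ} :
    shows j i q s = true ↔ ∃ e, ev j i s = some e ∧ ev e q s = some 1 := by
  simp [shows, Option.bind_eq_some_iff]

theorem shows_mono {j i q s t : ℕ} (h : s ≤ t) (hs : shows j i q s = true) :
    shows j i q t = true := by
  obtain ⟨e, h1, h2⟩ := shows_iff.1 hs
  exact shows_iff.2 ⟨e, ev_mono h h1, ev_mono h h2⟩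

theorem hasL_iff {j i a u n s : ℕ} : hasL j i a u n s = true ↔
    shows j i (qP a u) s = true ∧ ∃ y < s, shows j i (qE n u y) s = true := by
  simp [hasL]

theorem hasL_mono {j i a u n s t : ℕ} (h : s ≤ t) (hs : hasL j i a u n s = true) :
    hasL j i a u n t = true := by
  obtain ⟨h1, y, hy, h2⟩ := hasL_iff.1 hs
  exact hasL_iff.2 ⟨shows_mono h h1, y, by omega, shows_mono h h2⟩

theorem resp_iff {j a r s : ℕ} : resp j a r s = true ↔ ∀ i ≤ r, ∀ u < r, ∀ b < 2,
    hasL j i a u b r = true → hasL j i a u (b + 2) s = true := by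
  simp only [resp, List.all_eq_true, List.mem_range, Nat.lt_succ_iff, Bool.or_eq_true,
    Bool.not_eq_true']
  refine forall₂_congr fun i _ => forall₂_congr fun u _ => forall₂_congr fun b _ => ?_
  cases hasL j i a u b r <;> simp

theorem resp_mono {j a r s t : ℕ} (h : s ≤ t) (hs : resp j a r s = true) :
    resp j a r t = true :=
  resp_iff.2 fun i hi u hu b hb h' => hasL_mono h (resp_iff.1 hs i hi u hu b hb h')

variable {c : ℕ}

theorem allresp_iff {j t s : ℕ} : allresp j t s (LL c s) = true ↔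
    ∀ a < t, 4 ≤ st c s a → resp j a (st c s a - 4) s = true := by
  simp only [allresp, List.all_eq_true, List.mem_range, Bool.or_eq_true, decide_eq_true_eq]
  refine forall₂_congr fun a _ => ?_
  change st c s a < 4 ∨ resp j a (st c s a - 4) s = true ↔ _
  by_cases h : st c s a < 4
  · simp [h, not_le.2 h]
  · simp [h, not_lt.1 h]

theorem stop_iff {s a : ℕ} : stop s (LL c s) a = true ↔
    (∃ a' < s, kk a' = kk a ∧ st c s a' = 2) ∨
      ∃ j < kk a, j ∉ sg a ∧ allresp j (tt a) s (LL c s) = true := by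
  simp [stop, st]

theorem st_succ (s a : ℕ) : st c (s + 1) a = if a < s then step c s (LL c s) a else 0 := by
  unfold st
  rw [LL]
  split_ifs with h
  · simp [List.getD, h]
  · simp [List.getD, h]

theorem st_zero (a : ℕ) : st c 0 a = 0 := rfl

theorem st_small {s a : ℕ} (h : s ≤ a) : st c s a = 0 := by
  cases s with
  | zero => rfl
  | succ s => rw [st_succ, if_neg (by omega)]

theorem step_eq (s a : ℕ) : step c s (LL c s) a =
    if st c s a = 0 then (if stop s (LL c s) a = true then 1 else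
      if conv c a s = true then s + 4 else 0) else
    if st c s a < 4 then st c s a else if stop s (LL c s) a = true then 3 else
      if ∀ j ∈ sg a, resp j a (st c s a - 4) s = true then 2 else st c s a := by
  simp only [step, Bool.cond_eq_ite, beq_iff_eq, decide_eq_true_eq, List.all_eq_true]
  rfl

theorem trans (s a : ℕ) : st c (s + 1) a = st c s a ∨ (st c s a = 0 ∧ st c (s + 1) a = 1) ∨
    (st c s a = 0 ∧ st c (s + 1) a = s + 4 ∧ conv c a s = true) ∨
    (4 ≤ st c s a ∧ st c (s + 1) a = 3) ∨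
    (4 ≤ st c s a ∧ st c (s + 1) a = 2 ∧ a < s ∧ ¬ stop s (LL c s) a = true ∧
      ∀ j ∈ sg a, resp j a (st c s a - 4) s = true) := by
  rw [st_succ]
  by_cases h : a < s
  · rw [if_pos h, step_eq]
    split_ifs with h1 h2 h3 h4 h5 h6
    · exact Or.inr (Or.inl ⟨h1, rfl⟩)
    · exact Or.inr (Or.inr (Or.inl ⟨h1, rfl, h3⟩))
    · exact Or.inl h1.symm
    · exact Or.inl rfl
    · exact Or.inr (Or.inr (Or.inr (Or.inl ⟨by omega, rfl⟩)))
    · exact Or.inr (Or.inr (Or.inr (Or.inr ⟨by omega, rfl, h, h5, h6⟩)))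
    · exact Or.inl rfl
  · rw [if_neg h, st_small (not_lt.1 h)]; exact Or.inl rfl

theorem later {s t a : ℕ} (h : s ≤ t) :
    st c s a = 0 ∨ st c t a = st c s a ∨ (4 ≤ st c s a ∧ (st c t a = 2 ∨ st c t a = 3)) := by
  induction h with
  | refl => simp
  | step _ ih =>
    rename_i t _
    have := trans (c := c) t a
    simp only [Nat.succ_eq_add_one]
    omega

theorem exists_lim (c a : ℕ) : ∃ x, ∀ᶠ s in atTop, st c s a = x := by
  by_cases h : ∃ s, st c s a ≠ 0 ∧ st c s a < 4
  · obtain ⟨s, h1, h2⟩ := h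
    refine ⟨st c s a, eventually_atTop.2 ⟨s, fun t ht => ?_⟩⟩
    have := later (c := c) (a := a) ht
    omega
  · push Not at h
    by_cases h' : ∃ s, st c s a ≠ 0
    · obtain ⟨s, h1⟩ := h'
      refine ⟨st c s a, eventually_atTop.2 ⟨s, fun t ht => ?_⟩⟩
      have := later (c := c) (a := a) ht
      have := h t
      omega
    · push Not at h'
      exact ⟨0, Eventually.of_forall h'⟩

noncomputable def fin (c a : ℕ) : ℕ := (exists_lim c a).choose
theorem fin_spec (c a : ℕ) : ∀ᶠ s in atTop, st c s a = fin c a := (exists_lim c a).choose_spec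

theorem later_fin (s a : ℕ) :
    st c s a = 0 ∨ fin c a = st c s a ∨ (4 ≤ st c s a ∧ (fin c a = 2 ∨ fin c a = 3)) := by
  obtain ⟨t, h1, h2⟩ := ((fin_spec c a).and (eventually_ge_atTop s)).exists
  rw [← h1]; exact later h2

theorem hist4 {t a r : ℕ} (h : st c t a = r + 4) :
    st c (r + 1) a ≠ 0 ∧ conv c a r = true := by
  induction t with
  | zero => simp [st_zero] at h
  | succ t ih =>
    rcases trans (c := c) t a with h1 | h1 | h1 | h1 | h1
    · exact ih (h1 ▸ h)
    · omega
    · obtain rfl : t = r := by omega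
      exact ⟨by omega, h1.2.2⟩
    · omega
    · omega

theorem hist2 {t a : ℕ} (h : st c t a = 2) : ∃ r s, st c (r + 1) a ≠ 0 ∧ conv c a r = true ∧
    a < s ∧ ¬ stop s (LL c s) a = true ∧ ∀ j ∈ sg a, resp j a r s = true := by
  induction t with
  | zero => simp [st_zero] at h
  | succ t ih =>
    rcases trans (c := c) t a with h1 | h1 | h1 | h1 | h1
    · exact ih (h1 ▸ h)
    · omega
    · omega
    · omega
    · have := hist4 (c := c) (t := t) (a := a) (r := st c t a - 4) (by omega)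
      exact ⟨_, t, this.1, this.2, h1.2.2.1, h1.2.2.2.1, h1.2.2.2.2⟩

theorem fin_stage (a : ℕ) : ∃ t, st c t a = fin c a := (fin_spec c a).exists

theorem finite_two (k : ℕ) : {a | kk a = k ∧ fin c a = 2}.Finite := by
  rcases Set.eq_empty_or_nonempty {a | kk a = k ∧ fin c a = 2} with h | ⟨a0, h0, h1⟩
  · rw [h]; exact Set.finite_empty
  obtain ⟨t0, ht⟩ := eventually_atTop.1 ((fin_spec c a0).and (eventually_gt_atTop a0))
  refine (Set.finite_lt_nat t0).subset fun a ha => ?_
  by_contra hlt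
  have hlt : t0 ≤ a := not_lt.1 hlt
  obtain ⟨t, e⟩ := fin_stage (c := c) a
  obtain ⟨r, s, -, -, h3, h4, -⟩ := hist2 (e.trans ha.2)
  have := ht s (by omega)
  exact h4 (stop_iff.2 (Or.inl ⟨a0, this.2, h0.trans ha.1.symm, this.1.trans h1⟩))

/-- progress from the state 0 -/
theorem fin_zero {a : ℕ} (h : fin c a = 0) : ∀ᶠ s in atTop,
    ¬ stop s (LL c s) a = true ∧ ¬ conv c a s = true := by
  obtain ⟨t0, ht⟩ := eventually_atTop.1 ((fin_spec c a).and (eventually_gt_atTop a))
  refine eventually_atTop.2 ⟨t0, fun s hs => ?_⟩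
  have h1 := ht s hs
  have h2 := (ht (s + 1) (by omega)).1
  rw [st_succ, if_pos h1.2, step_eq, if_pos (h1.1.trans h), h] at h2
  split_ifs at h2 with h3 h4
  exact ⟨h3, h4⟩

theorem fin_four {a : ℕ} (h : 4 ≤ fin c a) : ∀ᶠ s in atTop,
    ¬ ∀ j ∈ sg a, resp j a (fin c a - 4) s = true := by
  obtain ⟨t0, ht⟩ := eventually_atTop.1 ((fin_spec c a).and (eventually_gt_atTop a))
  refine eventually_atTop.2 ⟨t0, fun s hs => ?_⟩
  have h1 := ht s hs
  have h2 := (ht (s + 1) (by omega)).1
  rw [st_succ, if_pos h1.2, step_eq, h1.1, if_neg (by omega), if_neg (by omega)] at h2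
  split_ifs at h2 with h3 h4
  · omega
  · omega
  · exact h4

theorem frozen {t a : ℕ} (h : st c t a = 1 ∨ st c t a = 3) :
    ∃ s, a < s ∧ stop s (LL c s) a = true := by
  induction t with
  | zero => simp [st_zero] at h
  | succ t ih =>
    by_cases h' : st c t a = 1 ∨ st c t a = 3
    · exact ih h'
    rw [st_succ] at h
    by_cases ha : a < t
    · rw [if_pos ha, step_eq] at h
      by_cases hs : stop t (LL c t) a = true
      · exact ⟨t, ha, hs⟩
      · rw [if_neg hs, if_neg hs] at h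
        split_ifs at h <;> first | omega | simp at h
    · rw [if_neg ha] at h; omega

/-! ### the labellings -/

def lab (x b n : ℕ) : Bool := n == b || (decide (2 ≤ x) && n == b + 2) || (x == 2 && n == 1 - b)
def labB (x b n : ℕ) : Bool := n == b || (x == 2 && (n == 1 - b || n == 3 - b))
def LA (c : ℕ) : Lab := fun s a b n => lab (st c s a) b n
def LB (c a0 : ℕ) : Lab := fun s a b n =>
  cond (a == a0) (labB (st c s a) b n) (lab (st c s a) b n)

theorem lab_iff {x b n : ℕ} :
    lab x b n = true ↔ n = b ∨ (2 ≤ x ∧ n = b + 2) ∨ (x = 2 ∧ n = 1 - b) := by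
  simp [lab, or_assoc]
theorem labB_iff {x b n : ℕ} :
    labB x b n = true ↔ n = b ∨ (x = 2 ∧ (n = 1 - b ∨ n = 3 - b)) := by
  simp [labB]

theorem L_LA {a b n : ℕ} : L (LA c) a b n ↔
    n = b ∨ (2 ≤ fin c a ∧ n = b + 2) ∨ (fin c a = 2 ∧ n = 1 - b) := by
  constructor
  · rintro ⟨s, h⟩
    have := later_fin (c := c) s a
    have := lab_iff.1 h
    omega
  · intro h
    obtain ⟨t, e⟩ := fin_stage (c := c) a
    exact ⟨t, lab_iff.2 (e ▸ h)⟩

theorem L_LB {a b n : ℕ} : L (LB c a) a b n ↔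
    n = b ∨ (fin c a = 2 ∧ (n = 1 - b ∨ n = 3 - b)) := by
  simp only [L, LB, beq_self_eq_true, cond_true]
  constructor
  · rintro ⟨s, h⟩
    have := later_fin (c := c) s a
    have := labB_iff.1 h
    omega
  · intro h
    obtain ⟨t, e⟩ := fin_stage (c := c) a
    exact ⟨t, labB_iff.2 (e ▸ h)⟩

theorem L_LB' {a0 a b n : ℕ} (h : a ≠ a0) : L (LB c a0) a b n ↔ L (LA c) a b n := by
  have : (a == a0) = false := by simpa using h
  simp only [L, LB, this, cond_false, LA]

theorem iso_B {a0 : ℕ} (h : fin c a0 = 0 ∨ fin c a0 = 2) :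
    ∃ π, Iso ar0 (S (LA c)) (S (LB c a0)) π := by
  refine ⟨_, Sw.iso (τ := fun a b => if a = a0 ∧ fin c a0 = 2 then 1 - b else b)
    fun a b hb => ?_⟩
  by_cases ha : a = a0
  · subst ha
    by_cases h2 : fin c a = 2
    · have e : ∀ x, (if a = a ∧ fin c a = 2 then 1 - x else x) = 1 - x := fun x => if_pos ⟨rfl, h2⟩
      beta_reduce
      rw [e, e]
      refine ⟨by omega, by omega, fun n => ?_⟩
      rw [L_LA, L_LB]; omega
    · have e : ∀ x, (if a = a ∧ fin c a = 2 then 1 - x else x) = x := fun x => if_neg fun h => h2 h.2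
      beta_reduce
      rw [e, e]
      refine ⟨hb, rfl, fun n => ?_⟩
      rw [L_LA, L_LB]; omega
  · simp only [ha, false_and, if_false, L_LB' ha]
    exact ⟨hb, trivial, fun _ => trivial⟩

section
variable {O : Set (ℕ →. ℕ)}
theorem ci_LA : CI O fun q : ℕ × ℕ × ℕ × ℕ × ℕ =>
    LA q.1 q.2.1 q.2.2.1 q.2.2.2.1 q.2.2.2.2 := by
  unfold LA lab; fun_prop
theorem ci_LB : CI O fun q : (ℕ × ℕ) × ℕ × ℕ × ℕ × ℕ =>
    LB q.1.1 q.1.2 q.2.1 q.2.2.1 q.2.2.2.1 q.2.2.2.2 := by
  unfold LB lab labB; fun_prop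
end

theorem exists_fix : ∃ c, ∀ a, IsIdx ar0 (idx c a) (S (LB c a)) := by
  have h := (ci_dg (O := ∅) (Λ := fun q : ℕ × ℕ => LB q.1 q.2) ci_LB).comp
    (g := fun p : Code × ℕ => ((encode p.1, p.2.unpair.1), p.2.unpair.2)) (by fun_prop)
  obtain ⟨c, hc⟩ := Code.fixed_point₂
    (f := fun c q => Part.some (dg (LB (encode c) q.unpair.1) q.unpair.2)) h.computable
  refine ⟨encode c, fun a q => ?_⟩
  simp only [idx, Denumerable.ofNat_encode, Code.eval_curry, hc, diag_eq]
  simp

theorem exists_idx (c : ℕ) : ∃ e, IsIdx ar0 e (S (LA c)) := by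
  obtain ⟨e, he⟩ := exists_index ((ci_dg (O := ∅) (Λ := LA) ci_LA).comp
    (g := fun p : ℕ => (c, p)) (by fun_prop))
  exact ⟨e, fun q => by rw [diag_eq]; exact ev_iff.2 (he q)⟩

end Pool.Agent.H62.Uc
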