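import Pool.Agent.H62.Uc2

/-!
Verification of the priority construction.
-/

set_option autoImplicit false

namespace Pool.Agent.H62.Uc

open Pool.Agent.H37 Encodable Nat.Partrec Filter

variable {c : ℕ}

theorem not_ucc (hc : ∀ a, IsIdx ar0 (idx c a) (S (LB c a))) : ¬ UCC ar0 (S (LA c)) := by
  classical
  rintro ⟨g, hg, H⟩
  obtain ⟨k, hk⟩ := exists_index_part (f := fun n => g n.unpair)
    (hg.comp Primrec.unpair.to_comp)
  have key : ∀ a, kk a = k → fin c a = 0 ∨ fin c a = 2 → ∃ π, Iso ar0 (S (LA c)) (S (LB c a)) π ∧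
      ∃ s, ev (kk a) (Nat.pair (idx c a) (vx a 0)) s = some (π (vx a 0)) := by
    intro a ha h
    obtain ⟨π, h1, h2⟩ := H _ _ (hc a) (iso_B h)
    refine ⟨π, h1, ?_⟩
    rw [ha, ← hk]
    simpa using h2 _ (vx_mem (by omega))
  have no2 : ∀ a, kk a = k → fin c a ≠ 2 := by
    intro a ha h
    obtain ⟨π, h1, s, h2⟩ := key a ha (Or.inr h)
    obtain ⟨t, e⟩ := fin_stage (c := c) a
    obtain ⟨r, -, -, h3, -⟩ := hist2 (e.trans h)
    have h4 := ev_unique h2 (by simpa [conv] using h3)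
    obtain ⟨b, hb, h5, h6⟩ := h1.lab (a := a) (b := 0) (n := 2) (by omega) (L_LA.2 (by omega))
    rw [h4, vx_inj] at h5
    rw [L_LB] at h6
    omega
  let P : ℕ → Prop := fun j => ∀ t, ∃ s ≥ t, allresp j t s (LL c s) = true
  have hT : ∀ j, ∃ t, ¬ P j → ∀ s ≥ t, ¬ allresp j t s (LL c s) = true := by
    intro j
    by_cases h : P j
    · exact ⟨0, fun h' => absurd h h'⟩
    · simp only [P, not_forall, not_exists, not_and] at h
      obtain ⟨t, ht⟩ := h
      exact ⟨t, fun _ => ht⟩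
  choose T hT using hT
  let σ : List ℕ := (List.range k).filter fun j => decide (P j)
  let t := (Finset.range k).sup T
  let a := Nat.pair k (Nat.pair (encode σ) t)
  have ha : kk a = k := by simp [a, kk]
  have hσ : sg a = σ := by simp [a, sg, lst]
  have ht : tt a = t := by simp [a, tt]
  have hta : t ≤ a := (Nat.right_le_pair _ _).trans (Nat.right_le_pair _ _)
  have ns : ∀ s, a < s → ¬ stop s (LL c s) a = true := by
    intro s hs h
    rcases stop_iff.1 h with ⟨a', -, h1, h2⟩ | ⟨j, h1, h2, h3⟩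
    · have := later_fin (c := c) s a'
      exact no2 a' (h1.trans ha) (by omega)
    · rw [ha] at h1
      rw [hσ] at h2
      rw [ht] at h3
      have hP : ¬ P j := by simpa [σ, h1] using h2
      have hj : T j ≤ t := Finset.le_sup (f := T) (Finset.mem_range.2 h1)
      refine hT j hP s (by omega) (allresp_iff.2 fun a' h' => allresp_iff.1 h3 a' (by omega))
  obtain ⟨t0, e0⟩ := fin_stage (c := c) a
  by_cases h0 : fin c a = 0
  · obtain ⟨π, h1, s, h2⟩ := key a ha (Or.inl h0)
    obtain ⟨b, hb, h5, h6⟩ := h1.lab (a := a) (b := 0) (n := 0) (by omega) (L_LA.2 (by omega))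
    rw [L_LB] at h6
    obtain rfl : b = 0 := by omega
    obtain ⟨s', h7, h8⟩ := ((fin_zero h0).and (eventually_ge_atTop s)).exists
    exact h7.2 (by simpa [conv, h5] using ev_mono h8 h2)
  by_cases h1 : fin c a = 1 ∨ fin c a = 3
  · obtain ⟨s, h2, h3⟩ := frozen (e0 ▸ h1 : st c t0 a = 1 ∨ st c t0 a = 3)
    exact ns s h2 h3
  have h4 : 4 ≤ fin c a := by have := no2 a ha; omega
  have h5 : ∀ᶠ s in atTop, ∀ j ∈ sg a, resp j a (fin c a - 4) s = true := by
    refine (eventually_all_finite (sg a).finite_toSet).2 fun j hj => ?_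
    have hP : P j := by
      have : j ∈ σ := hσ ▸ hj
      simpa [σ] using (List.mem_filter.1 this).2
    obtain ⟨s0, hs0⟩ := eventually_atTop.1 (fin_spec c a)
    obtain ⟨s, h6, h7⟩ := hP (max s0 (a + 1))
    have h8 := hs0 s (le_trans (le_max_left _ _) h6)
    have := allresp_iff.1 h7 a (lt_of_lt_of_le (Nat.lt_succ_self a) (le_max_right _ _))
      (by omega)
    rw [h8] at this
    exact eventually_atTop.2 ⟨s, fun s' h' => resp_mono h' this⟩
  obtain ⟨s, h6, h7⟩ := (h5.and (fin_four h4)).exists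
  exact h7 h6

section
variable {C : ℕ → Str} {f : ℕ → ℕ} {j : ℕ} (hj : ∀ i, ∃ s, ev j i s = some (f i))
  (hC : ∀ i, IsIdx ar0 (f i) (C i))
include hj hC

theorem shows_sound {i q s : ℕ} (h : shows j i q s = true) : diag ar0 (C i) q = 1 := by
  obtain ⟨e, h1, h2⟩ := shows_iff.1 h
  obtain ⟨t, ht⟩ := hj i
  obtain rfl := ev_unique h1 ht
  obtain ⟨t', ht'⟩ := ev_iff.1 (hC i q)
  exact ev_unique ht' h2

theorem shows_ev {i q : ℕ} (h : diag ar0 (C i) q = 1) : ∀ᶠ s in atTop, shows j i q s = true := by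
  obtain ⟨t, ht⟩ := hj i
  obtain ⟨t', ht'⟩ := ev_iff.1 (hC i q)
  rw [h] at ht'
  exact eventually_atTop.2 ⟨max t t', fun s hs => shows_iff.2
    ⟨_, ev_mono (le_trans (le_max_left _ _) hs) ht, ev_mono (le_trans (le_max_right _ _) hs) ht'⟩⟩

theorem hasL_sound {i a u n s : ℕ} (h : hasL j i a u n s = true) : HL (C i) a u n := by
  obtain ⟨h1, y, -, h2⟩ := hasL_iff.1 h
  exact ⟨shows_sound hj hC h1, y, shows_sound hj hC h2⟩

theorem hasL_ev {i a u n : ℕ} (h : HL (C i) a u n) : ∀ᶠ s in atTop, hasL j i a u n s = true := by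
  obtain ⟨h1, y, h2⟩ := h
  filter_upwards [shows_ev hj hC h1, shows_ev hj hC h2, eventually_gt_atTop y] with s a1 a2 a3
  exact hasL_iff.2 ⟨a1, y, a3, a2⟩

theorem allresp_ev {π : ℕ → ℕ → ℕ} (hπ : ∀ i, Iso ar0 (S (LA c)) (C i) (π i)) (t : ℕ) :
    ∀ᶠ s in atTop, allresp j t s (LL c s) = true := by
  simp only [allresp_iff]
  refine (eventually_all_finite (Set.finite_lt_nat t)).2 fun a _ => ?_
  by_cases h : 4 ≤ fin c a
  · have : ∀ᶠ s in atTop, resp j a (fin c a - 4) s = true := by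
      simp only [resp_iff]
      refine (eventually_all_finite (Set.finite_le_nat _)).2 fun i _ => ?_
      refine (eventually_all_finite (Set.finite_lt_nat _)).2 fun u _ => ?_
      refine (eventually_all_finite (Set.finite_lt_nat _)).2 fun b hb => ?_
      have hb : b < 2 := hb
      by_cases h1 : hasL j i a u b (fin c a - 4) = true
      · obtain ⟨b', h2, h3, h4⟩ := (hπ i).HL_iff.1 (hasL_sound hj hC h1)
        rw [L_LA] at h4
        obtain rfl : b = b' := by omega
        filter_upwards [hasL_ev hj hC ((hπ i).HL_iff.2 ⟨b, hb, h3, L_LA.2 (by omega)⟩ :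
          HL (C i) a u (b + 2))] with s hs _ using hs
      · exact Eventually.of_forall fun s h' => absurd h' h1
    filter_upwards [this, fin_spec c a] with s h1 h2 _
    rw [h2]; exact h1
  · filter_upwards [fin_spec c a] with s h2 h3
    omega
end

def acc (c j : ℕ) (Z : List ℕ) (i a b s u : ℕ) : Bool :=
  hasL j i a u (b + 2) s || (hasL j i a u b s && decide (u < s) && decide (i ≤ s) &&
    (st c s a == 1 || (st c s a == 0 &&
      ((decide (kk a ≤ j) && !Z.contains a) || (sg a).contains j))))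

theorem acc_iff {j : ℕ} {Z : List ℕ} {i a b s u : ℕ} : acc c j Z i a b s u = true ↔
    hasL j i a u (b + 2) s = true ∨ (hasL j i a u b s = true ∧ u < s ∧ i ≤ s ∧
      (st c s a = 1 ∨ (st c s a = 0 ∧ ((kk a ≤ j ∧ a ∉ Z) ∨ j ∈ sg a)))) := by
  simp [acc, and_assoc]

theorem within (c : ℕ) : Within ar0 (S (LA c)) := by
  intro C f hf H
  obtain ⟨j, hj⟩ := exists_index (ci_iff.2 hf)
  have hC := fun i => (H i).1
  choose π hπ using fun i => (H i).2
  have hfin : {a | kk a ≤ j ∧ fin c a = 2}.Finite :=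
    ((Set.finite_le_nat j).biUnion fun k _ => finite_two (c := c) k).subset fun a ha => by
      simpa using ha
  obtain ⟨Z, hZ⟩ : ∃ Z : List ℕ, ∀ a, a ∈ Z ↔ kk a ≤ j ∧ fin c a = 2 :=
    ⟨hfin.toFinset.toList, fun a => by simp⟩
  have s2 : ∀ i a b s u, b < 2 → hasL j i a u (b + 2) s = true → u = π i (vx a b) := by
    intro i a b s u hb h
    obtain ⟨b', h2, h3, h4⟩ := (hπ i).HL_iff.1 (hasL_sound hj hC h)
    rw [L_LA] at h4
    obtain rfl : b = b' := by omega
    exact h3
  have sound : ∀ i a b s u, b < 2 → acc c j Z i a b s u = true → u = π i (vx a b) := by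
    intro i a b s u hb h
    rcases acc_iff.1 h with h | ⟨h1, h2, h3, h4⟩
    · exact s2 i a b s u hb h
    by_cases h5 : fin c a = 2
    · have h6 := later_fin (c := c) s a
      rcases h4 with h4 | ⟨h4, ⟨h7, h8⟩ | h7⟩
      · omega
      · exact absurd ((hZ a).2 ⟨h7, h5⟩) h8
      · obtain ⟨t, e⟩ := fin_stage (c := c) a
        obtain ⟨r, s', h8, -, -, -, h9⟩ := hist2 (e.trans h5)
        have hr : s ≤ r := by
          by_contra hlt
          have := later (c := c) (a := a) (show r + 1 ≤ s by omega)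
          omega
        exact s2 i a b s' u hb
          (resp_iff.1 (h9 j h7) i (by omega) u (by omega) b hb (hasL_mono hr h1))
    · obtain ⟨b', h2, h3, h4⟩ := (hπ i).HL_iff.1 (hasL_sound hj hC h1)
      rw [L_LA] at h4
      obtain rfl : b = b' := by omega
      exact h3
  have compl : ∀ i a b, b < 2 → ∃ s u, acc c j Z i a b s u = true := by
    intro i a b hb
    by_cases h : 2 ≤ fin c a
    · obtain ⟨s, hs⟩ := (hasL_ev hj hC ((hπ i).HL_iff.2 ⟨b, hb, rfl, L_LA.2 (by omega)⟩ :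
          HL (C i) a _ (b + 2))).exists
      exact ⟨s, _, acc_iff.2 (Or.inl hs)⟩
    · have h1 := hasL_ev hj hC ((hπ i).HL_iff.2 ⟨b, hb, rfl, L_LA.2 (by omega)⟩ :
          HL (C i) a _ b)
      obtain ⟨s, ⟨⟨h2, h3⟩, h4⟩, h5⟩ := (((h1.and (eventually_gt_atTop (π i (vx a b)))).and
        (eventually_ge_atTop i)).and (fin_spec c a)).exists
      refine ⟨s, _, acc_iff.2 (Or.inr ⟨h2, h3, h4, ?_⟩)⟩
      by_cases h6 : fin c a = 1
      · exact Or.inl (h5.trans h6)
      have h7 : fin c a = 0 := by omega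
      refine Or.inr ⟨h5.trans h7, ?_⟩
      by_cases h8 : kk a ≤ j
      · exact Or.inl ⟨h8, fun h9 => by have := ((hZ a).1 h9).2; omega⟩
      refine Or.inr ?_
      by_contra h9
      obtain ⟨s', h10, h11⟩ := ((fin_zero h7).and (allresp_ev hj hC hπ (tt a))).exists
      exact h10.1 (stop_iff.2 (Or.inr ⟨j, by omega, h9, h11⟩))
  obtain ⟨G, hG, hG'⟩ := CI.exists_choice (O := ∅) (p := fun (q : ℕ × ℕ) (r : ℕ × ℕ) =>
      decide (2 ≤ bx q.2) || acc c j Z q.1 (ax q.2) (bx q.2) r.1 r.2)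
    (by unfold acc; fun_prop) (fun q => by
      by_cases h : 2 ≤ bx q.2
      · exact ⟨(0, 0), by simp [h]⟩
      · obtain ⟨s, u, h'⟩ := compl q.1 (ax q.2) (bx q.2) (by omega)
        exact ⟨(s, u), by simp [h']⟩)
  have hG2 : ∀ i x, bx x < 2 → (G (i, x)).2 = π i (vx (ax x) (bx x)) := by
    intro i x hx
    have := hG' (i, x)
    simp only [Bool.or_eq_true, decide_eq_true_eq] at this
    exact sound _ _ _ _ _ hx (this.resolve_left (by omega))
  have hU : CI ∅ fun x => inU (LA c) x :=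
    (ci_inU (O := ∅) (Λ := LA) ci_LA).comp (g := fun x : ℕ => (c, x)) (by fun_prop)
  obtain ⟨G', hG1, hG1'⟩ := CI.exists_choice (O := ∅) (p := fun (q : ℕ × ℕ) (r : ℕ × ℕ) =>
      !inU (LA c) q.2 || cond (sx q.2 == 0) (r.2 == (G q).2)
        (shows j q.1 (qE (nx q.2) (G q).2 r.2) r.1))
    (by
      refine CI.or (CI.not (hU.comp (g := fun q : (ℕ × ℕ) × ℕ × ℕ => q.1.2) (by fun_prop))) ?_
      have : CI ∅ fun q : (ℕ × ℕ) × ℕ × ℕ => (G q.1).2 :=
        CI.snd (hG.comp (g := fun q : (ℕ × ℕ) × ℕ × ℕ => q.1) (by fun_prop))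
      exact CI.cond (by fun_prop) (CI.beq (by fun_prop) this)
        (ci_shows (by fun_prop) (by fun_prop) (ci_qE (by fun_prop) this (by fun_prop))
          (by fun_prop)))
    (fun ⟨i, x⟩ => by
      by_cases h : x ∈ (S (LA c)).U
      · rcases mem_cases h with ⟨a, b, hb, rfl⟩ | ⟨a, b, n, hb, hl, rfl⟩
        · exact ⟨(0, (G (i, vx a b)).2), by simp⟩
        · obtain ⟨s, hs⟩ := (shows_ev hj hC ((hπ i).qE_iff.2 ⟨a, b, hb, hl, rfl, rfl⟩)).exists
          refine ⟨(s, π i (wit (LA c) a b n)), ?_⟩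
          rw [hG2 _ _ (by simpa [wit] using hb)]
          simp [wit] at hs ⊢
          exact Or.inr hs
      · have : inU (LA c) x = false := by simpa [S] using h
        exact ⟨(0, 0), by simp [this]⟩)
  refine ⟨fun q => (G' q).2, (CI.snd hG1).computable, fun i => (hπ i).congr fun x hx => ?_⟩
  have h1 := hG1' (i, x)
  have h2 : inU (LA c) x = true := hx
  simp only [h2, Bool.not_true, Bool.false_or] at h1
  rcases mem_cases hx with ⟨a, b, hb, rfl⟩ | ⟨a, b, n, hb, hl, rfl⟩
  · rw [hG2 _ _ (by simpa using hb)] at h1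
    simpa using (by simpa using h1 : (G' (i, vx a b)).2 = π i (vx a b)).symm
  · rw [hG2 _ _ (by simpa [wit] using hb)] at h1
    have h3 : shows j i (qE n (π i (vx a b)) (G' (i, wit (LA c) a b n)).2)
        (G' (i, wit (LA c) a b n)).1 = true := by
      simpa [wit] using h1
    obtain ⟨a', b', hb', -, e1, e2⟩ := (hπ i).qE_iff.1 (shows_sound hj hC h3)
    obtain ⟨rfl, rfl⟩ := (hπ i).vx_inj hb hb' e1
    exact e2.symm

theorem main : ∃ (ar : ℕ → ℕ) (A : Str), Computable ar ∧ (∃ e, IsIdx ar e A) ∧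
    ¬ UCC ar A ∧ Within ar A := by
  obtain ⟨c, hc⟩ := exists_fix
  exact ⟨ar0, S (LA c), (ci_ar0 (O := ∅) CI.id').computable, exists_idx c, not_ucc hc, within c⟩

end Pool.Agent.H62.Uc
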