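import Mathlib

set_option autoImplicit false

namespace H62.WRRA

inductive Srt | X | X' | U | Z | Y
  deriving DecidableEq, Fintype

inductive K (I : Type) | w | sp | ix (i : I)

open Srt K
variable {I : Type}

def isIx (k : K I) : Prop := k ≠ w ∧ k ≠ sp

/-- forbidden triangles, apex first -/
def F (J : Set (K I)) (r s t : Srt) (a b c : K I) : Prop :=
  (r = X ∧ s = Z ∧ t = Y ∧ a = sp ∧ b = sp ∧ ¬isIx c) ∨
  (r = X ∧ s = U ∧ t = Z ∧ isIx a ∧ b = sp ∧ c ≠ sp ∧ c ≠ a ∧ ¬(a ∈ J ∧ c ∈ J)) ∨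
  (r = X' ∧ s = U ∧ (t = Z ∨ t = Y) ∧ a = sp ∧ b = sp ∧ c = sp) ∨
  (r = X ∧ s = U ∧ t = Y ∧ isIx a ∧ b = sp ∧ c = w) ∨
  (r = U ∧ s = Z ∧ t = Y ∧ isIx a ∧ isIx b ∧ c = a ∧ a ∉ J) ∨
  (r = U ∧ s = X ∧ t = X' ∧ isIx a ∧ b = sp ∧ c ≠ sp)

/-- consistent triangles: `a` on 12, `b` on 13, `c` on 23 -/
def T (J : Set (K I)) (r s t : Srt) (a b c : K I) : Prop :=
  ¬F J r s t a b c ∧ ¬F J r t s b a c ∧ ¬F J s r t a c b ∧ ¬F J s t r c a b ∧ ¬F J t r s b c a ∧ ¬F J t s r c b a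

def green (r s : Srt) (k : K I) : Prop :=
  ((r = X ∨ r = X') ∧ (s = Z ∨ s = Y) ∧ k = sp) ∨ (r = X' ∧ s = U ∧ k = sp) ∨ (r = X ∧ s = U ∧ isIx k)

/-- specification of the label `k` of the new edge from an old node of sort `r` to the new node of sort `s` -/
def Spec (J : Set (K I)) (j : I) (s r p q : Srt) (k1 k2 a b k : K I) : Prop :=
  T J r p s a k k1 ∧ T J r q s b k k2 ∧ ¬green s r k ∧ ¬green r s k ∧
  (s = Z ∧ r = Y ∨ s = Y ∧ r = Z → k = ix j) ∧
  (s = X ∧ r = X' ∨ s = X' ∧ r = X → k = sp → p = U ∨ q = U) ∧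
  (s = U → r = Z ∨ r = Y → isIx k → p = X ∧ q = X' ∧ isIx k1 ∧ k2 = sp ∧ a = sp ∧ b = sp ∨
    q = X ∧ p = X' ∧ isIx k2 ∧ k1 = sp ∧ a = sp ∧ b = sp)

lemma pick {J : Set (K I)} {j : I} (hj : ix j ∈ J) (s r p q : Srt) (k1 k2 a b : K I) :
    ∃ k, Spec J j s r p q k1 k2 a b k := by
  classical
  by_cases h0 : Spec J j s r p q k1 k2 a b w
  · exact ⟨_, h0⟩
  by_cases h1 : Spec J j s r p q k1 k2 a b sp
  · exact ⟨_, h1⟩
  by_cases h2 : Spec J j s r p q k1 k2 a b (ix j)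
  · exact ⟨_, h2⟩
  refine ⟨if s = U then (if p = X then k1 else k2) else if p = X then a else b, ?_⟩
  cases s <;> cases r <;> simp only [Spec, T, F, green, isIx] at * <;> grind (splits := 40)

lemma F_ne {J : Set (K I)} {r s t : Srt} {a b c : K I} (h : F J r s t a b c) : r ≠ s ∧ r ≠ t ∧ s ≠ t := by
  unfold F at h; grind

lemma T_eq (J : Set (K I)) (r t : Srt) (a b c : K I) : T J r r t a b c := by
  refine ⟨?_, ?_, ?_, ?_, ?_, ?_⟩ <;> exact fun h => by simpa using F_ne h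

def Inv (J : Set (K I)) (j : I) (m : ℕ) (σ : ℕ → Srt) (κ : ℕ → ℕ → K I) : Prop :=
  (∀ p q, κ p q = κ q p) ∧
  (∀ p < m, ∀ q < m, ∀ r < m, ¬F J (σ p) (σ q) (σ r) (κ p q) (κ p r) (κ q r)) ∧
  ∀ x < m, ∀ x' < m, ∀ z < m, ∀ y < m, σ x = X → σ x' = X' → σ z = Z → σ y = Y → κ x x' = sp → κ x z = sp →
    κ x' z = sp → κ x y = sp → κ x' y = sp → κ z y = ix j

lemma step {J : Set (K I)} {j : I} (hj : ix j ∈ J) {m : ℕ} {σ : ℕ → Srt} {κ : ℕ → ℕ → K I} (h : Inv J j m σ κ)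
    {p q : ℕ} (hp : p < m) (hq : q < m) (s : Srt) (k1 k2 : K I) (h1 : p = q → k1 = k2)
    (h2 : p ≠ q → T J (σ p) s (σ q) k1 (κ p q) k2) :
    ∃ σ' κ', Inv J j (m + 1) σ' κ' ∧ (∀ u < m, σ' u = σ u ∧ ∀ v < m, κ' u v = κ u v) ∧ σ' m = s ∧
      κ' p m = k1 ∧ κ' q m = k2 := by
  obtain ⟨a1, a2, a3⟩ := h
  choose f hf using fun r => pick hj s (σ r) (σ p) (σ q) k1 k2 (κ r p) (κ r q)
  obtain ⟨g, g1, g2, g3⟩ : ∃ g : ℕ → K I, g p = k1 ∧ g q = k2 ∧ ∀ r, r ≠ p → r ≠ q → g r = f r :=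
    ⟨fun r => if r = p then k1 else if r = q then k2 else f r, by simp, by grind, by grind⟩
  have key : ∀ u < m, ∀ v < m, T J (σ u) (σ v) s (κ u v) (g u) (g v) := by
    intro u hu v hv
    have b1 := hf u
    have b2 := hf v
    have b3 := g3 u
    have b4 := g3 v
    have b5 := a1 u v
    have b6 := a1 p q
    by_cases e : σ u = σ v
    · rw [e]; exact T_eq _ _ _ _ _ _
    by_cases e1 : u = p
    · have := a1 v p
      simp only [Spec, T] at *; grind
    by_cases e2 : u = q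
    · have := a1 v q
      simp only [Spec, T] at *; grind
    by_cases e3 : v = p
    · simp only [Spec, T] at *; grind
    by_cases e4 : v = q
    · simp only [Spec, T] at *; grind
    have c1 := a3 p hp q hq u hu v hv
    have c2 := a3 q hq p hp u hu v hv
    have c3 := a3 p hp q hq v hv u hu
    have c4 := a3 q hq p hp v hv u hu
    have := a1 p u
    have := a1 p v
    have := a1 q u
    have := a1 q v
    rw [b3 e1 e2, b4 e3 e4]
    obtain ⟨-, -, b1⟩ := b1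
    obtain ⟨-, -, b2⟩ := b2
    clear hf g3 a1 a2 a3 b3 b4
    generalize σ u = su, σ v = sv at *
    cases s <;> cases su <;> cases sv <;> simp only [T, F, green, isIx] at * <;> grind (splits := 40)
  refine ⟨fun u => if u = m then s else σ u, fun u v => if v = m then (if u = m then w else g u) else
    if u = m then g v else κ u v, ⟨by grind, fun u hu v hv r hr => ?_, ?_⟩, by grind, by simp, by grind, by grind⟩
  · have := key u
    have := key v
    have := a1 u v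
    have := a1 u r
    have := a1 v r
    by_cases e1 : u = m <;> by_cases e2 : v = m <;> by_cases e3 : r = m <;> simp only [e1, e2, e3, ↓reduceIte]
    any_goals (intro h; have := F_ne h; simp at this; done)
    · exact (key v (by omega) r (by omega)).2.2.2.2.1
    · exact (key u (by omega) r (by omega)).2.1
    · exact (key u (by omega) v (by omega)).1
    · exact a2 u (by omega) v (by omega) r (by omega)
  · clear key
    intro x hx x' hx' z hz y hy
    have b1 := (hf x).2.2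
    have b2 := (hf x').2.2
    have b3 := (hf z).2.2
    have b4 := (hf y).2.2
    have := g3 x
    have := g3 x'
    have := g3 z
    have := g3 y
    have b5 := a3 x
    clear hf g3 h2 a2 a3 a1
    simp only [green] at *
    by_cases e1 : x = m
    · grind (splits := 40)
    by_cases e2 : x' = m
    · grind (splits := 40)
    by_cases e3 : z = m
    · grind (splits := 40)
    by_cases e4 : y = m
    · grind (splits := 40)
    simpa only [e1, e2, e3, e4, ↓reduceIte] using b5 (by omega) x' (by omega) z (by omega) y (by omega)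

lemma build {J : Set (K I)} {j : I} (hj : ix j ∈ J) [Countable I] :
    ∃ (σ : ℕ → Srt) (κ : ℕ → ℕ → K I), (∀ p q, κ p q = κ q p) ∧
      (∀ p q r, ¬F J (σ p) (σ q) (σ r) (κ p q) (κ p r) (κ q r)) ∧
      ∀ p q s k1 k2, (p = q → k1 = k2) → (p ≠ q → T J (σ p) s (σ q) k1 (κ p q) k2) →
        ∃ z, p < z ∧ q < z ∧ σ z = s ∧ κ p z = k1 ∧ κ q z = k2 := by
  classical
  have : Countable (K I) := (show Function.Surjective (fun o : Option (Option I) =>
    (o.elim w fun o => o.elim sp ix : K I)) by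
      rintro (_ | _ | i)
      exacts [⟨none, rfl⟩, ⟨some none, rfl⟩, ⟨some (some i), rfl⟩]).countable
  obtain ⟨e, he⟩ := exists_surjective_nat (Option (ℕ × ℕ × Srt × K I × K I))
  let S := fun n => {x : (ℕ → Srt) × (ℕ → ℕ → K I) // Inv J j (n + 1) x.1 x.2}
  have st : ∀ n (x : S n), ∃ y : S (n + 1), (∀ u ≤ n, y.1.1 u = x.1.1 u ∧ ∀ v ≤ n, y.1.2 u v = x.1.2 u v) ∧
      ∀ p ≤ n, ∀ q ≤ n, ∀ s k1 k2, e n.unpair.1 = some (p, q, s, k1, k2) → (p = q → k1 = k2) →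
        (p ≠ q → T J (x.1.1 p) s (x.1.1 q) k1 (x.1.2 p q) k2) →
        y.1.1 (n + 1) = s ∧ y.1.2 p (n + 1) = k1 ∧ y.1.2 q (n + 1) = k2 := by
    intro n x
    by_cases h : ∃ p ≤ n, ∃ q ≤ n, ∃ s k1 k2, e n.unpair.1 = some (p, q, s, k1, k2) ∧ (p = q → k1 = k2) ∧
        (p ≠ q → T J (x.1.1 p) s (x.1.1 q) k1 (x.1.2 p q) k2)
    · obtain ⟨p, hp, q, hq, s, k1, k2, h1, h2, h3⟩ := h
      obtain ⟨σ, κ, b1, b2, b3⟩ := step hj x.2 (Nat.lt_succ_of_le hp) (Nat.lt_succ_of_le hq) s k1 k2 h2 h3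
      refine ⟨⟨(σ, κ), b1⟩, fun u hu => ⟨(b2 u (by omega)).1, fun v hv => (b2 u (by omega)).2 v (by omega)⟩,
        fun p' _ q' _ s' k1' k2' c1 _ _ => ?_⟩
      obtain ⟨rfl, rfl, rfl, rfl, rfl⟩ : p = p' ∧ q = q' ∧ s = s' ∧ k1 = k1' ∧ k2 = k2' := by simpa [h1] using c1
      exact b3
    · obtain ⟨σ, κ, b1, b2, -⟩ := step hj x.2 n.succ_pos n.succ_pos X w w (fun _ => rfl) fun h => (h rfl).elim
      exact ⟨⟨(σ, κ), b1⟩, fun u hu => ⟨(b2 u (by omega)).1, fun v hv => (b2 u (by omega)).2 v (by omega)⟩,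
        fun p a q b s k1 k2 c d f => (h ⟨p, a, q, b, s, k1, k2, c, d, f⟩).elim⟩
  choose nx h1 h2 using st
  let s : ∀ n, S n := fun n => Nat.rec (motive := S) ⟨(fun _ => X, fun _ _ => w), fun _ _ => rfl,
    fun _ _ _ _ _ _ h => (F_ne h).1 rfl, fun _ _ _ _ _ _ _ _ _ h => nomatch h⟩ nx n
  have mono : ∀ n k, n ≤ k → ∀ u ≤ n, (s k).1.1 u = (s n).1.1 u ∧ ∀ v ≤ n, (s k).1.2 u v = (s n).1.2 u v := by
    intro n k h u a
    induction k, h using Nat.le_induction with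
    | base => exact ⟨rfl, fun _ _ => rfl⟩
    | succ k _ ih => exact ⟨(h1 k _ u (by omega)).1.trans ih.1, fun v b =>
        ((h1 k _ u (by omega)).2 v (by omega)).trans (ih.2 v b)⟩
  have e1 : ∀ n, ∀ u ≤ n, (s u).1.1 u = (s n).1.1 u := fun n u h => (mono u n h u le_rfl).1.symm
  have e2 : ∀ n, ∀ u ≤ n, ∀ v ≤ n, (s (max u v)).1.2 u v = (s n).1.2 u v := fun n u h v h' =>
    ((mono _ n (max_le h h') u (le_max_left _ _)).2 v (le_max_right _ _)).symm
  refine ⟨fun u => (s u).1.1 u, fun u v => (s (max u v)).1.2 u v, fun p q => ?_, fun p q r => ?_,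
    fun p q t k1 k2 a b => ?_⟩
  · beta_reduce; rw [max_comm q]; exact (s _).2.1 _ _
  · have hp : p ≤ p + q + r := by omega
    have hq : q ≤ p + q + r := by omega
    have hr : r ≤ p + q + r := by omega
    beta_reduce
    rw [e1 _ _ hp, e1 _ _ hq, e1 _ _ hr, e2 _ _ hp _ hq, e2 _ _ hp _ hr, e2 _ _ hq _ hr]
    exact (s _).2.2.1 _ (by omega) _ (by omega) _ (by omega)
  · obtain ⟨k, hk⟩ := he (some (p, q, t, k1, k2))
    have := Nat.right_le_pair k (p + q)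
    have hp : p ≤ Nat.pair k (p + q) := by omega
    have hq : q ≤ Nat.pair k (p + q) := by omega
    simp only [e1 _ _ hp, e1 _ _ hq, e2 _ _ hp _ hq] at b
    obtain ⟨c1, c2, c3⟩ := h2 _ (s _) p hp q hq t k1 k2 (by rwa [Nat.unpair_pair]) a b
    exact ⟨_ + 1, Nat.lt_succ_of_le hp, Nat.lt_succ_of_le hq, c1,
      (e2 _ _ (by omega) _ le_rfl).trans c2, (e2 _ _ (by omega) _ le_rfl).trans c3⟩

end H62.WRRA
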