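import Pool.Agent.H62.WRRA1

set_option autoImplicit false

namespace H62.WRRA
open Srt K

inductive At (I : Type) | e (s : Srt) | n (s t : Srt) (k : K I)
open At
variable {I : Type}

def tri : At I → At I → At I → Prop
  | e r, e s, c => r = s ∧ c = e r
  | e r, n s t k, c => r = s ∧ c = n s t k
  | n s t k, e r, c => t = r ∧ c = n s t k
  | n s t k, n t' u k', e r => t = t' ∧ u = s ∧ r = s ∧ k = k'
  | n s t k, n t' u k', n s' u' k'' => t = t' ∧ s = s' ∧ u = u' ∧ T ∅ s t u k k'' k'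

def cv : At I → At I
  | e r => e r
  | n s t k => n t s k

def cc (P Q : Set (At I)) : Set (At I) := {c | ∃ a ∈ P, ∃ b ∈ Q, tri a b c}
def vv (P : Set (At I)) : Set (At I) := cv ⁻¹' P
def ee : Set (At I) := Set.range e

open Classical in
noncomputable def sw (i j : I) (k : K I) : K I := if k = ix i then ix j else if k = ix j then ix i else k

noncomputable def pm (i j : I) : At I → At I
  | e r => e r
  | n s t k => n s t (sw i j k)

def B (i j : I) : Set (Set (At I)) := {g | ∀ a, pm i j a ∈ g ↔ a ∈ g}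

variable {i j : I}

lemma sw_sw (k : K I) : sw i j (sw i j k) = k := by unfold sw; grind

lemma pm_pm (a : At I) : pm i j (pm i j a) = a := by cases a <;> simp [pm, sw_sw]

lemma F_sw {r s t : Srt} {a b c : K I} (h : F ∅ r s t (sw i j a) (sw i j b) (sw i j c)) : F ∅ r s t a b c := by
  have h1 : ∀ k, sw i j k = sp ↔ k = sp := by unfold sw; grind
  have h2 : ∀ k, sw i j k = w ↔ k = w := by unfold sw; grind
  have h3 : sw i j c = sw i j a ↔ c = a := by unfold sw; grind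
  simpa only [F, isIx, ne_eq, h1, h2, h3, Set.mem_empty_iff_false] using h

lemma tri_pm {a b c : At I} (h : tri a b c) : tri (pm i j a) (pm i j b) (pm i j c) := by
  cases a <;> cases b <;> cases c <;> simp_all [tri, pm]
  obtain ⟨rfl, rfl, rfl, h1, h2, h3, h4, h5, h6⟩ := h
  exact ⟨mt F_sw h1, mt F_sw h2, mt F_sw h3, mt F_sw h4, mt F_sw h5, mt F_sw h6⟩

lemma B_cc {P Q : Set (At I)} (hP : P ∈ B i j) (hQ : Q ∈ B i j) : cc P Q ∈ B i j := fun _ =>
  ⟨fun ⟨a, ha, b, hb, h⟩ => ⟨_, (hP a).mpr ha, _, (hQ b).mpr hb, by simpa only [pm_pm] using tri_pm (i := i) (j := j) h⟩,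
    fun ⟨a, ha, b, hb, h⟩ => ⟨_, (hP a).mpr ha, _, (hQ b).mpr hb, tri_pm h⟩⟩

lemma B_vv {P : Set (At I)} (hP : P ∈ B i j) : vv P ∈ B i j := fun a => by
  cases a
  exacts [Iff.rfl, hP (n _ _ _)]

lemma lift {r s t : Srt} {a b c : K I} (hij : i ≠ j) (h : T {ix i, ix j} r s t a b c) :
    T ∅ r s t a b c ∨ T ∅ r s t (sw i j a) b c ∨ T ∅ r s t a b (sw i j c) := by
  by_contra! hc
  cases r <;> cases s <;> cases t <;>
    simp only [T, F, isIx, sw, Set.mem_insert_iff, Set.mem_singleton_iff, Set.mem_empty_iff_false] at * <;>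
    grind (splits := 40)

lemma T_mono {J : Set (K I)} {r s t : Srt} {a b c : K I} (h : T ∅ r s t a b c) : T J r s t a b c := by
  have : ∀ {r s t : Srt} {a b c : K I}, F J r s t a b c → F ∅ r s t a b c := by
    simp only [F, Set.mem_empty_iff_false]; grind (splits := 40)
  obtain ⟨h1, h2, h3, h4, h5, h6⟩ := h
  exact ⟨mt this h1, mt this h2, mt this h3, mt this h4, mt this h5, mt this h6⟩

/-- the subalgebra fixed by a transposition is representable -/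
lemma rep [Countable I] (hij : i ≠ j) : ∃ lab : ℕ × ℕ → At I, Function.Surjective lab ∧
    lab ⁻¹' ee = {p | p.1 = p.2} ∧ (∀ P, lab ⁻¹' vv P = {p | (p.2, p.1) ∈ lab ⁻¹' P}) ∧
    ∀ P ∈ B i j, ∀ Q ∈ B i j, lab ⁻¹' cc P Q = {p | ∃ w, (p.1, w) ∈ lab ⁻¹' P ∧ (w, p.2) ∈ lab ⁻¹' Q} := by
  obtain ⟨σ, κ, h1, h2, h3⟩ := build (J := {ix i, ix j}) (j := i) (.inl rfl)
  let lab : ℕ × ℕ → At I := fun p => if p.1 = p.2 then e (σ p.1) else n (σ p.1) (σ p.2) (κ p.1 p.2)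
  have l1 : ∀ p, lab (p, p) = e (σ p) := fun _ => if_pos rfl
  have l2 : ∀ p q, p ≠ q → lab (p, q) = n (σ p) (σ q) (κ p q) := fun _ _ h => if_neg h
  refine ⟨lab, fun a => ?_, ?_, fun P => ?_, fun P hP Q hQ => Set.ext fun ⟨p, q⟩ => ⟨?_, ?_⟩⟩
  · have : ∀ s, ∃ z, σ z = s := fun s => (h3 0 0 s w w (fun _ => rfl) fun h => (h rfl).elim).imp fun _ h => h.2.2.1
    rcases a with s | ⟨s, t, k⟩ <;> obtain ⟨p, rfl⟩ := this s
    · exact ⟨_, l1 p⟩
    · obtain ⟨z, a, -, rfl, rfl, -⟩ := h3 p p t k k (fun _ => rfl) fun h => (h rfl).elim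
      exact ⟨_, l2 _ _ a.ne⟩
  · ext ⟨p, q⟩
    by_cases h : p = q <;> simp [lab, ee, h]
  · ext ⟨p, q⟩
    by_cases h : p = q
    · simp [vv, h, l1, cv]
    · simp [vv, l2 _ _ h, l2 _ _ (Ne.symm h), cv, h1 p]
  · rintro ⟨a, ha, b, hb, h⟩
    simp only [Set.mem_ofPred_eq, Set.mem_preimage]
    rcases eq_or_ne p q with rfl | hpq
    · rw [l1] at h
      rcases a with _ | ⟨s, t, k⟩ <;> rcases b with _ | ⟨s', t', k'⟩ <;> simp only [tri, reduceCtorEq, and_false] at h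
      · obtain ⟨rfl, h⟩ := h
        exact ⟨p, by rwa [l1, h], by rwa [l1, h]⟩
      · obtain ⟨rfl, rfl, rfl, rfl⟩ := h
        obtain ⟨z, a, -, rfl, rfl, -⟩ := h3 p p t k k (fun _ => rfl) fun h => (h rfl).elim
        exact ⟨z, by rwa [l2 _ _ a.ne], by rwa [l2 _ _ a.ne', h1]⟩
    · rw [l2 _ _ hpq] at h
      rcases a with _ | ⟨s, t, k⟩ <;> rcases b with _ | ⟨s', t', k'⟩ <;> simp only [tri, reduceCtorEq, and_false] at h
      · obtain ⟨rfl, ⟨⟩⟩ := h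
        exact ⟨p, by rwa [l1], by rwa [l2 _ _ hpq]⟩
      · obtain ⟨rfl, ⟨⟩⟩ := h
        exact ⟨q, by rwa [l2 _ _ hpq], by rwa [l1]⟩
      · obtain ⟨rfl, rfl, rfl, h⟩ := h
        obtain ⟨z, a, b, rfl, rfl, rfl⟩ := h3 p q t k k' (fun h => (hpq h).elim) fun _ => T_mono h
        exact ⟨z, by rwa [l2 _ _ a.ne], by rwa [l2 _ _ b.ne', h1]⟩
  · rintro ⟨r, ha, hb⟩
    simp only [Set.mem_preimage] at ha hb ⊢
    rcases eq_or_ne p r with rfl | a
    · exact ⟨_, ha, _, hb, by by_cases h : p = q <;> simp [lab, h, tri]⟩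
    rcases eq_or_ne r q with rfl | b
    · exact ⟨_, ha, _, hb, by simp [lab, a, tri]⟩
    rcases eq_or_ne p q with rfl | c
    · exact ⟨_, ha, _, hb, by simp [lab, a, b, tri, h1 p]⟩
    rw [l2 _ _ a] at ha
    rw [l2 _ _ b] at hb
    rw [l2 _ _ c]
    have : T {ix i, ix j} (σ p) (σ r) (σ q) (κ p r) (κ p q) (κ r q) :=
      ⟨h2 _ _ _, h1 q r ▸ h2 _ _ _, h1 r p ▸ h2 _ _ _, h1 r p ▸ h1 q p ▸ h2 _ _ _, h1 q p ▸ h1 q r ▸ h2 _ _ _,
        h1 q r ▸ h1 q p ▸ h1 r p ▸ h2 _ _ _⟩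
    rcases lift hij this with h | h | h
    exacts [⟨_, ha, _, hb, rfl, rfl, rfl, h⟩, ⟨_, (hP _).mpr ha, _, hb, rfl, rfl, rfl, h⟩,
      ⟨_, ha, _, (hQ _).mpr hb, rfl, rfl, rfl, h⟩]

end H62.WRRA
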