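import Pool.Agent.H62.WRRA2

set_option autoImplicit false

namespace H62.WRRA
open Srt K At
variable {I : Type}

lemma twins {n : ℕ} (g : Fin n → Set (At (Option (Fin n → Srt → Srt → Prop)))) :
    ∃ i j, i ≠ j ∧ ∀ m, g m ∈ B i j := by
  classical
  obtain ⟨i, j, hij, h⟩ := Fintype.exists_ne_map_eq_of_card_lt
    (fun (i : Option (Fin n → Srt → Srt → Prop)) (m : Fin n) (s t : Srt) => At.n s t (ix i) ∈ g m) (by simp)
  refine ⟨i, j, hij, fun m a => ?_⟩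
  rcases a with _ | ⟨s, t, k⟩
  · rfl
  · have := congrFun (congrFun (congrFun h m) s) t
    simp only [pm, sw]
    grind

lemma good [Countable I] {i j : I} (hij : i ≠ j) {S : Set (Set (At I))} (hS : S ⊆ B i j) :
    (∀ x ∈ S, ∀ y ∈ S, ∀ z ∈ S, cc (cc x y) z = cc x (cc y z) ∧ cc (x ⊔ y) z = cc x z ⊔ cc y z ∧
      cc x ee = x ∧ vv (vv x) = x ∧ vv (x ⊔ y) = vv x ⊔ vv y ∧ vv (cc x y) = cc (vv y) (vv x) ∧
      cc (vv x) (cc x y)ᶜ ≤ yᶜ) ∧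
    ∃ (U : Type) (h : Set (At I) → Set (U × U)), Set.InjOn h S ∧ h ⊥ = ∅ ∧ h ee = {p : U × U | p.1 = p.2} ∧
      ∀ x ∈ S, ∀ y ∈ S, h (x ⊓ y) = h x ∩ h y ∧
        h (cc x y) = {p : U × U | ∃ w : U, (p.1, w) ∈ h x ∧ (w, p.2) ∈ h y} ∧
        h (vv x) = {p : U × U | (p.2, p.1) ∈ h x} := by
  obtain ⟨lab, h1, h2, h3, h4⟩ := rep hij
  have inj := h1.preimage_injective
  refine ⟨fun x hx y hy z hz => ?_, _, fun P => lab ⁻¹' P, inj.injOn, rfl, h2,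
    fun x hx y hy => ⟨rfl, h4 _ (hS hx) _ (hS hy), h3 _⟩⟩
  replace hx := hS hx
  replace hy := hS hy
  replace hz := hS hz
  have he : (ee : Set (At I)) ∈ B i j := fun a => by cases a <;> simp [ee, pm]
  refine ⟨inj ?_, ?_, inj ?_, inj ?_, rfl, inj ?_, (Set.preimage_subset_preimage_iff
    (h1.range_eq ▸ Set.subset_univ _)).mp ?_⟩
  · simp only [h4 _ (B_cc hx hy) _ hz, h4 _ hx _ hy, h4 _ hx _ (B_cc hy hz), h4 _ hy _ hz, Set.mem_ofPred_eq]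
    grind
  · ext; simp only [cc, Set.sup_eq_union, Set.mem_union, Set.mem_ofPred_eq]; grind
  · ext; simp [h4 _ hx _ he, h2]
  · ext; simp [h3]
  · simp only [h3, h4 _ hx _ hy, h4 _ (B_vv hy) _ (B_vv hx), Set.mem_ofPred_eq]
    grind
  · rw [h4 _ (B_vv hx) _ fun a => not_congr (B_cc hx hy a), Set.preimage_compl, Set.preimage_compl, h4 _ hx _ hy, h3]
    exact fun p ⟨_, a, b⟩ c => b ⟨_, a, c⟩

lemma bad [Finite I] {V : Type} (h : Set (At I) → Set (V × V)) (h1 : Function.Injective h) (h2 : h ⊥ = ∅)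
    (h3 : ∀ x y, h (x ⊓ y) = h x ∩ h y ∧ h (cc x y) = {p : V × V | ∃ w : V, (p.1, w) ∈ h x ∧ (w, p.2) ∈ h y} ∧
      h (vv x) = {p : V × V | (p.2, p.1) ∈ h x}) : False := by
  have mono : ∀ {x y p}, p ∈ h x → x ⊆ y → p ∈ h y := fun {x y p} a b => by
    rw [← Set.inter_eq_left.mpr b] at a; exact ((h3 _ _).1.le a).2
  have meet : ∀ {x y p}, p ∈ h x → p ∈ h y → p ∈ h (x ∩ y) := fun a b => (h3 _ _).1.ge ⟨a, b⟩
  have cmp : ∀ {a b x y z}, (x, y) ∈ h a → (x, z) ∈ h b → (y, z) ∈ h (cc (vv a) b) := fun a b =>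
    (h3 _ _).2.1.ge ⟨_, (h3 _ ∅).2.2.ge a, b⟩
  obtain ⟨⟨x, x'⟩, hd⟩ : (h {n X X' sp}).Nonempty :=
    Set.nonempty_iff_ne_empty.mpr fun e => Set.singleton_ne_empty _ (h1 (e.trans h2.symm))
  have wit : ∀ s k, T ∅ X s X' k sp sp → ∃ z, (x, z) ∈ h {n X s k} ∧ (x', z) ∈ h {n X' s sp} := fun s k e => by
    obtain ⟨z, a, b⟩ := (h3 {n X s k} (vv {n X' s sp})).2.1.le
      (mono hd (Set.singleton_subset_iff.mpr ⟨_, rfl, n s X' sp, rfl, rfl, rfl, rfl, e⟩))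
    exact ⟨z, a, (h3 _ ∅).2.2.le b⟩
  obtain ⟨z, z1, z2⟩ := wit Z sp (by simp [T, F])
  obtain ⟨y, y1, y2⟩ := wit Y sp (by simp [T, F])
  have inv : ∀ {r s t : Srt} {a b : K I} {c}, c ∈ cc (vv {n r s a}) {n r t b} → s ≠ t →
      ∃ k, c = n s t k ∧ ¬F ∅ r s t a b k := by
    rintro r s t a b c ⟨_ | _, ⟨⟩, _, rfl, e⟩ st
    cases c <;> simp only [tri, T] at e <;> grind
  have key : ∀ i, (z, y) ∈ h {n Z Y (ix i)}ᶜ := fun i => by
    obtain ⟨u, u1, u2⟩ := wit U (ix i) (by simp [T, F])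
    refine mono (cmp (meet (cmp u1 z1) (cmp u2 z2)) (meet (cmp u1 y1) (cmp u2 y2))) ?_
    rintro _ ⟨a, ⟨a1, a2⟩, b, ⟨b1, b2⟩, e⟩ rfl
    obtain ⟨k, a0, a1⟩ := inv a1 (by simp)
    obtain ⟨k', a0', a2⟩ := inv a2 (by simp)
    obtain ⟨l, rfl, b1⟩ := inv b1 (by simp)
    obtain ⟨l', b0, b2⟩ := inv b2 (by simp)
    cases a <;> simp only [cv, tri, T, F, isIx, Set.mem_empty_iff_false] at * <;> grind
  have : ∀ s : Set I, s.Finite → (z, y) ∈ h ((fun i => n Z Y (ix i)) '' sᶜ) := fun s hs => by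
    induction s, hs using Set.Finite.induction_on with
    | empty =>
      refine mono (cmp z1 y1) fun c e => ?_
      obtain ⟨_ | _ | k, rfl, e⟩ := inv e (by simp) <;> simp_all [F, isIx]
    | insert _ _ ih => exact mono (meet ih (key _)) fun _ ⟨⟨k, a, d⟩, b⟩ => ⟨k, fun c => c.elim (fun c => b (c ▸ d.symm)) a, d⟩
  have e := this _ Set.finite_univ
  rw [Set.compl_univ, Set.image_empty] at e
  exact h2.le e

end H62.WRRA
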