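import Pool.Agent.H62.WeakDefs

set_option autoImplicit false
open Filter

namespace H62.Weak

/-- a representation on a preorder, required to be correct on `G` only -/
structure PRep {A : Type} (comp imp : A → A → A) (G : A → Prop) (X : Type) where
  le : X → X → Prop
  F : A → X → X → Prop
  refl : ∀ x, le x x
  trans : ∀ x y z, le x y → le y z → le x z
  mono : ∀ a x' x y y', le x' x → F a x y → le y y' → F a x' y'
  cmp : ∀ a b, G a → G b → ∀ x z, F (comp a b) x z ↔ ∃ y, F a x y ∧ F b y z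
  im : ∀ a b, G a → G b → ∀ x y, F (imp a b) x y ↔ ∀ x' y', le x' x → le y y' → F a x' y' → F b x' y'
  inj : ∀ a b, G a → G b → a ≠ b → ∃ x y, ¬(F a x y ↔ F b x y)

lemma PRep.rep {A X : Type} {comp imp : A → A → A} (N : PRep comp imp (fun _ => True) X) :
    ∃ (Y : Type) (_ : PartialOrder Y), RepOn comp imp Y := by
  let _ : Preorder X := { le := N.le, le_refl := N.refl, le_trans := N.trans }
  let o : Antisymmetrization X (· ≤ ·) → X := ofAntisymmetrization _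
  let t : X → Antisymmetrization X (· ≤ ·) := toAntisymmetrization _
  have ho : ∀ p q, p ≤ q ↔ N.le (o p) (o q) := fun p q => ofAntisymmetrization_le_ofAntisymmetrization_iff.symm
  have h1 : ∀ x, N.le (o (t x)) x := fun x =>
    (toAntisymmetrization_le_toAntisymmetrization_iff (a := o (t x)) (b := x)).mp (by simp [o, t])
  have h2 : ∀ x, N.le x (o (t x)) := fun x =>
    (toAntisymmetrization_le_toAntisymmetrization_iff (b := o (t x)) (a := x)).mp (by simp [o, t])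
  have h3 : ∀ a x y, N.F a (o (t x)) (o (t y)) ↔ N.F a x y := fun a x y =>
    ⟨fun h => N.mono _ _ _ _ _ (h2 x) h (h1 y), fun h => N.mono _ _ _ _ _ (h1 x) h (h2 y)⟩
  refine ⟨_, inferInstance, fun a => {p | N.F a (o p.1) (o p.2)}, fun a b h => ?_,
    fun a x' x y y' a1 a2 a3 => N.mono _ _ _ _ _ ((ho _ _).mp a1) a2 ((ho _ _).mp a3),
    fun a b => Set.ext fun p => ?_, fun a b => Set.ext fun p => ?_⟩
  · by_contra hab
    obtain ⟨x, y, e⟩ := N.inj a b trivial trivial hab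
    exact e (by rw [← h3, ← h3 b]; exact Set.ext_iff.mp h (t x, t y))
  · refine (N.cmp a b trivial trivial _ _).trans ⟨fun ⟨y, a1, a2⟩ => ⟨t y, ?_, ?_⟩, fun ⟨y, h⟩ => ⟨_, h⟩⟩
    exacts [N.mono _ _ _ _ _ (N.refl _) a1 (h2 y), N.mono _ _ _ _ _ (h1 y) a2 (N.refl _)]
  · refine (N.im a b trivial trivial _ _).trans ⟨fun h x y a1 a2 => h _ _ ((ho _ _).mp a1) ((ho _ _).mp a2),
      fun h x y a1 a2 a3 => (h3 _ _ _).mp (h (t x) (t y) ?_ ?_ ((h3 _ _ _).mpr a3))⟩
    exacts [(ho _ _).mpr (N.trans _ _ _ (h1 x) a1), (ho _ _).mpr (N.trans _ _ _ a2 (h2 y))]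

/-- limit of a chain of networks -/
lemma limit {A : Type} (comp imp : A → A → A) (G : A → Prop) (X : ℕ → Type) (x₀ : X 0)
    (le : ∀ n, X n → X n → Prop) (F : ∀ n, A → X n → X n → Prop) (ι : ∀ n, X n → X (n + 1))
    (refl : ∀ n x, le n x x) (trans : ∀ n x y z, le n x y → le n y z → le n x z)
    (mono : ∀ n a x' x y y', le n x' x → F n a x y → le n y y' → F n a x' y')
    (cmp : ∀ n a b x y z, F n a x y → F n b y z → F n (comp a b) x z)
    (mp : ∀ n a b x y, F n (imp a b) x y → F n a x y → F n b x y)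
    (ιle : ∀ n x y, le n x y → le (n + 1) (ι n x) (ι n y))
    (ιF : ∀ n a x y, F (n + 1) a (ι n x) (ι n y) ↔ F n a x y)
    (hW : ∀ n a b, G a → G b → ∀ x z, F n (comp a b) x z →
      ∃ y, F (n + 1) a (ι n x) y ∧ F (n + 1) b y (ι n z))
    (hI : ∀ n a b, G a → G b → ∀ x y, ¬F n (imp a b) x y → ∃ x' y', le (n + 1) x' (ι n x) ∧
      le (n + 1) (ι n y) y' ∧ F (n + 1) a x' y' ∧ ¬F (n + 1) b x' y')
    (h0 : ∀ a b, F 0 (imp a b) x₀ x₀ → F 0 (imp b a) x₀ x₀ → a = b) :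
    ∃ Y, Nonempty (PRep comp imp G Y) := by
  classical
  let Y := {s : ∀ n, X n // ∀ᶠ n in atTop, s (n + 1) = ι n (s n)}
  let U := hyperfilter ℕ
  have hU : ∀ {p : ℕ → Prop}, (∀ᶠ n in atTop, p n) → ∀ᶠ n in U, p n := fun h =>
    (hyperfilter_le_cofinite.trans Nat.cofinite_eq_atTop.le) h
  have ext : ∀ n (w : X n), ∃ s : Y, s.1 n = w ∧ ∀ k ≥ n, s.1 (k + 1) = ι k (s.1 k) := by
    intro n w
    let s : ∀ k, X k := fun k => Nat.rec (motive := X) (if h : n = 0 then cast (congrArg X h) w else x₀)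
      (fun k x => if h : n = k + 1 then cast (congrArg X h) w else ι k x) k
    have : ∀ k ≥ n, s (k + 1) = ι k (s k) := fun k hk => dif_neg (by omega)
    refine ⟨⟨s, eventually_atTop.mpr ⟨n, this⟩⟩, ?_, this⟩
    cases n <;> simp [s]
  have per : ∀ (p : ∀ n, X n → X n → Prop), (∀ n x y, p n x y → p (n + 1) (ι n x) (ι n y)) →
      ∀ (s t : Y) n, (∀ k ≥ n, s.1 (k + 1) = ι k (s.1 k)) → (∀ k ≥ n, t.1 (k + 1) = ι k (t.1 k)) →
      p n (s.1 n) (t.1 n) → ∀ᶠ k in U, p k (s.1 k) (t.1 k) := by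
    intro p hp s t n hs ht h
    refine hU (eventually_atTop.mpr ⟨n, fun k hk => ?_⟩)
    induction k, hk using Nat.le_induction with
    | base => exact h
    | succ k hk ih => rw [hs k hk, ht k hk]; exact hp _ _ _ ih
  have pick : ∀ (s t : Y) (p : ℕ → Prop), (∀ᶠ n in U, p n) → ∃ n, p n ∧
      (∀ k ≥ n, s.1 (k + 1) = ι k (s.1 k)) ∧ ∀ k ≥ n, t.1 (k + 1) = ι k (t.1 k) := fun s t p h =>
    (h.and (hU ((eventually_forall_ge_atTop.mpr s.2).and (eventually_forall_ge_atTop.mpr t.2)))).exists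
  have pF := fun a => per (fun n => F n a) fun n x y => (ιF n a x y).mpr
  have pN := fun a => per (fun n x y => ¬F n a x y) fun n x y h => mt (ιF n a x y).mp h
  have im : ∀ a b, G a → G b → ∀ x y : Y, (∀ᶠ n in U, F n (imp a b) (x.1 n) (y.1 n)) ↔ ∀ x' y' : Y,
      (∀ᶠ n in U, le n (x'.1 n) (x.1 n)) → (∀ᶠ n in U, le n (y.1 n) (y'.1 n)) →
      (∀ᶠ n in U, F n a (x'.1 n) (y'.1 n)) → ∀ᶠ n in U, F n b (x'.1 n) (y'.1 n) := by
    refine fun a b ha hb x y => ⟨fun h x' y' a1 a2 a3 => ?_, fun h => ?_⟩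
    · filter_upwards [h, a1, a2, a3] with n h a1 a2 a3 using mp _ _ _ _ _ (mono _ _ _ _ _ _ a1 h a2) a3
    · by_contra hc
      obtain ⟨n, a1, a2, a3⟩ := pick x y _ (Ultrafilter.eventually_not.mpr hc)
      obtain ⟨x', y', b1, b2, b3, b4⟩ := hI n a b ha hb _ _ a1
      obtain ⟨s, rfl, hs⟩ := ext _ x'
      obtain ⟨t, rfl, ht⟩ := ext _ y'
      rw [← a2 n le_rfl] at b1
      rw [← a3 n le_rfl] at b2
      exact Ultrafilter.eventually_not.mp (pN b s t _ hs ht b4) (h s t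
        (per le ιle s x _ hs (fun k hk => a2 k (by omega)) b1)
        (per le ιle y t _ (fun k hk => a3 k (by omega)) ht b2) (pF a s t _ hs ht b3))
  refine ⟨Y, ⟨⟨fun s t => ∀ᶠ n in U, le n (s.1 n) (t.1 n), fun a s t => ∀ᶠ n in U, F n a (s.1 n) (t.1 n),
    fun s => Eventually.of_forall fun n => refl _ _, fun x y z a1 a2 => ?_, fun a x' x y y' a1 a2 a3 => ?_,
    fun a b ha hb x z => ⟨fun h => ?_, fun ⟨y, a1, a2⟩ => ?_⟩, im, fun a b ha hb hab => ?_⟩⟩⟩
  · filter_upwards [a1, a2] with n using trans _ _ _ _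
  · filter_upwards [a1, a2, a3] with n using mono _ _ _ _ _ _
  · obtain ⟨n, a1, a2, a3⟩ := pick x z _ h
    obtain ⟨y, b1, b2⟩ := hW n a b ha hb _ _ a1
    obtain ⟨s, rfl, hs⟩ := ext _ y
    rw [← a2 n le_rfl] at b1
    rw [← a3 n le_rfl] at b2
    exact ⟨s, pF a x s _ (fun k hk => a2 k (by omega)) hs b1, pF b s z _ hs (fun k hk => a3 k (by omega)) b2⟩
  · filter_upwards [a1, a2] with n using cmp _ _ _ _ _ _
  · by_contra! hc
    obtain ⟨s, e, hs⟩ := ext 0 x₀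
    refine hab (h0 a b ?_ ?_) <;> by_contra h <;> rw [← e] at h <;>
      refine Ultrafilter.eventually_not.mp (pN _ s s 0 hs hs h) ?_
    exacts [(im a b ha hb s s).mpr fun x y _ _ => (hc x y).mp, (im b a hb ha s s).mpr fun x y _ _ => (hc x y).mpr]

end H62.Weak
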