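import Pool.Agent.H62.Weak1

set_option autoImplicit false

namespace H62.Weak

inductive El (J : Type) : Type
  | c : El J
  | rc : El J
  | q : El J
  | e : Option J → El J
  | t : J → El J
  | h : J → El J
  | h' : J → El J
  | r : J → El J
  | k : J → El J
  | B : Set (Option J) → El J

open El
variable {J : Type}

def one : El J := B Set.univ

open Classical in
noncomputable def imp (a : El J) : El J → El J
  | c => if a = c then one else c
  | rc => if a = c ∨ a = rc then one else rc
  | q => if a = q then one else q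
  | e s => if a = e s then one else e s
  | t j => if a = t j ∨ a = e none ∨ a = e (some j) then one else t j
  | h j => if a = h j ∨ a = h' j then one else h j
  | h' j => if a = h' j then one else if a = h j then r j else if a = r j then h j else h' j
  | r j => if a = r j ∨ a = h' j then one else r j
  | k j => if a = k j then one else k j
  | B β => match a with
    | e s => B (insert s β)
    | B β' => B (β'ᶜ ∪ β)
    | _ => B β

open Classical in
noncomputable def comp (a : El J) : El J → El J
  | c => rc
  | rc => rc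
  | h j => if a = c ∨ a = rc then r j else one
  | h' j => r j
  | r j => r j
  | k j => if a = h j then t j else if a = h' j then e (some j) else one
  | B β => if a = c ∧ β = ∅ then q else one
  | _ => one

lemma not_rep [Finite J] (X : Type) [PartialOrder X] : ¬RepOn (comp (J := J)) imp X := by
  rintro ⟨f, hi, -, h1, h2⟩
  have top : ∀ p, p ∈ f one := fun p => by
    rw [show (one : El J) = imp c c by simp [imp], h2]; exact fun _ _ _ _ h => h
  have mp : ∀ a b {g p}, p ∈ f g → p ∈ f a → imp a b = g → p ∈ f b := by
    rintro a b _ p h3 h4 rfl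
    rw [h2] at h3; exact h3 _ _ le_rfl le_rfl h4
  have cp : ∀ {a b x y z}, (x, y) ∈ f a → (y, z) ∈ f b → (x, z) ∈ f (comp a b) := fun ha hb => by
    rw [h1]; exact ⟨_, ha, hb⟩
  have dp : ∀ a b {x z}, (x, z) ∈ f (comp a b) → ∃ y, (x, y) ∈ f a ∧ (y, z) ∈ f b := fun a b x z h => by
    rwa [h1] at h
  obtain ⟨⟨x, z⟩, hq⟩ : ∃ p, p ∉ f q := by
    by_contra! hc
    exact absurd (hi (Set.ext fun p => iff_of_true (hc p) (top p))) (by simp [one])
  obtain ⟨y, a1, a2⟩ := dp c (e none) (top (x, z))
  have he : ∀ s, (y, z) ∈ f (e s) := by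
    rintro (_ | j)
    · exact a2
    obtain ⟨w, b1, b2⟩ := dp (h j) (k j) (by simpa [comp] using mp _ (t j) (top _) a2 (by simp [imp]))
    have b3 : (x, w) ∈ f (r j) := by simpa [comp] using cp a1 b1
    simpa [comp] using cp (mp _ (h' j) b1 (cp (top (y, x)) b3) (by simp [imp, comp])) b2
  have hB : ∀ β : Set (Option J), β.Finite → (y, z) ∈ f (B β) → (y, z) ∈ f (B ∅) := fun β hβ => by
    induction β, hβ using Set.Finite.induction_on with
    | empty => exact id
    | insert _ _ ih => exact fun h => ih (mp _ _ h (he _) rfl)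
  exact hq (by simpa [comp] using cp a1 (hB _ Set.finite_univ (top _)))

inductive Sy (J : Type) : Type
  | C : Sy J
  | Q : Sy J
  | H : J → Sy J
  | K : J → Sy J
  | T : J → Sy J
  | E : Option J → Sy J
  | N : Option J → Sy J

structure PN (i : J) (X : Type) where
  le : X → X → Prop
  P : X → Prop
  R : J → X → Prop
  G : Sy J → X → X → Prop
  refl : ∀ x, le x x
  trans : ∀ x y z, le x y → le y z → le x z
  mG : ∀ g x' x y y', le x' x → G g x y → le y y' → G g x' y'
  mP : ∀ y y', le y y' → P y → P y'
  mR : ∀ j y y', le y y' → R j y → R j y'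
  cP : ∀ u v, G .C u v → P v
  dT : ∀ j u v, G (.E none) u v → G (.T j) u v
  eT : ∀ j u v, G (.E (some j)) u v → G (.T j) u v
  eN : ∀ s u v, G (.E s) u v → G (.N s) u v
  pH : ∀ j u v, P u → G (.H j) u v → R j v
  pT : ∀ j u v, j ≠ i → P u → G (.T j) u v → G (.E (some j)) u v
  hk : ∀ j u v w, G (.H j) u v → G (.K j) v w → G (.T j) u w
  hk' : ∀ j u v w, G (.H j) u v → R j v → G (.K j) v w → G (.E (some j)) u w
  cf : ∀ u v w, G .C u v → (∀ s, G (.N s) v w) → G .Q u w

variable {i : J} {X : Type} (N : PN i X)

def PN.F : El J → X → X → Prop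
  | c, u, v => N.G .C u v
  | rc, _, v => N.P v
  | q, u, v => N.G .Q u v
  | e s, u, v => N.G (.E s) u v
  | t j, u, v => N.G (.T j) u v
  | h j, u, v => N.G (.H j) u v
  | h' j, u, v => N.G (.H j) u v ∧ N.R j v
  | r j, _, v => N.R j v
  | k j, u, v => N.G (.K j) u v
  | B β, u, v => ∀ s ∉ β, N.G (.N s) u v

lemma PN.F_one (u v : X) : N.F one u v := fun _ h => absurd trivial h

lemma PN.F_mono (a : El J) (x' x y y' : X) (h1 : N.le x' x) (h2 : N.F a x y) (h3 : N.le y y') : N.F a x' y' := by
  have := N.mG
  have := N.mP
  have := N.mR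
  cases a <;> simp only [PN.F] at * <;> grind

lemma PN.F_mp (a b : El J) (x y : X) (h1 : N.F (imp a b) x y) (h2 : N.F a x y) : N.F b x y := by
  have := N.cP x y
  have := fun j => N.dT j x y
  have := fun j => N.eT j x y
  have := fun j => N.eN j x y
  cases b with
  | B β => cases a <;> simp only [PN.F, imp, Set.mem_insert_iff, Set.mem_union, Set.mem_compl_iff] at * <;> grind
  | _ => simp only [imp] at h1; split_ifs at h1 <;> grind [PN.F]

lemma PN.F_cmp (a b : El J) (x y z : X) (h1 : N.F a x y) (h2 : N.F b y z) : N.F (comp a b) x z := by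
  have := N.cP x y
  have := N.cP y z
  have := fun j => N.pH j y z
  have := fun j => N.hk j x y z
  have := fun j => N.hk' j x y z
  have := N.cf x y z
  have := N.F_one x z
  cases b <;> simp only [comp] <;> (try split_ifs) <;> grind [PN.F]

def N0 (i : J) : PN i Unit where
  le := fun _ _ => True
  P := fun _ => False
  R := fun _ _ => False
  G := fun _ _ _ => False
  refl := by simp
  trans := by simp
  mG := by simp
  mP := by simp
  mR := by simp
  cP := by simp
  dT := by simp
  eT := by simp
  eN := by simp
  pH := by simp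
  pT := by simp
  hk := by simp
  hk' := by simp
  cf := by simp

lemma anti (a b : El J) (h1 : (N0 i).F (imp a b) () ()) (h2 : (N0 i).F (imp b a) () ()) : a = b := by
  have o : ∀ a, (N0 i).F a () () ↔ a = one := by
    intro a; cases a <;> simp [PN.F, N0, one, Set.eq_univ_iff_forall]
  rw [o] at h1 h2
  cases a <;> cases b <;> simp only [imp, one] at h1 h2 <;> (try split_ifs at h1 h2) <;>
    simp_all [Set.ext_iff]
  grind

end H62.Weak
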