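import Pool.Agent.H62.Weak2

set_option autoImplicit false

namespace H62.Weak
open El Sum

variable {J : Type} {i : J} {X : Type} (N : PN i X)

structure WD where
  x : X
  z : X
  a : El J
  b : El J
  s : Option J
  hb : b ≠ k i
  hF : N.F (comp a b) x z
  hs : ∀ j, b = h j ∨ b = h' j → s = none

variable {N}

def WD.inn (w : WD N) (u : X) : Sy J → Prop
  | .C => N.le u w.x ∧ w.a = c
  | .H j => N.le u w.x ∧ (w.a = h j ∨ w.a = h' j)
  | .K j => N.le u w.x ∧ w.a = k j
  | _ => True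

def WD.out (w : WD N) (p : Prop) : Sy J → Prop
  | .C => p ∧ w.b = c
  | .H j => p ∧ (w.b = h j ∨ w.b = h' j)
  | .K j => p ∧ w.b = k j
  | .Q => True
  | .N s => s ≠ w.s ∨ (p ∧ w.b = B ∅)
  | .T j => some j ≠ w.s ∨ j = i
  | .E s => s ≠ w.s ∧ (s = none → w.s = some i)

def wle : X ⊕ WD N → X ⊕ WD N → Prop
  | inl u, inl v => N.le u v
  | inr w, inr w' => w = w'
  | _, _ => False

def wP : X ⊕ WD N → Prop
  | inl u => N.P u
  | inr w => w.a = c ∨ w.a = rc

def wR (j : J) : X ⊕ WD N → Prop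
  | inl u => N.R j u
  | inr w => w.a = h' j ∨ w.a = r j ∨ (w.a = h j ∧ N.P w.x)

def wG (g : Sy J) : X ⊕ WD N → X ⊕ WD N → Prop
  | inl u, inl v => N.G g u v
  | inl u, inr w => w.inn u g
  | inr w, inl v => w.out (N.le w.z v) g
  | inr w, inr _ => w.out False g

lemma WD.f1 (w : WD N) (e : w.b = c) : N.P w.z := by have := w.hF; rw [e] at this; exact this
lemma WD.f2 (w : WD N) (j : J) (e : w.b = h j ∨ w.b = h' j) (e' : w.a = c ∨ w.a = rc) : N.R j w.z := by
  have := w.hF; rcases e with e | e <;> simpa [e, e', comp, PN.F] using this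
lemma WD.f3 (w : WD N) (j : J) (e : w.b = k j) (e' : w.a = h j ∨ w.a = h' j) : N.G (.T j) w.x w.z := by
  have := w.hF
  rcases e' with e' | e' <;> simp only [e, e', comp, PN.F, reduceCtorEq, ↓reduceIte] at this
  exacts [this, N.eT _ _ _ this]
lemma WD.f4 (w : WD N) (j : J) (e : w.b = k j) (e' : w.a = h' j) : N.G (.E (some j)) w.x w.z := by
  simpa [e, e', comp, PN.F] using w.hF
lemma WD.f5 (w : WD N) (e : w.b = B ∅) (e' : w.a = c) : N.G .Q w.x w.z := by
  simpa [e, e', comp, PN.F] using w.hF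

variable (N)

def Wstep : PN i (X ⊕ WD N) where
  le := wle
  P := wP
  R := wR
  G := wG
  refl := by rintro (x | x); exacts [N.refl x, rfl]
  trans := by
    have := N.trans
    rintro (x | x) (y | y) (z | z) <;> simp only [wle] <;> grind
  mG := by
    have := N.trans
    have := N.mG
    rintro g (x | x) (y | y) (z | z) (u | u) <;> simp only [wle, wG] <;> cases g <;>
      (try simp only [WD.inn, WD.out]) <;> grind
  mP := by
    have := N.mP
    rintro (x | x) (y | y) <;> simp only [wle, wP] <;> grind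
  mR := by
    have := N.mR
    rintro j (x | x) (y | y) <;> simp only [wle, wR] <;> grind
  cP := by
    have := N.mP
    have := N.cP
    rintro (x | x) (y | y) <;> simp only [wG, wP, WD.inn, WD.out] <;> grind [WD.f1]
  dT := by
    have := N.dT
    rintro j (x | x) (y | y) <;> simp only [wG, WD.inn, WD.out] <;> grind
  eT := by
    have := N.eT
    rintro j (x | x) (y | y) <;> simp only [wG, WD.inn, WD.out] <;> grind
  eN := by
    have := N.eN
    rintro j (x | x) (y | y) <;> simp only [wG, WD.inn, WD.out] <;> grind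
  pH := by
    have := N.pH
    have := N.mP
    rintro j (x | x) (y | y) <;> simp only [wG, wP, wR, WD.inn, WD.out]
    · grind
    · grind
    · exact fun a b => N.mR _ _ _ b.1 (x.f2 j b.2 a)
    · grind
  pT := by
    have := N.pT
    rintro j (x | x) (y | y) <;> simp only [wG, wP, WD.inn, WD.out] <;> grind
  hk := by
    rintro j (x | x) (y | y) (z | z) <;> simp only [wG, WD.inn, WD.out]
    · exact N.hk j x y z
    · simp
    · exact fun a b => N.mG _ _ _ _ _ a.1 (y.f3 j b.2 a.2) b.1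
    · simp
    all_goals (have := x.hs j; grind)
  hk' := by
    rintro j (x | x) (y | y) (z | z) <;> simp only [wG, wR, WD.inn, WD.out]
    · exact N.hk' j x y z
    · simp
    · refine fun a b d => N.mG _ _ _ _ _ a.1 ?_ d.1
      rcases b with b | b | b
      · exact y.f4 j d.2 b
      · grind
      · exact N.pT _ _ _ (fun e => y.hb (e ▸ d.2)) b.2 (y.f3 j d.2 a.2)
    · simp
    all_goals (have := x.hs j; grind)
  cf := by
    rintro (x | x) (y | y) (z | z) <;> simp only [wG, WD.inn, WD.out]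
    · exact N.cf x y z
    · simp
    · intro a b
      obtain ⟨b1, b2⟩ := (b y.s).resolve_left (by simp)
      exact N.mG _ _ _ _ _ a.1 (y.f5 b2 a.2) b1
    all_goals simp

lemma W_F (a : El J) (x y : X) : (Wstep N).F a (inl x) (inl y) ↔ N.F a x y := by cases a <;> rfl

lemma W_fix (a b : El J) (hb : b ≠ k i) (x z : X) (hF : N.F (comp a b) x z) :
    ∃ y, (Wstep N).F a (inl x) y ∧ (Wstep N).F b y (inl z) := by
  have := N.refl x
  have := N.refl z
  have h1 : ∀ s hs, (Wstep N).F a (inl x) (inr ⟨x, z, a, b, s, hb, hF, hs⟩) := by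
    intro s hs; cases a <;> simp [PN.F, Wstep, wG, wP, wR, WD.inn, *]
  by_cases h2 : b = e none
  · exact ⟨_, h1 (some i) (by simp [h2]), by simp [h2, PN.F, Wstep, wG, WD.out]⟩
  by_cases h3 : ∃ β s, b = B β ∧ s ∈ β
  · obtain ⟨β, s, rfl, hs⟩ := h3
    exact ⟨_, h1 s (by simp), fun s' h => Or.inl fun e => h (e ▸ hs)⟩
  refine ⟨_, h1 none (by simp), ?_⟩
  cases b with
  | B β =>
    obtain rfl : β = ∅ := Set.eq_empty_of_forall_notMem fun s hs => h3 ⟨β, s, rfl, hs⟩
    exact fun _ _ => Or.inr ⟨this, rfl⟩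
  | rc => exact hF
  | r j => exact hF
  | h' j => exact ⟨⟨this, Or.inr rfl⟩, hF⟩
  | e s => cases s <;> simp_all [PN.F, Wstep, wG, WD.out]
  | _ => simp [PN.F, Wstep, wG, WD.out, *]

abbrev ID (J X : Type) := X × X × El J

def src : X ⊕ ID J X × Bool → Option X
  | inl u => some u
  | inr (δ, false) => some δ.1
  | inr (_, true) => none

def tgt : X ⊕ ID J X × Bool → Option X
  | inl u => some u
  | inr (_, false) => none
  | inr (δ, true) => some δ.2.1

def add (a : El J) : Sy J → Prop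
  | .C => a = c
  | .Q => a = q
  | .H j => a = h j ∨ a = h' j
  | .K j => a = k j
  | .T j => a = t j ∨ a = e none ∨ a = e (some j)
  | .E s => a = e s
  | .N s => a = e s ∨ ∃ β, a = B β ∧ s ∉ β

def iP : X ⊕ ID J X × Bool → Prop
  | inl u => N.P u
  | inr (_, false) => False
  | inr (δ, true) => N.P δ.2.1 ∨ δ.2.2 = c ∨ δ.2.2 = rc

def iR (j : J) : X ⊕ ID J X × Bool → Prop
  | inl u => N.R j u
  | inr (_, false) => False
  | inr (δ, true) => N.R j δ.2.1 ∨ δ.2.2 = h' j ∨ δ.2.2 = r j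

def ile : X ⊕ ID J X × Bool → X ⊕ ID J X × Bool → Prop
  | inl u, inl v => N.le u v
  | inl u, inr (δ, true) => N.le u δ.2.1
  | inr (δ, false), inl v => N.le δ.1 v
  | inr (δ, false), inr (δ', true) => N.le δ.1 δ'.2.1
  | inr (δ, false), inr (δ', false) => δ = δ'
  | inr (δ, true), inr (δ', true) => δ = δ'
  | _, _ => False

def iG (g : Sy J) : X ⊕ ID J X × Bool → X ⊕ ID J X × Bool → Prop
  | inl u, inl v => N.G g u v
  | inl u, inr (δ, true) => N.G g u δ.2.1
  | inr (δ, false), inl v => N.G g δ.1 v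
  | inr (δ, false), inr (δ', true) => N.G g δ.1 δ'.2.1 ∨ (δ = δ' ∧ add δ.2.2 g)
  | _, _ => False

def Istep : PN i (X ⊕ ID J X × Bool) where
  le := ile N
  P := iP N
  R := iR N
  G := iG N
  refl := by rintro (x | ⟨x, _ | _⟩); exacts [N.refl x, rfl, rfl]
  trans := by
    have := N.trans
    rintro (x | ⟨x, _ | _⟩) (y | ⟨y, _ | _⟩) (z | ⟨z, _ | _⟩) <;> simp only [ile] <;> grind
  mG := by
    have := N.mG
    have := fun g x' x y h1 h2 => N.mG g x' x y y h1 h2 (N.refl y)
    have := fun g x y y' h1 h2 => N.mG g x x y y' (N.refl x) h1 h2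
    rintro g (x | ⟨x, _ | _⟩) (y | ⟨y, _ | _⟩) (z | ⟨z, _ | _⟩) (u | ⟨u, _ | _⟩) <;> simp only [ile, iG] <;> grind
  mP := by
    have := N.mP
    rintro (x | ⟨x, _ | _⟩) (y | ⟨y, _ | _⟩) <;> simp only [ile, iP] <;> grind
  mR := by
    have := N.mR
    rintro j (x | ⟨x, _ | _⟩) (y | ⟨y, _ | _⟩) <;> simp only [ile, iR] <;> grind
  cP := by
    have := N.cP
    rintro (x | ⟨x, _ | _⟩) (y | ⟨y, _ | _⟩) <;> simp only [iG, iP, add] <;> grind
  dT := by
    have := N.dT
    rintro j (x | ⟨x, _ | _⟩) (y | ⟨y, _ | _⟩) <;> simp only [iG, add] <;> grind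
  eT := by
    have := N.eT
    rintro j (x | ⟨x, _ | _⟩) (y | ⟨y, _ | _⟩) <;> simp only [iG, add] <;> grind
  eN := by
    have := N.eN
    rintro j (x | ⟨x, _ | _⟩) (y | ⟨y, _ | _⟩) <;> simp only [iG, add] <;> grind
  pH := by
    have := N.pH
    rintro j (x | ⟨x, _ | _⟩) (y | ⟨y, _ | _⟩) <;> simp only [iG, iP, iR, add] <;> grind
  pT := by
    have := N.pT
    rintro j (x | ⟨x, _ | _⟩) (y | ⟨y, _ | _⟩) <;> simp only [iG, iP, add] <;> grind
  hk := by
    have := N.hk
    rintro j (x | ⟨x, _ | _⟩) (y | ⟨y, _ | _⟩) (z | ⟨z, _ | _⟩) <;> simp only [iG, add] <;> grind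
  hk' := by
    have := N.hk'
    rintro j (x | ⟨x, _ | _⟩) (y | ⟨y, _ | _⟩) (z | ⟨z, _ | _⟩) <;> simp only [iG, iR, add] <;> grind
  cf := by
    rintro (x | ⟨x, _ | _⟩) (y | ⟨y, _ | _⟩) (z | ⟨z, _ | _⟩) <;> simp only [iG, add] <;>
      first | exact N.cf _ _ _ | exact fun a b => Or.inl (N.cf _ _ _ a b) | simp

lemma I_F (a : El J) (x y : X) : (Istep N).F a (inl x) (inl y) ↔ N.F a x y := by cases a <;> rfl

lemma I_fix (a b : El J) (x y : X) (hF : ¬N.F (imp a b) x y) : ∃ x' y', (Istep N).le x' (inl x) ∧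
    (Istep N).le (inl y) y' ∧ (Istep N).F a x' y' ∧ ¬(Istep N).F b x' y' := by
  refine ⟨inr ((x, y, a), false), inr ((x, y, a), true), N.refl x, N.refl y, ?_, ?_⟩
  · cases a <;> simp [PN.F, Istep, iG, iP, iR, add]
    tauto
  · have := N.F_one x y
    cases b with
    | B β =>
      cases a <;> simp only [PN.F, imp, Istep, iG, add, Set.mem_insert_iff, Set.mem_union,
        Set.mem_compl_iff] at * <;> grind
    | _ => simp only [imp] at hF; split_ifs at hF <;> simp only [PN.F, Istep, iG, iP, iR, add] at * <;> grind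

def stage (i : J) : ℕ → Σ X : Type, PN i X
  | 0 => ⟨Unit, N0 i⟩
  | n + 1 => ⟨_, Istep (Wstep (stage i n).2)⟩

lemma prep (i : J) : ∃ Y, Nonempty (PRep (comp (J := J)) imp (· ≠ k i) Y) :=
  limit comp imp (· ≠ k i) (fun n => (stage i n).1) () (fun n => (stage i n).2.le) (fun n => (stage i n).2.F)
    (fun _ x => inl (inl x)) (fun _ => PN.refl _) (fun _ => PN.trans _) (fun _ => PN.F_mono _)
    (fun _ => PN.F_cmp _) (fun _ => PN.F_mp _) (fun _ _ _ h => h)
    (fun _ a _ _ => (I_F _ a _ _).trans (W_F _ a _ _))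
    (fun _ a b _ hb x z h => by
      obtain ⟨y, h1, h2⟩ := W_fix _ a b hb x z h
      exact ⟨inl y, (I_F _ _ _ _).mpr h1, (I_F _ _ _ _).mpr h2⟩)
    (fun _ a b _ _ x y h => I_fix _ a b _ _ (mt (W_F _ _ _ _).mp h)) anti

end H62.Weak
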