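import Pool.Agent.H62.Weak3

set_option autoImplicit false
open FirstOrder Filter

namespace H62.Weak

/-- the two binary function symbols -/
inductive Fn : ℕ → Type
  | cp : Fn 2
  | im : Fn 2

/-- the signature `{;, →}` -/
def L2 : Language := ⟨Fn, fun _ => Empty⟩

/-- the structure given by the two operations -/
@[reducible] def str2 {A : Type} (comp imp : A → A → A) : L2.Structure A where
  funMap
    | .cp => fun x => comp (x 0) (x 1)
    | .im => fun x => imp (x 0) (x 1)
  RelMap := fun r => r.elim

/-- `(A, comp, imp)` is a model of `T` -/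
def Models {A : Type} (comp imp : A → A → A) (T : L2.Theory) : Prop :=
  @Language.Theory.Model L2 A (str2 comp imp) T

instance (n : ℕ) : Finite (El (Fin n)) :=
  Finite.of_surjective (fun p : Fin 10 × Option (Fin n) × Set (Option (Fin n)) => match p.2.1 with
    | none => (![.c, .rc, .q, .e none, .B p.2.2, .c, .c, .c, .c, .c] : Fin 10 → El (Fin n)) p.1
    | some j => (![.e (some j), .t j, .h j, .h' j, .r j, .k j, .c, .c, .c, .c] : Fin 10 → El (Fin n)) p.1)
    fun x => by
      rcases x with _ | _ | _ | (_ | j) | j | j | j | j | j | β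
      exacts [⟨(0, none, ∅), rfl⟩, ⟨(1, none, ∅), rfl⟩, ⟨(2, none, ∅), rfl⟩, ⟨(3, none, ∅), rfl⟩,
        ⟨(0, some j, ∅), rfl⟩, ⟨(1, some j, ∅), rfl⟩, ⟨(2, some j, ∅), rfl⟩, ⟨(3, some j, ∅), rfl⟩,
        ⟨(4, some j, ∅), rfl⟩, ⟨(5, some j, ∅), rfl⟩, ⟨(4, none, β), rfl⟩]

lemma exists_V : ∃ V : Ultrafilter (Σ n, Fin n), ∀ a : ∀ n, El (Fin n),
    ∀ᶠ p : Σ n, Fin n in V, a p.1 ≠ .k p.2 := by
  classical
  obtain ⟨V, hV⟩ := Ultrafilter.exists_ultrafilter_of_finite_inter_nonempty
    (Set.range fun a : ∀ n, El (Fin n) => {p : Σ n, Fin n | a p.1 ≠ .k p.2}) fun T hT => by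
      choose a ha using fun s : T => hT s.2
      obtain ⟨j, hj⟩ : ∃ j : Fin (T.card + 1), ∀ s, a s _ ≠ .k j := by
        by_contra! hc
        choose f hf using hc
        have := Fintype.card_le_of_injective f fun j j' e => by
          have := hf j; rw [e, hf j'] at this; exact (El.k.inj this).symm
        simp at this
      exact ⟨⟨_, j⟩, fun s hs => (Set.ext_iff.mp (ha ⟨s, hs⟩) _).mp (hj ⟨s, hs⟩)⟩
  exact ⟨V, fun a => hV ⟨a, rfl⟩⟩

theorem not_fin : ¬∃ T : L2.Theory, T.Finite ∧ ∀ (A : Type) [Nonempty A] (cp im : A → A → A),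
    Models cp im T ↔ ∃ (X : Type) (_ : PartialOrder X), RepOn cp im X := by
  rintro ⟨T, hT, H⟩
  obtain ⟨V, hV⟩ := exists_V
  have : ∀ n, Nonempty (El (Fin n)) := fun _ => ⟨.c⟩
  let _ : ∀ n, L2.Structure (El (Fin n)) := fun n => str2 comp imp
  let U : Ultrafilter ℕ := V.map Sigma.fst
  let B := (U : Filter ℕ).Product fun n => El (Fin n)
  let cp : B → B → B := fun a b => Language.Structure.funMap (L := L2) Fn.cp ![a, b]
  let im : B → B → B := fun a b => Language.Structure.funMap (L := L2) Fn.im ![a, b]
  have e : str2 cp im = (inferInstance : L2.Structure B) := by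
    refine Language.Structure.ext ?_ (by ext _ r; exact r.elim)
    ext _ f x
    cases f <;> exact congrArg _ (by ext i; fin_cases i <;> rfl)
  let o : B → ∀ n, El (Fin n) := Quotient.out
  have ho : ∀ a : B, (o a : B) = a := Quotient.out_eq
  have h2 : ∀ (f : Fn 2) (a b : B), ∀ᶠ p : Σ n, Fin n in V, o (Language.Structure.funMap (L := L2) f ![a, b]) p.1 =
      Language.Structure.funMap (L := L2) f ![o a p.1, o b p.1] := by
    intro f a b
    have := Language.Ultraproduct.funMap_cast (L := L2) (u := U) f ![o a, o b]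
    rw [show (fun i => ((![o a, o b] i : ∀ n, El (Fin n)) : B)) = ![a, b] by
      ext i; fin_cases i <;> exact ho _] at this
    filter_upwards [show ∀ᶠ p : Σ n, Fin n in V, _ from Quotient.exact ((ho _).trans this)] with p hp
    exact hp.trans (congrArg _ (by ext i; fin_cases i <;> rfl))
  choose Y hY using fun p : Σ n, Fin n => prep p.2
  have N := fun p => (hY p).some
  have ne : ∀ p, Nonempty (Y p) := fun p => ⟨((N p).inj .c .q (by simp) (by simp) (by simp)).choose⟩
  have rep : PRep cp im (fun _ => True) (∀ p, Y p) :=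
    { le := fun x y => ∀ᶠ p : Σ n, Fin n in V, (N p).le (x p) (y p)
      F := fun a x y => ∀ᶠ p : Σ n, Fin n in V, (N p).F (o a p.1) (x p) (y p)
      refl := fun x => Eventually.of_forall fun p => (N p).refl _
      trans := fun x y z a b => by filter_upwards [a, b] with p using (N p).trans _ _ _
      mono := fun a x' x y y' a b c => by filter_upwards [a, b, c] with p using (N p).mono _ _ _ _ _
      cmp := fun a b _ _ x z => by
        refine (eventually_congr ?_).trans ((Filter.skolem (P := fun p y => (N p).F (o a p.1) (x p) y ∧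
          (N p).F (o b p.1) y (z p))).trans (exists_congr fun _ => eventually_and))
        filter_upwards [h2 .cp a b, hV (o a), hV (o b)] with p h1 h3 h4
        rw [h1]; exact (N p).cmp _ _ h3 h4 _ _
      im := fun a b _ _ x y => by
        have k1 : ∀ᶠ p : Σ n, Fin n in V, ((N p).F (o (im a b) p.1) (x p) (y p) ↔ ∀ x' y', (N p).le x' (x p) →
            (N p).le (y p) y' → (N p).F (o a p.1) x' y' → (N p).F (o b p.1) x' y') := by
          filter_upwards [h2 .im a b, hV (o a), hV (o b)] with p h1 h3 h4
          rw [h1]; exact (N p).im _ _ h3 h4 _ _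
        rw [eventually_congr k1]
        refine ⟨fun h x' y' a1 a2 a3 => ?_, fun h => ?_⟩
        · filter_upwards [h, a1, a2, a3] with p h using h _ _
        · by_contra hc
          rw [← Ultrafilter.eventually_not] at hc
          simp only [not_forall] at hc
          obtain ⟨x', hc⟩ := Filter.skolem.mp hc
          obtain ⟨y', hc⟩ := Filter.skolem.mp hc
          refine Ultrafilter.eventually_not.mp (hc.mono fun p h => h.2.2.2)
            (h x' y' (hc.mono fun p h => h.1) (hc.mono fun p h => h.2.1) (hc.mono fun p h => h.2.2.1))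
      inj := fun a b _ _ hab => by
        have k1 : ∀ᶠ p : Σ n, Fin n in V, ∃ x y, ¬((N p).F (o a p.1) x y ↔ (N p).F (o b p.1) x y) := by
          have : ¬∀ᶠ p : Σ n, Fin n in V, o a p.1 = o b p.1 := fun h => hab (by rw [← ho a, ← ho b]; exact Quotient.sound h)
          filter_upwards [Ultrafilter.eventually_not.mpr this, hV (o a), hV (o b)] with p h1 h3 h4
          exact (N p).inj _ _ h3 h4 h1
        obtain ⟨x, k1⟩ := Filter.skolem.mp k1
        obtain ⟨y, k1⟩ := Filter.skolem.mp k1
        refine ⟨x, y, fun h => Ultrafilter.eventually_not.mp k1 ?_⟩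
        by_cases h' : ∀ᶠ p : Σ n, Fin n in V, (N p).F (o a p.1) (x p) (y p)
        · filter_upwards [h', h.mp h'] with p using iff_of_true
        · filter_upwards [Ultrafilter.eventually_not.mpr h', Ultrafilter.eventually_not.mpr (mt h.mpr h')]
            with p using iff_of_false }
  have hB := (H B cp im).mpr rep.rep
  rw [Models, e, Language.Theory.model_iff] at hB
  obtain ⟨n, hn⟩ := ((eventually_all_finite hT).mpr fun φ hφ =>
    (Language.Ultraproduct.sentence_realize φ).mp (hB φ hφ)).exists
  obtain ⟨X, _, h⟩ := (H _ comp imp).mp ⟨hn⟩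
  exact not_rep X h

end H62.Weak
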