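import Pool.Agent.H62.WeakDefs

set_option autoImplicit false
open Finset

namespace H62.Weak.Pt


/-- the point algebra: sets of the atoms `<`, `=`, `>` -/
def at3 (x y : ℚ) : Fin 3 := if x < y then 0 else if x = y then 1 else 2

def tb (a b c : Fin 3) : Prop := (a = 1 ∧ b = c) ∨ (b = 1 ∧ a = c) ∨ (a = b ∧ b = c) ∨ (a ≠ 1 ∧ b ≠ 1 ∧ a ≠ b)

instance (a b c : Fin 3) : Decidable (tb a b c) := by unfold tb; infer_instance

def comp (A B : Finset (Fin 3)) : Finset (Fin 3) := univ.filter fun c => ∃ a ∈ A, ∃ b ∈ B, tb a b c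

def imp (A B : Finset (Fin 3)) : Finset (Fin 3) := Aᶜ ∪ B

lemma at0 {x y : ℚ} : at3 x y = 0 ↔ x < y := by unfold at3; split_ifs <;> simp [*]
lemma at1 {x y : ℚ} : at3 x y = 1 ↔ x = y := by unfold at3; split_ifs <;> simp [*]; linarith
lemma at2 {x y : ℚ} : at3 x y = 2 ↔ y < x := by
  unfold at3; split_ifs with h h' <;> simp
  exacts [h.le, h'.le, lt_of_le_of_ne (not_lt.mp h) (Ne.symm h')]

lemma tb_iff (x z : ℚ) (a b : Fin 3) : tb a b (at3 x z) ↔ ∃ y, at3 x y = a ∧ at3 y z = b := by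
  have e0 : 0 = at3 x z ↔ x < z := eq_comm.trans at0
  have e1 : 1 = at3 x z ↔ x = z := eq_comm.trans at1
  have e2 : 2 = at3 x z ↔ z < x := eq_comm.trans at2
  fin_cases a <;> fin_cases b <;> simp [tb, at0, at1, at2, e0, e1, e2]
  · exact ⟨fun h => exists_between h, fun ⟨_, a, b⟩ => a.trans b⟩
  · exact ⟨max x z + 1, by linarith [le_max_left x z], by linarith [le_max_right x z]⟩
  · exact ⟨min x z - 1, by linarith [min_le_left x z], by linarith [min_le_right x z]⟩
  · exact ⟨fun h => (exists_between h).imp fun _ h => h.symm, fun ⟨_, a, b⟩ => b.trans a⟩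

@[reducible] def disc : PartialOrder ℚ where
  le := Eq
  lt := fun _ _ => False
  lt_iff_le_not_ge := fun _ _ => ⟨False.elim, fun h => h.2 h.1.symm⟩
  le_refl := Eq.refl
  le_trans := fun _ _ _ => Eq.trans
  le_antisymm := fun _ _ h _ => h

lemma rep : @RepOn _ comp imp ℚ disc := by
  refine ⟨fun A => {p | at3 p.1 p.2 ∈ A}, fun A B h => ?_, ?_, fun A B => Set.ext fun p => ?_,
    fun A B => Set.ext fun p => ?_⟩
  · ext c
    have := fun x y => Set.ext_iff.mp h (x, y)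
    fin_cases c
    exacts [by simpa [at3] using this 0 1, by simpa [at3] using this 0 0, by simpa [at3, zero_lt_one.not_gt] using this 1 0]
  · rintro A _ x y _ rfl h rfl
    exact h
  · simp only [comp, rcomp, Set.mem_ofPred_eq, mem_filter, mem_univ, true_and, tb_iff]
    exact ⟨fun ⟨_, h1, _, h2, y, e1, e2⟩ => ⟨y, e1 ▸ h1, e2 ▸ h2⟩, fun ⟨y, h1, h2⟩ => ⟨_, h1, _, h2, y, rfl, rfl⟩⟩
  · simp only [imp, rimp, Set.mem_ofPred_eq, mem_union, mem_compl]
    exact ⟨by rintro h _ _ rfl rfl; tauto, fun h => imp_iff_not_or.mp (h _ _ rfl rfl)⟩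

theorem no_frp : ∃ (A : Type) (_ : Finite A) (comp imp : A → A → A),
    (∃ (X : Type) (_ : PartialOrder X), RepOn comp imp X) ∧
      ∀ (X : Type) [PartialOrder X] [Finite X], ¬RepOn comp imp X := by
  refine ⟨_, inferInstance, comp, imp, ⟨ℚ, disc, rep⟩, fun X _ _ ⟨h, hi, _, h1, h2⟩ => ?_⟩
  have top : ∀ p, p ∈ h univ := fun p => by
    rw [show univ = imp ∅ ∅ by decide, h2]; exact fun _ _ _ _ h => h
  have mp : ∀ a b p, p ∈ h (imp a b) → p ∈ h a → p ∈ h b := fun a b p h3 => by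
    rw [h2] at h3; exact h3 _ _ le_rfl le_rfl
  have le : ∀ a b p, imp a b = univ → p ∈ h a → p ∈ h b := fun a b p e => mp a b p (e ▸ top p)
  have bot : ∀ p, p ∉ h ∅ := fun p hp => by
    have : ∀ q, q ∈ h ∅ := fun q => by
      rw [show ∅ = comp (comp univ ∅) univ by decide, h1, h1]
      exact ⟨p.2, ⟨p.1, top _, hp⟩, top _⟩
    exact absurd (hi (Set.ext fun q => iff_of_true (this q) (top q))) (by decide)
  have irr : ∀ x, (x, x) ∉ h {0} := fun x hx => by
    have := top (x, x)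
    rw [show univ = comp {1} univ by decide, h1] at this
    obtain ⟨y, hy, -⟩ := this
    have a : (x, y) ∈ h {0} := by rw [show {0} = comp {0} {1} by decide, h1]; exact ⟨x, hx, hy⟩
    exact bot _ (mp _ _ _ (le {1} (imp {0} ∅) _ (by decide) hy) a)
  have e : h {0} = rcomp (h {0}) (h {0}) := by rw [← h1]; congr 1
  have : IsStrictOrder X fun x y => (x, y) ∈ h {0} :=
    { irrefl := irr, trans := fun x y z a b => e ▸ ⟨y, a, b⟩ }
  obtain ⟨⟨x, y⟩, hp⟩ : ∃ p, p ∈ h {0} := by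
    by_contra! hc
    exact absurd (hi (Set.ext fun q => iff_of_false (hc q) (bot q))) (by decide)
  obtain ⟨z, h3, h4⟩ := (Finite.wellFounded_of_trans_of_irrefl fun x y => (x, y) ∈ h {0}).has_min
    {z | (x, z) ∈ h {0}} ⟨y, hp⟩
  obtain ⟨w, h5, h6⟩ : (x, z) ∈ rcomp (h {0}) (h {0}) := e ▸ h3
  exact h4 w h5 h6

end H62.Weak.Pt
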