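import Mathlib

set_option autoImplicit false

namespace H62.Weak

variable {X : Type}

/-- relational composition -/
def rcomp (R S : Set (X × X)) : Set (X × X) := {p | ∃ y, (p.1, y) ∈ R ∧ (y, p.2) ∈ S}

/-- weakening relation -/
def IsWk [PartialOrder X] (R : Set (X × X)) : Prop :=
  ∀ x' x y y', x' ≤ x → (x, y) ∈ R → y ≤ y' → (x', y') ∈ R

/-- weakening implication -/
def rimp [PartialOrder X] (R S : Set (X × X)) : Set (X × X) :=
  {p | ∀ x' y', x' ≤ p.1 → p.2 ≤ y' → (x', y') ∈ R → (x', y') ∈ S}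

/-- `(A, comp, imp)` has a representation by weakening relations on the poset `X` -/
def RepOn {A : Type} (comp imp : A → A → A) (X : Type) [PartialOrder X] : Prop :=
  ∃ h : A → Set (X × X), Function.Injective h ∧ (∀ a, IsWk (h a)) ∧
    (∀ a b, h (comp a b) = rcomp (h a) (h b)) ∧ ∀ a b, h (imp a b) = rimp (h a) (h b)

end H62.Weak
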